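import Pool.Agent.Lib_MP_36b788.SDefs

/-!
# ABS: deterministic lower bound for `log (S⁺/S)`

PROOF. Index set finite, `n = card ι ≥ 1`. `e := ε`. `S⁺/S = 1 + a + b + c`,
`a = S⁻¹ Σ W(2⟪Y,T⟫ + ‖Y‖²λ)`, `b = S⁻¹ Σ W(‖T‖² + 2⟪Y,T⟫λ + ½‖Y‖²λ²)`, `c` the rest
(`e^λ = 1+λ+½λ²+O(λ³)`). From `W‖Y‖² ≤ S`, `W‖T‖² ≤ ε²S`, `|λ| ≤ ε ≤ 1`:
`W‖Y‖‖T‖ ≤ εS`, so `|a| ≤ 3nε`, `|b| ≤ 4nε²`, `|c| ≤ 10 n ε³`. With `ε ≤ 1/(100 n)`: `|a+b+c| ≤ 1/2`,
`log(1+t) ≥ t - ½t² - |t|³`, `t² ≤ a² + C n² ε³`; so `log(S⁺/S) ≥ a + b - ½a² - C n³ε³`.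
Cauchy-Schwarz: `a = S⁻¹ΣW‖Y‖(2⟪Ŷ,T⟫+‖Y‖λ)`, `Ŷ = uni Y` (`⟪Y,T⟫ = ‖Y‖⟪Ŷ,T⟫`, also if `Y = 0`), so
`a² ≤ S⁻¹ΣW(2⟪Ŷ,T⟫+‖Y‖λ)² = S⁻¹ΣW(4⟪Ŷ,T⟫²+4⟪Y,T⟫λ+‖Y‖²λ²)` and
`b - ½a² ≥ S⁻¹ΣW(‖T‖² - 2⟪Ŷ,T⟫²)` (the mixed terms cancel exactly). The constant `1000` is generous.
-/

open MeasureTheory

namespace Dyn

private theorem Absl_log {x : ℝ} (hx : |x| ≤ 1 / 2) :
    x - x ^ 2 / 2 - 2 * |x| ^ 3 ≤ Real.log (1 + x) := by
  have h1 := Real.abs_log_sub_add_sum_range_le (x := -x) (by rw [abs_neg]; linarith) 2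
  rw [abs_neg] at h1
  have h2 : ∑ i ∈ Finset.range 2, (-x) ^ (i + 1) / ((i : ℝ) + 1) = -x + x ^ 2 / 2 := by
    rw [Finset.sum_range_succ, Finset.sum_range_one]
    norm_num
  rw [h2, show (1 : ℝ) - -x = 1 + x by ring] at h1
  have h3 : |x| ^ (2 + 1) / (1 - |x|) ≤ 2 * |x| ^ 3 := by
    rw [div_le_iff₀ (by linarith)]
    have h4 : 0 ≤ |x| ^ 3 := by positivity
    have h5 : |x| ^ (2 + 1) = |x| ^ 3 := by norm_num
    rw [h5]
    nlinarith
  have h4 := (abs_le.1 (h1.trans h3)).1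
  linarith

private theorem Absl_exp3 {x : ℝ} (hx : |x| ≤ 1) : |Real.exp x - 1 - x - x ^ 2 / 2| ≤ |x| ^ 3 := by
  have h1 := Real.exp_bound hx (n := 3) (by norm_num)
  have h2 : ∑ m ∈ Finset.range 3, x ^ m / (m.factorial : ℝ) = 1 + x + x ^ 2 / 2 := by
    rw [Finset.sum_range_succ, Finset.sum_range_succ, Finset.sum_range_one]
    norm_num [Nat.factorial]
  rw [h2] at h1
  have h3 : Real.exp x - 1 - x - x ^ 2 / 2 = Real.exp x - (1 + x + x ^ 2 / 2) := by ring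
  rw [h3]
  refine h1.trans ?_
  have h4 : 0 ≤ |x| ^ 3 := by positivity
  have h5 : (((Nat.succ 3 : ℕ) : ℝ) / ((Nat.factorial 3 : ℕ) * (3 : ℕ))) ≤ 1 := by
    norm_num [Nat.factorial]
  calc |x| ^ 3 * (((Nat.succ 3 : ℕ) : ℝ) / ((Nat.factorial 3 : ℕ) * (3 : ℕ))) ≤ |x| ^ 3 * 1 :=
        mul_le_mul_of_nonneg_left h5 h4
    _ = |x| ^ 3 := mul_one _

/-- the hypotheses in scalar form -/
private structure AbslH {ι : Type} [Fintype ι] (w y t r l : ι → ℝ) (S ε : ℝ) : Prop where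
  hw : ∀ z, 0 ≤ w z
  hy : ∀ z, 0 ≤ y z
  ht : ∀ z, 0 ≤ t z
  hr : ∀ z, |r z| ≤ t z
  hS : S = ∑ z, w z * y z ^ 2
  pos : 0 < S
  e0 : 0 ≤ ε
  e1 : ε * (100 * Fintype.card ι) ≤ 1
  hT : ∀ z, w z * t z ^ 2 ≤ ε ^ 2 * S
  hl : ∀ z, |l z| ≤ ε

private theorem AbslH.n1 {ι : Type} [Fintype ι] {w y t r l : ι → ℝ} {S ε : ℝ}
    (h : AbslH w y t r l S ε) : (1 : ℝ) ≤ Fintype.card ι := by
  have : Nonempty ι := by
    by_contra hc
    rw [not_nonempty_iff] at hc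
    have h1 := h.hS
    rw [Finset.univ_eq_empty, Finset.sum_empty] at h1
    have := h.pos
    linarith
  exact_mod_cast Fintype.card_pos

private theorem AbslH.ey {ι : Type} [Fintype ι] {w y t r l : ι → ℝ} {S ε : ℝ}
    (h : AbslH w y t r l S ε) (z : ι) : w z * y z ^ 2 ≤ S := by
  rw [h.hS]
  exact Finset.single_le_sum (f := fun z => w z * y z ^ 2)
    (fun i _ => mul_nonneg (h.hw i) (sq_nonneg _)) (Finset.mem_univ z)

private theorem AbslH.eyt {ι : Type} [Fintype ι] {w y t r l : ι → ℝ} {S ε : ℝ}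
    (h : AbslH w y t r l S ε) (z : ι) : w z * (y z * t z) ≤ ε * S := by
  have h0 : 0 ≤ ε * S := mul_nonneg h.e0 h.pos.le
  have h1 : 0 ≤ w z * (y z * t z) := mul_nonneg (h.hw z) (mul_nonneg (h.hy z) (h.ht z))
  refine (sq_le_sq₀ h1 h0).1 ?_
  calc (w z * (y z * t z)) ^ 2 = (w z * y z ^ 2) * (w z * t z ^ 2) := by ring
    _ ≤ S * (ε ^ 2 * S) := mul_le_mul (h.ey z) (h.hT z) (mul_nonneg (h.hw z) (sq_nonneg _)) h.pos.le
    _ = (ε * S) ^ 2 := by ring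

private theorem Absl_sum {ι : Type} [Fintype ι] {f : ι → ℝ} {S B : ℝ} (hS : 0 < S)
    (hf : ∀ z, |f z| ≤ B * S) : |1 / S * ∑ z, f z| ≤ Fintype.card ι * B := by
  rw [abs_mul, abs_of_pos (by positivity : (0 : ℝ) < 1 / S)]
  have h1 : |∑ z, f z| ≤ Fintype.card ι * (B * S) := by
    calc |∑ z, f z| ≤ ∑ z, |f z| := Finset.abs_sum_le_sum_abs _ _
      _ ≤ ∑ z : ι, B * S := Finset.sum_le_sum fun z _ => hf z
      _ = _ := by rw [Finset.sum_const, nsmul_eq_mul, Finset.card_univ]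
  calc 1 / S * |∑ z, f z| ≤ 1 / S * (Fintype.card ι * (B * S)) :=
        mul_le_mul_of_nonneg_left h1 (by positivity)
    _ = Fintype.card ι * B := by field_simp

/-- Cauchy-Schwarz -/
private theorem AbslH.cs {ι : Type} [Fintype ι] {w y t r l : ι → ℝ} {S ε : ℝ}
    (h : AbslH w y t r l S ε) :
    (1 / S * ∑ z, w z * (2 * (y z * r z) + y z ^ 2 * l z)) ^ 2 ≤
      1 / S * ∑ z, w z * (2 * r z + y z * l z) ^ 2 := by
  have hSp := h.pos
  have h1 : (∑ z, w z * (2 * (y z * r z) + y z ^ 2 * l z)) ^ 2 ≤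
      (∑ z, w z * y z ^ 2) * ∑ z, w z * (2 * r z + y z * l z) ^ 2 := by
    have h2 := Finset.sum_mul_sq_le_sq_mul_sq Finset.univ (fun z => √(w z) * y z)
      (fun z => √(w z) * (2 * r z + y z * l z))
    have e1 : ∀ z, √(w z) * y z * (√(w z) * (2 * r z + y z * l z)) =
        w z * (2 * (y z * r z) + y z ^ 2 * l z) := by
      intro z
      have := Real.mul_self_sqrt (h.hw z)
      calc √(w z) * y z * (√(w z) * (2 * r z + y z * l z))
          = (√(w z) * √(w z)) * (y z * (2 * r z + y z * l z)) := by ring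
        _ = _ := by rw [this]; ring
    have e2 : ∀ z, (√(w z) * y z) ^ 2 = w z * y z ^ 2 := by
      intro z
      rw [mul_pow, Real.sq_sqrt (h.hw z)]
    have e3 : ∀ z, (√(w z) * (2 * r z + y z * l z)) ^ 2 = w z * (2 * r z + y z * l z) ^ 2 := by
      intro z
      rw [mul_pow, Real.sq_sqrt (h.hw z)]
    simp only [e1, e2, e3] at h2
    exact h2
  rw [← h.hS] at h1
  calc (1 / S * ∑ z, w z * (2 * (y z * r z) + y z ^ 2 * l z)) ^ 2
      = (1 / S) ^ 2 * (∑ z, w z * (2 * (y z * r z) + y z ^ 2 * l z)) ^ 2 := by ring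
    _ ≤ (1 / S) ^ 2 * (S * ∑ z, w z * (2 * r z + y z * l z) ^ 2) :=
        mul_le_mul_of_nonneg_left h1 (by positivity)
    _ = _ := by field_simp

private theorem AbslH.main {ι : Type} [Fintype ι] {w y t r l : ι → ℝ} {S ε : ℝ}
    (h : AbslH w y t r l S ε) :
    0 < ∑ z, w z * Real.exp (l z) * (y z ^ 2 + 2 * (y z * r z) + t z ^ 2) ∧
    1 / S * ∑ z, w z * (2 * (y z * r z) + t z ^ 2 - 2 * r z ^ 2 + y z ^ 2 * l z)
        - 1000 * (Fintype.card ι : ℝ) ^ 3 * ε ^ 3 ≤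
      Real.log (∑ z, w z * Real.exp (l z) * (y z ^ 2 + 2 * (y z * r z) + t z ^ 2)) - Real.log S := by
  have hSp := h.pos
  have hn := h.n1
  have he0 := h.e0
  have he1 := h.e1
  set n : ℝ := (Fintype.card ι : ℝ) with hndef
  have hε : ε ≤ 1 / 100 := by nlinarith
  have hnε : n * ε ≤ 1 / 100 := by nlinarith
  have hnε0 : 0 ≤ n * ε := by positivity
  set a : ℝ := 1 / S * ∑ z, w z * (2 * (y z * r z) + y z ^ 2 * l z) with ha
  set b : ℝ := 1 / S * ∑ z, w z * (t z ^ 2 + 2 * (y z * r z) * l z + 1 / 2 * (y z ^ 2 * l z ^ 2)) with hb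
  set c : ℝ := 1 / S * ∑ z, w z * ((Real.exp (l z) - 1 - l z - l z ^ 2 / 2) * y z ^ 2 +
    (Real.exp (l z) - 1 - l z) * (2 * (y z * r z)) + (Real.exp (l z) - 1) * t z ^ 2) with hc
  have hyr : ∀ z, w z * |y z * r z| ≤ ε * S := by
    intro z
    rw [abs_mul, abs_of_nonneg (h.hy z)]
    refine le_trans ?_ (h.eyt z)
    exact mul_le_mul_of_nonneg_left (mul_le_mul_of_nonneg_left (h.hr z) (h.hy z)) (h.hw z)
  have hl1 : ∀ z, |l z| ≤ 1 := fun z => (h.hl z).trans (by linarith)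
  have hl2 : ∀ z, l z ^ 2 ≤ ε ^ 2 := fun z => by
    rw [← sq_abs]
    exact pow_le_pow_left₀ (abs_nonneg _) (h.hl z) 2
  have hA : |a| ≤ n * (3 * ε) := by
    apply Absl_sum hSp
    intro z
    rw [abs_mul, abs_of_nonneg (h.hw z)]
    have h1 : |2 * (y z * r z) + y z ^ 2 * l z| ≤ 2 * |y z * r z| + y z ^ 2 * ε := by
      refine (abs_add_le _ _).trans ?_
      rw [abs_mul 2, abs_of_pos (by norm_num : (0 : ℝ) < 2), abs_mul (y z ^ 2),
        abs_of_nonneg (sq_nonneg (y z))]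
      have := mul_le_mul_of_nonneg_left (h.hl z) (sq_nonneg (y z))
      linarith
    calc w z * |2 * (y z * r z) + y z ^ 2 * l z| ≤ w z * (2 * |y z * r z| + y z ^ 2 * ε) :=
          mul_le_mul_of_nonneg_left h1 (h.hw z)
      _ = 2 * (w z * |y z * r z|) + ε * (w z * y z ^ 2) := by ring
      _ ≤ 2 * (ε * S) + ε * S := by
          have := mul_le_mul_of_nonneg_left (h.ey z) he0
          linarith [hyr z]
      _ = 3 * ε * S := by ring
  have hB : |b| ≤ n * (4 * ε ^ 2) := by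
    apply Absl_sum hSp
    intro z
    rw [abs_mul, abs_of_nonneg (h.hw z)]
    have h1 : |t z ^ 2 + 2 * (y z * r z) * l z + 1 / 2 * (y z ^ 2 * l z ^ 2)| ≤
        t z ^ 2 + 2 * (|y z * r z| * ε) + 1 / 2 * (y z ^ 2 * ε ^ 2) := by
      refine (abs_add_le _ _).trans (add_le_add ((abs_add_le _ _).trans (add_le_add ?_ ?_)) ?_)
      · rw [abs_of_nonneg (sq_nonneg _)]
      · rw [abs_mul, abs_mul 2, abs_of_pos (by norm_num : (0 : ℝ) < 2), mul_assoc]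
        exact mul_le_mul_of_nonneg_left (mul_le_mul_of_nonneg_left (h.hl z) (abs_nonneg _)) (by norm_num)
      · rw [abs_of_nonneg (by positivity)]
        exact mul_le_mul_of_nonneg_left (mul_le_mul_of_nonneg_left (hl2 z) (sq_nonneg _)) (by norm_num)
    calc w z * |t z ^ 2 + 2 * (y z * r z) * l z + 1 / 2 * (y z ^ 2 * l z ^ 2)|
        ≤ w z * (t z ^ 2 + 2 * (|y z * r z| * ε) + 1 / 2 * (y z ^ 2 * ε ^ 2)) :=
          mul_le_mul_of_nonneg_left h1 (h.hw z)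
      _ = w z * t z ^ 2 + 2 * ε * (w z * |y z * r z|) + 1 / 2 * ε ^ 2 * (w z * y z ^ 2) := by ring
      _ ≤ ε ^ 2 * S + 2 * ε * (ε * S) + 1 / 2 * ε ^ 2 * S := by
          have h2 := mul_le_mul_of_nonneg_left (hyr z) (by positivity : 0 ≤ 2 * ε)
          have h3 := mul_le_mul_of_nonneg_left (h.ey z) (by positivity : 0 ≤ 1 / 2 * ε ^ 2)
          linarith [h.hT z]
      _ ≤ 4 * ε ^ 2 * S := by
          have : 0 ≤ ε ^ 2 * S := by positivity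
          linarith
  have hC : |c| ≤ n * (5 * ε ^ 3) := by
    apply Absl_sum hSp
    intro z
    rw [abs_mul, abs_of_nonneg (h.hw z)]
    have hx3 := Absl_exp3 (hl1 z)
    have hx2 := Real.abs_exp_sub_one_sub_id_le (hl1 z)
    have hx1 := Real.abs_exp_sub_one_le (hl1 z)
    have hl3 : |l z| ^ 3 ≤ ε ^ 3 := pow_le_pow_left₀ (abs_nonneg _) (h.hl z) 3
    have h1 : |(Real.exp (l z) - 1 - l z - l z ^ 2 / 2) * y z ^ 2 +
        (Real.exp (l z) - 1 - l z) * (2 * (y z * r z)) + (Real.exp (l z) - 1) * t z ^ 2| ≤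
        ε ^ 3 * y z ^ 2 + ε ^ 2 * (2 * |y z * r z|) + (2 * ε) * t z ^ 2 := by
      refine (abs_add_le _ _).trans (add_le_add ((abs_add_le _ _).trans (add_le_add ?_ ?_)) ?_)
      · rw [abs_mul, abs_of_nonneg (sq_nonneg (y z))]
        exact mul_le_mul_of_nonneg_right (hx3.trans hl3) (sq_nonneg _)
      · rw [abs_mul, abs_mul 2, abs_of_pos (by norm_num : (0 : ℝ) < 2)]
        exact mul_le_mul_of_nonneg_right (hx2.trans (hl2 z)) (by positivity)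
      · rw [abs_mul, abs_of_nonneg (sq_nonneg (t z))]
        refine mul_le_mul_of_nonneg_right (hx1.trans ?_) (sq_nonneg _)
        exact mul_le_mul_of_nonneg_left (h.hl z) (by norm_num)
    calc w z * _ ≤ w z * (ε ^ 3 * y z ^ 2 + ε ^ 2 * (2 * |y z * r z|) + (2 * ε) * t z ^ 2) :=
          mul_le_mul_of_nonneg_left h1 (h.hw z)
      _ = ε ^ 3 * (w z * y z ^ 2) + 2 * ε ^ 2 * (w z * |y z * r z|) + 2 * ε * (w z * t z ^ 2) := by ring
      _ ≤ ε ^ 3 * S + 2 * ε ^ 2 * (ε * S) + 2 * ε * (ε ^ 2 * S) := by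
          have h2 := mul_le_mul_of_nonneg_left (h.ey z) (by positivity : 0 ≤ ε ^ 3)
          have h3 := mul_le_mul_of_nonneg_left (hyr z) (by positivity : 0 ≤ 2 * ε ^ 2)
          have h4 := mul_le_mul_of_nonneg_left (h.hT z) (by positivity : 0 ≤ 2 * ε)
          linarith
      _ = 5 * ε ^ 3 * S := by ring
  set Sp : ℝ := ∑ z, w z * Real.exp (l z) * (y z ^ 2 + 2 * (y z * r z) + t z ^ 2) with hSpdef
  have hdec : Sp = S * (1 + (a + b + c)) := by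
    have h1 : S * (a + b + c) = ∑ z, w z * (2 * (y z * r z) + y z ^ 2 * l z) +
        ∑ z, w z * (t z ^ 2 + 2 * (y z * r z) * l z + 1 / 2 * (y z ^ 2 * l z ^ 2)) +
        ∑ z, w z * ((Real.exp (l z) - 1 - l z - l z ^ 2 / 2) * y z ^ 2 +
          (Real.exp (l z) - 1 - l z) * (2 * (y z * r z)) + (Real.exp (l z) - 1) * t z ^ 2) := by
      rw [ha, hb, hc]
      field_simp
    rw [mul_add, mul_one, h1]
    nth_rewrite 1 [h.hS]
    rw [hSpdef, ← Finset.sum_add_distrib, ← Finset.sum_add_distrib, ← Finset.sum_add_distrib]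
    refine Finset.sum_congr rfl fun z _ => ?_
    ring
  have hx : |a + b + c| ≤ 4 * (n * ε) := by
    have h1 : |a + b + c| ≤ |a| + |b| + |c| := (abs_add_le _ _).trans (add_le_add (abs_add_le _ _) le_rfl)
    have h2 : n * (4 * ε ^ 2) ≤ 1 / 25 * (n * ε) := by nlinarith
    have h3 : n * (5 * ε ^ 3) ≤ 1 / 25 * (n * ε) := by
      have : ε ^ 2 ≤ 1 / 10000 := by nlinarith
      nlinarith
    linarith
  have hx2 : |a + b + c| ≤ 1 / 2 := by linarith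
  have h1x : 0 < 1 + (a + b + c) := by linarith [(abs_le.1 hx2).1]
  refine ⟨by rw [hdec]; positivity, ?_⟩
  rw [hdec, Real.log_mul hSp.ne' h1x.ne', add_sub_cancel_left]
  have hlog := Absl_log hx2
  have hcs := h.cs
  rw [← ha] at hcs
  have hbc : |b + c| ≤ 5 * (n * ε ^ 2) := by
    have h1 : |b + c| ≤ |b| + |c| := abs_add_le _ _
    have h3 : n * (5 * ε ^ 3) ≤ n * ε ^ 2 := by nlinarith [mul_nonneg (by linarith : 0 ≤ n) (sq_nonneg ε)]
    linarith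
  have hsq : (a + b + c) ^ 2 ≤ a ^ 2 + 31 * (n ^ 2 * ε ^ 3) := by
    have h1 : (a + b + c) ^ 2 = a ^ 2 + 2 * (a * (b + c)) + (b + c) ^ 2 := by ring
    have h2 : a * (b + c) ≤ (n * (3 * ε)) * (5 * (n * ε ^ 2)) := by
      refine (le_abs_self _).trans ?_
      rw [abs_mul]
      exact mul_le_mul hA hbc (abs_nonneg _) (by positivity)
    have h3 : (b + c) ^ 2 ≤ (5 * (n * ε ^ 2)) ^ 2 := by
      rw [← sq_abs]
      exact pow_le_pow_left₀ (abs_nonneg _) hbc 2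
    have h4 : (5 * (n * ε ^ 2)) ^ 2 ≤ n ^ 2 * ε ^ 3 := by
      have h5 : 0 ≤ n ^ 2 * ε ^ 3 := by positivity
      have h6 : (5 * (n * ε ^ 2)) ^ 2 = 25 * ε * (n ^ 2 * ε ^ 3) := by ring
      rw [h6]
      nlinarith
    have h7 : (n * (3 * ε)) * (5 * (n * ε ^ 2)) = 15 * (n ^ 2 * ε ^ 3) := by ring
    rw [h1]
    linarith
  have hcub : |a + b + c| ^ 3 ≤ 64 * (n ^ 3 * ε ^ 3) := by
    calc |a + b + c| ^ 3 ≤ (4 * (n * ε)) ^ 3 := pow_le_pow_left₀ (abs_nonneg _) hx 3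
      _ = 64 * (n ^ 3 * ε ^ 3) := by ring
  have hcc : -(5 * (n * ε ^ 3)) ≤ c := by
    have := (abs_le.1 hC).1
    linarith
  have hn3 : n * ε ^ 3 ≤ n ^ 3 * ε ^ 3 := by
    have h1 : n ≤ n ^ 3 := by nlinarith [mul_self_nonneg (n - 1)]
    exact mul_le_mul_of_nonneg_right h1 (by positivity)
  have hn2 : n ^ 2 * ε ^ 3 ≤ n ^ 3 * ε ^ 3 := by
    have h1 : n ^ 2 ≤ n ^ 3 := by nlinarith [sq_nonneg n]
    exact mul_le_mul_of_nonneg_right h1 (by positivity)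
  have hQ : 1 / S * ∑ z, w z * (2 * (y z * r z) + t z ^ 2 - 2 * r z ^ 2 + y z ^ 2 * l z) =
      a + b - 1 / 2 * (1 / S * ∑ z, w z * (2 * r z + y z * l z) ^ 2) := by
    have e0 : ∑ z, w z * (2 * (y z * r z) + t z ^ 2 - 2 * r z ^ 2 + y z ^ 2 * l z) =
        ∑ z, w z * (2 * (y z * r z) + y z ^ 2 * l z) +
        ∑ z, w z * (t z ^ 2 + 2 * (y z * r z) * l z + 1 / 2 * (y z ^ 2 * l z ^ 2)) -
        1 / 2 * ∑ z, w z * (2 * r z + y z * l z) ^ 2 := by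
      rw [Finset.mul_sum, ← Finset.sum_add_distrib, ← Finset.sum_sub_distrib]
      refine Finset.sum_congr rfl fun z _ => ?_
      ring
    rw [ha, hb, e0]
    ring
  rw [hQ]
  have h30 : 0 ≤ n ^ 3 * ε ^ 3 := by positivity
  have h31 : 1000 * n ^ 3 * ε ^ 3 = 1000 * (n ^ 3 * ε ^ 3) := by ring
  rw [h31]
  linarith

private theorem AbslH.main2 {ι : Type} [Fintype ι] {w y t r l : ι → ℝ} {S ε : ℝ}
    (h : AbslH w y t r l S ε) :
    |1 / S * ∑ z, w z * (2 * (y z * r z) + t z ^ 2 - 2 * r z ^ 2 + y z ^ 2 * l z)| ≤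
      6 * Fintype.card ι * ε ∧
    (1 / S * ∑ z, w z * (2 * (y z * r z) + t z ^ 2 - 2 * r z ^ 2 + y z ^ 2 * l z)) ^ 2 ≤
      30 * (1 / S) * ∑ z, w z * (t z ^ 2 + y z ^ 2 * l z ^ 2) := by
  have hSp := h.pos
  have hn := h.n1
  have he0 := h.e0
  have he1 := h.e1
  set n : ℝ := (Fintype.card ι : ℝ) with hndef
  have hε : ε ≤ 1 / 100 := by nlinarith
  have hnε : n * ε ≤ 1 / 100 := by nlinarith
  have hnε0 : 0 ≤ n * ε := by positivity
  have hrt : ∀ z, r z ^ 2 ≤ t z ^ 2 := fun z => by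
    rw [← sq_abs]
    exact pow_le_pow_left₀ (abs_nonneg _) (h.hr z) 2
  have htr : ∀ z, |t z ^ 2 - 2 * r z ^ 2| ≤ t z ^ 2 := fun z => by
    rw [abs_le]
    constructor <;> nlinarith [hrt z, sq_nonneg (r z)]
  have hyr : ∀ z, w z * |y z * r z| ≤ ε * S := by
    intro z
    rw [abs_mul, abs_of_nonneg (h.hy z)]
    refine le_trans ?_ (h.eyt z)
    exact mul_le_mul_of_nonneg_left (mul_le_mul_of_nonneg_left (h.hr z) (h.hy z)) (h.hw z)
  constructor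
  · refine (Absl_sum (B := 4 * ε) hSp ?_).trans ?_
    · intro z
      rw [abs_mul, abs_of_nonneg (h.hw z)]
      have h1 : |2 * (y z * r z) + t z ^ 2 - 2 * r z ^ 2 + y z ^ 2 * l z| ≤
          2 * |y z * r z| + t z ^ 2 + y z ^ 2 * ε := by
        have e : 2 * (y z * r z) + t z ^ 2 - 2 * r z ^ 2 + y z ^ 2 * l z =
            2 * (y z * r z) + (t z ^ 2 - 2 * r z ^ 2) + y z ^ 2 * l z := by ring
        rw [e]
        refine (abs_add_le _ _).trans (add_le_add ((abs_add_le _ _).trans (add_le_add ?_ (htr z))) ?_)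
        · rw [abs_mul 2, abs_of_pos (by norm_num : (0 : ℝ) < 2)]
        · rw [abs_mul, abs_of_nonneg (sq_nonneg (y z))]
          exact mul_le_mul_of_nonneg_left (h.hl z) (sq_nonneg _)
      calc w z * |2 * (y z * r z) + t z ^ 2 - 2 * r z ^ 2 + y z ^ 2 * l z|
          ≤ w z * (2 * |y z * r z| + t z ^ 2 + y z ^ 2 * ε) :=
            mul_le_mul_of_nonneg_left h1 (h.hw z)
        _ = 2 * (w z * |y z * r z|) + w z * t z ^ 2 + ε * (w z * y z ^ 2) := by ring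
        _ ≤ 2 * (ε * S) + ε ^ 2 * S + ε * S := by
            have := mul_le_mul_of_nonneg_left (h.ey z) he0
            linarith [hyr z, h.hT z]
        _ ≤ 4 * ε * S := by
            have h3 : ε ^ 2 * S ≤ ε * S := mul_le_mul_of_nonneg_right (by nlinarith) hSp.le
            linarith
    · nlinarith
  · have hcs := h.cs
    set A : ℝ := 1 / S * ∑ z, w z * (2 * (y z * r z) + y z ^ 2 * l z) with hA
    set B : ℝ := 1 / S * ∑ z, w z * (t z ^ 2 - 2 * r z ^ 2) with hB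
    set T2 : ℝ := 1 / S * ∑ z, w z * t z ^ 2 with hT2
    set L2 : ℝ := 1 / S * ∑ z, w z * (y z ^ 2 * l z ^ 2) with hL2
    have hT20 : 0 ≤ T2 := mul_nonneg (by positivity)
      (Finset.sum_nonneg fun z _ => mul_nonneg (h.hw z) (sq_nonneg _))
    have hL20 : 0 ≤ L2 := mul_nonneg (by positivity)
      (Finset.sum_nonneg fun z _ => mul_nonneg (h.hw z) (by positivity))
    have e1 : 1 / S * ∑ z, w z * (2 * (y z * r z) + t z ^ 2 - 2 * r z ^ 2 + y z ^ 2 * l z) = A + B := by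
      rw [hA, hB, ← mul_add, ← Finset.sum_add_distrib]
      congr 1
      refine Finset.sum_congr rfl fun z _ => ?_
      ring
    have e2 : 30 * (1 / S) * ∑ z, w z * (t z ^ 2 + y z ^ 2 * l z ^ 2) = 30 * (T2 + L2) := by
      rw [hT2, hL2, ← mul_add, ← Finset.sum_add_distrib, mul_assoc]
      congr 2
      refine Finset.sum_congr rfl fun z _ => ?_
      ring
    have hBT : |B| ≤ T2 := by
      rw [hB, hT2, abs_mul, abs_of_pos (by positivity : (0 : ℝ) < 1 / S)]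
      refine mul_le_mul_of_nonneg_left ?_ (by positivity)
      refine (Finset.abs_sum_le_sum_abs _ _).trans (Finset.sum_le_sum fun z _ => ?_)
      rw [abs_mul, abs_of_nonneg (h.hw z)]
      exact mul_le_mul_of_nonneg_left (htr z) (h.hw z)
    have hT21 : T2 ≤ 1 := by
      have h1 := Absl_sum (f := fun z => w z * t z ^ 2) (B := ε ^ 2) hSp (by
        intro z
        rw [abs_of_nonneg (mul_nonneg (h.hw z) (sq_nonneg _))]
        exact h.hT z)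
      have h2 := (le_abs_self T2).trans h1
      have h3 : n * ε ^ 2 ≤ 1 := by nlinarith
      exact h2.trans h3
    have hB2 : B ^ 2 ≤ T2 := by
      rw [← sq_abs]
      nlinarith [abs_nonneg B]
    have hA2 : A ^ 2 ≤ 8 * T2 + 2 * L2 := by
      refine hcs.trans ?_
      have e3 : 8 * T2 + 2 * L2 = 1 / S * ∑ z, w z * (8 * t z ^ 2 + 2 * (y z ^ 2 * l z ^ 2)) := by
        have e4 : ∑ z, w z * (8 * t z ^ 2 + 2 * (y z ^ 2 * l z ^ 2)) =
            8 * ∑ z, w z * t z ^ 2 + 2 * ∑ z, w z * (y z ^ 2 * l z ^ 2) := by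
          rw [Finset.mul_sum, Finset.mul_sum, ← Finset.sum_add_distrib]
          refine Finset.sum_congr rfl fun z _ => ?_
          ring
        rw [e4, hT2, hL2]
        ring
      rw [e3]
      refine mul_le_mul_of_nonneg_left (Finset.sum_le_sum fun z _ => ?_) (by positivity)
      refine mul_le_mul_of_nonneg_left ?_ (h.hw z)
      nlinarith [sq_nonneg (2 * r z - y z * l z), hrt z]
    rw [e1, e2]
    nlinarith [sq_nonneg (A - B)]

private theorem Absl_uni {N : ℕ} (v T : E N) :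
    inner ℝ v T = ‖v‖ * inner ℝ (uni v) T ∧ |inner ℝ (uni v) T| ≤ ‖T‖ := by
  unfold uni
  rcases eq_or_ne v 0 with rfl | hv
  · simp
  · have hn : 0 < ‖v‖ := norm_pos_iff.2 hv
    have h1 : inner ℝ ((1 / ‖v‖) • v) T = 1 / ‖v‖ * inner ℝ v T := by
      rw [inner_smul_left]
      simp
    rw [h1]
    refine ⟨by field_simp, ?_⟩
    rw [abs_mul, abs_of_pos (by positivity : (0 : ℝ) < 1 / ‖v‖)]
    have h2 := abs_real_inner_le_norm v T
    calc 1 / ‖v‖ * |inner ℝ v T| ≤ 1 / ‖v‖ * (‖v‖ * ‖T‖) :=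
          mul_le_mul_of_nonneg_left h2 (by positivity)
      _ = ‖T‖ := by field_simp

private theorem Absl_H {N : ℕ} {ι : Type} [Fintype ι] (W lam : ι → ℝ) (Y T : ι → E N) (S ε : ℝ)
    (hW : ∀ z, 0 ≤ W z) (hS : S = ∑ z, W z * ‖Y z‖ ^ 2) (hSpos : 0 < S) (hε0 : 0 ≤ ε)
    (hε : ε * (100 * Fintype.card ι) ≤ 1)
    (hT : ∀ z, W z * ‖T z‖ ^ 2 ≤ ε ^ 2 * S) (hl : ∀ z, |lam z| ≤ ε) :
    AbslH W (fun z => ‖Y z‖) (fun z => ‖T z‖) (fun z => inner ℝ (uni (Y z)) (T z)) lam S ε :=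
  ⟨hW, fun _ => norm_nonneg _, fun _ => norm_nonneg _, fun z => (Absl_uni (Y z) (T z)).2, hS, hSpos,
    hε0, hε, hT, hl⟩

theorem abs_log {N : ℕ} {ι : Type} [Fintype ι] (W lam : ι → ℝ) (Y T : ι → E N) (S ε : ℝ)
    (hW : ∀ z, 0 ≤ W z) (hS : S = ∑ z, W z * ‖Y z‖ ^ 2) (hSpos : 0 < S) (hε0 : 0 ≤ ε)
    (hε : ε * (100 * Fintype.card ι) ≤ 1)
    (hT : ∀ z, W z * ‖T z‖ ^ 2 ≤ ε ^ 2 * S) (hl : ∀ z, |lam z| ≤ ε) :
    0 < ∑ z, W z * Real.exp (lam z) * ‖Y z + T z‖ ^ 2 ∧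
    1 / S * ∑ z, W z * (2 * inner ℝ (Y z) (T z) + ‖T z‖ ^ 2 - 2 * (inner ℝ (uni (Y z)) (T z)) ^ 2
        + ‖Y z‖ ^ 2 * lam z) - 1000 * (Fintype.card ι : ℝ) ^ 3 * ε ^ 3 ≤
      Real.log (∑ z, W z * Real.exp (lam z) * ‖Y z + T z‖ ^ 2) - Real.log S := by
  have h := (Absl_H W lam Y T S ε hW hS hSpos hε0 hε hT hl).main
  have e1 : ∀ z, ‖Y z + T z‖ ^ 2 = ‖Y z‖ ^ 2 + 2 * (‖Y z‖ * inner ℝ (uni (Y z)) (T z)) + ‖T z‖ ^ 2 := by
    intro z
    rw [← (Absl_uni (Y z) (T z)).1, norm_add_sq_real]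
  have e2 : ∀ z, inner ℝ (Y z) (T z) = ‖Y z‖ * inner ℝ (uni (Y z)) (T z) :=
    fun z => (Absl_uni (Y z) (T z)).1
  simp only [e1]
  simp only [e2]
  exact h

/-- crude two sided bound used for second moments -/
theorem abs_sq {N : ℕ} {ι : Type} [Fintype ι] (W lam : ι → ℝ) (Y T : ι → E N) (S ε : ℝ)
    (hW : ∀ z, 0 ≤ W z) (hS : S = ∑ z, W z * ‖Y z‖ ^ 2) (hSpos : 0 < S) (hε0 : 0 ≤ ε)
    (hε : ε * (100 * Fintype.card ι) ≤ 1)
    (hT : ∀ z, W z * ‖T z‖ ^ 2 ≤ ε ^ 2 * S) (hl : ∀ z, |lam z| ≤ ε) :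
    |1 / S * ∑ z, W z * (2 * inner ℝ (Y z) (T z) + ‖T z‖ ^ 2 - 2 * (inner ℝ (uni (Y z)) (T z)) ^ 2
        + ‖Y z‖ ^ 2 * lam z)| ≤ 6 * Fintype.card ι * ε ∧
    (1 / S * ∑ z, W z * (2 * inner ℝ (Y z) (T z) + ‖T z‖ ^ 2 - 2 * (inner ℝ (uni (Y z)) (T z)) ^ 2
        + ‖Y z‖ ^ 2 * lam z)) ^ 2 ≤
      30 * (1 / S) * ∑ z, W z * (‖T z‖ ^ 2 + ‖Y z‖ ^ 2 * lam z ^ 2) := by
  have h := (Absl_H W lam Y T S ε hW hS hSpos hε0 hε hT hl).main2
  have e2 : ∀ z, inner ℝ (Y z) (T z) = ‖Y z‖ * inner ℝ (uni (Y z)) (T z) :=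
    fun z => (Absl_uni (Y z) (T z)).1
  simp only [e2]
  exact h

end Dyn
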