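import Pool.Agent.Lib_MP_36b788.LSHyp

/-!
# BASE: the package produced by the first half (drift of `log S`)
-/

open MeasureTheory

namespace Dyn

/-- constants of the corrector and of `S`, with the drift inequality of `log S` -/
structure Base (N d : ℕ) (β D0 : ℝ) where
  δ : ℝ
  Cy : ℝ
  hc : ℝ
  C0 : ℝ
  r2 : ℝ
  Rc : ℝ
  A : ℝ
  Ct : ℝ
  cV : ℝ
  CV : ℝ
  CA : ℝ
  k0 : ℝ
  hδ : 0 < δ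
  hCy : 1 ≤ Cy
  hhc : 0 < hc
  hC0 : 1 ≤ C0
  hr2 : 0 < r2
  hr21 : r2 < 1
  hRc : 1 ≤ Rc
  hA : 6 ≤ A
  hAr2 : 6 / A ≤ r2
  hCt : 0 < Ct
  hCV : 0 < CV
  hcV : D0 * CV ≤ cV
  hcV1 : cV ≤ 1
  hCA : 0 < CA
  hk0 : 0 < k0
  hk01 : A * k0 ≤ 1 / 2
  corr : ∀ (h : ℝ) (ν : Measure (E N)), 0 < h → h < hc → IsNoise h ν →
    ∃ y : ℝ → ℝ, IsCorr N β h ν δ Cy y
  lsb : ∀ k, 0 ≤ k → k ≤ k0 → ∀ (ι : Type) [Fintype ι] (net : Net ι d), ∃ h0 : ℝ, 0 < h0 ∧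
    ∀ (h : ℝ) (ν : Measure (E N)), 0 < h → h < h0 → IsNoise h ν →
    ∀ y : ℝ → ℝ, IsCorr N β h ν δ Cy y → ∀ G : ι → E N, (∀ x, ‖G x‖ ≤ 2 * rad β h) →
      LSB net β Cy (C0 * (1 + Real.log A)) k A Rc (Ct * Real.sqrt k) y G
  drift : ∀ k, 0 ≤ k → k ≤ k0 → ∀ (ι : Type) [Fintype ι] (net : Net ι d), ∃ h0 : ℝ, 0 < h0 ∧
    ∀ (h : ℝ) (ν : Measure (E N)), 0 < h → h < h0 → IsNoise h ν →
    ∀ y : ℝ → ℝ, IsCorr N β h ν δ Cy y → ∀ G : ι → E N, (∀ x, ‖G x‖ ≤ rad β h) →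
    ∀ x, ((G x ≠ 0) ∨ (0 < k ∧ G ≠ 0)) →
      ∃ L : (ι → E N) → ℝ, Measurable L ∧
        (∀ᵐ ξ ∂(pim ι ν), |L ξ| ≤ 1 ∧
          0 < SS net β k A Rc (Ct * Real.sqrt k) y (stp net β h k G ξ) x ∧
          L ξ ≤ Real.log (SS net β k A Rc (Ct * Real.sqrt k) y (stp net β h k G ξ) x)
            - Real.log (SS net β k A Rc (Ct * Real.sqrt k) y G x)) ∧
        (h * (if ‖G x‖ ≤ r2 then cV / 2 else -(2 * CV)) ≤ ∫ ξ, L ξ ∂(pim ι ν)) ∧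
        ∫ ξ, L ξ ^ 2 ∂(pim ι ν) ≤ CA * h

end Dyn
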