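import Pool.Agent.Lib_MP_36b788.Defs

/-!
# BOXNET: boxes of `ℤ^d` as nets

PROOF. `dist x y = Σ_i |x_i - y_i|`, `nb x` = points of the box at distance one. At most `2d` neighbours (`x ± e_i`).
`toward`: `z ≠ x`; pick `i` with `z_i ≠ x_i` and move `z_i` one step towards `x_i`: stays in the box.
`sum_half`: `Σ_{z ∈ ℤ^d}2^{-|x-z|} = 3^d` (product of `Σ_{n∈ℤ}2^{-|n|} = 3`), restricted to a box by positivity
(`Finset.prod_univ_sum` over the box which is a product of intervals).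
-/

open MeasureTheory

namespace Dyn

noncomputable section

/-- the box `[-L,L]^d` -/
def boxS (d L : ℕ) : Finset (Fin d → ℤ) := Finset.Icc (fun _ => -(L : ℤ)) (fun _ => (L : ℤ))

/-- `ℓ¹` distance -/
def l1 {d : ℕ} (x y : Fin d → ℤ) : ℕ := ∑ i, (x i - y i).natAbs

/-! ### sums over the box -/

private theorem BoxNet_mem {d L : ℕ} (x : Fin d → ℤ) :
    x ∈ boxS d L ↔ ∀ i, -(L : ℤ) ≤ x i ∧ x i ≤ L := by
  unfold boxS
  rw [Finset.mem_Icc, Pi.le_def, Pi.le_def]
  constructor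
  · rintro ⟨h1, h2⟩ i; exact ⟨h1 i, h2 i⟩
  · intro h; exact ⟨fun i => (h i).1, fun i => (h i).2⟩

private theorem BoxNet_pi (d L : ℕ) :
    boxS d L = Fintype.piFinset (fun _ : Fin d => Finset.Icc (-(L : ℤ)) L) := by
  ext x
  rw [BoxNet_mem, Fintype.mem_piFinset]
  simp only [Finset.mem_Icc]

private theorem BoxNet_prod (d L : ℕ) (f : Fin d → ℤ → ℝ) :
    ∑ z ∈ boxS d L, ∏ i, f i (z i) = ∏ i, ∑ n ∈ Finset.Icc (-(L : ℤ)) L, f i n := by
  rw [BoxNet_pi, Finset.prod_univ_sum]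

/-- one dimensional sum -/
private theorem BoxNet_one (g : ℕ → ℝ) (h0 : ∀ k, 0 ≤ g k) (hg : Summable g) (s : Finset ℤ) (m : ℤ) :
    ∑ n ∈ s, g (m - n).natAbs ≤ ∑' k, g k + ∑' k, g (k + 1) := by
  classical
  rw [← Finset.sum_filter_add_sum_filter_not s (fun n => n ≤ m)]
  refine add_le_add ?_ ?_
  · have hinj : Set.InjOn (fun n : ℤ => (m - n).natAbs) (s.filter (fun n => n ≤ m)) := by
      intro a ha b hb hab
      have ha' := (Finset.mem_filter.mp (Finset.mem_coe.mp ha)).2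
      have hb' := (Finset.mem_filter.mp (Finset.mem_coe.mp hb)).2
      simp only at hab
      omega
    have h1 : ∑ n ∈ s.filter (fun n => n ≤ m), g (m - n).natAbs =
        ∑ k ∈ (s.filter (fun n => n ≤ m)).image (fun n : ℤ => (m - n).natAbs), g k := by
      rw [Finset.sum_image hinj]
    rw [h1]
    exact hg.sum_le_tsum _ (fun k _ => h0 k)
  · have hg' : Summable (fun k => g (k + 1)) := (summable_nat_add_iff 1).mpr hg
    have hinj : Set.InjOn (fun n : ℤ => (m - n).natAbs - 1) (s.filter (fun n => ¬ n ≤ m)) := by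
      intro a ha b hb hab
      have ha' := (Finset.mem_filter.mp (Finset.mem_coe.mp ha)).2
      have hb' := (Finset.mem_filter.mp (Finset.mem_coe.mp hb)).2
      simp only at hab
      omega
    have h1 : ∑ n ∈ s.filter (fun n => ¬ n ≤ m), g (m - n).natAbs =
        ∑ k ∈ (s.filter (fun n => ¬ n ≤ m)).image (fun n : ℤ => (m - n).natAbs - 1), g (k + 1) := by
      rw [Finset.sum_image hinj]
      refine Finset.sum_congr rfl fun n hn => ?_
      have hn' := (Finset.mem_filter.mp hn).2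
      congr 1
      omega
    rw [h1]
    exact hg'.sum_le_tsum _ (fun k _ => h0 (k + 1))

/-- product sums over the box -/
private theorem BoxNet_sum (g : ℕ → ℝ) (h0 : ∀ k, 0 ≤ g k) (hg : Summable g) (d L : ℕ)
    (x : Fin d → ℤ) :
    ∑ z ∈ boxS d L, ∏ i, g (x i - z i).natAbs ≤ (∑' k, g k + ∑' k, g (k + 1)) ^ d := by
  rw [BoxNet_prod d L (fun i n => g (x i - n).natAbs)]
  calc ∏ i : Fin d, ∑ n ∈ Finset.Icc (-(L : ℤ)) L, g (x i - n).natAbs
      ≤ ∏ _i : Fin d, (∑' k, g k + ∑' k, g (k + 1)) :=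
        Finset.prod_le_prod (fun i _ => Finset.sum_nonneg fun n _ => h0 _)
          (fun i _ => BoxNet_one g h0 hg _ _)
    _ = _ := by simp

private theorem BoxNet_pow {d : ℕ} (a : ℝ) (x z : Fin d → ℤ) :
    a ^ l1 x z = ∏ i, a ^ (x i - z i).natAbs := by
  unfold l1
  rw [Finset.prod_pow_eq_pow_sum]

private theorem BoxNet_geom (a : ℝ) (h0 : 0 ≤ a) (h1 : a < 1) (d L : ℕ) (x : Fin d → ℤ) :
    ∑ z ∈ boxS d L, a ^ l1 x z ≤ ((1 - a)⁻¹ + a * (1 - a)⁻¹) ^ d := by
  have h := BoxNet_sum (fun k => a ^ k) (fun k => pow_nonneg h0 k)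
    (summable_geometric_of_lt_one h0 h1) d L x
  have h2 : ∑' k : ℕ, a ^ k = (1 - a)⁻¹ := tsum_geometric_of_lt_one h0 h1
  have h3 : ∑' k : ℕ, a ^ (k + 1) = a * (1 - a)⁻¹ := by
    rw [← h2, ← tsum_mul_left]
    exact tsum_congr fun k => by ring
  simp only [h2, h3] at h
  refine le_trans (le_of_eq ?_) h
  exact Finset.sum_congr rfl fun z _ => BoxNet_pow a x z

/-! ### the distance -/

private theorem BoxNet_self {d : ℕ} (x : Fin d → ℤ) : l1 x x = 0 := by
  unfold l1; simp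

private theorem BoxNet_comm {d : ℕ} (x y : Fin d → ℤ) : l1 x y = l1 y x := by
  unfold l1
  refine Finset.sum_congr rfl fun i _ => ?_
  omega

private theorem BoxNet_tri {d : ℕ} (x y z : Fin d → ℤ) : l1 x z ≤ l1 x y + l1 y z := by
  unfold l1
  rw [← Finset.sum_add_distrib]
  refine Finset.sum_le_sum fun i _ => ?_
  omega

private theorem BoxNet_pos {d : ℕ} (x y : Fin d → ℤ) (h : x ≠ y) : 1 ≤ l1 x y := by
  by_contra hc
  have h0 : l1 x y = 0 := by omega
  unfold l1 at h0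
  rw [Finset.sum_eq_zero_iff] at h0
  exact h (funext fun i => by have := h0 i (Finset.mem_univ i); omega)

private theorem BoxNet_upd {d : ℕ} (x z : Fin d → ℤ) (i : Fin d) (v : ℤ) :
    l1 x (Function.update z i v) + (x i - z i).natAbs = l1 x z + (x i - v).natAbs := by
  unfold l1
  rw [← Finset.add_sum_erase Finset.univ (fun j => (x j - (Function.update z i v) j).natAbs)
      (Finset.mem_univ i),
    ← Finset.add_sum_erase Finset.univ (fun j => (x j - z j).natAbs) (Finset.mem_univ i)]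
  have h : ∑ j ∈ Finset.univ.erase i, (x j - (Function.update z i v) j).natAbs =
      ∑ j ∈ Finset.univ.erase i, (x j - z j).natAbs := by
    refine Finset.sum_congr rfl fun j hj => ?_
    rw [Function.update_of_ne (Finset.ne_of_mem_erase hj)]
  rw [h]
  simp only [Function.update_self]
  omega

/-- points at distance one -/
private theorem BoxNet_nbr {d : ℕ} (x y : Fin d → ℤ) (h : l1 x y = 1) :
    ∃ p : Fin d × Bool, y = Function.update x p.1 (x p.1 + if p.2 then 1 else -1) := by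
  have hne : ∃ i, (x i - y i).natAbs ≠ 0 := by
    by_contra hc
    push Not at hc
    have : l1 x y = 0 := by
      unfold l1
      exact Finset.sum_eq_zero fun i _ => hc i
    omega
  obtain ⟨i, hi⟩ := hne
  unfold l1 at h
  rw [← Finset.add_sum_erase Finset.univ (fun j => (x j - y j).natAbs) (Finset.mem_univ i)] at h
  have h1 : (x i - y i).natAbs = 1 := by omega
  have h2 : ∑ j ∈ Finset.univ.erase i, (x j - y j).natAbs = 0 := by omega
  rw [Finset.sum_eq_zero_iff] at h2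
  have h3 : y i = x i + 1 ∨ y i = x i + -1 := by omega
  have h4 : ∀ j, j ≠ i → y j = x j := by
    intro j hj
    have := h2 j (Finset.mem_erase.mpr ⟨hj, Finset.mem_univ j⟩)
    omega
  rcases h3 with h3 | h3
  · refine ⟨(i, true), funext fun j => ?_⟩
    by_cases hj : j = i
    · subst hj; simp [h3]
    · simp [Function.update_of_ne hj, h4 j hj]
  · refine ⟨(i, false), funext fun j => ?_⟩
    by_cases hj : j = i
    · subst hj; simp [h3]
    · simp [Function.update_of_ne hj, h4 j hj]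

theorem boxNet_exists (d L : ℕ) : ∃ net : Net (boxS d L) d,
    (∀ x y : boxS d L, net.dist x y = l1 (x : Fin d → ℤ) (y : Fin d → ℤ)) ∧
    (∀ x y : boxS d L, y ∈ net.nb x ↔ l1 (x : Fin d → ℤ) (y : Fin d → ℤ) = 1) := by
  classical
  refine ⟨{
    nb := fun x => Finset.univ.filter (fun y => l1 (x : Fin d → ℤ) (y : Fin d → ℤ) = 1)
    dist := fun x y => l1 (x : Fin d → ℤ) (y : Fin d → ℤ)
    nb_symm := ?_
    nb_card := ?_
    dist_self := fun x => BoxNet_self _
    dist_pos := fun x y h => BoxNet_pos _ _ (fun hc => h (Subtype.ext hc))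
    dist_comm := fun x y => BoxNet_comm _ _
    dist_tri := fun x y z => BoxNet_tri _ _ _
    dist_nb := ?_
    toward := ?_
    sum_half := ?_ }, fun _ _ => rfl, fun x y => by simp⟩
  · intro x y h
    rw [Finset.mem_filter] at h ⊢
    exact ⟨Finset.mem_univ _, by rw [BoxNet_comm]; exact h.2⟩
  · intro x
    have h1 : (Finset.univ.filter (fun y : boxS d L =>
        l1 (x : Fin d → ℤ) (y : Fin d → ℤ) = 1)).image (fun y : boxS d L => (y : Fin d → ℤ)) ⊆
        (Finset.univ : Finset (Fin d × Bool)).image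
          (fun p => Function.update (x : Fin d → ℤ) p.1 ((x : Fin d → ℤ) p.1 +
            if p.2 then 1 else -1)) := by
      intro y hy
      rw [Finset.mem_image] at hy
      obtain ⟨w, hw, rfl⟩ := hy
      obtain ⟨p, hp⟩ := BoxNet_nbr _ _ (Finset.mem_filter.mp hw).2
      rw [Finset.mem_image]
      exact ⟨p, Finset.mem_univ _, hp.symm⟩
    have h2 := Finset.card_le_card h1
    rw [Finset.card_image_of_injective _ Subtype.val_injective] at h2
    refine h2.trans (Finset.card_image_le.trans ?_)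
    simp [mul_comm]
  · intro x y h
    exact (Finset.mem_filter.mp h).2
  · intro x z hzx
    have hne : ∃ i, (z : Fin d → ℤ) i ≠ (x : Fin d → ℤ) i := by
      by_contra hc
      push Not at hc
      exact hzx (Subtype.ext (funext hc))
    obtain ⟨i, hi⟩ := hne
    have hz := (BoxNet_mem (z : Fin d → ℤ)).mp z.2
    have hx := (BoxNet_mem (x : Fin d → ℤ)).mp x.2
    obtain ⟨v, hv1, hv2, hv3⟩ : ∃ v : ℤ, ((z : Fin d → ℤ) i - v).natAbs = 1 ∧
        ((x : Fin d → ℤ) i - v).natAbs + 1 = ((x : Fin d → ℤ) i - (z : Fin d → ℤ) i).natAbs ∧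
        (-(L : ℤ) ≤ v ∧ v ≤ L) := by
      have h1 := hz i
      have h2 := hx i
      rcases lt_or_gt_of_ne hi with h | h
      · exact ⟨(z : Fin d → ℤ) i + 1, by omega, by omega, by omega, by omega⟩
      · exact ⟨(z : Fin d → ℤ) i - 1, by omega, by omega, by omega, by omega⟩
    have hw : Function.update (z : Fin d → ℤ) i v ∈ boxS d L := by
      rw [BoxNet_mem]
      intro j
      by_cases hj : j = i
      · subst hj; rw [Function.update_self]; exact hv3
      · rw [Function.update_of_ne hj]; exact hz j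
    refine ⟨⟨_, hw⟩, ?_, ?_⟩
    · rw [Finset.mem_filter]
      refine ⟨Finset.mem_univ _, ?_⟩
      show l1 (z : Fin d → ℤ) (Function.update (z : Fin d → ℤ) i v) = 1
      have h := BoxNet_upd (z : Fin d → ℤ) (z : Fin d → ℤ) i v
      rw [BoxNet_self] at h
      simp only [sub_self, Int.natAbs_zero] at h
      omega
    · have h := BoxNet_upd (x : Fin d → ℤ) (z : Fin d → ℤ) i v
      show l1 (x : Fin d → ℤ) (Function.update (z : Fin d → ℤ) i v) + 1 =
        l1 (x : Fin d → ℤ) (z : Fin d → ℤ)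
      omega
  · intro x
    have h := BoxNet_geom (1 / 2) (by norm_num) (by norm_num) d L (x : Fin d → ℤ)
    rw [show ((1 - (1 / 2 : ℝ))⁻¹ + 1 / 2 * (1 - (1 / 2 : ℝ))⁻¹) = 3 by norm_num] at h
    refine le_trans (le_of_eq ?_) h
    exact Finset.sum_coe_sort (boxS d L) (fun z => (1 / 2 : ℝ) ^ l1 (x : Fin d → ℤ) z)

/-- the net of the box -/
def boxNet (d L : ℕ) : Net (boxS d L) d := (boxNet_exists d L).choose

theorem boxNet_dist (d L : ℕ) (x y : boxS d L) :
    (boxNet d L).dist x y = l1 (x : Fin d → ℤ) (y : Fin d → ℤ) :=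
  (boxNet_exists d L).choose_spec.1 x y

theorem boxNet_nb (d L : ℕ) (x y : boxS d L) :
    y ∈ (boxNet d L).nb x ↔ l1 (x : Fin d → ℤ) (y : Fin d → ℤ) = 1 :=
  (boxNet_exists d L).choose_spec.2 x y

end

private theorem BoxNet_l1zero {d : ℕ} (x : Fin d → ℤ) : l1 x 0 = ∑ i, (x i).natAbs := by
  unfold l1; simp

/-- on a box, the sum over the boundary layer -/
theorem box_boundary (d : ℕ) : ∃ C : ℝ, 0 < C ∧ ∀ L : ℕ,
    ∑ x ∈ (boxS d L).filter (fun x => ∃ i, |x i| = (L : ℤ)), (1 / 2 : ℝ) ^ l1 x 0 ≤ C * (1 / 2) ^ L := by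
  classical
  refine ⟨d * (2 * 3 ^ d) + 1, by positivity, fun L => ?_⟩
  have hnn : ∀ x : Fin d → ℤ, (0 : ℝ) ≤ (1 / 2 : ℝ) ^ l1 x 0 := fun x => by positivity
  have hone : ∀ i : Fin d, ∑ x ∈ (boxS d L).filter (fun x => |x i| = (L : ℤ)),
      (1 / 2 : ℝ) ^ l1 x 0 ≤ 2 * 3 ^ d * (1 / 2) ^ L := by
    intro i
    let f : Fin d → ℤ → ℝ := fun j n =>
      if j = i then (if |n| = (L : ℤ) then (1 / 2 : ℝ) ^ n.natAbs else 0) else (1 / 2) ^ n.natAbs
    have h1 : ∑ x ∈ (boxS d L).filter (fun x => |x i| = (L : ℤ)), (1 / 2 : ℝ) ^ l1 x 0 =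
        ∑ x ∈ boxS d L, ∏ j, f j (x j) := by
      rw [Finset.sum_filter]
      refine Finset.sum_congr rfl fun x _ => ?_
      by_cases hx : |x i| = (L : ℤ)
      · rw [if_pos hx, BoxNet_l1zero, ← Finset.prod_pow_eq_pow_sum]
        refine Finset.prod_congr rfl fun j _ => ?_
        by_cases hj : j = i
        · subst hj; simp [f, hx]
        · simp [f, hj]
      · rw [if_neg hx]
        symm
        refine Finset.prod_eq_zero (Finset.mem_univ i) ?_
        simp [f, hx]
    rw [h1, BoxNet_prod d L f, ← Finset.mul_prod_erase Finset.univ _ (Finset.mem_univ i)]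
    have h2 : ∑ n ∈ Finset.Icc (-(L : ℤ)) L, f i n ≤ 2 * (1 / 2) ^ L := by
      have h3 : ∑ n ∈ Finset.Icc (-(L : ℤ)) L, f i n ≤
          ∑ n ∈ ({-(L : ℤ), (L : ℤ)} : Finset ℤ), (1 / 2 : ℝ) ^ L := by
        have h4 : ∑ n ∈ Finset.Icc (-(L : ℤ)) L, f i n =
            ∑ n ∈ (Finset.Icc (-(L : ℤ)) L).filter (fun n => |n| = (L : ℤ)), (1 / 2 : ℝ) ^ L := by
          rw [Finset.sum_filter]
          refine Finset.sum_congr rfl fun n _ => ?_
          simp only [f, if_true]
          by_cases hn : |n| = (L : ℤ)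
          · rw [if_pos hn, if_pos hn]
            congr 1
            have : (n.natAbs : ℤ) = L := by rw [Int.natCast_natAbs]; exact hn
            exact_mod_cast this
          · rw [if_neg hn, if_neg hn]
        rw [h4]
        refine Finset.sum_le_sum_of_subset_of_nonneg ?_ (fun _ _ _ => by positivity)
        intro n hn
        have hn2 := (Finset.mem_filter.mp hn).2
        rw [Finset.mem_insert, Finset.mem_singleton]
        rcases abs_choice n with h | h
        · right; rw [← hn2, h]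
        · left; rw [← hn2, h]; ring
      refine h3.trans ?_
      rw [Finset.sum_const, nsmul_eq_mul]
      have h5 : (({-(L : ℤ), (L : ℤ)} : Finset ℤ).card : ℝ) ≤ 2 := by
        exact_mod_cast Finset.card_le_two
      exact mul_le_mul_of_nonneg_right h5 (by positivity)
    have h6 : ∏ j ∈ Finset.univ.erase i, ∑ n ∈ Finset.Icc (-(L : ℤ)) L, f j n ≤ 3 ^ d := by
      have h7 : ∀ j ∈ Finset.univ.erase i, ∑ n ∈ Finset.Icc (-(L : ℤ)) L, f j n ≤ 3 := by
        intro j hj
        have hji : j ≠ i := Finset.ne_of_mem_erase hj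
        have h8 := BoxNet_one (fun k => (1 / 2 : ℝ) ^ k) (fun k => by positivity)
          (summable_geometric_of_lt_one (by norm_num) (by norm_num))
          (Finset.Icc (-(L : ℤ)) L) 0
        have h9 : ∑' k : ℕ, (1 / 2 : ℝ) ^ k = 2 := by
          rw [tsum_geometric_of_lt_one (by norm_num) (by norm_num)]; norm_num
        have h10 : ∑' k : ℕ, (1 / 2 : ℝ) ^ (k + 1) = 1 := by
          have : ∑' k : ℕ, (1 / 2 : ℝ) ^ (k + 1) = 1 / 2 * ∑' k : ℕ, (1 / 2 : ℝ) ^ k := by
            rw [← tsum_mul_left]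
            exact tsum_congr fun k => by ring
          rw [this, h9]; norm_num
        simp only [h9, h10] at h8
        refine le_trans (le_of_eq ?_) (h8.trans (by norm_num))
        refine Finset.sum_congr rfl fun n _ => ?_
        simp [f, hji]
      calc ∏ j ∈ Finset.univ.erase i, ∑ n ∈ Finset.Icc (-(L : ℤ)) L, f j n
          ≤ ∏ _j ∈ Finset.univ.erase i, (3 : ℝ) := by
            refine Finset.prod_le_prod (fun j _ => Finset.sum_nonneg fun n _ => ?_) h7
            simp only [f]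
            split_ifs <;> positivity
        _ = 3 ^ (Finset.univ.erase i).card := by rw [Finset.prod_const]
        _ ≤ 3 ^ d := by
            refine pow_le_pow_right₀ (by norm_num) ?_
            exact (Finset.card_le_univ _).trans (by simp)
    have h11 : (0 : ℝ) ≤ ∏ j ∈ Finset.univ.erase i, ∑ n ∈ Finset.Icc (-(L : ℤ)) L, f j n := by
      refine Finset.prod_nonneg fun j _ => Finset.sum_nonneg fun n _ => ?_
      simp only [f]
      split_ifs <;> positivity
    calc (∑ n ∈ Finset.Icc (-(L : ℤ)) L, f i n) *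
          ∏ j ∈ Finset.univ.erase i, ∑ n ∈ Finset.Icc (-(L : ℤ)) L, f j n
        ≤ (2 * (1 / 2) ^ L) * 3 ^ d := mul_le_mul h2 h6 h11 (by positivity)
      _ = 2 * 3 ^ d * (1 / 2) ^ L := by ring
  calc ∑ x ∈ (boxS d L).filter (fun x => ∃ i, |x i| = (L : ℤ)), (1 / 2 : ℝ) ^ l1 x 0
      ≤ ∑ x ∈ boxS d L, ∑ i : Fin d, (if |x i| = (L : ℤ) then (1 / 2 : ℝ) ^ l1 x 0 else 0) := by
        rw [Finset.sum_filter]
        refine Finset.sum_le_sum fun x _ => ?_
        have hnn2 : ∀ i : Fin d, (0 : ℝ) ≤ (if |x i| = (L : ℤ) then (1 / 2 : ℝ) ^ l1 x 0 else 0) := by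
          intro i
          split_ifs
          · exact hnn x
          · exact le_refl _
        by_cases hx : ∃ i, |x i| = (L : ℤ)
        · rw [if_pos hx]
          obtain ⟨i, hi⟩ := hx
          have h1 := Finset.single_le_sum (fun i _ => hnn2 i) (Finset.mem_univ i)
          rw [if_pos hi] at h1
          exact h1
        · rw [if_neg hx]
          exact Finset.sum_nonneg fun i _ => hnn2 i
    _ = ∑ i : Fin d, ∑ x ∈ (boxS d L).filter (fun x => |x i| = (L : ℤ)), (1 / 2 : ℝ) ^ l1 x 0 := by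
        rw [Finset.sum_comm]
        exact Finset.sum_congr rfl fun i _ => by rw [Finset.sum_filter]
    _ ≤ ∑ _i : Fin d, 2 * 3 ^ d * (1 / 2) ^ L := Finset.sum_le_sum fun i _ => hone i
    _ = d * (2 * 3 ^ d) * (1 / 2) ^ L := by
        rw [Finset.sum_const, nsmul_eq_mul, Finset.card_univ, Fintype.card_fin]; ring
    _ ≤ (d * (2 * 3 ^ d) + 1) * (1 / 2) ^ L :=
        mul_le_mul_of_nonneg_right (by linarith) (by positivity)

/-! ### polynomial weights -/

private theorem BoxNet_prod_ge {d : ℕ} (x z : Fin d → ℤ) :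
    (1 + (l1 x z : ℝ)) ≤ ∏ i, (1 + ((x i - z i).natAbs : ℝ)) := by
  classical
  have key : ∀ s : Finset (Fin d), (1 : ℝ) + ∑ i ∈ s, ((x i - z i).natAbs : ℝ) ≤
      ∏ i ∈ s, (1 + ((x i - z i).natAbs : ℝ)) := by
    intro s
    induction s using Finset.induction_on with
    | empty => simp
    | insert a s ha ih =>
      rw [Finset.sum_insert ha, Finset.prod_insert ha]
      have h1 : (0 : ℝ) ≤ ((x a - z a).natAbs : ℝ) := by positivity
      have h2 : (0 : ℝ) ≤ ∑ i ∈ s, ((x i - z i).natAbs : ℝ) :=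
        Finset.sum_nonneg fun i _ => by positivity
      nlinarith
  have h := key Finset.univ
  unfold l1
  push_cast
  exact h

private theorem BoxNet_summ (q : ℝ) :
    Summable (fun k : ℕ => (1 / 2 : ℝ) ^ k * (1 + (k : ℝ)) ^ q) := by
  have h1 : Summable (fun k : ℕ => ((k : ℝ)) ^ ⌈q⌉₊ * (1 / 2 : ℝ) ^ k) :=
    summable_pow_mul_geometric_of_norm_lt_one _ (by norm_num)
  have h2 : Summable (fun k : ℕ => (((k + 1 : ℕ) : ℝ)) ^ ⌈q⌉₊ * (1 / 2 : ℝ) ^ (k + 1)) :=
    (summable_nat_add_iff 1).mpr h1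
  have h3 := h2.mul_left 2
  refine Summable.of_nonneg_of_le (fun k => by positivity) (fun k => ?_) h3
  have h4 : (1 + (k : ℝ)) ^ q ≤ (1 + (k : ℝ)) ^ ⌈q⌉₊ := by
    rw [← Real.rpow_natCast]
    exact Real.rpow_le_rpow_of_exponent_le (by linarith [(Nat.cast_nonneg k : (0 : ℝ) ≤ k)])
      (Nat.le_ceil q)
  have h5 : (2 : ℝ) * ((((k + 1 : ℕ) : ℝ)) ^ ⌈q⌉₊ * (1 / 2 : ℝ) ^ (k + 1)) =
      (1 / 2 : ℝ) ^ k * (1 + (k : ℝ)) ^ ⌈q⌉₊ := by
    push_cast
    ring
  rw [h5]
  exact mul_le_mul_of_nonneg_left h4 (by positivity)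

/-- polynomially weighted sums are bounded uniformly in the box -/
theorem box_poly (d : ℕ) (q : ℝ) (hq : 0 ≤ q) : ∃ C : ℝ, 0 < C ∧ ∀ L : ℕ, ∀ o ∈ boxS d L,
    ∑ x ∈ boxS d L, ∑ z ∈ boxS d L, (1 / 2 : ℝ) ^ l1 o x * (1 / 2) ^ l1 x z *
      (1 + (l1 z 0 : ℝ)) ^ q ≤ C * (1 + (l1 o 0 : ℝ)) ^ q ∧
    ∑ z ∈ boxS d L, 1 / (1 + (l1 z 0 : ℝ)) ^ (d + 1) ≤ C := by
  classical
  -- first sum
  let g : ℕ → ℝ := fun k => (1 / 2 : ℝ) ^ k * (1 + (k : ℝ)) ^ q
  have hg0 : ∀ k, 0 ≤ g k := fun k => by positivity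
  have hgs : Summable g := BoxNet_summ q
  let S : ℝ := ∑' k, g k + ∑' k, g (k + 1)
  have hS0 : 0 ≤ S := add_nonneg (tsum_nonneg hg0) (tsum_nonneg fun k => hg0 (k + 1))
  have hG : ∀ x z : Fin d → ℤ, (1 / 2 : ℝ) ^ l1 x z * (1 + (l1 x z : ℝ)) ^ q ≤
      ∏ i, g (x i - z i).natAbs := by
    intro x z
    have h1 : (1 + (l1 x z : ℝ)) ^ q ≤ ∏ i, (1 + ((x i - z i).natAbs : ℝ)) ^ q := by
      rw [Real.finsetProd_rpow _ _ (fun i _ => by positivity)]
      exact Real.rpow_le_rpow (by positivity) (BoxNet_prod_ge x z) hq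
    calc (1 / 2 : ℝ) ^ l1 x z * (1 + (l1 x z : ℝ)) ^ q
        ≤ (1 / 2 : ℝ) ^ l1 x z * ∏ i, (1 + ((x i - z i).natAbs : ℝ)) ^ q :=
          mul_le_mul_of_nonneg_left h1 (by positivity)
      _ = ∏ i, g (x i - z i).natAbs := by
          rw [BoxNet_pow, ← Finset.prod_mul_distrib]
  have hGnn : ∀ x z : Fin d → ℤ, 0 ≤ ∏ i, g (x i - z i).natAbs := fun x z =>
    Finset.prod_nonneg fun i _ => hg0 _
  have hfirst : ∀ L : ℕ, ∀ o : Fin d → ℤ,
      ∑ x ∈ boxS d L, ∑ z ∈ boxS d L, (1 / 2 : ℝ) ^ l1 o x * (1 / 2) ^ l1 x z *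
      (1 + (l1 z 0 : ℝ)) ^ q ≤ (S ^ d * S ^ d) * (1 + (l1 o 0 : ℝ)) ^ q := by
    intro L o
    have hpt : ∀ x z : Fin d → ℤ, (1 / 2 : ℝ) ^ l1 o x * (1 / 2) ^ l1 x z *
        (1 + (l1 z 0 : ℝ)) ^ q ≤ (1 + (l1 o 0 : ℝ)) ^ q *
          ((∏ i, g (o i - x i).natAbs) * ∏ i, g (x i - z i).natAbs) := by
      intro x z
      have h1 : (l1 z 0 : ℝ) ≤ l1 o 0 + l1 o x + l1 x z := by
        have h2 := BoxNet_tri z x 0
        have h3 := BoxNet_tri x o 0
        rw [BoxNet_comm z x] at h2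
        rw [BoxNet_comm x o] at h3
        have h4 : l1 z 0 ≤ l1 o 0 + l1 o x + l1 x z := by omega
        exact_mod_cast h4
      have h5 : 1 + (l1 z 0 : ℝ) ≤ (1 + (l1 o 0 : ℝ)) * ((1 + (l1 o x : ℝ)) * (1 + (l1 x z : ℝ))) := by
        have ha : (0 : ℝ) ≤ l1 o 0 := by positivity
        have hb : (0 : ℝ) ≤ l1 o x := by positivity
        have hc : (0 : ℝ) ≤ l1 x z := by positivity
        nlinarith [mul_nonneg ha hb, mul_nonneg ha hc, mul_nonneg hb hc,
          mul_nonneg (mul_nonneg ha hb) hc]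
      have h6 : (1 + (l1 z 0 : ℝ)) ^ q ≤ (1 + (l1 o 0 : ℝ)) ^ q *
          ((1 + (l1 o x : ℝ)) ^ q * (1 + (l1 x z : ℝ)) ^ q) := by
        rw [← Real.mul_rpow (by positivity) (by positivity),
          ← Real.mul_rpow (by positivity) (by positivity)]
        exact Real.rpow_le_rpow (by positivity) h5 hq
      calc (1 / 2 : ℝ) ^ l1 o x * (1 / 2) ^ l1 x z * (1 + (l1 z 0 : ℝ)) ^ q
          ≤ (1 / 2 : ℝ) ^ l1 o x * (1 / 2) ^ l1 x z * ((1 + (l1 o 0 : ℝ)) ^ q *
            ((1 + (l1 o x : ℝ)) ^ q * (1 + (l1 x z : ℝ)) ^ q)) :=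
            mul_le_mul_of_nonneg_left h6 (by positivity)
        _ = (1 + (l1 o 0 : ℝ)) ^ q * (((1 / 2 : ℝ) ^ l1 o x * (1 + (l1 o x : ℝ)) ^ q) *
            ((1 / 2) ^ l1 x z * (1 + (l1 x z : ℝ)) ^ q)) := by ring
        _ ≤ _ := mul_le_mul_of_nonneg_left
            (mul_le_mul (hG o x) (hG x z) (by positivity) (hGnn o x)) (by positivity)
    calc ∑ x ∈ boxS d L, ∑ z ∈ boxS d L, (1 / 2 : ℝ) ^ l1 o x * (1 / 2) ^ l1 x z *
          (1 + (l1 z 0 : ℝ)) ^ q
        ≤ ∑ x ∈ boxS d L, ∑ z ∈ boxS d L, (1 + (l1 o 0 : ℝ)) ^ q *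
          ((∏ i, g (o i - x i).natAbs) * ∏ i, g (x i - z i).natAbs) :=
          Finset.sum_le_sum fun x _ => Finset.sum_le_sum fun z _ => hpt x z
      _ = (1 + (l1 o 0 : ℝ)) ^ q * ∑ x ∈ boxS d L, ((∏ i, g (o i - x i).natAbs) *
          ∑ z ∈ boxS d L, ∏ i, g (x i - z i).natAbs) := by
          rw [Finset.mul_sum]
          refine Finset.sum_congr rfl fun x _ => ?_
          rw [Finset.mul_sum, Finset.mul_sum]
      _ ≤ (1 + (l1 o 0 : ℝ)) ^ q * ∑ x ∈ boxS d L, ((∏ i, g (o i - x i).natAbs) * S ^ d) := by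
          refine mul_le_mul_of_nonneg_left (Finset.sum_le_sum fun x _ => ?_) (by positivity)
          exact mul_le_mul_of_nonneg_left (BoxNet_sum g hg0 hgs d L x) (hGnn o x)
      _ = (1 + (l1 o 0 : ℝ)) ^ q * ((∑ x ∈ boxS d L, ∏ i, g (o i - x i).natAbs) * S ^ d) := by
          rw [Finset.sum_mul]
      _ ≤ (1 + (l1 o 0 : ℝ)) ^ q * (S ^ d * S ^ d) := by
          refine mul_le_mul_of_nonneg_left ?_ (by positivity)
          exact mul_le_mul_of_nonneg_right (BoxNet_sum g hg0 hgs d L o) (by positivity)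
      _ = (S ^ d * S ^ d) * (1 + (l1 o 0 : ℝ)) ^ q := by ring
  -- second sum
  have hsecond : ∃ S' : ℝ, 0 ≤ S' ∧ ∀ L : ℕ,
      ∑ z ∈ boxS d L, 1 / (1 + (l1 z 0 : ℝ)) ^ (d + 1) ≤ S' := by
    rcases Nat.eq_zero_or_pos d with hd | hd
    · subst hd
      refine ⟨1, zero_le_one, fun L => ?_⟩
      have h1 : (boxS 0 L).card ≤ 1 := Finset.card_le_one_of_subsingleton _
      calc ∑ z ∈ boxS 0 L, 1 / (1 + (l1 z 0 : ℝ)) ^ (0 + 1)
          ≤ ∑ _z ∈ boxS 0 L, (1 : ℝ) := by
            refine Finset.sum_le_sum fun z _ => ?_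
            rw [div_le_one (by positivity)]
            have : (0 : ℝ) ≤ l1 z 0 := by positivity
            rw [zero_add, pow_one]
            linarith
        _ = ((boxS 0 L).card : ℝ) := by simp
        _ ≤ 1 := by exact_mod_cast h1
    · have hdR : (0 : ℝ) < d := by exact_mod_cast hd
      let p : ℝ := 1 + 1 / d
      have hp1 : 1 < p := by
        have : 0 < 1 / (d : ℝ) := by positivity
        simp only [p]; linarith
      let h : ℕ → ℝ := fun k => 1 / (((k + 1 : ℕ) : ℝ)) ^ p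
      have hh0 : ∀ k, 0 ≤ h k := fun k => by positivity
      have hhs : Summable h := (summable_nat_add_iff 1).mpr (Real.summable_one_div_nat_rpow.mpr hp1)
      have hh1 : 0 ≤ ∑' k, h k + ∑' k, h (k + 1) :=
        add_nonneg (tsum_nonneg hh0) (tsum_nonneg fun k => hh0 (k + 1))
      refine ⟨(∑' k, h k + ∑' k, h (k + 1)) ^ d, by positivity, fun L => ?_⟩
      refine le_trans (Finset.sum_le_sum fun z _ => ?_) (BoxNet_sum h hh0 hhs d L 0)
      have h1 : ∀ i : Fin d, (((0 : Fin d → ℤ) i - z i).natAbs : ℝ) ≤ l1 z 0 := by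
        intro i
        have h2 : ((0 : Fin d → ℤ) i - z i).natAbs ≤ l1 z 0 := by
          rw [BoxNet_l1zero]
          refine le_trans (le_of_eq ?_) (Finset.single_le_sum (f := fun i => (z i).natAbs)
            (fun j _ => Nat.zero_le _) (Finset.mem_univ i))
          simp
        exact_mod_cast h2
      have h3 : ∏ i : Fin d, h ((0 : Fin d → ℤ) i - z i).natAbs =
          1 / ∏ i : Fin d, (1 + (((0 : Fin d → ℤ) i - z i).natAbs : ℝ)) ^ p := by
        rw [one_div, ← Finset.prod_inv_distrib]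
        refine Finset.prod_congr rfl fun i _ => ?_
        simp only [h]
        rw [one_div]
        push_cast
        rw [add_comm]
      rw [h3]
      refine one_div_le_one_div_of_le (Finset.prod_pos fun i _ => by positivity) ?_
      calc ∏ i : Fin d, (1 + (((0 : Fin d → ℤ) i - z i).natAbs : ℝ)) ^ p
          ≤ ∏ _i : Fin d, (1 + (l1 z 0 : ℝ)) ^ p := by
            refine Finset.prod_le_prod (fun i _ => by positivity) fun i _ => ?_
            refine Real.rpow_le_rpow (by positivity) (by linarith [h1 i]) (by linarith)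
        _ = ((1 + (l1 z 0 : ℝ)) ^ p) ^ d := by simp
        _ = (1 + (l1 z 0 : ℝ)) ^ (d + 1) := by
            rw [← Real.rpow_natCast ((1 + (l1 z 0 : ℝ)) ^ p) d, ← Real.rpow_mul (by positivity),
              ← Real.rpow_natCast (1 + (l1 z 0 : ℝ)) (d + 1)]
            congr 1
            simp only [p]
            push_cast
            field_simp
  obtain ⟨S', hS'0, hS'⟩ := hsecond
  refine ⟨S ^ d * S ^ d + S' + 1, by positivity, fun L o _ => ⟨?_, ?_⟩⟩
  · refine (hfirst L o).trans ?_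
    have h1 : (0 : ℝ) ≤ (1 + (l1 o 0 : ℝ)) ^ q := by positivity
    exact mul_le_mul_of_nonneg_right (by linarith) h1
  · have h1 : 0 ≤ S ^ d * S ^ d := by positivity
    exact (hS' L).trans (by linarith)

end Dyn
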