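import Pool.Agent.Lib_MP_36b788.SDefs

/-!
# Path functionals of the chain
-/

open MeasureTheory ProbabilityTheory

namespace Dyn

noncomputable section

variable {N d : ℕ} {ι : Type} [Fintype ι]

/-- `E_G[ f₀(G₀) f₁(G₁) ... ]` for the chain started at `G` -/
def pathE (net : Net ι d) (β h k : ℝ) (ν : Measure (E N)) :
    List ((ι → E N) → ℂ) → (ι → E N) → ℂ
  | [], _ => 1
  | f :: fs, G => f G * ∫ ξ, pathE net β h k ν fs (stp net β h k G ξ) ∂(pim ι ν)

/-- probability that one of `G₀, …, G_{n-1}` is not alive -/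
def exitE (net : Net ι d) (β h k : ℝ) (ν : Measure (E N)) : ℕ → (ι → E N) → ℝ
  | 0, _ => 0
  | n + 1, G => open Classical in
      if ∀ x, ‖G x‖ ≤ rad β h then ∫ ξ, exitE net β h k ν n (stp net β h k G ξ) ∂(pim ι ν) else 1

/-- law of the chain after `n` steps, initial law `m0` -/
def chainLaw (net : Net ι d) (β h k : ℝ) (ν : Measure (E N)) (m0 : Measure (ι → E N)) :
    ℕ → Measure (ι → E N)
  | 0 => m0
  | n + 1 => ((chainLaw net β h k ν m0 n).prod (pim ι ν)).map (fun q => stp net β h k q.1 q.2)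

/-- weighted sum `w₀ + ρ w₁ + ρ² w₂ + …` -/
def wsum (ρ : ℝ) : List ℝ → ℝ
  | [] => 0
  | w :: ws => w + ρ * wsum ρ ws

/-- local second moment -/
def R2f (net : Net ι d) (G : ι → E N) (x : ι) : ℝ := ∑ z, (1 / 2 : ℝ) ^ net.dist x z * ‖G z‖ ^ 2

/-- centered noise with second moment at most `N` -/
structure Noise2 {N : ℕ} (ν : Measure (E N)) : Prop where
  prob : IsProbabilityMeasure ν
  int : Integrable (fun ξ : E N => ‖ξ‖ ^ 2) ν
  mean : ∫ ξ, ξ ∂ν = 0
  mom : ∫ ξ, ‖ξ‖ ^ 2 ∂ν ≤ N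

/-- truncated standard Gaussian -/
def nuT (N : ℕ) (h : ℝ) : Measure (E N) :=
  open Classical in
  (stdGaussian (E N)).map (fun ξ => if ‖ξ‖ ≤ h ^ (-(1 / 8) : ℝ) then ξ else 0)

/-- tail of the Gaussian -/
def tailG (N : ℕ) (h : ℝ) : ℝ := (stdGaussian (E N)).real {ξ | h ^ (-(1 / 8) : ℝ) < ‖ξ‖}

end

end Dyn
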