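import Pool.Agent.Lib_MP_36b788.PhiDefs
import Pool.Agent.Lib_MP_36b788.PathDefs
import Pool.Agent.Lib_MP_36b788.BoxNet

/-!
# Definitions for the mixing of the Gaussian chain
-/

open MeasureTheory ProbabilityTheory

namespace Dyn

noncomputable section

/-- weighted functional controlling `V` and the local second moments on the box -/
def PsiK {N d : ℕ} {β D0 : ℝ} (Bs : Base N d β D0) (m q K : ℝ) (L : ℕ) (k : ℝ) (y : ℝ → ℝ)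
    (G : boxS d L → E N) : ℝ :=
  ∑ z : boxS d L, Vs Bs m (boxNet d L) k y G z ^ 2 /
      (K * ((1 + (l1 (z : Fin d → ℤ) 0 : ℝ)) ^ (2 * q) * (1 + (l1 (z : Fin d → ℤ) 0 : ℝ)) ^ (d + 1)))
    + ∑ x : boxS d L, R2f (boxNet d L) G x / (K * (1 + (l1 (x : Fin d → ℤ) 0 : ℝ)) ^ (d + 1))

/-- drift property of `V²` (produced by PHISTEP) -/
def VDrift {N d : ℕ} {β D0 : ℝ} (Bs : Base N d β D0) (m cm Cm k : ℝ) : Prop :=
  ∀ L : ℕ, ∃ h0 : ℝ, 0 < h0 ∧ ∀ (h : ℝ) (ν : Measure (E N)), 0 < h → h < h0 → IsNoise h ν →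
    ∀ y : ℝ → ℝ, IsCorr N β h ν Bs.δ Bs.Cy y →
    cm * h ≤ 1 ∧ ∀ G : boxS d L → E N, (∀ x, ‖G x‖ ≤ rad β h) → Nz k G →
      (∀ᵐ ξ ∂(pim (boxS d L) ν), Nz k (stp (boxNet d L) β h k G ξ)) ∧
      ∀ z, ∫ ξ, Vs Bs m (boxNet d L) k y (stp (boxNet d L) β h k G ξ) z ^ 2 ∂(pim (boxS d L) ν) ≤
        (1 - cm * h) * Vs Bs m (boxNet d L) k y G z ^ 2 + Cm * h

end

end Dyn
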