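import Pool.Agent.Lib_MP_36b788.UGen

/-!
# HSITE: one step of the bounded potential `h₁(r) = 1-(1+r)^(-ε)`, `ε = min(β-1,1)`, `γ = β-ε ≥ 1`

PROOF. `h₁` is `1`-Lipschitz in `r ≥ 0` (`ε ≤ 1`), so the shift `w` costs `‖w‖`. For `w = 0`, `g ≠ 0`:
UGEN with `f(u) = 1-(1+e^u)^(-ε)`, `f' = ε e^u(1+e^u)^(-ε-1) ∈ [0,1]`, `f'', f'''` bounded by an absolute
constant; `½f''+½(N-2)f' ≤ C`, and `r^β f' = ε r^{1+β}(1+r)^{-ε-1} ≥ ε 2^{-ε-1-γ}((1+r)^γ - 2^γ)`
(for `r ≥ 1` `r/(1+r) ≥ 1/2` gives `r^{1+β}(1+r)^{-ε-1} ≥ 2^{-ε-1} r^{γ} ≥ 2^{-ε-1-γ}(1+r)^γ`).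
`g = 0`: `hat = 0`; the right side is `≥ 0` if `C_H ≥ c_h`.
-/

open MeasureTheory

namespace Dyn

private theorem HSite_eps {β : ℝ} (hβ : 1 < β) : 0 < epsE β ∧ epsE β ≤ 1 :=
  ⟨lt_min (by linarith) one_pos, min_le_right _ _⟩

private theorem HSite_key {ε a b : ℝ} (hε : 0 < ε) (hε1 : ε ≤ 1) (ha : 0 ≤ a) (hab : a ≤ b) :
    0 ≤ th ε b - th ε a ∧ th ε b - th ε a ≤ (b - a) / (1 + b) := by
  have ha1 : 0 < 1 + a := by linarith
  have hb1 : 0 < 1 + b := by linarith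
  have h1 : (1 + b) ^ (-ε) = (1 + a) ^ (-ε) * ((1 + a) / (1 + b)) ^ ε := by
    rw [Real.div_rpow ha1.le hb1.le, Real.rpow_neg ha1.le, Real.rpow_neg hb1.le]
    have := (Real.rpow_pos_of_pos ha1 ε).ne'
    field_simp
  have h2 : (1 + a) ^ (-ε) ≤ 1 := Real.rpow_le_one_of_one_le_of_nonpos (by linarith) (by linarith)
  have h3 : 0 < (1 + a) ^ (-ε) := Real.rpow_pos_of_pos ha1 _
  have hx1 : (1 + a) / (1 + b) ≤ 1 := (div_le_one hb1).2 (by linarith)
  have hx0 : 0 < (1 + a) / (1 + b) := by positivity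
  have h4 : (1 + a) / (1 + b) ≤ ((1 + a) / (1 + b)) ^ ε := by
    calc (1 + a) / (1 + b) = ((1 + a) / (1 + b)) ^ (1 : ℝ) := (Real.rpow_one _).symm
      _ ≤ _ := Real.rpow_le_rpow_of_exponent_ge hx0 hx1 hε1
  have h5 : ((1 + a) / (1 + b)) ^ ε ≤ 1 := Real.rpow_le_one hx0.le hx1 hε.le
  unfold th
  rw [h1]
  have h7 : 1 - (1 + a) ^ (-ε) * ((1 + a) / (1 + b)) ^ ε - (1 - (1 + a) ^ (-ε)) =
      (1 + a) ^ (-ε) * (1 - ((1 + a) / (1 + b)) ^ ε) := by ring
  rw [h7]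
  constructor
  · exact mul_nonneg h3.le (by linarith)
  · have h6 : (b - a) / (1 + b) = 1 - (1 + a) / (1 + b) := by
      field_simp
      ring
    rw [h6]
    calc (1 + a) ^ (-ε) * (1 - ((1 + a) / (1 + b)) ^ ε) ≤ 1 * (1 - ((1 + a) / (1 + b)) ^ ε) :=
          mul_le_mul_of_nonneg_right h2 (by linarith)
      _ ≤ _ := by linarith

private theorem HSite_lip {ε a b : ℝ} (hε : 0 < ε) (hε1 : ε ≤ 1) (ha : 0 ≤ a) (hb : 0 ≤ b) :
    |th ε a - th ε b| ≤ |a - b| := by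
  wlog hab : a ≤ b generalizing a b with H
  · rw [abs_sub_comm, abs_sub_comm a b]
    exact H hb ha (le_of_not_ge hab)
  obtain ⟨h1, h2⟩ := HSite_key hε hε1 ha hab
  rw [abs_sub_comm, abs_of_nonneg h1, abs_sub_comm, abs_of_nonneg (by linarith)]
  exact h2.trans (div_le_self (by linarith) (by linarith))

private theorem HSite_log {ε a b : ℝ} (hε : 0 < ε) (hε1 : ε ≤ 1) (ha : 0 < a) (hb : 0 < b) :
    |th ε a - th ε b| ≤ |Real.log a - Real.log b| := by
  wlog hab : a ≤ b generalizing a b with H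
  · rw [abs_sub_comm, abs_sub_comm (Real.log a)]
    exact H hb ha (le_of_not_ge hab)
  obtain ⟨h1, h2⟩ := HSite_key hε hε1 ha.le hab
  rw [abs_sub_comm, abs_of_nonneg h1, abs_sub_comm, abs_of_nonneg
    (sub_nonneg.2 (Real.log_le_log ha hab))]
  have h3 : (b - a) / (1 + b) ≤ 1 - a / b := by
    have h4 : 1 - a / b = (b - a) / b := by
      field_simp
    rw [h4]
    exact div_le_div_of_nonneg_left (by linarith) hb (by linarith)
  have h5 := Real.log_le_sub_one_of_pos (div_pos ha hb)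
  rw [Real.log_div ha.ne' hb.ne'] at h5
  linarith

private theorem HSite_th_mem {ε r : ℝ} (hε : 0 < ε) (hr : 0 ≤ r) : 0 ≤ th ε r ∧ th ε r ≤ 1 := by
  unfold th
  have h2 : (1 + r) ^ (-ε) ≤ 1 := Real.rpow_le_one_of_one_le_of_nonpos (by linarith) (by linarith)
  have h3 : 0 < (1 + r) ^ (-ε) := Real.rpow_pos_of_pos (by linarith) _
  exact ⟨by linarith, by linarith⟩

private theorem HSite_hat_cont {N : ℕ} {β h : ℝ} (hβ : 0 < β) (hh : 0 ≤ h) (g : E N) :
    Continuous (hat (N := N) β h g) := by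
  have h1 : Continuous (fun ξ : E N => g + (Real.sqrt h * ‖g‖) • ξ) :=
    continuous_const.add (continuous_const_smul _)
  have h2 := (J_continuous (N := N) hβ hh).comp h1
  exact h2

private theorem HSite_th_cont {X : Type*} [TopologicalSpace X] (ε : ℝ) {r : X → ℝ}
    (hr : Continuous r) (h0 : ∀ x, 0 ≤ r x) : Continuous (fun x => th ε (r x)) := by
  unfold th
  have h1 : Continuous (fun x => 1 + r x) := continuous_const.add hr
  have h2 : ∀ x, 1 + r x ≠ 0 := fun x => by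
    have := h0 x
    linarith
  exact continuous_const.sub (h1.rpow_const fun x => Or.inl (h2 x))

/-! ### the function of `u = log r` -/

private noncomputable def HSite_f (ε u : ℝ) : ℝ := 1 - (1 + Real.exp u) ^ (-ε)

private noncomputable def HSite_p (u : ℝ) : ℝ := Real.exp u / (1 + Real.exp u)

private noncomputable def HSite_q (ε u : ℝ) : ℝ := (1 + Real.exp u) ^ (-ε)

private theorem HSite_pos (u : ℝ) : 0 < 1 + Real.exp u := by
  have := Real.exp_pos u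
  linarith

private theorem HSite_hp (u : ℝ) : HasDerivAt HSite_p (HSite_p u * (1 - HSite_p u)) u := by
  have h1 := HSite_pos u
  have h2 : HasDerivAt HSite_p ((Real.exp u * (1 + Real.exp u) - Real.exp u * Real.exp u) /
      (1 + Real.exp u) ^ 2) u :=
    (Real.hasDerivAt_exp u).div ((Real.hasDerivAt_exp u).const_add 1) h1.ne'
  convert h2 using 1
  unfold HSite_p
  field_simp

private theorem HSite_hq (ε u : ℝ) : HasDerivAt (HSite_q ε) (-ε * HSite_p u * HSite_q ε u) u := by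
  have h1 := HSite_pos u
  have h2 : HasDerivAt (HSite_q ε) (Real.exp u * (-ε) * (1 + Real.exp u) ^ (-ε - 1)) u :=
    ((Real.hasDerivAt_exp u).const_add 1).rpow_const (Or.inl h1.ne')
  convert h2 using 1
  unfold HSite_p HSite_q
  rw [Real.rpow_sub h1, Real.rpow_one]
  field_simp

private theorem HSite_d1 (ε : ℝ) : deriv (HSite_f ε) = fun u => ε * HSite_p u * HSite_q ε u := by
  funext u
  have h1 : HasDerivAt (HSite_f ε) (-(-ε * HSite_p u * HSite_q ε u)) u :=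
    (HSite_hq ε u).const_sub 1
  rw [h1.deriv]
  ring

private theorem HSite_d2 (ε : ℝ) : iteratedDeriv 2 (HSite_f ε) =
    fun u => ε * HSite_q ε u * HSite_p u * (1 - (1 + ε) * HSite_p u) := by
  rw [iteratedDeriv_succ, iteratedDeriv_one, HSite_d1]
  funext u
  have h1 := ((HSite_hp u).const_mul ε).mul (HSite_hq ε u)
  have h2 := h1.deriv
  have h3 : deriv (fun u => ε * HSite_p u * HSite_q ε u) u =
      ε * (HSite_p u * (1 - HSite_p u)) * HSite_q ε u +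
        ε * HSite_p u * (-ε * HSite_p u * HSite_q ε u) := h2
  rw [h3]
  ring

private theorem HSite_d3 (ε : ℝ) : iteratedDeriv 3 (HSite_f ε) =
    fun u => ε * HSite_q ε u * HSite_p u *
      (1 - 3 * (1 + ε) * HSite_p u + (1 + ε) * (2 + ε) * HSite_p u ^ 2) := by
  rw [iteratedDeriv_succ, HSite_d2]
  funext u
  have h1 := (((HSite_hq ε u).const_mul ε).mul (HSite_hp u)).mul
    (((HSite_hp u).const_mul (1 + ε)).const_sub 1)
  have h3 : deriv (fun u => ε * HSite_q ε u * HSite_p u * (1 - (1 + ε) * HSite_p u)) u =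
      (ε * (-ε * HSite_p u * HSite_q ε u) * HSite_p u +
        ε * HSite_q ε u * (HSite_p u * (1 - HSite_p u))) * (1 - (1 + ε) * HSite_p u) +
        ε * HSite_q ε u * HSite_p u * (-((1 + ε) * (HSite_p u * (1 - HSite_p u)))) := h1.deriv
  rw [h3]
  ring

private theorem HSite_cd (ε : ℝ) : ContDiff ℝ 3 (HSite_f ε) := by
  unfold HSite_f
  exact contDiff_const.sub ((contDiff_const.add Real.contDiff_exp).rpow_const_of_ne
    fun u => (HSite_pos u).ne')

private theorem HSite_p_mem (u : ℝ) : 0 < HSite_p u ∧ HSite_p u < 1 := by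
  have h1 := Real.exp_pos u
  have h2 := HSite_pos u
  unfold HSite_p
  refine ⟨by positivity, ?_⟩
  rw [div_lt_one h2]
  linarith

private theorem HSite_q_mem {ε : ℝ} (hε : 0 < ε) (u : ℝ) : 0 < HSite_q ε u ∧ HSite_q ε u ≤ 1 := by
  have h1 := Real.exp_pos u
  unfold HSite_q
  exact ⟨Real.rpow_pos_of_pos (HSite_pos u) _,
    Real.rpow_le_one_of_one_le_of_nonpos (by linarith) (by linarith)⟩

private theorem HSite_pre {ε : ℝ} (hε : 0 < ε) (hε1 : ε ≤ 1) (u : ℝ) :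
    0 ≤ ε * HSite_q ε u * HSite_p u ∧ ε * HSite_q ε u * HSite_p u ≤ 1 := by
  obtain ⟨hp0, hp1⟩ := HSite_p_mem u
  obtain ⟨hq0, hq1⟩ := HSite_q_mem hε u
  refine ⟨by positivity, ?_⟩
  calc ε * HSite_q ε u * HSite_p u ≤ 1 * 1 * 1 := by gcongr
    _ = 1 := by norm_num

private theorem HSite_b1 {ε : ℝ} (hε : 0 < ε) (hε1 : ε ≤ 1) (u : ℝ) :
    |deriv (HSite_f ε) u| ≤ 13 := by
  rw [HSite_d1]
  obtain ⟨h1, h2⟩ := HSite_pre hε hε1 u
  have h3 : ε * HSite_p u * HSite_q ε u = ε * HSite_q ε u * HSite_p u := by ring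
  show |ε * HSite_p u * HSite_q ε u| ≤ 13
  rw [h3, abs_of_nonneg h1]
  linarith

private theorem HSite_b2' {ε : ℝ} (hε : 0 < ε) (hε1 : ε ≤ 1) (u : ℝ) :
    |iteratedDeriv 2 (HSite_f ε) u| ≤ 1 := by
  rw [HSite_d2]
  obtain ⟨h1, h2⟩ := HSite_pre hε hε1 u
  obtain ⟨hp0, hp1⟩ := HSite_p_mem u
  show |ε * HSite_q ε u * HSite_p u * (1 - (1 + ε) * HSite_p u)| ≤ 1
  rw [abs_mul, abs_of_nonneg h1]
  have h3 : |1 - (1 + ε) * HSite_p u| ≤ 1 := by
    rw [abs_le]
    constructor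
    · nlinarith
    · nlinarith
  calc ε * HSite_q ε u * HSite_p u * |1 - (1 + ε) * HSite_p u| ≤ 1 * 1 := by gcongr
    _ = 1 := by norm_num

private theorem HSite_b3 {ε : ℝ} (hε : 0 < ε) (hε1 : ε ≤ 1) (u : ℝ) :
    |iteratedDeriv 3 (HSite_f ε) u| ≤ 13 := by
  rw [HSite_d3]
  obtain ⟨h1, h2⟩ := HSite_pre hε hε1 u
  obtain ⟨hp0, hp1⟩ := HSite_p_mem u
  show |ε * HSite_q ε u * HSite_p u *
      (1 - 3 * (1 + ε) * HSite_p u + (1 + ε) * (2 + ε) * HSite_p u ^ 2)| ≤ 13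
  rw [abs_mul, abs_of_nonneg h1]
  have h4 : 0 ≤ (1 + ε) * HSite_p u ∧ (1 + ε) * HSite_p u ≤ 2 := by
    refine ⟨by positivity, ?_⟩
    calc (1 + ε) * HSite_p u ≤ (1 + 1) * 1 := by gcongr
      _ = 2 := by norm_num
  have h5 : 0 ≤ (1 + ε) * (2 + ε) * HSite_p u ^ 2 ∧ (1 + ε) * (2 + ε) * HSite_p u ^ 2 ≤ 6 := by
    refine ⟨by positivity, ?_⟩
    calc (1 + ε) * (2 + ε) * HSite_p u ^ 2 ≤ (1 + 1) * (2 + 1) * 1 ^ 2 := by gcongr
      _ = 6 := by norm_num
  have h3 : |1 - 3 * (1 + ε) * HSite_p u + (1 + ε) * (2 + ε) * HSite_p u ^ 2| ≤ 13 := by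
    rw [abs_le]
    constructor
    · linarith [h4.2, h5.1]
    · linarith [h4.1, h5.2]
  calc ε * HSite_q ε u * HSite_p u *
      |1 - 3 * (1 + ε) * HSite_p u + (1 + ε) * (2 + ε) * HSite_p u ^ 2| ≤ 1 * 13 := by gcongr
    _ = 13 := by norm_num

private theorem HSite_f_log (ε : ℝ) {r : ℝ} (hr : 0 < r) : HSite_f ε (Real.log r) = th ε r := by
  unfold HSite_f th
  rw [Real.exp_log hr]

/-- the drift -/
private theorem HSite_drift (N : ℕ) {β : ℝ} (hN : 2 ≤ N) (hβ : 1 < β) {r : ℝ} (hr : 0 < r) :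
    1 / 2 * iteratedDeriv 2 (HSite_f (epsE β)) (Real.log r) +
      (1 / 2 * (N - 2) - r ^ β) * deriv (HSite_f (epsE β)) (Real.log r) ≤
      (N + 1) / 2 - epsE β * (1 / 2) ^ (1 + β) * (1 + r) ^ gam β := by
  obtain ⟨hε, hε1⟩ := HSite_eps hβ
  set ε := epsE β with hεd
  have hN2 : (2 : ℝ) ≤ N := by exact_mod_cast hN
  have h2 := (abs_le.1 (HSite_b2' hε hε1 (Real.log r))).2
  obtain ⟨h3, h4⟩ := HSite_pre hε hε1 (Real.log r)
  have h5 : deriv (HSite_f ε) (Real.log r) = ε * HSite_q ε (Real.log r) * HSite_p (Real.log r) := by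
    rw [HSite_d1]
    ring
  rw [h5]
  have hp : HSite_p (Real.log r) = r / (1 + r) := by
    unfold HSite_p
    rw [Real.exp_log hr]
  have hq : HSite_q ε (Real.log r) = (1 + r) ^ (-ε) := by
    unfold HSite_q
    rw [Real.exp_log hr]
  have hr1 : 0 < 1 + r := by linarith
  have hg : gam β = β - ε := rfl
  have h6 : r ^ β * (ε * HSite_q ε (Real.log r) * HSite_p (Real.log r)) =
      ε * ((r / (1 + r)) ^ (1 + β) * (1 + r) ^ gam β) := by
    rw [hp, hq, hg, Real.div_rpow hr.le hr1.le, Real.rpow_sub hr1, Real.rpow_neg hr1.le,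
      Real.rpow_add hr, Real.rpow_add hr1, Real.rpow_one, Real.rpow_one]
    have e1 := (Real.rpow_pos_of_pos hr1 ε).ne'
    have e2 := (Real.rpow_pos_of_pos hr1 β).ne'
    field_simp
  have h7 : ε * (1 / 2) ^ (1 + β) * (1 + r) ^ gam β - 1 ≤
      ε * ((r / (1 + r)) ^ (1 + β) * (1 + r) ^ gam β) := by
    have hG : 0 < (1 + r) ^ gam β := Real.rpow_pos_of_pos hr1 _
    rcases le_or_gt 1 r with h | h
    · have h8 : (1 / 2 : ℝ) ^ (1 + β) ≤ (r / (1 + r)) ^ (1 + β) := by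
        apply Real.rpow_le_rpow (by norm_num) _ (by linarith)
        rw [div_le_div_iff₀ (by norm_num) hr1]
        linarith
      have h9 : ε * (1 / 2) ^ (1 + β) * (1 + r) ^ gam β ≤
          ε * ((r / (1 + r)) ^ (1 + β) * (1 + r) ^ gam β) := by
        rw [mul_assoc]
        gcongr
      linarith
    · have h8 : (1 + r) ^ gam β ≤ 2 ^ gam β := by
        apply Real.rpow_le_rpow hr1.le (by linarith)
        rw [hg]
        linarith
      have h9 : (1 / 2 : ℝ) ^ (1 + β) * 2 ^ gam β ≤ 1 := by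
        rw [one_div, Real.inv_rpow (by norm_num), ← Real.rpow_neg (by norm_num),
          ← Real.rpow_add (by norm_num)]
        apply Real.rpow_le_one_of_one_le_of_nonpos (by norm_num)
        rw [hg]
        linarith
      have h10 : ε * (1 / 2) ^ (1 + β) * (1 + r) ^ gam β ≤ 1 := by
        calc ε * (1 / 2) ^ (1 + β) * (1 + r) ^ gam β ≤ ε * (1 / 2) ^ (1 + β) * 2 ^ gam β := by
              gcongr
          _ = ε * ((1 / 2) ^ (1 + β) * 2 ^ gam β) := by ring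
          _ ≤ 1 * 1 := by gcongr
          _ = 1 := by norm_num
      have h11 : 0 ≤ ε * ((r / (1 + r)) ^ (1 + β) * (1 + r) ^ gam β) := by positivity
      linarith
  have h8 : 1 / 2 * ((N : ℝ) - 2) * (ε * HSite_q ε (Real.log r) * HSite_p (Real.log r)) ≤
      1 / 2 * ((N : ℝ) - 2) * 1 := mul_le_mul_of_nonneg_left h4 (by linarith)
  rw [sub_mul, h6]
  linarith

theorem hsite (N : ℕ) (β : ℝ) (hN : 2 ≤ N) (hβ : 1 < β) :
    ∃ ch CH : ℝ, 0 < ch ∧ ch ≤ 1 ∧ 0 < CH ∧ ∃ C2 h0 : ℝ, 0 < C2 ∧ 0 < h0 ∧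
      ∀ (h : ℝ) (ν : Measure (E N)), 0 < h → h < h0 → IsNoise h ν →
        ∀ g w : E N, ‖g‖ ≤ rad β h →
        (∫ ξ, (th (epsE β) ‖hat β h g ξ + w‖ - th (epsE β) ‖g‖) ∂ν ≤
          h * (-(ch * (1 + ‖g‖) ^ gam β) + CH) + ‖w‖ + C2 * h ^ (9 / 8 : ℝ)) ∧
        (∀ᵐ ξ ∂ν, |th (epsE β) ‖hat β h g ξ + w‖ - th (epsE β) ‖g‖| ≤
          4 * h ^ (3 / 8 : ℝ) + ‖w‖) ∧
        ∫ ξ, (th (epsE β) ‖hat β h g ξ + w‖ - th (epsE β) ‖g‖) ^ 2 ∂ν ≤ CH * (h + ‖w‖ ^ 2) := by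
  obtain ⟨hε, hε1⟩ := HSite_eps hβ
  have hβ0 : 0 < β := by linarith
  obtain ⟨C, h1, hC, hh1, hU⟩ := ugen N β (by omega) hβ0
  obtain ⟨C', h2, hC', hh2, hL⟩ := ugen_log N β (by omega) hβ0
  obtain ⟨h3, hh3, hh31, hB⟩ := hat_bounds N β hβ0
  have hN2 : (2 : ℝ) ≤ N := by exact_mod_cast hN
  have hch : 0 < epsE β * (1 / 2) ^ (1 + β) := by positivity
  have hch1 : epsE β * (1 / 2) ^ (1 + β) ≤ 1 := by
    have h4 : (1 / 2 : ℝ) ^ (1 + β) ≤ 1 := Real.rpow_le_one (by norm_num) (by norm_num) (by linarith)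
    have h5 : 0 ≤ (1 / 2 : ℝ) ^ (1 + β) := by positivity
    calc epsE β * (1 / 2) ^ (1 + β) ≤ 1 * 1 := by gcongr
      _ = 1 := by norm_num
  refine ⟨epsE β * (1 / 2) ^ (1 + β), N + 4 + 2 * C', hch, hch1, by positivity,
    C * 13, min h1 (min h2 h3), by positivity, by positivity, ?_⟩
  intro h ν hh hh0 hν g w hg
  have hhA : h < h1 := lt_of_lt_of_le hh0 (min_le_left _ _)
  have hhB : h < h2 := lt_of_lt_of_le hh0 ((min_le_right _ _).trans (min_le_left _ _))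
  have hhC : h < h3 := lt_of_lt_of_le hh0 ((min_le_right _ _).trans (min_le_right _ _))
  have hh1000 : h < 1 / 1000 := lt_of_lt_of_le hhC hh31
  have := hν.prob
  have hb := hB h ν hh hhC hν g hg
  set ε := epsE β with hεd
  set ch : ℝ := ε * (1 / 2) ^ (1 + β) with hchd
  -- continuity and integrability
  have hhat : Continuous (hat (N := N) β h g) := HSite_hat_cont hβ0 hh.le g
  have hcw : ∀ w' : E N, Continuous (fun ξ : E N => th ε ‖hat β h g ξ + w'‖) :=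
    fun w' => HSite_th_cont ε ((hhat.add continuous_const).norm) fun ξ => norm_nonneg _
  have hint : ∀ w' : E N, Integrable (fun ξ : E N => th ε ‖hat β h g ξ + w'‖) ν := by
    intro w'
    refine Integrable.of_bound (hcw w').aestronglyMeasurable 1 (Filter.Eventually.of_forall fun ξ => ?_)
    obtain ⟨h4, h5⟩ := HSite_th_mem hε (norm_nonneg (hat β h g ξ + w'))
    rw [Real.norm_eq_abs, abs_of_nonneg h4]
    exact h5
  have hint0 : Integrable (fun ξ : E N => th ε ‖hat β h g ξ‖) ν := by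
    have := hint 0
    simpa using this
  have hw : ∀ ξ : E N, |th ε ‖hat β h g ξ + w‖ - th ε ‖hat β h g ξ‖| ≤ ‖w‖ := by
    intro ξ
    refine (HSite_lip hε hε1 (norm_nonneg _) (norm_nonneg _)).trans ?_
    have h4 := abs_norm_sub_norm_le (hat β h g ξ + w) (hat β h g ξ)
    rwa [add_sub_cancel_left] at h4
  have hl0 : 0 < h ^ (3 / 8 : ℝ) := Real.rpow_pos_of_pos hh _
  rcases eq_or_ne g 0 with rfl | hg0
  · have hz : ∀ ξ : E N, hat β h (0 : E N) ξ = 0 := fun ξ => hat_zero β h ξ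
    have h4 : |th ε ‖w‖ - th ε ‖(0 : E N)‖| ≤ ‖w‖ := by
      have h5 := hw 0
      rwa [hz, zero_add] at h5
    simp only [hz, zero_add]
    refine ⟨?_, ?_, ?_⟩
    · rw [integral_const, probReal_univ, one_smul]
      have h5 := (abs_le.1 h4).2
      have h6 : (1 + ‖(0 : E N)‖) ^ gam β = 1 := by
        rw [norm_zero, add_zero, Real.one_rpow]
      rw [h6]
      have h7 : 0 ≤ h * (-(ch * 1) + (N + 4 + 2 * C')) := mul_nonneg hh.le (by linarith)
      have h8 : 0 ≤ C * 13 * h ^ (9 / 8 : ℝ) := by positivity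
      linarith
    · refine Filter.Eventually.of_forall fun ξ => ?_
      linarith
    · rw [integral_const, probReal_univ, one_smul]
      have h5 : (th ε ‖w‖ - th ε ‖(0 : E N)‖) ^ 2 ≤ ‖w‖ ^ 2 := by
        rw [← sq_abs]
        exact pow_le_pow_left₀ (abs_nonneg _) h4 2
      have h6 : 0 ≤ ‖w‖ ^ 2 := sq_nonneg _
      have h7 : 1 * (h + ‖w‖ ^ 2) ≤ (N + 4 + 2 * C') * (h + ‖w‖ ^ 2) :=
        mul_le_mul_of_nonneg_right (by linarith) (by linarith)
      linarith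
  · have hgp : 0 < ‖g‖ := norm_pos_iff.2 hg0
    -- the step is not zero
    have hpos : ∀ᵐ ξ ∂ν, 0 < ‖hat β h g ξ‖ := by
      filter_upwards [hb] with ξ hξ
      obtain ⟨_, h4, _, _, h5⟩ := hξ
      have h6 : 0 < (1 - 2 * h ^ (3 / 8 : ℝ)) * ‖g‖ := mul_pos (by linarith) hgp
      linarith
    have hlog : ∀ᵐ ξ ∂ν, |th ε ‖hat β h g ξ‖ - th ε ‖g‖| ≤
        |Real.log ‖hat β h g ξ‖ - Real.log ‖g‖| := by
      filter_upwards [hpos] with ξ hξ
      exact HSite_log hε hε1 hξ hgp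
    refine ⟨?_, ?_, ?_⟩
    · have h4 : ∫ ξ, (th ε ‖hat β h g ξ + w‖ - th ε ‖g‖) ∂ν ≤
          ∫ ξ, (th ε ‖hat β h g ξ‖ + (‖w‖ - th ε ‖g‖)) ∂ν := by
        apply integral_mono ((hint w).sub (integrable_const _)) (hint0.add (integrable_const _))
        intro ξ
        have h5 := (abs_le.1 (hw ξ)).2
        show th ε ‖hat β h g ξ + w‖ - th ε ‖g‖ ≤ th ε ‖hat β h g ξ‖ + (‖w‖ - th ε ‖g‖)
        linarith
      rw [integral_add hint0 (integrable_const _), integral_const, probReal_univ, one_smul] at h4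
      have h5 : ∫ ξ, th ε ‖hat β h g ξ‖ ∂ν = ∫ ξ, HSite_f ε (Real.log ‖hat β h g ξ‖) ∂ν := by
        apply integral_congr_ae
        filter_upwards [hpos] with ξ hξ
        exact (HSite_f_log ε hξ).symm
      have h6 := hU h ν hh hhA hν g hg0 hg (HSite_f ε) 13 (HSite_cd ε) (HSite_b1 hε hε1)
        (fun u => (HSite_b2' hε hε1 u).trans (by norm_num)) (HSite_b3 hε hε1)
      rw [← h5, HSite_f_log ε hgp] at h6
      have h7 := (abs_le.1 h6).2
      have h8 := HSite_drift N hN hβ hgp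
      rw [← hεd, ← hchd] at h8
      have h9 := mul_le_mul_of_nonneg_left h8 hh.le
      have h10 : h * ((N + 1) / 2 - ch * (1 + ‖g‖) ^ gam β) ≤
          h * (-(ch * (1 + ‖g‖) ^ gam β) + (N + 4 + 2 * C')) := by
        apply mul_le_mul_of_nonneg_left _ hh.le
        linarith
      linarith
    · filter_upwards [hlog, hb] with ξ h4 h5
      have h6 := h5.2.2.2.1 hg0
      have h7 := hw ξ
      have h8 : |th ε ‖hat β h g ξ + w‖ - th ε ‖g‖| ≤
          |th ε ‖hat β h g ξ + w‖ - th ε ‖hat β h g ξ‖| + |th ε ‖hat β h g ξ‖ - th ε ‖g‖| :=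
        abs_sub_le _ _ _
      linarith
    · have hlm : AEStronglyMeasurable
          (fun ξ : E N => (Real.log ‖hat β h g ξ‖ - Real.log ‖g‖) ^ 2) ν := by
        have h4 : Measurable (fun ξ : E N => (Real.log ‖hat β h g ξ‖ - Real.log ‖g‖) ^ 2) :=
          ((Real.measurable_log.comp hhat.norm.measurable).sub_const _).pow_const 2
        exact h4.aestronglyMeasurable
      have hli : Integrable (fun ξ : E N => (Real.log ‖hat β h g ξ‖ - Real.log ‖g‖) ^ 2) ν := by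
        refine Integrable.of_bound hlm ((3 * h ^ (3 / 8 : ℝ)) ^ 2) ?_
        filter_upwards [hb] with ξ h5
        have h6 := h5.2.2.2.1 hg0
        rw [Real.norm_eq_abs, abs_of_nonneg (sq_nonneg _), ← sq_abs]
        exact pow_le_pow_left₀ (abs_nonneg _) h6 2
      have h4 : ∫ ξ, (th ε ‖hat β h g ξ + w‖ - th ε ‖g‖) ^ 2 ∂ν ≤
          ∫ ξ, (2 * ‖w‖ ^ 2 + 2 * (Real.log ‖hat β h g ξ‖ - Real.log ‖g‖) ^ 2) ∂ν := by
        apply integral_mono_of_nonneg
        · exact Filter.Eventually.of_forall fun ξ => sq_nonneg _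
        · exact (integrable_const _).add (hli.const_mul 2)
        · filter_upwards [hlog] with ξ h5
          have h6 := hw ξ
          show (th ε ‖hat β h g ξ + w‖ - th ε ‖g‖) ^ 2 ≤
            2 * ‖w‖ ^ 2 + 2 * (Real.log ‖hat β h g ξ‖ - Real.log ‖g‖) ^ 2
          have h7 : (th ε ‖hat β h g ξ + w‖ - th ε ‖hat β h g ξ‖) ^ 2 ≤ ‖w‖ ^ 2 := by
            rw [← sq_abs]
            exact pow_le_pow_left₀ (abs_nonneg _) h6 2
          have h8 : (th ε ‖hat β h g ξ‖ - th ε ‖g‖) ^ 2 ≤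
              (Real.log ‖hat β h g ξ‖ - Real.log ‖g‖) ^ 2 := by
            rw [← sq_abs, ← sq_abs (Real.log _ - _)]
            exact pow_le_pow_left₀ (abs_nonneg _) h5 2
          have h9 : (th ε ‖hat β h g ξ + w‖ - th ε ‖g‖) ^ 2 ≤
              2 * (th ε ‖hat β h g ξ + w‖ - th ε ‖hat β h g ξ‖) ^ 2 +
                2 * (th ε ‖hat β h g ξ‖ - th ε ‖g‖) ^ 2 := by
            have h10 := sq_nonneg ((th ε ‖hat β h g ξ + w‖ - th ε ‖hat β h g ξ‖) -
              (th ε ‖hat β h g ξ‖ - th ε ‖g‖))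
            linarith
          linarith
      rw [integral_add (integrable_const _) (hli.const_mul 2), integral_const, probReal_univ,
        one_smul, integral_const_mul] at h4
      have h5 := (abs_le.1 (hL h ν hh hhB hν g hg0 hg).2).2
      have h6 : h ^ (9 / 8 : ℝ) ≤ h := by
        calc h ^ (9 / 8 : ℝ) ≤ h ^ (1 : ℝ) :=
              Real.rpow_le_rpow_of_exponent_ge hh (by linarith) (by norm_num)
          _ = h := Real.rpow_one h
      have h7 : C' * h ^ (9 / 8 : ℝ) ≤ C' * h := mul_le_mul_of_nonneg_left h6 hC'.le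
      have h8 : 0 ≤ ‖w‖ ^ 2 := sq_nonneg _
      have h9 : 0 ≤ C' * ‖w‖ ^ 2 := mul_nonneg hC'.le h8
      have h10 : 0 ≤ (N : ℝ) * (h + ‖w‖ ^ 2) := by positivity
      have h11 : (N + 4 + 2 * C') * (h + ‖w‖ ^ 2) = (N : ℝ) * (h + ‖w‖ ^ 2) + 4 * h +
          4 * ‖w‖ ^ 2 + 2 * (C' * h) + 2 * (C' * ‖w‖ ^ 2) := by ring
      rw [h11]
      linarith

end Dyn
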