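import Pool.Agent.Lib_MP_36b788.LSDefs
import Pool.Agent.Lib_MP_36b788.HSite

/-!
# LSH: drift of the potential `H_z = Σ_w 2^{-|z-w|} h₁(r_w)` on a net

PROOF. HSITE at each `w` with shift `kh coup_w` (the marginal of `pim` at `w` is `ν`):
`∫ΔH_z ≤ h Σ_w 2^{-|z-w|}(-ch(1+r_w)^γ + CH) + kh Σ_w 2^{-|z-w|}‖coup_w‖ + 3^d C2 h^{9/8}`.
`‖coup_w‖ ≤ Σ_{v~w} r_v + 2d r_w` and `Σ_w 2^{-|z-w|}Σ_{v~w} r_v ≤ 2d·2 Σ_v 2^{-|z-v|} r_v`
(each `v` has at most `2d` neighbours `w`, and `2^{-|z-w|} ≤ 2·2^{-|z-v|}`), `r ≤ (1+r)^γ` (`γ ≥ 1`). So the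
`k`-term is `≤ 6dkh R̄_z ≤ (ch/2) h R̄_z` for `k ≤ ch/(12 d+12)`. Constant part `≤ CH 3^d`.
Almost sure bound and second moment: `(Σ 2^{-|z-w|}a_w)² ≤ 3^d Σ 2^{-|z-w|}a_w²`.
-/

open MeasureTheory

namespace Dyn

section LSH_aux

variable {N d : ℕ} {ι : Type} [Fintype ι]

theorem LSH_gam (β : ℝ) : 1 ≤ gam β ∧ β - 1 ≤ gam β := by
  unfold gam epsE
  have h1 := min_le_left (β - 1) 1
  have h2 := min_le_right (β - 1) 1
  constructor <;> linarith

theorem LSH_eps {β : ℝ} (hβ : 1 < β) : 0 < epsE β :=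
  lt_min (by linarith) one_pos

theorem LSH_th {s r : ℝ} (hs : 0 < s) (hr : 0 ≤ r) : 0 ≤ th s r ∧ th s r ≤ 1 := by
  unfold th
  have h1 : (1 + r) ^ (-s) ≤ 1 :=
    Real.rpow_le_one_of_one_le_of_nonpos (by linarith) (by linarith)
  have h2 : 0 ≤ (1 + r) ^ (-s) := Real.rpow_nonneg (by linarith) _
  constructor <;> linarith

theorem LSH_coup (net : Net ι d) (G : ι → E N) (x : ι) :
    ‖coup net G x‖ ≤ ∑ v ∈ net.nb x, ‖G v‖ + 2 * d * ‖G x‖ := by
  unfold coup
  refine (norm_sub_le _ _).trans (add_le_add (norm_sum_le _ _) ?_)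
  rw [norm_smul, Real.norm_eq_abs, abs_of_nonneg (by positivity)]
  push_cast
  exact le_rfl

theorem LSH_half (net : Net ι d) (z v w : ι) (h : net.dist w v ≤ 1) :
    (1 / 2 : ℝ) ^ net.dist z w ≤ 2 * (1 / 2) ^ net.dist z v := by
  have h1 := net.dist_tri z w v
  have h2 : net.dist z v ≤ net.dist z w + 1 := by omega
  have h3 : (1 / 2 : ℝ) ^ (net.dist z w + 1) ≤ (1 / 2) ^ net.dist z v :=
    pow_le_pow_of_le_one (by norm_num) (by norm_num) h2
  rw [pow_succ] at h3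
  linarith

theorem LSH_rpow {β r : ℝ} (hr : 0 ≤ r) : 1 + r ≤ (1 + r) ^ gam β := by
  have h1 : (1 + r) ^ (1 : ℝ) ≤ (1 + r) ^ gam β :=
    Real.rpow_le_rpow_of_exponent_le (by linarith) (LSH_gam β).1
  rwa [Real.rpow_one] at h1

theorem LSH_term_nonneg (net : Net ι d) (β : ℝ) (G : ι → E N) (z w : ι) :
    0 ≤ (1 / 2 : ℝ) ^ net.dist z w * (1 + ‖G w‖) ^ gam β :=
  mul_nonneg (by positivity) (Real.rpow_nonneg (by positivity) _)

theorem LSH_single (net : Net ι d) (β : ℝ) (G : ι → E N) (z w : ι) :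
    (1 / 2 : ℝ) ^ net.dist z w * (1 + ‖G w‖) ^ gam β ≤ Rb net β G z := by
  unfold Rb
  exact Finset.single_le_sum (f := fun w => (1 / 2 : ℝ) ^ net.dist z w * (1 + ‖G w‖) ^ gam β)
    (fun v _ => LSH_term_nonneg net β G z v) (Finset.mem_univ w)

theorem LSH_self (net : Net ι d) (β : ℝ) (G : ι → E N) (z : ι) :
    (1 + ‖G z‖) ^ gam β ≤ Rb net β G z := by
  have h1 := LSH_single net β G z z
  rwa [net.dist_self, pow_zero, one_mul] at h1

theorem LSH_nb (net : Net ι d) (β : ℝ) (G : ι → E N) {z w : ι} (hw : w ∈ net.nb z) :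
    ‖G w‖ ≤ 2 * Rb net β G z := by
  have h1 := LSH_single net β G z w
  rw [net.dist_nb z w hw, pow_one] at h1
  have h2 := LSH_rpow (β := β) (norm_nonneg (G w))
  linarith

theorem LSH_coup_Rb (net : Net ι d) (β : ℝ) (G : ι → E N) (z : ι) :
    ‖coup net G z‖ ≤ 6 * (d : ℝ) * Rb net β G z := by
  have h1 := LSH_coup net G z
  have h2 : ∑ v ∈ net.nb z, ‖G v‖ ≤ (net.nb z).card • (2 * Rb net β G z) :=
    Finset.sum_le_card_nsmul _ _ _ fun v hv => LSH_nb net β G hv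
  rw [nsmul_eq_mul] at h2
  have h3 : ((net.nb z).card : ℝ) ≤ 2 * d := by exact_mod_cast net.nb_card z
  have h4 := LSH_self net β G z
  have h5 := LSH_rpow (β := β) (norm_nonneg (G z))
  have h6 := norm_nonneg (G z)
  have h7 : 0 ≤ 2 * Rb net β G z := by linarith
  have h8 := mul_le_mul_of_nonneg_right h3 h7
  have h9 : (2 * (d : ℝ)) * ‖G z‖ ≤ (2 * d) * Rb net β G z :=
    mul_le_mul_of_nonneg_left (by linarith) (by positivity)
  calc ‖coup net G z‖ ≤ ∑ v ∈ net.nb z, ‖G v‖ + 2 * d * ‖G z‖ := h1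
    _ ≤ (2 * d) * (2 * Rb net β G z) + (2 * d) * Rb net β G z := by linarith
    _ = 6 * (d : ℝ) * Rb net β G z := by ring

theorem LSH_sum_coup (net : Net ι d) (β : ℝ) (G : ι → E N) (z : ι) :
    ∑ w, (1 / 2 : ℝ) ^ net.dist z w * ‖coup net G w‖ ≤ 6 * (d : ℝ) * Rb net β G z := by
  classical
  have hS : ∑ w, (1 / 2 : ℝ) ^ net.dist z w * ‖G w‖ ≤ Rb net β G z := by
    unfold Rb
    refine Finset.sum_le_sum fun w _ => mul_le_mul_of_nonneg_left ?_ (by positivity)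
    have := LSH_rpow (β := β) (norm_nonneg (G w))
    linarith
  have h1 : ∑ w, (1 / 2 : ℝ) ^ net.dist z w * ∑ v ∈ net.nb w, ‖G v‖ ≤
      4 * d * ∑ w, (1 / 2 : ℝ) ^ net.dist z w * ‖G w‖ := by
    have h2 : ∑ w, (1 / 2 : ℝ) ^ net.dist z w * ∑ v ∈ net.nb w, ‖G v‖ =
        ∑ v, ∑ w ∈ net.nb v, (1 / 2 : ℝ) ^ net.dist z w * ‖G v‖ := by
      simp only [Finset.mul_sum]
      refine Finset.sum_comm' fun x y => ?_
      simp only [Finset.mem_univ, true_and, and_true]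
      exact ⟨fun h => net.nb_symm _ _ h, fun h => net.nb_symm _ _ h⟩
    rw [h2, Finset.mul_sum]
    refine Finset.sum_le_sum fun v _ => ?_
    have h3 : ∑ w ∈ net.nb v, (1 / 2 : ℝ) ^ net.dist z w * ‖G v‖ ≤
        (net.nb v).card • ((2 * (1 / 2) ^ net.dist z v) * ‖G v‖) := by
      refine Finset.sum_le_card_nsmul _ _ _ fun w hw => ?_
      refine mul_le_mul_of_nonneg_right (LSH_half net z v w ?_) (norm_nonneg _)
      rw [net.dist_comm, net.dist_nb v w hw]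
    rw [nsmul_eq_mul] at h3
    have h4 : ((net.nb v).card : ℝ) ≤ 2 * d := by exact_mod_cast net.nb_card v
    have h5 := mul_le_mul_of_nonneg_right h4
      (by positivity : 0 ≤ (2 * (1 / 2 : ℝ) ^ net.dist z v) * ‖G v‖)
    linarith
  calc ∑ w, (1 / 2 : ℝ) ^ net.dist z w * ‖coup net G w‖
      ≤ ∑ w, (1 / 2 : ℝ) ^ net.dist z w * (∑ v ∈ net.nb w, ‖G v‖ + 2 * d * ‖G w‖) :=
        Finset.sum_le_sum fun w _ => mul_le_mul_of_nonneg_left (LSH_coup net G w) (by positivity)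
    _ = ∑ w, (1 / 2 : ℝ) ^ net.dist z w * ∑ v ∈ net.nb w, ‖G v‖ +
        2 * d * ∑ w, (1 / 2 : ℝ) ^ net.dist z w * ‖G w‖ := by
        rw [Finset.mul_sum, ← Finset.sum_add_distrib]
        exact Finset.sum_congr rfl fun w _ => by ring
    _ ≤ 6 * d * ∑ w, (1 / 2 : ℝ) ^ net.dist z w * ‖G w‖ := by linarith
    _ ≤ 6 * d * Rb net β G z := mul_le_mul_of_nonneg_left hS (by positivity)

theorem LSH_marg (ν : Measure (E N)) [IsProbabilityMeasure ν] (w : ι) (f : E N → ℝ)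
    (hf : Measurable f) : ∫ ξ, f (ξ w) ∂(pim ι ν) = ∫ x, f x ∂ν := by
  have hmp := measurePreserving_eval (fun _ : ι => ν) w
  have h1 := integral_map (μ := Measure.pi (fun _ : ι => ν)) hmp.measurable.aemeasurable
    (f := f) hf.aestronglyMeasurable
  rw [hmp.map_eq] at h1
  exact h1.symm

theorem LSH_ae (ν : Measure (E N)) [IsProbabilityMeasure ν] (w : ι) (p : E N → Prop)
    (hp : ∀ᵐ x ∂ν, p x) : ∀ᵐ ξ ∂(pim ι ν), p (ξ w) :=
  (measurePreserving_eval (fun _ : ι => ν) w).quasiMeasurePreserving.ae hp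

/-- the increment of one site -/
noncomputable def LSH_X (β h : ℝ) (g w ξ : E N) : ℝ :=
  th (epsE β) ‖hat β h g ξ + w‖ - th (epsE β) ‖g‖

theorem LSH_X_meas {β h : ℝ} (hβ : 1 < β) (hh : 0 ≤ h) (g w : E N) :
    Measurable (LSH_X β h g w) := by
  unfold LSH_X
  have h1 : Continuous (fun ξ : E N => hat β h g ξ) := by
    unfold hat
    refine (J_continuous (by linarith : 0 < β) hh).comp ?_
    exact continuous_const.add (continuous_const_smul _)
  have h2 : Measurable (fun ξ : E N => ‖hat β h g ξ + w‖) :=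
    ((h1.add continuous_const).norm).measurable
  have h3 : Measurable (fun r : ℝ => th (epsE β) r) := by
    unfold th
    exact measurable_const.sub ((measurable_const.add measurable_id).pow_const _)
  exact (h3.comp h2).sub measurable_const

theorem LSH_X_bd {β h : ℝ} (hβ : 1 < β) (g w ξ : E N) : |LSH_X β h g w ξ| ≤ 1 := by
  unfold LSH_X
  have h1 := LSH_th (LSH_eps hβ) (norm_nonneg (hat β h g ξ + w))
  have h2 := LSH_th (LSH_eps hβ) (norm_nonneg g)
  rw [abs_le]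
  constructor <;> linarith [h1.1, h1.2, h2.1, h2.2]

theorem LSH_diff (net : Net ι d) (β h k : ℝ) (G ξ : ι → E N) (z : ι) :
    Hh net β (stp net β h k G ξ) z - Hh net β G z =
      ∑ w, (1 / 2 : ℝ) ^ net.dist z w * LSH_X β h (G w) ((k * h) • coup net G w) (ξ w) := by
  unfold Hh LSH_X stp
  rw [← Finset.sum_sub_distrib]
  exact Finset.sum_congr rfl fun w _ => by ring

theorem LSH_rad {β h : ℝ} : rad β h ≤ h ^ (-(1 / 8) : ℝ) := min_le_left _ _

theorem LSH_shift (net : Net ι d) {β h k : ℝ} (hh : 0 < h) (hh1 : h ≤ 1) (hk : 0 ≤ k)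
    (hk1 : k ≤ 1) (G : ι → E N) (hG : ∀ x, ‖G x‖ ≤ rad β h) (w : ι) :
    ‖(k * h) • coup net G w‖ ≤ 4 * d * h ^ (3 / 8 : ℝ) ∧
    ‖(k * h) • coup net G w‖ ^ 2 ≤ 16 * d ^ 2 * h := by
  have h1 := LSH_coup net G w
  have hr : ∀ x, ‖G x‖ ≤ h ^ (-(1 / 8) : ℝ) := fun x => (hG x).trans LSH_rad
  have h2 : ∑ v ∈ net.nb w, ‖G v‖ ≤ (net.nb w).card • (h ^ (-(1 / 8) : ℝ)) :=
    Finset.sum_le_card_nsmul _ _ _ fun v _ => hr v
  rw [nsmul_eq_mul] at h2
  have h3 : ((net.nb w).card : ℝ) ≤ 2 * d := by exact_mod_cast net.nb_card w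
  have h4 : (0 : ℝ) ≤ h ^ (-(1 / 8) : ℝ) := Real.rpow_nonneg hh.le _
  have h5 := mul_le_mul_of_nonneg_right h3 h4
  have h6 := mul_le_mul_of_nonneg_left (hr w) (by positivity : (0 : ℝ) ≤ 2 * d)
  have h7 : ‖coup net G w‖ ≤ 4 * d * h ^ (-(1 / 8) : ℝ) := by linarith
  have h8 : ‖(k * h) • coup net G w‖ ≤ 4 * d * h ^ (7 / 8 : ℝ) := by
    rw [norm_smul, Real.norm_eq_abs, abs_of_nonneg (by positivity)]
    have h9 : h * h ^ (-(1 / 8) : ℝ) = h ^ (7 / 8 : ℝ) := by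
      nth_rewrite 1 [← Real.rpow_one h]
      rw [← Real.rpow_add hh]
      norm_num
    calc k * h * ‖coup net G w‖ ≤ 1 * h * (4 * d * h ^ (-(1 / 8) : ℝ)) := by
          gcongr
      _ = 4 * d * (h * h ^ (-(1 / 8) : ℝ)) := by ring
      _ = _ := by rw [h9]
  constructor
  · refine h8.trans (mul_le_mul_of_nonneg_left ?_ (by positivity))
    exact Real.rpow_le_rpow_of_exponent_ge hh hh1 (by norm_num)
  · calc ‖(k * h) • coup net G w‖ ^ 2 ≤ (4 * d * h ^ (7 / 8 : ℝ)) ^ 2 :=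
          pow_le_pow_left₀ (norm_nonneg _) h8 2
      _ = 16 * d ^ 2 * (h ^ (7 / 8 : ℝ)) ^ 2 := by ring
      _ ≤ 16 * d ^ 2 * h := by
          refine mul_le_mul_of_nonneg_left ?_ (by positivity)
          rw [← Real.rpow_natCast, ← Real.rpow_mul hh.le]
          nth_rewrite 2 [← Real.rpow_one h]
          exact Real.rpow_le_rpow_of_exponent_ge hh hh1 (by norm_num)

end LSH_aux


theorem lsh (N d : ℕ) (β : ℝ) (hN : 2 ≤ N) (hβ : 1 < β) :
    ∃ ch CH k0 : ℝ, 0 < ch ∧ 0 < CH ∧ 0 < k0 ∧ k0 ≤ 1 ∧ ∀ k : ℝ, 0 ≤ k → k ≤ k0 →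
    ∀ (ι : Type) [Fintype ι] (net : Net ι d),
    ∃ C2 h0 : ℝ, 0 < C2 ∧ 0 < h0 ∧ ∀ (h : ℝ) (ν : Measure (E N)), 0 < h → h < h0 → IsNoise h ν →
      ∀ G : ι → E N, (∀ x, ‖G x‖ ≤ rad β h) → ∀ z,
        (∫ ξ, (Hh net β (stp net β h k G ξ) z - Hh net β G z) ∂(pim ι ν) ≤
          h * (-(ch * Rb net β G z) + CH) + C2 * h ^ (9 / 8 : ℝ)) ∧
        (∀ᵐ ξ ∂(pim ι ν), |Hh net β (stp net β h k G ξ) z - Hh net β G z| ≤
          C2 * h ^ (3 / 8 : ℝ)) ∧
        ∫ ξ, (Hh net β (stp net β h k G ξ) z - Hh net β G z) ^ 2 ∂(pim ι ν) ≤ CH * h := by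
  obtain ⟨c, C, hc, hc1, hC, C2, h0, hC2, hh0, hs⟩ := hsite N β hN hβ
  have hdd : (0 : ℝ) ≤ d := Nat.cast_nonneg d
  have h3d : (1 : ℝ) ≤ 3 ^ d := one_le_pow₀ (by norm_num)
  refine ⟨c / 2, 9 ^ d * (C * (1 + 16 * d ^ 2)), c / (12 * d + 12), by positivity, by positivity,
    by positivity, ?_, ?_⟩
  · rw [div_le_one (by positivity)]
    linarith
  intro k hk hkk ι _ net
  have hk1 : k ≤ 1 := by
    refine hkk.trans ?_
    rw [div_le_one (by positivity)]
    linarith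
  refine ⟨3 ^ d * (C2 + 4 + 4 * d), min h0 1, by positivity, lt_min hh0 one_pos, ?_⟩
  intro h ν hh hhh hν G hG z
  have hlt0 : h < h0 := hhh.trans_le (min_le_left _ _)
  have hle1 : h ≤ 1 := (hhh.trans_le (min_le_right _ _)).le
  have := hν.prob
  have hprob : IsProbabilityMeasure (pim ι ν) := by
    unfold pim
    infer_instance
  have hsite' := fun w => hs h ν hh hlt0 hν (G w) ((k * h) • coup net G w) (hG w)
  obtain ⟨X, hX⟩ : ∃ X : ι → E N → ℝ, X = fun w => LSH_X β h (G w) ((k * h) • coup net G w) :=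
    ⟨_, rfl⟩
  have hXm : ∀ w, Measurable (X w) := fun w => by rw [hX]; exact LSH_X_meas hβ hh.le _ _
  have hXb : ∀ w ξ, |X w ξ| ≤ 1 := fun w ξ => by rw [hX]; exact LSH_X_bd hβ _ _ _
  have hXi : ∀ w, Integrable (fun ξ : ι → E N => X w (ξ w)) (pim ι ν) := fun w =>
    Integrable.of_bound ((hXm w).comp (measurable_pi_apply w)).aestronglyMeasurable 1
      (Filter.Eventually.of_forall fun ξ => by rw [Real.norm_eq_abs]; exact hXb w (ξ w))
  have hXi2 : ∀ w, Integrable (fun ξ : ι → E N => X w (ξ w) ^ 2) (pim ι ν) := fun w =>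
    Integrable.of_bound (((hXm w).comp (measurable_pi_apply w)).pow_const 2).aestronglyMeasurable 1
      (Filter.Eventually.of_forall fun ξ => by
        rw [Real.norm_eq_abs, abs_pow]
        exact pow_le_one₀ (abs_nonneg _) (hXb w (ξ w)))
  have hdiff : ∀ ξ, Hh net β (stp net β h k G ξ) z - Hh net β G z =
      ∑ w, (1 / 2 : ℝ) ^ net.dist z w * X w (ξ w) := fun ξ => by
    rw [LSH_diff, hX]
  have hsum := net.sum_half z
  have hshift := fun w => LSH_shift net hh hle1 hk hk1 G hG w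
  simp only [hdiff]
  refine ⟨?_, ?_, ?_⟩
  · rw [integral_finsetSum _ (fun w _ => (hXi w).const_mul _)]
    have h1 : ∀ w, ∫ ξ, (1 / 2 : ℝ) ^ net.dist z w * X w (ξ w) ∂(pim ι ν) ≤
        (1 / 2 : ℝ) ^ net.dist z w * (h * (-(c * (1 + ‖G w‖) ^ gam β) + C) +
          k * h * ‖coup net G w‖ + C2 * h ^ (9 / 8 : ℝ)) := by
      intro w
      rw [integral_const_mul, LSH_marg ν w (X w) (hXm w)]
      refine mul_le_mul_of_nonneg_left ?_ (by positivity)
      have h2 := (hsite' w).1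
      rw [norm_smul, Real.norm_eq_abs, abs_of_nonneg (by positivity)] at h2
      rw [hX]
      exact h2
    have h3 := LSH_sum_coup net β G z
    have h4 : k * (6 * (d : ℝ)) ≤ c / 2 := by
      have h5 : k * (12 * d + 12) ≤ c := by
        rwa [le_div_iff₀ (by positivity)] at hkk
      linarith
    have hR : 0 ≤ Rb net β G z := by
      unfold Rb
      exact Finset.sum_nonneg fun w _ => LSH_term_nonneg net β G z w
    have h98 : (0 : ℝ) ≤ h ^ (9 / 8 : ℝ) := Real.rpow_nonneg hh.le _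
    calc ∑ w, ∫ ξ, (1 / 2 : ℝ) ^ net.dist z w * X w (ξ w) ∂(pim ι ν)
        ≤ ∑ w, (1 / 2 : ℝ) ^ net.dist z w * (h * (-(c * (1 + ‖G w‖) ^ gam β) + C) +
          k * h * ‖coup net G w‖ + C2 * h ^ (9 / 8 : ℝ)) := Finset.sum_le_sum fun w _ => h1 w
      _ = h * (-(c * Rb net β G z)) + (h * C + C2 * h ^ (9 / 8 : ℝ)) *
            (∑ w, (1 / 2 : ℝ) ^ net.dist z w) +
          h * (k * ∑ w, (1 / 2 : ℝ) ^ net.dist z w * ‖coup net G w‖) := by
          unfold Rb
          rw [Finset.mul_sum, Finset.mul_sum, Finset.mul_sum, Finset.mul_sum,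
            ← Finset.sum_neg_distrib, Finset.mul_sum, ← Finset.sum_add_distrib,
            ← Finset.sum_add_distrib]
          exact Finset.sum_congr rfl fun w _ => by ring
      _ ≤ h * (-(c * Rb net β G z)) + (h * C + C2 * h ^ (9 / 8 : ℝ)) * 3 ^ d +
          h * (c / 2 * Rb net β G z) := by
          have h5 : k * ∑ w, (1 / 2 : ℝ) ^ net.dist z w * ‖coup net G w‖ ≤
              c / 2 * Rb net β G z := by
            calc k * ∑ w, (1 / 2 : ℝ) ^ net.dist z w * ‖coup net G w‖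
                ≤ k * (6 * (d : ℝ) * Rb net β G z) := mul_le_mul_of_nonneg_left h3 hk
              _ = k * (6 * (d : ℝ)) * Rb net β G z := by ring
              _ ≤ c / 2 * Rb net β G z := mul_le_mul_of_nonneg_right h4 hR
          have h6 := mul_le_mul_of_nonneg_left h5 hh.le
          have h7 := mul_le_mul_of_nonneg_left hsum
            (by positivity : 0 ≤ h * C + C2 * h ^ (9 / 8 : ℝ))
          linarith
      _ ≤ h * (-(c / 2 * Rb net β G z) + 9 ^ d * (C * (1 + 16 * d ^ 2))) +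
          3 ^ d * (C2 + 4 + 4 * d) * h ^ (9 / 8 : ℝ) := by
          have h9 : (9 : ℝ) ^ d = 3 ^ d * 3 ^ d := by
            rw [← mul_pow]
            norm_num
          have h10 : (3 : ℝ) ^ d * C ≤ 9 ^ d * (C * (1 + 16 * d ^ 2)) := by
            rw [h9]
            have h11 : (1 : ℝ) ≤ 3 ^ d * (1 + 16 * d ^ 2) := by
              have : (1 : ℝ) ≤ 1 + 16 * (d : ℝ) ^ 2 := by nlinarith [sq_nonneg (d : ℝ)]
              nlinarith
            have h12 := mul_le_mul_of_nonneg_left h11 (by positivity : 0 ≤ (3 : ℝ) ^ d * C)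
            linarith
          have h13 := mul_le_mul_of_nonneg_left h10 hh.le
          have h14 : 0 ≤ 3 ^ d * (4 + 4 * (d : ℝ)) * h ^ (9 / 8 : ℝ) := by positivity
          linarith
  · have h1 : ∀ᵐ ξ ∂(pim ι ν), ∀ w, |X w (ξ w)| ≤
        4 * h ^ (3 / 8 : ℝ) + ‖(k * h) • coup net G w‖ := by
      rw [ae_all_iff]
      intro w
      refine LSH_ae ν w (fun x => |X w x| ≤ 4 * h ^ (3 / 8 : ℝ) +
        ‖(k * h) • coup net G w‖) ?_
      rw [hX]
      exact (hsite' w).2.1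
    filter_upwards [h1] with ξ hξ
    calc |∑ w, (1 / 2 : ℝ) ^ net.dist z w * X w (ξ w)|
        ≤ ∑ w, |(1 / 2 : ℝ) ^ net.dist z w * X w (ξ w)| := Finset.abs_sum_le_sum_abs _ _
      _ ≤ ∑ w, (1 / 2 : ℝ) ^ net.dist z w * ((4 + 4 * d) * h ^ (3 / 8 : ℝ)) := by
          refine Finset.sum_le_sum fun w _ => ?_
          rw [abs_mul, abs_of_nonneg (by positivity : (0 : ℝ) ≤ (1 / 2 : ℝ) ^ net.dist z w)]
          refine mul_le_mul_of_nonneg_left ?_ (by positivity)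
          have h2 := hξ w
          have h3 := (hshift w).1
          linarith
      _ = (∑ w, (1 / 2 : ℝ) ^ net.dist z w) * ((4 + 4 * d) * h ^ (3 / 8 : ℝ)) := by
          rw [Finset.sum_mul]
      _ ≤ 3 ^ d * ((4 + 4 * d) * h ^ (3 / 8 : ℝ)) :=
          mul_le_mul_of_nonneg_right hsum (by positivity)
      _ ≤ 3 ^ d * (C2 + 4 + 4 * d) * h ^ (3 / 8 : ℝ) := by
          have h2 : 0 ≤ 3 ^ d * C2 * h ^ (3 / 8 : ℝ) := by positivity
          linarith
  · have hcs : ∀ ξ : ι → E N, (∑ w, (1 / 2 : ℝ) ^ net.dist z w * X w (ξ w)) ^ 2 ≤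
        3 ^ d * ∑ w, (1 / 2 : ℝ) ^ net.dist z w * X w (ξ w) ^ 2 := by
      intro ξ
      have h1 := Finset.sum_sq_le_sum_mul_sum_of_sq_le_mul Finset.univ
        (r := fun w => (1 / 2 : ℝ) ^ net.dist z w * X w (ξ w))
        (f := fun w => (1 / 2 : ℝ) ^ net.dist z w)
        (g := fun w => (1 / 2 : ℝ) ^ net.dist z w * X w (ξ w) ^ 2)
        (fun w _ => by positivity) (fun w _ => by positivity) (fun w _ => le_of_eq (by ring))
      refine h1.trans (mul_le_mul_of_nonneg_right hsum ?_)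
      exact Finset.sum_nonneg fun w _ => by positivity
    have hint : Integrable (fun ξ : ι → E N =>
        3 ^ d * ∑ w, (1 / 2 : ℝ) ^ net.dist z w * X w (ξ w) ^ 2) (pim ι ν) :=
      (integrable_finsetSum _ fun w _ => (hXi2 w).const_mul _).const_mul _
    calc ∫ ξ, (∑ w, (1 / 2 : ℝ) ^ net.dist z w * X w (ξ w)) ^ 2 ∂(pim ι ν)
        ≤ ∫ ξ, 3 ^ d * ∑ w, (1 / 2 : ℝ) ^ net.dist z w * X w (ξ w) ^ 2 ∂(pim ι ν) :=
          integral_mono_of_nonneg (Filter.Eventually.of_forall fun ξ => sq_nonneg _) hint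
            (Filter.Eventually.of_forall hcs)
      _ = 3 ^ d * ∑ w, (1 / 2 : ℝ) ^ net.dist z w * ∫ ξ, X w (ξ w) ^ 2 ∂(pim ι ν) := by
          rw [integral_const_mul, integral_finsetSum _ (fun w _ => (hXi2 w).const_mul _)]
          congr 1
          exact Finset.sum_congr rfl fun w _ => integral_const_mul _ _
      _ ≤ 3 ^ d * ∑ w, (1 / 2 : ℝ) ^ net.dist z w * (C * (1 + 16 * d ^ 2) * h) := by
          refine mul_le_mul_of_nonneg_left (Finset.sum_le_sum fun w _ => ?_) (by positivity)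
          refine mul_le_mul_of_nonneg_left ?_ (by positivity)
          rw [LSH_marg ν w (fun x => X w x ^ 2) ((hXm w).pow_const 2)]
          have h1 := (hsite' w).2.2
          have h2 := (hshift w).2
          calc ∫ x, X w x ^ 2 ∂ν ≤ C * (h + ‖(k * h) • coup net G w‖ ^ 2) := by
                rw [hX]
                exact h1
            _ ≤ C * (h + 16 * d ^ 2 * h) := mul_le_mul_of_nonneg_left (by linarith) hC.le
            _ = C * (1 + 16 * d ^ 2) * h := by ring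
      _ = 3 ^ d * ((∑ w, (1 / 2 : ℝ) ^ net.dist z w) * (C * (1 + 16 * d ^ 2) * h)) := by
          rw [Finset.sum_mul]
      _ ≤ 3 ^ d * (3 ^ d * (C * (1 + 16 * d ^ 2) * h)) :=
          mul_le_mul_of_nonneg_left (mul_le_mul_of_nonneg_right hsum (by positivity))
            (by positivity)
      _ = 9 ^ d * (C * (1 + 16 * d ^ 2)) * h := by
          have h9 : (9 : ℝ) ^ d = 3 ^ d * 3 ^ d := by
            rw [← mul_pow]
            norm_num
          rw [h9]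
          ring

theorem Hh_bounds {N d : ℕ} {ι : Type} [Fintype ι] (net : Net ι d) (β : ℝ) (hβ : 1 < β)
    (G : ι → E N) (z : ι) : 0 ≤ Hh net β G z ∧ Hh net β G z ≤ 3 ^ d := by
  unfold Hh
  constructor
  · exact Finset.sum_nonneg fun w _ =>
      mul_nonneg (by positivity) (LSH_th (LSH_eps hβ) (norm_nonneg _)).1
  · refine le_trans (Finset.sum_le_sum fun w _ => ?_) (net.sum_half z)
    have h1 := mul_le_mul_of_nonneg_left (LSH_th (LSH_eps hβ) (norm_nonneg (G w))).2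
      (by positivity : (0 : ℝ) ≤ (1 / 2 : ℝ) ^ net.dist z w)
    rwa [mul_one] at h1

theorem Rb_facts {N d : ℕ} {ι : Type} [Fintype ι] (net : Net ι d) (β : ℝ) (hβ : 1 < β)
    (G : ι → E N) (z : ι) : 1 ≤ Rb net β G z ∧ ‖G z‖ ≤ Rb net β G z ∧
      (1 + ‖G z‖) ^ gam β ≤ Rb net β G z ∧ ‖G z‖ ^ (β - 1) ≤ Rb net β G z ∧
      ‖coup net G z‖ ≤ 6 * (d : ℝ) * Rb net β G z ∧
      (∀ w ∈ net.nb z, Rb net β G z ≤ 2 * Rb net β G w ∧
        ‖coup net G w‖ ≤ 12 * (d : ℝ) * Rb net β G z) := by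
  have h1 := LSH_self net β G z
  have h2 := LSH_rpow (β := β) (norm_nonneg (G z))
  have h3 := norm_nonneg (G z)
  refine ⟨by linarith, by linarith, h1, ?_, LSH_coup_Rb net β G z, ?_⟩
  · calc ‖G z‖ ^ (β - 1) ≤ (1 + ‖G z‖) ^ (β - 1) :=
          Real.rpow_le_rpow h3 (by linarith) (by linarith)
      _ ≤ (1 + ‖G z‖) ^ gam β :=
          Real.rpow_le_rpow_of_exponent_le (by linarith) (LSH_gam β).2
      _ ≤ _ := h1
  · have key : ∀ z w : ι, w ∈ net.nb z → Rb net β G z ≤ 2 * Rb net β G w := by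
      intro z w hw
      unfold Rb
      rw [Finset.mul_sum]
      refine Finset.sum_le_sum fun v _ => ?_
      have h4 : (1 / 2 : ℝ) ^ net.dist z v ≤ 2 * (1 / 2) ^ net.dist w v := by
        rw [net.dist_comm z v, net.dist_comm w v]
        refine LSH_half net v w z ?_
        rw [net.dist_nb z w hw]
      have h5 := mul_le_mul_of_nonneg_right h4
        (Real.rpow_nonneg (by positivity) _ : 0 ≤ (1 + ‖G v‖) ^ gam β)
      linarith
    intro w hw
    refine ⟨key z w hw, ?_⟩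
    have h6 := key w z (net.nb_symm _ _ hw)
    have h7 := LSH_coup_Rb net β G w
    have h8 := mul_le_mul_of_nonneg_left h6 (by positivity : (0 : ℝ) ≤ 6 * d)
    linarith

end Dyn
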