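import Pool.Agent.Lib_MP_36b788.LSHyp
import Pool.Agent.Lib_MP_36b788.LSH

/-!
# LSC: comparison facts for the weights `W_{xz}`, `f_z = ‖Y_z‖²`, and upper/lower bounds for `S_x`

`κ = A k ≤ 1/2`, `e^{-θH} ∈ [1/2,1]` (Hh_bounds, `hθ3`). `‖Y_z - G_z‖ ≤ 2d·k·2Cy = 4dCy k ≤ 1/(16A)`.

PROOF.
* `near`: above. `act_zero`: if `act = 0` every neighbour has norm `< 1/(2A) ≤ 1/A`, so `ctil = 0`, `Y = G`.
* `high`: `r_z ≥ 1/(2A)`: `‖Y-G‖ ≤ r_z/8`, so `(49/64) r² ≤ f ≤ (81/64) r²`.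
* `wk`: for `w ∈ nb z`, `r_w ≤ 6/A`: `κ²W_{xz} ≤ 2κ^{2|x-z|+2} ≤ 2κ^{2|x-w|}` (`|x-w| ≤ |x-z|+1`, `κ ≤ 1`) and
  `W_{xw} ≥ κ^{2|x-w|}/20`.
* `wa`: `w ∈ nb z`, `r_w ≥ 1/(2A)`: `k²W_{xz} ≤ (2/A²)κ^{2|x-w|}`, `W_{xw}r_w² ≥ κ^{2|x-w|}/(32A²)`, `f_w ≥ r_w²/2`.
* `up`: `W_{xz}f_z ≤ κ^{2|x-z|} CF/A²`, `CF = 64(32N)^4`: high: `f ≤ (81/64)r²`, `mm_up`; low:
  `f ≤ 2r²+2(1/(16A))²`, `mm ≤ 2`.
* `lowb`: `r_z ≥ 1/(2A)`: `W_{xz}f_z ≥ κ^{2|x-z|}/(50A²)`.
* `S_up`: sum of `up`: `Σ_z κ^{2|x-z|} ≤ Σ 2^{-|x-z|} ≤ 3^d`; more precisely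
  `S_x ≤ W_{xx}f_x + κ²·(…)`: `Σ_{z≠x} κ^{2|x-z|} ≤ 2κ²·3^d` (`κ^{2n} ≤ 2κ²·2^{-n}` for `n ≥ 1`, `κ² ≤ 1/4`... since
  `κ^{2n} = κ²κ^{2(n-1)} ≤ κ² 4^{-(n-1)} ≤ 2κ²2^{-n}`).
* `sig`: `Σ_z W_{xz} σ_z² ≤ Cσ S_x`: `σ_z² ≤ 2r_z² + 4d k²Σ_w min(r_w,1)²`. If `w` is low,
  `k²r_w²W_{xz} ≤ (40/A²) W_{xw} r_w²`, otherwise `k²W_{xz} ≤ 128 W_{xw}f_w`. `r_z² ≤ 2f_z + 2(4dCyk)²act_z`.
* `pos`: `G ≠ 0 → 0 < S_x` for `0 < k` or `G x ≠ 0`: if some `r_w ≥ 1/(2A)`, `f_w > 0`, `W_{xw} > 0`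
  (`κ > 0`); otherwise `Y = G`.
-/

open MeasureTheory

namespace Dyn

section
variable {N d : ℕ} {ι : Type} [Fintype ι] {net : Net ι d}
  {β Cy Cu k A Rc θ : ℝ} {y : ℝ → ℝ} {G : ι → E N}

theorem LSC_exp (H : LSB net β Cy Cu k A Rc θ y G) (z : ι) :
    1 / 2 ≤ Real.exp (-(θ * Hh net β G z)) ∧ Real.exp (-(θ * Hh net β G z)) ≤ 1 := by
  obtain ⟨h1, h2⟩ := Hh_bounds net β H.hβ G z
  have h3 : 0 ≤ θ * Hh net β G z := mul_nonneg H.hθ h1
  have h4 : θ * Hh net β G z ≤ Real.log 2 := (mul_le_mul_of_nonneg_left h2 H.hθ).trans H.hθ3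
  constructor
  · have h5 : Real.exp (-(Real.log 2)) = 1 / 2 := by
      rw [Real.exp_neg, Real.exp_log (by norm_num)]
      norm_num
    rw [← h5]
    exact Real.exp_le_exp.2 (by linarith)
  · exact Real.exp_le_one_iff.2 (by linarith)

theorem LSC_pow (net : Net ι d) {κ : ℝ} (h0 : 0 ≤ κ) (h1 : κ ≤ 1) (x : ι) {z w : ι}
    (hw : w ∈ net.nb z) : κ ^ (2 * net.dist x z + 2) ≤ κ ^ (2 * net.dist x w) := by
  refine pow_le_pow_of_le_one h0 h1 ?_
  have h2 := net.dist_tri x z w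
  have h3 := net.dist_nb z w hw
  omega

theorem LSC_Wb (H : LSB net β Cy Cu k A Rc θ y G) (x z : ι) :
    (A * k) ^ (2 * net.dist x z) * mm N β (1 / A) Rc ‖G z‖ / 2 ≤
      WW net β (A * k) A Rc θ G x z ∧
    WW net β (A * k) A Rc θ G x z ≤
      (A * k) ^ (2 * net.dist x z) * mm N β (1 / A) Rc ‖G z‖ := by
  obtain ⟨h1, h2⟩ := LSC_exp H z
  have hA : 0 < A := by linarith [H.hA]
  have hκ0 : 0 ≤ A * k := mul_nonneg hA.le H.hk
  have h3 : 0 ≤ (A * k) ^ (2 * net.dist x z) * mm N β (1 / A) Rc ‖G z‖ :=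
    mul_nonneg (pow_nonneg hκ0 _) (H.mm_pos z).le
  unfold WW
  constructor
  · nlinarith
  · nlinarith

theorem LSC_dc (net : Net ι d) (g : ι → ℝ) (hg : ∀ w, 0 ≤ g w) :
    ∑ z, ∑ w ∈ net.nb z, g w ≤ 2 * d * ∑ w, g w := by
  have h1 : ∑ z, ∑ w ∈ net.nb z, g w = ∑ w, ∑ _z ∈ net.nb w, g w := by
    refine Finset.sum_comm' (fun z w => ?_)
    constructor
    · rintro ⟨_, h⟩
      exact ⟨net.nb_symm _ _ h, Finset.mem_univ _⟩
    · rintro ⟨h, _⟩
      exact ⟨Finset.mem_univ _, net.nb_symm _ _ h⟩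
  rw [h1, Finset.mul_sum]
  refine Finset.sum_le_sum fun w _ => ?_
  rw [Finset.sum_const, nsmul_eq_mul]
  refine mul_le_mul_of_nonneg_right ?_ (hg w)
  exact_mod_cast net.nb_card w

theorem LSC_act01 (net : Net ι d) (A : ℝ) (G : ι → E N) (z : ι) :
    0 ≤ act net A G z ∧ act net A G z ≤ 1 := by
  classical
  unfold act
  split_ifs <;> norm_num

theorem ls_near (H : LSB net β Cy Cu k A Rc θ y G) (z : ι) :
    ‖Yv net k (1 / A) y G z - G z‖ ≤ 4 * d * Cy * k * act net A G z ∧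
      4 * d * Cy * k * act net A G z ≤ 1 / (16 * A) ∧ 0 ≤ act net A G z ∧ act net A G z ≤ 1 := by
  classical
  have hA : 0 < A := by linarith [H.hA]
  have hk := H.hk
  have hCy := H.hCy
  obtain ⟨ha0, ha1⟩ := LSC_act01 net A G z
  have hc0 : 0 ≤ 4 * (d : ℝ) * Cy * k := by positivity
  refine ⟨?_, ?_, ha0, ha1⟩
  · have h1 : Yv net k (1 / A) y G z - G z = k • ∑ w ∈ net.nb z, ctil (1 / A) y (G w) := by
      unfold Yv
      abel
    rw [h1, norm_smul, Real.norm_eq_abs, abs_of_nonneg hk]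
    by_cases hw : ∃ w ∈ net.nb z, 1 / (2 * A) ≤ ‖G w‖
    · have h2 : act net A G z = 1 := by
        unfold act
        exact if_pos hw
      have h3 : ‖∑ w ∈ net.nb z, ctil (1 / A) y (G w)‖ ≤ 2 * d * (2 * Cy) := by
        refine (norm_sum_le _ _).trans ((Finset.sum_le_sum fun w _ => H.ct_bdd w).trans ?_)
        rw [Finset.sum_const, nsmul_eq_mul]
        refine mul_le_mul_of_nonneg_right ?_ (by linarith)
        exact_mod_cast net.nb_card z
      rw [h2, mul_one]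
      calc k * ‖∑ w ∈ net.nb z, ctil (1 / A) y (G w)‖ ≤ k * (2 * d * (2 * Cy)) :=
            mul_le_mul_of_nonneg_left h3 hk
        _ = 4 * d * Cy * k := by ring
    · have h2 : ∑ w ∈ net.nb z, ctil (1 / A) y (G w) = 0 := by
        refine Finset.sum_eq_zero fun w hwz => H.ct_low w ?_
        have h3 : ‖G w‖ < 1 / (2 * A) := by
          by_contra h4
          exact hw ⟨w, hwz, not_lt.1 h4⟩
        have h4 : 1 / (2 * A) ≤ 1 / A := one_div_le_one_div_of_le hA (by linarith)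
        linarith
      rw [h2, norm_zero, mul_zero]
      exact mul_nonneg hc0 ha0
  · have h1 := H.hk1
    nlinarith

theorem ls_high (H : LSB net β Cy Cu k A Rc θ y G) (z : ι) (hz : 1 / (2 * A) ≤ ‖G z‖) :
    49 / 64 * ‖G z‖ ^ 2 ≤ ‖Yv net k (1 / A) y G z‖ ^ 2 ∧
      ‖Yv net k (1 / A) y G z‖ ^ 2 ≤ 81 / 64 * ‖G z‖ ^ 2 := by
  have hA : 0 < A := by linarith [H.hA]
  obtain ⟨h1, h2, _, _⟩ := ls_near H z
  have h3 : 1 / (16 * A) = 1 / (2 * A) / 8 := by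
    field_simp
    norm_num
  have h4 : ‖Yv net k (1 / A) y G z - G z‖ ≤ ‖G z‖ / 8 := by
    rw [h3] at h2
    linarith
  have h5 := norm_sub_norm_le (Yv net k (1 / A) y G z) (G z)
  have h6 := norm_sub_norm_le (G z) (Yv net k (1 / A) y G z)
  rw [norm_sub_rev] at h6
  have h7 := norm_nonneg (G z)
  constructor
  · have h8 : 7 / 8 * ‖G z‖ ≤ ‖Yv net k (1 / A) y G z‖ := by linarith
    nlinarith
  · have h8 : ‖Yv net k (1 / A) y G z‖ ≤ 9 / 8 * ‖G z‖ := by linarith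
    have h9 := norm_nonneg (Yv net k (1 / A) y G z)
    nlinarith

theorem ls_W (H : LSB net β Cy Cu k A Rc θ y G) (x z : ι) :
    0 ≤ WW net β (A * k) A Rc θ G x z ∧
    WW net β (A * k) A Rc θ G x z ≤ 2 * (A * k) ^ (2 * net.dist x z) ∧
    (‖G z‖ ≤ 6 / A → (A * k) ^ (2 * net.dist x z) ≤ 20 * WW net β (A * k) A Rc θ G x z) ∧
    (∀ w ∈ net.nb z, ‖G w‖ ≤ 6 / A →
      (A * k) ^ 2 * WW net β (A * k) A Rc θ G x z ≤ 40 * WW net β (A * k) A Rc θ G x w) ∧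
    (∀ w ∈ net.nb z, 1 / (2 * A) ≤ ‖G w‖ →
      k ^ 2 * WW net β (A * k) A Rc θ G x z ≤
        128 * (WW net β (A * k) A Rc θ G x w * ‖Yv net k (1 / A) y G w‖ ^ 2)) ∧
    WW net β (A * k) A Rc θ G x z * ‖Yv net k (1 / A) y G z‖ ^ 2 ≤
      (A * k) ^ (2 * net.dist x z) * (64 * (32 * N) ^ 4 / A ^ 2) ∧
    (1 / (2 * A) ≤ ‖G z‖ → (A * k) ^ (2 * net.dist x z) ≤
      50 * A ^ 2 * (WW net β (A * k) A Rc θ G x z * ‖Yv net k (1 / A) y G z‖ ^ 2)) := by
  have hA6 := H.hA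
  have hA : 0 < A := by linarith
  have hk := H.hk
  have hκ0 : 0 ≤ A * k := mul_nonneg hA.le H.hk
  have hκ1 : A * k ≤ 1 := by linarith [H.hAk]
  have hW0 : ∀ w, 0 ≤ WW net β (A * k) A Rc θ G x w := fun w =>
    le_trans (div_nonneg (mul_nonneg (pow_nonneg hκ0 _) (H.mm_pos w).le) (by norm_num)) (LSC_Wb H x w).1
  have hW2 : ∀ w, WW net β (A * k) A Rc θ G x w ≤ 2 * (A * k) ^ (2 * net.dist x w) := fun w => by
    have h1 := (LSC_Wb H x w).2
    have h2 := H.mm_le w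
    have h3 : 0 ≤ (A * k) ^ (2 * net.dist x w) := pow_nonneg hκ0 _
    nlinarith
  have hW3 : ∀ w, ‖G w‖ ≤ 6 / A →
      (A * k) ^ (2 * net.dist x w) ≤ 20 * WW net β (A * k) A Rc θ G x w := fun w hw => by
    have h1 := (LSC_Wb H x w).1
    have h2 := H.mm_weak w hw
    have h3 : 0 ≤ (A * k) ^ (2 * net.dist x w) := pow_nonneg hκ0 _
    nlinarith
  have hW4 : ∀ w, 1 / (2 * A) ≤ ‖G w‖ → (A * k) ^ (2 * net.dist x w) ≤
      50 * A ^ 2 * (WW net β (A * k) A Rc θ G x w * ‖Yv net k (1 / A) y G w‖ ^ 2) := fun w hw => by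
    obtain ⟨h1, _⟩ := ls_high H w hw
    have h2 := (LSC_Wb H x w).1
    have h3 := H.mm_high w hw
    have h4 : 0 ≤ (A * k) ^ (2 * net.dist x w) := pow_nonneg hκ0 _
    have h5 : (A * k) ^ (2 * net.dist x w) * mm N β (1 / A) Rc ‖G w‖ / 2 * (49 / 64 * ‖G w‖ ^ 2) ≤
        WW net β (A * k) A Rc θ G x w * ‖Yv net k (1 / A) y G w‖ ^ 2 :=
      mul_le_mul h2 h1 (by positivity) (hW0 w)
    have h6 : 1 ≤ 16 * A ^ 2 * (mm N β (1 / A) Rc ‖G w‖ * ‖G w‖ ^ 2) := by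
      have h7 := mul_le_mul_of_nonneg_left h3 (by positivity : (0 : ℝ) ≤ 16 * A ^ 2)
      rwa [mul_one_div_cancel (by positivity : (16 * A ^ 2 : ℝ) ≠ 0)] at h7
    have h8 : (A * k) ^ (2 * net.dist x w) * 1 ≤ (A * k) ^ (2 * net.dist x w) *
        (16 * A ^ 2 * (mm N β (1 / A) Rc ‖G w‖ * ‖G w‖ ^ 2)) := mul_le_mul_of_nonneg_left h6 h4
    have h9 := mul_le_mul_of_nonneg_left h5 (by positivity : (0 : ℝ) ≤ 50 * A ^ 2)
    have h10 : 50 * A ^ 2 * ((A * k) ^ (2 * net.dist x w) * mm N β (1 / A) Rc ‖G w‖ / 2 *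
        (49 / 64 * ‖G w‖ ^ 2)) = 50 * 49 / 2048 * ((A * k) ^ (2 * net.dist x w) *
        (16 * A ^ 2 * (mm N β (1 / A) Rc ‖G w‖ * ‖G w‖ ^ 2))) := by ring
    rw [h10] at h9
    nlinarith
  refine ⟨hW0 z, hW2 z, hW3 z, ?_, ?_, ?_, hW4 z⟩
  · intro w hw hGw
    have h1 := LSC_pow net hκ0 hκ1 x hw
    have h2 := hW3 w hGw
    have h3 := hW2 z
    have h4 : (A * k) ^ 2 * WW net β (A * k) A Rc θ G x z ≤
        (A * k) ^ 2 * (2 * (A * k) ^ (2 * net.dist x z)) :=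
      mul_le_mul_of_nonneg_left h3 (sq_nonneg _)
    have h5 : (A * k) ^ 2 * (2 * (A * k) ^ (2 * net.dist x z)) =
        2 * (A * k) ^ (2 * net.dist x z + 2) := by ring
    linarith
  · intro w hw hGw
    have h1 := LSC_pow net hκ0 hκ1 x hw
    have h3 := hW2 z
    have h4 : k ^ 2 * WW net β (A * k) A Rc θ G x z ≤
        k ^ 2 * (2 * (A * k) ^ (2 * net.dist x z)) :=
      mul_le_mul_of_nonneg_left h3 (sq_nonneg _)
    have h5 : k ^ 2 * (2 * (A * k) ^ (2 * net.dist x z)) =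
        2 / A ^ 2 * (A * k) ^ (2 * net.dist x z + 2) := by
      field_simp
      ring
    obtain ⟨h6, _⟩ := ls_high H w hGw
    have h7 := (LSC_Wb H x w).1
    have h8 := H.mm_high w hGw
    have h9 : (A * k) ^ (2 * net.dist x w) * mm N β (1 / A) Rc ‖G w‖ / 2 * (49 / 64 * ‖G w‖ ^ 2) ≤
        WW net β (A * k) A Rc θ G x w * ‖Yv net k (1 / A) y G w‖ ^ 2 :=
      mul_le_mul h7 h6 (by positivity) (hW0 w)
    have h10 : 0 ≤ (A * k) ^ (2 * net.dist x w) := pow_nonneg hκ0 _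
    have h11 : (A * k) ^ (2 * net.dist x w) * (1 / (16 * A ^ 2)) ≤
        (A * k) ^ (2 * net.dist x w) * (mm N β (1 / A) Rc ‖G w‖ * ‖G w‖ ^ 2) :=
      mul_le_mul_of_nonneg_left h8 h10
    have h12 : 2 / A ^ 2 * (A * k) ^ (2 * net.dist x z + 2) ≤
        2 / A ^ 2 * (A * k) ^ (2 * net.dist x w) := mul_le_mul_of_nonneg_left h1 (by positivity)
    have h13 : 2 / A ^ 2 * (A * k) ^ (2 * net.dist x w) =
        32 * ((A * k) ^ (2 * net.dist x w) * (1 / (16 * A ^ 2))) := by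
      field_simp
      ring
    have h14 : (A * k) ^ (2 * net.dist x w) * mm N β (1 / A) Rc ‖G w‖ / 2 * (49 / 64 * ‖G w‖ ^ 2) =
        49 / 128 * ((A * k) ^ (2 * net.dist x w) * (mm N β (1 / A) Rc ‖G w‖ * ‖G w‖ ^ 2)) := by
      ring
    have h15 : 0 ≤ (A * k) ^ (2 * net.dist x w) * (1 / (16 * A ^ 2)) :=
      mul_nonneg h10 (by positivity)
    rw [h14] at h9
    linarith
  · have hN : (3 : ℝ) ≤ N := by exact_mod_cast H.hN
    have hN4 : (1 : ℝ) ≤ (32 * (N : ℝ)) ^ 4 := one_le_pow₀ (by linarith)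
    have h4 : 0 ≤ (A * k) ^ (2 * net.dist x z) := pow_nonneg hκ0 _
    have h5 := (LSC_Wb H x z).2
    by_cases hz : 1 / (2 * A) ≤ ‖G z‖
    · obtain ⟨_, h1⟩ := ls_high H z hz
      have h2 := H.mm_up z
      have h6 : WW net β (A * k) A Rc θ G x z * ‖Yv net k (1 / A) y G z‖ ^ 2 ≤
          (A * k) ^ (2 * net.dist x z) * mm N β (1 / A) Rc ‖G z‖ * (81 / 64 * ‖G z‖ ^ 2) :=
        mul_le_mul h5 h1 (by positivity) (mul_nonneg h4 (H.mm_pos z).le)
      have h7 : (A * k) ^ (2 * net.dist x z) * (mm N β (1 / A) Rc ‖G z‖ * ‖G z‖ ^ 2) ≤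
          (A * k) ^ (2 * net.dist x z) * (16 * (32 * N) ^ 4 / A ^ 2) :=
        mul_le_mul_of_nonneg_left h2 h4
      have h8 : 0 ≤ (A * k) ^ (2 * net.dist x z) * (16 * (32 * N) ^ 4 / A ^ 2) := by positivity
      have h9 : (A * k) ^ (2 * net.dist x z) * (64 * (32 * N) ^ 4 / A ^ 2) =
          4 * ((A * k) ^ (2 * net.dist x z) * (16 * (32 * N) ^ 4 / A ^ 2)) := by ring
      rw [h9]
      nlinarith
    · push Not at hz
      obtain ⟨h1, h2, _, _⟩ := ls_near H z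
      have h3 := norm_sub_norm_le (Yv net k (1 / A) y G z) (G z)
      have h6 : 1 / (16 * A) = 1 / A / 16 := by field_simp
      have h7 : 1 / (2 * A) = 1 / A / 2 := by field_simp
      have h8 : 0 < 1 / A := by positivity
      have h9 : ‖Yv net k (1 / A) y G z‖ ≤ 1 / A := by
        rw [h6] at h2
        rw [h7] at hz
        linarith
      have h10 : ‖Yv net k (1 / A) y G z‖ ^ 2 ≤ (1 / A) ^ 2 :=
        pow_le_pow_left₀ (norm_nonneg _) h9 2
      have h11 : WW net β (A * k) A Rc θ G x z * ‖Yv net k (1 / A) y G z‖ ^ 2 ≤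
          2 * (A * k) ^ (2 * net.dist x z) * (1 / A) ^ 2 :=
        mul_le_mul (hW2 z) h10 (by positivity) (by positivity)
      have h12 : 2 * (A * k) ^ (2 * net.dist x z) * (1 / A) ^ 2 =
          (A * k) ^ (2 * net.dist x z) * (2 * 1 / A ^ 2) := by ring
      rw [h12] at h11
      refine h11.trans (mul_le_mul_of_nonneg_left ?_ h4)
      gcongr
      · norm_num

theorem ls_act (H : LSB net β Cy Cu k A Rc θ y G) (x z : ι) :
    k ^ 2 * act net A G z * Rb net β G z * WW net β (A * k) A Rc θ G x z ≤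
      256 * ∑ w ∈ net.nb z, Rb net β G w *
        (WW net β (A * k) A Rc θ G x w * ‖Yv net k (1 / A) y G w‖ ^ 2) := by
  classical
  have hW := ls_W H x
  obtain ⟨ha0, ha1⟩ := LSC_act01 net A G z
  have hR : ∀ w, 1 ≤ Rb net β G w := fun w => (Rb_facts net β H.hβ G w).1
  have hT : ∀ w, 0 ≤ Rb net β G w *
      (WW net β (A * k) A Rc θ G x w * ‖Yv net k (1 / A) y G w‖ ^ 2) := fun w =>
    mul_nonneg (by linarith [hR w]) (mul_nonneg (hW w).1 (sq_nonneg _))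
  have hk := H.hk
  by_cases hw : ∃ w ∈ net.nb z, 1 / (2 * A) ≤ ‖G w‖
  · obtain ⟨w, hwz, hGw⟩ := hw
    have h1 := (hW z).2.2.2.2.1 w hwz hGw
    have h2 := ((Rb_facts net β H.hβ G z).2.2.2.2.2 w hwz).1
    have h3 : Rb net β G w * (WW net β (A * k) A Rc θ G x w * ‖Yv net k (1 / A) y G w‖ ^ 2) ≤
        ∑ w ∈ net.nb z, Rb net β G w *
          (WW net β (A * k) A Rc θ G x w * ‖Yv net k (1 / A) y G w‖ ^ 2) :=
      Finset.single_le_sum (f := fun w => Rb net β G w *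
        (WW net β (A * k) A Rc θ G x w * ‖Yv net k (1 / A) y G w‖ ^ 2)) (fun w _ => hT w) hwz
    have h4 : 0 ≤ k ^ 2 * WW net β (A * k) A Rc θ G x z := mul_nonneg (sq_nonneg _) (hW z).1
    have h5 : 0 ≤ Rb net β G z * (k ^ 2 * WW net β (A * k) A Rc θ G x z) :=
      mul_nonneg (by linarith [hR z]) h4
    calc k ^ 2 * act net A G z * Rb net β G z * WW net β (A * k) A Rc θ G x z =
          act net A G z * (Rb net β G z * (k ^ 2 * WW net β (A * k) A Rc θ G x z)) := by ring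
      _ ≤ 1 * (Rb net β G z * (k ^ 2 * WW net β (A * k) A Rc θ G x z)) :=
          mul_le_mul_of_nonneg_right ha1 h5
      _ ≤ 1 * (2 * Rb net β G w *
          (128 * (WW net β (A * k) A Rc θ G x w * ‖Yv net k (1 / A) y G w‖ ^ 2))) := by
          refine mul_le_mul_of_nonneg_left ?_ (by norm_num)
          exact mul_le_mul h2 h1 h4 (by linarith [hR w])
      _ = 256 * (Rb net β G w *
          (WW net β (A * k) A Rc θ G x w * ‖Yv net k (1 / A) y G w‖ ^ 2)) := by ring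
      _ ≤ _ := mul_le_mul_of_nonneg_left h3 (by norm_num)
  · have h1 : act net A G z = 0 := by
      unfold act
      exact if_neg hw
    rw [h1]
    have h2 : 0 ≤ ∑ w ∈ net.nb z, Rb net β G w *
        (WW net β (A * k) A Rc θ G x w * ‖Yv net k (1 / A) y G w‖ ^ 2) :=
      Finset.sum_nonneg fun w _ => hT w
    simp only [mul_zero, zero_mul]
    linarith

theorem ls_S_up (H : LSB net β Cy Cu k A Rc θ y G) (x : ι) :
    SS net β k A Rc θ y G x ≤ 4 ^ d * (64 * (32 * N) ^ 4) / A ^ 2 ∧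
    SS net β k A Rc θ y G x ≤ 2 * (‖G x‖ + 4 * d * Cy * k) ^ 2
      + 2 * (A * k) ^ 2 * 3 ^ d * (64 * (32 * N) ^ 4 / A ^ 2) := by
  classical
  have hA6 := H.hA
  have hA : 0 < A := by linarith
  have hk := H.hk
  have hCy := H.hCy
  have hκ0 : 0 ≤ A * k := mul_nonneg hA.le H.hk
  have hκ2 : A * k ≤ 1 / 2 := H.hAk
  have hκ1 : A * k ≤ 1 := by linarith
  have hW := ls_W H x
  have hN : (3 : ℝ) ≤ N := by exact_mod_cast H.hN
  obtain ⟨CF, hCF⟩ : ∃ CF : ℝ, CF = 64 * (32 * N) ^ 4 / A ^ 2 := ⟨_, rfl⟩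
  have hCF0 : 0 ≤ CF := by rw [hCF]; positivity
  have hsq : ∀ n : ℕ, (A * k) ^ (2 * n) ≤ (1 / 2 : ℝ) ^ n := by
    intro n
    rw [pow_mul]
    refine pow_le_pow_left₀ (sq_nonneg _) ?_ n
    nlinarith
  have hup : ∀ z, WW net β (A * k) A Rc θ G x z * ‖Yv net k (1 / A) y G z‖ ^ 2 ≤
      (A * k) ^ (2 * net.dist x z) * CF := fun z => by
    rw [hCF]
    exact (hW z).2.2.2.2.2.1
  constructor
  · have h1 : SS net β k A Rc θ y G x ≤ ∑ z, (1 / 2 : ℝ) ^ net.dist x z * CF := by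
      unfold SS
      refine Finset.sum_le_sum fun z _ => (hup z).trans ?_
      exact mul_le_mul_of_nonneg_right (hsq _) hCF0
    rw [← Finset.sum_mul] at h1
    have h2 := net.sum_half x
    have h3 : (3 : ℝ) ^ d ≤ 4 ^ d := pow_le_pow_left₀ (by norm_num) (by norm_num) d
    calc SS net β k A Rc θ y G x ≤ (∑ z, (1 / 2 : ℝ) ^ net.dist x z) * CF := h1
      _ ≤ 4 ^ d * CF := mul_le_mul_of_nonneg_right (h2.trans h3) hCF0
      _ = _ := by rw [hCF]; ring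
  · have h1 : SS net β k A Rc θ y G x = WW net β (A * k) A Rc θ G x x *
        ‖Yv net k (1 / A) y G x‖ ^ 2 + ∑ z ∈ Finset.univ.erase x,
          WW net β (A * k) A Rc θ G x z * ‖Yv net k (1 / A) y G z‖ ^ 2 := by
      unfold SS
      rw [Finset.add_sum_erase Finset.univ (fun z => WW net β (A * k) A Rc θ G x z *
        ‖Yv net k (1 / A) y G z‖ ^ 2) (Finset.mem_univ x)]
    have h2 : ∑ z ∈ Finset.univ.erase x,
        WW net β (A * k) A Rc θ G x z * ‖Yv net k (1 / A) y G z‖ ^ 2 ≤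
        2 * (A * k) ^ 2 * 3 ^ d * CF := by
      calc ∑ z ∈ Finset.univ.erase x,
          WW net β (A * k) A Rc θ G x z * ‖Yv net k (1 / A) y G z‖ ^ 2
          ≤ ∑ z ∈ Finset.univ.erase x, 2 * (A * k) ^ 2 * CF * (1 / 2 : ℝ) ^ net.dist x z := by
            refine Finset.sum_le_sum fun z hz => (hup z).trans ?_
            have hzx : x ≠ z := fun h => Finset.ne_of_mem_erase hz h.symm
            obtain ⟨n, hn⟩ : ∃ n, net.dist x z = n + 1 := ⟨net.dist x z - 1, by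
              have := net.dist_pos x z hzx
              omega⟩
            rw [hn]
            have h3 := hsq n
            have h4 : (A * k) ^ (2 * (n + 1)) = (A * k) ^ 2 * (A * k) ^ (2 * n) := by ring
            rw [h4]
            have h5 : (A * k) ^ 2 * (A * k) ^ (2 * n) * CF ≤ (A * k) ^ 2 * (1 / 2 : ℝ) ^ n * CF :=
              mul_le_mul_of_nonneg_right (mul_le_mul_of_nonneg_left h3 (sq_nonneg _)) hCF0
            refine h5.trans (le_of_eq ?_)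
            rw [pow_succ]
            ring
        _ ≤ ∑ z, 2 * (A * k) ^ 2 * CF * (1 / 2 : ℝ) ^ net.dist x z :=
            Finset.sum_le_sum_of_subset_of_nonneg (Finset.erase_subset _ _)
              fun z _ _ => by positivity
        _ = 2 * (A * k) ^ 2 * CF * ∑ z, (1 / 2 : ℝ) ^ net.dist x z := by rw [Finset.mul_sum]
        _ ≤ 2 * (A * k) ^ 2 * CF * 3 ^ d :=
            mul_le_mul_of_nonneg_left (net.sum_half x) (by positivity)
        _ = _ := by ring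
    have h3 : WW net β (A * k) A Rc θ G x x ≤ 2 := by
      have h4 := (hW x).2.1
      rw [net.dist_self, mul_zero, pow_zero, mul_one] at h4
      exact h4
    obtain ⟨h4, _, h5, h6⟩ := ls_near H x
    have h7 := norm_sub_norm_le (Yv net k (1 / A) y G x) (G x)
    have h8 : 4 * d * Cy * k * act net A G x ≤ 4 * d * Cy * k :=
      mul_le_of_le_one_right (by positivity) h6
    have h9 : ‖Yv net k (1 / A) y G x‖ ^ 2 ≤ (‖G x‖ + 4 * d * Cy * k) ^ 2 :=
      pow_le_pow_left₀ (norm_nonneg _) (by linarith) 2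
    have h10 : WW net β (A * k) A Rc θ G x x * ‖Yv net k (1 / A) y G x‖ ^ 2 ≤
        2 * (‖G x‖ + 4 * d * Cy * k) ^ 2 := mul_le_mul h3 h9 (sq_nonneg _) (by norm_num)
    rw [h1, ← hCF]
    linarith

theorem ls_S_low (H : LSB net β Cy Cu k A Rc θ y G) (x z : ι) :
    (1 / (2 * A) ≤ ‖G z‖ → (A * k) ^ (2 * net.dist x z) / (50 * A ^ 2) ≤ SS net β k A Rc θ y G x) ∧
    (∀ s : ℝ, 0 ≤ s → s ≤ 1 / (2 * A) → s ≤ ‖G z‖ →
      (A * k) ^ (2 * (net.dist x z + 1)) * s ^ 2 / 200 ≤ SS net β k A Rc θ y G x) ∧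
    (∀ s : ℝ, 0 ≤ s → s ≤ 1 / (2 * A) → s ≤ ‖G x‖ → k = 0 →
      s ^ 2 / 200 ≤ SS net β k A Rc θ y G x) := by
  classical
  have hA6 := H.hA
  have hA : 0 < A := by linarith
  have hk := H.hk
  have hκ0 : 0 ≤ A * k := mul_nonneg hA.le H.hk
  have hκ1 : A * k ≤ 1 := by linarith [H.hAk]
  have hW := ls_W H x
  have hS : ∀ z, WW net β (A * k) A Rc θ G x z * ‖Yv net k (1 / A) y G z‖ ^ 2 ≤
      SS net β k A Rc θ y G x := fun z =>
    Finset.single_le_sum (f := fun z => WW net β (A * k) A Rc θ G x z *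
      ‖Yv net k (1 / A) y G z‖ ^ 2) (fun w _ => mul_nonneg (hW w).1 (sq_nonneg _))
      (Finset.mem_univ z)
  have hhi : ∀ z, 1 / (2 * A) ≤ ‖G z‖ →
      (A * k) ^ (2 * net.dist x z) / (50 * A ^ 2) ≤ SS net β k A Rc θ y G x := fun z hz => by
    have h1 := (hW z).2.2.2.2.2.2 hz
    rw [div_le_iff₀ (by positivity)]
    have h2 := mul_le_mul_of_nonneg_left (hS z) (by positivity : (0 : ℝ) ≤ 50 * A ^ 2)
    linarith
  have hsA : ∀ s : ℝ, 0 ≤ s → s ≤ 1 / (2 * A) → s ^ 2 / 200 ≤ 1 / (50 * A ^ 2) := by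
    intro s hs0 hs
    have h1 : s ^ 2 ≤ (1 / (2 * A)) ^ 2 := pow_le_pow_left₀ hs0 hs 2
    have h2 : (1 / (2 * A)) ^ 2 = 1 / (50 * A ^ 2) * (50 / 4) := by
      field_simp
      norm_num
    have h3 : 0 < 1 / (50 * A ^ 2) := by positivity
    rw [h2] at h1
    linarith
  have h6A : 1 / (2 * A) ≤ 6 / A := by
    rw [div_le_div_iff₀ (by positivity) hA]
    linarith
  refine ⟨hhi z, ?_, ?_⟩
  · intro s hs0 hs hsz
    by_cases hz : 1 / (2 * A) ≤ ‖G z‖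
    · have h1 := hhi z hz
      have h2 : (A * k) ^ (2 * (net.dist x z + 1)) ≤ (A * k) ^ (2 * net.dist x z) :=
        pow_le_pow_of_le_one hκ0 hκ1 (by omega)
      have h3 := hsA s hs0 hs
      calc (A * k) ^ (2 * (net.dist x z + 1)) * s ^ 2 / 200 =
            (A * k) ^ (2 * (net.dist x z + 1)) * (s ^ 2 / 200) := by ring
        _ ≤ (A * k) ^ (2 * net.dist x z) * (1 / (50 * A ^ 2)) :=
            mul_le_mul h2 h3 (by positivity) (pow_nonneg hκ0 _)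
        _ = (A * k) ^ (2 * net.dist x z) / (50 * A ^ 2) := by ring
        _ ≤ _ := h1
    · by_cases hw : ∃ w ∈ net.nb z, 1 / (2 * A) ≤ ‖G w‖
      · obtain ⟨w, hwz, hGw⟩ := hw
        have h1 := hhi w hGw
        have h2 : (A * k) ^ (2 * (net.dist x z + 1)) ≤ (A * k) ^ (2 * net.dist x w) :=
          LSC_pow net hκ0 hκ1 x hwz
        have h3 := hsA s hs0 hs
        calc (A * k) ^ (2 * (net.dist x z + 1)) * s ^ 2 / 200 =
              (A * k) ^ (2 * (net.dist x z + 1)) * (s ^ 2 / 200) := by ring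
          _ ≤ (A * k) ^ (2 * net.dist x w) * (1 / (50 * A ^ 2)) :=
              mul_le_mul h2 h3 (by positivity) (pow_nonneg hκ0 _)
          _ = (A * k) ^ (2 * net.dist x w) / (50 * A ^ 2) := by ring
          _ ≤ _ := h1
      · have h1 : act net A G z = 0 := by
          unfold act
          exact if_neg hw
        obtain ⟨h2, _, _, _⟩ := ls_near H z
        rw [h1, mul_zero] at h2
        have h3 : Yv net k (1 / A) y G z = G z := sub_eq_zero.1 (norm_le_zero_iff.1 h2)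
        have h4 := hS z
        rw [h3] at h4
        push Not at hz
        have h5 := (hW z).2.2.1 (by linarith)
        have h6 : (A * k) ^ (2 * (net.dist x z + 1)) ≤ (A * k) ^ (2 * net.dist x z) :=
          pow_le_pow_of_le_one hκ0 hκ1 (by omega)
        have h7 : s ^ 2 ≤ ‖G z‖ ^ 2 := pow_le_pow_left₀ hs0 hsz 2
        have h8 : (A * k) ^ (2 * (net.dist x z + 1)) * s ^ 2 ≤
            20 * WW net β (A * k) A Rc θ G x z * ‖G z‖ ^ 2 :=
          mul_le_mul (h6.trans h5) h7 (sq_nonneg _) (by linarith [(hW z).1])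
        have h9 : 0 ≤ WW net β (A * k) A Rc θ G x z * ‖G z‖ ^ 2 :=
          mul_nonneg (hW z).1 (sq_nonneg _)
        linarith
  · intro s hs0 hs hsx hk0
    obtain ⟨h2, _, _, _⟩ := ls_near H x
    rw [hk0, mul_zero, zero_mul] at h2
    have h3 : Yv net 0 (1 / A) y G x = G x := sub_eq_zero.1 (norm_le_zero_iff.1 h2)
    have h4 := hS x
    rw [hk0, h3] at h4
    rw [hk0]
    by_cases hx : ‖G x‖ ≤ 6 / A
    · have h5 := (hW x).2.2.1 hx
      rw [hk0, net.dist_self, mul_zero, mul_zero, pow_zero] at h5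
      have h7 : s ^ 2 ≤ ‖G x‖ ^ 2 := pow_le_pow_left₀ hs0 hsx 2
      rw [mul_zero] at h4
      have h8 : 1 * s ^ 2 ≤ 20 * WW net β 0 A Rc θ G x x * ‖G x‖ ^ 2 :=
        mul_le_mul h5 h7 (sq_nonneg _) (by linarith)
      have h9 : 0 ≤ s ^ 2 := sq_nonneg _
      linarith
    · push Not at hx
      have h1 := hhi x (by linarith)
      rw [hk0, net.dist_self, mul_zero, mul_zero, pow_zero] at h1
      exact (hsA s hs0 hs).trans h1

theorem ls_pos (H : LSB net β Cy Cu k A Rc θ y G) (x : ι) (hG : (G x ≠ 0) ∨ (0 < k ∧ G ≠ 0)) :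
    0 < SS net β k A Rc θ y G x := by
  have hA : 0 < A := by linarith [H.hA]
  have hs : ∀ z, G z ≠ 0 → 0 < min ‖G z‖ (1 / (2 * A)) := fun z hz =>
    lt_min (norm_pos_iff.2 hz) (by positivity)
  rcases eq_or_lt_of_le H.hk with hk | hk
  · have hGx : G x ≠ 0 := by
      rcases hG with h | h
      · exact h
      · exact absurd h.1 (by rw [← hk]; exact lt_irrefl _)
    have h1 := (ls_S_low H x x).2.2 _ (hs x hGx).le (min_le_right _ _) (min_le_left _ _) hk.symm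
    have h2 := hs x hGx
    have h3 : 0 < (min ‖G x‖ (1 / (2 * A))) ^ 2 / 200 := by positivity
    linarith
  · obtain ⟨z, hz⟩ : ∃ z, G z ≠ 0 := by
      rcases hG with h | h
      · exact ⟨x, h⟩
      · exact Function.ne_iff.1 h.2
    have h1 := (ls_S_low H x z).2.1 _ (hs z hz).le (min_le_right _ _) (min_le_left _ _)
    have h2 := hs z hz
    have h4 : 0 < A * k := mul_pos hA hk
    have h3 : 0 < (A * k) ^ (2 * (net.dist x z + 1)) * (min ‖G z‖ (1 / (2 * A))) ^ 2 / 200 := by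
      positivity
    linarith

end

theorem ls_sig (N d : ℕ) (Cy A : ℝ) : ∃ Cs : ℝ, 0 < Cs ∧
    ∀ {ι : Type} [Fintype ι] {net : Net ι d} {β Cu k Rc θ : ℝ} {y : ℝ → ℝ} {G : ι → E N},
      LSB net β Cy Cu k A Rc θ y G → ∀ x,
      ∑ z, WW net β (A * k) A Rc θ G x z * sig net k G z ^ 2 ≤ Cs * SS net β k A Rc θ y G x ∧
      ∀ z, WW net β (A * k) A Rc θ G x z * sig net k G z ^ 2 ≤ Cs * SS net β k A Rc θ y G x := by
  obtain ⟨B1, hB1⟩ : ∃ B1 : ℝ, B1 = 2 + 256 * (4 * d * Cy) ^ 2 * (2 * d) := ⟨_, rfl⟩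
  have hB10 : 0 ≤ B1 := by rw [hB1]; positivity
  obtain ⟨Cs, hCs⟩ : ∃ Cs : ℝ, Cs = 1 + 2 * B1 + 4 * d * (40 / A ^ 2 * (2 * d * B1) + 128 * (2 * d)) :=
    ⟨_, rfl⟩
  refine ⟨Cs, by rw [hCs]; positivity, ?_⟩
  intro ι _ net β Cu k Rc θ y G H x
  classical
  have hA6 := H.hA
  have hA : 0 < A := by linarith
  have hk := H.hk
  have hκ0 : 0 ≤ A * k := mul_nonneg hA.le H.hk
  have hW := ls_W H x
  have hW0 : ∀ z, 0 ≤ WW net β (A * k) A Rc θ G x z := fun z => (hW z).1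
  have hF0 : ∀ z, 0 ≤ WW net β (A * k) A Rc θ G x z * ‖Yv net k (1 / A) y G z‖ ^ 2 := fun z =>
    mul_nonneg (hW0 z) (sq_nonneg _)
  have hS0 : 0 ≤ SS net β k A Rc θ y G x := Finset.sum_nonneg fun z _ => hF0 z
  -- the sum of `W r ^ 2`
  have h1 : ∀ z, WW net β (A * k) A Rc θ G x z * ‖G z‖ ^ 2 ≤
      2 * (WW net β (A * k) A Rc θ G x z * ‖Yv net k (1 / A) y G z‖ ^ 2) +
      256 * (4 * d * Cy) ^ 2 * ∑ w ∈ net.nb z,
        WW net β (A * k) A Rc θ G x w * ‖Yv net k (1 / A) y G w‖ ^ 2 := by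
    intro z
    obtain ⟨h2, _, h3, h4⟩ := ls_near H z
    have h5 : ‖G z‖ ≤ ‖Yv net k (1 / A) y G z‖ + 4 * d * Cy * k * act net A G z := by
      have h6 := norm_sub_norm_le (G z) (Yv net k (1 / A) y G z)
      rw [norm_sub_rev] at h6
      linarith
    have h6 : ‖G z‖ ^ 2 ≤ 2 * ‖Yv net k (1 / A) y G z‖ ^ 2 +
        2 * (4 * d * Cy * k * act net A G z) ^ 2 := by
      have h7 : ‖G z‖ ^ 2 ≤ (‖Yv net k (1 / A) y G z‖ + 4 * d * Cy * k * act net A G z) ^ 2 :=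
        pow_le_pow_left₀ (norm_nonneg _) h5 2
      nlinarith [sq_nonneg (‖Yv net k (1 / A) y G z‖ - 4 * d * Cy * k * act net A G z)]
    have h7 : act net A G z ^ 2 ≤ act net A G z := by nlinarith
    have h8 : k ^ 2 * act net A G z * WW net β (A * k) A Rc θ G x z ≤
        128 * ∑ w ∈ net.nb z, WW net β (A * k) A Rc θ G x w * ‖Yv net k (1 / A) y G w‖ ^ 2 := by
      by_cases hw : ∃ w ∈ net.nb z, 1 / (2 * A) ≤ ‖G w‖
      · obtain ⟨w, hwz, hGw⟩ := hw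
        have h9 := (hW z).2.2.2.2.1 w hwz hGw
        have h10 : WW net β (A * k) A Rc θ G x w * ‖Yv net k (1 / A) y G w‖ ^ 2 ≤
            ∑ w ∈ net.nb z, WW net β (A * k) A Rc θ G x w * ‖Yv net k (1 / A) y G w‖ ^ 2 :=
          Finset.single_le_sum (f := fun w => WW net β (A * k) A Rc θ G x w *
            ‖Yv net k (1 / A) y G w‖ ^ 2) (fun w _ => hF0 w) hwz
        have h11 : k ^ 2 * act net A G z * WW net β (A * k) A Rc θ G x z ≤
            k ^ 2 * WW net β (A * k) A Rc θ G x z := by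
          have h12 : 0 ≤ k ^ 2 * WW net β (A * k) A Rc θ G x z := mul_nonneg (sq_nonneg _) (hW0 z)
          nlinarith
        linarith
      · have h9 : act net A G z = 0 := by
          unfold act
          exact if_neg hw
        rw [h9]
        have h10 : 0 ≤ ∑ w ∈ net.nb z, WW net β (A * k) A Rc θ G x w *
            ‖Yv net k (1 / A) y G w‖ ^ 2 := Finset.sum_nonneg fun w _ => hF0 w
        simp only [mul_zero, zero_mul]
        linarith
    have h9 := mul_le_mul_of_nonneg_left h6 (hW0 z)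
    have h10 : WW net β (A * k) A Rc θ G x z * (2 * (4 * d * Cy * k * act net A G z) ^ 2) ≤
        2 * (4 * d * Cy) ^ 2 * (k ^ 2 * act net A G z * WW net β (A * k) A Rc θ G x z) := by
      have h11 : WW net β (A * k) A Rc θ G x z * (2 * (4 * d * Cy * k * act net A G z) ^ 2) =
          2 * (4 * d * Cy) ^ 2 * (k ^ 2 * act net A G z ^ 2 * WW net β (A * k) A Rc θ G x z) := by
        ring
      rw [h11]
      refine mul_le_mul_of_nonneg_left (mul_le_mul_of_nonneg_right ?_ (hW0 z)) (by positivity)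
      exact mul_le_mul_of_nonneg_left h7 (sq_nonneg _)
    have h12 := mul_le_mul_of_nonneg_left h8 (by positivity : (0 : ℝ) ≤ 2 * (4 * d * Cy) ^ 2)
    have h13 : 2 * (4 * d * Cy) ^ 2 * (128 * ∑ w ∈ net.nb z,
        WW net β (A * k) A Rc θ G x w * ‖Yv net k (1 / A) y G w‖ ^ 2) =
        256 * (4 * d * Cy) ^ 2 * ∑ w ∈ net.nb z,
        WW net β (A * k) A Rc θ G x w * ‖Yv net k (1 / A) y G w‖ ^ 2 := by ring
    rw [h13] at h12
    rw [mul_add] at h9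
    linarith
  have h2 : ∑ z, WW net β (A * k) A Rc θ G x z * ‖G z‖ ^ 2 ≤ B1 * SS net β k A Rc θ y G x := by
    refine (Finset.sum_le_sum fun z _ => h1 z).trans ?_
    rw [Finset.sum_add_distrib, ← Finset.mul_sum, ← Finset.mul_sum]
    have h3 := LSC_dc net (fun w => WW net β (A * k) A Rc θ G x w *
      ‖Yv net k (1 / A) y G w‖ ^ 2) hF0
    have h4 := mul_le_mul_of_nonneg_left h3 (by positivity : (0 : ℝ) ≤ 256 * (4 * d * Cy) ^ 2)
    have h5 : ∑ w, WW net β (A * k) A Rc θ G x w * ‖Yv net k (1 / A) y G w‖ ^ 2 =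
        SS net β k A Rc θ y G x := rfl
    rw [h5] at h4 ⊢
    have h6 : B1 * SS net β k A Rc θ y G x = 2 * SS net β k A Rc θ y G x +
        256 * (4 * d * Cy) ^ 2 * (2 * d * SS net β k A Rc θ y G x) := by rw [hB1]; ring
    rw [h6]
    linarith
  -- the neighbours
  have h3 : ∀ z, ∀ w ∈ net.nb z, k ^ 2 * WW net β (A * k) A Rc θ G x z * (min ‖G w‖ 1) ^ 2 ≤
      40 / A ^ 2 * (WW net β (A * k) A Rc θ G x w * ‖G w‖ ^ 2) +
      128 * (WW net β (A * k) A Rc θ G x w * ‖Yv net k (1 / A) y G w‖ ^ 2) := by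
    intro z w hw
    have hm0 : 0 ≤ min ‖G w‖ 1 := le_min (norm_nonneg _) zero_le_one
    have hkW : 0 ≤ k ^ 2 * WW net β (A * k) A Rc θ G x z := mul_nonneg (sq_nonneg _) (hW0 z)
    have ht1 : 0 ≤ 40 / A ^ 2 * (WW net β (A * k) A Rc θ G x w * ‖G w‖ ^ 2) :=
      mul_nonneg (by positivity) (mul_nonneg (hW0 w) (sq_nonneg _))
    have ht2 := hF0 w
    by_cases hGw : 1 / (2 * A) ≤ ‖G w‖
    · have h4 := (hW z).2.2.2.2.1 w hw hGw
      have h5 : (min ‖G w‖ 1) ^ 2 ≤ 1 := pow_le_one₀ hm0 (min_le_right _ _)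
      have h6 : k ^ 2 * WW net β (A * k) A Rc θ G x z * (min ‖G w‖ 1) ^ 2 ≤
          k ^ 2 * WW net β (A * k) A Rc θ G x z := mul_le_of_le_one_right hkW h5
      linarith
    · push Not at hGw
      have h6A : 1 / (2 * A) ≤ 6 / A := by
        rw [div_le_div_iff₀ (by positivity) hA]
        linarith
      have h4 := (hW z).2.2.2.1 w hw (by linarith)
      have h5 : (min ‖G w‖ 1) ^ 2 ≤ ‖G w‖ ^ 2 := pow_le_pow_left₀ hm0 (min_le_left _ _) 2
      have h6 : k ^ 2 * WW net β (A * k) A Rc θ G x z * (min ‖G w‖ 1) ^ 2 ≤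
          k ^ 2 * WW net β (A * k) A Rc θ G x z * ‖G w‖ ^ 2 := mul_le_mul_of_nonneg_left h5 hkW
      have h7 : k ^ 2 * WW net β (A * k) A Rc θ G x z =
          1 / A ^ 2 * ((A * k) ^ 2 * WW net β (A * k) A Rc θ G x z) := by
        field_simp
      have h8 : 1 / A ^ 2 * ((A * k) ^ 2 * WW net β (A * k) A Rc θ G x z) ≤
          1 / A ^ 2 * (40 * WW net β (A * k) A Rc θ G x w) :=
        mul_le_mul_of_nonneg_left h4 (by positivity)
      rw [← h7] at h8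
      have h9 := mul_le_mul_of_nonneg_right h8 (sq_nonneg ‖G w‖)
      have h10 : 1 / A ^ 2 * (40 * WW net β (A * k) A Rc θ G x w) * ‖G w‖ ^ 2 =
          40 / A ^ 2 * (WW net β (A * k) A Rc θ G x w * ‖G w‖ ^ 2) := by ring
      rw [h10] at h9
      linarith
  have h4 : ∑ z, k ^ 2 * WW net β (A * k) A Rc θ G x z * ∑ w ∈ net.nb z, (min ‖G w‖ 1) ^ 2 ≤
      (40 / A ^ 2 * (2 * d * B1) + 128 * (2 * d)) * SS net β k A Rc θ y G x := by
    have h5 : ∑ z, k ^ 2 * WW net β (A * k) A Rc θ G x z * ∑ w ∈ net.nb z, (min ‖G w‖ 1) ^ 2 ≤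
        ∑ z, ∑ w ∈ net.nb z, (40 / A ^ 2 * (WW net β (A * k) A Rc θ G x w * ‖G w‖ ^ 2) +
      128 * (WW net β (A * k) A Rc θ G x w * ‖Yv net k (1 / A) y G w‖ ^ 2)) := by
      refine Finset.sum_le_sum fun z _ => ?_
      rw [Finset.mul_sum]
      exact Finset.sum_le_sum fun w hw => h3 z w hw
    have h6 := LSC_dc net (fun w => 40 / A ^ 2 * (WW net β (A * k) A Rc θ G x w * ‖G w‖ ^ 2) +
      128 * (WW net β (A * k) A Rc θ G x w * ‖Yv net k (1 / A) y G w‖ ^ 2)) (fun w => by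
        have ht1 : 0 ≤ 40 / A ^ 2 * (WW net β (A * k) A Rc θ G x w * ‖G w‖ ^ 2) :=
          mul_nonneg (by positivity) (mul_nonneg (hW0 w) (sq_nonneg _))
        have ht2 := hF0 w
        linarith)
    rw [Finset.sum_add_distrib, ← Finset.mul_sum, ← Finset.mul_sum] at h6
    have h7 : ∑ w, WW net β (A * k) A Rc θ G x w * ‖Yv net k (1 / A) y G w‖ ^ 2 =
        SS net β k A Rc θ y G x := rfl
    rw [h7] at h6
    have h8 : 2 * (d : ℝ) * (40 / A ^ 2 * ∑ z, WW net β (A * k) A Rc θ G x z * ‖G z‖ ^ 2 +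
        128 * SS net β k A Rc θ y G x) ≤ 2 * d * (40 / A ^ 2 * (B1 * SS net β k A Rc θ y G x) +
        128 * SS net β k A Rc θ y G x) := by
      refine mul_le_mul_of_nonneg_left ?_ (by positivity)
      have h9 := mul_le_mul_of_nonneg_left h2 (by positivity : (0 : ℝ) ≤ 40 / A ^ 2)
      linarith
    refine h5.trans (h6.trans (h8.trans (le_of_eq ?_)))
    ring
  have h5 : ∀ z, WW net β (A * k) A Rc θ G x z * sig net k G z ^ 2 ≤
      2 * (WW net β (A * k) A Rc θ G x z * ‖G z‖ ^ 2) +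
      4 * d * (k ^ 2 * WW net β (A * k) A Rc θ G x z * ∑ w ∈ net.nb z, (min ‖G w‖ 1) ^ 2) := by
    intro z
    have h6 : (∑ w ∈ net.nb z, min ‖G w‖ 1) ^ 2 ≤
        2 * d * ∑ w ∈ net.nb z, (min ‖G w‖ 1) ^ 2 := by
      refine (sq_sum_le_card_mul_sum_sq).trans ?_
      refine mul_le_mul_of_nonneg_right ?_ (Finset.sum_nonneg fun w _ => sq_nonneg _)
      exact_mod_cast net.nb_card z
    have h7 : sig net k G z ^ 2 ≤ 2 * ‖G z‖ ^ 2 + 4 * d * (k ^ 2 *
        ∑ w ∈ net.nb z, (min ‖G w‖ 1) ^ 2) := by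
      unfold sig
      have h8 := mul_le_mul_of_nonneg_left h6 (sq_nonneg k)
      nlinarith [sq_nonneg (‖G z‖ - k * ∑ w ∈ net.nb z, min ‖G w‖ 1)]
    have h8 := mul_le_mul_of_nonneg_left h7 (hW0 z)
    refine h8.trans (le_of_eq ?_)
    ring
  have h6 : ∑ z, WW net β (A * k) A Rc θ G x z * sig net k G z ^ 2 ≤
      Cs * SS net β k A Rc θ y G x := by
    refine (Finset.sum_le_sum fun z _ => h5 z).trans ?_
    rw [Finset.sum_add_distrib, ← Finset.mul_sum, ← Finset.mul_sum]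
    have h7 := mul_le_mul_of_nonneg_left h4 (by positivity : (0 : ℝ) ≤ 4 * d)
    rw [hCs]
    nlinarith
  refine ⟨h6, fun z => le_trans ?_ h6⟩
  exact Finset.single_le_sum (f := fun z => WW net β (A * k) A Rc θ G x z * sig net k G z ^ 2)
    (fun w _ => mul_nonneg (hW0 w) (sq_nonneg _)) (Finset.mem_univ z)

end Dyn
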