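import Pool.Agent.Lib_MP_36b788.PhiBd
import Pool.Agent.Lib_MP_36b788.LSC

/-!
# INIT: the initial field is good with high probability

`ρ` = law of one initial value, `ρ{0} = 0`. `V_z = (S_zA²)^{-m/2}`.

PROOF, `k > 0`. `κ = Ak ∈ (0,1/2]`. Choose `s ∈ (0,1/(2A)]` with `p₀ = ρ{‖x‖ ≥ s} ≥ 1/2` (continuity from below, `ρ{0}=0`). For a
site `z` of the box consider the sites `z - j·sgn(z₁)e₁`, `0 ≤ j ≤ n_z`, `n_z = ⌈K(1+log(1+|z|₁))⌉` (towards the centre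
in the first coordinate, for `z₁ = 0` use `z + j e₁`); they lie in the box as soon as `n_z ≤ L` … which holds for all `z` of the
box if `L ≥ L0(K)` (`|z|₁ ≤ dL`, `log(1+dL)` is small against `L`); (`j ≤ n_z ≤ L` keeps `|z₁ ∓ j| ≤ L`). The probability that none
of them is `≥ s` in norm is `≤ 2^{-n_z}`; `Σ_z 2^{-n_z} ≤ δ/2` for `K` large, uniformly in `L` (`2^{-K log(1+|z|)} ≤
(1+|z|)^{-d-1}` and a factor `2^{-K}`). On the complement every `z` has a site `w` at distance `≤ n_z` with `‖G w‖ ≥ s`, so by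
ls_S_low (second) `S_z ≥ κ^{2(n_z+1)}s²/200`, i.e. `V_z ≤ (κ^{2(n_z+1)}s²A²/200)^{-m/2} ≤ Cq(1+|z|)^q` (`n_z` logarithmic).
LSB needs `‖G x‖ ≤ 2 rad`: its failure has probability `≤ δ/2` for `h ≤ h0(L,δ)` (`rad β h → ∞`). `d ≥ 1`.
`k = 0`: fixed `L`; choose `s` with `card·ρ{‖x‖ < s} ≤ δ/2`; then all `‖G z‖ ≥ s` and ls_S_low (third) bounds `V_z`.
-/

open MeasureTheory

namespace Dyn

/-- tails of a measurable function -/
private theorem Init_tail {N : ℕ} (ρ : Measure (E N)) [IsProbabilityMeasure ρ] (f : E N → ℝ)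
    (hf : Measurable f) (ε : ℝ) (hε : 0 < ε) : ∃ n : ℕ, ρ.real {x | (n : ℝ) < f x} ≤ ε := by
  have h1 : Filter.Tendsto (ρ ∘ fun n : ℕ => {x | (n : ℝ) < f x}) Filter.atTop
      (nhds (ρ (⋂ n : ℕ, {x | (n : ℝ) < f x}))) := by
    apply tendsto_measure_iInter_atTop
    · intro n
      exact (measurableSet_lt measurable_const hf).nullMeasurableSet
    · intro a b hab x hx
      have h0 : (a : ℝ) ≤ b := by exact_mod_cast hab
      exact lt_of_le_of_lt h0 hx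
    · exact ⟨0, measure_ne_top _ _⟩
  have h2 : (⋂ n : ℕ, {x | (n : ℝ) < f x}) = ∅ := by
    ext x
    simp only [Set.mem_iInter, Set.mem_setOf_eq, Set.mem_empty_iff_false, iff_false, not_forall,
      not_lt]
    exact exists_nat_ge (f x)
  rw [h2, measure_empty] at h1
  have h3 : ∀ᶠ n in Filter.atTop, (ρ ∘ fun n : ℕ => {x | (n : ℝ) < f x}) n < ENNReal.ofReal ε :=
    (tendsto_order.1 h1).2 _ (ENNReal.ofReal_pos.mpr hε)
  obtain ⟨n, hn⟩ := h3.exists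
  exact ⟨n, ENNReal.toReal_le_of_le_ofReal hε.le hn.le⟩

private theorem Init_small {N : ℕ} (ρ : Measure (E N)) [IsProbabilityMeasure ρ] (hρ : ρ {0} = 0)
    (s1 : ℝ) (hs1 : 0 < s1) (ε : ℝ) (hε : 0 < ε) :
    ∃ s : ℝ, 0 < s ∧ s ≤ s1 ∧ ρ.real {x | ‖x‖ < s} ≤ ε := by
  obtain ⟨n, hn⟩ := Init_tail ρ (fun x => ‖x‖⁻¹) measurable_norm.inv ε hε
  have hn0 : (0 : ℝ) < (n : ℝ) + 1 := by positivity
  refine ⟨min s1 (1 / ((n : ℝ) + 1)), lt_min hs1 (by positivity), min_le_left _ _, ?_⟩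
  have hsub : {x : E N | ‖x‖ < min s1 (1 / ((n : ℝ) + 1))} ⊆ {x | (n : ℝ) < ‖x‖⁻¹} ∪ {0} := by
    intro x hx
    by_cases h0 : x = 0
    · right
      exact h0
    · left
      have hx1 : 0 < ‖x‖ := norm_pos_iff.2 h0
      have hx2 : ‖x‖ < 1 / ((n : ℝ) + 1) := lt_of_lt_of_le hx (min_le_right _ _)
      rw [lt_div_iff₀ hn0] at hx2
      change (n : ℝ) < ‖x‖⁻¹
      rw [← one_div, lt_div_iff₀ hx1]
      nlinarith
  have h0 : ρ.real {(0 : E N)} = 0 := by rw [Measure.real, hρ]; rfl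
  calc ρ.real {x : E N | ‖x‖ < min s1 (1 / ((n : ℝ) + 1))}
      ≤ ρ.real ({x | (n : ℝ) < ‖x‖⁻¹} ∪ {0}) := measureReal_mono hsub
    _ ≤ ρ.real {x | (n : ℝ) < ‖x‖⁻¹} + ρ.real {(0 : E N)} := measureReal_union_le _ _
    _ ≤ ε := by rw [h0, add_zero]; exact hn

private theorem Init_cyl {N : ℕ} {ι : Type} [Fintype ι] (ρ : Measure (E N))
    [IsProbabilityMeasure ρ] (B : Set (E N)) (J : Finset ι) :
    (Measure.pi (fun _ : ι => ρ)).real {G | ∀ j ∈ J, G j ∈ B} = ρ.real B ^ J.card := by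
  classical
  have h1 : {G : ι → E N | ∀ j ∈ J, G j ∈ B} =
      Set.pi Set.univ (fun i => if i ∈ J then B else Set.univ) := by
    ext G
    simp only [Set.mem_setOf_eq, Set.mem_pi, Set.mem_univ, true_imp_iff]
    refine forall_congr' fun j => ?_
    by_cases hj : j ∈ J
    · simp [hj]
    · simp [hj]
  rw [h1, Measure.real, Measure.pi_pi]
  have h2 : ∀ i, ρ (if i ∈ J then B else Set.univ) = if i ∈ J then ρ B else 1 := by
    intro i
    split_ifs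
    · rfl
    · exact measure_univ
  rw [Finset.prod_congr rfl (fun i _ => h2 i), Finset.prod_ite_mem, Finset.univ_inter,
    Finset.prod_const, ENNReal.toReal_pow]
  rfl

private theorem Init_rp {M a h : ℝ} (hM : 0 < M) (ha : 0 < a) (hh : 0 < h)
    (h1 : h < M ^ (-(1 / a))) : M ≤ h ^ (-a) := by
  have h2 : (M ^ (-(1 / a))) ^ (-a) ≤ h ^ (-a) :=
    (Real.rpow_le_rpow_iff_of_neg (Real.rpow_pos_of_pos hM _) hh (by linarith)).2 h1.le
  rw [← Real.rpow_mul hM.le] at h2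
  have h3 : -(1 / a) * -a = 1 := by field_simp
  rwa [h3, Real.rpow_one] at h2

private theorem Init_rad (β : ℝ) (hβ : 1 < β) (R : ℝ) :
    ∃ h0 : ℝ, 0 < h0 ∧ ∀ h, 0 < h → h < h0 → R ≤ rad β h := by
  have hM : 0 < max R 1 := lt_of_lt_of_le one_pos (le_max_right _ _)
  have hβ0 : 0 < β := by linarith
  refine ⟨min (max R 1 ^ (-(1 / (1 / 8)) : ℝ)) (max R 1 ^ (-(1 / (1 / (4 * β))) : ℝ)),
    lt_min (Real.rpow_pos_of_pos hM _) (Real.rpow_pos_of_pos hM _), ?_⟩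
  intro h hh hh0
  have h1 := Init_rp hM (by norm_num : (0 : ℝ) < 1 / 8) hh (lt_of_lt_of_le hh0 (min_le_left _ _))
  have h2 := Init_rp hM (by positivity : (0 : ℝ) < 1 / (4 * β)) hh
    (lt_of_lt_of_le hh0 (min_le_right _ _))
  exact (le_max_left R 1).trans (le_min h1 h2)

private theorem Init_l1 {d L : ℕ} (z : boxS d L) : l1 (z : Fin d → ℤ) 0 ≤ d * L := by
  have hz := Finset.mem_Icc.1 z.2
  unfold l1
  calc ∑ i, ((z : Fin d → ℤ) i - (0 : Fin d → ℤ) i).natAbs ≤ ∑ _i : Fin d, L := by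
        apply Finset.sum_le_sum
        intro i _
        have a1 : -(L : ℤ) ≤ z.1 i := hz.1 i
        have a2 : z.1 i ≤ (L : ℤ) := hz.2 i
        rw [Pi.zero_apply]
        omega
    _ = d * L := by simp

private theorem Init_J {d : ℕ} (hd : 1 ≤ d) (L n : ℕ) (hn : n ≤ L) (z : boxS d L) :
    ∃ J : Finset (boxS d L), J.card = n + 1 ∧
      ∀ w ∈ J, l1 (z : Fin d → ℤ) (w : Fin d → ℤ) ≤ n := by
  classical
  have hz := Finset.mem_Icc.1 z.2
  let i0 : Fin d := ⟨0, hd⟩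
  have a1 : -(L : ℤ) ≤ z.1 i0 := hz.1 i0
  have a2 : z.1 i0 ≤ (L : ℤ) := hz.2 i0
  obtain ⟨σ, hσ, hσ2⟩ : ∃ σ : ℤ, (σ = 1 ∨ σ = -1) ∧ ∀ j : ℕ, j ≤ L →
      -(L : ℤ) ≤ z.1 i0 + σ * j ∧ z.1 i0 + σ * j ≤ L := by
    by_cases h : 0 ≤ z.1 i0
    · exact ⟨-1, Or.inr rfl, fun j hj => ⟨by omega, by omega⟩⟩
    · exact ⟨1, Or.inl rfl, fun j hj => ⟨by omega, by omega⟩⟩
  have hmem : ∀ j : Fin (n + 1), Function.update z.1 i0 (z.1 i0 + σ * (j : ℕ)) ∈ boxS d L := by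
    intro j
    have hj : (j : ℕ) ≤ L := by have := j.2; omega
    obtain ⟨b1, b2⟩ := hσ2 j hj
    refine Finset.mem_Icc.2 ⟨?_, ?_⟩
    · intro i
      by_cases hi : i = i0
      · rw [hi, Function.update_self]
        exact b1
      · rw [Function.update_of_ne hi]
        exact hz.1 i
    · intro i
      by_cases hi : i = i0
      · rw [hi, Function.update_self]
        exact b2
      · rw [Function.update_of_ne hi]
        exact hz.2 i
  refine ⟨(Finset.univ : Finset (Fin (n + 1))).image (fun j => ⟨_, hmem j⟩), ?_, ?_⟩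
  · rw [Finset.card_image_of_injective, Finset.card_univ, Fintype.card_fin]
    intro j j' hjj
    have h1 := congrArg (fun w : boxS d L => w.1 i0) hjj
    simp only [Function.update_self] at h1
    apply Fin.ext
    rcases hσ with h | h
    · rw [h] at h1
      omega
    · rw [h] at h1
      omega
  · intro w hw
    rw [Finset.mem_image] at hw
    obtain ⟨j, _, rfl⟩ := hw
    unfold l1
    rw [Finset.sum_eq_single i0]
    · simp only [Function.update_self]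
      have := j.2
      rcases hσ with h | h
      · rw [h]
        omega
      · rw [h]
        omega
    · intro i _ hi
      simp only [Function.update_of_ne hi, sub_self, Int.natAbs_zero]
    · intro h
      exact absurd (Finset.mem_univ _) h

private theorem Init_num (d : ℕ) (C δ : ℝ) (hC : 0 < C) (hδ : 0 < δ) : ∃ K : ℝ, 0 < K ∧
    ∀ t n : ℕ, K * (1 + Real.log (1 + (t : ℝ))) ≤ n →
      (1 / 2 : ℝ) ^ n ≤ δ / (2 * C) * (1 / (1 + (t : ℝ)) ^ (d + 1)) := by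
  have hl2 : 0 < Real.log 2 := Real.log_pos (by norm_num)
  refine ⟨((d : ℝ) + 1 + |Real.log (2 * C / δ)|) / Real.log 2, by positivity, ?_⟩
  intro t n hn
  have ht : (0 : ℝ) < 1 + (t : ℝ) := by positivity
  have hlt : 0 ≤ Real.log (1 + (t : ℝ)) :=
    Real.log_nonneg (by have : (0 : ℝ) ≤ t := Nat.cast_nonneg _
                        linarith)
  rw [div_mul_eq_mul_div, div_le_iff₀ hl2] at hn
  have h1 : (1 / 2 : ℝ) ^ n = Real.exp (-((n : ℝ) * Real.log 2)) := by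
    rw [Real.exp_neg, Real.exp_nat_mul, Real.exp_log (by norm_num), one_div, inv_pow]
  have h2 : δ / (2 * C) * (1 / (1 + (t : ℝ)) ^ (d + 1)) =
      Real.exp (-(Real.log (2 * C / δ)) - ((d : ℝ) + 1) * Real.log (1 + (t : ℝ))) := by
    rw [Real.exp_sub, Real.exp_neg, Real.exp_log (by positivity)]
    have h3 : Real.exp (((d : ℝ) + 1) * Real.log (1 + (t : ℝ))) = (1 + (t : ℝ)) ^ (d + 1) := by
      have h4 : ((d : ℝ) + 1) = ((d + 1 : ℕ) : ℝ) := by push_cast; rfl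
      rw [h4, Real.exp_nat_mul, Real.exp_log ht]
    rw [h3, inv_div]
    ring
  rw [h1, h2]
  apply Real.exp_le_exp.mpr
  have h5 : Real.log (2 * C / δ) ≤ |Real.log (2 * C / δ)| := le_abs_self _
  have h6 : 0 ≤ |Real.log (2 * C / δ)| * Real.log (1 + (t : ℝ)) := mul_nonneg (abs_nonneg _) hlt
  have h7 : (0 : ℝ) ≤ d := Nat.cast_nonneg _
  nlinarith

private theorem Init_len (d : ℕ) (K : ℝ) (hK : 0 < K) : ∃ L0 : ℕ, ∀ L, L0 ≤ L → ∀ t : ℕ,
    t ≤ d * L → ⌈K * (1 + Real.log (1 + (t : ℝ)))⌉₊ ≤ L := by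
  refine ⟨⌈(K * (3 + 2 * d)) ^ 2⌉₊ + 1, ?_⟩
  intro L hL t ht
  rw [Nat.ceil_le]
  have hL1 : (1 : ℝ) ≤ L := by
    have : 1 ≤ L := by omega
    exact_mod_cast this
  have hL2 : (K * (3 + 2 * d)) ^ 2 ≤ (L : ℝ) := by
    have h1 : (⌈(K * (3 + 2 * d)) ^ 2⌉₊ : ℝ) ≤ L := by
      have : ⌈(K * (3 + 2 * d)) ^ 2⌉₊ ≤ L := by omega
      exact_mod_cast this
    exact (Nat.le_ceil _).trans h1
  have hd0 : (0 : ℝ) ≤ d := Nat.cast_nonneg _
  have hs1 : 1 ≤ Real.sqrt L := by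
    rw [Real.one_le_sqrt]
    exact hL1
  have hs2 : K * (3 + 2 * d) ≤ Real.sqrt L := Real.le_sqrt_of_sq_le hL2
  have hss : Real.sqrt L * Real.sqrt L = L := Real.mul_self_sqrt (by linarith)
  have htr : (t : ℝ) ≤ d * L := by exact_mod_cast ht
  have ht0 : (0 : ℝ) ≤ t := Nat.cast_nonneg _
  have h1 : Real.log (1 + (t : ℝ)) ≤ 2 * Real.sqrt (1 + (t : ℝ)) := by
    have h2 : 0 < Real.sqrt (1 + (t : ℝ)) := Real.sqrt_pos.mpr (by linarith)
    have h3 := Real.log_le_sub_one_of_pos h2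
    have h4 : Real.log (1 + (t : ℝ)) = 2 * Real.log (Real.sqrt (1 + (t : ℝ))) := by
      rw [Real.log_sqrt (by linarith)]
      ring
    rw [h4]
    linarith
  have h2 : Real.sqrt (1 + (t : ℝ)) ≤ (1 + d) * Real.sqrt L := by
    rw [Real.sqrt_le_left (by positivity)]
    have h3 : ((1 + d) * Real.sqrt L) ^ 2 = (1 + (d : ℝ)) ^ 2 * L := by
      rw [mul_pow, pow_two (Real.sqrt L), hss]
    rw [h3]
    nlinarith
  have h3 : 1 + Real.log (1 + (t : ℝ)) ≤ (3 + 2 * d) * Real.sqrt L := by nlinarith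
  calc K * (1 + Real.log (1 + (t : ℝ))) ≤ K * ((3 + 2 * d) * Real.sqrt L) :=
        mul_le_mul_of_nonneg_left h3 hK.le
    _ = (K * (3 + 2 * d)) * Real.sqrt L := by ring
    _ ≤ Real.sqrt L * Real.sqrt L := mul_le_mul_of_nonneg_right hs2 (Real.sqrt_nonneg _)
    _ = L := hss

private theorem Init_V (m K κ s A S : ℝ) (hm : 0 < m) (hκ : 0 < κ) (hκ1 : κ ≤ 1)
    (hs : 0 < s) (t n : ℕ) (hn : (n : ℝ) ≤ K * (1 + Real.log (1 + (t : ℝ))) + 1)
    (hS : κ ^ (2 * (n + 1)) * s ^ 2 / 200 ≤ S) :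
    Real.exp (-(m / 2) * (Real.log S + 2 * Real.log A)) ≤
      Real.exp (m / 2 * (2 * (K + 2) * (-Real.log κ) - 2 * Real.log s + Real.log 200
        - 2 * Real.log A)) * (1 + (t : ℝ)) ^ (m * K * (-Real.log κ)) := by
  have ht : (0 : ℝ) < 1 + (t : ℝ) := by positivity
  rw [Real.rpow_def_of_pos ht, ← Real.exp_add]
  apply Real.exp_le_exp.mpr
  have h1 : Real.log (κ ^ (2 * (n + 1)) * s ^ 2 / 200) ≤ Real.log S :=
    Real.log_le_log (by positivity) hS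
  have h2 : Real.log (κ ^ (2 * (n + 1)) * s ^ 2 / 200) =
      2 * ((n : ℝ) + 1) * Real.log κ + 2 * Real.log s - Real.log 200 := by
    rw [Real.log_div (by positivity) (by norm_num), Real.log_mul (by positivity) (by positivity),
      Real.log_pow, Real.log_pow]
    push_cast
    ring
  rw [h2] at h1
  have h3 : 0 ≤ -Real.log κ := by
    have := Real.log_nonpos hκ.le hκ1
    linarith
  have h4 : (n : ℝ) * (-Real.log κ) ≤ (K * (1 + Real.log (1 + (t : ℝ))) + 1) * (-Real.log κ) :=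
    mul_le_mul_of_nonneg_right hn h3
  have h5 : -(Real.log S) ≤ 2 * (K * (1 + Real.log (1 + (t : ℝ))) + 2) * (-Real.log κ)
      - 2 * Real.log s + Real.log 200 := by linarith
  have h6 := mul_le_mul_of_nonneg_left h5 (by positivity : 0 ≤ m / 2)
  nlinarith

theorem init_pos {N d : ℕ} {β D0 : ℝ} (hd : 1 ≤ d) (hβ : 1 < β) (Bs : Base N d β D0) (m : ℝ)
    (hm : 0 < m) (k : ℝ) (hk : 0 < k) (hk0 : k ≤ Bs.k0) (ρ : Measure (E N)) [IsProbabilityMeasure ρ]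
    (hρ : ρ {0} = 0) (δ : ℝ) (hδ : 0 < δ) :
    ∃ (Cq q : ℝ) (L0 : ℕ), 0 < Cq ∧ 0 ≤ q ∧ ∀ L, L0 ≤ L → ∃ h0 : ℝ, 0 < h0 ∧
      ∀ (h : ℝ) (ν : Measure (E N)), 0 < h → h < h0 → IsNoise h ν →
      ∀ y : ℝ → ℝ, IsCorr N β h ν Bs.δ Bs.Cy y →
      (Measure.pi (fun _ : boxS d L => ρ)).real
        {G | ¬ (∀ z : boxS d L, Vs Bs m (boxNet d L) k y G z ≤
          Cq * (1 + (l1 (z : Fin d → ℤ) 0 : ℝ)) ^ q)} ≤ δ := by
  classical
  have hA0 : 0 < Bs.A := by linarith [Bs.hA]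
  have hκ : 0 < Bs.A * k := mul_pos hA0 hk
  have hκ1 : Bs.A * k ≤ 1 := by
    have h1 := Bs.hk01
    have h2 : Bs.A * k ≤ Bs.A * Bs.k0 := mul_le_mul_of_nonneg_left hk0 hA0.le
    linarith
  obtain ⟨C, hC0, hC⟩ := box_poly d 0 le_rfl
  obtain ⟨K, hK, hKn⟩ := Init_num d C δ hC0 hδ
  obtain ⟨L0, hL0⟩ := Init_len d K hK
  obtain ⟨s, hs, hsA, hsρ⟩ := Init_small ρ hρ (1 / (2 * Bs.A)) (by positivity) (1 / 2)
    (by norm_num)
  have hlog : 0 ≤ -Real.log (Bs.A * k) := by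
    have := Real.log_nonpos hκ.le hκ1
    linarith
  refine ⟨Real.exp (m / 2 * (2 * (K + 2) * (-Real.log (Bs.A * k)) - 2 * Real.log s + Real.log 200
        - 2 * Real.log Bs.A)), m * K * (-Real.log (Bs.A * k)), L0, Real.exp_pos _,
        by positivity, ?_⟩
  intro L hL
  obtain ⟨h1, h1p, hlsb⟩ := Bs.lsb k hk.le hk0 (boxS d L) (boxNet d L)
  obtain ⟨R, hR⟩ := Init_tail ρ (fun x => ‖x‖) measurable_norm
    (δ / 2 / ((Fintype.card (boxS d L) : ℝ) + 1)) (by positivity)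
  obtain ⟨h2, h2p, hrad⟩ := Init_rad β hβ (R : ℝ)
  refine ⟨min h1 h2, lt_min h1p h2p, ?_⟩
  intro h ν hh hh0 hν y hy
  choose J hJc hJd using fun z : boxS d L =>
    Init_J hd L ⌈K * (1 + Real.log (1 + (l1 (z : Fin d → ℤ) 0 : ℝ)))⌉₊
      (hL0 L hL _ (Init_l1 z)) z
  have hsub : {G : boxS d L → E N | ¬ (∀ z : boxS d L, Vs Bs m (boxNet d L) k y G z ≤
          Real.exp (m / 2 * (2 * (K + 2) * (-Real.log (Bs.A * k)) - 2 * Real.log s
            + Real.log 200 - 2 * Real.log Bs.A)) * (1 + (l1 (z : Fin d → ℤ) 0 : ℝ)) ^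
              (m * K * (-Real.log (Bs.A * k))))} ⊆
      (⋃ z, {G | ∀ j ∈ J z, G j ∈ {x | ‖x‖ < s}}) ∪
      (⋃ z, {G | ∀ j ∈ ({z} : Finset (boxS d L)), G j ∈ {x | (R : ℝ) < ‖x‖}}) := by
    intro G hG
    by_contra hc
    apply hG
    rw [Set.mem_union, not_or] at hc
    obtain ⟨hc1, hc2⟩ := hc
    simp only [Set.mem_iUnion, not_exists] at hc1 hc2
    intro z
    have hR2 : ∀ x, ‖G x‖ ≤ 2 * rad β h := by
      intro x
      have h3 := hc2 x
      simp only [Finset.mem_singleton, forall_eq, Set.mem_setOf_eq, not_lt] at h3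
      have h4 := hrad h hh (lt_of_lt_of_le hh0 (min_le_right _ _))
      have h5 : (0 : ℝ) ≤ R := Nat.cast_nonneg _
      linarith
    have H := hlsb h ν hh (lt_of_lt_of_le hh0 (min_le_left _ _)) hν y hy G hR2
    have hz := hc1 z
    simp only [Set.mem_setOf_eq, not_forall, not_lt] at hz
    obtain ⟨w, hw, hws⟩ := hz
    have hS := (ls_S_low H z w).2.1 s hs.le hsA hws
    have hdw : (boxNet d L).dist z w ≤
        ⌈K * (1 + Real.log (1 + (l1 (z : Fin d → ℤ) 0 : ℝ)))⌉₊ := by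
      rw [boxNet_dist]
      exact hJd z w hw
    have hS2 : (Bs.A * k) ^ (2 * (⌈K * (1 + Real.log (1 + (l1 (z : Fin d → ℤ) 0 : ℝ)))⌉₊ + 1)) *
        s ^ 2 / 200 ≤ SS (boxNet d L) β k Bs.A Bs.Rc (Bs.Ct * Real.sqrt k) y G z := by
      refine le_trans ?_ hS
      have h3 : (Bs.A * k) ^ (2 * (⌈K * (1 + Real.log (1 + (l1 (z : Fin d → ℤ) 0 : ℝ)))⌉₊ + 1)) ≤
          (Bs.A * k) ^ (2 * ((boxNet d L).dist z w + 1)) :=
        pow_le_pow_of_le_one hκ.le hκ1 (by omega)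
      have h4 := mul_le_mul_of_nonneg_right h3 (sq_nonneg s)
      linarith
    have hceil : (⌈K * (1 + Real.log (1 + (l1 (z : Fin d → ℤ) 0 : ℝ)))⌉₊ : ℝ) ≤
        K * (1 + Real.log (1 + (l1 (z : Fin d → ℤ) 0 : ℝ))) + 1 := by
      apply (Nat.ceil_lt_add_one _).le
      have h5 : 0 ≤ Real.log (1 + (l1 (z : Fin d → ℤ) 0 : ℝ)) :=
        Real.log_nonneg (by have : (0 : ℝ) ≤ (l1 (z : Fin d → ℤ) 0 : ℝ) := Nat.cast_nonneg _
                            linarith)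
      positivity
    exact Init_V m K (Bs.A * k) s Bs.A _ hm hκ hκ1 hs _ _ hceil hS2
  refine le_trans (measureReal_mono hsub) ?_
  refine le_trans (measureReal_union_le _ _) ?_
  have hb1 : (Measure.pi (fun _ : boxS d L => ρ)).real
      (⋃ z, {G | ∀ j ∈ J z, G j ∈ {x | ‖x‖ < s}}) ≤ δ / 2 := by
    refine le_trans (measureReal_iUnion_fintype_le _) ?_
    have h3 : ∀ z : boxS d L, (Measure.pi (fun _ : boxS d L => ρ)).real
        {G | ∀ j ∈ J z, G j ∈ {x | ‖x‖ < s}} ≤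
        δ / (2 * C) * (1 / (1 + (l1 (z : Fin d → ℤ) 0 : ℝ)) ^ (d + 1)) := by
      intro z
      rw [Init_cyl, hJc z]
      refine le_trans ?_ (hKn (l1 (z : Fin d → ℤ) 0) _ (Nat.le_ceil _))
      calc ρ.real {x | ‖x‖ < s} ^
            (⌈K * (1 + Real.log (1 + (l1 (z : Fin d → ℤ) 0 : ℝ)))⌉₊ + 1)
          ≤ (1 / 2 : ℝ) ^ (⌈K * (1 + Real.log (1 + (l1 (z : Fin d → ℤ) 0 : ℝ)))⌉₊ + 1) :=
            pow_le_pow_left₀ measureReal_nonneg hsρ _
        _ ≤ _ := pow_le_pow_of_le_one (by norm_num) (by norm_num) (Nat.le_succ _)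
    refine le_trans (Finset.sum_le_sum fun z _ => h3 z) ?_
    rw [← Finset.mul_sum]
    have h0 : (0 : Fin d → ℤ) ∈ boxS d L := by
      exact Finset.mem_Icc.2 ⟨fun i => by simp, fun i => by simp⟩
    have h4 := (hC L 0 h0).2
    have h5 : ∑ z : boxS d L, 1 / (1 + (l1 (z : Fin d → ℤ) 0 : ℝ)) ^ (d + 1) ≤ C := by
      rw [← Finset.sum_coe_sort (boxS d L)] at h4
      exact h4
    calc δ / (2 * C) * ∑ z : boxS d L, 1 / (1 + (l1 (z : Fin d → ℤ) 0 : ℝ)) ^ (d + 1)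
        ≤ δ / (2 * C) * C := mul_le_mul_of_nonneg_left h5 (by positivity)
      _ = δ / 2 := by field_simp
  have hb2 : (Measure.pi (fun _ : boxS d L => ρ)).real
      (⋃ z, {G | ∀ j ∈ ({z} : Finset (boxS d L)), G j ∈ {x | (R : ℝ) < ‖x‖}}) ≤ δ / 2 := by
    refine le_trans (measureReal_iUnion_fintype_le _) ?_
    have h3 : ∀ z : boxS d L, (Measure.pi (fun _ : boxS d L => ρ)).real
        {G | ∀ j ∈ ({z} : Finset (boxS d L)), G j ∈ {x | (R : ℝ) < ‖x‖}} ≤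
        δ / 2 / ((Fintype.card (boxS d L) : ℝ) + 1) := by
      intro z
      rw [Init_cyl, Finset.card_singleton, pow_one]
      exact hR
    refine le_trans (Finset.sum_le_sum fun z _ => h3 z) ?_
    rw [Finset.sum_const, nsmul_eq_mul, Finset.card_univ]
    have h6 : (0 : ℝ) ≤ (Fintype.card (boxS d L) : ℝ) := Nat.cast_nonneg _
    rw [mul_div_assoc', div_le_iff₀ (by positivity)]
    nlinarith
  linarith

theorem init_zero {N d : ℕ} {β D0 : ℝ} (hβ : 1 < β) (Bs : Base N d β D0) (m : ℝ)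
    (hm : 0 < m) (ρ : Measure (E N)) [IsProbabilityMeasure ρ]
    (hρ : ρ {0} = 0) (δ : ℝ) (hδ : 0 < δ) (L : ℕ) :
    ∃ Cq : ℝ, 0 < Cq ∧ ∃ h0 : ℝ, 0 < h0 ∧
      ∀ (h : ℝ) (ν : Measure (E N)), 0 < h → h < h0 → IsNoise h ν →
      ∀ y : ℝ → ℝ, IsCorr N β h ν Bs.δ Bs.Cy y →
      (Measure.pi (fun _ : boxS d L => ρ)).real
        {G | ¬ (∀ z : boxS d L, Vs Bs m (boxNet d L) 0 y G z ≤ Cq)} ≤ δ := by
  classical
  have hA0 : 0 < Bs.A := by linarith [Bs.hA]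
  obtain ⟨s, hs, hsA, hsρ⟩ := Init_small ρ hρ (1 / (2 * Bs.A)) (by positivity)
    (δ / 2 / ((Fintype.card (boxS d L) : ℝ) + 1)) (by positivity)
  refine ⟨Real.exp (-(m / 2) * (Real.log (s ^ 2 / 200) + 2 * Real.log Bs.A)), Real.exp_pos _, ?_⟩
  obtain ⟨h1, h1p, hlsb⟩ := Bs.lsb 0 le_rfl Bs.hk0.le (boxS d L) (boxNet d L)
  obtain ⟨R, hR⟩ := Init_tail ρ (fun x => ‖x‖) measurable_norm
    (δ / 2 / ((Fintype.card (boxS d L) : ℝ) + 1)) (by positivity)
  obtain ⟨h2, h2p, hrad⟩ := Init_rad β hβ (R : ℝ)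
  refine ⟨min h1 h2, lt_min h1p h2p, ?_⟩
  intro h ν hh hh0 hν y hy
  have hsub : {G : boxS d L → E N | ¬ (∀ z : boxS d L, Vs Bs m (boxNet d L) 0 y G z ≤
          Real.exp (-(m / 2) * (Real.log (s ^ 2 / 200) + 2 * Real.log Bs.A)))} ⊆
      (⋃ z, {G | ∀ j ∈ ({z} : Finset (boxS d L)), G j ∈ {x | ‖x‖ < s}}) ∪
      (⋃ z, {G | ∀ j ∈ ({z} : Finset (boxS d L)), G j ∈ {x | (R : ℝ) < ‖x‖}}) := by
    intro G hG
    by_contra hc
    apply hG
    rw [Set.mem_union, not_or] at hc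
    obtain ⟨hc1, hc2⟩ := hc
    simp only [Set.mem_iUnion, not_exists] at hc1 hc2
    intro z
    have hR2 : ∀ x, ‖G x‖ ≤ 2 * rad β h := by
      intro x
      have h3 := hc2 x
      simp only [Finset.mem_singleton, forall_eq, Set.mem_setOf_eq, not_lt] at h3
      have h4 := hrad h hh (lt_of_lt_of_le hh0 (min_le_right _ _))
      have h5 : (0 : ℝ) ≤ R := Nat.cast_nonneg _
      linarith
    have H := hlsb h ν hh (lt_of_lt_of_le hh0 (min_le_left _ _)) hν y hy G hR2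
    have hz := hc1 z
    simp only [Finset.mem_singleton, forall_eq, Set.mem_setOf_eq, not_lt] at hz
    have hS := (ls_S_low H z z).2.2 s hs.le hsA hz rfl
    unfold Vs VV
    apply Real.exp_le_exp.mpr
    have h5 := Real.log_le_log (by positivity) hS
    have h6 : 0 < m / 2 := by positivity
    nlinarith
  refine le_trans (measureReal_mono hsub) ?_
  refine le_trans (measureReal_union_le _ _) ?_
  have hb : ∀ B : Set (E N), ρ.real B ≤ δ / 2 / ((Fintype.card (boxS d L) : ℝ) + 1) →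
      (Measure.pi (fun _ : boxS d L => ρ)).real
      (⋃ z, {G | ∀ j ∈ ({z} : Finset (boxS d L)), G j ∈ B}) ≤ δ / 2 := by
    intro B hB
    refine le_trans (measureReal_iUnion_fintype_le _) ?_
    have h3 : ∀ z : boxS d L, (Measure.pi (fun _ : boxS d L => ρ)).real
        {G | ∀ j ∈ ({z} : Finset (boxS d L)), G j ∈ B} ≤
        δ / 2 / ((Fintype.card (boxS d L) : ℝ) + 1) := by
      intro z
      rw [Init_cyl, Finset.card_singleton, pow_one]
      exact hB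
    refine le_trans (Finset.sum_le_sum fun z _ => h3 z) ?_
    rw [Finset.sum_const, nsmul_eq_mul, Finset.card_univ]
    have h6 : (0 : ℝ) ≤ (Fintype.card (boxS d L) : ℝ) := Nat.cast_nonneg _
    rw [mul_div_assoc', div_le_iff₀ (by positivity)]
    nlinarith
  have h7 := hb _ hsρ
  have h8 := hb _ hR
  linarith

theorem init_nz {N d : ℕ} (k : ℝ) (hk : 0 ≤ k) (ρ : Measure (E N)) [IsProbabilityMeasure ρ]
    (hρ : ρ {0} = 0) (L : ℕ) :
    ∀ᵐ G ∂(Measure.pi (fun _ : boxS d L => ρ)), Nz k G := by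
  have h1 : ∀ᵐ x ∂ρ, x ≠ (0 : E N) := by
    rw [ae_iff]
    simpa using hρ
  have h2 : ∀ᵐ G ∂(Measure.pi (fun _ : boxS d L => ρ)), ∀ z, G z ≠ 0 := by
    rw [ae_all_iff]
    intro z
    exact (measurePreserving_eval (fun _ : boxS d L => ρ) z).quasiMeasurePreserving.ae h1
  filter_upwards [h2] with G hG
  exact Or.inl hG

end Dyn
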