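import Pool.Agent.Lib_MP_36b788.PathM

/-!
# PATHEX: probability of leaving the alive region

PROOF. `f(G) = 1+Σ‖G x‖²`; one step: `‖stp_x‖ ≤ ‖ĝ_x‖ + kh‖coup_x‖`, `(a+b)² ≤ (1+h)a²+(1+1/h)b²`,
`∫‖hat g ξ‖² ≤ ∫‖g+√h‖g‖ξ‖² ≤ (1+Nh)‖g‖²` (`‖J v‖ ≤ ‖v‖`: norm_J and Psi, mean zero), `Σ‖coup_x‖² ≤ C_d Σ‖G x‖²`
(`‖coup_x‖² ≤ (4d+1)(Σ_{w~x}‖G w‖²+4d²‖G x‖²)`, and `Σ_xΣ_{w~x}‖G w‖² ≤ 2dΣ‖G w‖²` by `nb_symm`, `nb_card`); so
`∫ f(stp G ξ) ≤ (1+Ch) f(G)`, `C` depending on `N, d` only (`k ≤ 1`, `h ≤ 1`). Under `pim` each coordinate has law `ν`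
(`measurePreserving_eval`). Induction on `n`: if `G` is not alive, some `‖G x‖ > rad ≥ 1`, so `f(G)/rad² ≥ 1`.
-/

open MeasureTheory ProbabilityTheory

namespace Dyn

private theorem PathEx_coup {N d : ℕ} {ι : Type} [Fintype ι] (net : Net ι d) (G : ι → E N) (x : ι) :
    ‖coup net G x‖ ^ 2 ≤ 4 * d * ∑ w ∈ net.nb x, ‖G w‖ ^ 2 + 8 * (d : ℝ) ^ 2 * ‖G x‖ ^ 2 := by
  have h1 : ‖coup net G x‖ ≤ ∑ w ∈ net.nb x, ‖G w‖ + 2 * d * ‖G x‖ := by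
    unfold coup
    refine (norm_sub_le _ _).trans (add_le_add (norm_sum_le _ _) (le_of_eq ?_))
    rw [norm_smul, Real.norm_eq_abs, abs_of_nonneg (Nat.cast_nonneg _)]
    push_cast
    ring
  have h2 : (∑ w ∈ net.nb x, ‖G w‖) ^ 2 ≤ 2 * d * ∑ w ∈ net.nb x, ‖G w‖ ^ 2 := by
    refine sq_sum_le_card_mul_sum_sq.trans ?_
    refine mul_le_mul_of_nonneg_right ?_ (Finset.sum_nonneg fun w _ => sq_nonneg _)
    exact_mod_cast net.nb_card x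
  have h3 : ‖coup net G x‖ ^ 2 ≤ (∑ w ∈ net.nb x, ‖G w‖ + 2 * d * ‖G x‖) ^ 2 :=
    pow_le_pow_left₀ (norm_nonneg _) h1 2
  nlinarith [sq_nonneg (∑ w ∈ net.nb x, ‖G w‖ - 2 * d * ‖G x‖)]

private theorem PathEx_sum_nb {N d : ℕ} {ι : Type} [Fintype ι] (net : Net ι d) (G : ι → E N) :
    ∑ x, ∑ w ∈ net.nb x, ‖G w‖ ^ 2 ≤ 2 * d * ∑ x, ‖G x‖ ^ 2 := by
  classical
  have h1 : ∑ x, ∑ w ∈ net.nb x, ‖G w‖ ^ 2 = ∑ w, ∑ x ∈ net.nb w, ‖G w‖ ^ 2 := by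
    refine Finset.sum_comm' ?_
    intro x w
    simp only [Finset.mem_univ, true_and, and_true]
    exact ⟨net.nb_symm x w, net.nb_symm w x⟩
  rw [h1, Finset.mul_sum]
  refine Finset.sum_le_sum fun w _ => ?_
  rw [Finset.sum_const, nsmul_eq_mul]
  refine mul_le_mul_of_nonneg_right ?_ (sq_nonneg _)
  exact_mod_cast net.nb_card w

private theorem PathEx_sum_coup {N d : ℕ} {ι : Type} [Fintype ι] (net : Net ι d) (G : ι → E N) :
    ∑ x, ‖coup net G x‖ ^ 2 ≤ 16 * (d : ℝ) ^ 2 * ∑ x, ‖G x‖ ^ 2 := by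
  have h1 : ∑ x, ‖coup net G x‖ ^ 2 ≤
      ∑ x, (4 * d * ∑ w ∈ net.nb x, ‖G w‖ ^ 2 + 8 * (d : ℝ) ^ 2 * ‖G x‖ ^ 2) :=
    Finset.sum_le_sum fun x _ => PathEx_coup net G x
  rw [Finset.sum_add_distrib, ← Finset.mul_sum, ← Finset.mul_sum] at h1
  have h2 := mul_le_mul_of_nonneg_left (PathEx_sum_nb net G) (by positivity : (0 : ℝ) ≤ 4 * d)
  nlinarith

private theorem PathEx_site {N : ℕ} {β h k : ℝ} (hβ : 0 < β) (hh : 0 < h) (hh1 : h ≤ 1) (hk : 0 ≤ k)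
    (hk1 : k ≤ 1) (g ξ c : E N) :
    ‖hat β h g ξ + (k * h) • c‖ ^ 2 ≤
      (1 + h) * (‖g‖ ^ 2 + 2 * (Real.sqrt h * ‖g‖) * inner ℝ g ξ + h * ‖g‖ ^ 2 * ‖ξ‖ ^ 2) +
        2 * h * ‖c‖ ^ 2 := by
  have h1 : ‖hat β h g ξ‖ ^ 2 ≤
      ‖g‖ ^ 2 + 2 * (Real.sqrt h * ‖g‖) * inner ℝ g ξ + h * ‖g‖ ^ 2 * ‖ξ‖ ^ 2 := by
    have h2 : ‖hat β h g ξ‖ ≤ ‖g + (Real.sqrt h * ‖g‖) • ξ‖ := by
      unfold hat
      rw [norm_J hβ hh.le]
      exact psi_le hβ hh.le (norm_nonneg _)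
    have h3 := pow_le_pow_left₀ (norm_nonneg _) h2 2
    refine h3.trans (le_of_eq ?_)
    rw [norm_add_sq_real, real_inner_smul_right, norm_smul, Real.norm_eq_abs, mul_pow, sq_abs,
      mul_pow, Real.sq_sqrt hh.le]
    ring
  set a := ‖hat β h g ξ‖ with ha
  have ha0 : 0 ≤ a := norm_nonneg _
  have h4 : ‖hat β h g ξ + (k * h) • c‖ ≤ a + h * ‖c‖ := by
    refine (norm_add_le _ _).trans (add_le_add le_rfl ?_)
    rw [norm_smul, Real.norm_eq_abs, abs_of_nonneg (mul_nonneg hk hh.le)]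
    refine mul_le_mul_of_nonneg_right ?_ (norm_nonneg _)
    nlinarith
  have h5 : ‖hat β h g ξ + (k * h) • c‖ ^ 2 ≤ (a + h * ‖c‖) ^ 2 :=
    pow_le_pow_left₀ (norm_nonneg _) h4 2
  have h6 : (a + h * ‖c‖) ^ 2 ≤ (1 + h) * a ^ 2 + 2 * h * ‖c‖ ^ 2 := by
    have h7 : (a + h * ‖c‖) ^ 2 + h * (a - ‖c‖) ^ 2 = (1 + h) * a ^ 2 + (h + h * h) * ‖c‖ ^ 2 := by
      ring
    have h8 : h * h ≤ h := by nlinarith
    have h9 : (h + h * h) * ‖c‖ ^ 2 ≤ 2 * h * ‖c‖ ^ 2 :=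
      mul_le_mul_of_nonneg_right (by linarith) (sq_nonneg _)
    have h10 : 0 ≤ h * (a - ‖c‖) ^ 2 := mul_nonneg hh.le (sq_nonneg _)
    linarith
  have h11 := mul_le_mul_of_nonneg_left h1 (by linarith : (0 : ℝ) ≤ 1 + h)
  linarith

private theorem PathEx_step {N d : ℕ} {ι : Type} [Fintype ι] (net : Net ι d) {β h k : ℝ}
    {ν : Measure (E N)} (hβ : 0 < β) (hh : 0 < h) (hh1 : h ≤ 1) (hk : 0 ≤ k) (hk1 : k ≤ 1)
    (hν : Noise2 ν) (G : ι → E N) :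
    Integrable (fun ξ : ι → E N => 1 + ∑ x, ‖stp net β h k G ξ x‖ ^ 2) (pim ι ν) ∧
      ∫ ξ, (1 + ∑ x, ‖stp net β h k G ξ x‖ ^ 2) ∂(pim ι ν) ≤
        (1 + (2 * N + 1 + 32 * (d : ℝ) ^ 2) * h) * (1 + ∑ x, ‖G x‖ ^ 2) := by
  have := hν.prob
  have hp : IsProbabilityMeasure (pim ι ν) := by
    unfold pim
    infer_instance
  have hint1 : Integrable (fun ξ : E N => ξ) ν := by
    refine Integrable.mono' ((integrable_const (1 : ℝ)).add hν.int) aestronglyMeasurable_id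
      (Filter.Eventually.of_forall fun ξ => ?_)
    simp only [Pi.add_apply]
    nlinarith [sq_nonneg (‖ξ‖ - 1), norm_nonneg ξ]
  have hmp : ∀ x : ι, MeasurePreserving (Function.eval x) (pim ι ν) ν := fun x =>
    measurePreserving_eval (fun _ => ν) x
  -- the bounding function of one site
  have key : ∀ x : ι, Integrable (fun ξ : ι → E N => ‖stp net β h k G ξ x‖ ^ 2) (pim ι ν) ∧
      ∫ ξ, ‖stp net β h k G ξ x‖ ^ 2 ∂(pim ι ν) ≤
        (1 + (2 * N + 1) * h) * ‖G x‖ ^ 2 + 2 * h * ‖coup net G x‖ ^ 2 := by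
    intro x
    set φ : E N → ℝ := fun ξ => (1 + h) * (‖G x‖ ^ 2 + 2 * (Real.sqrt h * ‖G x‖) * inner ℝ (G x) ξ +
      h * ‖G x‖ ^ 2 * ‖ξ‖ ^ 2) + 2 * h * ‖coup net G x‖ ^ 2 with hφ
    have i1 : Integrable (fun ξ : E N => (inner ℝ (G x) ξ : ℝ)) ν := hint1.const_inner (G x)
    have i2 : Integrable (fun ξ : E N => ‖G x‖ ^ 2 + 2 * (Real.sqrt h * ‖G x‖) * inner ℝ (G x) ξ +
      h * ‖G x‖ ^ 2 * ‖ξ‖ ^ 2) ν :=
      ((integrable_const _).add (i1.const_mul _)).add (hν.int.const_mul _)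
    have hφi : Integrable φ ν := (i2.const_mul _).add (integrable_const _)
    have hφv : ∫ ξ, φ ξ ∂ν = (1 + h) * (‖G x‖ ^ 2 + h * ‖G x‖ ^ 2 * ∫ ξ, ‖ξ‖ ^ 2 ∂ν) +
        2 * h * ‖coup net G x‖ ^ 2 := by
      have j1 : Integrable (fun ξ : E N => ‖G x‖ ^ 2 +
          2 * (Real.sqrt h * ‖G x‖) * (inner ℝ (G x) ξ : ℝ)) ν :=
        (integrable_const _).add (i1.const_mul _)
      have j2 : Integrable (fun ξ : E N => h * ‖G x‖ ^ 2 * ‖ξ‖ ^ 2) ν := hν.int.const_mul _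
      have e1 : ∫ ξ, φ ξ ∂ν = ∫ ξ : E N, (1 + h) * (‖G x‖ ^ 2 +
          2 * (Real.sqrt h * ‖G x‖) * (inner ℝ (G x) ξ : ℝ) + h * ‖G x‖ ^ 2 * ‖ξ‖ ^ 2) ∂ν +
          ∫ ξ : E N, 2 * h * ‖coup net G x‖ ^ 2 ∂ν :=
        integral_add (i2.const_mul (1 + h)) (integrable_const _)
      have e2 : ∫ ξ : E N, (‖G x‖ ^ 2 + 2 * (Real.sqrt h * ‖G x‖) * (inner ℝ (G x) ξ : ℝ) +
          h * ‖G x‖ ^ 2 * ‖ξ‖ ^ 2) ∂ν = ∫ ξ : E N, (‖G x‖ ^ 2 +
          2 * (Real.sqrt h * ‖G x‖) * (inner ℝ (G x) ξ : ℝ)) ∂ν +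
          ∫ ξ : E N, h * ‖G x‖ ^ 2 * ‖ξ‖ ^ 2 ∂ν := integral_add j1 j2
      have e3 : ∫ ξ : E N, (‖G x‖ ^ 2 +
          2 * (Real.sqrt h * ‖G x‖) * (inner ℝ (G x) ξ : ℝ)) ∂ν = ∫ ξ : E N, ‖G x‖ ^ 2 ∂ν +
          ∫ ξ : E N, 2 * (Real.sqrt h * ‖G x‖) * (inner ℝ (G x) ξ : ℝ) ∂ν :=
        integral_add (integrable_const _) (i1.const_mul _)
      have e4 : ∫ ξ : E N, (inner ℝ (G x) ξ : ℝ) ∂ν = 0 := by
        rw [integral_inner hint1, hν.mean, inner_zero_right]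
      rw [e1, integral_const_mul, e2, e3, integral_const_mul, integral_const_mul, e4]
      simp
    have hφp : Integrable (fun ξ : ι → E N => φ (ξ x)) (pim ι ν) := by
      have h1 := (hmp x).integrable_comp hφi.aestronglyMeasurable
      exact h1.2 hφi
    have hφe : ∫ ξ, φ (ξ x) ∂(pim ι ν) = ∫ ξ, φ ξ ∂ν := by
      have h1 := integral_map (μ := pim ι ν) (hmp x).aemeasurable (f := φ)
        (by rw [(hmp x).map_eq]; exact hφi.aestronglyMeasurable)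
      rw [(hmp x).map_eq] at h1
      exact h1.symm
    have hle : ∀ ξ : ι → E N, ‖stp net β h k G ξ x‖ ^ 2 ≤ φ (ξ x) := fun ξ =>
      PathEx_site hβ hh hh1 hk hk1 (G x) (ξ x) (coup net G x)
    have hcont : Continuous (fun ξ : ι → E N => ‖stp net β h k G ξ x‖ ^ 2) := by
      have h1 := (stp_continuous (N := N) hβ hh.le k net).comp
        (Continuous.prodMk (continuous_const (y := G)) continuous_id)
      exact (((continuous_apply x).comp h1).norm).pow 2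
    have hi : Integrable (fun ξ : ι → E N => ‖stp net β h k G ξ x‖ ^ 2) (pim ι ν) := by
      refine Integrable.mono' hφp hcont.aestronglyMeasurable
        (Filter.Eventually.of_forall fun ξ => ?_)
      rw [Real.norm_eq_abs, abs_of_nonneg (sq_nonneg _)]
      exact hle ξ
    refine ⟨hi, (integral_mono hi hφp hle).trans ?_⟩
    rw [hφe, hφv]
    refine add_le_add ?_ le_rfl
    have h1 : ‖G x‖ ^ 2 + h * ‖G x‖ ^ 2 * ∫ ξ, ‖ξ‖ ^ 2 ∂ν ≤ (1 + N * h) * ‖G x‖ ^ 2 := by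
      have h2 := mul_le_mul_of_nonneg_left hν.mom (mul_nonneg hh.le (sq_nonneg ‖G x‖))
      linarith
    refine (mul_le_mul_of_nonneg_left h1 (by linarith : (0 : ℝ) ≤ 1 + h)).trans ?_
    rw [← mul_assoc]
    refine mul_le_mul_of_nonneg_right ?_ (sq_nonneg _)
    have h3 : (N : ℝ) * (h * h) ≤ N * h :=
      mul_le_mul_of_nonneg_left (by nlinarith) (Nat.cast_nonneg N)
    nlinarith
  have hsum : Integrable (fun ξ : ι → E N => ∑ x, ‖stp net β h k G ξ x‖ ^ 2) (pim ι ν) :=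
    integrable_finsetSum _ fun x _ => (key x).1
  refine ⟨(integrable_const _).add hsum, ?_⟩
  rw [integral_add (integrable_const _) hsum, integral_finsetSum _ fun x _ => (key x).1]
  have h1 : ∑ x, ∫ ξ, ‖stp net β h k G ξ x‖ ^ 2 ∂(pim ι ν) ≤
      ∑ x, ((1 + (2 * N + 1) * h) * ‖G x‖ ^ 2 + 2 * h * ‖coup net G x‖ ^ 2) :=
    Finset.sum_le_sum fun x _ => (key x).2
  rw [Finset.sum_add_distrib, ← Finset.mul_sum, ← Finset.mul_sum] at h1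
  have h2 := mul_le_mul_of_nonneg_left (PathEx_sum_coup net G) (by linarith : (0 : ℝ) ≤ 2 * h)
  have h3 : ∫ ξ : ι → E N, (1 : ℝ) ∂(pim ι ν) = 1 := by simp
  rw [h3]
  have h4 : 0 ≤ (2 * N + 1 + 32 * (d : ℝ) ^ 2) * h := by positivity
  nlinarith

private theorem PathEx_ind {N d : ℕ} {ι : Type} [Fintype ι] (net : Net ι d) {β h k : ℝ}
    {ν : Measure (E N)} (hβ : 0 < β) (hh : 0 < h) (hh1 : h ≤ 1) (hk : 0 ≤ k) (hk1 : k ≤ 1)
    (hν : Noise2 ν) (F : (ι → E N) → ℝ) (hm : Measurable F) (hb : ∀ G, 0 ≤ F G ∧ F G ≤ 1)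
    (c : ℝ) (hc : 0 ≤ c) (hF : ∀ G, F G ≤ c * (1 + ∑ x, ‖G x‖ ^ 2)) (G : ι → E N) :
    ∫ ξ, F (stp net β h k G ξ) ∂(pim ι ν) ≤
      c * ((1 + (2 * N + 1 + 32 * (d : ℝ) ^ 2) * h) * (1 + ∑ x, ‖G x‖ ^ 2)) := by
  have := hν.prob
  have hp : IsProbabilityMeasure (pim ι ν) := by
    unfold pim
    infer_instance
  obtain ⟨s1, s2⟩ := PathEx_step net hβ hh hh1 hk hk1 hν G
  have hcont : Continuous (fun ξ : ι → E N => stp net β h k G ξ) := by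
    have h0 := stp_continuous (N := N) hβ hh.le k net
    have h1 : Continuous (fun ξ : ι → E N => (G, ξ)) := by fun_prop
    have h2 := h0.comp h1
    simp only [Function.comp_def] at h2
    exact h2
  have hi : Integrable (fun ξ : ι → E N => F (stp net β h k G ξ)) (pim ι ν) := by
    have h1 : Measurable (fun ξ : ι → E N => F (stp net β h k G ξ)) := hm.comp hcont.measurable
    refine Integrable.mono' (integrable_const (1 : ℝ)) h1.aestronglyMeasurable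
      (Filter.Eventually.of_forall fun ξ => ?_)
    rw [Real.norm_eq_abs, abs_of_nonneg (hb _).1]
    exact (hb _).2
  have h2 : ∫ ξ, F (stp net β h k G ξ) ∂(pim ι ν) ≤
      ∫ ξ, c * (1 + ∑ x, ‖stp net β h k G ξ x‖ ^ 2) ∂(pim ι ν) :=
    integral_mono hi (s1.const_mul c) fun ξ => hF _
  rw [integral_const_mul] at h2
  exact h2.trans (mul_le_mul_of_nonneg_left s2 hc)

theorem exit_bound (N d : ℕ) : ∃ C : ℝ, 0 < C ∧
    ∀ {ι : Type} [Fintype ι] (net : Net ι d) (β h k : ℝ) (ν : Measure (E N)), 0 < β → 0 < h → h ≤ 1 →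
      0 ≤ k → k ≤ 1 → Noise2 ν → ∀ (n : ℕ) (G : ι → E N),
      exitE net β h k ν n G ≤ (1 + C * h) ^ n * (1 + ∑ x, ‖G x‖ ^ 2) / rad β h ^ 2 := by
  refine ⟨2 * N + 1 + 32 * (d : ℝ) ^ 2, by positivity, ?_⟩
  intro ι _ net β h k ν hβ hh hh1 hk hk1 hν n
  have := hν.prob
  have hp : IsProbabilityMeasure (pim ι ν) := by
    unfold pim
    infer_instance
  set C : ℝ := 2 * N + 1 + 32 * (d : ℝ) ^ 2 with hC
  have hC0 : 0 < C := by positivity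
  have hrad : 0 < rad β h := lt_min (Real.rpow_pos_of_pos hh _) (Real.rpow_pos_of_pos hh _)
  have hr2 : 0 < rad β h ^ 2 := by positivity
  have hf0 : ∀ G : ι → E N, 1 ≤ 1 + ∑ x, ‖G x‖ ^ 2 := fun G => by
    have : 0 ≤ ∑ x, ‖G x‖ ^ 2 := Finset.sum_nonneg fun x _ => sq_nonneg _
    linarith
  have h1C : 1 ≤ 1 + C * h := by
    have := mul_pos hC0 hh
    linarith
  induction n with
  | zero =>
    intro G
    have h1 := hf0 G
    simp only [exitE, pow_zero, one_mul]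
    positivity
  | succ n ih =>
    intro G
    have h1 := hf0 G
    rw [exitE]
    split_ifs with hal
    · have hm := (exitE_facts (net := net) (k := k) hβ hh.le (ν := ν) n)
      have hF : ∀ G : ι → E N, exitE net β h k ν n G ≤
          (1 + C * h) ^ n / rad β h ^ 2 * (1 + ∑ x, ‖G x‖ ^ 2) := by
        intro G
        have h5 := ih G
        rw [mul_div_right_comm] at h5
        exact h5
      have h3 := PathEx_ind net hβ hh hh1 hk hk1 hν _ hm.1 hm.2 _ (by positivity) hF G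
      refine h3.trans (le_of_eq ?_)
      rw [pow_succ]
      ring
    · push Not at hal
      obtain ⟨x, hx⟩ := hal
      rw [le_div_iff₀ hr2, one_mul]
      have h2 : rad β h ^ 2 ≤ ‖G x‖ ^ 2 := pow_le_pow_left₀ hrad.le hx.le 2
      have h3 : ‖G x‖ ^ 2 ≤ ∑ x, ‖G x‖ ^ 2 :=
        Finset.single_le_sum (f := fun x => ‖G x‖ ^ 2) (fun y _ => sq_nonneg _) (Finset.mem_univ x)
      have h4 : 1 ≤ (1 + C * h) ^ (n + 1) := one_le_pow₀ h1C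
      nlinarith

end Dyn
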