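import Pool.Agent.Lib_MP_36b788.Defs

/-!
# NMOM: moments of an isotropic bounded noise

`IsNoise h ν`: `ν` probability, invariant under linear isometries, `√h ‖ξ‖ ≤ h^(3/8)` a.e.,
`N(1-h) ≤ ∫‖ξ‖² ≤ N`.

PROOF. Every integrand is bounded a.e. (`0 < h`), so integrable.
* `int_comp`: `∫ F (L ξ) = ∫ F ξ` from `ν.map L = ν` (`integral_map`, `L` is a homeomorphism so the
   identity `MeasurableEmbedding.integral_map` holds for every `F`).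
* mean zero and odd moments: `L = -id`.
* `∫⟪a,ξ⟫² = ‖a‖² v`: by a rotation taking `a/‖a‖` to any other unit vector the value depends only on
  `‖a‖`; sum over an orthonormal basis gives `N v = ∫‖ξ‖²`. Polarisation gives the bilinear form.
* `proj`: sum over an orthonormal basis of `K`.
* axis symmetry about a unit vector `e`: `L u = 2⟪e,u⟫e - u` (reflection in the line `ℝ e`) is an
  isometry with `⟪e,Lu⟫ = ⟪e,u⟫`, `‖Lu‖ = ‖u‖`; so for `F` a function of `(⟪e,ξ⟫,‖ξ‖)`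
  `∫ F • ξ = ∫ F • Lξ`, i.e. `∫ F•(ξ - ⟪e,ξ⟫e) = 0`.
* `axis_sq`: for `a ⟂ e`, `∫ F ⟪a,ξ⟫² = ‖a‖²/(N-1) ∫ F (‖ξ‖² - ⟪e,ξ⟫²)`: isometries fixing `e` act
  transitively on the unit sphere of `e^⊥` (for unit `a, a' ⟂ e` use the reflection in the hyperplane
  orthogonal to `a-a'`, which fixes `e`), then sum over an orthonormal basis of `e^⊥`.
-/

open MeasureTheory

namespace Dyn

variable {N : ℕ} {h : ℝ} {ν : Measure (E N)}

/-- continuous functions are integrable -/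
private theorem NMom_int (hh : 0 < h) (hν : IsNoise h ν) {F : Type*} [NormedAddCommGroup F]
    [SecondCountableTopologyEither (E N) F] {f : E N → F} (hf : Continuous f) :
    Integrable f ν := by
  have := hν.prob
  obtain ⟨C, hC⟩ := (isCompact_closedBall (0 : E N) (h ^ (3 / 8 : ℝ) / Real.sqrt h)).exists_bound_of_continuousOn
    hf.continuousOn
  refine Integrable.of_bound hf.aestronglyMeasurable C ?_
  filter_upwards [hν.bdd] with ξ hξ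
  refine hC ξ ?_
  rw [mem_closedBall_zero_iff, le_div_iff₀ (Real.sqrt_pos.mpr hh), mul_comm]
  exact hξ

theorem noise_int_comp (hν : IsNoise h ν) (L : E N ≃ₗᵢ[ℝ] E N) {F : Type*}
    [NormedAddCommGroup F] [NormedSpace ℝ F] (f : E N → F) :
    ∫ ξ, f (L ξ) ∂ν = ∫ ξ, f ξ ∂ν := by
  have h1 := L.toHomeomorph.measurableEmbedding.integral_map (μ := ν) f
  have h2 : Measure.map (L.toHomeomorph) ν = ν := hν.iso L
  rw [h2] at h1
  exact h1.symm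

private theorem NMom_inner (L : E N ≃ₗᵢ[ℝ] E N) {x y : E N} (hxy : L x = y) (ξ : E N) :
    inner ℝ y (L ξ) = inner ℝ x ξ := by
  rw [← hxy, L.inner_map_map]

theorem noise_mean (hh : 0 < h) (hν : IsNoise h ν) (a : E N) : ∫ ξ, inner ℝ a ξ ∂ν = 0 := by
  have h1 := noise_int_comp hν (LinearIsometryEquiv.neg ℝ) (fun ξ => inner ℝ a ξ)
  simp only [LinearIsometryEquiv.coe_neg, inner_neg_right, integral_neg] at h1
  linarith

theorem noise_mean_vec (hh : 0 < h) (hν : IsNoise h ν) : ∫ ξ, ξ ∂ν = 0 := by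
  have h1 := noise_int_comp hν (LinearIsometryEquiv.neg ℝ) (fun ξ => ξ)
  simp only [LinearIsometryEquiv.coe_neg] at h1
  rw [integral_neg] at h1
  have h2 : (2 : ℝ) • ∫ ξ, ξ ∂ν = (2 : ℝ) • (0 : E N) := by
    rw [smul_zero, two_smul]
    nth_rw 1 [← h1]
    exact neg_add_cancel _
  exact smul_right_injective (E N) (two_ne_zero : (2 : ℝ) ≠ 0) h2

theorem noise_odd3 (hh : 0 < h) (hν : IsNoise h ν) (a : E N) :
    ∫ ξ, inner ℝ a ξ * ‖ξ‖ ^ 2 ∂ν = 0 := by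
  have h1 := noise_int_comp hν (LinearIsometryEquiv.neg ℝ) (fun ξ => inner ℝ a ξ * ‖ξ‖ ^ 2)
  simp only [LinearIsometryEquiv.coe_neg, inner_neg_right, norm_neg, neg_mul, integral_neg] at h1
  linarith

/-- the second moments of two vectors of the same length are equal -/
private theorem NMom_sq_eq (hν : IsNoise h ν) {a b : E N} (hab : ‖a‖ = ‖b‖) :
    ∫ ξ, (inner ℝ a ξ) ^ 2 ∂ν = ∫ ξ, (inner ℝ b ξ) ^ 2 ∂ν := by
  have h1 := noise_int_comp hν (Submodule.reflection (ℝ ∙ (a - b))ᗮ) (fun ξ => (inner ℝ b ξ) ^ 2)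
  rw [← h1]
  have h2 := Submodule.reflection_sub hab
  refine integral_congr_ae (Filter.Eventually.of_forall (fun ξ => ?_))
  show (inner ℝ a ξ) ^ 2 = (inner ℝ b ((Submodule.reflection (ℝ ∙ (a - b))ᗮ) ξ)) ^ 2
  rw [NMom_inner _ h2]

theorem noise_sq (hh : 0 < h) (hN : 1 ≤ N) (hν : IsNoise h ν) (a : E N) :
    ∫ ξ, (inner ℝ a ξ) ^ 2 ∂ν = ‖a‖ ^ 2 * ((∫ ξ, ‖ξ‖ ^ 2 ∂ν) / N) := by
  have hN0 : (0 : ℝ) < N := by exact_mod_cast hN
  let b := EuclideanSpace.basisFun (Fin N) ℝ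
  have h1 : ∀ i, ∫ ξ, (inner ℝ a ξ) ^ 2 ∂ν = ‖a‖ ^ 2 * ∫ ξ, (inner ℝ (b i) ξ) ^ 2 ∂ν := by
    intro i
    have h2 : ‖a‖ = ‖‖a‖ • b i‖ := by
      rw [norm_smul, b.norm_eq_one, mul_one, norm_norm]
    rw [NMom_sq_eq hν h2, ← integral_const_mul]
    refine integral_congr_ae (Filter.Eventually.of_forall (fun ξ => ?_))
    show (inner ℝ (‖a‖ • b i) ξ) ^ 2 = ‖a‖ ^ 2 * (inner ℝ (b i) ξ) ^ 2
    rw [real_inner_smul_left]
    ring
  have h3 : (N : ℝ) * ∫ ξ, (inner ℝ a ξ) ^ 2 ∂ν = ‖a‖ ^ 2 * ∫ ξ, ‖ξ‖ ^ 2 ∂ν := by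
    calc (N : ℝ) * ∫ ξ, (inner ℝ a ξ) ^ 2 ∂ν = ∑ _i : Fin N, ∫ ξ, (inner ℝ a ξ) ^ 2 ∂ν := by
          rw [Finset.sum_const, Finset.card_univ, Fintype.card_fin, nsmul_eq_mul]
      _ = ∑ i : Fin N, ‖a‖ ^ 2 * ∫ ξ, (inner ℝ (b i) ξ) ^ 2 ∂ν :=
          Finset.sum_congr rfl (fun i _ => h1 i)
      _ = ‖a‖ ^ 2 * ∑ i : Fin N, ∫ ξ, (inner ℝ (b i) ξ) ^ 2 ∂ν := by rw [Finset.mul_sum]
      _ = ‖a‖ ^ 2 * ∫ ξ, ∑ i : Fin N, (inner ℝ (b i) ξ) ^ 2 ∂ν := by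
          rw [integral_finsetSum]
          exact fun i _ => NMom_int hh hν (by fun_prop)
      _ = ‖a‖ ^ 2 * ∫ ξ, ‖ξ‖ ^ 2 ∂ν := by
          congr 2
          funext ξ
          exact b.sum_sq_inner_right ξ
  rw [mul_div_assoc', eq_div_iff hN0.ne']
  linarith

theorem noise_bilin (hh : 0 < h) (hN : 1 ≤ N) (hν : IsNoise h ν) (a b : E N) :
    ∫ ξ, inner ℝ a ξ * inner ℝ b ξ ∂ν = inner ℝ a b * ((∫ ξ, ‖ξ‖ ^ 2 ∂ν) / N) := by
  have h1 := noise_sq hh hN hν (a + b)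
  have h2 := noise_sq hh hN hν (a - b)
  have h3 : ∫ ξ, inner ℝ a ξ * inner ℝ b ξ ∂ν =
      (1 / 4) * (∫ ξ, (inner ℝ (a + b) ξ) ^ 2 ∂ν - ∫ ξ, (inner ℝ (a - b) ξ) ^ 2 ∂ν) := by
    rw [← integral_sub (NMom_int hh hν (by fun_prop)) (NMom_int hh hν (by fun_prop)),
      ← integral_const_mul]
    refine integral_congr_ae (Filter.Eventually.of_forall (fun ξ => ?_))
    show inner ℝ a ξ * inner ℝ b ξ =
      (1 / 4) * ((inner ℝ (a + b) ξ) ^ 2 - (inner ℝ (a - b) ξ) ^ 2)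
    rw [inner_add_left, inner_sub_left]
    ring
  have h4 : (inner ℝ a b : ℝ) = (1 / 4) * (‖a + b‖ ^ 2 - ‖a - b‖ ^ 2) := by
    rw [norm_add_sq_real, norm_sub_sq_real]
    ring
  rw [h3, h1, h2, h4]
  ring

private theorem NMom_proj_sum (K : Submodule ℝ (E N)) (ξ : E N) :
    ∑ i, (inner ℝ ((stdOrthonormalBasis ℝ K i : K) : E N) ξ) ^ 2 = ‖K.starProjection ξ‖ ^ 2 := by
  have h1 := (stdOrthonormalBasis ℝ K).sum_sq_inner_right (K.orthogonalProjectionOnto ξ)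
  have h2 : ‖K.orthogonalProjectionOnto ξ‖ = ‖K.starProjection ξ‖ := rfl
  rw [h2] at h1
  rw [← h1]
  refine Finset.sum_congr rfl (fun i _ => ?_)
  rw [Submodule.inner_orthogonalProjectionOnto_eq_of_mem_left]

private theorem NMom_basis_norm (K : Submodule ℝ (E N)) (i : Fin (Module.finrank ℝ K)) :
    ‖((stdOrthonormalBasis ℝ K i : K) : E N)‖ = 1 :=
  (stdOrthonormalBasis ℝ K).norm_eq_one i

theorem noise_proj (hh : 0 < h) (hN : 1 ≤ N) (hν : IsNoise h ν) (K : Submodule ℝ (E N)) :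
    ∫ ξ, ‖K.starProjection ξ‖ ^ 2 ∂ν
      = (Module.finrank ℝ K : ℝ) * ((∫ ξ, ‖ξ‖ ^ 2 ∂ν) / N) := by
  have h1 : ∫ ξ, ‖K.starProjection ξ‖ ^ 2 ∂ν =
      ∫ ξ, ∑ i, (inner ℝ ((stdOrthonormalBasis ℝ K i : K) : E N) ξ) ^ 2 ∂ν :=
    integral_congr_ae (Filter.Eventually.of_forall (fun ξ => (NMom_proj_sum K ξ).symm))
  rw [h1, integral_finsetSum _ (fun i _ => NMom_int hh hν (by fun_prop))]
  have h2 : ∀ i ∈ (Finset.univ : Finset (Fin (Module.finrank ℝ K))),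
      ∫ ξ, (inner ℝ ((stdOrthonormalBasis ℝ K i : K) : E N) ξ) ^ 2 ∂ν =
        (∫ ξ, ‖ξ‖ ^ 2 ∂ν) / N := by
    intro i _
    rw [noise_sq hh hN hν, NMom_basis_norm, one_pow, one_mul]
  rw [Finset.sum_congr rfl h2, Finset.sum_const, Finset.card_univ, Fintype.card_fin,
    nsmul_eq_mul]

/-- axis symmetry, first moment -/
theorem noise_axis (hh : 0 < h) (hν : IsNoise h ν) (e : E N) (he : ‖e‖ = 1)
    (F : ℝ → ℝ → ℝ) (hF : Integrable (fun ξ : E N => F (inner ℝ e ξ) ‖ξ‖ • ξ) ν) :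
    ∫ ξ, F (inner ℝ e ξ) ‖ξ‖ • ξ ∂ν = (∫ ξ, F (inner ℝ e ξ) ‖ξ‖ * inner ℝ e ξ ∂ν) • e := by
  have h1 := noise_int_comp hν (Submodule.reflection (ℝ ∙ e))
    (fun ξ => F (inner ℝ e ξ) ‖ξ‖ • ξ)
  have hLe : Submodule.reflection (ℝ ∙ e) e = e :=
    Submodule.reflection_mem_subspace_eq_self (Submodule.mem_span_singleton_self e)
  have hLi : ∀ ξ, inner ℝ e (Submodule.reflection (ℝ ∙ e) ξ) = inner ℝ e ξ := by
    intro ξ
    exact NMom_inner _ hLe ξ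
  have hL : ∀ ξ, Submodule.reflection (ℝ ∙ e) ξ = (2 * inner ℝ e ξ) • e - ξ := by
    intro ξ
    rw [Submodule.reflection_apply, Submodule.starProjection_unit_singleton ℝ he, two_smul,
      ← add_smul, two_mul]
  have hFe : Integrable (fun ξ : E N => F (inner ℝ e ξ) ‖ξ‖ * inner ℝ e ξ) ν := by
    have h2 := hF.const_inner (𝕜 := ℝ) e
    refine h2.congr (Filter.Eventually.of_forall (fun ξ => ?_))
    show inner ℝ e (F (inner ℝ e ξ) ‖ξ‖ • ξ) = F (inner ℝ e ξ) ‖ξ‖ * inner ℝ e ξ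
    rw [real_inner_smul_right]
  have h3 : ∫ ξ, F (inner ℝ e (Submodule.reflection (ℝ ∙ e) ξ))
      ‖Submodule.reflection (ℝ ∙ e) ξ‖ • (Submodule.reflection (ℝ ∙ e) ξ) ∂ν =
      (2 : ℝ) • ((∫ ξ, F (inner ℝ e ξ) ‖ξ‖ * inner ℝ e ξ ∂ν) • e) -
        ∫ ξ, F (inner ℝ e ξ) ‖ξ‖ • ξ ∂ν := by
    rw [← integral_smul_const, ← integral_smul, ← integral_sub (by
      exact (hFe.smul_const e).smul (2 : ℝ)) hF]
    refine integral_congr_ae (Filter.Eventually.of_forall (fun ξ => ?_))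
    show F (inner ℝ e (Submodule.reflection (ℝ ∙ e) ξ))
      ‖Submodule.reflection (ℝ ∙ e) ξ‖ • (Submodule.reflection (ℝ ∙ e) ξ) =
      (2 : ℝ) • ((F (inner ℝ e ξ) ‖ξ‖ * inner ℝ e ξ) • e) - F (inner ℝ e ξ) ‖ξ‖ • ξ
    rw [hLi, LinearIsometryEquiv.norm_map, hL, smul_sub, smul_smul, smul_smul]
    congr 2
    ring
  rw [h3] at h1
  have h4 : (2 : ℝ) • ((∫ ξ, F (inner ℝ e ξ) ‖ξ‖ * inner ℝ e ξ ∂ν) • e) =
      (2 : ℝ) • ∫ ξ, F (inner ℝ e ξ) ‖ξ‖ • ξ ∂ν := by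
    rw [two_smul ℝ (∫ ξ, F (inner ℝ e ξ) ‖ξ‖ • ξ ∂ν)]
    exact sub_eq_iff_eq_add.mp h1
  exact (smul_right_injective (E N) (two_ne_zero : (2 : ℝ) ≠ 0) h4).symm

/-- functions dominated by `‖ξ‖²` are integrable against `F` -/
private theorem NMom_int2 (e : E N) (F : ℝ → ℝ → ℝ)
    (hF : Integrable (fun ξ : E N => F (inner ℝ e ξ) ‖ξ‖ * ‖ξ‖ ^ 2) ν) (g : E N → ℝ)
    (hg : Continuous g) (C : ℝ) (hC : ∀ ξ, |g ξ| ≤ C * ‖ξ‖ ^ 2) :
    Integrable (fun ξ : E N => F (inner ℝ e ξ) ‖ξ‖ * g ξ) ν := by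
  have hC0 : ∀ ξ : E N, |g ξ / ‖ξ‖ ^ 2| ≤ max C 0 := by
    intro ξ
    rcases eq_or_ne ξ 0 with h0 | h0
    · rw [h0, norm_zero, zero_pow two_ne_zero, div_zero, abs_zero]
      exact le_max_right _ _
    · have h1 : 0 < ‖ξ‖ ^ 2 := by positivity
      rw [abs_div, abs_of_pos h1, div_le_iff₀ h1]
      exact (hC ξ).trans (mul_le_mul_of_nonneg_right (le_max_left _ _) h1.le)
  have h2 : Integrable (fun ξ : E N => (F (inner ℝ e ξ) ‖ξ‖ * ‖ξ‖ ^ 2) * (g ξ / ‖ξ‖ ^ 2)) ν := by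
    refine Integrable.mul_bdd (c := max C 0) hF ?_ ?_
    · exact (hg.measurable.div (by fun_prop)).aestronglyMeasurable
    · refine Filter.Eventually.of_forall (fun ξ => ?_)
      rw [Real.norm_eq_abs]
      exact hC0 ξ
  refine h2.congr (Filter.Eventually.of_forall (fun ξ => ?_))
  show (F (inner ℝ e ξ) ‖ξ‖ * ‖ξ‖ ^ 2) * (g ξ / ‖ξ‖ ^ 2) = F (inner ℝ e ξ) ‖ξ‖ * g ξ
  rcases eq_or_ne ξ 0 with h0 | h0
  · have h3 : g 0 = 0 := by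
      have h4 := hC 0
      rw [norm_zero, zero_pow two_ne_zero, mul_zero] at h4
      exact abs_nonpos_iff.mp h4
    rw [h0, h3, norm_zero]
    ring
  · have h1 : ‖ξ‖ ^ 2 ≠ 0 := by positivity
    field_simp

private theorem NMom_axis_eq (hν : IsNoise h ν) (e : E N) (F : ℝ → ℝ → ℝ) {a b : E N}
    (hab : ‖a‖ = ‖b‖) (ha : inner ℝ a e = 0) (hb : inner ℝ b e = 0) :
    ∫ ξ, F (inner ℝ e ξ) ‖ξ‖ * (inner ℝ a ξ) ^ 2 ∂ν =
      ∫ ξ, F (inner ℝ e ξ) ‖ξ‖ * (inner ℝ b ξ) ^ 2 ∂ν := by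
  have h1 := noise_int_comp hν (Submodule.reflection (ℝ ∙ (a - b))ᗮ)
    (fun ξ => F (inner ℝ e ξ) ‖ξ‖ * (inner ℝ b ξ) ^ 2)
  rw [← h1]
  have h2 := Submodule.reflection_sub hab
  have h3 : Submodule.reflection (ℝ ∙ (a - b))ᗮ e = e := by
    refine Submodule.reflection_mem_subspace_eq_self ?_
    rw [Submodule.mem_orthogonal_singleton_iff_inner_right, inner_sub_left, ha, hb, sub_zero]
  refine integral_congr_ae (Filter.Eventually.of_forall (fun ξ => ?_))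
  show F (inner ℝ e ξ) ‖ξ‖ * (inner ℝ a ξ) ^ 2 =
    F (inner ℝ e ((Submodule.reflection (ℝ ∙ (a - b))ᗮ) ξ))
      ‖(Submodule.reflection (ℝ ∙ (a - b))ᗮ) ξ‖ *
      (inner ℝ b ((Submodule.reflection (ℝ ∙ (a - b))ᗮ) ξ)) ^ 2
  have h4 : inner ℝ e ((Submodule.reflection (ℝ ∙ (a - b))ᗮ) ξ) = inner ℝ e ξ :=
    NMom_inner _ h3 ξ
  have h5 : inner ℝ b ((Submodule.reflection (ℝ ∙ (a - b))ᗮ) ξ) = inner ℝ a ξ :=
    NMom_inner _ h2 ξ
  rw [h4, h5, LinearIsometryEquiv.norm_map]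

/-- axis symmetry, second moment -/
theorem noise_axis_sq (hh : 0 < h) (hN : 2 ≤ N) (hν : IsNoise h ν) (e : E N) (he : ‖e‖ = 1)
    (F : ℝ → ℝ → ℝ) (hF : Integrable (fun ξ : E N => F (inner ℝ e ξ) ‖ξ‖ * ‖ξ‖ ^ 2) ν)
    (a : E N) (hae : inner ℝ a e = 0) :
    ∫ ξ, F (inner ℝ e ξ) ‖ξ‖ * (inner ℝ a ξ) ^ 2 ∂ν
      = ‖a‖ ^ 2 / (N - 1) * ∫ ξ, F (inner ℝ e ξ) ‖ξ‖ * (‖ξ‖ ^ 2 - (inner ℝ e ξ) ^ 2) ∂ν := by
  have hN0 : (0 : ℝ) < (N : ℝ) - 1 := by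
    have : (2 : ℝ) ≤ N := by exact_mod_cast hN
    linarith
  have he0 : e ≠ 0 := by
    rintro rfl
    rw [norm_zero] at he
    exact zero_ne_one he
  have hdim : Module.finrank ℝ ((ℝ ∙ e)ᗮ : Submodule ℝ (E N)) = N - 1 := by
    have : Fact (Module.finrank ℝ (E N) = (N - 1) + 1) := ⟨by
      rw [finrank_euclideanSpace_fin]
      omega⟩
    exact Submodule.finrank_orthogonal_span_singleton he0
  have hperp : ∀ i, inner ℝ ((stdOrthonormalBasis ℝ ((ℝ ∙ e)ᗮ : Submodule ℝ (E N)) i :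
      ((ℝ ∙ e)ᗮ : Submodule ℝ (E N))) : E N) e = 0 := by
    intro i
    have h1 := (stdOrthonormalBasis ℝ ((ℝ ∙ e)ᗮ : Submodule ℝ (E N)) i).2
    rwa [Submodule.mem_orthogonal_singleton_iff_inner_left] at h1
  have h1 : ∀ i : Fin (Module.finrank ℝ ((ℝ ∙ e)ᗮ : Submodule ℝ (E N))),
      ∫ ξ, F (inner ℝ e ξ) ‖ξ‖ * (inner ℝ a ξ) ^ 2 ∂ν = ‖a‖ ^ 2 *
      ∫ ξ, F (inner ℝ e ξ) ‖ξ‖ * (inner ℝ ((stdOrthonormalBasis ℝ
        ((ℝ ∙ e)ᗮ : Submodule ℝ (E N)) i : ((ℝ ∙ e)ᗮ : Submodule ℝ (E N))) : E N) ξ) ^ 2 ∂ν := by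
    intro i
    have h2 : ‖a‖ = ‖‖a‖ • ((stdOrthonormalBasis ℝ ((ℝ ∙ e)ᗮ : Submodule ℝ (E N)) i :
        ((ℝ ∙ e)ᗮ : Submodule ℝ (E N))) : E N)‖ := by
      rw [norm_smul, NMom_basis_norm, mul_one, norm_norm]
    rw [NMom_axis_eq hν e F h2 hae (by rw [real_inner_smul_left, hperp, mul_zero]),
      ← integral_const_mul]
    refine integral_congr_ae (Filter.Eventually.of_forall (fun ξ => ?_))
    simp only
    rw [real_inner_smul_left]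
    ring
  have hint : ∀ b : E N, Integrable (fun ξ : E N => F (inner ℝ e ξ) ‖ξ‖ * (inner ℝ b ξ) ^ 2) ν := by
    intro b
    refine NMom_int2 e F hF (fun ξ => (inner ℝ b ξ) ^ 2) (by fun_prop) (‖b‖ ^ 2) (fun ξ => ?_)
    rw [abs_of_nonneg (sq_nonneg _), ← mul_pow, ← sq_abs]
    exact pow_le_pow_left₀ (abs_nonneg _) (abs_real_inner_le_norm b ξ) 2
  have h3 : ((N : ℝ) - 1) * ∫ ξ, F (inner ℝ e ξ) ‖ξ‖ * (inner ℝ a ξ) ^ 2 ∂ν =
      ‖a‖ ^ 2 * ∫ ξ, F (inner ℝ e ξ) ‖ξ‖ * (‖ξ‖ ^ 2 - (inner ℝ e ξ) ^ 2) ∂ν := by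
    calc ((N : ℝ) - 1) * ∫ ξ, F (inner ℝ e ξ) ‖ξ‖ * (inner ℝ a ξ) ^ 2 ∂ν
        = ∑ _i : Fin (Module.finrank ℝ ((ℝ ∙ e)ᗮ : Submodule ℝ (E N))),
            ∫ ξ, F (inner ℝ e ξ) ‖ξ‖ * (inner ℝ a ξ) ^ 2 ∂ν := by
          rw [Finset.sum_const, Finset.card_univ, Fintype.card_fin, nsmul_eq_mul, hdim,
            Nat.cast_sub (by omega), Nat.cast_one]
      _ = ∑ i : Fin (Module.finrank ℝ ((ℝ ∙ e)ᗮ : Submodule ℝ (E N))), ‖a‖ ^ 2 *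
            ∫ ξ, F (inner ℝ e ξ) ‖ξ‖ * (inner ℝ ((stdOrthonormalBasis ℝ
              ((ℝ ∙ e)ᗮ : Submodule ℝ (E N)) i : ((ℝ ∙ e)ᗮ : Submodule ℝ (E N))) : E N) ξ) ^ 2 ∂ν :=
          Finset.sum_congr rfl (fun i _ => h1 i)
      _ = ‖a‖ ^ 2 * ∫ ξ, ∑ i : Fin (Module.finrank ℝ ((ℝ ∙ e)ᗮ : Submodule ℝ (E N))),
            F (inner ℝ e ξ) ‖ξ‖ * (inner ℝ ((stdOrthonormalBasis ℝ
              ((ℝ ∙ e)ᗮ : Submodule ℝ (E N)) i : ((ℝ ∙ e)ᗮ : Submodule ℝ (E N))) : E N) ξ) ^ 2 ∂ν := by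
          rw [← Finset.mul_sum, integral_finsetSum _ (fun i _ => hint _)]
      _ = ‖a‖ ^ 2 * ∫ ξ, F (inner ℝ e ξ) ‖ξ‖ * (‖ξ‖ ^ 2 - (inner ℝ e ξ) ^ 2) ∂ν := by
          congr 2
          funext ξ
          rw [← Finset.mul_sum, NMom_proj_sum]
          have h5 := Submodule.norm_sq_eq_add_norm_sq_starProjection ξ (ℝ ∙ e)
          rw [Submodule.starProjection_unit_singleton ℝ he, norm_smul, he, mul_one,
            Real.norm_eq_abs, sq_abs] at h5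
          congr 1
          linarith
  rw [div_mul_eq_mul_div, eq_div_iff hN0.ne']
  linarith

/-- axis symmetry, mixed second moment -/
theorem noise_axis_mixed (hh : 0 < h) (hν : IsNoise h ν) (e : E N) (he : ‖e‖ = 1)
    (F : ℝ → ℝ → ℝ) (hF : Integrable (fun ξ : E N => F (inner ℝ e ξ) ‖ξ‖ * ‖ξ‖ ^ 2) ν)
    (a : E N) (hae : inner ℝ a e = 0) :
    ∫ ξ, F (inner ℝ e ξ) ‖ξ‖ * (inner ℝ a ξ * inner ℝ e ξ) ∂ν = 0 := by
  have h1 := noise_int_comp hν (Submodule.reflection (ℝ ∙ a)ᗮ)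
    (fun ξ => F (inner ℝ e ξ) ‖ξ‖ * (inner ℝ a ξ * inner ℝ e ξ))
  have h2 : Submodule.reflection (ℝ ∙ a)ᗮ a = -a :=
    Submodule.reflection_orthogonalComplement_singleton_eq_neg a
  have h3 : Submodule.reflection (ℝ ∙ a)ᗮ e = e := by
    refine Submodule.reflection_mem_subspace_eq_self ?_
    rw [Submodule.mem_orthogonal_singleton_iff_inner_right, hae]
  have h4 : ∀ ξ, inner ℝ e ((Submodule.reflection (ℝ ∙ a)ᗮ) ξ) = inner ℝ e ξ := by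
    intro ξ
    exact NMom_inner _ h3 ξ
  have h5 : ∀ ξ, inner ℝ a ((Submodule.reflection (ℝ ∙ a)ᗮ) ξ) = -inner ℝ a ξ := by
    intro ξ
    have h6 : Submodule.reflection (ℝ ∙ a)ᗮ (-a) = a := by
      rw [map_neg, h2, neg_neg]
    rw [NMom_inner _ h6 ξ, inner_neg_left]
  simp only [h4, h5, LinearIsometryEquiv.norm_map, neg_mul, mul_neg, integral_neg] at h1
  linarith

end Dyn
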