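import Pool.Agent.Lib_MP_36b788.PathM
import Pool.Agent.Lib_MP_36b788.NMom

/-!
# TRUNC: standard Gaussian and its truncation

PROOF. `γ = stdGaussian (E N)`, `φ(ξ) = ξ 1_{‖ξ‖ ≤ h^{-1/8}}`, `nuT = γ.map φ`. All moments of `γ` are finite (Gaussian, Fernique or
`IsGaussian.memLp_id`). `γ.map L = γ` for linear isometries (`stdGaussian_map`), `φ` commutes with isometries: `iso`.
`bdd`: `√h h^{-1/8} = h^{3/8}`. `mom_le`: `∫‖φ‖² ≤ ∫‖ξ‖² = N`. `le_mom`:
`∫‖ξ‖²1_{‖ξ‖>h^{-1/8}} ≤ h^{2}∫‖ξ‖^{18} ≤ N h` for small `h`. Tail: `≤ h²∫‖ξ‖^{16}` (Markov).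
`pathE_trunc`: induction on the list. One step: `pim ι (nuT) = (pim ι γ).map (φ on each coordinate)`, so
`|∫F(stp G ξ)d pim γ - ∫F(stp G ξ) d pim nuT| ≤ 2 γ^ι{∃x, ‖ξ_x‖ > h^{-1/8}} ≤ 2 card ι · tailG` for `‖F‖ ≤ 1`.
-/

open MeasureTheory ProbabilityTheory

namespace Dyn

section

variable {N : ℕ}

private theorem Trunc_pow (N n : ℕ) :
    Integrable (fun ξ : E N => ‖ξ‖ ^ n) (stdGaussian (E N)) := by
  have h := (IsGaussian.memLp_id (stdGaussian (E N)) (n : ENNReal) (by simp)).integrable_norm_pow'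
  exact h

private theorem Trunc_coord (i : Fin N) :
    ∫ ξ : E N, (ξ i) ^ 2 ∂(stdGaussian (E N)) = 1 := by
  have h1 := variance_dual_stdGaussian (E := E N) (EuclideanSpace.proj i : StrongDual ℝ (E N))
  have h2 := integral_strongDual_stdGaussian (E := E N) (EuclideanSpace.proj i : StrongDual ℝ (E N))
  rw [variance_of_integral_eq_zero (by fun_prop) h2] at h1
  have h3 : (EuclideanSpace.proj i : StrongDual ℝ (E N)) =
      innerSL ℝ (EuclideanSpace.single i (1:ℝ) : E N) := by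
    ext ξ
    rw [innerSL_apply_apply, EuclideanSpace.inner_single_left]
    simp
  have h4 : ‖(EuclideanSpace.proj i : StrongDual ℝ (E N))‖ = 1 := by
    rw [h3, innerSL_apply_norm]
    simp
  rw [h4, one_pow] at h1
  exact h1

private theorem Trunc_two : ∫ ξ : E N, ‖ξ‖ ^ 2 ∂(stdGaussian (E N)) = N := by
  have h1 : ∀ ξ : E N, ‖ξ‖ ^ 2 = ∑ i, (ξ i) ^ 2 := fun ξ => EuclideanSpace.real_norm_sq_eq ξ
  simp only [h1]
  rw [integral_finsetSum]
  · simp only [Trunc_coord]
    simp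
  · intro i _
    refine (Trunc_pow N 2).mono' (by fun_prop) (Filter.Eventually.of_forall fun ξ => ?_)
    rw [Real.norm_eq_abs, abs_of_nonneg (sq_nonneg _), h1]
    exact Finset.single_le_sum (f := fun i => (ξ i) ^ 2) (fun i _ => sq_nonneg _) (Finset.mem_univ i)

/-- the truncation -/
private noncomputable def tru (N : ℕ) (h : ℝ) : E N → E N :=
  open Classical in fun ξ => if ‖ξ‖ ≤ h ^ (-(1 / 8) : ℝ) then ξ else 0

private theorem tru_def (h : ℝ) : nuT N h = (stdGaussian (E N)).map (tru N h) := rfl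

private theorem tru_pos {h : ℝ} {ξ : E N} (hx : ‖ξ‖ ≤ h ^ (-(1 / 8) : ℝ)) : tru N h ξ = ξ := if_pos hx

private theorem tru_neg {h : ℝ} {ξ : E N} (hx : ¬ ‖ξ‖ ≤ h ^ (-(1 / 8) : ℝ)) : tru N h ξ = 0 := if_neg hx

private theorem tru_meas (N : ℕ) (h : ℝ) : Measurable (tru N h) :=
  Measurable.ite (measurableSet_le measurable_norm measurable_const) measurable_id measurable_const

private theorem tru_norm_le (h : ℝ) (ξ : E N) : ‖tru N h ξ‖ ≤ ‖ξ‖ := by
  by_cases hx : ‖ξ‖ ≤ h ^ (-(1 / 8) : ℝ)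
  · rw [tru_pos hx]
  · rw [tru_neg hx, norm_zero]
    exact norm_nonneg _

private theorem tru_prob (N : ℕ) (h : ℝ) : IsProbabilityMeasure (nuT N h) := by
  rw [tru_def]
  exact Measure.isProbabilityMeasure_map (tru_meas N h).aemeasurable

private theorem Trunc_pw {h : ℝ} (hh : 0 < h) {r : ℝ} (hr : h ^ (-(1 / 8) : ℝ) < r) :
    1 ≤ h ^ 2 * r ^ 16 := by
  have h1 : 0 < h ^ (-(1 / 8) : ℝ) := Real.rpow_pos_of_pos hh _
  have h2 : (h ^ (-(1 / 8) : ℝ)) ^ 16 ≤ r ^ 16 := pow_le_pow_left₀ h1.le hr.le 16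
  have h3 : (h ^ (-(1 / 8) : ℝ)) ^ 16 = (h ^ 2)⁻¹ := by
    rw [← Real.rpow_natCast, ← Real.rpow_mul hh.le, ← Real.rpow_natCast h 2, ← Real.rpow_neg hh.le]
    norm_num
  rw [h3] at h2
  have h4 : 0 < h ^ 2 := by positivity
  calc 1 = h ^ 2 * (h ^ 2)⁻¹ := (mul_inv_cancel₀ h4.ne').symm
    _ ≤ h ^ 2 * r ^ 16 := mul_le_mul_of_nonneg_left h2 h4.le

end

theorem nuT_noise (N : ℕ) (hN : 1 ≤ N) : ∃ h0 : ℝ, 0 < h0 ∧ ∀ h, 0 < h → h < h0 →
    IsNoise h (nuT N h) := by
  have hN0 : (0:ℝ) < N := by exact_mod_cast hN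
  set M := ∫ ξ : E N, ‖ξ‖ ^ 18 ∂(stdGaussian (E N)) with hM
  have hM0 : 0 ≤ M := integral_nonneg fun ξ => by positivity
  refine ⟨N / (M + 1), by positivity, fun h hh hlt => ?_⟩
  have hp := tru_prob N h
  have hint : ∀ g : E N → ℝ, Continuous g → ∫ ξ, g ξ ∂(nuT N h) =
      ∫ ξ, g (tru N h ξ) ∂(stdGaussian (E N)) := by
    intro g hg
    rw [tru_def, integral_map (tru_meas N h).aemeasurable hg.aestronglyMeasurable]
  have i2 : Integrable (fun ξ : E N => ‖tru N h ξ‖ ^ 2) (stdGaussian (E N)) := by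
    refine (Trunc_pow N 2).mono' (((tru_meas N h).norm.pow_const 2).aestronglyMeasurable)
      (Filter.Eventually.of_forall fun ξ => ?_)
    rw [Real.norm_eq_abs, abs_of_nonneg (sq_nonneg _)]
    exact pow_le_pow_left₀ (norm_nonneg _) (tru_norm_le h ξ) 2
  refine ⟨hp, fun L => ?_, ?_, ?_, ?_⟩
  · rw [tru_def, Measure.map_map L.continuous.measurable (tru_meas N h)]
    have h1 : (⇑L ∘ tru N h) = tru N h ∘ ⇑L := by
      funext ξ
      show L (tru N h ξ) = tru N h (L ξ)
      by_cases hx : ‖ξ‖ ≤ h ^ (-(1 / 8) : ℝ)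
      · have hx' : ‖L ξ‖ ≤ h ^ (-(1 / 8) : ℝ) := by rwa [L.norm_map]
        rw [tru_pos hx, tru_pos hx']
      · have hx' : ¬ ‖L ξ‖ ≤ h ^ (-(1 / 8) : ℝ) := by rwa [L.norm_map]
        rw [tru_neg hx, tru_neg hx', map_zero]
    rw [h1, ← Measure.map_map (tru_meas N h) L.continuous.measurable, stdGaussian_map L]
  · rw [tru_def, ae_map_iff (tru_meas N h).aemeasurable]
    · refine Filter.Eventually.of_forall fun ξ => ?_
      have h1 : ‖tru N h ξ‖ ≤ h ^ (-(1 / 8) : ℝ) := by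
        by_cases hx : ‖ξ‖ ≤ h ^ (-(1 / 8) : ℝ)
        · rwa [tru_pos hx]
        · rw [tru_neg hx, norm_zero]
          exact Real.rpow_nonneg hh.le _
      calc Real.sqrt h * ‖tru N h ξ‖ ≤ Real.sqrt h * h ^ (-(1 / 8) : ℝ) :=
            mul_le_mul_of_nonneg_left h1 (Real.sqrt_nonneg h)
        _ = h ^ (3 / 8 : ℝ) := by
            rw [Real.sqrt_eq_rpow, ← Real.rpow_add hh]
            norm_num
    · exact measurableSet_le (by fun_prop) measurable_const
  · rw [hint _ (by fun_prop), ← Trunc_two (N := N)]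
    exact integral_mono i2 (Trunc_pow N 2) fun ξ =>
      pow_le_pow_left₀ (norm_nonneg _) (tru_norm_le h ξ) 2
  · rw [hint _ (by fun_prop)]
    have h1 : ∫ ξ : E N, (‖ξ‖ ^ 2 - h ^ 2 * ‖ξ‖ ^ 18) ∂(stdGaussian (E N)) ≤
        ∫ ξ, ‖tru N h ξ‖ ^ 2 ∂(stdGaussian (E N)) := by
      refine integral_mono ((Trunc_pow N 2).sub ((Trunc_pow N 18).const_mul _)) i2 fun ξ => ?_
      show ‖ξ‖ ^ 2 - h ^ 2 * ‖ξ‖ ^ 18 ≤ ‖tru N h ξ‖ ^ 2
      by_cases hx : ‖ξ‖ ≤ h ^ (-(1 / 8) : ℝ)
      · rw [tru_pos hx]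
        have : 0 ≤ h ^ 2 * ‖ξ‖ ^ 18 := by positivity
        linarith
      · rw [tru_neg hx, norm_zero]
        have h2 := Trunc_pw hh (not_le.1 hx)
        have h3 : h ^ 2 * ‖ξ‖ ^ 18 = (h ^ 2 * ‖ξ‖ ^ 16) * ‖ξ‖ ^ 2 := by ring
        have h4 : 0 ≤ ‖ξ‖ ^ 2 := by positivity
        rw [h3]
        nlinarith
    rw [integral_sub (Trunc_pow N 2) ((Trunc_pow N 18).const_mul _), integral_const_mul,
      Trunc_two, ← hM] at h1
    refine le_trans ?_ h1
    have h2 : h * (M + 1) ≤ N := by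
      have := (lt_div_iff₀ (by positivity : 0 < M + 1)).1 hlt
      linarith
    have h3 : h ^ 2 * M ≤ h * N := by
      have : h * M ≤ N := by nlinarith
      calc h ^ 2 * M = h * (h * M) := by ring
        _ ≤ h * N := mul_le_mul_of_nonneg_left this hh.le
    linarith

theorem gauss_noise2 (N : ℕ) : Noise2 (stdGaussian (E N)) where
  prob := inferInstance
  int := Trunc_pow N 2
  mean := integral_id_stdGaussian
  mom := Trunc_two.le

theorem isNoise_noise2 {N : ℕ} {h : ℝ} (hh : 0 < h) {ν : Measure (E N)} (hν : IsNoise h ν) :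
    Noise2 ν := by
  have := hν.prob
  refine ⟨hν.prob, ?_, noise_mean_vec hh hν, hν.mom_le⟩
  refine Integrable.of_bound (by fun_prop) ((h ^ (3 / 8 : ℝ) / Real.sqrt h) ^ 2) ?_
  filter_upwards [hν.bdd] with ξ hx
  rw [Real.norm_eq_abs, abs_of_nonneg (by positivity)]
  refine pow_le_pow_left₀ (norm_nonneg _) ?_ 2
  rw [le_div_iff₀ (Real.sqrt_pos.2 hh)]
  linarith

theorem tailG_le (N : ℕ) : ∃ C : ℝ, 0 < C ∧ ∀ h, 0 < h → h < 1 → 0 ≤ tailG N h ∧
    tailG N h ≤ C * h ^ 2 := by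
  set M := ∫ ξ : E N, ‖ξ‖ ^ 16 ∂(stdGaussian (E N)) with hM
  have hM0 : 0 ≤ M := integral_nonneg fun ξ => by positivity
  refine ⟨M + 1, by positivity, fun h hh _ => ⟨measureReal_nonneg, ?_⟩⟩
  have hs : MeasurableSet {ξ : E N | h ^ (-(1 / 8) : ℝ) < ‖ξ‖} :=
    measurableSet_lt measurable_const measurable_norm
  have h1 : tailG N h = ∫ ξ : E N, {ξ : E N | h ^ (-(1 / 8) : ℝ) < ‖ξ‖}.indicator (fun _ => (1:ℝ)) ξ
      ∂(stdGaussian (E N)) := by
    rw [integral_indicator_const _ hs]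
    simp [tailG]
  have h2 : tailG N h ≤ ∫ ξ : E N, h ^ 2 * ‖ξ‖ ^ 16 ∂(stdGaussian (E N)) := by
    rw [h1]
    refine integral_mono ((integrable_const _).indicator hs) ((Trunc_pow N 16).const_mul _)
      fun ξ => ?_
    show {ξ : E N | h ^ (-(1 / 8) : ℝ) < ‖ξ‖}.indicator (fun _ => (1:ℝ)) ξ ≤ h ^ 2 * ‖ξ‖ ^ 16
    by_cases hx : h ^ (-(1 / 8) : ℝ) < ‖ξ‖
    · rw [Set.indicator_of_mem (show ξ ∈ {ξ : E N | h ^ (-(1 / 8) : ℝ) < ‖ξ‖} from hx)]
      exact Trunc_pw hh hx
    · rw [Set.indicator_of_notMem (show ξ ∉ {ξ : E N | h ^ (-(1 / 8) : ℝ) < ‖ξ‖} from hx)]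
      positivity
  rw [integral_const_mul, ← hM] at h2
  have h3 : 0 ≤ h ^ 2 := by positivity
  nlinarith

section

variable {N d : ℕ} {ι : Type} [Fintype ι] {net : Net ι d} {β h k : ℝ}

private theorem Trunc_pim (h : ℝ) :
    pim ι (nuT N h) = (pim ι (stdGaussian (E N))).map (fun ξ x => tru N h (ξ x)) := by
  have hp := tru_prob N h
  unfold pim
  rw [tru_def] at hp ⊢
  exact (Measure.pi_map_pi (fun _ => (tru_meas N h).aemeasurable)).symm

private theorem Trunc_step (h : ℝ) (F : (ι → E N) → ℂ) (hF : Measurable F) (hb : ∀ ξ, ‖F ξ‖ ≤ 1) :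
    ‖(∫ ξ, F ξ ∂(pim ι (stdGaussian (E N)))) - ∫ ξ, F ξ ∂(pim ι (nuT N h))‖ ≤
      2 * Fintype.card ι * tailG N h := by
  have hpi : IsProbabilityMeasure (pim ι (stdGaussian (E N))) := by
    unfold pim
    infer_instance
  have hm : Measurable (fun (ξ : ι → E N) x => tru N h (ξ x)) :=
    measurable_pi_lambda _ fun x => (tru_meas N h).comp (measurable_pi_apply x)
  rw [Trunc_pim, integral_map hm.aemeasurable hF.aestronglyMeasurable]
  have i1 : Integrable F (pim ι (stdGaussian (E N))) :=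
    Integrable.of_bound hF.aestronglyMeasurable 1 (Filter.Eventually.of_forall hb)
  have i2 : Integrable (fun ξ : ι → E N => F (fun x => tru N h (ξ x))) (pim ι (stdGaussian (E N))) :=
    Integrable.of_bound (hF.comp hm).aestronglyMeasurable 1 (Filter.Eventually.of_forall fun ξ => hb _)
  rw [← integral_sub i1 i2]
  have hs : MeasurableSet {ξ : E N | h ^ (-(1 / 8) : ℝ) < ‖ξ‖} :=
    measurableSet_lt measurable_const measurable_norm
  set T : Set (E N) := {ξ : E N | h ^ (-(1 / 8) : ℝ) < ‖ξ‖} with hT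
  have i3 : ∀ x : ι, Integrable (fun ξ : ι → E N => T.indicator (fun _ => (1:ℝ)) (ξ x))
      (pim ι (stdGaussian (E N))) := by
    intro x
    refine Integrable.of_bound
      (((measurable_const.indicator hs).comp (measurable_pi_apply x)).aestronglyMeasurable) 1
      (Filter.Eventually.of_forall fun ξ => ?_)
    by_cases hx : ξ x ∈ T
    · rw [Set.indicator_of_mem hx]; simp
    · rw [Set.indicator_of_notMem hx]; simp
  have h1 : ∀ ξ : ι → E N, ‖F ξ - F (fun x => tru N h (ξ x))‖ ≤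
      2 * ∑ x, T.indicator (fun _ => (1:ℝ)) (ξ x) := by
    intro ξ
    have hn : ∀ x, 0 ≤ T.indicator (fun _ => (1:ℝ)) (ξ x) := fun x =>
      Set.indicator_nonneg (fun _ _ => zero_le_one) _
    by_cases hx : ∃ x, ξ x ∈ T
    · obtain ⟨x, hx⟩ := hx
      have h2 : ‖F ξ - F (fun x => tru N h (ξ x))‖ ≤ 2 := by
        refine (norm_sub_le _ _).trans ?_
        have := hb ξ
        have := hb (fun x => tru N h (ξ x))
        linarith
      have h3 : (1:ℝ) ≤ ∑ x, T.indicator (fun _ => (1:ℝ)) (ξ x) := by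
        have h6 : T.indicator (fun _ => (1:ℝ)) (ξ x) ≤ ∑ x, T.indicator (fun _ => (1:ℝ)) (ξ x) :=
          Finset.single_le_sum (f := fun x => T.indicator (fun _ => (1:ℝ)) (ξ x))
            (fun x _ => hn x) (Finset.mem_univ x)
        rwa [Set.indicator_of_mem hx] at h6
      linarith
    · push Not at hx
      have h2 : (fun x => tru N h (ξ x)) = ξ := by
        funext x
        exact tru_pos (not_lt.1 (hx x))
      rw [h2, sub_self, norm_zero]
      exact mul_nonneg zero_le_two (Finset.sum_nonneg fun x _ => hn x)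
  refine (norm_integral_le_integral_norm _).trans ?_
  refine (integral_mono (i1.sub i2).norm ((integrable_finsetSum _ fun x _ => i3 x).const_mul 2)
    h1).trans ?_
  rw [integral_const_mul, integral_finsetSum _ fun x _ => i3 x]
  have h4 : ∀ x : ι, ∫ ξ : ι → E N, T.indicator (fun _ => (1:ℝ)) (ξ x)
      ∂(pim ι (stdGaussian (E N))) = tailG N h := by
    intro x
    have hmp := measurePreserving_eval (fun _ : ι => stdGaussian (E N)) x
    have h5 : ∫ ξ : ι → E N, T.indicator (fun _ => (1:ℝ)) (ξ x) ∂(pim ι (stdGaussian (E N))) =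
        ∫ y, T.indicator (fun _ => (1:ℝ)) y
          ∂((Measure.pi (fun _ : ι => stdGaussian (E N))).map (Function.eval x)) :=
      (integral_map hmp.measurable.aemeasurable
        (measurable_const.indicator hs).aestronglyMeasurable).symm
    rw [h5, hmp.map_eq, integral_indicator_const _ hs]
    simp [tailG, hT]
  simp only [h4]
  rw [Finset.sum_const, Finset.card_univ, nsmul_eq_mul]
  exact le_of_eq (by ring)

end

theorem pathE_trunc {N d : ℕ} {ι : Type} [Fintype ι] {net : Net ι d} {β h k : ℝ} (hβ : 0 < β)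
    (hh : 0 < h) (fs : List ((ι → E N) → ℂ)) (hm : ∀ f ∈ fs, Measurable f)
    (hb : ∀ f ∈ fs, ∀ G, ‖f G‖ ≤ 1) (G : ι → E N) :
    ‖pathE net β h k (stdGaussian (E N)) fs G - pathE net β h k (nuT N h) fs G‖ ≤
      2 * fs.length * Fintype.card ι * tailG N h := by
  have hp := tru_prob N h
  have hpi : IsProbabilityMeasure (pim ι (stdGaussian (E N))) := by
    unfold pim
    infer_instance
  have ht : 0 ≤ tailG N h := measureReal_nonneg
  induction fs generalizing G with
  | nil => simp [pathE]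
  | cons f fs ih =>
    have hm' : ∀ f ∈ fs, Measurable f := fun g hg => hm g (List.mem_cons_of_mem _ hg)
    have hb' : ∀ f ∈ fs, ∀ G, ‖f G‖ ≤ 1 := fun g hg => hb g (List.mem_cons_of_mem _ hg)
    have ih' := ih hm' hb'
    obtain ⟨m1, b1⟩ := pathE_facts (net := net) (k := k) (ν := stdGaussian (E N)) hβ hh.le fs hm' hb'
    obtain ⟨m2, b2⟩ := pathE_facts (net := net) (k := k) (ν := nuT N h) hβ hh.le fs hm' hb'
    have hst : Measurable (fun ξ : ι → E N => stp net β h k G ξ) :=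
      (((stp_continuous hβ hh.le k net).comp (Continuous.prodMk continuous_const continuous_id))).measurable
    have hfG := hb f List.mem_cons_self G
    have e1 : pathE net β h k (stdGaussian (E N)) (f :: fs) G - pathE net β h k (nuT N h) (f :: fs) G =
        f G * (((∫ ξ, pathE net β h k (stdGaussian (E N)) fs (stp net β h k G ξ) ∂(pim ι (stdGaussian (E N)))) -
          ∫ ξ, pathE net β h k (nuT N h) fs (stp net β h k G ξ) ∂(pim ι (stdGaussian (E N)))) +
          ((∫ ξ, pathE net β h k (nuT N h) fs (stp net β h k G ξ) ∂(pim ι (stdGaussian (E N)))) -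
          ∫ ξ, pathE net β h k (nuT N h) fs (stp net β h k G ξ) ∂(pim ι (nuT N h)))) := by
      simp only [pathE]
      ring
    have e2 := Trunc_step (ι := ι) h (fun ξ => pathE net β h k (nuT N h) fs (stp net β h k G ξ))
      (m2.comp hst) (fun ξ => b2 _)
    have i1 : Integrable (fun ξ => pathE net β h k (stdGaussian (E N)) fs (stp net β h k G ξ))
        (pim ι (stdGaussian (E N))) :=
      Integrable.of_bound (m1.comp hst).aestronglyMeasurable 1 (Filter.Eventually.of_forall fun ξ => b1 _)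
    have i2 : Integrable (fun ξ => pathE net β h k (nuT N h) fs (stp net β h k G ξ))
        (pim ι (stdGaussian (E N))) :=
      Integrable.of_bound (m2.comp hst).aestronglyMeasurable 1 (Filter.Eventually.of_forall fun ξ => b2 _)
    have e3 : ‖(∫ ξ, pathE net β h k (stdGaussian (E N)) fs (stp net β h k G ξ) ∂(pim ι (stdGaussian (E N)))) -
          ∫ ξ, pathE net β h k (nuT N h) fs (stp net β h k G ξ) ∂(pim ι (stdGaussian (E N)))‖ ≤
        2 * fs.length * Fintype.card ι * tailG N h := by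
      rw [← integral_sub i1 i2]
      have := norm_integral_le_of_norm_le_const (μ := pim ι (stdGaussian (E N)))
        (Filter.Eventually.of_forall fun ξ => ih' (stp net β h k G ξ))
      simpa using this
    rw [e1, norm_mul]
    refine (mul_le_of_le_one_left (norm_nonneg _) hfG).trans ((norm_add_le _ _).trans ?_)
    refine (add_le_add e3 e2).trans (le_of_eq ?_)
    rw [List.length_cons]
    push_cast
    ring

end Dyn
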