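import Pool.Agent.Lib_MP_36b788.CMDefs
import Pool.Agent.Lib_MP_36b788.Init
import Pool.Agent.Lib_MP_36b788.PathEx
import Pool.Agent.Lib_MP_36b788.Trunc

/-!
# CMMOM: exit probabilities along the Gaussian chain, and absence of zero states

PROOF. `cm_exit`: `f(G) = 1+Σ_x‖G x‖²` satisfies `∫ f(stp G ξ)dγ^ι ≤ (1+Ch) f(G)` for the Gaussian (`Noise2`; the same computation as in
PATHEX, `C` depending on `N, d`: `∫‖hat g ξ‖² ≤ (1+Nh)‖g‖²`, `Σ‖coup_x‖² ≤ C_dΣ‖G x‖²`), so `∫ f dchainLaw n ≤ (1+Ch)^n(1+card·∫‖x‖²dρ)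
≤ e^{C Sm}·const`. exit_bound: `exitE n G ≤ e^{C Sm} f(G)/rad²`, `rad β h → ∞` as `h → 0`.
`cm_nz`: induction on `n`. `n = 0`: init_nz. Step: for every `G` with `Nz k G`, `Nz k (stp G ξ)` for a.e. `ξ ∈ γ^ι`: if `G x ≠ 0` then
for fixed value `v` the set `{ξ | hat β h (G x) (ξ x) = v}` is null: `J` is injective (J_eq), so it is contained in
`{ξ x = w}` for one `w`, and the Gaussian has no atoms (`N ≥ 1`). For `k = 0` take all `x`, `v = 0`; for `k > 0` one `x` with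
`G x ≠ 0`, `v = -kh coup_x(G)` (then `stp G ξ ≠ 0`). For `k > 0`, `Nz k G ↔ G ≠ 0` (the box is nonempty). Fubini.
-/

open MeasureTheory ProbabilityTheory

namespace Dyn

/-! ### the radius of alive states -/

private theorem CMMom_rp {M a h : ℝ} (hM : 0 < M) (ha : 0 < a) (hh : 0 < h)
    (h1 : h < M ^ (-(1 / a))) : M ≤ h ^ (-a) := by
  have h2 : (M ^ (-(1 / a))) ^ (-a) ≤ h ^ (-a) :=
    (Real.rpow_le_rpow_iff_of_neg (Real.rpow_pos_of_pos hM _) hh (by linarith)).2 h1.le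
  rw [← Real.rpow_mul hM.le] at h2
  have h3 : -(1 / a) * -a = 1 := by field_simp
  rwa [h3, Real.rpow_one] at h2

private theorem CMMom_rad (β : ℝ) (hβ : 0 < β) (R : ℝ) :
    ∃ h0 : ℝ, 0 < h0 ∧ ∀ h, 0 < h → h < h0 → R ≤ rad β h := by
  have hM : 0 < max R 1 := lt_of_lt_of_le one_pos (le_max_right _ _)
  refine ⟨min (max R 1 ^ (-(1 / (1 / 8)) : ℝ)) (max R 1 ^ (-(1 / (1 / (4 * β))) : ℝ)),
    lt_min (Real.rpow_pos_of_pos hM _) (Real.rpow_pos_of_pos hM _), ?_⟩
  intro h hh hh0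
  have h1 := CMMom_rp hM (by norm_num : (0 : ℝ) < 1 / 8) hh (lt_of_lt_of_le hh0 (min_le_left _ _))
  have h2 := CMMom_rp hM (by positivity : (0 : ℝ) < 1 / (4 * β)) hh
    (lt_of_lt_of_le hh0 (min_le_right _ _))
  exact (le_max_left R 1).trans (le_min h1 h2)

/-! ### one step of the second moment -/

private theorem CMMom_int {N : ℕ} {ν : Measure (E N)} (hν : Noise2 ν) :
    Integrable (fun ξ : E N => ξ) ν := by
  have := hν.prob
  refine Integrable.mono' ((integrable_const (1 : ℝ)).add hν.int) (by fun_prop)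
    (Filter.Eventually.of_forall fun ξ => ?_)
  show ‖ξ‖ ≤ 1 + ‖ξ‖ ^ 2
  nlinarith [sq_nonneg (‖ξ‖ - 1), norm_nonneg ξ]

private theorem CMMom_v {N : ℕ} {ν : Measure (E N)} (hν : Noise2 ν) (g : E N) (a : ℝ) :
    Integrable (fun ξ => ‖g + a • ξ‖ ^ 2) ν ∧
      ∫ ξ, ‖g + a • ξ‖ ^ 2 ∂ν ≤ ‖g‖ ^ 2 + a ^ 2 * N := by
  have := hν.prob
  have hin : Integrable (fun ξ : E N => inner ℝ g ξ) ν := (CMMom_int hν).const_inner g
  have e1 : ∀ ξ : E N, ‖g + a • ξ‖ ^ 2 = ‖g‖ ^ 2 + 2 * a * inner ℝ g ξ + a ^ 2 * ‖ξ‖ ^ 2 := by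
    intro ξ
    rw [norm_add_sq_real, inner_smul_right, norm_smul, mul_pow, Real.norm_eq_abs, sq_abs]
    ring
  have i1 : Integrable (fun ξ : E N => ‖g‖ ^ 2 + 2 * a * inner ℝ g ξ) ν :=
    (integrable_const _).add (hin.const_mul _)
  have i2 : Integrable (fun ξ : E N => a ^ 2 * ‖ξ‖ ^ 2) ν := hν.int.const_mul _
  have h0 : ∫ ξ, inner ℝ g ξ ∂ν = 0 := by
    rw [integral_inner (CMMom_int hν) g, hν.mean, inner_zero_right]
  simp only [e1]
  refine ⟨i1.add i2, ?_⟩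
  rw [integral_add i1 i2, integral_add (integrable_const _) (hin.const_mul _), integral_const_mul,
    integral_const_mul, h0]
  simp only [integral_const, probReal_univ, one_smul, mul_zero, add_zero]
  have := mul_le_mul_of_nonneg_left hν.mom (sq_nonneg a)
  linarith

private theorem CMMom_hat {N : ℕ} {β h : ℝ} (hβ : 0 < β) (hh : 0 ≤ h) (g ξ : E N) :
    ‖hat β h g ξ‖ ≤ ‖g + (Real.sqrt h * ‖g‖) • ξ‖ := by
  unfold hat
  rw [norm_J hβ hh]
  exact psi_le hβ hh (norm_nonneg _)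

private theorem CMMom_coup {N d : ℕ} {ι : Type} [Fintype ι] (net : Net ι d) (G : ι → E N) (x : ι) :
    ‖coup net G x‖ ^ 2 ≤ (1 + 2 * d) ^ 2 * (Fintype.card ι * ∑ y, ‖G y‖ ^ 2) := by
  classical
  have h1 : ‖coup net G x‖ ≤ (1 + 2 * d) * ∑ y, ‖G y‖ := by
    unfold coup
    refine (norm_sub_le _ _).trans ?_
    have h2 : ‖∑ y ∈ net.nb x, G y‖ ≤ ∑ y, ‖G y‖ :=
      (norm_sum_le _ _).trans (Finset.sum_le_sum_of_subset_of_nonneg (Finset.subset_univ _)
        fun _ _ _ => norm_nonneg _)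
    have h3 : ‖G x‖ ≤ ∑ y, ‖G y‖ :=
      Finset.single_le_sum (f := fun y => ‖G y‖) (fun _ _ => norm_nonneg _) (Finset.mem_univ x)
    rw [norm_smul, Real.norm_eq_abs, abs_of_nonneg (Nat.cast_nonneg _)]
    push_cast
    have h4 : 2 * (d : ℝ) * ‖G x‖ ≤ 2 * d * ∑ y, ‖G y‖ :=
      mul_le_mul_of_nonneg_left h3 (by positivity)
    linarith
  have h5 : (∑ y, ‖G y‖) ^ 2 ≤ Fintype.card ι * ∑ y, ‖G y‖ ^ 2 := by
    have := sq_sum_le_card_mul_sum_sq (s := (Finset.univ : Finset ι)) (f := fun y => ‖G y‖)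
    rwa [Finset.card_univ] at this
  calc ‖coup net G x‖ ^ 2 ≤ ((1 + 2 * d) * ∑ y, ‖G y‖) ^ 2 :=
        pow_le_pow_left₀ (norm_nonneg _) h1 2
    _ = (1 + 2 * d) ^ 2 * (∑ y, ‖G y‖) ^ 2 := by ring
    _ ≤ _ := mul_le_mul_of_nonneg_left h5 (by positivity)

/-- the function `f(G) = 1 + Σ ‖G x‖²` -/
private noncomputable def CMMom_f {N : ℕ} {ι : Type} [Fintype ι] (G : ι → E N) : ℝ :=
  1 + ∑ x, ‖G x‖ ^ 2

private theorem CMMom_f_meas {N : ℕ} {ι : Type} [Fintype ι] :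
    Measurable (CMMom_f : (ι → E N) → ℝ) := by
  have : Continuous (CMMom_f : (ι → E N) → ℝ) := by
    unfold CMMom_f
    fun_prop
  exact this.measurable

private theorem CMMom_f_nonneg {N : ℕ} {ι : Type} [Fintype ι] (G : ι → E N) : 0 ≤ CMMom_f G := by
  unfold CMMom_f
  positivity

/-- the constant of one step -/
private noncomputable def CMMom_C (N d : ℕ) (ι : Type) [Fintype ι] : ℝ :=
  1 + 2 * N + 2 * ((1 + 2 * d) ^ 2 * (Fintype.card ι * Fintype.card ι))

private theorem CMMom_C_pos (N d : ℕ) (ι : Type) [Fintype ι] : 0 < CMMom_C N d ι := by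
  unfold CMMom_C
  positivity

private theorem CMMom_pt {N d : ℕ} {ι : Type} [Fintype ι] (net : Net ι d) {β h k : ℝ}
    (hβ : 0 < β) (hh : 0 < h) (h1 : h ≤ 1) (hk : 0 ≤ k) (hk1 : k ≤ 1) (G ξ : ι → E N) (x : ι) :
    ‖stp net β h k G ξ x‖ ^ 2 ≤ (1 + h) * ‖G x + (Real.sqrt h * ‖G x‖) • ξ x‖ ^ 2 +
      2 * h * ‖coup net G x‖ ^ 2 := by
  have ha := CMMom_hat hβ hh.le (G x) (ξ x)
  set v := ‖G x + (Real.sqrt h * ‖G x‖) • ξ x‖ with hv
  have hv0 : 0 ≤ v := norm_nonneg _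
  have hb : ‖(k * h) • coup net G x‖ ≤ h * ‖coup net G x‖ := by
    rw [norm_smul, Real.norm_eq_abs, abs_of_nonneg (by positivity)]
    refine mul_le_mul_of_nonneg_right ?_ (norm_nonneg _)
    nlinarith
  set c := ‖coup net G x‖ with hc
  have hc0 : 0 ≤ c := norm_nonneg _
  have h2 : ‖stp net β h k G ξ x‖ ≤ v + h * c := by
    unfold stp
    exact (norm_add_le _ _).trans (add_le_add ha hb)
  have h3 : ‖stp net β h k G ξ x‖ ^ 2 ≤ (v + h * c) ^ 2 := pow_le_pow_left₀ (norm_nonneg _) h2 2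
  refine h3.trans ?_
  have h4 : 2 * v * (h * c) ≤ h * v ^ 2 + h * c ^ 2 := by
    have : 0 ≤ h * (v - c) ^ 2 := by positivity
    nlinarith
  have h5 : h ^ 2 * c ^ 2 ≤ h * c ^ 2 := by
    have : h ^ 2 ≤ h := by nlinarith
    exact mul_le_mul_of_nonneg_right this (by positivity)
  nlinarith

private theorem CMMom_step {N d : ℕ} {ι : Type} [Fintype ι] (net : Net ι d) {β h k : ℝ}
    {ν : Measure (E N)} (hν : Noise2 ν)
    (hβ : 0 < β) (hh : 0 < h) (h1 : h ≤ 1) (hk : 0 ≤ k) (hk1 : k ≤ 1) (G : ι → E N) :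
    ∫⁻ ξ, ENNReal.ofReal (CMMom_f (stp net β h k G ξ)) ∂(pim ι ν) ≤
      ENNReal.ofReal (1 + CMMom_C N d ι * h) * ENNReal.ofReal (CMMom_f G) := by
  have := hν.prob
  have hp : IsProbabilityMeasure (pim ι ν) := by
    unfold pim
    infer_instance
  let F : (ι → E N) → ℝ := fun ξ => 1 + ∑ x, ((1 + h) * ‖G x + (Real.sqrt h * ‖G x‖) • ξ x‖ ^ 2 +
      2 * h * ‖coup net G x‖ ^ 2)
  have hF0 : ∀ ξ, 0 ≤ F ξ := fun ξ => by positivity
  have hmp : ∀ x : ι, MeasurePreserving (Function.eval x) (pim ι ν) ν := fun x =>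
    measurePreserving_eval (fun _ : ι => ν) x
  have hv := fun x => CMMom_v hν (G x) (Real.sqrt h * ‖G x‖)
  have hi : ∀ x : ι, Integrable (fun ξ : ι → E N => ‖G x + (Real.sqrt h * ‖G x‖) • ξ x‖ ^ 2)
      (pim ι ν) := fun x => (hmp x).integrable_comp_of_integrable (hv x).1
  have hI : ∀ x : ι, ∫ ξ : ι → E N, ‖G x + (Real.sqrt h * ‖G x‖) • ξ x‖ ^ 2 ∂(pim ι ν) ≤
      (1 + N * h) * ‖G x‖ ^ 2 := by
    intro x
    have e1 : ∫ ξ : ι → E N, ‖G x + (Real.sqrt h * ‖G x‖) • ξ x‖ ^ 2 ∂(pim ι ν) =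
        ∫ y, ‖G x + (Real.sqrt h * ‖G x‖) • y‖ ^ 2 ∂ν := by
      have h6 := integral_map (μ := pim ι ν) (hmp x).measurable.aemeasurable
        (f := fun y => ‖G x + (Real.sqrt h * ‖G x‖) • y‖ ^ 2)
        (Continuous.aestronglyMeasurable (by fun_prop))
      rw [(hmp x).map_eq] at h6
      exact h6.symm
    rw [e1]
    refine (hv x).2.trans (le_of_eq ?_)
    rw [mul_pow, Real.sq_sqrt hh.le]
    ring
  have hix : ∀ x : ι, Integrable (fun ξ : ι → E N =>
      (1 + h) * ‖G x + (Real.sqrt h * ‖G x‖) • ξ x‖ ^ 2 + 2 * h * ‖coup net G x‖ ^ 2)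
      (pim ι ν) := fun x => ((hi x).const_mul _).add (integrable_const _)
  have hFi : Integrable F (pim ι ν) :=
    (integrable_const _).add (integrable_finsetSum _ fun x _ => hix x)
  have hFI : ∫ ξ, F ξ ∂(pim ι ν) ≤ (1 + CMMom_C N d ι * h) * CMMom_f G := by
    show ∫ ξ, (1 + ∑ x, ((1 + h) * ‖G x + (Real.sqrt h * ‖G x‖) • ξ x‖ ^ 2 +
      2 * h * ‖coup net G x‖ ^ 2)) ∂(pim ι ν) ≤ _
    rw [integral_add (integrable_const _) (integrable_finsetSum _ fun x _ => hix x),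
      integral_finsetSum _ fun x _ => hix x]
    have e2 : ∀ x : ι, ∫ ξ : ι → E N, ((1 + h) * ‖G x + (Real.sqrt h * ‖G x‖) • ξ x‖ ^ 2 +
        2 * h * ‖coup net G x‖ ^ 2) ∂(pim ι ν) ≤ (1 + (1 + 2 * N) * h) * ‖G x‖ ^ 2 +
        2 * h * ((1 + 2 * d) ^ 2 * (Fintype.card ι * ∑ y, ‖G y‖ ^ 2)) := by
      intro x
      rw [integral_add ((hi x).const_mul _) (integrable_const _), integral_const_mul]
      simp only [integral_const, probReal_univ, one_smul]
      refine add_le_add ?_ (mul_le_mul_of_nonneg_left (CMMom_coup net G x) (by positivity))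
      refine (mul_le_mul_of_nonneg_left (hI x) (by positivity)).trans ?_
      rw [← mul_assoc]
      refine mul_le_mul_of_nonneg_right ?_ (by positivity)
      have : (N : ℝ) * h * h ≤ N * h := by
        have : 0 ≤ (N : ℝ) * h := by positivity
        nlinarith
      nlinarith
    refine (add_le_add le_rfl (Finset.sum_le_sum fun x _ => e2 x)).trans ?_
    rw [Finset.sum_add_distrib, ← Finset.mul_sum, Finset.sum_const, Finset.card_univ, nsmul_eq_mul]
    simp only [integral_const, probReal_univ, one_smul]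
    unfold CMMom_f CMMom_C
    set S := ∑ y, ‖G y‖ ^ 2 with hS
    have hS0 : 0 ≤ S := by positivity
    have h3 : 0 ≤ (1 + 2 * (N : ℝ) + 2 * ((1 + 2 * d) ^ 2 * (Fintype.card ι * Fintype.card ι))) * h := by
      positivity
    nlinarith
  calc ∫⁻ ξ, ENNReal.ofReal (CMMom_f (stp net β h k G ξ)) ∂(pim ι ν)
      ≤ ∫⁻ ξ, ENNReal.ofReal (F ξ) ∂(pim ι ν) := by
        refine lintegral_mono fun ξ => ENNReal.ofReal_le_ofReal ?_
        exact add_le_add le_rfl (Finset.sum_le_sum fun x _ => CMMom_pt net hβ hh h1 hk hk1 G ξ x)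
    _ = ENNReal.ofReal (∫ ξ, F ξ ∂(pim ι ν)) :=
        (ofReal_integral_eq_lintegral_ofReal hFi (Filter.Eventually.of_forall hF0)).symm
    _ ≤ ENNReal.ofReal ((1 + CMMom_C N d ι * h) * CMMom_f G) := ENNReal.ofReal_le_ofReal hFI
    _ = _ := ENNReal.ofReal_mul (by
        have := CMMom_C_pos N d ι
        positivity)

private theorem CMMom_chain {N d : ℕ} {ι : Type} [Fintype ι] (net : Net ι d) {β h k : ℝ}
    {ν : Measure (E N)} (hν : Noise2 ν)
    (hβ : 0 < β) (hh : 0 < h) (h1 : h ≤ 1) (hk : 0 ≤ k) (hk1 : k ≤ 1)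
    (m0 : Measure (ι → E N)) [IsProbabilityMeasure m0] (n : ℕ) :
    ∫⁻ G, ENNReal.ofReal (CMMom_f G) ∂(chainLaw net β h k ν m0 n) ≤
      ENNReal.ofReal ((1 + CMMom_C N d ι * h) ^ n) * ∫⁻ G, ENNReal.ofReal (CMMom_f G) ∂m0 := by
  have := hν.prob
  have hp : IsProbabilityMeasure (pim ι ν) := by
    unfold pim
    infer_instance
  have hC := CMMom_C_pos N d ι
  induction n with
  | zero => simp [chainLaw]
  | succ n ih =>
    have := chainLaw_prob (net := net) (k := k) (ν := ν) hβ hh.le m0 n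
    have hst := (stp_continuous (N := N) hβ hh.le k net).measurable
    have hfm : Measurable (fun G : ι → E N => ENNReal.ofReal (CMMom_f G)) :=
      CMMom_f_meas.ennreal_ofReal
    have e1 : ∫⁻ G, ENNReal.ofReal (CMMom_f G) ∂(chainLaw net β h k ν m0 (n + 1)) =
        ∫⁻ G, ∫⁻ ξ, ENNReal.ofReal (CMMom_f (stp net β h k G ξ)) ∂(pim ι ν)
          ∂(chainLaw net β h k ν m0 n) := by
      show ∫⁻ G, ENNReal.ofReal (CMMom_f G) ∂(((chainLaw net β h k ν m0 n).prod (pim ι ν)).map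
        (fun q => stp net β h k q.1 q.2)) = _
      rw [lintegral_map hfm hst, lintegral_prod
        (fun q : (ι → E N) × (ι → E N) => ENNReal.ofReal (CMMom_f (stp net β h k q.1 q.2)))
        (hfm.comp hst).aemeasurable]
    rw [e1]
    calc ∫⁻ G, ∫⁻ ξ, ENNReal.ofReal (CMMom_f (stp net β h k G ξ)) ∂(pim ι ν)
          ∂(chainLaw net β h k ν m0 n)
        ≤ ∫⁻ G, ENNReal.ofReal (1 + CMMom_C N d ι * h) * ENNReal.ofReal (CMMom_f G)
          ∂(chainLaw net β h k ν m0 n) :=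
          lintegral_mono fun G => CMMom_step net hν hβ hh h1 hk hk1 G
      _ = ENNReal.ofReal (1 + CMMom_C N d ι * h) *
          ∫⁻ G, ENNReal.ofReal (CMMom_f G) ∂(chainLaw net β h k ν m0 n) :=
          lintegral_const_mul _ hfm
      _ ≤ ENNReal.ofReal (1 + CMMom_C N d ι * h) *
          (ENNReal.ofReal ((1 + CMMom_C N d ι * h) ^ n) * ∫⁻ G, ENNReal.ofReal (CMMom_f G) ∂m0) :=
          mul_le_mul_right ih _
      _ = _ := by
          rw [← mul_assoc, ← ENNReal.ofReal_mul (by positivity), pow_succ']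

private theorem CMMom_init {N : ℕ} {ι : Type} [Fintype ι] (ρ : Measure (E N))
    [IsProbabilityMeasure ρ] (hρ : Integrable (fun x : E N => ‖x‖ ^ 2) ρ) :
    ∫⁻ G, ENNReal.ofReal (CMMom_f G) ∂(Measure.pi (fun _ : ι => ρ)) =
      ENNReal.ofReal (1 + Fintype.card ι * ∫ x, ‖x‖ ^ 2 ∂ρ) := by
  have hmp : ∀ x : ι, MeasurePreserving (Function.eval x) (Measure.pi (fun _ : ι => ρ)) ρ :=
    fun x => measurePreserving_eval (fun _ : ι => ρ) x
  have hi : ∀ x : ι, Integrable (fun G : ι → E N => ‖G x‖ ^ 2) (Measure.pi (fun _ : ι => ρ)) :=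
    fun x => (hmp x).integrable_comp_of_integrable hρ
  have hI : ∀ x : ι, ∫ G : ι → E N, ‖G x‖ ^ 2 ∂(Measure.pi (fun _ : ι => ρ)) =
      ∫ y, ‖y‖ ^ 2 ∂ρ := by
    intro x
    conv_rhs => rw [← (hmp x).map_eq]
    rw [integral_map (hmp x).measurable.aemeasurable (by fun_prop)]
  have hf : Integrable (CMMom_f : (ι → E N) → ℝ) (Measure.pi (fun _ : ι => ρ)) := by
    unfold CMMom_f
    exact (integrable_const _).add (integrable_finsetSum _ fun x _ => hi x)
  rw [← ofReal_integral_eq_lintegral_ofReal hf (Filter.Eventually.of_forall CMMom_f_nonneg)]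
  congr 1
  unfold CMMom_f
  rw [integral_add (integrable_const _) (integrable_finsetSum _ fun x _ => hi x),
    integral_finsetSum _ fun x _ => hi x]
  simp only [hI, integral_const, probReal_univ, one_smul, Finset.sum_const, Finset.card_univ,
    nsmul_eq_mul]

private theorem CMMom_pow {C h Sm : ℝ} (hC : 0 ≤ C) (hh : 0 ≤ h) (n : ℕ) (hn : n * h ≤ Sm) :
    (1 + C * h) ^ n ≤ Real.exp (C * Sm) := by
  have h1 : 1 + C * h ≤ Real.exp (C * h) := by
    have := Real.add_one_le_exp (C * h)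
    linarith
  calc (1 + C * h) ^ n ≤ Real.exp (C * h) ^ n := pow_le_pow_left₀ (by positivity) h1 n
    _ = Real.exp (n * (C * h)) := by rw [← Real.exp_nat_mul]
    _ ≤ Real.exp (C * Sm) := by
        apply Real.exp_le_exp.2
        nlinarith

/-! ### no atoms -/

private theorem CMMom_atom {N : ℕ} (hN : 1 ≤ N) (w : E N) : (stdGaussian (E N)) {w} = 0 := by
  let i : Fin N := ⟨0, hN⟩
  have h1 := variance_dual_stdGaussian (E := E N) (EuclideanSpace.proj i : StrongDual ℝ (E N))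
  have h3 : (EuclideanSpace.proj i : StrongDual ℝ (E N)) =
      innerSL ℝ (EuclideanSpace.single i (1:ℝ) : E N) := by
    ext ξ
    rw [innerSL_apply_apply, EuclideanSpace.inner_single_left]
    simp
  have h4 : ‖(EuclideanSpace.proj i : StrongDual ℝ (E N))‖ = 1 := by
    rw [h3, innerSL_apply_norm]
    simp
  rw [h4, one_pow] at h1
  have h5 := IsGaussian.map_eq_gaussianReal (μ := stdGaussian (E N))
    (EuclideanSpace.proj i : StrongDual ℝ (E N))
  rw [h1] at h5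
  have h6 : ((stdGaussian (E N)).map (EuclideanSpace.proj i : StrongDual ℝ (E N)))
      {(EuclideanSpace.proj i : StrongDual ℝ (E N)) w} = 0 := by
    rw [h5]
    have := nullSingletonClass_gaussianReal (μ := ∫ x, (EuclideanSpace.proj i : StrongDual ℝ (E N)) x
      ∂(stdGaussian (E N))) (v := (1 : ℝ).toNNReal) (by simp)
    exact measure_singleton _
  rw [Measure.map_apply (by fun_prop) (measurableSet_singleton _)] at h6
  refine measure_mono_null ?_ h6
  intro x hx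
  rw [Set.mem_singleton_iff] at hx
  rw [hx]
  exact Set.mem_singleton _

private theorem CMMom_J_inj {N : ℕ} {β h : ℝ} (hβ : 0 < β) (hh : 0 ≤ h) :
    Function.Injective (J (N := N) β h) := by
  intro a b hab
  rw [← J_eq hβ hh a, ← J_eq hβ hh b, hab]

private theorem CMMom_hat_ne {N : ℕ} {β h : ℝ} (hN : 1 ≤ N) (hβ : 0 < β) (hh : 0 < h) {g : E N}
    (hg : g ≠ 0) (v : E N) : ∀ᵐ ξ ∂(stdGaussian (E N)), hat β h g ξ ≠ v := by
  rw [ae_iff]
  simp only [not_not]
  by_cases hex : ∃ w, hat β h g w = v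
  · obtain ⟨w, hw⟩ := hex
    refine measure_mono_null ?_ (CMMom_atom hN w)
    intro ξ hξ
    have h1 : hat β h g ξ = hat β h g w := by rw [hw]; exact hξ
    unfold hat at h1
    have h2 := CMMom_J_inj hβ hh.le h1
    have h3 : (Real.sqrt h * ‖g‖) • ξ = (Real.sqrt h * ‖g‖) • w := add_left_cancel h2
    have h4 : Real.sqrt h * ‖g‖ ≠ 0 :=
      mul_ne_zero (Real.sqrt_pos.2 hh).ne' (norm_ne_zero_iff.2 hg)
    exact smul_right_injective _ h4 h3
  · have : {ξ | hat β h g ξ = v} = ∅ := by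
      ext ξ
      simp only [Set.mem_ofPred_eq, Set.mem_empty_iff_false, iff_false]
      exact fun h => hex ⟨ξ, h⟩
    rw [this, measure_empty]

private theorem CMMom_stp_ne {N d : ℕ} {ι : Type} [Fintype ι] (net : Net ι d) {β h k : ℝ}
    (hN : 1 ≤ N) (hβ : 0 < β) (hh : 0 < h) (G : ι → E N) (x : ι) (hx : G x ≠ 0) :
    ∀ᵐ ξ ∂(pim ι (stdGaussian (E N))), stp net β h k G ξ x ≠ 0 := by
  have h1 := CMMom_hat_ne hN hβ hh hx (-((k * h) • coup net G x))
  have h2 := (measurePreserving_eval (fun _ : ι => stdGaussian (E N)) x).quasiMeasurePreserving.ae h1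
  filter_upwards [h2] with ξ hξ h0
  apply hξ
  unfold stp at h0
  exact eq_neg_of_add_eq_zero_left h0

private theorem CMMom_nz_meas {N : ℕ} {ι : Type} [Fintype ι] (k : ℝ) :
    MeasurableSet {G : ι → E N | Nz k G} := by
  unfold Nz
  have h1 : MeasurableSet {G : ι → E N | ∀ z, G z ≠ 0} := by
    have : {G : ι → E N | ∀ z, G z ≠ 0} = ⋂ z, {G | G z ≠ 0} := by
      ext G; simp
    rw [this]
    refine MeasurableSet.iInter fun z => ?_
    exact (measurableSet_eq_fun (measurable_pi_apply z) measurable_const).compl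
  have h2 : MeasurableSet {G : ι → E N | 0 < k ∧ G ≠ 0} := by
    by_cases hk : 0 < k
    · have : {G : ι → E N | 0 < k ∧ G ≠ 0} = {0}ᶜ := by
        ext G; simp [hk]
      rw [this]
      exact (measurableSet_singleton _).compl
    · have : {G : ι → E N | 0 < k ∧ G ≠ 0} = ∅ := by
        ext G; simp [hk]
      rw [this]
      exact MeasurableSet.empty
  exact h1.union h2

private theorem CMMom_nz_one {N d : ℕ} {ι : Type} [Fintype ι] (net : Net ι d) {β h k : ℝ}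
    (hN : 1 ≤ N) (hβ : 0 < β) (hh : 0 < h) (G : ι → E N) (hG : Nz k G) :
    ∀ᵐ ξ ∂(pim ι (stdGaussian (E N))), Nz k (stp net β h k G ξ) := by
  rcases hG with hG | ⟨hk0, hG⟩
  · have h1 : ∀ᵐ ξ ∂(pim ι (stdGaussian (E N))), ∀ z, stp net β h k G ξ z ≠ 0 :=
      ae_all_iff.2 fun z => CMMom_stp_ne net hN hβ hh G z (hG z)
    filter_upwards [h1] with ξ hξ
    exact Or.inl hξ
  · obtain ⟨x, hx⟩ : ∃ x, G x ≠ 0 := by
      by_contra hc
      push Not at hc
      exact hG (funext hc)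
    filter_upwards [CMMom_stp_ne net (k := k) hN hβ hh G x hx] with ξ hξ
    refine Or.inr ⟨hk0, fun h0 => hξ ?_⟩
    rw [h0]
    rfl

private theorem CMMom_nz_chain {N d : ℕ} {ι : Type} [Fintype ι] (net : Net ι d) {β h k : ℝ}
    (hN : 1 ≤ N) (hβ : 0 < β) (hh : 0 < h) (m0 : Measure (ι → E N)) [IsProbabilityMeasure m0]
    (hm : ∀ᵐ G ∂m0, Nz k G) (n : ℕ) :
    ∀ᵐ G ∂(chainLaw net β h k (stdGaussian (E N)) m0 n), Nz k G := by
  have hp : IsProbabilityMeasure (pim ι (stdGaussian (E N))) := by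
    unfold pim
    infer_instance
  induction n with
  | zero => exact hm
  | succ n ih =>
    have hPr := chainLaw_prob (net := net) (k := k) (ν := stdGaussian (E N)) hβ hh.le m0 n
    have hst := (stp_continuous (N := N) hβ hh.le k net).measurable
    have hS := CMMom_nz_meas (N := N) (ι := ι) k
    rw [chainLaw, ae_map_iff hst.aemeasurable hS]
    have hS2 : MeasurableSet {q : (ι → E N) × (ι → E N) | Nz k (stp net β h k q.1 q.2)} := hst hS
    rw [Measure.ae_prod_iff_ae_ae hS2]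
    filter_upwards [ih] with G hG
    exact CMMom_nz_one net hN hβ hh G hG

theorem cm_exit (N d : ℕ) (β : ℝ) (hβ : 0 < β) (ρ : Measure (E N)) [IsProbabilityMeasure ρ]
    (hρ : Integrable (fun x : E N => ‖x‖ ^ 2) ρ) (L : ℕ) (Sm δ : ℝ) (hSm : 0 ≤ Sm) (hδ : 0 < δ) :
    ∃ h0 : ℝ, 0 < h0 ∧ h0 ≤ 1 ∧ ∀ (h k : ℝ), 0 < h → h < h0 → 0 ≤ k → k ≤ 1 →
    ∀ ν : Measure (E N), Noise2 ν → ∀ n1 n : ℕ, n1 * h ≤ Sm → n * h ≤ Sm →
      ∫ G, exitE (boxNet d L) β h k ν n G
        ∂(chainLaw (boxNet d L) β h k (stdGaussian (E N)) (Measure.pi (fun _ => ρ)) n1) ≤ δ := by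
  obtain ⟨C1, hC1, hex⟩ := exit_bound N d
  set C2 := CMMom_C N d (boxS d L) with hC2
  have hC20 : 0 < C2 := CMMom_C_pos N d (boxS d L)
  set M := 1 + Fintype.card (boxS d L) * ∫ x, ‖x‖ ^ 2 ∂ρ with hM
  have hint0 : 0 ≤ ∫ x, ‖x‖ ^ 2 ∂ρ := integral_nonneg fun x => by positivity
  have hM0 : 0 < M := by positivity
  set K := Real.exp (C1 * Sm) * (Real.exp (C2 * Sm) * M) with hK
  have hK0 : 0 < K := by positivity
  obtain ⟨h0, hh0, hrad⟩ := CMMom_rad β hβ (K / δ + 1)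
  refine ⟨min h0 1, lt_min hh0 one_pos, min_le_right _ _, ?_⟩
  intro h k hh hlt hk hk1 ν hν n1 n hn1 hn
  have h1 : h ≤ 1 := (hlt.trans_le (min_le_right _ _)).le
  have hR := hrad h hh (hlt.trans_le (min_le_left _ _))
  have hR1 : 1 ≤ rad β h := le_trans (by
    have : 0 < K / δ := by positivity
    linarith) hR
  have hR2 : K / δ ≤ rad β h ^ 2 := by nlinarith
  have hγ : Noise2 (stdGaussian (E N)) := gauss_noise2 N
  have := hν.prob
  have hPr := chainLaw_prob (net := boxNet d L) (k := k) (ν := stdGaussian (E N)) hβ hh.le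
    (Measure.pi (fun _ : boxS d L => ρ)) n1
  set μ := chainLaw (boxNet d L) β h k (stdGaussian (E N)) (Measure.pi (fun _ => ρ)) n1 with hμ
  have hl : ∫⁻ G, ENNReal.ofReal (CMMom_f G) ∂μ ≤ ENNReal.ofReal (Real.exp (C2 * Sm) * M) := by
    have h2 := CMMom_chain (boxNet d L) (k := k) hγ hβ hh h1 hk hk1
      (Measure.pi (fun _ : boxS d L => ρ)) n1
    rw [CMMom_init ρ hρ, ← ENNReal.ofReal_mul (by positivity)] at h2
    refine h2.trans (ENNReal.ofReal_le_ofReal ?_)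
    exact mul_le_mul_of_nonneg_right (CMMom_pow hC20.le hh.le n1 hn1) hM0.le
  have hfi : Integrable (CMMom_f : (boxS d L → E N) → ℝ) μ := by
    refine ⟨CMMom_f_meas.aestronglyMeasurable, ?_⟩
    rw [hasFiniteIntegral_iff_ofReal (Filter.Eventually.of_forall CMMom_f_nonneg)]
    exact hl.trans_lt ENNReal.ofReal_lt_top
  have hfI : ∫ G, CMMom_f G ∂μ ≤ Real.exp (C2 * Sm) * M := by
    rw [integral_eq_lintegral_of_nonneg_ae (Filter.Eventually.of_forall CMMom_f_nonneg)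
      CMMom_f_meas.aestronglyMeasurable]
    exact ENNReal.toReal_le_of_le_ofReal (by positivity) hl
  have hc0 : 0 ≤ (1 + C1 * h) ^ n / rad β h ^ 2 := by positivity
  have hpt : ∀ G, exitE (boxNet d L) β h k ν n G ≤
      (1 + C1 * h) ^ n / rad β h ^ 2 * CMMom_f G := by
    intro G
    refine (hex (boxNet d L) β h k ν hβ hh h1 hk hk1 hν n G).trans (le_of_eq ?_)
    unfold CMMom_f
    ring
  calc ∫ G, exitE (boxNet d L) β h k ν n G ∂μ
      ≤ ∫ G, (1 + C1 * h) ^ n / rad β h ^ 2 * CMMom_f G ∂μ := by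
        refine integral_mono_of_nonneg (Filter.Eventually.of_forall fun G =>
          ((exitE_facts (net := boxNet d L) (k := k) (ν := ν) hβ hh.le n).2 G).1)
          (hfi.const_mul _) (Filter.Eventually.of_forall hpt)
    _ = (1 + C1 * h) ^ n / rad β h ^ 2 * ∫ G, CMMom_f G ∂μ := integral_const_mul _ _
    _ ≤ (1 + C1 * h) ^ n / rad β h ^ 2 * (Real.exp (C2 * Sm) * M) :=
        mul_le_mul_of_nonneg_left hfI hc0
    _ ≤ Real.exp (C1 * Sm) / rad β h ^ 2 * (Real.exp (C2 * Sm) * M) := by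
        have h3 := CMMom_pow hC1.le hh.le n hn
        have h4 : 0 < rad β h ^ 2 := by positivity
        gcongr
    _ = K / rad β h ^ 2 := by rw [hK]; ring
    _ ≤ δ := by
        rw [div_le_iff₀ (by positivity)]
        rw [div_le_iff₀ hδ] at hR2
        linarith

theorem cm_nz (N d : ℕ) (β h k : ℝ) (hN : 1 ≤ N) (hβ : 0 < β) (hh : 0 < h) (hk : 0 ≤ k)
    (ρ : Measure (E N)) [IsProbabilityMeasure ρ] (hρ : ρ {0} = 0) (L n : ℕ) :
    ∀ᵐ G ∂(chainLaw (boxNet d L) β h k (stdGaussian (E N)) (Measure.pi (fun _ => ρ)) n),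
      Nz k G := by
  exact CMMom_nz_chain (boxNet d L) hN hβ hh _ (init_nz k hk ρ hρ L) n

end Dyn
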