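import Pool.Agent.Lib_MP_36b788.PathM

/-!
# PATHR2: drift of the local second moment

PROOF. `X = g+√h‖g‖ξ = ĝ+h‖ĝ‖^βĝ` (J_eq), so `‖X‖² = ‖ĝ‖²(1+h‖ĝ‖^β)² ≥ ‖ĝ‖² + 2h‖ĝ‖^{2+β}`, `t^{2+β} ≥ K t² - C_K` with `K = N+2`,
`C_K = K^{(2+β)/β}` (`t ≥ K^{1/β}`: `t^{2+β} ≥ K t²`; otherwise `K t² ≤ K^{1+2/β}`). `∫‖X‖² ≤ (1+Nh)‖g‖²` (mean zero). So
`(1+2(N+2)h)∫‖ĝ‖² ≤ (1+Nh)‖g‖² + 2hC_K`, and for `h ≤ 1/4`: `(1+Nh) ≤ (1-2h)(1+2(N+2)h)`, hence `∫‖ĝ‖² ≤ (1-2h)‖g‖²+2C_Kh`.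
`‖stp_x‖² ≤ (1+h)‖ĝ_x‖² + (1+1/h)k²h²‖coup_x‖²`, `(1+h)(1-2h) ≤ 1-h`, `(1+1/h)k²h² ≤ 2k²h`, and
`Σ_x 2^{-|o-x|}‖coup_x‖² ≤ C_d R2_o` (`‖coup_x‖² ≤ (4d+1)(Σ_{w~x}‖G w‖²+4d²‖G x‖²)`, `2^{-|o-x|} ≤ 2·2^{-|o-w|}` for `w ~ x`), so for
`2k0²C_d ≤ 1/2`: `∫R2(stp) ≤ (1-½h)R2 + C h` (`sum_half`).
-/

open MeasureTheory ProbabilityTheory

namespace Dyn

/-- `K t² ≤ t^β t² + K^{1+2/β}` -/
private lemma PathR2_power (β K t : ℝ) (hβ : 0 < β) (hK : 1 ≤ K) (ht : 0 ≤ t) :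
    K * t ^ 2 ≤ t ^ β * t ^ 2 + K * (K ^ (1 / β)) ^ 2 := by
  rcases le_total K (t ^ β) with h | h
  · have h1 : K * t ^ 2 ≤ t ^ β * t ^ 2 := mul_le_mul_of_nonneg_right h (by positivity)
    have h2 : 0 ≤ K * (K ^ (1 / β)) ^ 2 := by positivity
    linarith
  · have h1 : t ≤ K ^ (1 / β) := by
      calc t = (t ^ β) ^ (1 / β) := by
            rw [← Real.rpow_mul ht, mul_one_div_cancel hβ.ne', Real.rpow_one]
        _ ≤ K ^ (1 / β) := Real.rpow_le_rpow (Real.rpow_nonneg ht _) h (by positivity)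
    have h2 : K * t ^ 2 ≤ K * (K ^ (1 / β)) ^ 2 := by gcongr
    have h3 : 0 ≤ t ^ β * t ^ 2 := by positivity
    linarith

/-- pointwise bound of the damped step -/
private lemma PathR2_point {N : ℕ} (β h K : ℝ) (hβ : 0 < β) (hh : 0 ≤ h) (hK : 1 ≤ K)
    (g ξ : E N) :
    (1 + 2 * K * h) * ‖hat β h g ξ‖ ^ 2 ≤
      ‖g + (Real.sqrt h * ‖g‖) • ξ‖ ^ 2 + 2 * h * (K * (K ^ (1 / β)) ^ 2) := by
  have h1 := J_eq hβ hh (g + (Real.sqrt h * ‖g‖) • ξ)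
  have h2 : hat β h g ξ = J β h (g + (Real.sqrt h * ‖g‖) • ξ) := rfl
  rw [← h2] at h1
  set u := hat β h g ξ with hu
  have hn : ‖g + (Real.sqrt h * ‖g‖) • ξ‖ = (1 + h * ‖u‖ ^ β) * ‖u‖ := by
    rw [← h1]
    have : u + (h * ‖u‖ ^ β) • u = (1 + h * ‖u‖ ^ β) • u := by rw [add_smul, one_smul]
    rw [this, norm_smul, Real.norm_eq_abs, abs_of_pos]
    positivity
  rw [hn]
  have h3 := PathR2_power β K ‖u‖ hβ hK (norm_nonneg u)
  have h4 : 0 ≤ (h * ‖u‖ ^ β) ^ 2 * ‖u‖ ^ 2 := by positivity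
  nlinarith

private lemma PathR2_cont {N : ℕ} {β h : ℝ} (hβ : 0 < β) (hh : 0 ≤ h) (g : E N) :
    Continuous (fun ξ : E N => hat β h g ξ) := by
  have h1 : Continuous (fun ξ : E N => (g, ξ)) := by fun_prop
  have h2 := (hat_continuous (N := N) hβ hh).comp h1
  exact h2

/-- one site moment -/
private lemma PathR2_site {N : ℕ} (β h : ℝ) (hβ : 0 < β) (hh : 0 < h) (hh1 : h ≤ 1 / 4)
    (ν : Measure (E N)) (hν : Noise2 ν) (g : E N) :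
    Integrable (fun ξ => ‖hat β h g ξ‖ ^ 2) ν ∧
    ∫ ξ, ‖hat β h g ξ‖ ^ 2 ∂ν ≤
      (1 - 2 * h) * ‖g‖ ^ 2 + 2 * (((N : ℝ) + 2) * (((N : ℝ) + 2) ^ (1 / β)) ^ 2) * h := by
  have := hν.prob
  have hsq := hν.int
  set K : ℝ := (N : ℝ) + 2 with hK
  have hK1 : 1 ≤ K := by rw [hK]; have : (0 : ℝ) ≤ N := by positivity
                         linarith
  have hid : Integrable (fun ξ : E N => ξ) ν := by
    refine Integrable.mono' ((integrable_const (1 : ℝ)).add hsq) aestronglyMeasurable_id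
      (Filter.Eventually.of_forall fun ξ => ?_)
    simp only [Pi.add_apply]
    nlinarith [norm_nonneg ξ, sq_nonneg (‖ξ‖ - 1)]
  have hinn : Integrable (fun ξ : E N => (inner ℝ g ξ : ℝ)) ν := hid.const_inner g
  have hexp : ∀ ξ : E N, ‖g + (Real.sqrt h * ‖g‖) • ξ‖ ^ 2 =
      ‖g‖ ^ 2 + 2 * (Real.sqrt h * ‖g‖) * (inner ℝ g ξ : ℝ) + h * ‖g‖ ^ 2 * ‖ξ‖ ^ 2 := by
    intro ξ
    rw [norm_add_sq_real, inner_smul_right, norm_smul, Real.norm_eq_abs, mul_pow, sq_abs, mul_pow,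
      Real.sq_sqrt hh.le]
    ring
  have hXint : Integrable (fun ξ : E N => ‖g + (Real.sqrt h * ‖g‖) • ξ‖ ^ 2) ν := by
    simp_rw [hexp]
    exact ((integrable_const _).add (hinn.const_mul _)).add (hsq.const_mul _)
  have hXval : ∫ ξ, ‖g + (Real.sqrt h * ‖g‖) • ξ‖ ^ 2 ∂ν ≤ (1 + N * h) * ‖g‖ ^ 2 := by
    have hi1 : Integrable (fun ξ : E N => 2 * (Real.sqrt h * ‖g‖) * (inner ℝ g ξ : ℝ)) ν :=
      hinn.const_mul _
    have hi2 : Integrable (fun ξ : E N => h * ‖g‖ ^ 2 * ‖ξ‖ ^ 2) ν := hsq.const_mul _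
    have hi3 : Integrable (fun ξ : E N => ‖g‖ ^ 2 + 2 * (Real.sqrt h * ‖g‖) * (inner ℝ g ξ : ℝ)) ν :=
      (integrable_const _).add hi1
    have e1 : ∫ ξ : E N, (‖g‖ ^ 2 + 2 * (Real.sqrt h * ‖g‖) * (inner ℝ g ξ : ℝ) +
        h * ‖g‖ ^ 2 * ‖ξ‖ ^ 2) ∂ν = ∫ ξ : E N, (‖g‖ ^ 2 + 2 * (Real.sqrt h * ‖g‖) *
        (inner ℝ g ξ : ℝ)) ∂ν + ∫ ξ : E N, h * ‖g‖ ^ 2 * ‖ξ‖ ^ 2 ∂ν := integral_add hi3 hi2
    have e2 : ∫ ξ : E N, (‖g‖ ^ 2 + 2 * (Real.sqrt h * ‖g‖) * (inner ℝ g ξ : ℝ)) ∂ν =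
        ∫ _ξ : E N, ‖g‖ ^ 2 ∂ν + ∫ ξ : E N, 2 * (Real.sqrt h * ‖g‖) * (inner ℝ g ξ : ℝ) ∂ν :=
      integral_add (integrable_const _) hi1
    have e3 : ∫ ξ : E N, (inner ℝ g ξ : ℝ) ∂ν = 0 := by
      rw [integral_inner hid g, hν.mean, inner_zero_right]
    have e0 : ∫ ξ, ‖g + (Real.sqrt h * ‖g‖) • ξ‖ ^ 2 ∂ν = ‖g‖ ^ 2 + h * ‖g‖ ^ 2 *
        ∫ ξ, ‖ξ‖ ^ 2 ∂ν := by
      rw [integral_congr_ae (Filter.Eventually.of_forall hexp), e1, e2, integral_const_mul,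
        integral_const_mul, e3]
      simp
    rw [e0]
    have h2 : h * ‖g‖ ^ 2 * ∫ ξ, ‖ξ‖ ^ 2 ∂ν ≤ h * ‖g‖ ^ 2 * N :=
      mul_le_mul_of_nonneg_left hν.mom (by positivity)
    linarith
  have hcont : Continuous (fun ξ : E N => hat β h g ξ) := PathR2_cont hβ hh.le g
  have hint : Integrable (fun ξ => ‖hat β h g ξ‖ ^ 2) ν := by
    refine Integrable.mono' (hXint.add (integrable_const (2 * h * (K * (K ^ (1 / β)) ^ 2))))
      (hcont.norm.pow 2).aestronglyMeasurable (Filter.Eventually.of_forall fun ξ => ?_)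
    have h1 := PathR2_point β h K hβ hh.le hK1 g ξ
    have h2 : 0 ≤ 2 * K * h * ‖hat β h g ξ‖ ^ 2 := by positivity
    rw [Real.norm_eq_abs, abs_of_nonneg (by positivity)]
    simp only [Pi.add_apply]
    linarith
  refine ⟨hint, ?_⟩
  have hmain : (1 + 2 * K * h) * ∫ ξ, ‖hat β h g ξ‖ ^ 2 ∂ν ≤
      (1 + N * h) * ‖g‖ ^ 2 + 2 * h * (K * (K ^ (1 / β)) ^ 2) := by
    rw [← integral_const_mul]
    calc ∫ ξ, (1 + 2 * K * h) * ‖hat β h g ξ‖ ^ 2 ∂ν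
        ≤ ∫ ξ, (‖g + (Real.sqrt h * ‖g‖) • ξ‖ ^ 2 + 2 * h * (K * (K ^ (1 / β)) ^ 2)) ∂ν := by
          refine integral_mono (hint.const_mul _) (hXint.add (integrable_const _)) fun ξ => ?_
          exact PathR2_point β h K hβ hh.le hK1 g ξ
      _ = ∫ ξ, ‖g + (Real.sqrt h * ‖g‖) • ξ‖ ^ 2 ∂ν + 2 * h * (K * (K ^ (1 / β)) ^ 2) := by
          rw [integral_add hXint (integrable_const _)]
          simp
      _ ≤ _ := by linarith
  have hKh : 0 ≤ K * h := by positivity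
  have hpos : 0 < 1 + 2 * K * h := by positivity
  have hC : 0 ≤ K * (K ^ (1 / β)) ^ 2 := by positivity
  set C := K * (K ^ (1 / β)) ^ 2 with hCdef
  have hg : 0 ≤ ‖g‖ ^ 2 := by positivity
  have hN : (N : ℝ) = K - 2 := by rw [hK]; ring
  have hco : (1 + N * h) ≤ (1 - 2 * h) * (1 + 2 * K * h) := by
    rw [hN]
    nlinarith
  refine le_of_mul_le_mul_left (hmain.trans ?_) hpos
  have h5 : (1 + N * h) * ‖g‖ ^ 2 ≤ (1 - 2 * h) * (1 + 2 * K * h) * ‖g‖ ^ 2 :=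
    mul_le_mul_of_nonneg_right hco hg
  have h6 : 0 ≤ 2 * K * h * (2 * C * h) := by positivity
  calc (1 + N * h) * ‖g‖ ^ 2 + 2 * h * C
      ≤ (1 - 2 * h) * (1 + 2 * K * h) * ‖g‖ ^ 2 + 2 * h * C := by linarith
    _ ≤ (1 - 2 * h) * (1 + 2 * K * h) * ‖g‖ ^ 2 + 2 * h * C + 2 * K * h * (2 * C * h) := by
        linarith
    _ = (1 + 2 * K * h) * ((1 - 2 * h) * ‖g‖ ^ 2 + 2 * C * h) := by ring

/-- bound of the coupling at one site -/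
private lemma PathR2_coup {N d : ℕ} {ι : Type} [Fintype ι] (net : Net ι d) (G : ι → E N) (z : ι) :
    ‖coup net G z‖ ^ 2 ≤ 4 * d * ∑ w ∈ net.nb z, ‖G w‖ ^ 2 + 8 * d ^ 2 * ‖G z‖ ^ 2 := by
  have h1 : ‖coup net G z‖ ≤ ∑ w ∈ net.nb z, ‖G w‖ + 2 * d * ‖G z‖ := by
    unfold coup
    refine (norm_sub_le _ _).trans ?_
    have h2 := norm_sum_le (net.nb z) G
    have h3 : ‖((2 * d : ℕ) : ℝ) • G z‖ = 2 * d * ‖G z‖ := by
      rw [norm_smul, Real.norm_eq_abs, abs_of_nonneg (by positivity)]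
      push_cast
      ring
    linarith
  have h2 : (∑ w ∈ net.nb z, ‖G w‖) ^ 2 ≤ (net.nb z).card * ∑ w ∈ net.nb z, ‖G w‖ ^ 2 :=
    sq_sum_le_card_mul_sum_sq
  have h3 : ((net.nb z).card : ℝ) ≤ 2 * d := by exact_mod_cast net.nb_card z
  have h4 : 0 ≤ ∑ w ∈ net.nb z, ‖G w‖ ^ 2 := Finset.sum_nonneg fun _ _ => by positivity
  have h5 : (∑ w ∈ net.nb z, ‖G w‖) ^ 2 ≤ 2 * d * ∑ w ∈ net.nb z, ‖G w‖ ^ 2 :=
    h2.trans (mul_le_mul_of_nonneg_right h3 h4)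
  have h6 : ‖coup net G z‖ ^ 2 ≤ (∑ w ∈ net.nb z, ‖G w‖ + 2 * d * ‖G z‖) ^ 2 :=
    pow_le_pow_left₀ (norm_nonneg _) h1 2
  have h7 := sq_nonneg (∑ w ∈ net.nb z, ‖G w‖ - 2 * d * ‖G z‖)
  nlinarith

/-- weighted sum of the couplings -/
private lemma PathR2_sum {N d : ℕ} {ι : Type} [Fintype ι] (net : Net ι d) (G : ι → E N) (x : ι) :
    ∑ z, (1 / 2 : ℝ) ^ net.dist x z * ‖coup net G z‖ ^ 2 ≤ 24 * (d : ℝ) ^ 2 * R2f net G x := by
  classical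
  have hw : ∀ z w, w ∈ net.nb z →
      (1 / 2 : ℝ) ^ net.dist x z ≤ 2 * (1 / 2 : ℝ) ^ net.dist x w := by
    intro z w hzw
    have h1 := net.dist_tri x z w
    rw [net.dist_nb z w hzw] at h1
    have h2 : (1 / 2 : ℝ) ^ (net.dist x z + 1) ≤ (1 / 2 : ℝ) ^ net.dist x w :=
      pow_le_pow_of_le_one (by norm_num) (by norm_num) h1
    rw [pow_succ] at h2
    linarith
  have h1 : ∑ z, (1 / 2 : ℝ) ^ net.dist x z * ‖coup net G z‖ ^ 2 ≤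
      ∑ z, (4 * d * (∑ w ∈ net.nb z, (1 / 2 : ℝ) ^ net.dist x z * ‖G w‖ ^ 2) +
        8 * d ^ 2 * ((1 / 2 : ℝ) ^ net.dist x z * ‖G z‖ ^ 2)) := by
    refine Finset.sum_le_sum fun z _ => ?_
    have h2 := PathR2_coup net G z
    have h3 : 0 ≤ (1 / 2 : ℝ) ^ net.dist x z := by positivity
    calc (1 / 2 : ℝ) ^ net.dist x z * ‖coup net G z‖ ^ 2
        ≤ (1 / 2 : ℝ) ^ net.dist x z *
          (4 * d * ∑ w ∈ net.nb z, ‖G w‖ ^ 2 + 8 * d ^ 2 * ‖G z‖ ^ 2) :=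
          mul_le_mul_of_nonneg_left h2 h3
      _ = _ := by rw [← Finset.mul_sum]; ring
  refine h1.trans ?_
  rw [Finset.sum_add_distrib, ← Finset.mul_sum, ← Finset.mul_sum]
  have h2 : ∑ z, ∑ w ∈ net.nb z, (1 / 2 : ℝ) ^ net.dist x z * ‖G w‖ ^ 2 ≤
      4 * d * R2f net G x := by
    calc ∑ z, ∑ w ∈ net.nb z, (1 / 2 : ℝ) ^ net.dist x z * ‖G w‖ ^ 2
        ≤ ∑ z, ∑ w ∈ net.nb z, 2 * ((1 / 2 : ℝ) ^ net.dist x w * ‖G w‖ ^ 2) := by
          refine Finset.sum_le_sum fun z _ => Finset.sum_le_sum fun w hwz => ?_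
          have h3 := hw z w hwz
          have h4 : 0 ≤ ‖G w‖ ^ 2 := by positivity
          calc (1 / 2 : ℝ) ^ net.dist x z * ‖G w‖ ^ 2
              ≤ 2 * (1 / 2 : ℝ) ^ net.dist x w * ‖G w‖ ^ 2 := mul_le_mul_of_nonneg_right h3 h4
            _ = _ := by ring
      _ = ∑ z, ∑ w, if w ∈ net.nb z then 2 * ((1 / 2 : ℝ) ^ net.dist x w * ‖G w‖ ^ 2) else 0 := by
          refine Finset.sum_congr rfl fun z _ => ?_
          rw [Finset.sum_ite_mem, Finset.univ_inter]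
      _ = ∑ w, ∑ z, if z ∈ net.nb w then 2 * ((1 / 2 : ℝ) ^ net.dist x w * ‖G w‖ ^ 2) else 0 := by
          rw [Finset.sum_comm]
          refine Finset.sum_congr rfl fun w _ => Finset.sum_congr rfl fun z _ => ?_
          have : w ∈ net.nb z ↔ z ∈ net.nb w := ⟨net.nb_symm z w, net.nb_symm w z⟩
          simp only [this]
      _ = ∑ w, ((net.nb w).card : ℝ) * (2 * ((1 / 2 : ℝ) ^ net.dist x w * ‖G w‖ ^ 2)) := by
          refine Finset.sum_congr rfl fun w _ => ?_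
          rw [Finset.sum_ite_mem, Finset.univ_inter, Finset.sum_const, nsmul_eq_mul]
      _ ≤ ∑ w, (2 * d : ℝ) * (2 * ((1 / 2 : ℝ) ^ net.dist x w * ‖G w‖ ^ 2)) := by
          refine Finset.sum_le_sum fun w _ => ?_
          have h3 : ((net.nb w).card : ℝ) ≤ 2 * d := by exact_mod_cast net.nb_card w
          exact mul_le_mul_of_nonneg_right h3 (by positivity)
      _ = 4 * d * R2f net G x := by
          unfold R2f
          rw [← Finset.mul_sum, ← Finset.mul_sum]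
          ring
  have h3 : ∑ z, (1 / 2 : ℝ) ^ net.dist x z * ‖G z‖ ^ 2 = R2f net G x := rfl
  rw [h3]
  have h4 : 4 * (d : ℝ) * ∑ z, ∑ w ∈ net.nb z, (1 / 2 : ℝ) ^ net.dist x z * ‖G w‖ ^ 2 ≤
      4 * d * (4 * d * R2f net G x) := mul_le_mul_of_nonneg_left h2 (by positivity)
  nlinarith

theorem r2_drift (N d : ℕ) (β : ℝ) (hβ : 0 < β) : ∃ k0 h0 C : ℝ, 0 < k0 ∧ k0 ≤ 1 ∧ 0 < h0 ∧ h0 ≤ 1 ∧
    0 < C ∧
    ∀ {ι : Type} [Fintype ι] (net : Net ι d) (h k : ℝ) (ν : Measure (E N)), 0 < h → h < h0 →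
      0 ≤ k → k ≤ k0 → Noise2 ν → ∀ (G : ι → E N) (x : ι),
      Integrable (fun ξ => R2f net (stp net β h k G ξ) x) (pim ι ν) ∧
      ∫ ξ, R2f net (stp net β h k G ξ) x ∂(pim ι ν) ≤ (1 - 1 / 2 * h) * R2f net G x + C * h := by
  set CK : ℝ := ((N : ℝ) + 2) * (((N : ℝ) + 2) ^ (1 / β)) ^ 2 with hCK
  have hCKpos : 0 < CK := by positivity
  set Cd : ℝ := 24 * (d : ℝ) ^ 2 + 1 with hCd
  have hCd1 : 1 ≤ Cd := by rw [hCd]; have : 0 ≤ 24 * (d : ℝ) ^ 2 := by positivity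
                           linarith
  refine ⟨1 / (2 * Cd), 1 / 4, 4 * CK * 3 ^ d, by positivity, ?_, by norm_num, by norm_num,
    by positivity, ?_⟩
  · rw [div_le_one (by positivity)]; linarith
  intro ι _ net h k ν hh hh1 hk hk1 hν G x
  have := hν.prob
  have hh1' : h ≤ 1 / 4 := hh1.le
  -- one site
  have hcont : ∀ z, Continuous (fun v : E N => hat β h (G z) v + (k * h) • coup net G z) := by
    intro z
    exact (PathR2_cont hβ hh.le (G z)).add continuous_const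
  have hpt : ∀ z (v : E N), ‖hat β h (G z) v + (k * h) • coup net G z‖ ^ 2 ≤
      (1 + h) * ‖hat β h (G z) v‖ ^ 2 + 2 * k ^ 2 * h * ‖coup net G z‖ ^ 2 := by
    intro z v
    have h1 : ‖hat β h (G z) v + (k * h) • coup net G z‖ ≤
        ‖hat β h (G z) v‖ + k * h * ‖coup net G z‖ := by
      refine (norm_add_le _ _).trans ?_
      rw [norm_smul, Real.norm_eq_abs, abs_of_nonneg (by positivity)]
    have h2 := pow_le_pow_left₀ (norm_nonneg _) h1 2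
    refine h2.trans ?_
    set a := ‖hat β h (G z) v‖
    set c := ‖coup net G z‖
    have ha : 0 ≤ a := norm_nonneg _
    have hc : 0 ≤ c := norm_nonneg _
    have h3 : 0 ≤ h * (a - k * c) ^ 2 := by positivity
    have h4 : 0 ≤ k ^ 2 * c ^ 2 := by positivity
    have h5 : 0 ≤ (h - h ^ 2) * (k ^ 2 * c ^ 2) := by
      apply mul_nonneg _ h4
      nlinarith
    nlinarith
  have hsite : ∀ z, Integrable (fun v : E N => ‖hat β h (G z) v + (k * h) • coup net G z‖ ^ 2) ν ∧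
      ∫ v, ‖hat β h (G z) v + (k * h) • coup net G z‖ ^ 2 ∂ν ≤
        (1 - h) * ‖G z‖ ^ 2 + 4 * CK * h + 2 * k ^ 2 * h * ‖coup net G z‖ ^ 2 := by
    intro z
    obtain ⟨hi, hb⟩ := PathR2_site β h hβ hh hh1' ν hν (G z)
    have hi2 : Integrable (fun v : E N => (1 + h) * ‖hat β h (G z) v‖ ^ 2 +
        2 * k ^ 2 * h * ‖coup net G z‖ ^ 2) ν := (hi.const_mul _).add (integrable_const _)
    have hi1 : Integrable (fun v : E N => ‖hat β h (G z) v + (k * h) • coup net G z‖ ^ 2) ν := by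
      refine Integrable.mono' hi2 (((hcont z).norm.pow 2).aestronglyMeasurable)
        (Filter.Eventually.of_forall fun v => ?_)
      rw [Real.norm_eq_abs, abs_of_nonneg (by positivity)]
      exact hpt z v
    refine ⟨hi1, ?_⟩
    calc ∫ v, ‖hat β h (G z) v + (k * h) • coup net G z‖ ^ 2 ∂ν
        ≤ ∫ v, ((1 + h) * ‖hat β h (G z) v‖ ^ 2 + 2 * k ^ 2 * h * ‖coup net G z‖ ^ 2) ∂ν :=
          integral_mono hi1 hi2 fun v => hpt z v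
      _ = (1 + h) * ∫ v, ‖hat β h (G z) v‖ ^ 2 ∂ν + 2 * k ^ 2 * h * ‖coup net G z‖ ^ 2 := by
          rw [integral_add (hi.const_mul _) (integrable_const _), integral_const_mul]
          simp
      _ ≤ (1 + h) * ((1 - 2 * h) * ‖G z‖ ^ 2 + 2 * CK * h) +
          2 * k ^ 2 * h * ‖coup net G z‖ ^ 2 := by
          have := mul_le_mul_of_nonneg_left hb (by linarith : (0 : ℝ) ≤ 1 + h)
          linarith
      _ ≤ _ := by
          have h1 : 0 ≤ h ^ 2 * ‖G z‖ ^ 2 := by positivity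
          have h2 : 0 ≤ (1 - h) * (CK * h) := mul_nonneg (by linarith) (by positivity)
          nlinarith
  -- the product
  have hterm : ∀ z, Integrable (fun ξ : ι → E N =>
      (1 / 2 : ℝ) ^ net.dist x z * ‖stp net β h k G ξ z‖ ^ 2) (pim ι ν) := by
    intro z
    refine Integrable.const_mul ?_ _
    exact integrable_comp_eval (μ := fun _ : ι => ν) (i := z)
      (f := fun v : E N => ‖hat β h (G z) v + (k * h) • coup net G z‖ ^ 2) (hsite z).1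
  have htv : ∀ z, ∫ ξ, ‖stp net β h k G ξ z‖ ^ 2 ∂(pim ι ν) =
      ∫ v, ‖hat β h (G z) v + (k * h) • coup net G z‖ ^ 2 ∂ν := by
    intro z
    exact integral_comp_eval (μ := fun _ : ι => ν) (i := z)
      (f := fun v : E N => ‖hat β h (G z) v + (k * h) • coup net G z‖ ^ 2)
      (hsite z).1.aestronglyMeasurable
  refine ⟨integrable_finsetSum _ fun z _ => hterm z, ?_⟩
  unfold R2f
  rw [integral_finsetSum _ fun z _ => hterm z]
  simp_rw [integral_const_mul, htv]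
  have hS : ∑ z, (1 / 2 : ℝ) ^ net.dist x z *
      ∫ v, ‖hat β h (G z) v + (k * h) • coup net G z‖ ^ 2 ∂ν ≤
      ∑ z, (1 / 2 : ℝ) ^ net.dist x z *
        ((1 - h) * ‖G z‖ ^ 2 + 4 * CK * h + 2 * k ^ 2 * h * ‖coup net G z‖ ^ 2) :=
    Finset.sum_le_sum fun z _ => mul_le_mul_of_nonneg_left (hsite z).2 (by positivity)
  refine hS.trans ?_
  have hsplit : ∑ z, (1 / 2 : ℝ) ^ net.dist x z *
        ((1 - h) * ‖G z‖ ^ 2 + 4 * CK * h + 2 * k ^ 2 * h * ‖coup net G z‖ ^ 2) =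
      (1 - h) * (∑ z, (1 / 2 : ℝ) ^ net.dist x z * ‖G z‖ ^ 2) +
      4 * CK * h * (∑ z, (1 / 2 : ℝ) ^ net.dist x z) +
      2 * k ^ 2 * h * (∑ z, (1 / 2 : ℝ) ^ net.dist x z * ‖coup net G z‖ ^ 2) := by
    rw [Finset.mul_sum, Finset.mul_sum, Finset.mul_sum, ← Finset.sum_add_distrib,
      ← Finset.sum_add_distrib]
    refine Finset.sum_congr rfl fun z _ => ?_
    ring
  rw [hsplit]
  have hR : 0 ≤ ∑ z, (1 / 2 : ℝ) ^ net.dist x z * ‖G z‖ ^ 2 :=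
    Finset.sum_nonneg fun z _ => by positivity
  have h1 := PathR2_sum net G x
  unfold R2f at h1
  set R := ∑ z, (1 / 2 : ℝ) ^ net.dist x z * ‖G z‖ ^ 2 with hRdef
  have h2 := net.sum_half x
  have h3 : 4 * CK * h * (∑ z, (1 / 2 : ℝ) ^ net.dist x z) ≤ 4 * CK * h * 3 ^ d :=
    mul_le_mul_of_nonneg_left h2 (by positivity)
  have h4 : 2 * k ^ 2 * h * (∑ z, (1 / 2 : ℝ) ^ net.dist x z * ‖coup net G z‖ ^ 2) ≤
      2 * k ^ 2 * h * (Cd * R) := by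
    apply mul_le_mul_of_nonneg_left _ (by positivity)
    rw [hCd]
    linarith
  have h5 : k ^ 2 * Cd ≤ 1 / 4 := by
    have h6 : k ^ 2 ≤ (1 / (2 * Cd)) ^ 2 := pow_le_pow_left₀ hk hk1 2
    have h7 : (1 / (2 * Cd)) ^ 2 * Cd ≤ 1 / 4 := by
      have : (1 / (2 * Cd)) ^ 2 * Cd = 1 / (4 * Cd) := by field_simp; norm_num
      rw [this, div_le_div_iff₀ (by positivity) (by norm_num)]
      linarith
    have h8 : k ^ 2 * Cd ≤ (1 / (2 * Cd)) ^ 2 * Cd :=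
      mul_le_mul_of_nonneg_right h6 (by linarith)
    linarith
  have h6 : 2 * k ^ 2 * h * (Cd * R) ≤ 1 / 2 * h * R := by
    have h7 : 0 ≤ h * R := by positivity
    have h8 := mul_le_mul_of_nonneg_right h5 h7
    nlinarith
  linarith

end Dyn
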