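import Pool.Agent.Lib_MP_36b788.PhiDefs

/-!
# PHMEAS: measurability of the functionals, continuity of the step

PROOF. `y` monotone so measurable; `ctil`, `mm`, `th`, `gf` are measurable functions of `G w`; finite sums, `exp`, `log`,
real powers. `stp` is continuous: `hat` is (JMap), `coup` is linear.
-/

open MeasureTheory

namespace Dyn

private theorem mth (s : ℝ) : Measurable (th s) := by
  unfold th
  fun_prop

private theorem mom (r1 : ℝ) : Measurable (om r1) := by
  unfold om
  have h := (Real.smoothTransition.continuous).measurable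
  exact h.comp (Real.measurable_log.comp (measurable_id.div_const r1))

private theorem mct {N : ℕ} (r1 : ℝ) (y : ℝ → ℝ) (hy : Measurable y) :
    Measurable (ctil (N := N) r1 y) := by
  unfold ctil
  have h1 : Measurable (fun g : E N => om r1 ‖g‖) := (mom r1).comp measurable_norm
  have h2 : Measurable (fun g : E N => y ‖g‖) := hy.comp measurable_norm
  exact ((h1.mul h2).div measurable_norm).smul measurable_id

private theorem mtt : Measurable tt := by
  unfold tt
  fun_prop

private theorem mmm (N : ℕ) (β r1 Rc : ℝ) : Measurable (mm N β r1 Rc) := by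
  unfold mm
  have h1 : Measurable (MM N β r1 Rc) := by
    unfold MM
    have ha : Measurable (fun r : ℝ => tt (r / r1)) := mtt.comp (measurable_id.div_const r1)
    have hb : Measurable (fun r : ℝ => th (β - 1) (r / Rc)) := (mth _).comp (measurable_id.div_const Rc)
    have hc : Measurable (fun r : ℝ => Real.exp (-r)) := by fun_prop
    have hd : Measurable (fun r : ℝ => Real.sqrt r) := by fun_prop
    exact hc.add (hd.mul ((ha.const_mul _).add hb))
  exact h1.pow_const _

private theorem mgf (n : ℕ) (R6 r5 : ℝ) : Measurable (gf n R6 r5) := by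
  unfold gf
  fun_prop

section

variable {N d : ℕ} {ι : Type} [Fintype ι]

private theorem mHh (net : Net ι d) (β : ℝ) (z : ι) :
    Measurable (fun G : ι → E N => Hh net β G z) := by
  unfold Hh
  refine Finset.measurable_sum _ (fun w _ => ?_)
  exact ((mth _).comp ((measurable_pi_apply w).norm)).const_mul _

private theorem mYv (net : Net ι d) (k r1 : ℝ) (y : ℝ → ℝ) (hy : Measurable y) (z : ι) :
    Measurable (fun G : ι → E N => Yv net k r1 y G z) := by
  unfold Yv
  refine (measurable_pi_apply z).add (Measurable.const_smul ?_ k)
  exact Finset.measurable_sum _ (fun w _ => (mct r1 y hy).comp (measurable_pi_apply w))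

private theorem mVV (net : Net ι d) (β k A Rc θ m : ℝ) (y : ℝ → ℝ) (hy : Measurable y) (z : ι) :
    Measurable (fun G : ι → E N => VV net β k A Rc θ m y G z) := by
  have hW : ∀ x, Measurable (fun G : ι → E N => WW net β (A * k) A Rc θ G z x) := by
    intro x
    unfold WW
    have h1 : Measurable (fun G : ι → E N => mm N β (1 / A) Rc ‖G x‖) :=
      (mmm N β (1 / A) Rc).comp ((measurable_pi_apply x).norm)
    have h2 : Measurable (fun G : ι → E N => Real.exp (-(θ * Hh net β G x))) :=
      Real.measurable_exp.comp (((mHh net β x).const_mul θ).neg)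
    exact (h1.const_mul _).mul h2
  have hS : Measurable (fun G : ι → E N => SS net β k A Rc θ y G z) := by
    unfold SS
    exact Finset.measurable_sum _ (fun x _ => (hW x).mul (((mYv net k (1 / A) y hy x).norm).pow_const 2))
  unfold VV
  exact Real.measurable_exp.comp (((Real.measurable_log.comp hS).add_const _).const_mul _)

end

/-- measurability of the functionals in the configuration -/
theorem vs_meas {N d : ℕ} {β D0 : ℝ} (Bs : Base N d β D0) (m k : ℝ) {ι : Type} [Fintype ι]
    (net : Net ι d) (y : ℝ → ℝ) (hy : Monotone y) (z : ι) :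
    Measurable (fun G : ι → E N => Vs Bs m net k y G z) := by
  unfold Vs
  exact mVV net β k _ _ _ m y hy.measurable z

theorem PHI_meas {N d : ℕ} {β D0 : ℝ} (Bs : Base N d β D0) (P : PP) (k : ℝ) {ι : Type} [Fintype ι]
    (net : Net ι d) (y : ℝ → ℝ) (hy : Monotone y) (o : ι) :
    Measurable (fun q : (ι → E N) × (ι → E N) => PHI Bs P net k y q.1 q.2 o) := by
  have hphi : ∀ x, Measurable (fun q : (ι → E N) × (ι → E N) => phi P net β k q.1 q.2 x) := by
    intro x
    unfold phi
    have h1 : Measurable (fun q : (ι → E N) × (ι → E N) => Dt net (P.B * k) q.1 q.2 x) := by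
      unfold Dt
      refine Finset.measurable_sum _ (fun w _ => Measurable.const_mul ?_ _)
      exact (((measurable_pi_apply w).comp measurable_fst).sub ((measurable_pi_apply w).comp measurable_snd)).norm
    have h2 : Measurable (fun q : (ι → E N) × (ι → E N) => gf P.n P.R6 P.r5 ‖q.1 x‖) :=
      (mgf _ _ _).comp (((measurable_pi_apply x).comp measurable_fst).norm)
    have h3 : Measurable (fun q : (ι → E N) × (ι → E N) => gf P.n P.R6 P.r5 ‖q.2 x‖) :=
      (mgf _ _ _).comp (((measurable_pi_apply x).comp measurable_snd).norm)
    have h4 : Measurable (fun q : (ι → E N) × (ι → E N) => Hh net β q.1 x + Hh net β q.2 x) :=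
      ((mHh net β x).comp measurable_fst).add ((mHh net β x).comp measurable_snd)
    exact (h1.pow_const _).mul (Real.measurable_exp.comp (((h2.add h3).add (h4.const_mul _)).const_mul _))
  unfold PHI
  refine Finset.measurable_sum _ (fun x _ => Measurable.const_mul ?_ _)
  unfold TT
  refine (hphi x).mul (Measurable.const_add (Measurable.const_mul ?_ _) _)
  refine Finset.measurable_sum _ (fun z _ => Measurable.const_mul ?_ _)
  exact ((vs_meas Bs P.m k net y hy z).comp measurable_fst).add ((vs_meas Bs P.m k net y hy z).comp measurable_snd)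

private theorem t2 {N : ℕ} {β h : ℝ} (hβ : 0 < β) (hh : 0 ≤ h) {X : Type} [TopologicalSpace X] (f : X → E N × E N)
    (hf : Continuous f) : Continuous (fun q => hat β h (f q).1 (f q).2) := by
  have := (hat_continuous (N := N) hβ hh)
  exact this.comp hf

private theorem t3 {N d : ℕ} {ι : Type} [Fintype ι] (net : Net ι d) (x : ι) :
    Continuous (fun G : ι → E N => coup net G x) := by
  unfold coup
  have h3 : Continuous (fun q : ι → E N => ∑ w ∈ net.nb x, q w) :=
    continuous_finsetSum _ (fun w _ => continuous_apply w)
  exact h3.sub ((continuous_apply x).const_smul ((2 * d : ℕ) : ℝ))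

theorem stp_continuous {N d : ℕ} {β h : ℝ} (hβ : 0 < β) (hh : 0 ≤ h) (k : ℝ) {ι : Type} [Fintype ι]
    (net : Net ι d) :
    Continuous (fun q : (ι → E N) × (ι → E N) => stp net β h k q.1 q.2) := by
  refine continuous_pi (fun x => ?_)
  have h0 : Continuous (fun q : (ι → E N) × (ι → E N) => (q.1 x, q.2 x)) :=
    ((continuous_apply x).comp continuous_fst).prodMk ((continuous_apply x).comp continuous_snd)
  have h1 := t2 (N := N) hβ hh (fun q : (ι → E N) × (ι → E N) => (q.1 x, q.2 x)) h0
  have h2 : Continuous (fun q : (ι → E N) × (ι → E N) => coup net q.1 x) :=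
    (t3 net x).comp continuous_fst
  have h3 := h1.add (h2.const_smul (k * h))
  simp only [stp]
  simpa only [Pi.add_def, Pi.smul_def] using h3

end Dyn
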