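import Pool.Agent.Lib_MP_36b788.CMDefs
import Pool.Agent.Lib_MP_36b788.PathR2
import Pool.Agent.Lib_MP_36b788.Trunc
import Pool.Agent.Lib_MP_36b788.PhMeas

/-!
# CMPSI: drift of `PsiK`

PROOF. `kr` = the `k0` of r2_drift, `c = min cm (1/2)`, `C = (Cm + C_{r2})·C_{poly}` (box_poly with `o = 0`, second part:
`Σ_z 1/(1+|z|)^{d+1} ≤ C_poly`; `(1+|z|)^{2q} ≥ 1`). Linear combination of VDrift and r2_drift with the nonnegative weights
`1/(K(1+|z|)^{2q}(1+|z|)^{d+1})`, `1/(K(1+|x|)^{d+1})`, `V², R2 ≥ 0`, `1 - cm h ≤ 1 - c h`, `1 - h/2 ≤ 1 - c h`.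
`isNoise_noise2` (Trunc) gives `Noise2 ν` for an `IsNoise`. Integrability of `V(stp)²`: `Bs.drift` (for this `k ≤ Bs.k0` and net) gives `L` with
`|L| ≤ 1`, `L ≤ log S⁺ - log S` a.e., so `V⁺ ≤ e^{m/2} V` a.e. (definition of `VV`), measurability vs_meas, stp_continuous.
-/

open MeasureTheory ProbabilityTheory

namespace Dyn

private theorem CMPsi_one (d L : ℕ) (z : boxS d L) : (1 : ℝ) ≤ 1 + (l1 (z : Fin d → ℤ) 0 : ℝ) := by
  have : (0 : ℝ) ≤ (l1 (z : Fin d → ℤ) 0 : ℝ) := Nat.cast_nonneg _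
  linarith

private theorem CMPsi_R2 {N d : ℕ} {ι : Type} [Fintype ι] (net : Net ι d) (G : ι → E N) (x : ι) :
    0 ≤ R2f net G x := by
  unfold R2f
  exact Finset.sum_nonneg fun z _ => by positivity

private theorem CMPsi_term (a c cc Cc I V w p K h : ℝ) (hw : 0 < w) (hK : 0 < K) (hp : 0 < p)
    (hpw : K * p ≤ w) (hI : I ≤ (1 - cc * h) * V + Cc * h) (hV : 0 ≤ V) (hh : 0 ≤ h) (hc : c ≤ cc)
    (hCc : 0 ≤ Cc) (ha : a = I / w) :
    a ≤ (1 - c * h) * (V / w) + Cc * h / K * (1 / p) := by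
  rw [ha]
  have h1 : I / w ≤ ((1 - cc * h) * V + Cc * h) / w := div_le_div_of_nonneg_right hI hw.le
  have h2 : ((1 - cc * h) * V + Cc * h) / w = (1 - cc * h) * (V / w) + Cc * h / w := by ring
  have h3 : Cc * h / w ≤ Cc * h / (K * p) :=
    div_le_div_of_nonneg_left (mul_nonneg hCc hh) (mul_pos hK hp) hpw
  have h4 : Cc * h / (K * p) = Cc * h / K * (1 / p) := by
    rw [div_mul_div_comm, mul_one]
  have h5 : (1 - cc * h) * (V / w) ≤ (1 - c * h) * (V / w) := by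
    apply mul_le_mul_of_nonneg_right _ (div_nonneg hV hw.le)
    have := mul_le_mul_of_nonneg_right hc hh
    linarith
  linarith

private theorem CMPsi_int {N d : ℕ} {β D0 : ℝ} (hβ : 1 < β) (Bs : Base N d β D0) (m : ℝ) (hm : 0 < m)
    {h k : ℝ} (hh : 0 < h) {ι : Type} [Fintype ι] (net : Net ι d) (ν : Measure (E N))
    [IsProbabilityMeasure ν] (y : ℝ → ℝ) (hy : Monotone y) (G : ι → E N) (z : ι)
    (Lf : (ι → E N) → ℝ)
    (hL : ∀ᵐ ξ ∂(pim ι ν), |Lf ξ| ≤ 1 ∧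
          0 < SS net β k Bs.A Bs.Rc (Bs.Ct * Real.sqrt k) y (stp net β h k G ξ) z ∧
          Lf ξ ≤ Real.log (SS net β k Bs.A Bs.Rc (Bs.Ct * Real.sqrt k) y (stp net β h k G ξ) z)
            - Real.log (SS net β k Bs.A Bs.Rc (Bs.Ct * Real.sqrt k) y G z)) :
    Integrable (fun ξ => Vs Bs m net k y (stp net β h k G ξ) z ^ 2) (pim ι ν) := by
  have hp : IsProbabilityMeasure (pim ι ν) := by
    unfold pim
    infer_instance
  have hst : Measurable (fun ξ : ι → E N => stp net β h k G ξ) :=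
    ((stp_continuous (by linarith) hh.le k net).comp
      (Continuous.prodMk continuous_const continuous_id)).measurable
  refine Integrable.of_bound
    (((vs_meas Bs m k net y hy z).comp hst).pow_const 2).aestronglyMeasurable
    ((Real.exp (m / 2) * Vs Bs m net k y G z) ^ 2) ?_
  filter_upwards [hL] with ξ hξ
  obtain ⟨h1, _, h3⟩ := hξ
  rw [Real.norm_eq_abs, abs_of_nonneg (sq_nonneg _)]
  have h4 : 0 ≤ Vs Bs m net k y (stp net β h k G ξ) z := by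
    unfold Vs VV
    positivity
  refine pow_le_pow_left₀ h4 ?_ 2
  unfold Vs VV
  rw [← Real.exp_add]
  apply Real.exp_le_exp.mpr
  have h5 := neg_le_of_abs_le h1
  nlinarith

theorem cm_psi (N d : ℕ) (β : ℝ) (hβ : 1 < β) {D0 : ℝ} (Bs : Base N d β D0)
    (m cm Cm : ℝ) (hm : 0 < m) (hcm : 0 < cm) (hCm : 0 < Cm) :
    ∃ kr c C : ℝ, 0 < kr ∧ kr ≤ 1 ∧ 0 < c ∧ 0 < C ∧
    ∀ k, 0 ≤ k → k ≤ kr → k ≤ Bs.k0 → VDrift Bs m cm Cm k →
    ∀ (q K : ℝ), 0 ≤ q → 1 ≤ K → ∀ L : ℕ, ∃ h0 : ℝ, 0 < h0 ∧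
    ∀ (h : ℝ) (ν : Measure (E N)), 0 < h → h < h0 → IsNoise h ν →
    ∀ y : ℝ → ℝ, IsCorr N β h ν Bs.δ Bs.Cy y →
    c * h ≤ 1 ∧ ∀ G : boxS d L → E N, (∀ x, ‖G x‖ ≤ rad β h) → Nz k G →
      (∀ᵐ ξ ∂(pim (boxS d L) ν), Nz k (stp (boxNet d L) β h k G ξ)) ∧
      Integrable (fun ξ => PsiK Bs m q K L k y (stp (boxNet d L) β h k G ξ)) (pim (boxS d L) ν) ∧
      ∫ ξ, PsiK Bs m q K L k y (stp (boxNet d L) β h k G ξ) ∂(pim (boxS d L) ν) ≤
        (1 - c * h) * PsiK Bs m q K L k y G + C / K * h := by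
  obtain ⟨k0, h0, C2, hk0, hk01, hh0, hh01, hC2, hr2⟩ := r2_drift N d β (by linarith)
  obtain ⟨Cp, hCp, hpoly⟩ := box_poly d 0 le_rfl
  refine ⟨k0, min cm (1 / 2), (Cm + C2) * Cp, hk0, hk01, lt_min hcm (by norm_num), by positivity, ?_⟩
  intro k hk hkk hkB hV q K hq hK L
  obtain ⟨h1, h1p, hV1⟩ := hV L
  obtain ⟨h2, h2p, hD⟩ := Bs.drift k hk hkB (boxS d L) (boxNet d L)
  refine ⟨min (min h0 h1) h2, lt_min (lt_min hh0 h1p) h2p, ?_⟩
  intro h ν hh hlt hν y hy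
  have a0 : h < h0 := lt_of_lt_of_le hlt ((min_le_left _ _).trans (min_le_left _ _))
  have a1 : h < h1 := lt_of_lt_of_le hlt ((min_le_left _ _).trans (min_le_right _ _))
  have a2 : h < h2 := lt_of_lt_of_le hlt (min_le_right _ _)
  have hνp := hν.prob
  obtain ⟨hcm1, hVG⟩ := hV1 h ν hh a1 hν y hy
  refine ⟨(mul_le_mul_of_nonneg_right (min_le_left cm (1 / 2)) hh.le).trans hcm1, ?_⟩
  intro G hG hNz
  obtain ⟨hNzae, hVint⟩ := hVG G hG hNz
  have hK0 : 0 < K := by linarith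
  have hmono : Monotone y := hy.prof.mono
  have iV : ∀ z, Integrable (fun ξ => Vs Bs m (boxNet d L) k y (stp (boxNet d L) β h k G ξ) z ^ 2)
      (pim (boxS d L) ν) := by
    intro z
    have hz : (G z ≠ 0) ∨ (0 < k ∧ G ≠ 0) := by
      rcases hNz with h3 | h3
      · exact Or.inl (h3 z)
      · exact Or.inr h3
    obtain ⟨Lf, _, hL, _⟩ := hD h ν hh a2 hν y hy G hG z hz
    exact CMPsi_int hβ Bs m hm hh (boxNet d L) ν y hmono G z Lf hL
  have hR := fun x => hr2 (boxNet d L) h k ν hh a0 hk hkk (isNoise_noise2 hh hν) G x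
  have hsum : ∑ z : boxS d L, 1 / (1 + (l1 (z : Fin d → ℤ) 0 : ℝ)) ^ (d + 1) ≤ Cp := by
    have h0m : (0 : Fin d → ℤ) ∈ boxS d L := by
      exact Finset.mem_Icc.2 ⟨fun i => by simp, fun i => by simp⟩
    have h4 := (hpoly L 0 h0m).2
    rw [← Finset.sum_coe_sort (boxS d L)] at h4
    exact h4
  refine ⟨hNzae, ?_, ?_⟩
  · unfold PsiK
    refine Integrable.add (integrable_finsetSum _ fun z _ => (iV z).div_const _)
      (integrable_finsetSum _ fun x _ => (hR x).1.div_const _)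
  · unfold PsiK
    rw [integral_add (integrable_finsetSum _ fun z _ => (iV z).div_const _)
      (integrable_finsetSum _ fun x _ => (hR x).1.div_const _),
      integral_finsetSum _ (fun z _ => (iV z).div_const _),
      integral_finsetSum _ (fun x _ => (hR x).1.div_const _)]
    have b1 : ∑ z : boxS d L, ∫ ξ, Vs Bs m (boxNet d L) k y (stp (boxNet d L) β h k G ξ) z ^ 2 /
        (K * ((1 + (l1 (z : Fin d → ℤ) 0 : ℝ)) ^ (2 * q) *
          (1 + (l1 (z : Fin d → ℤ) 0 : ℝ)) ^ (d + 1))) ∂(pim (boxS d L) ν) ≤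
        ∑ z : boxS d L, ((1 - min cm (1 / 2) * h) * (Vs Bs m (boxNet d L) k y G z ^ 2 /
        (K * ((1 + (l1 (z : Fin d → ℤ) 0 : ℝ)) ^ (2 * q) *
          (1 + (l1 (z : Fin d → ℤ) 0 : ℝ)) ^ (d + 1)))) +
          Cm * h / K * (1 / (1 + (l1 (z : Fin d → ℤ) 0 : ℝ)) ^ (d + 1))) := by
      refine Finset.sum_le_sum fun z _ => ?_
      have hz1 := CMPsi_one d L z
      have hz0 : 0 < 1 + (l1 (z : Fin d → ℤ) 0 : ℝ) := by linarith
      have hq1 : 1 ≤ (1 + (l1 (z : Fin d → ℤ) 0 : ℝ)) ^ (2 * q) :=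
        Real.one_le_rpow hz1 (by linarith)
      have hp0 : 0 < (1 + (l1 (z : Fin d → ℤ) 0 : ℝ)) ^ (d + 1) := pow_pos hz0 _
      refine CMPsi_term _ _ cm Cm _ _ _ _ K h (by positivity) hK0 hp0 ?_ (hVint z) (sq_nonneg _)
        hh.le (min_le_left _ _) hCm.le (integral_div _ _)
      apply mul_le_mul_of_nonneg_left _ hK0.le
      nlinarith
    have b2 : ∑ x : boxS d L, ∫ ξ, R2f (boxNet d L) (stp (boxNet d L) β h k G ξ) x /
        (K * (1 + (l1 (x : Fin d → ℤ) 0 : ℝ)) ^ (d + 1)) ∂(pim (boxS d L) ν) ≤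
        ∑ x : boxS d L, ((1 - min cm (1 / 2) * h) * (R2f (boxNet d L) G x /
        (K * (1 + (l1 (x : Fin d → ℤ) 0 : ℝ)) ^ (d + 1))) +
          C2 * h / K * (1 / (1 + (l1 (x : Fin d → ℤ) 0 : ℝ)) ^ (d + 1))) := by
      refine Finset.sum_le_sum fun x _ => ?_
      have hz1 := CMPsi_one d L x
      have hz0 : 0 < 1 + (l1 (x : Fin d → ℤ) 0 : ℝ) := by linarith
      have hp0 : 0 < (1 + (l1 (x : Fin d → ℤ) 0 : ℝ)) ^ (d + 1) := pow_pos hz0 _
      exact CMPsi_term _ _ (1 / 2) C2 _ _ _ _ K h (by positivity) hK0 hp0 le_rfl (hR x).2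
        (CMPsi_R2 _ _ _) hh.le (min_le_right _ _) hC2.le (integral_div _ _)
    rw [Finset.sum_add_distrib, ← Finset.mul_sum, ← Finset.mul_sum] at b1 b2
    have b3 : Cm * h / K * ∑ z : boxS d L, 1 / (1 + (l1 (z : Fin d → ℤ) 0 : ℝ)) ^ (d + 1) ≤
        Cm * h / K * Cp := mul_le_mul_of_nonneg_left hsum (by positivity)
    have b4 : C2 * h / K * ∑ z : boxS d L, 1 / (1 + (l1 (z : Fin d → ℤ) 0 : ℝ)) ^ (d + 1) ≤
        C2 * h / K * Cp := mul_le_mul_of_nonneg_left hsum (by positivity)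
    have b5 : (Cm + C2) * Cp / K * h = Cm * h / K * Cp + C2 * h / K * Cp := by ring
    rw [b5, mul_add]
    linarith

private theorem CMPsi_a (V K w p : ℝ) (hV : 0 ≤ V) (hK : 1 ≤ K) (hw : 1 ≤ p) (hwp : w ≤ p ^ 2)
    (h : V ^ 2 / (K * w) ≤ 1) (hw0 : 0 < w) : V ≤ K * p := by
  have hK0 : 0 < K := by linarith
  rw [div_le_one (by positivity)] at h
  have h1 : V ^ 2 ≤ (K * p) ^ 2 := by
    have h2 : K * w ≤ K * p ^ 2 := mul_le_mul_of_nonneg_left hwp hK0.le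
    have h3 : K * p ^ 2 ≤ K * K * p ^ 2 := by
      have h4 : 0 ≤ p ^ 2 := sq_nonneg p
      have h5 : K ≤ K * K := by nlinarith
      exact mul_le_mul_of_nonneg_right h5 h4
    nlinarith
  exact (pow_le_pow_iff_left₀ hV (by positivity) (by norm_num : (2:ℕ) ≠ 0)).1 h1

theorem PsiK_facts {N d : ℕ} {β D0 : ℝ} (Bs : Base N d β D0) (m q K : ℝ) (hq : 0 ≤ q) (hK : 1 ≤ K) (L : ℕ)
    (k : ℝ) (y : ℝ → ℝ) (hy : Monotone y) :
    Measurable (PsiK Bs m q K L k y) ∧ (∀ G, 0 ≤ PsiK Bs m q K L k y G) ∧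
    ∀ G, PsiK Bs m q K L k y G ≤ 1 → ∀ z : boxS d L,
      Vs Bs m (boxNet d L) k y G z ≤
        K * (1 + (l1 (z : Fin d → ℤ) 0 : ℝ)) ^ (q + d + 1) ∧
      R2f (boxNet d L) G z ≤ K * (1 + (l1 (z : Fin d → ℤ) 0 : ℝ)) ^ (q + d + 1) := by
  have hK0 : 0 < K := by linarith
  have w1 : ∀ z : boxS d L, 0 < K * ((1 + (l1 (z : Fin d → ℤ) 0 : ℝ)) ^ (2 * q) *
      (1 + (l1 (z : Fin d → ℤ) 0 : ℝ)) ^ (d + 1)) := fun z => by
    have hz0 : 0 < 1 + (l1 (z : Fin d → ℤ) 0 : ℝ) := by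
      have := CMPsi_one d L z
      linarith
    positivity
  have w2 : ∀ z : boxS d L, 0 < K * (1 + (l1 (z : Fin d → ℤ) 0 : ℝ)) ^ (d + 1) := fun z => by
    have hz0 : 0 < 1 + (l1 (z : Fin d → ℤ) 0 : ℝ) := by
      have := CMPsi_one d L z
      linarith
    positivity
  have n1 : ∀ (G : boxS d L → E N) (z : boxS d L), 0 ≤ Vs Bs m (boxNet d L) k y G z ^ 2 /
      (K * ((1 + (l1 (z : Fin d → ℤ) 0 : ℝ)) ^ (2 * q) *
        (1 + (l1 (z : Fin d → ℤ) 0 : ℝ)) ^ (d + 1))) := fun G z => div_nonneg (sq_nonneg _) (w1 z).le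
  have n2 : ∀ (G : boxS d L → E N) (z : boxS d L), 0 ≤ R2f (boxNet d L) G z /
      (K * (1 + (l1 (z : Fin d → ℤ) 0 : ℝ)) ^ (d + 1)) := fun G z =>
    div_nonneg (CMPsi_R2 _ _ _) (w2 z).le
  refine ⟨?_, ?_, ?_⟩
  · unfold PsiK
    refine Measurable.add (Finset.measurable_sum _ fun z _ => ?_)
      (Finset.measurable_sum _ fun z _ => ?_)
    · exact ((vs_meas Bs m k (boxNet d L) y hy z).pow_const 2).div_const _
    · refine Measurable.div_const ?_ _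
      unfold R2f
      exact Finset.measurable_sum _ fun w _ =>
        (((measurable_pi_apply w).norm).pow_const 2).const_mul _
  · intro G
    unfold PsiK
    exact add_nonneg (Finset.sum_nonneg fun z _ => n1 G z) (Finset.sum_nonneg fun z _ => n2 G z)
  · intro G hG z
    unfold PsiK at hG
    have s1 := Finset.single_le_sum (f := fun z : boxS d L => Vs Bs m (boxNet d L) k y G z ^ 2 /
      (K * ((1 + (l1 (z : Fin d → ℤ) 0 : ℝ)) ^ (2 * q) *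
        (1 + (l1 (z : Fin d → ℤ) 0 : ℝ)) ^ (d + 1)))) (fun z _ => n1 G z) (Finset.mem_univ z)
    have s2 := Finset.single_le_sum (f := fun z : boxS d L => R2f (boxNet d L) G z /
      (K * (1 + (l1 (z : Fin d → ℤ) 0 : ℝ)) ^ (d + 1))) (fun z _ => n2 G z) (Finset.mem_univ z)
    have s3 : 0 ≤ ∑ z : boxS d L, Vs Bs m (boxNet d L) k y G z ^ 2 /
      (K * ((1 + (l1 (z : Fin d → ℤ) 0 : ℝ)) ^ (2 * q) *
        (1 + (l1 (z : Fin d → ℤ) 0 : ℝ)) ^ (d + 1))) := Finset.sum_nonneg fun z _ => n1 G z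
    have s4 : 0 ≤ ∑ z : boxS d L, R2f (boxNet d L) G z /
      (K * (1 + (l1 (z : Fin d → ℤ) 0 : ℝ)) ^ (d + 1)) := Finset.sum_nonneg fun z _ => n2 G z
    beta_reduce at s1 s2
    have hz1 := CMPsi_one d L z
    have hz0 : 0 < 1 + (l1 (z : Fin d → ℤ) 0 : ℝ) := by linarith
    have hpe : (1 + (l1 (z : Fin d → ℤ) 0 : ℝ)) ^ (q + d + 1) =
        (1 + (l1 (z : Fin d → ℤ) 0 : ℝ)) ^ q * (1 + (l1 (z : Fin d → ℤ) 0 : ℝ)) ^ (d + 1) := by
      rw [← Real.rpow_natCast, ← Real.rpow_add hz0]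
      congr 1
      push_cast
      ring
    have hq1 : 1 ≤ (1 + (l1 (z : Fin d → ℤ) 0 : ℝ)) ^ q := Real.one_le_rpow hz1 hq
    have hd1 : 1 ≤ (1 + (l1 (z : Fin d → ℤ) 0 : ℝ)) ^ (d + 1) := one_le_pow₀ hz1
    have hV0 : 0 ≤ Vs Bs m (boxNet d L) k y G z := by
      unfold Vs VV
      positivity
    have h2q : (1 + (l1 (z : Fin d → ℤ) 0 : ℝ)) ^ (2 * q) =
        ((1 + (l1 (z : Fin d → ℤ) 0 : ℝ)) ^ q) ^ 2 := by
      rw [mul_comm, Real.rpow_mul hz0.le]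
      norm_num
    constructor
    · rw [hpe]
      refine CMPsi_a _ K _ _ hV0 hK ?_ ?_ (s1.trans (by linarith)) ?_
      · nlinarith
      · rw [h2q, mul_pow]
        apply mul_le_mul_of_nonneg_left _ (sq_nonneg _)
        nlinarith
      · positivity
    · have h5 : R2f (boxNet d L) G z / (K * (1 + (l1 (z : Fin d → ℤ) 0 : ℝ)) ^ (d + 1)) ≤ 1 :=
        s2.trans (by linarith)
      rw [div_le_one (w2 z)] at h5
      refine h5.trans ?_
      rw [hpe]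
      apply mul_le_mul_of_nonneg_left _ hK0.le
      nlinarith

end Dyn
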