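import Pool.Agent.Lib_MP_36b788.PathM

/-!
# PATHMK: Markov inequality at time `n` from a drift inequality

PROOF. Induction on `n` for all `G` with `Gd G`: claim
`‖pathE (replicate n 1 ++ [1_{Ψ>M}]) G‖ ≤ ((1-ch)^n Ψ(G) + Ch Σ_{j<n}(1-ch)^j)/M + exitE n G`. `n = 0`: `1_{Ψ>M} ≤ Ψ/M`.
Step: if `G` is not alive, `exitE (n+1) G = 1` and the left side is `≤ 1` (pathE_facts). Otherwise
`pathE (1 :: …) G = ∫ pathE … (stp G ξ)`, take norms inside, use the induction hypothesis a.e. (`hGd`) and the drift.
Geometric sum: `Ch Σ_{j<n}(1-ch)^j ≤ C/c`.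
-/

open MeasureTheory ProbabilityTheory

namespace Dyn

private theorem PathMk_aux {N d : ℕ} {ι : Type} [Fintype ι] {net : Net ι d} {β h k : ℝ}
    {ν : Measure (E N)} (hβ : 0 < β) (hh : 0 < h) [IsProbabilityMeasure ν]
    (Ψ : (ι → E N) → ℝ) (hΨ0 : ∀ G, 0 ≤ Ψ G)
    (c C : ℝ) (hC : 0 ≤ C) (hch : c * h ≤ 1) (Gd : (ι → E N) → Prop)
    (hGd : ∀ G, (∀ x, ‖G x‖ ≤ rad β h) → Gd G → ∀ᵐ ξ ∂(pim ι ν), Gd (stp net β h k G ξ))
    (hdrift : ∀ G, (∀ x, ‖G x‖ ≤ rad β h) → Gd G →
      Integrable (fun ξ => Ψ (stp net β h k G ξ)) (pim ι ν) ∧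
      ∫ ξ, Ψ (stp net β h k G ξ) ∂(pim ι ν) ≤ (1 - c * h) * Ψ G + C * h)
    (M : ℝ) (hM : 0 < M) (f0 : (ι → E N) → ℂ) (hfm : Measurable f0) (hf1 : ∀ G, ‖f0 G‖ ≤ 1)
    (hfΨ : ∀ G, ‖f0 G‖ ≤ Ψ G / M) (n : ℕ) : ∀ G : ι → E N, Gd G →
    ‖pathE net β h k ν (List.replicate n (fun _ => 1) ++ [f0]) G‖ ≤
      ((1 - c * h) ^ n * Ψ G + C * h * ∑ j ∈ Finset.range n, (1 - c * h) ^ j) / M
        + exitE net β h k ν n G := by
  have hprob : IsProbabilityMeasure (pim ι ν) := by
    unfold pim
    infer_instance
  have hx0 : 0 ≤ 1 - c * h := by linarith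
  induction n with
  | zero =>
    intro G _
    have h1 : pathE net β h k ν (List.replicate 0 (fun _ => 1) ++ [f0]) G = f0 G := by
      simp [pathE]
    rw [h1]
    simp only [pow_zero, one_mul, Finset.range_zero, Finset.sum_empty, mul_zero, add_zero, exitE]
    exact hfΨ G
  | succ n ih =>
    intro G hG
    have hS : 0 ≤ ∑ j ∈ Finset.range (n + 1), (1 - c * h) ^ j :=
      Finset.sum_nonneg fun j _ => pow_nonneg hx0 j
    by_cases hal : ∀ x, ‖G x‖ ≤ rad β h
    · have hex : exitE net β h k ν (n + 1) G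
          = ∫ ξ, exitE net β h k ν n (stp net β h k G ξ) ∂(pim ι ν) := by
        simp only [exitE]
        rw [if_pos hal]
      have hpa : pathE net β h k ν (List.replicate (n + 1) (fun _ => 1) ++ [f0]) G
          = ∫ ξ, pathE net β h k ν (List.replicate n (fun _ => 1) ++ [f0])
              (stp net β h k G ξ) ∂(pim ι ν) := by
        rw [List.replicate_succ, List.cons_append]
        simp only [pathE, one_mul]
      rw [hpa, hex]
      have hst : Measurable (fun ξ : ι → E N => stp net β h k G ξ) := by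
        have h1 : Measurable (fun ξ : ι → E N => (G, ξ)) := measurable_const.prodMk measurable_id
        have h2 := (stp_continuous (N := N) (d := d) (β := β) (h := h) hβ hh.le k net).measurable
        have h3 := h2.comp h1
        simpa only [Function.comp_def] using h3
      have hm : ∀ f ∈ (List.replicate n (fun _ => 1) ++ [f0] : List ((ι → E N) → ℂ)),
          Measurable f := by
        intro f hf
        rcases List.mem_append.1 hf with h1 | h1
        · rw [List.eq_of_mem_replicate h1]
          exact measurable_const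
        · rw [List.mem_singleton.1 h1]
          exact hfm
      have hb : ∀ f ∈ (List.replicate n (fun _ => 1) ++ [f0] : List ((ι → E N) → ℂ)),
          ∀ G, ‖f G‖ ≤ 1 := by
        intro f hf
        rcases List.mem_append.1 hf with h1 | h1
        · rw [List.eq_of_mem_replicate h1]
          intro G
          simp
        · rw [List.mem_singleton.1 h1]
          exact hf1
      obtain ⟨hpm, hpb⟩ := pathE_facts (net := net) (k := k) (ν := ν) hβ hh.le _ hm hb
      obtain ⟨hem, heb⟩ := exitE_facts (net := net) (k := k) (ν := ν) hβ hh.le n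
      obtain ⟨hdi, hdl⟩ := hdrift G hal hG
      have hint1 : Integrable (fun ξ => ‖pathE net β h k ν (List.replicate n (fun _ => 1) ++ [f0])
          (stp net β h k G ξ)‖) (pim ι ν) := by
        refine Integrable.of_bound (hpm.comp hst).norm.aestronglyMeasurable 1
          (Filter.Eventually.of_forall fun ξ => ?_)
        rw [norm_norm]
        exact hpb _
      have hint2 : Integrable (fun ξ => exitE net β h k ν n (stp net β h k G ξ)) (pim ι ν) := by
        refine Integrable.of_bound (hem.comp hst).aestronglyMeasurable 1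
          (Filter.Eventually.of_forall fun ξ => ?_)
        rw [Real.norm_eq_abs, abs_of_nonneg (heb _).1]
        exact (heb _).2
      set S : ℝ := C * h * ∑ j ∈ Finset.range n, (1 - c * h) ^ j with hSdef
      have hint3 : Integrable (fun ξ => ((1 - c * h) ^ n * Ψ (stp net β h k G ξ) + S) / M)
          (pim ι ν) := ((hdi.const_mul _).add (integrable_const S)).div_const M
      calc ‖∫ ξ, pathE net β h k ν (List.replicate n (fun _ => 1) ++ [f0])
              (stp net β h k G ξ) ∂(pim ι ν)‖
          ≤ ∫ ξ, ‖pathE net β h k ν (List.replicate n (fun _ => 1) ++ [f0])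
              (stp net β h k G ξ)‖ ∂(pim ι ν) := norm_integral_le_integral_norm _
        _ ≤ ∫ ξ, (((1 - c * h) ^ n * Ψ (stp net β h k G ξ) + S) / M
              + exitE net β h k ν n (stp net β h k G ξ)) ∂(pim ι ν) := by
            refine integral_mono_ae hint1 (hint3.add hint2) ?_
            filter_upwards [hGd G hal hG] with ξ hξ
            exact ih _ hξ
        _ = ((1 - c * h) ^ n * (∫ ξ, Ψ (stp net β h k G ξ) ∂(pim ι ν)) + S) / M
              + ∫ ξ, exitE net β h k ν n (stp net β h k G ξ) ∂(pim ι ν) := by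
            rw [integral_add hint3 hint2, integral_div,
              integral_add (hdi.const_mul _) (integrable_const S), integral_const_mul,
              integral_const]
            simp
        _ ≤ ((1 - c * h) ^ (n + 1) * Ψ G
              + C * h * ∑ j ∈ Finset.range (n + 1), (1 - c * h) ^ j) / M
              + ∫ ξ, exitE net β h k ν n (stp net β h k G ξ) ∂(pim ι ν) := by
            have h1 := mul_le_mul_of_nonneg_left hdl (pow_nonneg hx0 n)
            have h2 : (1 - c * h) ^ n * (∫ ξ, Ψ (stp net β h k G ξ) ∂(pim ι ν)) + S ≤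
                (1 - c * h) ^ (n + 1) * Ψ G
                  + C * h * ∑ j ∈ Finset.range (n + 1), (1 - c * h) ^ j := by
              rw [Finset.sum_range_succ, hSdef]
              have h3 : (1 - c * h) ^ n * ((1 - c * h) * Ψ G + C * h)
                  = (1 - c * h) ^ (n + 1) * Ψ G + C * h * (1 - c * h) ^ n := by ring
              rw [h3] at h1
              rw [mul_add]
              linarith
            have h4 := div_le_div_of_nonneg_right h2 hM.le
            linarith
    · have hex : exitE net β h k ν (n + 1) G = 1 := by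
        simp only [exitE]
        rw [if_neg hal]
      have hm : ∀ f ∈ (List.replicate (n + 1) (fun _ => 1) ++ [f0] : List ((ι → E N) → ℂ)),
          Measurable f := by
        intro f hf
        rcases List.mem_append.1 hf with h1 | h1
        · rw [List.eq_of_mem_replicate h1]
          exact measurable_const
        · rw [List.mem_singleton.1 h1]
          exact hfm
      have hb : ∀ f ∈ (List.replicate (n + 1) (fun _ => 1) ++ [f0] : List ((ι → E N) → ℂ)),
          ∀ G, ‖f G‖ ≤ 1 := by
        intro f hf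
        rcases List.mem_append.1 hf with h1 | h1
        · rw [List.eq_of_mem_replicate h1]
          intro G
          simp
        · rw [List.mem_singleton.1 h1]
          exact hf1
      have h1 := (pathE_facts (net := net) (k := k) (ν := ν) hβ hh.le _ hm hb).2 G
      rw [hex]
      have h2 : 0 ≤ ((1 - c * h) ^ (n + 1) * Ψ G
          + C * h * ∑ j ∈ Finset.range (n + 1), (1 - c * h) ^ j) / M := by
        have h3 := pow_nonneg hx0 (n + 1)
        have h4 := hΨ0 G
        positivity
      linarith

theorem path_markov {N d : ℕ} {ι : Type} [Fintype ι] {net : Net ι d} {β h k : ℝ}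
    {ν : Measure (E N)} (hβ : 0 < β) (hh : 0 < h) [IsProbabilityMeasure ν]
    (Ψ : (ι → E N) → ℝ) (hΨ0 : ∀ G, 0 ≤ Ψ G) (hΨm : Measurable Ψ)
    (c C : ℝ) (hc : 0 < c) (hC : 0 ≤ C) (hch : c * h ≤ 1) (Gd : (ι → E N) → Prop)
    (hGd : ∀ G, (∀ x, ‖G x‖ ≤ rad β h) → Gd G → ∀ᵐ ξ ∂(pim ι ν), Gd (stp net β h k G ξ))
    (hdrift : ∀ G, (∀ x, ‖G x‖ ≤ rad β h) → Gd G →
      Integrable (fun ξ => Ψ (stp net β h k G ξ)) (pim ι ν) ∧
      ∫ ξ, Ψ (stp net β h k G ξ) ∂(pim ι ν) ≤ (1 - c * h) * Ψ G + C * h)
    (n : ℕ) (M : ℝ) (hM : 0 < M) (G : ι → E N) (hG : Gd G) :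
    open Classical in
    ‖pathE net β h k ν (List.replicate n (fun _ => 1) ++ [fun G => if M < Ψ G then 1 else 0]) G‖ ≤
      ((1 - c * h) ^ n * Ψ G + C / c) / M + exitE net β h k ν n G := by
  have hx0 : 0 ≤ 1 - c * h := by linarith
  refine (PathMk_aux hβ hh Ψ hΨ0 c C hC hch Gd hGd hdrift M hM _ ?_ ?_ ?_ n G hG).trans ?_
  · exact Measurable.ite (measurableSet_lt measurable_const hΨm) measurable_const measurable_const
  · intro G
    split_ifs
    · simp
    · simp
  · intro G
    split_ifs with h1
    · rw [norm_one, le_div_iff₀ hM, one_mul]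
      exact h1.le
    · rw [norm_zero]
      exact div_nonneg (hΨ0 G) hM.le
  · have h1 : (1 - (1 - c * h)) * ∑ j ∈ Finset.range n, (1 - c * h) ^ j = 1 - (1 - c * h) ^ n :=
      mul_neg_geom_sum _ _
    have h2 : c * h * ∑ j ∈ Finset.range n, (1 - c * h) ^ j ≤ 1 := by
      have h3 := pow_nonneg hx0 n
      have h4 : 1 - (1 - c * h) = c * h := by ring
      rw [h4] at h1
      linarith
    have h5 : C * h * ∑ j ∈ Finset.range n, (1 - c * h) ^ j ≤ C / c := by
      rw [le_div_iff₀ hc]
      have h6 := mul_le_mul_of_nonneg_left h2 hC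
      calc C * h * (∑ j ∈ Finset.range n, (1 - c * h) ^ j) * c
          = C * (c * h * ∑ j ∈ Finset.range n, (1 - c * h) ^ j) := by ring
        _ ≤ C * 1 := h6
        _ = C := mul_one C
    have h7 := div_le_div_of_nonneg_right (add_le_add_left h5 ((1 - c * h) ^ n * Ψ G)) hM.le
    have h8 : ((1 - c * h) ^ n * Ψ G + C * h * ∑ j ∈ Finset.range n, (1 - c * h) ^ j) / M ≤
        ((1 - c * h) ^ n * Ψ G + C / c) / M := by
      refine div_le_div_of_nonneg_right ?_ hM.le
      linarith
    linarith

end Dyn
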