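import Pool.Agent.Lib_MP_36b788.CMPsi
import Pool.Agent.Lib_MP_36b788.CMMom
import Pool.Agent.Lib_MP_36b788.PathMk

/-!
# CMTIGHT: `PsiK ≤ 1` with high probability at all times, uniformly in the box

PROOF. `k1 = kr` of cm_psi (constants `c, C`). Fix `k, ρ, R, δ`. For `k > 0`: init_pos with `δ/8` gives `Cq, q, L0'`, `L0 = max L0' R`.
For `k = 0`: init_zero with `δ/8`, `L = R`: `Cq`, `q = 0`, `L0 = R`. Choose `K ≥ 1` large (independent of `L`):
on the good initial event `Σ_z V_z²/(K…) ≤ Cq² C_poly/K ≤ δ/8` (`box_poly`, second part), `∫Σ_x R2_x/(K…) dρ^L ≤ 3^d∫‖x‖²dρ·C_poly/K ≤ δ/8`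
(`sum_half`), `(C/K)/c ≤ δ/8`. For small `h` (depending on `L, Sm`): nuT_noise, cm_psi, `cm_exit` with `n1 = 0`, `ν = nuT N h`
(`Noise2` by isNoise_noise2), tail: `2(n+1)card·tailG N h ≤ 2(Sm/h+1)card·C h² ≤ δ/8`. Then with `f = 1_{1 < PsiK}`:
`chainLaw n {1 < PsiK} = ∫ f dchainLaw n`, chainLaw_integral, pathE_trunc and path_markov (`M = 1`, `Gd = Nz k`, a.e. `Nz` by init_nz):
`≤ ∫ min(1, PsiK(G)+(C/K)/c) dρ^L + ∫exitE n dρ^L + δ/8 ≤ δ/8 [bad event] + δ/8+δ/8+δ/8+δ/8+δ/8 ≤ δ`.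
-/

open MeasureTheory ProbabilityTheory

namespace Dyn

/-- initial event, both cases -/
private theorem CMTight_init {N d : ℕ} {β D0 : ℝ} (hd : 1 ≤ d) (hβ : 1 < β) (Bs : Base N d β D0)
    (m : ℝ) (hm : 0 < m) (k : ℝ) (hk : 0 ≤ k) (hk0 : k ≤ Bs.k0) (ρ : Measure (E N))
    [IsProbabilityMeasure ρ] (hρ : ρ {0} = 0) (R : ℕ) (δ : ℝ) (hδ : 0 < δ) :
    ∃ (Cq q : ℝ) (L0 : ℕ), 0 < Cq ∧ 0 ≤ q ∧ R ≤ L0 ∧ (k = 0 → L0 = R) ∧
      ∀ L, (k = 0 → L = R) → L0 ≤ L → ∃ h0 : ℝ, 0 < h0 ∧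
      ∀ (h : ℝ) (ν : Measure (E N)), 0 < h → h < h0 → IsNoise h ν →
      ∀ y : ℝ → ℝ, IsCorr N β h ν Bs.δ Bs.Cy y →
      (Measure.pi (fun _ : boxS d L => ρ)).real
        {G | ¬ (∀ z : boxS d L, Vs Bs m (boxNet d L) k y G z ≤
          Cq * (1 + (l1 (z : Fin d → ℤ) 0 : ℝ)) ^ q)} ≤ δ := by
  rcases hk.eq_or_lt with h0 | hpos
  · subst h0
    obtain ⟨Cq, hCq, h0, hh0, H⟩ := init_zero hβ Bs m hm ρ hρ δ hδ R
    refine ⟨Cq, 0, R, hCq, le_rfl, le_rfl, fun _ => rfl, ?_⟩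
    intro L hL _
    have hLR : L = R := hL rfl
    subst hLR
    refine ⟨h0, hh0, ?_⟩
    intro h ν h1 h2 h3 y hy
    have := H h ν h1 h2 h3 y hy
    simpa only [Real.rpow_zero, mul_one] using this
  · obtain ⟨Cq, q, L0, hCq, hq, H⟩ := init_pos hd hβ Bs m hm k hpos hk0 ρ hρ δ hδ
    refine ⟨Cq, q, max L0 R, hCq, hq, le_max_right _ _, fun h => absurd h hpos.ne', ?_⟩
    intro L _ hL
    exact H L ((le_max_left _ _).trans hL)

private theorem CMTight_poly {d : ℕ} {Cp : ℝ} (hCp : ∀ L : ℕ, ∀ o ∈ boxS d L,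
    ∑ x ∈ boxS d L, ∑ z ∈ boxS d L, (1 / 2 : ℝ) ^ l1 o x * (1 / 2) ^ l1 x z *
      (1 + (l1 z 0 : ℝ)) ^ (0 : ℝ) ≤ Cp * (1 + (l1 o 0 : ℝ)) ^ (0 : ℝ) ∧
    ∑ z ∈ boxS d L, 1 / (1 + (l1 z 0 : ℝ)) ^ (d + 1) ≤ Cp) (L : ℕ) :
    ∑ z : boxS d L, 1 / (1 + (l1 (z : Fin d → ℤ) 0 : ℝ)) ^ (d + 1) ≤ Cp := by
  have h0 : (0 : Fin d → ℤ) ∈ boxS d L := by
    refine Finset.mem_Icc.2 ⟨fun i => ?_, fun i => ?_⟩ <;> simp
  have h := (hCp L 0 h0).2
  rw [Finset.sum_coe_sort (boxS d L) (fun z => 1 / (1 + (l1 z 0 : ℝ)) ^ (d + 1))]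
  exact h

/-- mean of the second part of `PsiK` under the product law -/
private theorem CMTight_R2 {N d : ℕ} (ρ : Measure (E N)) [IsProbabilityMeasure ρ]
    (hρi : Integrable (fun x : E N => ‖x‖ ^ 2) ρ) {Cp : ℝ} (L : ℕ)
    (hCp : ∑ z : boxS d L, 1 / (1 + (l1 (z : Fin d → ℤ) 0 : ℝ)) ^ (d + 1) ≤ Cp)
    (K : ℝ) (hK : 0 < K) :
    Integrable (fun G : boxS d L → E N => ∑ x : boxS d L, R2f (boxNet d L) G x /
      (K * (1 + (l1 (x : Fin d → ℤ) 0 : ℝ)) ^ (d + 1))) (Measure.pi (fun _ : boxS d L => ρ)) ∧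
    ∫ G, ∑ x : boxS d L, R2f (boxNet d L) G x /
      (K * (1 + (l1 (x : Fin d → ℤ) 0 : ℝ)) ^ (d + 1)) ∂(Measure.pi (fun _ : boxS d L => ρ))
      ≤ (∫ x, ‖x‖ ^ 2 ∂ρ) * 3 ^ d * Cp / K := by
  have hmp : ∀ z : boxS d L, MeasurePreserving (fun G : boxS d L → E N => G z)
      (Measure.pi (fun _ : boxS d L => ρ)) ρ := fun z =>
    measurePreserving_eval (fun _ : boxS d L => ρ) z
  have i1 : ∀ z : boxS d L, Integrable (fun G : boxS d L → E N => ‖G z‖ ^ 2)
      (Measure.pi (fun _ : boxS d L => ρ)) := fun z =>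
    (hmp z).integrable_comp_of_integrable hρi
  have e1 : ∀ z : boxS d L, ∫ G : boxS d L → E N, ‖G z‖ ^ 2 ∂(Measure.pi (fun _ : boxS d L => ρ))
      = ∫ x, ‖x‖ ^ 2 ∂ρ := by
    intro z
    have h1 : ∫ x, ‖x‖ ^ 2 ∂((Measure.pi (fun _ : boxS d L => ρ)).map
        (fun G : boxS d L → E N => G z)) = ∫ G : boxS d L → E N, ‖G z‖ ^ 2
        ∂(Measure.pi (fun _ : boxS d L => ρ)) :=
      integral_map (hmp z).measurable.aemeasurable (by rw [(hmp z).map_eq]; exact hρi.1)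
    rw [← h1, (hmp z).map_eq]
  have hM : 0 ≤ ∫ x, ‖x‖ ^ 2 ∂ρ := integral_nonneg fun x => by positivity
  have i2 : ∀ x : boxS d L, Integrable (fun G : boxS d L → E N => R2f (boxNet d L) G x)
      (Measure.pi (fun _ : boxS d L => ρ)) := by
    intro x
    unfold R2f
    exact integrable_finsetSum _ fun z _ => (i1 z).const_mul _
  have e2 : ∀ x : boxS d L, ∫ G, R2f (boxNet d L) G x ∂(Measure.pi (fun _ : boxS d L => ρ))
      ≤ (∫ x, ‖x‖ ^ 2 ∂ρ) * 3 ^ d := by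
    intro x
    unfold R2f
    rw [integral_finsetSum _ fun z _ => (i1 z).const_mul _]
    simp only [integral_const_mul, e1]
    rw [← Finset.sum_mul, mul_comm]
    exact mul_le_mul_of_nonneg_left ((boxNet d L).sum_half x) hM
  have i3 : ∀ x : boxS d L, Integrable (fun G : boxS d L → E N => R2f (boxNet d L) G x /
      (K * (1 + (l1 (x : Fin d → ℤ) 0 : ℝ)) ^ (d + 1)))
      (Measure.pi (fun _ : boxS d L => ρ)) := fun x => (i2 x).div_const _
  refine ⟨integrable_finsetSum _ fun x _ => i3 x, ?_⟩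
  rw [integral_finsetSum _ fun x _ => i3 x]
  simp only [integral_div]
  calc ∑ x : boxS d L, (∫ G, R2f (boxNet d L) G x ∂(Measure.pi (fun _ : boxS d L => ρ))) /
        (K * (1 + (l1 (x : Fin d → ℤ) 0 : ℝ)) ^ (d + 1))
      ≤ ∑ x : boxS d L, ((∫ x, ‖x‖ ^ 2 ∂ρ) * 3 ^ d / K) *
        (1 / (1 + (l1 (x : Fin d → ℤ) 0 : ℝ)) ^ (d + 1)) := by
        refine Finset.sum_le_sum fun x _ => ?_
        have hp : (0 : ℝ) < (1 + (l1 (x : Fin d → ℤ) 0 : ℝ)) ^ (d + 1) := by positivity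
        have h1 : ((∫ x, ‖x‖ ^ 2 ∂ρ) * 3 ^ d / K) *
            (1 / (1 + (l1 (x : Fin d → ℤ) 0 : ℝ)) ^ (d + 1))
            = (∫ x, ‖x‖ ^ 2 ∂ρ) * 3 ^ d / (K * (1 + (l1 (x : Fin d → ℤ) 0 : ℝ)) ^ (d + 1)) := by
          field_simp
        rw [h1]
        exact div_le_div_of_nonneg_right (e2 x) (by positivity)
    _ = ((∫ x, ‖x‖ ^ 2 ∂ρ) * 3 ^ d / K) *
        ∑ x : boxS d L, (1 / (1 + (l1 (x : Fin d → ℤ) 0 : ℝ)) ^ (d + 1)) := by
        rw [Finset.mul_sum]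
    _ ≤ ((∫ x, ‖x‖ ^ 2 ∂ρ) * 3 ^ d / K) * Cp :=
        mul_le_mul_of_nonneg_left hCp (by positivity)
    _ = (∫ x, ‖x‖ ^ 2 ∂ρ) * 3 ^ d * Cp / K := by ring

/-- first part of `PsiK` on the good event -/
private theorem CMTight_V {N d : ℕ} {β D0 : ℝ} (Bs : Base N d β D0) (m k q K Cq Cp : ℝ) (L : ℕ)
    (y : ℝ → ℝ) (hCp : ∑ z : boxS d L, 1 / (1 + (l1 (z : Fin d → ℤ) 0 : ℝ)) ^ (d + 1) ≤ Cp)
    (hK : 0 < K) (hCq : 0 < Cq) (G : boxS d L → E N)
    (hG : ∀ z : boxS d L, Vs Bs m (boxNet d L) k y G z ≤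
          Cq * (1 + (l1 (z : Fin d → ℤ) 0 : ℝ)) ^ q) :
    ∑ z : boxS d L, Vs Bs m (boxNet d L) k y G z ^ 2 /
      (K * ((1 + (l1 (z : Fin d → ℤ) 0 : ℝ)) ^ (2 * q) * (1 + (l1 (z : Fin d → ℤ) 0 : ℝ)) ^ (d + 1)))
      ≤ Cq ^ 2 * Cp / K := by
  calc ∑ z : boxS d L, Vs Bs m (boxNet d L) k y G z ^ 2 /
      (K * ((1 + (l1 (z : Fin d → ℤ) 0 : ℝ)) ^ (2 * q) * (1 + (l1 (z : Fin d → ℤ) 0 : ℝ)) ^ (d + 1)))
      ≤ ∑ z : boxS d L, (Cq ^ 2 / K) * (1 / (1 + (l1 (z : Fin d → ℤ) 0 : ℝ)) ^ (d + 1)) := by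
        refine Finset.sum_le_sum fun z _ => ?_
        set a : ℝ := 1 + (l1 (z : Fin d → ℤ) 0 : ℝ) with ha
        have ha0 : 0 < a := by positivity
        have hV0 : 0 ≤ Vs Bs m (boxNet d L) k y G z := by
          unfold Vs VV
          exact (Real.exp_pos _).le
        have h1 : Vs Bs m (boxNet d L) k y G z ^ 2 ≤ (Cq * a ^ q) ^ 2 :=
          pow_le_pow_left₀ hV0 (hG z) 2
        have h2 : (Cq * a ^ q) ^ 2 = Cq ^ 2 * a ^ (2 * q) := by
          rw [mul_pow, ← Real.rpow_natCast (a ^ q) 2, ← Real.rpow_mul ha0.le]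
          congr 2
          push_cast
          ring
        have hq0 : 0 < a ^ (2 * q) := Real.rpow_pos_of_pos ha0 _
        have hd0 : 0 < a ^ (d + 1) := by positivity
        rw [h2] at h1
        calc Vs Bs m (boxNet d L) k y G z ^ 2 / (K * (a ^ (2 * q) * a ^ (d + 1)))
            ≤ Cq ^ 2 * a ^ (2 * q) / (K * (a ^ (2 * q) * a ^ (d + 1))) :=
              div_le_div_of_nonneg_right h1 (by positivity)
          _ = (Cq ^ 2 / K) * (1 / a ^ (d + 1)) := by field_simp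
    _ = (Cq ^ 2 / K) * ∑ z : boxS d L, (1 / (1 + (l1 (z : Fin d → ℤ) 0 : ℝ)) ^ (d + 1)) := by
        rw [Finset.mul_sum]
    _ ≤ (Cq ^ 2 / K) * Cp := mul_le_mul_of_nonneg_left hCp (by positivity)
    _ = Cq ^ 2 * Cp / K := by ring

private theorem CMTight_small (A δ : ℝ) (hA : 0 ≤ A) (hδ : 0 < δ) {K : ℝ}
    (hK : 8 / δ * A ≤ K) (hK0 : 0 < K) : A / K ≤ δ / 8 := by
  rw [div_le_iff₀ hK0]
  rw [div_mul_eq_mul_div, div_le_iff₀ hδ] at hK
  linarith

theorem cm_tight (N d : ℕ) (β : ℝ) (hd : 1 ≤ d) (hN : 3 ≤ N) (hβ : 1 < β) {D0 : ℝ}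
    (Bs : Base N d β D0) (m cm Cm : ℝ) (hm : 0 < m) (hcm : 0 < cm) (hCm : 0 < Cm) :
    ∃ k1 : ℝ, 0 < k1 ∧ k1 ≤ 1 ∧ ∀ k, 0 ≤ k → k ≤ k1 → k ≤ Bs.k0 → VDrift Bs m cm Cm k →
    ∀ (ρ : Measure (E N)) [IsProbabilityMeasure ρ], ρ {0} = 0 →
      Integrable (fun x : E N => ‖x‖ ^ 2) ρ →
    ∀ (R : ℕ) (δ : ℝ), 0 < δ → ∃ (q K : ℝ) (L0 : ℕ), 0 ≤ q ∧ 1 ≤ K ∧ R ≤ L0 ∧ (k = 0 → L0 = R) ∧
    ∀ L : ℕ, (k = 0 → L = R) → L0 ≤ L → ∀ Sm : ℝ, 0 ≤ Sm → ∃ h0 : ℝ, 0 < h0 ∧ ∀ h, 0 < h → h < h0 →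
    ∀ y : ℝ → ℝ, IsCorr N β h (nuT N h) Bs.δ Bs.Cy y → ∀ n : ℕ, n * h ≤ Sm →
      (chainLaw (boxNet d L) β h k (stdGaussian (E N)) (Measure.pi (fun _ => ρ)) n).real
        {G | 1 < PsiK Bs m q K L k y G} ≤ δ := by
  classical
  have hβ0 : 0 < β := by linarith
  obtain ⟨kr, c, C, hkr0, hkr1, hc, hC, hpsi⟩ := cm_psi N d β hβ Bs m cm Cm hm hcm hCm
  obtain ⟨Cp, hCp0, hCp⟩ := box_poly d 0 le_rfl
  obtain ⟨Ct, hCt0, hCt⟩ := tailG_le N
  refine ⟨kr, hkr0, hkr1, ?_⟩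
  intro k hk hkr hkB hVD ρ _ hρ0 hρi R δ hδ
  obtain ⟨Cq, q, L0, hCq, hq, hRL, hL0, hinit⟩ :=
    CMTight_init hd hβ Bs m hm k hk hkB ρ hρ0 R (δ / 8) (by positivity)
  have hM2 : 0 ≤ ∫ x, ‖x‖ ^ 2 ∂ρ := integral_nonneg fun x => by positivity
  set M2 : ℝ := ∫ x, ‖x‖ ^ 2 ∂ρ with hM2def
  set K : ℝ := 1 + 8 / δ * (Cq ^ 2 * Cp + M2 * 3 ^ d * Cp + C / c) with hKdef
  have hKs : 0 ≤ 8 / δ * (Cq ^ 2 * Cp + M2 * 3 ^ d * Cp + C / c) := by positivity
  have hK1 : 1 ≤ K := by linarith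
  have hK0 : 0 < K := by linarith
  have p1 : 0 ≤ 8 / δ * (Cq ^ 2 * Cp) := by positivity
  have p2 : 0 ≤ 8 / δ * (M2 * 3 ^ d * Cp) := by positivity
  have p3 : 0 ≤ 8 / δ * (C / c) := by positivity
  have k1 : Cq ^ 2 * Cp / K ≤ δ / 8 :=
    CMTight_small _ δ (by positivity) hδ (by rw [hKdef]; linarith) hK0
  have k2 : M2 * 3 ^ d * Cp / K ≤ δ / 8 :=
    CMTight_small _ δ (by positivity) hδ (by rw [hKdef]; linarith) hK0
  have k3 : C / c / K ≤ δ / 8 :=
    CMTight_small _ δ (by positivity) hδ (by rw [hKdef]; linarith) hK0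
  refine ⟨q, K, L0, hq, hK1, hRL, hL0, ?_⟩
  intro L hLR hL Sm hSm
  have hpoly := CMTight_poly hCp L
  obtain ⟨h1, h1p, H1⟩ := hinit L hLR hL
  obtain ⟨h2, h2p, H2⟩ := nuT_noise N (by omega)
  obtain ⟨h3, h3p, H3⟩ := hpsi k hk hkr hkB hVD q K hq hK1 L
  obtain ⟨h4, h4p, h41, H4⟩ := cm_exit N d β hβ0 ρ hρi L Sm (δ / 8) hSm (by positivity)
  have hcard : (0 : ℝ) ≤ (Fintype.card (boxS d L) : ℝ) := Nat.cast_nonneg _
  set h5 : ℝ := δ / (16 * (Sm + 1) * ((Fintype.card (boxS d L) : ℝ) + 1) * Ct) with hh5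
  have h5p : 0 < h5 := by positivity
  refine ⟨min h1 (min h2 (min h3 (min h4 h5))), lt_min h1p (lt_min h2p (lt_min h3p
    (lt_min h4p h5p))), ?_⟩
  intro h hh hlt y hy n hn
  have l1' : h < h1 := hlt.trans_le (min_le_left _ _)
  have l2' : h < h2 := hlt.trans_le ((min_le_right _ _).trans (min_le_left _ _))
  have l3' : h < h3 := hlt.trans_le ((min_le_right _ _).trans ((min_le_right _ _).trans
    (min_le_left _ _)))
  have l4' : h < h4 := hlt.trans_le ((min_le_right _ _).trans ((min_le_right _ _).trans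
    ((min_le_right _ _).trans (min_le_left _ _))))
  have l5' : h < h5 := hlt.trans_le ((min_le_right _ _).trans ((min_le_right _ _).trans
    ((min_le_right _ _).trans (min_le_right _ _))))
  have hlt1 : h < 1 := l4'.trans_le h41
  have hnoise := H2 h hh l2'
  haveI := hnoise.prob
  have hN2 := isNoise_noise2 hh hnoise
  obtain ⟨hch, hdr⟩ := H3 h (nuT N h) hh l3' hnoise y hy
  have hmono : Monotone y := hy.prof.mono
  obtain ⟨mPsi, nPsi, _⟩ := PsiK_facts Bs m q K hq hK1 L k y hmono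
  haveI hpi : IsProbabilityMeasure (Measure.pi (fun _ : boxS d L => ρ)) := inferInstance
  -- the tail
  obtain ⟨ht0, ht1⟩ := hCt h hh hlt1
  have htail : 2 * ((n : ℝ) + 1) * Fintype.card (boxS d L) * tailG N h ≤ δ / 8 := by
    have a1 : ((n : ℝ) + 1) * h ≤ Sm + 1 := by
      have : ((n : ℝ) + 1) * h = n * h + h := by ring
      rw [this]
      linarith
    have a2 : h * (16 * (Sm + 1) * ((Fintype.card (boxS d L) : ℝ) + 1) * Ct) ≤ δ := by
      have := l5'.le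
      rw [hh5, le_div_iff₀ (by positivity)] at this
      exact this
    calc 2 * ((n : ℝ) + 1) * Fintype.card (boxS d L) * tailG N h
        ≤ 2 * ((n : ℝ) + 1) * Fintype.card (boxS d L) * (Ct * h ^ 2) :=
          mul_le_mul_of_nonneg_left ht1 (by positivity)
      _ = 2 * (((n : ℝ) + 1) * h) * (Fintype.card (boxS d L) * Ct * h) := by ring
      _ ≤ 2 * (Sm + 1) * (Fintype.card (boxS d L) * Ct * h) := by
          refine mul_le_mul_of_nonneg_right ?_ (by positivity)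
          linarith
      _ ≤ 2 * (Sm + 1) * (((Fintype.card (boxS d L) : ℝ) + 1) * Ct * h) := by
          refine mul_le_mul_of_nonneg_left ?_ (by positivity)
          refine mul_le_mul_of_nonneg_right (mul_le_mul_of_nonneg_right ?_ hCt0.le) hh.le
          linarith
      _ ≤ δ / 8 := by nlinarith
  -- the functional
  set f : (boxS d L → E N) → ℂ := fun G => if 1 < PsiK Bs m q K L k y G then 1 else 0 with hf
  have hS : MeasurableSet {G | 1 < PsiK Bs m q K L k y G} := measurableSet_lt measurable_const mPsi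
  have hfm : Measurable f := Measurable.ite hS measurable_const measurable_const
  have hfb : ∀ G, ‖f G‖ ≤ 1 := by
    intro G
    rw [hf]
    dsimp only
    split_ifs <;> simp
  have hcl := chainLaw_integral (net := boxNet d L) (β := β) (h := h) (k := k)
    (ν := stdGaussian (E N)) hβ0 hh.le (Measure.pi (fun _ : boxS d L => ρ)) n f hfm hfb
  haveI := chainLaw_prob (net := boxNet d L) (β := β) (h := h) (k := k)
    (ν := stdGaussian (E N)) hβ0 hh.le (Measure.pi (fun _ : boxS d L => ρ)) n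
  have hre : ∫ G, f G ∂(chainLaw (boxNet d L) β h k (stdGaussian (E N))
      (Measure.pi (fun _ => ρ)) n) = (((chainLaw (boxNet d L) β h k (stdGaussian (E N))
      (Measure.pi (fun _ => ρ)) n).real {G | 1 < PsiK Bs m q K L k y G} : ℝ) : ℂ) := by
    have e1 : f = Set.indicator {G | 1 < PsiK Bs m q K L k y G} (fun _ => (1 : ℂ)) := by
      funext G
      rw [hf]
      by_cases hG : 1 < PsiK Bs m q K L k y G
      · rw [Set.indicator_of_mem (show G ∈ {G | 1 < PsiK Bs m q K L k y G} from hG)]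
        simp [hG]
      · rw [Set.indicator_of_notMem (show G ∉ {G | 1 < PsiK Bs m q K L k y G} from hG)]
        simp [hG]
    rw [e1, integral_indicator_const _ hS]
    simp
  set fs : List ((boxS d L → E N) → ℂ) := List.replicate n (fun _ => 1) ++ [f] with hfs
  have hfsm : ∀ g ∈ fs, Measurable g := by
    intro g hg
    rw [hfs, List.mem_append] at hg
    rcases hg with hg | hg
    · rw [List.eq_of_mem_replicate hg]
      exact measurable_const
    · rw [List.mem_singleton] at hg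
      rw [hg]
      exact hfm
  have hfsb : ∀ g ∈ fs, ∀ G, ‖g G‖ ≤ 1 := by
    intro g hg G
    rw [hfs, List.mem_append] at hg
    rcases hg with hg | hg
    · rw [List.eq_of_mem_replicate hg]
      simp
    · rw [List.mem_singleton] at hg
      rw [hg]
      exact hfb G
  have hlen : (fs.length : ℝ) = n + 1 := by
    rw [hfs]
    simp
  obtain ⟨mγ, bγ⟩ := pathE_facts (net := boxNet d L) (β := β) (h := h) (k := k)
    (ν := stdGaussian (E N)) hβ0 hh.le fs hfsm hfsb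
  obtain ⟨mν, bν⟩ := pathE_facts (net := boxNet d L) (β := β) (h := h) (k := k)
    (ν := nuT N h) hβ0 hh.le fs hfsm hfsb
  obtain ⟨mex, bex⟩ := exitE_facts (net := boxNet d L) (β := β) (h := h) (k := k)
    (ν := nuT N h) hβ0 hh.le n
  have hbad := H1 h (nuT N h) hh l1' hnoise y hy
  set Bad : Set (boxS d L → E N) := {G | ¬ (∀ z : boxS d L, Vs Bs m (boxNet d L) k y G z ≤
          Cq * (1 + (l1 (z : Fin d → ℤ) 0 : ℝ)) ^ q)} with hBad
  have hBadm : MeasurableSet Bad := by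
    have : Bad = (⋂ z : boxS d L, {G | Vs Bs m (boxNet d L) k y G z ≤
          Cq * (1 + (l1 (z : Fin d → ℤ) 0 : ℝ)) ^ q})ᶜ := by
      ext G
      simp [hBad]
    rw [this]
    exact (MeasurableSet.iInter fun z =>
      measurableSet_le (vs_meas Bs m k (boxNet d L) y hmono z) measurable_const).compl
  obtain ⟨iR, bR⟩ := CMTight_R2 (d := d) ρ hρi L hpoly K hK0
  have hnz := init_nz (N := N) (d := d) k hk ρ hρ0 L
  have hpt : ∀ᵐ G ∂(Measure.pi (fun _ : boxS d L => ρ)),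
      ‖pathE (boxNet d L) β h k (stdGaussian (E N)) fs G‖ ≤
        Bad.indicator (fun _ => (1 : ℝ)) G + (∑ x : boxS d L, R2f (boxNet d L) G x /
          (K * (1 + (l1 (x : Fin d → ℤ) 0 : ℝ)) ^ (d + 1)))
        + exitE (boxNet d L) β h k (nuT N h) n G + (δ / 8 + δ / 8 + δ / 8) := by
    filter_upwards [hnz] with G hG
    have t1 := pathE_trunc (net := boxNet d L) (k := k) hβ0 hh fs hfsm hfsb G
    rw [hlen] at t1
    have t2 : ‖pathE (boxNet d L) β h k (stdGaussian (E N)) fs G‖ ≤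
        ‖pathE (boxNet d L) β h k (nuT N h) fs G‖ + δ / 8 := by
      have := norm_le_norm_add_norm_sub' (pathE (boxNet d L) β h k (stdGaussian (E N)) fs G)
        (pathE (boxNet d L) β h k (nuT N h) fs G)
      linarith
    have hR0 : 0 ≤ ∑ x : boxS d L, R2f (boxNet d L) G x /
          (K * (1 + (l1 (x : Fin d → ℤ) 0 : ℝ)) ^ (d + 1)) := by
      refine Finset.sum_nonneg fun x _ => div_nonneg ?_ (by positivity)
      unfold R2f
      exact Finset.sum_nonneg fun z _ => by positivity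
    have hex0 := (bex G).1
    by_cases hGB : G ∈ Bad
    · rw [Set.indicator_of_mem hGB]
      have := bν G
      linarith
    · rw [Set.indicator_of_notMem hGB]
      have hgood : ∀ z : boxS d L, Vs Bs m (boxNet d L) k y G z ≤
          Cq * (1 + (l1 (z : Fin d → ℤ) 0 : ℝ)) ^ q := by
        by_contra hcon
        exact hGB hcon
      have t3 := path_markov (net := boxNet d L) (β := β) (h := h) (k := k) (ν := nuT N h)
        hβ0 hh (PsiK Bs m q K L k y) nPsi mPsi c (C / K) hc (by positivity) hch (Nz k)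
        (fun G hG1 hG2 => (hdr G hG1 hG2).1) (fun G hG1 hG2 => (hdr G hG1 hG2).2) n 1 one_pos G hG
      have t4 : ‖pathE (boxNet d L) β h k (nuT N h) fs G‖ ≤
          ((1 - c * h) ^ n * PsiK Bs m q K L k y G + C / K / c) / 1
            + exitE (boxNet d L) β h k (nuT N h) n G := by
        convert t3 using 3
      have t5 : (1 - c * h) ^ n * PsiK Bs m q K L k y G ≤ PsiK Bs m q K L k y G := by
        refine mul_le_of_le_one_left (nPsi G) (pow_le_one₀ (by linarith) ?_)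
        have : 0 < c * h := mul_pos hc hh
        linarith
      have t6 : PsiK Bs m q K L k y G ≤ δ / 8 + ∑ x : boxS d L, R2f (boxNet d L) G x /
          (K * (1 + (l1 (x : Fin d → ℤ) 0 : ℝ)) ^ (d + 1)) := by
        have := CMTight_V Bs m k q K Cq Cp L y hpoly hK0 hCq G hgood
        unfold PsiK
        linarith
      have t7 : C / K / c = C / c / K := by ring
      rw [div_one, t7] at t4
      linarith
  have i1 : Integrable (fun G => Bad.indicator (fun _ => (1 : ℝ)) G)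
      (Measure.pi (fun _ : boxS d L => ρ)) :=
    (integrable_const (1 : ℝ)).indicator hBadm
  have i2 : Integrable (fun G => exitE (boxNet d L) β h k (nuT N h) n G)
      (Measure.pi (fun _ : boxS d L => ρ)) := by
    refine Integrable.of_bound mex.aestronglyMeasurable 1 (Filter.Eventually.of_forall fun G => ?_)
    rw [Real.norm_of_nonneg (bex G).1]
    exact (bex G).2
  have i0 : Integrable (fun G => ‖pathE (boxNet d L) β h k (stdGaussian (E N)) fs G‖)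
      (Measure.pi (fun _ : boxS d L => ρ)) := by
    refine Integrable.of_bound mγ.norm.aestronglyMeasurable 1
      (Filter.Eventually.of_forall fun G => ?_)
    rw [norm_norm]
    exact bγ G
  have i3 : Integrable (fun G => Bad.indicator (fun _ => (1 : ℝ)) G
        + ∑ x : boxS d L, R2f (boxNet d L) G x /
          (K * (1 + (l1 (x : Fin d → ℤ) 0 : ℝ)) ^ (d + 1)))
      (Measure.pi (fun _ : boxS d L => ρ)) := i1.add iR
  have i4 : Integrable (fun G => Bad.indicator (fun _ => (1 : ℝ)) G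
        + (∑ x : boxS d L, R2f (boxNet d L) G x /
          (K * (1 + (l1 (x : Fin d → ℤ) 0 : ℝ)) ^ (d + 1)))
        + exitE (boxNet d L) β h k (nuT N h) n G)
      (Measure.pi (fun _ : boxS d L => ρ)) := i3.add i2
  have hexit : ∫ G, exitE (boxNet d L) β h k (nuT N h) n G
      ∂(Measure.pi (fun _ : boxS d L => ρ)) ≤ δ / 8 := by
    have := H4 h k hh l4' hk (hkr.trans hkr1) (nuT N h) hN2 0 n (by simpa using hSm) hn
    simpa only [chainLaw] using this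
  have hindi : ∫ G, Bad.indicator (fun _ => (1 : ℝ)) G ∂(Measure.pi (fun _ : boxS d L => ρ))
      ≤ δ / 8 := by
    rw [integral_indicator_const _ hBadm]
    simpa using hbad
  have hfin : ∫ G, ‖pathE (boxNet d L) β h k (stdGaussian (E N)) fs G‖
      ∂(Measure.pi (fun _ : boxS d L => ρ)) ≤ δ := by
    have e1 := integral_mono_ae i0 (i4.add (integrable_const (δ / 8 + δ / 8 + δ / 8))) hpt
    have e2 : ∫ G, (Bad.indicator (fun _ => (1 : ℝ)) G
        + (∑ x : boxS d L, R2f (boxNet d L) G x /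
          (K * (1 + (l1 (x : Fin d → ℤ) 0 : ℝ)) ^ (d + 1)))
        + exitE (boxNet d L) β h k (nuT N h) n G + (δ / 8 + δ / 8 + δ / 8))
        ∂(Measure.pi (fun _ : boxS d L => ρ))
        = ∫ G, Bad.indicator (fun _ => (1 : ℝ)) G ∂(Measure.pi (fun _ : boxS d L => ρ))
        + ∫ G, ∑ x : boxS d L, R2f (boxNet d L) G x /
          (K * (1 + (l1 (x : Fin d → ℤ) 0 : ℝ)) ^ (d + 1)) ∂(Measure.pi (fun _ : boxS d L => ρ))
        + ∫ G, exitE (boxNet d L) β h k (nuT N h) n G ∂(Measure.pi (fun _ : boxS d L => ρ))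
        + (δ / 8 + δ / 8 + δ / 8) := by
      rw [integral_add i4 (integrable_const _), integral_add i3 i2, integral_add i1 iR]
      simp
    have e3 := e1.trans (le_of_eq e2)
    linarith
  have hnn : 0 ≤ (chainLaw (boxNet d L) β h k (stdGaussian (E N))
      (Measure.pi (fun _ => ρ)) n).real {G | 1 < PsiK Bs m q K L k y G} := measureReal_nonneg
  have hnorm : (chainLaw (boxNet d L) β h k (stdGaussian (E N))
      (Measure.pi (fun _ => ρ)) n).real {G | 1 < PsiK Bs m q K L k y G}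
      = ‖∫ G, f G ∂(chainLaw (boxNet d L) β h k (stdGaussian (E N))
      (Measure.pi (fun _ => ρ)) n)‖ := by
    rw [hre, Complex.norm_real, Real.norm_of_nonneg hnn]
  rw [hnorm, hcl]
  exact (norm_integral_le_integral_norm _).trans hfin

end Dyn
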