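import Pool.Agent.Lib_MP_36b788.HatB

/-!
# UGEN: one-site generator for functions of `u = log r`

PROOF. `g = r e`, `R = ‖hat g ξ‖ = ψ(rζ)`, `δ = log R - log r = log ζ - log(1+hR^β)`, `|δ| ≤ 3ℓ` (HATB),
`ℓ = h^(3/8)`, `ℓ³ = h^(9/8)`. Taylor: `|f(u+δ) - f(u) - f'(u)δ - ½f''(u)δ²| ≤ B|δ|³ ≤ 27 B h^(9/8)`.
`hR^β = h r^β e^(βδ)`, so `|hR^β - hr^β| ≤ h r^β · C_β|δ| ≤ C h^(3/4) h^(3/8)`, and
`|log(1+x) - x| ≤ x²`, `x = hR^β`, `x² ≤ C h^(3/2)`. With LOGZ:
`|∫δ - h(½(N-2) - r^β)| ≤ C h^(9/8)`, and `δ² = (log ζ)² - 2 log ζ log(1+hR^β) + log²(1+hR^β)`,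
the last two `≤ C ℓ h^(3/4) = C h^(9/8)`, so `|∫δ² - h| ≤ C h^(9/8)`.
-/

open MeasureTheory

namespace Dyn

private theorem UGen_close {α : Type*} [MeasurableSpace α] {μ : Measure α} [IsProbabilityMeasure μ]
    {F G : α → ℝ} (hF : Integrable F μ) (hG : Integrable G μ) {c : ℝ}
    (h : ∀ᵐ x ∂μ, |F x - G x| ≤ c) : |∫ x, F x ∂μ - ∫ x, G x ∂μ| ≤ c := by
  rw [← integral_sub hF hG, ← Real.norm_eq_abs]
  have h1 := norm_integral_le_of_norm_le_const (f := fun x => F x - G x) (C := c) (μ := μ)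
    (by simpa only [Real.norm_eq_abs] using h)
  simpa using h1

private theorem UGen_exp (y : ℝ) : |Real.exp y - 1| ≤ |y| * Real.exp |y| := by
  have h1 := Real.add_one_le_exp y
  have h2 := Real.add_one_le_exp (-y)
  have h3 : Real.exp (-y) * Real.exp y = 1 := by
    rw [← Real.exp_add]
    simp
  have h4 := Real.exp_pos y
  rcases le_total 0 y with hy | hy
  · rw [abs_of_nonneg hy, abs_of_nonneg (by linarith)]
    nlinarith
  · rw [abs_of_nonpos hy, abs_of_nonpos (by linarith [Real.exp_le_one_iff.2 hy])]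
    have h5 : 1 ≤ Real.exp (-y) := Real.one_le_exp (by linarith)
    nlinarith

private theorem UGen_log1 {x : ℝ} (hx : 0 ≤ x) : 0 ≤ Real.log (1 + x) ∧ Real.log (1 + x) ≤ x ∧
    x - x ^ 2 ≤ Real.log (1 + x) := by
  refine ⟨Real.log_nonneg (by linarith), ?_, ?_⟩
  · have := Real.log_le_sub_one_of_pos (show 0 < 1 + x by linarith)
    linarith
  · have h1 := Real.one_sub_inv_le_log_of_pos (show 0 < 1 + x by linarith)
    have h2 : x - x ^ 2 ≤ 1 - (1 + x)⁻¹ := by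
      have h3 : 1 - (1 + x)⁻¹ = x / (1 + x) := by
        field_simp
        ring
      rw [h3, le_div_iff₀ (by linarith)]
      nlinarith [pow_nonneg hx 3, sq_nonneg x]
    linarith

private theorem UGen_taylor (f : ℝ → ℝ) (hf : ContDiff ℝ 3 f) (B : ℝ)
    (h3 : ∀ u, |iteratedDeriv 3 f u| ≤ B) (u d : ℝ) :
    |f (u + d) - f u - deriv f u * d - 1 / 2 * iteratedDeriv 2 f u * d ^ 2| ≤ B * |d| ^ 3 := by
  have hB : 0 ≤ B := (abs_nonneg _).trans (h3 0)
  have d1 : ∀ x, HasDerivAt f (deriv f x) x := fun x =>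
    ((hf.differentiable (by norm_num)) x).hasDerivAt
  have d2 : ∀ x, HasDerivAt (deriv f) (iteratedDeriv 2 f x) x := by
    intro x
    have h := (hf.differentiable_iteratedDeriv 1 (by norm_num)) x
    rw [iteratedDeriv_one] at h
    have h' := h.hasDerivAt
    rwa [iteratedDeriv_succ, iteratedDeriv_one]
  have d3 : ∀ x, HasDerivAt (iteratedDeriv 2 f) (iteratedDeriv 3 f x) x := by
    intro x
    have h := (hf.differentiable_iteratedDeriv 2 (by norm_num)) x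
    have h' := h.hasDerivAt
    rwa [← iteratedDeriv_succ] at h'
  have hshift : ∀ s : ℝ, HasDerivAt (fun s => u + s) 1 s := fun s => (hasDerivAt_id s).const_add u
  have b2 : ∀ s : ℝ, |iteratedDeriv 2 f (u + s) - iteratedDeriv 2 f u| ≤ B * |s| := by
    intro s
    have h := Convex.norm_image_sub_le_of_norm_hasDerivWithin_le (f := iteratedDeriv 2 f)
      (f' := iteratedDeriv 3 f) (C := B) (s := Set.univ) (x := u) (y := u + s)
      (fun x _ => (d3 x).hasDerivWithinAt) (fun x _ => h3 x) convex_univ (Set.mem_univ _)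
      (Set.mem_univ _)
    rw [Real.norm_eq_abs, Real.norm_eq_abs] at h
    have e : u + s - u = s := by ring
    rwa [e] at h
  have hconv : Convex ℝ (Metric.closedBall (0 : ℝ) |d|) := convex_closedBall _ _
  have h0 : (0 : ℝ) ∈ Metric.closedBall (0 : ℝ) |d| := Metric.mem_closedBall_self (abs_nonneg _)
  have hd : d ∈ Metric.closedBall (0 : ℝ) |d| := by
    rw [mem_closedBall_zero_iff, Real.norm_eq_abs]
  have b1 : ∀ s ∈ Metric.closedBall (0 : ℝ) |d|,
      |deriv f (u + s) - deriv f u - iteratedDeriv 2 f u * s| ≤ B * |d| * |d| := by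
    intro s hs
    have hs' : |s| ≤ |d| := by rwa [mem_closedBall_zero_iff, Real.norm_eq_abs] at hs
    have h := Convex.norm_image_sub_le_of_norm_hasDerivWithin_le
      (f := fun s => deriv f (u + s) - deriv f u - iteratedDeriv 2 f u * s)
      (f' := fun s => iteratedDeriv 2 f (u + s) - iteratedDeriv 2 f u) (C := B * |d|)
      (s := Metric.closedBall (0 : ℝ) |d|) (x := 0) (y := s)
      (fun x _ => by
        have e1 := ((d2 (u + x)).comp x (hshift x)).sub_const (deriv f u)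
        have e2 := e1.sub ((hasDerivAt_id x).const_mul (iteratedDeriv 2 f u))
        have e3 : iteratedDeriv 2 f (u + x) * 1 - iteratedDeriv 2 f u * 1
          = iteratedDeriv 2 f (u + x) - iteratedDeriv 2 f u := by ring
        rw [e3] at e2
        exact e2.hasDerivWithinAt)
      (fun x hx => by
        have hx' : |x| ≤ |d| := by rwa [mem_closedBall_zero_iff, Real.norm_eq_abs] at hx
        rw [Real.norm_eq_abs]
        exact (b2 x).trans (mul_le_mul_of_nonneg_left hx' hB)) hconv h0 hs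
    rw [Real.norm_eq_abs, Real.norm_eq_abs] at h
    simp only [add_zero, mul_zero, sub_self, sub_zero] at h
    refine h.trans ?_
    exact mul_le_mul_of_nonneg_left hs' (mul_nonneg hB (abs_nonneg _))
  have h := Convex.norm_image_sub_le_of_norm_hasDerivWithin_le
      (f := fun s => f (u + s) - f u - deriv f u * s - 1 / 2 * iteratedDeriv 2 f u * s ^ 2)
      (f' := fun s => deriv f (u + s) - deriv f u - iteratedDeriv 2 f u * s) (C := B * |d| * |d|)
      (s := Metric.closedBall (0 : ℝ) |d|) (x := 0) (y := d)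
      (fun x _ => by
        have e1 := ((d1 (u + x)).comp x (hshift x)).sub_const (f u)
        have e2 := e1.sub ((hasDerivAt_id x).const_mul (deriv f u))
        have e3 := e2.sub ((hasDerivAt_pow 2 x).const_mul (1 / 2 * iteratedDeriv 2 f u))
        have e4 : deriv f (u + x) * 1 - deriv f u * 1
            - 1 / 2 * iteratedDeriv 2 f u * ((2 : ℕ) * x ^ (2 - 1))
          = deriv f (u + x) - deriv f u - iteratedDeriv 2 f u * x := by
          push_cast
          ring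
        rw [e4] at e3
        exact e3.hasDerivWithinAt)
      (fun x hx => by
        rw [Real.norm_eq_abs]
        exact b1 x hx) hconv h0 hd
  rw [Real.norm_eq_abs, Real.norm_eq_abs] at h
  simp only [add_zero, mul_zero, sub_self, sub_zero] at h
  have e : (0 : ℝ) ^ 2 = 0 := by norm_num
  rw [e, mul_zero] at h
  simp only [sub_zero] at h
  calc _ ≤ B * |d| * |d| * |d| := h
    _ = B * |d| ^ 3 := by ring

private theorem UGen_mhat {N : ℕ} {β h : ℝ} (hβ : 0 < β) (hh : 0 ≤ h) (g : E N) :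
    Measurable (fun ξ : E N => Real.log ‖hat β h g ξ‖) := by
  have hp : Continuous (fun ξ : E N => ((g, ξ) : E N × E N)) := by fun_prop
  have hc := (hat_continuous (N := N) (β := β) (h := h) hβ hh).comp hp
  have hm := (Real.measurable_log.comp (continuous_norm.comp hc).measurable)
  exact hm

private theorem UGen_mz {N : ℕ} (e : E N) (c : ℝ) :
    Measurable (fun ξ : E N => Real.log ‖e + c • ξ‖) := by
  have hc : Continuous (fun ξ : E N => ‖e + c • ξ‖) := by fun_prop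
  exact Real.measurable_log.comp hc.measurable

private theorem UGen_core (N : ℕ) (β : ℝ) (hN : 1 ≤ N) (hβ : 0 < β) :
    ∃ C h0 : ℝ, 0 < C ∧ 0 < h0 ∧ h0 ≤ 1 / 1000 ∧ ∀ (h : ℝ) (ν : Measure (E N)), 0 < h → h < h0 →
      IsNoise h ν → ∀ g : E N, g ≠ 0 → ‖g‖ ≤ rad β h →
        (∀ᵐ ξ ∂ν, |Real.log ‖hat β h g ξ‖ - Real.log ‖g‖| ≤ 3 * h ^ (3 / 8 : ℝ)) ∧
        Measurable (fun ξ : E N => Real.log ‖hat β h g ξ‖) ∧ h ^ (3 / 8 : ℝ) ≤ 1 / 10 ∧
        |∫ ξ, (Real.log ‖hat β h g ξ‖ - Real.log ‖g‖) ∂ν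
          - h * (1 / 2 * (N - 2) - ‖g‖ ^ β)| ≤ C * h ^ (9 / 8 : ℝ) ∧
        |∫ ξ, (Real.log ‖hat β h g ξ‖ - Real.log ‖g‖) ^ 2 ∂ν - h| ≤ C * h ^ (9 / 8 : ℝ) := by
  obtain ⟨C2, k1, hC2, hk1, hlogz⟩ := logz N hN
  obtain ⟨k2, hk2, hk2', hzeta⟩ := zeta_ae N
  obtain ⟨k3, hk3, hk3', hhat⟩ := hat_bounds N β hβ
  set Cb : ℝ := (2 : ℝ) ^ β with hCb
  have hCb0 : 0 < Cb := by positivity
  set C1 : ℝ := Cb ^ 2 + 3 * β * Real.exp β with hC1
  have hC10 : 0 < C1 := by positivity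
  refine ⟨C1 + C2 + 5 * Cb, min k1 (min k2 k3), by positivity, by positivity,
    (min_le_right _ _).trans ((min_le_left _ _).trans hk2'), ?_⟩
  intro h ν hh hh0 hν g hg hgr
  have hh1 : h < k1 := hh0.trans_le (min_le_left _ _)
  have hh2 : h < k2 := hh0.trans_le ((min_le_right _ _).trans (min_le_left _ _))
  have hh3 : h < k3 := hh0.trans_le ((min_le_right _ _).trans (min_le_right _ _))
  have hlt1 : h < 1 := by linarith
  haveI := hν.prob
  have hr : 0 < ‖g‖ := norm_pos_iff.2 hg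
  set r : ℝ := ‖g‖ with hrdef
  set e : E N := r⁻¹ • g with he
  have he1 : ‖e‖ = 1 := by
    rw [he, norm_smul, norm_inv, Real.norm_of_nonneg hr.le, ← hrdef]
    exact inv_mul_cancel₀ hr.ne'
  have hge : r • e = g := by
    rw [he, smul_smul, mul_inv_cancel₀ hr.ne', one_smul]
  obtain ⟨hl1, hl2, hl3, hl4, hl5⟩ := hlogz h ν hh hh1 hν e he1
  have hz := hzeta h ν hh hh2 hν e he1
  have hb := hhat h ν hh hh3 hν g hgr
  obtain ⟨hr1, hr2, hr3, hr4⟩ := rad_facts hβ hh hlt1 hr.le hgr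
  set l : ℝ := h ^ (3 / 8 : ℝ) with hl
  have hl0 : 0 < l := by positivity
  have hl34 : h ^ (3 / 4 : ℝ) * l = h ^ (9 / 8 : ℝ) := by
    rw [hl, ← Real.rpow_add hh]
    norm_num
  have hl32 : (h ^ (3 / 4 : ℝ)) ^ 2 ≤ h ^ (9 / 8 : ℝ) := by
    rw [← Real.rpow_natCast, ← Real.rpow_mul hh.le]
    exact Real.rpow_le_rpow_of_exponent_ge hh hlt1.le (by norm_num)
  have h340 : 0 < h ^ (3 / 4 : ℝ) := by positivity
  have h980 : 0 < h ^ (9 / 8 : ℝ) := by positivity
  have mhat : Measurable (fun ξ : E N => Real.log ‖hat β h g ξ‖) := by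
    exact UGen_mhat hβ hh.le g
  have mz : Measurable (fun ξ : E N => Real.log ‖e + Real.sqrt h • ξ‖) := by
    exact UGen_mz e (Real.sqrt h)
  have hlten : l ≤ 1 / 10 := by
    obtain ⟨ξ, hξ⟩ := hb.exists
    exact hξ.2.2.2.2
  -- the pointwise facts
  have hpt : ∀ᵐ ξ ∂ν, |Real.log ‖e + Real.sqrt h • ξ‖| ≤ 2 * l ∧
      |Real.log ‖hat β h g ξ‖ - Real.log r| ≤ 3 * l ∧
      |(Real.log ‖hat β h g ξ‖ - Real.log r) - (Real.log ‖e + Real.sqrt h • ξ‖ - h * r ^ β)|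
        ≤ C1 * h ^ (9 / 8 : ℝ) ∧
      |(Real.log ‖hat β h g ξ‖ - Real.log r) ^ 2 - (Real.log ‖e + Real.sqrt h • ξ‖) ^ 2|
        ≤ 5 * Cb * h ^ (9 / 8 : ℝ) := by
    filter_upwards [hz, hb] with ξ hzξ hbξ
    obtain ⟨z1, z2, z3⟩ := hzξ
    obtain ⟨b1, b2, b3, b4, b5⟩ := hbξ
    have b4' := b4 hg
    set ζ : ℝ := ‖e + Real.sqrt h • ξ‖ with hζ
    set R : ℝ := ‖hat β h g ξ‖ with hR
    have hζ0 : 0 < ζ := by
      have := (abs_le.1 z1).1
      linarith
    have hRpsi : R = psi β h (r * ζ) := by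
      rw [hR, hζ, ← norm_hat hβ hh.le hr.le he1 ξ, hge]
    have hR0 : 0 < R := by
      rw [hRpsi]
      exact psi_pos hβ hh.le (mul_pos hr hζ0)
    have heq : R * (1 + h * R ^ β) = r * ζ := by
      have h1 := psi_eq (β := β) (h := h) hβ hh.le (v := r * ζ) (by positivity)
      rw [← hRpsi, Real.rpow_add hR0, Real.rpow_one] at h1
      linarith
    have hx0 : 0 ≤ h * R ^ β := by positivity
    have hlog : Real.log R - Real.log r = Real.log ζ - Real.log (1 + h * R ^ β) := by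
      have h1 : Real.log (R * (1 + h * R ^ β)) = Real.log (r * ζ) := by rw [heq]
      rw [Real.log_mul hR0.ne' (by positivity), Real.log_mul hr.ne' hζ0.ne'] at h1
      linarith
    have hR2 : R ≤ 2 * r := by nlinarith
    have hxle : h * R ^ β ≤ Cb * h ^ (3 / 4 : ℝ) := by
      have h1 : R ^ β ≤ (2 * r) ^ β := Real.rpow_le_rpow hR0.le hR2 hβ.le
      rw [Real.mul_rpow (by norm_num) hr.le] at h1
      calc h * R ^ β ≤ h * (2 ^ β * r ^ β) := mul_le_mul_of_nonneg_left h1 hh.le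
        _ = Cb * (h * r ^ β) := by rw [hCb]; ring
        _ ≤ Cb * h ^ (3 / 4 : ℝ) := mul_le_mul_of_nonneg_left hr3 hCb0.le
    obtain ⟨g1, g2, g3⟩ := UGen_log1 hx0
    have hdiff : |h * R ^ β - h * r ^ β| ≤ 3 * β * Real.exp β * h ^ (9 / 8 : ℝ) := by
      set δ : ℝ := Real.log R - Real.log r with hδ
      have hRe : R = r * Real.exp δ := by
        rw [hδ, Real.exp_sub, Real.exp_log hR0, Real.exp_log hr]
        field_simp
      have h1 : R ^ β = r ^ β * Real.exp (δ * β) := by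
        rw [hRe, Real.mul_rpow hr.le (Real.exp_pos _).le, ← Real.exp_mul]
      have h2 : h * R ^ β - h * r ^ β = h * r ^ β * (Real.exp (δ * β) - 1) := by
        rw [h1]
        ring
      have hrb : 0 ≤ h * r ^ β := by positivity
      rw [h2, abs_mul, abs_of_nonneg hrb]
      have h3 := UGen_exp (δ * β)
      have h4 : |δ * β| ≤ 3 * l * β := by
        rw [abs_mul, abs_of_pos hβ]
        exact mul_le_mul_of_nonneg_right b4' hβ.le
      have h5 : |δ * β| ≤ β := by nlinarith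
      have h6 : |Real.exp (δ * β) - 1| ≤ 3 * l * β * Real.exp β :=
        h3.trans (mul_le_mul h4 (Real.exp_le_exp.2 h5) (Real.exp_pos _).le (by positivity))
      calc h * r ^ β * |Real.exp (δ * β) - 1| ≤ h ^ (3 / 4 : ℝ) * (3 * l * β * Real.exp β) :=
            mul_le_mul hr3 h6 (abs_nonneg _) h340.le
        _ = 3 * β * Real.exp β * (h ^ (3 / 4 : ℝ) * l) := by ring
        _ = 3 * β * Real.exp β * h ^ (9 / 8 : ℝ) := by rw [hl34]
    refine ⟨z2, b4', ?_, ?_⟩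
    · rw [hlog]
      have e1 : Real.log ζ - Real.log (1 + h * R ^ β) - (Real.log ζ - h * r ^ β)
          = (h * R ^ β - Real.log (1 + h * R ^ β)) - (h * R ^ β - h * r ^ β) := by ring
      rw [e1]
      refine (abs_sub _ _).trans ?_
      have e2 : |h * R ^ β - Real.log (1 + h * R ^ β)| ≤ Cb ^ 2 * h ^ (9 / 8 : ℝ) := by
        rw [abs_of_nonneg (by linarith)]
        have h7 : (h * R ^ β) ^ 2 ≤ (Cb * h ^ (3 / 4 : ℝ)) ^ 2 := pow_le_pow_left₀ hx0 hxle 2
        have h8 : (Cb * h ^ (3 / 4 : ℝ)) ^ 2 = Cb ^ 2 * (h ^ (3 / 4 : ℝ)) ^ 2 := by ring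
        have h9 : Cb ^ 2 * (h ^ (3 / 4 : ℝ)) ^ 2 ≤ Cb ^ 2 * h ^ (9 / 8 : ℝ) :=
          mul_le_mul_of_nonneg_left hl32 (by positivity)
        linarith
      rw [hC1]
      linarith
    · have e1 : (Real.log R - Real.log r) ^ 2 - (Real.log ζ) ^ 2
          = -(Real.log (1 + h * R ^ β)) * ((Real.log R - Real.log r) + Real.log ζ) := by
        have : Real.log (1 + h * R ^ β) = Real.log ζ - (Real.log R - Real.log r) := by linarith
        rw [this]
        ring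
      rw [e1, abs_mul, abs_neg, abs_of_nonneg g1]
      have e2 : |Real.log R - Real.log r + Real.log ζ| ≤ 5 * l := by
        refine (abs_add_le _ _).trans ?_
        linarith
      calc Real.log (1 + h * R ^ β) * |Real.log R - Real.log r + Real.log ζ|
          ≤ (Cb * h ^ (3 / 4 : ℝ)) * (5 * l) :=
            mul_le_mul (g2.trans hxle) e2 (abs_nonneg _) (by positivity)
        _ = 5 * Cb * (h ^ (3 / 4 : ℝ) * l) := by ring
        _ = 5 * Cb * h ^ (9 / 8 : ℝ) := by rw [hl34]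
  have iδ : Integrable (fun ξ : E N => Real.log ‖hat β h g ξ‖ - Real.log r) ν :=
    Integrable.of_bound (mhat.sub_const _).aestronglyMeasurable (3 * l)
      (hpt.mono fun ξ hξ => hξ.2.1)
  have iz : Integrable (fun ξ : E N => Real.log ‖e + Real.sqrt h • ξ‖) ν :=
    Integrable.of_bound mz.aestronglyMeasurable (2 * l) (hpt.mono fun ξ hξ => hξ.1)
  have iδ2 : Integrable (fun ξ : E N => (Real.log ‖hat β h g ξ‖ - Real.log r) ^ 2) ν := by
    refine Integrable.of_bound ((mhat.sub_const _).pow_const 2).aestronglyMeasurable ((3 * l) ^ 2)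
      (hpt.mono fun ξ hξ => ?_)
    rw [Real.norm_eq_abs, abs_pow]
    exact pow_le_pow_left₀ (abs_nonneg _) hξ.2.1 2
  have iz2 : Integrable (fun ξ : E N => (Real.log ‖e + Real.sqrt h • ξ‖) ^ 2) ν := by
    refine Integrable.of_bound (mz.pow_const 2).aestronglyMeasurable ((2 * l) ^ 2)
      (hpt.mono fun ξ hξ => ?_)
    rw [Real.norm_eq_abs, abs_pow]
    exact pow_le_pow_left₀ (abs_nonneg _) hξ.1 2
  refine ⟨hpt.mono fun ξ hξ => hξ.2.1, mhat, hlten, ?_, ?_⟩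
  · have izc : Integrable (fun ξ : E N => Real.log ‖e + Real.sqrt h • ξ‖ - h * r ^ β) ν :=
      iz.sub (integrable_const (h * r ^ β))
    have c1 := UGen_close iδ izc (hpt.mono fun ξ hξ => hξ.2.2.1)
    have c2 : ∫ ξ, (Real.log ‖e + Real.sqrt h • ξ‖ - h * r ^ β) ∂ν
        = ∫ ξ, Real.log ‖e + Real.sqrt h • ξ‖ ∂ν - h * r ^ β := by
      rw [integral_sub iz (integrable_const _)]
      simp
    rw [c2] at c1
    rw [abs_le] at c1 hl1 ⊢
    constructor
    · nlinarith [c1.1, hl1.1, mul_pos hCb0 h980]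
    · nlinarith [c1.2, hl1.2, mul_pos hCb0 h980]
  · have c1 := UGen_close iδ2 iz2 (hpt.mono fun ξ hξ => hξ.2.2.2)
    have c4 := mul_pos hC10 h980
    rw [abs_le] at c1 hl2 ⊢
    constructor
    · nlinarith [c1.1, hl2.1]
    · nlinarith [c1.2, hl2.2]

theorem ugen (N : ℕ) (β : ℝ) (hN : 1 ≤ N) (hβ : 0 < β) :
    ∃ C h0 : ℝ, 0 < C ∧ 0 < h0 ∧ ∀ (h : ℝ) (ν : Measure (E N)), 0 < h → h < h0 → IsNoise h ν →
      ∀ g : E N, g ≠ 0 → ‖g‖ ≤ rad β h → ∀ (f : ℝ → ℝ) (B : ℝ), ContDiff ℝ 3 f →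
        (∀ u, |deriv f u| ≤ B) → (∀ u, |iteratedDeriv 2 f u| ≤ B) →
        (∀ u, |iteratedDeriv 3 f u| ≤ B) →
        |∫ ξ, f (Real.log ‖hat β h g ξ‖) ∂ν - f (Real.log ‖g‖)
          - h * (1 / 2 * iteratedDeriv 2 f (Real.log ‖g‖)
              + (1 / 2 * (N - 2) - ‖g‖ ^ β) * deriv f (Real.log ‖g‖))| ≤
          C * B * h ^ (9 / 8 : ℝ) := by
  obtain ⟨C, h0, hC, hh0, hh0', hcore⟩ := UGen_core N β hN hβ
  refine ⟨27 + 2 * C, h0, by positivity, hh0, ?_⟩
  intro h ν hh hlt hν g hg hgr f B hf hB1 hB2 hB3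
  obtain ⟨hae, mlog, hl, hm1, hm2⟩ := hcore h ν hh hlt hν g hg hgr
  haveI := hν.prob
  have hB0 : 0 ≤ B := (abs_nonneg _).trans (hB1 0)
  set l : ℝ := h ^ (3 / 8 : ℝ) with hldef
  have hl0 : 0 < l := by positivity
  have hl3 : l ^ 3 = h ^ (9 / 8 : ℝ) := by
    rw [hldef, ← Real.rpow_natCast, ← Real.rpow_mul hh.le]
    norm_num
  have h980 : 0 < h ^ (9 / 8 : ℝ) := by positivity
  set u : ℝ := Real.log ‖g‖ with hu
  have iδ : Integrable (fun ξ : E N => Real.log ‖hat β h g ξ‖ - u) ν :=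
    Integrable.of_bound (mlog.sub_const _).aestronglyMeasurable (3 * l) hae
  have iδ2 : Integrable (fun ξ : E N => (Real.log ‖hat β h g ξ‖ - u) ^ 2) ν := by
    refine Integrable.of_bound ((mlog.sub_const _).pow_const 2).aestronglyMeasurable ((3 * l) ^ 2)
      (hae.mono fun ξ hξ => ?_)
    rw [Real.norm_eq_abs, abs_pow]
    exact pow_le_pow_left₀ (abs_nonneg _) hξ 2
  have hT : ∀ᵐ ξ ∂ν, |f (Real.log ‖hat β h g ξ‖) - (f u + deriv f u * (Real.log ‖hat β h g ξ‖ - u)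
      + 1 / 2 * iteratedDeriv 2 f u * (Real.log ‖hat β h g ξ‖ - u) ^ 2)|
      ≤ 27 * B * h ^ (9 / 8 : ℝ) := by
    filter_upwards [hae] with ξ hξ
    have h1 := UGen_taylor f hf B hB3 u (Real.log ‖hat β h g ξ‖ - u)
    have e1 : u + (Real.log ‖hat β h g ξ‖ - u) = Real.log ‖hat β h g ξ‖ := by ring
    rw [e1] at h1
    have e2 : f (Real.log ‖hat β h g ξ‖) - (f u + deriv f u * (Real.log ‖hat β h g ξ‖ - u)
      + 1 / 2 * iteratedDeriv 2 f u * (Real.log ‖hat β h g ξ‖ - u) ^ 2)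
      = f (Real.log ‖hat β h g ξ‖) - f u - deriv f u * (Real.log ‖hat β h g ξ‖ - u)
        - 1 / 2 * iteratedDeriv 2 f u * (Real.log ‖hat β h g ξ‖ - u) ^ 2 := by ring
    rw [e2]
    refine h1.trans ?_
    have h2 : |Real.log ‖hat β h g ξ‖ - u| ^ 3 ≤ (3 * l) ^ 3 := pow_le_pow_left₀ (abs_nonneg _) hξ 3
    calc B * |Real.log ‖hat β h g ξ‖ - u| ^ 3 ≤ B * (3 * l) ^ 3 :=
          mul_le_mul_of_nonneg_left h2 hB0
      _ = 27 * B * l ^ 3 := by ring
      _ = 27 * B * h ^ (9 / 8 : ℝ) := by rw [hl3]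
  have iq : Integrable (fun ξ : E N => f u + deriv f u * (Real.log ‖hat β h g ξ‖ - u)
      + 1 / 2 * iteratedDeriv 2 f u * (Real.log ‖hat β h g ξ‖ - u) ^ 2) ν :=
    ((integrable_const _).add (iδ.const_mul _)).add (iδ2.const_mul _)
  have ifl : Integrable (fun ξ : E N => f (Real.log ‖hat β h g ξ‖)) ν := by
    have hm : AEStronglyMeasurable (fun ξ : E N => f (Real.log ‖hat β h g ξ‖)) ν :=
      (hf.continuous.measurable.comp mlog).aestronglyMeasurable
    have h1 : Integrable (fun ξ : E N => f (Real.log ‖hat β h g ξ‖)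
        - (f u + deriv f u * (Real.log ‖hat β h g ξ‖ - u)
      + 1 / 2 * iteratedDeriv 2 f u * (Real.log ‖hat β h g ξ‖ - u) ^ 2)) ν :=
      Integrable.of_bound (hm.sub iq.aestronglyMeasurable) (27 * B * h ^ (9 / 8 : ℝ)) hT
    have h2 := h1.add iq
    refine h2.congr (Filter.Eventually.of_forall fun ξ => ?_)
    simp
  have c1 := UGen_close ifl iq hT
  have c2 : ∫ ξ, (f u + deriv f u * (Real.log ‖hat β h g ξ‖ - u)
      + 1 / 2 * iteratedDeriv 2 f u * (Real.log ‖hat β h g ξ‖ - u) ^ 2) ∂ν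
      = f u + deriv f u * ∫ ξ, (Real.log ‖hat β h g ξ‖ - u) ∂ν
        + 1 / 2 * iteratedDeriv 2 f u * ∫ ξ, (Real.log ‖hat β h g ξ‖ - u) ^ 2 ∂ν := by
    have i1 : Integrable (fun ξ : E N => f u + deriv f u * (Real.log ‖hat β h g ξ‖ - u)) ν :=
      (integrable_const _).add (iδ.const_mul _)
    rw [integral_add i1 (iδ2.const_mul _), integral_add (integrable_const _) (iδ.const_mul _),
      integral_const_mul, integral_const_mul]
    simp
  rw [c2] at c1
  set I1 : ℝ := ∫ ξ, (Real.log ‖hat β h g ξ‖ - u) ∂ν with hI1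
  set I2 : ℝ := ∫ ξ, (Real.log ‖hat β h g ξ‖ - u) ^ 2 ∂ν with hI2
  have c3 : |deriv f u * (I1 - h * (1 / 2 * (N - 2) - ‖g‖ ^ β))| ≤ B * (C * h ^ (9 / 8 : ℝ)) := by
    rw [abs_mul]
    exact mul_le_mul (hB1 u) hm1 (abs_nonneg _) hB0
  have c4 : |1 / 2 * iteratedDeriv 2 f u * (I2 - h)| ≤ B * (C * h ^ (9 / 8 : ℝ)) := by
    rw [abs_mul, abs_mul, abs_of_pos (by norm_num : (0 : ℝ) < 1 / 2)]
    refine mul_le_mul ?_ hm2 (abs_nonneg _) hB0
    have := hB2 u
    have := abs_nonneg (iteratedDeriv 2 f u)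
    linarith
  have e5 : ∫ ξ, f (Real.log ‖hat β h g ξ‖) ∂ν - f u
      - h * (1 / 2 * iteratedDeriv 2 f u + (1 / 2 * (N - 2) - ‖g‖ ^ β) * deriv f u)
      = (∫ ξ, f (Real.log ‖hat β h g ξ‖) ∂ν - (f u + deriv f u * I1
          + 1 / 2 * iteratedDeriv 2 f u * I2))
        + deriv f u * (I1 - h * (1 / 2 * (N - 2) - ‖g‖ ^ β))
        + 1 / 2 * iteratedDeriv 2 f u * (I2 - h) := by ring
  rw [e5]
  refine (abs_add_le _ _).trans ?_
  have c5 := abs_add_le (∫ ξ, f (Real.log ‖hat β h g ξ‖) ∂ν - (f u + deriv f u * I1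
          + 1 / 2 * iteratedDeriv 2 f u * I2)) (deriv f u * (I1 - h * (1 / 2 * (N - 2) - ‖g‖ ^ β)))
  calc _ ≤ 27 * B * h ^ (9 / 8 : ℝ) + B * (C * h ^ (9 / 8 : ℝ)) + B * (C * h ^ (9 / 8 : ℝ)) := by
        linarith
    _ = (27 + 2 * C) * B * h ^ (9 / 8 : ℝ) := by ring

/-- the special case of the logarithm itself, and its square -/
theorem ugen_log (N : ℕ) (β : ℝ) (hN : 1 ≤ N) (hβ : 0 < β) :
    ∃ C h0 : ℝ, 0 < C ∧ 0 < h0 ∧ ∀ (h : ℝ) (ν : Measure (E N)), 0 < h → h < h0 → IsNoise h ν →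
      ∀ g : E N, g ≠ 0 → ‖g‖ ≤ rad β h →
        |∫ ξ, (Real.log ‖hat β h g ξ‖ - Real.log ‖g‖) ∂ν
          - h * (1 / 2 * (N - 2) - ‖g‖ ^ β)| ≤ C * h ^ (9 / 8 : ℝ) ∧
        |∫ ξ, (Real.log ‖hat β h g ξ‖ - Real.log ‖g‖) ^ 2 ∂ν - h| ≤ C * h ^ (9 / 8 : ℝ) := by
  obtain ⟨C, h0, hC, hh0, hh0', hcore⟩ := UGen_core N β hN hβ
  refine ⟨C, h0, hC, hh0, ?_⟩
  intro h ν hh hlt hν g hg hgr
  exact (hcore h ν hh hlt hν g hg hgr).2.2.2

end Dyn
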