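import Pool.Agent.Lib_MP_36b788.HatB

/-!
# VGEN: mean and covariance of the vector increment `hat g ξ - g`

PROOF. `X = g + √h r ξ`, `hat g ξ = J X = X - h b(J X)`, `b(u) = ‖u‖^β u`, `‖h b(JX)‖ = hR^(1+β) ≤ C h^(3/4) r`
(alive). So `hat - g = √h r ξ - h b(JX)`.
* mean: `∫ξ = 0`; `‖b(JX) - b(g)‖ ≤ (1+β) (2r)^β ‖JX-g‖ ≤ C r^β ℓ r` (see the bound for `b` in JMap,
  `β ≥ 1`), `h r^β ℓ ≤ h^(9/8)`.
* covariance: `⟪a,hat-g⟫² = h r²⟪a,ξ⟫² - 2√h r⟪a,ξ⟫·h⟪a,b⟫ + h²⟪a,b⟫²`, the last two are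
  `≤ C ‖a‖² r² (ℓ h^(3/4) + h^(3/2))`, and `∫⟪a,ξ⟫² = ‖a‖² v`, `|v - 1| ≤ h`.
* `∫‖hat-g‖²`: the same.
-/

open MeasureTheory

namespace Dyn

private theorem VGen_rpow {β x y : ℝ} (hβ : 1 ≤ β) (hx : 0 ≤ x) (hxy : x ≤ y) :
    (y ^ β - x ^ β) * y ≤ β * y ^ β * (y - x) := by
  rcases eq_or_lt_of_le (hx.trans hxy) with h0 | hy
  · have hx0 : x = 0 := le_antisymm (by rw [h0]; exact hxy) hx
    rw [← h0, hx0]
    simp
  · have h1 := one_add_mul_self_le_rpow_one_add (s := (x - y) / y) (p := β) (by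
      rw [le_div_iff₀ hy]
      linarith) hβ
    have h2 : 1 + (x - y) / y = x / y := by
      field_simp
      ring
    rw [h2, Real.div_rpow hx hy.le] at h1
    have h3 : 0 < y ^ β := Real.rpow_pos_of_pos hy β
    rw [le_div_iff₀ h3] at h1
    have h4 : (1 + β * ((x - y) / y)) * y ^ β * y = y ^ β * y + β * y ^ β * (x - y) := by
      field_simp
    have h5 : (1 + β * ((x - y) / y)) * y ^ β * y ≤ x ^ β * y :=
      mul_le_mul_of_nonneg_right h1 hy.le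
    rw [h4] at h5
    nlinarith

private theorem VGen_b {N : ℕ} {β : ℝ} (hβ : 1 ≤ β) (u g : E N) :
    ‖‖u‖ ^ β • u - ‖g‖ ^ β • g‖ ≤ (1 + β) * (max ‖u‖ ‖g‖) ^ β * ‖u - g‖ := by
  have hβ0 : 0 ≤ β := by linarith
  have hu := norm_nonneg u
  have hg := norm_nonneg g
  have h1 : ‖u‖ ^ β • u - ‖g‖ ^ β • g = ‖u‖ ^ β • (u - g) + (‖u‖ ^ β - ‖g‖ ^ β) • g := by
    rw [smul_sub, sub_smul]
    abel
  have hmu : ‖u‖ ^ β ≤ (max ‖u‖ ‖g‖) ^ β := Real.rpow_le_rpow hu (le_max_left _ _) hβ0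
  have h2 : |‖u‖ ^ β - ‖g‖ ^ β| * ‖g‖ ≤ β * (max ‖u‖ ‖g‖) ^ β * |‖u‖ - ‖g‖| := by
    rcases le_total ‖g‖ ‖u‖ with h | h
    · have h3 := VGen_rpow hβ hg h
      rw [max_eq_left h, abs_of_nonneg (sub_nonneg.2 h),
        abs_of_nonneg (sub_nonneg.2 (Real.rpow_le_rpow hg h hβ0))]
      refine le_trans ?_ h3
      exact mul_le_mul_of_nonneg_left h (sub_nonneg.2 (Real.rpow_le_rpow hg h hβ0))
    · have h3 := VGen_rpow hβ hu h
      rw [max_eq_right h, abs_of_nonpos (sub_nonpos.2 h),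
        abs_of_nonpos (sub_nonpos.2 (Real.rpow_le_rpow hu h hβ0)), neg_sub, neg_sub]
      exact h3
  have h4 : |‖u‖ - ‖g‖| ≤ ‖u - g‖ := abs_norm_sub_norm_le u g
  have hm0 : 0 ≤ (max ‖u‖ ‖g‖) ^ β := Real.rpow_nonneg (le_max_of_le_left hu) β
  rw [h1]
  refine (norm_add_le _ _).trans ?_
  rw [norm_smul, norm_smul, Real.norm_eq_abs, Real.norm_eq_abs,
    abs_of_nonneg (Real.rpow_nonneg hu β)]
  have h5 : ‖u‖ ^ β * ‖u - g‖ ≤ (max ‖u‖ ‖g‖) ^ β * ‖u - g‖ :=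
    mul_le_mul_of_nonneg_right hmu (norm_nonneg _)
  have h6 : β * (max ‖u‖ ‖g‖) ^ β * |‖u‖ - ‖g‖| ≤ β * (max ‖u‖ ‖g‖) ^ β * ‖u - g‖ :=
    mul_le_mul_of_nonneg_left h4 (mul_nonneg hβ0 hm0)
  nlinarith

private theorem VGen_int {Ω : Type*} [MeasurableSpace Ω] {ν : Measure Ω} [IsProbabilityMeasure ν]
    {f g : Ω → ℝ} (hf : Integrable f ν) (hg : Integrable g ν) {K : ℝ}
    (h : ∀ᵐ x ∂ν, |f x - g x| ≤ K) : |∫ x, f x ∂ν - ∫ x, g x ∂ν| ≤ K := by
  rw [← integral_sub hf hg, ← Real.norm_eq_abs]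
  refine (norm_integral_le_of_norm_le_const (C := K) ?_).trans ?_
  · filter_upwards [h] with x hx
    rw [Real.norm_eq_abs]
    exact hx
  · simp

private theorem VGen_cont {N : ℕ} {β h : ℝ} (hβ0 : 0 < β) (hh : 0 < h) (g : E N) :
    Continuous fun ξ : E N => hat β h g ξ := by
  have h2 : Continuous fun ξ : E N => ((g, ξ) : E N × E N) := Continuous.prodMk_right g
  have h3 := (hat_continuous (N := N) (β := β) (h := h) hβ0 hh.le)
  have h4 := h3.comp h2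
  exact h4

theorem vgen (N : ℕ) (β : ℝ) (hN : 1 ≤ N) (hβ : 1 ≤ β) :
    ∃ C h0 : ℝ, 0 < C ∧ 0 < h0 ∧ ∀ (h : ℝ) (ν : Measure (E N)), 0 < h → h < h0 → IsNoise h ν →
      ∀ g : E N, ‖g‖ ≤ rad β h →
        ‖∫ ξ, (hat β h g ξ - g) ∂ν + (h * ‖g‖ ^ β) • g‖ ≤ C * h ^ (9 / 8 : ℝ) * ‖g‖ ∧
        (∀ a : E N, |∫ ξ, (inner ℝ a (hat β h g ξ - g)) ^ 2 ∂ν - h * ‖g‖ ^ 2 * ‖a‖ ^ 2| ≤
          C * h ^ (9 / 8 : ℝ) * ‖g‖ ^ 2 * ‖a‖ ^ 2) ∧
        |∫ ξ, ‖hat β h g ξ - g‖ ^ 2 ∂ν - h * N * ‖g‖ ^ 2| ≤ C * h ^ (9 / 8 : ℝ) * ‖g‖ ^ 2 := by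
  have hβ0 : 0 < β := by linarith
  obtain ⟨h1, hh1, hh1', HB⟩ := hat_bounds N β hβ0
  obtain ⟨c, hc⟩ : ∃ c : ℝ, c = 2 ^ β * 2 := ⟨_, rfl⟩
  have hc0 : 0 < c := by rw [hc]; positivity
  have hNr : (0 : ℝ) < N := by exact_mod_cast hN
  refine ⟨(1 + β) * (2 ^ β * 2) + 2 * c + c ^ 2 + N + 1, h1, by positivity, hh1, ?_⟩
  intro h ν hh hlt hν g hg
  have := hν.prob
  have hlt1 : h < 1 := by linarith
  obtain ⟨r, hr⟩ : ∃ r : ℝ, r = ‖g‖ := ⟨_, rfl⟩
  have hr0 : 0 ≤ r := by rw [hr]; exact norm_nonneg g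
  have hrf := rad_facts hβ0 hh hlt1 (norm_nonneg g) hg
  have hB := HB h ν hh hlt hν g hg
  obtain ⟨l, hl⟩ : ∃ l : ℝ, l = h ^ (3 / 8 : ℝ) := ⟨_, rfl⟩
  have hl0 : 0 < l := by rw [hl]; positivity
  rw [← hl, ← hr] at hB
  rw [← hr] at hrf
  obtain ⟨-, -, hrβ, -⟩ := hrf
  have hl34 : h ^ (3 / 4 : ℝ) = l * l := by
    rw [hl, ← Real.rpow_add hh]
    norm_num
  have hl98 : h ^ (9 / 8 : ℝ) = l * (l * l) := by
    rw [hl, ← Real.rpow_add hh, ← Real.rpow_add hh]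
    norm_num
  rw [hl34] at hrβ
  have hl1 : l ≤ 1 := by
    rw [hl]
    exact Real.rpow_le_one hh.le hlt1.le (by norm_num)
  -- h ≤ l * l
  have hhl : h * h ≤ l * (l * l) := by
    rw [← hl98]
    have h2 : h * h = h ^ (2 : ℝ) := by
      rw [Real.rpow_two]
      ring
    rw [h2]
    exact Real.rpow_le_rpow_of_exponent_ge hh hlt1.le (by norm_num)
  -- continuity
  have hcont : Continuous fun ξ : E N => hat β h g ξ := VGen_cont hβ0 hh g
  -- the noise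
  have hs0 : 0 < Real.sqrt h := Real.sqrt_pos.2 hh
  have hss : Real.sqrt h * Real.sqrt h = h := Real.mul_self_sqrt hh.le
  have hξ : ∀ᵐ ξ ∂ν, Real.sqrt h * ‖ξ‖ ≤ l := by rw [hl]; exact hν.bdd
  have hξM : ∀ᵐ ξ ∂ν, ‖ξ‖ ≤ l / Real.sqrt h := by
    filter_upwards [hξ] with ξ h2
    rw [le_div_iff₀ hs0]
    linarith
  have hM0 : 0 ≤ l / Real.sqrt h := by positivity
  -- the structure of the increment
  have hkey : ∀ᵐ ξ ∂ν, ∃ b : E N, hat β h g ξ - g = (Real.sqrt h * r) • ξ - b ∧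
      ‖b‖ ≤ c * (l * l) * r ∧ ‖b - (h * r ^ β) • g‖ ≤ (1 + β) * (2 ^ β * 2) * (l * (l * l)) * r ∧
      Real.sqrt h * ‖ξ‖ ≤ l := by
    filter_upwards [hB, hξ] with ξ h2 h3
    obtain ⟨b1, b2, b3, -, b5⟩ := h2
    obtain ⟨u, hu⟩ : ∃ u : E N, u = hat β h g ξ := ⟨_, rfl⟩
    rw [← hu] at b1 b2 b3 ⊢
    have hJ := J_eq (N := N) hβ0 hh.le (g + (Real.sqrt h * ‖g‖) • ξ)
    have hu' : J β h (g + (Real.sqrt h * ‖g‖) • ξ) = u := by rw [hu]; rfl
    rw [hu', ← hr] at hJ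
    have hu2 : ‖u‖ ≤ 2 * r := by nlinarith
    have hup : ‖u‖ ^ β ≤ 2 ^ β * r ^ β := by
      rw [← Real.mul_rpow (by norm_num) hr0]
      exact Real.rpow_le_rpow (norm_nonneg _) hu2 hβ0.le
    have hrβ0 : 0 ≤ r ^ β := Real.rpow_nonneg hr0 β
    have h2β : (0 : ℝ) < 2 ^ β := by positivity
    refine ⟨(h * ‖u‖ ^ β) • u, ?_, ?_, ?_, h3⟩
    · have : u = g + (Real.sqrt h * r) • ξ - (h * ‖u‖ ^ β) • u := by
        rw [← hJ]
        abel
      calc u - g = (g + (Real.sqrt h * r) • ξ - (h * ‖u‖ ^ β) • u) - g := by rw [← this]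
        _ = (Real.sqrt h * r) • ξ - (h * ‖u‖ ^ β) • u := by abel
    · rw [norm_smul, Real.norm_eq_abs, abs_of_nonneg (by positivity)]
      have e1 : h * ‖u‖ ^ β ≤ 2 ^ β * (l * l) := by
        calc h * ‖u‖ ^ β ≤ h * (2 ^ β * r ^ β) := mul_le_mul_of_nonneg_left hup hh.le
          _ = 2 ^ β * (h * r ^ β) := by ring
          _ ≤ 2 ^ β * (l * l) := mul_le_mul_of_nonneg_left hrβ h2β.le
      calc h * ‖u‖ ^ β * ‖u‖ ≤ 2 ^ β * (l * l) * (2 * r) :=
            mul_le_mul e1 hu2 (norm_nonneg _) (by positivity)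
        _ = c * (l * l) * r := by rw [hc]; ring
    · have e1 : (h * ‖u‖ ^ β) • u - (h * r ^ β) • g = h • (‖u‖ ^ β • u - ‖g‖ ^ β • g) := by
        rw [smul_sub, smul_smul, smul_smul, hr]
      rw [e1, norm_smul, Real.norm_eq_abs, abs_of_pos hh]
      have e2 := VGen_b hβ u g
      have e3 : (max ‖u‖ ‖g‖) ^ β ≤ 2 ^ β * r ^ β := by
        rw [← Real.mul_rpow (by norm_num) hr0]
        refine Real.rpow_le_rpow (le_max_of_le_left (norm_nonneg _)) (max_le hu2 ?_) hβ0.le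
        rw [← hr]
        linarith
      have e4 : ‖‖u‖ ^ β • u - ‖g‖ ^ β • g‖ ≤ (1 + β) * (2 ^ β * r ^ β) * (2 * l * r) := by
        refine e2.trans ?_
        refine mul_le_mul (mul_le_mul_of_nonneg_left e3 (by linarith)) b1 (norm_nonneg _) ?_
        positivity
      calc h * ‖‖u‖ ^ β • u - ‖g‖ ^ β • g‖ ≤ h * ((1 + β) * (2 ^ β * r ^ β) * (2 * l * r)) :=
            mul_le_mul_of_nonneg_left e4 hh.le
        _ = (1 + β) * (2 ^ β * 2) * (l * (h * r ^ β)) * r := by ring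
        _ ≤ (1 + β) * (2 ^ β * 2) * (l * (l * l)) * r := by
            have : l * (h * r ^ β) ≤ l * (l * l) := mul_le_mul_of_nonneg_left hrβ hl0.le
            have h5 : 0 ≤ (1 + β) * (2 ^ β * 2) := by positivity
            exact mul_le_mul_of_nonneg_right (mul_le_mul_of_nonneg_left this h5) hr0
  -- moments
  obtain ⟨m2, hm2⟩ : ∃ m2 : ℝ, m2 = ∫ ξ, ‖ξ‖ ^ 2 ∂ν := ⟨_, rfl⟩
  have hm2u : m2 ≤ N := by rw [hm2]; exact hν.mom_le
  have hm2l : (N : ℝ) * (1 - h) ≤ m2 := by rw [hm2]; exact hν.le_mom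
  -- integrability
  have hDb : ∀ᵐ ξ ∂ν, ‖hat β h g ξ - g‖ ≤ 2 * l * r := by
    filter_upwards [hB] with ξ h2
    exact h2.1
  have iD : Integrable (fun ξ : E N => hat β h g ξ - g) ν :=
    Integrable.of_bound (hcont.sub continuous_const).aestronglyMeasurable _ hDb
  have iξ : Integrable (fun ξ : E N => ξ) ν :=
    Integrable.of_bound continuous_id.aestronglyMeasurable _ hξM
  have iξ2 : Integrable (fun ξ : E N => ‖ξ‖ ^ 2) ν := by
    refine Integrable.of_bound (continuous_norm.pow 2).aestronglyMeasurable ((l / Real.sqrt h) ^ 2) ?_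
    filter_upwards [hξM] with ξ h2
    rw [Real.norm_eq_abs, abs_of_nonneg (by positivity)]
    exact pow_le_pow_left₀ (norm_nonneg _) h2 2
  have iaξ : ∀ a : E N, Integrable (fun ξ : E N => (inner ℝ a ξ) ^ 2) ν := by
    intro a
    refine Integrable.of_bound ((continuous_const.inner continuous_id).pow 2).aestronglyMeasurable
      ((‖a‖ * (l / Real.sqrt h)) ^ 2) ?_
    filter_upwards [hξM] with ξ h2
    rw [Real.norm_eq_abs, abs_of_nonneg (by positivity), ← sq_abs]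
    refine pow_le_pow_left₀ (abs_nonneg _) ?_ 2
    exact (abs_real_inner_le_norm a ξ).trans (mul_le_mul_of_nonneg_left h2 (norm_nonneg _))
  have iaD : ∀ a : E N, Integrable (fun ξ : E N => (inner ℝ a (hat β h g ξ - g)) ^ 2) ν := by
    intro a
    refine Integrable.of_bound
      ((continuous_const.inner (hcont.sub continuous_const)).pow 2).aestronglyMeasurable
      ((‖a‖ * (2 * l * r)) ^ 2) ?_
    filter_upwards [hDb] with ξ h2
    rw [Real.norm_eq_abs, abs_of_nonneg (by positivity), ← sq_abs]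
    refine pow_le_pow_left₀ (abs_nonneg _) ?_ 2
    exact (abs_real_inner_le_norm a _).trans (mul_le_mul_of_nonneg_left h2 (norm_nonneg _))
  have iD2 : Integrable (fun ξ : E N => ‖hat β h g ξ - g‖ ^ 2) ν := by
    refine Integrable.of_bound ((hcont.sub continuous_const).norm.pow 2).aestronglyMeasurable
      ((2 * l * r) ^ 2) ?_
    filter_upwards [hDb] with ξ h2
    rw [Real.norm_eq_abs, abs_of_nonneg (by positivity)]
    exact pow_le_pow_left₀ (norm_nonneg _) h2 2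
  have hq0 : 0 ≤ l * (l * l) := by positivity
  rw [hl98, ← hr]
  refine ⟨?_, ?_, ?_⟩
  · -- the mean
    have e1 : ∫ ξ, (hat β h g ξ - g) ∂ν + (h * r ^ β) • g =
        ∫ ξ, ((hat β h g ξ - g) - (Real.sqrt h * r) • ξ + (h * r ^ β) • g) ∂ν := by
      have i1 : Integrable (fun ξ : E N => (Real.sqrt h * r) • ξ) ν :=
        iξ.smul (Real.sqrt h * r)
      have i2 : Integrable (fun ξ : E N => (hat β h g ξ - g) - (Real.sqrt h * r) • ξ) ν :=
        iD.sub i1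
      have i3 : ∫ ξ, ((hat β h g ξ - g) - (Real.sqrt h * r) • ξ) ∂ν =
          ∫ ξ, (hat β h g ξ - g) ∂ν := by
        rw [integral_sub iD i1, integral_smul, noise_mean_vec hh hν, smul_zero, sub_zero]
      rw [integral_add i2 (integrable_const _), i3, integral_const]
      simp
    rw [e1]
    refine (norm_integral_le_of_norm_le_const
      (C := (1 + β) * (2 ^ β * 2) * (l * (l * l)) * r) ?_).trans ?_
    · filter_upwards [hkey] with ξ h2
      obtain ⟨b, hb1, -, hb3, -⟩ := h2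
      rw [hb1]
      have : (Real.sqrt h * r) • ξ - b - (Real.sqrt h * r) • ξ + (h * r ^ β) • g =
          -(b - (h * r ^ β) • g) := by abel
      rw [this, norm_neg]
      exact hb3
    · rw [probReal_univ, mul_one]
      have : 0 ≤ (2 * c + c ^ 2 + N + 1) * (l * (l * l)) * r := by positivity
      nlinarith
  · -- the covariance
    intro a
    have ha0 := norm_nonneg a
    have e1 : ∫ ξ, h * r ^ 2 * (inner ℝ a ξ) ^ 2 ∂ν = h * r ^ 2 * (‖a‖ ^ 2 * (m2 / N)) := by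
      rw [integral_const_mul, noise_sq hh hN hν a, hm2]
    have e2 : |∫ ξ, (inner ℝ a (hat β h g ξ - g)) ^ 2 ∂ν -
        ∫ ξ, h * r ^ 2 * (inner ℝ a ξ) ^ 2 ∂ν| ≤ (2 * c + c ^ 2) * (l * (l * l)) * r ^ 2 * ‖a‖ ^ 2 := by
      refine VGen_int (iaD a) ((iaξ a).const_mul _) ?_
      filter_upwards [hkey] with ξ h2
      obtain ⟨b, hb1, hb2, -, hb4⟩ := h2
      rw [hb1, inner_sub_right, real_inner_smul_right]
      obtain ⟨p, hp⟩ : ∃ p : ℝ, p = inner ℝ a ξ := ⟨_, rfl⟩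
      obtain ⟨q, hq⟩ : ∃ q : ℝ, q = inner ℝ a b := ⟨_, rfl⟩
      rw [← hp, ← hq]
      have hp1 : |Real.sqrt h * p| ≤ l * ‖a‖ := by
        rw [abs_mul, abs_of_pos hs0, hp]
        calc Real.sqrt h * |inner ℝ a ξ| ≤ Real.sqrt h * (‖a‖ * ‖ξ‖) :=
              mul_le_mul_of_nonneg_left (abs_real_inner_le_norm a ξ) hs0.le
          _ = (Real.sqrt h * ‖ξ‖) * ‖a‖ := by ring
          _ ≤ l * ‖a‖ := mul_le_mul_of_nonneg_right hb4 ha0
      have hq1 : |q| ≤ c * (l * l) * r * ‖a‖ := by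
        rw [hq]
        calc |inner ℝ a b| ≤ ‖a‖ * ‖b‖ := abs_real_inner_le_norm a b
          _ ≤ ‖a‖ * (c * (l * l) * r) := mul_le_mul_of_nonneg_left hb2 ha0
          _ = _ := by ring
      have e3 : (Real.sqrt h * r * p - q) ^ 2 - h * r ^ 2 * p ^ 2 =
          -(2 * r * ((Real.sqrt h * p) * q)) + q ^ 2 := by
        linear_combination (r ^ 2 * p ^ 2) * hss
      rw [e3]
      have e4 : |(Real.sqrt h * p) * q| ≤ (l * ‖a‖) * (c * (l * l) * r * ‖a‖) := by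
        rw [abs_mul]
        exact mul_le_mul hp1 hq1 (abs_nonneg _) (by positivity)
      have e5 : q ^ 2 ≤ (c * (l * l) * r * ‖a‖) ^ 2 := by
        rw [← sq_abs]
        exact pow_le_pow_left₀ (abs_nonneg _) hq1 2
      have e6 : |-(2 * r * ((Real.sqrt h * p) * q)) + q ^ 2| ≤
          2 * r * ((l * ‖a‖) * (c * (l * l) * r * ‖a‖)) + (c * (l * l) * r * ‖a‖) ^ 2 := by
        refine (abs_add_le _ _).trans (add_le_add ?_ ?_)
        · rw [abs_neg, abs_mul, abs_of_nonneg (by positivity : 0 ≤ 2 * r)]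
          exact mul_le_mul_of_nonneg_left e4 (by positivity)
        · rw [abs_of_nonneg (sq_nonneg q)]
          exact e5
      refine e6.trans ?_
      have e7 : (c * (l * l) * r * ‖a‖) ^ 2 ≤ c ^ 2 * (l * (l * l)) * r ^ 2 * ‖a‖ ^ 2 := by
        have : (c * (l * l) * r * ‖a‖) ^ 2 = (c ^ 2 * (l * (l * l)) * r ^ 2 * ‖a‖ ^ 2) * l := by ring
        rw [this]
        exact mul_le_of_le_one_right (by positivity) hl1
      have e8 : 2 * r * ((l * ‖a‖) * (c * (l * l) * r * ‖a‖)) =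
          2 * c * (l * (l * l)) * r ^ 2 * ‖a‖ ^ 2 := by ring
      rw [e8]
      linarith
    rw [e1] at e2
    have e9 : |h * r ^ 2 * (‖a‖ ^ 2 * (m2 / N)) - h * r ^ 2 * ‖a‖ ^ 2| ≤
        (l * (l * l)) * r ^ 2 * ‖a‖ ^ 2 := by
      have h2 : h * r ^ 2 * (‖a‖ ^ 2 * (m2 / N)) - h * r ^ 2 * ‖a‖ ^ 2 =
          h * (m2 / N - 1) * (r ^ 2 * ‖a‖ ^ 2) := by ring
      have h3 : |m2 / N - 1| ≤ h := by
        rw [abs_le]
        constructor
        · have : 1 - h ≤ m2 / N := by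
            rw [le_div_iff₀ hNr]
            linarith
          linarith
        · have : m2 / N ≤ 1 := by
            rw [div_le_one hNr]
            exact hm2u
          linarith
      rw [h2, abs_mul, abs_mul, abs_of_pos hh, abs_of_nonneg (by positivity : 0 ≤ r ^ 2 * ‖a‖ ^ 2)]
      calc h * |m2 / N - 1| * (r ^ 2 * ‖a‖ ^ 2) ≤ h * h * (r ^ 2 * ‖a‖ ^ 2) :=
            mul_le_mul_of_nonneg_right (mul_le_mul_of_nonneg_left h3 hh.le) (by positivity)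
        _ ≤ (l * (l * l)) * (r ^ 2 * ‖a‖ ^ 2) := mul_le_mul_of_nonneg_right hhl (by positivity)
        _ = _ := by ring
    have e10 := abs_sub_le (∫ ξ, (inner ℝ a (hat β h g ξ - g)) ^ 2 ∂ν)
      (h * r ^ 2 * (‖a‖ ^ 2 * (m2 / N))) (h * r ^ 2 * ‖a‖ ^ 2)
    have e11 : 0 ≤ ((1 + β) * (2 ^ β * 2) + N) * (l * (l * l)) * r ^ 2 * ‖a‖ ^ 2 := by positivity
    nlinarith
  · -- the square
    have e1 : ∫ ξ : E N, h * r ^ 2 * ‖ξ‖ ^ 2 ∂ν = h * r ^ 2 * m2 := by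
      rw [integral_const_mul, hm2]
    have e2 : |∫ ξ, ‖hat β h g ξ - g‖ ^ 2 ∂ν - ∫ ξ : E N, h * r ^ 2 * ‖ξ‖ ^ 2 ∂ν| ≤
        (2 * c + c ^ 2) * (l * (l * l)) * r ^ 2 := by
      refine VGen_int iD2 (iξ2.const_mul _) ?_
      filter_upwards [hkey] with ξ h2
      obtain ⟨b, hb1, hb2, -, hb4⟩ := h2
      rw [hb1, norm_sub_sq_real, norm_smul, real_inner_smul_left, Real.norm_eq_abs,
        abs_of_nonneg (by positivity : 0 ≤ Real.sqrt h * r)]
      have hq1 : |Real.sqrt h * inner ℝ ξ b| ≤ l * (c * (l * l) * r) := by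
        rw [abs_mul, abs_of_pos hs0]
        calc Real.sqrt h * |inner ℝ ξ b| ≤ Real.sqrt h * (‖ξ‖ * ‖b‖) :=
              mul_le_mul_of_nonneg_left (abs_real_inner_le_norm ξ b) hs0.le
          _ = (Real.sqrt h * ‖ξ‖) * ‖b‖ := by ring
          _ ≤ l * (c * (l * l) * r) := mul_le_mul hb4 hb2 (norm_nonneg _) hl0.le
      have e3 : (Real.sqrt h * r * ‖ξ‖) ^ 2 - 2 * (Real.sqrt h * r * inner ℝ ξ b) + ‖b‖ ^ 2 -
          h * r ^ 2 * ‖ξ‖ ^ 2 = -(2 * r * (Real.sqrt h * inner ℝ ξ b)) + ‖b‖ ^ 2 := by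
        linear_combination (r ^ 2 * ‖ξ‖ ^ 2) * hss
      rw [e3]
      have e5 : ‖b‖ ^ 2 ≤ (c * (l * l) * r) ^ 2 := pow_le_pow_left₀ (norm_nonneg _) hb2 2
      have e6 : |-(2 * r * (Real.sqrt h * inner ℝ ξ b)) + ‖b‖ ^ 2| ≤
          2 * r * (l * (c * (l * l) * r)) + (c * (l * l) * r) ^ 2 := by
        refine (abs_add_le _ _).trans (add_le_add ?_ ?_)
        · rw [abs_neg, abs_mul, abs_of_nonneg (by positivity : 0 ≤ 2 * r)]
          exact mul_le_mul_of_nonneg_left hq1 (by positivity)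
        · rw [abs_of_nonneg (sq_nonneg _)]
          exact e5
      refine e6.trans ?_
      have e7 : (c * (l * l) * r) ^ 2 ≤ c ^ 2 * (l * (l * l)) * r ^ 2 := by
        have : (c * (l * l) * r) ^ 2 = (c ^ 2 * (l * (l * l)) * r ^ 2) * l := by ring
        rw [this]
        exact mul_le_of_le_one_right (by positivity) hl1
      have e8 : 2 * r * (l * (c * (l * l) * r)) = 2 * c * (l * (l * l)) * r ^ 2 := by ring
      rw [e8]
      linarith
    rw [e1] at e2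
    have e9 : |h * r ^ 2 * m2 - h * N * r ^ 2| ≤ N * (l * (l * l)) * r ^ 2 := by
      have h2 : h * r ^ 2 * m2 - h * N * r ^ 2 = h * (m2 - N) * r ^ 2 := by ring
      have h3 : |m2 - N| ≤ N * h := by
        rw [abs_le]
        constructor <;> nlinarith
      rw [h2, abs_mul, abs_mul, abs_of_pos hh, abs_of_nonneg (by positivity : 0 ≤ r ^ 2)]
      calc h * |m2 - N| * r ^ 2 ≤ h * (N * h) * r ^ 2 :=
            mul_le_mul_of_nonneg_right (mul_le_mul_of_nonneg_left h3 hh.le) (by positivity)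
        _ = N * (h * h) * r ^ 2 := by ring
        _ ≤ N * (l * (l * l)) * r ^ 2 :=
            mul_le_mul_of_nonneg_right (mul_le_mul_of_nonneg_left hhl hNr.le) (by positivity)
    have e10 := abs_sub_le (∫ ξ, ‖hat β h g ξ - g‖ ^ 2 ∂ν) (h * r ^ 2 * m2) (h * N * r ^ 2)
    have e11 : 0 ≤ ((1 + β) * (2 ^ β * 2) + 1) * (l * (l * l)) * r ^ 2 := by positivity
    nlinarith

end Dyn
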