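import Pool.Agent.Lib_MP_36b788.CVar
import Pool.Agent.Lib_MP_36b788.UGen
import Pool.Agent.Lib_MP_36b788.VGen

/-!
# CTIL: facts about the cut off corrector `ctil`

`Cu = C0 (1 + log(1/r1))`. Zones: low `‖g‖ < r1/2`, transitional `r1/2 ≤ ‖g‖ ≤ 6 r1`, strong `> 6 r1`.

PROOF. `om r1 r = smoothTransition(log(r/r1))` is `0` for `r ≤ r1` and `1` for `r ≥ e r1`
(at `r = 0`, `log 0 = 0`), Lipschitz in `log r` (`smoothTransition` has bounded first and second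
derivative: continuous derivative vanishing outside `[0,1]`).
* `C1 := sup_{r ≥ r1} y(r)/r = y(r1)/r1 ≤ Cy(1+log(1/r1))` (ratio + `small`).
* Lipschitz for norms `≤ 1/h`... in fact for all: `ctil` vanishes for `‖g‖ ≤ r1`; for `r,r' ≥ r1`,
  `|y(r)-y(r')| ≤ (y(min)/min)|r-r'| ≤ C1|r-r'|`, directions: `min(r,r')‖e-e'‖ ≤ ‖g-g'‖`... (use
  `min(r,r')‖e-e'‖ ≤ ‖g-g'‖`, true since the radial retraction onto the ball of radius `min` is
  nonexpansive), and `y(min)|ω(r)-ω(r')| ≤ y(min) C|log r-log r'| ≤ C C1|r-r'|`. If one of the norms is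
  `< r1` move the point to the sphere `‖·‖ = r1` on the segment. So `ctil` is `C C1`-Lipschitz.
* bounded: `y ≤ Cy(1+h r) ≤ 2Cy` if `h r ≤ 1`.
* low: `ctil g = 0`, and `‖ĝ‖ ≤ (1+ℓ)‖g‖ < r1` so `ctil ĝ = 0`.
* transitional mean: `∫ω(R)c(ĝ) - ω(r)c(g) = ∫(ω(R)-ω(r))(c(ĝ)-c(g)) + (∫(ω(R)-ω(r))) c(g)
  + ω(r)(-h g)` with `c = cfull y` (corrector equation `eqn`). First term `≤ (C∫δ²)^{1/2}(∫‖Δc‖²)^{1/2}`,
  `≤ C h C1' r` as `‖Δc‖ ≤ C C1'‖ĝ-g‖` (`C1' = sup_{r ≥ r1/4} y/r`), `∫‖ĝ-g‖² ≤ 2N h r²` (VGEN or direct);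
  second: `|∫(ω(R)-ω(r))| ≤ C h` by Taylor in `u = log r` (UGEN for `f(u) = smoothTransition(u-log r1)`;
  for `r ≤ 6 r1 ≤ 1`... `r^β ≤ 1`), `‖c(g)‖ = y(r) ≤ C1' r`.
* strong: `R ≥ (1-2ℓ) r ≥ e r1` so `ctil = cfull` on the whole step: `eqn` and CVAR.
* second moments: `‖D‖ ≤ C Cu‖ĝ-g‖` for `r ≤ 1`; for `r ≥ 1`, `‖D‖ ≤ |y(R)-y(r)| + y‖ê-e‖ ≤ C Cy ℓ`
  resp. with second moment `≤ C h`.
* `6 r1 ≤ 1` is assumed.
-/

open MeasureTheory

namespace Dyn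

private theorem CTil_sigma : ∃ B : ℝ, 1 ≤ B ∧
    (∀ u, |deriv Real.smoothTransition u| ≤ B) ∧
    (∀ u, |iteratedDeriv 2 Real.smoothTransition u| ≤ B) ∧
    (∀ u, |iteratedDeriv 3 Real.smoothTransition u| ≤ B) ∧
    (∀ u v, |Real.smoothTransition u - Real.smoothTransition v| ≤ B * |u - v|) := by
  have key : ∀ n : ℕ, 1 ≤ n → ∃ B : ℝ, ∀ u, |iteratedDeriv n Real.smoothTransition u| ≤ B := by
    intro n hn
    have hcont : Continuous (iteratedDeriv n Real.smoothTransition) :=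
      (Real.smoothTransition.contDiff (n := n)).continuous_iteratedDeriv n le_rfl
    obtain ⟨B, hB⟩ := (isCompact_Icc (a := (0:ℝ)) (b := 1)).exists_bound_of_continuousOn
      hcont.continuousOn
    refine ⟨max B 0, fun u => ?_⟩
    by_cases hu : u ∈ Set.Icc (0:ℝ) 1
    · exact (hB u hu).trans (le_max_left _ _)
    · have h0 : iteratedDeriv n Real.smoothTransition u = 0 := by
        rw [Set.mem_Icc, not_and_or, not_le, not_le] at hu
        rcases hu with hu | hu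
        · have h1 : Real.smoothTransition =ᶠ[nhds u] fun _ => (0:ℝ) := by
            filter_upwards [Iio_mem_nhds hu] with x hx
            exact Real.smoothTransition.zero_of_nonpos (le_of_lt hx)
          rw [h1.iteratedDeriv_eq, iteratedDeriv_const, if_neg (by omega)]
        · have h1 : Real.smoothTransition =ᶠ[nhds u] fun _ => (1:ℝ) := by
            filter_upwards [Ioi_mem_nhds hu] with x hx
            exact Real.smoothTransition.one_of_one_le (le_of_lt hx)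
          rw [h1.iteratedDeriv_eq, iteratedDeriv_const, if_neg (by omega)]
      rw [h0]; simp
  obtain ⟨B1, h1⟩ := key 1 le_rfl
  obtain ⟨B2, h2⟩ := key 2 (by norm_num)
  obtain ⟨B3, h3⟩ := key 3 (by norm_num)
  have hd : ∀ u, |deriv Real.smoothTransition u| ≤ B1 := fun u => by
    have := h1 u; rwa [iteratedDeriv_one] at this
  have hB1 : 0 ≤ B1 := (abs_nonneg _).trans (hd 0)
  have hB2 : 0 ≤ B2 := (abs_nonneg _).trans (h2 0)
  have hB3 : 0 ≤ B3 := (abs_nonneg _).trans (h3 0)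
  have hlip : ∀ u v, |Real.smoothTransition u - Real.smoothTransition v| ≤ B1 * |u - v| := by
    intro u v
    have hdiff : Differentiable ℝ Real.smoothTransition :=
      (Real.smoothTransition.contDiff (n := 1)).differentiable (by norm_num)
    have := Convex.norm_image_sub_le_of_norm_deriv_le (f := Real.smoothTransition)
      (s := Set.univ) (C := B1) (fun x _ => hdiff x) (fun x _ => hd x) convex_univ
      (Set.mem_univ v) (Set.mem_univ u)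
    simpa [Real.norm_eq_abs] using this
  refine ⟨B1 + B2 + B3 + 1, by linarith, fun u => (hd u).trans (by linarith),
    fun u => (h2 u).trans (by linarith), fun u => (h3 u).trans (by linarith), fun u v => ?_⟩
  refine (hlip u v).trans (mul_le_mul_of_nonneg_right (by linarith) (abs_nonneg _))

/-- radial vector fields with Lipschitz profile -/
private theorem CTil_radial {N : ℕ} (p : ℝ → ℝ) (a L : ℝ) (hL : 0 ≤ L)
    (hp : ∀ r r', 0 ≤ r → a ≤ r → r ≤ r' → |p r' - p r| ≤ L * (r' - r))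
    (hp0 : ∀ r, 0 < r → a ≤ r → |p r| ≤ L * r) (g g' : E N) (hg : a ≤ ‖g‖) (hg' : a ≤ ‖g'‖) :
    ‖(p ‖g'‖ / ‖g'‖) • g' - (p ‖g‖ / ‖g‖) • g‖ ≤ 3 * L * ‖g' - g‖ := by
  have h3 : ∀ x : ℝ, 0 ≤ x → L * x ≤ 3 * L * x := by
    intro x hx
    nlinarith [mul_nonneg hL hx]
  rcases eq_or_ne g 0 with rfl | hg0
  · rcases eq_or_ne g' 0 with rfl | hg0'
    · simp
    · have hn : 0 < ‖g'‖ := norm_pos_iff.2 hg0'
      have h1 : ‖(p ‖g'‖ / ‖g'‖) • g'‖ = |p ‖g'‖| := by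
        rw [norm_smul, Real.norm_eq_abs, abs_div, abs_of_pos hn]
        field_simp
      simp only [smul_zero, sub_zero, h1]
      exact (hp0 _ hn hg').trans (h3 _ hn.le)
  rcases eq_or_ne g' 0 with rfl | hg0'
  · have hn : 0 < ‖g‖ := norm_pos_iff.2 hg0
    have h1 : ‖(p ‖g‖ / ‖g‖) • g‖ = |p ‖g‖| := by
      rw [norm_smul, Real.norm_eq_abs, abs_div, abs_of_pos hn]
      field_simp
    simp only [smul_zero, zero_sub, norm_neg, h1]
    exact (hp0 _ hn hg).trans (h3 _ hn.le)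
  have hn : 0 < ‖g‖ := norm_pos_iff.2 hg0
  have hn' : 0 < ‖g'‖ := norm_pos_iff.2 hg0'
  have habs : |p ‖g'‖ - p ‖g‖| ≤ L * |‖g'‖ - ‖g‖| := by
    rcases le_total ‖g‖ ‖g'‖ with h | h
    · rw [abs_of_nonneg (sub_nonneg.2 h)]
      exact hp _ _ hn.le hg h
    · rw [abs_sub_comm, abs_sub_comm ‖g'‖, abs_of_nonneg (sub_nonneg.2 h)]
      exact hp _ _ hn'.le hg' h
  have hnn : |‖g'‖ - ‖g‖| ≤ ‖g' - g‖ := abs_norm_sub_norm_le _ _
  -- `p(r') e' - p(r) e = (p r' - p r) e' + (p r / r) (r e' - g)`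
  have hsplit : (p ‖g'‖ / ‖g'‖) • g' - (p ‖g‖ / ‖g‖) • g
      = ((p ‖g'‖ - p ‖g‖) / ‖g'‖) • g' + (p ‖g‖ / ‖g‖) • ((‖g‖ / ‖g'‖) • g' - g) := by
    rw [smul_sub, smul_smul, sub_div, sub_smul]
    have : p ‖g‖ / ‖g‖ * (‖g‖ / ‖g'‖) = p ‖g‖ / ‖g'‖ := by field_simp
    rw [this]; abel
  have h1 : ‖((p ‖g'‖ - p ‖g‖) / ‖g'‖) • g'‖ = |p ‖g'‖ - p ‖g‖| := by
    rw [norm_smul, Real.norm_eq_abs, abs_div, abs_of_pos hn']
    field_simp
  have h2 : ‖(‖g‖ / ‖g'‖) • g' - g‖ ≤ 2 * ‖g' - g‖ := by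
    have he : (‖g‖ / ‖g'‖) • g' - g = (g' - g) - ((‖g'‖ - ‖g‖) / ‖g'‖) • g' := by
      have : (‖g‖ / ‖g'‖) • g' = g' - ((‖g'‖ - ‖g‖) / ‖g'‖) • g' := by
        rw [sub_div, div_self hn'.ne', sub_smul, one_smul]; abel
      rw [this]; abel
    rw [he]
    refine (norm_sub_le _ _).trans ?_
    have : ‖((‖g'‖ - ‖g‖) / ‖g'‖) • g'‖ = |‖g'‖ - ‖g‖| := by
      rw [norm_smul, Real.norm_eq_abs, abs_div, abs_of_pos hn']
      field_simp
    rw [this]; linarith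
  rw [hsplit]
  refine (norm_add_le _ _).trans ?_
  rw [h1, norm_smul, Real.norm_eq_abs, abs_div, abs_of_pos hn]
  have h4 : |p ‖g‖| / ‖g‖ ≤ L := by
    rw [div_le_iff₀ hn]; exact hp0 _ hn hg
  calc |p ‖g'‖ - p ‖g‖| + |p ‖g‖| / ‖g‖ * ‖(‖g‖ / ‖g'‖) • g' - g‖
      ≤ L * ‖g' - g‖ + L * (2 * ‖g' - g‖) := by
        refine add_le_add (habs.trans (mul_le_mul_of_nonneg_left hnn hL)) ?_
        exact mul_le_mul h4 h2 (norm_nonneg _) hL
    _ = 3 * L * ‖g' - g‖ := by ring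

/-- the corrector profile is Lipschitz away from zero -/
private theorem CTil_prof {y : ℝ → ℝ} (hy : Prof y) {t K : ℝ} (ht : 0 < t) (hK : y t ≤ K * t) :
    (∀ r, t ≤ r → y r ≤ K * r) ∧ ∀ r r', t ≤ r → r ≤ r' → |y r' - y r| ≤ K * (r' - r) := by
  have h1 : ∀ r, t ≤ r → y r ≤ K * r := by
    intro r hr
    have := hy.ratio t r ht hr
    have h2 : y r * t ≤ K * r * t := by
      calc y r * t ≤ y t * r := this
        _ ≤ K * t * r := mul_le_mul_of_nonneg_right hK (ht.le.trans hr)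
        _ = K * r * t := by ring
    exact le_of_mul_le_mul_right h2 ht
  refine ⟨h1, fun r r' hr hrr => ?_⟩
  have hr0 : 0 < r := ht.trans_le hr
  have h2 := hy.ratio r r' hr0 hrr
  have h3 : 0 ≤ y r' - y r := sub_nonneg.2 (hy.mono hrr)
  rw [abs_of_nonneg h3]
  have h4 : (y r' - y r) * r ≤ K * (r' - r) * r := by
    calc (y r' - y r) * r ≤ y r * (r' - r) := by linarith
      _ ≤ K * r * (r' - r) := mul_le_mul_of_nonneg_right (h1 r hr) (by linarith)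
      _ = K * (r' - r) * r := by ring
  exact le_of_mul_le_mul_right h4 hr0


private theorem CTil_om01 (r1 r : ℝ) : 0 ≤ om r1 r ∧ om r1 r ≤ 1 :=
  ⟨Real.smoothTransition.nonneg _, Real.smoothTransition.le_one _⟩

private theorem CTil_om_zero {r1 r : ℝ} (hr1 : 0 < r1) (hr : 0 ≤ r) (h : r ≤ r1) : om r1 r = 0 := by
  refine Real.smoothTransition.zero_of_nonpos ?_
  exact Real.log_nonpos (div_nonneg hr hr1.le) ((div_le_one hr1).2 h)

private theorem CTil_om_one {r1 r : ℝ} (hr1 : 0 < r1) (h : Real.exp 1 * r1 ≤ r) : om r1 r = 1 := by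
  refine Real.smoothTransition.one_of_one_le ?_
  rw [Real.le_log_iff_exp_le (by
    have := Real.exp_pos 1
    exact div_pos ((mul_pos this hr1).trans_le h) hr1), le_div_iff₀ hr1]
  exact h

private theorem CTil_om_log {r1 r : ℝ} (hr1 : 0 < r1) (hr : 0 < r) :
    om r1 r = Real.smoothTransition (Real.log r - Real.log r1) := by
  unfold om; rw [Real.log_div hr.ne' hr1.ne']

private theorem CTil_om_lip {B r1 r r' : ℝ} (hr1 : 0 < r1) (hr : 0 < r) (hr' : 0 < r')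
    (hσL : ∀ u v, |Real.smoothTransition u - Real.smoothTransition v| ≤ B * |u - v|) :
    |om r1 r' - om r1 r| ≤ B * |Real.log r' - Real.log r| := by
  rw [CTil_om_log hr1 hr, CTil_om_log hr1 hr']
  refine (hσL _ _).trans (le_of_eq ?_)
  congr 2; ring

private theorem CTil_omy {y : ℝ → ℝ} (hy : Prof y) {B r1 K : ℝ} (hr1 : 0 < r1) (hB : 0 ≤ B)
    (hK0 : 0 ≤ K)
    (hσL : ∀ u v, |Real.smoothTransition u - Real.smoothTransition v| ≤ B * |u - v|)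
    (hyK : y r1 ≤ K * r1) (r r' : ℝ) (hr : 0 ≤ r) (hrr : r ≤ r') :
    |om r1 r' * y r' - om r1 r * y r| ≤ ((1 + B) * K) * (r' - r) := by
  obtain ⟨hy1, hy2⟩ := CTil_prof hy hr1 hyK
  have hL0 : 0 ≤ (1 + B) * K := by positivity
  -- the case `r1 ≤ r`
  have key : ∀ r r', r1 ≤ r → r ≤ r' →
      |om r1 r' * y r' - om r1 r * y r| ≤ ((1 + B) * K) * (r' - r) := by
    intro r r' hr hrr
    have hr0 : 0 < r := hr1.trans_le hr
    have hr0' : 0 < r' := hr0.trans_le hrr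
    have h1 := hy2 r r' hr hrr
    have h2 := CTil_om_lip hr1 hr0 hr0' hσL
    have h3 : |Real.log r' - Real.log r| * r ≤ r' - r := by
      rw [← Real.log_div hr0'.ne' hr0.ne', abs_of_nonneg (Real.log_nonneg ((one_le_div hr0).2 hrr))]
      have h4 : Real.log (r' / r) ≤ r' / r - 1 := Real.log_le_sub_one_of_pos (by positivity)
      calc Real.log (r' / r) * r ≤ (r' / r - 1) * r := mul_le_mul_of_nonneg_right h4 hr0.le
        _ = r' - r := by field_simp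
    have h5 : om r1 r' * y r' - om r1 r * y r
        = om r1 r' * (y r' - y r) + (om r1 r' - om r1 r) * y r := by ring
    have h6 : |om r1 r'| ≤ 1 := by
      rw [abs_of_nonneg (CTil_om01 _ _).1]; exact (CTil_om01 _ _).2
    have h7 : |y r| ≤ K * r := by
      rw [abs_of_nonneg (hy.nonneg r)]; exact hy1 r hr
    rw [h5]
    refine (abs_add_le _ _).trans ?_
    rw [abs_mul, abs_mul]
    have h8 : |om r1 r'| * |y r' - y r| ≤ K * (r' - r) := by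
      calc |om r1 r'| * |y r' - y r| ≤ 1 * (K * (r' - r)) :=
            mul_le_mul h6 h1 (abs_nonneg _) zero_le_one
        _ = K * (r' - r) := one_mul _
    have h9 : |om r1 r' - om r1 r| * |y r| ≤ B * K * (r' - r) := by
      calc |om r1 r' - om r1 r| * |y r| ≤ (B * |Real.log r' - Real.log r|) * (K * r) :=
            mul_le_mul h2 h7 (abs_nonneg _) (by positivity)
        _ = B * K * (|Real.log r' - Real.log r| * r) := by ring
        _ ≤ B * K * (r' - r) := mul_le_mul_of_nonneg_left h3 (by positivity)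
    calc _ ≤ K * (r' - r) + B * K * (r' - r) := add_le_add h8 h9
      _ = ((1 + B) * K) * (r' - r) := by ring
  rcases le_total r1 r with h | h
  · exact key r r' h hrr
  rcases le_total r' r1 with h' | h'
  · rw [CTil_om_zero hr1 hr h, CTil_om_zero hr1 (hr.trans hrr) h']
    simpa using mul_nonneg hL0 (sub_nonneg.2 hrr)
  · have h1 := key r1 r' le_rfl h'
    rw [CTil_om_zero hr1 hr1.le le_rfl] at h1
    rw [CTil_om_zero hr1 hr h]
    rw [zero_mul] at h1 ⊢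
    exact h1.trans (mul_le_mul_of_nonneg_left (by linarith) hL0)

private theorem CTil_lip {N : ℕ} {y : ℝ → ℝ} (hy : Prof y) {B r1 K : ℝ} (hr1 : 0 < r1)
    (hB : 0 ≤ B) (hK0 : 0 ≤ K)
    (hσL : ∀ u v, |Real.smoothTransition u - Real.smoothTransition v| ≤ B * |u - v|)
    (hyK : y r1 ≤ K * r1) (g g' : E N) :
    ‖ctil r1 y g' - ctil r1 y g‖ ≤ 3 * ((1 + B) * K) * ‖g' - g‖ := by
  have hL0 : 0 ≤ (1 + B) * K := by positivity
  refine CTil_radial (fun r => om r1 r * y r) 0 ((1 + B) * K) hL0 ?_ ?_ g g' (norm_nonneg _)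
    (norm_nonneg _)
  · intro r r' hr _ hrr
    exact CTil_omy hy hr1 hB hK0 hσL hyK r r' hr hrr
  · intro r hr _
    have h1 := CTil_omy hy hr1 hB hK0 hσL hyK 0 r le_rfl hr.le
    rw [CTil_om_zero hr1 le_rfl hr1.le] at h1
    simpa using h1

private theorem CTil_cfull_lip {N : ℕ} {y : ℝ → ℝ} (hy : Prof y) {t K : ℝ} (ht : 0 < t)
    (hK0 : 0 ≤ K) (hyK : y t ≤ K * t) (g g' : E N) (hg : t ≤ ‖g‖) (hg' : t ≤ ‖g'‖) :
    ‖cfull y g' - cfull y g‖ ≤ 3 * K * ‖g' - g‖ := by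
  obtain ⟨hy1, hy2⟩ := CTil_prof hy ht hyK
  refine CTil_radial y t K hK0 (fun r r' _ hr hrr => hy2 r r' hr hrr) (fun r _ hr => ?_) g g' hg hg'
  rw [abs_of_nonneg (hy.nonneg r)]
  exact hy1 r hr

private theorem CTil_eq_smul {N : ℕ} (r1 : ℝ) (y : ℝ → ℝ) (g : E N) :
    ctil r1 y g = om r1 ‖g‖ • cfull y g := by
  unfold ctil cfull
  rw [smul_smul, mul_div_assoc]

private theorem CTil_norm_cfull_le {N : ℕ} {y : ℝ → ℝ} (hy : Prof y) (g : E N) :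
    ‖cfull y g‖ ≤ y ‖g‖ := by
  unfold cfull
  rcases eq_or_ne g 0 with rfl | hg
  · simpa using hy.nonneg 0
  · have hn : 0 < ‖g‖ := norm_pos_iff.2 hg
    rw [norm_smul, Real.norm_eq_abs, abs_div, abs_of_pos hn, abs_of_nonneg (hy.nonneg _),
      div_mul_cancel₀ _ hn.ne']

private theorem CTil_norm_ctil_le {N : ℕ} {y : ℝ → ℝ} (hy : Prof y) (r1 : ℝ) (g : E N) :
    ‖ctil r1 y g‖ ≤ y ‖g‖ := by
  rw [CTil_eq_smul, norm_smul, Real.norm_eq_abs, abs_of_nonneg (CTil_om01 _ _).1]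
  calc om r1 ‖g‖ * ‖cfull y g‖ ≤ 1 * y ‖g‖ :=
        mul_le_mul (CTil_om01 _ _).2 (CTil_norm_cfull_le hy g) (norm_nonneg _) zero_le_one
    _ = y ‖g‖ := one_mul _

private theorem CTil_meas_hat {N : ℕ} {β h : ℝ} (hβ : 0 < β) (hh : 0 ≤ h) (g : E N) :
    Measurable fun ξ : E N => hat β h g ξ :=
  ((hat_continuous (N := N) hβ hh).comp (Continuous.prodMk_right g)).measurable

private theorem CTil_meas_cfull {N : ℕ} {y : ℝ → ℝ} (hy : Prof y) :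
    Measurable (cfull (N := N) y) := by
  unfold cfull
  exact ((hy.mono.measurable.comp measurable_norm).div measurable_norm).smul measurable_id

private theorem CTil_meas_om {N : ℕ} (r1 : ℝ) : Measurable fun g : E N => om r1 ‖g‖ := by
  unfold om
  exact Real.smoothTransition.continuous.measurable.comp
    (Real.measurable_log.comp (measurable_norm.div_const r1))

private theorem CTil_meas_ctil {N : ℕ} {y : ℝ → ℝ} (hy : Prof y) (r1 : ℝ) :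
    Measurable (ctil (N := N) r1 y) := by
  have h1 : ctil (N := N) r1 y = fun g => om r1 ‖g‖ • cfull y g :=
    funext fun g => CTil_eq_smul r1 y g
  rw [h1]
  exact (CTil_meas_om r1).smul (CTil_meas_cfull hy)

private theorem CTil_trans {N : ℕ} {β h δ Cy B K1 r1 : ℝ} {ν : Measure (E N)} {y : ℝ → ℝ}
    (hβ : 0 < β) (hh : 0 < h) (hν : IsNoise h ν) (hy : IsCorr N β h ν δ Cy y)
    (hr1 : 0 < r1) (hB : 1 ≤ B) (hK1 : 1 ≤ K1)
    (hσL : ∀ u v, |Real.smoothTransition u - Real.smoothTransition v| ≤ B * |u - v|)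
    (hyK : y (r1 / 4) ≤ 3 * K1 * (r1 / 4)) (g : E N) (hg : r1 / 2 ≤ ‖g‖)
    (hae : ∀ᵐ ξ ∂ν, ‖hat β h g ξ - g‖ ≤ 2 * h ^ (3 / 8 : ℝ) * ‖g‖ ∧
        (1 - 2 * h ^ (3 / 8 : ℝ)) * ‖g‖ ≤ ‖hat β h g ξ‖ ∧
        ‖hat β h g ξ‖ ≤ (1 + h ^ (3 / 8 : ℝ)) * ‖g‖ ∧
        (g ≠ 0 → |Real.log ‖hat β h g ξ‖ - Real.log ‖g‖| ≤ 3 * h ^ (3 / 8 : ℝ)) ∧
        h ^ (3 / 8 : ℝ) ≤ 1 / 10)
    (hU : |∫ ξ, Real.smoothTransition (Real.log ‖hat β h g ξ‖ - Real.log r1) ∂ν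
        - Real.smoothTransition (Real.log ‖g‖ - Real.log r1)| ≤ h * B * (N + 3) / 2)
    (hL2 : ∫ ξ, (Real.log ‖hat β h g ξ‖ - Real.log ‖g‖) ^ 2 ∂ν ≤ 2 * h)
    (hV2 : ∫ ξ, ‖hat β h g ξ - g‖ ^ 2 ∂ν ≤ (N + 1) * h * ‖g‖ ^ 2) :
    ‖∫ ξ, (ctil r1 y (hat β h g ξ) - ctil r1 y g) ∂ν + h • g‖ ≤
      (1 + 6 * B * K1 * (N + 3)) * h * ‖g‖ := by
  have := hν.prob
  have hr0 : 0 < ‖g‖ := by linarith
  have hg0 : g ≠ 0 := norm_pos_iff.1 hr0
  have hB0 : 0 ≤ B := by linarith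
  have hK10 : 0 ≤ K1 := by linarith
  have hmh := CTil_meas_hat (N := N) hβ hh.le g
  -- almost sure facts
  have hae2 : ∀ᵐ ξ ∂ν, r1 / 4 ≤ ‖hat β h g ξ‖ ∧ ‖hat β h g ξ‖ ≤ 2 * ‖g‖ ∧
      |Real.log ‖hat β h g ξ‖ - Real.log ‖g‖| ≤ 1 ∧ ‖hat β h g ξ - g‖ ≤ ‖g‖ := by
    filter_upwards [hae] with ξ hξ
    obtain ⟨h1, h2, h3, h4, h5⟩ := hξ
    have h6 : 0 ≤ h ^ (3 / 8 : ℝ) := Real.rpow_nonneg hh.le _
    refine ⟨?_, ?_, (h4 hg0).trans (by linarith), ?_⟩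
    · nlinarith
    · nlinarith
    · nlinarith
  -- measurability
  have hmc : Measurable fun ξ : E N => cfull y (hat β h g ξ) := (CTil_meas_cfull hy.prof).comp hmh
  have hmo : Measurable fun ξ : E N => om r1 ‖hat β h g ξ‖ := (CTil_meas_om r1).comp hmh
  have hml : Measurable fun ξ : E N => Real.log ‖hat β h g ξ‖ - Real.log ‖g‖ :=
    (Real.measurable_log.comp (measurable_norm.comp hmh)).sub_const _
  -- integrability
  have hic : Integrable (fun ξ : E N => cfull y (hat β h g ξ)) ν := by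
    refine Integrable.of_bound hmc.aestronglyMeasurable (y (2 * ‖g‖)) ?_
    filter_upwards [hae2] with ξ hξ
    exact (CTil_norm_cfull_le hy.prof _).trans (hy.prof.mono hξ.2.1)
  have hio : Integrable (fun ξ : E N => om r1 ‖hat β h g ξ‖) ν := by
    refine Integrable.of_bound hmo.aestronglyMeasurable 1 (Filter.Eventually.of_forall fun ξ => ?_)
    rw [Real.norm_eq_abs, abs_of_nonneg (CTil_om01 _ _).1]
    exact (CTil_om01 _ _).2
  have hil : Integrable (fun ξ : E N => (Real.log ‖hat β h g ξ‖ - Real.log ‖g‖) ^ 2) ν := by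
    refine Integrable.of_bound (hml.pow_const 2).aestronglyMeasurable 1 ?_
    filter_upwards [hae2] with ξ hξ
    rw [Real.norm_eq_abs, abs_of_nonneg (sq_nonneg _)]
    exact (sq_le_one_iff_abs_le_one _).2 hξ.2.2.1
  have hid : Integrable (fun ξ : E N => ‖hat β h g ξ - g‖ ^ 2) ν := by
    refine Integrable.of_bound ((measurable_norm.comp (hmh.sub_const g)).pow_const
      2).aestronglyMeasurable (‖g‖ ^ 2) ?_
    filter_upwards [hae2] with ξ hξ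
    rw [Real.norm_eq_abs, abs_of_nonneg (sq_nonneg _)]
    exact pow_le_pow_left₀ (norm_nonneg _) hξ.2.2.2 2
  have hi1 : Integrable (fun ξ : E N => (om r1 ‖hat β h g ξ‖ - om r1 ‖g‖) •
      (cfull y (hat β h g ξ) - cfull y g)) ν := by
    refine Integrable.of_bound ((hmo.sub_const _).smul (hmc.sub_const _)).aestronglyMeasurable
      (y (2 * ‖g‖) + y ‖g‖) ?_
    filter_upwards [hae2] with ξ hξ
    rw [norm_smul]
    have h1 : ‖om r1 ‖hat β h g ξ‖ - om r1 ‖g‖‖ ≤ 1 := by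
      rw [Real.norm_eq_abs, abs_le]
      have := CTil_om01 r1 ‖hat β h g ξ‖
      have := CTil_om01 r1 ‖g‖
      constructor <;> linarith
    have h2 : ‖cfull y (hat β h g ξ) - cfull y g‖ ≤ y (2 * ‖g‖) + y ‖g‖ :=
      (norm_sub_le _ _).trans (add_le_add ((CTil_norm_cfull_le hy.prof _).trans
        (hy.prof.mono hξ.2.1)) (CTil_norm_cfull_le hy.prof _))
    calc _ ≤ 1 * (y (2 * ‖g‖) + y ‖g‖) := mul_le_mul h1 h2 (norm_nonneg _) zero_le_one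
      _ = _ := one_mul _
  have hi2 : Integrable (fun ξ : E N => (om r1 ‖hat β h g ξ‖ - om r1 ‖g‖) • cfull y g) ν :=
    (hio.sub (integrable_const _)).smul_const _
  have hi3 : Integrable (fun ξ : E N => om r1 ‖g‖ • (cfull y (hat β h g ξ) - cfull y g)) ν := by
    have h0 : Integrable (fun ξ : E N => cfull y (hat β h g ξ) - cfull y g) ν :=
      hic.sub (integrable_const _)
    exact h0.smul (om r1 ‖g‖)
  -- splitting
  have hsplit : ∀ ξ : E N, ctil r1 y (hat β h g ξ) - ctil r1 y g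
      = ((om r1 ‖hat β h g ξ‖ - om r1 ‖g‖) • (cfull y (hat β h g ξ) - cfull y g)
        + (om r1 ‖hat β h g ξ‖ - om r1 ‖g‖) • cfull y g)
        + om r1 ‖g‖ • (cfull y (hat β h g ξ) - cfull y g) := by
    intro ξ
    rw [CTil_eq_smul, CTil_eq_smul]
    module
  have hI : ∫ ξ, (ctil r1 y (hat β h g ξ) - ctil r1 y g) ∂ν
      = (∫ ξ, (om r1 ‖hat β h g ξ‖ - om r1 ‖g‖) • (cfull y (hat β h g ξ) - cfull y g) ∂ν
        + (∫ ξ, (om r1 ‖hat β h g ξ‖ - om r1 ‖g‖) ∂ν) • cfull y g)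
        + om r1 ‖g‖ • (- (h • g)) := by
    simp_rw [hsplit]
    have hi12 : Integrable (fun ξ : E N => (om r1 ‖hat β h g ξ‖ - om r1 ‖g‖) •
      (cfull y (hat β h g ξ) - cfull y g) + (om r1 ‖hat β h g ξ‖ - om r1 ‖g‖) • cfull y g) ν :=
      hi1.add hi2
    rw [integral_add hi12 hi3, integral_add hi1 hi2, integral_smul_const, integral_smul]
    congr 2
    rw [integral_sub hic (integrable_const _)]
    have h1 := hy.eqn g hg0
    have h2 : ∫ ξ, cfull y (hat β h g ξ) ∂ν = cfull y g - h • g := h1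
    rw [h2]
    simp
  -- first term
  have hT1 : ‖∫ ξ, (om r1 ‖hat β h g ξ‖ - om r1 ‖g‖) •
      (cfull y (hat β h g ξ) - cfull y g) ∂ν‖ ≤ 9 / 2 * B * K1 * (N + 3) * h * ‖g‖ := by
    have hb : ∀ᵐ ξ ∂ν, ‖(om r1 ‖hat β h g ξ‖ - om r1 ‖g‖) •
        (cfull y (hat β h g ξ) - cfull y g)‖ ≤
        9 / 2 * B * K1 * (‖g‖ * (Real.log ‖hat β h g ξ‖ - Real.log ‖g‖) ^ 2
          + ‖g‖⁻¹ * ‖hat β h g ξ - g‖ ^ 2) := by
      filter_upwards [hae2] with ξ hξ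
      have hR : 0 < ‖hat β h g ξ‖ := by linarith [hξ.1]
      rw [norm_smul, Real.norm_eq_abs]
      have h1 : |om r1 ‖hat β h g ξ‖ - om r1 ‖g‖| ≤
          B * |Real.log ‖hat β h g ξ‖ - Real.log ‖g‖| := CTil_om_lip hr1 hr0 hR hσL
      have h2 : ‖cfull y (hat β h g ξ) - cfull y g‖ ≤ 3 * (3 * K1) * ‖hat β h g ξ - g‖ :=
        CTil_cfull_lip hy.prof (by linarith) (by linarith) hyK g _ (by linarith) hξ.1
      have h3 : |Real.log ‖hat β h g ξ‖ - Real.log ‖g‖| * ‖hat β h g ξ - g‖ ≤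
          1 / 2 * (‖g‖ * (Real.log ‖hat β h g ξ‖ - Real.log ‖g‖) ^ 2
          + ‖g‖⁻¹ * ‖hat β h g ξ - g‖ ^ 2) := by
        set a := |Real.log ‖hat β h g ξ‖ - Real.log ‖g‖| with ha
        set b := ‖hat β h g ξ - g‖ with hb
        have h4 : (Real.log ‖hat β h g ξ‖ - Real.log ‖g‖) ^ 2 = a ^ 2 := by rw [ha, sq_abs]
        rw [h4]
        have h5 : 0 ≤ ‖g‖⁻¹ * (‖g‖ * a - b) ^ 2 := by positivity
        have h6 : ‖g‖⁻¹ * (‖g‖ * a - b) ^ 2 = ‖g‖ * a ^ 2 - 2 * (a * b) + ‖g‖⁻¹ * b ^ 2 := by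
          field_simp
          ring
        linarith
      calc |om r1 ‖hat β h g ξ‖ - om r1 ‖g‖| * ‖cfull y (hat β h g ξ) - cfull y g‖
          ≤ (B * |Real.log ‖hat β h g ξ‖ - Real.log ‖g‖|) *
            (3 * (3 * K1) * ‖hat β h g ξ - g‖) :=
            mul_le_mul h1 h2 (norm_nonneg _) (by positivity)
        _ = 9 * B * K1 * (|Real.log ‖hat β h g ξ‖ - Real.log ‖g‖| * ‖hat β h g ξ - g‖) := by ring
        _ ≤ 9 * B * K1 * (1 / 2 * (‖g‖ * (Real.log ‖hat β h g ξ‖ - Real.log ‖g‖) ^ 2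
          + ‖g‖⁻¹ * ‖hat β h g ξ - g‖ ^ 2)) := mul_le_mul_of_nonneg_left h3 (by positivity)
        _ = _ := by ring
    refine (norm_integral_le_of_norm_le
      (((hil.const_mul ‖g‖).add (hid.const_mul ‖g‖⁻¹)).const_mul (9 / 2 * B * K1)) hb).trans ?_
    have h7 : ∫ ξ, 9 / 2 * B * K1 * (‖g‖ * (Real.log ‖hat β h g ξ‖ - Real.log ‖g‖) ^ 2
          + ‖g‖⁻¹ * ‖hat β h g ξ - g‖ ^ 2) ∂ν
        = 9 / 2 * B * K1 * (‖g‖ * ∫ ξ, (Real.log ‖hat β h g ξ‖ - Real.log ‖g‖) ^ 2 ∂ν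
          + ‖g‖⁻¹ * ∫ ξ, ‖hat β h g ξ - g‖ ^ 2 ∂ν) := by
      rw [integral_const_mul, integral_add (hil.const_mul ‖g‖) (hid.const_mul ‖g‖⁻¹),
        integral_const_mul, integral_const_mul]
    have h8 : ‖g‖ * ∫ ξ, (Real.log ‖hat β h g ξ‖ - Real.log ‖g‖) ^ 2 ∂ν ≤ ‖g‖ * (2 * h) :=
      mul_le_mul_of_nonneg_left hL2 hr0.le
    have h9 : ‖g‖⁻¹ * ∫ ξ, ‖hat β h g ξ - g‖ ^ 2 ∂ν ≤ (N + 1) * h * ‖g‖ := by
      calc ‖g‖⁻¹ * ∫ ξ, ‖hat β h g ξ - g‖ ^ 2 ∂ν ≤ ‖g‖⁻¹ * ((N + 1) * h * ‖g‖ ^ 2) :=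
            mul_le_mul_of_nonneg_left hV2 (by positivity)
        _ = (N + 1) * h * ‖g‖ := by field_simp
    simp only [Pi.add_apply]
    rw [h7]
    calc 9 / 2 * B * K1 * (‖g‖ * ∫ ξ, (Real.log ‖hat β h g ξ‖ - Real.log ‖g‖) ^ 2 ∂ν
          + ‖g‖⁻¹ * ∫ ξ, ‖hat β h g ξ - g‖ ^ 2 ∂ν)
        ≤ 9 / 2 * B * K1 * (‖g‖ * (2 * h) + (N + 1) * h * ‖g‖) :=
          mul_le_mul_of_nonneg_left (add_le_add h8 h9) (by positivity)
      _ = 9 / 2 * B * K1 * (N + 3) * h * ‖g‖ := by ring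
  -- second term
  have hT2 : ‖(∫ ξ, (om r1 ‖hat β h g ξ‖ - om r1 ‖g‖) ∂ν) • cfull y g‖ ≤
      3 / 2 * B * K1 * (N + 3) * h * ‖g‖ := by
    rw [norm_smul, Real.norm_eq_abs]
    have h1 : ∫ ξ, (om r1 ‖hat β h g ξ‖ - om r1 ‖g‖) ∂ν
        = ∫ ξ, Real.smoothTransition (Real.log ‖hat β h g ξ‖ - Real.log r1) ∂ν
        - Real.smoothTransition (Real.log ‖g‖ - Real.log r1) := by
      rw [integral_sub hio (integrable_const _), CTil_om_log hr1 hr0]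
      congr 1
      · refine integral_congr_ae ?_
        filter_upwards [hae2] with ξ hξ
        exact CTil_om_log hr1 (by linarith [hξ.1])
      · simp
    rw [h1]
    have h2 : ‖cfull y g‖ ≤ 3 * K1 * ‖g‖ :=
      (CTil_norm_cfull_le hy.prof g).trans
        ((CTil_prof hy.prof (by linarith) hyK).1 _ (by linarith))
    calc _ ≤ (h * B * (N + 3) / 2) * (3 * K1 * ‖g‖) :=
          mul_le_mul hU h2 (norm_nonneg _) (by positivity)
      _ = _ := by ring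
  have hT3 : ‖om r1 ‖g‖ • (- (h • g)) + h • g‖ ≤ h * ‖g‖ := by
    have h1 : om r1 ‖g‖ • (- (h • g)) + h • g = ((1 - om r1 ‖g‖) * h) • g := by module
    have h2 := CTil_om01 r1 ‖g‖
    rw [h1, norm_smul, Real.norm_eq_abs, abs_of_nonneg (mul_nonneg (by linarith) hh.le)]
    refine mul_le_mul_of_nonneg_right ?_ hr0.le
    nlinarith
  rw [hI]
  set I1 := ∫ ξ, (om r1 ‖hat β h g ξ‖ - om r1 ‖g‖) • (cfull y (hat β h g ξ) - cfull y g) ∂ν
  set I2 := (∫ ξ, (om r1 ‖hat β h g ξ‖ - om r1 ‖g‖) ∂ν) • cfull y g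
  have hre : I1 + I2 + om r1 ‖g‖ • (- (h • g)) + h • g
      = (I1 + I2) + (om r1 ‖g‖ • (- (h • g)) + h • g) := by abel
  rw [hre]
  calc ‖(I1 + I2) + (om r1 ‖g‖ • (- (h • g)) + h • g)‖
      ≤ (‖I1‖ + ‖I2‖) + ‖om r1 ‖g‖ • (- (h • g)) + h • g‖ :=
        (norm_add_le _ _).trans (add_le_add (norm_add_le _ _) le_rfl)
    _ ≤ (9 / 2 * B * K1 * (N + 3) * h * ‖g‖ + 3 / 2 * B * K1 * (N + 3) * h * ‖g‖) + h * ‖g‖ :=
        add_le_add (add_le_add hT1 hT2) hT3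
    _ = _ := by ring


private theorem CTil_mean {N : ℕ} {β h δ Cy : ℝ} {ν : Measure (E N)} {y : ℝ → ℝ}
    (hβ : 0 < β) (hh : 0 < h) (hν : IsNoise h ν) (hy : IsCorr N β h ν δ Cy y) (g : E N)
    (hg0 : g ≠ 0) (hae : ∀ᵐ ξ ∂ν, ‖hat β h g ξ‖ ≤ 2 * ‖g‖) :
    ∫ ξ, (cfull y (hat β h g ξ) - cfull y g) ∂ν = - (h • g) := by
  have := hν.prob
  have hmh := CTil_meas_hat (N := N) hβ hh.le g
  have hmc : Measurable fun ξ : E N => cfull y (hat β h g ξ) := (CTil_meas_cfull hy.prof).comp hmh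
  have hic : Integrable (fun ξ : E N => cfull y (hat β h g ξ)) ν := by
    refine Integrable.of_bound hmc.aestronglyMeasurable (y (2 * ‖g‖)) ?_
    filter_upwards [hae] with ξ hξ
    exact (CTil_norm_cfull_le hy.prof _).trans (hy.prof.mono hξ)
  rw [integral_sub hic (integrable_const _)]
  have h1 := hy.eqn g hg0
  have h2 : ∫ ξ, cfull y (hat β h g ξ) ∂ν = cfull y g - h • g := h1
  rw [h2]
  simp

/-- second moment from a pointwise Lipschitz bound -/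
private theorem CTil_second {N : ℕ} {β h L M : ℝ} {ν : Measure (E N)}
    (hβ : 0 < β) (hh : 0 < h) (hν : IsNoise h ν) (g : E N) (D : E N → E N)
    (hae : ∀ᵐ ξ ∂ν, ‖hat β h g ξ - g‖ ≤ ‖g‖)
    (hD : ∀ᵐ ξ ∂ν, ‖D ξ‖ ≤ L * ‖hat β h g ξ - g‖)
    (hV2 : ∫ ξ, ‖hat β h g ξ - g‖ ^ 2 ∂ν ≤ (N + 1) * h * ‖g‖ ^ 2)
    (hM : L ^ 2 * ((N + 1) * ‖g‖ ^ 2) ≤ M) :
    ∫ ξ, ‖D ξ‖ ^ 2 ∂ν ≤ M * h := by
  have := hν.prob
  have hmh := CTil_meas_hat (N := N) hβ hh.le g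
  have hid : Integrable (fun ξ : E N => ‖hat β h g ξ - g‖ ^ 2) ν := by
    refine Integrable.of_bound ((measurable_norm.comp (hmh.sub_const g)).pow_const
      2).aestronglyMeasurable (‖g‖ ^ 2) ?_
    filter_upwards [hae] with ξ hξ
    rw [Real.norm_eq_abs, abs_of_nonneg (sq_nonneg _)]
    exact pow_le_pow_left₀ (norm_nonneg _) hξ 2
  have h1 : ∫ ξ, ‖D ξ‖ ^ 2 ∂ν ≤ ∫ ξ, L ^ 2 * ‖hat β h g ξ - g‖ ^ 2 ∂ν := by
    refine integral_mono_of_nonneg (Filter.Eventually.of_forall fun ξ => sq_nonneg _)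
      (hid.const_mul _) ?_
    filter_upwards [hD] with ξ hξ
    calc ‖D ξ‖ ^ 2 ≤ (L * ‖hat β h g ξ - g‖) ^ 2 := pow_le_pow_left₀ (norm_nonneg _) hξ 2
      _ = L ^ 2 * ‖hat β h g ξ - g‖ ^ 2 := by ring
  rw [integral_const_mul] at h1
  calc ∫ ξ, ‖D ξ‖ ^ 2 ∂ν ≤ L ^ 2 * ∫ ξ, ‖hat β h g ξ - g‖ ^ 2 ∂ν := h1
    _ ≤ L ^ 2 * ((N + 1) * h * ‖g‖ ^ 2) := mul_le_mul_of_nonneg_left hV2 (sq_nonneg _)
    _ = (L ^ 2 * ((N + 1) * ‖g‖ ^ 2)) * h := by ring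
    _ ≤ M * h := mul_le_mul_of_nonneg_right hM hh.le

private theorem CTil_small_h (C : ℝ) (hC : 0 < C) :
    ∃ h0 : ℝ, 0 < h0 ∧ ∀ h, 0 < h → h < h0 → C * h ^ (9 / 8 : ℝ) ≤ h := by
  refine ⟨(1 / C) ^ 8, by positivity, fun h hh hlt => ?_⟩
  have h1 : h ^ (9 / 8 : ℝ) = h * h ^ (1 / 8 : ℝ) := by
    rw [← Real.rpow_one_add' hh.le (by norm_num)]; norm_num
  have h2 : h ^ (1 / 8 : ℝ) ≤ 1 / C := by
    calc h ^ (1 / 8 : ℝ) ≤ ((1 / C) ^ 8) ^ (1 / 8 : ℝ) :=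
          Real.rpow_le_rpow hh.le hlt.le (by norm_num)
      _ = 1 / C := by
        rw [← Real.rpow_natCast, ← Real.rpow_mul (by positivity)]; norm_num
  rw [h1]
  calc C * (h * h ^ (1 / 8 : ℝ)) = h * (C * h ^ (1 / 8 : ℝ)) := by ring
    _ ≤ h * (C * (1 / C)) := by
        refine mul_le_mul_of_nonneg_left (mul_le_mul_of_nonneg_left h2 hC.le) hh.le
    _ = h := by field_simp

private theorem CTil_one_le_rad {β h : ℝ} (hβ : 0 < β) (hh : 0 < h) (hh1 : h ≤ 1) :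
    1 ≤ rad β h := by
  unfold rad
  refine le_min ?_ ?_
  · exact Real.one_le_rpow_of_pos_of_le_one_of_nonpos hh hh1 (by norm_num)
  · refine Real.one_le_rpow_of_pos_of_le_one_of_nonpos hh hh1 ?_
    have : 0 < 1 / (4 * β) := by positivity
    linarith

private theorem CTil_a1 {B Cy Λ : ℝ} (hB : 1 ≤ B) (h0 : 0 ≤ Cy * Λ) :
    3 * ((1 + B) * (Cy * Λ)) ≤ 6 * B * Cy * Λ := by
  nlinarith [mul_nonneg (sub_nonneg.2 hB) h0]

private theorem CTil_a2 {B Cy Λ n : ℝ} (h : 0 ≤ B * Cy * Λ) (hn : 0 ≤ n) :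
    6 * B * Cy * Λ ≤ 12 * B * Cy * (n + 3) * Λ := by
  nlinarith [mul_nonneg h hn]

private theorem CTil_a3 {r1 x : ℝ} (hr1 : 0 < r1) (h : 4 / 5 * (6 * r1) ≤ x) :
    Real.exp 1 * r1 ≤ x := by
  have h1 : Real.exp 1 * r1 ≤ 3 * r1 :=
    mul_le_mul_of_nonneg_right (by have := Real.exp_one_lt_d9; linarith) hr1.le
  linarith

private theorem CTil_a4 {l n : ℝ} (hl0 : 0 ≤ l) (hl : l ≤ 1 / 10) (hn : 0 ≤ n) :
    2 * l * n ≤ n ∧ 4 / 5 * n ≤ (1 - 2 * l) * n ∧ (1 + l) * n ≤ 2 * n := by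
  have h1 := mul_nonneg hl0 hn
  have h2 := mul_nonneg (sub_nonneg.2 hl) hn
  refine ⟨?_, ?_, ?_⟩ <;> nlinarith

private theorem CTil_a5 {x y h n a b : ℝ} (h1 : x - h * n * a ≤ b) (h2 : b ≤ h * a)
    (hy : y = (n + 1) * h * a) : x ≤ y := by
  rw [hy]; nlinarith

private theorem CTil_a6 {B Cy Λ n : ℝ} (h : 1 ≤ B * Cy * Λ) (hn : 0 ≤ n) :
    1 + 6 * B * (Cy * Λ) * (n + 3) ≤ 12 * B * Cy * (n + 3) * Λ := by
  nlinarith [mul_nonneg (show (0:ℝ) ≤ B * Cy * Λ by linarith) hn]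

private theorem CTil_a7 {n : ℝ} (hn : 0 ≤ n) : n + 1 ≤ (2 * (n + 3)) ^ 2 := by nlinarith

private theorem CTil_a8 {n x : ℝ} (hn : 0 ≤ n) (hx : 1 ≤ x) : n + 1 ≤ (x * (n + 3)) ^ 2 := by
  have h5 : n + 3 ≤ x * (n + 3) := by nlinarith
  have h6 : (n + 3) ^ 2 ≤ (x * (n + 3)) ^ 2 := pow_le_pow_left₀ (by positivity) h5 2
  nlinarith

private theorem CTil_a9 {Cy x : ℝ} (hC : 0 ≤ Cy) (hx : x ≤ 1) : Cy * (1 + x) ≤ 2 * Cy := by
  nlinarith

theorem ctil_facts (N : ℕ) (β δ Cy : ℝ) (hN : 3 ≤ N) (hβ : 1 < β) (hδ : 0 < δ) (hCy : 1 ≤ Cy) :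
    ∃ C0 : ℝ, 1 ≤ C0 ∧ ∀ r1 : ℝ, 0 < r1 → r1 ≤ 1 / 6 →
    ∃ C2 h0 : ℝ, 0 < C2 ∧ 0 < h0 ∧ ∀ (h : ℝ) (ν : Measure (E N)), 0 < h → h < h0 → IsNoise h ν →
      ∀ y : ℝ → ℝ, IsCorr N β h ν δ Cy y →
      (∀ g g' : E N, ‖ctil r1 y g - ctil r1 y g'‖ ≤ C0 * (1 + Real.log (1 / r1)) * ‖g - g'‖) ∧
      (∀ g : E N, ‖ctil r1 y g‖ ≤ C0 * (1 + Real.log (1 / r1)) * ‖g‖) ∧
      (∀ g : E N, ‖g‖ ≤ 2 * rad β h → ‖ctil r1 y g‖ ≤ 2 * Cy) ∧
      (∀ g : E N, ‖g‖ ≤ r1 → ctil r1 y g = 0) ∧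
      (∀ g : E N, ‖g‖ < r1 / 2 → ∀ᵐ ξ ∂ν, ctil r1 y (hat β h g ξ) = 0) ∧
      (∀ g : E N, r1 / 2 ≤ ‖g‖ → ‖g‖ ≤ 6 * r1 →
        ‖∫ ξ, (ctil r1 y (hat β h g ξ) - ctil r1 y g) ∂ν + h • g‖ ≤
          C0 * (1 + Real.log (1 / r1)) * h * ‖g‖) ∧
      (∀ g : E N, 6 * r1 < ‖g‖ → ‖g‖ ≤ rad β h →
        ∫ ξ, (ctil r1 y (hat β h g ξ) - ctil r1 y g) ∂ν = - (h • g)) ∧
      (∀ g : E N, 6 * r1 < ‖g‖ → ‖g‖ ≤ rad β h → ∀ a : E N, ‖a‖ ≤ 1 →
        1 / 2 * h * ((δ * (β - 1) * ‖g‖ * (1 + ‖g‖) ^ (-β)) ^ 2 + (inner ℝ a (ctil r1 y g)) ^ 2)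
          - C2 * h ^ (9 / 8 : ℝ) ≤
        ∫ ξ, (‖ctil r1 y (hat β h g ξ) - ctil r1 y g‖ ^ 2
          - 2 * (inner ℝ a (ctil r1 y (hat β h g ξ) - ctil r1 y g)) ^ 2) ∂ν) ∧
      (∀ g : E N, ‖g‖ ≤ rad β h →
        (∀ᵐ ξ ∂ν, ‖ctil r1 y (hat β h g ξ) - ctil r1 y g‖ ≤ C2 * h ^ (3 / 8 : ℝ) * min ‖g‖ 1) ∧
        ∫ ξ, ‖ctil r1 y (hat β h g ξ) - ctil r1 y g‖ ^ 2 ∂ν ≤
          (C0 * (1 + Real.log (1 / r1))) ^ 2 * h * (min ‖g‖ 1) ^ 2) := by
  obtain ⟨B, hB1, hσ1, hσ2, hσ3, hσL⟩ := CTil_sigma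
  have hβ0 : 0 < β := by linarith
  have hNr : (3 : ℝ) ≤ N := by exact_mod_cast hN
  obtain ⟨hb, hhb, hhb', hbnd⟩ := hat_bounds N β hβ0
  obtain ⟨C1, hu, hC1, hhu, hugen⟩ := ugen N β (by omega) hβ0
  obtain ⟨C2, hl, hC2, hhl, hlog⟩ := ugen_log N β (by omega) hβ0
  obtain ⟨C3, hg, hC3, hhg, hvgen⟩ := vgen N β (by omega) hβ.le
  obtain ⟨C4, hv, hC4, hhv, hcvar⟩ := cvar N β δ Cy hN hβ hδ hCy
  obtain ⟨a1, ha1, hs1⟩ := CTil_small_h C1 hC1
  obtain ⟨a2, ha2, hs2⟩ := CTil_small_h C2 hC2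
  obtain ⟨a3, ha3, hs3⟩ := CTil_small_h C3 hC3
  have hB0 : 0 ≤ B := by linarith
  have hCy0 : 0 ≤ Cy := by linarith
  have hBCy : 1 ≤ B * Cy := one_le_mul_of_one_le_of_one_le hB1 hCy
  refine ⟨12 * B * Cy * (N + 3), by nlinarith, fun r1 hr1 hr16 => ?_⟩
  obtain ⟨Λ, hΛ⟩ : ∃ Λ, Λ = 1 + Real.log (1 / r1) := ⟨_, rfl⟩
  rw [← hΛ]
  have hΛ1 : 1 ≤ Λ := by
    have : 0 ≤ Real.log (1 / r1) := Real.log_nonneg (by rw [le_div_iff₀ hr1]; linarith)
    linarith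
  have hΛ0 : 0 ≤ Λ := by linarith
  have hBC : 1 ≤ B * Cy * Λ := one_le_mul_of_one_le_of_one_le hBCy hΛ1
  obtain ⟨C0, hC0⟩ : ∃ C0 : ℝ, C0 = 12 * B * Cy * (N + 3) := ⟨_, rfl⟩
  rw [← hC0]
  have hC0pos : 0 < C0 := by rw [hC0]; nlinarith
  refine ⟨C4 + 2 * (C0 * Λ) + 24 * Cy,
    min hb (min hu (min hl (min hg (min hv (min a1 (min a2 a3)))))), by positivity,
    by positivity, ?_⟩
  intro h ν hh hlt hν y hy
  simp only [lt_min_iff] at hlt
  obtain ⟨l1, l2, l3, l4, l5, l6, l7, l8⟩ := hlt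
  have hh1 : h < 1 / 1000 := l1.trans_le hhb'
  have hrad : 1 ≤ rad β h := CTil_one_le_rad hβ0 hh (by linarith)
  obtain ⟨K1, hK1⟩ : ∃ K1, K1 = Cy * Λ := ⟨_, rfl⟩
  have hK11 : 1 ≤ K1 := hK1 ▸ one_le_mul_of_one_le_of_one_le hCy hΛ1
  have hyK1 : y r1 ≤ K1 * r1 := by
    have := hy.small r1 hr1 (by linarith)
    rw [← hΛ] at this
    calc y r1 ≤ Cy * r1 * Λ := this
      _ = K1 * r1 := by rw [hK1]; ring
  have hyK4 : y (r1 / 4) ≤ 3 * K1 * (r1 / 4) := by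
    have h1 := hy.small (r1 / 4) (by linarith) (by linarith)
    have h2 : Real.log (1 / (r1 / 4)) ≤ 2 + Real.log (1 / r1) := by
      have h3 : 1 / (r1 / 4) = 4 * (1 / r1) := by field_simp
      rw [h3, Real.log_mul (by norm_num) (by positivity)]
      have h4 : Real.log 4 ≤ 2 := by
        have : (4 : ℝ) = 2 ^ 2 := by norm_num
        rw [this, Real.log_pow]
        have := Real.log_two_lt_d9
        push_cast; linarith
      linarith
    calc y (r1 / 4) ≤ Cy * (r1 / 4) * (1 + Real.log (1 / (r1 / 4))) := h1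
      _ ≤ Cy * (r1 / 4) * (3 * Λ) := by
          refine mul_le_mul_of_nonneg_left ?_ (by positivity)
          linarith
      _ = 3 * K1 * (r1 / 4) := by rw [hK1]; ring
  have hLip : ∀ g g' : E N, ‖ctil r1 y g' - ctil r1 y g‖ ≤ 6 * B * Cy * Λ * ‖g' - g‖ := by
    intro g g'
    refine (CTil_lip hy.prof hr1 hB0 (by linarith) hσL hyK1 g g').trans ?_
    refine mul_le_mul_of_nonneg_right ?_ (norm_nonneg _)
    rw [hK1]
    exact CTil_a1 hB1 (by positivity)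
  have hC0a : 6 * B * Cy * Λ ≤ C0 * Λ := by
    rw [hC0]
    exact CTil_a2 (by positivity) (by positivity)
  have hone : ∀ g : E N, 6 * r1 < ‖g‖ → ctil r1 y g = cfull y g := by
    intro g hg6
    rw [CTil_eq_smul, CTil_om_one hr1 (CTil_a3 hr1 (by linarith)), one_smul]
  have haeg : ∀ g : E N, ‖g‖ ≤ rad β h → ∀ᵐ ξ ∂ν, ‖hat β h g ξ - g‖ ≤ ‖g‖ ∧
      4 / 5 * ‖g‖ ≤ ‖hat β h g ξ‖ ∧ ‖hat β h g ξ‖ ≤ 2 * ‖g‖ := by
    intro g hg
    filter_upwards [hbnd h ν hh l1 hν g hg] with ξ hξ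
    obtain ⟨h1, h2, h3, h4, h5⟩ := hξ
    have h6 : 0 ≤ h ^ (3 / 8 : ℝ) := Real.rpow_nonneg hh.le _
    obtain ⟨k1, k2, k3⟩ := CTil_a4 h6 h5 (norm_nonneg g)
    exact ⟨h1.trans k1, k2.trans h2, h3.trans k3⟩
  have hone' : ∀ g : E N, 6 * r1 < ‖g‖ → ‖g‖ ≤ rad β h →
      ∀ᵐ ξ ∂ν, ctil r1 y (hat β h g ξ) = cfull y (hat β h g ξ) := by
    intro g hg6 hg
    filter_upwards [haeg g hg] with ξ hξ
    rw [CTil_eq_smul, CTil_om_one hr1 (CTil_a3 hr1 (by linarith [hξ.2.1])), one_smul]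
  have hV : ∀ g : E N, ‖g‖ ≤ rad β h →
      ∫ ξ, ‖hat β h g ξ - g‖ ^ 2 ∂ν ≤ (N + 1) * h * ‖g‖ ^ 2 := by
    intro g hg
    have h1 := (abs_le.1 (hvgen h ν hh l4 hν g hg).2.2).2
    have h2 := hs3 h hh l8
    exact CTil_a5 h1 (mul_le_mul_of_nonneg_right h2 (sq_nonneg ‖g‖)) rfl
  refine ⟨?_, ?_, ?_, ?_, ?_, ?_, ?_, ?_, ?_⟩
  · intro g g'
    exact (hLip g' g).trans (mul_le_mul_of_nonneg_right hC0a (norm_nonneg _))
  · intro g
    have h1 := hLip 0 g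
    have h2 : ctil r1 y (0 : E N) = 0 := by simp [ctil]
    rw [h2, sub_zero, sub_zero] at h1
    exact h1.trans (mul_le_mul_of_nonneg_right hC0a (norm_nonneg _))
  · intro g hg
    refine (CTil_norm_ctil_le hy.prof r1 g).trans ((hy.bdd _ (norm_nonneg _)).trans ?_)
    have h1 : h * (‖g‖ / 2) ≤ h ^ (7 / 8 : ℝ) :=
      (rad_facts hβ0 hh (by linarith) (by positivity) (by linarith)).2.2.2
    have h2 : h ^ (7 / 8 : ℝ) ≤ 1 / 2 := by
      calc h ^ (7 / 8 : ℝ) ≤ h ^ (1 / 2 : ℝ) :=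
            Real.rpow_le_rpow_of_exponent_ge hh (by linarith) (by norm_num)
        _ ≤ 1 / 2 := by
          rw [← Real.sqrt_eq_rpow, Real.sqrt_le_left (by norm_num)]
          norm_num; linarith
    exact CTil_a9 hCy0 (by linarith)
  · intro g hg
    rw [CTil_eq_smul, CTil_om_zero hr1 (norm_nonneg _) hg, zero_smul]
  · intro g hg
    filter_upwards [hbnd h ν hh l1 hν g (by linarith)] with ξ hξ
    obtain ⟨h1, h2, h3, h4, h5⟩ := hξ
    rw [CTil_eq_smul, CTil_om_zero hr1 (norm_nonneg _) ?_, zero_smul]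
    have k3 := (CTil_a4 (Real.rpow_nonneg hh.le _) h5 (norm_nonneg g)).2.2
    linarith
  · intro g hg hg6
    have hgr : ‖g‖ ≤ rad β h := by linarith
    have hg0 : g ≠ 0 := norm_pos_iff.1 (by linarith)
    have hU : |∫ ξ, Real.smoothTransition (Real.log ‖hat β h g ξ‖ - Real.log r1) ∂ν
        - Real.smoothTransition (Real.log ‖g‖ - Real.log r1)| ≤ h * B * (N + 3) / 2 := by
      have hf : ContDiff ℝ 3 (fun u => Real.smoothTransition (u - Real.log r1)) :=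
        (Real.smoothTransition.contDiff (n := 3)).comp (contDiff_id.sub contDiff_const)
      have hd1 : ∀ u, deriv (fun u => Real.smoothTransition (u - Real.log r1)) u
          = deriv Real.smoothTransition (u - Real.log r1) := fun u => deriv_comp_sub_const _ _ _
      have hd2 : ∀ n u, iteratedDeriv n (fun u => Real.smoothTransition (u - Real.log r1)) u
          = iteratedDeriv n Real.smoothTransition (u - Real.log r1) := fun n u => by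
        rw [iteratedDeriv_comp_sub_const]
      have h1 := hugen h ν hh l2 hν g hg0 hgr
        (fun u => Real.smoothTransition (u - Real.log r1)) B hf
        (fun u => by rw [hd1]; exact hσ1 _) (fun u => by rw [hd2]; exact hσ2 _)
        (fun u => by rw [hd2]; exact hσ3 _)
      rw [hd1, hd2] at h1
      have h2 := hσ1 (Real.log ‖g‖ - Real.log r1)
      have h3 := hσ2 (Real.log ‖g‖ - Real.log r1)
      have h4 := hs1 h hh l6
      set X := ∫ ξ, Real.smoothTransition (Real.log ‖hat β h g ξ‖ - Real.log r1) ∂ν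
      set Y := Real.smoothTransition (Real.log ‖g‖ - Real.log r1)
      set P := deriv Real.smoothTransition (Real.log ‖g‖ - Real.log r1)
      set Q := iteratedDeriv 2 Real.smoothTransition (Real.log ‖g‖ - Real.log r1)
      have h5 : 0 ≤ ‖g‖ ^ β := Real.rpow_nonneg (norm_nonneg _) _
      have h6 : ‖g‖ ^ β ≤ 1 := Real.rpow_le_one (norm_nonneg _) (by linarith) hβ0.le
      have h7 : |1 / 2 * Q + (1 / 2 * (N - 2) - ‖g‖ ^ β) * P| ≤ B * (N + 1) / 2 := by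
        have h8 : |(1 / 2 * ((N : ℝ) - 2) - ‖g‖ ^ β) * P| ≤ (N / 2) * B := by
          rw [abs_mul]
          refine mul_le_mul ?_ h2 (abs_nonneg _) (by positivity)
          rw [abs_le]; constructor <;> linarith
        have h9 : |1 / 2 * Q| ≤ 1 / 2 * B := by
          rw [abs_mul, abs_of_pos (by norm_num : (0:ℝ) < 1 / 2)]
          exact mul_le_mul_of_nonneg_left h3 (by norm_num)
        refine (abs_add_le _ _).trans ?_
        linarith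
      have h10 : C1 * B * h ^ (9 / 8 : ℝ) ≤ B * h := by
        calc C1 * B * h ^ (9 / 8 : ℝ) = B * (C1 * h ^ (9 / 8 : ℝ)) := by ring
          _ ≤ B * h := mul_le_mul_of_nonneg_left h4 hB0
      have h11 : |h * (1 / 2 * Q + (1 / 2 * (N - 2) - ‖g‖ ^ β) * P)| ≤ h * (B * (N + 1) / 2) := by
        rw [abs_mul, abs_of_pos hh]
        exact mul_le_mul_of_nonneg_left h7 hh.le
      have h12 : X - Y = (X - Y - h * (1 / 2 * Q + (1 / 2 * (N - 2) - ‖g‖ ^ β) * P))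
          + h * (1 / 2 * Q + (1 / 2 * (N - 2) - ‖g‖ ^ β) * P) := by ring
      rw [h12]
      refine (abs_add_le _ _).trans ?_
      calc _ ≤ B * h + h * (B * (N + 1) / 2) := add_le_add (h1.trans h10) h11
        _ = h * B * (N + 3) / 2 := by ring
    have hL2 : ∫ ξ, (Real.log ‖hat β h g ξ‖ - Real.log ‖g‖) ^ 2 ∂ν ≤ 2 * h := by
      have h1 := (abs_le.1 (hlog h ν hh l3 hν g hg0 hgr).2).2
      have h2 := hs2 h hh l7
      linarith
    refine (CTil_trans hβ0 hh hν hy hr1 hB1 hK11 hσL hyK4 g hg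
      (hbnd h ν hh l1 hν g hgr) hU hL2 (hV g hgr)).trans ?_
    have hle : 1 + 6 * B * K1 * (N + 3) ≤ C0 * Λ := by
      rw [hK1, hC0]
      exact CTil_a6 hBC (by positivity)
    exact mul_le_mul_of_nonneg_right (mul_le_mul_of_nonneg_right hle hh.le) (norm_nonneg _)
  · intro g hg6 hg
    have hg0 : g ≠ 0 := norm_pos_iff.1 (by linarith)
    rw [← CTil_mean hβ0 hh hν hy g hg0 ((haeg g hg).mono fun ξ hξ => hξ.2.2)]
    refine integral_congr_ae ?_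
    filter_upwards [hone' g hg6 hg] with ξ hξ
    rw [hξ, hone g hg6]
  · intro g hg6 hg a ha
    have hg0 : g ≠ 0 := norm_pos_iff.1 (by linarith)
    have h1 := hcvar h ν hh l5 hν y hy g hg0 hg a ha
    have h2 : ∫ ξ, (‖ctil r1 y (hat β h g ξ) - ctil r1 y g‖ ^ 2
          - 2 * (inner ℝ a (ctil r1 y (hat β h g ξ) - ctil r1 y g)) ^ 2) ∂ν
        = ∫ ξ, (‖cfull y (hat β h g ξ) - cfull y g‖ ^ 2
          - 2 * (inner ℝ a (cfull y (hat β h g ξ) - cfull y g)) ^ 2) ∂ν := by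
      refine integral_congr_ae ?_
      filter_upwards [hone' g hg6 hg] with ξ hξ
      rw [hξ, hone g hg6]
    rw [h2, hone g hg6]
    have h3 : 0 ≤ h ^ (9 / 8 : ℝ) := Real.rpow_nonneg hh.le _
    have h4 : C4 * h ^ (9 / 8 : ℝ) ≤ (C4 + 2 * (C0 * Λ) + 24 * Cy) * h ^ (9 / 8 : ℝ) := by
      refine mul_le_mul_of_nonneg_right ?_ h3
      have : 0 ≤ C0 * Λ := by positivity
      linarith
    linarith
  · intro g hg
    have hl0 : 0 ≤ h ^ (3 / 8 : ℝ) := Real.rpow_nonneg hh.le _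
    have hae1 : ∀ᵐ ξ ∂ν, ‖hat β h g ξ - g‖ ≤ ‖g‖ := (haeg g hg).mono fun ξ hξ => hξ.1
    rcases le_or_gt ‖g‖ 1 with hg1 | hg1
    · rw [min_eq_left hg1]
      refine ⟨?_, ?_⟩
      · filter_upwards [hbnd h ν hh l1 hν g hg] with ξ hξ
        calc ‖ctil r1 y (hat β h g ξ) - ctil r1 y g‖ ≤ 6 * B * Cy * Λ * ‖hat β h g ξ - g‖ :=
              hLip _ _
          _ ≤ (C0 * Λ) * (2 * h ^ (3 / 8 : ℝ) * ‖g‖) :=
              mul_le_mul hC0a hξ.1 (norm_nonneg _) (by positivity)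
          _ = (2 * (C0 * Λ)) * (h ^ (3 / 8 : ℝ) * ‖g‖) := by ring
          _ ≤ (C4 + 2 * (C0 * Λ) + 24 * Cy) * (h ^ (3 / 8 : ℝ) * ‖g‖) := by
              refine mul_le_mul_of_nonneg_right ?_ (by positivity)
              linarith
          _ = _ := by ring
      · have h1 := CTil_second (L := 6 * B * Cy * Λ) (M := (C0 * Λ) ^ 2 * ‖g‖ ^ 2) hβ0 hh hν g
          (fun ξ => ctil r1 y (hat β h g ξ) - ctil r1 y g) hae1
          (Filter.Eventually.of_forall fun ξ => hLip _ _) (hV g hg) ?_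
        · calc _ ≤ (C0 * Λ) ^ 2 * ‖g‖ ^ 2 * h := h1
            _ = _ := by ring
        · rw [← mul_assoc]
          refine mul_le_mul_of_nonneg_right ?_ (sq_nonneg _)
          have h2 : (6 * B * Cy * Λ) ^ 2 * (N + 1) ≤ (6 * B * Cy * Λ) ^ 2 * (2 * (N + 3)) ^ 2 := by
            exact mul_le_mul_of_nonneg_left (CTil_a7 (by positivity)) (sq_nonneg _)
          calc _ ≤ (6 * B * Cy * Λ) ^ 2 * (2 * (N + 3)) ^ 2 := h2
            _ = (C0 * Λ) ^ 2 := by rw [hC0]; ring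
    · rw [min_eq_right hg1.le]
      have hg6 : 6 * r1 < ‖g‖ := by linarith
      have hgp : 0 < ‖g‖ := by linarith
      have hyh : y (‖g‖ / 2) ≤ (4 * Cy / ‖g‖) * (‖g‖ / 2) := by
        have h1 := hy.bdd (‖g‖ / 2) (by positivity)
        have h2 : h * ‖g‖ ≤ h ^ (7 / 8 : ℝ) :=
          (rad_facts hβ0 hh (by linarith) (by positivity) hg).2.2.2
        have h3 : h ^ (7 / 8 : ℝ) ≤ 1 :=
          Real.rpow_le_one hh.le (by linarith) (by norm_num)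
        have h4 : (4 * Cy / ‖g‖) * (‖g‖ / 2) = 2 * Cy := by field_simp; norm_num
        rw [h4]
        exact h1.trans (CTil_a9 hCy0 (by linarith))
      have hDl : ∀ᵐ ξ ∂ν, ‖ctil r1 y (hat β h g ξ) - ctil r1 y g‖ ≤
          (12 * Cy / ‖g‖) * ‖hat β h g ξ - g‖ := by
        filter_upwards [hone' g hg6 hg, haeg g hg] with ξ hξ hξ2
        rw [hξ, hone g hg6]
        refine (CTil_cfull_lip hy.prof (t := ‖g‖ / 2) (K := 4 * Cy / ‖g‖) (by positivity)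
          (by positivity) hyh g _ (by linarith) (by linarith [hξ2.2.1])).trans (le_of_eq ?_)
        ring
      refine ⟨?_, ?_⟩
      · filter_upwards [hbnd h ν hh l1 hν g hg, hDl] with ξ hξ hξ2
        calc ‖ctil r1 y (hat β h g ξ) - ctil r1 y g‖ ≤ (12 * Cy / ‖g‖) * ‖hat β h g ξ - g‖ := hξ2
          _ ≤ (12 * Cy / ‖g‖) * (2 * h ^ (3 / 8 : ℝ) * ‖g‖) :=
              mul_le_mul_of_nonneg_left hξ.1 (by positivity)
          _ = (24 * Cy) * h ^ (3 / 8 : ℝ) := by field_simp; norm_num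
          _ ≤ (C4 + 2 * (C0 * Λ) + 24 * Cy) * h ^ (3 / 8 : ℝ) := by
              refine mul_le_mul_of_nonneg_right ?_ hl0
              have : 0 ≤ C0 * Λ := by positivity
              linarith
          _ = _ := by ring
      · have h1 := CTil_second (L := 12 * Cy / ‖g‖) (M := (C0 * Λ) ^ 2) hβ0 hh hν g
          (fun ξ => ctil r1 y (hat β h g ξ) - ctil r1 y g) hae1 hDl (hV g hg) ?_
        · calc _ ≤ (C0 * Λ) ^ 2 * h := h1
            _ = _ := by ring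
        · have h2 : (12 * Cy / ‖g‖) ^ 2 * ((N + 1) * ‖g‖ ^ 2) = (12 * Cy) ^ 2 * (N + 1) := by
            field_simp
          rw [h2]
          have h3 : C0 * Λ = (12 * Cy) * (B * Λ * (N + 3)) := by rw [hC0]; ring
          rw [h3, mul_pow (12 * Cy) (B * Λ * (N + 3))]
          refine mul_le_mul_of_nonneg_left ?_ (sq_nonneg (12 * Cy))
          exact CTil_a8 (by positivity) (one_le_mul_of_one_le_of_one_le hB1 hΛ1)

end Dyn
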