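import Pool.Agent.Lib_MP_36b788.NMom

/-!
# LOGZ: expansions of functions of `ζ = ‖e + √h ξ‖`

PROOF. Put `t = ζ² - 1 = 2√h⟪e,ξ⟫ + h‖ξ‖²`, `ℓ = h^(3/8)`, `|t| ≤ 2ℓ + ℓ² ≤ 3ℓ` a.e., and with
`v = (∫‖ξ‖²)/N ∈ [1-h,1]` (NMOM): `∫ t = h N v`, `∫ t² = 4hv + h²∫‖ξ‖⁴` (the cross term
`4h^{3/2}∫⟪e,ξ⟫‖ξ‖²` vanishes) and `h²‖ξ‖⁴ ≤ ℓ⁴ ≤ ℓ³ = h^(9/8)`. If `|F t - a t - b t²| ≤ K|t|³` for
`|t| ≤ 1/2` then `|∫F(t) - (aN+4b)h| ≤ (|a| N + 8|b| + 27K) h^(9/8)` for small `h`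
(`h² ≤ h^(9/8)`). That is `taylor_t`.
`logz`: apply it to `F t = ½ log(1+t)` (a=½, b=-¼), `(½log(1+t))²` (0,¼), `√(1+t)` (½,-⅛),
`(√(1+t)-1)²` (0,¼), `1/√(1+t)` (-½,⅜). Each cubic remainder bound for `|t| ≤ 1/2` is elementary.
-/

open MeasureTheory

namespace Dyn

theorem LogZ_ell {h : ℝ} (h0 : 0 < h) (h1 : h < 1 / 1000) :
    0 < h ^ (3 / 8 : ℝ) ∧ h ^ (3 / 8 : ℝ) ≤ 1 / 10 ∧ (h ^ (3 / 8 : ℝ)) ^ 3 = h ^ (9 / 8 : ℝ) ∧
      (h ^ (3 / 8 : ℝ)) ^ 4 = h ^ (3 / 2 : ℝ) ∧ h ^ 2 ≤ (h ^ (3 / 8 : ℝ)) ^ 3 := by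
  have e3 : (h ^ (3 / 8 : ℝ)) ^ 3 = h ^ (9 / 8 : ℝ) := by
    rw [← Real.rpow_natCast, ← Real.rpow_mul h0.le]
    norm_num
  have e4 : (h ^ (3 / 8 : ℝ)) ^ 4 = h ^ (3 / 2 : ℝ) := by
    rw [← Real.rpow_natCast, ← Real.rpow_mul h0.le]
    norm_num
  refine ⟨Real.rpow_pos_of_pos h0 _, ?_, e3, e4, ?_⟩
  · have a1 : h ^ (3 / 8 : ℝ) ≤ (1 / 1000 : ℝ) ^ (3 / 8 : ℝ) :=
      Real.rpow_le_rpow h0.le h1.le (by norm_num)
    have a2 : (1 / 1000 : ℝ) = (1 / 10 : ℝ) ^ (3 : ℝ) := by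
      rw [show (3 : ℝ) = ((3 : ℕ) : ℝ) by norm_num, Real.rpow_natCast]
      norm_num
    have a3 : (1 / 1000 : ℝ) ^ (3 / 8 : ℝ) = (1 / 10 : ℝ) ^ (9 / 8 : ℝ) := by
      rw [a2, ← Real.rpow_mul (by norm_num)]
      norm_num
    have a4 : (1 / 10 : ℝ) ^ (9 / 8 : ℝ) ≤ (1 / 10 : ℝ) ^ (1 : ℝ) :=
      Real.rpow_le_rpow_of_exponent_ge (by norm_num) (by norm_num) (by norm_num)
    rw [Real.rpow_one] at a4
    linarith
  · rw [e3]
    have a1 : h ^ (2 : ℝ) ≤ h ^ (9 / 8 : ℝ) :=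
      Real.rpow_le_rpow_of_exponent_ge h0 (by linarith) (by norm_num)
    rw [Real.rpow_two] at a1
    exact a1

theorem LogZ_r1 {t : ℝ} (ht : |t| ≤ 1 / 2) :
    |1 / 2 * Real.log (1 + t) - 1 / 2 * t - -(1 / 4) * t ^ 2| ≤ 1 * |t| ^ 3 := by
  have h1 := Real.abs_log_sub_add_sum_range_le (x := -t) (by rw [abs_neg]; linarith) 2
  simp only [Finset.sum_range_succ, Finset.sum_range_zero, abs_neg, sub_neg_eq_add] at h1
  norm_num at h1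
  have h2 : |t| ^ 3 / (1 - |t|) ≤ 2 * |t| ^ 3 := by
    rw [div_le_iff₀ (by linarith)]
    have : 0 ≤ |t| ^ 3 := by positivity
    nlinarith
  have h3 := h1.trans h2
  rw [abs_le] at h3 ⊢
  constructor
  · nlinarith [h3.1]
  · nlinarith [h3.2]

theorem LogZ_r2 {t : ℝ} (ht : |t| ≤ 1 / 2) :
    |(1 / 2 * Real.log (1 + t)) ^ 2 - 0 * t - 1 / 4 * t ^ 2| ≤ 2 * |t| ^ 3 := by
  have h1 := LogZ_r1 ht
  set L : ℝ := 1 / 2 * Real.log (1 + t) with hL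
  have e1 : L ^ 2 - 0 * t - 1 / 4 * t ^ 2 = (L - 1 / 2 * t) * (L + 1 / 2 * t) := by ring
  rw [e1, abs_mul]
  have ht0 : 0 ≤ |t| := abs_nonneg t
  have hsq : t ^ 2 = |t| ^ 2 := (sq_abs t).symm
  have h2 : |L - 1 / 2 * t| ≤ 3 / 4 * |t| ^ 2 := by
    rw [abs_le] at h1 ⊢
    have h3 : |t| ^ 3 ≤ 1 / 2 * |t| ^ 2 := by
      have : |t| ^ 3 = |t| * |t| ^ 2 := by ring
      rw [this]
      exact mul_le_mul_of_nonneg_right ht (by positivity)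
    constructor
    · nlinarith [h1.1]
    · nlinarith [h1.2]
  have h3 : |L + 1 / 2 * t| ≤ 2 * |t| := by
    have e2 : L + 1 / 2 * t = (L - 1 / 2 * t) + t := by ring
    rw [e2]
    refine (abs_add_le _ _).trans ?_
    nlinarith
  have h4 := mul_le_mul h2 h3 (abs_nonneg _) (by positivity)
  have e3 : 3 / 4 * |t| ^ 2 * (2 * |t|) = 3 / 2 * |t| ^ 3 := by ring
  have : 0 ≤ |t| ^ 3 := by positivity
  linarith

theorem LogZ_sqrt {t : ℝ} (ht : |t| ≤ 1 / 2) : ∃ u : ℝ, Real.sqrt (1 + t) = 1 + u ∧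
    t = 2 * u + u ^ 2 ∧ |u| ≤ |t| ∧ |u| ≤ 1 / 2 := by
  have h0 := abs_le.1 ht
  have hs2 : Real.sqrt (1 + t) ^ 2 = 1 + t := Real.sq_sqrt (by linarith)
  have hs0 : 0 ≤ Real.sqrt (1 + t) := Real.sqrt_nonneg _
  have ht' : t = 2 * (Real.sqrt (1 + t) - 1) + (Real.sqrt (1 + t) - 1) ^ 2 := by nlinarith
  have hu : |Real.sqrt (1 + t) - 1| ≤ |t| := by
    have e1 : t = (Real.sqrt (1 + t) - 1) * (Real.sqrt (1 + t) + 1) := by nlinarith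
    have h2 : |t| = |Real.sqrt (1 + t) - 1| * (Real.sqrt (1 + t) + 1) := by
      conv_lhs => rw [e1]
      rw [abs_mul, abs_of_nonneg (by linarith : 0 ≤ Real.sqrt (1 + t) + 1)]
    rw [h2]
    nlinarith [abs_nonneg (Real.sqrt (1 + t) - 1)]
  exact ⟨Real.sqrt (1 + t) - 1, by ring, ht', hu, hu.trans ht⟩

theorem LogZ_cube {u t : ℝ} (h : |u| ≤ |t|) : |u| ^ 3 ≤ |t| ^ 3 :=
  pow_le_pow_left₀ (abs_nonneg _) h 3

theorem LogZ_r3 {t : ℝ} (ht : |t| ≤ 1 / 2) :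
    |(Real.sqrt (1 + t) - 1) - 1 / 2 * t - -(1 / 8) * t ^ 2| ≤ 1 * |t| ^ 3 := by
  obtain ⟨u, hu, htu, h1, h2⟩ := LogZ_sqrt ht
  have e1 : (Real.sqrt (1 + t) - 1) - 1 / 2 * t - -(1 / 8) * t ^ 2 = u ^ 3 * (1 / 2 + u / 8) := by
    rw [hu, htu]
    ring
  rw [e1, abs_mul, abs_pow]
  have h3 := LogZ_cube h1
  have h4 : |1 / 2 + u / 8| ≤ 1 := by
    rw [abs_le] at h2 ⊢
    constructor <;> linarith
  have := mul_le_mul h3 h4 (abs_nonneg _) (by positivity)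
  linarith

theorem LogZ_r4 {t : ℝ} (ht : |t| ≤ 1 / 2) :
    |(Real.sqrt (1 + t) - 1) ^ 2 - 0 * t - 1 / 4 * t ^ 2| ≤ 2 * |t| ^ 3 := by
  obtain ⟨u, hu, htu, h1, h2⟩ := LogZ_sqrt ht
  have e1 : (Real.sqrt (1 + t) - 1) ^ 2 - 0 * t - 1 / 4 * t ^ 2 = u ^ 3 * (-1 - u / 4) := by
    rw [hu, htu]
    ring
  rw [e1, abs_mul, abs_pow]
  have h3 := LogZ_cube h1
  have h4 : |-1 - u / 4| ≤ 2 := by
    rw [abs_le] at h2 ⊢
    constructor <;> linarith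
  have := mul_le_mul h3 h4 (abs_nonneg _) (by positivity)
  linarith

theorem LogZ_r5 {t : ℝ} (ht : |t| ≤ 1 / 2) :
    |(1 / Real.sqrt (1 + t) - 1) - -(1 / 2) * t - 3 / 8 * t ^ 2| ≤ 4 * |t| ^ 3 := by
  obtain ⟨u, hu, htu, h1, h2⟩ := LogZ_sqrt ht
  have h2' := abs_le.1 h2
  have hs : 0 < 1 + u := by linarith
  have e1 : (1 / Real.sqrt (1 + t) - 1) - -(1 / 2) * t - 3 / 8 * t ^ 2 =
      u ^ 3 * (-(1 / (1 + u)) - 3 / 2 - 3 / 8 * u) := by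
    rw [hu, htu]
    field_simp
    ring
  rw [e1, abs_mul, abs_pow]
  have h3 := LogZ_cube h1
  have h5 : 1 / (1 + u) ≤ 2 := by
    rw [div_le_iff₀ hs]
    linarith
  have h6 : 0 < 1 / (1 + u) := by positivity
  have h4 : |-(1 / (1 + u)) - 3 / 2 - 3 / 8 * u| ≤ 4 := by
    rw [abs_le]
    constructor <;> linarith
  have := mul_le_mul h3 h4 (abs_nonneg _) (by positivity)
  linarith

/-- general second order expansion in `t = ζ² - 1` -/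
theorem taylor_t (N : ℕ) (hN : 1 ≤ N) (a b K : ℝ) (hK : 0 ≤ K) :
    ∃ C h0 : ℝ, 0 < C ∧ 0 < h0 ∧ ∀ (h : ℝ) (ν : Measure (E N)), 0 < h → h < h0 → IsNoise h ν →
      ∀ e : E N, ‖e‖ = 1 → ∀ F : ℝ → ℝ, Measurable F →
        (∀ t : ℝ, |t| ≤ 1 / 2 → |F t - a * t - b * t ^ 2| ≤ K * |t| ^ 3) →
        |∫ ξ, F (‖e + Real.sqrt h • ξ‖ ^ 2 - 1) ∂ν - (a * N + 4 * b) * h| ≤ C * h ^ (9 / 8 : ℝ) := by
  refine ⟨|a| * N + 5 * |b| + 27 * K + 1, 1 / 1000, by positivity, by norm_num, ?_⟩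
  intro h ν hh0 hh1 hν e he F hFm hF
  have hprob := hν.prob
  obtain ⟨hl0, hl1, hl3, hl4, hh2⟩ := LogZ_ell hh0 hh1
  set ℓ : ℝ := h ^ (3 / 8 : ℝ) with hℓ
  have hNR : (1 : ℝ) ≤ N := by exact_mod_cast hN
  set t : E N → ℝ := fun ξ => ‖e + Real.sqrt h • ξ‖ ^ 2 - 1 with ht
  have hteq : ∀ ξ : E N, t ξ = 2 * Real.sqrt h * inner ℝ e ξ + h * ‖ξ‖ ^ 2 := by
    intro ξ
    show ‖e + Real.sqrt h • ξ‖ ^ 2 - 1 = _
    rw [norm_add_sq_real, he, inner_smul_right, norm_smul, mul_pow, Real.norm_eq_abs, sq_abs,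
      Real.sq_sqrt hh0.le]
    ring
  have hbdd := hν.bdd
  have hsq : ∀ ξ : E N, |inner ℝ e ξ| ≤ ‖ξ‖ := by
    intro ξ
    have := abs_real_inner_le_norm e ξ
    rw [he, one_mul] at this
    exact this
  have hs0 : 0 ≤ Real.sqrt h := Real.sqrt_nonneg h
  have htb : ∀ᵐ ξ ∂ν, |t ξ| ≤ 3 * ℓ := by
    filter_upwards [hbdd] with ξ hξ
    rw [hteq]
    have h1 : |2 * Real.sqrt h * inner ℝ e ξ| ≤ 2 * ℓ := by
      rw [abs_mul, abs_mul, abs_two, abs_of_nonneg hs0]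
      have := mul_le_mul_of_nonneg_left (hsq ξ) hs0
      nlinarith
    have h2 : |h * ‖ξ‖ ^ 2| ≤ ℓ := by
      rw [abs_of_nonneg (by positivity)]
      have e1 : h * ‖ξ‖ ^ 2 = (Real.sqrt h * ‖ξ‖) ^ 2 := by
        rw [mul_pow, Real.sq_sqrt hh0.le]
      rw [e1]
      have h3 : (Real.sqrt h * ‖ξ‖) ^ 2 ≤ ℓ ^ 2 :=
        pow_le_pow_left₀ (by positivity) hξ 2
      nlinarith
    calc _ ≤ _ := abs_add_le _ _
      _ ≤ 3 * ℓ := by linarith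
  have htc : Continuous t := by
    show Continuous fun ξ : E N => ‖e + Real.sqrt h • ξ‖ ^ 2 - 1
    fun_prop
  have hinner : Continuous fun ξ : E N => inner ℝ e ξ := by fun_prop
  -- bounds for the basic functions
  have hinv : 0 < Real.sqrt h := Real.sqrt_pos.2 hh0
  have hnb : ∀ᵐ ξ ∂ν, ‖ξ‖ ≤ ℓ / Real.sqrt h := by
    filter_upwards [hbdd] with ξ hξ
    rw [le_div_iff₀ hinv]
    linarith
  set R : ℝ := ℓ / Real.sqrt h with hR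
  have hR0 : 0 ≤ R := by positivity
  have iI : Integrable (fun ξ : E N => inner ℝ e ξ) ν := by
    refine Integrable.of_bound hinner.aestronglyMeasurable R ?_
    filter_upwards [hnb] with ξ hξ
    rw [Real.norm_eq_abs]
    exact (hsq ξ).trans hξ
  have iN2 : Integrable (fun ξ : E N => ‖ξ‖ ^ 2) ν := by
    refine Integrable.of_bound (by fun_prop : Continuous fun ξ : E N => ‖ξ‖ ^ 2).aestronglyMeasurable
      (R ^ 2) ?_
    filter_upwards [hnb] with ξ hξ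
    rw [Real.norm_eq_abs, abs_of_nonneg (by positivity)]
    exact pow_le_pow_left₀ (norm_nonneg _) hξ 2
  have iI2 : Integrable (fun ξ : E N => (inner ℝ e ξ) ^ 2) ν := by
    refine Integrable.of_bound (hinner.pow 2).aestronglyMeasurable (R ^ 2) ?_
    filter_upwards [hnb] with ξ hξ
    rw [Real.norm_eq_abs, abs_pow]
    exact pow_le_pow_left₀ (abs_nonneg _) ((hsq ξ).trans hξ) 2
  have iI3 : Integrable (fun ξ : E N => inner ℝ e ξ * ‖ξ‖ ^ 2) ν := by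
    refine Integrable.of_bound (hinner.mul (by fun_prop)).aestronglyMeasurable (R * R ^ 2) ?_
    filter_upwards [hnb] with ξ hξ
    rw [Real.norm_eq_abs, abs_mul, abs_of_nonneg (by positivity : 0 ≤ ‖ξ‖ ^ 2)]
    exact mul_le_mul ((hsq ξ).trans hξ) (pow_le_pow_left₀ (norm_nonneg _) hξ 2) (by positivity) hR0
  have iN4 : Integrable (fun ξ : E N => ‖ξ‖ ^ 4) ν := by
    refine Integrable.of_bound (by fun_prop : Continuous fun ξ : E N => ‖ξ‖ ^ 4).aestronglyMeasurable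
      (R ^ 4) ?_
    filter_upwards [hnb] with ξ hξ
    rw [Real.norm_eq_abs, abs_of_nonneg (by positivity)]
    exact pow_le_pow_left₀ (norm_nonneg _) hξ 4
  have it : Integrable t ν := by
    refine Integrable.of_bound htc.aestronglyMeasurable (3 * ℓ) ?_
    filter_upwards [htb] with ξ hξ
    rw [Real.norm_eq_abs]
    exact hξ
  have it2 : Integrable (fun ξ => t ξ ^ 2) ν := by
    refine Integrable.of_bound (htc.pow 2).aestronglyMeasurable ((3 * ℓ) ^ 2) ?_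
    filter_upwards [htb] with ξ hξ
    rw [Real.norm_eq_abs, abs_pow]
    exact pow_le_pow_left₀ (abs_nonneg _) hξ 2
  have hFt : ∀ᵐ ξ ∂ν, |F (t ξ) - a * t ξ - b * t ξ ^ 2| ≤ 27 * K * ℓ ^ 3 := by
    filter_upwards [htb] with ξ hξ
    refine (hF (t ξ) (by linarith)).trans ?_
    have h3 : |t ξ| ^ 3 ≤ (3 * ℓ) ^ 3 := pow_le_pow_left₀ (abs_nonneg _) hξ 3
    nlinarith
  have iD : Integrable (fun ξ => F (t ξ) - a * t ξ - b * t ξ ^ 2) ν := by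
    refine Integrable.of_bound ?_ (27 * K * ℓ ^ 3) ?_
    · exact (((hFm.comp htc.measurable).sub (htc.measurable.const_mul a)).sub
        ((htc.measurable.pow_const 2).const_mul b)).aestronglyMeasurable
    · filter_upwards [hFt] with ξ hξ
      rw [Real.norm_eq_abs]
      exact hξ
  have hI1 : |∫ ξ, (F (t ξ) - a * t ξ - b * t ξ ^ 2) ∂ν| ≤ 27 * K * ℓ ^ 3 := by
    have h1 := norm_integral_le_of_norm_le_const (μ := ν)
      (f := fun ξ => F (t ξ) - a * t ξ - b * t ξ ^ 2) (C := 27 * K * ℓ ^ 3)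
      (by filter_upwards [hFt] with ξ hξ; rw [Real.norm_eq_abs]; exact hξ)
    rw [Real.norm_eq_abs, probReal_univ, mul_one] at h1
    exact h1
  have hsplit : ∫ ξ, F (t ξ) ∂ν = ∫ ξ, (F (t ξ) - a * t ξ - b * t ξ ^ 2) ∂ν +
      a * ∫ ξ, t ξ ∂ν + b * ∫ ξ, t ξ ^ 2 ∂ν := by
    rw [← integral_const_mul, ← integral_const_mul, ← integral_add iD (it.const_mul a),
      ← integral_add (f := fun ξ => F (t ξ) - a * t ξ - b * t ξ ^ 2 + a * t ξ)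
        (g := fun ξ => b * t ξ ^ 2) (iD.add (it.const_mul a)) (it2.const_mul b)]
    refine integral_congr_ae (Filter.Eventually.of_forall fun ξ => ?_)
    show F (t ξ) = F (t ξ) - a * t ξ - b * t ξ ^ 2 + a * t ξ + b * t ξ ^ 2
    ring
  set m2 : ℝ := ∫ ξ, ‖ξ‖ ^ 2 ∂ν with hm2
  have hm2le : m2 ≤ N := hν.mom_le
  have hm2ge : (N : ℝ) * (1 - h) ≤ m2 := hν.le_mom
  have hIt : ∫ ξ, t ξ ∂ν = h * m2 := by
    have e1 : ∫ ξ, t ξ ∂ν = ∫ ξ, (2 * Real.sqrt h * inner ℝ e ξ + h * ‖ξ‖ ^ 2) ∂ν :=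
      integral_congr_ae (Filter.Eventually.of_forall fun ξ => hteq ξ)
    rw [e1, integral_add (iI.const_mul _) (iN2.const_mul _), integral_const_mul,
      integral_const_mul, noise_mean hh0 hν e]
    ring
  set m4 : ℝ := ∫ ξ, ‖ξ‖ ^ 4 ∂ν with hm4
  have hIt2 : ∫ ξ, t ξ ^ 2 ∂ν = 4 * h * (m2 / N) + h ^ 2 * m4 := by
    have e1 : ∫ ξ, t ξ ^ 2 ∂ν = ∫ ξ, (4 * h * (inner ℝ e ξ) ^ 2 +
        4 * h * Real.sqrt h * (inner ℝ e ξ * ‖ξ‖ ^ 2) + h ^ 2 * ‖ξ‖ ^ 4) ∂ν := by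
      refine integral_congr_ae (Filter.Eventually.of_forall fun ξ => ?_)
      simp only
      rw [hteq]
      have := Real.sq_sqrt hh0.le
      linear_combination (4 * (inner ℝ e ξ) ^ 2) * this
    rw [e1, integral_add (f := fun ξ : E N => 4 * h * (inner ℝ e ξ) ^ 2 +
        4 * h * Real.sqrt h * (inner ℝ e ξ * ‖ξ‖ ^ 2)) (g := fun ξ : E N => h ^ 2 * ‖ξ‖ ^ 4)
        ((iI2.const_mul _).add (iI3.const_mul _)) (iN4.const_mul _),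
      integral_add (iI2.const_mul _) (iI3.const_mul _), integral_const_mul, integral_const_mul,
      integral_const_mul, noise_odd3 hh0 hν e, noise_sq hh0 hN hν e, he]
    ring
  have hm4b : |h ^ 2 * m4| ≤ ℓ ^ 4 := by
    rw [hm4, ← integral_const_mul]
    have h1 := norm_integral_le_of_norm_le_const (μ := ν)
      (f := fun ξ : E N => h ^ 2 * ‖ξ‖ ^ 4) (C := ℓ ^ 4)
      (by
        filter_upwards [hbdd] with ξ hξ
        rw [Real.norm_eq_abs, abs_of_nonneg (by positivity)]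
        have e1 : h ^ 2 * ‖ξ‖ ^ 4 = (Real.sqrt h * ‖ξ‖) ^ 4 := by
          have := Real.sq_sqrt hh0.le
          calc h ^ 2 * ‖ξ‖ ^ 4 = (Real.sqrt h ^ 2) ^ 2 * ‖ξ‖ ^ 4 := by rw [this]
            _ = _ := by ring
        rw [e1]
        exact pow_le_pow_left₀ (by positivity) hξ 4)
    rw [Real.norm_eq_abs, probReal_univ, mul_one] at h1
    exact h1
  have hfinal : ∫ ξ, F (t ξ) ∂ν - (a * N + 4 * b) * h =
      ∫ ξ, (F (t ξ) - a * t ξ - b * t ξ ^ 2) ∂ν + a * (h * (m2 - N)) +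
        4 * b * (h * (m2 / N - 1)) + b * (h ^ 2 * m4) := by
    rw [hsplit, hIt, hIt2]
    ring
  show |∫ ξ, F (t ξ) ∂ν - (a * N + 4 * b) * h| ≤ _
  rw [hfinal]
  have b1 : |a * (h * (m2 - N))| ≤ |a| * N * ℓ ^ 3 := by
    rw [abs_mul, mul_assoc]
    refine mul_le_mul_of_nonneg_left ?_ (abs_nonneg a)
    rw [abs_mul, abs_of_pos hh0]
    have : |m2 - N| ≤ N * h := by
      rw [abs_le]
      constructor
      · linarith
      · have : 0 ≤ (N : ℝ) * h := by positivity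
        linarith
    calc h * |m2 - N| ≤ h * (N * h) := mul_le_mul_of_nonneg_left this hh0.le
      _ = N * h ^ 2 := by ring
      _ ≤ N * ℓ ^ 3 := mul_le_mul_of_nonneg_left hh2 (by positivity)
  have b2 : |4 * b * (h * (m2 / N - 1))| ≤ 4 * |b| * ℓ ^ 3 := by
    rw [abs_mul, abs_mul, abs_of_pos (by norm_num : (0 : ℝ) < 4)]
    refine mul_le_mul_of_nonneg_left ?_ (by positivity)
    rw [abs_mul, abs_of_pos hh0]
    have hN0 : (0 : ℝ) < N := by linarith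
    have : |m2 / N - 1| ≤ h := by
      rw [abs_le]
      constructor
      · rw [neg_le_sub_iff_le_add, ← sub_le_iff_le_add, le_div_iff₀ hN0]
        linarith
      · rw [sub_le_iff_le_add, div_le_iff₀ hN0]
        nlinarith
    calc h * |m2 / N - 1| ≤ h * h := mul_le_mul_of_nonneg_left this hh0.le
      _ = h ^ 2 := by ring
      _ ≤ ℓ ^ 3 := hh2
  have b3 : |b * (h ^ 2 * m4)| ≤ |b| * ℓ ^ 3 := by
    rw [abs_mul]
    refine mul_le_mul_of_nonneg_left (hm4b.trans ?_) (abs_nonneg b)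
    have : ℓ ^ 4 = ℓ ^ 3 * ℓ := by ring
    rw [this]
    have h3 : 0 ≤ ℓ ^ 3 := by positivity
    nlinarith
  have h9 : h ^ (9 / 8 : ℝ) = ℓ ^ 3 := hl3.symm
  rw [h9]
  have c1 := abs_add_le (∫ ξ, (F (t ξ) - a * t ξ - b * t ξ ^ 2) ∂ν + a * (h * (m2 - N)) +
        4 * b * (h * (m2 / N - 1))) (b * (h ^ 2 * m4))
  have c2 := abs_add_le (∫ ξ, (F (t ξ) - a * t ξ - b * t ξ ^ 2) ∂ν + a * (h * (m2 - N)))
        (4 * b * (h * (m2 / N - 1)))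
  have c3 := abs_add_le (∫ ξ, (F (t ξ) - a * t ξ - b * t ξ ^ 2) ∂ν) (a * (h * (m2 - N)))
  have h3 : 0 ≤ ℓ ^ 3 := by positivity
  nlinarith

theorem zeta_ae (N : ℕ) : ∃ h0 : ℝ, 0 < h0 ∧ h0 ≤ 1 / 1000 ∧
    ∀ (h : ℝ) (ν : Measure (E N)), 0 < h → h < h0 → IsNoise h ν →
      ∀ e : E N, ‖e‖ = 1 → ∀ᵐ ξ ∂ν,
        |‖e + Real.sqrt h • ξ‖ - 1| ≤ h ^ (3 / 8 : ℝ) ∧
        |Real.log ‖e + Real.sqrt h • ξ‖| ≤ 2 * h ^ (3 / 8 : ℝ) ∧ h ^ (3 / 8 : ℝ) ≤ 1 / 10 := by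
  refine ⟨1 / 1000, by norm_num, le_refl _, ?_⟩
  intro h ν hh0 hh1 hν e he
  obtain ⟨hl0, hl1, hl3, hl4, hh2⟩ := LogZ_ell hh0 hh1
  filter_upwards [hν.bdd] with ξ hξ
  have h1 : |‖e + Real.sqrt h • ξ‖ - 1| ≤ h ^ (3 / 8 : ℝ) := by
    have h2 := abs_norm_sub_norm_le (e + Real.sqrt h • ξ) e
    rw [he, add_sub_cancel_left, norm_smul, Real.norm_eq_abs, abs_of_nonneg (Real.sqrt_nonneg h)]
      at h2
    exact h2.trans hξ
  refine ⟨h1, ?_, hl1⟩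
  rw [abs_le] at h1
  have hz : 9 / 10 ≤ ‖e + Real.sqrt h • ξ‖ := by linarith [h1.1]
  have hz0 : 0 < ‖e + Real.sqrt h • ξ‖ := by linarith
  rw [abs_le]
  constructor
  · have h2 := Real.one_sub_inv_le_log_of_pos hz0
    have h3 : 1 - ‖e + Real.sqrt h • ξ‖⁻¹ = (‖e + Real.sqrt h • ξ‖ - 1) / ‖e + Real.sqrt h • ξ‖ := by
      field_simp
    rw [h3] at h2
    refine le_trans ?_ h2
    rw [le_div_iff₀ hz0]
    nlinarith [h1.1]
  · have h2 := Real.log_le_sub_one_of_pos hz0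
    linarith [h1.2]

theorem logz (N : ℕ) (hN : 1 ≤ N) :
    ∃ C h0 : ℝ, 0 < C ∧ 0 < h0 ∧ ∀ (h : ℝ) (ν : Measure (E N)), 0 < h → h < h0 → IsNoise h ν →
      ∀ e : E N, ‖e‖ = 1 →
        |∫ ξ, Real.log ‖e + Real.sqrt h • ξ‖ ∂ν - 1 / 2 * (N - 2) * h| ≤ C * h ^ (9 / 8 : ℝ) ∧
        |∫ ξ, (Real.log ‖e + Real.sqrt h • ξ‖) ^ 2 ∂ν - h| ≤ C * h ^ (9 / 8 : ℝ) ∧
        |∫ ξ, ‖e + Real.sqrt h • ξ‖ ∂ν - 1 - 1 / 2 * (N - 1) * h| ≤ C * h ^ (9 / 8 : ℝ) ∧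
        |∫ ξ, (‖e + Real.sqrt h • ξ‖ - 1) ^ 2 ∂ν - h| ≤ C * h ^ (9 / 8 : ℝ) ∧
        |∫ ξ, 1 / ‖e + Real.sqrt h • ξ‖ ∂ν - 1 - 1 / 2 * (3 - N) * h| ≤ C * h ^ (9 / 8 : ℝ) := by
  obtain ⟨h00, h00pos, h00le, hz⟩ := zeta_ae N
  obtain ⟨C1, h1, hC1, hh1, H1⟩ := taylor_t N hN (1 / 2) (-(1 / 4)) 1 (by norm_num)
  obtain ⟨C2, h2, hC2, hh2, H2⟩ := taylor_t N hN 0 (1 / 4) 2 (by norm_num)
  obtain ⟨C3, h3, hC3, hh3, H3⟩ := taylor_t N hN (1 / 2) (-(1 / 8)) 1 (by norm_num)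
  obtain ⟨C4, h4, hC4, hh4, H4⟩ := taylor_t N hN 0 (1 / 4) 2 (by norm_num)
  obtain ⟨C5, h5, hC5, hh5, H5⟩ := taylor_t N hN (-(1 / 2)) (3 / 8) 4 (by norm_num)
  refine ⟨C1 + C2 + C3 + C4 + C5, min h00 (min h1 (min h2 (min h3 (min h4 h5)))), by positivity,
    by positivity, ?_⟩
  intro h ν hh0 hlt hν e he
  simp only [lt_min_iff] at hlt
  obtain ⟨l0, l1, l2, l3, l4, l5⟩ := hlt
  have hprob := hν.prob
  have hpow : 0 < h ^ (9 / 8 : ℝ) := Real.rpow_pos_of_pos hh0 _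
  have hzz := hz h ν hh0 l0 hν e he
  have G1 := H1 h ν hh0 l1 hν e he (fun t => 1 / 2 * Real.log (1 + t))
    (by fun_prop) (fun t ht => LogZ_r1 ht)
  have G2 := H2 h ν hh0 l2 hν e he (fun t => (1 / 2 * Real.log (1 + t)) ^ 2)
    (by fun_prop) (fun t ht => LogZ_r2 ht)
  have G3 := H3 h ν hh0 l3 hν e he (fun t => Real.sqrt (1 + t) - 1)
    (by fun_prop) (fun t ht => LogZ_r3 ht)
  have G4 := H4 h ν hh0 l4 hν e he (fun t => (Real.sqrt (1 + t) - 1) ^ 2)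
    (by fun_prop) (fun t ht => LogZ_r4 ht)
  have G5 := H5 h ν hh0 l5 hν e he (fun t => 1 / Real.sqrt (1 + t) - 1)
    (by fun_prop) (fun t ht => LogZ_r5 ht)
  have e1 : ∀ ξ : E N, 1 / 2 * Real.log (1 + (‖e + Real.sqrt h • ξ‖ ^ 2 - 1)) =
      Real.log ‖e + Real.sqrt h • ξ‖ := by
    intro ξ
    rw [add_sub_cancel, Real.log_pow]
    push_cast
    ring
  have e2 : ∀ ξ : E N, Real.sqrt (1 + (‖e + Real.sqrt h • ξ‖ ^ 2 - 1)) =
      ‖e + Real.sqrt h • ξ‖ := by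
    intro ξ
    rw [add_sub_cancel, Real.sqrt_sq (norm_nonneg _)]
  simp only [e1, e2] at G1 G2 G3 G4 G5
  have iz : Integrable (fun ξ : E N => ‖e + Real.sqrt h • ξ‖) ν := by
    refine Integrable.of_bound (by fun_prop : Continuous fun ξ : E N =>
      ‖e + Real.sqrt h • ξ‖).aestronglyMeasurable 2 ?_
    filter_upwards [hzz] with ξ hξ
    rw [Real.norm_eq_abs, abs_of_nonneg (norm_nonneg _)]
    linarith [(abs_le.1 hξ.1).2, hξ.2.2]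
  have iz' : Integrable (fun ξ : E N => 1 / ‖e + Real.sqrt h • ξ‖) ν := by
    refine Integrable.of_bound ?_ 2 ?_
    · have hm : Measurable fun ξ : E N => ‖e + Real.sqrt h • ξ‖ :=
        (by fun_prop : Continuous fun ξ : E N => ‖e + Real.sqrt h • ξ‖).measurable
      exact (measurable_const.div hm).aestronglyMeasurable
    · filter_upwards [hzz] with ξ hξ
      rw [Real.norm_eq_abs, abs_of_nonneg (by positivity)]
      have : 9 / 10 ≤ ‖e + Real.sqrt h • ξ‖ := by linarith [(abs_le.1 hξ.1).1, hξ.2.2]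
      rw [div_le_iff₀ (by linarith)]
      linarith
  have i3 : ∫ ξ : E N, (‖e + Real.sqrt h • ξ‖ - 1) ∂ν = ∫ ξ : E N, ‖e + Real.sqrt h • ξ‖ ∂ν - 1 := by
    rw [integral_sub iz (integrable_const _), integral_const, probReal_univ, one_smul]
  have i5 : ∫ ξ : E N, (1 / ‖e + Real.sqrt h • ξ‖ - 1) ∂ν =
      ∫ ξ : E N, 1 / ‖e + Real.sqrt h • ξ‖ ∂ν - 1 := by
    rw [integral_sub iz' (integrable_const _), integral_const, probReal_univ, one_smul]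
  rw [i3] at G3
  rw [i5] at G5
  refine ⟨?_, ?_, ?_, ?_, ?_⟩
  · have e3 : (1 / 2 * (N : ℝ) + 4 * -(1 / 4)) * h = 1 / 2 * (N - 2) * h := by ring
    rw [e3] at G1
    nlinarith
  · have e3 : (0 * (N : ℝ) + 4 * (1 / 4)) * h = h := by ring
    rw [e3] at G2
    nlinarith
  · have e3 : (1 / 2 * (N : ℝ) + 4 * -(1 / 8)) * h = 1 / 2 * (N - 1) * h := by ring
    rw [e3] at G3
    nlinarith
  · have e3 : (0 * (N : ℝ) + 4 * (1 / 4)) * h = h := by ring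
    rw [e3] at G4
    nlinarith
  · have e3 : (-(1 / 2) * (N : ℝ) + 4 * (3 / 8)) * h = 1 / 2 * (3 - N) * h := by ring
    rw [e3] at G5
    nlinarith

end Dyn
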