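import Pool.Agent.Lib_MP_36b788.JMap
import Pool.Agent.Lib_MP_36b788.LogZ

/-!
# HATB: almost sure bounds for the one-site step of an alive state

PROOF. `ℓ = h^(3/8)`, `r = ‖g‖ ≤ rad β h`, so `r^β ≤ h^(-1/4)`, `h r^β ≤ h^(3/4) = ℓ²`.
`X = g + √h‖g‖ξ`, `‖X-g‖ ≤ ℓ r`, `‖J X - X‖ = h R^(1+β)`, `R = ‖J X‖ ≤ ‖X‖ ≤ (1+ℓ) r`, so
`h R^(1+β) ≤ h (2r)^β (1+ℓ) r ≤ 2^(β+1) ℓ² r ≤ ℓ r /2` for small `h`.
With `g = r e`, `R = ψ(r ζ)`, `R = rζ/(1+hR^β)`: `log R - log r = log ζ - log(1+hR^β)`.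
-/

open MeasureTheory

namespace Dyn

theorem rad_facts {β h r : ℝ} (hβ : 0 < β) (hh : 0 < h) (hh1 : h < 1) (hr0 : 0 ≤ r)
    (hr : r ≤ rad β h) :
    r ≤ h ^ (-(1 / 8) : ℝ) ∧ r ^ β ≤ h ^ (-(1 / 4) : ℝ) ∧ h * r ^ β ≤ h ^ (3 / 4 : ℝ) ∧
      h * r ≤ h ^ (7 / 8 : ℝ) := by
  have h1 : r ≤ h ^ (-(1 / 8) : ℝ) := hr.trans (min_le_left _ _)
  have h2 : r ≤ h ^ (-(1 / (4 * β)) : ℝ) := hr.trans (min_le_right _ _)
  have h3 : r ^ β ≤ h ^ (-(1 / 4) : ℝ) := by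
    have h4 := Real.rpow_le_rpow hr0 h2 hβ.le
    rw [← Real.rpow_mul hh.le] at h4
    have h5 : -(1 / (4 * β)) * β = -(1 / 4) := by field_simp
    rwa [h5] at h4
  refine ⟨h1, h3, ?_, ?_⟩
  · have h4 := mul_le_mul_of_nonneg_left h3 hh.le
    have h5 : h * h ^ (-(1 / 4) : ℝ) = h ^ (3 / 4 : ℝ) := by
      nth_rw 1 [← Real.rpow_one h]
      rw [← Real.rpow_add hh]
      norm_num
    rwa [h5] at h4
  · have h4 := mul_le_mul_of_nonneg_left h1 hh.le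
    have h5 : h * h ^ (-(1 / 8) : ℝ) = h ^ (7 / 8 : ℝ) := by
      nth_rw 1 [← Real.rpow_one h]
      rw [← Real.rpow_add hh]
      norm_num
    rwa [h5] at h4

theorem hat_bounds (N : ℕ) (β : ℝ) (hβ : 0 < β) :
    ∃ h0 : ℝ, 0 < h0 ∧ h0 ≤ 1 / 1000 ∧ ∀ (h : ℝ) (ν : Measure (E N)), 0 < h → h < h0 → IsNoise h ν →
      ∀ g : E N, ‖g‖ ≤ rad β h → ∀ᵐ ξ ∂ν,
        ‖hat β h g ξ - g‖ ≤ 2 * h ^ (3 / 8 : ℝ) * ‖g‖ ∧
        (1 - 2 * h ^ (3 / 8 : ℝ)) * ‖g‖ ≤ ‖hat β h g ξ‖ ∧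
        ‖hat β h g ξ‖ ≤ (1 + h ^ (3 / 8 : ℝ)) * ‖g‖ ∧
        (g ≠ 0 → |Real.log ‖hat β h g ξ‖ - Real.log ‖g‖| ≤ 3 * h ^ (3 / 8 : ℝ)) ∧
        h ^ (3 / 8 : ℝ) ≤ 1 / 10 := by
  have h2β : (0 : ℝ) < 2 ^ β := Real.rpow_pos_of_pos two_pos _
  set c : ℝ := min (1 / 10) (1 / (4 * 2 ^ β)) with hc
  have hc0 : 0 < c := lt_min (by norm_num) (by positivity)
  refine ⟨min (1 / 1000) (c ^ (8 / 3 : ℝ)), lt_min (by norm_num) (Real.rpow_pos_of_pos hc0 _),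
    min_le_left _ _, ?_⟩
  intro h ν hh hh0 hν g hg
  have hh1 : h < 1 := lt_of_lt_of_le hh0 ((min_le_left _ _).trans (by norm_num))
  have hhc : h ≤ c ^ (8 / 3 : ℝ) := hh0.le.trans (min_le_right _ _)
  set l : ℝ := h ^ (3 / 8 : ℝ) with hl
  have hl0 : 0 < l := Real.rpow_pos_of_pos hh _
  have hlc : l ≤ c := by
    have h1 := Real.rpow_le_rpow hh.le hhc (by norm_num : (0 : ℝ) ≤ 3 / 8)
    rw [← Real.rpow_mul hc0.le] at h1
    norm_num at h1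
    exact h1
  have hl1 : l ≤ 1 / 10 := hlc.trans (min_le_left _ _)
  have hl2 : 4 * 2 ^ β * l ≤ 1 := by
    have h1 : l ≤ 1 / (4 * 2 ^ β) := hlc.trans (min_le_right _ _)
    rw [le_div_iff₀ (by positivity)] at h1
    linarith
  have hll : l ^ 2 = h ^ (3 / 4 : ℝ) := by
    rw [hl, ← Real.rpow_natCast, ← Real.rpow_mul hh.le]
    norm_num
  set r : ℝ := ‖g‖ with hr
  have hr0 : 0 ≤ r := norm_nonneg g
  obtain ⟨-, -, hrβ, -⟩ := rad_facts hβ hh hh1 hr0 hg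
  filter_upwards [hν.bdd] with ξ hξ
  have hsq : 0 ≤ Real.sqrt h := Real.sqrt_nonneg h
  set X : E N := g + (Real.sqrt h * ‖g‖) • ξ with hX
  have hXg : ‖X - g‖ ≤ l * r := by
    rw [hX, add_sub_cancel_left, norm_smul, Real.norm_eq_abs,
      abs_of_nonneg (mul_nonneg hsq (norm_nonneg g))]
    calc Real.sqrt h * ‖g‖ * ‖ξ‖ = (Real.sqrt h * ‖ξ‖) * r := by rw [hr]; ring
      _ ≤ l * r := mul_le_mul_of_nonneg_right hξ hr0
  have hXn : ‖X‖ ≤ (1 + l) * r := by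
    have h1 : ‖X‖ ≤ ‖X - g‖ + ‖g‖ := by
      have := norm_add_le (X - g) g
      rwa [sub_add_cancel] at this
    have h2 : (1 + l) * r = l * r + r := by ring
    rw [h2]
    linarith
  have hhat : hat β h g ξ = J β h X := rfl
  rw [hhat]
  set u : E N := J β h X with hu
  have huX : ‖u‖ ≤ ‖X‖ := by
    rw [hu, norm_J hβ hh.le]
    exact psi_le hβ hh.le (norm_nonneg _)
  have hur : ‖u‖ ≤ (1 + l) * r := huX.trans hXn
  have hu2 : ‖u‖ ≤ 2 * r := hur.trans (mul_le_mul_of_nonneg_right (by linarith) hr0)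
  have huβ : h * ‖u‖ ^ β ≤ l / 4 := by
    have h1 : ‖u‖ ^ β ≤ 2 ^ β * r ^ β := by
      rw [← Real.mul_rpow (by norm_num) hr0]
      exact Real.rpow_le_rpow (norm_nonneg _) hu2 hβ.le
    calc h * ‖u‖ ^ β ≤ h * (2 ^ β * r ^ β) := mul_le_mul_of_nonneg_left h1 hh.le
      _ = 2 ^ β * (h * r ^ β) := by ring
      _ ≤ 2 ^ β * l ^ 2 := by
        rw [hll]
        exact mul_le_mul_of_nonneg_left hrβ h2β.le
      _ = (4 * 2 ^ β * l) * (l / 4) := by ring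
      _ ≤ 1 * (l / 4) := mul_le_mul_of_nonneg_right hl2 (by positivity)
      _ = l / 4 := one_mul _
  have hXu : ‖u - X‖ ≤ l * r / 2 := by
    have h1 : u - X = -((h * ‖u‖ ^ β) • u) := by
      have h2 := J_eq hβ hh.le X
      rw [← hu] at h2
      rw [← h2]
      abel
    rw [h1, norm_neg, norm_smul, Real.norm_eq_abs,
      abs_of_nonneg (mul_nonneg hh.le (Real.rpow_nonneg (norm_nonneg _) _))]
    calc h * ‖u‖ ^ β * ‖u‖ ≤ l / 4 * (2 * r) :=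
          mul_le_mul huβ hu2 (norm_nonneg _) (by positivity)
      _ = l * r / 2 := by ring
  have hug : ‖u - g‖ ≤ 2 * l * r := by
    have h1 : ‖u - g‖ ≤ ‖u - X‖ + ‖X - g‖ := by
      have := norm_add_le (u - X) (X - g)
      rwa [sub_add_sub_cancel] at this
    have h2 : 0 ≤ l * r := mul_nonneg hl0.le hr0
    linarith
  have hlow : (1 - 2 * l) * r ≤ ‖u‖ := by
    have h1 : ‖g‖ ≤ ‖u‖ + ‖u - g‖ := by
      have := norm_sub_le u (u - g)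
      rwa [sub_sub_cancel] at this
    rw [← hr] at h1
    linarith
  refine ⟨hug, hlow, hur, ?_, hl1⟩
  intro hg0
  have hrpos : 0 < r := norm_pos_iff.2 hg0
  have h12 : 0 < 1 - 2 * l := by linarith
  have hupos : 0 < ‖u‖ := lt_of_lt_of_le (mul_pos h12 hrpos) hlow
  rw [abs_le]
  constructor
  · have h1 := Real.log_le_log (mul_pos h12 hrpos) hlow
    rw [Real.log_mul h12.ne' hrpos.ne'] at h1
    have h2 := Real.one_sub_inv_le_log_of_pos h12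
    have h3 : (1 - 2 * l)⁻¹ ≤ 1 + 3 * l := by
      rw [inv_le_iff_one_le_mul₀ h12]
      nlinarith
    linarith
  · have h1 := Real.log_le_log hupos hur
    have h4 : (0 : ℝ) < 1 + l := by linarith
    rw [Real.log_mul h4.ne' hrpos.ne'] at h1
    have h2 := Real.log_le_sub_one_of_pos h4
    linarith

end Dyn
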