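import Pool.Agent.Lib_MP_36b788.CorrDefs
import Pool.Agent.Lib_MP_36b788.HatB

/-!
# CVAR: lower bound for the quadratic form of the corrector increment (N ≥ 3)

`D = cfull y (hat g ξ) - cfull y g`, `g = r e ≠ 0` alive. CLAIM: for `‖a‖ ≤ 1`
`∫ (‖D‖² - 2⟪a,D⟫²) ≥ ½ h [ (δ(β-1) r (1+r)^(-β))² + ⟪a, cfull y g⟫² ] - C h^(9/8)`.

PROOF. `q = e+√hξ = ζê`, `R = ψ(rζ)`, `D = y(R)ê - y(r)e`. `α = ⟪e,D⟫ = y(R)cos φ - y(r)`,
`D_⊥ = y(R)√hξ_⊥/ζ`. By axis symmetry (NMOM), for `a = a₁e + a_⊥`: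
`∫⟪a,D⟫² = a₁² p + ‖a_⊥‖² t`, `p = ∫α²`, `t = ∫‖D_⊥‖²/(N-1)`; `∫‖D‖² = p + (N-1)t`. As
`‖a_⊥‖² ≤ 1-a₁²` and `N ≥ 3`: LHS `≥ p + (N-3) t + 2a₁²(t-p) ≥ p + 2a₁²(t-p)`.
(i) `p ≤ t + C h^(9/8)`: `|y(R)-y(r)| ≤ y(r)|R/r-1|` (`y` nondecreasing and `y(r)/r` nonincreasing;
for `R ≥ r` `y(R) ≤ y(r)R/r`, for `R ≤ r` `y(R) ≥ y(r) R/r`), `R/r = ζ/(1+hR^β)`,
`|R/r-1| ≤ |ζ-1| + C h^(3/4)`; `0 ≤ 1-cos φ ≤ h‖ξ_⊥‖²/ζ² ≤ 2ℓ²`; `y ≤ 2Cy` (alive: `h r ≤ 1`).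
So `p ≤ y(r)²(∫(ζ-1)² + C h^(9/8)) ≤ y(r)²h + C h^(9/8)` (LOGZ), and
`t = ∫y(R)² h‖ξ_⊥‖²/ζ²/(N-1) ≥ y(r)²(1-Cℓ) h v ≥ y(r)²h - C h^(9/8)`.
(ii) hence LHS `≥ ½(p + a₁²t) - C h^(9/8)`: if `t ≥ p`, `p+2a₁²(t-p)` is `≥ p` and `≥ a₁²t`
(it equals `p(1-2a₁²)+2a₁²t`, and `p(1-2a₁²)+a₁²t ≥ 0`); if `t < p` use (i).
(iii) `a₁²t ≥ h a₁²y(r)² - C h^(9/8)` and `a₁ y(r) = ⟪a,cfull y g⟫`.
(iv) `p ≥ h(δ(β-1)r(1+r)^(-β))² - C h^(9/8)`: `|α| ≥ |y(R)-y(r)| - 4Cyℓ²`,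
`|y(R)-y(r)| ≥ δ|ϑ(R)-ϑ(r)| ≥ δ(β-1)(1+max(r,R))^(-β)|R-r|`, `|R-r| ≥ r(|ζ-1| - C h^(3/4))`,
`(1+max(r,R))^(-β) ≥ (1+r)^(-β)(1-Cℓ)`, and `r(1+r)^(-β) ≤ 1`; square and use `∫(ζ-1)² ≥ h - C h^(9/8)`,
all cross terms are `O(ℓ·ℓ²)`.
-/

open MeasureTheory

namespace Dyn

/-- bounded measurable functions -/
private def CVarB {N : ℕ} (ν : Measure (E N)) (f : E N → ℝ) : Prop :=
  AEStronglyMeasurable f ν ∧ ∃ C, ∀ᵐ ξ ∂ν, ‖f ξ‖ ≤ C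

private theorem CVarB.int {N : ℕ} {ν : Measure (E N)} [IsProbabilityMeasure ν] {f : E N → ℝ}
    (hf : CVarB ν f) : Integrable f ν := by
  obtain ⟨h1, C, h2⟩ := hf
  exact Integrable.of_bound h1 C h2

private theorem CVarB.mul {N : ℕ} {ν : Measure (E N)} {f g : E N → ℝ}
    (hf : CVarB ν f) (hg : CVarB ν g) : CVarB ν (fun ξ => f ξ * g ξ) := by
  obtain ⟨h1, C, h2⟩ := hf
  obtain ⟨h3, C', h4⟩ := hg
  refine ⟨h1.mul h3, C * C', ?_⟩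
  filter_upwards [h2, h4] with ξ h5 h6
  rw [norm_mul]
  exact mul_le_mul h5 h6 (norm_nonneg _) ((norm_nonneg _).trans h5)

private theorem CVarB.add {N : ℕ} {ν : Measure (E N)} {f g : E N → ℝ}
    (hf : CVarB ν f) (hg : CVarB ν g) : CVarB ν (fun ξ => f ξ + g ξ) := by
  obtain ⟨h1, C, h2⟩ := hf
  obtain ⟨h3, C', h4⟩ := hg
  refine ⟨h1.add h3, C + C', ?_⟩
  filter_upwards [h2, h4] with ξ h5 h6
  exact (norm_add_le _ _).trans (add_le_add h5 h6)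

private theorem CVarB.sub {N : ℕ} {ν : Measure (E N)} {f g : E N → ℝ}
    (hf : CVarB ν f) (hg : CVarB ν g) : CVarB ν (fun ξ => f ξ - g ξ) := by
  obtain ⟨h1, C, h2⟩ := hf
  obtain ⟨h3, C', h4⟩ := hg
  refine ⟨h1.sub h3, C + C', ?_⟩
  filter_upwards [h2, h4] with ξ h5 h6
  exact (norm_sub_le _ _).trans (add_le_add h5 h6)

private theorem CVarB.const {N : ℕ} (ν : Measure (E N)) (c : ℝ) : CVarB ν (fun _ => c) :=
  ⟨aestronglyMeasurable_const, ‖c‖, Filter.Eventually.of_forall fun _ => le_rfl⟩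

private theorem CVarB.sq {N : ℕ} {ν : Measure (E N)} {f : E N → ℝ}
    (hf : CVarB ν f) : CVarB ν (fun ξ => f ξ ^ 2) := by
  have := hf.mul hf
  simpa only [pow_two] using this

private theorem CVarB.nrm {N : ℕ} {h : ℝ} {ν : Measure (E N)} (hh : 0 < h) (hν : IsNoise h ν) :
    CVarB ν (fun ξ => ‖ξ‖) := by
  refine ⟨continuous_norm.aestronglyMeasurable, h ^ (3 / 8 : ℝ) / Real.sqrt h, ?_⟩
  filter_upwards [hν.bdd] with ξ hξ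
  rw [norm_norm, le_div_iff₀ (Real.sqrt_pos.2 hh), mul_comm]
  exact hξ

private theorem CVarB.innr {N : ℕ} {h : ℝ} {ν : Measure (E N)} (hh : 0 < h) (hν : IsNoise h ν)
    (a : E N) : CVarB ν (fun ξ => inner ℝ a ξ) := by
  obtain ⟨-, C, hC⟩ := CVarB.nrm hh hν
  refine ⟨(by fun_prop : Continuous fun ξ : E N => inner ℝ a ξ).aestronglyMeasurable, ‖a‖ * C, ?_⟩
  filter_upwards [hC] with ξ hξ
  rw [norm_norm] at hξ
  exact (norm_inner_le_norm _ _).trans (mul_le_mul_of_nonneg_left hξ (norm_nonneg _))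

/-- the decomposition along the axis -/
private theorem CVar_axis {N : ℕ} (hN : 3 ≤ N) {h : ℝ} {ν : Measure (E N)} (hh : 0 < h)
    (hν : IsNoise h ν) (e : E N) (he : ‖e‖ = 1) (G : ℝ → ℝ → ℝ)
    (hG : CVarB ν (fun ξ => G (inner ℝ e ξ) ‖ξ‖)) (Y : ℝ) (a : E N) (ha : ‖a‖ ≤ 1) (p t : ℝ)
    (hp : p = ∫ ξ, (G (inner ℝ e ξ) ‖ξ‖ * (1 + Real.sqrt h * inner ℝ e ξ) - Y) ^ 2 ∂ν)
    (ht : t = h / (N - 1) * ∫ ξ, (G (inner ℝ e ξ) ‖ξ‖) ^ 2 * (‖ξ‖ ^ 2 - (inner ℝ e ξ) ^ 2) ∂ν)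
    (ht0 : 0 ≤ t) (D : E N → E N)
    (hD : ∀ᵐ ξ ∂ν, D ξ = G (inner ℝ e ξ) ‖ξ‖ • (e + Real.sqrt h • ξ) - Y • e) :
    p + 2 * (inner ℝ a e) ^ 2 * (t - p) ≤
      ∫ ξ, (‖D ξ‖ ^ 2 - 2 * (inner ℝ a (D ξ)) ^ 2) ∂ν := by
  have hprob := hν.prob
  obtain ⟨s, hs⟩ : ∃ s : ℝ, s = Real.sqrt h := ⟨_, rfl⟩
  have hs2 : s ^ 2 = h := by rw [hs, Real.sq_sqrt hh.le]
  obtain ⟨b, hb⟩ : ∃ b : E N, b = a - (inner ℝ a e : ℝ) • e := ⟨_, rfl⟩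
  obtain ⟨a₁, ha₁⟩ : ∃ a₁ : ℝ, a₁ = inner ℝ a e := ⟨_, rfl⟩
  have hee : (inner ℝ e e : ℝ) = 1 := by rw [real_inner_self_eq_norm_sq, he]; norm_num
  have hbe : (inner ℝ b e : ℝ) = 0 := by
    rw [hb, inner_sub_left, real_inner_smul_left, hee]; ring
  have hab : a = a₁ • e + b := by rw [hb, ha₁]; abel
  have hbn : ‖b‖ ^ 2 = ‖a‖ ^ 2 - a₁ ^ 2 := by
    have h1 : ‖a‖ ^ 2 = a₁ ^ 2 + ‖b‖ ^ 2 := by
      rw [hab, norm_add_sq_real, norm_smul, he, real_inner_smul_left, real_inner_comm, hbe,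
        Real.norm_eq_abs, mul_one, sq_abs]
      ring
    linarith
  -- abbreviations
  obtain ⟨g, hg⟩ : ∃ g : E N → ℝ, g = fun ξ => G (inner ℝ e ξ) ‖ξ‖ := ⟨_, rfl⟩
  obtain ⟨x, hx⟩ : ∃ x : E N → ℝ, x = fun ξ => inner ℝ e ξ := ⟨_, rfl⟩
  obtain ⟨α, hα⟩ : ∃ α : E N → ℝ, α = fun ξ => g ξ * (1 + s * x ξ) - Y := ⟨_, rfl⟩
  have hgB : CVarB ν g := by rw [hg]; exact hG
  have hxB : CVarB ν x := by rw [hx]; exact CVarB.innr hh hν e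
  have hnB : CVarB ν (fun ξ => ‖ξ‖) := CVarB.nrm hh hν
  have hbB : CVarB ν (fun ξ => (inner ℝ b ξ : ℝ)) := CVarB.innr hh hν b
  have hαB : CVarB ν α := by
    rw [hα]
    exact (hgB.mul ((CVarB.const ν 1).add ((CVarB.const ν s).mul hxB))).sub (CVarB.const ν Y)
  -- pointwise identity
  have hpt : ∀ᵐ ξ ∂ν, ‖D ξ‖ ^ 2 - 2 * (inner ℝ a (D ξ)) ^ 2 =
      (1 - 2 * a₁ ^ 2) * (α ξ) ^ 2 + h * ((g ξ) ^ 2 * (‖ξ‖ ^ 2 - (x ξ) ^ 2)) -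
        4 * a₁ * s * (α ξ * g ξ * inner ℝ b ξ) - 2 * h * ((g ξ) ^ 2 * (inner ℝ b ξ) ^ 2) := by
    filter_upwards [hD] with ξ hξ
    have h0 : D ξ = g ξ • (e + s • ξ) - Y • e := by rw [hξ, hg, hs]
    have hxe : (inner ℝ ξ e : ℝ) = x ξ := by rw [hx]; exact real_inner_comm _ _
    have hex : (inner ℝ e ξ : ℝ) = x ξ := by rw [hx]
    have h1 : ‖D ξ‖ ^ 2 = (α ξ) ^ 2 + h * ((g ξ) ^ 2 * (‖ξ‖ ^ 2 - (x ξ) ^ 2)) := by
      rw [← real_inner_self_eq_norm_sq, h0]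
      simp only [inner_sub_left, inner_sub_right, inner_add_left, inner_add_right,
        real_inner_smul_left, real_inner_smul_right, hee, hxe, hex, hα]
      rw [real_inner_self_eq_norm_sq, ← hs2]
      ring
    have h2 : (inner ℝ a (D ξ) : ℝ) = a₁ * α ξ + s * g ξ * inner ℝ b ξ := by
      rw [hab, h0]
      simp only [inner_sub_right, inner_add_left, inner_add_right,
        real_inner_smul_left, real_inner_smul_right, hee, hex, hbe, hα]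
      ring
    rw [h1, h2, ← hs2]
    ring
  rw [integral_congr_ae hpt]
  have i1 : Integrable (fun ξ => (1 - 2 * a₁ ^ 2) * (α ξ) ^ 2) ν := (hαB.sq).int.const_mul _
  have i2B : CVarB ν (fun ξ => (g ξ) ^ 2 * (‖ξ‖ ^ 2 - (x ξ) ^ 2)) :=
    hgB.sq.mul (hnB.sq.sub hxB.sq)
  have i2 : Integrable (fun ξ => h * ((g ξ) ^ 2 * (‖ξ‖ ^ 2 - (x ξ) ^ 2))) ν := i2B.int.const_mul _
  have i3B : CVarB ν (fun ξ => α ξ * g ξ * inner ℝ b ξ) := (hαB.mul hgB).mul hbB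
  have i3 : Integrable (fun ξ => 4 * a₁ * s * (α ξ * g ξ * inner ℝ b ξ)) ν := i3B.int.const_mul _
  have i4B : CVarB ν (fun ξ => (g ξ) ^ 2 * (inner ℝ b ξ) ^ 2) := hgB.sq.mul hbB.sq
  have i4 : Integrable (fun ξ => 2 * h * ((g ξ) ^ 2 * (inner ℝ b ξ) ^ 2)) ν := i4B.int.const_mul _
  have i12 : Integrable (fun ξ => (1 - 2 * a₁ ^ 2) * (α ξ) ^ 2 +
      h * ((g ξ) ^ 2 * (‖ξ‖ ^ 2 - (x ξ) ^ 2))) ν := i1.add i2
  have i123 : Integrable (fun ξ => (1 - 2 * a₁ ^ 2) * (α ξ) ^ 2 +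
      h * ((g ξ) ^ 2 * (‖ξ‖ ^ 2 - (x ξ) ^ 2)) - 4 * a₁ * s * (α ξ * g ξ * inner ℝ b ξ)) ν :=
    i12.sub i3
  rw [integral_sub i123 i4, integral_sub i12 i3, integral_add i1 i2, integral_const_mul,
    integral_const_mul, integral_const_mul, integral_const_mul]
  -- the cross term
  have hcross : ∫ ξ, α ξ * g ξ * inner ℝ b ξ ∂ν = 0 := by
    have hF : Integrable (fun ξ : E N => (fun u n => (G u n * (1 + s * u) - Y) * G u n)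
        (inner ℝ e ξ) ‖ξ‖ • ξ) ν := by
      obtain ⟨hm, C, hC⟩ := hαB.mul hgB
      obtain ⟨-, C', hC'⟩ := hnB
      refine Integrable.of_bound ?_ (C * C') ?_
      · have : AEStronglyMeasurable (fun ξ : E N => ξ) ν := aestronglyMeasurable_id
        have h2 := hm.smul this
        rw [hα, hg, hx] at h2
        exact h2
      · filter_upwards [hC, hC'] with ξ h5 h6
        rw [norm_smul]
        rw [norm_norm] at h6
        rw [hα, hg, hx] at h5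
        exact mul_le_mul h5 h6 (norm_nonneg _) ((norm_nonneg _).trans h5)
    have h1 := noise_axis hh hν e he (fun u n => (G u n * (1 + s * u) - Y) * G u n) hF
    have h2 := congrArg (fun v => (inner ℝ b v : ℝ)) h1
    rw [real_inner_smul_right, hbe, mul_zero, ← integral_inner hF] at h2
    rw [← h2]
    refine integral_congr_ae (Filter.Eventually.of_forall fun ξ => ?_)
    simp only
    rw [real_inner_smul_right, hα, hg, hx]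
  have hsq : ∫ ξ, (g ξ) ^ 2 * (inner ℝ b ξ) ^ 2 ∂ν = ‖b‖ ^ 2 / (N - 1) *
      ∫ ξ, (g ξ) ^ 2 * (‖ξ‖ ^ 2 - (x ξ) ^ 2) ∂ν := by
    have hF : Integrable (fun ξ : E N => (fun u n => (G u n) ^ 2) (inner ℝ e ξ) ‖ξ‖ * ‖ξ‖ ^ 2) ν := by
      have := (hgB.sq.mul hnB.sq).int
      rw [hg] at this
      exact this
    have h1 := noise_axis_sq hh (by omega) hν e he (fun u n => (G u n) ^ 2) hF b hbe
    rw [hg, hx]
    exact h1
  rw [hcross, hsq, mul_zero, sub_zero]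
  have hpp : ∫ ξ, (α ξ) ^ 2 ∂ν = p := by rw [hp, hα, hg, hx, hs]
  obtain ⟨T, hT⟩ : ∃ T : ℝ, T = ∫ ξ, (g ξ) ^ 2 * (‖ξ‖ ^ 2 - (x ξ) ^ 2) ∂ν := ⟨_, rfl⟩
  have htT : t = h / (N - 1) * T := by rw [ht, hT, hg, hx]
  rw [hpp, ← hT, ← ha₁]
  have hN1 : (0 : ℝ) < (N : ℝ) - 1 := by
    have : (3 : ℝ) ≤ N := by exact_mod_cast hN
    linarith
  have e1 : h * T = (N - 1) * t := by rw [htT]; field_simp
  have e2 : 2 * h * (‖b‖ ^ 2 / (N - 1) * T) = 2 * ‖b‖ ^ 2 * t := by rw [htT]; field_simp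
  rw [e1, e2, hbn]
  have hN3 : (3 : ℝ) ≤ N := by exact_mod_cast hN
  have ha2 : ‖a‖ ^ 2 ≤ 1 := by
    have := norm_nonneg a
    exact pow_le_one₀ this ha
  have h7 : 0 ≤ ((N : ℝ) - 3) * t := mul_nonneg (by linarith) ht0
  have h8 : ‖a‖ ^ 2 * t ≤ 1 * t := mul_le_mul_of_nonneg_right ha2 ht0
  linarith


private theorem CVar_final (A Y Z p t c : ℝ) (hA0 : 0 ≤ A) (hA1 : A ≤ 1) (hc : 0 ≤ c) (hY : 0 ≤ Y)
    (hZ : 0 ≤ Z) (h1 : p ≤ Y + c) (h2 : Y - c ≤ t) (h3 : Z - c ≤ p) :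
    1 / 2 * (Z + A * Y) - 4 * c ≤ p + 2 * A * (t - p) := by
  have h4 : Z ≤ Y + 2 * c := by linarith
  have h5 : 2 * A * (Y - c) ≤ 2 * A * t := mul_le_mul_of_nonneg_left h2 (by linarith)
  rcases le_or_gt A (1 / 2) with hA | hA
  · have h6 : (1 - 2 * A) * (Z - c) ≤ (1 - 2 * A) * p :=
      mul_le_mul_of_nonneg_left h3 (by linarith)
    rcases le_or_gt A (1 / 4) with hA' | hA'
    · have h7 : 0 ≤ (1 / 2 - 2 * A) * Z := mul_nonneg (by linarith) hZ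
      have h8 : 0 ≤ A * Y := mul_nonneg hA0 hY
      linarith
    · have h7 : (2 * A - 1 / 2) * Z ≤ (2 * A - 1 / 2) * (Y + 2 * c) :=
        mul_le_mul_of_nonneg_left h4 (by linarith)
      have h8 : 0 ≤ (1 / 2 - 1 / 2 * A) * Y := mul_nonneg (by linarith) hY
      have h9 : A * c ≤ 1 / 2 * c := mul_le_mul_of_nonneg_right hA hc
      linarith
  · have h6 : (2 * A - 1) * p ≤ (2 * A - 1) * (Y + c) :=
      mul_le_mul_of_nonneg_left h1 (by linarith)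
    have h7 : A * Y ≤ 1 * Y := mul_le_mul_of_nonneg_right hA1 hY
    have h8 : A * c ≤ 1 * c := mul_le_mul_of_nonneg_right hA1 hc
    linarith

private theorem CVar_th {β : ℝ} (hβ : 1 < β) {r1 r2 : ℝ} (h0 : 0 ≤ r1) (h1 : r1 ≤ r2) :
    (β - 1) * (1 + r2) ^ (-β) * (r2 - r1) ≤ th (β - 1) r2 - th (β - 1) r1 := by
  unfold th
  have hp1 : 0 < 1 + r1 := by linarith
  have hp2 : 0 < 1 + r2 := by linarith
  obtain ⟨z, hz⟩ : ∃ z : ℝ, z = (1 + r1) / (1 + r2) := ⟨_, rfl⟩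
  have hz0 : 0 < z := by rw [hz]; positivity
  have e1 : (1 + r1) ^ (-(β - 1)) = (1 + r2) ^ (-(β - 1)) * z ^ (-(β - 1)) := by
    rw [← Real.mul_rpow hp2.le hz0.le, hz]
    congr 1
    field_simp
  have e2 : 1 + (β - 1) * (1 - z) ≤ z ^ (-(β - 1)) := by
    rw [Real.rpow_def_of_pos hz0]
    have h2 := Real.add_one_le_exp (Real.log z * -(β - 1))
    have h3 := Real.log_le_sub_one_of_pos hz0
    have h4 : (β - 1) * Real.log z ≤ (β - 1) * (z - 1) :=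
      mul_le_mul_of_nonneg_left h3 (by linarith)
    linarith
  have e3 : (1 + r2) ^ (-β) * (1 + r2) = (1 + r2) ^ (-(β - 1)) := by
    rw [← Real.rpow_add_one hp2.ne']
    congr 1
    ring
  have e4 : 0 < (1 + r2) ^ (-(β - 1)) := Real.rpow_pos_of_pos hp2 _
  have e5 : (1 + r2) * (1 - z) = r2 - r1 := by rw [hz]; field_simp; ring
  have e6 : (β - 1) * (1 + r2) ^ (-β) * (r2 - r1) =
      (1 + r2) ^ (-(β - 1)) * ((β - 1) * (1 - z)) := by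
    rw [← e3, ← e5]; ring
  rw [e6, e1]
  have e7 := mul_le_mul_of_nonneg_left e2 e4.le
  linarith

/-- bounds for the corrector profile -/
private theorem CVar_abs {y : ℝ → ℝ} (hy : Prof y) {r R : ℝ} (hr : 0 < r) (hR : 0 < R) :
    |y R - y r| ≤ y r * |R / r - 1| := by
  rcases le_total r R with h | h
  · have h1 := hy.ratio r R hr h
    have h2 := hy.mono h
    have h3 : 0 ≤ R / r - 1 := by rw [sub_nonneg, one_le_div hr]; exact h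
    rw [abs_of_nonneg (by linarith), abs_of_nonneg h3]
    have h4 : y R ≤ y r * (R / r) := by
      rw [← mul_div_assoc, le_div_iff₀ hr]
      exact h1
    linarith
  · have h1 := hy.ratio R r hR h
    have h2 := hy.mono h
    have h3 : R / r - 1 ≤ 0 := by rw [sub_nonpos, div_le_one hr]; exact h
    rw [abs_of_nonpos (by linarith), abs_of_nonpos h3]
    have h4 : y r * (R / r) ≤ y R := by
      rw [← mul_div_assoc, div_le_iff₀ hr]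
      exact h1
    linarith

private theorem CVar_yR {y : ℝ → ℝ} (hy : Prof y) {r R ℓ Cy : ℝ} (hr : 0 < r)
    (hℓ : 0 < ℓ) (hℓ1 : ℓ ≤ 1 / 10) (hCy : 1 ≤ Cy) (hyr : y r ≤ 2 * Cy)
    (hR2 : R ≤ (1 + ℓ) * r) : y R ≤ 3 * Cy := by
  have hy0 := hy.nonneg r
  rcases le_total R r with h | h
  · have := hy.mono h
    linarith
  · have h1 := hy.ratio r R hr h
    have h2 : y R * r ≤ (2 * Cy * (1 + ℓ)) * r := by
      calc y R * r ≤ y r * R := h1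
        _ ≤ y r * ((1 + ℓ) * r) := mul_le_mul_of_nonneg_left hR2 hy0
        _ ≤ 2 * Cy * ((1 + ℓ) * r) := mul_le_mul_of_nonneg_right hyr (by positivity)
        _ = _ := by ring
    have h3 := le_of_mul_le_mul_right h2 hr
    linarith [mul_le_mul_of_nonneg_left hℓ1 (by linarith : 0 ≤ Cy)]

/-- pointwise upper bound -/
private theorem CVar_up {y : ℝ → ℝ} (hy : Prof y) {r R ζ ℓ K Cy c : ℝ} (hr : 0 < r) (hR : 0 < R)
    (hℓ : 0 < ℓ) (hℓ1 : ℓ ≤ 1 / 10) (hK : 0 ≤ K) (hCy : 1 ≤ Cy) (hyr : y r ≤ 2 * Cy)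
    (hζ : |ζ - 1| ≤ ℓ) (hRζ : |R / r - ζ| ≤ K * ℓ ^ 2) (hR2 : R ≤ (1 + ℓ) * r)
    (hc0 : 0 ≤ 1 - c) (hc1 : 1 - c ≤ 2 * ℓ ^ 2) :
    (y R * c - y r) ^ 2 ≤ (y r) ^ 2 * (ζ - 1) ^ 2 +
      (4 * Cy * (2 * Cy * K + 6 * Cy) + (2 * Cy * K + 6 * Cy) ^ 2) * ℓ ^ 3 := by
  have hy0 := hy.nonneg r
  have hyR0 := hy.nonneg R
  have h1 := CVar_abs hy hr hR
  have h2 : |R / r - 1| ≤ |ζ - 1| + K * ℓ ^ 2 := by
    calc |R / r - 1| = |(R / r - ζ) + (ζ - 1)| := by ring_nf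
      _ ≤ |R / r - ζ| + |ζ - 1| := abs_add_le _ _
      _ ≤ _ := by linarith
  have hyR : y R ≤ 3 * Cy := CVar_yR hy hr hℓ hℓ1 hCy hyr hR2
  obtain ⟨K₂, hK₂⟩ : ∃ K₂ : ℝ, K₂ = 2 * Cy * K + 6 * Cy := ⟨_, rfl⟩
  have hK₂0 : 0 ≤ K₂ := by rw [hK₂]; positivity
  rw [← hK₂]
  have h3 : |y R * c - y r| ≤ y r * |ζ - 1| + K₂ * ℓ ^ 2 := by
    calc |y R * c - y r| = |(y R - y r) + (-(y R * (1 - c)))| := by ring_nf
      _ ≤ |y R - y r| + |-(y R * (1 - c))| := abs_add_le _ _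
      _ = |y R - y r| + y R * (1 - c) := by rw [abs_neg, abs_of_nonneg (mul_nonneg hyR0 hc0)]
      _ ≤ y r * (|ζ - 1| + K * ℓ ^ 2) + 3 * Cy * (2 * ℓ ^ 2) := by
          refine add_le_add (h1.trans (mul_le_mul_of_nonneg_left h2 hy0)) ?_
          exact mul_le_mul hyR hc1 hc0 (by linarith)
      _ ≤ y r * |ζ - 1| + K₂ * ℓ ^ 2 := by
          have : y r * (K * ℓ ^ 2) ≤ 2 * Cy * (K * ℓ ^ 2) :=
            mul_le_mul_of_nonneg_right hyr (by positivity)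
          rw [hK₂]
          linarith
  have h4 : y r * |ζ - 1| ≤ 2 * Cy * ℓ := mul_le_mul hyr hζ (abs_nonneg _) (by linarith)
  have h5 : 0 ≤ y r * |ζ - 1| := mul_nonneg hy0 (abs_nonneg _)
  have h6 : 0 ≤ K₂ * ℓ ^ 2 := by positivity
  have h7 : (y R * c - y r) ^ 2 ≤ (y r * |ζ - 1| + K₂ * ℓ ^ 2) ^ 2 := by
    rw [← sq_abs (y R * c - y r)]
    exact pow_le_pow_left₀ (abs_nonneg _) h3 2
  have h8 : y r * |ζ - 1| * (K₂ * ℓ ^ 2) ≤ 2 * Cy * ℓ * (K₂ * ℓ ^ 2) :=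
    mul_le_mul_of_nonneg_right h4 h6
  have h9 : (K₂ * ℓ ^ 2) ^ 2 ≤ K₂ ^ 2 * ℓ ^ 3 := by
    have : ℓ ^ 4 ≤ ℓ ^ 3 := pow_le_pow_of_le_one hℓ.le (by linarith) (by norm_num)
    calc (K₂ * ℓ ^ 2) ^ 2 = K₂ ^ 2 * ℓ ^ 4 := by ring
      _ ≤ K₂ ^ 2 * ℓ ^ 3 := mul_le_mul_of_nonneg_left this (by positivity)
  have h10 : (y r * |ζ - 1|) ^ 2 = (y r) ^ 2 * (ζ - 1) ^ 2 := by rw [mul_pow, sq_abs]
  calc (y R * c - y r) ^ 2 ≤ (y r * |ζ - 1| + K₂ * ℓ ^ 2) ^ 2 := h7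
    _ = (y r * |ζ - 1|) ^ 2 + 2 * (y r * |ζ - 1| * (K₂ * ℓ ^ 2)) + (K₂ * ℓ ^ 2) ^ 2 := by ring
    _ ≤ (y r) ^ 2 * (ζ - 1) ^ 2 + 2 * (2 * Cy * ℓ * (K₂ * ℓ ^ 2)) + K₂ ^ 2 * ℓ ^ 3 := by
        rw [h10]; linarith
    _ = _ := by ring

/-- pointwise lower bound -/
private theorem CVar_lo {y : ℝ → ℝ} (hy : Prof y) {β δ r R ζ ℓ K Cy c : ℝ} (hβ : 1 < β) (hδ : 0 < δ)
    (hlow : ∀ r r', 0 ≤ r → r ≤ r' → δ * (th (β - 1) r' - th (β - 1) r) ≤ y r' - y r)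
    (hr : 0 < r) (hR : 0 < R)
    (hℓ : 0 < ℓ) (hℓ1 : ℓ ≤ 1 / 10) (hβℓ : β * ℓ ≤ 1) (hK : 0 ≤ K) (hCy : 1 ≤ Cy)
    (hyr : y r ≤ 2 * Cy)
    (hζ : |ζ - 1| ≤ ℓ) (hRζ : |R / r - ζ| ≤ K * ℓ ^ 2) (hR2 : R ≤ (1 + ℓ) * r)
    (hc0 : 0 ≤ 1 - c) (hc1 : 1 - c ≤ 2 * ℓ ^ 2) :
    (δ * (β - 1) * r * (1 + r) ^ (-β)) ^ 2 * (ζ - 1) ^ 2 -
      (2 * (δ * (β - 1)) * (δ * (β - 1) * (K + β) + 6 * Cy)) * ℓ ^ 3 ≤ (y R * c - y r) ^ 2 := by
  have hyR0 := hy.nonneg R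
  have hyR : y R ≤ 3 * Cy := CVar_yR hy hr hℓ hℓ1 hCy hyr hR2
  obtain ⟨W, hW⟩ : ∃ W : ℝ, W = δ * (β - 1) := ⟨_, rfl⟩
  have hW0 : 0 < W := by rw [hW]; exact mul_pos hδ (by linarith)
  rw [← hW]
  obtain ⟨K₄, hK₄⟩ : ∃ K₄ : ℝ, K₄ = W * (K + β) + 6 * Cy := ⟨_, rfl⟩
  have hK₄0 : 0 ≤ K₄ := by rw [hK₄]; positivity
  rw [← hK₄]
  have hr1 : 0 < 1 + r := by linarith
  have hpw : 0 < (1 + r) ^ (-β) := Real.rpow_pos_of_pos hr1 _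
  obtain ⟨w, hw⟩ : ∃ w : ℝ, w = W * r * (1 + r) ^ (-β) := ⟨_, rfl⟩
  have hw0 : 0 ≤ w := by rw [hw]; positivity
  rw [← hw]
  have hwW : w ≤ W := by
    have h1 : (1 + r) ^ (-β) ≤ (1 + r) ^ (-1 : ℝ) :=
      Real.rpow_le_rpow_of_exponent_le (by linarith) (by linarith)
    rw [Real.rpow_neg_one] at h1
    have h2 : r * (1 + r) ^ (-β) ≤ 1 := by
      calc r * (1 + r) ^ (-β) ≤ r * (1 + r)⁻¹ := mul_le_mul_of_nonneg_left h1 hr.le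
        _ ≤ 1 := by rw [← div_eq_mul_inv, div_le_one hr1]; linarith
    rw [hw, mul_assoc]
    exact mul_le_of_le_one_right hW0.le h2
  -- the difference of the profile
  have hm : ∀ m : ℝ, 0 ≤ m → m ≤ (1 + ℓ) * r → (1 - β * ℓ) * (1 + r) ^ (-β) ≤ (1 + m) ^ (-β) := by
    intro m hm0 hm
    have h1 : 1 + m ≤ (1 + ℓ) * (1 + r) := by linarith
    have h2 : ((1 + ℓ) * (1 + r)) ^ (-β) ≤ (1 + m) ^ (-β) :=
      Real.rpow_le_rpow_of_nonpos (by linarith) h1 (by linarith)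
    rw [Real.mul_rpow (by linarith) hr1.le] at h2
    have h3 : 1 - β * ℓ ≤ (1 + ℓ) ^ (-β) := by
      rw [Real.rpow_def_of_pos (by linarith)]
      have h4 := Real.add_one_le_exp (Real.log (1 + ℓ) * -β)
      have h5 := Real.log_le_sub_one_of_pos (by linarith : 0 < 1 + ℓ)
      have h6 : β * Real.log (1 + ℓ) ≤ β * ℓ := mul_le_mul_of_nonneg_left (by linarith) (by linarith)
      linarith
    exact (mul_le_mul_of_nonneg_right h3 hpw.le).trans h2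
  have hdiff : W * ((1 - β * ℓ) * (1 + r) ^ (-β)) * |R - r| ≤ |y R - y r| := by
    rcases le_total r R with h | h
    · have h1 := hlow r R hr.le h
      have h2 := CVar_th hβ hr.le h
      have h3 := hm R hR.le hR2
      have h4 : 0 ≤ R - r := by linarith
      rw [abs_of_nonneg h4]
      refine le_trans ?_ (le_abs_self _)
      refine le_trans ?_ h1
      calc W * ((1 - β * ℓ) * (1 + r) ^ (-β)) * (R - r)
          ≤ W * (1 + R) ^ (-β) * (R - r) :=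
            mul_le_mul_of_nonneg_right (mul_le_mul_of_nonneg_left h3 hW0.le) h4
        _ = δ * ((β - 1) * (1 + R) ^ (-β) * (R - r)) := by rw [hW]; ring
        _ ≤ _ := mul_le_mul_of_nonneg_left h2 hδ.le
    · have h1 := hlow R r hR.le h
      have h2 := CVar_th hβ hR.le h
      have h3 := hm r hr.le (by linarith [mul_nonneg hℓ.le hr.le])
      have h4 : 0 ≤ r - R := by linarith
      rw [abs_sub_comm R r, abs_of_nonneg h4, abs_sub_comm]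
      refine le_trans ?_ (le_abs_self _)
      refine le_trans ?_ h1
      calc W * ((1 - β * ℓ) * (1 + r) ^ (-β)) * (r - R)
          ≤ W * (1 + r) ^ (-β) * (r - R) :=
            mul_le_mul_of_nonneg_right (mul_le_mul_of_nonneg_left h3 hW0.le) h4
        _ = δ * ((β - 1) * (1 + r) ^ (-β) * (r - R)) := by rw [hW]; ring
        _ ≤ _ := mul_le_mul_of_nonneg_left h2 hδ.le
  have hRr : r * (|ζ - 1| - K * ℓ ^ 2) ≤ |R - r| := by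
    have h1 : |ζ - 1| - K * ℓ ^ 2 ≤ |R / r - 1| := by
      have : |ζ - 1| ≤ |R / r - ζ| + |R / r - 1| := by
        calc |ζ - 1| = |(R / r - 1) - (R / r - ζ)| := by ring_nf
          _ ≤ |R / r - 1| + |R / r - ζ| := abs_sub _ _
          _ = _ := add_comm _ _
      linarith
    have h2 : |R - r| = r * |R / r - 1| := by
      rw [← abs_of_pos hr, ← abs_mul, abs_of_pos hr]
      congr 1
      field_simp
    rw [h2]
    exact mul_le_mul_of_nonneg_left h1 hr.le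
  have hβℓ' : 0 ≤ 1 - β * ℓ := by linarith
  have hd2 : w * |ζ - 1| - W * (K + β) * ℓ ^ 2 ≤ |y R - y r| := by
    refine le_trans ?_ hdiff
    have h1 : W * ((1 - β * ℓ) * (1 + r) ^ (-β)) * (r * (|ζ - 1| - K * ℓ ^ 2)) ≤
        W * ((1 - β * ℓ) * (1 + r) ^ (-β)) * |R - r| :=
      mul_le_mul_of_nonneg_left hRr (by positivity)
    refine le_trans ?_ h1
    have h2 : W * ((1 - β * ℓ) * (1 + r) ^ (-β)) * (r * (|ζ - 1| - K * ℓ ^ 2)) =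
        w * ((1 - β * ℓ) * (|ζ - 1| - K * ℓ ^ 2)) := by rw [hw]; ring
    rw [h2]
    have h3 : |ζ - 1| - (K + β) * ℓ ^ 2 ≤ (1 - β * ℓ) * (|ζ - 1| - K * ℓ ^ 2) := by
      have h4 : β * ℓ * |ζ - 1| ≤ β * ℓ * ℓ := mul_le_mul_of_nonneg_left hζ (by positivity)
      have h5 : 0 ≤ β * ℓ * (K * ℓ ^ 2) := by positivity
      linarith
    have h6 := mul_le_mul_of_nonneg_left h3 hw0
    have h7 : w * ((K + β) * ℓ ^ 2) ≤ W * ((K + β) * ℓ ^ 2) :=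
      mul_le_mul_of_nonneg_right hwW (by positivity)
    linarith
  have hα : w * |ζ - 1| - K₄ * ℓ ^ 2 ≤ |y R * c - y r| := by
    have h1 : |y R - y r| ≤ |y R * c - y r| + y R * (1 - c) := by
      calc |y R - y r| = |(y R * c - y r) + y R * (1 - c)| := by ring_nf
        _ ≤ |y R * c - y r| + |y R * (1 - c)| := abs_add_le _ _
        _ = _ := by rw [abs_of_nonneg (mul_nonneg hyR0 hc0)]
    have h2 : y R * (1 - c) ≤ 3 * Cy * (2 * ℓ ^ 2) := mul_le_mul hyR hc1 hc0 (by linarith)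
    rw [hK₄]
    linarith
  have hu0 : 0 ≤ w * |ζ - 1| := mul_nonneg hw0 (abs_nonneg _)
  have hv0 : 0 ≤ K₄ * ℓ ^ 2 := by positivity
  have huv : 2 * (w * |ζ - 1|) * (K₄ * ℓ ^ 2) ≤ 2 * W * K₄ * ℓ ^ 3 := by
    have h1 : w * |ζ - 1| ≤ W * ℓ := mul_le_mul hwW hζ (abs_nonneg _) hW0.le
    have h2 := mul_le_mul_of_nonneg_right h1 hv0
    calc 2 * (w * |ζ - 1|) * (K₄ * ℓ ^ 2) = 2 * (w * |ζ - 1| * (K₄ * ℓ ^ 2)) := by ring
      _ ≤ 2 * (W * ℓ * (K₄ * ℓ ^ 2)) := by linarith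
      _ = _ := by ring
  have hsq : (w * |ζ - 1|) ^ 2 = w ^ 2 * (ζ - 1) ^ 2 := by rw [mul_pow, sq_abs]
  rw [← hsq]
  rw [← sq_abs (y R * c - y r)]
  rcases le_total (K₄ * ℓ ^ 2) (w * |ζ - 1|) with h | h
  · have h1 : (w * |ζ - 1| - K₄ * ℓ ^ 2) ^ 2 ≤ |y R * c - y r| ^ 2 :=
      pow_le_pow_left₀ (by linarith) hα 2
    linarith [sq_nonneg (K₄ * ℓ ^ 2)]
  · have h1 : (w * |ζ - 1|) ^ 2 ≤ 2 * (w * |ζ - 1|) * (K₄ * ℓ ^ 2) := by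
      have h2 := mul_le_mul_of_nonneg_left h hu0
      linarith [mul_nonneg hu0 hv0]
    linarith [sq_nonneg (|y R * c - y r|)]

/-- the transversal part -/
private theorem CVar_G {y : ℝ → ℝ} (hy : Prof y) {r R ζ ℓ Cy : ℝ} (hr : 0 < r) (hR : 0 < R)
    (hℓ : 0 < ℓ) (hℓ1 : ℓ ≤ 1 / 10) (hCy : 1 ≤ Cy) (hyr : y r ≤ 2 * Cy)
    (hζ : |ζ - 1| ≤ ℓ) (hR1 : (1 - 2 * ℓ) * r ≤ R) (hR2 : R ≤ (1 + ℓ) * r) :
    (y r) ^ 2 * (1 - 6 * ℓ) ≤ (y R / ζ) ^ 2 ∧ |y R / ζ| ≤ 4 * Cy := by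
  have hy0 := hy.nonneg r
  have hyR0 := hy.nonneg R
  have hyR : y R ≤ 3 * Cy := CVar_yR hy hr hℓ hℓ1 hCy hyr hR2
  rw [abs_le] at hζ
  have hζ0 : 9 / 10 ≤ ζ := by linarith
  have h1 : y r * (1 - 2 * ℓ) ≤ y R := by
    rcases le_total r R with h | h
    · have := hy.mono h
      linarith [mul_nonneg hy0 hℓ.le]
    · have h2 := hy.ratio R r hR h
      have h3 : y r * ((1 - 2 * ℓ) * r) ≤ y R * r :=
        (mul_le_mul_of_nonneg_left hR1 hy0).trans h2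
      have h4 : y r * (1 - 2 * ℓ) * r ≤ y R * r := by linarith
      exact le_of_mul_le_mul_right h4 hr
  constructor
  · have h2 : y r * (1 - 3 * ℓ) ≤ y R / ζ := by
      rw [le_div_iff₀ (by linarith)]
      have h3 : (1 - 3 * ℓ) * ζ ≤ 1 - 2 * ℓ := by
        have := mul_le_mul_of_nonneg_left (by linarith : ζ ≤ 1 + ℓ) (by linarith : 0 ≤ 1 - 3 * ℓ)
        linarith [sq_nonneg ℓ]
      calc y r * (1 - 3 * ℓ) * ζ = y r * ((1 - 3 * ℓ) * ζ) := by ring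
        _ ≤ y r * (1 - 2 * ℓ) := mul_le_mul_of_nonneg_left h3 hy0
        _ ≤ y R := h1
    have h4 : 0 ≤ y r * (1 - 3 * ℓ) := mul_nonneg hy0 (by linarith)
    have h5 := pow_le_pow_left₀ h4 h2 2
    refine le_trans ?_ h5
    rw [mul_pow]
    refine mul_le_mul_of_nonneg_left ?_ (by positivity)
    linarith [sq_nonneg ℓ]
  · rw [abs_of_nonneg (div_nonneg hyR0 (by linarith)), div_le_iff₀ (by linarith)]
    linarith [mul_le_mul_of_nonneg_left hζ0 (by linarith : 0 ≤ Cy)]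


/-- facts for one value of the noise -/
private theorem CVar_pt {N : ℕ} {β h : ℝ} (hβ : 1 < β) (hh : 0 < h) (hh1 : h < 1) {r : ℝ}
    (hr : 0 < r) (hrad : r ≤ rad β h) {e : E N} (he : ‖e‖ = 1) {ξ : E N} {ℓ : ℝ}
    (hℓ : ℓ = h ^ (3 / 8 : ℝ)) (hℓ1 : ℓ ≤ 1 / 10) (h1 : |‖e + Real.sqrt h • ξ‖ - 1| ≤ ℓ)
    (h2 : Real.sqrt h * ‖ξ‖ ≤ ℓ)
    (h3 : psi β h (r * ‖e + Real.sqrt h • ξ‖) ≤ (1 + ℓ) * r) :
    0 < psi β h (r * ‖e + Real.sqrt h • ξ‖) ∧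
    |psi β h (r * ‖e + Real.sqrt h • ξ‖) / r - ‖e + Real.sqrt h • ξ‖| ≤ 2 ^ (β + 1) * ℓ ^ 2 ∧
    0 ≤ 1 - (1 + Real.sqrt h * inner ℝ e ξ) / ‖e + Real.sqrt h • ξ‖ ∧
    1 - (1 + Real.sqrt h * inner ℝ e ξ) / ‖e + Real.sqrt h • ξ‖ ≤ 2 * ℓ ^ 2 := by
  obtain ⟨ζ, hζ⟩ : ∃ ζ : ℝ, ζ = ‖e + Real.sqrt h • ξ‖ := ⟨_, rfl⟩
  obtain ⟨R, hR⟩ : ∃ R : ℝ, R = psi β h (r * ζ) := ⟨_, rfl⟩
  obtain ⟨x, hx⟩ : ∃ x : ℝ, x = inner ℝ e ξ := ⟨_, rfl⟩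
  obtain ⟨s, hs⟩ : ∃ s : ℝ, s = Real.sqrt h := ⟨_, rfl⟩
  have hs0 : 0 ≤ s := by rw [hs]; exact Real.sqrt_nonneg _
  have hs2 : s ^ 2 = h := by rw [hs, Real.sq_sqrt hh.le]
  rw [← hζ, ← hR] at h3 ⊢
  rw [← hζ] at h1
  rw [← hs] at h2
  rw [← hx, ← hs]
  have h1' := abs_le.1 h1
  have hζ0 : 9 / 10 ≤ ζ := by linarith
  have hβ0 : 0 < β := by linarith
  have hR0 : 0 < R := by
    rw [hR]
    exact psi_pos hβ0 hh.le (by positivity)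
  have hℓ2 : ℓ ^ 2 = h ^ (3 / 4 : ℝ) := by
    rw [hℓ, ← Real.rpow_natCast, ← Real.rpow_mul hh.le]
    norm_num
  refine ⟨hR0, ?_, ?_, ?_⟩
  · -- R / r - ζ
    have e1 := psi_eq hβ0 hh.le (v := r * ζ) (by positivity)
    rw [← hR] at e1
    have e2 : R / r - ζ = -(R / r * (h * R ^ β)) := by
      have e3 : R ^ (1 + β) = R * R ^ β := by
        rw [Real.rpow_add hR0, Real.rpow_one]
      rw [e3] at e1
      field_simp
      linarith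
    have hRβ : 0 ≤ R ^ β := Real.rpow_nonneg hR0.le _
    rw [e2, abs_neg, abs_of_nonneg (by positivity)]
    have e4 : R / r ≤ 2 := by
      rw [div_le_iff₀ hr]
      linarith [mul_le_mul_of_nonneg_right hℓ1 hr.le]
    have e5 : h * R ^ β ≤ 2 ^ β * ℓ ^ 2 := by
      have e6 : R ^ β ≤ (2 * r) ^ β := Real.rpow_le_rpow hR0.le (by linarith [mul_le_mul_of_nonneg_right hℓ1 hr.le]) hβ0.le
      rw [Real.mul_rpow (by norm_num) hr.le] at e6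
      have e7 := (rad_facts hβ0 hh hh1 hr.le hrad).2.2.1
      have e8 : (0 : ℝ) ≤ 2 ^ β := by positivity
      calc h * R ^ β ≤ h * (2 ^ β * r ^ β) := mul_le_mul_of_nonneg_left e6 hh.le
        _ = 2 ^ β * (h * r ^ β) := by ring
        _ ≤ 2 ^ β * h ^ (3 / 4 : ℝ) := mul_le_mul_of_nonneg_left e7 e8
        _ = 2 ^ β * ℓ ^ 2 := by rw [hℓ2]
    have e9 : (2 : ℝ) ^ (β + 1) = 2 * 2 ^ β := by
      rw [Real.rpow_add (by norm_num), Real.rpow_one, mul_comm]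
    rw [e9]
    calc R / r * (h * R ^ β) ≤ 2 * (2 ^ β * ℓ ^ 2) :=
          mul_le_mul e4 e5 (by positivity) (by norm_num)
      _ = _ := by ring
  all_goals
    have hζ2 : ζ ^ 2 = 1 + 2 * s * x + h * ‖ξ‖ ^ 2 := by
      rw [hζ, norm_add_sq_real, he, norm_smul, real_inner_smul_right, ← hx, ← hs, mul_pow,
        Real.norm_eq_abs, sq_abs, hs2]
      ring
    have hxn : |x| ≤ ‖ξ‖ := by
      rw [hx]
      have := abs_real_inner_le_norm e ξ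
      rwa [he, one_mul] at this
    have hx2 : x ^ 2 ≤ ‖ξ‖ ^ 2 := by
      rw [← sq_abs x]
      exact pow_le_pow_left₀ (abs_nonneg _) hxn 2
    have hsx : |s * x| ≤ ℓ := by
      rw [abs_mul, abs_of_nonneg hs0]
      exact (mul_le_mul_of_nonneg_left hxn hs0).trans h2
    have hsx' := abs_le.1 hsx
    have hζx : ζ ^ 2 - (1 + s * x) ^ 2 = h * (‖ξ‖ ^ 2 - x ^ 2) := by
      rw [hζ2, ← hs2]; ring
    have hle : 1 + s * x ≤ ζ := by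
      by_contra hcon
      push Not at hcon
      have : 0 ≤ h * (‖ξ‖ ^ 2 - x ^ 2) := mul_nonneg hh.le (by linarith)
      linarith [pow_lt_pow_left₀ hcon (by linarith) two_ne_zero]
  · rw [sub_nonneg, div_le_one (by linarith)]
    exact hle
  · have e1 : 1 - (1 + s * x) / ζ = (ζ - (1 + s * x)) / ζ := by
      have : ζ ≠ 0 := by linarith
      field_simp
    rw [e1, div_le_iff₀ (by linarith)]
    have e2 : (ζ - (1 + s * x)) * (ζ + (1 + s * x)) ≤ ℓ ^ 2 := by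
      have e3 : (ζ - (1 + s * x)) * (ζ + (1 + s * x)) = h * (‖ξ‖ ^ 2 - x ^ 2) := by
        rw [← hζx]; ring
      rw [e3]
      have e4 : h * ‖ξ‖ ^ 2 ≤ ℓ ^ 2 := by
        have := pow_le_pow_left₀ (mul_nonneg hs0 (norm_nonneg ξ)) h2 2
        rw [mul_pow, hs2] at this
        exact this
      linarith [mul_nonneg hh.le (sq_nonneg x)]
    have e5 : 9 / 5 ≤ ζ + (1 + s * x) := by linarith
    have e6 : 0 ≤ ζ - (1 + s * x) := by linarith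
    have e7 : (ζ - (1 + s * x)) * (9 / 5) ≤ ℓ ^ 2 :=
      (mul_le_mul_of_nonneg_left e5 e6).trans e2
    linarith [sq_nonneg ℓ, mul_le_mul_of_nonneg_left hζ0 (sq_nonneg ℓ)]

theorem cvar (N : ℕ) (β δ Cy : ℝ) (hN : 3 ≤ N) (hβ : 1 < β) (hδ : 0 < δ) (hCy : 1 ≤ Cy) :
    ∃ C h0 : ℝ, 0 < C ∧ 0 < h0 ∧ ∀ (h : ℝ) (ν : Measure (E N)), 0 < h → h < h0 → IsNoise h ν →
      ∀ y : ℝ → ℝ, IsCorr N β h ν δ Cy y → ∀ g : E N, g ≠ 0 → ‖g‖ ≤ rad β h →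
      ∀ a : E N, ‖a‖ ≤ 1 →
        1 / 2 * h * ((δ * (β - 1) * ‖g‖ * (1 + ‖g‖) ^ (-β)) ^ 2 + (inner ℝ a (cfull y g)) ^ 2)
          - C * h ^ (9 / 8 : ℝ) ≤
        ∫ ξ, (‖cfull y (hat β h g ξ) - cfull y g‖ ^ 2
          - 2 * (inner ℝ a (cfull y (hat β h g ξ) - cfull y g)) ^ 2) ∂ν := by
  have hβ0 : 0 < β := by linarith
  obtain ⟨Cz, hz0, hCz, hz0p, hlogz⟩ := logz N (by omega)
  obtain ⟨h1, h1p, h1le, hzeta⟩ := zeta_ae N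
  obtain ⟨h2, h2p, h2le, hhat⟩ := hat_bounds N β hβ0
  obtain ⟨K, hK⟩ : ∃ K : ℝ, K = 2 ^ (β + 1) := ⟨_, rfl⟩
  have hK0 : 0 ≤ K := by rw [hK]; positivity
  obtain ⟨W, hW⟩ : ∃ W : ℝ, W = δ * (β - 1) := ⟨_, rfl⟩
  have hW0 : 0 < W := by rw [hW]; exact mul_pos hδ (by linarith)
  obtain ⟨K₃, hK₃⟩ : ∃ K₃ : ℝ, K₃ = 4 * Cy * (2 * Cy * K + 6 * Cy) + (2 * Cy * K + 6 * Cy) ^ 2 :=
    ⟨_, rfl⟩
  have hK₃0 : 0 ≤ K₃ := by rw [hK₃]; positivity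
  obtain ⟨K₅, hK₅⟩ : ∃ K₅ : ℝ, K₅ = 2 * (δ * (β - 1)) * (δ * (β - 1) * (K + β) + 6 * Cy) :=
    ⟨_, rfl⟩
  have hK₅0 : 0 ≤ K₅ := by rw [hK₅, ← hW]; positivity
  obtain ⟨Kc, hKc⟩ : ∃ Kc : ℝ, Kc = 4 * Cy ^ 2 * Cz + K₃ + 28 * Cy ^ 2 + W ^ 2 * Cz + K₅ := ⟨_, rfl⟩
  have hKc0 : 0 < Kc := by rw [hKc]; positivity
  refine ⟨4 * Kc, min (min hz0 h1) (min h2 (min ((1 / β) ^ (8 / 3 : ℝ)) (1 / 1000))), by positivity,
    by positivity, ?_⟩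
  intro h ν hh hlt hν y hy g hg hrad a ha
  have hprob := hν.prob
  have hlt1 : h < hz0 := lt_of_lt_of_le hlt ((min_le_left _ _).trans (min_le_left _ _))
  have hlt2 : h < h1 := lt_of_lt_of_le hlt ((min_le_left _ _).trans (min_le_right _ _))
  have hlt3 : h < h2 := lt_of_lt_of_le hlt ((min_le_right _ _).trans (min_le_left _ _))
  have hlt4 : h < (1 / β) ^ (8 / 3 : ℝ) :=
    lt_of_lt_of_le hlt ((min_le_right _ _).trans ((min_le_right _ _).trans (min_le_left _ _)))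
  have hlt5 : h < 1 / 1000 :=
    lt_of_lt_of_le hlt ((min_le_right _ _).trans ((min_le_right _ _).trans (min_le_right _ _)))
  have hh1 : h < 1 := by linarith
  -- polar coordinates
  obtain ⟨r, hr⟩ : ∃ r : ℝ, r = ‖g‖ := ⟨_, rfl⟩
  have hr0 : 0 < r := by rw [hr]; exact norm_pos_iff.2 hg
  obtain ⟨e, hedef⟩ : ∃ e : E N, e = r⁻¹ • g := ⟨_, rfl⟩
  have he : ‖e‖ = 1 := by
    rw [hedef, norm_smul, norm_inv, Real.norm_eq_abs, abs_of_pos hr0, ← hr]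
    exact inv_mul_cancel₀ hr0.ne'
  have hge : g = r • e := by
    rw [hedef, smul_smul, mul_inv_cancel₀ hr0.ne', one_smul]
  obtain ⟨ℓ, hℓ⟩ : ∃ ℓ : ℝ, ℓ = h ^ (3 / 8 : ℝ) := ⟨_, rfl⟩
  have hℓ0 : 0 < ℓ := by rw [hℓ]; exact Real.rpow_pos_of_pos hh _
  have hℓ3 : ℓ ^ 3 = h ^ (9 / 8 : ℝ) := by
    rw [hℓ, ← Real.rpow_natCast, ← Real.rpow_mul hh.le]
    norm_num
  have hℓ2 : ℓ ^ 2 = h ^ (3 / 4 : ℝ) := by
    rw [hℓ, ← Real.rpow_natCast, ← Real.rpow_mul hh.le]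
    norm_num
  have hhℓ : h ≤ ℓ := by
    rw [hℓ]
    calc h = h ^ (1 : ℝ) := (Real.rpow_one h).symm
      _ ≤ h ^ (3 / 8 : ℝ) := Real.rpow_le_rpow_of_exponent_ge hh hh1.le (by norm_num)
  have hhℓ2 : h ≤ ℓ ^ 2 := by
    rw [hℓ2]
    calc h = h ^ (1 : ℝ) := (Real.rpow_one h).symm
      _ ≤ h ^ (3 / 4 : ℝ) := Real.rpow_le_rpow_of_exponent_ge hh hh1.le (by norm_num)
  have hβℓ : β * ℓ ≤ 1 := by
    have h3 : h ^ (3 / 8 : ℝ) ≤ ((1 / β) ^ (8 / 3 : ℝ)) ^ (3 / 8 : ℝ) :=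
      Real.rpow_le_rpow hh.le hlt4.le (by norm_num)
    rw [← Real.rpow_mul (by positivity)] at h3
    norm_num at h3
    rw [← hℓ] at h3
    calc β * ℓ ≤ β * β⁻¹ := mul_le_mul_of_nonneg_left h3 hβ0.le
      _ = 1 := mul_inv_cancel₀ hβ0.ne'
  -- almost sure facts
  have hae1 := hzeta h ν hh hlt2 hν e he
  have hae2 := hhat h ν hh hlt3 hν g hrad
  have hℓ1 : ℓ ≤ 1 / 10 := by
    obtain ⟨ξ, hξ⟩ := hae2.exists
    rw [hℓ]
    exact hξ.2.2.2.2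
  rw [← hr] at hrad
  have hyr : y r ≤ 2 * Cy := by
    have h3 := hy.bdd r hr0.le
    have h4 := (rad_facts hβ0 hh hh1 hr0.le hrad).2.2.2
    have h5 : h ^ (7 / 8 : ℝ) ≤ 1 := Real.rpow_le_one hh.le hh1.le (by norm_num)
    linarith [mul_le_mul_of_nonneg_left (h4.trans h5) (by linarith : 0 ≤ Cy)]
  have hy0 := hy.prof.nonneg r
  -- the function `G`
  obtain ⟨G, hG⟩ : ∃ G : ℝ → ℝ → ℝ, G = fun u n =>
    y (psi β h (r * Real.sqrt (1 + 2 * Real.sqrt h * u + h * n ^ 2))) /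
      Real.sqrt (1 + 2 * Real.sqrt h * u + h * n ^ 2) := ⟨_, rfl⟩
  have hζG : ∀ ξ : E N, Real.sqrt (1 + 2 * Real.sqrt h * inner ℝ e ξ + h * ‖ξ‖ ^ 2) =
      ‖e + Real.sqrt h • ξ‖ := by
    intro ξ
    have : 1 + 2 * Real.sqrt h * inner ℝ e ξ + h * ‖ξ‖ ^ 2 = ‖e + Real.sqrt h • ξ‖ ^ 2 := by
      rw [norm_add_sq_real, he, norm_smul, real_inner_smul_right, mul_pow,
        Real.norm_eq_abs, sq_abs, Real.sq_sqrt hh.le]
      ring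
    rw [this, Real.sqrt_sq (norm_nonneg _)]
  have hGξ : ∀ ξ : E N, G (inner ℝ e ξ) ‖ξ‖ =
      y (psi β h (r * ‖e + Real.sqrt h • ξ‖)) / ‖e + Real.sqrt h • ξ‖ := by
    intro ξ
    rw [hG]
    simp only
    rw [hζG]
  have hfacts : ∀ᵐ ξ ∂ν, |‖e + Real.sqrt h • ξ‖ - 1| ≤ ℓ ∧
      0 < psi β h (r * ‖e + Real.sqrt h • ξ‖) ∧
      |psi β h (r * ‖e + Real.sqrt h • ξ‖) / r - ‖e + Real.sqrt h • ξ‖| ≤ K * ℓ ^ 2 ∧
      0 ≤ 1 - (1 + Real.sqrt h * inner ℝ e ξ) / ‖e + Real.sqrt h • ξ‖ ∧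
      1 - (1 + Real.sqrt h * inner ℝ e ξ) / ‖e + Real.sqrt h • ξ‖ ≤ 2 * ℓ ^ 2 ∧
      (1 - 2 * ℓ) * r ≤ psi β h (r * ‖e + Real.sqrt h • ξ‖) ∧
      psi β h (r * ‖e + Real.sqrt h • ξ‖) ≤ (1 + ℓ) * r := by
    filter_upwards [hae1, hae2, hν.bdd] with ξ f1 f2 f3
    rw [← hℓ] at f1 f2 f3
    have f4 : ‖hat β h g ξ‖ = psi β h (r * ‖e + Real.sqrt h • ξ‖) := by
      rw [hge]
      exact norm_hat hβ0 hh.le hr0.le he ξ
    obtain ⟨-, f5, f6, -, -⟩ := f2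
    rw [f4, ← hr] at f5 f6
    obtain ⟨f7, f8, f9, f10⟩ := CVar_pt hβ hh hh1 hr0 hrad he hℓ hℓ1 f1.1 f3 f6
    exact ⟨f1.1, f7, by rw [hK]; exact f8, f9, f10, f5, f6⟩
  have hGm : Measurable (fun ξ : E N => G (inner ℝ e ξ) ‖ξ‖) := by
    have h3 : (fun ξ : E N => G (inner ℝ e ξ) ‖ξ‖) = fun ξ =>
        y (psi β h (r * ‖e + Real.sqrt h • ξ‖)) / ‖e + Real.sqrt h • ξ‖ := by
      funext ξ
      exact hGξ ξ
    rw [h3]
    have h4 : Measurable (fun ξ : E N => ‖e + Real.sqrt h • ξ‖) :=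
      (by fun_prop : Continuous fun ξ : E N => ‖e + Real.sqrt h • ξ‖).measurable
    refine Measurable.div ?_ h4
    exact hy.prof.mono.measurable.comp
      ((psi_continuous hβ0 hh.le).measurable.comp (h4.const_mul r))
  have hGB : CVarB ν (fun ξ => G (inner ℝ e ξ) ‖ξ‖) := by
    refine ⟨hGm.aestronglyMeasurable, 4 * Cy, ?_⟩
    filter_upwards [hfacts] with ξ ⟨f1, f2, f3, f4, f5, f6, f7⟩
    rw [hGξ, Real.norm_eq_abs]
    exact (CVar_G hy.prof hr0 f2 hℓ0 hℓ1 hCy hyr f1 f6 f7).2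
  -- p and t
  obtain ⟨p, hp⟩ : ∃ p : ℝ, p = ∫ ξ, (G (inner ℝ e ξ) ‖ξ‖ *
    (1 + Real.sqrt h * inner ℝ e ξ) - y r) ^ 2 ∂ν := ⟨_, rfl⟩
  obtain ⟨t, ht⟩ : ∃ t : ℝ, t = h / (N - 1) *
    ∫ ξ, (G (inner ℝ e ξ) ‖ξ‖) ^ 2 * (‖ξ‖ ^ 2 - (inner ℝ e ξ) ^ 2) ∂ν := ⟨_, rfl⟩
  have hN3 : (3 : ℝ) ≤ N := by exact_mod_cast hN
  have hN1 : (0 : ℝ) < (N : ℝ) - 1 := by linarith
  have hxn : ∀ ξ : E N, 0 ≤ ‖ξ‖ ^ 2 - (inner ℝ e ξ) ^ 2 := by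
    intro ξ
    have := abs_real_inner_le_norm e ξ
    rw [he, one_mul] at this
    have h3 := pow_le_pow_left₀ (abs_nonneg _) this 2
    rw [sq_abs] at h3
    linarith
  have hnB : CVarB ν (fun ξ => ‖ξ‖) := CVarB.nrm hh hν
  have hxB : CVarB ν (fun ξ => (inner ℝ e ξ : ℝ)) := CVarB.innr hh hν e
  have hint2 : Integrable (fun ξ : E N => ‖ξ‖ ^ 2 - (inner ℝ e ξ) ^ 2) ν := (hnB.sq.sub hxB.sq).int
  have ht0 : 0 ≤ t := by
    rw [ht]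
    refine mul_nonneg (by positivity) (integral_nonneg fun ξ => ?_)
    exact mul_nonneg (sq_nonneg _) (hxn ξ)
  -- lower bound for t
  have htlow : h * (y r) ^ 2 - 28 * Cy ^ 2 * ℓ ^ 3 ≤ t := by
    obtain ⟨M, hM⟩ : ∃ M : ℝ, M = ∫ ξ, ‖ξ‖ ^ 2 ∂ν := ⟨_, rfl⟩
    have h3 : ∫ ξ, (‖ξ‖ ^ 2 - (inner ℝ e ξ) ^ 2) ∂ν = M * ((N - 1) / N) := by
      rw [integral_sub hnB.sq.int hxB.sq.int, noise_sq hh (by omega) hν e, he, ← hM]
      have : (N : ℝ) ≠ 0 := by linarith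
      field_simp
    have h4 : (y r) ^ 2 * (1 - 6 * ℓ) * (M * ((N - 1) / N)) ≤
        ∫ ξ, (G (inner ℝ e ξ) ‖ξ‖) ^ 2 * (‖ξ‖ ^ 2 - (inner ℝ e ξ) ^ 2) ∂ν := by
      rw [← h3, ← integral_const_mul]
      refine integral_mono_ae (hint2.const_mul _) (hGB.sq.mul (hnB.sq.sub hxB.sq)).int ?_
      filter_upwards [hfacts] with ξ ⟨f1, f2, f3, f4, f5, f6, f7⟩
      rw [hGξ]
      exact mul_le_mul_of_nonneg_right (CVar_G hy.prof hr0 f2 hℓ0 hℓ1 hCy hyr f1 f6 f7).1 (hxn ξ)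
    have h5 : (1 - h) ≤ M / N := by
      rw [le_div_iff₀ (by linarith)]
      have := hν.le_mom
      rw [← hM] at this
      linarith
    have h6 : h * ((y r) ^ 2 * (1 - 6 * ℓ) * (M / N)) ≤ t := by
      rw [ht]
      have h7 := mul_le_mul_of_nonneg_left h4 (by positivity : 0 ≤ h / ((N : ℝ) - 1))
      refine le_trans (le_of_eq ?_) h7
      field_simp
    refine le_trans ?_ h6
    have h8 : (1 - 6 * ℓ - h) ≤ (1 - 6 * ℓ) * (M / N) := by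
      have h9 : (1 - 6 * ℓ) * (1 - h) ≤ (1 - 6 * ℓ) * (M / N) :=
        mul_le_mul_of_nonneg_left h5 (by linarith)
      linarith [mul_pos hℓ0 hh]
    have h10 : (y r) ^ 2 ≤ 4 * Cy ^ 2 := by
      have := pow_le_pow_left₀ hy0 hyr 2
      linarith
    have h11 : h * ((y r) ^ 2 * (1 - 6 * ℓ - h)) ≤ h * ((y r) ^ 2 * ((1 - 6 * ℓ) * (M / N))) :=
      mul_le_mul_of_nonneg_left (mul_le_mul_of_nonneg_left h8 (sq_nonneg _)) hh.le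
    have h12 : h * ((y r) ^ 2 * (6 * ℓ + h)) ≤ 28 * Cy ^ 2 * ℓ ^ 3 := by
      calc h * ((y r) ^ 2 * (6 * ℓ + h)) ≤ ℓ ^ 2 * (4 * Cy ^ 2 * (7 * ℓ)) := by
            refine mul_le_mul hhℓ2 ?_ (by positivity) (by positivity)
            exact mul_le_mul h10 (by linarith) (by positivity) (by positivity)
        _ = _ := by ring
    linarith
  -- bounds for p
  obtain ⟨w, hw⟩ : ∃ w : ℝ, w = δ * (β - 1) * r * (1 + r) ^ (-β) := ⟨_, rfl⟩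
  have hr1 : 0 < 1 + r := by linarith
  have hw0 : 0 ≤ w := by
    rw [hw, ← hW]
    have := Real.rpow_nonneg hr1.le (-β)
    positivity
  have hwW : w ≤ W := by
    have h3 : (1 + r) ^ (-β) ≤ (1 + r) ^ (-1 : ℝ) :=
      Real.rpow_le_rpow_of_exponent_le (by linarith) (by linarith)
    rw [Real.rpow_neg_one] at h3
    have h4 : r * (1 + r) ^ (-β) ≤ 1 := by
      calc r * (1 + r) ^ (-β) ≤ r * (1 + r)⁻¹ := mul_le_mul_of_nonneg_left h3 hr0.le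
        _ ≤ 1 := by rw [← div_eq_mul_inv, div_le_one hr1]; linarith
    rw [hw, ← hW, mul_assoc]
    exact mul_le_of_le_one_right hW0.le h4
  have hpint : Integrable (fun ξ : E N => (G (inner ℝ e ξ) ‖ξ‖ *
      (1 + Real.sqrt h * inner ℝ e ξ) - y r) ^ 2) ν :=
    ((hGB.mul ((CVarB.const ν 1).add ((CVarB.const ν (Real.sqrt h)).mul hxB))).sub
      (CVarB.const ν (y r))).sq.int
  have hζB : CVarB ν (fun ξ : E N => ‖e + Real.sqrt h • ξ‖ - 1) := by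
    refine ⟨(by fun_prop : Continuous fun ξ : E N =>
      ‖e + Real.sqrt h • ξ‖ - 1).aestronglyMeasurable, ℓ, ?_⟩
    filter_upwards [hfacts] with ξ ⟨f1, _⟩
    exact f1
  have hζint : Integrable (fun ξ : E N => (‖e + Real.sqrt h • ξ‖ - 1) ^ 2) ν := hζB.sq.int
  have hz2 := (hlogz h ν hh hlt1 hν e he).2.2.2.1
  rw [← hℓ3] at hz2
  obtain ⟨Z, hZ⟩ : ∃ Z : ℝ, Z = ∫ ξ, (‖e + Real.sqrt h • ξ‖ - 1) ^ 2 ∂ν := ⟨_, rfl⟩
  rw [← hZ] at hz2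
  have hz2' := abs_le.1 hz2
  have hα : ∀ ξ : E N, G (inner ℝ e ξ) ‖ξ‖ * (1 + Real.sqrt h * inner ℝ e ξ) - y r =
      y (psi β h (r * ‖e + Real.sqrt h • ξ‖)) *
        ((1 + Real.sqrt h * inner ℝ e ξ) / ‖e + Real.sqrt h • ξ‖) - y r := by
    intro ξ
    rw [hGξ]
    ring
  have hpup : p ≤ h * (y r) ^ 2 + (4 * Cy ^ 2 * Cz + K₃) * ℓ ^ 3 := by
    have h3 : p ≤ ∫ ξ, ((y r) ^ 2 * (‖e + Real.sqrt h • ξ‖ - 1) ^ 2 + K₃ * ℓ ^ 3) ∂ν := by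
      rw [hp]
      refine integral_mono_ae hpint ((hζint.const_mul _).add (integrable_const _)) ?_
      filter_upwards [hfacts] with ξ ⟨f1, f2, f3, f4, f5, f6, f7⟩
      rw [hα, hK₃]
      exact CVar_up hy.prof hr0 f2 hℓ0 hℓ1 hK0 hCy hyr f1 f3 f7 f4 f5
    rw [integral_add (hζint.const_mul _) (integrable_const _), integral_const_mul, ← hZ,
      integral_const, probReal_univ, one_smul] at h3
    have h10 : (y r) ^ 2 ≤ 4 * Cy ^ 2 := by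
      have := pow_le_pow_left₀ hy0 hyr 2
      linarith
    have h4 : (y r) ^ 2 * Z ≤ (y r) ^ 2 * (h + Cz * ℓ ^ 3) :=
      mul_le_mul_of_nonneg_left (by linarith [hz2'.2]) (sq_nonneg _)
    have h5 : (y r) ^ 2 * (Cz * ℓ ^ 3) ≤ 4 * Cy ^ 2 * (Cz * ℓ ^ 3) :=
      mul_le_mul_of_nonneg_right h10 (by positivity)
    linarith
  have hplow : h * w ^ 2 - (W ^ 2 * Cz + K₅) * ℓ ^ 3 ≤ p := by
    have h3 : ∫ ξ, (w ^ 2 * (‖e + Real.sqrt h • ξ‖ - 1) ^ 2 - K₅ * ℓ ^ 3) ∂ν ≤ p := by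
      rw [hp]
      refine integral_mono_ae ((hζint.const_mul _).sub (integrable_const _)) hpint ?_
      filter_upwards [hfacts] with ξ ⟨f1, f2, f3, f4, f5, f6, f7⟩
      rw [hα, hK₅, hw]
      exact CVar_lo hy.prof hβ hδ hy.lower hr0 f2 hℓ0 hℓ1 hβℓ hK0 hCy hyr f1 f3 f7 f4 f5
    rw [integral_sub (hζint.const_mul _) (integrable_const _), integral_const_mul, ← hZ,
      integral_const, probReal_univ, one_smul] at h3
    have h10 : w ^ 2 ≤ W ^ 2 := pow_le_pow_left₀ hw0 hwW 2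
    have h4 : w ^ 2 * (h - Cz * ℓ ^ 3) ≤ w ^ 2 * Z :=
      mul_le_mul_of_nonneg_left (by linarith [hz2'.1]) (sq_nonneg _)
    have h5 : w ^ 2 * (Cz * ℓ ^ 3) ≤ W ^ 2 * (Cz * ℓ ^ 3) :=
      mul_le_mul_of_nonneg_right h10 (by positivity)
    linarith
  -- conclusion
  have hmain := CVar_axis hN hh hν e he G hGB (y r) a ha p t hp ht ht0
    (fun ξ => cfull y (hat β h g ξ) - cfull y g) (by
      filter_upwards [hfacts] with ξ ⟨f1, f2, f3, f4, f5, f6, f7⟩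
      have k1 : ‖hat β h g ξ‖ = psi β h (r * ‖e + Real.sqrt h • ξ‖) := by
        rw [hge]
        exact norm_hat hβ0 hh.le hr0.le he ξ
      have k2 : hat β h g ξ = (psi β h (r * ‖e + Real.sqrt h • ξ‖) / ‖e + Real.sqrt h • ξ‖) •
          (e + Real.sqrt h • ξ) := by
        rw [hge]
        exact hat_polar hβ0 hh.le hr0.le he ξ
      unfold cfull
      rw [k1, k2, ← hr, hGξ, smul_smul]
      have k3 : (y r / r) • g = y r • e := by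
        rw [hge, smul_smul, div_mul_cancel₀ _ hr0.ne']
      rw [k3]
      congr 2
      have := f2.ne'
      field_simp)
  obtain ⟨A, hA⟩ : ∃ A : ℝ, A = (inner ℝ a e) ^ 2 := ⟨_, rfl⟩
  have hA0 : 0 ≤ A := by rw [hA]; positivity
  have hA1 : A ≤ 1 := by
    have h3 := abs_real_inner_le_norm a e
    rw [he, mul_one] at h3
    have h4 := pow_le_pow_left₀ (abs_nonneg _) (h3.trans ha) 2
    rw [sq_abs] at h4
    rw [hA]
    linarith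
  rw [← hA] at hmain
  refine le_trans ?_ hmain
  have hℓ30 : 0 < ℓ ^ 3 := by positivity
  have c1 : (4 * Cy ^ 2 * Cz + K₃) * ℓ ^ 3 ≤ Kc * ℓ ^ 3 := by
    refine mul_le_mul_of_nonneg_right ?_ hℓ30.le
    rw [hKc]
    have : 0 ≤ W ^ 2 * Cz := by positivity
    linarith [sq_nonneg Cy]
  have c2 : 28 * Cy ^ 2 * ℓ ^ 3 ≤ Kc * ℓ ^ 3 := by
    refine mul_le_mul_of_nonneg_right ?_ hℓ30.le
    rw [hKc]
    have : 0 ≤ W ^ 2 * Cz := by positivity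
    have : 0 ≤ 4 * Cy ^ 2 * Cz := by positivity
    linarith
  have c3 : (W ^ 2 * Cz + K₅) * ℓ ^ 3 ≤ Kc * ℓ ^ 3 := by
    refine mul_le_mul_of_nonneg_right ?_ hℓ30.le
    rw [hKc]
    have : 0 ≤ 4 * Cy ^ 2 * Cz := by positivity
    linarith [sq_nonneg Cy]
  have hfin := CVar_final A (h * (y r) ^ 2) (h * w ^ 2) p t (Kc * ℓ ^ 3) hA0 hA1 (by positivity)
    (by positivity) (by positivity) (by linarith) (by linarith) (by linarith)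
  refine le_trans (le_of_eq ?_) hfin
  have k4 : (inner ℝ a (cfull y g)) ^ 2 = A * (y r) ^ 2 := by
    unfold cfull
    rw [← hr, real_inner_smul_right, hA]
    have k5 : (inner ℝ a g : ℝ) = r * inner ℝ a e := by
      rw [hge, real_inner_smul_right]
    rw [k5]
    field_simp
  rw [k4, ← hr, ← hw, ← hℓ3]
  ring

end Dyn
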