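import Pool.Agent.Lib_MP_36b788.LSMainA

/-!
# LSMAIN: assembly of the drift inequality of `log S`

PROOF. Order of the constants: CEX (`δ, Cy, hc`), LSY/CTIL (`C0`; take the max of the two constants, both
statements are monotone in `C0`... or use the same `ctil_facts`), QSITE (`r2, Rc, cv, Cv, A0` for the given
`D0`), LSH (`ch, CH`), LSFIN (`A1`); choose `A ≥ A0, A1` (and the `A0` of MMB, `cv/√A ≤ 1`); then `CM` of QSITE, LSFIN
gives `Ct, k0` (shrink `k0` so that the smallness fields of `LSB` hold: `k0·4dCy ≤ 1/(16A)`, `4dCy√k0 ≤ 1/8`,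
`A k0 ≤ 1/2`, `Ct√k0 3^d ≤ log 2`). `cV = cv/√A`, `CV = Cv/√A`. `θ = Ct√k`.
`lsb`: from MMB and CTIL (`‖G‖ ≤ 2 rad`, `h·2rad ≤ 1`).
`drift`: fix `x`, `S = SS G x > 0` (ls_pos). `T_z = Y_z(G⁺)-Y_z(G)`, `λ_z = log mm(r_z⁺) - log mm(r_z) - θ(H_z⁺ - H_z)`;
then `SS (stp) x = Σ W_z e^{λ_z}‖Y_z+T_z‖²`. Apply ABS with `ε = C h^{3/8}`, where a.e.
`W_z‖T_z‖² ≤ C2²h^{3/4}W_zσ_z² ≤ C2²h^{3/4}Cs S` (lsy_size, ls_sig) and `|λ_z| ≤ C h^{3/8}` (QSITE, LSH; shift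
`‖kh coup‖ ≤ C h^{7/8}`). `L ξ :=` the left side of `abs_log`.
Mean: `∫L ≥ S⁻¹ΣW_z[h GG1_z - C2h^{9/8}σ_z² + f_z∫λ_z] - C h^{9/8}`, and `∫λ_z ≥ h(lam_z - θ eta_z) - C h^{9/8}` where
`lam_z = h⁻¹∫Δlog mm + C2 h^{1/8}`, `eta_z = h⁻¹∫ΔH_z - C2h^{1/8}` satisfy `LSU` (the shift in QSITE is
`w = kh coup_z`; `CM‖w‖/h = CM k‖coup_z‖`). LSFIN: `≥ h·(¾cV or -(3/2)CV) - C h^{9/8} ≥ h (cV/2 or -2CV)` for small `h`.
Second moment: `abs_sq`, `lsy_size` (`∫‖T_z‖² ≤ CT hσ_z²`), `∫λ_z² ≤ C h` and ls_sig give `∫L² ≤ CA h`, `CA` independent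
of `k`, of the net and of `h` (the `C h^{9/8}` part is `≤ h` for small `h`).
-/

open MeasureTheory

namespace Dyn

theorem ls_main (N d : ℕ) (β D0 : ℝ) (hN : 3 ≤ N) (hβ : 1 < β) (hD : 1 ≤ D0) :
    Nonempty (Base N d β D0) := by
  obtain ⟨δ, Cy, hc, hδ, hCy, hhc, hhc1, hcorr⟩ := corrector_exists N β (by omega) hβ
  obtain ⟨C0a, hC0a, hlsy⟩ := lsy N d β δ Cy hN hβ hδ hCy
  obtain ⟨C0b, hC0b, hct⟩ := ctil_facts N β δ Cy hN hβ hδ hCy
  obtain ⟨C0, hC0def⟩ : ∃ C0, C0 = max C0a C0b := ⟨_, rfl⟩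
  have hC0ab : C0a ≤ C0 := by rw [hC0def]; exact le_max_left _ _
  have hC0bb : C0b ≤ C0 := by rw [hC0def]; exact le_max_right _ _
  have hC01 : 1 ≤ C0 := hC0a.trans hC0ab
  obtain ⟨r2, Rc, cv, Cv, Aq, hr2, hr21, hRc, hcv, hCv, hDC, hAq, hAq2, hq⟩ :=
    qsite N β D0 hN hβ hD
  obtain ⟨ch, CH, kh, hch, hCH, hkh, hkh1, hlsh⟩ := lsh N d β (by omega) hβ
  obtain ⟨A1, hA1, hfin⟩ := ls_fin N d β δ Cy C0 r2 Rc cv Cv ch CH hN hβ hδ hCy hC01 hr2 hr21 hRc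
    hcv hCv hch hCH
  obtain ⟨Am, hAm, hmmb⟩ := MM_bounds N β hN hβ
  obtain ⟨A, hAdef⟩ : ∃ A, A = max (max Aq A1) (max Am (cv ^ 2)) := ⟨_, rfl⟩
  have hAAq : Aq ≤ A := by rw [hAdef]; exact (le_max_left _ _).trans (le_max_left _ _)
  have hAA1 : A1 ≤ A := by rw [hAdef]; exact (le_max_right _ _).trans (le_max_left _ _)
  have hAAm : Am ≤ A := by rw [hAdef]; exact (le_max_left _ _).trans (le_max_right _ _)
  have hAcv : cv ^ 2 ≤ A := by rw [hAdef]; exact (le_max_right _ _).trans (le_max_right _ _)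
  have hA6 : 6 ≤ A := hAq.trans hAAq
  have hA0 : 0 < A := by linarith
  have hAr2 : 6 / A ≤ r2 := (div_le_div_of_nonneg_left (by norm_num) (by linarith) hAAq).trans hAq2
  have hsA : 0 < Real.sqrt A := Real.sqrt_pos.2 hA0
  have hcV : 0 < cv / Real.sqrt A := div_pos hcv hsA
  have hCV : 0 < Cv / Real.sqrt A := div_pos hCv hsA
  have hcV1 : cv / Real.sqrt A ≤ 1 := by
    rw [div_le_one hsA]
    exact Real.le_sqrt_of_sq_le hAcv
  have hlogA : 0 ≤ Real.log A := Real.log_nonneg (by linarith)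
  have hCu1 : 1 ≤ C0 * (1 + Real.log A) := by nlinarith
  have hCa0 : 0 ≤ C0a * (1 + Real.log A) := by nlinarith
  have hCab : C0a * (1 + Real.log A) ≤ C0 * (1 + Real.log A) :=
    mul_le_mul_of_nonneg_right hC0ab (by linarith)
  have hCbb : C0b * (1 + Real.log A) ≤ C0 * (1 + Real.log A) :=
    mul_le_mul_of_nonneg_right hC0bb (by linarith)
  obtain ⟨CM, hCM, C2q, hq0, hC2q, hhq0, hqs⟩ := hq A hAAq
  obtain ⟨Ct, kf, hCt, hkf, hfin'⟩ := hfin A hAA1 hAr2 CM (by linarith)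
  obtain ⟨CT, hCT, hlsys⟩ := lsy_size N d β δ Cy hN hβ hδ hCy A hA6
  obtain ⟨Cs, hCs, hsig⟩ := ls_sig N d Cy A
  obtain ⟨-, m2, m3, m4, m5, -⟩ := hmmb A Rc hAAm hRc
  have hd0 : (0 : ℝ) ≤ (d : ℝ) := Nat.cast_nonneg _
  have hdC : 0 ≤ 4 * (d : ℝ) * Cy := by positivity
  have hlog2 : 0 < Real.log 2 := Real.log_pos (by norm_num)
  have h3d : (0 : ℝ) < 3 ^ d := by positivity
  -- smallness of `k`
  obtain ⟨t, ht⟩ : ∃ t, t = min (1 / (8 * (4 * d * Cy + 1))) (Real.log 2 / (Ct * 3 ^ d)) := ⟨_, rfl⟩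
  have ht0 : 0 < t := by
    rw [ht]
    exact lt_min (by positivity) (by positivity)
  obtain ⟨k0, hk0⟩ : ∃ k0, k0 = min (min kf kh) (min (1 / (2 * A))
      (min (1 / (16 * A * (4 * d * Cy + 1))) (t ^ 2))) := ⟨_, rfl⟩
  have hk00 : 0 < k0 := by
    rw [hk0]
    exact lt_min (lt_min hkf hkh) (lt_min (by positivity) (lt_min (by positivity) (by positivity)))
  have hk0f : k0 ≤ kf := by rw [hk0]; exact (min_le_left _ _).trans (min_le_left _ _)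
  have hk0h : k0 ≤ kh := by rw [hk0]; exact (min_le_left _ _).trans (min_le_right _ _)
  have hk0A : k0 ≤ 1 / (2 * A) := by rw [hk0]; exact (min_le_right _ _).trans (min_le_left _ _)
  have hk0B : k0 ≤ 1 / (16 * A * (4 * d * Cy + 1)) := by
    rw [hk0]
    exact (min_le_right _ _).trans ((min_le_right _ _).trans (min_le_left _ _))
  have hk0t : k0 ≤ t ^ 2 := by
    rw [hk0]
    exact (min_le_right _ _).trans ((min_le_right _ _).trans (min_le_right _ _))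
  have hA_k : ∀ k, k ≤ k0 → A * k ≤ 1 / 2 := by
    intro k hk
    have h1 := mul_le_mul_of_nonneg_left (hk.trans hk0A) hA0.le
    have h2 : A * (1 / (2 * A)) = 1 / 2 := by field_simp
    linarith
  have hkd : ∀ k, 0 ≤ k → k ≤ k0 → k * (4 * d * Cy) ≤ 1 / (16 * A) := by
    intro k hk hk'
    have h1 : k * (4 * d * Cy) ≤ 1 / (16 * A * (4 * d * Cy + 1)) * (4 * d * Cy + 1) :=
      mul_le_mul (hk'.trans hk0B) (by linarith) hdC (by positivity)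
    have h2 : 1 / (16 * A * (4 * d * Cy + 1)) * (4 * d * Cy + 1) = 1 / (16 * A) := by
      have : (4 * (d : ℝ) * Cy + 1) ≠ 0 := by positivity
      field_simp
    linarith
  have hsk : ∀ k, k ≤ k0 → Real.sqrt k ≤ t := by
    intro k hk
    rw [← Real.sqrt_sq ht0.le]
    exact Real.sqrt_le_sqrt (hk.trans hk0t)
  have hkd2 : ∀ k, k ≤ k0 → 4 * d * Cy * Real.sqrt k ≤ 1 / 8 := by
    intro k hk
    have h1 : Real.sqrt k ≤ 1 / (8 * (4 * d * Cy + 1)) := (hsk k hk).trans (by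
      rw [ht]; exact min_le_left _ _)
    have h2 : 4 * d * Cy * Real.sqrt k ≤ (4 * d * Cy + 1) * (1 / (8 * (4 * d * Cy + 1))) :=
      mul_le_mul (by linarith) h1 (Real.sqrt_nonneg _) (by linarith)
    have h3 : (4 * (d : ℝ) * Cy + 1) * (1 / (8 * (4 * d * Cy + 1))) = 1 / 8 := by
      have : (4 * (d : ℝ) * Cy + 1) ≠ 0 := by positivity
      field_simp
    linarith
  have hkd3 : ∀ k, k ≤ k0 → Ct * Real.sqrt k * 3 ^ d ≤ Real.log 2 := by
    intro k hk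
    have h1 : Real.sqrt k ≤ Real.log 2 / (Ct * 3 ^ d) := (hsk k hk).trans (by
      rw [ht]; exact min_le_right _ _)
    have h2 := mul_le_mul_of_nonneg_left h1 (mul_pos hCt h3d).le
    have h3 : Ct * 3 ^ d * (Real.log 2 / (Ct * 3 ^ d)) = Real.log 2 := by field_simp
    linarith
  have hlsb : ∀ k, 0 ≤ k → k ≤ k0 → ∀ (ι : Type) [Fintype ι] (net : Net ι d), ∃ h0 : ℝ, 0 < h0 ∧
    ∀ (h : ℝ) (ν : Measure (E N)), 0 < h → h < h0 → IsNoise h ν →
    ∀ y : ℝ → ℝ, IsCorr N β h ν δ Cy y → ∀ G : ι → E N, (∀ x, ‖G x‖ ≤ 2 * rad β h) →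
      LSB net β Cy (C0 * (1 + Real.log A)) k A Rc (Ct * Real.sqrt k) y G := by
    intro k hk hk' ι _ net
    have hA16 : 1 / A ≤ 1 / 6 := one_div_le_one_div_of_le (by norm_num) hA6
    obtain ⟨C2c, h0, -, hh0, hctf⟩ := hct (1 / A) (by positivity) hA16
    refine ⟨h0, hh0, fun h ν hh hlt hν y hy G hG => ?_⟩
    obtain ⟨-, c2, c3, c4, -⟩ := hctf h ν hh hlt hν y hy
    rw [one_div_one_div] at c2
    exact {
      hN := hN
      hβ := hβ
      hCy := hCy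
      hCu := hCu1
      hA := hA6
      hRc := hRc
      hk := hk
      hk1 := hkd k hk hk'
      hks := hkd2 k hk'
      hAk := hA_k k hk'
      hθ := mul_nonneg hCt.le (Real.sqrt_nonneg _)
      hθ3 := hkd3 k hk'
      mm_pos := fun z => (m2 _ (norm_nonneg _)).1
      mm_le := fun z => (m2 _ (norm_nonneg _)).2
      mm_weak := fun z hz => m3 _ (norm_nonneg _) hz
      mm_high := fun z hz => m4 _ hz
      mm_up := fun z => m5 _ (norm_nonneg _)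
      ct_bdd := fun w => c3 _ (hG w)
      ct_lin := fun w => (c2 _).trans (mul_le_mul_of_nonneg_right hCbb (norm_nonneg _))
      ct_low := fun w hw => c4 _ hw }
  refine ⟨{
    δ := δ, Cy := Cy, hc := hc, C0 := C0, r2 := r2, Rc := Rc, A := A, Ct := Ct
    cV := cv / Real.sqrt A, CV := Cv / Real.sqrt A
    CA := 60 * (CT * Cs + (2 * CM * (1 + 16 * d ^ 2) + 2 * Ct ^ 2 * CH)) + 1
    k0 := k0
    hδ := hδ, hCy := hCy, hhc := hhc, hC0 := hC01, hr2 := hr2, hr21 := hr21, hRc := hRc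
    hA := hA6, hAr2 := hAr2, hCt := hCt, hCV := hCV
    hcV := ?_, hcV1 := hcV1, hCA := ?_, hk0 := hk00, hk01 := hA_k k0 le_rfl
    corr := hcorr
    lsb := hlsb
    drift := ?_ }⟩
  · rw [← mul_div_assoc]
    exact div_le_div_of_nonneg_right hDC hsA.le
  · positivity
  · intro k hk hk' ι _ net
    have hk1 : k ≤ 1 := hk'.trans (hk0h.trans hkh1)
    obtain ⟨C2y, hy0, hC2y, hhy0, hy⟩ := hlsy A hA6 k hk hk1 ι net
    obtain ⟨C2s, hs0, hC2s, hhs0, hs⟩ := hlsys k hk hk1 ι net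
    obtain ⟨C2h, hh0', hC2h, hhh0, hhs⟩ := hlsh k hk (hk'.trans hk0h) ι net
    obtain ⟨hb0, hhb0, hb⟩ := hlsb k hk hk' ι net
    obtain ⟨θ, hθ⟩ : ∃ θ, θ = Ct * Real.sqrt k := ⟨_, rfl⟩
    have hθ0 : 0 ≤ θ := by rw [hθ]; exact mul_nonneg hCt.le (Real.sqrt_nonneg _)
    have hθ1 : θ ≤ Ct := by
      rw [hθ]
      have h1 : Real.sqrt k ≤ 1 := Real.sqrt_le_one.2 hk1
      nlinarith
    obtain ⟨Ce, hCe⟩ : ∃ Ce, Ce = C2s * Real.sqrt Cs + CM * (1 + 4 * d) + θ * C2h := ⟨_, rfl⟩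
    obtain ⟨e1, he1, hs1⟩ := LSMain_small (Ce * (100 * Fintype.card ι)) 1 (3 / 8) one_pos
      (by norm_num)
    obtain ⟨e2, he2, hs2⟩ := LSMain_small (C2y * Cs + C2q + θ * C2h +
      1000 * (Fintype.card ι : ℝ) ^ 3 * Ce ^ 3) (cv / Real.sqrt A / 4) (1 / 8) (by positivity)
      (by norm_num)
    obtain ⟨e3, he3, hs3⟩ := LSMain_small (C2y * Cs + C2q + θ * C2h +
      1000 * (Fintype.card ι : ℝ) ^ 3 * Ce ^ 3) (Cv / Real.sqrt A / 2) (1 / 8) (by positivity)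
      (by norm_num)
    refine ⟨min (min (min hq0 hy0) (min hs0 hh0')) (min (min hb0 1) (min e1 (min e2 e3))), ?_, ?_⟩
    · exact lt_min (lt_min (lt_min hhq0 hhy0) (lt_min hhs0 hhh0))
        (lt_min (lt_min hhb0 one_pos) (lt_min he1 (lt_min he2 he3)))
    · intro h ν hh hlt hν y hyc G hG x hx
      simp only [lt_min_iff] at hlt
      obtain ⟨⟨⟨l1, l2⟩, ⟨l3, l4⟩⟩, ⟨⟨l5, l6⟩, ⟨l7, ⟨l8, l9⟩⟩⟩⟩ := hlt
      obtain ⟨U, hU1, hU2⟩ := hy h ν hh l2 hν y hyc G hG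
      have hrad0 : 0 ≤ rad β h := (LSMain_rad hh).1
      have hB := hb h ν hh l5 hν y hyc G (fun x => (hG x).trans (by linarith))
      have hpos := ls_pos hB x hx
      have hsg := hsig hB x
      rw [← hθ] at hB hpos hsg ⊢
      obtain ⟨L, hL1, hL2, hL3, hL4⟩ := LSMain_drift (δ := δ) (r2 := r2) (cv := cv) (Cv := Cv)
        (CM := CM) (C2q := C2q) (C2y := C2y) (CT := CT) (C2s := C2s) (ch := ch) (CH := CH)
        (C2h := C2h) (Cs := Cs) (Cb := C0 * (1 + Real.log A)) (Ca := C0a * (1 + Real.log A))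
        (Ce := Ce) net x hβ hk hk1 hh l6.le hν hyc.prof.mono hG hA0 hCT hCs hC2s hCM hθ0 hC2h hC2y
        hC2q hcV hCV hcV1 hCa0 hCab (fun r hr => (m2 r hr).1) (hqs h ν hh l1 hν) hU1 hU2
        (hs h ν hh l3 hν y hyc G hG) (hhs h ν hh l4 hν G hG) hsg (by
          intro lam eta hLSU
          have h1 := hfin' hk (hk'.trans hk0f) (by rw [← hθ]; exact hB) hLSU x
          rw [← hθ] at h1
          exact h1) hpos hCe (by
          have := hs1 h hh l7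
          linarith) (hs2 h hh l8) (hs3 h hh l9)
      refine ⟨L, hL1, hL2, hL3, hL4.trans ?_⟩
      refine mul_le_mul_of_nonneg_right ?_ hh.le
      have h1 : θ ^ 2 ≤ Ct ^ 2 := pow_le_pow_left₀ hθ0 hθ1 2
      have h2 := mul_le_mul_of_nonneg_right h1 hCH.le
      linarith

end Dyn
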