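import Pool.Agent.Lib_MP_36b788.PathM

/-!
# PATHC: coupling bound for path functionals

PROOF. Induction on the list, for all `G, G'`. Empty list: left side `0`. `f :: fs`: if `G` or `G'` is not alive, then
`exitE (n+1) = 1` and the left side is `≤ 2`. Otherwise take `Q` from `hstep`. Invariance of `pim ι ν` under `(ξ_z) ↦ (Q_zξ_z)`
(IsNoise.iso; `Measure.pi_map_pi` or `noise_int_comp` coordinatewise) gives
`∫ pathE fs (stp G' ξ) = ∫ pathE fs (stp G' (Qξ))`, so the difference is at most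
`‖f G - f G'‖ + ∫‖pathE fs (stp G ξ) - pathE fs (stp G' (Qξ))‖ ≤ wΦ + ∫(wsum Φ(stp G ξ, stp G' (Qξ)) + 2(exit + exit'))
≤ (w + ρ wsum)Φ(G,G') + 2(exitE (n+1) G + exitE (n+1) G')`; a.e. `Gd` holds for both new states (for the second: the
a.e. statement is transported by the invariance).
-/

open MeasureTheory ProbabilityTheory

namespace Dyn

private theorem PathC_wsum_nonneg {ρ : ℝ} (hρ : 0 ≤ ρ) (l : List ℝ) (hl : ∀ w ∈ l, 0 ≤ w) :
    0 ≤ wsum ρ l := by
  induction l with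
  | nil => exact le_rfl
  | cons w l ih =>
    have h1 := hl w (by simp)
    have h2 := ih (fun w' hw' => hl w' (List.mem_cons_of_mem _ hw'))
    show 0 ≤ w + ρ * wsum ρ l
    exact add_nonneg h1 (mul_nonneg hρ h2)

private theorem PathC_mp {N : ℕ} {ι : Type} [Fintype ι] {h : ℝ} {ν : Measure (E N)} (hν : IsNoise h ν)
    (Q : ι → (E N ≃ₗᵢ[ℝ] E N)) :
    MeasurePreserving (fun (ξ : ι → E N) z => Q z (ξ z)) (pim ι ν) (pim ι ν) := by
  have := hν.prob
  unfold pim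
  refine measurePreserving_pi (fun _ : ι => ν) (fun _ : ι => ν) (f := fun z => Q z) (fun z => ?_)
  exact ⟨(Q z).continuous.measurable, hν.iso (Q z)⟩

private theorem PathC_sm {N d : ℕ} {ι : Type} [Fintype ι] {net : Net ι d} {β h k : ℝ} (hβ : 0 < β)
    (hh : 0 ≤ h) (G : ι → E N) : Measurable (fun ξ : ι → E N => stp net β h k G ξ) := by
  have h1 := (stp_continuous (N := N) hβ hh k net)
  have h2 : Continuous (fun ξ : ι → E N => (G, ξ)) := by fun_prop
  exact (h1.comp h2).measurable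

/-- the bound for one step, for arbitrary functions -/
private theorem PathC_step {N : ℕ} {ι : Type} [Fintype ι] {h : ℝ}
    {ν : Measure (E N)} (hν : IsNoise h ν) (Q : ι → (E N ≃ₗᵢ[ℝ] E N))
    (P : (ι → E N) → ℂ) (hPm : Measurable P) (hPb : ∀ G, ‖P G‖ ≤ 1)
    (ex : (ι → E N) → ℝ) (hem : Measurable ex) (heb : ∀ G, 0 ≤ ex G ∧ ex G ≤ 1)
    (S S' : (ι → E N) → (ι → E N)) (hS : Measurable S) (hS' : Measurable S')
    (Φ : (ι → E N) → (ι → E N) → ℝ) (Gd : (ι → E N) → Prop) (W : ℝ)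
    (hint : Integrable (fun ξ => Φ (S ξ) (S' (fun z => Q z (ξ z)))) (pim ι ν))
    (a1 : ∀ᵐ ξ ∂(pim ι ν), Gd (S ξ)) (a2 : ∀ᵐ ξ ∂(pim ι ν), Gd (S' ξ))
    (ih : ∀ G G', Gd G → Gd G' → ‖P G - P G'‖ ≤ W * Φ G G' + 2 * (ex G + ex G')) :
    ‖(∫ ξ, P (S ξ) ∂(pim ι ν)) - ∫ ξ, P (S' ξ) ∂(pim ι ν)‖ ≤
      W * (∫ ξ, Φ (S ξ) (S' (fun z => Q z (ξ z))) ∂(pim ι ν)) +
        2 * ((∫ ξ, ex (S ξ) ∂(pim ι ν)) + ∫ ξ, ex (S' ξ) ∂(pim ι ν)) := by
  have hP := hν.prob
  have hPP : IsProbabilityMeasure (pim ι ν) := by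
    unfold pim
    infer_instance
  have hmp := PathC_mp hν Q
  have e3 : ∫ ξ, ex (S' ξ) ∂(pim ι ν) = ∫ ξ, ex (S' (fun z => Q z (ξ z))) ∂(pim ι ν) := by
    conv_lhs => rw [← hmp.map_eq]
    exact integral_map hmp.measurable.aemeasurable (hem.comp hS').aestronglyMeasurable
  have e4 : ∫ ξ, P (S' ξ) ∂(pim ι ν) = ∫ ξ, P (S' (fun z => Q z (ξ z))) ∂(pim ι ν) := by
    conv_lhs => rw [← hmp.map_eq]
    exact integral_map hmp.measurable.aemeasurable (hPm.comp hS').aestronglyMeasurable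
  have i1 : Integrable (fun ξ => ex (S ξ)) (pim ι ν) := by
    refine Integrable.of_bound (C := 1) (hem.comp hS).aestronglyMeasurable
      (Filter.Eventually.of_forall fun ξ => ?_)
    rw [Real.norm_of_nonneg (heb _).1]
    exact (heb _).2
  have i2 : Integrable (fun ξ => ex (S' (fun z => Q z (ξ z)))) (pim ι ν) := by
    refine Integrable.of_bound (C := 1)
      (hem.comp (hS'.comp hmp.measurable)).aestronglyMeasurable
      (Filter.Eventually.of_forall fun ξ => ?_)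
    rw [Real.norm_of_nonneg (heb _).1]
    exact (heb _).2
  have i3 : Integrable (fun ξ => P (S ξ)) (pim ι ν) :=
    Integrable.of_bound (C := 1) (hPm.comp hS).aestronglyMeasurable
      (Filter.Eventually.of_forall fun ξ => hPb _)
  have i4 : Integrable (fun ξ => P (S' (fun z => Q z (ξ z)))) (pim ι ν) :=
    Integrable.of_bound (C := 1) (hPm.comp (hS'.comp hmp.measurable)).aestronglyMeasurable
      (Filter.Eventually.of_forall fun ξ => hPb _)
  have a2' : ∀ᵐ ξ ∂(pim ι ν), Gd (S' (fun z => Q z (ξ z))) :=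
    hmp.quasiMeasurePreserving.ae a2
  rw [e4, ← integral_sub i3 i4]
  have i5 : Integrable (fun ξ => W * Φ (S ξ) (S' (fun z => Q z (ξ z))) +
      2 * (ex (S ξ) + ex (S' (fun z => Q z (ξ z))))) (pim ι ν) :=
    (hint.const_mul _).add ((i1.add i2).const_mul _)
  refine (norm_integral_le_of_norm_le i5 ?_).trans ?_
  · filter_upwards [a1, a2'] with ξ h1 h2
    exact ih _ _ h1 h2
  · have j1 : ∫ ξ, (W * Φ (S ξ) (S' (fun z => Q z (ξ z))) +
        2 * (ex (S ξ) + ex (S' (fun z => Q z (ξ z))))) ∂(pim ι ν) =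
        W * (∫ ξ, Φ (S ξ) (S' (fun z => Q z (ξ z))) ∂(pim ι ν)) +
        2 * ((∫ ξ, ex (S ξ) ∂(pim ι ν)) + ∫ ξ, ex (S' (fun z => Q z (ξ z))) ∂(pim ι ν)) := by
      have j2 := integral_add (hint.const_mul W) ((i1.add i2).const_mul 2)
      have j3 := integral_add i1 i2
      simp only [Pi.add_apply] at j2 j3
      rw [j2, integral_const_mul, integral_const_mul, j3]
    rw [j1, e3]

theorem path_coupling {N d : ℕ} {ι : Type} [Fintype ι] {net : Net ι d} {β h k : ℝ}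
    {ν : Measure (E N)} (hβ : 0 < β) (hh : 0 < h) (hν : IsNoise h ν)
    (Φ : (ι → E N) → (ι → E N) → ℝ) (hΦ0 : ∀ G G', 0 ≤ Φ G G')
    (hΦm : Measurable (fun q : (ι → E N) × (ι → E N) => Φ q.1 q.2))
    (ρ : ℝ) (hρ0 : 0 ≤ ρ) (Gd : (ι → E N) → Prop)
    (hGd : ∀ G, (∀ x, ‖G x‖ ≤ rad β h) → Gd G → ∀ᵐ ξ ∂(pim ι ν), Gd (stp net β h k G ξ))
    (hstep : ∀ G G', (∀ x, ‖G x‖ ≤ rad β h) → (∀ x, ‖G' x‖ ≤ rad β h) → Gd G → Gd G' →
      ∃ Q : ι → (E N ≃ₗᵢ[ℝ] E N),
        Integrable (fun ξ => Φ (stp net β h k G ξ) (stp net β h k G' (fun z => Q z (ξ z)))) (pim ι ν) ∧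
        ∫ ξ, Φ (stp net β h k G ξ) (stp net β h k G' (fun z => Q z (ξ z))) ∂(pim ι ν) ≤
          ρ * Φ G G')
    (fs : List (((ι → E N) → ℂ) × ℝ))
    (hfs : ∀ q ∈ fs, Measurable q.1 ∧ (∀ G, ‖q.1 G‖ ≤ 1) ∧ 0 ≤ q.2 ∧
      ∀ G G', Gd G → Gd G' → ‖q.1 G - q.1 G'‖ ≤ q.2 * Φ G G') :
    ∀ G G', Gd G → Gd G' →
      ‖pathE net β h k ν (fs.map Prod.fst) G - pathE net β h k ν (fs.map Prod.fst) G'‖ ≤
        wsum ρ (fs.map Prod.snd) * Φ G G'
          + 2 * (exitE net β h k ν fs.length G + exitE net β h k ν fs.length G') := by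
  have hP := hν.prob
  have hPP : IsProbabilityMeasure (pim ι ν) := by
    unfold pim
    infer_instance
  induction fs with
  | nil =>
    intro G G' _ _
    show ‖(1 : ℂ) - 1‖ ≤ 0 * Φ G G' + 2 * ((0 : ℝ) + 0)
    simp
  | cons q fs ih =>
    intro G G' hG hG'
    have hfs' : ∀ q ∈ fs, Measurable q.1 ∧ (∀ G, ‖q.1 G‖ ≤ 1) ∧ 0 ≤ q.2 ∧
        ∀ G G', Gd G → Gd G' → ‖q.1 G - q.1 G'‖ ≤ q.2 * Φ G G' :=
      fun q' hq' => hfs q' (List.mem_cons_of_mem _ hq')
    have ih' := ih hfs'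
    obtain ⟨hqm, hqb, hq0, hqL⟩ := hfs q (by simp)
    obtain ⟨hPm, hPb⟩ := pathE_facts (net := net) (k := k) (ν := ν) hβ hh.le (fs.map Prod.fst)
      (by
        intro f hf
        obtain ⟨q', hq', rfl⟩ := List.mem_map.1 hf
        exact (hfs' q' hq').1)
      (by
        intro f hf
        obtain ⟨q', hq', rfl⟩ := List.mem_map.1 hf
        exact (hfs' q' hq').2.1)
    obtain ⟨hem, heb⟩ := exitE_facts (net := net) (k := k) (ν := ν) hβ hh.le fs.length
    obtain ⟨_, heb1⟩ := exitE_facts (net := net) (k := k) (ν := ν) hβ hh.le (fs.length + 1)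
    have hw0 : 0 ≤ wsum ρ (fs.map Prod.snd) := by
      apply PathC_wsum_nonneg hρ0
      intro w hw
      obtain ⟨q', hq', rfl⟩ := List.mem_map.1 hw
      exact (hfs' q' hq').2.2.1
    have eP : ∀ G, pathE net β h k ν ((q :: fs).map Prod.fst) G =
        q.1 G * ∫ ξ, pathE net β h k ν (fs.map Prod.fst) (stp net β h k G ξ) ∂(pim ι ν) :=
      fun _ => rfl
    have eW : wsum ρ ((q :: fs).map Prod.snd) = q.2 + ρ * wsum ρ (fs.map Prod.snd) := rfl
    have eL : (q :: fs).length = fs.length + 1 := rfl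
    have eE : ∀ G : ι → E N, (∀ x, ‖G x‖ ≤ rad β h) → exitE net β h k ν (fs.length + 1) G =
        ∫ ξ, exitE net β h k ν fs.length (stp net β h k G ξ) ∂(pim ι ν) := by
      intro G hG
      rw [exitE, if_pos hG]
    have eN : ∀ G : ι → E N, ¬ (∀ x, ‖G x‖ ≤ rad β h) → exitE net β h k ν (fs.length + 1) G = 1 := by
      intro G hG
      rw [exitE, if_neg hG]
    rw [eP, eP, eW, eL]
    clear eP eW eL
    generalize hPe : pathE net β h k ν (fs.map Prod.fst) = P at *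
    generalize hee : exitE net β h k ν fs.length = ex at *
    generalize he1 : exitE net β h k ν (fs.length + 1) = ex1 at *
    generalize hWe : wsum ρ (fs.map Prod.snd) = W at *
    -- norms of the integrals
    have hI : ∀ G, ‖∫ ξ, P (stp net β h k G ξ) ∂(pim ι ν)‖ ≤ 1 := by
      intro G
      have h1 := norm_integral_le_of_norm_le_const (μ := pim ι ν)
        (f := fun ξ => P (stp net β h k G ξ)) (C := 1)
        (Filter.Eventually.of_forall fun ξ => hPb _)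
      simpa using h1
    have hΦ := hΦ0 G G'
    have hw1 : 0 ≤ (q.2 + ρ * W) * Φ G G' :=
      mul_nonneg (add_nonneg hq0 (mul_nonneg hρ0 hw0)) hΦ
    by_cases hal : (∀ x, ‖G x‖ ≤ rad β h) ∧ (∀ x, ‖G' x‖ ≤ rad β h)
    · obtain ⟨ha, ha'⟩ := hal
      obtain ⟨Q, hint, hle⟩ := hstep G G' ha ha' hG hG'
      have hdiff := PathC_step hν Q P hPm hPb ex hem heb (fun ξ => stp net β h k G ξ)
        (fun ξ => stp net β h k G' ξ) (PathC_sm hβ hh.le G) (PathC_sm hβ hh.le G') Φ Gd W hint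
        (hGd G ha hG) (hGd G' ha' hG') ih'
      rw [← eE G ha, ← eE G' ha'] at hdiff
      have h3 := mul_le_mul_of_nonneg_left hle hw0
      have h4 : W * (ρ * Φ G G') = ρ * W * Φ G G' := by ring
      have hsplit : q.1 G * (∫ ξ, P (stp net β h k G ξ) ∂(pim ι ν)) -
          q.1 G' * (∫ ξ, P (stp net β h k G' ξ) ∂(pim ι ν)) =
          (q.1 G - q.1 G') * (∫ ξ, P (stp net β h k G ξ) ∂(pim ι ν)) +
          q.1 G' * ((∫ ξ, P (stp net β h k G ξ) ∂(pim ι ν)) -
            ∫ ξ, P (stp net β h k G' ξ) ∂(pim ι ν)) := by ring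
      rw [hsplit]
      refine (norm_add_le _ _).trans ?_
      rw [norm_mul, norm_mul]
      have h5 : ‖q.1 G - q.1 G'‖ * ‖∫ ξ, P (stp net β h k G ξ) ∂(pim ι ν)‖ ≤ q.2 * Φ G G' := by
        calc ‖q.1 G - q.1 G'‖ * ‖∫ ξ, P (stp net β h k G ξ) ∂(pim ι ν)‖
            ≤ ‖q.1 G - q.1 G'‖ * 1 := mul_le_mul_of_nonneg_left (hI G) (norm_nonneg _)
          _ ≤ q.2 * Φ G G' := by
              rw [mul_one]
              exact hqL G G' hG hG'
      have h6 : ‖q.1 G'‖ * ‖(∫ ξ, P (stp net β h k G ξ) ∂(pim ι ν)) -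
          ∫ ξ, P (stp net β h k G' ξ) ∂(pim ι ν)‖ ≤
          1 * ‖(∫ ξ, P (stp net β h k G ξ) ∂(pim ι ν)) -
          ∫ ξ, P (stp net β h k G' ξ) ∂(pim ι ν)‖ :=
        mul_le_mul_of_nonneg_right (hqb G') (norm_nonneg _)
      have h7 : (q.2 + ρ * W) * Φ G G' = q.2 * Φ G G' + ρ * W * Φ G G' := by ring
      linarith
    · have h1 : 1 ≤ ex1 G + ex1 G' := by
        rw [not_and_or] at hal
        have k1 := (heb1 G).1
        have k2 := (heb1 G').1
        rcases hal with hal | hal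
        · have := eN G hal
          linarith
        · have := eN G' hal
          linarith
      have h2 : ‖q.1 G * (∫ ξ, P (stp net β h k G ξ) ∂(pim ι ν)) -
          q.1 G' * (∫ ξ, P (stp net β h k G' ξ) ∂(pim ι ν))‖ ≤ 2 := by
        refine (norm_sub_le _ _).trans ?_
        rw [norm_mul, norm_mul]
        have k1 := mul_le_one₀ (hqb G) (norm_nonneg _) (hI G)
        have k2 := mul_le_one₀ (hqb G') (norm_nonneg _) (hI G')
        linarith
      linarith

end Dyn
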