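import Pool.Agent.Lib_MP_36b788.UGen

/-!
# GSITE: one step of `gf n R6 r5`

`g(r) = (1/(2n)) log(r^n+R6^n) - ¼ log(r²+r5²)`, `n` natural, `β ≤ n`, `0 < r5 ≤ 1 ≤ R6`.
`t = r^n/(r^n+R6^n)`, `s5 = r5²/(r²+r5²)`, `κ(r) := ¼ n t(1-t) - (½(N-2) - r^β)·½(1-t) + ¼(N-2)s5`.

PROOF. In `u = log r`: `g' = ½t - ½(1-s5) = -½(1-t)+½s5`, `g'' = ½n t(1-t) - s5(1-s5)`,
`½g''+(½(N-2)-r^β)g' = κ(r) - ½s5(1-s5) - ½r^βs5 ≤ κ(r)`. `g`, as a function of `u`, has bounded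
derivatives up to order 3 (polynomials in `t`, `s5`), `|g'| ≤ ½`. Use UGEN. As a function of `r ≥ 0`, `g` is
Lipschitz with constant `1/r5`: `∂_r g = ½ r^(n-1)/(r^n+R6^n) - ½ r/(r²+r5²)`, and
`r^(n-1)/(r^n+R6^n) ≤ 1/R6 ≤ 1/r5`, `r/(r²+r5²) ≤ 1/(2r5)`; so the shift costs `‖w‖/r5`.
Second moment: `(Δg)² ≤ 2(½δ)² + 2‖w‖²/r5²`, `∫δ² ≤ 2h` (UGEN_log).
`g = 0 ∈ E N`: `hat = 0`, `κ(0) = 0` and `0^β = 0`.
`gf_bounds`: `g = ½ log [ (r^n+R6^n)^{1/n} / (r²+r5²)^{1/2} ]`; `(r^n+R6^n)^{1/n} ≥ max(r,R6)`,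
`(r²+r5²)^{1/2} ≤ √2 max(r,r5)`, so `g ≥ -¼ log 2 ≥ -1`; `(r^n+R6^n)^{1/n} ≤ r+R6`,
`(r²+r5²)^{1/2} ≥ max(r,r5)`, so `g ≤ ½ log(1+R6/r5)`.
-/

open MeasureTheory

namespace Dyn

noncomputable section

/-- upper bound for the drift of `gf` -/
def kapG (N : ℕ) (β : ℝ) (n : ℕ) (R6 r5 r : ℝ) : ℝ :=
  1 / 4 * n * (r ^ n / (r ^ n + R6 ^ n)) * (R6 ^ n / (r ^ n + R6 ^ n))
    - (1 / 2 * (N - 2) - r ^ β) * (1 / 2) * (R6 ^ n / (r ^ n + R6 ^ n))
    + 1 / 4 * (N - 2) * (r5 ^ 2 / (r ^ 2 + r5 ^ 2))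

end

theorem gf_bounds (n : ℕ) (hn : 1 ≤ n) (R6 r5 : ℝ) (h5 : 0 < r5) (h51 : r5 ≤ 1) (h6 : 1 ≤ R6) :
    ∀ r, 0 ≤ r → -1 ≤ gf n R6 r5 r ∧ gf n R6 r5 r ≤ 1 / 2 * Real.log (1 + R6 / r5) := by
  intro r hr
  have hn0 : (0 : ℝ) < n := by exact_mod_cast hn
  have hR : 0 < R6 := by linarith
  have hRn : 0 < R6 ^ n := pow_pos hR n
  have hrn : 0 ≤ r ^ n := pow_nonneg hr n
  have hsum : 0 < r ^ n + R6 ^ n := by linarith
  have hq : 0 < r ^ 2 + r5 ^ 2 := by positivity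
  constructor
  · set m := max r R6 with hm
    have hm1 : 1 ≤ m := h6.trans (le_max_right _ _)
    have hm0 : 0 < m := by linarith
    have hmr : r ≤ m := le_max_left _ _
    have h1 : m ^ n ≤ r ^ n + R6 ^ n := by
      rcases max_choice r R6 with h | h
      · rw [hm, h]; linarith
      · rw [hm, h]; linarith
    have h2 : n * Real.log m ≤ Real.log (r ^ n + R6 ^ n) := by
      rw [← Real.log_pow]
      exact Real.log_le_log (pow_pos hm0 n) h1
    have h3 : r ^ 2 + r5 ^ 2 ≤ 2 * m ^ 2 := by nlinarith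
    have h4 : Real.log (r ^ 2 + r5 ^ 2) ≤ Real.log 2 + 2 * Real.log m := by
      have h5' := Real.log_le_log hq h3
      rw [Real.log_mul (by norm_num) (by positivity), Real.log_pow] at h5'
      exact_mod_cast h5'
    have h7 : Real.log 2 ≤ 1 := by
      have := Real.log_le_sub_one_of_pos (show (0 : ℝ) < 2 by norm_num)
      linarith
    have h8 : 1 / 2 * Real.log m ≤ 1 / (2 * n) * Real.log (r ^ n + R6 ^ n) := by
      have h9 : 1 / 2 * Real.log m = 1 / (2 * (n : ℝ)) * (n * Real.log m) := by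
        field_simp
      rw [h9]
      exact mul_le_mul_of_nonneg_left h2 (by positivity)
    unfold gf
    linarith
  · set M := max r r5 with hM
    have hM0 : 0 < M := h5.trans_le (le_max_right _ _)
    have hMr : r ≤ M := le_max_left _ _
    have hM5 : r5 ≤ M := le_max_right _ _
    have h1 : r ^ n + R6 ^ n ≤ (r + R6) ^ n := pow_add_pow_le hr hR.le (by omega)
    have h2 : Real.log (r ^ n + R6 ^ n) ≤ n * Real.log (r + R6) := by
      rw [← Real.log_pow]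
      exact Real.log_le_log hsum h1
    have h3 : M ^ 2 ≤ r ^ 2 + r5 ^ 2 := by
      rcases max_choice r r5 with h | h
      · rw [hM, h]; nlinarith
      · rw [hM, h]; nlinarith
    have h4 : 2 * Real.log M ≤ Real.log (r ^ 2 + r5 ^ 2) := by
      have h5' := Real.log_le_log (by positivity) h3
      rw [Real.log_pow] at h5'
      exact_mod_cast h5'
    have h6' : r + R6 ≤ (1 + R6 / r5) * M := by
      have h7 : R6 ≤ R6 / r5 * M := by
        rw [div_mul_eq_mul_div, le_div_iff₀ h5]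
        exact mul_le_mul_of_nonneg_left hM5 hR.le
      nlinarith
    have h8 : Real.log (r + R6) ≤ Real.log (1 + R6 / r5) + Real.log M := by
      have h9 := Real.log_le_log (by linarith) h6'
      rwa [Real.log_mul (by positivity) hM0.ne'] at h9
    have h10 : 1 / (2 * n) * Real.log (r ^ n + R6 ^ n) ≤ 1 / 2 * Real.log (r + R6) := by
      have h9 : 1 / 2 * Real.log (r + R6) = 1 / (2 * (n : ℝ)) * (n * Real.log (r + R6)) := by
        field_simp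
      rw [h9]
      exact mul_le_mul_of_nonneg_left h2 (by positivity)
    unfold gf
    linarith

/-- derivative of `gf` in `r ≥ 0` -/
theorem GSite_hasDerivAt (n : ℕ) (hn : 1 ≤ n) (R6 r5 : ℝ) (h5 : 0 < r5) (h6 : 1 ≤ R6) (r : ℝ)
    (hr : 0 ≤ r) : HasDerivAt (gf n R6 r5)
      (1 / 2 * (r ^ (n - 1) / (r ^ n + R6 ^ n)) - 1 / 2 * (r / (r ^ 2 + r5 ^ 2))) r := by
  have hn0 : (0 : ℝ) < n := by exact_mod_cast hn
  have hR : 0 < R6 := by linarith
  have hsum : 0 < r ^ n + R6 ^ n := by positivity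
  have hq : 0 < r ^ 2 + r5 ^ 2 := by positivity
  have h1 : HasDerivAt (fun r : ℝ => r ^ n + R6 ^ n) (n * r ^ (n - 1)) r :=
    (hasDerivAt_pow n r).add_const _
  have h2 : HasDerivAt (fun r : ℝ => r ^ 2 + r5 ^ 2) (2 * r) r := by
    have := (hasDerivAt_pow 2 r).add_const (r5 ^ 2)
    simpa using this
  have h3 := ((h1.log hsum.ne').const_mul (1 / (2 * (n : ℝ)))).sub
    ((h2.log hq.ne').const_mul (1 / 4))
  refine h3.congr_deriv ?_
  field_simp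
  ring

/-- `gf` is Lipschitz with constant `1/r5` -/
theorem GSite_lip (n : ℕ) (hn : 1 ≤ n) (R6 r5 : ℝ) (h5 : 0 < r5) (h51 : r5 ≤ 1) (h6 : 1 ≤ R6)
    {r r' : ℝ} (hr : 0 ≤ r) (hr' : 0 ≤ r') :
    |gf n R6 r5 r' - gf n R6 r5 r| ≤ |r' - r| / r5 := by
  have hR : 0 < R6 := by linarith
  have key : ∀ x ∈ Set.Ici (0 : ℝ),
      ‖1 / 2 * (x ^ (n - 1) / (x ^ n + R6 ^ n)) - 1 / 2 * (x / (x ^ 2 + r5 ^ 2))‖ ≤ 1 / r5 := by
    intro x hx
    have hx0 : 0 ≤ x := hx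
    have hsum : 0 < x ^ n + R6 ^ n := by positivity
    have hq : 0 < x ^ 2 + r5 ^ 2 := by positivity
    have e1 : 0 ≤ x ^ (n - 1) / (x ^ n + R6 ^ n) := by positivity
    have e2 : x ^ (n - 1) / (x ^ n + R6 ^ n) ≤ 1 := by
      rw [div_le_one hsum]
      rcases le_total x 1 with hx1 | hx1
      · have h1 : x ^ (n - 1) ≤ 1 := pow_le_one₀ hx0 hx1
        have h2 : 1 ≤ R6 ^ n := one_le_pow₀ h6
        have h3 : 0 ≤ x ^ n := pow_nonneg hx0 n
        linarith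
      · have h1 : x ^ (n - 1) ≤ x ^ n := pow_le_pow_right₀ hx1 (by omega)
        have h2 : 0 < R6 ^ n := pow_pos hR n
        linarith
    have e3 : 0 ≤ x / (x ^ 2 + r5 ^ 2) := by positivity
    have e4 : x / (x ^ 2 + r5 ^ 2) ≤ 1 / r5 := by
      rw [div_le_div_iff₀ hq h5]
      nlinarith [sq_nonneg (x - r5)]
    have e5 : 1 ≤ 1 / r5 := by
      rw [le_div_iff₀ h5]; linarith
    rw [Real.norm_eq_abs, abs_le]
    constructor <;> linarith
  have h := Convex.norm_image_sub_le_of_norm_hasDerivWithin_le (f := gf n R6 r5)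
    (f' := fun x => 1 / 2 * (x ^ (n - 1) / (x ^ n + R6 ^ n)) - 1 / 2 * (x / (x ^ 2 + r5 ^ 2)))
    (s := Set.Ici 0) (x := r) (y := r') (C := 1 / r5)
    (fun x hx => (GSite_hasDerivAt n hn R6 r5 h5 h6 x hx).hasDerivWithinAt) key (convex_Ici 0)
    hr hr'
  rw [Real.norm_eq_abs, Real.norm_eq_abs] at h
  rw [div_eq_mul_one_div, mul_comm]
  exact h

theorem GSite_hasDerivAt_expn (n : ℕ) (u : ℝ) :
    HasDerivAt (fun u : ℝ => Real.exp u ^ n) (n * Real.exp u ^ n) u := by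
  have h := (Real.hasDerivAt_exp u).pow n
  refine h.congr_deriv ?_
  rcases Nat.eq_zero_or_pos n with h0 | h0
  · subst h0; simp
  · obtain ⟨m, rfl⟩ : ∃ m, n = m + 1 := ⟨n - 1, by omega⟩
    simp only [Nat.add_sub_cancel]
    ring

/-- first derivative in `u = log r` -/
theorem GSite_d1 (n : ℕ) (hn : 1 ≤ n) (R6 r5 : ℝ) (h5 : 0 < r5) (h6 : 1 ≤ R6) (u : ℝ) :
    HasDerivAt (fun u => gf n R6 r5 (Real.exp u))
      (-(1 / 2) * (R6 ^ n / (Real.exp u ^ n + R6 ^ n))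
        + 1 / 2 * (r5 ^ 2 / (Real.exp u ^ 2 + r5 ^ 2))) u := by
  have hn0 : (0 : ℝ) < n := by exact_mod_cast hn
  have hR : 0 < R6 := by linarith
  have hu : 0 < Real.exp u := Real.exp_pos u
  have hsum : 0 < Real.exp u ^ n + R6 ^ n := by positivity
  have hq : 0 < Real.exp u ^ 2 + r5 ^ 2 := by positivity
  have h1 := (GSite_hasDerivAt_expn n u).add_const (R6 ^ n)
  have h2 := (GSite_hasDerivAt_expn 2 u).add_const (r5 ^ 2)
  have h3 := ((h1.log hsum.ne').const_mul (1 / (2 * (n : ℝ)))).sub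
    ((h2.log hq.ne').const_mul (1 / 4))
  refine h3.congr_deriv ?_
  push_cast
  field_simp
  ring

/-- second derivative in `u = log r` -/
theorem GSite_d2 (n : ℕ) (R6 r5 : ℝ) (h5 : 0 < r5) (h6 : 1 ≤ R6) (u : ℝ) :
    HasDerivAt (fun u => -(1 / 2) * (R6 ^ n / (Real.exp u ^ n + R6 ^ n))
        + 1 / 2 * (r5 ^ 2 / (Real.exp u ^ 2 + r5 ^ 2)))
      (1 / 2 * n * (Real.exp u ^ n * R6 ^ n / (Real.exp u ^ n + R6 ^ n) ^ 2)
        - Real.exp u ^ 2 * r5 ^ 2 / (Real.exp u ^ 2 + r5 ^ 2) ^ 2) u := by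
  have hR : 0 < R6 := by linarith
  have hu : 0 < Real.exp u := Real.exp_pos u
  have hsum : 0 < Real.exp u ^ n + R6 ^ n := by positivity
  have hq : 0 < Real.exp u ^ 2 + r5 ^ 2 := by positivity
  have h1 := (GSite_hasDerivAt_expn n u).add_const (R6 ^ n)
  have h2 := (GSite_hasDerivAt_expn 2 u).add_const (r5 ^ 2)
  have h3 := (((hasDerivAt_const u (R6 ^ n)).div h1 hsum.ne').const_mul (-(1 / 2) : ℝ)).add
    (((hasDerivAt_const u (r5 ^ 2)).div h2 hq.ne').const_mul (1 / 2 : ℝ))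
  refine h3.congr_deriv ?_
  push_cast
  field_simp
  ring

theorem GSite_d3_aux (n : ℕ) {A : ℝ} (hA : 0 < A) (u : ℝ) :
    HasDerivAt (fun u => Real.exp u ^ n * A / (Real.exp u ^ n + A) ^ 2)
      (n * (Real.exp u ^ n * A * (A - Real.exp u ^ n) / (Real.exp u ^ n + A) ^ 3)) u := by
  have ha : 0 < Real.exp u ^ n := by positivity
  have h0 := GSite_hasDerivAt_expn n u
  have h1 : HasDerivAt (fun u => (Real.exp u ^ n + A) ^ 2)
      (2 * (Real.exp u ^ n + A) * (n * Real.exp u ^ n)) u := by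
    have := (h0.add_const A).fun_pow 2
    simpa using this
  have h2 := (h0.mul_const A).fun_div h1 (by positivity)
  refine h2.congr_deriv ?_
  generalize Real.exp u ^ n = a at *
  field_simp
  ring

/-- third derivative in `u = log r` -/
theorem GSite_d3 (n : ℕ) (R6 r5 : ℝ) (h5 : 0 < r5) (h6 : 1 ≤ R6) (u : ℝ) :
    HasDerivAt (fun u => 1 / 2 * n * (Real.exp u ^ n * R6 ^ n / (Real.exp u ^ n + R6 ^ n) ^ 2)
        - Real.exp u ^ 2 * r5 ^ 2 / (Real.exp u ^ 2 + r5 ^ 2) ^ 2)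
      (1 / 2 * n ^ 2 * (Real.exp u ^ n * R6 ^ n * (R6 ^ n - Real.exp u ^ n)
          / (Real.exp u ^ n + R6 ^ n) ^ 3)
        - 2 * (Real.exp u ^ 2 * r5 ^ 2 * (r5 ^ 2 - Real.exp u ^ 2)
          / (Real.exp u ^ 2 + r5 ^ 2) ^ 3)) u := by
  have hR : 0 < R6 := by linarith
  have h1 := (GSite_d3_aux n (pow_pos hR n) u).const_mul (1 / 2 * (n : ℝ))
  have h2 := GSite_d3_aux 2 (pow_pos h5 2) u
  refine (h1.fun_sub h2).congr_deriv ?_
  push_cast
  ring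

theorem GSite_frac2 {x y : ℝ} (hx : 0 < x) (hy : 0 < y) :
    0 ≤ x * y / (x + y) ^ 2 ∧ x * y / (x + y) ^ 2 ≤ 1 := by
  refine ⟨by positivity, ?_⟩
  rw [div_le_one (by positivity)]
  nlinarith [mul_pos hx hy]

theorem GSite_frac3 {x y : ℝ} (hx : 0 < x) (hy : 0 < y) :
    |x * y * (y - x) / (x + y) ^ 3| ≤ 1 := by
  have h1 : x * y * (y - x) / (x + y) ^ 3 = (x * y / (x + y) ^ 2) * ((y - x) / (x + y)) := by
    field_simp
  have h2 : |(y - x) / (x + y)| ≤ 1 := by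
    rw [abs_div, abs_of_pos (add_pos hx hy), div_le_one (add_pos hx hy), abs_le]
    constructor <;> linarith
  obtain ⟨h3, h4⟩ := GSite_frac2 hx hy
  rw [h1, abs_mul, abs_of_nonneg h3]
  calc x * y / (x + y) ^ 2 * |(y - x) / (x + y)| ≤ 1 * 1 :=
        mul_le_mul h4 h2 (abs_nonneg _) zero_le_one
    _ = 1 := one_mul 1

/-- `gf` as a function of `log r` is Lipschitz with constant `1/2` -/
theorem GSite_lip_log (n : ℕ) (hn : 1 ≤ n) (R6 r5 : ℝ) (h5 : 0 < r5) (h6 : 1 ≤ R6)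
    (u v : ℝ) : |gf n R6 r5 (Real.exp v) - gf n R6 r5 (Real.exp u)| ≤ 1 / 2 * |v - u| := by
  have hR : 0 < R6 := by linarith
  have key : ∀ x ∈ (Set.univ : Set ℝ),
      ‖-(1 / 2) * (R6 ^ n / (Real.exp x ^ n + R6 ^ n))
        + 1 / 2 * (r5 ^ 2 / (Real.exp x ^ 2 + r5 ^ 2))‖ ≤ 1 / 2 := by
    intro x _
    have hu : 0 < Real.exp x := Real.exp_pos x
    have hsum : 0 < Real.exp x ^ n + R6 ^ n := by positivity
    have hq : 0 < Real.exp x ^ 2 + r5 ^ 2 := by positivity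
    have e1 : 0 ≤ R6 ^ n / (Real.exp x ^ n + R6 ^ n) := by positivity
    have e2 : R6 ^ n / (Real.exp x ^ n + R6 ^ n) ≤ 1 := by
      rw [div_le_one hsum]
      have : 0 < Real.exp x ^ n := by positivity
      linarith
    have e3 : 0 ≤ r5 ^ 2 / (Real.exp x ^ 2 + r5 ^ 2) := by positivity
    have e4 : r5 ^ 2 / (Real.exp x ^ 2 + r5 ^ 2) ≤ 1 := by
      rw [div_le_one hq]
      have : 0 < Real.exp x ^ 2 := by positivity
      linarith
    rw [Real.norm_eq_abs, abs_le]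
    constructor <;> linarith
  have h := Convex.norm_image_sub_le_of_norm_hasDerivWithin_le
    (f := fun u => gf n R6 r5 (Real.exp u))
    (s := Set.univ) (x := u) (y := v) (C := 1 / 2)
    (fun x _ => (GSite_d1 n hn R6 r5 h5 h6 x).hasDerivWithinAt) key convex_univ
    (Set.mem_univ _) (Set.mem_univ _)
  rwa [Real.norm_eq_abs, Real.norm_eq_abs] at h

/-- `x ↦ gf ‖x‖` is continuous -/
theorem GSite_cont {N : ℕ} (n : ℕ) (R6 r5 : ℝ) (h5 : 0 < r5) (h6 : 1 ≤ R6) :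
    Continuous fun x : E N => gf n R6 r5 ‖x‖ := by
  have hR : 0 < R6 := by linarith
  unfold gf
  refine (continuous_const.mul (Continuous.log (by fun_prop) ?_)).sub
    (continuous_const.mul (Continuous.log (by fun_prop) ?_))
  · intro x
    have : 0 < ‖x‖ ^ n + R6 ^ n := by positivity
    exact this.ne'
  · intro x
    have : 0 < ‖x‖ ^ 2 + r5 ^ 2 := by positivity
    exact this.ne'



theorem GSite_eq1 (n : ℕ) (hn : 1 ≤ n) (R6 r5 : ℝ) (h5 : 0 < r5) (h6 : 1 ≤ R6) :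
    deriv (fun u => gf n R6 r5 (Real.exp u)) = fun u =>
      (-(1 / 2) * (R6 ^ n / (Real.exp u ^ n + R6 ^ n))
        + 1 / 2 * (r5 ^ 2 / (Real.exp u ^ 2 + r5 ^ 2))) :=
  funext fun u => (GSite_d1 n hn R6 r5 h5 h6 u).deriv

theorem GSite_eq2 (n : ℕ) (hn : 1 ≤ n) (R6 r5 : ℝ) (h5 : 0 < r5) (h6 : 1 ≤ R6) :
    iteratedDeriv 2 (fun u => gf n R6 r5 (Real.exp u)) = fun u =>
      (1 / 2 * n * (Real.exp u ^ n * R6 ^ n / (Real.exp u ^ n + R6 ^ n) ^ 2)
        - Real.exp u ^ 2 * r5 ^ 2 / (Real.exp u ^ 2 + r5 ^ 2) ^ 2) := by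
  rw [iteratedDeriv_succ, iteratedDeriv_one, GSite_eq1 n hn R6 r5 h5 h6]
  exact funext fun u => (GSite_d2 n R6 r5 h5 h6 u).deriv

theorem GSite_eq3 (n : ℕ) (hn : 1 ≤ n) (R6 r5 : ℝ) (h5 : 0 < r5) (h6 : 1 ≤ R6) :
    iteratedDeriv 3 (fun u => gf n R6 r5 (Real.exp u)) = fun u =>
      (1 / 2 * n ^ 2 * (Real.exp u ^ n * R6 ^ n * (R6 ^ n - Real.exp u ^ n)
          / (Real.exp u ^ n + R6 ^ n) ^ 3)
        - 2 * (Real.exp u ^ 2 * r5 ^ 2 * (r5 ^ 2 - Real.exp u ^ 2)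
          / (Real.exp u ^ 2 + r5 ^ 2) ^ 3)) := by
  rw [iteratedDeriv_succ, GSite_eq2 n hn R6 r5 h5 h6]
  exact funext fun u => (GSite_d3 n R6 r5 h5 h6 u).deriv

theorem GSite_contDiff (n : ℕ) (R6 r5 : ℝ) (h5 : 0 < r5) (h6 : 1 ≤ R6) :
    ContDiff ℝ 3 (fun u => gf n R6 r5 (Real.exp u)) := by
  have hR : 0 < R6 := by linarith
  have h1 : ContDiff ℝ 3 (fun u : ℝ => Real.log (Real.exp u ^ n + R6 ^ n)) := by
    refine ContDiff.log ((Real.contDiff_exp.pow n).add contDiff_const) fun x => ?_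
    have : 0 < Real.exp x ^ n + R6 ^ n := by positivity
    exact this.ne'
  have h2 : ContDiff ℝ 3 (fun u : ℝ => Real.log (Real.exp u ^ 2 + r5 ^ 2)) := by
    refine ContDiff.log ((Real.contDiff_exp.pow 2).add contDiff_const) fun x => ?_
    have : 0 < Real.exp x ^ 2 + r5 ^ 2 := by positivity
    exact this.ne'
  exact (contDiff_const.mul h1).sub (contDiff_const.mul h2)

theorem GSite_b1 (n : ℕ) (hn : 1 ≤ n) (R6 r5 : ℝ) (h5 : 0 < r5) (h6 : 1 ≤ R6) (x : ℝ) :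
    |deriv (fun u => gf n R6 r5 (Real.exp u)) x| ≤ (n : ℝ) ^ 2 + n + 3 := by
  have hR : 0 < R6 := by linarith
  rw [GSite_eq1 n hn R6 r5 h5 h6]
  have hsum : 0 < Real.exp x ^ n + R6 ^ n := by positivity
  have hq : 0 < Real.exp x ^ 2 + r5 ^ 2 := by positivity
  have e1 : 0 ≤ R6 ^ n / (Real.exp x ^ n + R6 ^ n) := by positivity
  have e2 : R6 ^ n / (Real.exp x ^ n + R6 ^ n) ≤ 1 := by
    rw [div_le_one hsum]
    have : 0 < Real.exp x ^ n := by positivity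
    linarith
  have e3 : 0 ≤ r5 ^ 2 / (Real.exp x ^ 2 + r5 ^ 2) := by positivity
  have e4 : r5 ^ 2 / (Real.exp x ^ 2 + r5 ^ 2) ≤ 1 := by
    rw [div_le_one hq]
    have : 0 < Real.exp x ^ 2 := by positivity
    linarith
  have hn0 : (0 : ℝ) ≤ (n : ℝ) ^ 2 + n := by positivity
  simp only []
  generalize R6 ^ n / (Real.exp x ^ n + R6 ^ n) = a at *
  generalize r5 ^ 2 / (Real.exp x ^ 2 + r5 ^ 2) = b at *
  rw [abs_le]
  constructor <;> linarith

theorem GSite_b2 (n : ℕ) (hn : 1 ≤ n) (R6 r5 : ℝ) (h5 : 0 < r5) (h6 : 1 ≤ R6) (x : ℝ) :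
    |iteratedDeriv 2 (fun u => gf n R6 r5 (Real.exp u)) x| ≤ (n : ℝ) ^ 2 + n + 3 := by
  have hR : 0 < R6 := by linarith
  rw [GSite_eq2 n hn R6 r5 h5 h6]
  obtain ⟨e1, e2⟩ := GSite_frac2 (x := Real.exp x ^ n) (y := R6 ^ n) (by positivity)
    (by positivity)
  obtain ⟨e3, e4⟩ := GSite_frac2 (x := Real.exp x ^ 2) (y := r5 ^ 2) (by positivity)
    (by positivity)
  simp only []
  generalize Real.exp x ^ n * R6 ^ n / (Real.exp x ^ n + R6 ^ n) ^ 2 = a at *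
  generalize Real.exp x ^ 2 * r5 ^ 2 / (Real.exp x ^ 2 + r5 ^ 2) ^ 2 = b at *
  have hn0 : (0 : ℝ) ≤ n := Nat.cast_nonneg n
  have e5 : 0 ≤ 1 / 2 * (n : ℝ) * a := by positivity
  have e6 : 1 / 2 * (n : ℝ) * a ≤ 1 / 2 * n := mul_le_of_le_one_right (by positivity) e2
  have e7 : (0 : ℝ) ≤ (n : ℝ) ^ 2 := by positivity
  rw [abs_le]
  constructor <;> linarith

theorem GSite_b3 (n : ℕ) (hn : 1 ≤ n) (R6 r5 : ℝ) (h5 : 0 < r5) (h6 : 1 ≤ R6) (x : ℝ) :
    |iteratedDeriv 3 (fun u => gf n R6 r5 (Real.exp u)) x| ≤ (n : ℝ) ^ 2 + n + 3 := by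
  have hR : 0 < R6 := by linarith
  rw [GSite_eq3 n hn R6 r5 h5 h6]
  have e1 := GSite_frac3 (x := Real.exp x ^ n) (y := R6 ^ n) (by positivity)
    (by positivity)
  have e3 := GSite_frac3 (x := Real.exp x ^ 2) (y := r5 ^ 2) (by positivity)
    (by positivity)
  simp only []
  generalize Real.exp x ^ n * R6 ^ n * (R6 ^ n - Real.exp x ^ n) /
    (Real.exp x ^ n + R6 ^ n) ^ 3 = a at *
  generalize Real.exp x ^ 2 * r5 ^ 2 * (r5 ^ 2 - Real.exp x ^ 2) /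
    (Real.exp x ^ 2 + r5 ^ 2) ^ 3 = b at *
  have hn0 : (0 : ℝ) ≤ n := Nat.cast_nonneg n
  have e7 : (0 : ℝ) ≤ (n : ℝ) ^ 2 := by positivity
  have e6 : |1 / 2 * (n : ℝ) ^ 2 * a| ≤ 1 / 2 * (n : ℝ) ^ 2 := by
    rw [abs_mul, abs_of_nonneg (by positivity : (0 : ℝ) ≤ 1 / 2 * (n : ℝ) ^ 2)]
    exact mul_le_of_le_one_right (by positivity) e1
  have e8 : |2 * b| ≤ 2 := by
    rw [abs_mul, abs_of_nonneg (by norm_num : (0 : ℝ) ≤ 2)]
    linarith
  have e9 := abs_le.1 e6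
  have e10 := abs_le.1 e8
  rw [abs_le]
  constructor <;> linarith [e9.1, e9.2, e10.1, e10.2]

theorem GSite_kap (N : ℕ) (β : ℝ) (n : ℕ) (R6 r5 : ℝ) (h5 : 0 < r5) (h6 : 1 ≤ R6) (r : ℝ)
    (hr : 0 < r) :
    1 / 2 * (1 / 2 * (n : ℝ) * (r ^ n * R6 ^ n / (r ^ n + R6 ^ n) ^ 2)
            - r ^ 2 * r5 ^ 2 / (r ^ 2 + r5 ^ 2) ^ 2)
          + (1 / 2 * ((N : ℝ) - 2) - r ^ β) * (-(1 / 2) * (R6 ^ n / (r ^ n + R6 ^ n))
            + 1 / 2 * (r5 ^ 2 / (r ^ 2 + r5 ^ 2))) ≤ kapG N β n R6 r5 r := by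
  have hR : 0 < R6 := by linarith
  have hsum : 0 < r ^ n + R6 ^ n := by positivity
  have hq : 0 < r ^ 2 + r5 ^ 2 := by positivity
  unfold kapG
  have e1 : r ^ n * R6 ^ n / (r ^ n + R6 ^ n) ^ 2 =
      (r ^ n / (r ^ n + R6 ^ n)) * (R6 ^ n / (r ^ n + R6 ^ n)) := by
    rw [div_mul_div_comm, sq]
  rw [e1]
  have e2 : 0 ≤ r ^ 2 * r5 ^ 2 / (r ^ 2 + r5 ^ 2) ^ 2 := by positivity
  have e3 : 0 ≤ r ^ β * (r5 ^ 2 / (r ^ 2 + r5 ^ 2)) := by positivity
  generalize r ^ n / (r ^ n + R6 ^ n) = a at *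
  generalize R6 ^ n / (r ^ n + R6 ^ n) = b at *
  generalize r ^ 2 * r5 ^ 2 / (r ^ 2 + r5 ^ 2) ^ 2 = c at *
  generalize r5 ^ 2 / (r ^ 2 + r5 ^ 2) = d at *
  generalize r ^ β = e at *
  have e4 : 1 / 4 * (n : ℝ) * a * b - (1 / 2 * (N - 2) - e) * (1 / 2) * b + 1 / 4 * (N - 2) * d
      - (1 / 2 * (1 / 2 * (n : ℝ) * (a * b) - c)
        + (1 / 2 * ((N : ℝ) - 2) - e) * (-(1 / 2) * b + 1 / 2 * d)) = 1 / 2 * c + 1 / 2 * (e * d) := by
    ring
  linarith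

theorem gsite (N : ℕ) (β : ℝ) (hN : 2 ≤ N) (hβ : 1 < β) (n : ℕ) (hn : β ≤ n) (R6 r5 : ℝ)
    (h5 : 0 < r5) (h51 : r5 ≤ 1) (h6 : 1 ≤ R6) :
    ∃ C2 h0 : ℝ, 0 < C2 ∧ 0 < h0 ∧
      ∀ (h : ℝ) (ν : Measure (E N)), 0 < h → h < h0 → IsNoise h ν →
        ∀ g w : E N, ‖g‖ ≤ rad β h →
        (∫ ξ, (gf n R6 r5 ‖hat β h g ξ + w‖ - gf n R6 r5 ‖g‖) ∂ν ≤
          h * kapG N β n R6 r5 ‖g‖ + ‖w‖ / r5 + C2 * h ^ (9 / 8 : ℝ)) ∧
        (∀ᵐ ξ ∂ν, |gf n R6 r5 ‖hat β h g ξ + w‖ - gf n R6 r5 ‖g‖| ≤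
          4 * h ^ (3 / 8 : ℝ) + ‖w‖ / r5) ∧
        ∫ ξ, (gf n R6 r5 ‖hat β h g ξ + w‖ - gf n R6 r5 ‖g‖) ^ 2 ∂ν ≤
          2 * (h + ‖w‖ ^ 2 / r5 ^ 2) := by
  have hβ0 : 0 < β := by linarith
  have hn1 : 1 ≤ n := by
    by_contra hcon
    have : n = 0 := by omega
    rw [this] at hn
    simp only [CharP.cast_eq_zero] at hn
    linarith
  have hR : 0 < R6 := by linarith
  obtain ⟨C, hu0, hC, hu0p, hug⟩ := ugen N β (by omega) hβ0
  obtain ⟨C', hl0, hC', hl0p, hlg⟩ := ugen_log N β (by omega) hβ0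
  obtain ⟨hb0, hb0p, hb0l, hbg⟩ := hat_bounds N β hβ0
  set B : ℝ := (n : ℝ) ^ 2 + n + 3 with hB
  have hB0 : 0 < B := by positivity
  refine ⟨C * B, min (min hu0 hl0) (min hb0 ((1 / C') ^ 8)), by positivity,
    lt_min (lt_min hu0p hl0p) (lt_min hb0p (by positivity)), ?_⟩
  intro h ν hh hhlt hν g w hg
  have hh1 : h < hu0 := hhlt.trans_le ((min_le_left _ _).trans (min_le_left _ _))
  have hh2 : h < hl0 := hhlt.trans_le ((min_le_left _ _).trans (min_le_right _ _))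
  have hh3 : h < hb0 := hhlt.trans_le ((min_le_right _ _).trans (min_le_left _ _))
  have hh4 : h < (1 / C') ^ 8 := hhlt.trans_le ((min_le_right _ _).trans (min_le_right _ _))
  have : IsProbabilityMeasure ν := hν.prob
  have hh98 : 0 < h ^ (9 / 8 : ℝ) := Real.rpow_pos_of_pos hh _
  have hh38 : 0 < h ^ (3 / 8 : ℝ) := Real.rpow_pos_of_pos hh _
  have hw0 : 0 ≤ ‖w‖ / r5 := by positivity
  have hhat : Continuous fun ξ : E N => hat β h g ξ := by
    have h1 := hat_continuous (N := N) hβ0 hh.le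
    have h2 : Continuous fun ξ : E N => ((g, ξ) : E N × E N) := Continuous.prodMk_right g
    have h3 := Continuous.comp h1 h2
    simp only [Function.comp_def] at h3
    exact h3
  have hcw : Continuous fun ξ : E N => gf n R6 r5 ‖hat β h g ξ + w‖ := by
    have h1 := GSite_cont (N := N) n R6 r5 h5 h6
    have h2 : Continuous fun ξ : E N => hat β h g ξ + w := hhat.add continuous_const
    have h3 := Continuous.comp h1 h2
    simp only [Function.comp_def] at h3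
    exact h3
  have hc0 : Continuous fun ξ : E N => gf n R6 r5 ‖hat β h g ξ‖ := by
    have h1 := GSite_cont (N := N) n R6 r5 h5 h6
    have h3 := Continuous.comp h1 hhat
    simp only [Function.comp_def] at h3
    exact h3
  have hshift : ∀ ξ : E N, |gf n R6 r5 ‖hat β h g ξ + w‖ - gf n R6 r5 ‖hat β h g ξ‖| ≤
      ‖w‖ / r5 := by
    intro ξ
    refine (GSite_lip n hn1 R6 r5 h5 h51 h6 (norm_nonneg _) (norm_nonneg _)).trans ?_
    refine div_le_div_of_nonneg_right ?_ h5.le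
    have := abs_norm_sub_norm_le (hat β h g ξ + w) (hat β h g ξ)
    simpa using this
  by_cases hg0 : g = 0
  · subst hg0
    have hz : ∀ ξ : E N, hat β h (0 : E N) ξ = 0 := fun ξ => hat_zero β h ξ
    have hk : kapG N β n R6 r5 ‖(0 : E N)‖ = 0 := by
      unfold kapG
      rw [norm_zero, zero_pow (by omega), Real.zero_rpow hβ0.ne', zero_add, zero_div,
        div_self (pow_pos hR n).ne']
      have : (0 : ℝ) ^ 2 + r5 ^ 2 = r5 ^ 2 := by ring
      rw [this, div_self (by positivity)]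
      ring
    have hd : ∀ ξ : E N, |gf n R6 r5 ‖hat β h (0 : E N) ξ + w‖ - gf n R6 r5 ‖(0 : E N)‖| ≤
        ‖w‖ / r5 := by
      intro ξ
      have := hshift ξ
      rwa [hz ξ] at this ⊢
    have hint : Integrable (fun ξ : E N =>
        gf n R6 r5 ‖hat β h (0 : E N) ξ + w‖ - gf n R6 r5 ‖(0 : E N)‖) ν := by
      refine Integrable.of_bound ((hcw.sub continuous_const).aestronglyMeasurable) (‖w‖ / r5) ?_
      exact Filter.Eventually.of_forall fun ξ => hd ξ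
    refine ⟨?_, Filter.Eventually.of_forall fun ξ => (hd ξ).trans (by linarith), ?_⟩
    · rw [hk, mul_zero, zero_add]
      have h1 : ∫ ξ : E N, (gf n R6 r5 ‖hat β h (0 : E N) ξ + w‖ - gf n R6 r5 ‖(0 : E N)‖) ∂ν ≤
          ∫ _ : E N, ‖w‖ / r5 ∂ν :=
        integral_mono hint (integrable_const _) fun ξ => (le_abs_self _).trans (hd ξ)
      rw [integral_const, probReal_univ, one_smul] at h1
      have : 0 < C * B * h ^ (9 / 8 : ℝ) := by positivity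
      linarith
    · have hsq : ∀ ξ : E N, (gf n R6 r5 ‖hat β h (0 : E N) ξ + w‖ - gf n R6 r5 ‖(0 : E N)‖) ^ 2 ≤
          ‖w‖ ^ 2 / r5 ^ 2 := by
        intro ξ
        rw [← div_pow, ← sq_abs]
        exact pow_le_pow_left₀ (abs_nonneg _) (hd ξ) 2
      have hint2 : Integrable (fun ξ : E N =>
          (gf n R6 r5 ‖hat β h (0 : E N) ξ + w‖ - gf n R6 r5 ‖(0 : E N)‖) ^ 2) ν := by
        refine Integrable.of_bound (((hcw.sub continuous_const).pow 2).aestronglyMeasurable)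
          (‖w‖ ^ 2 / r5 ^ 2) ?_
        refine Filter.Eventually.of_forall fun ξ => ?_
        rw [Real.norm_eq_abs, abs_of_nonneg (sq_nonneg _)]
        exact hsq ξ
      have h1 : ∫ ξ : E N, (gf n R6 r5 ‖hat β h (0 : E N) ξ + w‖
          - gf n R6 r5 ‖(0 : E N)‖) ^ 2 ∂ν ≤ ∫ _ : E N, ‖w‖ ^ 2 / r5 ^ 2 ∂ν :=
        integral_mono hint2 (integrable_const _) hsq
      rw [integral_const, probReal_univ, one_smul] at h1
      have : 0 ≤ ‖w‖ ^ 2 / r5 ^ 2 := by positivity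
      linarith
  · -- the case `g ≠ 0`
    have hgpos : 0 < ‖g‖ := norm_pos_iff.2 hg0
    have hae := hbg h ν hh hh3 hν g hg
    have hpos : ∀ᵐ ξ ∂ν, 0 < ‖hat β h g ξ‖ ∧
        |Real.log ‖hat β h g ξ‖ - Real.log ‖g‖| ≤ 3 * h ^ (3 / 8 : ℝ) := by
      filter_upwards [hae] with ξ hξ
      refine ⟨?_, hξ.2.2.2.1 hg0⟩
      refine lt_of_lt_of_le ?_ hξ.2.1
      have h1 := hξ.2.2.2.2
      exact mul_pos (by linarith) hgpos
    have hd0 : ∀ᵐ ξ ∂ν, |gf n R6 r5 ‖hat β h g ξ‖ - gf n R6 r5 ‖g‖| ≤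
        1 / 2 * |Real.log ‖hat β h g ξ‖ - Real.log ‖g‖| := by
      filter_upwards [hpos] with ξ hξ
      have h1 := GSite_lip_log n hn1 R6 r5 h5 h6 (Real.log ‖g‖) (Real.log ‖hat β h g ξ‖)
      rwa [Real.exp_log hξ.1, Real.exp_log hgpos] at h1
    have hd : ∀ᵐ ξ ∂ν, |gf n R6 r5 ‖hat β h g ξ + w‖ - gf n R6 r5 ‖g‖| ≤
        4 * h ^ (3 / 8 : ℝ) + ‖w‖ / r5 := by
      filter_upwards [hpos, hd0] with ξ h1 h2
      have h3 := hshift ξ
      have h4 := abs_add_le (gf n R6 r5 ‖hat β h g ξ + w‖ - gf n R6 r5 ‖hat β h g ξ‖)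
        (gf n R6 r5 ‖hat β h g ξ‖ - gf n R6 r5 ‖g‖)
      rw [sub_add_sub_cancel] at h4
      have h5' := h1.2
      linarith
    have hintw : Integrable (fun ξ : E N =>
        gf n R6 r5 ‖hat β h g ξ + w‖ - gf n R6 r5 ‖g‖) ν :=
      Integrable.of_bound ((hcw.sub continuous_const).aestronglyMeasurable) _ hd
    have hd1 : ∀ᵐ ξ ∂ν, ‖gf n R6 r5 ‖hat β h g ξ‖ - gf n R6 r5 ‖g‖‖ ≤
        4 * h ^ (3 / 8 : ℝ) := by
      filter_upwards [hpos, hd0] with ξ h1 h2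
      rw [Real.norm_eq_abs]
      have h5' := h1.2
      linarith
    have hint0 : Integrable (fun ξ : E N => gf n R6 r5 ‖hat β h g ξ‖ - gf n R6 r5 ‖g‖) ν :=
      Integrable.of_bound ((hc0.sub continuous_const).aestronglyMeasurable) _ hd1
    have hint0' : Integrable (fun ξ : E N => gf n R6 r5 ‖hat β h g ξ‖) ν := by
      have := hint0.add (integrable_const (gf n R6 r5 ‖g‖))
      refine this.congr (Filter.Eventually.of_forall fun ξ => ?_)
      simp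
    refine ⟨?_, hd, ?_⟩
    · -- first moment
      have hf1 := GSite_eq1 n hn1 R6 r5 h5 h6
      have hf2 := GSite_eq2 n hn1 R6 r5 h5 h6
      have hu := hug h ν hh hh1 hν g hg0 hg (fun u => gf n R6 r5 (Real.exp u)) B
        (GSite_contDiff n R6 r5 h5 h6) (GSite_b1 n hn1 R6 r5 h5 h6) (GSite_b2 n hn1 R6 r5 h5 h6)
        (GSite_b3 n hn1 R6 r5 h5 h6)
      rw [hf1, hf2] at hu
      simp only [Real.exp_log hgpos] at hu
      have hcongr : ∫ ξ, gf n R6 r5 (Real.exp (Real.log ‖hat β h g ξ‖)) ∂ν =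
          ∫ ξ, gf n R6 r5 ‖hat β h g ξ‖ ∂ν := by
        refine integral_congr_ae ?_
        filter_upwards [hpos] with ξ hξ
        rw [Real.exp_log hξ.1]
      rw [hcongr] at hu
      have hmono : ∫ ξ, (gf n R6 r5 ‖hat β h g ξ + w‖ - gf n R6 r5 ‖g‖) ∂ν ≤
          ∫ ξ, ((gf n R6 r5 ‖hat β h g ξ‖ - gf n R6 r5 ‖g‖) + ‖w‖ / r5) ∂ν := by
        refine integral_mono hintw (hint0.add (integrable_const _)) fun ξ => ?_
        have h1 := (abs_le.1 (hshift ξ)).2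
        show gf n R6 r5 ‖hat β h g ξ + w‖ - gf n R6 r5 ‖g‖ ≤
          (gf n R6 r5 ‖hat β h g ξ‖ - gf n R6 r5 ‖g‖) + ‖w‖ / r5
        linarith
      rw [integral_add hint0 (integrable_const _), integral_sub hint0' (integrable_const _),
        integral_const, integral_const, probReal_univ, one_smul, one_smul] at hmono
      have hkap := GSite_kap N β n R6 r5 h5 h6 ‖g‖ hgpos
      have hu' := (abs_le.1 hu).2
      have hk2 := mul_le_mul_of_nonneg_left hkap hh.le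
      linarith
    · -- second moment
      have hlm : Measurable fun ξ : E N => Real.log ‖hat β h g ξ‖ - Real.log ‖g‖ :=
        (Real.measurable_log.comp hhat.norm.measurable).sub_const _
      have hintd : Integrable (fun ξ : E N => (Real.log ‖hat β h g ξ‖ - Real.log ‖g‖) ^ 2) ν := by
        refine Integrable.of_bound (hlm.pow_const 2).aestronglyMeasurable
          ((3 * h ^ (3 / 8 : ℝ)) ^ 2) ?_
        filter_upwards [hpos] with ξ hξ
        rw [Real.norm_eq_abs, abs_of_nonneg (sq_nonneg _), ← sq_abs]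
        exact pow_le_pow_left₀ (abs_nonneg _) hξ.2 2
      have hl := (hlg h ν hh hh2 hν g hg0 hg).2
      have hl' := (abs_le.1 hl).2
      have hsq : ∀ᵐ ξ ∂ν, (gf n R6 r5 ‖hat β h g ξ + w‖ - gf n R6 r5 ‖g‖) ^ 2 ≤
          1 / 2 * (Real.log ‖hat β h g ξ‖ - Real.log ‖g‖) ^ 2 + 2 * (‖w‖ ^ 2 / r5 ^ 2) := by
        filter_upwards [hd0] with ξ h2
        have h3 := hshift ξ
        have e1 : (gf n R6 r5 ‖hat β h g ξ + w‖ - gf n R6 r5 ‖hat β h g ξ‖) ^ 2 ≤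
            ‖w‖ ^ 2 / r5 ^ 2 := by
          rw [← div_pow, ← sq_abs]
          exact pow_le_pow_left₀ (abs_nonneg _) h3 2
        have e2 : (gf n R6 r5 ‖hat β h g ξ‖ - gf n R6 r5 ‖g‖) ^ 2 ≤
            1 / 4 * (Real.log ‖hat β h g ξ‖ - Real.log ‖g‖) ^ 2 := by
          rw [← sq_abs]
          refine (pow_le_pow_left₀ (abs_nonneg _) h2 2).trans ?_
          rw [mul_pow, sq_abs]
          norm_num
        have e3 : gf n R6 r5 ‖hat β h g ξ + w‖ - gf n R6 r5 ‖g‖ =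
            (gf n R6 r5 ‖hat β h g ξ + w‖ - gf n R6 r5 ‖hat β h g ξ‖)
              + (gf n R6 r5 ‖hat β h g ξ‖ - gf n R6 r5 ‖g‖) := by ring
        rw [e3]
        nlinarith [sq_nonneg ((gf n R6 r5 ‖hat β h g ξ + w‖ - gf n R6 r5 ‖hat β h g ξ‖)
              - (gf n R6 r5 ‖hat β h g ξ‖ - gf n R6 r5 ‖g‖))]
      have hmono : ∫ ξ, (gf n R6 r5 ‖hat β h g ξ + w‖ - gf n R6 r5 ‖g‖) ^ 2 ∂ν ≤
          ∫ ξ, (1 / 2 * (Real.log ‖hat β h g ξ‖ - Real.log ‖g‖) ^ 2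
            + 2 * (‖w‖ ^ 2 / r5 ^ 2)) ∂ν := by
        refine integral_mono_of_nonneg (Filter.Eventually.of_forall fun ξ => sq_nonneg _)
          ((hintd.const_mul _).add (integrable_const _)) hsq
      rw [integral_add (hintd.const_mul _) (integrable_const _), integral_const_mul,
        integral_const, probReal_univ, one_smul] at hmono
      have hsmall : C' * h ^ (9 / 8 : ℝ) ≤ h := by
        have e1 : h ^ (9 / 8 : ℝ) = h * h ^ (1 / 8 : ℝ) := by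
          rw [← Real.rpow_one_add' hh.le (by norm_num)]
          norm_num
        have e2 : h ^ (1 / 8 : ℝ) ≤ 1 / C' := by
          have e3 : h ^ (1 / 8 : ℝ) ≤ ((1 / C') ^ 8) ^ (1 / 8 : ℝ) :=
            Real.rpow_le_rpow hh.le hh4.le (by norm_num)
          have e4 : ((1 / C') ^ 8) ^ (1 / 8 : ℝ) = 1 / C' := by
            rw [← Real.rpow_natCast, ← Real.rpow_mul (by positivity)]
            norm_num
          rwa [e4] at e3
        rw [e1]
        have e5 : C' * (h * h ^ (1 / 8 : ℝ)) = h * (C' * h ^ (1 / 8 : ℝ)) := by ring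
        rw [e5]
        have e6 : C' * h ^ (1 / 8 : ℝ) ≤ 1 := by
          have := mul_le_mul_of_nonneg_left e2 hC'.le
          rwa [mul_one_div, div_self hC'.ne'] at this
        exact mul_le_of_le_one_right hh.le e6
      linarith

end Dyn
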