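import Pool.Agent.Lib_MP_36b788.PhiDefs
import Pool.Agent.Lib_MP_36b788.GSite
import Pool.Agent.Lib_MP_36b788.LSH

/-!
# PHIND: non-dominated sites carry a negligible part of `Φ`

PROOF. `b = Bk ≤ 1/4`. Let `x` be not dominated. If `D̃_x = 0` then `φ_x = 0` (`p > 0`). Otherwise
`‖D_x‖ < (1-δ1)D̃_x`, so `D̃_x ≤ δ1⁻¹Σ_{z≠x}b^{|x-z|}‖D_z‖`, and for `p ≤ 1` (subadditivity of `t^p`)
`D̃_x^p ≤ δ1^{-p}Σ_{z≠x}(b^p)^{|x-z|}‖D_z‖^p`. With `-1 ≤ gf ≤ ½log(1+R6/r5)` (gf_bounds), `0 ≤ H ≤ 3^d`: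
`φ_x ≤ D̃_x^p exp(p(log(1+R6/r5) + 2·3^d Cg k))`, `‖D_z‖^p ≤ D̃_z^p ≤ φ_z e^{2p}`. So
`φ_x ≤ Cn Σ_{z≠x}(b^p)^{|x-z|}φ_z`, `Cn = δ1^{-p} exp(p(2 + log(1+R6/r5) + 2·3^dCg k))`.
`Σ_w 2^{-|x-w|}V_w ≤ 2^{|x-z|}Σ_w 2^{-|z-w|}V_w` (`V ≥ 0`), so `T_x ≤ CnΣ_{z≠x}(2b^p)^{|x-z|}T_z` and with
`2^{-|o-x|} ≤ 2^{|x-z|}2^{-|o-z|}`: `Σ_{x not dom}2^{-|o-x|}T_x ≤ CnΣ_z 2^{-|o-z|}T_zΣ_{x≠z}q^{|x-z|}`, `q = 4b^p`. If `q ≤ 1/2`,
`Σ_{x≠z}q^{|x-z|} ≤ 2q Σ2^{-|x-z|} ≤ 2q 3^d`.
-/

open MeasureTheory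

namespace Dyn

theorem sum_rpow_le_nd {ι : Type} (s : Finset ι) (f : ι → ℝ) (hf : ∀ i ∈ s, 0 ≤ f i) {p : ℝ}
    (hp : 0 < p) (hp1 : p ≤ 1) : (∑ i ∈ s, f i) ^ p ≤ ∑ i ∈ s, f i ^ p := by
  classical
  induction s using Finset.induction_on with
  | empty => simp [Real.zero_rpow hp.ne']
  | insert a s ha ih =>
    rw [Finset.sum_insert ha, Finset.sum_insert ha]
    have h1 : 0 ≤ f a := hf a (Finset.mem_insert_self _ _)
    have h2 : 0 ≤ ∑ i ∈ s, f i := Finset.sum_nonneg fun i hi => hf i (Finset.mem_insert_of_mem hi)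
    calc (f a + ∑ i ∈ s, f i) ^ p ≤ f a ^ p + (∑ i ∈ s, f i) ^ p :=
          Real.rpow_add_le_add_rpow h1 h2 hp.le hp1
      _ ≤ _ := by
          gcongr
          exact ih fun i hi => hf i (Finset.mem_insert_of_mem hi)

theorem half_pow_tri {ι : Type} [Fintype ι] {d : ℕ} (net : Net ι d) (a x z : ι) :
    (1 / 2 : ℝ) ^ net.dist a x ≤ 2 ^ net.dist x z * (1 / 2 : ℝ) ^ net.dist a z := by
  have h1 : net.dist a z ≤ net.dist a x + net.dist x z := net.dist_tri a x z
  have h2 : (1 / 2 : ℝ) ^ (net.dist a x + net.dist x z) ≤ (1 / 2 : ℝ) ^ net.dist a z :=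
    pow_le_pow_of_le_one (by norm_num) (by norm_num) h1
  have h3 : (2 : ℝ) ^ net.dist x z * (1 / 2 : ℝ) ^ net.dist x z = 1 := by
    rw [← mul_pow]; norm_num
  calc (1 / 2 : ℝ) ^ net.dist a x
      = 2 ^ net.dist x z * (1 / 2 : ℝ) ^ (net.dist a x + net.dist x z) := by
        rw [pow_add, mul_comm ((1 / 2 : ℝ) ^ net.dist a x), ← mul_assoc, h3, one_mul]
    _ ≤ _ := by gcongr

theorem Vs_nonneg {N d : ℕ} {β D0 : ℝ} (Bs : Base N d β D0) (m : ℝ) {ι : Type} [Fintype ι]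
    (net : Net ι d) (k : ℝ) (y : ℝ → ℝ) (G : ι → E N) (z : ι) : 0 ≤ Vs Bs m net k y G z :=
  (Real.exp_pos _).le

theorem phi_nonneg' {N d : ℕ} (P : PP) {ι : Type} [Fintype ι] (net : Net ι d) (β k : ℝ)
    (hb : 0 ≤ P.B * k) (G G' : ι → E N) (x : ι) : 0 ≤ phi P net β k G G' x := by
  have h : 0 ≤ Dt net (P.B * k) G G' x :=
    Finset.sum_nonneg fun z _ => mul_nonneg (pow_nonneg hb _) (norm_nonneg _)
  exact mul_nonneg (Real.rpow_nonneg h _) (Real.exp_pos _).le

theorem phi_nd {N d : ℕ} {β D0 : ℝ} (Bs : Base N d β D0) (P : PP) (hβ : 1 < β) (hp : 0 < P.p)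
    (hp1 : P.p ≤ 1) (hn : 1 ≤ P.n) (h5 : 0 < P.r5) (h51 : P.r5 ≤ 1) (h6 : 1 ≤ P.R6)
    (heta : 0 ≤ P.eta) (hCg : 0 ≤ P.Cg) (δ1 : ℝ) (hδ : 0 < δ1) (hδ1 : δ1 ≤ 1 / 2)
    (k : ℝ) (hk : 0 ≤ k) (hk1 : k ≤ 1) (hB : 1 ≤ P.B) (hq : 4 * (P.B * k) ^ P.p ≤ 1 / 2)
    {ι : Type} [Fintype ι] (net : Net ι d) (y : ℝ → ℝ) (G G' : ι → E N) (o : ι) :
    (∀ x, 0 ≤ TT Bs P net k y G G' x) ∧
    (open Classical in
      ∑ x, (if Dom δ1 (P.B * k) net G G' x then 0
        else (1 / 2 : ℝ) ^ net.dist o x * TT Bs P net k y G G' x) ≤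
      8 * 3 ^ d * (P.B * k) ^ P.p *
        (δ1 ^ (-P.p) * Real.exp (P.p * (2 + Real.log (1 + P.R6 / P.r5) + 2 * 3 ^ d * P.Cg * k))) *
        PHI Bs P net k y G G' o) := by
  classical
  set b := P.B * k with hbdef
  have hb : 0 ≤ b := mul_nonneg (by linarith) hk
  set p := P.p with hpdef
  set bp := b ^ p with hbp
  have hbp0 : 0 ≤ bp := Real.rpow_nonneg hb _
  set Cn := δ1 ^ (-p) * Real.exp (p * (2 + Real.log (1 + P.R6 / P.r5) + 2 * 3 ^ d * P.Cg * k))
    with hCn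
  have hCn0 : 0 ≤ Cn := mul_nonneg (Real.rpow_nonneg hδ.le _) (Real.exp_pos _).le
  -- the factor W
  set W : ι → ℝ := fun x => 1 + P.eta * ∑ z, (1 / 2 : ℝ) ^ net.dist x z *
      (Vs Bs P.m net k y G z + Vs Bs P.m net k y G' z) with hW
  have hV : ∀ z, 0 ≤ Vs Bs P.m net k y G z + Vs Bs P.m net k y G' z := fun z =>
    add_nonneg (Vs_nonneg _ _ _ _ _ _ _) (Vs_nonneg _ _ _ _ _ _ _)
  have hW0 : ∀ x, 0 ≤ W x := by
    intro x
    have : 0 ≤ ∑ z, (1 / 2 : ℝ) ^ net.dist x z *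
      (Vs Bs P.m net k y G z + Vs Bs P.m net k y G' z) :=
      Finset.sum_nonneg fun z _ => mul_nonneg (by positivity) (hV z)
    have := mul_nonneg heta this
    simp only [hW]; linarith
  have hWt : ∀ x z, W x ≤ 2 ^ net.dist x z * W z := by
    intro x z
    have h2 : (1 : ℝ) ≤ 2 ^ net.dist x z := one_le_pow₀ (by norm_num)
    have h1 : ∑ w, (1 / 2 : ℝ) ^ net.dist x w *
        (Vs Bs P.m net k y G w + Vs Bs P.m net k y G' w) ≤
        2 ^ net.dist x z * ∑ w, (1 / 2 : ℝ) ^ net.dist z w *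
        (Vs Bs P.m net k y G w + Vs Bs P.m net k y G' w) := by
      rw [Finset.mul_sum]
      apply Finset.sum_le_sum
      intro w _
      rw [← mul_assoc]
      apply mul_le_mul_of_nonneg_right _ (hV w)
      have := half_pow_tri net w x z
      rwa [net.dist_comm w x, net.dist_comm w z] at this
    have h3 := mul_le_mul_of_nonneg_left h1 heta
    simp only [hW]
    rw [mul_add, mul_one]
    have h4 : P.eta * (2 ^ net.dist x z * ∑ w, (1 / 2 : ℝ) ^ net.dist z w *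
        (Vs Bs P.m net k y G w + Vs Bs P.m net k y G' w)) =
        2 ^ net.dist x z * (P.eta * ∑ w, (1 / 2 : ℝ) ^ net.dist z w *
        (Vs Bs P.m net k y G w + Vs Bs P.m net k y G' w)) := by ring
    rw [h4] at h3
    linarith
  have hTT : ∀ x, TT Bs P net k y G G' x = phi P net β k G G' x * W x := fun x => rfl
  have hphi0 : ∀ x, 0 ≤ phi P net β k G G' x := fun x => phi_nonneg' P net β k hb G G' x
  have hTT0 : ∀ x, 0 ≤ TT Bs P net k y G G' x := fun x => by
    rw [hTT]; exact mul_nonneg (hphi0 x) (hW0 x)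
  refine ⟨hTT0, ?_⟩
  have hgf := gf_bounds P.n hn P.R6 P.r5 h5 h51 h6
  have hD0 : ∀ x, 0 ≤ Dt net b G G' x := fun x =>
    Finset.sum_nonneg fun z _ => mul_nonneg (pow_nonneg hb _) (norm_nonneg _)
  have hDself : ∀ x, ‖G x - G' x‖ ≤ Dt net b G G' x := by
    intro x
    have := Finset.single_le_sum (f := fun z => b ^ net.dist x z * ‖G z - G' z‖)
      (fun z _ => mul_nonneg (pow_nonneg hb _) (norm_nonneg _)) (Finset.mem_univ x)
    simp only [net.dist_self, pow_zero, one_mul] at this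
    exact this
  -- lower bound of phi
  have hlow : ∀ z, ‖G z - G' z‖ ^ p ≤ Real.exp (2 * p) * phi P net β k G G' z := by
    intro z
    have h1 : ‖G z - G' z‖ ^ p ≤ Dt net b G G' z ^ p :=
      Real.rpow_le_rpow (norm_nonneg _) (hDself z) hp.le
    have hH := (Hh_bounds net β hβ G z).1
    have hH' := (Hh_bounds net β hβ G' z).1
    have g1 := (hgf ‖G z‖ (norm_nonneg _)).1
    have g2 := (hgf ‖G' z‖ (norm_nonneg _)).1
    have h2 : -(2 * p) ≤ p * (gf P.n P.R6 P.r5 ‖G z‖ + gf P.n P.R6 P.r5 ‖G' z‖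
      + P.Cg * k * (Hh net β G z + Hh net β G' z)) := by
      have h3 : 0 ≤ P.Cg * k * (Hh net β G z + Hh net β G' z) :=
        mul_nonneg (mul_nonneg hCg hk) (by linarith)
      have h4 : -2 ≤ gf P.n P.R6 P.r5 ‖G z‖ + gf P.n P.R6 P.r5 ‖G' z‖
        + P.Cg * k * (Hh net β G z + Hh net β G' z) := by linarith
      nlinarith
    have h5 : Real.exp (2 * p) * phi P net β k G G' z =
        Dt net b G G' z ^ p * (Real.exp (2 * p) *
          Real.exp (p * (gf P.n P.R6 P.r5 ‖G z‖ + gf P.n P.R6 P.r5 ‖G' z‖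
      + P.Cg * k * (Hh net β G z + Hh net β G' z)))) := by
      unfold phi; ring
    rw [h5, ← Real.exp_add]
    have h6 : 1 ≤ Real.exp (2 * p + p * (gf P.n P.R6 P.r5 ‖G z‖ + gf P.n P.R6 P.r5 ‖G' z‖
      + P.Cg * k * (Hh net β G z + Hh net β G' z))) := Real.one_le_exp (by linarith)
    calc ‖G z - G' z‖ ^ p ≤ Dt net b G G' z ^ p * 1 := by linarith
      _ ≤ _ := mul_le_mul_of_nonneg_left h6 (Real.rpow_nonneg (hD0 z) _)
  -- nondominated sites
  have hnd : ∀ x, ¬ Dom δ1 b net G G' x → phi P net β k G G' x ≤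
      Cn * ∑ z ∈ Finset.univ.erase x, bp ^ net.dist x z * phi P net β k G G' z := by
    intro x hx
    have hsum0 : 0 ≤ ∑ z ∈ Finset.univ.erase x, bp ^ net.dist x z * phi P net β k G G' z :=
      Finset.sum_nonneg fun z _ => mul_nonneg (pow_nonneg hbp0 _) (hphi0 z)
    rcases (hD0 x).eq_or_lt with h0 | h0
    · have : phi P net β k G G' x = 0 := by
        unfold phi
        rw [← hbdef, ← h0, Real.zero_rpow hp.ne', zero_mul]
      rw [this]
      exact mul_nonneg hCn0 hsum0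
    · have hlt : ‖G x - G' x‖ < (1 - δ1) * Dt net b G G' x := by
        by_contra hc
        exact hx ⟨not_lt.mp hc, h0⟩
      set S := ∑ z ∈ Finset.univ.erase x, b ^ net.dist x z * ‖G z - G' z‖ with hS
      have hsplit : Dt net b G G' x = ‖G x - G' x‖ + S := by
        unfold Dt
        rw [← Finset.add_sum_erase _ _ (Finset.mem_univ x)]
        simp [net.dist_self, hS]
      have hDS : Dt net b G G' x ≤ δ1⁻¹ * S := by
        rw [inv_mul_eq_div, le_div_iff₀ hδ]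
        nlinarith
      have hS0 : 0 ≤ S := Finset.sum_nonneg fun z _ => mul_nonneg (pow_nonneg hb _) (norm_nonneg _)
      have h1 : Dt net b G G' x ^ p ≤ δ1 ^ (-p) * S ^ p := by
        calc Dt net b G G' x ^ p ≤ (δ1⁻¹ * S) ^ p := Real.rpow_le_rpow (hD0 x) hDS hp.le
          _ = δ1 ^ (-p) * S ^ p := by
            rw [Real.mul_rpow (inv_nonneg.mpr hδ.le) hS0, Real.inv_rpow hδ.le, Real.rpow_neg hδ.le]
      have h2 : S ^ p ≤ ∑ z ∈ Finset.univ.erase x, bp ^ net.dist x z *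
          (Real.exp (2 * p) * phi P net β k G G' z) := by
        calc S ^ p ≤ ∑ z ∈ Finset.univ.erase x, (b ^ net.dist x z * ‖G z - G' z‖) ^ p :=
              sum_rpow_le_nd _ _ (fun z _ => mul_nonneg (pow_nonneg hb _) (norm_nonneg _)) hp hp1
          _ ≤ _ := by
              apply Finset.sum_le_sum
              intro z _
              rw [Real.mul_rpow (pow_nonneg hb _) (norm_nonneg _)]
              have : (b ^ net.dist x z) ^ p = bp ^ net.dist x z := by
                rw [hbp, ← Real.rpow_natCast b, ← Real.rpow_mul hb, mul_comm, Real.rpow_mul hb,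
                  Real.rpow_natCast]
              rw [this]
              exact mul_le_mul_of_nonneg_left (hlow z) (pow_nonneg hbp0 _)
      have hHx := (Hh_bounds net β hβ G x).2
      have hHx' := (Hh_bounds net β hβ G' x).2
      have g1 := (hgf ‖G x‖ (norm_nonneg _)).2
      have g2 := (hgf ‖G' x‖ (norm_nonneg _)).2
      have h3 : Real.exp (p * (gf P.n P.R6 P.r5 ‖G x‖ + gf P.n P.R6 P.r5 ‖G' x‖
          + P.Cg * k * (Hh net β G x + Hh net β G' x))) ≤
          Real.exp (p * (Real.log (1 + P.R6 / P.r5) + 2 * 3 ^ d * P.Cg * k)) := by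
        apply Real.exp_le_exp.mpr
        apply mul_le_mul_of_nonneg_left _ hp.le
        have h4 : P.Cg * k * (Hh net β G x + Hh net β G' x) ≤ P.Cg * k * (2 * 3 ^ d) :=
          mul_le_mul_of_nonneg_left (by linarith) (mul_nonneg hCg hk)
        nlinarith
      have h4 : phi P net β k G G' x ≤ (δ1 ^ (-p) * (∑ z ∈ Finset.univ.erase x,
          bp ^ net.dist x z * (Real.exp (2 * p) * phi P net β k G G' z))) *
          Real.exp (p * (Real.log (1 + P.R6 / P.r5) + 2 * 3 ^ d * P.Cg * k)) := by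
        unfold phi
        rw [← hbdef]
        apply mul_le_mul _ h3 (Real.exp_pos _).le _
        · exact h1.trans (mul_le_mul_of_nonneg_left h2 (Real.rpow_nonneg hδ.le _))
        · exact mul_nonneg (Real.rpow_nonneg hδ.le _) (Finset.sum_nonneg fun z _ =>
            mul_nonneg (pow_nonneg hbp0 _) (mul_nonneg (Real.exp_pos _).le (hphi0 z)))
      refine h4.trans (le_of_eq ?_)
      have h5 : ∑ z ∈ Finset.univ.erase x,
          bp ^ net.dist x z * (Real.exp (2 * p) * phi P net β k G G' z) =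
          Real.exp (2 * p) * ∑ z ∈ Finset.univ.erase x,
          bp ^ net.dist x z * phi P net β k G G' z := by
        rw [Finset.mul_sum]
        apply Finset.sum_congr rfl
        intro z _; ring
      rw [h5, hCn]
      have h6 : Real.exp (p * (2 + Real.log (1 + P.R6 / P.r5) + 2 * 3 ^ d * P.Cg * k)) =
          Real.exp (2 * p) * Real.exp (p * (Real.log (1 + P.R6 / P.r5) + 2 * 3 ^ d * P.Cg * k)) := by
        rw [← Real.exp_add]; congr 1; ring
      rw [h6]; ring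
  -- sum
  set q := 4 * bp with hqdef
  have hq0 : 0 ≤ q := by positivity
  have hstep : ∀ x, (if Dom δ1 b net G G' x then 0
        else (1 / 2 : ℝ) ^ net.dist o x * TT Bs P net k y G G' x) ≤
      ∑ z ∈ Finset.univ.erase x, Cn * (q ^ net.dist x z *
        ((1 / 2 : ℝ) ^ net.dist o z * TT Bs P net k y G G' z)) := by
    intro x
    have hR0 : 0 ≤ ∑ z ∈ Finset.univ.erase x, Cn * (q ^ net.dist x z *
        ((1 / 2 : ℝ) ^ net.dist o z * TT Bs P net k y G G' z)) :=
      Finset.sum_nonneg fun z _ => mul_nonneg hCn0 (mul_nonneg (pow_nonneg hq0 _)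
        (mul_nonneg (by positivity) (hTT0 z)))
    split_ifs with hx
    · exact hR0
    · have h1 := hnd x hx
      have h2 : (1 / 2 : ℝ) ^ net.dist o x * TT Bs P net k y G G' x ≤
          (1 / 2 : ℝ) ^ net.dist o x * ((Cn * ∑ z ∈ Finset.univ.erase x,
            bp ^ net.dist x z * phi P net β k G G' z) * W x) := by
        rw [hTT]
        apply mul_le_mul_of_nonneg_left _ (by positivity)
        exact mul_le_mul_of_nonneg_right h1 (hW0 x)
      refine h2.trans ?_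
      rw [Finset.mul_sum, Finset.sum_mul, Finset.mul_sum]
      apply Finset.sum_le_sum
      intro z _
      have e1 := hWt x z
      have e2 := half_pow_tri net o x z
      have e3 : q ^ net.dist x z = bp ^ net.dist x z * (2 ^ net.dist x z * 2 ^ net.dist x z) := by
        rw [hqdef, ← mul_pow, ← mul_pow]; congr 1; ring
      rw [hTT z, e3]
      have f1 : 0 ≤ Cn * (bp ^ net.dist x z * phi P net β k G G' z) :=
        mul_nonneg hCn0 (mul_nonneg (pow_nonneg hbp0 _) (hphi0 z))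
      calc (1 / 2 : ℝ) ^ net.dist o x * (Cn * (bp ^ net.dist x z * phi P net β k G G' z) * W x)
          = (Cn * (bp ^ net.dist x z * phi P net β k G G' z)) *
            ((1 / 2 : ℝ) ^ net.dist o x * W x) := by ring
        _ ≤ (Cn * (bp ^ net.dist x z * phi P net β k G G' z)) *
            ((2 ^ net.dist x z * (1 / 2 : ℝ) ^ net.dist o z) * (2 ^ net.dist x z * W z)) := by
              apply mul_le_mul_of_nonneg_left _ f1
              exact mul_le_mul e2 e1 (hW0 x) (by positivity)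
        _ = _ := by ring
  refine (Finset.sum_le_sum fun x _ => hstep x).trans ?_
  have hswap : ∑ x, ∑ z ∈ Finset.univ.erase x, Cn * (q ^ net.dist x z *
        ((1 / 2 : ℝ) ^ net.dist o z * TT Bs P net k y G G' z)) =
      ∑ z, ∑ x ∈ Finset.univ.erase z, Cn * (q ^ net.dist x z *
        ((1 / 2 : ℝ) ^ net.dist o z * TT Bs P net k y G G' z)) := by
    apply Finset.sum_comm'
    intro x z
    simp [ne_comm]
  rw [hswap]
  have hz : ∀ z, ∑ x ∈ Finset.univ.erase z, Cn * (q ^ net.dist x z *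
        ((1 / 2 : ℝ) ^ net.dist o z * TT Bs P net k y G G' z)) ≤
      (8 * 3 ^ d * bp * Cn) * ((1 / 2 : ℝ) ^ net.dist o z * TT Bs P net k y G G' z) := by
    intro z
    have h1 : ∑ x ∈ Finset.univ.erase z, q ^ net.dist x z ≤ 2 * q * 3 ^ d := by
      calc ∑ x ∈ Finset.univ.erase z, q ^ net.dist x z
          ≤ ∑ x ∈ Finset.univ.erase z, 2 * q * (1 / 2 : ℝ) ^ net.dist z x := by
            apply Finset.sum_le_sum
            intro x hx
            have hxz : x ≠ z := (Finset.mem_erase.mp hx).1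
            have hpos := net.dist_pos x z hxz
            obtain ⟨m, hm⟩ : ∃ m, net.dist x z = m + 1 := ⟨net.dist x z - 1, by omega⟩
            rw [net.dist_comm z x, hm, pow_succ, pow_succ]
            have : q ^ m ≤ (1 / 2 : ℝ) ^ m := pow_le_pow_left₀ hq0 hq m
            nlinarith
        _ ≤ ∑ x, 2 * q * (1 / 2 : ℝ) ^ net.dist z x := by
            apply Finset.sum_le_sum_of_subset_of_nonneg (Finset.erase_subset _ _)
            intro i _ _; positivity
        _ = 2 * q * ∑ x, (1 / 2 : ℝ) ^ net.dist z x := by rw [Finset.mul_sum]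
        _ ≤ 2 * q * 3 ^ d := mul_le_mul_of_nonneg_left (net.sum_half z) (by positivity)
    have hT : 0 ≤ (1 / 2 : ℝ) ^ net.dist o z * TT Bs P net k y G G' z :=
      mul_nonneg (by positivity) (hTT0 z)
    rw [← Finset.mul_sum, ← Finset.sum_mul]
    calc Cn * ((∑ x ∈ Finset.univ.erase z, q ^ net.dist x z) *
          ((1 / 2 : ℝ) ^ net.dist o z * TT Bs P net k y G G' z))
        ≤ Cn * ((2 * q * 3 ^ d) * ((1 / 2 : ℝ) ^ net.dist o z * TT Bs P net k y G G' z)) := by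
          apply mul_le_mul_of_nonneg_left _ hCn0
          exact mul_le_mul_of_nonneg_right h1 hT
      _ = _ := by rw [hqdef]; ring
  refine (Finset.sum_le_sum fun z _ => hz z).trans (le_of_eq ?_)
  unfold PHI
  rw [Finset.mul_sum]

end Dyn
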