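import Pool.Agent.Lib_MP_36b788.PhiDefs
import Pool.Agent.Lib_MP_36b788.LSC

/-!
# PHIV: bounds and drift of `V_z = (S_z A²)^{-m/2}`

PROOF. `V = exp(-(m/2) log(S A²))`.
* `V ≤ 2` if `‖G z‖ ≥ 1/(2A)`: ls_S_low with `z = x`: `S_z ≥ 1/(50A²)`, `50^{m/2} ≤ 2` for `m ≤ 1/3`.
* `V ≥ ½`: ls_S_up: `S A² ≤ 4^d·64(32N)^4 =: c`, `c^{-m/2} ≥ ½` for `m ≤ 2 log 2/log c`.
* `V ≥ (3ρA)^{-m}` if `‖G z‖ ≤ ρ ≤ 1` and `k ≤ kρ`: ls_S_up second: `S ≤ 2(ρ+4dCyk)² + C k² ≤ 9ρ²` for small `k`.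
* drift of `V` and `V²` (`V² ` is `V` with `2m`): with `L` of `Base.drift`, `V⁺ ≤ V e^{-(m/2)L}`, `e^a ≤ 1+a+a²` for
  `|a| ≤ 1`: `∫V⁺ ≤ V(1 - (m/2)∫L + (m²/4)∫L²)`. `r ≤ r2`: `≤ V(1 - h(m cV/4 - m²CA/4)) ≤ V(1-h m cV/8)` if
  `m ≤ cV/(2CA)`; `r > r2`: `V ≤ 2` (as `r2 ≥ 6/A`), `∫V⁺ ≤ V + 2h(m CV + m²CA/4)`. Same with `2m`.
-/

open MeasureTheory

namespace Dyn

private theorem PhiV_pos {k : ℝ} {N : ℕ} {ι : Type} {G : ι → E N} (h : Nz k G) (z : ι) :
    (G z ≠ 0) ∨ (0 < k ∧ G ≠ 0) := by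
  rcases h with h | h
  · exact Or.inl (h z)
  · exact Or.inr h

private theorem PhiV_SS_zero {N d : ℕ} {ι : Type} [Fintype ι] (net : Net ι d)
    (β k A Rc θ : ℝ) (y : ℝ → ℝ) (x : ι) : SS net β k A Rc θ y (0 : ι → E N) x = 0 := by
  unfold SS
  refine Finset.sum_eq_zero fun z _ => ?_
  have h : Yv net k (1 / A) y (0 : ι → E N) z = 0 := by
    unfold Yv ctil
    simp
  rw [h]
  simp

private theorem PhiV_SS_k0 {N d : ℕ} {ι : Type} [Fintype ι] (net : Net ι d)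
    (β A Rc θ : ℝ) (y : ℝ → ℝ) (G : ι → E N) (x : ι) (hG : G x = 0) :
    SS net β 0 A Rc θ y G x = 0 := by
  unfold SS
  refine Finset.sum_eq_zero fun z _ => ?_
  by_cases hz : z = x
  · subst hz
    have h : Yv net 0 (1 / A) y G z = 0 := by
      unfold Yv
      rw [hG, zero_smul, add_zero]
    rw [h]
    simp
  · unfold WW
    have h1 := net.dist_pos x z (Ne.symm hz)
    have h2 : (A * 0) ^ (2 * net.dist x z) = 0 := by
      rw [mul_zero]
      exact zero_pow (by omega)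
    rw [h2]
    simp

private theorem PhiV_nz {N d : ℕ} {ι : Type} [Fintype ι] (net : Net ι d)
    (β k A Rc θ : ℝ) (y : ℝ → ℝ) (G : ι → E N) (hk : 0 ≤ k)
    (h : ∀ x, 0 < SS net β k A Rc θ y G x) : Nz k G := by
  rcases isEmpty_or_nonempty ι with hι | ⟨⟨x⟩⟩
  · exact Or.inl fun z => (hι.false z).elim
  rcases hk.eq_or_lt with hk0 | hk0
  · left
    intro z hz
    have h1 := h z
    rw [← hk0, PhiV_SS_k0 net β A Rc θ y G z hz] at h1
    exact lt_irrefl _ h1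
  · right
    refine ⟨hk0, fun h0 => ?_⟩
    have h1 := h x
    rw [h0, PhiV_SS_zero] at h1
    exact lt_irrefl _ h1

private theorem PhiV_exp {a : ℝ} (ha : |a| ≤ 1) : Real.exp a ≤ 1 + a + a ^ 2 := by
  have h := Real.abs_exp_sub_one_sub_id_le ha
  have := (abs_le.1 h).2
  linarith

private theorem PhiV_int {Ω : Type} [MeasurableSpace Ω] (μ : Measure Ω) [IsProbabilityMeasure μ]
    (L W : Ω → ℝ) (hL : Measurable L) (m v a b : ℝ) (hm : 0 < m) (hm1 : m ≤ 1) (hv : 0 ≤ v)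
    (h : ∀ᵐ ξ ∂μ, |L ξ| ≤ 1 ∧ 0 ≤ W ξ ∧ W ξ ≤ v * Real.exp (-m * L ξ))
    (ha : a ≤ ∫ ξ, L ξ ∂μ) (hb : ∫ ξ, L ξ ^ 2 ∂μ ≤ b) :
    ∫ ξ, W ξ ∂μ ≤ v * (1 - m * a + m ^ 2 * b) := by
  have hLi : Integrable L μ := by
    refine Integrable.of_bound hL.aestronglyMeasurable 1 ?_
    filter_upwards [h] with ξ hξ
    rw [Real.norm_eq_abs]
    exact hξ.1
  have hL2 : Integrable (fun ξ => L ξ ^ 2) μ := by
    refine Integrable.of_bound (hL.pow_const 2).aestronglyMeasurable 1 ?_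
    filter_upwards [h] with ξ hξ
    rw [Real.norm_eq_abs, abs_pow]
    exact pow_le_one₀ (abs_nonneg _) hξ.1
  have hg : Integrable (fun ξ => v * (1 - m * L ξ + m ^ 2 * L ξ ^ 2)) μ :=
    (((integrable_const 1).sub (hLi.const_mul m)).add (hL2.const_mul (m ^ 2))).const_mul v
  have h1 : ∫ ξ, W ξ ∂μ ≤ ∫ ξ, v * (1 - m * L ξ + m ^ 2 * L ξ ^ 2) ∂μ := by
    refine integral_mono_of_nonneg ?_ hg ?_
    · filter_upwards [h] with ξ hξ
      exact hξ.2.1
    · filter_upwards [h] with ξ hξ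
      refine hξ.2.2.trans (mul_le_mul_of_nonneg_left ?_ hv)
      have h2 : |-m * L ξ| ≤ 1 := by
        rw [abs_mul, abs_neg, abs_of_pos hm]
        calc m * |L ξ| ≤ 1 * 1 := mul_le_mul hm1 hξ.1 (abs_nonneg _) zero_le_one
          _ = 1 := one_mul _
      have h3 := PhiV_exp h2
      calc Real.exp (-m * L ξ) ≤ 1 + -m * L ξ + (-m * L ξ) ^ 2 := h3
        _ = 1 - m * L ξ + m ^ 2 * L ξ ^ 2 := by ring
  have h2 : ∫ ξ, v * (1 - m * L ξ + m ^ 2 * L ξ ^ 2) ∂μ =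
      v * (1 - m * ∫ ξ, L ξ ∂μ + m ^ 2 * ∫ ξ, L ξ ^ 2 ∂μ) := by
    rw [integral_const_mul]
    congr 1
    have e1 : Integrable (fun ξ => 1 - m * L ξ) μ := (integrable_const 1).sub (hLi.const_mul m)
    rw [integral_add e1 (hL2.const_mul (m ^ 2)), integral_sub (integrable_const 1) (hLi.const_mul m),
      integral_const_mul, integral_const_mul]
    simp
  rw [h2] at h1
  refine h1.trans (mul_le_mul_of_nonneg_left ?_ hv)
  have h3 := mul_le_mul_of_nonneg_left ha hm.le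
  have h4 := mul_le_mul_of_nonneg_left hb (sq_nonneg m)
  linarith

theorem v_facts (N d : ℕ) (β D0 : ℝ) (hN : 3 ≤ N) (hβ : 1 < β) (hD : 1 ≤ D0)
    (Bs : Base N d β D0) :
    ∃ m0 : ℝ, 0 < m0 ∧ m0 ≤ 1 / 3 ∧ ∀ m, 0 < m → m ≤ m0 →
      ∃ cm Cm : ℝ, 0 < cm ∧ 0 < Cm ∧
      (∀ ρ : ℝ, 0 < ρ → ρ ≤ 1 → ∃ kρ : ℝ, 0 < kρ ∧ kρ ≤ Bs.k0 ∧
        ∀ k, 0 ≤ k → k ≤ kρ → ∀ (ι : Type) [Fintype ι] (net : Net ι d),
        ∃ h0 : ℝ, 0 < h0 ∧ ∀ (h : ℝ) (ν : Measure (E N)), 0 < h → h < h0 → IsNoise h ν →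
        ∀ y : ℝ → ℝ, IsCorr N β h ν Bs.δ Bs.Cy y → ∀ G : ι → E N, (∀ x, ‖G x‖ ≤ rad β h) →
        Nz k G → ∀ z, ‖G z‖ ≤ ρ → (3 * ρ * Bs.A) ^ (-m) ≤ Vs Bs m net k y G z) ∧
      ∀ k, 0 ≤ k → k ≤ Bs.k0 → ∀ (ι : Type) [Fintype ι] (net : Net ι d),
      ∃ h0 : ℝ, 0 < h0 ∧ ∀ (h : ℝ) (ν : Measure (E N)), 0 < h → h < h0 → IsNoise h ν →
      ∀ y : ℝ → ℝ, IsCorr N β h ν Bs.δ Bs.Cy y → ∀ G : ι → E N, (∀ x, ‖G x‖ ≤ rad β h) →
      Nz k G →
        (∀ᵐ ξ ∂(pim ι ν), Nz k (stp net β h k G ξ)) ∧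
        ∀ z, 1 / 2 ≤ Vs Bs m net k y G z ∧
          (1 / (2 * Bs.A) ≤ ‖G z‖ → Vs Bs m net k y G z ≤ 2) ∧
          (∃ L : (ι → E N) → ℝ, Measurable L ∧
            (∀ᵐ ξ ∂(pim ι ν), |L ξ| ≤ 1 ∧
              Vs Bs m net k y (stp net β h k G ξ) z ≤
                Vs Bs m net k y G z * Real.exp (-(m / 2) * L ξ)) ∧
            (h * (if ‖G z‖ ≤ Bs.r2 then Bs.cV / 2 else -(2 * Bs.CV)) ≤ ∫ ξ, L ξ ∂(pim ι ν)) ∧
            ∫ ξ, L ξ ^ 2 ∂(pim ι ν) ≤ Bs.CA * h) ∧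
          (∫ ξ, Vs Bs m net k y (stp net β h k G ξ) z ^ 2 ∂(pim ι ν) ≤
            (1 - cm * h) * Vs Bs m net k y G z ^ 2 + Cm * h) := by
  have hA := Bs.hA
  have hA0 : 0 < Bs.A := by linarith
  have hCV := Bs.hCV
  have hCA := Bs.hCA
  have hcV : 0 < Bs.cV := (mul_pos (by linarith : 0 < D0) hCV).trans_le Bs.hcV
  have hCy := Bs.hCy
  have hN' : (3 : ℝ) ≤ N := by exact_mod_cast hN
  have hW1 : (1 : ℝ) ≤ 64 * (32 * N) ^ 4 := by
    have : (1 : ℝ) ≤ (32 * N) ^ 4 := one_le_pow₀ (by linarith)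
    linarith
  set c : ℝ := 4 ^ d * (64 * (32 * N) ^ 4) with hc
  have hc2 : (64 : ℝ) * (32 * N) ^ 4 ≤ c := by
    have : (1 : ℝ) ≤ 4 ^ d := one_le_pow₀ (by norm_num)
    exact le_mul_of_one_le_left (by linarith) this
  have hc1 : 1 < c := by
    have : (1 : ℝ) ≤ (32 * N) ^ 4 := one_le_pow₀ (by linarith)
    linarith
  have hc0 : 0 < c := by linarith
  have hlc : 0 < Real.log c := Real.log_pos hc1
  have hl2 : 0 < Real.log 2 := Real.log_pos (by norm_num)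
  refine ⟨min (1 / 3) (min (2 * Real.log 2 / Real.log c) (Bs.cV / (4 * Bs.CA))),
    lt_min (by norm_num) (lt_min (by positivity) (by positivity)), min_le_left _ _,
    fun m hm hm0 => ?_⟩
  have m1 : m ≤ 1 / 3 := hm0.trans (min_le_left _ _)
  have m2 : m * Real.log c ≤ 2 * Real.log 2 :=
    (le_div_iff₀ hlc).1 (hm0.trans ((min_le_right _ _).trans (min_le_left _ _)))
  have m3 : m * (4 * Bs.CA) ≤ Bs.cV :=
    (le_div_iff₀ (by positivity)).1 (hm0.trans ((min_le_right _ _).trans (min_le_right _ _)))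
  set cm : ℝ := m * Bs.cV / 4 with hcm
  have hcm0 : 0 < cm := by positivity
  refine ⟨cm, 4 * (cm + 2 * m * Bs.CV + m ^ 2 * Bs.CA), hcm0, by positivity, ?_, ?_⟩
  · intro ρ hρ hρ1
    set W : ℝ := 3 ^ d * (64 * (32 * N) ^ 4) with hW
    have hW2 : 1 ≤ W := by
      have : (1 : ℝ) ≤ 3 ^ d := one_le_pow₀ (by norm_num)
      exact hW1.trans (le_mul_of_one_le_left (by linarith) this)
    have hdC : (0 : ℝ) ≤ 4 * d * Bs.Cy := by positivity
    refine ⟨min Bs.k0 (min (ρ / (4 * d * Bs.Cy + 1)) (ρ / (2 * W))),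
      lt_min Bs.hk0 (lt_min (by positivity) (by positivity)), min_le_left _ _,
      fun k hk hkρ ι _ net => ?_⟩
    have k1 : k ≤ Bs.k0 := hkρ.trans (min_le_left _ _)
    have k2 : k * (4 * d * Bs.Cy + 1) ≤ ρ :=
      (le_div_iff₀ (by positivity)).1 (hkρ.trans ((min_le_right _ _).trans (min_le_left _ _)))
    have k3 : k * (2 * W) ≤ ρ :=
      (le_div_iff₀ (by positivity)).1 (hkρ.trans ((min_le_right _ _).trans (min_le_right _ _)))
    obtain ⟨h0, hh0, H⟩ := Bs.lsb k hk k1 ι net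
    refine ⟨h0, hh0, fun h ν hh hh1 hν y hy G hG hnz z hz => ?_⟩
    have HL := H h ν hh hh1 hν y hy G fun x => by
      have := hG x
      have := norm_nonneg (G x)
      linarith
    have hpos := ls_pos HL z (PhiV_pos hnz z)
    have hup := (ls_S_up HL z).2
    unfold Vs VV
    set S := SS net β k Bs.A Bs.Rc (Bs.Ct * Real.sqrt k) y G z with hS
    have e1 : 2 * (Bs.A * k) ^ 2 * 3 ^ d * (64 * (32 * N) ^ 4 / Bs.A ^ 2) = 2 * k ^ 2 * W := by
      rw [hW]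
      field_simp
    rw [e1] at hup
    have k4 : k * (4 * d * Bs.Cy + 1) = 4 * d * Bs.Cy * k + k := by ring
    have k5 : 0 ≤ 4 * d * Bs.Cy * k := mul_nonneg hdC hk
    have e2 : ‖G z‖ + 4 * d * Bs.Cy * k ≤ 2 * ρ := by linarith
    have e3 : (‖G z‖ + 4 * d * Bs.Cy * k) ^ 2 ≤ (2 * ρ) ^ 2 :=
      pow_le_pow_left₀ (by positivity) e2 2
    have e4 : k ≤ ρ := by linarith
    have e5 : 2 * k ^ 2 * W ≤ ρ ^ 2 := by
      calc 2 * k ^ 2 * W = k * (k * (2 * W)) := by ring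
        _ ≤ k * ρ := mul_le_mul_of_nonneg_left k3 hk
        _ ≤ ρ * ρ := mul_le_mul_of_nonneg_right e4 hρ.le
        _ = ρ ^ 2 := by ring
    have e6 : S ≤ (3 * ρ) ^ 2 := by
      have : (3 * ρ) ^ 2 = 2 * (2 * ρ) ^ 2 + ρ ^ 2 := by ring
      linarith
    have e7 : Real.log S ≤ 2 * Real.log (3 * ρ) := by
      have := Real.log_le_log hpos e6
      rwa [Real.log_pow] at this
    have e8 : Real.log (3 * ρ * Bs.A) = Real.log (3 * ρ) + Real.log Bs.A :=
      Real.log_mul (by positivity) hA0.ne'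
    rw [Real.rpow_def_of_pos (by positivity), e8]
    refine Real.exp_le_exp.2 ?_
    have := mul_le_mul_of_nonneg_left e7 hm.le
    linarith
  · intro k hk hk0 ι _ net
    obtain ⟨h1, hh1, H1⟩ := Bs.lsb k hk hk0 ι net
    obtain ⟨h2, hh2, H2⟩ := Bs.drift k hk hk0 ι net
    refine ⟨min h1 h2, lt_min hh1 hh2, fun h ν hh hh0 hν y hy G hG hnz => ?_⟩
    have HL := H1 h ν hh (hh0.trans_le (min_le_left _ _)) hν y hy G fun x => by
      have := hG x
      have := norm_nonneg (G x)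
      linarith
    have HD := H2 h ν hh (hh0.trans_le (min_le_right _ _)) hν y hy G hG
    have := hν.prob
    have : IsProbabilityMeasure (pim ι ν) := by
      unfold pim
      infer_instance
    constructor
    · have h3 : ∀ᵐ ξ ∂(pim ι ν), ∀ x,
          0 < SS net β k Bs.A Bs.Rc (Bs.Ct * Real.sqrt k) y (stp net β h k G ξ) x := by
        rw [ae_all_iff]
        intro x
        obtain ⟨L, -, hL, -⟩ := HD x (PhiV_pos hnz x)
        filter_upwards [hL] with ξ hξ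
        exact hξ.2.1
      filter_upwards [h3] with ξ hξ
      exact PhiV_nz net β k Bs.A Bs.Rc _ y _ hk hξ
    · intro z
      obtain ⟨L, hLm, hL, hL1, hL2⟩ := HD z (PhiV_pos hnz z)
      have hpos := ls_pos HL z (PhiV_pos hnz z)
      have hup := (ls_S_up HL z).1
      have hlow := (ls_S_low HL z z).1
      rw [net.dist_self, mul_zero, pow_zero] at hlow
      have hVd : ∀ G' : ι → E N, Vs Bs m net k y G' z = Real.exp (-(m / 2) *
          (Real.log (SS net β k Bs.A Bs.Rc (Bs.Ct * Real.sqrt k) y G' z) + 2 * Real.log Bs.A)) :=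
        fun _ => rfl
      set S := SS net β k Bs.A Bs.Rc (Bs.Ct * Real.sqrt k) y G z with hS
      have hlA : Real.log (S * Bs.A ^ 2) = Real.log S + 2 * Real.log Bs.A := by
        rw [Real.log_mul hpos.ne' (by positivity), Real.log_pow]
        norm_num
      have v1 : 1 / 2 ≤ Vs Bs m net k y G z := by
        rw [hVd, ← hlA]
        have e1 : S * Bs.A ^ 2 ≤ c := by
          rw [le_div_iff₀ (by positivity)] at hup
          exact hup
        have e2 : Real.log (S * Bs.A ^ 2) ≤ Real.log c := Real.log_le_log (by positivity) e1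
        have e3 : (1 / 2 : ℝ) = Real.exp (-Real.log 2) := by
          rw [Real.exp_neg, Real.exp_log (by norm_num), one_div]
        rw [e3]
        refine Real.exp_le_exp.2 ?_
        have := mul_le_mul_of_nonneg_left e2 hm.le
        linarith
      have v2 : 1 / (2 * Bs.A) ≤ ‖G z‖ → Vs Bs m net k y G z ≤ 2 := by
        intro hz
        rw [hVd, ← hlA]
        have e1 := hlow hz
        rw [div_le_iff₀ (by positivity)] at e1
        have e2 : (2 ^ 6 : ℝ)⁻¹ ≤ S * Bs.A ^ 2 := by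
          have : S * (50 * Bs.A ^ 2) = 50 * (S * Bs.A ^ 2) := by ring
          norm_num
          linarith
        have e3 : -(6 * Real.log 2) ≤ Real.log (S * Bs.A ^ 2) := by
          have := Real.log_le_log (by positivity) e2
          rw [Real.log_inv, Real.log_pow] at this
          exact_mod_cast this
        have e4 : (2 : ℝ) = Real.exp (Real.log 2) := (Real.exp_log (by norm_num)).symm
        conv_rhs => rw [e4]
        refine Real.exp_le_exp.2 ?_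
        have q1 := mul_le_mul_of_nonneg_left e3 hm.le
        have q2 := mul_le_mul_of_nonneg_right m1 hl2.le
        linarith
      have v3 : ∀ᵐ ξ ∂(pim ι ν), |L ξ| ≤ 1 ∧ Vs Bs m net k y (stp net β h k G ξ) z ≤
          Vs Bs m net k y G z * Real.exp (-(m / 2) * L ξ) := by
        filter_upwards [hL] with ξ hξ
        refine ⟨hξ.1, ?_⟩
        rw [hVd, hVd, ← Real.exp_add]
        refine Real.exp_le_exp.2 ?_
        have := mul_le_mul_of_nonneg_left hξ.2.2 hm.le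
        linarith
      refine ⟨v1, v2, ⟨L, hLm, v3, hL1, hL2⟩, ?_⟩
      have hV0 : ∀ G' : ι → E N, 0 < Vs Bs m net k y G' z := fun G' => by
        rw [hVd]
        exact Real.exp_pos _
      set v := Vs Bs m net k y G z with hv
      have hvp := hV0 G
      rw [← hv] at hvp
      have key := PhiV_int (pim ι ν) L (fun ξ => Vs Bs m net k y (stp net β h k G ξ) z ^ 2) hLm m
        (v ^ 2) (h * (if ‖G z‖ ≤ Bs.r2 then Bs.cV / 2 else -(2 * Bs.CV))) (Bs.CA * h) hm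
        (by linarith) (by positivity) (by
          filter_upwards [v3] with ξ hξ
          refine ⟨hξ.1, sq_nonneg _, ?_⟩
          calc Vs Bs m net k y (stp net β h k G ξ) z ^ 2
              ≤ (v * Real.exp (-(m / 2) * L ξ)) ^ 2 := pow_le_pow_left₀ (hV0 _).le hξ.2 2
            _ = v ^ 2 * Real.exp (-m * L ξ) := by
              rw [mul_pow, ← Real.exp_nat_mul]
              congr 2
              push_cast
              ring) hL1 hL2
      refine key.trans ?_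
      have t1 : m ^ 2 * (Bs.CA * h) ≤ cm * h := by
        rw [hcm]
        have q1 : m * (m * (4 * Bs.CA)) ≤ m * Bs.cV := mul_le_mul_of_nonneg_left m3 hm.le
        have q2 := mul_le_mul_of_nonneg_right q1 hh.le
        linarith
      have hv2 : 0 ≤ v ^ 2 := sq_nonneg v
      split_ifs with hr
      · have t2 : 1 - m * (h * (Bs.cV / 2)) + m ^ 2 * (Bs.CA * h) ≤ 1 - cm * h := by
          have : m * (h * (Bs.cV / 2)) = 2 * (cm * h) := by rw [hcm]; ring
          linarith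
        have t3 := mul_le_mul_of_nonneg_left t2 hv2
        have t4 : 0 ≤ 4 * (cm + 2 * m * Bs.CV + m ^ 2 * Bs.CA) * h := by positivity
        linarith
      · have hzr : 1 / (2 * Bs.A) ≤ ‖G z‖ := by
          have q1 := Bs.hAr2
          push Not at hr
          have q2 : 1 / (2 * Bs.A) ≤ 6 / Bs.A := by
            rw [div_le_div_iff₀ (by positivity) hA0]
            linarith
          linarith
        have hv3 := v2 hzr
        have hv4 : v ^ 2 ≤ 4 := (pow_le_pow_left₀ hvp.le hv3 2).trans (by norm_num)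
        have t5 : 0 ≤ (cm + 2 * m * Bs.CV + m ^ 2 * Bs.CA) * h := by positivity
        have t6 := mul_le_mul_of_nonneg_right hv4 t5
        calc v ^ 2 * (1 - m * (h * -(2 * Bs.CV)) + m ^ 2 * (Bs.CA * h))
            = (1 - cm * h) * v ^ 2 + v ^ 2 * ((cm + 2 * m * Bs.CV + m ^ 2 * Bs.CA) * h) := by ring
          _ ≤ (1 - cm * h) * v ^ 2 + 4 * (cm + 2 * m * Bs.CV + m ^ 2 * Bs.CA) * h := by linarith

end Dyn
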