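import Mathlib

/-!
# PZALG: the algebra of the zones (pure real arithmetic)

PROOF. Weak coefficient (`wk z`): `p u + 2p²Cp - (m/4)cV + ½m²CA ≤ (m/4)CV - (m/4)cV + (m/4)CV ≤ -(m/5)cV`
(`u ≤ N1`, `400 S3 CV ≤ cV`, `S3 ≥ 1`). Strong coefficient: `≤ (m/4)CV + mCV + (m/4)CV = (3/2)mCV`, and `V ≤ 2` there, so the
strong part is `≤ eta·4·S3·(3/2)mCV = 6·S3·eta·m·CV = p c2/8`. Let `Sw` be the weighted sum of the `V` with `wk` and of the
`V'` with `wk'`. LHS `≤ p u + p²Cp + p c2/8 - eta(m/5)cV Sw`. RHS `≥ -2cs - cs eta Sw`, `cs = p c2/24` (`eta·4·S3 ≤ 1`), and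
`cs ≤ (m/40)cV` (from `p N1 ≤ (m/4)CV`, `c2 ≤ 1/4`, `N1 ≥ 1`). So it suffices
`u + pCp + c2/8 - (eta/p)(m/6)cV Sw ≤ -c2/12`, where `(eta/p)(m/6)cV = c2 cV/(288 S3 CV) ≥ 1.38 c2`, `pCp ≤ c2/16`.
(S) `u ≤ -c2/2`. (I) `u ≤ 2e1 ≤ c2/16`, `Sw ≥ ½`. (W) `u ≤ N1`, `Sw ≥ C7 = 2(N1+2)/c2`.
-/

namespace Dyn

private theorem PzAlg_side (V : ℝ) (wk : Prop) (S3 p m cV CV CA Cp N1 u : ℝ)
    (hV : 1 / 2 ≤ V) (hVs : ¬ wk → V ≤ 2)
    (hS3 : 1 ≤ S3) (hp : 0 < p) (hm : 0 < m) (hCV : 0 < CV)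
    (hmCA : m * CA ≤ CV / 2) (hcV : 400 * S3 * CV ≤ cV)
    (hp1 : p * N1 + 2 * p ^ 2 * Cp ≤ m / 4 * CV) (hu : u ≤ N1) :
    open Classical in
    ∃ W : ℝ, 0 ≤ W ∧ (wk → W = V) ∧ V ≤ 2 + W ∧
      V * (p * u - m / 2 * (if wk then cV / 2 else -(2 * CV)) + 2 * p ^ 2 * Cp
            + 1 / 2 * m ^ 2 * CA) ≤ 3 * m * CV - m / 5 * cV * W := by
  classical
  have h1 : p * u ≤ p * N1 := mul_le_mul_of_nonneg_left hu hp.le
  have h2 : m * (m * CA) ≤ m * (CV / 2) := mul_le_mul_of_nonneg_left hmCA hm.le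
  have h3 : 400 * CV ≤ cV := by
    have : 400 * 1 * CV ≤ 400 * S3 * CV := by
      refine mul_le_mul_of_nonneg_right ?_ hCV.le
      linarith
    linarith
  have h4 : m * (400 * CV) ≤ m * cV := mul_le_mul_of_nonneg_left h3 hm.le
  have h5 : 0 < m * CV := mul_pos hm hCV
  have hV0 : 0 ≤ V := by linarith
  by_cases hw : wk
  · refine ⟨V, hV0, fun _ => rfl, by linarith, ?_⟩
    rw [if_pos hw]
    have hK : p * u - m / 2 * (cV / 2) + 2 * p ^ 2 * Cp + 1 / 2 * m ^ 2 * CA ≤ -(m / 5 * cV) := by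
      linarith
    have h6 := mul_le_mul_of_nonneg_left hK hV0
    linarith
  · refine ⟨0, le_rfl, fun h => absurd h hw, by linarith [hVs hw], ?_⟩
    rw [if_neg hw]
    have hK : p * u - m / 2 * (-(2 * CV)) + 2 * p ^ 2 * Cp + 1 / 2 * m ^ 2 * CA ≤
        3 / 2 * (m * CV) := by
      linarith
    have h6 := mul_le_mul_of_nonneg_left hK hV0
    have h7 : V * (3 / 2 * (m * CV)) ≤ 2 * (3 / 2 * (m * CV)) :=
      mul_le_mul_of_nonneg_right (hVs hw) (by linarith)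
    linarith

theorem pzalg {ι : Type} [Fintype ι] (α V V' : ι → ℝ) (wk wk' : ι → Prop) (x : ι)
    (S3 p m eta c2 e1 cV CV CA Cp N1 u : ℝ)
    (hα : ∀ z, 0 ≤ α z) (hαs : ∑ z, α z ≤ S3) (hαx : α x = 1)
    (hV : ∀ z, 1 / 2 ≤ V z) (hV' : ∀ z, 1 / 2 ≤ V' z)
    (hVs : ∀ z, ¬ wk z → V z ≤ 2) (hVs' : ∀ z, ¬ wk' z → V' z ≤ 2)
    (hS3 : 1 ≤ S3) (hp : 0 < p) (hm : 0 < m) (hCV : 0 < CV) (hCA : 0 < CA) (hCp : 0 < Cp)
    (hN1 : 1 ≤ N1) (hc2 : 0 < c2) (hc21 : c2 ≤ 1 / 4)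
    (hmCA : m * CA ≤ CV / 2) (hcV : 400 * S3 * CV ≤ cV)
    (heta : eta = p * c2 / (48 * S3 * m * CV))
    (hp1 : p * N1 + 2 * p ^ 2 * Cp ≤ m / 4 * CV) (hp2 : p * Cp ≤ c2 / 16)
    (heta1 : eta * (4 * S3) ≤ 1) (he1 : e1 ≤ c2 / 32) (hu : u ≤ N1)
    (hz : u ≤ -(c2 / 2) ∨ (u ≤ 2 * e1 ∧ (wk x ∨ wk' x)) ∨
      ((2 * (N1 + 2) / c2 ≤ V x ∧ wk x) ∨ (2 * (N1 + 2) / c2 ≤ V' x ∧ wk' x))) :
    open Classical in
    (p * u + p ^ 2 * Cp) + eta * ∑ z, α z *
        (V z * (p * u - m / 2 * (if wk z then cV / 2 else -(2 * CV)) + 2 * p ^ 2 * Cp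
            + 1 / 2 * m ^ 2 * CA)
          + V' z * (p * u - m / 2 * (if wk' z then cV / 2 else -(2 * CV)) + 2 * p ^ 2 * Cp
            + 1 / 2 * m ^ 2 * CA)) ≤
      -(p * c2 / 24) * (1 + eta * ∑ z, α z * (V z + V' z)) := by
  classical
  have hmCV : 0 < m * CV := mul_pos hm hCV
  have hS30 : 0 < S3 := by linarith
  have heta0 : 0 < eta := by
    rw [heta]
    positivity
  have hcV0 : 0 < cV := lt_of_lt_of_le (by positivity) hcV
  choose W hW0 hWk hW2 hWK using fun z => PzAlg_side (V z) (wk z) S3 p m cV CV CA Cp N1 u (hV z)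
    (hVs z) hS3 hp hm hCV hmCA hcV hp1 hu
  choose W' hW0' hWk' hW2' hWK' using fun z => PzAlg_side (V' z) (wk' z) S3 p m cV CV CA Cp N1 u
    (hV' z) (hVs' z) hS3 hp hm hCV hmCA hcV hp1 hu
  have hSw0 : 0 ≤ ∑ z, α z * (W z + W' z) :=
    Finset.sum_nonneg fun z _ => mul_nonneg (hα z) (add_nonneg (hW0 z) (hW0' z))
  have hSwx : W x + W' x ≤ ∑ z, α z * (W z + W' z) := by
    have h := Finset.single_le_sum (f := fun z => α z * (W z + W' z))
      (fun z _ => mul_nonneg (hα z) (add_nonneg (hW0 z) (hW0' z))) (Finset.mem_univ x)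
    simp only [hαx, one_mul] at h
    exact h
  have hL : ∑ z, α z *
        (V z * (p * u - m / 2 * (if wk z then cV / 2 else -(2 * CV)) + 2 * p ^ 2 * Cp
            + 1 / 2 * m ^ 2 * CA)
          + V' z * (p * u - m / 2 * (if wk' z then cV / 2 else -(2 * CV)) + 2 * p ^ 2 * Cp
            + 1 / 2 * m ^ 2 * CA)) ≤
      6 * m * CV * S3 - m / 5 * cV * ∑ z, α z * (W z + W' z) := by
    have h1 : ∑ z, α z *
        (V z * (p * u - m / 2 * (if wk z then cV / 2 else -(2 * CV)) + 2 * p ^ 2 * Cp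
            + 1 / 2 * m ^ 2 * CA)
          + V' z * (p * u - m / 2 * (if wk' z then cV / 2 else -(2 * CV)) + 2 * p ^ 2 * Cp
            + 1 / 2 * m ^ 2 * CA)) ≤
        ∑ z, (6 * m * CV * α z - m / 5 * cV * (α z * (W z + W' z))) := by
      refine Finset.sum_le_sum fun z _ => ?_
      have h2 := mul_le_mul_of_nonneg_left (add_le_add (hWK z) (hWK' z)) (hα z)
      refine h2.trans (le_of_eq ?_)
      ring
    refine h1.trans ?_
    rw [Finset.sum_sub_distrib, ← Finset.mul_sum, ← Finset.mul_sum]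
    have h3 : 6 * m * CV * ∑ z, α z ≤ 6 * m * CV * S3 :=
      mul_le_mul_of_nonneg_left hαs (by positivity)
    linarith
  have hR : ∑ z, α z * (V z + V' z) ≤ 4 * S3 + ∑ z, α z * (W z + W' z) := by
    have h1 : ∑ z, α z * (V z + V' z) ≤ ∑ z, (4 * α z + α z * (W z + W' z)) := by
      refine Finset.sum_le_sum fun z _ => ?_
      have h2 := mul_le_mul_of_nonneg_left (add_le_add (hW2 z) (hW2' z)) (hα z)
      refine h2.trans (le_of_eq ?_)
      ring
    rw [Finset.sum_add_distrib, ← Finset.mul_sum] at h1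
    linarith
  generalize (∑ z, α z *
        (V z * (p * u - m / 2 * (if wk z then cV / 2 else -(2 * CV)) + 2 * p ^ 2 * Cp
            + 1 / 2 * m ^ 2 * CA)
          + V' z * (p * u - m / 2 * (if wk' z then cV / 2 else -(2 * CV)) + 2 * p ^ 2 * Cp
            + 1 / 2 * m ^ 2 * CA))) = SL at hL ⊢
  generalize (∑ z, α z * (V z + V' z)) = ST at hR ⊢
  generalize (∑ z, α z * (W z + W' z)) = Sw at hSw0 hSwx hL hR
  -- the numbers
  have e1' : eta * (6 * m * CV * S3) = p * c2 / 8 := by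
    rw [heta]
    field_simp
    ring
  have h400 : 400 * CV ≤ cV := by
    have : 400 * 1 * CV ≤ 400 * S3 * CV := by
      refine mul_le_mul_of_nonneg_right ?_ hCV.le
      linarith
    linarith
  have hpp : p ≤ m / 4 * CV := by
    have h1 : p * 1 ≤ p * N1 := mul_le_mul_of_nonneg_left hN1 hp.le
    have h2 : 0 ≤ 2 * p ^ 2 * Cp := by positivity
    linarith
  have hcs : p * c2 / 24 ≤ m / 40 * cV := by
    have h1 : p * c2 ≤ p * (1 / 4) := mul_le_mul_of_nonneg_left hc21 hp.le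
    have h2 : m * (400 * CV) ≤ m * cV := mul_le_mul_of_nonneg_left h400 hm.le
    have h3 : 0 < m * cV := mul_pos hm hcV0
    linarith
  have heSw : 0 ≤ eta * Sw := mul_nonneg heta0.le hSw0
  have e2' : 25 / 18 * (p * c2) ≤ eta * (m / 6 * cV) := by
    have h1 : eta * (m / 6 * (400 * S3 * CV)) ≤ eta * (m / 6 * cV) :=
      mul_le_mul_of_nonneg_left (mul_le_mul_of_nonneg_left hcV (by positivity)) heta0.le
    have h2 : eta * (m / 6 * (400 * S3 * CV)) = 25 / 18 * (p * c2) := by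
      rw [heta]
      field_simp
      ring
    linarith
  have hL2 : eta * SL ≤ p * c2 / 8 - m / 5 * cV * (eta * Sw) := by
    have h1 := mul_le_mul_of_nonneg_left hL heta0.le
    calc eta * SL ≤ eta * (6 * m * CV * S3 - m / 5 * cV * Sw) := h1
      _ = eta * (6 * m * CV * S3) - m / 5 * cV * (eta * Sw) := by ring
      _ = p * c2 / 8 - m / 5 * cV * (eta * Sw) := by rw [e1']
  have hR2 : eta * ST ≤ 1 + eta * Sw := by
    have h1 := mul_le_mul_of_nonneg_left hR heta0.le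
    calc eta * ST ≤ eta * (4 * S3 + Sw) := h1
      _ = eta * (4 * S3) + eta * Sw := by ring
      _ ≤ 1 + eta * Sw := by linarith
  have hpc : 0 < p * c2 := mul_pos hp hc2
  have hR3 : p * c2 / 24 * (1 + eta * ST) ≤ p * c2 / 12 + p * c2 / 24 * (eta * Sw) := by
    have h1 : p * c2 / 24 * (1 + eta * ST) ≤ p * c2 / 24 * (1 + (1 + eta * Sw)) :=
      mul_le_mul_of_nonneg_left (by linarith) (by positivity)
    refine h1.trans (le_of_eq ?_)
    ring
  have hR4 : p * c2 / 24 * (eta * Sw) ≤ m / 40 * cV * (eta * Sw) :=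
    mul_le_mul_of_nonneg_right hcs heSw
  have hE : 25 / 18 * (p * c2) * Sw ≤ m / 6 * cV * (eta * Sw) := by
    have h1 := mul_le_mul_of_nonneg_right e2' hSw0
    refine h1.trans (le_of_eq ?_)
    ring
  have hmcE : 0 ≤ m * cV * (eta * Sw) := mul_nonneg (mul_pos hm hcV0).le heSw
  -- the key inequality
  have key : u + p * Cp + 5 / 24 * c2 ≤ 25 / 18 * c2 * Sw := by
    have hc2Sw : 0 ≤ c2 * Sw := mul_nonneg hc2.le hSw0
    rcases hz with hz | ⟨hz1, hz2⟩ | hz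
    · linarith
    · have hSw : 1 / 2 ≤ Sw := by
        rcases hz2 with h | h
        · have h1 := hWk x h
          have h2 := hV x
          have h3 := hW0' x
          linarith
        · have h1 := hWk' x h
          have h2 := hV' x
          have h3 := hW0 x
          linarith
      have h4 : c2 * (1 / 2) ≤ c2 * Sw := mul_le_mul_of_nonneg_left hSw hc2.le
      linarith
    · have hSw : 2 * (N1 + 2) / c2 ≤ Sw := by
        rcases hz with ⟨h, h'⟩ | ⟨h, h'⟩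
        · have h1 := hWk x h'
          have h3 := hW0' x
          linarith
        · have h1 := hWk' x h'
          have h3 := hW0 x
          linarith
      have h4 : 2 * (N1 + 2) ≤ Sw * c2 := (div_le_iff₀ hc2).1 hSw
      linarith
  have key2 : p * (u + p * Cp + 5 / 24 * c2) ≤ p * (25 / 18 * c2 * Sw) :=
    mul_le_mul_of_nonneg_left key hp.le
  linarith

end Dyn
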