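import Pool.Agent.Lib_MP_36b788.PhiX
import Pool.Agent.Lib_MP_36b788.PhiV
import Pool.Agent.Lib_MP_36b788.PhiND
import Pool.Agent.Lib_MP_36b788.PzAlg
import Pool.Agent.Lib_MP_36b788.PhMeas

/-!
# PHISTEP: one-step contraction of `Φ`

PROOF. Choice of constants: `c2 = c2f β r2`, `e1 = c2/32`; PHIX gives `n, R6, δ1, B, K, C8`; v_facts gives `m0`; `m := min(m0,
CV/(2CA), 1/3)`; `N1 = N+1`, `C7 = 2(N1+2)/c2`; `r5` so small that `r5 ≤ 1`, `K r5 ≤ r2`, `K r5 ≤ 1` and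
`(3K r5 A)^{-m} ≥ C7`; PHIX gives `Cg, Cp, kd`; then `p ≤ 1/2` so small that the hypotheses of PZALG hold
(`eta = p c2/(48·3^d m CV)`), finally `k1`: `≤ k0, kd`, `≤ kρ` of v_facts for `ρ = K r5`, and
`(C9+1)·8·3^d(B k1)^p·δ1^{-p}e^{…} ≤ cs/4`, `4(Bk1)^p ≤ 1/2`, with `cs0 = p c2/24`, `C9` below; `cs = cs0/2`.
One step at `x` (`Q` from PHIX; copy 2 driven by `(Q_zξ_z)` ~ `pim`, so v_facts for copy 2 uses `L'(Qξ)`):
`T_x⁺ ≤ φ_x(e^{pU} + ηΣ_z2^{-|x-z|}(V_ze^{pU-(m/2)L_z} + V'_ze^{pU-(m/2)L'_z}))`. With `e^a ≤ 1+a+a²` (`|a| ≤ 1`; `p, m ≤ 1/2`):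
`∫e^{pU} ≤ 1+p∫U+p²Cp h`, `∫e^{pU-(m/2)L} ≤ 1+p∫U-(m/2)∫L+2p²Cp h+½m²CA h`.
Dominated `x`: `∫U ≤ h u` with `u = -c2/2`, `2e1` or `N1` (PHIX); `wk z := ‖G z‖ ≤ r2`. In the second case
`min(r_x,r'_x) < r2` so `wk x` or `wk' x`; in the third case `min < K r5`, so `V_x` or `V'_x ≥ C7`. PZALG gives
`∫T_x⁺ ≤ T_x(1 - cs0 h)`. Any `x`: `∫U ≤ C8 h`: `∫T_x⁺ ≤ T_x(1+C9 h)`, `C9 = C8+3Cp+2mCV+m²CA`.
Sum with PHIND: `∫Φ⁺ ≤ (1-cs0h)Φ + (C9+cs0)hΣ_{x not dom}2^{-|o-x|}T_x ≤ (1-cs h)Φ`.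
Integrability: bounded noise, `Φ⁺ ≤ e²…Φ` a.e., measurability PHMEAS.
-/

open MeasureTheory

namespace Dyn

/-- quadratic majorant of one site -/
noncomputable def PhiStep_gq {Ω ι : Type} [Fintype ι] (φ p η m : ℝ) (α V V' : ι → ℝ) (U : Ω → ℝ)
    (L L' : ι → Ω → ℝ) (ω : Ω) : ℝ :=
  φ * ((1 + p * U ω + p ^ 2 * U ω ^ 2) + η * ∑ z, α z *
    (V z * (1 + (p * U ω - m / 2 * L z ω) + (2 * p ^ 2 * U ω ^ 2 + m ^ 2 / 2 * L z ω ^ 2))
      + V' z * (1 + (p * U ω - m / 2 * L' z ω) + (2 * p ^ 2 * U ω ^ 2 + m ^ 2 / 2 * L' z ω ^ 2))))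

theorem PhiStep_exp {a : ℝ} (ha : |a| ≤ 1) : Real.exp a ≤ 1 + a + a ^ 2 := by
  have h := Real.abs_exp_sub_one_sub_id_le ha
  have h2 := (abs_le.1 h).2
  linarith

theorem PhiStep_int1 {Ω : Type} [MeasurableSpace Ω] (μ : Measure Ω) [IsProbabilityMeasure μ]
    {U : Ω → ℝ} (hU : Measurable U) (bU : ∀ᵐ ω ∂μ, |U ω| ≤ 1) : Integrable U μ := by
  refine Integrable.mono' (integrable_const (1 : ℝ)) hU.aestronglyMeasurable ?_
  filter_upwards [bU] with ω h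
  exact h

theorem PhiStep_int2 {Ω : Type} [MeasurableSpace Ω] (μ : Measure Ω) [IsProbabilityMeasure μ]
    {U : Ω → ℝ} (hU : Measurable U) (bU : ∀ᵐ ω ∂μ, |U ω| ≤ 1) :
    Integrable (fun ω => U ω ^ 2) μ := by
  refine Integrable.mono' (integrable_const (1 : ℝ)) (hU.pow_const 2).aestronglyMeasurable ?_
  filter_upwards [bU] with ω h
  rw [Real.norm_eq_abs, abs_pow]
  exact pow_le_one₀ (abs_nonneg _) h

theorem PhiStep_site {Ω ι : Type} [Fintype ι] [MeasurableSpace Ω] (μ : Measure Ω)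
    [IsProbabilityMeasure μ] (φ p η m : ℝ) (α V V' : ι → ℝ) {U : Ω → ℝ} {L L' : ι → Ω → ℝ}
    (hU : Measurable U) (hL : ∀ z, Measurable (L z)) (hL' : ∀ z, Measurable (L' z))
    (bU : ∀ᵐ ω ∂μ, |U ω| ≤ 1) (bL : ∀ z, ∀ᵐ ω ∂μ, |L z ω| ≤ 1)
    (bL' : ∀ z, ∀ᵐ ω ∂μ, |L' z ω| ≤ 1) :
    Integrable (PhiStep_gq φ p η m α V V' U L L') μ ∧
      ∫ ω, PhiStep_gq φ p η m α V V' U L L' ω ∂μ =
        φ * ((1 + p * ∫ ω, U ω ∂μ + p ^ 2 * ∫ ω, U ω ^ 2 ∂μ) + η * ∑ z, α z *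
          (V z * (1 + (p * ∫ ω, U ω ∂μ - m / 2 * ∫ ω, L z ω ∂μ)
              + (2 * p ^ 2 * ∫ ω, U ω ^ 2 ∂μ + m ^ 2 / 2 * ∫ ω, L z ω ^ 2 ∂μ))
            + V' z * (1 + (p * ∫ ω, U ω ∂μ - m / 2 * ∫ ω, L' z ω ∂μ)
              + (2 * p ^ 2 * ∫ ω, U ω ^ 2 ∂μ + m ^ 2 / 2 * ∫ ω, L' z ω ^ 2 ∂μ)))) := by
  have iU := PhiStep_int1 μ hU bU
  have iU2 := PhiStep_int2 μ hU bU
  have iL := fun z => PhiStep_int1 μ (hL z) (bL z)
  have iL2 := fun z => PhiStep_int2 μ (hL z) (bL z)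
  have iL' := fun z => PhiStep_int1 μ (hL' z) (bL' z)
  have iL2' := fun z => PhiStep_int2 μ (hL' z) (bL' z)
  have i1 : Integrable (fun _ : Ω => (1 : ℝ)) μ := integrable_const _
  have hA : Integrable (fun ω => 1 + p * U ω + p ^ 2 * U ω ^ 2) μ :=
    (i1.add (iU.const_mul p)).add (iU2.const_mul (p ^ 2))
  have hAe : ∫ ω, (1 + p * U ω + p ^ 2 * U ω ^ 2) ∂μ =
      1 + p * ∫ ω, U ω ∂μ + p ^ 2 * ∫ ω, U ω ^ 2 ∂μ := by
    have j1 : Integrable (fun ω => 1 + p * U ω) μ := i1.add (iU.const_mul p)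
    rw [integral_add j1 (iU2.const_mul (p ^ 2)),
      integral_add i1 (iU.const_mul p), integral_const_mul, integral_const_mul]
    simp
  have hB : ∀ {M : Ω → ℝ}, Integrable M μ → Integrable (fun ω => M ω ^ 2) μ →
      Integrable (fun ω => 1 + (p * U ω - m / 2 * M ω) +
        (2 * p ^ 2 * U ω ^ 2 + m ^ 2 / 2 * M ω ^ 2)) μ := by
    intro M h1 h2
    exact (i1.add ((iU.const_mul p).sub (h1.const_mul (m / 2)))).add
      ((iU2.const_mul (2 * p ^ 2)).add (h2.const_mul (m ^ 2 / 2)))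
  have hBe : ∀ {M : Ω → ℝ}, Integrable M μ → Integrable (fun ω => M ω ^ 2) μ →
      ∫ ω, (1 + (p * U ω - m / 2 * M ω) + (2 * p ^ 2 * U ω ^ 2 + m ^ 2 / 2 * M ω ^ 2)) ∂μ =
        1 + (p * ∫ ω, U ω ∂μ - m / 2 * ∫ ω, M ω ∂μ)
          + (2 * p ^ 2 * ∫ ω, U ω ^ 2 ∂μ + m ^ 2 / 2 * ∫ ω, M ω ^ 2 ∂μ) := by
    intro M h1 h2
    have j1 : Integrable (fun ω => p * U ω - m / 2 * M ω) μ :=
      (iU.const_mul p).sub (h1.const_mul (m / 2))
    have j2 : Integrable (fun ω => 1 + (p * U ω - m / 2 * M ω)) μ := i1.add j1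
    have j3 : Integrable (fun ω => 2 * p ^ 2 * U ω ^ 2 + m ^ 2 / 2 * M ω ^ 2) μ :=
      (iU2.const_mul (2 * p ^ 2)).add (h2.const_mul (m ^ 2 / 2))
    rw [integral_add j2 j3, integral_add i1 j1,
      integral_sub (iU.const_mul p) (h1.const_mul (m / 2)),
      integral_add (iU2.const_mul (2 * p ^ 2)) (h2.const_mul (m ^ 2 / 2)),
      integral_const_mul, integral_const_mul, integral_const_mul, integral_const_mul]
    simp
  have hz : ∀ z ∈ (Finset.univ : Finset ι), Integrable (fun ω => α z *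
      (V z * (1 + (p * U ω - m / 2 * L z ω) + (2 * p ^ 2 * U ω ^ 2 + m ^ 2 / 2 * L z ω ^ 2))
      + V' z * (1 + (p * U ω - m / 2 * L' z ω) +
        (2 * p ^ 2 * U ω ^ 2 + m ^ 2 / 2 * L' z ω ^ 2)))) μ := by
    intro z _
    exact (((hB (iL z) (iL2 z)).const_mul (V z)).add
      ((hB (iL' z) (iL2' z)).const_mul (V' z))).const_mul (α z)
  have hS := integrable_finsetSum Finset.univ hz
  refine ⟨(hA.add (hS.const_mul η)).const_mul φ, ?_⟩
  unfold PhiStep_gq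
  rw [integral_const_mul, integral_add hA (hS.const_mul η), integral_const_mul,
    integral_finsetSum _ hz, hAe]
  congr 3
  refine Finset.sum_congr rfl fun z _ => ?_
  rw [integral_const_mul, integral_add ((hB (iL z) (iL2 z)).const_mul (V z))
    ((hB (iL' z) (iL2' z)).const_mul (V' z)), integral_const_mul, integral_const_mul,
    hBe (iL z) (iL2 z), hBe (iL' z) (iL2' z)]

/-- integrated bound -/
theorem PhiStep_bound {ι : Type} [Fintype ι] (φ p η m h u Cp CA c : ℝ) (α V V' ℓ ℓ' : ι → ℝ)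
    (IU IU2 : ℝ) (IL IL2 IL' IL2' : ι → ℝ) (hφ : 0 ≤ φ) (hp : 0 < p) (hη : 0 ≤ η) (hm : 0 < m)
    (hα : ∀ z, 0 ≤ α z) (hV : ∀ z, 0 ≤ V z) (hV' : ∀ z, 0 ≤ V' z)
    (h1 : IU ≤ h * u) (h2 : IU2 ≤ Cp * h) (h3 : ∀ z, h * ℓ z ≤ IL z) (h4 : ∀ z, IL2 z ≤ CA * h)
    (h3' : ∀ z, h * ℓ' z ≤ IL' z) (h4' : ∀ z, IL2' z ≤ CA * h) (hh : 0 ≤ h)
    (hc : (p * u + p ^ 2 * Cp) + η * ∑ z, α z *
        (V z * (p * u - m / 2 * ℓ z + 2 * p ^ 2 * Cp + 1 / 2 * m ^ 2 * CA)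
          + V' z * (p * u - m / 2 * ℓ' z + 2 * p ^ 2 * Cp + 1 / 2 * m ^ 2 * CA)) ≤
      c * (1 + η * ∑ z, α z * (V z + V' z))) :
    φ * ((1 + p * IU + p ^ 2 * IU2) + η * ∑ z, α z *
          (V z * (1 + (p * IU - m / 2 * IL z) + (2 * p ^ 2 * IU2 + m ^ 2 / 2 * IL2 z))
            + V' z * (1 + (p * IU - m / 2 * IL' z)
              + (2 * p ^ 2 * IU2 + m ^ 2 / 2 * IL2' z)))) ≤
      (1 + c * h) * (φ * (1 + η * ∑ z, α z * (V z + V' z))) := by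
  have e1 : 1 + p * IU + p ^ 2 * IU2 ≤ 1 + h * (p * u + p ^ 2 * Cp) := by
    have a1 := mul_le_mul_of_nonneg_left h1 hp.le
    have a2 := mul_le_mul_of_nonneg_left h2 (sq_nonneg p)
    nlinarith
  have e2 : ∀ (IM IM2 l : ℝ), h * l ≤ IM → IM2 ≤ CA * h →
      1 + (p * IU - m / 2 * IM) + (2 * p ^ 2 * IU2 + m ^ 2 / 2 * IM2) ≤
        1 + h * (p * u - m / 2 * l + 2 * p ^ 2 * Cp + 1 / 2 * m ^ 2 * CA) := by
    intro IM IM2 l b1 b2
    have a1 := mul_le_mul_of_nonneg_left h1 hp.le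
    have a2 := mul_le_mul_of_nonneg_left h2 (sq_nonneg p)
    have a3 := mul_le_mul_of_nonneg_left b1 (half_pos hm).le
    have a4 := mul_le_mul_of_nonneg_left b2 (sq_nonneg m)
    nlinarith
  have e3 : ∑ z, α z *
          (V z * (1 + (p * IU - m / 2 * IL z) + (2 * p ^ 2 * IU2 + m ^ 2 / 2 * IL2 z))
            + V' z * (1 + (p * IU - m / 2 * IL' z)
              + (2 * p ^ 2 * IU2 + m ^ 2 / 2 * IL2' z))) ≤
      ∑ z, α z *
          (V z * (1 + h * (p * u - m / 2 * ℓ z + 2 * p ^ 2 * Cp + 1 / 2 * m ^ 2 * CA))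
            + V' z * (1 + h * (p * u - m / 2 * ℓ' z + 2 * p ^ 2 * Cp + 1 / 2 * m ^ 2 * CA))) := by
    refine Finset.sum_le_sum fun z _ => ?_
    refine mul_le_mul_of_nonneg_left ?_ (hα z)
    exact add_le_add (mul_le_mul_of_nonneg_left (e2 _ _ _ (h3 z) (h4 z)) (hV z))
      (mul_le_mul_of_nonneg_left (e2 _ _ _ (h3' z) (h4' z)) (hV' z))
  have e4 : ∑ z, α z *
          (V z * (1 + h * (p * u - m / 2 * ℓ z + 2 * p ^ 2 * Cp + 1 / 2 * m ^ 2 * CA))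
            + V' z * (1 + h * (p * u - m / 2 * ℓ' z + 2 * p ^ 2 * Cp + 1 / 2 * m ^ 2 * CA))) =
      ∑ z, α z * (V z + V' z) + h * ∑ z, α z *
        (V z * (p * u - m / 2 * ℓ z + 2 * p ^ 2 * Cp + 1 / 2 * m ^ 2 * CA)
          + V' z * (p * u - m / 2 * ℓ' z + 2 * p ^ 2 * Cp + 1 / 2 * m ^ 2 * CA)) := by
    rw [Finset.mul_sum, ← Finset.sum_add_distrib]
    refine Finset.sum_congr rfl fun z _ => ?_
    ring
  rw [e4] at e3
  have e5 := mul_le_mul_of_nonneg_left e3 hη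
  have e6 := mul_le_mul_of_nonneg_left hc hh
  have e7 : (1 + p * IU + p ^ 2 * IU2) + η * ∑ z, α z *
          (V z * (1 + (p * IU - m / 2 * IL z) + (2 * p ^ 2 * IU2 + m ^ 2 / 2 * IL2 z))
            + V' z * (1 + (p * IU - m / 2 * IL' z)
              + (2 * p ^ 2 * IU2 + m ^ 2 / 2 * IL2' z))) ≤
      (1 + c * h) * (1 + η * ∑ z, α z * (V z + V' z)) := by
    nlinarith
  have e8 := mul_le_mul_of_nonneg_left e7 hφ
  refine e8.trans (le_of_eq ?_)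
  ring

/-- pointwise bound -/
theorem PhiStep_pt {ι : Type} [Fintype ι] (φ φ1 p η m u : ℝ) (α V V' V1 V1' l l' : ι → ℝ)
    (hφ : 0 ≤ φ) (hp : 0 < p) (hp2 : p ≤ 1 / 2) (hη : 0 ≤ η) (hm : 0 < m)
    (hm2 : m ≤ 1 / 2) (hα : ∀ z, 0 ≤ α z) (hV : ∀ z, 0 ≤ V z) (hV' : ∀ z, 0 ≤ V' z)
    (hV1 : ∀ z, 0 ≤ V1 z) (hV1' : ∀ z, 0 ≤ V1' z)
    (hu : |u| ≤ 1) (hl : ∀ z, |l z| ≤ 1) (hl' : ∀ z, |l' z| ≤ 1)
    (h1 : φ1 ≤ φ * Real.exp (p * u)) (h2 : ∀ z, V1 z ≤ V z * Real.exp (-(m / 2) * l z))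
    (h2' : ∀ z, V1' z ≤ V' z * Real.exp (-(m / 2) * l' z)) :
    φ1 * (1 + η * ∑ z, α z * (V1 z + V1' z)) ≤
      φ * ((1 + p * u + p ^ 2 * u ^ 2) + η * ∑ z, α z *
        (V z * (1 + (p * u - m / 2 * l z) + (2 * p ^ 2 * u ^ 2 + m ^ 2 / 2 * l z ^ 2))
          + V' z * (1 + (p * u - m / 2 * l' z) +
            (2 * p ^ 2 * u ^ 2 + m ^ 2 / 2 * l' z ^ 2)))) := by
  have hpu : |p * u| ≤ 1 / 2 := by
    rw [abs_mul, abs_of_pos hp]
    nlinarith [abs_nonneg u]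
  have a1 : φ1 ≤ φ * (1 + p * u + p ^ 2 * u ^ 2) := by
    refine h1.trans (mul_le_mul_of_nonneg_left ?_ hφ)
    have := PhiStep_exp (a := p * u) (hpu.trans (by norm_num))
    rw [mul_pow] at this
    exact this
  have key : ∀ (v v1 t : ℝ), 0 ≤ v → 0 ≤ v1 → |t| ≤ 1 → v1 ≤ v * Real.exp (-(m / 2) * t) →
      φ1 * v1 ≤ φ * (v * (1 + (p * u - m / 2 * t) + (2 * p ^ 2 * u ^ 2 + m ^ 2 / 2 * t ^ 2))) := by
    intro v v1 t hv hv1 ht hb
    have b1 : φ1 * v1 ≤ (φ * Real.exp (p * u)) * (v * Real.exp (-(m / 2) * t)) :=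
      mul_le_mul h1 hb hv1 (mul_nonneg hφ (Real.exp_pos _).le)
    have b2 : (φ * Real.exp (p * u)) * (v * Real.exp (-(m / 2) * t)) =
        φ * (v * Real.exp (p * u - m / 2 * t)) := by
      have : Real.exp (p * u - m / 2 * t) = Real.exp (p * u) * Real.exp (-(m / 2) * t) := by
        rw [← Real.exp_add]
        congr 1
        ring
      rw [this]
      ring
    rw [b2] at b1
    refine b1.trans (mul_le_mul_of_nonneg_left (mul_le_mul_of_nonneg_left ?_ hv) hφ)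
    have hmt : |m / 2 * t| ≤ 1 / 4 := by
      rw [abs_mul, abs_of_pos (half_pos hm)]
      nlinarith [abs_nonneg t]
    have hab : |p * u - m / 2 * t| ≤ 1 := by
      have := abs_sub (p * u) (m / 2 * t)
      linarith
    have b3 := PhiStep_exp hab
    nlinarith [sq_nonneg (p * u + m / 2 * t)]
  have a2 : ∀ z, φ1 * (α z * (V1 z + V1' z)) ≤ φ * (α z *
        (V z * (1 + (p * u - m / 2 * l z) + (2 * p ^ 2 * u ^ 2 + m ^ 2 / 2 * l z ^ 2))
          + V' z * (1 + (p * u - m / 2 * l' z) +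
            (2 * p ^ 2 * u ^ 2 + m ^ 2 / 2 * l' z ^ 2)))) := by
    intro z
    have c1 := key _ _ _ (hV z) (hV1 z) (hl z) (h2 z)
    have c2 := key _ _ _ (hV' z) (hV1' z) (hl' z) (h2' z)
    have c3 := mul_le_mul_of_nonneg_left (add_le_add c1 c2) (hα z)
    refine le_trans (le_of_eq ?_) (c3.trans (le_of_eq ?_))
    · ring
    · ring
  have a3 := Finset.sum_le_sum fun z (_ : z ∈ (Finset.univ : Finset ι)) => a2 z
  rw [← Finset.mul_sum, ← Finset.mul_sum] at a3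
  have a4 := mul_le_mul_of_nonneg_left a3 hη
  have a5 := add_le_add a1 a4
  refine le_trans (le_of_eq ?_) (a5.trans (le_of_eq ?_))
  · ring
  · ring


theorem PhiStep_Dt_nonneg {N d : ℕ} {ι : Type} [Fintype ι] (net : Net ι d) {b : ℝ} (hb : 0 ≤ b)
    (G G' : ι → E N) (x : ι) : 0 ≤ Dt net b G G' x := by
  unfold Dt
  exact Finset.sum_nonneg fun z _ => mul_nonneg (pow_nonneg hb _) (norm_nonneg _)

theorem PhiStep_phi_nonneg {N d : ℕ} {ι : Type} [Fintype ι] (P : PP) (net : Net ι d) (β k : ℝ)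
    (hb : 0 ≤ P.B * k) (G G' : ι → E N) (x : ι) : 0 ≤ phi P net β k G G' x := by
  unfold phi
  exact mul_nonneg (Real.rpow_nonneg (PhiStep_Dt_nonneg net hb G G' x) _) (Real.exp_pos _).le

theorem PhiStep_Vs_nonneg {N d : ℕ} {β D0 : ℝ} {ι : Type} [Fintype ι] (Bs : Base N d β D0)
    (m : ℝ) (net : Net ι d) (k : ℝ) (y : ℝ → ℝ) (G : ι → E N) (z : ι) :
    0 ≤ Vs Bs m net k y G z := by
  unfold Vs VV
  exact (Real.exp_pos _).le

theorem PhiStep_rot {N : ℕ} {ι : Type} [Fintype ι] {h : ℝ} {ν : Measure (E N)}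
    (hν : IsNoise h ν) (Q : ι → (E N ≃ₗᵢ[ℝ] E N)) :
    MeasurePreserving (fun (ξ : ι → E N) z => Q z (ξ z)) (pim ι ν) (pim ι ν) := by
  have := hν.prob
  unfold pim
  exact measurePreserving_pi (fun _ => ν) (fun _ => ν) (f := fun z => (Q z : E N → E N))
    fun z => ⟨(Q z).continuous.measurable, hν.iso (Q z)⟩

/-- assembly for fixed data -/
theorem PhiStep_core {N d : ℕ} {β D0 : ℝ} (Bs : Base N d β D0) (P : PP) {ι : Type} [Fintype ι]
    (net : Net ι d) {h k : ℝ} {ν : Measure (E N)} {y : ℝ → ℝ} (hβ : 0 < β) (hν : IsNoise h ν)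
    (hy : Monotone y) (hh : 0 < h) (hb : 0 ≤ P.B * k) (hp : 0 < P.p) (hp2 : P.p ≤ 1 / 2)
    (hη : 0 ≤ P.eta) (hm : 0 < P.m) (hm2 : P.m ≤ 1 / 2) (G G' : ι → E N)
    (Q : ι → (E N ≃ₗᵢ[ℝ] E N)) (U L L' : ι → (ι → E N) → ℝ)
    (hU : ∀ x, Measurable (U x)) (hL : ∀ z, Measurable (L z)) (hL' : ∀ z, Measurable (L' z))
    (bU : ∀ x, ∀ᵐ ξ ∂(pim ι ν), |U x ξ| ≤ 1) (bL : ∀ z, ∀ᵐ ξ ∂(pim ι ν), |L z ξ| ≤ 1)
    (bL' : ∀ z, ∀ᵐ ξ ∂(pim ι ν), |L' z ξ| ≤ 1)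
    (sU : ∀ x, ∀ᵐ ξ ∂(pim ι ν), phi P net β k (stp net β h k G ξ)
      (stp net β h k G' (fun z => Q z (ξ z))) x ≤ phi P net β k G G' x * Real.exp (P.p * U x ξ))
    (sL : ∀ z, ∀ᵐ ξ ∂(pim ι ν), Vs Bs P.m net k y (stp net β h k G ξ) z ≤
      Vs Bs P.m net k y G z * Real.exp (-(P.m / 2) * L z ξ))
    (sL' : ∀ z, ∀ᵐ ξ ∂(pim ι ν), Vs Bs P.m net k y (stp net β h k G' (fun z => Q z (ξ z))) z ≤
      Vs Bs P.m net k y G' z * Real.exp (-(P.m / 2) * L' z ξ))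
    (c : ι → ℝ) (cs : ℝ) (o : ι)
    (hc : ∀ x, ∫ ξ, PhiStep_gq (phi P net β k G G' x) P.p P.eta P.m
        (fun z => (1 / 2 : ℝ) ^ net.dist x z) (Vs Bs P.m net k y G) (Vs Bs P.m net k y G')
        (U x) L L' ξ ∂(pim ι ν) ≤ (1 + c x * h) * TT Bs P net k y G G' x)
    (hcs : ∑ x, (1 / 2 : ℝ) ^ net.dist o x * (c x * TT Bs P net k y G G' x) ≤
      -cs * PHI Bs P net k y G G' o) :
    Integrable (fun ξ => PHI Bs P net k y (stp net β h k G ξ)
          (stp net β h k G' (fun z => Q z (ξ z))) o) (pim ι ν) ∧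
        ∫ ξ, PHI Bs P net k y (stp net β h k G ξ)
          (stp net β h k G' (fun z => Q z (ξ z))) o ∂(pim ι ν) ≤
          (1 - cs * h) * PHI Bs P net k y G G' o := by
  have := hν.prob
  have : IsProbabilityMeasure (pim ι ν) := by
    unfold pim
    infer_instance
  set M : ι → (ι → E N) → ℝ := fun x => PhiStep_gq (phi P net β k G G' x) P.p P.eta P.m
        (fun z => (1 / 2 : ℝ) ^ net.dist x z) (Vs Bs P.m net k y G) (Vs Bs P.m net k y G')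
        (U x) L L' with hM
  have hMi : ∀ x, Integrable (M x) (pim ι ν) := fun x =>
    (PhiStep_site (pim ι ν) _ _ _ _ _ _ _ (hU x) hL hL' (bU x) bL bL').1
  have hS : Integrable (fun ξ => ∑ x, (1 / 2 : ℝ) ^ net.dist o x * M x ξ) (pim ι ν) :=
    integrable_finsetSum _ fun x _ => (hMi x).const_mul _
  have hnn : ∀ ξ : ι → E N, ∀ x, 0 ≤ TT Bs P net k y (stp net β h k G ξ)
      (stp net β h k G' (fun z => Q z (ξ z))) x := by
    intro ξ x
    unfold TT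
    refine mul_nonneg (PhiStep_phi_nonneg P net β k hb _ _ x) ?_
    have : 0 ≤ P.eta * ∑ z, (1 / 2 : ℝ) ^ net.dist x z *
        (Vs Bs P.m net k y (stp net β h k G ξ) z +
          Vs Bs P.m net k y (stp net β h k G' (fun z => Q z (ξ z))) z) :=
      mul_nonneg hη (Finset.sum_nonneg fun z _ => mul_nonneg (by positivity)
        (add_nonneg (PhiStep_Vs_nonneg Bs P.m net k y _ z)
          (PhiStep_Vs_nonneg Bs P.m net k y _ z)))
    linarith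
  have hPn : ∀ ξ : ι → E N, 0 ≤ PHI Bs P net k y (stp net β h k G ξ)
      (stp net β h k G' (fun z => Q z (ξ z))) o := by
    intro ξ
    unfold PHI
    exact Finset.sum_nonneg fun x _ => mul_nonneg (by positivity) (hnn ξ x)
  have hbd : ∀ᵐ ξ ∂(pim ι ν), PHI Bs P net k y (stp net β h k G ξ)
      (stp net β h k G' (fun z => Q z (ξ z))) o ≤ ∑ x, (1 / 2 : ℝ) ^ net.dist o x * M x ξ := by
    have a1 := ae_all_iff.2 bU
    have a2 := ae_all_iff.2 bL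
    have a3 := ae_all_iff.2 bL'
    have a4 := ae_all_iff.2 sU
    have a5 := ae_all_iff.2 sL
    have a6 := ae_all_iff.2 sL'
    filter_upwards [a1, a2, a3, a4, a5, a6] with ξ b1 b2 b3 b4 b5 b6
    unfold PHI
    refine Finset.sum_le_sum fun x _ => mul_le_mul_of_nonneg_left ?_ (by positivity)
    unfold TT
    exact PhiStep_pt _ _ _ _ _ _ _ _ _ _ _ _ _ (PhiStep_phi_nonneg P net β k hb _ _ x) hp hp2
      hη hm hm2 (fun z => by positivity) (PhiStep_Vs_nonneg Bs P.m net k y _)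
      (PhiStep_Vs_nonneg Bs P.m net k y _) (PhiStep_Vs_nonneg Bs P.m net k y _)
      (PhiStep_Vs_nonneg Bs P.m net k y _) (b1 x) b2 b3 (b4 x) b5 b6
  have hme : AEStronglyMeasurable (fun ξ => PHI Bs P net k y (stp net β h k G ξ)
          (stp net β h k G' (fun z => Q z (ξ z))) o) (pim ι ν) := by
    have c1 : Measurable (fun ξ : ι → E N => stp net β h k G ξ) :=
      ((stp_continuous hβ hh.le k net).comp
        (continuous_const.prodMk continuous_id : Continuous fun ξ : ι → E N => (G, ξ))).measurable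
    have c2 : Measurable (fun ξ : ι → E N => stp net β h k G' (fun z => Q z (ξ z))) :=
      ((stp_continuous hβ hh.le k net).comp
        (continuous_const.prodMk (continuous_pi fun z =>
          (Q z).continuous.comp (continuous_apply z)) :
          Continuous fun ξ : ι → E N => (G', fun z => Q z (ξ z)))).measurable
    exact ((PHI_meas Bs P k net y hy o).comp (c1.prodMk c2)).aestronglyMeasurable
  have hint : Integrable (fun ξ => PHI Bs P net k y (stp net β h k G ξ)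
          (stp net β h k G' (fun z => Q z (ξ z))) o) (pim ι ν) := by
    refine Integrable.mono' hS hme ?_
    filter_upwards [hbd] with ξ hξ
    rw [Real.norm_eq_abs, abs_of_nonneg (hPn ξ)]
    exact hξ
  refine ⟨hint, ?_⟩
  have h1 := integral_mono_ae hint hS hbd
  refine h1.trans ?_
  rw [integral_finsetSum _ fun x _ => (hMi x).const_mul _]
  simp only [integral_const_mul]
  have h2 : ∑ x, (1 / 2 : ℝ) ^ net.dist o x * ∫ ξ, M x ξ ∂(pim ι ν) ≤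
      ∑ x, (1 / 2 : ℝ) ^ net.dist o x * ((1 + c x * h) * TT Bs P net k y G G' x) :=
    Finset.sum_le_sum fun x _ => mul_le_mul_of_nonneg_left (hc x) (by positivity)
  refine h2.trans ?_
  have h3 : ∑ x, (1 / 2 : ℝ) ^ net.dist o x * ((1 + c x * h) * TT Bs P net k y G G' x) =
      PHI Bs P net k y G G' o +
        h * ∑ x, (1 / 2 : ℝ) ^ net.dist o x * (c x * TT Bs P net k y G G' x) := by
    unfold PHI
    rw [Finset.mul_sum, ← Finset.sum_add_distrib]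
    refine Finset.sum_congr rfl fun x _ => ?_
    ring
  rw [h3]
  have h4 := mul_le_mul_of_nonneg_left hcs hh.le
  linarith


theorem PhiStep_ell (q : Prop) [hq : Decidable q] (a b : ℝ) :
    @ite ℝ q (Classical.propDecidable q) a b = ite q a b := by
  by_cases h : q
  · rw [if_pos h, if_pos h]
  · rw [if_neg h, if_neg h]

theorem PhiStep_a1 {p Cp : ℝ} (hp : 0 < p) (hp2 : p ≤ 1 / 2) (hCp : 0 < Cp) :
    p ^ 2 * Cp ≤ Cp ∧ 2 * p ^ 2 * Cp ≤ p * Cp ∧ 2 * p ^ 2 * Cp ≤ Cp := by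
  have h1 : p ^ 2 ≤ 1 / 4 := by nlinarith
  have h2 : 2 * p ^ 2 ≤ p := by nlinarith
  refine ⟨?_, mul_le_mul_of_nonneg_right h2 hCp.le, ?_⟩
  · have := mul_le_mul_of_nonneg_right h1 hCp.le
    linarith
  · have := mul_le_mul_of_nonneg_right h1 hCp.le
    linarith

theorem PhiStep_a2 {p m C8 Cp cV CV CA : ℝ} (hp : 0 < p) (hp2 : p ≤ 1 / 2) (hm : 0 < m)
    (hC8 : 0 < C8) (hCp : 0 < Cp) (hcV : 0 ≤ cV) (hCV : 0 < CV) (hCA : 0 < CA) (q : Prop)
    [Decidable q] :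
    p * C8 - m / 2 * (if q then cV / 2 else -(2 * CV)) + 2 * p ^ 2 * Cp + 1 / 2 * m ^ 2 * CA ≤
      C8 + 3 * Cp + 2 * m * CV + m ^ 2 * CA ∧
    p * C8 + p ^ 2 * Cp ≤ C8 + 3 * Cp + 2 * m * CV + m ^ 2 * CA := by
  obtain ⟨h1, -, h2⟩ := PhiStep_a1 hp hp2 hCp
  have h3 : p * C8 ≤ C8 := by
    have := mul_le_mul_of_nonneg_right hp2 hC8.le
    linarith
  have h4 : 0 < m * CV := mul_pos hm hCV
  have h5 : 0 < m ^ 2 * CA := by positivity
  have h6 : -(m / 2 * (if q then cV / 2 else -(2 * CV))) ≤ m * CV := by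
    split_ifs
    · have : 0 ≤ m / 2 * (cV / 2) := by positivity
      linarith
    · have : -(m / 2 * -(2 * CV)) = m * CV := by ring
      linarith
  constructor
  · linarith
  · linarith

theorem phi_step (N d : ℕ) (β : ℝ) (hN : 3 ≤ N) (hβ : 1 < β) (Bs : Base N d β (400 * 3 ^ d)) :
    ∃ (P : PP) (k1 cs cm Cm : ℝ), 1 ≤ P.B ∧ 1 ≤ P.R6 ∧ 0 < P.r5 ∧ P.r5 ≤ 1 ∧ 0 < P.p ∧ P.p ≤ 1 / 2 ∧
      0 < P.eta ∧ P.eta ≤ 1 ∧ 0 < P.Cg ∧ 0 < P.m ∧ P.m ≤ 1 / 3 ∧ 1 ≤ P.n ∧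
      0 < k1 ∧ k1 ≤ Bs.k0 ∧ P.B * k1 ≤ 1 / 4 ∧ 0 < cs ∧ 0 < cm ∧ 0 < Cm ∧
      ∀ k, 0 ≤ k → k ≤ k1 → ∀ (ι : Type) [Fintype ι] (net : Net ι d),
      ∃ h0 : ℝ, 0 < h0 ∧ h0 ≤ Bs.hc ∧ cs * h0 ≤ 1 ∧ cm * h0 ≤ 1 ∧
      ∀ (h : ℝ) (ν : Measure (E N)), 0 < h → h < h0 → IsNoise h ν →
      ∀ y : ℝ → ℝ, IsCorr N β h ν Bs.δ Bs.Cy y →
      (∀ G : ι → E N, (∀ x, ‖G x‖ ≤ rad β h) → Nz k G →
        (∀ᵐ ξ ∂(pim ι ν), Nz k (stp net β h k G ξ)) ∧
        ∀ z, ∫ ξ, Vs Bs P.m net k y (stp net β h k G ξ) z ^ 2 ∂(pim ι ν) ≤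
            (1 - cm * h) * Vs Bs P.m net k y G z ^ 2 + Cm * h) ∧
      ∀ G G' : ι → E N, (∀ x, ‖G x‖ ≤ rad β h) → (∀ x, ‖G' x‖ ≤ rad β h) → Nz k G → Nz k G' →
      ∃ Q : ι → (E N ≃ₗᵢ[ℝ] E N), ∀ o,
        Integrable (fun ξ => PHI Bs P net k y (stp net β h k G ξ)
          (stp net β h k G' (fun z => Q z (ξ z))) o) (pim ι ν) ∧
        ∫ ξ, PHI Bs P net k y (stp net β h k G ξ)
          (stp net β h k G' (fun z => Q z (ξ z))) o ∂(pim ι ν) ≤
          (1 - cs * h) * PHI Bs P net k y G G' o := by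
  classical
  have hr2 := Bs.hr2
  have hr21 := Bs.hr21
  have hA6 := Bs.hA
  have hA0 : 0 < Bs.A := by linarith
  have hCV := Bs.hCV
  have hCA := Bs.hCA
  have hS3 : (1 : ℝ) ≤ 3 ^ d := one_le_pow₀ (by norm_num)
  have hS30 : (0 : ℝ) < 3 ^ d := by positivity
  have h3A : 1 / (2 * Bs.A) ≤ 6 / Bs.A := by
    rw [div_le_div_iff₀ (by positivity) hA0]
    linarith
  obtain ⟨c2, hc2d⟩ : ∃ c2, c2 = c2f β Bs.r2 := ⟨_, rfl⟩
  have hc2 : 0 < c2 := by
    rw [hc2d]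
    unfold c2f
    have : 0 < β * Bs.r2 ^ β := mul_pos (by linarith) (Real.rpow_pos_of_pos hr2 _)
    have : 0 < min 1 (β * Bs.r2 ^ β) := lt_min one_pos this
    linarith
  have hc21 : c2 ≤ 1 / 4 := by
    rw [hc2d]
    unfold c2f
    have := min_le_left 1 (β * Bs.r2 ^ β)
    linarith
  obtain ⟨n, R6, δ1, B, K, C8, hn, hR6, hδ1, hδ12, hB, hK, hC8, hX⟩ :=
    phix N d β Bs.r2 hN hβ hr2 hr21 (c2 / 32) (by linarith) (by rw [← hc2d]; linarith)
  obtain ⟨m0, hm0, hm03, hVF⟩ := v_facts N d β (400 * 3 ^ d) hN hβ (by linarith) Bs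
  obtain ⟨m, hmd⟩ : ∃ m, m = min m0 (Bs.CV / (2 * Bs.CA)) := ⟨_, rfl⟩
  have hm : 0 < m := by
    rw [hmd]
    exact lt_min hm0 (by positivity)
  have hmm0 : m ≤ m0 := by
    rw [hmd]
    exact min_le_left _ _
  have hmCA : m * Bs.CA ≤ Bs.CV / 2 := by
    have h1 : m ≤ Bs.CV / (2 * Bs.CA) := by
      rw [hmd]
      exact min_le_right _ _
    calc m * Bs.CA ≤ Bs.CV / (2 * Bs.CA) * Bs.CA := mul_le_mul_of_nonneg_right h1 hCA.le
      _ = Bs.CV / 2 := by field_simp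
  obtain ⟨cm, Cm, hcm, hCm, hVρ, hVm⟩ := hVF m hm hmm0
  obtain ⟨N1, hN1d⟩ : ∃ N1 : ℝ, N1 = (N : ℝ) + 1 := ⟨_, rfl⟩
  have hN1 : 1 ≤ N1 := by
    rw [hN1d]
    have : (0 : ℝ) ≤ N := Nat.cast_nonneg N
    linarith
  obtain ⟨C7, hC7d⟩ : ∃ C7, C7 = 2 * (N1 + 2) / c2 := ⟨_, rfl⟩
  have hC7 : 0 < C7 := by
    rw [hC7d]
    positivity
  have hK0 : 0 < K := by linarith
  -- the constant r5
  obtain ⟨r5, h5, h51, hKr2, hKr1, hC7r⟩ : ∃ r5 : ℝ, 0 < r5 ∧ r5 ≤ 1 ∧ K * r5 ≤ Bs.r2 ∧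
      K * r5 ≤ 1 ∧ C7 ≤ (3 * (K * r5) * Bs.A) ^ (-m) := by
    have hq : 0 < C7 ^ (-(1 / m)) := Real.rpow_pos_of_pos hC7 _
    refine ⟨min (min 1 (Bs.r2 / K)) (C7 ^ (-(1 / m)) / (3 * K * Bs.A)), ?_, ?_, ?_, ?_, ?_⟩
    · exact lt_min (lt_min one_pos (by positivity)) (by positivity)
    · exact (min_le_left _ _).trans (min_le_left _ _)
    · calc K * min (min 1 (Bs.r2 / K)) (C7 ^ (-(1 / m)) / (3 * K * Bs.A)) ≤ K * (Bs.r2 / K) :=
            mul_le_mul_of_nonneg_left ((min_le_left _ _).trans (min_le_right _ _)) hK0.le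
        _ = Bs.r2 := by field_simp
    · calc K * min (min 1 (Bs.r2 / K)) (C7 ^ (-(1 / m)) / (3 * K * Bs.A)) ≤ K * (Bs.r2 / K) :=
            mul_le_mul_of_nonneg_left ((min_le_left _ _).trans (min_le_right _ _)) hK0.le
        _ = Bs.r2 := by field_simp
        _ ≤ 1 := hr21.le
    · have h1 : 3 * (K * min (min 1 (Bs.r2 / K)) (C7 ^ (-(1 / m)) / (3 * K * Bs.A))) * Bs.A ≤
          C7 ^ (-(1 / m)) := by
        calc 3 * (K * min (min 1 (Bs.r2 / K)) (C7 ^ (-(1 / m)) / (3 * K * Bs.A))) * Bs.A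
            = 3 * K * Bs.A * min (min 1 (Bs.r2 / K)) (C7 ^ (-(1 / m)) / (3 * K * Bs.A)) := by ring
          _ ≤ 3 * K * Bs.A * (C7 ^ (-(1 / m)) / (3 * K * Bs.A)) :=
            mul_le_mul_of_nonneg_left (min_le_right _ _) (by positivity)
          _ = C7 ^ (-(1 / m)) := by field_simp
      have h0 : 0 < 3 * (K * min (min 1 (Bs.r2 / K)) (C7 ^ (-(1 / m)) / (3 * K * Bs.A))) * Bs.A := by
        have : 0 < min (min 1 (Bs.r2 / K)) (C7 ^ (-(1 / m)) / (3 * K * Bs.A)) :=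
          lt_min (lt_min one_pos (by positivity)) (by positivity)
        positivity
      have h2 : (C7 ^ (-(1 / m))) ^ (-m) = C7 := by
        rw [← Real.rpow_mul hC7.le]
        have : -(1 / m) * -m = 1 := by field_simp
        rw [this, Real.rpow_one]
      calc C7 = (C7 ^ (-(1 / m))) ^ (-m) := h2.symm
        _ ≤ _ := Real.rpow_le_rpow_of_nonpos h0 h1 (by linarith)
  obtain ⟨Cg, Cp, kd, hCg, hCp, hkd, hBkd, hX2⟩ := hX r5 h5 h51 hKr2
  -- the constant p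
  obtain ⟨p, hp, hp2, hpa, hpb, hpc⟩ : ∃ p : ℝ, 0 < p ∧ p ≤ 1 / 2 ∧
      p * (N1 + Cp) ≤ m / 4 * Bs.CV ∧ p * Cp ≤ c2 / 16 ∧ p * c2 ≤ 12 * m * Bs.CV := by
    refine ⟨min (min (1 / 2) (m / 4 * Bs.CV / (N1 + Cp)))
      (min (c2 / 16 / Cp) (12 * m * Bs.CV / c2)), ?_, ?_, ?_, ?_, ?_⟩
    · exact lt_min (lt_min (by norm_num) (by positivity)) (lt_min (by positivity) (by positivity))
    · exact (min_le_left _ _).trans (min_le_left _ _)
    · calc _ ≤ (m / 4 * Bs.CV / (N1 + Cp)) * (N1 + Cp) :=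
            mul_le_mul_of_nonneg_right ((min_le_left _ _).trans (min_le_right _ _)) (by positivity)
        _ = m / 4 * Bs.CV := by field_simp
    · calc _ ≤ (c2 / 16 / Cp) * Cp :=
            mul_le_mul_of_nonneg_right ((min_le_right _ _).trans (min_le_left _ _)) hCp.le
        _ = c2 / 16 := by field_simp
    · calc _ ≤ (12 * m * Bs.CV / c2) * c2 :=
            mul_le_mul_of_nonneg_right ((min_le_right _ _).trans (min_le_right _ _)) hc2.le
        _ = 12 * m * Bs.CV := by field_simp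
  obtain ⟨eta, hetad⟩ : ∃ eta, eta = p * c2 / (48 * 3 ^ d * m * Bs.CV) := ⟨_, rfl⟩
  have heta : 0 < eta := by
    rw [hetad]
    positivity
  have heta1 : eta * (4 * 3 ^ d) ≤ 1 := by
    rw [hetad, div_mul_eq_mul_div, div_le_one (by positivity)]
    calc p * c2 * (4 * 3 ^ d) ≤ (12 * m * Bs.CV) * (4 * 3 ^ d) :=
          mul_le_mul_of_nonneg_right hpc (by positivity)
      _ = 48 * 3 ^ d * m * Bs.CV := by ring
  have heta2 : eta ≤ 1 := by
    have h1 : eta * 1 ≤ eta * (4 * 3 ^ d) := mul_le_mul_of_nonneg_left (by linarith) heta.le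
    linarith
  have hp1 : p * N1 + 2 * p ^ 2 * Cp ≤ m / 4 * Bs.CV := by
    have := (PhiStep_a1 hp hp2 hCp).2.1
    linarith
  obtain ⟨cs0, hcs0d⟩ : ∃ cs0, cs0 = p * c2 / 24 := ⟨_, rfl⟩
  have hcs0 : 0 < cs0 := by
    rw [hcs0d]
    positivity
  obtain ⟨C9, hC9d⟩ : ∃ C9, C9 = C8 + 3 * Cp + 2 * m * Bs.CV + m ^ 2 * Bs.CA := ⟨_, rfl⟩
  have hC9 : 0 < C9 := by
    rw [hC9d]
    positivity
  obtain ⟨Ce, hCed⟩ : ∃ Ce, Ce = δ1 ^ (-p) *
      Real.exp (p * (2 + Real.log (1 + R6 / r5) + 2 * 3 ^ d * Cg)) := ⟨_, rfl⟩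
  have hCe : 0 < Ce := by
    rw [hCed]
    exact mul_pos (Real.rpow_pos_of_pos hδ1 _) (Real.exp_pos _)
  obtain ⟨τ, hτd⟩ : ∃ τ, τ = min (1 / 8) (cs0 / 2 / ((C9 + cs0) * (8 * 3 ^ d * Ce))) := ⟨_, rfl⟩
  have hτ : 0 < τ := by
    rw [hτd]
    exact lt_min (by norm_num) (by positivity)
  obtain ⟨kρ, hkρ, hkρ0, hVρ2⟩ := hVρ (K * r5) (by positivity) hKr1
  -- the constant k1
  obtain ⟨k1, hk1, hk10, hk1d, hk1ρ, hk11, hk1B⟩ : ∃ k1 : ℝ, 0 < k1 ∧ k1 ≤ Bs.k0 ∧ k1 ≤ kd ∧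
      k1 ≤ kρ ∧ k1 ≤ 1 ∧ B * k1 ≤ τ ^ (1 / p) := by
    have hB0 : 0 < B := by linarith
    have ht : 0 < τ ^ (1 / p) := Real.rpow_pos_of_pos hτ _
    refine ⟨min (min Bs.k0 kd) (min kρ (min 1 (τ ^ (1 / p) / B))), ?_, ?_, ?_, ?_, ?_, ?_⟩
    · exact lt_min (lt_min Bs.hk0 hkd) (lt_min hkρ (lt_min one_pos (by positivity)))
    · exact (min_le_left _ _).trans (min_le_left _ _)
    · exact (min_le_left _ _).trans (min_le_right _ _)
    · exact (min_le_right _ _).trans (min_le_left _ _)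
    · exact (min_le_right _ _).trans ((min_le_right _ _).trans (min_le_left _ _))
    · calc _ ≤ B * (τ ^ (1 / p) / B) := mul_le_mul_of_nonneg_left
            ((min_le_right _ _).trans ((min_le_right _ _).trans (min_le_right _ _))) hB0.le
        _ = τ ^ (1 / p) := by field_simp
  have hB0 : 0 < B := by linarith
  refine ⟨⟨B, R6, r5, p, eta, Cg, m, n⟩, k1, cs0 / 2, cm, Cm, hB, hR6, h5, h51, hp, hp2, heta,
    heta2, hCg, hm, hmm0.trans hm03, ?_, hk1, hk10,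
    (mul_le_mul_of_nonneg_left hk1d hB0.le).trans hBkd, by linarith, hcm, hCm, ?_⟩
  · have h1 : (1 : ℝ) < n := by linarith
    have h2 : 1 < n := by exact_mod_cast h1
    exact h2.le
  intro k hk hkk1 ι _ net
  obtain ⟨hx, hhx, hX3⟩ := hX2 k hk (hkk1.trans hk1d) ι net
  obtain ⟨hv1, hhv1, hVρ3⟩ := hVρ2 k hk (hkk1.trans hk1ρ) ι net
  obtain ⟨hv2, hhv2, hVm2⟩ := hVm k hk (hkk1.trans hk10) ι net
  obtain ⟨h0, hh0, hh0x, hh01, hh02, hh0c, hh0s, hh0m⟩ : ∃ h0 : ℝ, 0 < h0 ∧ h0 ≤ hx ∧ h0 ≤ hv1 ∧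
      h0 ≤ hv2 ∧ h0 ≤ Bs.hc ∧ h0 ≤ 1 / (cs0 / 2) ∧ h0 ≤ 1 / cm := by
    refine ⟨min (min hx hv1) (min (min hv2 Bs.hc) (min (1 / (cs0 / 2)) (1 / cm))),
      ?_, ?_, ?_, ?_, ?_, ?_, ?_⟩
    · exact lt_min (lt_min hhx hhv1) (lt_min (lt_min hhv2 Bs.hhc)
        (lt_min (by positivity) (by positivity)))
    · exact (min_le_left _ _).trans (min_le_left _ _)
    · exact (min_le_left _ _).trans (min_le_right _ _)
    · exact (min_le_right _ _).trans ((min_le_left _ _).trans (min_le_left _ _))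
    · exact (min_le_right _ _).trans ((min_le_left _ _).trans (min_le_right _ _))
    · exact (min_le_right _ _).trans ((min_le_right _ _).trans (min_le_left _ _))
    · exact (min_le_right _ _).trans ((min_le_right _ _).trans (min_le_right _ _))
  refine ⟨h0, hh0, hh0c, ?_, ?_, ?_⟩
  · calc cs0 / 2 * h0 ≤ cs0 / 2 * (1 / (cs0 / 2)) :=
          mul_le_mul_of_nonneg_left hh0s (by linarith)
      _ = 1 := by field_simp
  · calc cm * h0 ≤ cm * (1 / cm) := mul_le_mul_of_nonneg_left hh0m hcm.le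
      _ = 1 := by field_simp
  intro h ν hh hhh0 hν y hy
  have hVm3 := hVm2 h ν hh (hhh0.trans_le hh02) hν y hy
  have hVρ4 := hVρ3 h ν hh (hhh0.trans_le hh01) hν y hy
  refine ⟨fun G hG hnz => ⟨(hVm3 G hG hnz).1, fun z => ((hVm3 G hG hnz).2 z).2.2.2⟩, ?_⟩
  intro G G' hG hG' hnz hnz'
  obtain ⟨Q, hQ⟩ := hX3 h ν hh (hhh0.trans_le hh0x) hν G G' hG hG'
  choose U hUm hUa hUb hUc hUd using hQ
  obtain ⟨-, hV⟩ := hVm3 G hG hnz
  obtain ⟨-, hV'⟩ := hVm3 G' hG' hnz'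
  choose hVhalf hVtwo hVex _hVsq using hV
  choose hVhalf' hVtwo' hVex' _hVsq' using hV'
  choose L hLm hLa hLb hLc using hVex
  choose L' hLm' hLa' hLb' hLc' using hVex'
  refine ⟨Q, fun o => ?_⟩
  have hRp := PhiStep_rot (ι := ι) hν Q
  have hint1 : ∀ z, ∫ ξ, L' z (fun z => Q z (ξ z)) ∂(pim ι ν) = ∫ ξ, L' z ξ ∂(pim ι ν) := by
    intro z
    have h1 := integral_map (μ := pim ι ν) (φ := fun (ξ : ι → E N) z => Q z (ξ z))
      hRp.measurable.aemeasurable (f := L' z) (hLm' z).aestronglyMeasurable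
    rw [hRp.map_eq] at h1
    exact h1.symm
  have hint2 : ∀ z, ∫ ξ, L' z (fun z => Q z (ξ z)) ^ 2 ∂(pim ι ν) =
      ∫ ξ, L' z ξ ^ 2 ∂(pim ι ν) := by
    intro z
    have h1 := integral_map (μ := pim ι ν) (φ := fun (ξ : ι → E N) z => Q z (ξ z))
      hRp.measurable.aemeasurable (f := fun ξ => L' z ξ ^ 2)
      ((hLm' z).pow_const 2).aestronglyMeasurable
    rw [hRp.map_eq] at h1
    exact h1.symm
  have hae' : ∀ z, ∀ᵐ ξ ∂(pim ι ν), |L' z (fun z => Q z (ξ z))| ≤ 1 ∧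
      Vs Bs m net k y (stp net β h k G' (fun z => Q z (ξ z))) z ≤
        Vs Bs m net k y G' z * Real.exp (-(m / 2) * L' z (fun z => Q z (ξ z))) := by
    intro z
    exact hRp.quasiMeasurePreserving.ae (hLa' z)
  set P : PP := ⟨B, R6, r5, p, eta, Cg, m, n⟩ with hP
  have hbk : 0 ≤ B * k := mul_nonneg hB0.le hk
  have hTn : ∀ x, 0 ≤ TT Bs P net k y G G' x := by
    intro x
    unfold TT
    refine mul_nonneg (PhiStep_phi_nonneg P net β k hbk _ _ x) ?_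
    have : 0 ≤ P.eta * ∑ z, (1 / 2 : ℝ) ^ net.dist x z *
        (Vs Bs P.m net k y G z + Vs Bs P.m net k y G' z) :=
      mul_nonneg heta.le (Finset.sum_nonneg fun z _ => mul_nonneg (by positivity)
        (add_nonneg (PhiStep_Vs_nonneg Bs P.m net k y _ z)
          (PhiStep_Vs_nonneg Bs P.m net k y _ z)))
    linarith
  have hgen : ∀ x (u c : ℝ), (∫ ξ, U x ξ ∂(pim ι ν) ≤ h * u) →
      ((p * u + p ^ 2 * Cp) + eta * ∑ z, (1 / 2 : ℝ) ^ net.dist x z *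
        (Vs Bs m net k y G z * (p * u - m / 2 * (if ‖G z‖ ≤ Bs.r2 then Bs.cV / 2
            else -(2 * Bs.CV)) + 2 * p ^ 2 * Cp + 1 / 2 * m ^ 2 * Bs.CA)
          + Vs Bs m net k y G' z * (p * u - m / 2 * (if ‖G' z‖ ≤ Bs.r2 then Bs.cV / 2
            else -(2 * Bs.CV)) + 2 * p ^ 2 * Cp + 1 / 2 * m ^ 2 * Bs.CA)) ≤
        c * (1 + eta * ∑ z, (1 / 2 : ℝ) ^ net.dist x z *
          (Vs Bs m net k y G z + Vs Bs m net k y G' z))) →
      ∫ ξ, PhiStep_gq (phi P net β k G G' x) P.p P.eta P.m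
        (fun z => (1 / 2 : ℝ) ^ net.dist x z) (Vs Bs P.m net k y G) (Vs Bs P.m net k y G')
        (U x) L (fun z ξ => L' z (fun z => Q z (ξ z))) ξ ∂(pim ι ν) ≤
        (1 + c * h) * TT Bs P net k y G G' x := by
    intro x u c h1 h2
    have := hν.prob
    have : IsProbabilityMeasure (pim ι ν) := by
      unfold pim
      infer_instance
    rw [(PhiStep_site (pim ι ν) (phi P net β k G G' x) P.p P.eta P.m
        (fun z => (1 / 2 : ℝ) ^ net.dist x z) (Vs Bs P.m net k y G) (Vs Bs P.m net k y G')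
        (L' := fun z ξ => L' z (fun z => Q z (ξ z)))
        (hUm x) hLm (fun z => (hLm' z).comp hRp.measurable)
        ((hUa x).mono fun ξ hξ => hξ.1) (fun z => (hLa z).mono fun ξ hξ => hξ.1)
        (fun z => (hae' z).mono fun ξ hξ => hξ.1)).2]
    unfold TT
    refine PhiStep_bound _ _ _ _ h u Cp Bs.CA c _ _ _
      (fun z => if ‖G z‖ ≤ Bs.r2 then Bs.cV / 2 else -(2 * Bs.CV))
      (fun z => if ‖G' z‖ ≤ Bs.r2 then Bs.cV / 2 else -(2 * Bs.CV)) _ _ _ _ _ _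
      (PhiStep_phi_nonneg P net β k hbk _ _ x) hp heta.le hm (fun z => by positivity)
      (PhiStep_Vs_nonneg Bs P.m net k y _) (PhiStep_Vs_nonneg Bs P.m net k y _)
      h1 (hUd x) hLb hLc (fun z => ?_) (fun z => ?_) hh.le h2
    · rw [hint1 z]
      exact hLb' z
    · rw [hint2 z]
      exact hLc' z
  have hVn := PhiStep_Vs_nonneg Bs m net k y G
  have hVn' := PhiStep_Vs_nonneg Bs m net k y G'
  have hcV0 : 0 ≤ Bs.cV := by
    have := Bs.hcV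
    have h2 : 0 ≤ 400 * 3 ^ d * Bs.CV := by positivity
    linarith
  -- any site
  have hany : ∀ x, ∫ ξ, PhiStep_gq (phi P net β k G G' x) P.p P.eta P.m
        (fun z => (1 / 2 : ℝ) ^ net.dist x z) (Vs Bs P.m net k y G) (Vs Bs P.m net k y G')
        (U x) L (fun z ξ => L' z (fun z => Q z (ξ z))) ξ ∂(pim ι ν) ≤
        (1 + C9 * h) * TT Bs P net k y G G' x := by
    intro x
    refine hgen x C8 C9 ?_ ?_
    · rw [mul_comm]
      exact hUb x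
    · have key : ∀ (g : E N), p * C8 - m / 2 * (if ‖g‖ ≤ Bs.r2 then Bs.cV / 2
            else -(2 * Bs.CV)) + 2 * p ^ 2 * Cp + 1 / 2 * m ^ 2 * Bs.CA ≤ C9 := by
        intro g
        rw [hC9d]
        exact (PhiStep_a2 hp hp2 hm hC8 hCp hcV0 hCV hCA _).1
      have t2 : ∑ z, (1 / 2 : ℝ) ^ net.dist x z *
        (Vs Bs m net k y G z * (p * C8 - m / 2 * (if ‖G z‖ ≤ Bs.r2 then Bs.cV / 2
            else -(2 * Bs.CV)) + 2 * p ^ 2 * Cp + 1 / 2 * m ^ 2 * Bs.CA)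
          + Vs Bs m net k y G' z * (p * C8 - m / 2 * (if ‖G' z‖ ≤ Bs.r2 then Bs.cV / 2
            else -(2 * Bs.CV)) + 2 * p ^ 2 * Cp + 1 / 2 * m ^ 2 * Bs.CA)) ≤
          C9 * ∑ z, (1 / 2 : ℝ) ^ net.dist x z *
            (Vs Bs m net k y G z + Vs Bs m net k y G' z) := by
        rw [Finset.mul_sum]
        refine Finset.sum_le_sum fun z _ => ?_
        have s1 := mul_le_mul_of_nonneg_left (key (G z)) (hVn z)
        have s2 := mul_le_mul_of_nonneg_left (key (G' z)) (hVn' z)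
        have s3 := mul_le_mul_of_nonneg_left (add_le_add s1 s2)
          (by positivity : (0 : ℝ) ≤ (1 / 2 : ℝ) ^ net.dist x z)
        refine s3.trans (le_of_eq ?_)
        ring
      have t3 := mul_le_mul_of_nonneg_left t2 heta.le
      have t4 : p * C8 + p ^ 2 * Cp ≤ C9 := by
        rw [hC9d]
        exact (PhiStep_a2 hp hp2 hm hC8 hCp hcV0 hCV hCA True).2
      calc _ ≤ C9 + eta * (C9 * ∑ z, (1 / 2 : ℝ) ^ net.dist x z *
            (Vs Bs m net k y G z + Vs Bs m net k y G' z)) := add_le_add t4 t3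
        _ = _ := by ring
  -- dominated sites
  have hdom : ∀ x, Dom δ1 (B * k) net G G' x → ∫ ξ, PhiStep_gq (phi P net β k G G' x)
        P.p P.eta P.m
        (fun z => (1 / 2 : ℝ) ^ net.dist x z) (Vs Bs P.m net k y G) (Vs Bs P.m net k y G')
        (U x) L (fun z ξ => L' z (fun z => Q z (ξ z))) ξ ∂(pim ι ν) ≤
        (1 + -cs0 * h) * TT Bs P net k y G G' x := by
    intro x hd
    have hu1 := hUc x hd
    refine hgen x _ (-cs0) hu1 ?_
    have hpz := pzalg (ι := ι) (fun z => (1 / 2 : ℝ) ^ net.dist x z) (Vs Bs m net k y G)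
      (Vs Bs m net k y G') (fun z => ‖G z‖ ≤ Bs.r2) (fun z => ‖G' z‖ ≤ Bs.r2) x (3 ^ d) p m eta
      c2 (c2 / 32) Bs.cV Bs.CV Bs.CA Cp N1
      (if K * r5 ≤ min ‖G x‖ ‖G' x‖ then
            (if Bs.r2 ≤ min ‖G x‖ ‖G' x‖ then -(c2f β Bs.r2 / 2) else 2 * (c2 / 32)) else N + 1)
      (fun z => by positivity) (net.sum_half x) (by simp [net.dist_self])
      hVhalf hVhalf' (fun z hz => hVtwo z ?_) (fun z hz => hVtwo' z ?_) hS3 hp hm hCV hCA hCp hN1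
      hc2 hc21 hmCA Bs.hcV hetad hp1 hpb heta1 le_rfl ?_ ?_
    · simp only [PhiStep_ell] at hpz
      rw [hcs0d]
      exact hpz
    · have h1 : Bs.r2 < ‖G z‖ := not_le.1 hz
      have h2 := Bs.hAr2
      linarith [h2, h3A]
    · have h1 : Bs.r2 < ‖G' z‖ := not_le.1 hz
      have h2 := Bs.hAr2
      linarith [h2, h3A]
    · have hN3 : (3 : ℝ) ≤ N := by exact_mod_cast hN
      split_ifs
      · rw [← hc2d]
        linarith
      · linarith
      · linarith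
    · by_cases hz1 : K * r5 ≤ min ‖G x‖ ‖G' x‖
      · by_cases hz2 : Bs.r2 ≤ min ‖G x‖ ‖G' x‖
        · left
          rw [if_pos hz1, if_pos hz2, ← hc2d]
        · right
          left
          rw [if_pos hz1, if_neg hz2]
          refine ⟨le_rfl, ?_⟩
          have h1 : min ‖G x‖ ‖G' x‖ < Bs.r2 := not_le.1 hz2
          rcases min_lt_iff.1 h1 with h2 | h2
          · exact Or.inl h2.le
          · exact Or.inr h2.le
      · right
        right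
        have h1 : min ‖G x‖ ‖G' x‖ < K * r5 := not_le.1 hz1
        rcases min_lt_iff.1 h1 with h2 | h2
        · left
          refine ⟨?_, h2.le.trans hKr2⟩
          rw [← hC7d]
          exact hC7r.trans (hVρ4 G hG hnz x h2.le)
        · right
          refine ⟨?_, h2.le.trans hKr2⟩
          rw [← hC7d]
          exact hC7r.trans (hVρ4 G' hG' hnz' x h2.le)
  have hPn : 0 ≤ PHI Bs P net k y G G' o := by
    unfold PHI
    exact Finset.sum_nonneg fun x _ => mul_nonneg (by positivity) (hTn x)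
  -- smallness of the non-dominated part
  have hpow : (B * k) ^ p ≤ τ := by
    have h1 : B * k ≤ τ ^ (1 / p) := (mul_le_mul_of_nonneg_left hkk1 hB0.le).trans hk1B
    have h2 := Real.rpow_le_rpow hbk h1 hp.le
    rwa [← Real.rpow_mul hτ.le, one_div_mul_cancel hp.ne', Real.rpow_one] at h2
  have hnd := (phi_nd Bs P hβ hp (by show p ≤ 1; linarith) (by
      show 1 ≤ n
      have h1 : (1 : ℝ) < n := by linarith
      have h2 : 1 < n := by exact_mod_cast h1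
      exact h2.le) h5 h51 hR6 heta.le hCg.le δ1 hδ1 hδ12 k hk (hkk1.trans hk11) hB
      (by
        show 4 * (B * k) ^ p ≤ 1 / 2
        have : τ ≤ 1 / 8 := by
          rw [hτd]
          exact min_le_left _ _
        linarith) net y G G' o).2
  have hndc : 8 * 3 ^ d * (B * k) ^ p *
        (δ1 ^ (-p) * Real.exp (p * (2 + Real.log (1 + R6 / r5) + 2 * 3 ^ d * Cg * k))) *
        (C9 + cs0) ≤ cs0 / 2 := by
    have h1 : δ1 ^ (-p) * Real.exp (p * (2 + Real.log (1 + R6 / r5) + 2 * 3 ^ d * Cg * k)) ≤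
        Ce := by
      rw [hCed]
      refine mul_le_mul_of_nonneg_left (Real.exp_le_exp.2 ?_) (Real.rpow_nonneg hδ1.le _)
      have h2 : 2 * 3 ^ d * Cg * k ≤ 2 * 3 ^ d * Cg := by
        have h3 : 0 ≤ 2 * 3 ^ d * Cg := by positivity
        exact mul_le_of_le_one_right h3 (hkk1.trans hk11)
      exact mul_le_mul_of_nonneg_left (by linarith) hp.le
    have h5' : τ ≤ cs0 / 2 / ((C9 + cs0) * (8 * 3 ^ d * Ce)) := by
      rw [hτd]
      exact min_le_right _ _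
    have h6 : 0 ≤ (B * k) ^ p := Real.rpow_nonneg hbk _
    calc 8 * 3 ^ d * (B * k) ^ p *
        (δ1 ^ (-p) * Real.exp (p * (2 + Real.log (1 + R6 / r5) + 2 * 3 ^ d * Cg * k))) *
        (C9 + cs0) ≤ 8 * 3 ^ d * (B * k) ^ p * Ce * (C9 + cs0) := by
          refine mul_le_mul_of_nonneg_right (mul_le_mul_of_nonneg_left h1 ?_) (by positivity)
          positivity
      _ = (B * k) ^ p * ((C9 + cs0) * (8 * 3 ^ d * Ce)) := by ring
      _ ≤ (cs0 / 2 / ((C9 + cs0) * (8 * 3 ^ d * Ce))) * ((C9 + cs0) * (8 * 3 ^ d * Ce)) :=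
          mul_le_mul_of_nonneg_right (hpow.trans h5') (by positivity)
      _ = cs0 / 2 := by field_simp
  refine PhiStep_core Bs P net (by linarith) hν hy.prof.mono hh hbk hp hp2 heta.le hm
    (by show m ≤ 1 / 2; linarith) G G' Q U L (fun z ξ => L' z (fun z => Q z (ξ z)))
    hUm hLm (fun z => (hLm' z).comp hRp.measurable)
    (fun x => (hUa x).mono fun ξ hξ => hξ.1) (fun z => (hLa z).mono fun ξ hξ => hξ.1)
    (fun z => (hae' z).mono fun ξ hξ => hξ.1)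
    (fun x => (hUa x).mono fun ξ hξ => hξ.2 p eta m hp) (fun z => (hLa z).mono fun ξ hξ => hξ.2)
    (fun z => (hae' z).mono fun ξ hξ => hξ.2)
    (fun x => if Dom δ1 (B * k) net G G' x then -cs0 else C9) (cs0 / 2) o ?_ ?_
  · intro x
    by_cases hd : Dom δ1 (B * k) net G G' x
    · simp only [if_pos hd]
      exact hdom x hd
    · simp only [if_neg hd]
      exact hany x
  · have h1 : ∑ x, (1 / 2 : ℝ) ^ net.dist o x *
        ((if Dom δ1 (B * k) net G G' x then -cs0 else C9) * TT Bs P net k y G G' x) =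
        -cs0 * PHI Bs P net k y G G' o + (C9 + cs0) *
          ∑ x, (if Dom δ1 (B * k) net G G' x then 0
            else (1 / 2 : ℝ) ^ net.dist o x * TT Bs P net k y G G' x) := by
      unfold PHI
      rw [Finset.mul_sum, Finset.mul_sum, ← Finset.sum_add_distrib]
      refine Finset.sum_congr rfl fun x _ => ?_
      by_cases hd : Dom δ1 (B * k) net G G' x
      · simp only [if_pos hd]
        ring
      · simp only [if_neg hd]
        ring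
    rw [h1]
    have h2 := mul_le_mul_of_nonneg_left hnd (by positivity : 0 ≤ C9 + cs0)
    have h3 := mul_le_mul_of_nonneg_right hndc hPn
    have h4 : (C9 + cs0) * (8 * 3 ^ d * (P.B * k) ^ P.p *
      (δ1 ^ (-P.p) * Real.exp (P.p * (2 + Real.log (1 + P.R6 / P.r5) + 2 * 3 ^ d * P.Cg * k))) *
      PHI Bs P net k y G G' o) = 8 * 3 ^ d * (B * k) ^ p *
        (δ1 ^ (-p) * Real.exp (p * (2 + Real.log (1 + R6 / r5) + 2 * 3 ^ d * Cg * k))) *
        (C9 + cs0) * PHI Bs P net k y G G' o := by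
      ring
    rw [h4] at h2
    linarith

end Dyn
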