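import Pool.Agent.Lib_MP_36b788.CMTight
import Pool.Agent.Lib_MP_36b788.PathC
import Pool.Agent.Lib_MP_36b788.PhiStep
import Pool.Agent.Lib_MP_36b788.LSMain

/-!
# CHAINMIX: the Gaussian chain forgets its initial state, uniformly in the box and in `h → 0`

PROOF. `Bs` from LSMAIN (`ls_main` with `D0 = 400·3^d`), `P, k1', cs, cm, Cm` from PHISTEP (for fixed `k` and net `boxNet d L` it gives
`VDrift Bs P.m cm Cm k`, shrink `h0`), `k1 = min` of `k1'` and the `k1` of cm_tight. Fix `k, ρ1, ρ2, R, J, CF, δ`.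
cm_tight with `δ/32` for `ρ1` and `ρ2`: `q_i, K_i, L0_i`; `L0 = max` (for `k = 0` both are `R`). On `{PsiK_1(G) ≤ 1} ∩ {PsiK_2(G') ≤ 1}`
PsiK_facts gives the hypotheses of phi_up (`a = max K_i`, exponent `max q_i + d + 1`), so `Φ_0(G,G') ≤ C_Φ`, independent of `L, h, n_i`.
Weights: `w_i = CF·W·e²·2^R` for `i ∈ I`, `0` otherwise, `W` = number of sites `x` with `|x|₁ ≤ R` (`≤ (2R+1)^d`; they lie in the box),
phi_low: `Σ_{|x| ≤ R} min 1 ‖G x-G' x‖ ≤ W e²2^RΦ_0`. `wsum (1-cs h) (w_i)_{i<M} = Σ_{i∈I, i<M}(1-cs h)^i w_i ≤ J w (1-cs h)^{T0/h}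
≤ J w e^{-cs T0}` (`(1-x)^i ≤ e^{-xi}`, `i h ≥ T0`). Choose `T0` with `J w e^{-cs T0}C_Φ ≤ δ/4`.
For small `h` (given `L, Sm`): `ν = nuT N h` is a noise (nuT_noise), `y` from `Bs.corr`. path_coupling with `Φ = PHI … 0` (centre of the box),
`ρ = 1 - cs h`, `Gd = Nz k` (holds a.e. by cm_nz): on the good event
`‖pathE^ν G - pathE^ν G'‖ ≤ δ/4 + 2(exitE M G + exitE M G')`; off it `≤ 2`. Integrate: `2(δ/32+δ/32) + δ/4 + 2·2·δ/32` (cm_exit with `δ/32`), and
pathE_trunc twice: `2·2 M card tailG ≤ 4 (Sm/h) card C h² ≤ δ/8`. Total `≤ δ`. Measurability of all integrands: pathE_facts,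
exitE_facts, PHI_meas.
-/

open MeasureTheory ProbabilityTheory

namespace Dyn

private theorem ChainMix_wsum (ρ : ℝ) (M : ℕ) (w : ℕ → ℝ) :
    wsum ρ ((List.range M).map w) = ∑ i ∈ Finset.range M, ρ ^ i * w i := by
  induction M generalizing w with
  | zero => rfl
  | succ M ih =>
    rw [List.range_succ_eq_map, List.map_cons, List.map_map, Finset.sum_range_succ']
    show w 0 + ρ * wsum ρ ((List.range M).map (w ∘ Nat.succ)) = _
    rw [ih (w ∘ Nat.succ), Finset.mul_sum, pow_zero, one_mul, add_comm]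
    congr 1
    refine Finset.sum_congr rfl fun i _ => ?_
    show ρ * (ρ ^ i * w (i + 1)) = _
    rw [pow_succ]
    ring

private theorem ChainMix_pow {cs h T0 : ℝ} (hcs : 0 < cs) (hch : cs * h ≤ 1) {i : ℕ}
    (hi : T0 ≤ i * h) : (1 - cs * h) ^ i ≤ Real.exp (-(cs * T0)) := by
  have h1 : 1 - cs * h ≤ Real.exp (-(cs * h)) := by
    have := Real.add_one_le_exp (-(cs * h))
    linarith
  calc (1 - cs * h) ^ i ≤ Real.exp (-(cs * h)) ^ i := pow_le_pow_left₀ (by linarith) h1 i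
    _ = Real.exp (i * -(cs * h)) := by rw [Real.exp_nat_mul]
    _ ≤ Real.exp (-(cs * T0)) := by
        apply Real.exp_le_exp.2
        have := mul_le_mul_of_nonneg_left hi hcs.le
        nlinarith

private theorem ChainMix_wbound {cs h T0 wc : ℝ} (hcs : 0 < cs) (hch : cs * h ≤ 1) (hwc : 0 ≤ wc)
    (M J : ℕ) (I : Finset ℕ) (hI : I.card ≤ J) (hT : ∀ i ∈ I, T0 ≤ i * h) :
    wsum (1 - cs * h) ((List.range M).map (fun i => if i ∈ I then wc else 0)) ≤
      J * wc * Real.exp (-(cs * T0)) := by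
  rw [ChainMix_wsum]
  have hE : 0 ≤ wc * Real.exp (-(cs * T0)) := mul_nonneg hwc (Real.exp_pos _).le
  calc ∑ i ∈ Finset.range M, (1 - cs * h) ^ i * (if i ∈ I then wc else 0)
      ≤ ∑ i ∈ Finset.range M, (if i ∈ I then wc * Real.exp (-(cs * T0)) else 0) := by
        refine Finset.sum_le_sum fun i _ => ?_
        by_cases hi : i ∈ I
        · rw [if_pos hi, if_pos hi, mul_comm]
          exact mul_le_mul_of_nonneg_left (ChainMix_pow hcs hch (hT i hi)) hwc
        · rw [if_neg hi, if_neg hi, mul_zero]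
    _ = ∑ i ∈ (Finset.range M).filter (· ∈ I), wc * Real.exp (-(cs * T0)) := by
        rw [Finset.sum_filter]
    _ = ((Finset.range M).filter (· ∈ I)).card * (wc * Real.exp (-(cs * T0))) := by
        rw [Finset.sum_const, nsmul_eq_mul]
    _ ≤ J * (wc * Real.exp (-(cs * T0))) := by
        refine mul_le_mul_of_nonneg_right ?_ hE
        have h1 : ((Finset.range M).filter (· ∈ I)).card ≤ I.card :=
          Finset.card_le_card fun i hi => (Finset.mem_filter.1 hi).2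
        exact_mod_cast h1.trans hI
    _ = J * wc * Real.exp (-(cs * T0)) := by ring

private theorem ChainMix_count (d L R : ℕ) (c : ℝ) (hc : 0 ≤ c) :
    ∑ x : boxS d L, (if l1 (x : Fin d → ℤ) 0 ≤ R then c else 0) ≤ (boxS d R).card * c := by
  rw [Finset.sum_coe_sort (boxS d L) (fun x => if l1 x 0 ≤ R then c else 0), ← Finset.sum_filter,
    Finset.sum_const, nsmul_eq_mul]
  refine mul_le_mul_of_nonneg_right ?_ hc
  have h1 : ((boxS d L).filter (fun x => l1 x 0 ≤ R)) ⊆ boxS d R := by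
    intro x hx
    have h2 := (Finset.mem_filter.1 hx).2
    have h3 : ∀ i, (x i).natAbs ≤ R := by
      intro i
      have h4 : (x i - (0 : Fin d → ℤ) i).natAbs ≤ l1 x 0 := by
        unfold l1
        exact Finset.single_le_sum (f := fun i => (x i - (0 : Fin d → ℤ) i).natAbs)
          (fun _ _ => Nat.zero_le _) (Finset.mem_univ i)
      rw [Pi.zero_apply, sub_zero] at h4
      exact h4.trans h2
    refine Finset.mem_Icc.2 ⟨fun i => ?_, fun i => ?_⟩
    · show -(R : ℤ) ≤ x i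
      have := h3 i
      omega
    · show x i ≤ (R : ℤ)
      have := h3 i
      omega
  exact_mod_cast Finset.card_le_card h1

/-- the general integration step -/
private theorem ChainMix_int {X : Type} [MeasurableSpace X] (μ1 μ2 : Measure X)
    [IsProbabilityMeasure μ1] [IsProbabilityMeasure μ2] (f : X → X → ℝ) (hf : ∀ G G', 0 ≤ f G G')
    (e : X → ℝ) (he : Measurable e) (he0 : ∀ G, 0 ≤ e G ∧ e G ≤ 1) (B1 B2 : Set X)
    (hB1 : MeasurableSet B1) (hB2 : MeasurableSet B2) (P1 P2 : X → Prop)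
    (hP1 : ∀ᵐ G ∂μ1, P1 G) (hP2 : ∀ᵐ G ∂μ2, P2 G) (c ε : ℝ)
    (h : ∀ G G', P1 G → P2 G' → f G G' ≤ c + 2 * (e G + e G') +
      2 * B1.indicator (fun _ => (1 : ℝ)) G + 2 * B2.indicator (fun _ => (1 : ℝ)) G')
    (e1 : ∫ G, e G ∂μ1 ≤ ε) (e2 : ∫ G, e G ∂μ2 ≤ ε) (b1 : μ1.real B1 ≤ ε) (b2 : μ2.real B2 ≤ ε) :
    ∫ G, ∫ G', f G G' ∂μ2 ∂μ1 ≤ c + 8 * ε := by
  have ie : ∀ (μ : Measure X) [IsProbabilityMeasure μ], Integrable e μ := by
    intro μ _
    refine Integrable.of_bound he.aestronglyMeasurable 1 (Filter.Eventually.of_forall fun G => ?_)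
    rw [Real.norm_of_nonneg (he0 G).1]
    exact (he0 G).2
  have ib : ∀ (μ : Measure X) [IsProbabilityMeasure μ] (B : Set X), MeasurableSet B →
      Integrable (fun G => B.indicator (fun _ => (1 : ℝ)) G) μ := by
    intro μ _ B hB
    exact (integrable_const (1 : ℝ)).indicator hB
  have vb : ∀ (μ : Measure X) [IsProbabilityMeasure μ] (B : Set X), MeasurableSet B →
      ∫ G, B.indicator (fun _ => (1 : ℝ)) G ∂μ = μ.real B := by
    intro μ _ B hB
    rw [integral_indicator_const _ hB]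
    simp
  have vint : ∀ (μ : Measure X) [IsProbabilityMeasure μ] (B : Set X), MeasurableSet B →
      ∀ c' : ℝ, ∫ G, (c' + 2 * e G + 2 * B.indicator (fun _ => (1 : ℝ)) G) ∂μ =
        c' + 2 * ∫ G, e G ∂μ + 2 * μ.real B := by
    intro μ _ B hB c'
    have a1 : ∫ G, (c' + 2 * e G + 2 * B.indicator (fun _ => (1 : ℝ)) G) ∂μ =
        ∫ G, (c' + 2 * e G) ∂μ + ∫ G, 2 * B.indicator (fun _ => (1 : ℝ)) G ∂μ :=
      integral_add ((integrable_const _).add ((ie μ).const_mul 2)) ((ib μ B hB).const_mul 2)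
    have a2 : ∫ G, (c' + 2 * e G) ∂μ = ∫ G, c' ∂μ + ∫ G, 2 * e G ∂μ :=
      integral_add (integrable_const _) ((ie μ).const_mul 2)
    rw [a1, a2, integral_const_mul, integral_const_mul, vb μ B hB, integral_const, probReal_univ,
      one_smul]
  have hin : ∀ G, P1 G → ∫ G', f G G' ∂μ2 ≤
      c + 2 * e G + 2 * B1.indicator (fun _ => (1 : ℝ)) G + 4 * ε := by
    intro G hG
    have i1 : Integrable (fun G' => (c + 2 * e G + 2 * B1.indicator (fun _ => (1 : ℝ)) G) +
        2 * e G' + 2 * B2.indicator (fun _ => (1 : ℝ)) G') μ2 :=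
      ((integrable_const _).add ((ie μ2).const_mul 2)).add ((ib μ2 B2 hB2).const_mul 2)
    have h1 : ∫ G', f G G' ∂μ2 ≤ ∫ G', ((c + 2 * e G + 2 * B1.indicator (fun _ => (1 : ℝ)) G) +
        2 * e G' + 2 * B2.indicator (fun _ => (1 : ℝ)) G') ∂μ2 := by
      refine integral_mono_of_nonneg (Filter.Eventually.of_forall fun G' => hf G G') i1 ?_
      filter_upwards [hP2] with G' hG'
      have := h G G' hG hG'
      linarith
    rw [vint μ2 B2 hB2] at h1
    linarith
  have i2 : Integrable (fun G => (c + 4 * ε) + 2 * e G +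
      2 * B1.indicator (fun _ => (1 : ℝ)) G) μ1 :=
    ((integrable_const _).add ((ie μ1).const_mul 2)).add ((ib μ1 B1 hB1).const_mul 2)
  have h2 : ∫ G, ∫ G', f G G' ∂μ2 ∂μ1 ≤ ∫ G, ((c + 4 * ε) + 2 * e G +
      2 * B1.indicator (fun _ => (1 : ℝ)) G) ∂μ1 := by
    refine integral_mono_of_nonneg (Filter.Eventually.of_forall fun G =>
      integral_nonneg fun G' => hf G G') i2 ?_
    filter_upwards [hP1] with G hG
    have := hin G hG
    linarith
  rw [vint μ1 B1 hB1] at h2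
  linarith

/-- growth bounds with a common constant -/
private theorem ChainMix_grow {K q a Q t : ℝ} (hK : 0 ≤ K) (hKa : K ≤ a) (hqQ : q ≤ Q)
    (ht : 0 ≤ t) : K * (1 + t) ^ q ≤ a * (1 + t) ^ Q :=
  mul_le_mul hKa (Real.rpow_le_rpow_of_exponent_le (by linarith) hqQ)
    (Real.rpow_nonneg (by linarith) _) (hK.trans hKa)

theorem chain_mix (N d : ℕ) (β : ℝ) (hd : 1 ≤ d) (hN : 3 ≤ N) (hβ : 1 < β) :
    ∃ k1 : ℝ, 0 < k1 ∧ k1 ≤ 1 ∧ ∀ k, 0 ≤ k → k ≤ k1 →
    ∀ (ρ1 ρ2 : Measure (E N)) [IsProbabilityMeasure ρ1] [IsProbabilityMeasure ρ2],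
      ρ1 {0} = 0 → ρ2 {0} = 0 → Integrable (fun x : E N => ‖x‖ ^ 2) ρ1 →
      Integrable (fun x : E N => ‖x‖ ^ 2) ρ2 →
    ∀ (R J : ℕ) (CF δ : ℝ), 0 ≤ CF → 0 < δ →
    ∃ (T0 : ℝ) (L0 : ℕ), 0 ≤ T0 ∧ R ≤ L0 ∧ (k = 0 → L0 = R) ∧
    ∀ L : ℕ, (k = 0 → L = R) → L0 ≤ L →
    ∀ Sm : ℝ, 0 ≤ Sm → ∃ h0 : ℝ, 0 < h0 ∧ ∀ h, 0 < h → h < h0 →
    ∀ n1 n2 M : ℕ, n1 * h ≤ Sm → n2 * h ≤ Sm → M * h ≤ Sm →
    ∀ (F : ℕ → (boxS d L → E N) → ℂ) (I : Finset ℕ), I.card ≤ J →
      (∀ i, Measurable (F i)) → (∀ i G, ‖F i G‖ ≤ 1) → (∀ i, i ∉ I → F i = fun _ => 1) →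
      (∀ i ∈ I, T0 ≤ i * h ∧ ∀ G G' : boxS d L → E N, ‖F i G - F i G'‖ ≤
        CF * ∑ x : boxS d L, (if l1 (x : Fin d → ℤ) 0 ≤ R then min 1 ‖G x - G' x‖ else 0)) →
      ∫ G, ∫ G', ‖pathE (boxNet d L) β h k (stdGaussian (E N)) ((List.range M).map F) G
          - pathE (boxNet d L) β h k (stdGaussian (E N)) ((List.range M).map F) G'‖
        ∂(chainLaw (boxNet d L) β h k (stdGaussian (E N)) (Measure.pi (fun _ => ρ2)) n2)
        ∂(chainLaw (boxNet d L) β h k (stdGaussian (E N)) (Measure.pi (fun _ => ρ1)) n1) ≤ δ := by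
  classical
  have hβ0 : 0 < β := by linarith
  have h3d : (1 : ℝ) ≤ 3 ^ d := one_le_pow₀ (by norm_num)
  obtain ⟨Bs⟩ := ls_main N d β (400 * 3 ^ d) hN hβ (by linarith)
  obtain ⟨P, k1', cs, cm, Cm, hB, hR6, hr5, hr51, hp, hp2, heta, heta1, hCg, hm, hm3, hn, hk1', hk1B,
    hBk, hcs, hcm, hCm, hstep⟩ := phi_step N d β hN hβ Bs
  obtain ⟨kT, hkT, hkT1, htight⟩ := cm_tight N d β hd hN hβ Bs P.m cm Cm hm hcm hCm
  refine ⟨min k1' kT, lt_min hk1' hkT, (min_le_right _ _).trans hkT1, ?_⟩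
  intro k hk hkle ρ1 ρ2 _ _ hρ1 hρ2 hi1 hi2 R J CF δ hCF hδ
  have hkk : k ≤ k1' := hkle.trans (min_le_left _ _)
  have hkT' : k ≤ kT := hkle.trans (min_le_right _ _)
  have hk1 : k ≤ 1 := hkT'.trans hkT1
  have hkB : k ≤ Bs.k0 := hkk.trans hk1B
  have hBk' : P.B * k ≤ 1 / 4 :=
    (mul_le_mul_of_nonneg_left hkk (by linarith)).trans hBk
  have hVD : VDrift Bs P.m cm Cm k := by
    intro L
    obtain ⟨h0, hh0, -, -, hcm0, H⟩ := hstep k hk hkk (boxS d L) (boxNet d L)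
    refine ⟨h0, hh0, fun h ν hh hlt hν y hy => ⟨?_, (H h ν hh hlt hν y hy).1⟩⟩
    exact (mul_le_mul_of_nonneg_left hlt.le hcm.le).trans hcm0
  obtain ⟨q1, K1, L01, hq1, hK1, hL01, hL01', T1⟩ :=
    htight k hk hkT' hkB hVD ρ1 hρ1 hi1 R (δ / 32) (by positivity)
  obtain ⟨q2, K2, L02, hq2, hK2, hL02, hL02', T2⟩ :=
    htight k hk hkT' hkB hVD ρ2 hρ2 hi2 R (δ / 32) (by positivity)
  obtain ⟨a, hadef⟩ : ∃ a, a = max K1 K2 := ⟨_, rfl⟩
  have ha1 : K1 ≤ a := hadef ▸ le_max_left _ _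
  have ha2 : K2 ≤ a := hadef ▸ le_max_right _ _
  have ha0 : 0 ≤ a := by linarith
  obtain ⟨Q, hQdef⟩ : ∃ Q, Q = max q1 q2 + d + 1 := ⟨_, rfl⟩
  have hd0 : (0 : ℝ) ≤ d := Nat.cast_nonneg _
  have hQ1 : q1 + d + 1 ≤ Q := by
    have := le_max_left q1 q2
    linarith
  have hQ2 : q2 + d + 1 ≤ Q := by
    have := le_max_right q1 q2
    linarith
  have hQ0 : 0 ≤ Q := by linarith
  obtain ⟨CP, hCP, hup⟩ := phi_up Bs P hβ hp (by linarith) hn hr5 hr51 hR6 heta.le hCg.le hB a Q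
    ha0 hQ0
  obtain ⟨wc, hwcdef⟩ : ∃ wc, wc = CF * ((boxS d R).card * (Real.exp 2 * 2 ^ R)) := ⟨_, rfl⟩
  have hwc : 0 ≤ wc := by rw [hwcdef]; positivity
  obtain ⟨A, hAdef⟩ : ∃ A, A = J * wc * CP := ⟨_, rfl⟩
  have hA0 : 0 ≤ A := by rw [hAdef]; positivity
  obtain ⟨T0, hT0def⟩ : ∃ T0, T0 = Real.log (1 + 4 * A / δ) / cs := ⟨_, rfl⟩
  have hA1 : 1 ≤ 1 + 4 * A / δ := by
    have : 0 ≤ 4 * A / δ := by positivity
    linarith
  have hT00 : 0 ≤ T0 := by
    rw [hT0def]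
    exact div_nonneg (Real.log_nonneg hA1) hcs.le
  have hexpT : J * wc * Real.exp (-(cs * T0)) * CP ≤ δ / 4 := by
    have e1 : cs * T0 = Real.log (1 + 4 * A / δ) := by
      rw [hT0def]
      field_simp
    rw [e1, Real.exp_neg, Real.exp_log (by linarith)]
    have e2 : J * wc * (1 + 4 * A / δ)⁻¹ * CP = A / (1 + 4 * A / δ) := by
      rw [hAdef]
      ring
    rw [e2, div_le_iff₀ (by linarith)]
    have e3 : δ / 4 * (1 + 4 * A / δ) = δ / 4 + A := by
      field_simp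
    rw [e3]
    linarith
  obtain ⟨Ct, hCt0, hCt⟩ := tailG_le N
  refine ⟨T0, max L01 L02, hT00, hL01.trans (le_max_left _ _), fun h0 => by
    rw [hL01' h0, hL02' h0, max_self], ?_⟩
  intro L hLR hL Sm hSm
  obtain ⟨h1, h1p, H1⟩ := T1 L hLR ((le_max_left _ _).trans hL) Sm hSm
  obtain ⟨h2, h2p, H2⟩ := T2 L hLR ((le_max_right _ _).trans hL) Sm hSm
  obtain ⟨h3, h3p, h3c, h3s, -, H3⟩ := hstep k hk hkk (boxS d L) (boxNet d L)
  obtain ⟨h4, h4p, h41, H4⟩ := cm_exit N d β hβ0 ρ1 hi1 L Sm (δ / 32) hSm (by positivity)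
  obtain ⟨h5, h5p, h51, H5⟩ := cm_exit N d β hβ0 ρ2 hi2 L Sm (δ / 32) hSm (by positivity)
  obtain ⟨h6, h6p, H6⟩ := nuT_noise N (by omega)
  have hcard : (0 : ℝ) ≤ (Fintype.card (boxS d L) : ℝ) := Nat.cast_nonneg _
  obtain ⟨h7, hh7⟩ : ∃ h7, h7 = δ / (32 * (Sm + 1) * ((Fintype.card (boxS d L) : ℝ) + 1) * Ct) :=
    ⟨_, rfl⟩
  have h7p : 0 < h7 := by rw [hh7]; positivity
  refine ⟨min (min h1 h2) (min h3 (min (min h4 h5) (min h6 h7))), lt_min (lt_min h1p h2p)
    (lt_min h3p (lt_min (lt_min h4p h5p) (lt_min h6p h7p))), ?_⟩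
  intro h hh hlt n1 n2 M hn1 hn2 hM F I hIJ hFm hFb hF1 hFI
  simp only [lt_min_iff] at hlt
  obtain ⟨⟨l1', l2'⟩, l3', ⟨l4', l5'⟩, l6', l7'⟩ := hlt
  have hlt1 : h < 1 := l4'.trans_le h41
  have hcsh : cs * h ≤ 1 := (mul_le_mul_of_nonneg_left l3'.le hcs.le).trans h3s
  have hnoise := H6 h hh l6'
  haveI := hnoise.prob
  have hN2 := isNoise_noise2 hh hnoise
  obtain ⟨y, hy⟩ := Bs.corr h (nuT N h) hh (l3'.trans_le h3c) hnoise
  have hmono : Monotone y := hy.prof.mono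
  obtain ⟨G1, G2⟩ := H3 h (nuT N h) hh l3' hnoise y hy
  have hzero : (0 : Fin d → ℤ) ∈ boxS d L := by
    refine Finset.mem_Icc.2 ⟨fun i => ?_, fun i => ?_⟩ <;> simp
  obtain ⟨o, ho⟩ : ∃ o : boxS d L, (o : Fin d → ℤ) = 0 := ⟨⟨0, hzero⟩, rfl⟩
  -- the functional
  have hPlow := fun (G G' : boxS d L → E N) (x : boxS d L) =>
    phi_low Bs P hβ hp (by linarith) hn hr5 hr51 hR6 heta.le hCg.le hB k hk (boxNet d L) y G G' o x
  have hP0 : ∀ G G' : boxS d L → E N, 0 ≤ PHI Bs P (boxNet d L) k y G G' o := fun G G' =>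
    (hPlow G G' o).1
  have hFPhi : ∀ i ∈ I, ∀ G G' : boxS d L → E N,
      ‖F i G - F i G'‖ ≤ wc * PHI Bs P (boxNet d L) k y G G' o := by
    intro i hi G G'
    refine ((hFI i hi).2 G G').trans ?_
    rw [hwcdef, mul_assoc]
    refine mul_le_mul_of_nonneg_left ?_ hCF
    have hc0 : 0 ≤ Real.exp 2 * 2 ^ R * PHI Bs P (boxNet d L) k y G G' o :=
      mul_nonneg (by positivity) (hP0 G G')
    have h8 : ∑ x : boxS d L, (if l1 (x : Fin d → ℤ) 0 ≤ R then min 1 ‖G x - G' x‖ else 0) ≤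
        ∑ x : boxS d L, (if l1 (x : Fin d → ℤ) 0 ≤ R then
          Real.exp 2 * 2 ^ R * PHI Bs P (boxNet d L) k y G G' o else 0) := by
      refine Finset.sum_le_sum fun x _ => ?_
      by_cases hx : l1 (x : Fin d → ℤ) 0 ≤ R
      · rw [if_pos hx, if_pos hx]
        refine (hPlow G G' x).2.trans ?_
        refine mul_le_mul_of_nonneg_right ?_ (hP0 G G')
        refine mul_le_mul_of_nonneg_left ?_ (Real.exp_pos _).le
        refine pow_le_pow_right₀ (by norm_num) ?_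
        rw [(boxNet d L).dist_comm, boxNet_dist, ho]
        exact hx
      · rw [if_neg hx, if_neg hx]
    refine h8.trans ((ChainMix_count d L R _ hc0).trans (le_of_eq ?_))
    ring
  obtain ⟨fs, hfs⟩ : ∃ fs : List (((boxS d L → E N) → ℂ) × ℝ),
      fs = (List.range M).map (fun i => (F i, if i ∈ I then wc else 0)) := ⟨_, rfl⟩
  have hfst : fs.map Prod.fst = (List.range M).map F := by
    rw [hfs, List.map_map]
    rfl
  have hsnd : fs.map Prod.snd = (List.range M).map (fun i => if i ∈ I then wc else 0) := by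
    rw [hfs, List.map_map]
    rfl
  have hlen : fs.length = M := by
    rw [hfs, List.length_map, List.length_range]
  have hcoup := path_coupling (net := boxNet d L) (β := β) (h := h) (k := k) (ν := nuT N h) hβ0 hh
    hnoise (fun G G' => PHI Bs P (boxNet d L) k y G G' o) hP0
    (PHI_meas Bs P k (boxNet d L) y hmono o) (1 - cs * h) (by linarith) (Nz k)
    (fun G hG hz => (G1 G hG hz).1)
    (fun G G' hG hG' hz hz' => by
      obtain ⟨Qr, hQr⟩ := G2 G G' hG hG' hz hz'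
      exact ⟨Qr, hQr o⟩) fs (by
      intro q hq
      rw [hfs, List.mem_map] at hq
      obtain ⟨i, _, rfl⟩ := hq
      refine ⟨hFm i, hFb i, ?_, ?_⟩
      · show 0 ≤ (if i ∈ I then wc else 0)
        split_ifs
        · exact hwc
        · exact le_rfl
      · intro G G' _ _
        show ‖F i G - F i G'‖ ≤ (if i ∈ I then wc else 0) * _
        by_cases hi : i ∈ I
        · rw [if_pos hi]
          exact hFPhi i hi G G'
        · rw [if_neg hi, hF1 i hi, sub_self, norm_zero, zero_mul])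
  rw [hfst, hsnd, hlen] at hcoup
  have hw := ChainMix_wbound hcs hcsh hwc M J I hIJ (fun i hi => (hFI i hi).1)
  have hFl : ∀ f ∈ (List.range M).map F, Measurable f := by
    intro f hf
    obtain ⟨i, _, rfl⟩ := List.mem_map.1 hf
    exact hFm i
  have hFl' : ∀ f ∈ (List.range M).map F, ∀ G, ‖f G‖ ≤ 1 := by
    intro f hf
    obtain ⟨i, _, rfl⟩ := List.mem_map.1 hf
    exact hFb i
  -- the tail
  have htail : 2 * (2 * (M : ℝ) * Fintype.card (boxS d L) * tailG N h) ≤ δ / 8 := by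
    obtain ⟨ht0, ht1⟩ := hCt h hh hlt1
    have a2 : h * (32 * (Sm + 1) * ((Fintype.card (boxS d L) : ℝ) + 1) * Ct) ≤ δ := by
      have := l7'.le
      rw [hh7, le_div_iff₀ (by positivity)] at this
      exact this
    calc 2 * (2 * (M : ℝ) * Fintype.card (boxS d L) * tailG N h)
        ≤ 2 * (2 * (M : ℝ) * Fintype.card (boxS d L) * (Ct * h ^ 2)) :=
          mul_le_mul_of_nonneg_left (mul_le_mul_of_nonneg_left ht1 (by positivity)) (by norm_num)
      _ = 4 * ((M : ℝ) * h) * (Fintype.card (boxS d L) * Ct * h) := by ring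
      _ ≤ 4 * (Sm + 1) * (Fintype.card (boxS d L) * Ct * h) := by
          refine mul_le_mul_of_nonneg_right ?_ (by positivity)
          linarith
      _ ≤ 4 * (Sm + 1) * (((Fintype.card (boxS d L) : ℝ) + 1) * Ct * h) := by
          refine mul_le_mul_of_nonneg_left ?_ (by positivity)
          refine mul_le_mul_of_nonneg_right (mul_le_mul_of_nonneg_right ?_ hCt0.le) hh.le
          linarith
      _ ≤ δ / 8 := by nlinarith
  obtain ⟨mex, bex⟩ := exitE_facts (net := boxNet d L) (β := β) (h := h) (k := k)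
    (ν := nuT N h) hβ0 hh.le M
  obtain ⟨mγ, bγ⟩ := pathE_facts (net := boxNet d L) (β := β) (h := h) (k := k)
    (ν := stdGaussian (E N)) hβ0 hh.le ((List.range M).map F) hFl hFl'
  obtain ⟨mP1, nP1, fP1⟩ := PsiK_facts Bs P.m q1 K1 hq1 hK1 L k y hmono
  obtain ⟨mP2, nP2, fP2⟩ := PsiK_facts Bs P.m q2 K2 hq2 hK2 L k y hmono
  haveI hpr1 := chainLaw_prob (net := boxNet d L) (β := β) (h := h) (k := k)
    (ν := stdGaussian (E N)) hβ0 hh.le (Measure.pi (fun _ : boxS d L => ρ1)) n1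
  haveI hpr2 := chainLaw_prob (net := boxNet d L) (β := β) (h := h) (k := k)
    (ν := stdGaussian (E N)) hβ0 hh.le (Measure.pi (fun _ : boxS d L => ρ2)) n2
  have hfinal := ChainMix_int
    (chainLaw (boxNet d L) β h k (stdGaussian (E N)) (Measure.pi (fun _ => ρ1)) n1)
    (chainLaw (boxNet d L) β h k (stdGaussian (E N)) (Measure.pi (fun _ => ρ2)) n2)
    (fun G G' => ‖pathE (boxNet d L) β h k (stdGaussian (E N)) ((List.range M).map F) G
          - pathE (boxNet d L) β h k (stdGaussian (E N)) ((List.range M).map F) G'‖)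
    (fun G G' => norm_nonneg _) (exitE (boxNet d L) β h k (nuT N h) M) mex bex
    {G | 1 < PsiK Bs P.m q1 K1 L k y G} {G | 1 < PsiK Bs P.m q2 K2 L k y G}
    (measurableSet_lt measurable_const mP1) (measurableSet_lt measurable_const mP2) (Nz k) (Nz k)
    (cm_nz N d β h k (by omega) hβ0 hh hk ρ1 hρ1 L n1)
    (cm_nz N d β h k (by omega) hβ0 hh hk ρ2 hρ2 L n2) (δ / 4 + δ / 8) (δ / 32) ?_
    (H4 h k hh l4' hk hk1 (nuT N h) hN2 n1 M hn1 hM)
    (H5 h k hh l5' hk hk1 (nuT N h) hN2 n2 M hn2 hM)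
    (H1 h hh l1' y hy n1 hn1) (H2 h hh l2' y hy n2 hn2)
  · refine hfinal.trans ?_
    linarith
  · intro G G' hz hz'
    have hb1 := bγ G
    have hb2 := bγ G'
    have hn2' : ‖pathE (boxNet d L) β h k (stdGaussian (E N)) ((List.range M).map F) G
          - pathE (boxNet d L) β h k (stdGaussian (E N)) ((List.range M).map F) G'‖ ≤ 2 :=
      (norm_sub_le _ _).trans (by linarith)
    have he1 := (bex G).1
    have he2 := (bex G').1
    have hi1' : 0 ≤ Set.indicator {G | 1 < PsiK Bs P.m q1 K1 L k y G} (fun _ => (1 : ℝ)) G :=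
      Set.indicator_nonneg (fun _ _ => zero_le_one) _
    have hi2' : 0 ≤ Set.indicator {G | 1 < PsiK Bs P.m q2 K2 L k y G} (fun _ => (1 : ℝ)) G' :=
      Set.indicator_nonneg (fun _ _ => zero_le_one) _
    by_cases hG : 1 < PsiK Bs P.m q1 K1 L k y G
    · have e1 : Set.indicator {G | 1 < PsiK Bs P.m q1 K1 L k y G} (fun _ => (1 : ℝ)) G = 1 :=
        Set.indicator_of_mem (show G ∈ {G | 1 < PsiK Bs P.m q1 K1 L k y G} from hG) _
      rw [e1]
      linarith
    by_cases hG' : 1 < PsiK Bs P.m q2 K2 L k y G'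
    · have e1 : Set.indicator {G | 1 < PsiK Bs P.m q2 K2 L k y G} (fun _ => (1 : ℝ)) G' = 1 :=
        Set.indicator_of_mem (show G' ∈ {G | 1 < PsiK Bs P.m q2 K2 L k y G} from hG') _
      rw [e1]
      linarith
    have hPhi : PHI Bs P (boxNet d L) k y G G' o ≤ CP := by
      have g1 := fP1 G (not_lt.1 hG)
      have g2 := fP2 G' (not_lt.1 hG')
      have hK10 : 0 ≤ K1 := by linarith
      have hK20 : 0 ≤ K2 := by linarith
      refine hup k hk hk1 hBk' L y G G' (fun x => ?_) (fun x => ?_) (fun x => ?_) (fun x => ?_) o ho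
      · exact (g1 x).2.trans (ChainMix_grow hK10 ha1 hQ1 (Nat.cast_nonneg _))
      · exact (g2 x).2.trans (ChainMix_grow hK20 ha2 hQ2 (Nat.cast_nonneg _))
      · exact (g1 x).1.trans (ChainMix_grow hK10 ha1 hQ1 (Nat.cast_nonneg _))
      · exact (g2 x).1.trans (ChainMix_grow hK20 ha2 hQ2 (Nat.cast_nonneg _))
    have t1 := hcoup G G' hz hz'
    have t2 := pathE_trunc (net := boxNet d L) (k := k) hβ0 hh ((List.range M).map F) hFl hFl' G
    have t3 := pathE_trunc (net := boxNet d L) (k := k) hβ0 hh ((List.range M).map F) hFl hFl' G'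
    rw [List.length_map, List.length_range] at t2 t3
    have hwP : wsum (1 - cs * h) ((List.range M).map (fun i => if i ∈ I then wc else 0)) *
        PHI Bs P (boxNet d L) k y G G' o ≤ δ / 4 :=
      calc _ ≤ J * wc * Real.exp (-(cs * T0)) * PHI Bs P (boxNet d L) k y G G' o :=
            mul_le_mul_of_nonneg_right hw (hP0 G G')
        _ ≤ J * wc * Real.exp (-(cs * T0)) * CP :=
            mul_le_mul_of_nonneg_left hPhi (by positivity)
        _ ≤ δ / 4 := hexpT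
    have t4 : ‖pathE (boxNet d L) β h k (stdGaussian (E N)) ((List.range M).map F) G
          - pathE (boxNet d L) β h k (stdGaussian (E N)) ((List.range M).map F) G'‖ ≤
        ‖pathE (boxNet d L) β h k (nuT N h) ((List.range M).map F) G
          - pathE (boxNet d L) β h k (nuT N h) ((List.range M).map F) G'‖ +
        (2 * (M : ℝ) * Fintype.card (boxS d L) * tailG N h +
          2 * (M : ℝ) * Fintype.card (boxS d L) * tailG N h) := by
      have e1 : pathE (boxNet d L) β h k (stdGaussian (E N)) ((List.range M).map F) G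
          - pathE (boxNet d L) β h k (stdGaussian (E N)) ((List.range M).map F) G' =
        (pathE (boxNet d L) β h k (nuT N h) ((List.range M).map F) G
          - pathE (boxNet d L) β h k (nuT N h) ((List.range M).map F) G') +
        ((pathE (boxNet d L) β h k (stdGaussian (E N)) ((List.range M).map F) G
          - pathE (boxNet d L) β h k (nuT N h) ((List.range M).map F) G) -
        (pathE (boxNet d L) β h k (stdGaussian (E N)) ((List.range M).map F) G'
          - pathE (boxNet d L) β h k (nuT N h) ((List.range M).map F) G')) := by ring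
      rw [e1]
      refine (norm_add_le _ _).trans ?_
      have := norm_sub_le (pathE (boxNet d L) β h k (stdGaussian (E N)) ((List.range M).map F) G
          - pathE (boxNet d L) β h k (nuT N h) ((List.range M).map F) G)
        (pathE (boxNet d L) β h k (stdGaussian (E N)) ((List.range M).map F) G'
          - pathE (boxNet d L) β h k (nuT N h) ((List.range M).map F) G')
      linarith
    linarith

end Dyn
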