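import Pool.Agent.Lib_MP_36b788.ShDefs

/-!
# CHAREXT: laws on a product space are determined by the exponentials

PROOF. `fin`: `ech I u f` depends on `f` restricted to `I` only; the law of `f|_I` on `I → E N`, transported to an inner product
space (`PiLp 2 (fun _ : I => E N)` or `EuclideanSpace ℝ (I × Fin N)` by a linear homeomorphism), has characteristic function
`∫ ech I u`; `Measure.ext_of_charFun`. `ext`: both measures have the same marginals on all finite `I`, so they are equal
(`IsProjectiveLimit.unique`, with `P I = μ.map (restrict I)`).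
-/

open MeasureTheory ProbabilityTheory Filter
open scoped NNReal ENNReal Topology

namespace Dyn

private theorem CharExt_char {A : Type} {N : ℕ} (μ : Measure (A → E N)) (I : Finset A)
    (t : PiLp 2 (fun _ : I => E N)) (u : A → E N) (hu : ∀ q : I, u q = t q) :
    charFun ((μ.map (fun f (q : I) => f q)).map (MeasurableEquiv.toLp 2 (I → E N))) t =
      ∫ f, ech I u f ∂μ := by
  have hR : Measurable (fun (f : A → E N) (q : I) => f q) := by fun_prop
  rw [charFun_apply, integral_map_equiv, integral_map hR.aemeasurable]
  · refine integral_congr_ae (ae_of_all _ fun f => ?_)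
    simp only [ech, MeasurableEquiv.coe_toLp]
    rw [PiLp.inner_apply, mul_comm]
    congr 3
    rw [← Finset.sum_coe_sort I (fun q => (inner ℝ (u q) (f q) : ℝ))]
    refine Finset.sum_congr rfl fun q _ => ?_
    rw [hu q, real_inner_comm]
  · refine Measurable.aestronglyMeasurable ?_
    simp only [MeasurableEquiv.coe_toLp, PiLp.inner_apply]
    fun_prop

theorem char_fin {A : Type} {N : ℕ} (μ ν : Measure (A → E N)) [IsProbabilityMeasure μ]
    [IsProbabilityMeasure ν] (I : Finset A)
    (h : ∀ u, ∫ f, ech I u f ∂μ = ∫ f, ech I u f ∂ν) :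
    μ.map (fun f (q : I) => f q) = ν.map (fun f (q : I) => f q) := by
  classical
  have hR : Measurable (fun (f : A → E N) (q : I) => f q) := by fun_prop
  have i1 : IsProbabilityMeasure (μ.map (fun f (q : I) => f q)) :=
    Measure.isProbabilityMeasure_map hR.aemeasurable
  have i2 : IsProbabilityMeasure (ν.map (fun f (q : I) => f q)) :=
    Measure.isProbabilityMeasure_map hR.aemeasurable
  refine (MeasurableEquiv.toLp 2 (I → E N)).map_measurableEquiv_injective
      <| Measure.ext_of_charFun <| funext fun t ↦ ?_
  obtain ⟨u, hu⟩ : ∃ u : A → E N, ∀ q : I, u q = t q :=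
    ⟨fun q : A => if hq : q ∈ I then t ⟨q, hq⟩ else 0, fun q => by simp⟩
  rw [CharExt_char μ I t u hu, CharExt_char ν I t u hu, h]

theorem char_ext {A : Type} {N : ℕ} (μ ν : Measure (A → E N)) [IsProbabilityMeasure μ]
    [IsProbabilityMeasure ν] (h : ∀ I u, ∫ f, ech I u f ∂μ = ∫ f, ech I u f ∂ν) : μ = ν := by
  have h1 : IsProjectiveLimit μ (fun I : Finset A => μ.map I.restrict) := fun I => rfl
  have h2 : IsProjectiveLimit ν (fun I : Finset A => μ.map I.restrict) := fun I =>
    (char_fin μ ν I (h I)).symm
  have h3 : ∀ I : Finset A, IsFiniteMeasure (μ.map I.restrict) := fun I => inferInstance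
  exact h1.unique h2

end Dyn
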