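import Pool.Agent.Lib_MP_36b788.MSF

/-!
# CHARMIX: mixing in time at the level of exponentials

PROOF. `prod`: `ech I u f * ech J v (shiftST T 0 f) = ech K w f` for all `f`, with `J' = J.image (fun q => (q.1 + T, q.2))`, `K = I ∪ J'`,
`w q = (if q ∈ I then u q else 0) + (if q ∈ J' then v (q.1 - T, q.2) else 0)` (exponential of a sum; `q ↦ (q.1+T, q.2)` is injective).
Let `τ = Σ_{q∈I} q.1` (so `q.1 ≤ τ` for `q ∈ I`), `δ > 0`, `T0` from `MixProp` with `S1 = S2 = S`, test functional `J, v`. Let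
`T ≥ T0 + τ`. For every `t`: `Z = Xf' S.H I u t` is `ℱ(t+τ)`-measurable (`adapted`, `ℱ.mono`), `‖Z‖ = 1`; `MixProp` with `s1 = s2 = t+τ` and `T - τ`:
`‖∫Xf' I u t·Xf' J v (t+T) - ∫Xf' I u t·∫Xf' J v (t+T)‖ ≤ δ`. Let `t → ∞`, `T` fixed: the first integral is `∫ech K w (H_{t+·})` and
converges to `∫ech K w dμ`; the others converge to `∫ech I u dμ` and `∫ech J v dμ` (`t+T → ∞`). Closedness of `≤`:
`‖∫ech I u f·ech J v(shift_T f)dμ - …‖ ≤ δ` for all `T ≥ T0+τ`.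
-/

open MeasureTheory ProbabilityTheory Filter
open scoped NNReal ENNReal Topology

namespace Dyn

theorem ech_prod {N d : ℕ} (I J : Finset (ℝ≥0 × Site d)) (u v : ℝ≥0 × Site d → E N) (T : ℝ≥0) :
    ∃ (K : Finset (ℝ≥0 × Site d)) (w : ℝ≥0 × Site d → E N), ∀ f,
      ech I u f * ech J v (shiftST T 0 f) = ech K w f := by
  classical
  obtain ⟨φ, hφd⟩ : ∃ φ : ℝ≥0 × Site d → ℝ≥0 × Site d, φ = fun q => (q.1 + T, q.2) := ⟨_, rfl⟩
  have hφ : Function.Injective φ := by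
    rintro ⟨a, x⟩ ⟨b, y⟩ h
    rw [hφd] at h
    simp only [Prod.mk.injEq, add_left_inj] at h
    obtain ⟨rfl, rfl⟩ := h
    rfl
  refine ⟨I ∪ J.image φ, fun q => (if q ∈ I then u q else 0) +
    (if q ∈ J.image φ then v (q.1 - T, q.2) else 0), fun f => ?_⟩
  unfold ech
  rw [← Complex.exp_add, ← mul_add, ← Complex.ofReal_add]
  congr 3
  have h1 : ∀ q : ℝ≥0 × Site d, (inner ℝ ((if q ∈ I then u q else 0) +
      (if q ∈ J.image φ then v (q.1 - T, q.2) else 0)) (f q) : ℝ) =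
      (if q ∈ I then (inner ℝ (u q) (f q) : ℝ) else 0) +
      (if q ∈ J.image φ then (inner ℝ (v (q.1 - T, q.2)) (f q) : ℝ) else 0) := by
    intro q
    rw [inner_add_left]
    congr 1
    · split_ifs
      · rfl
      · exact inner_zero_left _
    · split_ifs
      · rfl
      · exact inner_zero_left _
  simp only [h1]
  rw [Finset.sum_add_distrib, Finset.sum_ite_mem, Finset.sum_ite_mem,
    Finset.union_inter_cancel_left, Finset.union_inter_cancel_right,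
    Finset.sum_image hφ.injOn]
  congr 1
  refine Finset.sum_congr rfl fun q _ => ?_
  rw [hφd]
  simp only [shiftST, add_tsub_cancel_right, add_zero]

private theorem CharMix_meas {Ω : Type} [MeasurableSpace Ω] {N d : ℕ}
    (H : ℝ≥0 → Site d → Ω → E N) (I : Finset (ℝ≥0 × Site d)) (u : ℝ≥0 × Site d → E N)
    (t : ℝ≥0) (hH : ∀ q ∈ I, Measurable (H (t + q.1) q.2)) : Measurable (Xf' H I u t) := by
  unfold Xf'
  refine Complex.measurable_exp.comp (Measurable.const_mul ?_ _)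
  refine Complex.measurable_ofReal.comp (Finset.measurable_fun_sum _ fun q hq => ?_)
  exact (measurable_const (a := u q)).inner (hH q hq)

theorem char_mix {N d : ℕ} {k β : ℝ} (hM : MixProp N d k β)
    (μ : Measure (ℝ≥0 × Site d → E N)) [IsProbabilityMeasure μ] (S : Sol N d k 1 β)
    (h : ∀ I u, Tendsto (fun t : ℝ≥0 => ∫ ω, Xf' S.H I u t ω ∂S.P) atTop
      (𝓝 (∫ f, ech I u f ∂μ)))
    (I : Finset (ℝ≥0 × Site d)) (u : ℝ≥0 × Site d → E N) (J : Finset (ℝ≥0 × Site d))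
    (v : ℝ≥0 × Site d → E N) :
    Tendsto (fun T : ℝ≥0 => ∫ f, ech I u f * ech J v (shiftST T 0 f) ∂μ) atTop
      (𝓝 ((∫ f, ech I u f ∂μ) * ∫ f, ech J v f ∂μ)) := by
  rw [Metric.tendsto_atTop]
  intro ε hε
  obtain ⟨T0, hT0⟩ := hM S S J v (ε / 2) (half_pos hε)
  obtain ⟨τ, hτ⟩ : ∃ τ : ℝ≥0, τ = ∑ q ∈ I, q.1 := ⟨_, rfl⟩
  refine ⟨T0 + τ, fun T hT => ?_⟩
  rw [dist_eq_norm]
  refine lt_of_le_of_lt ?_ (half_lt_self hε)
  obtain ⟨K, w, hw⟩ := ech_prod I J u v T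
  simp only [hw]
  have hlim : Tendsto (fun t : ℝ≥0 => (∫ ω, Xf' S.H K w t ω ∂S.P) -
      (∫ ω, Xf' S.H I u t ω ∂S.P) * ∫ ω, Xf' S.H J v (t + T) ω ∂S.P) atTop
      (𝓝 ((∫ f, ech K w f ∂μ) - (∫ f, ech I u f ∂μ) * ∫ f, ech J v f ∂μ)) :=
    (h K w).sub ((h I u).mul ((h J v).comp (tendsto_atTop_mono (fun _ => le_self_add) tendsto_id)))
  refine le_of_tendsto hlim.norm (Eventually.of_forall fun t => ?_)
  have hτT : τ ≤ T := le_trans (le_add_of_nonneg_left zero_le) hT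
  have hm : Measurable[S.ℱ (t + τ)] (Xf' S.H I u t) := by
    refine @CharMix_meas S.Ω (S.ℱ (t + τ)) N d S.H I u t fun q hq => ?_
    have h1 : q.1 ≤ τ := by
      rw [hτ]
      exact Finset.single_le_sum (f := fun q : ℝ≥0 × Site d => q.1)
        (fun q _ => zero_le) hq
    exact (S.dyn.adapted (t + q.1) q.2).mono (S.ℱ.mono (add_le_add_right h1 t)) le_rfl
  have hn : ∀ ω, ‖Xf' S.H I u t ω‖ ≤ 1 := by
    intro ω
    rw [Xf'_eq, ech_norm]
  have h1 := hT0 (T - τ) (le_tsub_of_add_le_right hT) (t + τ) (t + τ) (Xf' S.H I u t) hm hn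
  have h2 : t + τ + (T - τ) = t + T := by rw [add_assoc, add_tsub_cancel_of_le hτT]
  rw [h2] at h1
  have h3 : ∀ ω, Xf' S.H K w t ω = Xf' S.H I u t ω * Xf' S.H J v (t + T) ω := by
    intro ω
    rw [Xf'_eq, Xf'_eq, Xf'_eq, ← hw]
    congr 2
    funext q
    simp only [shiftST, add_zero]
    rw [add_comm q.1 T, ← add_assoc]
  simp only [h3]
  exact h1

end Dyn
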