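import Pool.Agent.Lib_MP_36b788.JMap

/-!
# Poisson corrector: definitions

`T0 f (r) = E[ f(R) cos φ ]` where a site of size `r` in direction `e` makes one step without
interaction: `q = e + √h ξ`, `R = ψ(r‖q‖)`, `cos φ = ⟪e,q⟫/‖q‖`.
The corrector is the fixed point `y = h r⁺ + T0 y`.
-/

open MeasureTheory

namespace Dyn

noncomputable section

/-- one-step operator on radial profiles -/
def T0 {N : ℕ} (β h : ℝ) (ν : Measure (E N)) (e : E N) (f : ℝ → ℝ) (r : ℝ) : ℝ :=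
  ∫ ξ, f (psi β h (r * ‖e + Real.sqrt h • ξ‖)) *
    (inner ℝ e (e + Real.sqrt h • ξ) / ‖e + Real.sqrt h • ξ‖) ∂ν

/-- profiles used: nonnegative, monotone, `f(r)/r` nonincreasing -/
structure Prof (f : ℝ → ℝ) : Prop where
  nonneg : ∀ r, 0 ≤ f r
  mono : Monotone f
  ratio : ∀ r r', 0 < r → r ≤ r' → f r' * r ≤ f r * r'

/-- the properties of the corrector profile `y` -/
structure IsCorr (N : ℕ) (β h : ℝ) (ν : Measure (E N)) (δ Cy : ℝ) (y : ℝ → ℝ) : Prop where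
  prof : Prof y
  zero : ∀ r, r ≤ 0 → y r = 0
  bdd : ∀ r, 0 ≤ r → y r ≤ Cy * (1 + h * r)
  small : ∀ r, 0 < r → r ≤ 1 → y r ≤ Cy * r * (1 + Real.log (1 / r))
  lower : ∀ r r', 0 ≤ r → r ≤ r' → δ * (th (β - 1) r' - th (β - 1) r) ≤ y r' - y r
  eqn : ∀ g : E N, g ≠ 0 →
    ∫ ξ, (y ‖hat β h g ξ‖ / ‖hat β h g ξ‖) • hat β h g ξ ∂ν = (y ‖g‖ / ‖g‖) • g - h • g

/-- corrector without cut off -/
def cfull {N : ℕ} (y : ℝ → ℝ) (g : E N) : E N := (y ‖g‖ / ‖g‖) • g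

end

end Dyn
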