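import Pool.Agent.Lib_MP_36b788.CorrT0

/-!
# CLOW: the subsolution `δ ϑ`

`s = β-1`, `ϑ = th s`. CLAIM: for small `δ` the function `D(r) = h r + δ T0 ϑ (r) - δ ϑ(r)` is
nonnegative and nondecreasing on `[0,∞)`.

PROOF. `D(0) = 0` so it is enough that it is nondecreasing. For `0 ≤ r < r'` and fixed `ξ`,
with `ζ = ‖q‖`, `ϑ(ψ(r'ζ)) - ϑ(ψ(rζ)) = ∫_r^{r'} ϑ'(ψ(vζ)) ζ ψ'(vζ) dv`,
`ψ'(w) = 1/(1+h(1+β)ψ(w)^β)` (`psi_hasDerivAt`). So it suffices that for every `v > 0`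
`∫ ϑ'(ψ(vζ)) ζ ψ'(vζ) cos φ dν ≥ ϑ'(v) - C h` (then Fubini, or monotonicity of
`v ↦ ...` by comparing derivatives), because then
`D(r') - D(r) ≥ ∫_r^{r'} (h - δ C h) dv ≥ 0` for `δ ≤ 1/C`.
With `R = ψ(vζ) ≤ vζ`, `ϑ'(R) = s(1+R)^(-β)`:
* `ψ'(vζ) ≥ 1 - h(1+β)R^β`, and `R^βϑ'(R) ≤ s`; so
  `ϑ'(R)ζψ'cos φ ≥ ϑ'(R)ζcos φ - h(1+β)s ζ cos φ`, and `∫ζcos φ = ∫⟪e,q⟫ = 1`.
* `ϑ'(R) ≥ ϑ'(vζ) ≥ s[(1+v)^(-β) - β(1+v)^(-β-1) v(ζ-1)]` (convexity of `t ↦ (1+t)^(-β)`, tangent at `v`).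
  Multiply by `ζcos φ = ⟪e,q⟫ = 1+√h⟪e,ξ⟫ > 0`: the mean of the first part is `ϑ'(v)`; for the second
  `ζ - 1 ≤ √h⟪e,ξ⟫ + ½h‖ξ‖²`, so `∫⟪e,q⟫(ζ-1) ≤ h∫⟪e,ξ⟫² + ½h∫‖ξ‖² + (odd = 0) ≤ (1+N/2) h`
  (if the mean is negative even better), and `β s v (1+v)^(-β-1) ≤ β s`.
Total: `≥ ϑ'(v) - h[(1+β)s + βs(1+N/2)]`.
-/

open MeasureTheory

namespace Dyn

theorem CorrLow_th_deriv (s r : ℝ) (hr : 0 ≤ r) : HasDerivAt (th s) (s * (1 + r) ^ (-s - 1)) r := by
  have h1 : HasDerivAt (fun r : ℝ => 1 + r) 1 r := (hasDerivAt_id r).const_add 1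
  have h2 := h1.rpow_const (p := -s) (Or.inl (by positivity : (1 : ℝ) + r ≠ 0))
  have h3 := h2.const_sub 1
  have h4 : -(1 * -s * (1 + r) ^ (-s - 1)) = s * (1 + r) ^ (-s - 1) := by ring
  rw [h4] at h3
  exact h3

theorem CorrLow_th_bd (s r : ℝ) (hs : 0 ≤ s) (hr : 0 ≤ r) : 0 ≤ th s r ∧ th s r ≤ 1 := by
  unfold th
  have h1 : (1 + r) ^ (-s) ≤ 1 := Real.rpow_le_one_of_one_le_of_nonpos (by linarith) (by linarith)
  have h2 : 0 < (1 + r) ^ (-s) := by positivity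
  constructor <;> linarith

/-- antiderivative of `s β v (1 + v) ^ (-β-1)`, `s = β - 1` -/
noncomputable def CorrLow_K (β v : ℝ) : ℝ := th (β - 1) v - (β - 1) * (v * (1 + v) ^ (-β))

theorem CorrLow_K_deriv (β v : ℝ) (hv : 0 ≤ v) :
    HasDerivAt (CorrLow_K β) ((β - 1) * β * v * (1 + v) ^ (-β - 1)) v := by
  have h1 : HasDerivAt (fun r : ℝ => 1 + r) 1 v := (hasDerivAt_id v).const_add 1
  have h2 := h1.rpow_const (p := -β) (Or.inl (by positivity : (1 : ℝ) + v ≠ 0))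
  have h3 := ((hasDerivAt_id v).mul h2).const_mul (β - 1)
  have h4 := (CorrLow_th_deriv (β - 1) v hv).sub h3
  refine h4.congr_deriv ?_
  have h5 : -(β - 1) - 1 = -β := by ring
  rw [h5]
  simp only [id]
  ring

theorem CorrLow_K_bd (β : ℝ) (hβ : 1 < β) (v : ℝ) (hv : 0 ≤ v) :
    0 ≤ (β - 1) * β * v * (1 + v) ^ (-β - 1) ∧ (β - 1) * β * v * (1 + v) ^ (-β - 1) ≤ (β - 1) * β := by
  have hs : 0 < β - 1 := by linarith
  have h1 : 0 < (1 + v) ^ (-β - 1) := by positivity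
  refine ⟨by positivity, ?_⟩
  have h2 : v * (1 + v) ^ (-β - 1) ≤ 1 := by
    have h3 : (1 + v) ^ (-β - 1) ≤ (1 + v) ^ (-1 : ℝ) := by
      apply Real.rpow_le_rpow_of_exponent_le (by linarith) (by linarith)
    rw [Real.rpow_neg_one] at h3
    calc v * (1 + v) ^ (-β - 1) ≤ (1 + v) * (1 + v)⁻¹ :=
          mul_le_mul (by linarith) h3 h1.le (by linarith)
      _ = 1 := mul_inv_cancel₀ (by positivity)
  calc (β - 1) * β * v * (1 + v) ^ (-β - 1) = (β - 1) * β * (v * (1 + v) ^ (-β - 1)) := by ring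
    _ ≤ (β - 1) * β * 1 := mul_le_mul_of_nonneg_left h2 (by positivity)
    _ = (β - 1) * β := mul_one _

theorem CorrLow_K_mono (β : ℝ) (hβ : 1 < β) {r r' : ℝ} (hr : 0 ≤ r) (hrr : r ≤ r') :
    0 ≤ CorrLow_K β r' - CorrLow_K β r ∧ CorrLow_K β r' - CorrLow_K β r ≤ (β - 1) * β * (r' - r) := by
  have hc : ContinuousOn (CorrLow_K β) (Set.Ici 0) := fun v hv => (CorrLow_K_deriv β v hv).continuousAt.continuousWithinAt
  have hd : ∀ v ∈ interior (Set.Ici (0 : ℝ)), HasDerivAt (CorrLow_K β) ((β - 1) * β * v * (1 + v) ^ (-β - 1)) v := by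
    intro v hv
    rw [interior_Ici] at hv
    exact CorrLow_K_deriv β v (le_of_lt hv)
  constructor
  · have h1 : MonotoneOn (CorrLow_K β) (Set.Ici 0) := by
      apply monotoneOn_of_deriv_nonneg (convex_Ici 0) hc
      · intro v hv
        exact (hd v hv).differentiableAt.differentiableWithinAt
      · intro v hv
        rw [(hd v hv).deriv]
        rw [interior_Ici] at hv
        exact (CorrLow_K_bd β hβ v (le_of_lt hv)).1
    have := h1 (Set.mem_Ici.2 hr) (Set.mem_Ici.2 (hr.trans hrr)) hrr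
    linarith
  · have h1 : MonotoneOn (fun v => (β - 1) * β * v - CorrLow_K β v) (Set.Ici 0) := by
      apply monotoneOn_of_deriv_nonneg (convex_Ici 0)
      · exact (continuous_const.mul continuous_id).continuousOn.sub hc
      · intro v hv
        exact (((hasDerivAt_id v).const_mul ((β - 1) * β)).sub (hd v hv)).differentiableAt.differentiableWithinAt
      · intro v hv
        have h2 := ((hasDerivAt_id v).const_mul ((β - 1) * β)).sub (hd v hv)
        have h3 : deriv (fun v => (β - 1) * β * v - CorrLow_K β v) v =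
            (β - 1) * β * 1 - (β - 1) * β * v * (1 + v) ^ (-β - 1) := h2.deriv
        rw [h3]
        rw [interior_Ici] at hv
        have := (CorrLow_K_bd β hβ v (le_of_lt hv)).2
        linarith
    have := h1 (Set.mem_Ici.2 hr) (Set.mem_Ici.2 (hr.trans hrr)) hrr
    simp only at this
    linarith

/-- tangent of `t ↦ (1 + t) ^ (-β)` -/
theorem CorrLow_tangent (β : ℝ) (hβ : 1 < β) (v t : ℝ) (hv : 0 ≤ v) (ht : 0 ≤ t) :
    (1 + v) ^ (-β) - β * (1 + v) ^ (-β - 1) * (t - v) ≤ (1 + t) ^ (-β) := by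
  have hv1 : (0 : ℝ) < 1 + v := by linarith
  have ht1 : (0 : ℝ) < 1 + t := by linarith
  set x : ℝ := (1 + t) / (1 + v) with hx
  have hx0 : 0 < x := by positivity
  have h1 : (1 + t) ^ (-β) = (1 + v) ^ (-β) * x ^ (-β) := by
    rw [← Real.mul_rpow hv1.le hx0.le, hx]
    congr 1
    field_simp
  have h2 : 1 - β * (x - 1) ≤ x ^ (-β) := by
    rw [Real.rpow_def_of_pos hx0]
    have h3 := Real.add_one_le_exp (Real.log x * -β)
    have h4 := Real.log_le_sub_one_of_pos hx0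
    nlinarith
  have h3 : (1 + v) ^ (-β - 1) = (1 + v) ^ (-β) / (1 + v) := by
    rw [Real.rpow_sub_one hv1.ne']
  rw [h1, h3]
  have h4 : (1 + v) ^ (-β) - β * ((1 + v) ^ (-β) / (1 + v)) * (t - v) = (1 + v) ^ (-β) * (1 - β * (x - 1)) := by
    rw [hx]
    field_simp
    ring
  rw [h4]
  exact mul_le_mul_of_nonneg_left h2 (by positivity)

/-- the pointwise inequality -/
theorem CorrLow_point (β h : ℝ) (hβ : 1 < β) (hh : 0 < h) (ζ c : ℝ) (hζ : 0 < ζ) (hc : 0 ≤ c) {r r' : ℝ}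
    (hr : 0 ≤ r) (hrr : r ≤ r') :
    c * ((th (β - 1) r' - th (β - 1) r) - h * (1 + β) * (β - 1) * (r' - r)) -
      c * (ζ - 1) * (CorrLow_K β r' - CorrLow_K β r) ≤
      th (β - 1) (psi β h (r' * ζ)) * (c / ζ) - th (β - 1) (psi β h (r * ζ)) * (c / ζ) := by
  have hβ0 : 0 < β := by linarith
  have hs : 0 < β - 1 := by linarith
  set F : ℝ → ℝ := fun v => th (β - 1) (psi β h (v * ζ)) * (c / ζ) - c * (th (β - 1) v - h * (1 + β) * (β - 1) * v) +
    c * (ζ - 1) * CorrLow_K β v with hF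
  suffices hmono : MonotoneOn F (Set.Ici 0) by
    have := hmono (Set.mem_Ici.2 hr) (Set.mem_Ici.2 (hr.trans hrr)) hrr
    simp only [hF] at this
    nlinarith
  have hthc : ContinuousOn (th (β - 1)) (Set.Ici 0) := fun v hv =>
    (CorrLow_th_deriv (β - 1) v hv).continuousAt.continuousWithinAt
  have hKc : ContinuousOn (CorrLow_K β) (Set.Ici 0) := fun v hv =>
    (CorrLow_K_deriv β v hv).continuousAt.continuousWithinAt
  have hder : ∀ v : ℝ, 0 < v → HasDerivAt F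
      ((β - 1) * (1 + psi β h (v * ζ)) ^ (-(β - 1) - 1) * (1 / (1 + h * (1 + β) * psi β h (v * ζ) ^ β) * (1 * ζ)) * (c / ζ) -
        c * ((β - 1) * (1 + v) ^ (-(β - 1) - 1) - h * (1 + β) * (β - 1) * 1) +
        c * (ζ - 1) * ((β - 1) * β * v * (1 + v) ^ (-β - 1))) v := by
    intro v hv
    have h1 : HasDerivAt (fun v => v * ζ) (1 * ζ) v := (hasDerivAt_id v).mul_const ζ
    have h2 : HasDerivAt (psi β h) (1 / (1 + h * (1 + β) * psi β h (v * ζ) ^ β)) (v * ζ) :=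
      psi_hasDerivAt hβ0 hh.le (by positivity)
    have h3 := h2.comp v h1
    have h4' : HasDerivAt (th (β - 1)) ((β - 1) * (1 + psi β h (v * ζ)) ^ (-(β - 1) - 1))
        ((psi β h ∘ fun v => v * ζ) v) := CorrLow_th_deriv (β - 1) (psi β h (v * ζ)) (psi_nonneg _ _ _)
    have h4 := h4'.comp v h3
    have h5 := CorrLow_th_deriv (β - 1) v hv.le
    have h6 := CorrLow_K_deriv β v hv.le
    exact ((h4.mul_const (c / ζ)).sub ((h5.sub ((hasDerivAt_id v).const_mul (h * (1 + β) * (β - 1)))).const_mul c)).add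
      (h6.const_mul (c * (ζ - 1)))
  apply monotoneOn_of_deriv_nonneg (convex_Ici 0)
  · have h1 : ContinuousOn (fun v => th (β - 1) (psi β h (v * ζ))) (Set.Ici 0) := by
      apply hthc.comp
      · exact ((psi_continuous hβ0 hh.le).comp (continuous_id.mul continuous_const)).continuousOn
      · intro v _
        exact psi_nonneg _ _ _
    exact ((h1.mul continuousOn_const).sub (continuousOn_const.mul
      (hthc.sub (continuous_const.mul continuous_id).continuousOn))).add (continuousOn_const.mul hKc)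
  · intro v hv
    rw [interior_Ici] at hv
    exact (hder v hv).differentiableAt.differentiableWithinAt
  · intro v hv
    rw [interior_Ici] at hv
    have hv0 : 0 < v := hv
    rw [(hder v hv).deriv]
    set R := psi β h (v * ζ) with hR
    have hR0 : 0 ≤ R := psi_nonneg _ _ _
    have hRle : R ≤ v * ζ := psi_le hβ0 hh.le (by positivity)
    have e1 : -(β - 1) - 1 = -β := by ring
    rw [e1]
    have e2 : (β - 1) * (1 + R) ^ (-β) * (1 / (1 + h * (1 + β) * R ^ β) * (1 * ζ)) * (c / ζ) =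
        c * ((β - 1) * ((1 + R) ^ (-β) * (1 / (1 + h * (1 + β) * R ^ β)))) := by
      field_simp
    rw [e2]
    have hRb : 0 ≤ R ^ β := Real.rpow_nonneg hR0 β
    have h1R : 0 < (1 + R) ^ (-β) := by positivity
    -- derivative of psi
    have h1 : 1 - h * (1 + β) * R ^ β ≤ 1 / (1 + h * (1 + β) * R ^ β) := by
      have h2 : 0 ≤ h * (1 + β) * R ^ β := by positivity
      rw [le_div_iff₀ (by linarith)]
      nlinarith [sq_nonneg (h * (1 + β) * R ^ β)]
    have h2 : (1 + R) ^ (-β) * R ^ β ≤ 1 := by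
      rw [Real.rpow_neg (by linarith), inv_mul_le_iff₀ (by positivity), mul_one]
      exact Real.rpow_le_rpow hR0 (by linarith) hβ0.le
    have h3 : (1 + R) ^ (-β) - h * (1 + β) ≤ (1 + R) ^ (-β) * (1 / (1 + h * (1 + β) * R ^ β)) := by
      have h4 := mul_le_mul_of_nonneg_left h1 h1R.le
      have h5 : h * (1 + β) * ((1 + R) ^ (-β) * R ^ β) ≤ h * (1 + β) * 1 :=
        mul_le_mul_of_nonneg_left h2 (by positivity)
      nlinarith
    have h4 : (1 + v * ζ) ^ (-β) ≤ (1 + R) ^ (-β) := by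
      apply Real.rpow_le_rpow_of_nonpos (by linarith) (by linarith) (by linarith)
    have h5 := CorrLow_tangent β hβ v (v * ζ) hv0.le (by positivity)
    have h6 : (1 + v) ^ (-β) - β * (1 + v) ^ (-β - 1) * (v * ζ - v) - h * (1 + β) ≤
        (1 + R) ^ (-β) * (1 / (1 + h * (1 + β) * R ^ β)) := by linarith
    have h7 : 0 ≤ c * (β - 1) := by positivity
    have h8 := mul_le_mul_of_nonneg_left h6 h7
    nlinarith

section noise

variable {N : ℕ} {h : ℝ} {ν : Measure (E N)}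

theorem CorrLow_int (hh : 0 < h) (hν : IsNoise h ν) (F : E N → ℝ) (hF : Measurable F) (B : ℝ)
    (hB : ∀ ξ, ‖ξ‖ ≤ h ^ (3 / 8 : ℝ) / Real.sqrt h → ‖F ξ‖ ≤ B) : Integrable F ν := by
  have := hν.prob
  refine Integrable.of_bound hF.aestronglyMeasurable B ?_
  filter_upwards [hν.bdd] with ξ hξ
  apply hB
  rw [le_div_iff₀ (Real.sqrt_pos.2 hh)]
  linarith

end noise

theorem corr_low (N : ℕ) (β : ℝ) (hN : 2 ≤ N) (hβ : 1 < β) :
    ∃ δ h0 : ℝ, 0 < δ ∧ 0 < h0 ∧
      ∀ (h : ℝ) (ν : Measure (E N)), 0 < h → h < h0 → IsNoise h ν → ∀ e : E N, ‖e‖ = 1 →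
        ∀ r r', 0 ≤ r → r ≤ r' →
          h * r + δ * T0 β h ν e (fun r => th (β - 1) (max r 0)) r - δ * th (β - 1) r ≤
          h * r' + δ * T0 β h ν e (fun r => th (β - 1) (max r 0)) r' - δ * th (β - 1) r' := by
  have hβ0 : 0 < β := by linarith
  have hs : 0 < β - 1 := by linarith
  have hN0 : (0 : ℝ) < N := by exact_mod_cast (by omega : 0 < N)
  set C : ℝ := (1 + β) * (β - 1) + (1 + N / 2) * ((β - 1) * β) with hC
  have hC0 : 0 < C := by positivity
  refine ⟨1 / C, 1, by positivity, one_pos, ?_⟩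
  intro h ν hh hh1 hν e he r r' hr hrr
  have := hν.prob
  have hsq : 0 < Real.sqrt h := Real.sqrt_pos.2 hh
  have hsqsq : Real.sqrt h * Real.sqrt h = h := Real.mul_self_sqrt hh.le
  set M : ℝ := h ^ (3 / 8 : ℝ) / Real.sqrt h with hM
  have hM0 : 0 < M := by positivity
  have hl1 : h ^ (3 / 8 : ℝ) < 1 := Real.rpow_lt_one hh.le hh1 (by norm_num)
  -- pointwise facts
  have hq : ∀ ξ : E N, inner ℝ e (e + Real.sqrt h • ξ) = 1 + Real.sqrt h * inner ℝ e ξ := by
    intro ξ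
    rw [inner_add_right, inner_smul_right, real_inner_self_eq_norm_sq, he]
    ring
  have hin : ∀ ξ : E N, |(inner ℝ e ξ : ℝ)| ≤ ‖ξ‖ := by
    intro ξ
    have := abs_real_inner_le_norm e ξ
    rwa [he, one_mul] at this
  have hpos : ∀ᵐ ξ ∂ν, 0 < 1 + Real.sqrt h * (inner ℝ e ξ : ℝ) ∧ 0 < ‖e + Real.sqrt h • ξ‖ := by
    filter_upwards [hν.bdd] with ξ hξ
    have h1 := (abs_le.1 (hin ξ)).1
    have h2 : 0 < 1 + Real.sqrt h * (inner ℝ e ξ : ℝ) := by
      have : Real.sqrt h * (-‖ξ‖) ≤ Real.sqrt h * (inner ℝ e ξ : ℝ) := mul_le_mul_of_nonneg_left h1 hsq.le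
      linarith
    refine ⟨h2, ?_⟩
    rw [norm_pos_iff]
    intro h3
    have h4 := hq ξ
    rw [h3, inner_zero_right] at h4
    linarith
  -- measurability
  have mq : Measurable (fun ξ : E N => e + Real.sqrt h • ξ) := by fun_prop
  have mz : Measurable (fun ξ : E N => ‖e + Real.sqrt h • ξ‖) := mq.norm
  have mi : Measurable (fun ξ : E N => (inner ℝ e ξ : ℝ)) := by fun_prop
  have miq : Measurable (fun ξ : E N => (inner ℝ e (e + Real.sqrt h • ξ) : ℝ)) := by fun_prop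
  have hthc : Continuous (fun r : ℝ => th (β - 1) (max r 0)) := by
    rw [continuous_iff_continuousAt]
    intro x
    have h1 : ContinuousAt (th (β - 1)) (max x 0) :=
      (CorrLow_th_deriv (β - 1) (max x 0) (le_max_right _ _)).continuousAt
    exact ContinuousAt.comp (f := fun r : ℝ => max r 0) h1 (by fun_prop)
  have intT : ∀ r : ℝ, Integrable (fun ξ : E N => th (β - 1) (max (psi β h (r * ‖e + Real.sqrt h • ξ‖)) 0) *
      ((inner ℝ e (e + Real.sqrt h • ξ) : ℝ) / ‖e + Real.sqrt h • ξ‖)) ν := by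
    intro r
    apply CorrLow_int hh hν _ _ 1
    · intro ξ _
      rw [norm_mul, Real.norm_eq_abs, Real.norm_eq_abs]
      have h1 := CorrLow_th_bd (β - 1) (max (psi β h (r * ‖e + Real.sqrt h • ξ‖)) 0) hs.le (le_max_right _ _)
      rw [abs_of_nonneg h1.1]
      have h2 : |(inner ℝ e (e + Real.sqrt h • ξ) : ℝ) / ‖e + Real.sqrt h • ξ‖| ≤ 1 := by
        rw [abs_div, abs_norm]
        apply div_le_one_of_le₀ _ (norm_nonneg _)
        have := abs_real_inner_le_norm e (e + Real.sqrt h • ξ)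
        rwa [he, one_mul] at this
      calc _ ≤ (1 : ℝ) * 1 := mul_le_mul h1.2 h2 (abs_nonneg _) zero_le_one
        _ = 1 := one_mul 1
    · apply Measurable.mul
      · have h1 : Measurable (fun v : ℝ => th (β - 1) (max (psi β h v) 0)) :=
          (hthc.comp (psi_continuous hβ0 hh.le)).measurable
        exact h1.comp (mz.const_mul r)
      · exact miq.div mz
  -- moments
  have int1 : Integrable (fun ξ : E N => (inner ℝ e ξ : ℝ)) ν :=
    CorrLow_int hh hν _ mi M fun ξ hξ => (hin ξ).trans hξ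
  have int2 : Integrable (fun ξ : E N => ‖ξ‖ ^ 2) ν := by
    apply CorrLow_int hh hν _ (measurable_norm.pow_const 2) (M ^ 2)
    intro ξ hξ
    rw [Real.norm_eq_abs, abs_of_nonneg (by positivity)]
    exact pow_le_pow_left₀ (norm_nonneg _) hξ 2
  have int3 : Integrable (fun ξ : E N => (inner ℝ e ξ : ℝ) ^ 2) ν := by
    apply CorrLow_int hh hν _ (mi.pow_const 2) (M ^ 2)
    intro ξ hξ
    rw [Real.norm_eq_abs, abs_of_nonneg (by positivity), ← sq_abs]
    exact pow_le_pow_left₀ (abs_nonneg _) ((hin ξ).trans hξ) 2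
  have m4 : Measurable (fun ξ : E N => (inner ℝ e ξ : ℝ) * ‖ξ‖ ^ 2) := mi.mul (measurable_norm.pow_const 2)
  have int4 : Integrable (fun ξ : E N => (inner ℝ e ξ : ℝ) * ‖ξ‖ ^ 2) ν := by
    apply CorrLow_int hh hν _ m4 (M * M ^ 2)
    intro ξ hξ
    rw [norm_mul, Real.norm_eq_abs, Real.norm_eq_abs, abs_of_nonneg (by positivity : (0 : ℝ) ≤ ‖ξ‖ ^ 2)]
    exact mul_le_mul ((hin ξ).trans hξ) (pow_le_pow_left₀ (norm_nonneg _) hξ 2) (by positivity) hM0.le
  have intc : Integrable (fun ξ : E N => 1 + Real.sqrt h * (inner ℝ e ξ : ℝ)) ν :=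
    (integrable_const 1).add (int1.const_mul _)
  have intcz : Integrable (fun ξ : E N => (1 + Real.sqrt h * (inner ℝ e ξ : ℝ)) * (‖e + Real.sqrt h • ξ‖ - 1)) ν := by
    apply CorrLow_int hh hν _ _ ((1 + Real.sqrt h * M) * (Real.sqrt h * M))
    · intro ξ hξ
      rw [norm_mul]
      have h1 : ‖(1 + Real.sqrt h * (inner ℝ e ξ : ℝ))‖ ≤ 1 + Real.sqrt h * M := by
        refine (norm_add_le _ _).trans ?_
        rw [norm_one, norm_mul, Real.norm_eq_abs, abs_of_pos hsq]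
        exact add_le_add le_rfl (mul_le_mul_of_nonneg_left ((hin ξ).trans hξ) hsq.le)
      have h2 : ‖‖e + Real.sqrt h • ξ‖ - 1‖ ≤ Real.sqrt h * M := by
        have h3 := abs_norm_sub_norm_le (e + Real.sqrt h • ξ) e
        rw [he, add_sub_cancel_left, norm_smul, Real.norm_eq_abs, abs_of_pos hsq] at h3
        exact h3.trans (mul_le_mul_of_nonneg_left hξ hsq.le)
      exact mul_le_mul h1 h2 (norm_nonneg _) (by positivity)
    · exact (measurable_const.add (mi.const_mul _)).mul (mz.sub_const 1)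
  have hmean : ∫ ξ, (1 + Real.sqrt h * (inner ℝ e ξ : ℝ)) ∂ν = 1 := by
    rw [integral_add (integrable_const 1) (int1.const_mul _), integral_const_mul, noise_mean hh hν e]
    simp
  have hmom : ∫ ξ, (1 + Real.sqrt h * (inner ℝ e ξ : ℝ)) * (‖e + Real.sqrt h • ξ‖ - 1) ∂ν ≤ (1 + N / 2) * h := by
    have i1 : Integrable (fun ξ : E N => Real.sqrt h * (inner ℝ e ξ : ℝ) + h / 2 * ‖ξ‖ ^ 2) ν :=
      (int1.const_mul _).add (int2.const_mul _)
    have i2 : Integrable (fun ξ : E N => h * (inner ℝ e ξ : ℝ) ^ 2 +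
        Real.sqrt h * h / 2 * ((inner ℝ e ξ : ℝ) * ‖ξ‖ ^ 2)) ν := (int3.const_mul _).add (int4.const_mul _)
    have h1 : ∫ ξ, (1 + Real.sqrt h * (inner ℝ e ξ : ℝ)) * (‖e + Real.sqrt h • ξ‖ - 1) ∂ν ≤
        ∫ ξ, ((Real.sqrt h * (inner ℝ e ξ : ℝ) + h / 2 * ‖ξ‖ ^ 2) + (h * (inner ℝ e ξ : ℝ) ^ 2 +
          Real.sqrt h * h / 2 * ((inner ℝ e ξ : ℝ) * ‖ξ‖ ^ 2))) ∂ν := by
      apply integral_mono_ae intcz
      · exact i1.add i2
      · filter_upwards [hpos] with ξ hξ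
        have h2 : ‖e + Real.sqrt h • ξ‖ ^ 2 = 1 + 2 * (Real.sqrt h * (inner ℝ e ξ : ℝ)) + h * ‖ξ‖ ^ 2 := by
          rw [norm_add_sq_real, he, inner_smul_right, norm_smul, Real.norm_eq_abs, abs_of_pos hsq, mul_pow,
            Real.sq_sqrt hh.le]
          ring
        have h3 : ‖e + Real.sqrt h • ξ‖ - 1 ≤ Real.sqrt h * (inner ℝ e ξ : ℝ) + h / 2 * ‖ξ‖ ^ 2 := by
          nlinarith [sq_nonneg (‖e + Real.sqrt h • ξ‖ - 1)]
        have h4 := mul_le_mul_of_nonneg_left h3 hξ.1.le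
        refine h4.trans (le_of_eq ?_)
        linear_combination ((inner ℝ e ξ : ℝ) ^ 2) * hsqsq
    refine h1.trans ?_
    rw [integral_add i1 i2,
      integral_add (int1.const_mul _) (int2.const_mul _), integral_add (int3.const_mul _) (int4.const_mul _),
      integral_const_mul, integral_const_mul, integral_const_mul, integral_const_mul, noise_mean hh hν e,
      noise_odd3 hh hν e, noise_sq hh (by omega) hν e, he]
    have h2 := hν.mom_le
    have h3 : (∫ ξ, ‖ξ‖ ^ 2 ∂ν) / N ≤ 1 := by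
      rw [div_le_one hN0]
      exact h2
    have h4 : h / 2 * ∫ ξ, ‖ξ‖ ^ 2 ∂ν ≤ h / 2 * N := mul_le_mul_of_nonneg_left h2 (by positivity)
    have h5 : h * (1 ^ 2 * ((∫ ξ, ‖ξ‖ ^ 2 ∂ν) / N)) ≤ h * (1 ^ 2 * 1) :=
      mul_le_mul_of_nonneg_left (mul_le_mul_of_nonneg_left h3 (by norm_num)) hh.le
    linarith
  -- the integrated inequality
  have hKm := CorrLow_K_mono β hβ hr hrr
  have hmain : (th (β - 1) r' - th (β - 1) r) - h * (1 + β) * (β - 1) * (r' - r) -
      (CorrLow_K β r' - CorrLow_K β r) * ∫ ξ, (1 + Real.sqrt h * (inner ℝ e ξ : ℝ)) * (‖e + Real.sqrt h • ξ‖ - 1) ∂ν ≤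
      T0 β h ν e (fun r => th (β - 1) (max r 0)) r' - T0 β h ν e (fun r => th (β - 1) (max r 0)) r := by
    unfold T0
    rw [← integral_sub (intT r') (intT r)]
    have h1 : (th (β - 1) r' - th (β - 1) r) - h * (1 + β) * (β - 1) * (r' - r) -
        (CorrLow_K β r' - CorrLow_K β r) *
          ∫ ξ, (1 + Real.sqrt h * (inner ℝ e ξ : ℝ)) * (‖e + Real.sqrt h • ξ‖ - 1) ∂ν =
        ∫ ξ, (((th (β - 1) r' - th (β - 1) r) - h * (1 + β) * (β - 1) * (r' - r)) *
          (1 + Real.sqrt h * (inner ℝ e ξ : ℝ)) - (CorrLow_K β r' - CorrLow_K β r) *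
          ((1 + Real.sqrt h * (inner ℝ e ξ : ℝ)) * (‖e + Real.sqrt h • ξ‖ - 1))) ∂ν := by
      rw [integral_sub (intc.const_mul _) (intcz.const_mul _), integral_const_mul, integral_const_mul, hmean, mul_one]
    rw [h1]
    apply integral_mono_ae
    · exact (intc.const_mul _).sub (intcz.const_mul _)
    · exact (intT r').sub (intT r)
    · filter_upwards [hpos] with ξ hξ
      have h2 := CorrLow_point β h hβ hh ‖e + Real.sqrt h • ξ‖ (1 + Real.sqrt h * (inner ℝ e ξ : ℝ)) hξ.2 hξ.1.le hr hrr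
      rw [hq ξ, max_eq_left (psi_nonneg _ _ _), max_eq_left (psi_nonneg _ _ _)]
      refine le_trans (le_of_eq ?_) h2
      ring
  have h5 : (CorrLow_K β r' - CorrLow_K β r) *
      ∫ ξ, (1 + Real.sqrt h * (inner ℝ e ξ : ℝ)) * (‖e + Real.sqrt h • ξ‖ - 1) ∂ν ≤
      (β - 1) * β * (r' - r) * ((1 + N / 2) * h) := by
    calc _ ≤ (CorrLow_K β r' - CorrLow_K β r) * ((1 + N / 2) * h) := mul_le_mul_of_nonneg_left hmom hKm.1
      _ ≤ (β - 1) * β * (r' - r) * ((1 + N / 2) * h) := mul_le_mul_of_nonneg_right hKm.2 (by positivity)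
  have h6 : (th (β - 1) r' - th (β - 1) r) - C * h * (r' - r) ≤
      T0 β h ν e (fun r => th (β - 1) (max r 0)) r' - T0 β h ν e (fun r => th (β - 1) (max r 0)) r := by
    have h7 : C * h * (r' - r) = h * (1 + β) * (β - 1) * (r' - r) + (β - 1) * β * (r' - r) * ((1 + N / 2) * h) := by
      rw [hC]
      ring
    linarith
  have h8 := mul_le_mul_of_nonneg_left h6 (by positivity : 0 ≤ 1 / C)
  have h9 : 1 / C * (C * h * (r' - r)) = h * (r' - r) := by
    field_simp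
  nlinarith

end Dyn
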