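import Pool.Agent.Lib_MP_36b788.CorrSup
import Pool.Agent.Lib_MP_36b788.CorrLow

/-!
# CEX: existence of the corrector profile

PROOF. `T f (r) = h max(r,0) + T0 f (r)`. `y_n = T^n 0` is an increasing sequence of `Prof`
functions (`T0_facts`: monotone, preserves `Prof`), bounded by the supersolution
`W` of CSUP (induction). `y = sup_n y_n`; pointwise limits of `Prof` functions are `Prof`;
monotone convergence gives `y = T y`.
* `zero`: for `r ≤ 0`, `ψ(rζ) = 0` hence `y_n(r) = y_n(0)·∫cos φ`-type recursion from `0`; so `0`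
  (`psi β h v = 0` for `v ≤ 0`).
* `bdd`: `W ≤ K + C + K2 h r`.
* `small`: `T0 (T0 …)`: for `m ≥ 0`, iterating `y = h r + T0 y` and `T0 (max r 0) ≤ r`:
  `y ≤ m h r + T0^m y ≤ m h r + T0^m (K'(1+h r)) ≤ m h r + K'(1-h/4)^m + K' h r`, with
  `K' = K+C+K2`. For `0<r≤1` take `m = ⌈4 log(1/r)/h⌉`: `(1-h/4)^m ≤ r`, `m h ≤ 4 log(1/r) + h`.
* `lower`: let `D` be as in CLOW, `f_n = T^n (δϑ)`. `f_0 - δϑ = 0`. If `f_n - δϑ` is nonnegative and
  nondecreasing then `f_{n+1} - δϑ = T0(f_n - δϑ) + D` is nonnegative and nondecreasing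
  (`T0` preserves both; no ratio condition needed for that). `f_n - y_n = T0^n(δϑ) ≤ δ(1-h/4)^n → 0`.
  So `y - δϑ = lim (f_n - δϑ)` is nondecreasing.
* `eqn`: `T0_facts` last item with `y 0 = 0`, `g = ‖g‖ e`.
-/

open MeasureTheory

namespace Dyn

private theorem CorrEx_th_ratio {s a b : ℝ} (hs : 0 ≤ s) (ha : 0 < a) (hab : a ≤ b) :
    th s b * a ≤ th s a * b := by
  have hb : 0 < b := lt_of_lt_of_le ha hab
  unfold th
  obtain ⟨t, ht⟩ : ∃ t, t = a / b := ⟨_, rfl⟩
  have ht0 : 0 ≤ t := by rw [ht]; positivity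
  have ht1 : t ≤ 1 := by rw [ht]; exact (div_le_one hb).2 hab
  have h2 : t * b = a := by rw [ht]; exact div_mul_cancel₀ a hb.ne'
  have h1 : (1 + b) ^ t ≤ 1 + t * b :=
    rpow_one_add_le_one_add_mul_self (by linarith) ht0 ht1
  rw [h2] at h1
  have hb1 : 0 < 1 + b := by linarith
  obtain ⟨B, hB⟩ : ∃ B, B = (1 + b) ^ (-s) := ⟨_, rfl⟩
  have hB0 : 0 < B := by rw [hB]; exact Real.rpow_pos_of_pos hb1 _
  have h3 : (1 + a) ^ (-s) ≤ ((1 + b) ^ t) ^ (-s) :=
    Real.rpow_le_rpow_of_nonpos (Real.rpow_pos_of_pos hb1 _) h1 (by linarith)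
  have h4 : ((1 + b) ^ t) ^ (-s) = B ^ t := by
    rw [hB, ← Real.rpow_mul hb1.le, ← Real.rpow_mul hb1.le, mul_comm]
  have h5 : B ^ t ≤ 1 + t * (B - 1) := by
    have := rpow_one_add_le_one_add_mul_self (s := B - 1) (by linarith) ht0 ht1
    rwa [add_sub_cancel] at this
  have h6 : (1 + a) ^ (-s) ≤ 1 + t * (B - 1) := by
    rw [h4] at h3
    exact h3.trans h5
  rw [← hB]
  have h7 : (1 - B) * a = (t * (1 - B)) * b := by rw [← h2]; ring
  rw [h7]
  refine mul_le_mul_of_nonneg_right ?_ hb.le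
  linarith

private theorem CorrEx_th_nonneg {s r : ℝ} (hs : 0 ≤ s) (hr : 0 ≤ r) : 0 ≤ th s r := by
  unfold th
  have : (1 + r) ^ (-s) ≤ 1 :=
    Real.rpow_le_one_of_one_le_of_nonpos (by linarith) (by linarith)
  linarith

private theorem CorrEx_th_le_one {s r : ℝ} (hr : 0 ≤ r) : th s r ≤ 1 := by
  unfold th
  have : 0 < (1 + r) ^ (-s) := Real.rpow_pos_of_pos (by linarith) _
  linarith

private theorem CorrEx_th_zero (s : ℝ) : th s 0 = 0 := by
  unfold th
  simp

private theorem CorrEx_th_mono {s r r' : ℝ} (hs : 0 ≤ s) (hr : 0 ≤ r) (h : r ≤ r') :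
    th s r ≤ th s r' := by
  unfold th
  have : (1 + r') ^ (-s) ≤ (1 + r) ^ (-s) :=
    Real.rpow_le_rpow_of_nonpos (by linarith) (by linarith) (by linarith)
  linarith

private theorem CorrEx_prof_th {s : ℝ} (hs : 0 ≤ s) : Prof (fun r => th s (max r 0)) where
  nonneg r := CorrEx_th_nonneg hs (le_max_right _ _)
  mono r r' h := CorrEx_th_mono hs (le_max_right _ _) (max_le_max_right 0 h)
  ratio r r' hr h := by
    rw [max_eq_left (hr.le.trans h), max_eq_left hr.le]
    exact CorrEx_th_ratio hs hr h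

private theorem CorrEx_prof_const {c : ℝ} (hc : 0 ≤ c) : Prof (fun _ => c) where
  nonneg _ := hc
  mono _ _ _ := le_rfl
  ratio _ _ _ h := mul_le_mul_of_nonneg_left h hc

private theorem CorrEx_prof_pos : Prof (fun r => max r 0) where
  nonneg r := le_max_right _ _
  mono r r' h := max_le_max_right 0 h
  ratio r r' hr h := by
    rw [max_eq_left (hr.le.trans h), max_eq_left hr.le, mul_comm]

private theorem CorrEx_prof_add {f g : ℝ → ℝ} (hf : Prof f) (hg : Prof g) :
    Prof (fun r => f r + g r) where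
  nonneg r := add_nonneg (hf.nonneg r) (hg.nonneg r)
  mono r r' h := add_le_add (hf.mono h) (hg.mono h)
  ratio r r' hr h := by
    have h1 := hf.ratio r r' hr h
    have h2 := hg.ratio r r' hr h
    rw [add_mul, add_mul]
    exact add_le_add h1 h2

private theorem CorrEx_prof_smul {c : ℝ} (hc : 0 ≤ c) {f : ℝ → ℝ} (hf : Prof f) :
    Prof (fun r => c * f r) where
  nonneg r := mul_nonneg hc (hf.nonneg r)
  mono r r' h := mul_le_mul_of_nonneg_left (hf.mono h) hc
  ratio r r' hr h := by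
    have h1 := mul_le_mul_of_nonneg_left (hf.ratio r r' hr h) hc
    rw [mul_assoc, mul_assoc]
    exact h1

/-- pointwise limits of profiles -/
private theorem CorrEx_prof_lim {f : ℕ → ℝ → ℝ} {g : ℝ → ℝ} (hf : ∀ n, Prof (f n))
    (hg : ∀ r, Filter.Tendsto (fun n => f n r) Filter.atTop (nhds (g r))) : Prof g where
  nonneg r := ge_of_tendsto' (hg r) fun n => (hf n).nonneg r
  mono r r' h := le_of_tendsto_of_tendsto' (hg r) (hg r') fun n => (hf n).mono h
  ratio r r' hr h := le_of_tendsto_of_tendsto' ((hg r').mul_const r) ((hg r).mul_const r')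
    fun n => (hf n).ratio r r' hr h

theorem corrector_exists (N : ℕ) (β : ℝ) (hN : 2 ≤ N) (hβ : 1 < β) :
    ∃ δ Cy h0 : ℝ, 0 < δ ∧ 1 ≤ Cy ∧ 0 < h0 ∧ h0 ≤ 1 / 1000 ∧
      ∀ (h : ℝ) (ν : Measure (E N)), 0 < h → h < h0 → IsNoise h ν →
        ∃ y : ℝ → ℝ, IsCorr N β h ν δ Cy y := by
  have hβ0 : 0 < β := by linarith
  have hs : 0 ≤ β - 1 := by linarith
  obtain ⟨ha, ha0, ha1, hF⟩ := T0_facts N β hN hβ0
  obtain ⟨K, C, K2, hb, hK, hC, hK2, hb0, hS⟩ := corr_super N β hN hβ
  obtain ⟨δ, hc, hδ, hc0, hL⟩ := corr_low N β hN hβ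
  refine ⟨δ, 4 + 2 * (K + C + K2), min ha (min hb hc), hδ, by linarith, by positivity,
    (min_le_left _ _).trans ha1, ?_⟩
  intro h ν hh hh0 hν
  have hh1 : h < ha := lt_of_lt_of_le hh0 (min_le_left _ _)
  have hh2 : h < hb := lt_of_lt_of_le hh0 ((min_le_right _ _).trans (min_le_left _ _))
  have hh3 : h < hc := lt_of_lt_of_le hh0 ((min_le_right _ _).trans (min_le_right _ _))
  have hle : h ≤ 1 := by linarith
  -- a unit vector
  obtain ⟨e, he⟩ : ∃ e : E N, ‖e‖ = 1 :=
    ⟨EuclideanSpace.single (⟨0, by omega⟩ : Fin N) (1 : ℝ), by simp⟩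
  obtain ⟨F1, F2, F3, F4, F5, F6, F7, F8, -⟩ := hF h ν hh hh1 hν e he
  obtain ⟨S1, S2⟩ := hS h ν hh hh2 hν e he
  have L1 := hL h ν hh hh3 hν e he
  have hpsi0 : ∀ v : ℝ, v ≤ 0 → psi β h v = 0 := fun v hv =>
    le_antisymm ((psi_mono hβ0 hh.le hv).trans (psi_zero hβ0 hh.le).le) (psi_nonneg _ _ _)
  -- linearity
  have Tadd : ∀ f g : ℝ → ℝ, Prof f → Prof g → ∀ r,
      T0 β h ν e (fun r => f r + g r) r = T0 β h ν e f r + T0 β h ν e g r := by
    intro f g hf hg r
    unfold T0
    rw [← integral_add (F2 f hf r) (F2 g hg r)]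
    refine integral_congr_ae (Filter.Eventually.of_forall fun ξ => ?_)
    beta_reduce
    ring
  have Tsmul : ∀ (c : ℝ) (f : ℝ → ℝ) (r : ℝ),
      T0 β h ν e (fun r => c * f r) r = c * T0 β h ν e f r := by
    intro c f r
    unfold T0
    rw [← integral_const_mul]
    refine integral_congr_ae (Filter.Eventually.of_forall fun ξ => ?_)
    beta_reduce
    ring
  have Tone : ∀ r, T0 β h ν e (fun _ => 1) r ≤ 1 - h / 4 := fun r => (F6 r 0).le.trans F5
  have Tone0 : ∀ r, 0 ≤ T0 β h ν e (fun _ => 1) r := fun r =>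
    (F3 _ (CorrEx_prof_const zero_le_one)).nonneg r
  have Tconst : ∀ c r : ℝ, 0 ≤ c → T0 β h ν e (fun _ => c) r ≤ c * (1 - h / 4) := by
    intro c r hc
    have h1 := Tsmul c (fun _ => 1) r
    simp only [mul_one] at h1
    rw [h1]
    exact mul_le_mul_of_nonneg_left (Tone r) hc
  have Tneg : ∀ (f : ℝ → ℝ), f 0 = 0 → ∀ r, r ≤ 0 → T0 β h ν e f r = 0 := by
    intro f hf r hr
    unfold T0
    have : ∀ ξ : E N, f (psi β h (r * ‖e + Real.sqrt h • ξ‖)) = 0 := by
      intro ξ
      rw [hpsi0 _ (mul_nonpos_of_nonpos_of_nonneg hr (norm_nonneg _)), hf]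
    simp [this]
  -- the map `T`
  obtain ⟨T, hT⟩ : ∃ T : (ℝ → ℝ) → (ℝ → ℝ), ∀ f r, T f r = h * max r 0 + T0 β h ν e f r :=
    ⟨fun f r => h * max r 0 + T0 β h ν e f r, fun f r => rfl⟩
  have TP : ∀ f, Prof f → Prof (T f) := by
    intro f hf
    have h1 := CorrEx_prof_add (CorrEx_prof_smul hh.le CorrEx_prof_pos) (F3 f hf)
    have h2 : T f = fun r => h * max r 0 + T0 β h ν e f r := funext (hT f)
    rw [h2]
    exact h1
  have TM : ∀ f g, Prof f → Prof g → (∀ r, 0 ≤ r → f r ≤ g r) → ∀ r, T f r ≤ T g r := by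
    intro f g hf hg hfg r
    rw [hT, hT]
    exact add_le_add le_rfl (F4 f g hf hg hfg r)
  -- increasing sequence
  obtain ⟨Y, hY⟩ : ∃ Y : ℕ → ℝ → ℝ, ∀ n, Y n = T^[n] (fun _ => 0) := ⟨_, fun n => rfl⟩
  have Y0 : Y 0 = fun _ => 0 := by rw [hY]; rfl
  have YS : ∀ n, Y (n + 1) = T (Y n) := fun n => by
    rw [hY, hY, Function.iterate_succ_apply']
  have YP : ∀ n, Prof (Y n) := by
    intro n
    induction n with
    | zero => rw [Y0]; exact CorrEx_prof_const le_rfl
    | succ n ih => rw [YS]; exact TP _ ih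
  have YM : ∀ n r, Y n r ≤ Y (n + 1) r := by
    intro n
    induction n with
    | zero => intro r; rw [Y0]; exact (YP 1).nonneg r
    | succ n ih =>
      intro r
      rw [YS, YS (n + 1)]
      exact TM _ _ (YP _) (YP _) (fun r _ => ih r) r
  have YW : ∀ n r, 0 ≤ r → Y n r ≤ K * th (β - 1) (max r 0) + C + K2 * h * max r 0 := by
    intro n
    induction n with
    | zero => intro r _; rw [Y0]; exact S1.nonneg r
    | succ n ih =>
      intro r hr
      rw [YS, hT, max_eq_left hr]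
      have h1 := F4 _ _ (YP n) S1 ih r
      have h2 := S2 r hr
      rw [max_eq_left hr] at h2
      linarith
  have YZ : ∀ n r, r ≤ 0 → Y n r = 0 := by
    intro n
    induction n with
    | zero => intro r _; rw [Y0]
    | succ n ih =>
      intro r hr
      rw [YS, hT, max_eq_right hr, mul_zero, zero_add]
      exact Tneg _ (ih 0 le_rfl) r hr
  have YB : ∀ r, BddAbove (Set.range fun n => Y n r) := by
    intro r
    refine ⟨K * th (β - 1) (max (max r 0) 0) + C + K2 * h * max (max r 0) 0, ?_⟩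
    rintro _ ⟨n, rfl⟩
    exact ((YP n).mono (le_max_left r 0)).trans (YW n _ (le_max_right _ _))
  obtain ⟨y, hy⟩ : ∃ y : ℝ → ℝ, ∀ r, y r = ⨆ n, Y n r := ⟨_, fun r => rfl⟩
  have Ylim : ∀ r, Filter.Tendsto (fun n => Y n r) Filter.atTop (nhds (y r)) := by
    intro r
    rw [hy]
    exact tendsto_atTop_ciSup (monotone_nat_of_le_succ fun n => YM n r) (YB r)
  have yP : Prof y := CorrEx_prof_lim YP Ylim
  have yW : ∀ r, 0 ≤ r → y r ≤ K * th (β - 1) (max r 0) + C + K2 * h * max r 0 := fun r hr =>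
    le_of_tendsto' (Ylim r) fun n => YW n r hr
  have yZ : ∀ r, r ≤ 0 → y r = 0 := by
    intro r hr
    refine tendsto_nhds_unique (Ylim r) ?_
    have : (fun n => Y n r) = fun _ => 0 := funext fun n => YZ n r hr
    rw [this]
    exact tendsto_const_nhds
  -- limit in the integral
  have Tlim : ∀ r, Filter.Tendsto (fun n => T0 β h ν e (Y n) r) Filter.atTop
      (nhds (T0 β h ν e y r)) := by
    intro r
    unfold T0
    refine tendsto_integral_of_dominated_convergence _
      (fun n => (F2 (Y n) (YP n) r).aestronglyMeasurable) (F2 _ S1 r) (fun n => ?_) ?_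
    · filter_upwards [F1] with ξ hξ
      rw [Real.norm_of_nonneg (mul_nonneg ((YP n).nonneg _) hξ.1)]
      exact mul_le_mul_of_nonneg_right (YW n _ (psi_nonneg _ _ _)) hξ.1
    · exact Filter.Eventually.of_forall fun ξ => (Ylim _).mul_const _
  have yT : ∀ r, y r = h * max r 0 + T0 β h ν e y r := by
    intro r
    refine tendsto_nhds_unique ((Ylim r).comp (Filter.tendsto_add_atTop_nat 1)) ?_
    have h1 := (Tlim r).const_add (h * max r 0)
    refine h1.congr fun n => ?_
    show _ = Y (n + 1) r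
    rw [YS, hT]
  -- crude bound
  have hK' : 0 < K + C + K2 := by linarith
  have yB : ∀ r, 0 ≤ r → y r ≤ (K + C + K2) * (1 + h * r) := by
    intro r hr
    have h1 := yW r hr
    rw [max_eq_left hr] at h1
    have h2 : K * th (β - 1) r ≤ K * 1 := mul_le_mul_of_nonneg_left (CorrEx_th_le_one hr) hK.le
    have h3 : 0 ≤ h * r := mul_nonneg hh.le hr
    nlinarith [mul_nonneg (hK.le) h3, mul_nonneg hC.le h3]
  -- iteration
  have yI : ∀ m : ℕ, ∀ r, 0 ≤ r →
      y r ≤ m * h * r + (K + C + K2) * (1 - h / 4) ^ m + (K + C + K2) * h * r := by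
    intro m
    induction m with
    | zero =>
      intro r hr
      have := yB r hr
      simp only [Nat.cast_zero, zero_mul, pow_zero]
      linarith
    | succ m ih =>
      intro r hr
      have hq : 0 ≤ 1 - h / 4 := by linarith
      have p1 : Prof (fun r => (m * h + (K + C + K2) * h) * max r 0 +
          (K + C + K2) * (1 - h / 4) ^ m) :=
        CorrEx_prof_add (CorrEx_prof_smul (by positivity) CorrEx_prof_pos)
          (CorrEx_prof_const (by positivity))
      have h1 := F4 y _ yP p1 (fun r hr => by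
        have := ih r hr
        rw [max_eq_left hr]
        linarith) r
      have h2 := Tadd (fun r => (m * h + (K + C + K2) * h) * max r 0)
        (fun _ => (K + C + K2) * (1 - h / 4) ^ m)
        (CorrEx_prof_smul (by positivity) CorrEx_prof_pos) (CorrEx_prof_const (by positivity)) r
      have h3 := Tsmul (m * h + (K + C + K2) * h) (fun r => max r 0) r
      have h4 := Tconst ((K + C + K2) * (1 - h / 4) ^ m) r (by positivity)
      have h5 := mul_le_mul_of_nonneg_left (F7 r hr)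
        (show 0 ≤ (m * h + (K + C + K2) * h) by positivity)
      rw [yT, max_eq_left hr]
      push_cast
      rw [pow_succ]
      rw [h2] at h1
      linarith
  refine ⟨y, yP, yZ, ?_, ?_, ?_, ?_⟩
  · -- bdd
    intro r hr
    refine (yB r hr).trans (mul_le_mul_of_nonneg_right (by linarith) ?_)
    have := mul_nonneg hh.le hr
    linarith
  · -- small
    intro r hr hr1
    obtain ⟨L, hLdef⟩ : ∃ L, L = Real.log (1 / r) := ⟨_, rfl⟩
    have hL0 : 0 ≤ L := by
      rw [hLdef]
      exact Real.log_nonneg (by rw [le_div_iff₀ hr]; linarith)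
    have hm := yI ⌈4 * L / h⌉₊ r hr.le
    have hm1 : 4 * L / h ≤ (⌈4 * L / h⌉₊ : ℝ) := Nat.le_ceil _
    have hm2 : (⌈4 * L / h⌉₊ : ℝ) < 4 * L / h + 1 := Nat.ceil_lt_add_one (by positivity)
    have hm3 : (⌈4 * L / h⌉₊ : ℝ) * h ≤ 4 * L + h := by
      have := mul_le_mul_of_nonneg_right hm2.le hh.le
      rw [add_mul, div_mul_cancel₀ _ hh.ne', one_mul] at this
      exact this
    have hm4 : (1 - h / 4) ^ ⌈4 * L / h⌉₊ ≤ r := by
      have h1 : 1 - h / 4 ≤ Real.exp (-(h / 4)) := by
        have := Real.add_one_le_exp (-(h / 4))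
        linarith
      have h2 : (1 - h / 4) ^ ⌈4 * L / h⌉₊ ≤ Real.exp (-(h / 4)) ^ ⌈4 * L / h⌉₊ :=
        pow_le_pow_left₀ (by linarith) h1 _
      refine h2.trans ?_
      rw [← Real.exp_nat_mul]
      have h3 : (⌈4 * L / h⌉₊ : ℝ) * -(h / 4) ≤ -L := by
        have := mul_le_mul_of_nonneg_right hm1 (show 0 ≤ h / 4 by positivity)
        have h5 : 4 * L / h * (h / 4) = L := by field_simp
        rw [h5] at this
        linarith
      have h4 : Real.exp (-L) = r := by
        rw [hLdef, one_div, Real.log_inv, neg_neg, Real.exp_log hr]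
      rw [← h4]
      exact Real.exp_le_exp.2 h3
    rw [← hLdef]
    have h5 : (⌈4 * L / h⌉₊ : ℝ) * h * r ≤ (4 * L + h) * r := mul_le_mul_of_nonneg_right hm3 hr.le
    have h6 : (K + C + K2) * (1 - h / 4) ^ ⌈4 * L / h⌉₊ ≤ (K + C + K2) * r :=
      mul_le_mul_of_nonneg_left hm4 hK'.le
    have h7 : (K + C + K2) * h * r ≤ (K + C + K2) * 1 * r :=
      mul_le_mul_of_nonneg_right (mul_le_mul_of_nonneg_left hle hK'.le) hr.le
    have h8 : h * r ≤ 1 * r := mul_le_mul_of_nonneg_right hle hr.le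
    have h9 : 0 ≤ (K + C + K2) * L * r := by positivity
    nlinarith
  · -- lower
    obtain ⟨Z, hZ⟩ : ∃ Z : ℕ → ℝ → ℝ, ∀ n, Z n = T^[n] (fun r => δ * th (β - 1) (max r 0)) :=
      ⟨_, fun n => rfl⟩
    have Z0 : Z 0 = fun r => δ * th (β - 1) (max r 0) := by rw [hZ]; rfl
    have ZS : ∀ n, Z (n + 1) = T (Z n) := fun n => by
      rw [hZ, hZ, Function.iterate_succ_apply']
    have hθ : Prof (fun r => th (β - 1) (max r 0)) := CorrEx_prof_th hs
    have ZP : ∀ n, Prof (Z n) := by
      intro n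
      induction n with
      | zero => rw [Z0]; exact CorrEx_prof_smul hδ.le hθ
      | succ n ih => rw [ZS]; exact TP _ ih
    have ZM : ∀ n r r', 0 ≤ r → r ≤ r' →
        Z n r - δ * th (β - 1) (max r 0) ≤ Z n r' - δ * th (β - 1) (max r' 0) := by
      intro n
      induction n with
      | zero => intro r r' _ _; rw [Z0]; simp
      | succ n ih =>
        intro r r' hr hrr
        have hr' : 0 ≤ r' := hr.trans hrr
        rw [ZS, hT, hT, max_eq_left hr, max_eq_left hr']
        have h1 := L1 r r' hr hrr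
        have h2 : ∀ r, T0 β h ν e (Z n) r - δ * T0 β h ν e (fun r => th (β - 1) (max r 0)) r =
            ∫ ξ, (Z n (psi β h (r * ‖e + Real.sqrt h • ξ‖)) -
              δ * th (β - 1) (max (psi β h (r * ‖e + Real.sqrt h • ξ‖)) 0)) *
              (inner ℝ e (e + Real.sqrt h • ξ) / ‖e + Real.sqrt h • ξ‖) ∂ν := by
          intro r
          rw [← Tsmul]
          unfold T0
          rw [← integral_sub (F2 _ (ZP n) r) (F2 _ (CorrEx_prof_smul hδ.le hθ) r)]
          refine integral_congr_ae (Filter.Eventually.of_forall fun ξ => ?_)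
          beta_reduce
          ring
        have h2i : ∀ r, Integrable (fun ξ => (Z n (psi β h (r * ‖e + Real.sqrt h • ξ‖)) -
              δ * th (β - 1) (max (psi β h (r * ‖e + Real.sqrt h • ξ‖)) 0)) *
              (inner ℝ e (e + Real.sqrt h • ξ) / ‖e + Real.sqrt h • ξ‖)) ν := by
          intro r
          refine ((F2 _ (ZP n) r).sub (F2 _ (CorrEx_prof_smul hδ.le hθ) r)).congr
            (Filter.Eventually.of_forall fun ξ => ?_)
          simp only [Pi.sub_apply]
          ring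
        have h3 : T0 β h ν e (Z n) r - δ * T0 β h ν e (fun r => th (β - 1) (max r 0)) r ≤
            T0 β h ν e (Z n) r' - δ * T0 β h ν e (fun r => th (β - 1) (max r 0)) r' := by
          rw [h2, h2]
          refine integral_mono_ae (h2i r) (h2i r') ?_
          filter_upwards [F1] with ξ hξ
          refine mul_le_mul_of_nonneg_right (ih _ _ (psi_nonneg _ _ _) ?_) hξ.1
          exact psi_mono hβ0 hh.le (mul_le_mul_of_nonneg_right hrr (norm_nonneg _))
        linarith
    have ZY : ∀ n, (∀ r, 0 ≤ r → Y n r ≤ Z n r) ∧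
        (∀ r, 0 ≤ r → Z n r ≤ Y n r + δ * (1 - h / 4) ^ n) := by
      intro n
      induction n with
      | zero =>
        refine ⟨fun r hr => ?_, fun r hr => ?_⟩
        · rw [Y0, Z0]
          exact mul_nonneg hδ.le (CorrEx_th_nonneg hs (le_max_right _ _))
        · rw [Y0, Z0]
          have := mul_le_mul_of_nonneg_left
            (CorrEx_th_le_one (s := β - 1) (le_max_right r 0)) hδ.le
          simpa using this
      | succ n ih =>
        have hq : 0 ≤ 1 - h / 4 := by linarith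
        refine ⟨fun r hr => ?_, fun r hr => ?_⟩
        · rw [YS, ZS]
          exact TM _ _ (YP n) (ZP n) ih.1 r
        · have p2 : Prof (fun _ : ℝ => δ * (1 - h / 4) ^ n) := CorrEx_prof_const (by positivity)
          have h1 := TM _ _ (ZP n) (CorrEx_prof_add (YP n) p2) ih.2 r
          rw [hT (fun r => Y n r + δ * (1 - h / 4) ^ n), Tadd _ _ (YP n) p2] at h1
          have h2 := Tconst (δ * (1 - h / 4) ^ n) r (by positivity)
          rw [YS, ZS, hT (Y n), pow_succ]
          linarith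
    have Zlim : ∀ r, 0 ≤ r → Filter.Tendsto (fun n => Z n r) Filter.atTop (nhds (y r)) := by
      intro r hr
      have h1 : Filter.Tendsto (fun n : ℕ => Y n r + δ * (1 - h / 4) ^ n) Filter.atTop
          (nhds (y r + δ * 0)) :=
        (Ylim r).add ((tendsto_pow_atTop_nhds_zero_of_lt_one (by linarith)
          (by linarith)).const_mul δ)
      rw [mul_zero, add_zero] at h1
      exact tendsto_of_tendsto_of_tendsto_of_le_of_le (Ylim r) h1
        (fun n => (ZY n).1 r hr) (fun n => (ZY n).2 r hr)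
    intro r r' hr hrr
    have hr' : 0 ≤ r' := hr.trans hrr
    have h1 := le_of_tendsto_of_tendsto' ((Zlim r hr).sub_const (δ * th (β - 1) (max r 0)))
      ((Zlim r' hr').sub_const (δ * th (β - 1) (max r' 0))) fun n => ZM n r r' hr hrr
    rw [max_eq_left hr, max_eq_left hr'] at h1
    rw [mul_sub]
    linarith
  · -- the equation
    intro g hg
    have hg0 : 0 < ‖g‖ := norm_pos_iff.2 hg
    have he' : ‖(1 / ‖g‖) • g‖ = 1 := by
      rw [norm_smul, Real.norm_of_nonneg (by positivity), one_div_mul_cancel hg0.ne']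
    obtain ⟨-, -, -, -, -, -, -, -, F9⟩ := hF h ν hh hh1 hν _ he'
    have h1 := F9 y yP (yZ 0 le_rfl) ‖g‖ hg0
    have h2 : ‖g‖ • ((1 / ‖g‖) • g) = g := by
      rw [smul_smul, mul_one_div_cancel hg0.ne', one_smul]
    rw [h2] at h1
    rw [h1, F8 _ he' y ‖g‖]
    have h3 := yT ‖g‖
    rw [max_eq_left hg0.le] at h3
    have h4 : T0 β h ν e y ‖g‖ = y ‖g‖ - h * ‖g‖ := by linarith
    rw [h4, smul_smul, sub_mul, sub_smul]
    congr 2
    · ring
    · field_simp

end Dyn
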