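import Pool.Agent.Lib_MP_36b788.CorrT0

/-!
# CSUP: the supersolution `W = K ϑ + C + K2 h r`

`s = β-1 > 0`, `ϑ(r) = th s r = 1-(1+r)^(-s)` (concave, increasing, `ϑ'(r) = s(1+r)^(-β)`).
CLAIM: `h r + T0 W (r) ≤ W r` for all `r ≥ 0`.

PROOF. `ρ := psi`-ratio. For `v>0`, `x = h v^β`: `ψ(v) = ρ v`, `ρ(1+ρ^β x) = 1`.
Case 1: `h r^β ≤ 1`. Then `R = ψ(rζ) ≥ ψ(r/2) ≥ r/4` (`psi_half`). Concavity:
`ϑ(R) ≤ ϑ(r) + ϑ'(r)(R-r)`, and `R = rζ - hR^(1+β) ≤ rζ - h(r/4)^(1+β)`, `∫ζ ≤ 1 + N h/2`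
(`ζ ≤ 1 + √h⟪e,ξ⟫ + ½h‖ξ‖²`). As `0 ≤ cos φ ≤ 1`:
`T0 ϑ(r) ≤ ∫ϑ(R) ≤ ϑ(r) + ϑ'(r) h (½N r - (r/4)^(1+β))`, and `rϑ'(r) ≤ s`,
`r^(1+β)ϑ'(r) = s r (r/(1+r))^β ≥ s 2^(-β) (r-1)`. So `T0 ϑ(r) ≤ ϑ(r) + h(C0 - c r)`,
`c = s 4^(-1-β) 2^(-β)`, `C0 = ½Ns + c`. With `T0(h r) ≤ h r`, `T0 1 ≤ 1-h/4`:
`h r + T0 W ≤ W + h r(1-Kc) + h(K C0 - C/4) ≤ W` if `K ≥ 1/c`, `C ≥ 4 K C0`.
Case 2: `h r^β ≥ 1`. Let `ρ0 < 1` be the root of `ρ(1+ρ^β) = 1`. For `v ≥ r`, `ψ(v) ≤ ρ0 v`; so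
`R ≤ ψ((1+ℓ)r) ≤ (1+ℓ)ρ0 r ≤ ½(1+ρ0) r < r` for small `h`. Hence `T0 ϑ(r) ≤ ϑ(r)`,
`T0 (h·)(r) ≤ h ½(1+ρ0) r` and `h r + T0 W ≤ W + h r - K2 h r (1-ρ0)/2 ≤ W` if `K2 ≥ 2/(1-ρ0)`.
-/

open MeasureTheory

namespace Dyn

private theorem csup_bern {s x : ℝ} (hs : 0 < s) (hx : 0 < x) : 1 - s * (x - 1) ≤ x ^ (-s) := by
  rw [Real.rpow_def_of_pos hx]
  have h1 := Real.add_one_le_exp (Real.log x * -s)
  have h2 := Real.log_le_sub_one_of_pos hx
  nlinarith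

private theorem csup_tangent {s : ℝ} (hs : 0 < s) {r R : ℝ} (hr : 0 ≤ r) (hR : 0 ≤ R) :
    th s R ≤ th s r + s * (1 + r) ^ (-(s + 1)) * (R - r) := by
  have h1 : 0 < 1 + r := by linarith
  have h2 : 0 < 1 + R := by linarith
  have h3 : 0 < (1 + R) / (1 + r) := by positivity
  have h4 := csup_bern hs h3
  have h5 : (1 + R) ^ (-s) = (1 + r) ^ (-s) * ((1 + R) / (1 + r)) ^ (-s) := by
    rw [← Real.mul_rpow h1.le h3.le, mul_div_cancel₀ _ h1.ne']
  have h6 : (1 + r) ^ (-(s + 1)) = (1 + r) ^ (-s) / (1 + r) := by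
    rw [show -(s + 1) = -s - 1 by ring, Real.rpow_sub_one h1.ne']
  have h7 : 0 < (1 + r) ^ (-s) := Real.rpow_pos_of_pos h1 _
  unfold th
  rw [h5, h6]
  have h8 : (1 + R) / (1 + r) - 1 = (R - r) / (1 + r) := by
    field_simp
    ring
  rw [h8] at h4
  have h9 : s * ((1 + r) ^ (-s) / (1 + r)) * (R - r) = (1 + r) ^ (-s) * (s * ((R - r) / (1 + r))) := by
    ring
  rw [h9]
  nlinarith [mul_le_mul_of_nonneg_left h4 h7.le]

private theorem csup_th_zero (s : ℝ) : th s 0 = 0 := by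
  unfold th
  rw [add_zero, Real.one_rpow, sub_self]

private theorem csup_th_mono {s : ℝ} (hs : 0 < s) {r R : ℝ} (hr : 0 ≤ r) (hR : r ≤ R) : th s r ≤ th s R := by
  unfold th
  have h1 : (1 + R) ^ (-s) ≤ (1 + r) ^ (-s) :=
    Real.rpow_le_rpow_of_nonpos (by linarith) (by linarith) (by linarith)
  linarith

private theorem csup_th_nonneg {s : ℝ} (hs : 0 < s) {r : ℝ} (hr : 0 ≤ r) : 0 ≤ th s r := by
  rw [← csup_th_zero s]
  exact csup_th_mono hs le_rfl hr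

private theorem csup_th_ratio {s : ℝ} (hs : 0 < s) {r R : ℝ} (hr : 0 < r) (hR : r ≤ R) :
    th s R * r ≤ th s r * R := by
  have h1 := csup_tangent hs hr.le (hr.le.trans hR)
  have h2 := csup_tangent hs hr.le (le_refl (0 : ℝ))
  rw [csup_th_zero] at h2
  have h3 := mul_le_mul_of_nonneg_right h1 hr.le
  have h4 := mul_le_mul_of_nonneg_right h2 (sub_nonneg.2 hR)
  nlinarith

private theorem csup_prof_th {s : ℝ} (hs : 0 < s) : Prof (fun r => th s (max r 0)) where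
  nonneg := fun r => csup_th_nonneg hs (le_max_right _ _)
  mono := fun r r' hr => csup_th_mono hs (le_max_right _ _) (max_le_max_right 0 hr)
  ratio := by
    intro r r' hr hr'
    show th s (max r' 0) * r ≤ th s (max r 0) * r'
    rw [max_eq_left hr.le, max_eq_left (hr.le.trans hr')]
    exact csup_th_ratio hs hr hr'

private theorem csup_prof_one : Prof (fun _ => 1) where
  nonneg := fun r => zero_le_one
  mono := monotone_const
  ratio := by
    intro r r' hr hr'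
    show 1 * r ≤ 1 * r'
    linarith

private theorem csup_prof_id : Prof (fun r => max r 0) where
  nonneg := fun r => le_max_right _ _
  mono := fun r r' hr => max_le_max_right 0 hr
  ratio := by
    intro r r' hr hr'
    show max r' 0 * r ≤ max r 0 * r'
    rw [max_eq_left hr.le, max_eq_left (hr.le.trans hr'), mul_comm]

private theorem csup_prof_W {s : ℝ} (hs : 0 < s) {K C D : ℝ} (hK : 0 ≤ K) (hC : 0 ≤ C) (hD : 0 ≤ D) :
    Prof (fun r => K * th s (max r 0) + C + D * max r 0) where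
  nonneg := fun r => by
    have h1 : 0 ≤ th s (max r 0) := (csup_prof_th hs).nonneg r
    have h2 : 0 ≤ max r 0 := csup_prof_id.nonneg r
    show 0 ≤ K * th s (max r 0) + C + D * max r 0
    positivity
  mono := fun r r' hr => by
    have h1 : th s (max r 0) ≤ th s (max r' 0) := (csup_prof_th hs).mono hr
    have h2 : max r 0 ≤ max r' 0 := csup_prof_id.mono hr
    show K * th s (max r 0) + C + D * max r 0 ≤ K * th s (max r' 0) + C + D * max r' 0
    have h3 := mul_le_mul_of_nonneg_left h1 hK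
    have h4 := mul_le_mul_of_nonneg_left h2 hD
    linarith
  ratio := by
    intro r r' hr hr'
    have h1 : th s (max r' 0) * r ≤ th s (max r 0) * r' := (csup_prof_th hs).ratio r r' hr hr'
    have h2 : max r' 0 * r ≤ max r 0 * r' := csup_prof_id.ratio r r' hr hr'
    show (K * th s (max r' 0) + C + D * max r' 0) * r ≤ (K * th s (max r 0) + C + D * max r 0) * r'
    have h3 := mul_le_mul_of_nonneg_left h1 hK
    have h4 := mul_le_mul_of_nonneg_left h2 hD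
    have h5 := mul_le_mul_of_nonneg_left hr' hC
    nlinarith

private theorem csup_int {N : ℕ} {h : ℝ} {ν : Measure (E N)} (hν : IsNoise h ν) {g : E N → ℝ}
    (hg : Continuous g) {B : ℝ} (hB : ∀ᵐ ξ ∂ν, |g ξ| ≤ B) : Integrable g ν := by
  have hp := hν.prob
  exact Integrable.of_bound hg.aestronglyMeasurable B (by simpa only [Real.norm_eq_abs] using hB)

private theorem csup_bdd {N : ℕ} {h : ℝ} {ν : Measure (E N)} (hh : 0 < h) (hν : IsNoise h ν) :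
    ∀ᵐ ξ ∂ν, ‖ξ‖ ≤ h ^ (3 / 8 : ℝ) / Real.sqrt h := by
  filter_upwards [hν.bdd] with ξ hξ
  rw [le_div_iff₀ (Real.sqrt_pos.2 hh), mul_comm]
  exact hξ

private theorem csup_zeta {N : ℕ} {h : ℝ} {ν : Measure (E N)} (hh : 0 < h) (hν : IsNoise h ν)
    (e : E N) (he : ‖e‖ = 1) (hζ : Integrable (fun ξ => ‖e + Real.sqrt h • ξ‖) ν) :
    ∫ ξ, ‖e + Real.sqrt h • ξ‖ ∂ν ≤ 1 + N * h / 2 := by
  have hp := hν.prob
  have hb := csup_bdd hh hν
  have i1 : Integrable (fun ξ : E N => inner ℝ e ξ) ν := by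
    apply csup_int hν (by fun_prop) (B := h ^ (3 / 8 : ℝ) / Real.sqrt h)
    filter_upwards [hb] with ξ hξ
    have h1 := abs_real_inner_le_norm e ξ
    rw [he, one_mul] at h1
    exact h1.trans hξ
  have i2 : Integrable (fun ξ : E N => ‖ξ‖ ^ 2) ν := by
    apply csup_int hν (by fun_prop) (B := (h ^ (3 / 8 : ℝ) / Real.sqrt h) ^ 2)
    filter_upwards [hb] with ξ hξ
    rw [abs_of_nonneg (by positivity)]
    exact pow_le_pow_left₀ (norm_nonneg _) hξ 2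
  have h1 : ∀ ξ : E N, ‖e + Real.sqrt h • ξ‖ ≤ 1 + (Real.sqrt h * inner ℝ e ξ + h / 2 * ‖ξ‖ ^ 2) := by
    intro ξ
    have h2 : ‖e + Real.sqrt h • ξ‖ ^ 2 = 1 + 2 * (Real.sqrt h * inner ℝ e ξ) + h * ‖ξ‖ ^ 2 := by
      rw [norm_add_sq_real, he, inner_smul_right, norm_smul, Real.norm_eq_abs,
        abs_of_nonneg (Real.sqrt_nonneg h), mul_pow, Real.sq_sqrt hh.le]
      ring
    nlinarith [sq_nonneg (‖e + Real.sqrt h • ξ‖ - 1)]
  have i3 : Integrable (fun ξ : E N => Real.sqrt h * inner ℝ e ξ + h / 2 * ‖ξ‖ ^ 2) ν :=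
    (i1.const_mul _).add (i2.const_mul _)
  have i4 : Integrable (fun ξ : E N => 1 + (Real.sqrt h * inner ℝ e ξ + h / 2 * ‖ξ‖ ^ 2)) ν :=
    (integrable_const (1 : ℝ)).add i3
  have h3 := integral_mono hζ i4 h1
  refine h3.trans ?_
  have e1 : ∫ ξ : E N, (1 + (Real.sqrt h * inner ℝ e ξ + h / 2 * ‖ξ‖ ^ 2)) ∂ν =
      1 + (Real.sqrt h * ∫ ξ, inner ℝ e ξ ∂ν + h / 2 * ∫ ξ, ‖ξ‖ ^ 2 ∂ν) := by
    rw [integral_add (integrable_const (1 : ℝ)) i3, integral_add (i1.const_mul _) (i2.const_mul _),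
      integral_const_mul, integral_const_mul, integral_const]
    simp only [probReal_univ, one_smul]
  rw [e1, noise_mean hh hν, mul_zero, zero_add]
  have h4 := mul_le_mul_of_nonneg_left hν.mom_le (by positivity : 0 ≤ h / 2)
  linarith

private theorem csup_split {N : ℕ} {β h : ℝ} {ν : Measure (E N)} {e : E N}
    (hI : ∀ f : ℝ → ℝ, Prof f → ∀ r : ℝ, Integrable (fun ξ =>
        f (psi β h (r * ‖e + Real.sqrt h • ξ‖)) *
          (inner ℝ e (e + Real.sqrt h • ξ) / ‖e + Real.sqrt h • ξ‖)) ν) {s : ℝ} (hs : 0 < s) (K C D r : ℝ) :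
    T0 β h ν e (fun r => K * th s (max r 0) + C + D * max r 0) r =
      K * T0 β h ν e (fun r => th s (max r 0)) r + C * T0 β h ν e (fun _ => 1) r +
        D * T0 β h ν e (fun r => max r 0) r := by
  have i1 := hI _ (csup_prof_th hs) r
  have i2 := hI _ csup_prof_one r
  have i3 := hI _ csup_prof_id r
  have i4 : Integrable (fun ξ : E N => K * (th s (max (psi β h (r * ‖e + Real.sqrt h • ξ‖)) 0) *
      (inner ℝ e (e + Real.sqrt h • ξ) / ‖e + Real.sqrt h • ξ‖)) +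
      C * (1 * (inner ℝ e (e + Real.sqrt h • ξ) / ‖e + Real.sqrt h • ξ‖))) ν := (i1.const_mul K).add (i2.const_mul C)
  have i5 : Integrable (fun ξ : E N => D * (max (psi β h (r * ‖e + Real.sqrt h • ξ‖)) 0 *
      (inner ℝ e (e + Real.sqrt h • ξ) / ‖e + Real.sqrt h • ξ‖))) ν := i3.const_mul D
  unfold T0
  rw [← integral_const_mul, ← integral_const_mul, ← integral_const_mul,
    ← integral_add (i1.const_mul K) (i2.const_mul C), ← integral_add i4 i5]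
  apply integral_congr_ae
  refine Filter.Eventually.of_forall fun ξ => ?_
  show (K * th s (max (psi β h (r * ‖e + Real.sqrt h • ξ‖)) 0) + C +
      D * max (psi β h (r * ‖e + Real.sqrt h • ξ‖)) 0) *
      (inner ℝ e (e + Real.sqrt h • ξ) / ‖e + Real.sqrt h • ξ‖) = _
  ring

private theorem csup_R_int {N : ℕ} {β h : ℝ} {ν : Measure (E N)} (hβ : 0 < β) (hh : 0 < h) (hν : IsNoise h ν)
    {e : E N} (hz : ∀ᵐ ξ ∂ν, ‖e + Real.sqrt h • ξ‖ ≤ 2) {r : ℝ} (hr : 0 ≤ r) :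
    Integrable (fun ξ => psi β h (r * ‖e + Real.sqrt h • ξ‖)) ν := by
  apply csup_int hν (B := r * 2)
  · exact (psi_continuous hβ hh.le).comp (by fun_prop)
  · filter_upwards [hz] with ξ hξ
    rw [abs_of_nonneg (psi_nonneg _ _ _)]
    refine (psi_le hβ hh.le (by positivity)).trans ?_
    exact mul_le_mul_of_nonneg_left hξ hr

private theorem csup_case1 {N : ℕ} {β h : ℝ} {ν : Measure (E N)} (hβ : 1 < β) (hh : 0 < h)
    (hν : IsNoise h ν) {e : E N} (he : ‖e‖ = 1)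
    (hcos : ∀ᵐ ξ ∂ν, 0 ≤ inner ℝ e (e + Real.sqrt h • ξ) / ‖e + Real.sqrt h • ξ‖ ∧
        inner ℝ e (e + Real.sqrt h • ξ) / ‖e + Real.sqrt h • ξ‖ ≤ 1)
    (hI : ∀ f : ℝ → ℝ, Prof f → ∀ r : ℝ, Integrable (fun ξ =>
        f (psi β h (r * ‖e + Real.sqrt h • ξ‖)) *
          (inner ℝ e (e + Real.sqrt h • ξ) / ‖e + Real.sqrt h • ξ‖)) ν)
    (hz1 : ∀ᵐ ξ ∂ν, ‖e + Real.sqrt h • ξ‖ ≤ 2) (hz2 : ∀ᵐ ξ ∂ν, 1 / 2 ≤ ‖e + Real.sqrt h • ξ‖)
    {r : ℝ} (hr : 0 ≤ r) (hr1 : h * r ^ β ≤ 1) :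
    T0 β h ν e (fun r => th (β - 1) (max r 0)) r ≤ th (β - 1) r +
      h * ((N * (β - 1) / 2 + (β - 1) * (4 : ℝ) ^ (-(1 + β)) * (2 : ℝ) ^ (-β)) -
        (β - 1) * (4 : ℝ) ^ (-(1 + β)) * (2 : ℝ) ^ (-β) * r) := by
  have hp := hν.prob
  have hs : 0 < β - 1 := by linarith
  have hβ0 : 0 < β := by linarith
  have h1r : 0 < 1 + r := by linarith
  set D : ℝ := (β - 1) * (1 + r) ^ (-(β - 1 + 1)) with hD
  have hDe : D = (β - 1) * (1 + r) ^ (-β) := by
    rw [hD]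
    congr 2
    ring
  have hD0 : 0 ≤ D := by positivity
  have iR := csup_R_int hβ0 hh hν hz1 hr
  have iZ : Integrable (fun ξ => ‖e + Real.sqrt h • ξ‖) ν := by
    apply csup_int hν (by fun_prop) (B := 2)
    filter_upwards [hz1] with ξ hξ
    rw [abs_of_nonneg (norm_nonneg _)]
    exact hξ
  -- pointwise bound
  have hpt : ∀ᵐ ξ ∂ν, th (β - 1) (max (psi β h (r * ‖e + Real.sqrt h • ξ‖)) 0) *
      (inner ℝ e (e + Real.sqrt h • ξ) / ‖e + Real.sqrt h • ξ‖) ≤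
      th (β - 1) r + D * ((r * ‖e + Real.sqrt h • ξ‖ - h * (r / 4) ^ (1 + β)) - r) := by
    filter_upwards [hcos, hz1, hz2] with ξ h1 h2 h3
    set z := ‖e + Real.sqrt h • ξ‖ with hzdef
    set R := psi β h (r * z) with hR
    have hR0 : 0 ≤ R := psi_nonneg _ _ _
    rw [max_eq_left hR0]
    have h4 : th (β - 1) R * (inner ℝ e (e + Real.sqrt h • ξ) / z) ≤ th (β - 1) R :=
      mul_le_of_le_one_right (csup_th_nonneg hs hR0) h1.2
    refine h4.trans ((csup_tangent hs hr hR0).trans ?_)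
    refine add_le_add le_rfl (mul_le_mul_of_nonneg_left ?_ hD0)
    have h5 : R + h * R ^ (1 + β) = r * z := psi_eq hβ0 hh.le (by positivity)
    have h6 : r / 4 ≤ R := by
      have h7 : r / 2 ≤ r * z := by nlinarith
      have h8 : psi β h (r / 2) ≤ R := psi_mono hβ0 hh.le h7
      have h9 : h * (r / 2) ^ β ≤ 1 := by
        refine le_trans (mul_le_mul_of_nonneg_left ?_ hh.le) hr1
        exact Real.rpow_le_rpow (by linarith) (by linarith) hβ0.le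
      have h10 := psi_half hβ0 hh.le (by linarith : 0 ≤ r / 2) h9
      linarith
    have h11 : (r / 4) ^ (1 + β) ≤ R ^ (1 + β) := Real.rpow_le_rpow (by linarith) h6 (by linarith)
    have h12 := mul_le_mul_of_nonneg_left h11 hh.le
    linarith
  have iB : Integrable (fun ξ => th (β - 1) r + D * ((r * ‖e + Real.sqrt h • ξ‖ - h * (r / 4) ^ (1 + β)) - r)) ν := by
    apply (integrable_const _).add
    apply Integrable.const_mul
    apply Integrable.sub _ (integrable_const _)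
    exact (iZ.const_mul r).sub (integrable_const _)
  have hT : T0 β h ν e (fun r => th (β - 1) (max r 0)) r ≤
      ∫ ξ, (th (β - 1) r + D * ((r * ‖e + Real.sqrt h • ξ‖ - h * (r / 4) ^ (1 + β)) - r)) ∂ν := by
    unfold T0
    exact integral_mono_ae (hI _ (csup_prof_th hs) r) iB hpt
  have e1 : ∫ ξ, (th (β - 1) r + D * ((r * ‖e + Real.sqrt h • ξ‖ - h * (r / 4) ^ (1 + β)) - r)) ∂ν =
      th (β - 1) r + D * (r * (∫ ξ, ‖e + Real.sqrt h • ξ‖ ∂ν) - h * (r / 4) ^ (1 + β) - r) := by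
    have e2 : ∀ ξ : E N, th (β - 1) r + D * ((r * ‖e + Real.sqrt h • ξ‖ - h * (r / 4) ^ (1 + β)) - r) =
        (th (β - 1) r - D * (h * (r / 4) ^ (1 + β)) - D * r) + (D * r) * ‖e + Real.sqrt h • ξ‖ := by
      intro ξ
      ring
    simp only [e2]
    rw [integral_add (integrable_const _) (iZ.const_mul _), integral_const_mul, integral_const]
    simp only [probReal_univ, one_smul]
    ring
  rw [e1] at hT
  have hz := csup_zeta hh hν e he iZ
  refine hT.trans ?_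
  have g1 : D * (r * (∫ ξ, ‖e + Real.sqrt h • ξ‖ ∂ν) - h * (r / 4) ^ (1 + β) - r) ≤
      h * ((N : ℝ) / 2 * (r * D) - D * (r / 4) ^ (1 + β)) := by
    have g2 := mul_le_mul_of_nonneg_left hz (mul_nonneg hD0 hr)
    have g3 : D * (r * (∫ ξ, ‖e + Real.sqrt h • ξ‖ ∂ν) - h * (r / 4) ^ (1 + β) - r) =
        D * r * (∫ ξ, ‖e + Real.sqrt h • ξ‖ ∂ν) - D * h * (r / 4) ^ (1 + β) - D * r := by ring
    rw [g3]
    linarith
  have g4 : r * D ≤ β - 1 := by
    rw [hDe]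
    have g5 : r * (1 + r) ^ (-β) ≤ 1 := by
      have g6 : (1 + r) ^ (-β) ≤ (1 + r) ^ (-1 : ℝ) :=
        Real.rpow_le_rpow_of_exponent_le (by linarith) (by linarith)
      rw [Real.rpow_neg_one] at g6
      calc r * (1 + r) ^ (-β) ≤ (1 + r) * (1 + r)⁻¹ :=
            mul_le_mul (by linarith) g6 (by positivity) h1r.le
        _ = 1 := mul_inv_cancel₀ h1r.ne'
    calc r * ((β - 1) * (1 + r) ^ (-β)) = (β - 1) * (r * (1 + r) ^ (-β)) := by ring
      _ ≤ (β - 1) * 1 := mul_le_mul_of_nonneg_left g5 hs.le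
      _ = β - 1 := mul_one _
  have g7 : (β - 1) * (4 : ℝ) ^ (-(1 + β)) * (2 : ℝ) ^ (-β) * (r - 1) ≤ D * (r / 4) ^ (1 + β) := by
    rcases le_or_gt r 1 with h1 | h1
    · have g8 : 0 ≤ D * (r / 4) ^ (1 + β) := by positivity
      have g9 : (β - 1) * (4 : ℝ) ^ (-(1 + β)) * (2 : ℝ) ^ (-β) * (r - 1) ≤ 0 :=
        mul_nonpos_of_nonneg_of_nonpos (by positivity) (by linarith)
      linarith
    · have hr0 : 0 < r := by linarith
      have g10 : (r / 4) ^ (1 + β) = r ^ β * r * (4 : ℝ) ^ (-(1 + β)) := by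
        rw [Real.div_rpow hr (by norm_num), Real.rpow_neg (by norm_num), add_comm 1 β,
          Real.rpow_add_one hr0.ne', div_eq_mul_inv]
      have g11 : (2 : ℝ) ^ (-β) ≤ (1 + r) ^ (-β) * r ^ β := by
        rw [Real.rpow_neg h1r.le, ← Real.inv_rpow h1r.le, ← Real.mul_rpow (by positivity) hr,
          Real.rpow_neg (by norm_num), ← Real.inv_rpow (by norm_num)]
        apply Real.rpow_le_rpow (by norm_num) _ hβ0.le
        rw [inv_mul_eq_div, le_div_iff₀ h1r]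
        linarith
      rw [hDe, g10]
      have g12 : 0 ≤ (β - 1) * (4 : ℝ) ^ (-(1 + β)) := by positivity
      calc (β - 1) * (4 : ℝ) ^ (-(1 + β)) * (2 : ℝ) ^ (-β) * (r - 1)
          ≤ (β - 1) * (4 : ℝ) ^ (-(1 + β)) * ((1 + r) ^ (-β) * r ^ β) * r := by
            apply mul_le_mul (mul_le_mul_of_nonneg_left g11 g12) (by linarith) (by linarith) (by positivity)
        _ = (β - 1) * (1 + r) ^ (-β) * (r ^ β * r * (4 : ℝ) ^ (-(1 + β))) := by ring
  have g13 : (N : ℝ) / 2 * (r * D) ≤ (N : ℝ) / 2 * (β - 1) := mul_le_mul_of_nonneg_left g4 (by positivity)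
  have g14 : h * ((N : ℝ) / 2 * (r * D) - D * (r / 4) ^ (1 + β)) ≤
      h * ((N * (β - 1) / 2 + (β - 1) * (4 : ℝ) ^ (-(1 + β)) * (2 : ℝ) ^ (-β)) -
        (β - 1) * (4 : ℝ) ^ (-(1 + β)) * (2 : ℝ) ^ (-β) * r) := by
    apply mul_le_mul_of_nonneg_left _ hh.le
    linarith
  linarith

private theorem csup_rho {β h : ℝ} (hβ : 0 < β) (hh : 0 < h) {v : ℝ} (hv : 0 < v) (h1 : 1 ≤ h * v ^ β) :
    psi β h v ≤ psi β 1 1 * v := by
  by_contra hc
  rw [not_le] at hc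
  set ρ := psi β 1 1 with hρ
  have hρ0 : 0 < ρ := psi_pos hβ zero_le_one zero_lt_one
  have h2 : ρ + 1 * ρ ^ (1 + β) = 1 := psi_eq hβ zero_le_one zero_le_one
  have h3 : psi β h v + h * psi β h v ^ (1 + β) = v := psi_eq hβ hh.le hv.le
  have h4 : (ρ * v) ^ (1 + β) ≤ psi β h v ^ (1 + β) :=
    Real.rpow_le_rpow (by positivity) hc.le (by linarith)
  have h5 : (ρ * v) ^ (1 + β) = ρ ^ (1 + β) * (v ^ β * v) := by
    rw [Real.mul_rpow hρ0.le hv.le, add_comm 1 β, Real.rpow_add_one hv.ne']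
  rw [h5] at h4
  have h6 := mul_le_mul_of_nonneg_left h4 hh.le
  have h7 : v * ρ ^ (1 + β) ≤ h * (ρ ^ (1 + β) * (v ^ β * v)) := by
    have h8 : h * (ρ ^ (1 + β) * (v ^ β * v)) = (h * v ^ β) * (v * ρ ^ (1 + β)) := by ring
    rw [h8]
    exact le_mul_of_one_le_left (by positivity) h1
  have h9 : v * (ρ + 1 * ρ ^ (1 + β)) = v := by rw [h2, mul_one]
  nlinarith

private theorem csup_case2 {N : ℕ} {β h : ℝ} {ν : Measure (E N)} (hβ : 1 < β) (hh : 0 < h)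
    (hν : IsNoise h ν) {e : E N}
    (hcos : ∀ᵐ ξ ∂ν, 0 ≤ inner ℝ e (e + Real.sqrt h • ξ) / ‖e + Real.sqrt h • ξ‖ ∧
        inner ℝ e (e + Real.sqrt h • ξ) / ‖e + Real.sqrt h • ξ‖ ≤ 1)
    (hI : ∀ f : ℝ → ℝ, Prof f → ∀ r : ℝ, Integrable (fun ξ =>
        f (psi β h (r * ‖e + Real.sqrt h • ξ‖)) *
          (inner ℝ e (e + Real.sqrt h • ξ) / ‖e + Real.sqrt h • ξ‖)) ν)
    (hρ1 : psi β 1 1 < 1)
    (hz1 : ∀ᵐ ξ ∂ν, ‖e + Real.sqrt h • ξ‖ ≤ 1 + (1 - psi β 1 1) / 2)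
    {r : ℝ} (hr : 0 < r) (hr1 : 1 ≤ h * r ^ β) :
    T0 β h ν e (fun r => th (β - 1) (max r 0)) r ≤ th (β - 1) r ∧
      T0 β h ν e (fun r => max r 0) r ≤ (1 + psi β 1 1) / 2 * r := by
  have hp := hν.prob
  have hs : 0 < β - 1 := by linarith
  have hβ0 : 0 < β := by linarith
  set ρ := psi β 1 1 with hρ
  have hρ0 : 0 < ρ := psi_pos hβ0 zero_le_one zero_lt_one
  have hR : ∀ᵐ ξ ∂ν, psi β h (r * ‖e + Real.sqrt h • ξ‖) ≤ (1 + ρ) / 2 * r := by
    filter_upwards [hz1] with ξ hξ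
    have h1 : r * ‖e + Real.sqrt h • ξ‖ ≤ (1 + (1 - ρ) / 2) * r := by
      rw [mul_comm]
      exact mul_le_mul_of_nonneg_right hξ hr.le
    have h2 : r ≤ (1 + (1 - ρ) / 2) * r := by nlinarith
    have h3 : 1 ≤ h * ((1 + (1 - ρ) / 2) * r) ^ β :=
      hr1.trans (mul_le_mul_of_nonneg_left (Real.rpow_le_rpow hr.le h2 hβ0.le) hh.le)
    have h4 := csup_rho hβ0 hh (lt_of_lt_of_le hr h2) h3
    refine (psi_mono hβ0 hh.le h1).trans (h4.trans ?_)
    rw [← mul_assoc]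
    apply mul_le_mul_of_nonneg_right _ hr.le
    nlinarith
  have hle : (1 + ρ) / 2 * r ≤ r := by nlinarith
  constructor
  · unfold T0
    have h1 : ∫ ξ, th (β - 1) (max (psi β h (r * ‖e + Real.sqrt h • ξ‖)) 0) *
        (inner ℝ e (e + Real.sqrt h • ξ) / ‖e + Real.sqrt h • ξ‖) ∂ν ≤ ∫ ξ, th (β - 1) r ∂ν := by
      apply integral_mono_ae (hI _ (csup_prof_th hs) r) (integrable_const _)
      filter_upwards [hcos, hR] with ξ h1 h2
      have hR0 : 0 ≤ psi β h (r * ‖e + Real.sqrt h • ξ‖) := psi_nonneg _ _ _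
      show th (β - 1) (max (psi β h (r * ‖e + Real.sqrt h • ξ‖)) 0) *
        (inner ℝ e (e + Real.sqrt h • ξ) / ‖e + Real.sqrt h • ξ‖) ≤ th (β - 1) r
      rw [max_eq_left hR0]
      exact (mul_le_of_le_one_right (csup_th_nonneg hs hR0) h1.2).trans
        (csup_th_mono hs hR0 (h2.trans hle))
    refine h1.trans (le_of_eq ?_)
    rw [integral_const]
    simp only [probReal_univ, one_smul]
  · unfold T0
    have h1 : ∫ ξ, max (psi β h (r * ‖e + Real.sqrt h • ξ‖)) 0 *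
        (inner ℝ e (e + Real.sqrt h • ξ) / ‖e + Real.sqrt h • ξ‖) ∂ν ≤ ∫ ξ, (1 + ρ) / 2 * r ∂ν := by
      apply integral_mono_ae (hI _ csup_prof_id r) (integrable_const _)
      filter_upwards [hcos, hR] with ξ h1 h2
      have hR0 : 0 ≤ psi β h (r * ‖e + Real.sqrt h • ξ‖) := psi_nonneg _ _ _
      show max (psi β h (r * ‖e + Real.sqrt h • ξ‖)) 0 *
        (inner ℝ e (e + Real.sqrt h • ξ) / ‖e + Real.sqrt h • ξ‖) ≤ (1 + ρ) / 2 * r
      rw [max_eq_left hR0]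
      exact (mul_le_of_le_one_right hR0 h1.2).trans h2
    refine h1.trans (le_of_eq ?_)
    rw [integral_const]
    simp only [probReal_univ, one_smul]

theorem corr_super (N : ℕ) (β : ℝ) (hN : 2 ≤ N) (hβ : 1 < β) :
    ∃ K C K2 h0 : ℝ, 0 < K ∧ 0 < C ∧ 0 < K2 ∧ 0 < h0 ∧
      ∀ (h : ℝ) (ν : Measure (E N)), 0 < h → h < h0 → IsNoise h ν → ∀ e : E N, ‖e‖ = 1 →
        Prof (fun r => K * th (β - 1) (max r 0) + C + K2 * h * max r 0) ∧
        ∀ r, 0 ≤ r →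
          h * r + T0 β h ν e (fun r => K * th (β - 1) (max r 0) + C + K2 * h * max r 0) r ≤
            K * th (β - 1) (max r 0) + C + K2 * h * max r 0 := by
  have hs : 0 < β - 1 := by linarith
  have hβ0 : 0 < β := by linarith
  obtain ⟨h1, h1pos, h1le, H1⟩ := T0_facts N β hN hβ0
  obtain ⟨h2, h2pos, h2le, H2⟩ := zeta_ae N
  set ρ := psi β 1 1 with hρ
  have hρ0 : 0 < ρ := psi_pos hβ0 zero_le_one zero_lt_one
  have hρ1 : ρ < 1 := by
    have h3 : ρ + 1 * ρ ^ (1 + β) = 1 := psi_eq hβ0 zero_le_one zero_le_one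
    have h4 : 0 < ρ ^ (1 + β) := Real.rpow_pos_of_pos hρ0 _
    linarith
  set c : ℝ := (β - 1) * (4 : ℝ) ^ (-(1 + β)) * (2 : ℝ) ^ (-β) with hc
  have hc0 : 0 < c := by positivity
  set C0 : ℝ := N * (β - 1) / 2 + c with hC0
  have hC00 : 0 < C0 := by positivity
  have h3pos : 0 < ((1 - ρ) / 2) ^ (8 / 3 : ℝ) := Real.rpow_pos_of_pos (by linarith) _
  refine ⟨1 / c, 4 * (1 / c) * C0, 2 / (1 - ρ), min (min h1 h2) (((1 - ρ) / 2) ^ (8 / 3 : ℝ)), by positivity,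
    by positivity, div_pos two_pos (by linarith), lt_min (lt_min h1pos h2pos) h3pos, ?_⟩
  intro h ν hh hlt hν e he
  have hlt1 : h < h1 := hlt.trans_le ((min_le_left _ _).trans (min_le_left _ _))
  have hlt2 : h < h2 := hlt.trans_le ((min_le_left _ _).trans (min_le_right _ _))
  have hlt3 : h < ((1 - ρ) / 2) ^ (8 / 3 : ℝ) := hlt.trans_le (min_le_right _ _)
  have hK2 : 0 < 2 / (1 - ρ) := div_pos two_pos (by linarith)
  refine ⟨csup_prof_W hs (by positivity) (by positivity) (by positivity), fun r hr => ?_⟩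
  obtain ⟨hcos, hI, -, -, hT1, hTc, hTid, -, -⟩ := H1 h ν hh hlt1 hν e he
  have hz := H2 h ν hh hlt2 hν e he
  have hz1 : ∀ᵐ ξ ∂ν, ‖e + Real.sqrt h • ξ‖ ≤ 2 := by
    filter_upwards [hz] with ξ hξ
    have := (abs_le.1 hξ.1).2
    linarith [hξ.2.2]
  have hz2 : ∀ᵐ ξ ∂ν, 1 / 2 ≤ ‖e + Real.sqrt h • ξ‖ := by
    filter_upwards [hz] with ξ hξ
    have := (abs_le.1 hξ.1).1
    linarith [hξ.2.2]
  have hell : h ^ (3 / 8 : ℝ) ≤ (1 - ρ) / 2 := by
    have h4 : h ^ (3 / 8 : ℝ) ≤ (((1 - ρ) / 2) ^ (8 / 3 : ℝ)) ^ (3 / 8 : ℝ) :=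
      Real.rpow_le_rpow hh.le hlt3.le (by norm_num)
    rw [← Real.rpow_mul (by linarith)] at h4
    norm_num at h4
    linarith
  have hz3 : ∀ᵐ ξ ∂ν, ‖e + Real.sqrt h • ξ‖ ≤ 1 + (1 - ρ) / 2 := by
    filter_upwards [hz] with ξ hξ
    have := (abs_le.1 hξ.1).2
    linarith
  have hone : T0 β h ν e (fun _ => 1) r ≤ 1 - h / 4 := by
    rw [hTc r 0]
    exact hT1
  have hid : T0 β h ν e (fun r => max r 0) r ≤ r := hTid r hr
  rw [csup_split hI hs, max_eq_left hr]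
  rcases le_or_gt (h * r ^ β) 1 with hcase | hcase
  · have h5 := csup_case1 hβ hh hν he hcos hI hz1 hz2 hr hcase
    rw [← hc, ← hC0] at h5
    have h6 : 1 / c * T0 β h ν e (fun r => th (β - 1) (max r 0)) r ≤
        1 / c * th (β - 1) r + h * (1 / c * C0) - h * r := by
      have h7 := mul_le_mul_of_nonneg_left h5 (by positivity : 0 ≤ 1 / c)
      refine h7.trans (le_of_eq ?_)
      field_simp
      ring
    have h8 : 4 * (1 / c) * C0 * T0 β h ν e (fun _ => 1) r ≤ 4 * (1 / c) * C0 * (1 - h / 4) :=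
      mul_le_mul_of_nonneg_left hone (by positivity)
    have h9 : 2 / (1 - ρ) * h * T0 β h ν e (fun r => max r 0) r ≤ 2 / (1 - ρ) * h * r :=
      mul_le_mul_of_nonneg_left hid (by positivity)
    nlinarith
  · have hr0 : 0 < r := by
      rcases hr.lt_or_eq with h5 | h5
      · exact h5
      · exfalso
        rw [← h5, Real.zero_rpow hβ0.ne', mul_zero] at hcase
        linarith
    obtain ⟨h5, h6⟩ := csup_case2 hβ hh hν hcos hI hρ1 hz3 hr0 hcase.le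
    rw [← hρ] at h6
    have h7 : 1 / c * T0 β h ν e (fun r => th (β - 1) (max r 0)) r ≤ 1 / c * th (β - 1) r :=
      mul_le_mul_of_nonneg_left h5 (by positivity)
    have h8 : 4 * (1 / c) * C0 * T0 β h ν e (fun _ => 1) r ≤ 4 * (1 / c) * C0 * 1 :=
      mul_le_mul_of_nonneg_left (by linarith) (by positivity)
    have h9 : 2 / (1 - ρ) * h * T0 β h ν e (fun r => max r 0) r ≤ 2 / (1 - ρ) * h * r - h * r := by
      have h10 := mul_le_mul_of_nonneg_left h6 (by positivity : 0 ≤ 2 / (1 - ρ) * h)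
      refine h10.trans (le_of_eq ?_)
      have h11 : (1 - ρ) ≠ 0 := by linarith
      field_simp
      ring
    linarith

end Dyn
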