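import Pool.Agent.Lib_MP_36b788.CorrDefs
import Pool.Agent.Lib_MP_36b788.LogZ

/-!
# CT0: basic properties of the operator `T0`

PROOF. For `h < h0`: a.e. `√h‖ξ‖ ≤ ℓ = h^(3/8) ≤ 1/10`, so `q = e+√hξ` has `‖q‖ ∈ [1-ℓ,1+ℓ]`, and
`⟪e,q⟫ ≥ 1-ℓ > 0`, so `0 < cos φ ≤ 1`.
* integrable: `f` monotone (so measurable), `0 ≤ f(R) ≤ f(ψ(2|r|))`.
* `T0_prof`: monotone in `r` since `ψ`, `f` are monotone and `cos φ ≥ 0`;
  ratio: `f(ψ(rζ))/r = [f(R)/R]·[ψ(rζ)/r]`, both factors nonincreasing in `r` (`f` ratio, `psi_ratio`).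
* `T0_mono`, `T0_add`, `T0_smul`: linearity and positivity of the integral.
* `T0_const`: `T0 1 = ∫cos φ`; `1 - cos φ ≥ ½ sin²φ = ½ h‖ξ_⊥‖²/‖q‖²`, `ξ_⊥ = ξ-⟪e,ξ⟫e`, and
  `∫‖ξ_⊥‖² = (N-1)v`, `v ≥ 1-h`; so `∫cos φ ≤ 1 - h/4` for `N ≥ 2` and small `h`.
* `T0_id_le`: `ψ(rζ)cos φ ≤ rζcos φ = r⟪e,q⟫`, whose mean is `r`.
* `T0_vec`: the vector identity: `ĝ = R q/‖q‖`, so `∫ (f R/R) ĝ = ∫ f(R) q/‖q‖`, and by axis symmetry
  (`noise_axis` applied to `q/‖q‖ = (e + √h ξ)/‖q‖`, where `‖q‖` is a function of `(⟪e,ξ⟫,‖ξ‖)`)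
  this equals `(∫ f(R) cos φ) e`. Also the value does not depend on `e` (`T0_indep`): use an isometry
  taking `e` to `e'`.
-/

open MeasureTheory

namespace Dyn

private theorem ct_ae (N : ℕ) : ∃ h0 : ℝ, 0 < h0 ∧ h0 ≤ 1 / 1000 ∧
    ∀ (h : ℝ) (ν : Measure (E N)), 0 < h → h < h0 → IsNoise h ν → ∀ e : E N, ‖e‖ = 1 →
      ∀ᵐ ξ ∂ν, Real.sqrt h * ‖ξ‖ ≤ 1 / 10 ∧ 9 / 10 ≤ ‖e + Real.sqrt h • ξ‖ ∧
        ‖e + Real.sqrt h • ξ‖ ≤ 11 / 10 := by
  obtain ⟨h0, h1, h2, h3⟩ := zeta_ae N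
  refine ⟨h0, h1, h2, fun h ν hh hlt hν e he => ?_⟩
  filter_upwards [h3 h ν hh hlt hν e he, hν.bdd] with ξ ha hb
  obtain ⟨ha1, _, ha3⟩ := ha
  have := abs_le.1 ha1
  exact ⟨hb.trans ha3, by linarith, by linarith⟩

section

variable {N : ℕ} {e ξ : E N}

private theorem ct_inner (he : ‖e‖ = 1) (s : ℝ) (ξ : E N) :
    inner ℝ e (e + s • ξ) = 1 + s * inner ℝ e ξ := by
  rw [inner_add_right, inner_smul_right, real_inner_self_eq_norm_sq, he, one_pow]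

private theorem ct_normsq (he : ‖e‖ = 1) (s : ℝ) (ξ : E N) :
    ‖e + s • ξ‖ ^ 2 = 1 + 2 * s * inner ℝ e ξ + s ^ 2 * ‖ξ‖ ^ 2 := by
  rw [norm_add_sq_real, inner_smul_right, norm_smul, he, Real.norm_eq_abs, mul_pow, sq_abs]
  ring

private theorem ct_cos (he : ‖e‖ = 1) {s : ℝ} (hs : 0 ≤ s) (h1 : s * ‖ξ‖ ≤ 1 / 10)
    (h2 : 9 / 10 ≤ ‖e + s • ξ‖) :
    0 ≤ inner ℝ e (e + s • ξ) / ‖e + s • ξ‖ ∧ inner ℝ e (e + s • ξ) / ‖e + s • ξ‖ ≤ 1 := by
  have h3 : |inner ℝ e ξ| ≤ ‖ξ‖ := by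
    have := abs_real_inner_le_norm e ξ
    rwa [he, one_mul] at this
  have h4 : -(1 / 10) ≤ s * inner ℝ e ξ := by
    have h5 := (abs_le.1 h3).1
    nlinarith
  constructor
  · rw [ct_inner he]
    apply div_nonneg
    · linarith
    · exact norm_nonneg _
  · rw [div_le_one (by linarith)]
    have := real_inner_le_norm e (e + s • ξ)
    rwa [he, one_mul] at this

private theorem ct_meas_c (e : E N) (s : ℝ) :
    Measurable (fun ξ : E N => inner ℝ e (e + s • ξ) / ‖e + s • ξ‖) := by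
  have hc : Continuous (fun ξ : E N => e + s • ξ) := by fun_prop
  exact ((continuous_const.inner hc).measurable).div hc.norm.measurable

variable {β h : ℝ} {ν : Measure (E N)} {f : ℝ → ℝ}

private theorem ct_meas_f (hβ : 0 < β) (hh : 0 < h) (hf : Prof f) (e : E N) (r : ℝ) :
    Measurable (fun ξ : E N => f (psi β h (r * ‖e + Real.sqrt h • ξ‖))) := by
  have hc : Continuous (fun ξ : E N => e + Real.sqrt h • ξ) := by fun_prop
  exact hf.mono.measurable.comp ((psi_continuous hβ hh.le).measurable.comp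
    (measurable_const.mul hc.norm.measurable))

private theorem ct_bd (hβ : 0 < β) (hh : 0 < h) (hf : Prof f) (r : ℝ)
    (h2 : ‖e + Real.sqrt h • ξ‖ ≤ 11 / 10) :
    f (psi β h (r * ‖e + Real.sqrt h • ξ‖)) ≤ f (psi β h (2 * |r|)) := by
  apply hf.mono
  apply psi_mono hβ hh.le
  have h3 := le_abs_self r
  have h4 := abs_nonneg r
  have h5 := norm_nonneg (e + Real.sqrt h • ξ)
  nlinarith

private theorem ct_int (hβ : 0 < β) (hh : 0 < h) (hν : IsNoise h ν) (he : ‖e‖ = 1)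
    (hae : ∀ᵐ ξ ∂ν, Real.sqrt h * ‖ξ‖ ≤ 1 / 10 ∧ 9 / 10 ≤ ‖e + Real.sqrt h • ξ‖ ∧
        ‖e + Real.sqrt h • ξ‖ ≤ 11 / 10) (hf : Prof f) (r : ℝ) :
    Integrable (fun ξ => f (psi β h (r * ‖e + Real.sqrt h • ξ‖)) *
          (inner ℝ e (e + Real.sqrt h • ξ) / ‖e + Real.sqrt h • ξ‖)) ν := by
  have := hν.prob
  refine Integrable.of_bound ((ct_meas_f hβ hh hf e r).mul
    (ct_meas_c e (Real.sqrt h))).aestronglyMeasurable (f (psi β h (2 * |r|))) ?_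
  filter_upwards [hae] with ξ hx
  obtain ⟨h1, h2, h3⟩ := hx
  have h4 := ct_cos he (Real.sqrt_nonneg h) h1 h2
  rw [Real.norm_eq_abs, abs_of_nonneg (mul_nonneg (hf.nonneg _) h4.1)]
  calc _ ≤ f (psi β h (2 * |r|)) * 1 :=
        mul_le_mul (ct_bd hβ hh hf r h3) h4.2 h4.1 (hf.nonneg _)
    _ = _ := mul_one _

private theorem ct_max : Prof (fun s => max s 0) where
  nonneg r := le_max_right _ _
  mono r r' hr := max_le_max_right _ hr
  ratio r r' h0 h1 := by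
    show max r' 0 * r ≤ max r 0 * r'
    rw [max_eq_left h0.le, max_eq_left (h0.le.trans h1), mul_comm]

private theorem ct_prof (hβ : 0 < β) (hh : 0 < h) (hν : IsNoise h ν) (he : ‖e‖ = 1)
    (hae : ∀ᵐ ξ ∂ν, Real.sqrt h * ‖ξ‖ ≤ 1 / 10 ∧ 9 / 10 ≤ ‖e + Real.sqrt h • ξ‖ ∧
        ‖e + Real.sqrt h • ξ‖ ≤ 11 / 10) (hf : Prof f) : Prof (T0 β h ν e f) where
  nonneg r := by
    apply integral_nonneg_of_ae
    filter_upwards [hae] with ξ hx
    exact mul_nonneg (hf.nonneg _) (ct_cos he (Real.sqrt_nonneg h) hx.1 hx.2.1).1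
  mono := by
    intro r r' hr
    apply integral_mono_ae (ct_int hβ hh hν he hae hf r) (ct_int hβ hh hν he hae hf r')
    filter_upwards [hae] with ξ hx
    refine mul_le_mul_of_nonneg_right (hf.mono (psi_mono hβ hh.le ?_))
      (ct_cos he (Real.sqrt_nonneg h) hx.1 hx.2.1).1
    exact mul_le_mul_of_nonneg_right hr (norm_nonneg _)
  ratio r r' h0 h1 := by
    unfold T0
    rw [← integral_mul_const, ← integral_mul_const]
    apply integral_mono_ae ((ct_int hβ hh hν he hae hf r').mul_const r)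
      ((ct_int hβ hh hν he hae hf r).mul_const r')
    filter_upwards [hae] with ξ hx
    obtain ⟨hx1, hx2, hx3⟩ := hx
    have hc := (ct_cos he (Real.sqrt_nonneg h) hx1 hx2).1
    have hz : 0 < ‖e + Real.sqrt h • ξ‖ := by linarith
    have ha : 0 < psi β h (r * ‖e + Real.sqrt h • ξ‖) := psi_pos hβ hh.le (mul_pos h0 hz)
    have hab : psi β h (r * ‖e + Real.sqrt h • ξ‖) ≤ psi β h (r' * ‖e + Real.sqrt h • ξ‖) :=
      psi_mono hβ hh.le (mul_le_mul_of_nonneg_right h1 hz.le)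
    have h3 := hf.ratio _ _ ha hab
    have h4 := psi_ratio hβ hh.le (mul_pos h0 hz) (mul_le_mul_of_nonneg_right h1 hz.le)
    rw [div_le_div_iff₀ (mul_pos (h0.trans_le h1) hz) (mul_pos h0 hz)] at h4
    have h5 : psi β h (r' * ‖e + Real.sqrt h • ξ‖) * r ≤ psi β h (r * ‖e + Real.sqrt h • ξ‖) * r' := by
      have : (psi β h (r' * ‖e + Real.sqrt h • ξ‖) * r) * ‖e + Real.sqrt h • ξ‖ ≤
          (psi β h (r * ‖e + Real.sqrt h • ξ‖) * r') * ‖e + Real.sqrt h • ξ‖ := by linarith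
      exact le_of_mul_le_mul_right this hz
    have h6 : f (psi β h (r' * ‖e + Real.sqrt h • ξ‖)) * r ≤
        f (psi β h (r * ‖e + Real.sqrt h • ξ‖)) * r' := by
      generalize psi β h (r' * ‖e + Real.sqrt h • ξ‖) = b at *
      generalize psi β h (r * ‖e + Real.sqrt h • ξ‖) = a at *
      have h7 : (f b * r) * a ≤ (f a * r') * a := by
        calc (f b * r) * a = (f b * a) * r := by ring
          _ ≤ (f a * b) * r := mul_le_mul_of_nonneg_right h3 h0.le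
          _ = f a * (b * r) := by ring
          _ ≤ f a * (a * r') := mul_le_mul_of_nonneg_left h5 (hf.nonneg a)
          _ = (f a * r') * a := by ring
      exact le_of_mul_le_mul_right h7 ha
    calc f (psi β h (r' * ‖e + Real.sqrt h • ξ‖)) *
          (inner ℝ e (e + Real.sqrt h • ξ) / ‖e + Real.sqrt h • ξ‖) * r =
        (f (psi β h (r' * ‖e + Real.sqrt h • ξ‖)) * r) *
          (inner ℝ e (e + Real.sqrt h • ξ) / ‖e + Real.sqrt h • ξ‖) := by ring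
      _ ≤ (f (psi β h (r * ‖e + Real.sqrt h • ξ‖)) * r') *
          (inner ℝ e (e + Real.sqrt h • ξ) / ‖e + Real.sqrt h • ξ‖) :=
        mul_le_mul_of_nonneg_right h6 hc
      _ = _ := by ring

private theorem ct_bdd (hh : 0 < h) {ξ : E N} (h1 : Real.sqrt h * ‖ξ‖ ≤ 1 / 10) :
    ‖ξ‖ ≤ 1 / (10 * Real.sqrt h) := by
  have hs : 0 < Real.sqrt h := Real.sqrt_pos.2 hh
  rw [le_div_iff₀ (by positivity)]
  linarith

private theorem ct_const (hh : 0 < h) (hh1 : h ≤ 1 / 1000) (hN : 2 ≤ N) (hν : IsNoise h ν) (he : ‖e‖ = 1)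
    (hae : ∀ᵐ ξ ∂ν, Real.sqrt h * ‖ξ‖ ≤ 1 / 10 ∧ 9 / 10 ≤ ‖e + Real.sqrt h • ξ‖ ∧
        ‖e + Real.sqrt h • ξ‖ ≤ 11 / 10) : T0 β h ν e (fun _ => 1) 0 ≤ 1 - h / 4 := by
  have := hν.prob
  have hN0 : (0:ℝ) < N := by
    have : 0 < N := by omega
    exact_mod_cast this
  have hN2 : (2:ℝ) ≤ N := by exact_mod_cast hN
  have i1 : Integrable (fun ξ : E N => ‖ξ‖ ^ 2) ν := by
    refine Integrable.of_bound (by fun_prop) ((1 / (10 * Real.sqrt h)) ^ 2) ?_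
    filter_upwards [hae] with ξ hx
    rw [Real.norm_eq_abs, abs_of_nonneg (by positivity)]
    exact pow_le_pow_left₀ (norm_nonneg _) (ct_bdd hh hx.1) 2
  have i2 : Integrable (fun ξ : E N => (inner ℝ e ξ) ^ 2) ν := by
    refine Integrable.of_bound (by fun_prop) ((1 / (10 * Real.sqrt h)) ^ 2) ?_
    filter_upwards [hae] with ξ hx
    rw [Real.norm_eq_abs, abs_of_nonneg (by positivity), ← sq_abs]
    refine pow_le_pow_left₀ (abs_nonneg _) ?_ 2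
    have := abs_real_inner_le_norm e ξ
    rw [he, one_mul] at this
    exact this.trans (ct_bdd hh hx.1)
  have i3 : Integrable (fun ξ => inner ℝ e (e + Real.sqrt h • ξ) / ‖e + Real.sqrt h • ξ‖) ν := by
    refine Integrable.of_bound (ct_meas_c e _).aestronglyMeasurable 1 ?_
    filter_upwards [hae] with ξ hx
    have h4 := ct_cos he (Real.sqrt_nonneg h) hx.1 hx.2.1
    rw [Real.norm_eq_abs, abs_of_nonneg h4.1]
    exact h4.2
  have h1 : ∫ ξ, inner ℝ e (e + Real.sqrt h • ξ) / ‖e + Real.sqrt h • ξ‖ ∂ν ≤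
      ∫ ξ, (1 - 2 / 5 * h * (‖ξ‖ ^ 2 - (inner ℝ e ξ) ^ 2)) ∂ν := by
    apply integral_mono_ae i3 ((integrable_const _).sub ((i1.sub i2).const_mul _))
    filter_upwards [hae] with ξ hx
    have h4 := ct_cos he (Real.sqrt_nonneg h) hx.1 hx.2.1
    have hz : 0 < ‖e + Real.sqrt h • ξ‖ := by linarith [hx.2.1]
    have h5 := ct_inner he (Real.sqrt h) ξ
    have h6 := ct_normsq he (Real.sqrt h) ξ
    rw [Real.sq_sqrt hh.le] at h6
    have h7 : inner ℝ e (e + Real.sqrt h • ξ) =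
      (inner ℝ e (e + Real.sqrt h • ξ) / ‖e + Real.sqrt h • ξ‖) * ‖e + Real.sqrt h • ξ‖ := by
      field_simp
    have h8 : (inner ℝ e ξ) ^ 2 ≤ ‖ξ‖ ^ 2 := by
      rw [← sq_abs]
      refine pow_le_pow_left₀ (abs_nonneg _) ?_ 2
      have := abs_real_inner_le_norm e ξ
      rwa [he, one_mul] at this
    have h9 : ‖e + Real.sqrt h • ξ‖ ^ 2 - (inner ℝ e (e + Real.sqrt h • ξ)) ^ 2 =
        h * (‖ξ‖ ^ 2 - (inner ℝ e ξ) ^ 2) := by
      rw [h6, h5]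
      have := Real.sq_sqrt hh.le
      linear_combination (-(inner ℝ e ξ) ^ 2) * this
    show inner ℝ e (e + Real.sqrt h • ξ) / ‖e + Real.sqrt h • ξ‖ ≤ 1 - 2 / 5 * h * (‖ξ‖ ^ 2 - (inner ℝ e ξ) ^ 2)
    have h10 : ‖e + Real.sqrt h • ξ‖ ^ 2 ≤ 121 / 100 := by
      have := hx.2.2
      nlinarith
    generalize inner ℝ e (e + Real.sqrt h • ξ) / ‖e + Real.sqrt h • ξ‖ = c at *
    generalize ‖e + Real.sqrt h • ξ‖ = z at *
    rw [h7] at h9
    have h11 : h * (‖ξ‖ ^ 2 - (inner ℝ e ξ) ^ 2) ≤ (1 - c ^ 2) * (121 / 100) := by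
      have h12 : 0 ≤ 1 - c ^ 2 := by nlinarith [h4.1, h4.2]
      nlinarith
    nlinarith [h4.1, h4.2]
  have h2 : ∫ ξ, (1 - 2 / 5 * h * (‖ξ‖ ^ 2 - (inner ℝ e ξ) ^ 2)) ∂ν =
      1 - 2 / 5 * h * ((∫ ξ, ‖ξ‖ ^ 2 ∂ν) - (∫ ξ, ‖ξ‖ ^ 2 ∂ν) / N) := by
    have i4 : Integrable (fun ξ : E N => ‖ξ‖ ^ 2 - (inner ℝ e ξ) ^ 2) ν := i1.sub i2
    rw [integral_sub (integrable_const _) (i4.const_mul _), integral_const_mul,
      integral_sub i1 i2, noise_sq hh (by omega) hν e, he]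
    simp
  have h3 := hν.le_mom
  have h4 : T0 β h ν e (fun _ => 1) 0 =
      ∫ ξ, inner ℝ e (e + Real.sqrt h • ξ) / ‖e + Real.sqrt h • ξ‖ ∂ν := by
    unfold T0
    simp only [one_mul]
  rw [h4]
  refine h1.trans ?_
  rw [h2]
  generalize ∫ ξ, ‖ξ‖ ^ 2 ∂ν = M at *
  have h5 : M - M / N = M * (N - 1) / N := by
    field_simp
  have h6 : 5 / 8 ≤ M * (N - 1) / N := by
    rw [le_div_iff₀ hN0]
    have : (N : ℝ) * (1 - h) * (N - 1) ≤ M * (N - 1) := mul_le_mul_of_nonneg_right h3 (by linarith)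
    refine le_trans ?_ this
    have h7 : 5 / 8 ≤ (1 - h) * (N - 1) := by nlinarith
    nlinarith
  rw [h5]
  nlinarith

private theorem ct_id (hβ : 0 < β) (hh : 0 < h) (hν : IsNoise h ν) (he : ‖e‖ = 1)
    (hae : ∀ᵐ ξ ∂ν, Real.sqrt h * ‖ξ‖ ≤ 1 / 10 ∧ 9 / 10 ≤ ‖e + Real.sqrt h • ξ‖ ∧
        ‖e + Real.sqrt h • ξ‖ ≤ 11 / 10) (r : ℝ) (hr : 0 ≤ r) :
    T0 β h ν e (fun s => max s 0) r ≤ r := by
  have := hν.prob
  have i1 : Integrable (fun ξ : E N => inner ℝ e ξ) ν := by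
    refine Integrable.of_bound (by fun_prop) (1 / (10 * Real.sqrt h)) ?_
    filter_upwards [hae] with ξ hx
    rw [Real.norm_eq_abs]
    have := abs_real_inner_le_norm e ξ
    rw [he, one_mul] at this
    exact this.trans (ct_bdd hh hx.1)
  have h1 : T0 β h ν e (fun s => max s 0) r ≤ ∫ ξ, r * (1 + Real.sqrt h * inner ℝ e ξ) ∂ν := by
    apply integral_mono_ae (ct_int hβ hh hν he hae ct_max r)
      (((integrable_const _).add (i1.const_mul _)).const_mul _)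
    filter_upwards [hae] with ξ hx
    have h4 := ct_cos he (Real.sqrt_nonneg h) hx.1 hx.2.1
    have hz : 0 < ‖e + Real.sqrt h • ξ‖ := by linarith [hx.2.1]
    show max (psi β h (r * ‖e + Real.sqrt h • ξ‖)) 0 *
      (inner ℝ e (e + Real.sqrt h • ξ) / ‖e + Real.sqrt h • ξ‖) ≤ r * (1 + Real.sqrt h * inner ℝ e ξ)
    rw [max_eq_left (psi_nonneg _ _ _), ← ct_inner he]
    calc psi β h (r * ‖e + Real.sqrt h • ξ‖) * (inner ℝ e (e + Real.sqrt h • ξ) / ‖e + Real.sqrt h • ξ‖)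
        ≤ (r * ‖e + Real.sqrt h • ξ‖) * (inner ℝ e (e + Real.sqrt h • ξ) / ‖e + Real.sqrt h • ξ‖) :=
          mul_le_mul_of_nonneg_right (psi_le hβ hh.le (mul_nonneg hr hz.le)) h4.1
      _ = r * inner ℝ e (e + Real.sqrt h • ξ) := by field_simp
  refine h1.trans (le_of_eq ?_)
  rw [integral_const_mul, integral_add (integrable_const _) (i1.const_mul _), integral_const_mul,
    noise_mean hh hν]
  simp

private theorem ct_indep (hν : IsNoise h ν) (he : ‖e‖ = 1) (e' : E N) (he' : ‖e'‖ = 1)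
    (f : ℝ → ℝ) (r : ℝ) : T0 β h ν e' f r = T0 β h ν e f r := by
  set L : E N ≃ₗᵢ[ℝ] E N := (Submodule.span ℝ {e - e'})ᗮ.reflection with hL
  have hLe : L e = e' := Submodule.reflection_sub (he.trans he'.symm)
  unfold T0
  rw [← noise_int_comp hν L]
  congr 1
  funext ξ
  have h1 : e' + Real.sqrt h • L ξ = L (e + Real.sqrt h • ξ) := by
    rw [map_add, hLe, map_smul]
  rw [h1, LinearIsometryEquiv.norm_map, ← hLe, LinearIsometryEquiv.inner_map_map]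

private theorem ct_vec (hβ : 0 < β) (hh : 0 < h) (hν : IsNoise h ν) (he : ‖e‖ = 1)
    (hae : ∀ᵐ ξ ∂ν, Real.sqrt h * ‖ξ‖ ≤ 1 / 10 ∧ 9 / 10 ≤ ‖e + Real.sqrt h • ξ‖ ∧
        ‖e + Real.sqrt h • ξ‖ ≤ 11 / 10) (hf : Prof f) (r : ℝ) (hr : 0 < r) :
    ∫ ξ, (f ‖hat β h (r • e) ξ‖ / ‖hat β h (r • e) ξ‖) • hat β h (r • e) ξ ∂ν
          = T0 β h ν e f r • e := by
  have := hν.prob
  -- the function of `⟪e, ξ⟫` and `‖ξ‖`
  obtain ⟨F, hF⟩ : ∃ F : ℝ → ℝ → ℝ, F = fun s t =>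
      f (psi β h (r * Real.sqrt (1 + 2 * Real.sqrt h * s + Real.sqrt h ^ 2 * t ^ 2))) /
        Real.sqrt (1 + 2 * Real.sqrt h * s + Real.sqrt h ^ 2 * t ^ 2) := ⟨_, rfl⟩
  have hFx : ∀ ξ : E N, F (inner ℝ e ξ) ‖ξ‖ =
      f (psi β h (r * ‖e + Real.sqrt h • ξ‖)) / ‖e + Real.sqrt h • ξ‖ := by
    intro ξ
    rw [hF]
    simp only []
    rw [← ct_normsq he, Real.sqrt_sq (norm_nonneg _)]
  have hm : Measurable (fun ξ : E N => F (inner ℝ e ξ) ‖ξ‖) := by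
    simp only [hFx]
    have hc : Continuous (fun ξ : E N => e + Real.sqrt h • ξ) := by fun_prop
    exact (ct_meas_f hβ hh hf e r).div hc.norm.measurable
  have hb : ∀ᵐ ξ ∂ν, ‖F (inner ℝ e ξ) ‖ξ‖‖ ≤ f (psi β h (2 * |r|)) * (10 / 9) := by
    filter_upwards [hae] with ξ hx
    have hz : 0 < ‖e + Real.sqrt h • ξ‖ := by linarith [hx.2.1]
    rw [hFx, Real.norm_eq_abs, abs_of_nonneg (div_nonneg (hf.nonneg _) hz.le), div_le_iff₀ hz]
    have h1 := ct_bd hβ hh hf r hx.2.2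
    have h2 := hf.nonneg (psi β h (2 * |r|))
    nlinarith [hx.2.1]
  have hK : 0 ≤ f (psi β h (2 * |r|)) * (10 / 9) := mul_nonneg (hf.nonneg _) (by norm_num)
  have i1 : Integrable (fun ξ : E N => F (inner ℝ e ξ) ‖ξ‖) ν :=
    Integrable.of_bound hm.aestronglyMeasurable _ hb
  have i2 : Integrable (fun ξ : E N => F (inner ℝ e ξ) ‖ξ‖ • ξ) ν := by
    refine Integrable.of_bound (hm.smul measurable_id).aestronglyMeasurable
      (f (psi β h (2 * |r|)) * (10 / 9) * (1 / (10 * Real.sqrt h))) ?_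
    filter_upwards [hae, hb] with ξ hx hbx
    rw [norm_smul]
    exact mul_le_mul hbx (ct_bdd hh hx.1) (norm_nonneg _) hK
  have i3 : Integrable (fun ξ : E N => F (inner ℝ e ξ) ‖ξ‖ * inner ℝ e ξ) ν := by
    refine Integrable.of_bound (hm.mul (by fun_prop)).aestronglyMeasurable
      (f (psi β h (2 * |r|)) * (10 / 9) * (1 / (10 * Real.sqrt h))) ?_
    filter_upwards [hae, hb] with ξ hx hbx
    rw [norm_mul]
    have := abs_real_inner_le_norm e ξ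
    rw [he, one_mul] at this
    exact mul_le_mul hbx (this.trans (ct_bdd hh hx.1)) (norm_nonneg _) hK
  have h1 : ∫ ξ, (f ‖hat β h (r • e) ξ‖ / ‖hat β h (r • e) ξ‖) • hat β h (r • e) ξ ∂ν =
      ∫ ξ, (F (inner ℝ e ξ) ‖ξ‖ • e + Real.sqrt h • (F (inner ℝ e ξ) ‖ξ‖ • ξ)) ∂ν := by
    apply integral_congr_ae
    filter_upwards [hae] with ξ hx
    have hz : 0 < ‖e + Real.sqrt h • ξ‖ := by linarith [hx.2.1]
    have hp : 0 < psi β h (r * ‖e + Real.sqrt h • ξ‖) := psi_pos hβ hh.le (mul_pos hr hz)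
    rw [norm_hat hβ hh.le hr.le he, hat_polar hβ hh.le hr.le he, smul_smul, hFx,
      smul_comm (Real.sqrt h), ← smul_add]
    congr 1
    field_simp
  have i4 : Integrable (fun ξ : E N => F (inner ℝ e ξ) ‖ξ‖ • e) ν := i1.smul_const e
  have i5 : Integrable (fun ξ : E N => Real.sqrt h • (F (inner ℝ e ξ) ‖ξ‖ • ξ)) ν := i2.smul (Real.sqrt h)
  rw [h1, integral_add i4 i5, integral_smul_const, integral_smul,
    noise_axis hh hν e he F i2, smul_smul, ← add_smul]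
  congr 1
  unfold T0
  rw [← integral_const_mul, ← integral_add i1 (i3.const_mul _)]
  apply integral_congr_ae
  filter_upwards [hae] with ξ hx
  have hz : 0 < ‖e + Real.sqrt h • ξ‖ := by linarith [hx.2.1]
  rw [hFx, ct_inner he]
  field_simp

end

theorem T0_facts (N : ℕ) (β : ℝ) (hN : 2 ≤ N) (hβ : 0 < β) :
    ∃ h0 : ℝ, 0 < h0 ∧ h0 ≤ 1 / 1000 ∧ ∀ (h : ℝ) (ν : Measure (E N)), 0 < h → h < h0 →
      IsNoise h ν → ∀ e : E N, ‖e‖ = 1 →
      (∀ᵐ ξ ∂ν, 0 ≤ inner ℝ e (e + Real.sqrt h • ξ) / ‖e + Real.sqrt h • ξ‖ ∧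
        inner ℝ e (e + Real.sqrt h • ξ) / ‖e + Real.sqrt h • ξ‖ ≤ 1) ∧
      (∀ f : ℝ → ℝ, Prof f → ∀ r : ℝ, Integrable (fun ξ =>
        f (psi β h (r * ‖e + Real.sqrt h • ξ‖)) *
          (inner ℝ e (e + Real.sqrt h • ξ) / ‖e + Real.sqrt h • ξ‖)) ν) ∧
      (∀ f : ℝ → ℝ, Prof f → Prof (T0 β h ν e f)) ∧
      (∀ f f' : ℝ → ℝ, Prof f → Prof f' → (∀ r, 0 ≤ r → f r ≤ f' r) →
        ∀ r, T0 β h ν e f r ≤ T0 β h ν e f' r) ∧
      (T0 β h ν e (fun _ => 1) 0 ≤ 1 - h / 4) ∧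
      (∀ r r' : ℝ, T0 β h ν e (fun _ => 1) r = T0 β h ν e (fun _ => 1) r') ∧
      (∀ r, 0 ≤ r → T0 β h ν e (fun s => max s 0) r ≤ r) ∧
      (∀ e' : E N, ‖e'‖ = 1 → ∀ (f : ℝ → ℝ) (r : ℝ), T0 β h ν e' f r = T0 β h ν e f r) ∧
      (∀ f : ℝ → ℝ, Prof f → f 0 = 0 → ∀ r, 0 < r →
        ∫ ξ, (f ‖hat β h (r • e) ξ‖ / ‖hat β h (r • e) ξ‖) • hat β h (r • e) ξ ∂ν
          = T0 β h ν e f r • e) := by
  obtain ⟨h0, h1, h2, h3⟩ := ct_ae N
  refine ⟨h0, h1, h2, fun h ν hh hlt hν e he => ?_⟩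
  have hae := h3 h ν hh hlt hν e he
  refine ⟨?_, fun f hf r => ct_int hβ hh hν he hae hf r, fun f hf => ct_prof hβ hh hν he hae hf,
    fun f f' hf hf' hff r => ?_, ct_const hh (hlt.le.trans h2) hN hν he hae, fun r r' => rfl,
    fun r hr => ct_id hβ hh hν he hae r hr, fun e' he' f r => ct_indep hν he e' he' f r,
    fun f hf _ r hr => ct_vec hβ hh hν he hae hf r hr⟩
  · filter_upwards [hae] with ξ hx
    exact ct_cos he (Real.sqrt_nonneg h) hx.1 hx.2.1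
  · apply integral_mono_ae (ct_int hβ hh hν he hae hf r) (ct_int hβ hh hν he hae hf' r)
    filter_upwards [hae] with ξ hx
    exact mul_le_mul_of_nonneg_right (hff _ (psi_nonneg _ _ _))
      (ct_cos he (Real.sqrt_nonneg h) hx.1 hx.2.1).1

end Dyn
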