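import Pool.Agent.Lib_MP_36b788.SDefs

/-!
# Definition of the weighted difference `D̃_x = Σ_z b^{|x-z|}‖D_z‖`
-/

open MeasureTheory

namespace Dyn

noncomputable section

/-- weighted difference -/
def Dt {N d : ℕ} {ι : Type} [Fintype ι] (net : Net ι d) (b : ℝ) (G G' : ι → E N) (x : ι) : ℝ :=
  ∑ z, b ^ net.dist x z * ‖G z - G' z‖

end

end Dyn
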