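import Pool.Agent.Lib_MP_36b788.DSite
import Pool.Agent.Lib_MP_36b788.DtDef
import Pool.Agent.Lib_MP_36b788.LSH

/-!
# DLOG: one step of the weighted difference `D̃_x = Σ_z (Bk)^{|x-z|}‖D_z‖`

Coupled chain: copy 1 driven by `ξ`, copy 2 by `(Q_z ξ_z)`. `w_x = ‖D_x‖/D̃_x`. `B ≥ 1`, `Bk ≤ 1/4`.

PROOF. Let `Q_z, e_z, K_z` from DSITE for each site, `ζ_z = ‖e_z+√hξ_z‖`.
`‖D_z⁺‖ ≤ ζ_z g_z‖D_z‖ + kh(Σ_{w~z}‖D_w‖ + 2d‖D_z‖)`, `g_z = 1` or the factor of DSITE. Weighted sum: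
`Σ_z (Bk)^{|x-z|}k Σ_{w~z}‖D_w‖ ≤ Σ_w‖D_w‖ 2d k (Bk)^{|x-w|-1} ≤ (2d/B) D̃_x` (for `|x-w| = 0`: `2dk·Bk ≤ 2d/B`·…
since `|x-z| = 1` there and `k·Bk ≤ 1/B` because `(Bk)² ≤ 1`; in general `(Bk)^{|x-z|} ≤ (Bk)^{|x-w|-1}` for
`|x-z| ≥ |x-w|-1`, `Bk ≤ 1`). So with `v_z = (Bk)^{|x-z|}‖D_z‖/D̃_x` (`Σv = 1`), and `k ≤ 1/B`:
`D̃_x⁺ ≤ D̃_x [Σ_z v_zζ_zg_z + 4d h/B]`.
General: `u := Σ v_z(ζ_z-1) + 4dh/B`, `1+u ≤ e^u`. `∫(ζ-1) ≤ ½(N-1)h + C h^{9/8} ≤ N h`; `∫u² ≤ 2Σv_z∫(ζ_z-1)²+… ≤ 4h`.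
Dominated (`w_x = v_x ≥ 1-δ1`, so `D_x ≠ 0`): `D̃⁺/D̃ ≤ ζ_x(1+p)`,
`p = v_x(g_x-1) + Σ_{z≠x}v_z(ζ_z/ζ_x-1) + 8dh/B` (`ζ_x ≥ 1/2`), `u := log ζ_x + p`.
`∫log ζ_x ≤ ½(N-2)h + C h^{9/8}`; `∫(g_x-1) ≤ -½(1-ar)(N-2)h - h dmp + C h^{9/8}` (`∫‖P_{K⊥}ξ‖² = (N-2)v`, NMOM, and
`1/ζ² = 1+O(ℓ)`); `v_x(…) ≤ …·(1-δ1)` for the negative `dmp` part, and
`-v_x½(1-ar)(N-2) ≤ -½(1-ar)(N-2) + ½δ1(N-2)`; `∫(ζ_z/ζ_x-1) ≤ C h` by independence (LOGZ for `∫ζ`, `∫1/ζ`). Sum:
`∫u ≤ h[½(N-2)ar - (1-δ1)dmp + CD(δ1+1/B)] + C2h^{9/8}`. `∫u² ≤ CD h`: `(h dmp)² ≤ C h^{3/2}`.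
If `D̃_x = 0`: then `D̃_x⁺ = 0` (if `k > 0` all `D_z = 0`; if `k = 0` only `D_x` matters), any `u` works (`u=0`).
-/

open MeasureTheory

namespace Dyn

theorem dl_ae_pim {ι : Type} [Fintype ι] {N : ℕ} {ν : Measure (E N)} [IsProbabilityMeasure ν]
    {P : ι → E N → Prop} (hP : ∀ z, ∀ᵐ ξ ∂ν, P z ξ) : ∀ᵐ ξ ∂(pim ι ν), ∀ z, P z (ξ z) := by
  rw [ae_all_iff]
  intro z
  exact (measurePreserving_eval (fun _ : ι => ν) z).quasiMeasurePreserving.ae (hP z)

theorem dl_integral_pim {ι : Type} [Fintype ι] {N : ℕ} {ν : Measure (E N)}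
    [IsProbabilityMeasure ν] (z : ι) (f : E N → ℝ) (hf : Measurable f) :
    ∫ ξ, f (ξ z) ∂(pim ι ν) = ∫ ξ, f ξ ∂ν := by
  have h1 := (measurePreserving_eval (fun _ : ι => ν) z).map_eq
  have h2 : ∫ ξ, f ξ ∂((pim ι ν).map (Function.eval z)) = ∫ ξ, f (Function.eval z ξ) ∂(pim ι ν) :=
    integral_map (measurable_pi_apply z).aemeasurable hf.aestronglyMeasurable
  unfold pim at h2 ⊢
  rw [h1] at h2
  exact h2.symm

theorem dl_integrable {α : Type*} [MeasurableSpace α] {μ : Measure α} [IsFiniteMeasure μ]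
    {f : α → ℝ} (hf : Measurable f) (m : ℝ) (hm : ∀ᵐ x ∂μ, |f x| ≤ m) : Integrable f μ :=
  Integrable.of_bound hf.aestronglyMeasurable m (by simpa [Real.norm_eq_abs] using hm)

theorem dl_wsq {ι : Type} [Fintype ι] (a r : ι → ℝ) (ha : ∀ z, 0 ≤ a z) (ha1 : ∑ z, a z ≤ 1) :
    (∑ z, a z * r z) ^ 2 ≤ ∑ z, a z * r z ^ 2 := by
  have h1 : (∑ z, a z * r z) ^ 2 ≤ (∑ z, a z) * ∑ z, a z * r z ^ 2 :=
    Finset.sum_sq_le_sum_mul_sum_of_sq_le_mul _ (fun z _ => ha z)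
      (fun z _ => mul_nonneg (ha z) (sq_nonneg _)) (fun z _ => le_of_eq (by ring))
  have h2 : 0 ≤ ∑ z, a z * r z ^ 2 := Finset.sum_nonneg fun z _ => mul_nonneg (ha z) (sq_nonneg _)
  nlinarith

theorem dl_u {ι : Type} [Fintype ι] {N : ℕ} {ν : Measure (E N)} [IsProbabilityMeasure ν] (x : ι)
    (F : E N → ℝ) (R : ι → E N → ℝ) (a : ι → ℝ) (c m : ℝ) (hF : Measurable F)
    (hR : ∀ z, Measurable (R z)) (ha : ∀ z, 0 ≤ a z) (ha1 : ∑ z, a z ≤ 1)
    (hm : 0 ≤ m) (hFm : ∀ᵐ ξ ∂ν, |F ξ| ≤ m) (hRm : ∀ z, ∀ᵐ ξ ∂ν, |R z ξ| ≤ m) :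
    Measurable (fun ξ : ι → E N => F (ξ x) + ∑ z, a z * R z (ξ z) + c) ∧
    (∀ᵐ ξ ∂(pim ι ν), |F (ξ x) + ∑ z, a z * R z (ξ z) + c| ≤ 2 * m + |c|) ∧
    (∫ ξ, (F (ξ x) + ∑ z, a z * R z (ξ z) + c) ∂(pim ι ν)
      = ∫ ξ, F ξ ∂ν + ∑ z, a z * ∫ ξ, R z ξ ∂ν + c) ∧
    (∫ ξ, (F (ξ x) + ∑ z, a z * R z (ξ z) + c) ^ 2 ∂(pim ι ν)
      ≤ 3 * ∫ ξ, F ξ ^ 2 ∂ν + 3 * ∑ z, a z * ∫ ξ, R z ξ ^ 2 ∂ν + 3 * c ^ 2) := by
  have : IsProbabilityMeasure (pim ι ν) := by unfold pim; infer_instance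
  have mF : Measurable (fun ξ : ι → E N => F (ξ x)) := hF.comp (measurable_pi_apply x)
  have mR : ∀ z, Measurable (fun ξ : ι → E N => R z (ξ z)) := fun z =>
    (hR z).comp (measurable_pi_apply z)
  have aF : ∀ᵐ ξ ∂(pim ι ν), |F (ξ x)| ≤ m := by
    have := dl_ae_pim (ι := ι) (ν := ν) (P := fun _ ξ => |F ξ| ≤ m) (fun _ => hFm)
    filter_upwards [this] with ξ h using h x
  have aR : ∀ᵐ ξ ∂(pim ι ν), ∀ z, |R z (ξ z)| ≤ m := dl_ae_pim hRm
  have iF : Integrable (fun ξ : ι → E N => F (ξ x)) (pim ι ν) := dl_integrable mF m aF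
  have iR : ∀ z, Integrable (fun ξ : ι → E N => R z (ξ z)) (pim ι ν) := fun z =>
    dl_integrable (mR z) m (by filter_upwards [aR] with ξ h using h z)
  have mS : Measurable (fun ξ : ι → E N => ∑ z, a z * R z (ξ z)) :=
    Finset.measurable_sum _ fun z _ => (mR z).const_mul _
  have iS : Integrable (fun ξ : ι → E N => ∑ z, a z * R z (ξ z)) (pim ι ν) :=
    integrable_finsetSum _ fun z _ => (iR z).const_mul _
  have mu : Measurable (fun ξ : ι → E N => F (ξ x) + ∑ z, a z * R z (ξ z) + c) :=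
    (mF.add mS).add_const c
  have bd : ∀ᵐ ξ ∂(pim ι ν), |F (ξ x) + ∑ z, a z * R z (ξ z) + c| ≤ 2 * m + |c| := by
    filter_upwards [aF, aR] with ξ h1 h2
    have h3 : |∑ z, a z * R z (ξ z)| ≤ m := by
      calc |∑ z, a z * R z (ξ z)| ≤ ∑ z, |a z * R z (ξ z)| := Finset.abs_sum_le_sum_abs _ _
        _ ≤ ∑ z, a z * m := by
            apply Finset.sum_le_sum
            intro z _
            rw [abs_mul, abs_of_nonneg (ha z)]
            exact mul_le_mul_of_nonneg_left (h2 z) (ha z)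
        _ = (∑ z, a z) * m := by rw [Finset.sum_mul]
        _ ≤ 1 * m := mul_le_mul_of_nonneg_right ha1 hm
        _ = m := one_mul m
    calc |F (ξ x) + ∑ z, a z * R z (ξ z) + c|
        ≤ |F (ξ x) + ∑ z, a z * R z (ξ z)| + |c| := abs_add_le _ _
      _ ≤ |F (ξ x)| + |∑ z, a z * R z (ξ z)| + |c| := by
          gcongr; exact abs_add_le _ _
      _ ≤ 2 * m + |c| := by linarith
  refine ⟨mu, bd, ?_, ?_⟩
  · have iFS : Integrable (fun ξ : ι → E N => F (ξ x) + ∑ z, a z * R z (ξ z)) (pim ι ν) :=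
      iF.add iS
    rw [integral_add iFS (integrable_const c), integral_add iF iS,
      integral_finsetSum _ (fun z _ => (iR z).const_mul _)]
    simp only [integral_const_mul, integral_const, probReal_univ, smul_eq_mul, one_mul]
    rw [dl_integral_pim x F hF]
    congr 2
    apply Finset.sum_congr rfl
    intro z _
    rw [dl_integral_pim z (R z) (hR z)]
  · have iF2 : Integrable (fun ξ : ι → E N => F (ξ x) ^ 2) (pim ι ν) :=
      dl_integrable (mF.pow_const 2) (m ^ 2) (by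
        filter_upwards [aF] with ξ h
        rw [abs_pow]; exact pow_le_pow_left₀ (abs_nonneg _) h 2)
    have iR2 : ∀ z, Integrable (fun ξ : ι → E N => R z (ξ z) ^ 2) (pim ι ν) := fun z =>
      dl_integrable ((mR z).pow_const 2) (m ^ 2) (by
        filter_upwards [aR] with ξ h
        rw [abs_pow]; exact pow_le_pow_left₀ (abs_nonneg _) (h z) 2)
    have iS2 : Integrable (fun ξ : ι → E N => ∑ z, a z * R z (ξ z) ^ 2) (pim ι ν) :=
      integrable_finsetSum _ fun z _ => (iR2 z).const_mul _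
    have iu2 : Integrable (fun ξ : ι → E N => (F (ξ x) + ∑ z, a z * R z (ξ z) + c) ^ 2)
        (pim ι ν) :=
      dl_integrable (mu.pow_const 2) ((2 * m + |c|) ^ 2) (by
        filter_upwards [bd] with ξ h
        rw [abs_pow]; exact pow_le_pow_left₀ (abs_nonneg _) h 2)
    have i1 : Integrable (fun ξ : ι → E N => 3 * F (ξ x) ^ 2
        + 3 * ∑ z, a z * R z (ξ z) ^ 2) (pim ι ν) := (iF2.const_mul 3).add (iS2.const_mul 3)
    have i2 : Integrable (fun ξ : ι → E N => 3 * F (ξ x) ^ 2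
        + 3 * ∑ z, a z * R z (ξ z) ^ 2 + 3 * c ^ 2) (pim ι ν) := i1.add (integrable_const _)
    have hle : ∫ ξ, (F (ξ x) + ∑ z, a z * R z (ξ z) + c) ^ 2 ∂(pim ι ν) ≤
        ∫ ξ, (3 * F (ξ x) ^ 2 + 3 * ∑ z, a z * R z (ξ z) ^ 2 + 3 * c ^ 2) ∂(pim ι ν) := by
      apply integral_mono iu2 i2
      intro ξ
      have h1 := dl_wsq a (fun z => R z (ξ z)) ha ha1
      simp only at h1 ⊢
      nlinarith [sq_nonneg (F (ξ x) - ∑ z, a z * R z (ξ z)), sq_nonneg (F (ξ x) - c),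
        sq_nonneg (∑ z, a z * R z (ξ z) - c)]
    refine hle.trans (le_of_eq ?_)
    rw [integral_add i1 (integrable_const _),
      integral_add (iF2.const_mul 3) (iS2.const_mul 3), integral_const_mul, integral_const_mul,
      integral_finsetSum _ (fun z _ => (iR2 z).const_mul _)]
    simp only [integral_const_mul, integral_const, probReal_univ, smul_eq_mul, one_mul]
    rw [dl_integral_pim x (fun ξ => F ξ ^ 2) (hF.pow_const 2)]
    congr 3
    apply Finset.sum_congr rfl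
    intro z _
    rw [dl_integral_pim z (fun ξ => R z ξ ^ 2) ((hR z).pow_const 2)]

theorem dl_coup {N d : ℕ} {ι : Type} [Fintype ι] (net : Net ι d) (B k : ℝ) (hB : 1 ≤ B)
    (hk : 0 ≤ k) (hb : B * k ≤ 1) (hkB : k ≤ 1 / B) (G G' : ι → E N) (x : ι) :
    ∑ z, (B * k) ^ net.dist x z * (k * ‖coup net G z - coup net G' z‖) ≤
      4 * d / B * Dt net (B * k) G G' x := by
  classical
  have hB0 : 0 < B := by linarith
  have hb0 : 0 ≤ B * k := by positivity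
  have h1 : ∀ z, ‖coup net G z - coup net G' z‖ ≤
      ∑ w ∈ net.nb z, ‖G w - G' w‖ + 2 * d * ‖G z - G' z‖ := by
    intro z
    have : coup net G z - coup net G' z =
        ∑ w ∈ net.nb z, (G w - G' w) - ((2 * d : ℕ) : ℝ) • (G z - G' z) := by
      unfold coup
      rw [Finset.sum_sub_distrib, smul_sub]; abel
    rw [this]
    calc _ ≤ ‖∑ w ∈ net.nb z, (G w - G' w)‖ + ‖((2 * d : ℕ) : ℝ) • (G z - G' z)‖ :=
          norm_sub_le _ _
      _ ≤ _ := by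
          gcongr
          · exact norm_sum_le _ _
          · rw [norm_smul, Real.norm_of_nonneg (by positivity)]
            push_cast; exact le_rfl
  have hkb : ∀ z w, w ∈ net.nb z → (B * k) ^ net.dist x z * k ≤ 1 / B * (B * k) ^ net.dist x w := by
    intro z w hw
    have h2 : net.dist x w ≤ net.dist x z + 1 := by
      have := net.dist_tri x z w
      rwa [net.dist_nb z w hw] at this
    have h3 : (B * k) ^ (net.dist x z + 1) ≤ (B * k) ^ net.dist x w :=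
      pow_le_pow_of_le_one hb0 hb h2
    have h4 : (B * k) ^ net.dist x z * k = 1 / B * (B * k) ^ (net.dist x z + 1) := by
      rw [pow_succ]; field_simp
    rw [h4]
    gcongr
  calc ∑ z, (B * k) ^ net.dist x z * (k * ‖coup net G z - coup net G' z‖)
      ≤ ∑ z, (B * k) ^ net.dist x z * (k * (∑ w ∈ net.nb z, ‖G w - G' w‖
          + 2 * d * ‖G z - G' z‖)) := by
        apply Finset.sum_le_sum
        intro z _
        have := h1 z
        gcongr
    _ = ∑ z, ∑ w ∈ net.nb z, (B * k) ^ net.dist x z * k * ‖G w - G' w‖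
        + 2 * d * k * ∑ z, (B * k) ^ net.dist x z * ‖G z - G' z‖ := by
        rw [Finset.mul_sum, ← Finset.sum_add_distrib]
        apply Finset.sum_congr rfl
        intro z _
        rw [← Finset.mul_sum]
        ring
    _ ≤ ∑ z, ∑ w ∈ net.nb z, 1 / B * ((B * k) ^ net.dist x w * ‖G w - G' w‖)
        + 2 * d * (1 / B) * ∑ z, (B * k) ^ net.dist x z * ‖G z - G' z‖ := by
        have hs : 0 ≤ ∑ z, (B * k) ^ net.dist x z * ‖G z - G' z‖ :=
          Finset.sum_nonneg fun z _ => by positivity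
        apply add_le_add
        · apply Finset.sum_le_sum
          intro z _
          apply Finset.sum_le_sum
          intro w hw
          rw [← mul_assoc]
          exact mul_le_mul_of_nonneg_right (hkb z w hw) (norm_nonneg _)
        · gcongr
    _ ≤ 2 * d * (1 / B) * ∑ z, (B * k) ^ net.dist x z * ‖G z - G' z‖
        + 2 * d * (1 / B) * ∑ z, (B * k) ^ net.dist x z * ‖G z - G' z‖ := by
        have hsw : ∑ z, ∑ w ∈ net.nb z, 1 / B * ((B * k) ^ net.dist x w * ‖G w - G' w‖)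
            = ∑ w, ∑ z ∈ net.nb w, 1 / B * ((B * k) ^ net.dist x w * ‖G w - G' w‖) := by
          apply Finset.sum_comm'
          intro z w
          constructor
          · rintro ⟨_, h⟩
            exact ⟨net.nb_symm z w h, Finset.mem_univ _⟩
          · rintro ⟨h, _⟩
            exact ⟨Finset.mem_univ _, net.nb_symm w z h⟩
        rw [hsw]
        gcongr
        rw [Finset.mul_sum]
        apply Finset.sum_le_sum
        intro w _
        rw [Finset.sum_const, nsmul_eq_mul]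
        have h5 : ((net.nb w).card : ℝ) ≤ 2 * d := by exact_mod_cast net.nb_card w
        have h6 : 0 ≤ (B * k) ^ net.dist x w * ‖G w - G' w‖ := by positivity
        have h7 : 0 ≤ 1 / B * ((B * k) ^ net.dist x w * ‖G w - G' w‖) := by positivity
        calc _ ≤ 2 * d * (1 / B * ((B * k) ^ net.dist x w * ‖G w - G' w‖)) :=
              mul_le_mul_of_nonneg_right h5 h7
          _ = _ := by ring
    _ = 4 * d / B * Dt net (B * k) G G' x := by
        unfold Dt; ring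

theorem dl_stp {N d : ℕ} {ι : Type} [Fintype ι] (net : Net ι d) (β h B k : ℝ) (hh : 0 ≤ h)
    (hB : 1 ≤ B) (hk : 0 ≤ k) (hb : B * k ≤ 1) (hkB : k ≤ 1 / B) (G G' : ι → E N) (x : ι)
    (ξ ξ' : ι → E N) (s : ι → ℝ)
    (hs : ∀ z, ‖hat β h (G z) (ξ z) - hat β h (G' z) (ξ' z)‖ ≤ s z) :
    Dt net (B * k) (stp net β h k G ξ) (stp net β h k G' ξ') x ≤
      ∑ z, (B * k) ^ net.dist x z * s z + h * (4 * d / B) * Dt net (B * k) G G' x := by
  have hb0 : 0 ≤ B * k := mul_nonneg (by linarith) hk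
  have h1 : ∀ z, ‖stp net β h k G ξ z - stp net β h k G' ξ' z‖ ≤
      s z + h * (k * ‖coup net G z - coup net G' z‖) := by
    intro z
    have : stp net β h k G ξ z - stp net β h k G' ξ' z =
        (hat β h (G z) (ξ z) - hat β h (G' z) (ξ' z))
          + (k * h) • (coup net G z - coup net G' z) := by
      unfold stp
      rw [smul_sub]; abel
    rw [this]
    calc _ ≤ ‖hat β h (G z) (ξ z) - hat β h (G' z) (ξ' z)‖
          + ‖(k * h) • (coup net G z - coup net G' z)‖ := norm_add_le _ _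
      _ ≤ s z + h * (k * ‖coup net G z - coup net G' z‖) := by
          rw [norm_smul, Real.norm_of_nonneg (by positivity)]
          have := hs z
          nlinarith
  have h2 := dl_coup net B k hB hk hb hkB G G' x
  calc Dt net (B * k) (stp net β h k G ξ) (stp net β h k G' ξ') x
      ≤ ∑ z, (B * k) ^ net.dist x z * (s z + h * (k * ‖coup net G z - coup net G' z‖)) := by
        unfold Dt
        apply Finset.sum_le_sum
        intro z _
        exact mul_le_mul_of_nonneg_left (h1 z) (pow_nonneg hb0 _)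
    _ = ∑ z, (B * k) ^ net.dist x z * s z
        + h * ∑ z, (B * k) ^ net.dist x z * (k * ‖coup net G z - coup net G' z‖) := by
        rw [Finset.mul_sum, ← Finset.sum_add_distrib]
        apply Finset.sum_congr rfl
        intro z _
        ring
    _ ≤ _ := by
        have := mul_le_mul_of_nonneg_left h2 hh
        nlinarith

/-- powers of `h` -/
theorem dl_pows {h : ℝ} (hh : 0 < h) (hh1 : h < 1 / 1000) :
    h ≤ h ^ (3 / 8 : ℝ) ∧ h ^ (3 / 4 : ℝ) = (h ^ (3 / 8 : ℝ)) ^ 2 ∧ h ^ (9 / 8 : ℝ) ≤ h ∧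
      h * h ^ (3 / 8 : ℝ) ≤ h ^ (9 / 8 : ℝ) ∧ h * h ≤ h ^ (9 / 8 : ℝ) ∧
      h ^ (9 / 8 : ℝ) = (h ^ (3 / 8 : ℝ)) ^ 3 ∧ (h ^ (3 / 8 : ℝ)) ^ 4 ≤ h ∧
      0 < h ^ (3 / 8 : ℝ) := by
  have h1 : h ≤ 1 := by linarith
  refine ⟨?_, ?_, ?_, ?_, ?_, ?_, ?_, ?_⟩
  · calc h = h ^ (1 : ℝ) := (Real.rpow_one h).symm
      _ ≤ h ^ (3 / 8 : ℝ) := Real.rpow_le_rpow_of_exponent_ge hh h1 (by norm_num)
  · rw [← Real.rpow_natCast (h ^ (3 / 8 : ℝ)) 2, ← Real.rpow_mul hh.le]; norm_num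
  · calc h ^ (9 / 8 : ℝ) ≤ h ^ (1 : ℝ) := Real.rpow_le_rpow_of_exponent_ge hh h1 (by norm_num)
      _ = h := Real.rpow_one h
  · calc h * h ^ (3 / 8 : ℝ) = h ^ (1 : ℝ) * h ^ (3 / 8 : ℝ) := by rw [Real.rpow_one]
      _ = h ^ (1 + 3 / 8 : ℝ) := (Real.rpow_add hh _ _).symm
      _ ≤ h ^ (9 / 8 : ℝ) := Real.rpow_le_rpow_of_exponent_ge hh h1 (by norm_num)
  · calc h * h = h ^ (1 : ℝ) * h ^ (1 : ℝ) := by rw [Real.rpow_one]
      _ = h ^ (1 + 1 : ℝ) := (Real.rpow_add hh _ _).symm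
      _ ≤ h ^ (9 / 8 : ℝ) := Real.rpow_le_rpow_of_exponent_ge hh h1 (by norm_num)
  · rw [← Real.rpow_natCast (h ^ (3 / 8 : ℝ)) 3, ← Real.rpow_mul hh.le]; norm_num
  · rw [← Real.rpow_natCast (h ^ (3 / 8 : ℝ)) 4, ← Real.rpow_mul hh.le]
    calc h ^ (3 / 8 * ((4 : ℕ) : ℝ)) ≤ h ^ (1 : ℝ) :=
          Real.rpow_le_rpow_of_exponent_ge hh h1 (by norm_num)
      _ = h := Real.rpow_one h
  · exact Real.rpow_pos_of_pos hh _

/-- the one-site function of a neighbour -/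
theorem dl_R (N : ℕ) (hN : 1 ≤ N) : ∃ C h0 : ℝ, 0 < C ∧ 0 < h0 ∧ h0 ≤ 1 / 1000 ∧
    ∀ (h : ℝ) (ν : Measure (E N)), 0 < h → h < h0 → IsNoise h ν → ∀ e : E N, ‖e‖ = 1 →
      Measurable (fun ξ : E N => ‖e + Real.sqrt h • ξ‖) ∧
      (∀ᵐ ξ ∂ν, |‖e + Real.sqrt h • ξ‖ - 1| ≤ h ^ (3 / 8 : ℝ) ∧
        |Real.log ‖e + Real.sqrt h • ξ‖| ≤ 2 * h ^ (3 / 8 : ℝ) ∧ h ^ (3 / 8 : ℝ) ≤ 1 / 10) ∧
      (∫ ξ, Real.log ‖e + Real.sqrt h • ξ‖ ∂ν ≤ 1 / 2 * (N - 2) * h + C * h ^ (9 / 8 : ℝ)) ∧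
      (∫ ξ, (Real.log ‖e + Real.sqrt h • ξ‖) ^ 2 ∂ν ≤ (1 + C) * h) ∧
      (∫ ξ, (‖e + Real.sqrt h • ξ‖ - 1) ∂ν ≤ (N + C) * h) ∧
      (∫ ξ, (‖e + Real.sqrt h • ξ‖ - 1) ^ 2 ∂ν ≤ (1 + C) * h) ∧
      (∫ ξ, (1 / ‖e + Real.sqrt h • ξ‖ - 1) ∂ν ≤ (2 + C) * h) ∧
      (∫ ξ, ((‖e + Real.sqrt h • ξ‖ - 1) + 1 / 2 * (‖e + Real.sqrt h • ξ‖ - 1) ^ 2) ∂ν
        ≤ (1 + N + 2 * C) * h) ∧
      (∫ ξ, ((‖e + Real.sqrt h • ξ‖ - 1) + 1 / 2 * (‖e + Real.sqrt h • ξ‖ - 1) ^ 2) ^ 2 ∂ν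
        ≤ 3 * (1 + C) * h) := by
  obtain ⟨hz, hz0, hz1, Hz⟩ := zeta_ae N
  obtain ⟨C, h3, hC, h30, H3⟩ := logz N hN
  refine ⟨C, min hz h3, hC, lt_min hz0 h30, (min_le_left _ _).trans hz1, ?_⟩
  intro h ν hh hlt hν e he
  have hp := hν.prob
  have hlz : h < hz := hlt.trans_le (min_le_left _ _)
  have hl3 : h < h3 := hlt.trans_le (min_le_right _ _)
  have hh1 : h < 1 / 1000 := hlz.trans_le hz1
  obtain ⟨p1, p2, p3, p4, p5, p6, p7, p8⟩ := dl_pows hh hh1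
  have hae := Hz h ν hh hlz hν e he
  obtain ⟨a1, a2, a3, a4, a5⟩ := H3 h ν hh hl3 hν e he
  have mz : Measurable (fun ξ : E N => ‖e + Real.sqrt h • ξ‖) := by
    have : Continuous (fun ξ : E N => ‖e + Real.sqrt h • ξ‖) := by fun_prop
    exact this.measurable
  have hN' : (1 : ℝ) ≤ N := by exact_mod_cast hN
  have iz : Integrable (fun ξ : E N => ‖e + Real.sqrt h • ξ‖) ν :=
    dl_integrable mz 2 (by
      filter_upwards [hae] with ξ ⟨b1, _, b3⟩
      rw [abs_le] at b1 ⊢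
      constructor <;> linarith [b1.1, b1.2])
  have iz1 : Integrable (fun ξ : E N => ‖e + Real.sqrt h • ξ‖ - 1) ν := iz.sub (integrable_const _)
  have iinv : Integrable (fun ξ : E N => 1 / ‖e + Real.sqrt h • ξ‖) ν :=
    dl_integrable (measurable_const.div mz) 2 (by
      filter_upwards [hae] with ξ ⟨b1, _, b3⟩
      rw [abs_le] at b1
      have h5 : (9 / 10 : ℝ) ≤ ‖e + Real.sqrt h • ξ‖ := by linarith [b1.1]
      rw [abs_of_nonneg (by positivity), div_le_iff₀ (by linarith)]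
      linarith)
  have isq : Integrable (fun ξ : E N => (‖e + Real.sqrt h • ξ‖ - 1) ^ 2) ν :=
    dl_integrable ((mz.sub_const 1).pow_const 2) 1 (by
      filter_upwards [hae] with ξ ⟨b1, _, b3⟩
      rw [abs_pow]
      exact pow_le_one₀ (abs_nonneg _) (b1.trans (by linarith)))
  rw [abs_le] at a1 a2 a3 a4 a5
  have hChb : C * h ^ (9 / 8 : ℝ) ≤ C * h := mul_le_mul_of_nonneg_left p3 hC.le
  have hNh : 0 ≤ (N : ℝ) * h := by positivity
  have e1 : ∫ ξ, (‖e + Real.sqrt h • ξ‖ - 1) ∂ν = ∫ ξ, ‖e + Real.sqrt h • ξ‖ ∂ν - 1 := by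
    rw [integral_sub iz (integrable_const _)]; simp
  have e2 : ∫ ξ, (1 / ‖e + Real.sqrt h • ξ‖ - 1) ∂ν = ∫ ξ, 1 / ‖e + Real.sqrt h • ξ‖ ∂ν - 1 := by
    rw [integral_sub iinv (integrable_const _)]; simp
  have e3 : ∫ ξ, ((‖e + Real.sqrt h • ξ‖ - 1) + 1 / 2 * (‖e + Real.sqrt h • ξ‖ - 1) ^ 2) ∂ν
      = ∫ ξ, (‖e + Real.sqrt h • ξ‖ - 1) ∂ν + 1 / 2 * ∫ ξ, (‖e + Real.sqrt h • ξ‖ - 1) ^ 2 ∂ν := by
    rw [integral_add iz1 (isq.const_mul _), integral_const_mul]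
  have c1 : ∫ ξ, (‖e + Real.sqrt h • ξ‖ - 1) ∂ν ≤ (N + C) * h := by
    rw [e1]; linarith [a3.2]
  have c2 : ∫ ξ, (‖e + Real.sqrt h • ξ‖ - 1) ^ 2 ∂ν ≤ (1 + C) * h := by linarith [a4.2]
  refine ⟨mz, hae, by linarith [a1.2], by linarith [a2.2], c1, c2, ?_, ?_, ?_⟩
  · rw [e2]; linarith [a5.2]
  · rw [e3]; linarith
  · have iq : Integrable (fun ξ : E N => 3 * (‖e + Real.sqrt h • ξ‖ - 1) ^ 2) ν := isq.const_mul _
    have : ∫ ξ, ((‖e + Real.sqrt h • ξ‖ - 1) + 1 / 2 * (‖e + Real.sqrt h • ξ‖ - 1) ^ 2) ^ 2 ∂ν ≤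
        ∫ ξ, 3 * (‖e + Real.sqrt h • ξ‖ - 1) ^ 2 ∂ν := by
      apply integral_mono_of_nonneg (Filter.Eventually.of_forall fun _ => sq_nonneg _) iq
      filter_upwards [hae] with ξ ⟨b1, _, b3⟩
      rw [abs_le] at b1
      set t := ‖e + Real.sqrt h • ξ‖ - 1 with ht
      have t1 : -1 ≤ t := by linarith [b1.1]
      have t2 : t ≤ 1 := by linarith [b1.2]
      have : (t + 1 / 2 * t ^ 2) ^ 2 = t ^ 2 * (1 + t / 2) ^ 2 := by ring
      rw [this]
      have h6 : (1 + t / 2) ^ 2 ≤ (3 / 2) ^ 2 :=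
        pow_le_pow_left₀ (by linarith) (by linarith) 2
      calc t ^ 2 * (1 + t / 2) ^ 2 ≤ t ^ 2 * 3 :=
            mul_le_mul_of_nonneg_left (by linarith) (sq_nonneg t)
        _ = 3 * t ^ 2 := by ring
    rw [integral_const_mul] at this
    linarith

theorem dl_dmp {N : ℕ} {β h : ℝ} (hβ : 1 < β) (hh : 0 < h) (hh1 : h < 1) (g g' : E N)
    (hg : ‖g‖ ≤ rad β h) (hg' : ‖g'‖ ≤ rad β h) :
    0 ≤ dmp β g g' ∧ h * dmp β g g' ≤ (1 + β) * h ^ (3 / 4 : ℝ) := by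
  obtain ⟨a0, a1⟩ := arf_bounds g g'
  have r1 := (rad_facts (by linarith) hh hh1 (norm_nonneg g) hg).2.2.1
  have r2 := (rad_facts (by linarith) hh hh1 (norm_nonneg g') hg').2.2.1
  have n1 : 0 ≤ ‖g‖ ^ β := Real.rpow_nonneg (norm_nonneg _) _
  have n2 : 0 ≤ ‖g'‖ ^ β := Real.rpow_nonneg (norm_nonneg _) _
  have n3 : 0 ≤ (min ‖g‖ ‖g'‖) ^ β := Real.rpow_nonneg (le_min (norm_nonneg _) (norm_nonneg _)) _
  have n4 : (min ‖g‖ ‖g'‖) ^ β ≤ ‖g‖ ^ β :=
    Real.rpow_le_rpow (le_min (norm_nonneg _) (norm_nonneg _)) (min_le_left _ _) (by linarith)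
  have n5 : 0 ≤ β * (min ‖g‖ ‖g'‖) ^ β := mul_nonneg (by linarith) n3
  have n6 : β * (min ‖g‖ ‖g'‖) ^ β * arf g g' ≤ β * ‖g‖ ^ β := by
    calc β * (min ‖g‖ ‖g'‖) ^ β * arf g g' ≤ β * (min ‖g‖ ‖g'‖) ^ β * 1 := by gcongr
      _ ≤ β * ‖g‖ ^ β := by rw [mul_one]; gcongr
  constructor
  · unfold dmp
    have := mul_nonneg n5 a0
    linarith
  · unfold dmp
    have h1 : h * (1 / 2 * (‖g‖ ^ β + ‖g'‖ ^ β) + β * (min ‖g‖ ‖g'‖) ^ β * arf g g') ≤
        h * (1 / 2 * (‖g‖ ^ β + ‖g'‖ ^ β) + β * ‖g‖ ^ β) := by gcongr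
    have h2 : β * (h * ‖g‖ ^ β) ≤ β * h ^ (3 / 4 : ℝ) :=
      mul_le_mul_of_nonneg_left r1 (by linarith)
    linarith

/-- the one-site function of a dominated site -/
theorem dl_F (N : ℕ) (β : ℝ) (hN : 2 ≤ N) (hβ : 1 < β) (C1 : ℝ) (hC1 : 0 < C1) :
    ∃ C h0 : ℝ, 0 < C ∧ 0 < h0 ∧ h0 ≤ 1 / 1000 ∧
    ∀ (h : ℝ) (ν : Measure (E N)), 0 < h → h < h0 → IsNoise h ν →
      ∀ g g' : E N, ‖g‖ ≤ rad β h → ‖g'‖ ≤ rad β h → ∀ (e : E N) (K : Submodule ℝ (E N)),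
      ‖e‖ = 1 → Module.finrank ℝ K = 2 → ∀ v δ1 : ℝ, 1 - δ1 ≤ v → v ≤ 1 → δ1 ≤ 1 / 2 →
      Measurable (fun ξ : E N => Real.log ‖e + Real.sqrt h • ξ‖ + v *
        (- (1 / 2 * (1 - arf g g') *
                (h * ‖(Kᗮ).starProjection ξ‖ ^ 2 / ‖e + Real.sqrt h • ξ‖ ^ 2))
              - h * dmp β g g' + C1 * h ^ (9 / 8 : ℝ)) +
        (1 - v) * ((1 / ‖e + Real.sqrt h • ξ‖ - 1) + (‖e + Real.sqrt h • ξ‖ - 1) ^ 2)) ∧
      (∀ᵐ ξ ∂ν, |Real.log ‖e + Real.sqrt h • ξ‖ + v *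
        (- (1 / 2 * (1 - arf g g') *
                (h * ‖(Kᗮ).starProjection ξ‖ ^ 2 / ‖e + Real.sqrt h • ξ‖ ^ 2))
              - h * dmp β g g' + C1 * h ^ (9 / 8 : ℝ)) +
        (1 - v) * ((1 / ‖e + Real.sqrt h • ξ‖ - 1) + (‖e + Real.sqrt h • ξ‖ - 1) ^ 2)| ≤
          C * h ^ (3 / 8 : ℝ)) ∧
      (∫ ξ, (Real.log ‖e + Real.sqrt h • ξ‖ + v *
        (- (1 / 2 * (1 - arf g g') *
                (h * ‖(Kᗮ).starProjection ξ‖ ^ 2 / ‖e + Real.sqrt h • ξ‖ ^ 2))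
              - h * dmp β g g' + C1 * h ^ (9 / 8 : ℝ)) +
        (1 - v) * ((1 / ‖e + Real.sqrt h • ξ‖ - 1) + (‖e + Real.sqrt h • ξ‖ - 1) ^ 2)) ∂ν ≤
          h * (1 / 2 * (N - 2) * arf g g' - (1 - δ1) * dmp β g g' + C * δ1)
            + C * h ^ (9 / 8 : ℝ)) ∧
      (∫ ξ, (Real.log ‖e + Real.sqrt h • ξ‖ + v *
        (- (1 / 2 * (1 - arf g g') *
                (h * ‖(Kᗮ).starProjection ξ‖ ^ 2 / ‖e + Real.sqrt h • ξ‖ ^ 2))
              - h * dmp β g g' + C1 * h ^ (9 / 8 : ℝ)) +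
        (1 - v) * ((1 / ‖e + Real.sqrt h • ξ‖ - 1) + (‖e + Real.sqrt h • ξ‖ - 1) ^ 2)) ^ 2 ∂ν ≤
          C * h) := by
  obtain ⟨C3, h3, hC3, h30, h31, H3⟩ := dl_R N (by omega)
  set M : ℝ := 2 + β + C1 with hM
  refine ⟨4 + M + 3 * M ^ 2 + 18 * (1 + C3) + 2 * N + C3 + C1 + 3, h3, by positivity, h30, h31, ?_⟩
  intro h ν hh hlt hν g g' hg hg' e K he hK v δ1 hv hv1 hδ1
  have hp := hν.prob
  have hh1 : h < 1 / 1000 := hlt.trans_le h31
  obtain ⟨p1, p2, p3, p4, p5, p6, p7, p8⟩ := dl_pows hh hh1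
  obtain ⟨mz, hae, i1, i2, i3, i4, i5, _, _⟩ := H3 h ν hh hlt hν e he
  obtain ⟨a0, a1⟩ := arf_bounds g g'
  obtain ⟨d0, d1⟩ := dl_dmp hβ hh (by linarith) g g' hg hg'
  have hN' : (2 : ℝ) ≤ N := by exact_mod_cast hN
  set ar := arf g g' with har
  set dm := dmp β g g' with hdm
  set ℓ := h ^ (3 / 8 : ℝ) with hℓ
  set h98 := h ^ (9 / 8 : ℝ) with hh98
  have h980 : 0 ≤ h98 := Real.rpow_nonneg hh.le _
  -- measurability
  have mP : Measurable (fun ξ : E N => ‖(Kᗮ).starProjection ξ‖) := by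
    have : Continuous (fun ξ : E N => ‖(Kᗮ).starProjection ξ‖) := by fun_prop
    exact this.measurable
  have mτ : Measurable (fun ξ : E N =>
      h * ‖(Kᗮ).starProjection ξ‖ ^ 2 / ‖e + Real.sqrt h • ξ‖ ^ 2) :=
    ((mP.pow_const 2).const_mul h).div (mz.pow_const 2)
  have mG : Measurable (fun ξ : E N => - (1 / 2 * (1 - ar) *
      (h * ‖(Kᗮ).starProjection ξ‖ ^ 2 / ‖e + Real.sqrt h • ξ‖ ^ 2)) - h * dm + C1 * h98) :=
    (((mτ.const_mul _).neg).sub_const _).add_const _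
  have mlog : Measurable (fun ξ : E N => Real.log ‖e + Real.sqrt h • ξ‖) :=
    Real.measurable_log.comp mz
  have mX : Measurable (fun ξ : E N =>
      (1 / ‖e + Real.sqrt h • ξ‖ - 1) + (‖e + Real.sqrt h • ξ‖ - 1) ^ 2) :=
    ((measurable_const.div mz).sub_const 1).add ((mz.sub_const 1).pow_const 2)
  -- a.e. bounds
  have hτ : ∀ᵐ ξ ∂ν, 0 ≤ h * ‖(Kᗮ).starProjection ξ‖ ^ 2 / ‖e + Real.sqrt h • ξ‖ ^ 2 ∧
      h * ‖(Kᗮ).starProjection ξ‖ ^ 2 / ‖e + Real.sqrt h • ξ‖ ^ 2 ≤ 2 * ℓ ^ 2 ∧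
      (1 - 2 * ℓ) * (h * ‖(Kᗮ).starProjection ξ‖ ^ 2) ≤
        h * ‖(Kᗮ).starProjection ξ‖ ^ 2 / ‖e + Real.sqrt h • ξ‖ ^ 2 := by
    filter_upwards [hae, hν.bdd] with ξ ⟨b1, _, b3⟩ b4
    rw [abs_le] at b1
    have h5 : (9 / 10 : ℝ) ≤ ‖e + Real.sqrt h • ξ‖ := by linarith [b1.1]
    have h6 : ‖(Kᗮ).starProjection ξ‖ ≤ ‖ξ‖ := (Kᗮ).norm_starProjection_apply_le ξ
    have h7 : h * ‖(Kᗮ).starProjection ξ‖ ^ 2 ≤ ℓ ^ 2 := by
      calc h * ‖(Kᗮ).starProjection ξ‖ ^ 2 ≤ h * ‖ξ‖ ^ 2 := by gcongr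
        _ = (Real.sqrt h * ‖ξ‖) ^ 2 := by rw [mul_pow, Real.sq_sqrt hh.le]
        _ ≤ ℓ ^ 2 := by gcongr
    have h8 : (0 : ℝ) < ‖e + Real.sqrt h • ξ‖ ^ 2 := by positivity
    have h9 : 0 ≤ h * ‖(Kᗮ).starProjection ξ‖ ^ 2 := by positivity
    refine ⟨by positivity, ?_, ?_⟩
    · rw [div_le_iff₀ h8]
      have h11 : (9 / 10 : ℝ) ^ 2 ≤ ‖e + Real.sqrt h • ξ‖ ^ 2 :=
        pow_le_pow_left₀ (by norm_num) h5 2
      have h12 : (1 / 2 : ℝ) ≤ ‖e + Real.sqrt h • ξ‖ ^ 2 := by linarith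
      have h13 := mul_le_mul_of_nonneg_left h12 (mul_nonneg (zero_le_two) (sq_nonneg ℓ))
      linarith
    · rw [le_div_iff₀ h8]
      have h10 : ‖e + Real.sqrt h • ξ‖ ≤ 1 + ℓ := by linarith [b1.2]
      have h11 : ‖e + Real.sqrt h • ξ‖ ^ 2 ≤ (1 + ℓ) ^ 2 := by gcongr
      have h12 : (1 - 2 * ℓ) * ‖e + Real.sqrt h • ξ‖ ^ 2 ≤ 1 := by
        have h14 : (1 - 2 * ℓ) * (1 + ℓ) ^ 2 = 1 - 3 * ℓ ^ 2 - 2 * ℓ ^ 3 := by ring
        have h13 : 0 ≤ 1 - 2 * ℓ := by linarith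
        have h15 := mul_le_mul_of_nonneg_left h11 h13
        have h16 := pow_pos p8 3
        have h17 := pow_pos p8 2
        linarith
      have h18 := mul_le_mul_of_nonneg_left h12 h9
      linarith
  have hGb : ∀ᵐ ξ ∂ν, |- (1 / 2 * (1 - ar) *
      (h * ‖(Kᗮ).starProjection ξ‖ ^ 2 / ‖e + Real.sqrt h • ξ‖ ^ 2)) - h * dm + C1 * h98| ≤
      M * ℓ ^ 2 := by
    filter_upwards [hτ, hae] with ξ ⟨t0, t1, _⟩ ⟨_, _, b3⟩
    set τ := h * ‖(Kᗮ).starProjection ξ‖ ^ 2 / ‖e + Real.sqrt h • ξ‖ ^ 2 with hτd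
    have s1 : 0 ≤ 1 / 2 * (1 - ar) * τ := mul_nonneg (by linarith) t0
    have s2 : 1 / 2 * (1 - ar) * τ ≤ ℓ ^ 2 := by
      have := mul_nonneg a0 t0
      linarith
    have s3 : 0 ≤ h * dm := mul_nonneg hh.le d0
    have s4 : h98 ≤ ℓ ^ 2 := by
      rw [p6]; exact pow_le_pow_of_le_one p8.le (by linarith) (by norm_num)
    have s5 : 0 ≤ C1 * h98 := mul_nonneg hC1.le h980
    have s6 : C1 * h98 ≤ C1 * ℓ ^ 2 := mul_le_mul_of_nonneg_left s4 hC1.le
    rw [p2] at d1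
    rw [abs_le, hM]
    have s7 : 0 ≤ C1 * ℓ ^ 2 := by positivity
    have s8 : 0 ≤ β * ℓ ^ 2 := mul_nonneg (by linarith) (sq_nonneg ℓ)
    have s9 := sq_nonneg ℓ
    constructor <;> linarith
  have hXb : ∀ᵐ ξ ∂ν, |(1 / ‖e + Real.sqrt h • ξ‖ - 1) + (‖e + Real.sqrt h • ξ‖ - 1) ^ 2| ≤ 2 * ℓ ∧
      ((1 / ‖e + Real.sqrt h • ξ‖ - 1) + (‖e + Real.sqrt h • ξ‖ - 1) ^ 2) ^ 2 ≤
        4 * (‖e + Real.sqrt h • ξ‖ - 1) ^ 2 := by
    filter_upwards [hae] with ξ ⟨b1, _, b3⟩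
    have b1' := b1
    rw [abs_le] at b1
    set z := ‖e + Real.sqrt h • ξ‖ with hz
    have h5 : (9 / 10 : ℝ) ≤ z := by linarith [b1.1]
    have hz0 : 0 < z := by linarith
    have key : (1 / z - 1) + (z - 1) ^ 2 = (z - 1) * (-(1 / z) + (z - 1)) := by
      field_simp; ring
    have hi1 : 1 / z ≤ 10 / 9 := by rw [div_le_iff₀ hz0]; linarith
    have hi0 : 0 < 1 / z := by positivity
    have k1 : |-(1 / z) + (z - 1)| ≤ 2 := by
      rw [abs_le]; constructor <;> linarith [b1.1, b1.2]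
    constructor
    · rw [key, abs_mul]
      calc |z - 1| * |-(1 / z) + (z - 1)| ≤ ℓ * 2 := by gcongr
        _ = 2 * ℓ := by ring
    · rw [key, mul_pow]
      have h20 : (-(1 / z) + (z - 1)) ^ 2 ≤ 2 ^ 2 := by
        rw [← sq_abs]; exact pow_le_pow_left₀ (abs_nonneg _) k1 2
      have h21 := mul_le_mul_of_nonneg_left h20 (sq_nonneg (z - 1))
      linarith
  have hlogb : ∀ᵐ ξ ∂ν, |Real.log ‖e + Real.sqrt h • ξ‖| ≤ 2 * ℓ := by
    filter_upwards [hae] with ξ ⟨_, b2, _⟩ using b2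
  have hl10 : ℓ ≤ 1 / 10 := by
    have : ∃ ξ : E N, ℓ ≤ 1 / 10 := by
      obtain ⟨ξ, hξ⟩ := hae.exists
      exact ⟨ξ, hξ.2.2⟩
    exact this.choose_spec
  have hv0 : 0 ≤ v := by linarith
  have hv2 : 0 ≤ 1 - v := by linarith
  have hM0 : 0 ≤ M := by rw [hM]; linarith
  have hFm := (mlog.add (mG.const_mul v)).add (mX.const_mul (1 - v))
  refine ⟨hFm, ?_, ?_, ?_⟩
  · filter_upwards [hGb, hXb, hlogb] with ξ g1 ⟨x1, _⟩ l1
    refine (abs_add_le _ _).trans ?_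
    have s1 : |v * (- (1 / 2 * (1 - ar) *
      (h * ‖(Kᗮ).starProjection ξ‖ ^ 2 / ‖e + Real.sqrt h • ξ‖ ^ 2)) - h * dm + C1 * h98)| ≤
        M * ℓ := by
      rw [abs_mul, abs_of_nonneg hv0]
      calc _ ≤ 1 * (M * ℓ ^ 2) := by gcongr
        _ ≤ M * ℓ := by
            rw [one_mul]
            apply mul_le_mul_of_nonneg_left _ hM0
            calc ℓ ^ 2 = ℓ * ℓ := sq ℓ
              _ ≤ ℓ * 1 := mul_le_mul_of_nonneg_left (by linarith) p8.le
              _ = ℓ := mul_one ℓ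
    have s2 : |(1 - v) * ((1 / ‖e + Real.sqrt h • ξ‖ - 1) + (‖e + Real.sqrt h • ξ‖ - 1) ^ 2)| ≤
        2 * ℓ := by
      rw [abs_mul, abs_of_nonneg hv2]
      calc _ ≤ 1 * (2 * ℓ) := by gcongr; linarith
        _ = 2 * ℓ := one_mul _
    have s3 := abs_add_le (Real.log ‖e + Real.sqrt h • ξ‖) (v * (- (1 / 2 * (1 - ar) *
      (h * ‖(Kᗮ).starProjection ξ‖ ^ 2 / ‖e + Real.sqrt h • ξ‖ ^ 2)) - h * dm + C1 * h98))
    have s4 : (4 + M) * ℓ ≤ (4 + M + 3 * M ^ 2 + 18 * (1 + C3) + 2 * N + C3 + C1 + 3) * ℓ := by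
      apply mul_le_mul_of_nonneg_right _ p8.le
      linarith [sq_nonneg M]
    linarith
  · have ilog : Integrable (fun ξ : E N => Real.log ‖e + Real.sqrt h • ξ‖) ν :=
      dl_integrable mlog _ hlogb
    have iG : Integrable (fun ξ : E N => - (1 / 2 * (1 - ar) *
      (h * ‖(Kᗮ).starProjection ξ‖ ^ 2 / ‖e + Real.sqrt h • ξ‖ ^ 2)) - h * dm + C1 * h98) ν :=
      dl_integrable mG _ hGb
    have iX : Integrable (fun ξ : E N =>
      (1 / ‖e + Real.sqrt h • ξ‖ - 1) + (‖e + Real.sqrt h • ξ‖ - 1) ^ 2) ν :=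
      dl_integrable mX (2 * ℓ) (by filter_upwards [hXb] with ξ h1 using h1.1)
    have iτ : Integrable (fun ξ : E N =>
        h * ‖(Kᗮ).starProjection ξ‖ ^ 2 / ‖e + Real.sqrt h • ξ‖ ^ 2) ν :=
      dl_integrable mτ (2 * ℓ ^ 2) (by
        filter_upwards [hτ] with ξ ⟨t0, t1, _⟩
        rwa [abs_of_nonneg t0])
    have isq : Integrable (fun ξ : E N => (‖e + Real.sqrt h • ξ‖ - 1) ^ 2) ν :=
      dl_integrable ((mz.sub_const 1).pow_const 2) 1 (by
        filter_upwards [hae] with ξ ⟨b1, _, b3⟩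
        rw [abs_pow]
        exact pow_le_one₀ (abs_nonneg _) (b1.trans (by linarith)))
    have iinv : Integrable (fun ξ : E N => 1 / ‖e + Real.sqrt h • ξ‖ - 1) ν := by
      have := iX.sub isq
      refine this.congr (Filter.Eventually.of_forall fun ξ => ?_)
      simp
    have iGv := iG.const_mul v
    have iXv := iX.const_mul (1 - v)
    have ilG : Integrable (fun ξ : E N => Real.log ‖e + Real.sqrt h • ξ‖ + v *
        (- (1 / 2 * (1 - ar) *
      (h * ‖(Kᗮ).starProjection ξ‖ ^ 2 / ‖e + Real.sqrt h • ξ‖ ^ 2)) - h * dm + C1 * h98)) ν :=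
      ilog.add iGv
    rw [integral_add ilG iXv, integral_add ilog iGv, integral_const_mul, integral_const_mul]
    have eX : ∫ ξ, ((1 / ‖e + Real.sqrt h • ξ‖ - 1) + (‖e + Real.sqrt h • ξ‖ - 1) ^ 2) ∂ν ≤
        (3 + 2 * C3) * h := by
      rw [integral_add iinv isq]; linarith
    have hKp : (Module.finrank ℝ (Kᗮ : Submodule ℝ (E N)) : ℝ) = N - 2 := by
      have h1 := K.finrank_add_finrank_orthogonal
      rw [hK, finrank_euclideanSpace_fin] at h1
      have h2 : ((2 + Module.finrank ℝ (Kᗮ : Submodule ℝ (E N)) : ℕ) : ℝ) = (N : ℝ) := by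
        exact_mod_cast h1
      push_cast at h2
      linarith
    have iP : Integrable (fun ξ : E N => h * ‖(Kᗮ).starProjection ξ‖ ^ 2) ν := by
      refine dl_integrable ((mP.pow_const 2).const_mul h) (ℓ ^ 2) ?_
      filter_upwards [hν.bdd] with ξ b4
      have h6 : ‖(Kᗮ).starProjection ξ‖ ≤ ‖ξ‖ := (Kᗮ).norm_starProjection_apply_le ξ
      rw [abs_of_nonneg (by positivity)]
      calc h * ‖(Kᗮ).starProjection ξ‖ ^ 2 ≤ h * ‖ξ‖ ^ 2 := by gcongr
        _ = (Real.sqrt h * ‖ξ‖) ^ 2 := by rw [mul_pow, Real.sq_sqrt hh.le]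
        _ ≤ ℓ ^ 2 := by gcongr
    have eP : ∫ ξ, h * ‖(Kᗮ).starProjection ξ‖ ^ 2 ∂ν =
        h * ((N - 2) * ((∫ ξ, ‖ξ‖ ^ 2 ∂ν) / N)) := by
      rw [integral_const_mul, noise_proj hh (by omega) hν, hKp]
    have emom : 1 - h ≤ (∫ ξ, ‖ξ‖ ^ 2 ∂ν) / N := by
      rw [le_div_iff₀ (by linarith)]
      have := hν.le_mom
      linarith
    have eτ : (N - 2) * h - 3 * (N - 2) * h98 ≤
        ∫ ξ, h * ‖(Kᗮ).starProjection ξ‖ ^ 2 / ‖e + Real.sqrt h • ξ‖ ^ 2 ∂ν := by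
      have h1 : ∫ ξ, (1 - 2 * ℓ) * (h * ‖(Kᗮ).starProjection ξ‖ ^ 2) ∂ν ≤
          ∫ ξ, h * ‖(Kᗮ).starProjection ξ‖ ^ 2 / ‖e + Real.sqrt h • ξ‖ ^ 2 ∂ν := by
        apply integral_mono_ae (iP.const_mul _) iτ
        filter_upwards [hτ] with ξ h2 using h2.2.2
      rw [integral_const_mul, eP] at h1
      refine le_trans ?_ h1
      have h2 : h * ((N - 2) * (1 - h)) ≤ h * ((N - 2) * ((∫ ξ, ‖ξ‖ ^ 2 ∂ν) / N)) := by
        have : (0 : ℝ) ≤ N - 2 := by linarith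
        gcongr
      have h3 : (1 - 2 * ℓ) * (h * ((N - 2) * (1 - h))) ≤
          (1 - 2 * ℓ) * (h * ((N - 2) * ((∫ ξ, ‖ξ‖ ^ 2 ∂ν) / N))) :=
        mul_le_mul_of_nonneg_left h2 (by linarith)
      refine le_trans ?_ h3
      have h4 : (1 - 2 * ℓ) * (h * ((N - 2) * (1 - h))) =
          (N - 2) * (h - 2 * (h * ℓ) - h * h + 2 * ℓ * (h * h)) := by ring
      rw [h4]
      have h5 : 0 ≤ 2 * ℓ * (h * h) := by positivity
      have h6 : (0 : ℝ) ≤ N - 2 := by linarith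
      have h7 : h - 3 * h98 ≤ h - 2 * (h * ℓ) - h * h + 2 * ℓ * (h * h) := by linarith
      have := mul_le_mul_of_nonneg_left h7 h6
      linarith
    have eG : ∫ ξ, (- (1 / 2 * (1 - ar) *
      (h * ‖(Kᗮ).starProjection ξ‖ ^ 2 / ‖e + Real.sqrt h • ξ‖ ^ 2)) - h * dm + C1 * h98) ∂ν =
        - (1 / 2 * (1 - ar) *
          ∫ ξ, h * ‖(Kᗮ).starProjection ξ‖ ^ 2 / ‖e + Real.sqrt h • ξ‖ ^ 2 ∂ν)
          - h * dm + C1 * h98 := by
      have j1 : Integrable (fun ξ : E N => - (1 / 2 * (1 - ar) *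
        (h * ‖(Kᗮ).starProjection ξ‖ ^ 2 / ‖e + Real.sqrt h • ξ‖ ^ 2))) ν :=
        (iτ.const_mul _).neg
      have j2 : Integrable (fun ξ : E N => - (1 / 2 * (1 - ar) *
        (h * ‖(Kᗮ).starProjection ξ‖ ^ 2 / ‖e + Real.sqrt h • ξ‖ ^ 2)) - h * dm) ν :=
        j1.sub (integrable_const _)
      rw [integral_add j2 (integrable_const _), integral_sub j1 (integrable_const _),
        integral_neg, integral_const_mul]
      simp
    rw [eG]
    set T := ∫ ξ, h * ‖(Kᗮ).starProjection ξ‖ ^ 2 / ‖e + Real.sqrt h • ξ‖ ^ 2 ∂ν with hT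
    have hδ0 : 0 ≤ δ1 := by linarith
    have n2 : (0 : ℝ) ≤ N - 2 := by linarith
    have q1 : - (1 / 2 * (1 - ar) * T) ≤ - (1 / 2 * (1 - ar) * ((N - 2) * h)) +
        3 / 2 * (N - 2) * h98 := by
      have h1 : 1 / 2 * (1 - ar) * ((N - 2) * h - 3 * (N - 2) * h98) ≤ 1 / 2 * (1 - ar) * T :=
        mul_le_mul_of_nonneg_left eτ (by linarith)
      have h2 : 1 / 2 * (1 - ar) * (3 * (N - 2) * h98) ≤ 3 / 2 * (N - 2) * h98 := by
        have : 0 ≤ 3 / 2 * (N - 2) * h98 := by positivity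
        have h3 := mul_nonneg a0 this
        linarith
      linarith
    have q2 : v * (- (1 / 2 * (1 - ar) * T) - h * dm + C1 * h98) ≤
        (1 - δ1) * (- (1 / 2 * (1 - ar) * ((N - 2) * h)) - h * dm) +
          (3 / 2 * (N - 2) * h98 + C1 * h98) := by
      have h1 : 0 ≤ 1 / 2 * (1 - ar) * ((N - 2) * h) + h * dm := by
        have h2 : 0 ≤ 1 / 2 * (1 - ar) * ((N - 2) * h) :=
          mul_nonneg (by linarith) (mul_nonneg n2 hh.le)
        have h3 : 0 ≤ h * dm := mul_nonneg hh.le d0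
        linarith
      have h4 : 0 ≤ 3 / 2 * (N - 2) * h98 + C1 * h98 := by positivity
      calc v * (- (1 / 2 * (1 - ar) * T) - h * dm + C1 * h98)
          ≤ v * ((- (1 / 2 * (1 - ar) * ((N - 2) * h)) - h * dm) +
            (3 / 2 * (N - 2) * h98 + C1 * h98)) := by
            apply mul_le_mul_of_nonneg_left _ hv0
            linarith
        _ = v * (- (1 / 2 * (1 - ar) * ((N - 2) * h)) - h * dm) +
            v * (3 / 2 * (N - 2) * h98 + C1 * h98) := by ring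
        _ ≤ _ := by
            have h5 := mul_le_mul_of_nonneg_right hv h1
            have h6 := mul_le_mul_of_nonneg_right hv1 h4
            linarith
    have q3 : (1 - v) * ∫ ξ, ((1 / ‖e + Real.sqrt h • ξ‖ - 1) + (‖e + Real.sqrt h • ξ‖ - 1) ^ 2) ∂ν ≤
        δ1 * ((3 + 2 * C3) * h) := by
      calc _ ≤ (1 - v) * ((3 + 2 * C3) * h) := mul_le_mul_of_nonneg_left eX hv2
        _ ≤ _ := by
            apply mul_le_mul_of_nonneg_right (by linarith)
            positivity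
    have q4 : δ1 * (1 / 2 * (1 - ar) * ((N - 2) * h)) ≤ δ1 * (1 / 2 * (N * h)) := by
      apply mul_le_mul_of_nonneg_left _ hδ0
      have h1 : 0 ≤ (N - 2) * h := mul_nonneg n2 hh.le
      have h2 := mul_nonneg a0 h1
      linarith
    have q5 : δ1 * (1 / 2 * (N * h)) + δ1 * ((3 + 2 * C3) * h) ≤
        h * ((4 + M + 3 * M ^ 2 + 18 * (1 + C3) + 2 * N + C3 + C1 + 3) * δ1) := by
      have h1 : 0 ≤ h * δ1 := mul_nonneg hh.le hδ0
      have h2 : (1 / 2 * N + (3 + 2 * C3)) ≤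
          (4 + M + 3 * M ^ 2 + 18 * (1 + C3) + 2 * N + C3 + C1 + 3) := by
        linarith [sq_nonneg M]
      have := mul_le_mul_of_nonneg_right h2 h1
      linarith
    have q6 : C3 * h98 + (3 / 2 * (N - 2) * h98 + C1 * h98) ≤
        (4 + M + 3 * M ^ 2 + 18 * (1 + C3) + 2 * N + C3 + C1 + 3) * h98 := by
      have h2 : C3 + (3 / 2 * (N - 2) + C1) ≤
          (4 + M + 3 * M ^ 2 + 18 * (1 + C3) + 2 * N + C3 + C1 + 3) := by
        linarith [sq_nonneg M]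
      have := mul_le_mul_of_nonneg_right h2 h980
      linarith
    linarith
  · have ilog2 : Integrable (fun ξ : E N => Real.log ‖e + Real.sqrt h • ξ‖ ^ 2) ν :=
      dl_integrable (mlog.pow_const 2) ((2 * ℓ) ^ 2) (by
        filter_upwards [hlogb] with ξ h1
        rw [abs_pow]; exact pow_le_pow_left₀ (abs_nonneg _) h1 2)
    have isq : Integrable (fun ξ : E N => (‖e + Real.sqrt h • ξ‖ - 1) ^ 2) ν :=
      dl_integrable ((mz.sub_const 1).pow_const 2) 1 (by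
        filter_upwards [hae] with ξ ⟨b1, _, b3⟩
        rw [abs_pow]
        exact pow_le_one₀ (abs_nonneg _) (b1.trans (by linarith)))
    have j1 : Integrable (fun ξ : E N => 3 * Real.log ‖e + Real.sqrt h • ξ‖ ^ 2 +
        3 * (M ^ 2 * h)) ν := (ilog2.const_mul 3).add (integrable_const _)
    have j2 : Integrable (fun ξ : E N => 3 * Real.log ‖e + Real.sqrt h • ξ‖ ^ 2 +
        3 * (M ^ 2 * h) + 12 * (‖e + Real.sqrt h • ξ‖ - 1) ^ 2) ν := j1.add (isq.const_mul 12)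
    have hle : ∫ ξ, (Real.log ‖e + Real.sqrt h • ξ‖ + v *
        (- (1 / 2 * (1 - ar) *
                (h * ‖(Kᗮ).starProjection ξ‖ ^ 2 / ‖e + Real.sqrt h • ξ‖ ^ 2))
              - h * dm + C1 * h98) +
        (1 - v) * ((1 / ‖e + Real.sqrt h • ξ‖ - 1) + (‖e + Real.sqrt h • ξ‖ - 1) ^ 2)) ^ 2 ∂ν ≤
        ∫ ξ, (3 * Real.log ‖e + Real.sqrt h • ξ‖ ^ 2 +
        3 * (M ^ 2 * h) + 12 * (‖e + Real.sqrt h • ξ‖ - 1) ^ 2) ∂ν := by
      apply integral_mono_of_nonneg (Filter.Eventually.of_forall fun _ => sq_nonneg _) j2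
      filter_upwards [hGb, hXb] with ξ g1 ⟨_, x2⟩
      set L := Real.log ‖e + Real.sqrt h • ξ‖
      set Gx := - (1 / 2 * (1 - ar) *
                (h * ‖(Kᗮ).starProjection ξ‖ ^ 2 / ‖e + Real.sqrt h • ξ‖ ^ 2))
              - h * dm + C1 * h98
      set X := (1 / ‖e + Real.sqrt h • ξ‖ - 1) + (‖e + Real.sqrt h • ξ‖ - 1) ^ 2
      have s1 : (L + v * Gx + (1 - v) * X) ^ 2 ≤
          3 * L ^ 2 + 3 * (v * Gx) ^ 2 + 3 * ((1 - v) * X) ^ 2 := by
        have t1 := sq_nonneg (L - v * Gx)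
        have t2 := sq_nonneg (L - (1 - v) * X)
        have t3 := sq_nonneg (v * Gx - (1 - v) * X)
        have t4 : (L + v * Gx + (1 - v) * X) ^ 2 = 3 * L ^ 2 + 3 * (v * Gx) ^ 2 +
          3 * ((1 - v) * X) ^ 2 - ((L - v * Gx) ^ 2 + (L - (1 - v) * X) ^ 2 +
            (v * Gx - (1 - v) * X) ^ 2) := by ring
        linarith
      have s2 : (v * Gx) ^ 2 ≤ M ^ 2 * h := by
        have h1 : Gx ^ 2 ≤ (M * ℓ ^ 2) ^ 2 := sq_le_sq' (by linarith [(abs_le.mp g1).1])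
          (abs_le.mp g1).2
        have h2 : (M * ℓ ^ 2) ^ 2 = M ^ 2 * ℓ ^ 4 := by ring
        have h3 : M ^ 2 * ℓ ^ 4 ≤ M ^ 2 * h := mul_le_mul_of_nonneg_left p7 (sq_nonneg M)
        have h4 : v ^ 2 ≤ 1 := pow_le_one₀ hv0 hv1
        rw [mul_pow]
        calc v ^ 2 * Gx ^ 2 ≤ 1 * Gx ^ 2 := mul_le_mul_of_nonneg_right h4 (sq_nonneg _)
          _ ≤ M ^ 2 * h := by linarith
      have s3 : ((1 - v) * X) ^ 2 ≤ 4 * (‖e + Real.sqrt h • ξ‖ - 1) ^ 2 := by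
        have h4 : (1 - v) ^ 2 ≤ 1 := pow_le_one₀ hv2 (by linarith)
        rw [mul_pow]
        calc (1 - v) ^ 2 * X ^ 2 ≤ 1 * X ^ 2 := mul_le_mul_of_nonneg_right h4 (sq_nonneg _)
          _ ≤ _ := by linarith
      linarith
    refine hle.trans ?_
    rw [integral_add j1 (isq.const_mul 12), integral_add (ilog2.const_mul 3) (integrable_const _)]
    simp only [integral_const_mul, integral_const, probReal_univ, smul_eq_mul, one_mul]
    have h2 : 3 * ((1 + C3) * h) + 3 * (M ^ 2 * h) + 12 * ((1 + C3) * h) ≤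
        (4 + M + 3 * M ^ 2 + 18 * (1 + C3) + 2 * N + C3 + C1 + 3) * h := by
      have : 3 * (1 + C3) + 3 * M ^ 2 + 12 * (1 + C3) ≤
        (4 + M + 3 * M ^ 2 + 18 * (1 + C3) + 2 * N + C3 + C1 + 3) := by linarith
      have := mul_le_mul_of_nonneg_right this hh.le
      linarith
    linarith

theorem dl_exp {ι : Type} [Fintype ι] (a ζ : ι → ℝ) (zx v gx c : ℝ) (hsum : v + ∑ z, a z = 1)
    (ha : ∀ z, 0 ≤ a z) (hzx : |zx - 1| ≤ 1 / 10) (hc : 0 ≤ c) :
    v * (zx * (1 + gx)) + ∑ z, a z * ζ z + c ≤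
      Real.exp (Real.log zx + v * gx + (1 - v) * ((1 / zx - 1) + (zx - 1) ^ 2) +
        ∑ z, a z * ((ζ z - 1) + 1 / 2 * (ζ z - 1) ^ 2) + 2 * c) := by
  rw [abs_le] at hzx
  have hz0 : 0 < zx := by linarith [hzx.1]
  have e1 : Real.log zx + v * gx + (1 - v) * ((1 / zx - 1) + (zx - 1) ^ 2) +
        ∑ z, a z * ((ζ z - 1) + 1 / 2 * (ζ z - 1) ^ 2) + 2 * c =
      Real.log zx + (v * gx + (1 - v) * ((1 / zx - 1) + (zx - 1) ^ 2) +
        ∑ z, a z * ((ζ z - 1) + 1 / 2 * (ζ z - 1) ^ 2) + 2 * c) := by ring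
  rw [e1, Real.exp_add, Real.exp_log hz0]
  have h1 := Real.add_one_le_exp (v * gx + (1 - v) * ((1 / zx - 1) + (zx - 1) ^ 2) +
        ∑ z, a z * ((ζ z - 1) + 1 / 2 * (ζ z - 1) ^ 2) + 2 * c)
  refine le_trans ?_ (mul_le_mul_of_nonneg_left h1 hz0.le)
  have h2 : ∀ z, a z * (ζ z - zx) ≤ a z * (zx * ((1 / zx - 1) + (zx - 1) ^ 2) +
      zx * ((ζ z - 1) + 1 / 2 * (ζ z - 1) ^ 2)) := by
    intro z
    apply mul_le_mul_of_nonneg_left _ (ha z)
    have h3 : zx * ((1 / zx - 1) + (zx - 1) ^ 2) = 1 - zx + zx * (zx - 1) ^ 2 := by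
      field_simp
    rw [h3]
    set t := ζ z - 1 with ht
    set s := zx - 1 with hs
    have e2 : ζ z = 1 + t := by rw [ht]; ring
    have e3 : zx = 1 + s := by rw [hs]; ring
    rw [e2, e3]
    have h4 : 0 ≤ (1 + s) * s ^ 2 + s * t + 1 / 2 * (1 + s) * t ^ 2 := by
      have : (1 + s) * s ^ 2 + s * t + 1 / 2 * (1 + s) * t ^ 2 =
        (s + 1 / 10) * s ^ 2 + 1 / 2 * (s + 1 / 10) * t ^ 2 + (9 / 10 * s ^ 2 + s * t + 9 / 20 * t ^ 2) := by
        ring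
      rw [this]
      have h5 : 0 ≤ 9 / 10 * s ^ 2 + s * t + 9 / 20 * t ^ 2 := by
        have h7 : 9 / 10 * s ^ 2 + s * t + 9 / 20 * t ^ 2 =
          10 / 9 * (9 / 10 * s + t / 2) ^ 2 + 31 / 180 * t ^ 2 := by ring
        rw [h7]; positivity
      have h6 : 0 ≤ s + 1 / 10 := by linarith [hzx.1]
      positivity
    linarith
  have h3 : ∑ z, a z * (ζ z - zx) ≤ ∑ z, a z * (zx * ((1 / zx - 1) + (zx - 1) ^ 2) +
      zx * ((ζ z - 1) + 1 / 2 * (ζ z - 1) ^ 2)) := Finset.sum_le_sum fun z _ => h2 z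
  have h4 : ∑ z, a z * (ζ z - zx) = ∑ z, a z * ζ z - (∑ z, a z) * zx := by
    rw [Finset.sum_mul, ← Finset.sum_sub_distrib]
    exact Finset.sum_congr rfl fun z _ => by ring
  have h5 : ∑ z, a z * (zx * ((1 / zx - 1) + (zx - 1) ^ 2) +
      zx * ((ζ z - 1) + 1 / 2 * (ζ z - 1) ^ 2)) =
      (∑ z, a z) * (zx * ((1 / zx - 1) + (zx - 1) ^ 2)) +
        zx * ∑ z, a z * ((ζ z - 1) + 1 / 2 * (ζ z - 1) ^ 2) := by
    rw [Finset.sum_mul, Finset.mul_sum, ← Finset.sum_add_distrib]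
    exact Finset.sum_congr rfl fun z _ => by ring
  have h6 : ∑ z, a z = 1 - v := by linarith
  rw [h4, h5, h6] at h3
  have h7 : c ≤ zx * (2 * c) := by
    have := mul_le_mul_of_nonneg_right (show (9 / 10 : ℝ) ≤ zx by linarith [hzx.1])
      (mul_nonneg zero_le_two hc)
    linarith
  linarith

theorem dlog (N d : ℕ) (β : ℝ) (hN : 2 ≤ N) (hβ : 1 < β) :
    ∃ CD : ℝ, 1 ≤ CD ∧ ∀ B δ1 k : ℝ, 1 ≤ B → 0 < δ1 → δ1 ≤ 1 / 2 → 0 ≤ k → B * k ≤ 1 / 4 → k ≤ 1 / B →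
    ∀ (ι : Type) [Fintype ι] (net : Net ι d),
    ∃ C2 h0 : ℝ, 0 < C2 ∧ 0 < h0 ∧ ∀ (h : ℝ) (ν : Measure (E N)), 0 < h → h < h0 → IsNoise h ν →
      ∀ G G' : ι → E N, (∀ x, ‖G x‖ ≤ rad β h) → (∀ x, ‖G' x‖ ≤ rad β h) →
      ∃ Q : ι → (E N ≃ₗᵢ[ℝ] E N), ∀ x, ∃ u : (ι → E N) → ℝ, Measurable u ∧
        (∀ᵐ ξ ∂(pim ι ν), |u ξ| ≤ C2 * h ^ (3 / 8 : ℝ) ∧
          Dt net (B * k) (stp net β h k G ξ) (stp net β h k G' (fun z => Q z (ξ z))) x ≤
            Dt net (B * k) G G' x * Real.exp (u ξ)) ∧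
        (∫ ξ, u ξ ∂(pim ι ν) ≤ CD * h) ∧
        ((1 - δ1) * Dt net (B * k) G G' x ≤ ‖G x - G' x‖ → 0 < Dt net (B * k) G G' x →
          ∫ ξ, u ξ ∂(pim ι ν) ≤ h * (1 / 2 * (N - 2) * arf (G x) (G' x)
            - (1 - δ1) * dmp β (G x) (G' x) + CD * (δ1 + 1 / B)) + C2 * h ^ (9 / 8 : ℝ)) ∧
        ∫ ξ, u ξ ^ 2 ∂(pim ι ν) ≤ CD * h := by
  classical
  obtain ⟨C1, h1, hC1, h10, H1⟩ := dsite N β hN hβ
  obtain ⟨C3, h3, hC3, h30, h31, H3⟩ := dl_R N (by omega)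
  obtain ⟨CF, hF, hCF, hF0, hF1, H4⟩ := dl_F N β hN hβ C1 hC1
  have hN0 : (0 : ℝ) ≤ N := Nat.cast_nonneg N
  have hd0 : (0 : ℝ) ≤ d := Nat.cast_nonneg d
  refine ⟨1 + 6 * CF + 3 * N + 15 * (1 + C3) + 24 * d + 192 * d ^ 2, by
    linarith [sq_nonneg (d : ℝ)], ?_⟩
  intro B δ1 k hB hδ0 hδ1 hk hBk hkB ι _ net
  refine ⟨2 * (CF + 2) + 8 * d + CF + 1, min h1 (min h3 hF), by positivity,
    lt_min h10 (lt_min h30 hF0), ?_⟩
  intro h ν hh hlt hν G G' hG hG'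
  have hp := hν.prob
  have hl1 : h < h1 := hlt.trans_le (min_le_left _ _)
  have hl3 : h < h3 := hlt.trans_le ((min_le_right _ _).trans (min_le_left _ _))
  have hlF : h < hF := hlt.trans_le ((min_le_right _ _).trans (min_le_right _ _))
  have hh1 : h < 1 / 1000 := hl3.trans_le h31
  obtain ⟨p1, p2, p3, p4, p5, p6, p7, p8⟩ := dl_pows hh hh1
  choose Q e K he hK heK HQ using fun z => H1 h ν hh hl1 hν (G z) (G' z) (hG z) (hG' z)
  have hB0 : 0 < B := by linarith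
  have hb0 : 0 ≤ B * k := mul_nonneg hB0.le hk
  have hb1 : B * k ≤ 1 := by linarith
  have hiB : 1 / B ≤ 1 := by rw [div_le_one hB0]; exact hB
  have hiB0 : 0 ≤ 1 / B := by positivity
  have hR := fun z => H3 h ν hh hl3 hν (e z) (he z)
  set ζ : ι → E N → ℝ := fun z ξ => ‖e z + Real.sqrt h • ξ‖ with hζ
  set ℓ := h ^ (3 / 8 : ℝ) with hℓ
  set h98 := h ^ (9 / 8 : ℝ) with hh98
  have h980 : 0 ≤ h98 := Real.rpow_nonneg hh.le _
  have mζ : ∀ z, Measurable (ζ z) := fun z => (hR z).1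
  refine ⟨Q, fun x => ?_⟩
  set D := Dt net (B * k) G G' x with hD
  have hD0 : 0 ≤ D := Finset.sum_nonneg fun z _ => mul_nonneg (pow_nonneg hb0 _) (norm_nonneg _)
  -- the good set of noises
  have hgood : ∀ᵐ ξ ∂(pim ι ν), ∀ z, (|ζ z (ξ z) - 1| ≤ ℓ ∧
      |Real.log (ζ z (ξ z))| ≤ 2 * ℓ ∧ ℓ ≤ 1 / 10) ∧
      ‖hat β h (G z) (ξ z) - hat β h (G' z) (Q z (ξ z))‖ ≤ ζ z (ξ z) * ‖G z - G' z‖ ∧
      ‖hat β h (G z) (ξ z) - hat β h (G' z) (Q z (ξ z))‖ ≤ ζ z (ξ z) * ‖G z - G' z‖ *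
            (1 - 1 / 2 * (1 - arf (G z) (G' z)) *
                (h * ‖((K z)ᗮ).starProjection (ξ z)‖ ^ 2 / ζ z (ξ z) ^ 2)
              - h * dmp β (G z) (G' z) + C1 * h98) := by
    apply dl_ae_pim (P := fun z ξ => (|ζ z ξ - 1| ≤ ℓ ∧
      |Real.log (ζ z ξ)| ≤ 2 * ℓ ∧ ℓ ≤ 1 / 10) ∧
      ‖hat β h (G z) ξ - hat β h (G' z) (Q z ξ)‖ ≤ ζ z ξ * ‖G z - G' z‖ ∧
      ‖hat β h (G z) ξ - hat β h (G' z) (Q z ξ)‖ ≤ ζ z ξ * ‖G z - G' z‖ *
            (1 - 1 / 2 * (1 - arf (G z) (G' z)) *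
                (h * ‖((K z)ᗮ).starProjection ξ‖ ^ 2 / ζ z ξ ^ 2)
              - h * dmp β (G z) (G' z) + C1 * h98))
    intro z
    filter_upwards [(hR z).2.1, HQ z] with ξ r1 r2
    exact ⟨r1, r2.1, r2.2⟩
  rcases hD0.eq_or_lt with hz | hpos
  · -- degenerate case
    refine ⟨fun _ => 0, measurable_const, ?_, ?_, ?_, ?_⟩
    · filter_upwards [hgood] with ξ hξ
      have hst := dl_stp net β h B k hh.le hB hk hb1 hkB G G' x ξ (fun z => Q z (ξ z))
        (fun z => ζ z (ξ z) * ‖G z - G' z‖) (fun z => (hξ z).2.1)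
      have hzero : ∀ z, (B * k) ^ net.dist x z * ‖G z - G' z‖ = 0 := by
        intro z
        have h0 : ∑ z, (B * k) ^ net.dist x z * ‖G z - G' z‖ = 0 := hz.symm
        exact (Finset.sum_eq_zero_iff_of_nonneg
          (fun z _ => mul_nonneg (pow_nonneg hb0 _) (norm_nonneg _))).mp h0 z (Finset.mem_univ z)
      have h0 : ∑ z, (B * k) ^ net.dist x z * (ζ z (ξ z) * ‖G z - G' z‖) = 0 := by
        apply Finset.sum_eq_zero
        intro z _
        rw [show (B * k) ^ net.dist x z * (ζ z (ξ z) * ‖G z - G' z‖) =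
          ζ z (ξ z) * ((B * k) ^ net.dist x z * ‖G z - G' z‖) by ring, hzero z, mul_zero]
      rw [h0, ← hD, ← hz] at hst
      refine ⟨by simp only [abs_zero]; positivity, ?_⟩
      rw [← hz]
      simpa using hst
    · simp only [integral_zero]; positivity
    · intro _ hc
      exact absurd hc (by rw [← hz]; exact lt_irrefl 0)
    · simp only [ne_eq, OfNat.ofNat_ne_zero, not_false_eq_true, zero_pow, integral_zero]
      positivity
  · -- weights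
    set v : ι → ℝ := fun z => (B * k) ^ net.dist x z * ‖G z - G' z‖ / D with hv
    have hv0 : ∀ z, 0 ≤ v z := fun z => by
      have := mul_nonneg (pow_nonneg hb0 (net.dist x z)) (norm_nonneg (G z - G' z))
      exact div_nonneg this hD0
    have hvD : ∀ z, (B * k) ^ net.dist x z * ‖G z - G' z‖ = D * v z := fun z => by
      simp only [hv]; field_simp
    have hv1 : ∑ z, v z = 1 := by
      simp only [hv]
      rw [← Finset.sum_div]
      exact div_self hpos.ne'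
    have hvx : D * v x = ‖G x - G' x‖ := by
      rw [← hvD x, net.dist_self, pow_zero, one_mul]
    by_cases hdom : (1 - δ1) * D ≤ ‖G x - G' x‖
    · -- dominated
      have hvx1 : 1 - δ1 ≤ v x := by
        have : (1 - δ1) * D ≤ v x * D := by rw [mul_comm (v x), hvx]; exact hdom
        exact le_of_mul_le_mul_right this hpos
      set a : ι → ℝ := fun z => if z = x then 0 else v z with ha
      have ha0 : ∀ z, 0 ≤ a z := fun z => by
        simp only [ha]; split_ifs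
        · exact le_rfl
        · exact hv0 z
      have hsplit : ∀ f : ι → ℝ, ∑ z, v z * f z = v x * f x + ∑ z, a z * f z := by
        intro f
        rw [← Finset.add_sum_erase Finset.univ (fun z => v z * f z) (Finset.mem_univ x),
          ← Finset.add_sum_erase Finset.univ (fun z => a z * f z) (Finset.mem_univ x)]
        have h0 : a x * f x = 0 := by simp [ha]
        rw [h0, zero_add]
        congr 1
        apply Finset.sum_congr rfl
        intro z hz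
        simp [ha, (Finset.mem_erase.mp hz).1]
      have hva : v x + ∑ z, a z = 1 := by
        have := hsplit (fun _ => 1)
        simp only [mul_one] at this
        rw [← this, hv1]
      have hvxle : v x ≤ 1 := by
        have : 0 ≤ ∑ z, a z := Finset.sum_nonneg fun z _ => ha0 z
        linarith
      have hasum : ∑ z, a z ≤ δ1 := by linarith
      have ha1 : ∑ z, a z ≤ 1 := by linarith
      obtain ⟨Fm, Fb, Fi, Fq⟩ := H4 h ν hh hlF hν (G x) (G' x) (hG x) (hG' x) (e x) (K x) (he x)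
        (hK x) (v x) δ1 hvx1 hvxle hδ1
      set F : E N → ℝ := fun ξ => Real.log ‖e x + Real.sqrt h • ξ‖ + v x *
        (- (1 / 2 * (1 - arf (G x) (G' x)) *
                (h * ‖((K x)ᗮ).starProjection ξ‖ ^ 2 / ‖e x + Real.sqrt h • ξ‖ ^ 2))
              - h * dmp β (G x) (G' x) + C1 * h98) +
        (1 - v x) * ((1 / ‖e x + Real.sqrt h • ξ‖ - 1) + (‖e x + Real.sqrt h • ξ‖ - 1) ^ 2) with hF'
      have hc0 : 0 ≤ h * (4 * d / B) := by positivity
      have hc8 : 2 * (h * (4 * d / B)) = 8 * d * h * (1 / B) := by ring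
      have hcB : 2 * (h * (4 * d / B)) ≤ 8 * d * h := by
        rw [hc8]
        have h3 : 0 ≤ 8 * (d : ℝ) * h := by positivity
        have h4 := mul_le_mul_of_nonneg_left hiB h3
        linarith
      obtain ⟨um, ub, ui, uq⟩ := dl_u (ν := ν) x F
        (fun z ξ => (ζ z ξ - 1) + 1 / 2 * (ζ z ξ - 1) ^ 2) a
        (2 * (h * (4 * d / B))) ((CF + 2) * ℓ) Fm
        (fun z => ((mζ z).sub_const 1).add (((mζ z).sub_const 1).pow_const 2 |>.const_mul _)) ha0 ha1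
        (by positivity) (by
          filter_upwards [Fb] with ξ hξ
          refine hξ.trans ?_
          linarith)
        (fun z => by
          filter_upwards [(hR z).2.1] with ξ ⟨hξ, _, h10⟩
          refine (abs_add_le _ _).trans ?_
          have h11 : |1 / 2 * (ζ z ξ - 1) ^ 2| ≤ ℓ := by
            rw [abs_of_nonneg (by positivity), ← sq_abs]
            have h12 := abs_nonneg (ζ z ξ - 1)
            have h13 : |ζ z ξ - 1| ^ 2 ≤ ℓ ^ 2 := pow_le_pow_left₀ h12 hξ 2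
            have h15 : ℓ * ℓ ≤ ℓ * 1 := mul_le_mul_of_nonneg_left (by linarith) p8.le
            have h16 : ℓ ^ 2 = ℓ * ℓ := sq ℓ
            linarith
          have h14 : |ζ z ξ - 1| ≤ ℓ := hξ
          linarith [mul_pos hCF p8])
      have hIR : ∑ z, a z * ∫ ξ, ((ζ z ξ - 1) + 1 / 2 * (ζ z ξ - 1) ^ 2) ∂ν ≤
          δ1 * ((1 + N + 2 * C3) * h) := by
        have h6 : ∑ z, a z * ∫ ξ, ((ζ z ξ - 1) + 1 / 2 * (ζ z ξ - 1) ^ 2) ∂ν ≤
            ∑ z, a z * ((1 + N + 2 * C3) * h) :=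
          Finset.sum_le_sum fun z _ =>
            mul_le_mul_of_nonneg_left (hR z).2.2.2.2.2.2.2.1 (ha0 z)
        rw [← Finset.sum_mul] at h6
        refine h6.trans (mul_le_mul_of_nonneg_right hasum (by positivity))
      have hmain : ∫ ξ, (F (ξ x) + ∑ z, a z * ((ζ z (ξ z) - 1) + 1 / 2 * (ζ z (ξ z) - 1) ^ 2)
          + 2 * (h * (4 * d / B))) ∂(pim ι ν) ≤
          h * (1 / 2 * (N - 2) * arf (G x) (G' x) - (1 - δ1) * dmp β (G x) (G' x)
            + (CF + (1 + N + 2 * C3) + 8 * d) * (δ1 + 1 / B)) + CF * h98 := by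
        rw [ui]
        have h7 : 0 ≤ h * δ1 := by positivity
        have h8 : 0 ≤ h * (1 / B) := by positivity
        have h9 : h * (CF * δ1) + δ1 * ((1 + N + 2 * C3) * h) + 8 * d * h * (1 / B) ≤
            h * ((CF + (1 + N + 2 * C3) + 8 * d) * (δ1 + 1 / B)) := by
          have e1 : h * ((CF + (1 + N + 2 * C3) + 8 * d) * (δ1 + 1 / B)) =
            h * (CF * δ1) + δ1 * ((1 + N + 2 * C3) * h) + 8 * d * h * (1 / B) +
              (8 * d * (h * δ1) + (CF + (1 + N + 2 * C3)) * (h * (1 / B))) := by ring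
          rw [e1]
          have : 0 ≤ 8 * d * (h * δ1) + (CF + (1 + N + 2 * C3)) * (h * (1 / B)) := by positivity
          linarith
        rw [hc8]
        linarith
      obtain ⟨d0, _⟩ := dl_dmp hβ hh (by linarith) (G x) (G' x) (hG x) (hG' x)
      obtain ⟨a0, a1⟩ := arf_bounds (G x) (G' x)
      refine ⟨_, um, ?_, ?_, ?_, ?_⟩
      · filter_upwards [hgood, ub] with ξ hξ hub
        refine ⟨hub.trans ?_, ?_⟩
        · rw [abs_of_nonneg (by positivity)]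
          have : 8 * (d : ℝ) * h ≤ 8 * d * ℓ := by gcongr
          linarith [mul_pos hCF p8, mul_nonneg hd0 p8.le]
        · set gx : ℝ := - (1 / 2 * (1 - arf (G x) (G' x)) *
                (h * ‖((K x)ᗮ).starProjection (ξ x)‖ ^ 2 / ζ x (ξ x) ^ 2))
              - h * dmp β (G x) (G' x) + C1 * h98 with hgx
          have hst := dl_stp net β h B k hh.le hB hk hb1 hkB G G' x ξ (fun z => Q z (ξ z))
            (fun z => if z = x then ζ z (ξ z) * ‖G z - G' z‖ * (1 + gx)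
              else ζ z (ξ z) * ‖G z - G' z‖) (fun z => by
                by_cases hzx : z = x
                · subst hzx
                  simp only [if_true]
                  have := (hξ z).2.2
                  rw [hgx]
                  linarith
                · simp only [if_neg hzx]
                  exact (hξ z).2.1)
          refine hst.trans ?_
          have e1 : ∑ z, (B * k) ^ net.dist x z * (if z = x then ζ z (ξ z) * ‖G z - G' z‖ * (1 + gx)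
              else ζ z (ξ z) * ‖G z - G' z‖) =
              D * ∑ z, v z * (if z = x then ζ z (ξ z) * (1 + gx) else ζ z (ξ z)) := by
            rw [Finset.mul_sum]
            apply Finset.sum_congr rfl
            intro z _
            split_ifs
            · rw [show (B * k) ^ net.dist x z * (ζ z (ξ z) * ‖G z - G' z‖ * (1 + gx)) =
                  ζ z (ξ z) * (1 + gx) * ((B * k) ^ net.dist x z * ‖G z - G' z‖) by ring, hvD]
              ring
            · rw [show (B * k) ^ net.dist x z * (ζ z (ξ z) * ‖G z - G' z‖) =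
                  ζ z (ξ z) * ((B * k) ^ net.dist x z * ‖G z - G' z‖) by ring, hvD]
              ring
          have e2 : ∑ z, v z * (if z = x then ζ z (ξ z) * (1 + gx) else ζ z (ξ z)) =
              v x * (ζ x (ξ x) * (1 + gx)) + ∑ z, a z * ζ z (ξ z) := by
            rw [hsplit]
            simp only [if_true]
            congr 1
            apply Finset.sum_congr rfl
            intro z _
            by_cases hzx : z = x
            · simp [ha, hzx]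
            · simp [hzx]
          have h5 := dl_exp a (fun z => ζ z (ξ z)) (ζ x (ξ x)) (v x) gx (h * (4 * d / B)) hva ha0
            ((hξ x).1.1.trans (hξ x).1.2.2) hc0
          have h6 := mul_le_mul_of_nonneg_left h5 hD0
          rw [e1, e2, ← hD]
          refine le_trans ?_ h6
          linarith
      · refine hmain.trans ?_
        have h7 : 1 / 2 * (N - 2) * arf (G x) (G' x) ≤ 1 / 2 * N := by
          have hN' : (2 : ℝ) ≤ N := by exact_mod_cast hN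
          have h20 : 1 / 2 * ((N : ℝ) - 2) * arf (G x) (G' x) ≤ 1 / 2 * ((N : ℝ) - 2) * 1 :=
            mul_le_mul_of_nonneg_left a1 (by linarith)
          linarith
        have h8 : 0 ≤ (1 - δ1) * dmp β (G x) (G' x) := mul_nonneg (by linarith) d0
        have h9 : (CF + (1 + N + 2 * C3) + 8 * d) * (δ1 + 1 / B) ≤
            (CF + (1 + N + 2 * C3) + 8 * d) * 2 := by
          apply mul_le_mul_of_nonneg_left (by linarith)
          positivity
        have h10 : CF * h98 ≤ CF * h := mul_le_mul_of_nonneg_left p3 hCF.le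
        have h11 : 1 / 2 * (N - 2) * arf (G x) (G' x) - (1 - δ1) * dmp β (G x) (G' x)
            + (CF + (1 + N + 2 * C3) + 8 * d) * (δ1 + 1 / B) ≤
            1 / 2 * N + (CF + (1 + N + 2 * C3) + 8 * d) * 2 := by linarith
        have h12 := mul_le_mul_of_nonneg_left h11 hh.le
        have h13 : 1 / 2 * N + (CF + (1 + N + 2 * C3) + 8 * d) * 2 + CF ≤
            (1 + 6 * CF + 3 * N + 15 * (1 + C3) + 24 * d + 192 * d ^ 2) := by
          linarith [sq_nonneg (d : ℝ)]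
        have h14 := mul_le_mul_of_nonneg_right h13 hh.le
        linarith
      · intro _ _
        refine hmain.trans ?_
        have h9 : (CF + (1 + N + 2 * C3) + 8 * d) * (δ1 + 1 / B) ≤
            (1 + 6 * CF + 3 * N + 15 * (1 + C3) + 24 * d + 192 * d ^ 2) * (δ1 + 1 / B) := by
          apply mul_le_mul_of_nonneg_right _ (by positivity)
          linarith [sq_nonneg (d : ℝ)]
        have h10 : CF * h98 ≤ (2 * (CF + 2) + 8 * d + CF + 1) * h98 := by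
          apply mul_le_mul_of_nonneg_right _ h980
          linarith
        have h11 := mul_le_mul_of_nonneg_left h9 hh.le
        linarith
      · refine uq.trans ?_
        have h6 : ∑ z, a z * ∫ ξ, ((ζ z ξ - 1) + 1 / 2 * (ζ z ξ - 1) ^ 2) ^ 2 ∂ν ≤
            ∑ z, a z * (3 * (1 + C3) * h) :=
          Finset.sum_le_sum fun z _ =>
            mul_le_mul_of_nonneg_left (hR z).2.2.2.2.2.2.2.2 (ha0 z)
        rw [← Finset.sum_mul] at h6
        have h6' : (∑ z, a z) * (3 * (1 + C3) * h) ≤ 1 * (3 * (1 + C3) * h) :=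
          mul_le_mul_of_nonneg_right ha1 (by positivity)
        have h8 : (2 * (h * (4 * d / B))) ^ 2 ≤ 64 * d ^ 2 * h := by
          calc (2 * (h * (4 * d / B))) ^ 2 ≤ (8 * d * h) ^ 2 := by gcongr
            _ = 64 * d ^ 2 * (h * h) := by ring
            _ ≤ 64 * d ^ 2 * h := by
                have : h * h ≤ h := p5.trans p3
                gcongr
        have h7 : 3 * (CF * h) + 3 * (3 * (1 + C3) * h) + 3 * (64 * d ^ 2 * h) ≤
            (1 + 6 * CF + 3 * N + 15 * (1 + C3) + 24 * d + 192 * d ^ 2) * h := by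
          have : 3 * CF + 3 * (3 * (1 + C3)) + 3 * (64 * d ^ 2) ≤
              (1 + 6 * CF + 3 * N + 15 * (1 + C3) + 24 * d + 192 * d ^ 2) := by
            linarith [sq_nonneg (d : ℝ)]
          have := mul_le_mul_of_nonneg_right this hh.le
          linarith
        linarith
    · -- general
      obtain ⟨um, ub, ui, uq⟩ := dl_u (ν := ν) x (fun _ => 0) (fun z ξ => ζ z ξ - 1) v
        (h * (4 * d / B)) ((CF + 2) * ℓ) measurable_const (fun z => (mζ z).sub_const 1) hv0 hv1.le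
        (by positivity) (Filter.Eventually.of_forall fun _ => by simp only [abs_zero]; positivity)
        (fun z => by
          filter_upwards [(hR z).2.1] with ξ hξ
          refine hξ.1.trans ?_
          linarith [mul_pos hCF p8])
      have hc4 : h * (4 * d / B) = 4 * d * h * (1 / B) := by ring
      have hcB : h * (4 * d / B) ≤ 4 * d * h := by
        rw [hc4]
        have h3 : 0 ≤ 4 * (d : ℝ) * h := by positivity
        have h4 := mul_le_mul_of_nonneg_left hiB h3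
        linarith
      have hc0 : 0 ≤ h * (4 * d / B) := by positivity
      refine ⟨_, um, ?_, ?_, ?_, ?_⟩
      · filter_upwards [hgood, ub] with ξ hξ hub
        refine ⟨hub.trans ?_, ?_⟩
        · rw [abs_of_nonneg hc0]
          have : 4 * (d : ℝ) * h ≤ 4 * d * ℓ := by gcongr
          linarith [mul_pos hCF p8, mul_nonneg hd0 p8.le]
        · have hst := dl_stp net β h B k hh.le hB hk hb1 hkB G G' x ξ (fun z => Q z (ξ z))
            (fun z => ζ z (ξ z) * ‖G z - G' z‖) (fun z => (hξ z).2.1)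
          refine hst.trans ?_
          have e1 : ∑ z, (B * k) ^ net.dist x z * (ζ z (ξ z) * ‖G z - G' z‖) =
              D * ∑ z, v z * ζ z (ξ z) := by
            rw [Finset.mul_sum]
            apply Finset.sum_congr rfl
            intro z _
            rw [show (B * k) ^ net.dist x z * (ζ z (ξ z) * ‖G z - G' z‖) =
                  ζ z (ξ z) * ((B * k) ^ net.dist x z * ‖G z - G' z‖) by ring, hvD]
            ring
          have e2 : ∑ z, v z * (ζ z (ξ z) - 1) = ∑ z, v z * ζ z (ξ z) - 1 := by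
            rw [show ∑ z, v z * (ζ z (ξ z) - 1) = ∑ z, (v z * ζ z (ξ z) - v z) from
              Finset.sum_congr rfl fun z _ => by ring, Finset.sum_sub_distrib, hv1]
          have h5 := Real.add_one_le_exp (0 + ∑ z, v z * (ζ z (ξ z) - 1) + h * (4 * d / B))
          rw [e1, ← hD]
          have h6 := mul_le_mul_of_nonneg_left h5 hD0
          rw [e2] at h6
          rw [e2]
          linarith
      · rw [ui]
        have h6 : ∑ z, v z * ∫ ξ, (ζ z ξ - 1) ∂ν ≤ ∑ z, v z * ((N + C3) * h) :=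
          Finset.sum_le_sum fun z _ => mul_le_mul_of_nonneg_left (hR z).2.2.2.2.1 (hv0 z)
        rw [← Finset.sum_mul, hv1, one_mul] at h6
        simp only [integral_zero]
        have h7 : (N + C3) * h + 4 * d * h ≤
            (1 + 6 * CF + 3 * N + 15 * (1 + C3) + 24 * d + 192 * d ^ 2) * h := by
          have : (N + C3) + 4 * d ≤ (1 + 6 * CF + 3 * N + 15 * (1 + C3) + 24 * d + 192 * d ^ 2) := by
            linarith [sq_nonneg (d : ℝ)]
          have := mul_le_mul_of_nonneg_right this hh.le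
          linarith
        linarith
      · intro hc
        exact absurd hc hdom
      · refine uq.trans ?_
        have h6 : ∑ z, v z * ∫ ξ, (ζ z ξ - 1) ^ 2 ∂ν ≤ ∑ z, v z * ((1 + C3) * h) :=
          Finset.sum_le_sum fun z _ => mul_le_mul_of_nonneg_left (hR z).2.2.2.2.2.1 (hv0 z)
        rw [← Finset.sum_mul, hv1, one_mul] at h6
        have h8 : (h * (4 * d / B)) ^ 2 ≤ 16 * d ^ 2 * h := by
          calc (h * (4 * d / B)) ^ 2 ≤ (4 * d * h) ^ 2 := by gcongr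
            _ = 16 * d ^ 2 * (h * h) := by ring
            _ ≤ 16 * d ^ 2 * h := by
                have : h * h ≤ h := p5.trans p3
                gcongr
        have h7 : 3 * ((1 + C3) * h) + 3 * (16 * d ^ 2 * h) ≤
            (1 + 6 * CF + 3 * N + 15 * (1 + C3) + 24 * d + 192 * d ^ 2) * h := by
          have : 3 * (1 + C3) + 3 * (16 * d ^ 2) ≤
              (1 + 6 * CF + 3 * N + 15 * (1 + C3) + 24 * d + 192 * d ^ 2) := by
            linarith [sq_nonneg (d : ℝ)]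
          have := mul_le_mul_of_nonneg_right this hh.le
          linarith
        simp only [ne_eq, OfNat.ofNat_ne_zero, not_false_eq_true, zero_pow, integral_zero, mul_zero,
          zero_add]
        linarith

end Dyn
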