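import Pool.Agent.Lib_MP_36b788.Defs

/-!
# ROT: the plane rotation taking `e` to `e'`

PROOF. `N ≥ 2`. For unit `a` let `s_a u = u - 2⟪a,u⟫a` (`reflection (ℝ ∙ a)ᗮ`).
Case `e' ≠ -e`: `b = (e+e')/‖e+e'‖`, `Q = s_b ∘ s_e`. Then `Q e = s_b (-e) = -e + 2⟪b,e⟫ b = e'`
because `2⟪b,e⟫ b = 2(1+⟪e,e'⟫)/‖e+e'‖² (e+e') = e+e'`. Take `K` of dimension 2 containing `e,e'`
(if `e' = e`, add any unit vector orthogonal to `e`). `Q` is the identity on `Kᗮ` (both reflections
fix it) and maps `K` to `K`. On `K`: with an orthonormal basis `e, f` of `K`, `e' = c e + s f`,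
`c²+s²=1`, one computes `Q e = c e + s f`, `Q f = -s e + c f`, hence
`‖u - Q u‖² = 2(1-c)‖u‖² = ‖e-e'‖²‖u‖²` for `u ∈ K`. For general `u`,
`u - Q u = P u - Q P u` with `P` the projection to `K`.
Case `e' = -e`: `K = span(e,f)`, `f` a unit vector orthogonal to `e`, `Q = s_e ∘ s_f`:
`Q = -1` on `K`, identity on `Kᗮ`, and `‖u-Qu‖² = 4‖Pu‖² = ‖e-e'‖²‖Pu‖²`.
(One may also define `Q` directly by its matrix in an orthonormal basis extending `e, f`.)
-/

open MeasureTheory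

namespace Dyn

open scoped RealInnerProductSpace in
private theorem rot_unit_orth {N : ℕ} (hN : 2 ≤ N) (e : E N) (he : ‖e‖ = 1) :
    ∃ f : E N, ‖f‖ = 1 ∧ ⟪e, f⟫ = 0 := by
  have hne : e ≠ 0 := by
    rintro rfl
    rw [norm_zero] at he
    exact zero_ne_one he
  have h1 : Module.finrank ℝ (Submodule.span ℝ {e}) = 1 := finrank_span_singleton hne
  have h2 := Submodule.finrank_add_finrank_orthogonal (Submodule.span ℝ {e})
  rw [h1, finrank_euclideanSpace, Fintype.card_fin] at h2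
  have h3 : 0 < Module.finrank ℝ (Submodule.span ℝ {e})ᗮ := by omega
  have : Nontrivial (Submodule.span ℝ {e})ᗮ := Module.nontrivial_of_finrank_pos h3
  obtain ⟨g, hg⟩ := exists_ne (0 : (Submodule.span ℝ {e})ᗮ)
  have hg' : (g : E N) ≠ 0 := fun h => hg (Subtype.ext h)
  have h4 : ⟪e, (g : E N)⟫ = 0 := Submodule.mem_orthogonal_singleton_iff_inner_right.1 g.2
  refine ⟨(‖(g : E N)‖⁻¹ : ℝ) • (g : E N), ?_, ?_⟩
  · rw [norm_smul, norm_inv, norm_norm, inv_mul_cancel₀ (norm_ne_zero_iff.2 hg')]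
  · rw [real_inner_smul_right, h4, mul_zero]

open scoped RealInnerProductSpace in
private theorem rot_decomp {N : ℕ} (hN : 2 ≤ N) (e e' : E N) (he : ‖e‖ = 1) (he' : ‖e'‖ = 1) :
    ∃ (f : E N) (c s : ℝ), ‖f‖ = 1 ∧ ⟪e, f⟫ = 0 ∧ c ^ 2 + s ^ 2 = 1 ∧ e' = c • e + s • f := by
  have hee : ⟪e, e⟫ = 1 := by rw [real_inner_self_eq_norm_sq, he, one_pow]
  by_cases h : e' - ⟪e, e'⟫ • e = 0
  · obtain ⟨f, hf, hef⟩ := rot_unit_orth hN e he
    have h1 : e' = ⟪e, e'⟫ • e := sub_eq_zero.1 h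
    refine ⟨f, ⟪e, e'⟫, 0, hf, hef, ?_, by rw [zero_smul, add_zero]; exact h1⟩
    have h2 : ‖e'‖ ^ 2 = ⟪e, e'⟫ ^ 2 * ‖e‖ ^ 2 := by
      conv_lhs => rw [h1]
      rw [norm_smul, mul_pow, Real.norm_eq_abs, sq_abs]
    rw [he, he'] at h2
    linarith
  · have hn : ‖e' - ⟪e, e'⟫ • e‖ ≠ 0 := norm_ne_zero_iff.2 h
    refine ⟨(‖e' - ⟪e, e'⟫ • e‖⁻¹ : ℝ) • (e' - ⟪e, e'⟫ • e), ⟪e, e'⟫, ‖e' - ⟪e, e'⟫ • e‖, ?_, ?_,
      ?_, ?_⟩
    · rw [norm_smul, norm_inv, norm_norm, inv_mul_cancel₀ hn]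
    · rw [real_inner_smul_right, inner_sub_right, real_inner_smul_right, hee, mul_one, sub_self,
        mul_zero]
    · rw [norm_sub_sq_real, he', real_inner_smul_right, norm_smul, he, mul_one, Real.norm_eq_abs,
        sq_abs, real_inner_comm e' e]
      ring
    · rw [smul_smul, mul_inv_cancel₀ hn, one_smul]
      abel

open scoped RealInnerProductSpace in
private theorem rot_norm {N : ℕ} {e f : E N} (he : ‖e‖ = 1) (hf : ‖f‖ = 1) (hef : ⟪e, f⟫ = 0)
    (u : E N) (α β : ℝ) :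
    ‖u + (α • e + β • f)‖ ^ 2 = ‖u‖ ^ 2 + (α ^ 2 + β ^ 2) + 2 * (α * ⟪e, u⟫ + β * ⟪f, u⟫) := by
  rw [norm_add_sq_real, norm_add_sq_real, inner_add_right, real_inner_smul_right,
    real_inner_smul_right, real_inner_smul_right, real_inner_smul_left, hef, norm_smul, norm_smul,
    he, hf, Real.norm_eq_abs, Real.norm_eq_abs, mul_one, mul_one, sq_abs, sq_abs,
    real_inner_comm u e, real_inner_comm u f]
  ring

open scoped RealInnerProductSpace in
theorem exists_rot {N : ℕ} (hN : 2 ≤ N) (e e' : E N) (he : ‖e‖ = 1) (he' : ‖e'‖ = 1) :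
    ∃ (Q : E N ≃ₗᵢ[ℝ] E N) (K : Submodule ℝ (E N)), Module.finrank ℝ K = 2 ∧ e ∈ K ∧ e' ∈ K ∧
      Q e = e' ∧ ∀ u : E N, ‖u - Q u‖ ^ 2
        = ‖e - e'‖ ^ 2 * (‖u‖ ^ 2 - ‖(Kᗮ).starProjection u‖ ^ 2) := by
  obtain ⟨f, c, s, hf, hef, hcs, rfl⟩ := rot_decomp hN e e' he he'
  have hee : ⟪e, e⟫ = 1 := by rw [real_inner_self_eq_norm_sq, he, one_pow]
  have hff : ⟪f, f⟫ = 1 := by rw [real_inner_self_eq_norm_sq, hf, one_pow]
  have hfe : ⟪f, e⟫ = 0 := by rw [real_inner_comm]; exact hef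
  let L : E N →ₗ[ℝ] E N := LinearMap.id +
    ((innerₛₗ ℝ e).smulRight ((c - 1) • e + s • f) +
      (innerₛₗ ℝ f).smulRight ((-s) • e + (c - 1) • f))
  have hL : ∀ u : E N, L u = u + ((⟪e, u⟫ * (c - 1) - ⟪f, u⟫ * s) • e +
      (⟪e, u⟫ * s + ⟪f, u⟫ * (c - 1)) • f) := by
    intro u
    change u + (⟪e, u⟫ • ((c - 1) • e + s • f) + ⟪f, u⟫ • ((-s) • e + (c - 1) • f)) = _
    module
  have hLn : ∀ u : E N, ‖L u‖ = ‖u‖ := by
    intro u
    rw [← sq_eq_sq₀ (norm_nonneg _) (norm_nonneg _), hL, rot_norm he hf hef]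
    linear_combination (⟪e, u⟫ ^ 2 + ⟪f, u⟫ ^ 2) * hcs
  let li : E N →ₗᵢ[ℝ] E N := ⟨L, hLn⟩
  have hon : Orthonormal ℝ ![e, f] := by
    constructor
    · intro i
      fin_cases i
      · exact he
      · exact hf
    · intro i j hij
      fin_cases i <;> fin_cases j
      · exact absurd rfl hij
      · exact hef
      · exact hfe
      · exact absurd rfl hij
  have heK : e ∈ Submodule.span ℝ (Set.range ![e, f]) := Submodule.subset_span ⟨0, rfl⟩
  have hfK : f ∈ Submodule.span ℝ (Set.range ![e, f]) := Submodule.subset_span ⟨1, rfl⟩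
  refine ⟨li.toLinearIsometryEquiv rfl, Submodule.span ℝ (Set.range ![e, f]), ?_, heK,
    add_mem (Submodule.smul_mem _ _ heK) (Submodule.smul_mem _ _ hfK), ?_, fun u => ?_⟩
  · rw [finrank_span_eq_card hon.linearIndependent, Fintype.card_fin]
  · rw [LinearIsometry.coe_toLinearIsometryEquiv]
    change L e = _
    rw [hL, hee, hfe]
    module
  · rw [LinearIsometry.coe_toLinearIsometryEquiv]
    change ‖u - L u‖ ^ 2 = _
    have hP : ((Submodule.span ℝ (Set.range ![e, f]))ᗮ).starProjection u =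
        u + ((-⟪e, u⟫) • e + (-⟪f, u⟫) • f) := by
      refine Submodule.eq_starProjection_of_mem_orthogonal ?_ ?_
      · rw [Submodule.mem_orthogonal]
        intro w hw
        induction hw using Submodule.span_induction with
        | mem w hw =>
          obtain ⟨i, rfl⟩ := hw
          fin_cases i
          · change ⟪e, _⟫ = 0
            rw [inner_add_right, inner_add_right, real_inner_smul_right, real_inner_smul_right,
              hee, hef]
            ring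
          · change ⟪f, _⟫ = 0
            rw [inner_add_right, inner_add_right, real_inner_smul_right, real_inner_smul_right,
              hff, hfe]
            ring
        | zero => exact inner_zero_left _
        | add x y _ _ hx hy => rw [inner_add_left, hx, hy, add_zero]
        | smul a x _ hx => rw [real_inner_smul_left, hx, mul_zero]
      · apply Submodule.le_orthogonal_orthogonal
        have h5 : u - (u + ((-⟪e, u⟫) • e + (-⟪f, u⟫) • f)) = ⟪e, u⟫ • e + ⟪f, u⟫ • f := by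
          module
        rw [h5]
        exact add_mem (Submodule.smul_mem _ _ heK) (Submodule.smul_mem _ _ hfK)
    rw [hP, rot_norm he hf hef, hL]
    have h6 : u - (u + ((⟪e, u⟫ * (c - 1) - ⟪f, u⟫ * s) • e +
        (⟪e, u⟫ * s + ⟪f, u⟫ * (c - 1)) • f)) =
        0 + ((-(⟪e, u⟫ * (c - 1) - ⟪f, u⟫ * s)) • e +
          (-(⟪e, u⟫ * s + ⟪f, u⟫ * (c - 1))) • f) := by
      module
    have h7 : e - (c • e + s • f) = 0 + ((1 - c) • e + (-s) • f) := by
      module
    rw [h6, h7, rot_norm he hf hef, rot_norm he hf hef]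
    simp only [inner_zero_right, norm_zero]
    ring

end Dyn
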