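import Pool.Agent.Lib_MP_36b788.HatB
import Pool.Agent.Lib_MP_36b788.Rot

/-!
# DSITE: one site, two copies, rotation coupling

Copy 1 uses `ξ`, copy 2 uses `Qξ`. `D = g-g'`, `r=‖g‖, r'=‖g'‖`, `ar = (r-r')²/‖D‖²` (`0` if `D=0`),
`dmp = ½(r^β+r'^β) + β min(r,r')^β ar`.

PROOF. If `g, g' ≠ 0`: `e = g/r, e' = g'/r'`, `Q, K` from ROT. If one (or both) vanish or `g = g'`: `Q = 1`, `e` the
direction of a nonvanishing one (any unit vector if both vanish), `K` any plane containing `e`.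
`ζ = ‖e+√hξ‖`. `X = g+√h r ξ = r(e+√hξ)`, `X' = r'(e'+√hQξ) = r'Q(e+√hξ)`, so with `u = e+√hξ`:
`‖X-X'‖² = (r-r')²ζ² + r r'‖u-Qu‖²`, `‖u-Qu‖² = ‖e-e'‖²(ζ² - h‖P_{K⊥}ξ‖²)` (`P_{K⊥}u = √hP_{K⊥}ξ`), and
`rr'‖e-e'‖² = ‖D‖²-(r-r')²`. Hence `‖X-X'‖² = ζ²‖D‖²(1-(1-ar)τ)`, `τ = h‖P_{K⊥}ξ‖²/ζ²`.
`hat g ξ = J X`, `hat g' (Qξ) = J X'`. J_nonexp: `≤ ζ‖D‖`.
J_damp: `‖JX-JX'‖(1+hκ) ≤ ‖X-X'‖`, `κ = ½(R^β+R'^β)+½(R^β-R'^β)(R²-R'²)/‖JX-JX'‖²`, `R = ψ(rζ)`, `R' = ψ(r'ζ)`.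
Lower bound `hκ ≥ h dmp - C h^{9/8}`: `R^β ≥ r^β(1-Cℓ)` and `h r^βℓ ≤ h^{9/8}`;
`(R^β-R'^β)(R²-R'²) ≥ 2β min(R,R')^β (R-R')²` (for `β ≥ 1`: `R^β-R'^β ≥ β R'^{β-1}(R-R')`, `R+R' ≥ 2R'`, `R' ≤ R`);
`|R-R'| ≥ |r-r'|ζ/(1+(1+β)h max^β)` (`psi_hasDerivAt` or `J_lip_lower` on a ray), `‖JX-JX'‖ ≤ ζ‖D‖`, so
`(R-R')²/‖JX-JX'‖² ≥ ar(1-C h^{3/4})`.
Finally `√(1-(1-ar)τ)/(1+hκ) ≤ (1-½(1-ar)τ)(1-hκ+(hκ)²) ≤ 1-½(1-ar)τ-h dmp + C h^{9/8}` as `τ ≤ 2ℓ²`, `hκ ≤ C h^{3/4}`.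
(`κ` can be bounded above by replacing it with `min(κ, dmp')`; only the lower bound of `κ` is needed since
`x ↦ 1/(1+x)` is decreasing: use `hκ ≥ x0 := h dmp - C h^{9/8}`, `x0 ≤ C h^{3/4}`.)
-/

open MeasureTheory

namespace Dyn

noncomputable section

/-- `ar = (r-r')²/‖g-g'‖²` -/
def arf {N : ℕ} (g g' : E N) : ℝ := (‖g‖ - ‖g'‖) ^ 2 / ‖g - g'‖ ^ 2

/-- damping rate of the difference -/
def dmp {N : ℕ} (β : ℝ) (g g' : E N) : ℝ :=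
  1 / 2 * (‖g‖ ^ β + ‖g'‖ ^ β) + β * (min ‖g‖ ‖g'‖) ^ β * arf g g'

end

theorem arf_bounds {N : ℕ} (g g' : E N) : 0 ≤ arf g g' ∧ arf g g' ≤ 1 := by
  unfold arf
  refine ⟨by positivity, ?_⟩
  apply div_le_one_of_le₀ _ (by positivity)
  have h1 := abs_norm_sub_norm_le g g'
  have h2 : |‖g‖ - ‖g'‖| ^ 2 ≤ ‖g - g'‖ ^ 2 := by
    apply pow_le_pow_left₀ (abs_nonneg _) h1
  rwa [sq_abs] at h2

private theorem DSite_pow_aux {β a b : ℝ} (hβ : 1 ≤ β) (hb : 0 ≤ b) (hab : b ≤ a) :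
    2 * β * b ^ β * (a - b) ^ 2 ≤ (a ^ β - b ^ β) * (a ^ 2 - b ^ 2) := by
  rcases hb.eq_or_lt with h0 | hb0
  · subst h0
    rw [Real.zero_rpow (by linarith)]
    have h1 : 0 ≤ a ^ β := Real.rpow_nonneg hab _
    have h2 : 0 ≤ a ^ 2 := sq_nonneg a
    nlinarith [mul_nonneg h1 h2]
  · have h1 : 1 + β * ((a - b) / b) ≤ (1 + (a - b) / b) ^ β := by
      apply one_add_mul_self_le_rpow_one_add _ hβ
      have : 0 ≤ (a - b) / b := div_nonneg (by linarith) hb0.le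
      linarith
    have h2 : 1 + (a - b) / b = a / b := by
      field_simp
      ring
    rw [h2, Real.div_rpow (by linarith) hb] at h1
    have hbβ : 0 < b ^ β := Real.rpow_pos_of_pos hb0 _
    rw [le_div_iff₀ hbβ] at h1
    have h3 : (1 + β * ((a - b) / b)) * b ^ β * b = b ^ β * b + β * (a - b) * b ^ β := by
      field_simp
    have h4 : β * (a - b) * b ^ β ≤ (a ^ β - b ^ β) * b := by
      have := mul_le_mul_of_nonneg_right h1 hb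
      rw [h3] at this
      linarith
    have h5 : 0 ≤ a ^ β - b ^ β := by
      have := Real.rpow_le_rpow hb hab (by linarith : 0 ≤ β)
      linarith
    have h6 : 0 ≤ a - b := by linarith
    have h7 := mul_le_mul_of_nonneg_right h4 h6
    have h8 : (a ^ β - b ^ β) * b * (a - b) * 2 ≤ (a ^ β - b ^ β) * (a ^ 2 - b ^ 2) := by
      have : b * (a - b) * 2 ≤ a ^ 2 - b ^ 2 := by nlinarith
      have := mul_le_mul_of_nonneg_left this h5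
      nlinarith
    nlinarith

private theorem DSite_pow {β a b : ℝ} (hβ : 1 ≤ β) (ha : 0 ≤ a) (hb : 0 ≤ b) :
    2 * β * (min a b) ^ β * (a - b) ^ 2 ≤ (a ^ β - b ^ β) * (a ^ 2 - b ^ 2) := by
  rcases le_total b a with h | h
  · rw [min_eq_right h]
    exact DSite_pow_aux hβ hb h
  · rw [min_eq_left h]
    have := DSite_pow_aux hβ ha h
    nlinarith

private theorem DSite_rpow_low {β ℓ r R : ℝ} (hβ : 1 ≤ β) (hℓ : 0 ≤ ℓ) (hℓ1 : ℓ ≤ 1 / 10)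
    (hr : 0 ≤ r) (hR : (1 - 2 * ℓ) * r ≤ R) : (1 - 2 * β * ℓ) * r ^ β ≤ R ^ β := by
  have h1 : ((1 - 2 * ℓ) * r) ^ β ≤ R ^ β :=
    Real.rpow_le_rpow (mul_nonneg (by linarith) hr) hR (by linarith)
  rw [Real.mul_rpow (by linarith) hr] at h1
  have h2 : 1 + β * (-(2 * ℓ)) ≤ (1 + -(2 * ℓ)) ^ β :=
    one_add_mul_self_le_rpow_one_add (by linarith) hβ
  have h3 : 0 ≤ r ^ β := Real.rpow_nonneg hr _
  have h4 : (1 - 2 * β * ℓ) ≤ (1 - 2 * ℓ) ^ β := by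
    have : (1 + -(2 * ℓ)) = 1 - 2 * ℓ := by ring
    rw [this] at h2
    linarith
  calc (1 - 2 * β * ℓ) * r ^ β ≤ (1 - 2 * ℓ) ^ β * r ^ β := mul_le_mul_of_nonneg_right h4 h3
    _ ≤ R ^ β := h1

private theorem DSite_rpow_up {β ℓ r R h : ℝ} (hβ : 1 ≤ β) (hℓ : 0 ≤ ℓ) (hℓ1 : ℓ ≤ 1 / 10)
    (hh : 0 ≤ h) (hr : 0 ≤ r) (hR0 : 0 ≤ R) (hR : R ≤ (1 + ℓ) * r) (hrβ : h * r ^ β ≤ ℓ ^ 2) :
    h * R ^ β ≤ 2 ^ β * ℓ ^ 2 := by
  have h1 : R ^ β ≤ (2 * r) ^ β := by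
    apply Real.rpow_le_rpow hR0 _ (by linarith)
    nlinarith
  rw [Real.mul_rpow (by norm_num) hr] at h1
  have h2 : (0 : ℝ) ≤ 2 ^ β := Real.rpow_nonneg (by norm_num) _
  calc h * R ^ β ≤ h * (2 ^ β * r ^ β) := mul_le_mul_of_nonneg_left h1 hh
    _ = 2 ^ β * (h * r ^ β) := by ring
    _ ≤ 2 ^ β * ℓ ^ 2 := mul_le_mul_of_nonneg_left hrβ h2

/-- lower bound of the damping -/
private theorem DSite_kappa {β h ℓ r r' R R' Δ D ζ ar : ℝ} (hβ : 1 < β) (hh : 0 < h)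
    (hℓ0 : 0 < ℓ) (hℓ1 : ℓ ≤ 1 / 10) (hℓβ : 2 * β * ℓ ≤ 1)
    (hr : 0 ≤ r) (hr' : 0 ≤ r') (hR0 : 0 ≤ R) (hR0' : 0 ≤ R')
    (hR1 : (1 - 2 * ℓ) * r ≤ R) (hR2 : R ≤ (1 + ℓ) * r)
    (hR1' : (1 - 2 * ℓ) * r' ≤ R') (hR2' : R' ≤ (1 + ℓ) * r')
    (hrβ : h * r ^ β ≤ ℓ ^ 2) (hrβ' : h * r' ^ β ≤ ℓ ^ 2)
    (hD : 0 < D) (hζ : 0 < ζ) (hΔ : 0 < Δ) (hΔD : Δ ≤ ζ * D)
    (har : ar = (r - r') ^ 2 / D ^ 2) (har1 : ar ≤ 1)
    (hlip : |r - r'| * ζ ≤ |R - R'| * (1 + h * (1 + β) * (max R R') ^ β)) :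
    h * (1 / 2 * (r ^ β + r' ^ β) + β * (min r r') ^ β * ar)
        - (2 * β + β * (2 * β + 2 * (1 + β) * 2 ^ β)) * ℓ ^ 3
      ≤ h * (1 / 2 * (R ^ β + R' ^ β) + 1 / 2 * (R ^ β - R' ^ β) * (R ^ 2 - R' ^ 2) / Δ ^ 2) := by
  have hβ1 : 1 ≤ β := hβ.le
  have h2β : (0 : ℝ) ≤ 2 ^ β := Real.rpow_nonneg (by norm_num) _
  -- first term
  have a1 := DSite_rpow_low hβ1 hℓ0.le hℓ1 hr hR1
  have a2 := DSite_rpow_low hβ1 hℓ0.le hℓ1 hr' hR1'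
  have b1 : h * r ^ β - 2 * β * ℓ ^ 3 ≤ h * R ^ β := by
    have := mul_le_mul_of_nonneg_left a1 hh.le
    have e1 : h * ((1 - 2 * β * ℓ) * r ^ β) = h * r ^ β - 2 * β * ℓ * (h * r ^ β) := by ring
    have e2 : 2 * β * ℓ * (h * r ^ β) ≤ 2 * β * ℓ * ℓ ^ 2 :=
      mul_le_mul_of_nonneg_left hrβ (by positivity)
    nlinarith
  have b2 : h * r' ^ β - 2 * β * ℓ ^ 3 ≤ h * R' ^ β := by
    have := mul_le_mul_of_nonneg_left a2 hh.le
    have e1 : h * ((1 - 2 * β * ℓ) * r' ^ β) = h * r' ^ β - 2 * β * ℓ * (h * r' ^ β) := by ring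
    have e2 : 2 * β * ℓ * (h * r' ^ β) ≤ 2 * β * ℓ * ℓ ^ 2 :=
      mul_le_mul_of_nonneg_left hrβ' (by positivity)
    nlinarith
  -- second term
  set m := min r r' with hm
  set M := max R R' with hM
  have hm0 : 0 ≤ m := le_min hr hr'
  have hmR : (1 - 2 * ℓ) * m ≤ min R R' := by
    apply le_min
    · refine le_trans (mul_le_mul_of_nonneg_left (min_le_left _ _) (by linarith)) hR1
    · refine le_trans (mul_le_mul_of_nonneg_left (min_le_right _ _) (by linarith)) hR1'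
  have a3 := DSite_rpow_low hβ1 hℓ0.le hℓ1 hm0 hmR
  have hmβ : h * m ^ β ≤ ℓ ^ 2 := by
    refine le_trans (mul_le_mul_of_nonneg_left ?_ hh.le) hrβ
    exact Real.rpow_le_rpow hm0 (min_le_left _ _) (by linarith)
  have hMβ : h * M ^ β ≤ 2 ^ β * ℓ ^ 2 := by
    rcases max_choice R R' with h1 | h1
    · rw [hM, h1]
      exact DSite_rpow_up hβ1 hℓ0.le hℓ1 hh.le hr hR0 hR2 hrβ
    · rw [hM, h1]
      exact DSite_rpow_up hβ1 hℓ0.le hℓ1 hh.le hr' hR0' hR2' hrβ'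
  set x := h * (1 + β) * M ^ β with hx
  have hM0 : 0 ≤ M := le_max_of_le_left hR0
  have hx0 : 0 ≤ x := by
    have : 0 ≤ M ^ β := Real.rpow_nonneg hM0 _
    positivity
  have hx1 : x ≤ (1 + β) * 2 ^ β * ℓ ^ 2 := by
    have : x = (1 + β) * (h * M ^ β) := by rw [hx]; ring
    rw [this, mul_assoc]
    exact mul_le_mul_of_nonneg_left hMβ (by linarith)
  -- the ratio
  set ρ := (R - R') ^ 2 / Δ ^ 2 with hρ
  have hρ0 : 0 ≤ ρ := by positivity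
  have har0 : 0 ≤ ar := by rw [har]; positivity
  have hρ1 : ar ≤ ρ * (1 + x) ^ 2 := by
    have e1 : (|r - r'| * ζ) ^ 2 ≤ (|R - R'| * (1 + x)) ^ 2 :=
      pow_le_pow_left₀ (by positivity) hlip 2
    rw [mul_pow, mul_pow, sq_abs, sq_abs] at e1
    have e2 : Δ ^ 2 ≤ (ζ * D) ^ 2 := pow_le_pow_left₀ hΔ.le hΔD 2
    rw [har, hρ, div_mul_eq_mul_div, div_le_div_iff₀ (by positivity) (by positivity)]
    have e3 : (r - r') ^ 2 * Δ ^ 2 ≤ (r - r') ^ 2 * (ζ * D) ^ 2 :=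
      mul_le_mul_of_nonneg_left e2 (by positivity)
    have e4 : (r - r') ^ 2 * (ζ * D) ^ 2 = ((r - r') ^ 2 * ζ ^ 2) * D ^ 2 := by ring
    have e5 := mul_le_mul_of_nonneg_right e1 (sq_nonneg D)
    linarith
  have hρ2 : ar * (1 - 2 * x) ≤ ρ := by
    have e1 : ar * (1 - 2 * x) * (1 + x) ^ 2 ≤ ar := by
      have : (1 - 2 * x) * (1 + x) ^ 2 ≤ 1 := by nlinarith [mul_nonneg hx0 hx0, mul_nonneg (mul_nonneg hx0 hx0) hx0]
      have := mul_le_mul_of_nonneg_left this har0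
      nlinarith
    have e2 : ar * (1 - 2 * x) * (1 + x) ^ 2 ≤ ρ * (1 + x) ^ 2 := e1.trans hρ1
    exact le_of_mul_le_mul_right e2 (by positivity)
  have c1 : β * (min R R') ^ β * ρ ≤ 1 / 2 * (R ^ β - R' ^ β) * (R ^ 2 - R' ^ 2) / Δ ^ 2 := by
    have := DSite_pow hβ1 hR0 hR0'
    rw [hρ, ← mul_div_assoc]
    apply div_le_div_of_nonneg_right _ (by positivity)
    linarith
  have c2 : m ^ β * ar * (1 - 2 * β * ℓ - 2 * x) ≤ (min R R') ^ β * ρ := by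
    have hmm : 0 ≤ m ^ β := Real.rpow_nonneg hm0 _
    have d1 : (1 - 2 * β * ℓ) * m ^ β * ρ ≤ (min R R') ^ β * ρ :=
      mul_le_mul_of_nonneg_right a3 hρ0
    have d2 : (1 - 2 * β * ℓ) * m ^ β * (ar * (1 - 2 * x)) ≤ (1 - 2 * β * ℓ) * m ^ β * ρ :=
      mul_le_mul_of_nonneg_left hρ2 (mul_nonneg (by linarith) hmm)
    have d3 : m ^ β * ar * (1 - 2 * β * ℓ - 2 * x) ≤
        (1 - 2 * β * ℓ) * m ^ β * (ar * (1 - 2 * x)) := by
      have : 0 ≤ m ^ β * ar * (2 * β * ℓ * (2 * x)) := by positivity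
      nlinarith
    linarith
  have c3 : h * (β * m ^ β * ar) - β * (2 * β + 2 * (1 + β) * 2 ^ β) * ℓ ^ 3 ≤
      h * (1 / 2 * (R ^ β - R' ^ β) * (R ^ 2 - R' ^ 2) / Δ ^ 2) := by
    have d1 : h * (β * (m ^ β * ar * (1 - 2 * β * ℓ - 2 * x))) ≤
        h * (1 / 2 * (R ^ β - R' ^ β) * (R ^ 2 - R' ^ 2) / Δ ^ 2) := by
      apply mul_le_mul_of_nonneg_left _ hh.le
      refine le_trans (mul_le_mul_of_nonneg_left c2 (by linarith)) ?_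
      rw [← mul_assoc]
      exact c1
    have d2 : h * (β * (m ^ β * ar * (1 - 2 * β * ℓ - 2 * x))) =
        h * (β * m ^ β * ar) - β * (h * m ^ β) * ar * (2 * β * ℓ + 2 * x) := by ring
    have hmm : 0 ≤ h * m ^ β := mul_nonneg hh.le (Real.rpow_nonneg hm0 _)
    have d3 : β * (h * m ^ β) * ar * (2 * β * ℓ + 2 * x) ≤
        β * ℓ ^ 2 * (2 * β * ℓ + 2 * ((1 + β) * 2 ^ β * ℓ ^ 2)) := by
      have f1 : β * (h * m ^ β) * ar ≤ β * ℓ ^ 2 := by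
        calc β * (h * m ^ β) * ar ≤ β * (h * m ^ β) * 1 :=
              mul_le_mul_of_nonneg_left har1 (by positivity)
          _ = β * (h * m ^ β) := mul_one _
          _ ≤ β * ℓ ^ 2 := mul_le_mul_of_nonneg_left hmβ (by linarith)
      apply mul_le_mul f1 (by linarith) (by positivity) (by positivity)
    have d4 : β * ℓ ^ 2 * (2 * β * ℓ + 2 * ((1 + β) * 2 ^ β * ℓ ^ 2)) ≤
        β * (2 * β + 2 * (1 + β) * 2 ^ β) * ℓ ^ 3 := by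
      have : ℓ ^ 4 ≤ ℓ ^ 3 := by
        have : ℓ ^ 3 * ℓ ≤ ℓ ^ 3 * 1 := mul_le_mul_of_nonneg_left (by linarith) (by positivity)
        nlinarith
      have hc : 0 ≤ β * (2 * ((1 + β) * 2 ^ β)) := by positivity
      have := mul_le_mul_of_nonneg_left this hc
      nlinarith
    linarith
  have e1 : h * (1 / 2 * (R ^ β + R' ^ β) + 1 / 2 * (R ^ β - R' ^ β) * (R ^ 2 - R' ^ 2) / Δ ^ 2) =
      1 / 2 * (h * R ^ β) + 1 / 2 * (h * R' ^ β) +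
      h * (1 / 2 * (R ^ β - R' ^ β) * (R ^ 2 - R' ^ 2) / Δ ^ 2) := by ring
  rw [e1]
  nlinarith

/-- the real variable part of the estimate -/
private theorem DSite_core {β h ℓ r r' R R' Δ D ζ ar τ Y : ℝ} (hβ : 1 < β) (hh : 0 < h)
    (hℓ0 : 0 < ℓ) (hℓ1 : ℓ ≤ 1 / 10) (hℓβ : 2 * (1 + β) * ℓ ≤ 1)
    (hr : 0 ≤ r) (hr' : 0 ≤ r') (hR0 : 0 ≤ R) (hR0' : 0 ≤ R')
    (hR1 : (1 - 2 * ℓ) * r ≤ R) (hR2 : R ≤ (1 + ℓ) * r)
    (hR1' : (1 - 2 * ℓ) * r' ≤ R') (hR2' : R' ≤ (1 + ℓ) * r')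
    (hrβ : h * r ^ β ≤ ℓ ^ 2) (hrβ' : h * r' ^ β ≤ ℓ ^ 2)
    (hD : 0 < D) (hζ : 0 < ζ) (hΔ0 : 0 ≤ Δ) (hΔD : Δ ≤ ζ * D)
    (har : ar = (r - r') ^ 2 / D ^ 2) (har1 : ar ≤ 1)
    (hτ0 : 0 ≤ τ) (hτ : τ ≤ 2 * ℓ ^ 2)
    (hY0 : 0 ≤ Y) (hY : Y ^ 2 = (ζ * D) ^ 2 * (1 - (1 - ar) * τ))
    (hdamp : 0 < Δ → Δ * (1 + h * (1 / 2 * (R ^ β + R' ^ β)
      + 1 / 2 * (R ^ β - R' ^ β) * (R ^ 2 - R' ^ 2) / Δ ^ 2)) ≤ Y)
    (hlip : |r - r'| * ζ ≤ |R - R'| * (1 + h * (1 + β) * (max R R') ^ β)) :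
    Δ ≤ ζ * D * (1 - 1 / 2 * (1 - ar) * τ
      - h * (1 / 2 * (r ^ β + r' ^ β) + β * (min r r') ^ β * ar)
      + (2 * β + β * (2 * β + 2 * (1 + β) * 2 ^ β) + (1 + β) + (1 + β) ^ 2) * ℓ ^ 3) := by
  have h2β : (0 : ℝ) ≤ 2 ^ β := Real.rpow_nonneg (by norm_num) _
  have har0 : 0 ≤ ar := by rw [har]; positivity
  have hm0 : 0 ≤ min r r' := le_min hr hr'
  have hmβ0 : 0 ≤ (min r r') ^ β := Real.rpow_nonneg hm0 _
  have hrr : 0 ≤ r ^ β := Real.rpow_nonneg hr _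
  have hrr' : 0 ≤ r' ^ β := Real.rpow_nonneg hr' _
  set a := 1 / 2 * (1 - ar) * τ with ha
  set dm := 1 / 2 * (r ^ β + r' ^ β) + β * (min r r') ^ β * ar with hdm
  set C2 := 2 * β + β * (2 * β + 2 * (1 + β) * 2 ^ β) with hC2
  have hC20 : 0 ≤ C2 := by positivity
  have ha0 : 0 ≤ a := by
    have : 0 ≤ 1 - ar := by linarith
    positivity
  have ha1 : a ≤ ℓ ^ 2 := by
    have : (1 - ar) * τ ≤ 1 * τ := mul_le_mul_of_nonneg_right (by linarith) hτ0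
    nlinarith
  have hmβ : h * (min r r') ^ β ≤ ℓ ^ 2 := by
    refine le_trans (mul_le_mul_of_nonneg_left ?_ hh.le) hrβ
    exact Real.rpow_le_rpow hm0 (min_le_left _ _) (by linarith)
  have hdm0 : 0 ≤ h * dm := by positivity
  have hdm1 : h * dm ≤ (1 + β) * ℓ ^ 2 := by
    have e1 : h * dm = 1 / 2 * (h * r ^ β) + 1 / 2 * (h * r' ^ β) +
        β * (h * (min r r') ^ β) * ar := by rw [hdm]; ring
    have e2 : β * (h * (min r r') ^ β) * ar ≤ β * ℓ ^ 2 := by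
      calc β * (h * (min r r') ^ β) * ar ≤ β * (h * (min r r') ^ β) * 1 :=
            mul_le_mul_of_nonneg_left har1 (by positivity)
        _ = β * (h * (min r r') ^ β) := mul_one _
        _ ≤ β * ℓ ^ 2 := mul_le_mul_of_nonneg_left hmβ (by linarith)
    rw [e1]
    linarith
  have hℓ2 : ℓ ^ 2 ≤ 1 / 100 := by nlinarith
  have hℓ43 : ℓ ^ 4 ≤ ℓ ^ 3 := by
    have : ℓ ^ 3 * ℓ ≤ ℓ ^ 3 * 1 := mul_le_mul_of_nonneg_left (by linarith) (by positivity)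
    nlinarith
  have hdm2 : h * dm ≤ 1 / 20 := by nlinarith
  have hζD : 0 < ζ * D := by positivity
  rcases hΔ0.eq_or_lt with h0 | hΔ
  · rw [← h0]
    apply mul_nonneg hζD.le
    have : 0 ≤ (C2 + (1 + β) + (1 + β) ^ 2) * ℓ ^ 3 := by positivity
    linarith
  · have hk := DSite_kappa hβ hh hℓ0 hℓ1 (by nlinarith) hr hr' hR0 hR0' hR1 hR2 hR1' hR2' hrβ hrβ' hD
      hζ hΔ hΔD har har1 hlip
    have hd := hdamp hΔ
    set κ := h * (1 / 2 * (R ^ β + R' ^ β)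
      + 1 / 2 * (R ^ β - R' ^ β) * (R ^ 2 - R' ^ 2) / Δ ^ 2) with hκ
    have hκ0 : 0 ≤ κ := by
      have e1 : 0 ≤ R ^ β := Real.rpow_nonneg hR0 _
      have e2 : 0 ≤ R' ^ β := Real.rpow_nonneg hR0' _
      have e3 := DSite_pow hβ.le hR0 hR0'
      have e4 : 0 ≤ 2 * β * (min R R') ^ β * (R - R') ^ 2 := by
        have : 0 ≤ (min R R') ^ β := Real.rpow_nonneg (le_min hR0 hR0') _
        positivity
      have e5 : 0 ≤ 1 / 2 * (R ^ β - R' ^ β) * (R ^ 2 - R' ^ 2) / Δ ^ 2 := by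
        apply div_nonneg _ (by positivity)
        linarith
      positivity
    set y := max (h * dm - C2 * ℓ ^ 3) 0 with hy
    have hy0 : 0 ≤ y := le_max_right _ _
    have hyκ : y ≤ κ := max_le hk hκ0
    have hyd : y ≤ h * dm := by
      apply max_le _ hdm0
      have : 0 ≤ C2 * ℓ ^ 3 := by positivity
      linarith
    have hY1 : Y ≤ ζ * D * (1 - a) := by
      apply le_of_sq_le_sq _ _
      · rw [hY, mul_pow (ζ * D) (1 - a)]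
        apply mul_le_mul_of_nonneg_left _ (by positivity)
        have : (1 - ar) * τ = 2 * a := by rw [ha]; ring
        rw [this]
        nlinarith [sq_nonneg a]
      · apply mul_nonneg hζD.le
        linarith
    have h1 : Δ * (1 + y) ≤ ζ * D * (1 - a) := by
      refine le_trans (mul_le_mul_of_nonneg_left (by linarith) hΔ.le) (hd.trans hY1)
    have h2 : (1 - a) ≤ (1 - a - y + a * y + y ^ 2) * (1 + y) := by
      have e1 : (1 - a - y + a * y + y ^ 2) * (1 + y) = 1 - a + a * y ^ 2 + y ^ 3 := by ring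
      rw [e1]
      have : 0 ≤ a * y ^ 2 + y ^ 3 := by positivity
      linarith
    have h3 : Δ * (1 + y) ≤ ζ * D * (1 - a - y + a * y + y ^ 2) * (1 + y) := by
      refine h1.trans ?_
      have e1 := mul_le_mul_of_nonneg_left h2 hζD.le
      rw [← mul_assoc (ζ * D)] at e1
      exact e1
    have h4 : Δ ≤ ζ * D * (1 - a - y + a * y + y ^ 2) :=
      le_of_mul_le_mul_right h3 (by linarith)
    refine h4.trans (mul_le_mul_of_nonneg_left ?_ hζD.le)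
    have h5 : h * dm - C2 * ℓ ^ 3 ≤ y := le_max_left _ _
    have h6 : a * y ≤ (1 + β) * ℓ ^ 3 := by
      have : a * y ≤ ℓ ^ 2 * ((1 + β) * ℓ ^ 2) := mul_le_mul ha1 (hyd.trans hdm1) hy0 (by positivity)
      nlinarith
    have h7 : y ^ 2 ≤ (1 + β) ^ 2 * ℓ ^ 3 := by
      have e1 : y ^ 2 ≤ ((1 + β) * ℓ ^ 2) ^ 2 := pow_le_pow_left₀ hy0 (hyd.trans hdm1) 2
      have e2 : ((1 + β) * ℓ ^ 2) ^ 2 = (1 + β) ^ 2 * ℓ ^ 4 := by ring
      have e3 : (1 + β) ^ 2 * ℓ ^ 4 ≤ (1 + β) ^ 2 * ℓ ^ 3 :=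
        mul_le_mul_of_nonneg_left hℓ43 (by positivity)
      linarith
    nlinarith

private theorem DSite_unit {N : ℕ} (hN : 2 ≤ N) (g : E N) : ∃ e : E N, ‖e‖ = 1 ∧ g = ‖g‖ • e := by
  rcases eq_or_ne g 0 with h | h
  · refine ⟨EuclideanSpace.single ⟨0, by omega⟩ 1, by simp, ?_⟩
    rw [h]
    simp
  · have hg : ‖g‖ ≠ 0 := norm_ne_zero_iff.mpr h
    refine ⟨‖g‖⁻¹ • g, ?_, ?_⟩
    · rw [norm_smul, norm_inv, norm_norm, inv_mul_cancel₀ hg]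
    · rw [smul_smul, mul_inv_cancel₀ hg, one_smul]

theorem dsite (N : ℕ) (β : ℝ) (hN : 2 ≤ N) (hβ : 1 < β) :
    ∃ C h0 : ℝ, 0 < C ∧ 0 < h0 ∧ ∀ (h : ℝ) (ν : Measure (E N)), 0 < h → h < h0 → IsNoise h ν →
      ∀ g g' : E N, ‖g‖ ≤ rad β h → ‖g'‖ ≤ rad β h →
      ∃ (Q : E N ≃ₗᵢ[ℝ] E N) (e : E N) (K : Submodule ℝ (E N)), ‖e‖ = 1 ∧
        Module.finrank ℝ K = 2 ∧ e ∈ K ∧
        ∀ᵐ ξ ∂ν,
          ‖hat β h g ξ - hat β h g' (Q ξ)‖ ≤ ‖e + Real.sqrt h • ξ‖ * ‖g - g'‖ ∧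
          ‖hat β h g ξ - hat β h g' (Q ξ)‖ ≤ ‖e + Real.sqrt h • ξ‖ * ‖g - g'‖ *
            (1 - 1 / 2 * (1 - arf g g') *
                (h * ‖(Kᗮ).starProjection ξ‖ ^ 2 / ‖e + Real.sqrt h • ξ‖ ^ 2)
              - h * dmp β g g' + C * h ^ (9 / 8 : ℝ)) := by
  have hβ0 : 0 < β := by linarith
  obtain ⟨h1, hh1, hh1', hhb⟩ := hat_bounds N β hβ0
  have h2β : (0 : ℝ) ≤ 2 ^ β := Real.rpow_nonneg (by norm_num) _
  set c0 : ℝ := 1 / (2 * (1 + β)) with hc0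
  have hc00 : 0 < c0 := by positivity
  refine ⟨2 * β + β * (2 * β + 2 * (1 + β) * 2 ^ β) + (1 + β) + (1 + β) ^ 2,
    min h1 (c0 ^ (8 / 3 : ℝ)), by positivity, lt_min hh1 (Real.rpow_pos_of_pos hc00 _), ?_⟩
  intro h ν hh hlt hν g g' hg hg'
  have hlt1 : h < h1 := lt_of_lt_of_le hlt (min_le_left _ _)
  have hlt2 : h < c0 ^ (8 / 3 : ℝ) := lt_of_lt_of_le hlt (min_le_right _ _)
  have hh1x : h < 1 := by linarith
  obtain ⟨e, he, hge⟩ := DSite_unit hN g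
  obtain ⟨e', he', hge'⟩ := DSite_unit hN g'
  obtain ⟨Q, K, hK, heK, he'K, hQe, hQu⟩ := exists_rot hN e e' he he'
  refine ⟨Q, e, K, he, hK, heK, ?_⟩
  have hb1 := hhb h ν hh hlt1 hν g hg
  have hb2 := hhb h ν hh hlt1 hν g' hg'
  have hb3 : ∀ᵐ ξ ∂ν, ‖hat β h g' (Q ξ) - g'‖ ≤ 2 * h ^ (3 / 8 : ℝ) * ‖g'‖ ∧
        (1 - 2 * h ^ (3 / 8 : ℝ)) * ‖g'‖ ≤ ‖hat β h g' (Q ξ)‖ ∧
        ‖hat β h g' (Q ξ)‖ ≤ (1 + h ^ (3 / 8 : ℝ)) * ‖g'‖ ∧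
        (g' ≠ 0 → |Real.log ‖hat β h g' (Q ξ)‖ - Real.log ‖g'‖| ≤ 3 * h ^ (3 / 8 : ℝ)) ∧
        h ^ (3 / 8 : ℝ) ≤ 1 / 10 := by
    have hm : AEMeasurable (fun ξ : E N => Q ξ) ν := Q.continuous.measurable.aemeasurable
    have hi : ν.map (fun ξ : E N => Q ξ) = ν := hν.iso Q
    rw [← hi] at hb2
    exact ae_of_ae_map hm hb2
  set ℓ := h ^ (3 / 8 : ℝ) with hℓ
  have hℓ0 : 0 < ℓ := Real.rpow_pos_of_pos hh _
  have hℓ2 : ℓ ^ 2 = h ^ (3 / 4 : ℝ) := by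
    rw [hℓ, ← Real.rpow_natCast, ← Real.rpow_mul hh.le]
    norm_num
  have hℓ3 : ℓ ^ 3 = h ^ (9 / 8 : ℝ) := by
    rw [hℓ, ← Real.rpow_natCast, ← Real.rpow_mul hh.le]
    norm_num
  have hℓc : ℓ ≤ c0 := by
    have e1 : ℓ ≤ (c0 ^ (8 / 3 : ℝ)) ^ (3 / 8 : ℝ) :=
      Real.rpow_le_rpow hh.le hlt2.le (by norm_num)
    rw [← Real.rpow_mul hc00.le] at e1
    norm_num at e1
    exact e1
  have hℓβ : 2 * (1 + β) * ℓ ≤ 1 := by
    have e1 : 2 * (1 + β) * ℓ ≤ 2 * (1 + β) * c0 := mul_le_mul_of_nonneg_left hℓc (by positivity)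
    have e2 : 2 * (1 + β) * c0 = 1 := by
      rw [hc0]
      field_simp
    linarith
  filter_upwards [hb1, hb3, hν.bdd] with ξ hx1 hx2 hx3
  obtain ⟨-, hR1, hR2, -, hℓ1⟩ := hx1
  obtain ⟨-, hR1', hR2', -, -⟩ := hx2
  set u := e + Real.sqrt h • ξ with hu
  set ζ := ‖u‖ with hζ
  set r := ‖g‖ with hr
  set r' := ‖g'‖ with hr'
  set D := ‖g - g'‖ with hD
  have hsh : 0 ≤ Real.sqrt h := Real.sqrt_nonneg h
  have hsh2 : Real.sqrt h ^ 2 = h := Real.sq_sqrt hh.le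
  have hsξ : ‖Real.sqrt h • ξ‖ ≤ ℓ := by
    rw [norm_smul, Real.norm_of_nonneg hsh]
    exact hx3
  have hζ1 : 1 - ℓ ≤ ζ := by
    have e1 : ‖e‖ - ‖Real.sqrt h • ξ‖ ≤ ‖e + Real.sqrt h • ξ‖ := norm_sub_le_norm_add _ _
    rw [he] at e1
    linarith
  have hζ0 : 0 < ζ := by linarith
  have hr0 : 0 ≤ r := norm_nonneg _
  have hr0' : 0 ≤ r' := norm_nonneg _
  have hX : g + (Real.sqrt h * r) • ξ = r • u := by
    rw [hu, smul_add, smul_smul, mul_comm (Real.sqrt h) r]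
    congr 1
  have hQu' : Q u = e' + Real.sqrt h • Q ξ := by
    rw [hu, map_add, map_smul, hQe]
  have hX' : g' + (Real.sqrt h * r') • Q ξ = r' • Q u := by
    rw [hQu', smul_add, smul_smul, mul_comm (Real.sqrt h) r']
    congr 1
  have hJ : hat β h g ξ = J β h (r • u) := by
    unfold hat
    rw [← hX]
  have hJ' : hat β h g' (Q ξ) = J β h (r' • Q u) := by
    unfold hat
    rw [← hX']
  have hinner : ‖u - Q u‖ ^ 2 = 2 * ζ ^ 2 - 2 * inner ℝ u (Q u) := by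
    rw [norm_sub_sq_real, Q.norm_map]
    ring
  have hproj : (Kᗮ).starProjection u = Real.sqrt h • (Kᗮ).starProjection ξ := by
    rw [hu, map_add, map_smul]
    have : (Kᗮ).starProjection e = 0 := by
      rw [Submodule.starProjection_apply_eq_zero_iff]
      rwa [Submodule.orthogonal_orthogonal]
    rw [this, zero_add]
  set P2 := ‖(Kᗮ).starProjection ξ‖ ^ 2 with hP2
  have hprojn : ‖(Kᗮ).starProjection u‖ ^ 2 = h * P2 := by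
    rw [hproj, norm_smul, mul_pow, Real.norm_of_nonneg hsh, hsh2]
  have hXX : ‖r • u - r' • Q u‖ ^ 2 = (r - r') ^ 2 * ζ ^ 2 + r * r' * ‖u - Q u‖ ^ 2 := by
    rw [norm_sub_sq_real, norm_smul, norm_smul, Real.norm_of_nonneg hr0, Real.norm_of_nonneg hr0',
      Q.norm_map, real_inner_smul_left, real_inner_smul_right, hinner]
    ring
  have hee : r * r' * ‖e - e'‖ ^ 2 = D ^ 2 - (r - r') ^ 2 := by
    have e1 : D ^ 2 = r ^ 2 - 2 * (r * r' * inner ℝ e e') + r' ^ 2 := by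
      have e0 : g - g' = r • e - r' • e' := by rw [← hge, ← hge']
      rw [hD, e0, norm_sub_sq_real, norm_smul, norm_smul, Real.norm_of_nonneg hr0,
        Real.norm_of_nonneg hr0', real_inner_smul_left, real_inner_smul_right, he, he']
      ring
    rw [norm_sub_sq_real, he, he', e1]
    ring
  have hXX2 : ‖r • u - r' • Q u‖ ^ 2 = ζ ^ 2 * D ^ 2 - (D ^ 2 - (r - r') ^ 2) * (h * P2) := by
    rw [hXX, hQu u, hprojn, ← mul_assoc, hee, ← hζ]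
    ring
  have hDrr : (r - r') ^ 2 ≤ D ^ 2 := by
    have h1 := abs_norm_sub_norm_le g g'
    have h2 : |‖g‖ - ‖g'‖| ^ 2 ≤ ‖g - g'‖ ^ 2 := by
      apply pow_le_pow_left₀ (abs_nonneg _) h1
    rwa [sq_abs] at h2
  have hP20 : 0 ≤ P2 := sq_nonneg _
  have hXle : ‖r • u - r' • Q u‖ ≤ ζ * D := by
    apply le_of_sq_le_sq _ (by positivity)
    rw [hXX2, mul_pow]
    have : 0 ≤ (D ^ 2 - (r - r') ^ 2) * (h * P2) := mul_nonneg (by linarith) (by positivity)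
    linarith
  have hclaim1 : ‖hat β h g ξ - hat β h g' (Q ξ)‖ ≤ ζ * D := by
    rw [hJ, hJ']
    exact (J_nonexp hβ0 hh.le _ _).trans hXle
  refine ⟨hclaim1, ?_⟩
  rcases (norm_nonneg (g - g')).eq_or_lt with hD0 | hD0
  · have hD0' : D = 0 := hD0.symm
    rw [hD0'] at hclaim1 ⊢
    rw [mul_zero] at hclaim1
    rw [mul_zero, zero_mul]
    exact hclaim1
  · have hD0' : 0 < D := hD0
    have har := (arf_bounds g g').2
    have harE : arf g g' = (r - r') ^ 2 / D ^ 2 := rfl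
    have hPξ : h * P2 ≤ ℓ ^ 2 := by
      have e1 : ‖(Kᗮ).starProjection ξ‖ ≤ ‖ξ‖ := Submodule.norm_starProjection_apply_le _ _
      have e2 : P2 ≤ ‖ξ‖ ^ 2 := pow_le_pow_left₀ (norm_nonneg _) e1 2
      have e3 : (Real.sqrt h * ‖ξ‖) ^ 2 ≤ ℓ ^ 2 := pow_le_pow_left₀ (by positivity) hx3 2
      rw [mul_pow, hsh2] at e3
      exact (mul_le_mul_of_nonneg_left e2 hh.le).trans e3
    have hτ0 : 0 ≤ h * P2 / ζ ^ 2 := by positivity
    have hτ : h * P2 / ζ ^ 2 ≤ 2 * ℓ ^ 2 := by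
      rw [div_le_iff₀ (by positivity)]
      have e1 : (9 / 10 : ℝ) ≤ ζ := by linarith
      have e2 : (1 / 2 : ℝ) ≤ ζ ^ 2 := by nlinarith
      nlinarith [sq_nonneg ℓ]
    have hRn : ‖hat β h g ξ‖ = ‖J β h (r • u)‖ := by rw [hJ]
    have hRn' : ‖hat β h g' (Q ξ)‖ = ‖J β h (r' • Q u)‖ := by rw [hJ']
    have hrad := rad_facts hβ0 hh hh1x hr0 hg
    have hrad' := rad_facts hβ0 hh hh1x hr0' hg'
    have hcore := DSite_core (β := β) (h := h) (ℓ := ℓ) (r := r) (r' := r')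
      (R := ‖hat β h g ξ‖) (R' := ‖hat β h g' (Q ξ)‖)
      (Δ := ‖hat β h g ξ - hat β h g' (Q ξ)‖) (D := D) (ζ := ζ) (ar := arf g g')
      (τ := h * P2 / ζ ^ 2) (Y := ‖r • u - r' • Q u‖)
      hβ hh hℓ0 hℓ1 hℓβ hr0 hr0' (norm_nonneg _) (norm_nonneg _) hR1 hR2 hR1' hR2'
      (by rw [hℓ2]; exact hrad.2.2.1) (by rw [hℓ2]; exact hrad'.2.2.1) hD0' hζ0 (norm_nonneg _)
      hclaim1 harE har hτ0 hτ (norm_nonneg _) ?_ ?_ ?_
    · rw [← hℓ3]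
      exact hcore
    · rw [hXX2, harE]
      field_simp
    · intro hΔ
      rw [hJ, hJ'] at hΔ ⊢
      exact J_damp hβ0 hh.le _ _ (fun hc => by rw [hc, sub_self, norm_zero] at hΔ; exact lt_irrefl _ hΔ)
    · have e1 := J_lip_lower (N := N) hβ.le hh.le (r • u) (r' • u)
      have e2 : ‖r • u - r' • u‖ = |r - r'| * ζ := by
        rw [← sub_smul, norm_smul, Real.norm_eq_abs]
      have e3 : ‖J β h (r • u)‖ = ‖hat β h g ξ‖ := by rw [hJ]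
      have e4 : ‖J β h (r' • u)‖ = ‖hat β h g' (Q ξ)‖ := by
        rw [hJ', norm_J hβ0 hh.le, norm_J hβ0 hh.le, norm_smul, norm_smul, Q.norm_map]
      have e5 : ‖J β h (r • u) - J β h (r' • u)‖ ≤ |‖hat β h g ξ‖ - ‖hat β h g' (Q ξ)‖| := by
        rw [← e3, ← e4]
        have f1 : ∀ s : ℝ, 0 ≤ s → J β h (s • u) = (‖J β h (s • u)‖ / ζ) • u := by
          intro s hs
          rcases hs.eq_or_lt with hs0 | hs0
          · rw [← hs0, zero_smul, J_zero, norm_zero, zero_div, zero_smul]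
          · rw [norm_J hβ0 hh.le]
            unfold J
            rw [norm_smul, Real.norm_of_nonneg hs, smul_smul, ← hζ]
            congr 1
            field_simp
        rw [f1 r hr0, f1 r' hr0', ← sub_smul, norm_smul, Real.norm_eq_abs, ← hζ,
          norm_smul, norm_smul, ← hζ]
        have g1 : ∀ s : ℝ, 0 ≤ ‖J β h (s • u)‖ / ζ := fun s => by positivity
        rw [Real.norm_of_nonneg (g1 r), Real.norm_of_nonneg (g1 r'), ← sub_mul, abs_mul,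
          abs_of_pos hζ0]
      rw [e2, e3, e4] at e1
      refine e1.trans (mul_le_mul_of_nonneg_right e5 ?_)
      have : 0 ≤ (max ‖hat β h g ξ‖ ‖hat β h g' (Q ξ)‖) ^ β :=
        Real.rpow_nonneg (le_max_of_le_left (norm_nonneg _)) _
      positivity

end Dyn
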