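import Pool.Agent.Lib_MP_36b788.DSite
import Pool.Agent.Lib_MP_36b788.GSite

/-!
# DZONE: deterministic zone analysis of the drift of `log D̃ + g(r) + g(r')`

`X = ½(N-2)ar - (1-δ1)dmp + kapG(r) + kapG(r') + CD(δ1+1/B)`, `t = r^n/(r^n+R6^n)`, `s5 = r5²/(r²+r5²)`.

PROOF. `kapG(r) - ½(1-δ1)r^β = ¼nt(1-t) - ¼(N-2)(1-t) + ½r^β(1-t) - ½(1-δ1)r^β + ¼(N-2)s5
 = ¼nt(1-t) + ¼(N-2)t - ½r^β(t-δ1) - ¼(N-2)(1-s5) ≤ -¼(N-2)(1-s5) + e(r)`,
`e(r) = tC - ½r^β(t-δ1)`, `C = ¼(n+N-2)`. CLAIM `e(r) ≤ e0` for all `r ≥ 0`, `e0` as small as we like: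
let `Ra^β = 4C`. `r ≤ Ra`: `t ≤ (Ra/R6)^n`, so `e ≤ C(Ra/R6)^n + ½δ1Ra^β`. `Ra ≤ r ≤ R6`: `tC ≤ ¼r^βt`, so
`e ≤ ½δ1R6^β`. `r ≥ R6`: `t ≥ ½`, `e ≤ -¼r^βt+½δ1r^β ≤ 0` for `δ1 ≤ ¼`. Choose `R6` large, then `δ1` small.
Hence `X ≤ ½(N-2)ar - ¼(N-2)(2-s5-s5') - (1-δ1)β min^β ar + 2e0 + CD(δ1+1/B)`.
(i) `s5 ≤ 1`: `X ≤ ½(N-2)+1 ≤ N`. (ii) `min ≥ K r5`: `s5 ≤ 1/K²`: `X ≤ ½(N-2)(ar-1) + (N-2)/(2K²) + … ≤ e1` (`ar ≤ 1`).
(iii) also `min ≥ r2`: `X ≤ -½(N-2)(1-ar) - ½β r2^β ar + e1 ≤ -½min(1,βr2^β)+e1 ≤ -c2` as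
`e1 ≤ c2 = ¼min(1,βr2^β)` (`N-2 ≥ 1`).
(iv) `kapG(r) ≤ n/16 + ½r^β(1-t) + ¼(N-2)` and `r^β R6^n/(r^n+R6^n) ≤ R6^β` (`β ≤ n`).
-/

open MeasureTheory

namespace Dyn

noncomputable section

/-- contraction rate in the strong zone -/
def c2f (β r2 : ℝ) : ℝ := 1 / 4 * min 1 (β * r2 ^ β)

/-- drift of `log D̃ + g + g'` at a dominated site -/
def Xf (N : ℕ) (β CD δ1 B : ℝ) (n : ℕ) (R6 r5 : ℝ) (g g' : E N) : ℝ :=
  1 / 2 * (N - 2) * arf g g' - (1 - δ1) * dmp β g g' + kapG N β n R6 r5 ‖g‖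
    + kapG N β n R6 r5 ‖g'‖ + CD * (δ1 + 1 / B)

end

private theorem DZone_t (n : ℕ) (R6 r : ℝ) (h6 : 0 < R6) (hr : 0 ≤ r) :
    0 ≤ r ^ n / (r ^ n + R6 ^ n) ∧ r ^ n / (r ^ n + R6 ^ n) ≤ 1 ∧
      R6 ^ n / (r ^ n + R6 ^ n) = 1 - r ^ n / (r ^ n + R6 ^ n) := by
  have h1 : 0 ≤ r ^ n := pow_nonneg hr n
  have h2 : 0 < R6 ^ n := pow_pos h6 n
  have h3 : 0 < r ^ n + R6 ^ n := by linarith
  refine ⟨div_nonneg h1 h3.le, (div_le_one h3).2 (by linarith), ?_⟩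
  rw [eq_sub_iff_add_eq, ← add_div, add_comm, div_self h3.ne']

/-- the claim `e(r) ≤ e0` -/
private theorem DZone_e (β : ℝ) (hβ : 1 < β) (n : ℕ) (hn : β ≤ n) (C : ℝ) (hC : 1 ≤ 4 * C)
    (e0 : ℝ) (he0 : 0 < e0) : ∃ R6 : ℝ, 1 ≤ R6 ∧ ∀ δ1 : ℝ, 0 ≤ δ1 → δ1 ≤ 1 / 4 →
      δ1 * R6 ^ β ≤ e0 → ∀ r : ℝ, 0 ≤ r →
        r ^ n / (r ^ n + R6 ^ n) * C - 1 / 2 * r ^ β * (r ^ n / (r ^ n + R6 ^ n) - δ1) ≤ e0 := by
  have hβ0 : 0 < β := by linarith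
  have hC0 : 0 < C := by linarith
  have hn1 : 1 ≤ n := by
    have : (1 : ℝ) < n := by linarith
    exact_mod_cast this.le
  set Ra : ℝ := (4 * C) ^ (1 / β) with hRa
  have hRa1 : 1 ≤ Ra := Real.one_le_rpow hC (by positivity)
  have hRaβ : Ra ^ β = 4 * C := by
    rw [hRa, ← Real.rpow_mul (by linarith), one_div, inv_mul_cancel₀ hβ0.ne', Real.rpow_one]
  set q : ℝ := 1 + 2 * C / e0 with hq
  have hq1 : 1 ≤ q := by
    rw [hq]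
    have : 0 ≤ 2 * C / e0 := by positivity
    linarith
  have hR : Ra ≤ Ra * q := le_mul_of_one_le_right (by linarith) hq1
  refine ⟨Ra * q, by linarith, fun δ1 hδ0 hδ4 hδe r hr => ?_⟩
  set R6 : ℝ := Ra * q with hR6
  have h60 : 0 < R6 := by linarith
  obtain ⟨ht0, ht1, ht2⟩ := DZone_t n R6 r h60 hr
  set t : ℝ := r ^ n / (r ^ n + R6 ^ n) with ht
  have hrβ : 0 ≤ r ^ β := Real.rpow_nonneg hr β
  by_cases h1 : r ≤ Ra
  · have ht3 : t ≤ (Ra / R6) ^ n := by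
      rw [ht, div_pow]
      have h2 : 0 < R6 ^ n := pow_pos h60 n
      have h3 : r ^ n ≤ Ra ^ n := pow_le_pow_left₀ hr h1 n
      have h4 : 0 ≤ r ^ n := pow_nonneg hr n
      calc r ^ n / (r ^ n + R6 ^ n) ≤ r ^ n / R6 ^ n :=
            div_le_div_of_nonneg_left h4 h2 (by linarith)
        _ ≤ Ra ^ n / R6 ^ n := div_le_div_of_nonneg_right h3 h2.le
    have h5 : Ra / R6 = 1 / q := by
      rw [hR6]
      field_simp
    have h6 : (Ra / R6) ^ n ≤ 1 / q := by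
      rw [h5]
      have hq0 : 0 ≤ 1 / q := by positivity
      have hq2 : 1 / q ≤ 1 := by
        rw [div_le_one (by linarith)]
        exact hq1
      calc (1 / q) ^ n ≤ (1 / q) ^ 1 := pow_le_pow_of_le_one hq0 hq2 hn1
        _ = 1 / q := pow_one _
    have h7 : t * C ≤ e0 / 2 := by
      have h8 : t ≤ 1 / q := ht3.trans h6
      have h9 : 1 / q * C ≤ e0 / 2 := by
        rw [div_mul_eq_mul_div, one_mul, div_le_iff₀ (by linarith), hq]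
        have : e0 / 2 * (1 + 2 * C / e0) = e0 / 2 + C := by field_simp
        rw [this]
        linarith
      exact (mul_le_mul_of_nonneg_right h8 hC0.le).trans h9
    have h10 : r ^ β ≤ R6 ^ β := Real.rpow_le_rpow hr (by linarith) hβ0.le
    have h11 : r ^ β * δ1 ≤ e0 := by
      calc r ^ β * δ1 ≤ R6 ^ β * δ1 := mul_le_mul_of_nonneg_right h10 hδ0
        _ = δ1 * R6 ^ β := mul_comm _ _
        _ ≤ e0 := hδe
    have h12 : 0 ≤ r ^ β * t := mul_nonneg hrβ ht0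
    nlinarith
  · rw [not_le] at h1
    have h2 : 4 * C ≤ r ^ β := by
      rw [← hRaβ]
      exact Real.rpow_le_rpow (by linarith) h1.le hβ0.le
    have h3 : t * (4 * C) ≤ t * r ^ β := mul_le_mul_of_nonneg_left h2 ht0
    by_cases h4 : r ≤ R6
    · have h10 : r ^ β ≤ R6 ^ β := Real.rpow_le_rpow hr h4 hβ0.le
      have h11 : r ^ β * δ1 ≤ e0 := by
        calc r ^ β * δ1 ≤ R6 ^ β * δ1 := mul_le_mul_of_nonneg_right h10 hδ0
          _ = δ1 * R6 ^ β := mul_comm _ _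
          _ ≤ e0 := hδe
      have h12 : 0 ≤ r ^ β * t := mul_nonneg hrβ ht0
      nlinarith
    · rw [not_le] at h4
      have h5 : 1 / 2 ≤ t := by
        rw [ht, div_le_div_iff₀ (by norm_num) (by positivity)]
        have : R6 ^ n ≤ r ^ n := pow_le_pow_left₀ h60.le h4.le n
        linarith
      have h6 : r ^ β * (1 / 2) ≤ r ^ β * t := mul_le_mul_of_nonneg_left h5 hrβ
      have h7 : r ^ β * δ1 ≤ r ^ β * (1 / 4) := mul_le_mul_of_nonneg_left hδ4 hrβ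
      nlinarith

private theorem DZone_kap (N : ℕ) (β : ℝ) (n : ℕ) (R6 r5 r δ1 e0 : ℝ) (h6 : 0 < R6)
    (hr : 0 ≤ r)
    (h : r ^ n / (r ^ n + R6 ^ n) * (1 / 4 * (n + (N - 2))) -
      1 / 2 * r ^ β * (r ^ n / (r ^ n + R6 ^ n) - δ1) ≤ e0) :
    kapG N β n R6 r5 r - 1 / 2 * (1 - δ1) * r ^ β ≤
      e0 - 1 / 4 * (N - 2) * (1 - r5 ^ 2 / (r ^ 2 + r5 ^ 2)) := by
  obtain ⟨ht0, ht1, ht2⟩ := DZone_t n R6 r h6 hr
  unfold kapG
  rw [ht2]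
  set t : ℝ := r ^ n / (r ^ n + R6 ^ n) with ht
  set s : ℝ := r5 ^ 2 / (r ^ 2 + r5 ^ 2) with hs
  have h1 : 0 ≤ (n : ℝ) * (t * t) := by positivity
  nlinarith

theorem dzone (N : ℕ) (β r2 CD : ℝ) (hN : 3 ≤ N) (hβ : 1 < β) (hr2 : 0 < r2) (hr21 : r2 < 1)
    (hCD : 1 ≤ CD) (n : ℕ) (hn : β ≤ n) (e1 : ℝ) (he1 : 0 < e1) (he12 : e1 ≤ c2f β r2) :
    ∃ R6 δ1 B0 K : ℝ, 1 ≤ R6 ∧ 0 < δ1 ∧ δ1 ≤ 1 / 2 ∧ 1 ≤ B0 ∧ 1 ≤ K ∧
      ∀ B, B0 ≤ B → ∀ r5, 0 < r5 → r5 ≤ 1 → ∀ g g' : E N, g ≠ g' →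
        Xf N β CD δ1 B n R6 r5 g g' ≤ N ∧
        (K * r5 ≤ min ‖g‖ ‖g'‖ → Xf N β CD δ1 B n R6 r5 g g' ≤ e1) ∧
        (r2 ≤ min ‖g‖ ‖g'‖ → K * r5 ≤ r2 → Xf N β CD δ1 B n R6 r5 g g' ≤ -(c2f β r2)) := by
  have hNr : (1 : ℝ) ≤ (N : ℝ) - 2 := by
    have : (3 : ℝ) ≤ N := by exact_mod_cast hN
    linarith
  have hn1 : (1 : ℝ) < n := by linarith
  set e' : ℝ := min e1 1 with he'
  have he'0 : 0 < e' := lt_min he1 one_pos
  have he'1 : e' ≤ 1 := min_le_right _ _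
  have he'e : e' ≤ e1 := min_le_left _ _
  clear_value e'
  set C : ℝ := 1 / 4 * (n + (N - 2)) with hC
  obtain ⟨R6, hR61, hR6⟩ := DZone_e β hβ n hn C (by rw [hC]; linarith) (e' / 8) (by positivity)
  have hR60 : 0 < R6 := by linarith
  have hR6β : 0 < R6 ^ β := Real.rpow_pos_of_pos hR60 β
  set δ1 : ℝ := min (1 / 4) (min (e' / 8 / R6 ^ β) (e' / (4 * CD))) with hδ
  have hδ0 : 0 < δ1 := lt_min (by norm_num) (lt_min (by positivity) (by positivity))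
  have hδ4 : δ1 ≤ 1 / 4 := min_le_left _ _
  have hδ8 : δ1 * R6 ^ β ≤ e' / 8 := by
    have : δ1 ≤ e' / 8 / R6 ^ β := (min_le_right _ _).trans (min_le_left _ _)
    rwa [le_div_iff₀ hR6β] at this
  have hδC : CD * δ1 ≤ e' / 4 := by
    have : δ1 ≤ e' / (4 * CD) := (min_le_right _ _).trans (min_le_right _ _)
    rw [le_div_iff₀ (by positivity)] at this
    linarith
  clear_value δ1
  set B0 : ℝ := 4 * CD / e' with hB0
  have hB01 : 1 ≤ B0 := by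
    rw [hB0, one_le_div he'0]
    linarith
  set K : ℝ := 2 * (N - 2) / e' + 1 with hK
  have hK1 : 1 ≤ K := by
    rw [hK]
    have : 0 ≤ 2 * ((N : ℝ) - 2) / e' := div_nonneg (by linarith) he'0.le
    linarith
  have hKe : ((N : ℝ) - 2) * (1 / K ^ 2) ≤ e' / 2 := by
    have h1 : 2 * ((N : ℝ) - 2) ≤ e' * K := by
      have : e' * K = 2 * (N - 2) + e' := by
        rw [hK]
        field_simp
      rw [this]
      linarith
    have h2 : K ≤ K ^ 2 := by nlinarith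
    rw [mul_one_div, div_le_iff₀ (by positivity)]
    nlinarith
  have hB0C : 4 * CD ≤ e' * B0 := by
    rw [hB0]
    field_simp
    exact le_refl _
  clear_value B0 K
  refine ⟨R6, δ1, B0, K, hR61, hδ0, by linarith, hB01, hK1, ?_⟩
  intro B hB r5 hr5 hr51 g g' _
  obtain ⟨ha0, ha1⟩ := arf_bounds g g'
  set a : ℝ := arf g g' with ha
  have hr : 0 ≤ ‖g‖ := norm_nonneg g
  have hr' : 0 ≤ ‖g'‖ := norm_nonneg g'
  have hk := DZone_kap N β n R6 r5 ‖g‖ δ1 (e' / 8) hR60 hr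
    (hR6 δ1 hδ0.le hδ4 hδ8 ‖g‖ hr)
  have hk' := DZone_kap N β n R6 r5 ‖g'‖ δ1 (e' / 8) hR60 hr'
    (hR6 δ1 hδ0.le hδ4 hδ8 ‖g'‖ hr')
  have hBC : CD * (1 / B) ≤ e' / 4 := by
    have hBpos : 0 < B := by linarith
    rw [mul_one_div, div_le_iff₀ hBpos]
    have h1 : e' * B0 ≤ e' * B := mul_le_mul_of_nonneg_left hB he'0.le
    linarith
  set m : ℝ := min ‖g‖ ‖g'‖ with hm
  have hm0 : 0 ≤ m := le_min hr hr'
  have hmβ : 0 ≤ m ^ β := Real.rpow_nonneg hm0 β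
  set s : ℝ := r5 ^ 2 / (‖g‖ ^ 2 + r5 ^ 2) with hs
  set s' : ℝ := r5 ^ 2 / (‖g'‖ ^ 2 + r5 ^ 2) with hs'
  have hX : Xf N β CD δ1 B n R6 r5 g g' ≤ 1 / 2 * (N - 2) * a - 1 / 4 * (N - 2) * (1 - s)
      - 1 / 4 * (N - 2) * (1 - s') - (1 - δ1) * (β * m ^ β * a) + 3 / 4 * e' := by
    unfold Xf dmp
    rw [← ha, ← hm]
    have hexp : (1 - δ1) * (1 / 2 * (‖g‖ ^ β + ‖g'‖ ^ β) + β * m ^ β * a) =
        1 / 2 * (1 - δ1) * ‖g‖ ^ β + 1 / 2 * (1 - δ1) * ‖g'‖ ^ β + (1 - δ1) * (β * m ^ β * a) := by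
      ring
    rw [hexp, mul_add]
    linarith
  have hs1 : s ≤ 1 := by
    rw [hs, div_le_one (by positivity)]
    exact le_add_of_nonneg_left (sq_nonneg _)
  have hs1' : s' ≤ 1 := by
    rw [hs', div_le_one (by positivity)]
    exact le_add_of_nonneg_left (sq_nonneg _)
  clear hk hk'
  clear_value s s' a m
  have hd : 0 ≤ (1 - δ1) * (β * m ^ β * a) :=
    mul_nonneg (by linarith) (mul_nonneg (mul_nonneg (by linarith) hmβ) ha0)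
  have hsK : ∀ x : ℝ, K * r5 ≤ x → r5 ^ 2 / (x ^ 2 + r5 ^ 2) ≤ 1 / K ^ 2 := by
    intro x hx
    have h1 : (K * r5) ^ 2 ≤ x ^ 2 := pow_le_pow_left₀ (by positivity) hx 2
    rw [div_le_div_iff₀ (by positivity) (by positivity)]
    calc r5 ^ 2 * K ^ 2 = (K * r5) ^ 2 := by ring
      _ ≤ x ^ 2 := h1
      _ ≤ 1 * (x ^ 2 + r5 ^ 2) := by linarith [sq_nonneg r5]
  have hmg : m ≤ ‖g‖ := by rw [hm]; exact min_le_left _ _
  have hmg' : m ≤ ‖g'‖ := by rw [hm]; exact min_le_right _ _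
  have hzone : K * r5 ≤ m → Xf N β CD δ1 B n R6 r5 g g' ≤ 1 / 2 * (N - 2) * (a - 1)
      - (1 - δ1) * (β * m ^ β * a) + e' := by
    intro hKm
    have h1 : s ≤ 1 / K ^ 2 := by rw [hs]; exact hsK _ (hKm.trans hmg)
    have h2 : s' ≤ 1 / K ^ 2 := by rw [hs']; exact hsK _ (hKm.trans hmg')
    have h3 : ((N : ℝ) - 2) * s ≤ e' / 2 :=
      (mul_le_mul_of_nonneg_left h1 (by linarith)).trans hKe
    have h4 : ((N : ℝ) - 2) * s' ≤ e' / 2 :=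
      (mul_le_mul_of_nonneg_left h2 (by linarith)).trans hKe
    have h5 : 1 / 4 * ((N : ℝ) - 2) * (1 - s) = 1 / 4 * (N - 2) - 1 / 4 * ((N - 2) * s) := by ring
    have h6 : 1 / 4 * ((N : ℝ) - 2) * (1 - s') = 1 / 4 * (N - 2) - 1 / 4 * ((N - 2) * s') := by ring
    have h7 : 1 / 2 * ((N : ℝ) - 2) * (a - 1) = 1 / 2 * (N - 2) * a - 1 / 2 * (N - 2) := by ring
    rw [h5, h6] at hX
    rw [h7]
    linarith
  refine ⟨?_, ?_, ?_⟩
  · have h1 : ((N : ℝ) - 2) * a ≤ (N - 2) := mul_le_of_le_one_right (by linarith) ha1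
    have h2 : 0 ≤ ((N : ℝ) - 2) * (1 - s) := mul_nonneg (by linarith) (by linarith)
    have h3 : 0 ≤ ((N : ℝ) - 2) * (1 - s') := mul_nonneg (by linarith) (by linarith)
    linarith
  · intro hKm
    have h1 := hzone hKm
    have h2 : ((N : ℝ) - 2) * (a - 1) ≤ 0 := mul_nonpos_of_nonneg_of_nonpos (by linarith)
      (by linarith)
    linarith
  · intro hr2m hKr
    have h1 := hzone (hKr.trans hr2m)
    have h2 : r2 ^ β ≤ m ^ β := Real.rpow_le_rpow hr2.le hr2m (by linarith)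
    have h3 : 1 / 2 * (β * r2 ^ β * a) ≤ (1 - δ1) * (β * m ^ β * a) := by
      have h4 : β * r2 ^ β * a ≤ β * m ^ β * a :=
        mul_le_mul_of_nonneg_right (mul_le_mul_of_nonneg_left h2 (by linarith)) ha0
      have h5 : 0 ≤ β * m ^ β * a := mul_nonneg (mul_nonneg (by linarith) hmβ) ha0
      have h6 : 1 / 2 * (β * m ^ β * a) ≤ (1 - δ1) * (β * m ^ β * a) :=
        mul_le_mul_of_nonneg_right (by linarith) h5
      linarith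
    have h4 : 1 - a ≤ ((N : ℝ) - 2) * (1 - a) := le_mul_of_one_le_left (by linarith) hNr
    have h5 : c2f β r2 = 1 / 4 * min 1 (β * r2 ^ β) := rfl
    have h6 : min 1 (β * r2 ^ β) ≤ 1 := min_le_left _ _
    have h7 : min 1 (β * r2 ^ β) ≤ β * r2 ^ β := min_le_right _ _
    have h8 : min 1 (β * r2 ^ β) ≤ (1 - a) * 1 + a * (β * r2 ^ β) := by
      have h9 : (1 - a) * min 1 (β * r2 ^ β) ≤ (1 - a) * 1 :=
        mul_le_mul_of_nonneg_left h6 (by linarith)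
      have h10 : a * min 1 (β * r2 ^ β) ≤ a * (β * r2 ^ β) :=
        mul_le_mul_of_nonneg_left h7 ha0
      have h11 : (1 - a) * min 1 (β * r2 ^ β) + a * min 1 (β * r2 ^ β) = min 1 (β * r2 ^ β) := by
        ring
      linarith
    rw [h5] at he12 ⊢
    have h12 : 1 / 2 * ((N : ℝ) - 2) * (a - 1) = -(1 / 2 * (((N : ℝ) - 2) * (1 - a))) := by ring
    have h13 : a * (β * r2 ^ β) = β * r2 ^ β * a := by ring
    rw [h12] at h1
    rw [h13] at h8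
    linarith

theorem kapG_bdd (N : ℕ) (β : ℝ) (hN : 2 ≤ N) (hβ : 1 < β) (n : ℕ) (hn : β ≤ n) (R6 : ℝ)
    (h6 : 1 ≤ R6) : ∃ C8 : ℝ, 0 < C8 ∧ ∀ r5 r : ℝ, 0 < r5 → 0 ≤ r → kapG N β n R6 r5 r ≤ C8 := by
  have hNr : (0 : ℝ) ≤ (N : ℝ) - 2 := by
    have : (2 : ℝ) ≤ N := by exact_mod_cast hN
    linarith
  have h60 : 0 < R6 := by linarith
  have hR6β : 0 < R6 ^ β := Real.rpow_pos_of_pos h60 β
  refine ⟨1 / 4 * n + 1 / 2 * R6 ^ β + 1 / 4 * (N - 2) + 1, by positivity, ?_⟩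
  intro r5 r hr5 hr
  obtain ⟨ht0, ht1, ht2⟩ := DZone_t n R6 r h60 hr
  have hrβ : 0 ≤ r ^ β := Real.rpow_nonneg hr β
  have hden : 0 < r ^ n + R6 ^ n := by
    have := pow_nonneg hr n
    have := pow_pos h60 n
    linarith
  have hkey : r ^ β * (R6 ^ n / (r ^ n + R6 ^ n)) ≤ R6 ^ β := by
    by_cases h : r ≤ R6
    · have h1 : r ^ β ≤ R6 ^ β := Real.rpow_le_rpow hr h (by linarith)
      have h2 : R6 ^ n / (r ^ n + R6 ^ n) ≤ 1 := by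
        rw [ht2]
        linarith
      have h3 : 0 ≤ R6 ^ n / (r ^ n + R6 ^ n) := by
        rw [ht2]
        linarith
      calc r ^ β * (R6 ^ n / (r ^ n + R6 ^ n)) ≤ R6 ^ β * 1 :=
            mul_le_mul h1 h2 h3 hR6β.le
        _ = R6 ^ β := mul_one _
    · rw [not_le] at h
      have hr0 : 0 < r := by linarith
      rw [mul_div_assoc', div_le_iff₀ hden]
      have h1 : r ^ n = r ^ β * r ^ ((n : ℝ) - β) := by
        rw [← Real.rpow_add hr0, add_sub_cancel, Real.rpow_natCast]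
      have h2 : R6 ^ n = R6 ^ β * R6 ^ ((n : ℝ) - β) := by
        rw [← Real.rpow_add h60, add_sub_cancel, Real.rpow_natCast]
      have h3 : R6 ^ ((n : ℝ) - β) ≤ r ^ ((n : ℝ) - β) :=
        Real.rpow_le_rpow h60.le h.le (by linarith)
      have h4 : r ^ β * R6 ^ n ≤ R6 ^ β * r ^ n := by
        rw [h1, h2]
        have h5 : 0 ≤ r ^ β * R6 ^ β := mul_nonneg hrβ hR6β.le
        calc r ^ β * (R6 ^ β * R6 ^ ((n : ℝ) - β)) = r ^ β * R6 ^ β * R6 ^ ((n : ℝ) - β) := by ring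
          _ ≤ r ^ β * R6 ^ β * r ^ ((n : ℝ) - β) := mul_le_mul_of_nonneg_left h3 h5
          _ = R6 ^ β * (r ^ β * r ^ ((n : ℝ) - β)) := by ring
      have h5 : 0 ≤ R6 ^ β * R6 ^ n := mul_nonneg hR6β.le (pow_nonneg h60.le n)
      rw [mul_add]
      linarith
  unfold kapG
  have hs1 : r5 ^ 2 / (r ^ 2 + r5 ^ 2) ≤ 1 := by
    rw [div_le_one (by positivity)]
    exact le_add_of_nonneg_left (sq_nonneg _)
  have h1 : ((N : ℝ) - 2) * (r5 ^ 2 / (r ^ 2 + r5 ^ 2)) ≤ (N - 2) :=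
    mul_le_of_le_one_right hNr hs1
  rw [ht2] at hkey ⊢
  set t : ℝ := r ^ n / (r ^ n + R6 ^ n) with ht
  have h2 : (n : ℝ) * t * (1 - t) ≤ n := by
    have h3 : t * (1 - t) ≤ 1 := by nlinarith
    calc (n : ℝ) * t * (1 - t) = n * (t * (1 - t)) := by ring
      _ ≤ n := mul_le_of_le_one_right (Nat.cast_nonneg _) h3
  have h3 : 0 ≤ ((N : ℝ) - 2) * (1 - t) := mul_nonneg hNr (by linarith)
  nlinarith

end Dyn
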