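import Mathlib

/-!
# MP_36b788_pr, shared definitions

Nonlinear cell dynamo on a finite net, Euler chain with implicit damping.
Site value `g : E N`, time step `h`, noise `ξ : E N`.
-/

open MeasureTheory

namespace Dyn

noncomputable section

/-- the value space of one site -/
abbrev E (N : ℕ) := EuclideanSpace ℝ (Fin N)

/-! ## Damping map -/

/-- `psi β h v` is the nonnegative solution `t` of `t + h t^(1+β) = v` (for `v ≥ 0`, `h ≥ 0`). -/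
def psi (β h v : ℝ) : ℝ := sSup {t : ℝ | 0 ≤ t ∧ t + h * t ^ (1 + β) ≤ v}

/-- the resolvent `J = (id + h b)⁻¹`, `b(u) = ‖u‖^β u` -/
def J {N : ℕ} (β h : ℝ) (v : E N) : E N := (psi β h ‖v‖ / ‖v‖) • v

/-- one step of a single site without interaction: `Ĝ = J (g + √h ‖g‖ ξ)` -/
def hat {N : ℕ} (β h : ℝ) (g ξ : E N) : E N := J β h (g + (Real.sqrt h * ‖g‖) • ξ)

/-! ## Noise -/

/-- isotropic bounded noise (a truncated standard Gaussian) -/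
structure IsNoise {N : ℕ} (h : ℝ) (ν : Measure (E N)) : Prop where
  prob : IsProbabilityMeasure ν
  iso : ∀ L : E N ≃ₗᵢ[ℝ] E N, ν.map L = ν
  bdd : ∀ᵐ ξ ∂ν, Real.sqrt h * ‖ξ‖ ≤ h ^ (3 / 8 : ℝ)
  mom_le : ∫ ξ, ‖ξ‖ ^ 2 ∂ν ≤ N
  le_mom : (N : ℝ) * (1 - h) ≤ ∫ ξ, ‖ξ‖ ^ 2 ∂ν

/-- radius of alive states: `r ≤ h^(-1/8)` and `r^β ≤ h^(-1/4)` -/
def rad (β h : ℝ) : ℝ := min (h ^ (-(1 / 8) : ℝ)) (h ^ (-(1 / (4 * β)) : ℝ))

/-! ## Finite nets -/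

/-- finite graph with distance; boxes of `ℤ^d` are the examples -/
structure Net (ι : Type) [Fintype ι] (d : ℕ) where
  nb : ι → Finset ι
  dist : ι → ι → ℕ
  nb_symm : ∀ x y, y ∈ nb x → x ∈ nb y
  nb_card : ∀ x, (nb x).card ≤ 2 * d
  dist_self : ∀ x, dist x x = 0
  dist_pos : ∀ x y, x ≠ y → 1 ≤ dist x y
  dist_comm : ∀ x y, dist x y = dist y x
  dist_tri : ∀ x y z, dist x z ≤ dist x y + dist y z
  dist_nb : ∀ x y, y ∈ nb x → dist x y = 1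
  toward : ∀ x z, z ≠ x → ∃ w ∈ nb z, dist x w + 1 = dist x z
  sum_half : ∀ x, ∑ z, (1 / 2 : ℝ) ^ dist x z ≤ 3 ^ d

/-! ## One site functions -/

/-- cut off: `0` for `r ≤ r1`, `1` for `r ≥ e r1` -/
def om (r1 r : ℝ) : ℝ := Real.smoothTransition (Real.log (r / r1))

/-- cut off corrector `c~(g) = ω(r) y(r) g/r` -/
def ctil {N : ℕ} (r1 : ℝ) (y : ℝ → ℝ) (g : E N) : E N := (om r1 ‖g‖ * y ‖g‖ / ‖g‖) • g

/-- bounded increasing function `1 - (1+r)^(-s)` -/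
def th (s r : ℝ) : ℝ := 1 - (1 + r) ^ (-s)

/-- exponent of the potential `h1` -/
def epsE (β : ℝ) : ℝ := min (β - 1) 1

/-- exponent `γ = β - ε = max 1 (β-1)` -/
def gam (β : ℝ) : ℝ := β - epsE β

/-- logistic function `r^{3/2}/(1+r^{3/2})` -/
def tt (r : ℝ) : ℝ := r ^ (3 / 2 : ℝ) / (1 + r ^ (3 / 2 : ℝ))

/-- `M(r) = √r Q(r)`, `Q = e^{-r}/√r + (b/√r1) t(r/r1) + th(β-1, r/Rc)`, `b = 1/(32N)` -/
def MM (N : ℕ) (β r1 Rc r : ℝ) : ℝ :=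
  Real.exp (-r) + Real.sqrt r *
    ((1 / (32 * N)) / Real.sqrt r1 * tt (r / r1) + th (β - 1) (r / Rc))

/-- weight `m(r) = M(r)^{-4}` -/
def mm (N : ℕ) (β r1 Rc r : ℝ) : ℝ := (MM N β r1 Rc r) ^ (-4 : ℤ)

/-- `g(r) = (1/(2n)) log(r^n + R6^n) - (1/4) log(r^2 + r5^2)` -/
def gf (n : ℕ) (R6 r5 r : ℝ) : ℝ :=
  1 / (2 * n) * Real.log (r ^ n + R6 ^ n) - 1 / 4 * Real.log (r ^ 2 + r5 ^ 2)

end

end Dyn
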