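import Pool.Agent.Lib_MP_36b788.CharExt

/-!
# FDDC: convergence of the exponentials gives convergence of finite dimensional distributions

PROOF. `atTop` on `ℝ≥0` is countably generated: it is enough to treat sequences `t_n → ∞` (`tendsto_of_seq_tendsto`). Laws of
`(K t_n q)_{q∈I}` and of `f|_I`, transported to the inner product space `V = PiLp 2 (fun _ : I => E N)` (or `EuclideanSpace ℝ (I × Fin N)`) by a
linear homeomorphism `e`: the characteristic functions converge, `ProbabilityMeasure.tendsto_of_tendsto_charFun`, and then integrals of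
the bounded continuous function `g ∘ e⁻¹` converge (`ProbabilityMeasure.tendsto_iff_forall_integral_rclike_tendsto ℂ`).
-/

open MeasureTheory ProbabilityTheory Filter
open scoped NNReal ENNReal Topology

namespace Dyn

/-- restriction to `I` as an element of the inner product space -/
private noncomputable def FddC_r {A : Type} {N : ℕ} (I : Finset A) (f : A → E N) :
    PiLp 2 (fun _ : I => E N) := WithLp.toLp 2 (fun q : I => f q)

private theorem FddC_r_meas {A : Type} {N : ℕ} (I : Finset A) :
    Measurable (FddC_r (N := N) I) := by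
  unfold FddC_r
  have h1 : Continuous fun x : (I → E N) => (WithLp.toLp 2 x : PiLp 2 (fun _ : I => E N)) :=
    PiLp.continuous_toLp 2 _
  refine h1.measurable.comp ?_
  exact measurable_pi_lambda _ fun q => measurable_pi_apply _

private theorem FddC_char {A : Type} {N : ℕ} {Ω : Type} [MeasurableSpace Ω] (P : Measure Ω)
    (I : Finset A) (X : Ω → A → E N) (hX : ∀ q, Measurable fun ω => X ω q)
    (w : PiLp 2 (fun _ : I => E N)) (u : A → E N) (hu : ∀ q : I, u q = w q) :
    charFun (P.map fun ω => FddC_r I (X ω)) w = ∫ ω, ech I u (X ω) ∂P := by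
  have hm : Measurable fun ω => FddC_r I (X ω) :=
    (FddC_r_meas I).comp (measurable_pi_lambda _ hX)
  rw [charFun_apply, integral_map hm.aemeasurable]
  · refine integral_congr_ae (Eventually.of_forall fun ω => ?_)
    show Complex.exp ((inner ℝ (FddC_r I (X ω)) w : ℝ) * Complex.I) = ech I u (X ω)
    unfold ech
    rw [mul_comm]
    congr 3
    rw [PiLp.inner_apply, ← Finset.sum_coe_sort I]
    refine Finset.sum_congr rfl fun q _ => ?_
    rw [hu q, real_inner_comm]
    rfl
  · refine Continuous.aestronglyMeasurable ?_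
    fun_prop

theorem fdd_of_char {A : Type} {N : ℕ} {Ω : Type} [MeasurableSpace Ω] {P : Measure Ω}
    [IsProbabilityMeasure P] (K : ℝ≥0 → A → Ω → E N) (hK : ∀ t q, Measurable (K t q))
    (μ : Measure (A → E N)) [IsProbabilityMeasure μ]
    (h : ∀ I u, Tendsto (fun t => ∫ ω, ech I u (fun q => K t q ω) ∂P) atTop
      (𝓝 (∫ f, ech I u f ∂μ)))
    (I : Finset A) (g : (I → E N) → ℂ) (hg : Continuous g) (hb : ∃ C, ∀ x, ‖g x‖ ≤ C) :
    Tendsto (fun t => ∫ ω, g (fun q => K t q ω) ∂P) atTop (𝓝 (∫ f, g (fun q => f q) ∂μ)) := by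
  classical
  obtain ⟨C, hC⟩ := hb
  refine tendsto_of_seq_tendsto fun x hx => ?_
  have hm : ∀ t : ℝ≥0, Measurable fun ω => FddC_r I (fun q => K t q ω) := fun t =>
    (FddC_r_meas I).comp (measurable_pi_lambda _ fun q => hK t q)
  have hm0 : Measurable fun f : A → E N => FddC_r I f := FddC_r_meas I
  have p1 : ∀ t : ℝ≥0, IsProbabilityMeasure (P.map fun ω => FddC_r I (fun q => K t q ω)) :=
    fun t => Measure.isProbabilityMeasure_map (hm t).aemeasurable
  have p2 : IsProbabilityMeasure (μ.map fun f : A → E N => FddC_r I f) :=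
    Measure.isProbabilityMeasure_map hm0.aemeasurable
  obtain ⟨κ, hκ⟩ : ∃ κ : ℕ → ProbabilityMeasure (PiLp 2 (fun _ : I => E N)), ∀ n,
      (κ n : Measure (PiLp 2 (fun _ : I => E N))) =
        P.map fun ω => FddC_r I (fun q => K (x n) q ω) :=
    ⟨fun n => ⟨_, p1 (x n)⟩, fun n => rfl⟩
  obtain ⟨κ0, hκ0⟩ : ∃ κ0 : ProbabilityMeasure (PiLp 2 (fun _ : I => E N)),
      (κ0 : Measure (PiLp 2 (fun _ : I => E N))) = μ.map fun f : A → E N => FddC_r I f :=
    ⟨⟨_, p2⟩, rfl⟩
  have ht : Tendsto κ atTop (𝓝 κ0) := by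
    refine ProbabilityMeasure.tendsto_of_tendsto_charFun fun w => ?_
    obtain ⟨u, hu⟩ : ∃ u : A → E N, ∀ q : I, u q = w q :=
      ⟨fun q => if hq : q ∈ I then w ⟨q, hq⟩ else 0, fun q => by simp [q.2]⟩
    have h1 := (h I u).comp hx
    have h2 : charFun (μ.map fun f : A → E N => FddC_r I f) w = ∫ f, ech I u f ∂μ :=
      FddC_char μ I (fun f => f) (fun q => measurable_pi_apply q) w u hu
    rw [hκ0, h2]
    refine h1.congr fun n => ?_
    rw [hκ]
    exact (FddC_char P I (fun ω q => K (x n) q ω) (fun q => hK (x n) q) w u hu).symm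
  rw [ProbabilityMeasure.tendsto_iff_forall_integral_rclike_tendsto ℂ] at ht
  have hgc : Continuous fun v : PiLp 2 (fun _ : I => E N) => g (WithLp.ofLp v) :=
    hg.comp (PiLp.continuous_ofLp 2 _)
  have h3 := ht (BoundedContinuousFunction.ofNormedAddCommGroup
    (fun v : PiLp 2 (fun _ : I => E N) => g (WithLp.ofLp v)) hgc C fun v => hC _)
  rw [hκ0, integral_map hm0.aemeasurable
    (BoundedContinuousFunction.continuous _).aestronglyMeasurable] at h3
  refine h3.congr fun n => ?_
  rw [hκ, integral_map (hm (x n)).aemeasurable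
    (BoundedContinuousFunction.continuous _).aestronglyMeasurable]
  rfl

end Dyn
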