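import Pool.Agent.Lib_MP_36b788.Sde

/-!
# SDEA: scaling, spatial shift
PROOF. `scale`: multiply every identity by `ε^{1/β}`: `‖ε^{1/β}H‖^β = ε‖H‖^β`, everything else is linear.
`shift`: reindex. `indepInc`: the σ-algebra generated by the shifted family is the same (bijection of the index set).
`iIndepFun` of a reindexed family (injective reindexing).
-/

open MeasureTheory ProbabilityTheory
open scoped NNReal ENNReal Topology

namespace Dyn

theorem SdeA_mulv {N : ℕ} (b : Fin N → Fin N → ℝ) (a : ℝ) (v : E N) :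
    mulv b (a • v) = a • mulv b v := by
  unfold mulv
  ext i
  simp only [PiLp.smul_apply, smul_eq_mul, Finset.mul_sum]
  exact Finset.sum_congr rfl fun j _ => by ring

theorem SdeA_rsum {Ω : Type} {N d : ℕ} (B : Site d → Fin N → Fin N → ℝ≥0 → Ω → ℝ)
    (H : ℝ≥0 → Site d → Ω → E N) (a : ℝ) (x : Site d) (s t : ℝ≥0) (n : ℕ) (ω : Ω) :
    rsum B (fun t x ω => a • H t x ω) x s t n ω = a • rsum B H x s t n ω := by
  unfold rsum
  rw [Finset.smul_sum]
  exact Finset.sum_congr rfl fun i _ => SdeA_mulv _ _ _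

theorem SdeA_lap {N d : ℕ} (f : Site d → E N) (a : ℝ) (x : Site d) :
    lap (fun y => a • f y) x = a • lap f x := by
  unfold lap
  rw [Finset.smul_sum]
  exact Finset.sum_congr rfl fun i _ => by rw [smul_add, smul_sub, smul_sub]

theorem SdeA_drf {N d : ℕ} {k ε β : ℝ} (hε : 0 < ε) (hβ : 0 < β) (f : Site d → E N)
    (x : Site d) : drf k 1 β (fun y => (ε ^ (1 / β)) • f y) x =
      (ε ^ (1 / β)) • drf k ε β f x := by
  unfold drf
  have h0 : (0 : ℝ) ≤ ε ^ (1 / β) := Real.rpow_nonneg hε.le _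
  have h1 : (ε ^ (1 / β)) ^ β = ε := by
    rw [← Real.rpow_mul hε.le, one_div_mul_cancel hβ.ne', Real.rpow_one]
  rw [SdeA_lap, norm_smul, Real.norm_eq_abs, abs_of_nonneg h0, Real.mul_rpow h0 (norm_nonneg _),
    h1, smul_sub, one_mul, smul_smul, smul_smul, smul_smul, smul_smul, mul_comm k, mul_comm
    (ε * ‖f x‖ ^ β)]

theorem SdeA_drf_shift {N d : ℕ} {k ε β : ℝ} (f : Site d → E N) (x c : Site d) :
    drf k ε β (fun y => f (y + c)) x = drf k ε β f (x + c) := by
  unfold drf lap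
  have h1 : ∀ v : Site d, x + v + c = x + c + v := fun v => add_right_comm _ _ _
  have h2 : ∀ v : Site d, x - v + c = x + c - v := fun v => by abel
  simp only [h1, h2]


theorem dynamo_scale {Ω : Type} [mΩ : MeasurableSpace Ω] {P : Measure Ω} {N d : ℕ} {k ε β : ℝ}
    {ℱ : Filtration ℝ≥0 mΩ} {B : Site d → Fin N → Fin N → ℝ≥0 → Ω → ℝ}
    {H : ℝ≥0 → Site d → Ω → E N} (hε : 0 < ε) (hβ : 0 < β) (hH : IsDynamo P k ε β ℱ B H) :
    IsDynamo P k 1 β ℱ B (fun t x ω => (ε ^ (1 / β)) • H t x ω) := by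
  obtain ⟨a, ha⟩ : ∃ a : ℝ, a = ε ^ (1 / β) := ⟨_, rfl⟩
  have hdrf := fun (f : Site d → E N) (x : Site d) => SdeA_drf (k := k) hε hβ f x
  rw [← ha] at hdrf ⊢
  refine ⟨hH.prob, hH.brownian, hH.indep, hH.adaptB, hH.indepInc, ?_, ?_, ?_, ?_⟩
  · exact fun t x => (hH.adapted t x).const_smul a
  · intro x
    filter_upwards [hH.cont x] with ω hω
    exact hω.const_smul a
  · intro p T
    obtain ⟨C, hC⟩ := hH.moments p T
    refine ⟨|a| ^ p * C, fun t ht x => ?_⟩
    obtain ⟨h1, h2⟩ := hC t ht x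
    have h3 : (fun ω => ‖a • H t x ω‖ ^ p) = fun ω => |a| ^ p * ‖H t x ω‖ ^ p := by
      funext ω
      rw [norm_smul, mul_pow, Real.norm_eq_abs]
    rw [h3]
    refine ⟨h1.const_mul _, ?_⟩
    rw [integral_const_mul]
    exact mul_le_mul_of_nonneg_left h2 (by positivity)
  · intro x s t hst
    have h1 := hH.ito x s t hst
    have h2 : ∀ n : ℕ, (fun ω => a • H t x ω - a • H s x ω
        - (∫ r in (s : ℝ)..t, drf k 1 β (fun y => a • H r.toNNReal y ω) x)
        - rsum B (fun t x ω => a • H t x ω) x s t n ω) =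
        a • (fun ω => H t x ω - H s x ω
        - (∫ r in (s : ℝ)..t, drf k ε β (fun y => H r.toNNReal y ω) x)
        - rsum B H x s t n ω) := by
      intro n
      funext ω
      simp only [hdrf, Pi.smul_apply]
      rw [SdeA_rsum, intervalIntegral.integral_smul, smul_sub, smul_sub, smul_sub]
    simp only [h2, eLpNorm_const_smul]
    have h3 := ENNReal.Tendsto.const_mul (a := ‖a‖ₑ) h1 (Or.inr enorm_ne_top)
    rwa [mul_zero] at h3

theorem dynamo_shift {Ω : Type} [mΩ : MeasurableSpace Ω] {P : Measure Ω} {N d : ℕ} {k ε β : ℝ}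
    {ℱ : Filtration ℝ≥0 mΩ} {B : Site d → Fin N → Fin N → ℝ≥0 → Ω → ℝ}
    {H : ℝ≥0 → Site d → Ω → E N} (hH : IsDynamo P k ε β ℱ B H) (c : Site d) :
    IsDynamo P k ε β ℱ (fun x => B (x + c)) (fun t x => H t (x + c)) := by
  refine ⟨hH.prob, fun x => hH.brownian (x + c), ?_, fun x => hH.adaptB (x + c), ?_,
    fun t x => hH.adapted t (x + c), fun x => hH.cont (x + c), ?_, ?_⟩
  · have hg : Function.Injective (fun q : Site d × Fin N × Fin N =>
        ((q.1 + c, q.2.1, q.2.2) : Site d × Fin N × Fin N)) := by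
      rintro ⟨x, i, j⟩ ⟨x', i', j'⟩ h
      simp only [Prod.mk.injEq, add_left_inj] at h
      obtain ⟨rfl, rfl, rfl⟩ := h
      rfl
    exact hH.indep.precomp hg
  · intro s t hst
    refine indep_of_indep_of_le_right (hH.indepInc s t hst) ?_
    obtain ⟨F, hF⟩ : ∃ F : Ω → (Site d × Fin N × Fin N → ℝ), F = fun ω q =>
      B q.1 q.2.1 q.2.2 t ω - B q.1 q.2.1 q.2.2 s ω := ⟨_, rfl⟩
    obtain ⟨r, hr⟩ : ∃ r : (Site d × Fin N × Fin N → ℝ) → (Site d × Fin N × Fin N → ℝ),
      r = fun f q => f (q.1 + c, q.2.1, q.2.2) := ⟨_, rfl⟩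
    have hrm : Measurable r := by
      rw [hr]
      exact measurable_pi_lambda _ fun q => measurable_pi_apply _
    have h1 : (fun (ω : Ω) (q : Site d × Fin N × Fin N) =>
        B (q.1 + c) q.2.1 q.2.2 t ω - B (q.1 + c) q.2.1 q.2.2 s ω) = r ∘ F := by
      rw [hr, hF]
      rfl
    rw [h1, ← hF, ← MeasurableSpace.comap_comp]
    exact MeasurableSpace.comap_mono hrm.comap_le
  · intro p T
    obtain ⟨C, hC⟩ := hH.moments p T
    exact ⟨C, fun t ht x => hC t ht (x + c)⟩
  · intro x s t hst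
    have h1 := hH.ito (x + c) s t hst
    have h2 : ∀ (r : ℝ≥0) (ω : Ω), drf k ε β (fun y => H r (y + c) ω) x =
        drf k ε β (fun y => H r y ω) (x + c) := fun r ω =>
      SdeA_drf_shift (fun y => H r y ω) x c
    simp only [h2]
    exact h1

theorem init_shift {Ω : Type} [MeasurableSpace Ω] {P : Measure Ω} {N d : ℕ}
    {H0 : Site d → Ω → E N} (hH : IsInit P H0) (c : Site d) : IsInit P (fun x => H0 (x + c)) := by
  refine ⟨hH.iid.precomp (add_left_injective c), fun x => (hH.ident (x + c)).trans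
    (hH.ident (0 + c)).symm, ?_⟩
  have h1 := (hH.ident (0 + c)).measure_mem_eq (measurableSet_singleton (0 : E N))
  have h2 : P {ω | H0 (0 + c) ω = 0} = P {ω | H0 0 ω = 0} := h1
  rw [h2]
  exact hH.ne

theorem init_scale {Ω : Type} [MeasurableSpace Ω] {P : Measure Ω} {N d : ℕ}
    {H0 : Site d → Ω → E N} (hH : IsInit P H0) (a : ℝ) (ha : a ≠ 0)
    (hm : ∀ x, Measurable (H0 x)) : IsInit P (fun x ω => a • H0 x ω) := by
  refine ⟨?_, ?_, ?_⟩
  · exact hH.iid.comp (fun _ v => a • v) (fun _ => measurable_const_smul a)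
  · exact fun x => (hH.ident x).comp (measurable_const_smul a)
  · have h1 : {ω | a • H0 0 ω = 0} = {ω | H0 0 ω = 0} := by
      ext ω
      simp [ha]
    rw [h1]
    exact hH.ne

end Dyn
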