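import Pool.Agent.Lib_MP_36b788.SdeStep

/-!
# SDELAW: the Euler chain driven by Brownian increments is the Gaussian chain

PROOF. `law_path`: induction on `M`, for all `n1, Z, F`. `List.range (M+1) = 0 :: (range M).map succ`, so
`pathE ((range (M+1)).map F) G = F 0 G * ∫ pathE ((range M).map (F ∘ succ)) (stp G ξ)`. Left side for `M+1`:
`∫ (Z F_0(rc n1)) Π_{i<M} F_{i+1}(rc (n1+1+i))`; induction hypothesis with `n1+1`, `Z' = Z·F_0(rc n1)` (`ℱ(n1 h)`-measurable,
hence `ℱ((n1+1)h)`-measurable), `F' = F ∘ succ`; then step_law with `Z'` and `Ψ = pathE … F'` (pathE_facts).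
`law_chain`: both are probability measures on `boxS d L → E N`; induction on `n`: for `n = 0`: `IsInit` (`iid` restricted to the
box, `iIndepFun_iff_map_fun_eq_pi_map`, `ident`). Step: for every measurable set `S` take `Ψ = 1_S`, `Z = 1` in step_law; the
right side is `∫∫1_S(stp G ξ)dξ dLaw(rc n)(G)` = `chainLaw (n+1) S` by the induction hypothesis.
-/

open MeasureTheory ProbabilityTheory
open scoped NNReal ENNReal Topology

namespace Dyn

private theorem SdeLaw_rcmeas {Ω : Type} [mΩ : MeasurableSpace Ω] {P : Measure Ω} {N d : ℕ}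
    {k ε β : ℝ} {ℱ : Filtration ℝ≥0 mΩ} {B : Site d → Fin N → Fin N → ℝ≥0 → Ω → ℝ}
    {H : ℝ≥0 → Site d → Ω → E N} (hβ : 0 < β) (hH : IsDynamo P k ε β ℱ B H)
    (h : ℝ≥0) (L n : ℕ) : Measurable (rc β k h L B (H 0) n) :=
  (rc_adapted hβ hH h L n).mono (ℱ.le _) le_rfl

theorem law_path {Ω : Type} [mΩ : MeasurableSpace Ω] {P : Measure Ω} {N d : ℕ} {k ε β : ℝ}
    {ℱ : Filtration ℝ≥0 mΩ} {B : Site d → Fin N → Fin N → ℝ≥0 → Ω → ℝ}
    {H : ℝ≥0 → Site d → Ω → E N} (hβ : 0 < β) (hH : IsDynamo P k ε β ℱ B H)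
    (h : ℝ≥0) (L n1 M : ℕ) (F : ℕ → (boxS d L → E N) → ℂ) (hm : ∀ i, Measurable (F i))
    (hb : ∀ i G, ‖F i G‖ ≤ 1) (Z : Ω → ℂ) (hZ : Measurable[ℱ (n1 * h)] Z)
    (hZ1 : ∀ ω, ‖Z ω‖ ≤ 1) :
    ∫ ω, Z ω * ∏ i ∈ Finset.range M, F i (rc β k h L B (H 0) (n1 + i) ω) ∂P =
      ∫ ω, Z ω * pathE (boxNet d L) β h k (stdGaussian (E N)) ((List.range M).map F)
        (rc β k h L B (H 0) n1 ω) ∂P := by
  induction M generalizing n1 F Z with
  | zero =>
    refine integral_congr_ae (Filter.Eventually.of_forall fun ω => ?_)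
    show Z ω * ∏ i ∈ Finset.range 0, F i (rc β k h L B (H 0) (n1 + i) ω) = Z ω * 1
    simp
  | succ M ih =>
    have hmono : ℱ ((n1 : ℝ≥0) * h) ≤ ℱ (((n1 + 1 : ℕ) : ℝ≥0) * h) := by
      refine ℱ.mono ?_
      refine mul_le_mul_left ?_ h
      exact_mod_cast Nat.le_succ n1
    have hrc := rc_adapted hβ hH h L n1
    have hZ' : Measurable[ℱ ((n1 : ℝ≥0) * h)]
        (fun ω => Z ω * F 0 (rc β k h L B (H 0) n1 ω)) :=
      hZ.mul ((hm 0).comp hrc)
    have hZ'' : Measurable[ℱ (((n1 + 1 : ℕ) : ℝ≥0) * h)]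
        (fun ω => Z ω * F 0 (rc β k h L B (H 0) n1 ω)) := hZ'.mono hmono le_rfl
    have hZ1' : ∀ ω, ‖Z ω * F 0 (rc β k h L B (H 0) n1 ω)‖ ≤ 1 := fun ω => by
      rw [norm_mul]
      exact mul_le_one₀ (hZ1 ω) (norm_nonneg _) (hb 0 _)
    have h1 := ih (n1 + 1) (fun i => F (i + 1)) (fun i => hm (i + 1)) (fun i G => hb (i + 1) G)
      (fun ω => Z ω * F 0 (rc β k h L B (H 0) n1 ω)) hZ'' hZ1'
    obtain ⟨hp1, hp2⟩ := pathE_facts (net := boxNet d L) (k := k) (ν := stdGaussian (E N)) hβ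
      (NNReal.coe_nonneg h) ((List.range M).map (fun i => F (i + 1)))
      (by
        intro f hf
        obtain ⟨i, _, rfl⟩ := List.mem_map.mp hf
        exact hm (i + 1))
      (by
        intro f hf
        obtain ⟨i, _, rfl⟩ := List.mem_map.mp hf
        exact hb (i + 1))
    have h2 := step_law hβ hH h L n1 _ hp1 hp2
      (fun ω => Z ω * F 0 (rc β k h L B (H 0) n1 ω)) hZ' hZ1'
    have h3 : ∫ ω, Z ω * ∏ i ∈ Finset.range (M + 1), F i (rc β k h L B (H 0) (n1 + i) ω) ∂P =
        ∫ ω, (Z ω * F 0 (rc β k h L B (H 0) n1 ω)) *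
          ∏ i ∈ Finset.range M, F (i + 1) (rc β k h L B (H 0) (n1 + 1 + i) ω) ∂P := by
      refine integral_congr_ae (Filter.Eventually.of_forall fun ω => ?_)
      show Z ω * ∏ i ∈ Finset.range (M + 1), F i (rc β k h L B (H 0) (n1 + i) ω) =
        (Z ω * F 0 (rc β k h L B (H 0) n1 ω)) *
          ∏ i ∈ Finset.range M, F (i + 1) (rc β k h L B (H 0) (n1 + 1 + i) ω)
      rw [Finset.prod_range_succ']
      have h4 : ∀ i, n1 + (i + 1) = n1 + 1 + i := fun i => by ring
      have h6 : ∏ i ∈ Finset.range M, F (i + 1) (rc β k h L B (H 0) (n1 + (i + 1)) ω) =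
          ∏ i ∈ Finset.range M, F (i + 1) (rc β k h L B (H 0) (n1 + 1 + i) ω) :=
        Finset.prod_congr rfl fun i _ => by rw [h4 i]
      rw [h6, Nat.add_zero]
      generalize ∏ i ∈ Finset.range M, F (i + 1) (rc β k h L B (H 0) (n1 + 1 + i) ω) = Q
      generalize F 0 (rc β k h L B (H 0) n1 ω) = R
      ring
    rw [h3, h1, h2]
    refine integral_congr_ae (Filter.Eventually.of_forall fun ω => ?_)
    have h5 : (List.range (M + 1)).map F = F 0 :: (List.range M).map (fun i => F (i + 1)) := by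
      rw [List.range_succ_eq_map, List.map_cons, List.map_map]
      rfl
    show (Z ω * F 0 (rc β k h L B (H 0) n1 ω)) * _ =
      Z ω * pathE (boxNet d L) β h k (stdGaussian (E N)) ((List.range (M + 1)).map F)
        (rc β k h L B (H 0) n1 ω)
    rw [h5]
    show (Z ω * F 0 (rc β k h L B (H 0) n1 ω)) * _ =
      Z ω * (F 0 (rc β k h L B (H 0) n1 ω) * _)
    rw [mul_assoc]

theorem law_chain {Ω : Type} [mΩ : MeasurableSpace Ω] {P : Measure Ω} {N d : ℕ} {k ε β : ℝ}
    {ℱ : Filtration ℝ≥0 mΩ} {B : Site d → Fin N → Fin N → ℝ≥0 → Ω → ℝ}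
    {H : ℝ≥0 → Site d → Ω → E N} (hβ : 0 < β) (hH : IsDynamo P k ε β ℱ B H)
    (hI : IsInit P (H 0)) (h : ℝ≥0) (L n : ℕ) :
    P.map (rc β k h L B (H 0) n) =
      chainLaw (boxNet d L) β h k (stdGaussian (E N)) (Measure.pi (fun _ => P.map (H 0 0))) n := by
  have hP := hH.prob
  have hHm : ∀ x, Measurable (H 0 x) := fun x => (hH.adapted 0 x).mono (ℱ.le _) le_rfl
  induction n with
  | zero =>
    show P.map (fun ω => fun x : boxS d L => H 0 (x : Site d) ω) =
      Measure.pi (fun _ => P.map (H 0 0))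
    have h1 : iIndepFun (fun x : boxS d L => H 0 (x : Site d)) P :=
      hI.iid.precomp Subtype.val_injective
    have h2 := (iIndepFun_iff_map_fun_eq_pi_map
      (fun x : boxS d L => (hHm (x : Site d)).aemeasurable)).mp h1
    rw [h2]
    congr 1
    funext x
    exact (hI.ident x).map_eq
  | succ n ih =>
    have hrc := SdeLaw_rcmeas hβ hH h L n
    have hrc1 := SdeLaw_rcmeas hβ hH h L (n + 1)
    have hpim : IsProbabilityMeasure (pim (boxS d L) (stdGaussian (E N))) := by
      unfold pim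
      infer_instance
    have hst := (stp_continuous (N := N) hβ (NNReal.coe_nonneg h) k (boxNet d L)).measurable
    have hPn : IsProbabilityMeasure (P.map (rc β k h L B (H 0) n)) :=
      Measure.isProbabilityMeasure_map hrc.aemeasurable
    have hPn1 : IsProbabilityMeasure (P.map (rc β k h L B (H 0) (n + 1))) :=
      Measure.isProbabilityMeasure_map hrc1.aemeasurable
    have hch : chainLaw (boxNet d L) β h k (stdGaussian (E N))
        (Measure.pi (fun _ => P.map (H 0 0))) (n + 1) =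
        ((P.map (rc β k h L B (H 0) n)).prod (pim (boxS d L) (stdGaussian (E N)))).map
          (fun q => stp (boxNet d L) β h k q.1 q.2) := by
      rw [ih]
      rfl
    rw [hch]
    have hPr : IsProbabilityMeasure (((P.map (rc β k h L B (H 0) n)).prod
        (pim (boxS d L) (stdGaussian (E N)))).map (fun q => stp (boxNet d L) β h k q.1 q.2)) :=
      Measure.isProbabilityMeasure_map hst.aemeasurable
    refine Measure.ext fun S hS => ?_
    rw [← measureReal_eq_measureReal_iff]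
    let Ψ : (boxS d L → E N) → ℂ := S.indicator (fun _ => (1 : ℂ))
    have hΨ : Measurable Ψ := measurable_const.indicator hS
    have hΨ1 : ∀ G, ‖Ψ G‖ ≤ 1 := fun G => by
      show ‖S.indicator (fun _ => (1 : ℂ)) G‖ ≤ 1
      by_cases hG : G ∈ S
      · rw [Set.indicator_of_mem hG]; simp
      · rw [Set.indicator_of_notMem hG]; simp
    have e1 := step_law hβ hH h L n Ψ hΨ hΨ1 (fun _ => 1) measurable_const (fun _ => by simp)
    simp only [one_mul] at e1
    have e2 : ∫ G, Ψ G ∂(P.map (rc β k h L B (H 0) (n + 1))) =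
        ∫ G, Ψ G ∂(((P.map (rc β k h L B (H 0) n)).prod
        (pim (boxS d L) (stdGaussian (E N)))).map (fun q => stp (boxNet d L) β h k q.1 q.2)) := by
      rw [integral_map hrc1.aemeasurable hΨ.aestronglyMeasurable, e1,
        integral_map hst.aemeasurable hΨ.aestronglyMeasurable]
      have hi : Integrable (fun q : (boxS d L → E N) × (boxS d L → E N) =>
          Ψ (stp (boxNet d L) β h k q.1 q.2))
          ((P.map (rc β k h L B (H 0) n)).prod (pim (boxS d L) (stdGaussian (E N)))) :=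
        Integrable.of_bound (C := 1) (hΨ.comp hst).aestronglyMeasurable
          (Filter.Eventually.of_forall fun q => hΨ1 _)
      rw [integral_prod _ hi]
      have hmeas : Measurable (fun G : boxS d L → E N =>
          ∫ ξ, Ψ (stp (boxNet d L) β h k G ξ) ∂(pim (boxS d L) (stdGaussian (E N)))) :=
        (StronglyMeasurable.integral_prod_right' (ν := pim (boxS d L) (stdGaussian (E N)))
          (hΨ.comp hst).stronglyMeasurable).measurable
      rw [integral_map hrc.aemeasurable hmeas.aestronglyMeasurable]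
    have e3 : ∀ μ : Measure (boxS d L → E N), ∫ G, Ψ G ∂μ = (μ.real S : ℂ) := by
      intro μ
      show ∫ G, S.indicator (fun _ => (1 : ℂ)) G ∂μ = _
      rw [integral_indicator_const _ hS]
      simp
    rw [e3, e3] at e2
    exact_mod_cast e2

end Dyn
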