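import Pool.Agent.Lib_MP_36b788.Psi

/-!
# JMAP: the resolvent `J` and the one-site step `hat`

PROOF. All from the facts of `Psi.lean`.
* `J_eq`: `J v = (ψ/‖v‖) v`, `‖J v‖ = ψ`, and `ψ + h ψ^(1+β) = ‖v‖`.
* `J_damp`: put `u = J v, u' = J w, b(u) = ‖u‖^β u`. Then `v - w = (u-u') + h (b(u)-b(u'))`, so
  `‖v-w‖² = ‖u-u'‖² + 2h⟪b(u)-b(u'),u-u'⟫ + h²‖b(u)-b(u')‖² ≥ ‖u-u'‖² (1 + h κ)²`,
  `κ = ⟪b(u)-b(u'),u-u'⟫/‖u-u'‖²` (Cauchy-Schwarz for the last term), and the exact identity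
  `⟪b(u)-b(u'),u-u'⟫ = ½(R^β+R'^β)‖u-u'‖² + ½(R^β-R'^β)(R²-R'²)`, `R=‖u‖`, `R'=‖u'‖`
  (expand both sides with `‖u-u'‖² = R²+R'²-2⟪u,u'⟫`).
  The second summand is `≥ 0`, hence `J_nonexp` (case `u = u'` trivial).
* `J_lip_lower`: `‖v-w‖ ≤ ‖u-u'‖ + h ‖b(u)-b(u')‖` and
  `‖b(u)-b(u')‖ ≤ (1+β) max(R,R')^β ‖u-u'‖` (mean value along the segment; or: for `R' ≤ R`,
  `b(u)-b(u') = R^β (u-u') + (R^β-R'^β) u'`, and `(R^β-R'^β) R' ≤ β R^β |R-R'|` for every `β>0`: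
  for `β ≥ 1` by the mean value theorem `R^β-R'^β ≤ β R^(β-1)(R-R')`; only `β ≥ 1` is needed).
-/

open MeasureTheory

namespace Dyn

variable {N : ℕ} {β h : ℝ}

theorem norm_J (hβ : 0 < β) (hh : 0 ≤ h) (v : E N) : ‖J β h v‖ = psi β h ‖v‖ := by
  unfold J
  rw [norm_smul, Real.norm_eq_abs, abs_of_nonneg (div_nonneg (psi_nonneg _ _ _) (norm_nonneg _))]
  by_cases hv : ‖v‖ = 0
  · rw [hv, psi_zero hβ hh]; simp
  · field_simp

theorem J_zero (β h : ℝ) : J β h (0 : E N) = 0 := by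
  simp [J]

theorem J_eq (hβ : 0 < β) (hh : 0 ≤ h) (v : E N) :
    J β h v + (h * ‖J β h v‖ ^ β) • J β h v = v := by
  rcases eq_or_ne v 0 with rfl | hv
  · simp [J_zero]
  · have hn : 0 < ‖v‖ := norm_pos_iff.mpr hv
    have hp := psi_pos hβ hh hn
    have he := psi_eq hβ hh hn.le
    rw [norm_J hβ hh, J, smul_smul, ← add_smul]
    rw [Real.rpow_add hp, Real.rpow_one] at he
    have : psi β h ‖v‖ / ‖v‖ + h * psi β h ‖v‖ ^ β * (psi β h ‖v‖ / ‖v‖) = 1 := by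
      field_simp
      linarith
    rw [this, one_smul]

theorem J_unique (hβ : 0 < β) (hh : 0 ≤ h) {u v : E N} (he : u + (h * ‖u‖ ^ β) • u = v) :
    J β h v = u := by
  rcases eq_or_ne u 0 with rfl | hu
  · have : v = 0 := by rw [← he]; simp
    rw [this, J_zero]
  · have hn : 0 < ‖u‖ := norm_pos_iff.mpr hu
    have hc : 0 < 1 + h * ‖u‖ ^ β := by positivity
    have hv : v = (1 + h * ‖u‖ ^ β) • u := by rw [← he, add_smul, one_smul]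
    have hnv : ‖v‖ = (1 + h * ‖u‖ ^ β) * ‖u‖ := by
      rw [hv, norm_smul, Real.norm_eq_abs, abs_of_pos hc]
    have hps : psi β h ‖v‖ = ‖u‖ := by
      apply psi_unique hβ hh hn.le
      rw [hnv, Real.rpow_add hn, Real.rpow_one]
      ring
    rw [J, hps, hnv]
    conv_lhs => rw [hv]
    rw [smul_smul]
    have : ‖u‖ / ((1 + h * ‖u‖ ^ β) * ‖u‖) * (1 + h * ‖u‖ ^ β) = 1 := by
      field_simp
    rw [this, one_smul]

/-- inner product of the difference of `b` -/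
theorem b_inner (β : ℝ) (u u' : E N) :
    inner ℝ (‖u‖ ^ β • u - ‖u'‖ ^ β • u') (u - u')
      = 1 / 2 * (‖u‖ ^ β + ‖u'‖ ^ β) * ‖u - u'‖ ^ 2
        + 1 / 2 * (‖u‖ ^ β - ‖u'‖ ^ β) * (‖u‖ ^ 2 - ‖u'‖ ^ 2) := by
  rw [norm_sub_sq_real, inner_sub_left, inner_sub_right, inner_sub_right, real_inner_smul_left,
    real_inner_smul_left, real_inner_smul_left, real_inner_smul_left,
    real_inner_self_eq_norm_sq, real_inner_self_eq_norm_sq, real_inner_comm u u']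
  ring

/-- key inner product bound -/
private lemma JMap_inner (hβ : 0 < β) (hh : 0 ≤ h) (v w : E N) :
    ‖J β h v - J β h w‖ ^ 2 + h * (1 / 2 * (‖J β h v‖ ^ β + ‖J β h w‖ ^ β)
        * ‖J β h v - J β h w‖ ^ 2
        + 1 / 2 * (‖J β h v‖ ^ β - ‖J β h w‖ ^ β) * (‖J β h v‖ ^ 2 - ‖J β h w‖ ^ 2))
      ≤ ‖v - w‖ * ‖J β h v - J β h w‖ := by
  have h1 := J_eq hβ hh v
  have h2 := J_eq hβ hh w
  set u := J β h v with hu
  set u' := J β h w with hu'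
  have h3 : v - w = (u - u') + h • (‖u‖ ^ β • u - ‖u'‖ ^ β • u') := by
    rw [← h1, ← h2, smul_sub, smul_smul, smul_smul]
    abel
  rw [← b_inner]
  have h4 := real_inner_le_norm (v - w) (u - u')
  refine le_trans (le_of_eq ?_) h4
  conv_rhs => rw [h3]
  rw [inner_add_left, real_inner_smul_left, real_inner_self_eq_norm_sq]

private lemma JMap_mono (hβ : 0 < β) (u u' : E N) :
    0 ≤ (‖u‖ ^ β - ‖u'‖ ^ β) * (‖u‖ ^ 2 - ‖u'‖ ^ 2) := by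
  rcases le_total ‖u‖ ‖u'‖ with hle | hle
  · have h1 := Real.rpow_le_rpow (norm_nonneg u) hle hβ.le
    have h2 := pow_le_pow_left₀ (norm_nonneg u) hle 2
    nlinarith
  · have h1 := Real.rpow_le_rpow (norm_nonneg u') hle hβ.le
    have h2 := pow_le_pow_left₀ (norm_nonneg u') hle 2
    nlinarith

theorem J_nonexp (hβ : 0 < β) (hh : 0 ≤ h) (v w : E N) : ‖J β h v - J β h w‖ ≤ ‖v - w‖ := by
  rcases eq_or_lt_of_le (norm_nonneg (J β h v - J β h w)) with h0 | h0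
  · rw [← h0]; positivity
  · have h1 := JMap_inner hβ hh v w
    have h2 := JMap_mono hβ (J β h v) (J β h w)
    have h3 : 0 ≤ ‖J β h v‖ ^ β := by positivity
    have h4 : 0 ≤ ‖J β h w‖ ^ β := by positivity
    have h5 : ‖J β h v - J β h w‖ ^ 2 ≤ ‖v - w‖ * ‖J β h v - J β h w‖ := by
      refine le_trans ?_ h1
      have : 0 ≤ h * (1 / 2 * (‖J β h v‖ ^ β + ‖J β h w‖ ^ β)
        * ‖J β h v - J β h w‖ ^ 2
        + 1 / 2 * (‖J β h v‖ ^ β - ‖J β h w‖ ^ β) * (‖J β h v‖ ^ 2 - ‖J β h w‖ ^ 2)) := by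
        apply mul_nonneg hh
        have : 0 ≤ 1 / 2 * (‖J β h v‖ ^ β + ‖J β h w‖ ^ β) * ‖J β h v - J β h w‖ ^ 2 := by
          positivity
        linarith
      linarith
    rw [sq] at h5
    exact le_of_mul_le_mul_right h5 h0

theorem J_damp (hβ : 0 < β) (hh : 0 ≤ h) (v w : E N) (hne : J β h v ≠ J β h w) :
    ‖J β h v - J β h w‖ *
      (1 + h * (1 / 2 * (‖J β h v‖ ^ β + ‖J β h w‖ ^ β)
        + 1 / 2 * (‖J β h v‖ ^ β - ‖J β h w‖ ^ β) * (‖J β h v‖ ^ 2 - ‖J β h w‖ ^ 2)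
          / ‖J β h v - J β h w‖ ^ 2)) ≤ ‖v - w‖ := by
  have h0 : 0 < ‖J β h v - J β h w‖ := norm_pos_iff.mpr (sub_ne_zero.mpr hne)
  have h1 := JMap_inner hβ hh v w
  refine le_of_mul_le_mul_right (le_trans (le_of_eq ?_) h1) h0
  field_simp

private lemma JMap_bdiff_aux (hβ : 1 ≤ β) (u u' : E N) (hle : ‖u'‖ ≤ ‖u‖) :
    ‖‖u‖ ^ β • u - ‖u'‖ ^ β • u'‖ ≤ (1 + β) * ‖u‖ ^ β * ‖u - u'‖ := by
  have hβ0 : 0 < β := by linarith
  have hsp : ‖u‖ ^ β • u - ‖u'‖ ^ β • u' = ‖u‖ ^ β • (u - u') + (‖u‖ ^ β - ‖u'‖ ^ β) • u' := by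
    rw [smul_sub, sub_smul]; abel
  have hd : 0 ≤ ‖u‖ ^ β - ‖u'‖ ^ β :=
    sub_nonneg.mpr (Real.rpow_le_rpow (norm_nonneg _) hle hβ0.le)
  have hR : ‖u‖ - ‖u'‖ ≤ ‖u - u'‖ := norm_sub_norm_le u u'
  have key : (‖u‖ ^ β - ‖u'‖ ^ β) * ‖u'‖ ≤ β * ‖u‖ ^ β * (‖u‖ - ‖u'‖) := by
    rcases eq_or_lt_of_le (norm_nonneg u) with h0 | h0
    · have h1 : ‖u'‖ = 0 := le_antisymm (by rw [h0]; exact hle) (norm_nonneg _)
      rw [← h0, h1]; simp
    · set t := ‖u'‖ / ‖u‖ with ht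
      have ht0 : 0 ≤ t := by positivity
      have ht1 : t ≤ 1 := by rw [ht, div_le_one h0]; exact hle
      have hu' : ‖u'‖ = t * ‖u‖ := by rw [ht]; field_simp
      have hber := one_add_mul_self_le_rpow_one_add (s := t - 1) (by linarith) hβ
      rw [add_sub_cancel] at hber
      have e1 : ‖u'‖ ^ β = t ^ β * ‖u‖ ^ β := by rw [hu', Real.mul_rpow ht0 h0.le]
      rw [e1, hu']
      have hp : 0 < ‖u‖ ^ β := by positivity
      have h2 : (1 - t ^ β) * t ≤ β * (1 - t) := by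
        have h3 : 1 - t ^ β ≤ β * (1 - t) := by nlinarith
        have h4 : 0 ≤ β * (1 - t) := mul_nonneg hβ0.le (by linarith)
        calc (1 - t ^ β) * t ≤ β * (1 - t) * t := by gcongr
          _ ≤ β * (1 - t) * 1 := by gcongr
          _ = β * (1 - t) := mul_one _
      have h5 : (‖u‖ ^ β - t ^ β * ‖u‖ ^ β) * (t * ‖u‖)
          = ((1 - t ^ β) * t) * (‖u‖ ^ β * ‖u‖) := by ring
      have h6 : β * ‖u‖ ^ β * (‖u‖ - t * ‖u‖) = (β * (1 - t)) * (‖u‖ ^ β * ‖u‖) := by ring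
      rw [h5, h6]
      gcongr
  calc ‖‖u‖ ^ β • u - ‖u'‖ ^ β • u'‖
      = ‖‖u‖ ^ β • (u - u') + (‖u‖ ^ β - ‖u'‖ ^ β) • u'‖ := by rw [hsp]
    _ ≤ ‖‖u‖ ^ β • (u - u')‖ + ‖(‖u‖ ^ β - ‖u'‖ ^ β) • u'‖ := norm_add_le _ _
    _ = ‖u‖ ^ β * ‖u - u'‖ + (‖u‖ ^ β - ‖u'‖ ^ β) * ‖u'‖ := by
        rw [norm_smul, norm_smul, Real.norm_eq_abs, Real.norm_eq_abs, abs_of_nonneg hd,
          abs_of_nonneg (Real.rpow_nonneg (norm_nonneg _) _)]
    _ ≤ ‖u‖ ^ β * ‖u - u'‖ + β * ‖u‖ ^ β * (‖u‖ - ‖u'‖) := by linarith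
    _ ≤ ‖u‖ ^ β * ‖u - u'‖ + β * ‖u‖ ^ β * ‖u - u'‖ := by gcongr
    _ = (1 + β) * ‖u‖ ^ β * ‖u - u'‖ := by ring

private lemma JMap_bdiff (hβ : 1 ≤ β) (u u' : E N) :
    ‖‖u‖ ^ β • u - ‖u'‖ ^ β • u'‖ ≤ (1 + β) * (max ‖u‖ ‖u'‖) ^ β * ‖u - u'‖ := by
  rcases le_total ‖u'‖ ‖u‖ with hle | hle
  · rw [max_eq_left hle]; exact JMap_bdiff_aux hβ u u' hle
  · rw [max_eq_right hle, norm_sub_rev, norm_sub_rev u u']
    exact JMap_bdiff_aux hβ u' u hle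

theorem J_lip_lower (hβ : 1 ≤ β) (hh : 0 ≤ h) (v w : E N) :
    ‖v - w‖ ≤ ‖J β h v - J β h w‖ *
      (1 + h * (1 + β) * (max ‖J β h v‖ ‖J β h w‖) ^ β) := by
  have hβ0 : 0 < β := by linarith
  have h1 := J_eq hβ0 hh v
  have h2 := J_eq hβ0 hh w
  set u := J β h v with hu
  set u' := J β h w with hu'
  have h3 : v - w = (u - u') + h • (‖u‖ ^ β • u - ‖u'‖ ^ β • u') := by
    rw [← h1, ← h2, smul_sub, smul_smul, smul_smul]
    abel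
  have h4 := JMap_bdiff hβ u u'
  calc ‖v - w‖ = ‖(u - u') + h • (‖u‖ ^ β • u - ‖u'‖ ^ β • u')‖ := by rw [← h3]
    _ ≤ ‖u - u'‖ + ‖h • (‖u‖ ^ β • u - ‖u'‖ ^ β • u')‖ := norm_add_le _ _
    _ = ‖u - u'‖ + h * ‖‖u‖ ^ β • u - ‖u'‖ ^ β • u'‖ := by
        rw [norm_smul, Real.norm_eq_abs, abs_of_nonneg hh]
    _ ≤ ‖u - u'‖ + h * ((1 + β) * (max ‖u‖ ‖u'‖) ^ β * ‖u - u'‖) := by
        gcongr
    _ = _ := by ring

theorem J_isometry (β h : ℝ) (L : E N ≃ₗᵢ[ℝ] E N) (v : E N) :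
    J β h (L v) = L (J β h v) := by
  simp only [J, LinearIsometryEquiv.norm_map, map_smul]

theorem J_continuous (hβ : 0 < β) (hh : 0 ≤ h) : Continuous (J (N := N) β h) := by
  have hl : LipschitzWith 1 (J (N := N) β h) := by
    apply LipschitzWith.of_dist_le_mul
    intro v w
    rw [dist_eq_norm, dist_eq_norm, NNReal.coe_one, one_mul]
    exact J_nonexp hβ hh v w
  exact hl.continuous

theorem hat_continuous (hβ : 0 < β) (hh : 0 ≤ h) :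
    Continuous (fun p : E N × E N => hat β h p.1 p.2) := by
  unfold hat
  exact (J_continuous hβ hh).comp (by fun_prop)

theorem hat_zero (β h : ℝ) (ξ : E N) : hat β h (0 : E N) ξ = 0 := by
  simp [hat, J_zero]

theorem hat_isometry (β h : ℝ) (L : E N ≃ₗᵢ[ℝ] E N) (g ξ : E N) :
    hat β h (L g) (L ξ) = L (hat β h g ξ) := by
  unfold hat
  rw [← J_isometry, map_add, map_smul, LinearIsometryEquiv.norm_map]

/-- polar form: for a unit vector `e` and `r ≥ 0`,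
`hat (r e) ξ = ψ(r ζ) (e + √h ξ)/ζ`, `ζ = ‖e + √h ξ‖` -/
theorem hat_polar (hβ : 0 < β) (hh : 0 ≤ h) {r : ℝ} (hr : 0 ≤ r) {e : E N} (he : ‖e‖ = 1)
    (ξ : E N) :
    hat β h (r • e) ξ
      = (psi β h (r * ‖e + Real.sqrt h • ξ‖) / ‖e + Real.sqrt h • ξ‖) •
          (e + Real.sqrt h • ξ) := by
  rcases eq_or_lt_of_le hr with h0 | h0
  · rw [← h0, zero_smul, hat_zero, zero_mul, psi_zero hβ hh, zero_div, zero_smul]
  · have hn : ‖r • e‖ = r := by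
      rw [norm_smul, he, mul_one, Real.norm_eq_abs, abs_of_nonneg hr]
    have h1 : r • e + (Real.sqrt h * ‖r • e‖) • ξ = r • (e + Real.sqrt h • ξ) := by
      rw [hn, smul_add, smul_smul, mul_comm]
    have h2 : ‖r • (e + Real.sqrt h • ξ)‖ = r * ‖e + Real.sqrt h • ξ‖ := by
      rw [norm_smul, Real.norm_eq_abs, abs_of_nonneg hr]
    rw [hat, h1, J, h2, smul_smul]
    congr 1
    rcases eq_or_ne ‖e + Real.sqrt h • ξ‖ 0 with hz | hz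
    · rw [hz]; simp
    · field_simp

theorem norm_hat (hβ : 0 < β) (hh : 0 ≤ h) {r : ℝ} (hr : 0 ≤ r) {e : E N} (he : ‖e‖ = 1)
    (ξ : E N) : ‖hat β h (r • e) ξ‖ = psi β h (r * ‖e + Real.sqrt h • ξ‖) := by
  have hn : ‖r • e‖ = r := by
    rw [norm_smul, he, mul_one, Real.norm_eq_abs, abs_of_nonneg hr]
  have h1 : r • e + (Real.sqrt h * ‖r • e‖) • ξ = r • (e + Real.sqrt h • ξ) := by
    rw [hn, smul_add, smul_smul, mul_comm]
  rw [hat, norm_J hβ hh, h1, norm_smul, Real.norm_eq_abs, abs_of_nonneg hr]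

end Dyn
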