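import Pool.Agent.Lib_MP_36b788.SdeLE
import Pool.Agent.Lib_MP_36b788.JMap

/-!
# SDEST: strong convergence of the Euler chain on boxes

PROOF. `e_n(x) = H_{nh}(x) - rc_n(x)`, `x ∈` box, `q_n(x) = ∫‖e_n(x)‖²` (`rc_n` is `ℱ_{nh}`-measurable and in L²: induction, `‖J v‖ ≤ ‖v‖`,
mulv_sq). local_error at `s = nh`: `H_{(n+1)h} = J(a + ρM + ρD) + kh lap H`, `a = H + mulv(ΔB)H`, and
`rc_{n+1} = J(rc + mulv(ΔB)rc) + kh coup(rc)`. `J` is nonexpansive, so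
`‖e_{n+1}‖ ≤ ‖e + mulv(ΔB)e + ρM + ρD‖ + kh‖lap H - coup rc‖`, `lap H(x) - coup rc(x) = Σ_{w~x, w∈box} e(w) - 2d e(x) + Σ_{w~x, w∉box} H(w)`.
`∫‖e+mulv(ΔB)e+ρM+ρD‖² ≤ (1+h)∫‖e+mulv(ΔB)e+ρM‖² + (1+1/h)∫‖ρD‖²` and
`∫‖e+mulv(ΔB)e+ρM‖² = q + N h q + ∫‖ρM‖² + 2∫⟪mulv(ΔB)e,ρM⟫ ≤ q + Nhq + Ch² + 2√(Nhq)√C h ≤ (1+(N+1)h)q + C'h²`
(`∫⟪e,ρM⟫ = 0`, `∫⟪e,mulv(ΔB)e⟫ = 0`). Then `(a+b)² ≤ (1+h)a²+(1+1/h)b²`:
`q_{n+1}(x) ≤ (1+C h)q_n(x) + C h Σ_{w~x}q_n(w) + C h(h+δ) + C k² h 1_{x at the boundary}`. Weighted sum `Q_n = Σ2^{-|x|}q_n(x)`: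
`Q_{n+1} ≤ (1+C''h)Q_n + C''h(δ+h+k²2^{-L})` (box_boundary, `2^{-|x|} ≤ 2·2^{-|w|}`). `Q_0 = 0`. Gronwall, `nh ≤ T`.
-/

open MeasureTheory ProbabilityTheory
open scoped NNReal ENNReal Topology

namespace Dyn

/-! ### the lattice -/

/-- extension by zero -/
noncomputable def SdeSt_ext {N d L : ℕ} (G : boxS d L → E N) (y : Site d) : E N :=
  if hy : y ∈ boxS d L then G ⟨y, hy⟩ else 0

theorem SdeSt_l1 {d : ℕ} (x y : Site d) (h : l1 x y = 1) :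
    ∃ i : Fin d, y = x + Pi.single i 1 ∨ y = x - Pi.single i 1 := by
  unfold l1 at h
  have hne : ∃ i, (x i - y i).natAbs ≠ 0 := by
    by_contra hc
    push Not at hc
    rw [Finset.sum_eq_zero (fun i _ => hc i)] at h
    exact absurd h (by norm_num)
  obtain ⟨i, hi⟩ := hne
  rw [← Finset.add_sum_erase _ _ (Finset.mem_univ i)] at h
  have h1 : (x i - y i).natAbs = 1 := by omega
  have h2 : ∑ j ∈ Finset.univ.erase i, (x j - y j).natAbs = 0 := by omega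
  have h3 : ∀ j, j ≠ i → y j = x j := by
    intro j hj
    have := (Finset.sum_eq_zero_iff.1 h2) j (Finset.mem_erase.2 ⟨hj, Finset.mem_univ j⟩)
    omega
  refine ⟨i, ?_⟩
  have h4 : x i - y i = 1 ∨ x i - y i = -1 := by omega
  rcases h4 with h4 | h4
  · right
    funext j
    by_cases hj : j = i
    · subst hj
      simp
      omega
    · simp [hj, h3 j hj]
  · left
    funext j
    by_cases hj : j = i
    · subst hj
      simp
      omega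
    · simp [hj, h3 j hj]

theorem SdeSt_l1_add {d : ℕ} (x : Site d) (i : Fin d) : l1 x (x + Pi.single i 1) = 1 := by
  unfold l1
  rw [Finset.sum_eq_single i]
  · simp
  · intro j _ hj
    simp [hj]
  · intro h
    exact absurd (Finset.mem_univ i) h

theorem SdeSt_l1_sub {d : ℕ} (x : Site d) (i : Fin d) : l1 x (x - Pi.single i 1) = 1 := by
  unfold l1
  rw [Finset.sum_eq_single i]
  · simp
  · intro j _ hj
    simp [hj]
  · intro h
    exact absurd (Finset.mem_univ i) h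

theorem SdeSt_coup {N d L : ℕ} (G : boxS d L → E N) (x : boxS d L) :
    coup (boxNet d L) G x = lap (SdeSt_ext G) (x : Site d) := by
  classical
  let φ : Fin d × Bool → Site d := fun p =>
    if p.2 then (x : Site d) + Pi.single p.1 1 else (x : Site d) - Pi.single p.1 1
  have hφi : Function.Injective φ := by
    rintro ⟨i, a⟩ ⟨j, b⟩ hij
    have hi := congrFun hij i
    have hj := congrFun hij j
    by_cases he : i = j
    · subst he
      cases a <;> cases b <;> simp [φ] at hi ⊢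
      · omega
      · omega
    · exfalso
      cases a <;> cases b <;> simp [φ, Pi.single_apply, he, Ne.symm he] at hi
  have hx : SdeSt_ext G (x : Site d) = G x := by
    unfold SdeSt_ext
    rw [dif_pos x.2]
  have h1 : ∑ y ∈ (boxNet d L).nb x, G y = ∑ i : Fin d, (SdeSt_ext G ((x : Site d) + Pi.single i 1)
      + SdeSt_ext G ((x : Site d) - Pi.single i 1)) := by
    have e1 : ∑ i : Fin d, (SdeSt_ext G ((x : Site d) + Pi.single i 1)
      + SdeSt_ext G ((x : Site d) - Pi.single i 1)) = ∑ p : Fin d × Bool, SdeSt_ext G (φ p) := by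
      rw [Fintype.sum_prod_type]
      refine Finset.sum_congr rfl fun i _ => ?_
      rw [Fintype.sum_bool]
      rfl
    rw [e1, ← Finset.sum_image (f := SdeSt_ext G) (g := φ) (fun a _ b _ h => hφi h)]
    have e2 : ∑ y ∈ (boxNet d L).nb x, G y =
        ∑ z ∈ ((boxNet d L).nb x).image (Subtype.val : ↥(boxS d L) → Site d), SdeSt_ext G z := by
      rw [Finset.sum_image (fun a _ b _ h => Subtype.ext h)]
      refine Finset.sum_congr rfl fun y _ => ?_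
      unfold SdeSt_ext
      rw [dif_pos y.2]
    rw [e2]
    refine Finset.sum_subset ?_ ?_
    · intro z hz
      rw [Finset.mem_image] at hz
      obtain ⟨y, hy, rfl⟩ := hz
      rw [boxNet_nb] at hy
      obtain ⟨i, h | h⟩ := SdeSt_l1 _ _ hy
      · exact Finset.mem_image.2 ⟨(i, true), Finset.mem_univ _, by simp [φ, h]⟩
      · exact Finset.mem_image.2 ⟨(i, false), Finset.mem_univ _, by simp [φ, h]⟩
    · intro z hz hz'
      rw [Finset.mem_image] at hz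
      obtain ⟨⟨i, b⟩, _, rfl⟩ := hz
      unfold SdeSt_ext
      by_cases hb : φ (i, b) ∈ boxS d L
      · exfalso
        apply hz'
        rw [Finset.mem_image]
        refine ⟨⟨φ (i, b), hb⟩, ?_, rfl⟩
        rw [boxNet_nb]
        cases b
        · exact SdeSt_l1_sub _ _
        · exact SdeSt_l1_add _ _
      · rw [dif_neg hb]
  unfold coup lap
  rw [h1, hx]
  rw [show ∑ i : Fin d, ((SdeSt_ext G ((x : Site d) + Pi.single i 1) - G x)
      + (SdeSt_ext G ((x : Site d) - Pi.single i 1) - G x)) =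
      ∑ i : Fin d, ((SdeSt_ext G ((x : Site d) + Pi.single i 1)
      + SdeSt_ext G ((x : Site d) - Pi.single i 1)) - (2 : ℝ) • G x) from
    Finset.sum_congr rfl fun i _ => by rw [two_smul]; abel]
  rw [Finset.sum_sub_distrib, Finset.sum_const, Finset.card_univ, Fintype.card_fin]
  congr 1
  rw [← Nat.cast_smul_eq_nsmul ℝ d, smul_smul]
  congr 1
  push_cast
  ring

theorem SdeSt_w {d : ℕ} (x y : Site d) (h : l1 x y = 1) :
    (1 / 2 : ℝ) ^ l1 x 0 ≤ 2 * (1 / 2) ^ l1 y 0 := by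
  have h1 : l1 y 0 ≤ l1 x 0 + 1 := by
    rw [← h]
    unfold l1
    rw [← Finset.sum_add_distrib]
    refine Finset.sum_le_sum fun i _ => ?_
    simp only [Pi.zero_apply]
    omega
  have h2 : (1 / 2 : ℝ) ^ (l1 x 0 + 1) ≤ (1 / 2) ^ l1 y 0 :=
    pow_le_pow_of_le_one (by norm_num) (by norm_num) h1
  rw [pow_succ] at h2
  linarith

theorem SdeSt_shift {d L : ℕ} (σ : Site d) (hσ : ∀ x : Site d, l1 x (x + σ) = 1)
    (hb : ∀ x ∈ boxS d L, x + σ ∉ boxS d L → ∃ i, |x i| = (L : ℤ))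
    (q : Site d → ℝ) (hq : ∀ y, 0 ≤ q y) (c : ℝ) (hc : 0 ≤ c) (hqc : ∀ y ∉ boxS d L, q y ≤ c) :
    ∑ x ∈ boxS d L, (1 / 2 : ℝ) ^ l1 x 0 * q (x + σ) ≤
      2 * ∑ x ∈ boxS d L, (1 / 2 : ℝ) ^ l1 x 0 * q x +
        c * ∑ x ∈ (boxS d L).filter (fun x => ∃ i, |x i| = (L : ℤ)), (1 / 2 : ℝ) ^ l1 x 0 := by
  classical
  rw [← Finset.sum_filter_add_sum_filter_not (boxS d L) (fun x => x + σ ∈ boxS d L)]
  refine add_le_add ?_ ?_
  · have h1 : ∑ x ∈ (boxS d L).filter (fun x => x + σ ∈ boxS d L), (1 / 2 : ℝ) ^ l1 x 0 * q (x + σ)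
        ≤ ∑ x ∈ (boxS d L).filter (fun x => x + σ ∈ boxS d L),
          2 * ((1 / 2 : ℝ) ^ l1 (x + σ) 0 * q (x + σ)) := by
      refine Finset.sum_le_sum fun x _ => ?_
      rw [← mul_assoc]
      exact mul_le_mul_of_nonneg_right (SdeSt_w x _ (hσ x)) (hq _)
    refine h1.trans ?_
    rw [← Finset.mul_sum]
    refine mul_le_mul_of_nonneg_left ?_ (by norm_num)
    rw [← Finset.sum_image (f := fun y => (1 / 2 : ℝ) ^ l1 y 0 * q y) (g := fun x => x + σ)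
      (fun a _ b _ h => add_right_cancel h)]
    refine Finset.sum_le_sum_of_subset_of_nonneg ?_ fun y _ _ => mul_nonneg (by positivity) (hq y)
    intro y hy
    rw [Finset.mem_image] at hy
    obtain ⟨x, hx, rfl⟩ := hy
    exact (Finset.mem_filter.1 hx).2
  · rw [Finset.mul_sum]
    have h1 : ∑ x ∈ (boxS d L).filter (fun x => ¬ x + σ ∈ boxS d L),
        (1 / 2 : ℝ) ^ l1 x 0 * q (x + σ) ≤
        ∑ x ∈ (boxS d L).filter (fun x => ¬ x + σ ∈ boxS d L), c * (1 / 2 : ℝ) ^ l1 x 0 := by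
      refine Finset.sum_le_sum fun x hx => ?_
      rw [mul_comm c]
      exact mul_le_mul_of_nonneg_left (hqc _ (Finset.mem_filter.1 hx).2) (by positivity)
    refine h1.trans (Finset.sum_le_sum_of_subset_of_nonneg ?_ fun y _ _ => by positivity)
    intro y hy
    rw [Finset.mem_filter] at hy ⊢
    exact ⟨hy.1, hb y hy.1 hy.2⟩

theorem SdeSt_bd_add {d L : ℕ} (i : Fin d) (x : Site d) (hx : x ∈ boxS d L)
    (h : x + Pi.single i 1 ∉ boxS d L) : ∃ i, |x i| = (L : ℤ) := by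
  refine ⟨i, ?_⟩
  unfold boxS at hx h
  rw [Finset.mem_Icc] at hx h
  by_contra hne
  apply h
  have h1 : ∀ j, -(L : ℤ) ≤ x j := hx.1
  have h2 : ∀ j, x j ≤ (L : ℤ) := hx.2
  constructor
  · intro j
    show -(L : ℤ) ≤ x j + (Pi.single i 1 : Site d) j
    by_cases hj : j = i
    · subst hj
      simp only [Pi.single_eq_same]
      linarith [h1 j]
    · simp only [Pi.single_apply, if_neg hj]
      linarith [h1 j]
  · intro j
    show x j + (Pi.single i 1 : Site d) j ≤ (L : ℤ)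
    by_cases hj : j = i
    · subst hj
      simp only [Pi.single_eq_same]
      have h3 := h2 j
      have h4 := h1 j
      have h5 : x j ≠ (L : ℤ) := by
        intro he
        apply hne
        rw [he]
        simp
      omega
    · simp only [Pi.single_apply, if_neg hj]
      linarith [h2 j]

theorem SdeSt_bd_sub {d L : ℕ} (i : Fin d) (x : Site d) (hx : x ∈ boxS d L)
    (h : x - Pi.single i 1 ∉ boxS d L) : ∃ i, |x i| = (L : ℤ) := by
  refine ⟨i, ?_⟩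
  unfold boxS at hx h
  rw [Finset.mem_Icc] at hx h
  by_contra hne
  apply h
  have h1 : ∀ j, -(L : ℤ) ≤ x j := hx.1
  have h2 : ∀ j, x j ≤ (L : ℤ) := hx.2
  constructor
  · intro j
    show -(L : ℤ) ≤ x j - (Pi.single i 1 : Site d) j
    by_cases hj : j = i
    · subst hj
      simp only [Pi.single_eq_same]
      have h3 := h2 j
      have h4 := h1 j
      have h5 : x j ≠ -(L : ℤ) := by
        intro he
        apply hne
        rw [he]
        simp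
      omega
    · simp only [Pi.single_apply, if_neg hj]
      linarith [h1 j]
  · intro j
    show x j - (Pi.single i 1 : Site d) j ≤ (L : ℤ)
    by_cases hj : j = i
    · subst hj
      simp only [Pi.single_eq_same]
      linarith [h2 j]
    · simp only [Pi.single_apply, if_neg hj]
      linarith [h2 j]


theorem SdeSt_W {d L : ℕ} : ∑ y ∈ boxS d L, (1 / 2 : ℝ) ^ l1 y 0 ≤ 3 ^ d := by
  have h0 : (0 : Site d) ∈ boxS d L := by
    unfold boxS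
    rw [Finset.mem_Icc]
    constructor
    · intro i
      show -(L : ℤ) ≤ 0
      omega
    · intro i
      show (0 : ℤ) ≤ L
      omega
  have h1 := (boxNet d L).sum_half ⟨0, h0⟩
  refine le_trans (le_of_eq ?_) h1
  rw [← Finset.sum_coe_sort]
  refine Finset.sum_congr rfl fun y _ => ?_
  rw [boxNet_dist]
  congr 1
  unfold l1
  refine Finset.sum_congr rfl fun i _ => ?_
  simp only [Pi.zero_apply]
  omega

/-- discrete Gronwall inequality for the weighted sums -/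
theorem SdeSt_gron {d L : ℕ} {a b c s h Z : ℝ} (ha : 0 ≤ a) (hb : 0 ≤ b) (hc : 0 ≤ c) (hs : 0 ≤ s)
    (hh : 0 ≤ h)
    (hZ : ∑ x ∈ (boxS d L).filter (fun x => ∃ i, |x i| = (L : ℤ)), (1 / 2 : ℝ) ^ l1 x 0 ≤ Z)
    (q : ℕ → Site d → ℝ) (hq : ∀ n y, 0 ≤ q n y) (q0 : ∀ y ∈ boxS d L, q 0 y = 0) (M : ℕ)
    (hout : ∀ n ≤ M, ∀ y ∉ boxS d L, q n y ≤ c)
    (hstep : ∀ n < M, ∀ y ∈ boxS d L, q (n + 1) y ≤ (1 + a * h) * q n y + h * s +
      h * b * ∑ i : Fin d, (q n (y + Pi.single i 1) + q n (y - Pi.single i 1) + 2 * q n y)) :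
    ∀ n ≤ M, ∑ y ∈ boxS d L, (1 / 2 : ℝ) ^ l1 y 0 * q n y ≤
      n * h * (s * 3 ^ d + 2 * d * b * c * Z) * (1 + (a + 6 * d * b) * h) ^ n := by
  have hZ0 : 0 ≤ Z := le_trans (Finset.sum_nonneg fun y _ => by positivity) hZ
  intro n
  induction n with
  | zero =>
    intro _
    rw [Finset.sum_eq_zero fun y hy => by rw [q0 y hy, mul_zero]]
    simp
  | succ n ih =>
    intro hn
    have ih' := ih (by omega)
    set Q : ℝ := ∑ y ∈ boxS d L, (1 / 2 : ℝ) ^ l1 y 0 * q n y with hQ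
    have hQ0 : 0 ≤ Q := Finset.sum_nonneg fun y _ => mul_nonneg (by positivity) (hq n y)
    have h1 : ∑ y ∈ boxS d L, (1 / 2 : ℝ) ^ l1 y 0 * q (n + 1) y ≤
        ∑ y ∈ boxS d L, ((1 + a * h) * ((1 / 2 : ℝ) ^ l1 y 0 * q n y) +
          h * s * (1 / 2 : ℝ) ^ l1 y 0 + h * b * ∑ i : Fin d,
            ((1 / 2 : ℝ) ^ l1 y 0 * q n (y + Pi.single i 1) +
              (1 / 2 : ℝ) ^ l1 y 0 * q n (y - Pi.single i 1) +
              2 * ((1 / 2 : ℝ) ^ l1 y 0 * q n y))) := by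
      refine Finset.sum_le_sum fun y hy => ?_
      have h2 := mul_le_mul_of_nonneg_left (hstep n (by omega) y hy)
        (show (0 : ℝ) ≤ (1 / 2 : ℝ) ^ l1 y 0 by positivity)
      refine h2.trans (le_of_eq ?_)
      have h3 : ∑ i : Fin d, ((1 / 2 : ℝ) ^ l1 y 0 * q n (y + Pi.single i 1) +
              (1 / 2 : ℝ) ^ l1 y 0 * q n (y - Pi.single i 1) +
              2 * ((1 / 2 : ℝ) ^ l1 y 0 * q n y)) = (1 / 2 : ℝ) ^ l1 y 0 *
            ∑ i : Fin d, (q n (y + Pi.single i 1) + q n (y - Pi.single i 1) + 2 * q n y) := by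
        rw [Finset.mul_sum]
        refine Finset.sum_congr rfl fun i _ => by ring
      rw [h3]
      ring
    rw [Finset.sum_add_distrib, Finset.sum_add_distrib, ← Finset.mul_sum, ← Finset.mul_sum,
      ← Finset.mul_sum, Finset.sum_comm] at h1
    have h4 : ∀ i : Fin d, ∑ y ∈ boxS d L, ((1 / 2 : ℝ) ^ l1 y 0 * q n (y + Pi.single i 1) +
              (1 / 2 : ℝ) ^ l1 y 0 * q n (y - Pi.single i 1) +
              2 * ((1 / 2 : ℝ) ^ l1 y 0 * q n y)) ≤ 6 * Q + 2 * c * Z := by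
      intro i
      rw [Finset.sum_add_distrib, Finset.sum_add_distrib, ← Finset.mul_sum]
      have e1 := SdeSt_shift (L := L) (Pi.single i 1 : Site d) (fun x => SdeSt_l1_add x i)
        (fun x hx h' => SdeSt_bd_add i x hx h') (q n) (hq n) c hc (hout n (by omega))
      have e2 := SdeSt_shift (L := L) (-(Pi.single i 1) : Site d)
        (fun x => by rw [← sub_eq_add_neg]; exact SdeSt_l1_sub x i)
        (fun x hx h' => SdeSt_bd_sub i x hx (by rw [sub_eq_add_neg]; exact h'))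
        (q n) (hq n) c hc (hout n (by omega))
      simp only [← sub_eq_add_neg] at e2
      have e3 := mul_le_mul_of_nonneg_left hZ hc
      rw [← hQ] at e1 e2 ⊢
      linarith
    have h5 := Finset.sum_le_sum fun i (_ : i ∈ (Finset.univ : Finset (Fin d))) => h4 i
    rw [Finset.sum_const, Finset.card_univ, Fintype.card_fin, nsmul_eq_mul] at h5
    have h6 := mul_le_mul_of_nonneg_left h5 (mul_nonneg hh hb)
    have h7 := mul_le_mul_of_nonneg_left (SdeSt_W (d := d) (L := L)) (mul_nonneg hh hs)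
    set S : ℝ := s * 3 ^ d + 2 * d * b * c * Z with hS
    have hS0 : 0 ≤ S := by positivity
    set A : ℝ := 1 + (a + 6 * d * b) * h with hA
    have hA1 : 1 ≤ A := by
      have : 0 ≤ (a + 6 * d * b) * h := by positivity
      linarith
    have h8 : ∑ y ∈ boxS d L, (1 / 2 : ℝ) ^ l1 y 0 * q (n + 1) y ≤ A * Q + h * S := by
      refine h1.trans ?_
      rw [hA, hS]
      rw [← hQ]
      nlinarith [h6, h7]
    refine h8.trans ?_
    have h9 : A * Q ≤ A * (n * h * S * A ^ n) := mul_le_mul_of_nonneg_left ih' (by linarith)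
    have h10 : (1 : ℝ) ≤ A ^ (n + 1) := one_le_pow₀ hA1
    have h11 : h * S ≤ h * S * A ^ (n + 1) := le_mul_of_one_le_right (by positivity) h10
    calc A * Q + h * S ≤ A * (n * h * S * A ^ n) + h * S * A ^ (n + 1) := add_le_add h9 h11
      _ = ((n + 1 : ℕ) : ℝ) * h * S * A ^ (n + 1) := by
        push_cast
        rw [pow_succ]
        ring

/-! ### inequalities in `L²` -/

theorem SdeSt_young {h : ℝ} (hh : 0 < h) (a b : ℝ) :
    (a + b) ^ 2 ≤ (1 + h) * a ^ 2 + (1 + h⁻¹) * b ^ 2 := by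
  have h1 : 0 ≤ h⁻¹ * (h * a - b) ^ 2 := by positivity
  have h2 : h⁻¹ * (h * a - b) ^ 2 = h * a ^ 2 - 2 * a * b + h⁻¹ * b ^ 2 := by
    field_simp
    ring
  nlinarith

theorem SdeSt_inner {Ω : Type} [MeasurableSpace Ω] {P : Measure Ω} {N : ℕ} {f g : Ω → E N}
    (hf : MemLp f 2 P) (hg : MemLp g 2 P) : Integrable (fun ω => (inner ℝ (f ω) (g ω) : ℝ)) P := by
  have h1 := (hf.integrable_norm_pow (by norm_num)).add (hg.integrable_norm_pow (by norm_num))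
  refine Integrable.mono' h1 (hf.1.inner hg.1) (Filter.Eventually.of_forall fun ω => ?_)
  have h2 := norm_inner_le_norm (𝕜 := ℝ) (f ω) (g ω)
  have h3 : ‖f ω‖ * ‖g ω‖ ≤ ‖f ω‖ ^ 2 + ‖g ω‖ ^ 2 := by
    nlinarith [sq_nonneg (‖f ω‖ - ‖g ω‖), sq_nonneg (‖f ω‖ + ‖g ω‖)]
  exact h2.trans h3

theorem SdeSt_A {Ω : Type} [MeasurableSpace Ω] {P : Measure Ω} {N : ℕ} {e m ρ : Ω → E N} {c : ℝ}
    (he : MemLp e 2 P) (hm : MemLp m 2 P) (hρ : MemLp ρ 2 P)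
    (h1 : ∫ ω, inner ℝ (e ω) (m ω) ∂P = 0) (h2 : ∫ ω, inner ℝ (e ω) (ρ ω) ∂P = 0)
    (h3 : ∫ ω, ‖m ω‖ ^ 2 ∂P = c * ∫ ω, ‖e ω‖ ^ 2 ∂P) :
    ∫ ω, ‖e ω + m ω + ρ ω‖ ^ 2 ∂P ≤ (1 + 2 * c) * ∫ ω, ‖e ω‖ ^ 2 ∂P + 2 * ∫ ω, ‖ρ ω‖ ^ 2 ∂P := by
  have ie := he.integrable_norm_pow (p := 2) (by norm_num)
  have im := hm.integrable_norm_pow (p := 2) (by norm_num)
  have iρ := hρ.integrable_norm_pow (p := 2) (by norm_num)
  have i1 := SdeSt_inner he hm
  have i2 := SdeSt_inner he hρ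
  have hp : ∀ ω, ‖e ω + m ω + ρ ω‖ ^ 2 ≤ (‖e ω‖ ^ 2 + (2 * ‖m ω‖ ^ 2 + 2 * ‖ρ ω‖ ^ 2)) +
      (2 * inner ℝ (e ω) (m ω) + 2 * inner ℝ (e ω) (ρ ω)) := by
    intro ω
    rw [add_assoc, norm_add_sq_real, inner_add_right]
    have h4 := norm_add_le (m ω) (ρ ω)
    have h5 : ‖m ω + ρ ω‖ ^ 2 ≤ 2 * ‖m ω‖ ^ 2 + 2 * ‖ρ ω‖ ^ 2 := by
      nlinarith [sq_nonneg (‖m ω‖ - ‖ρ ω‖), norm_nonneg (m ω + ρ ω), norm_nonneg (m ω),
        norm_nonneg (ρ ω)]
    linarith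
  have i3 : Integrable (fun ω => (‖e ω‖ ^ 2 + (2 * ‖m ω‖ ^ 2 + 2 * ‖ρ ω‖ ^ 2)) +
      (2 * inner ℝ (e ω) (m ω) + 2 * inner ℝ (e ω) (ρ ω))) P :=
    (ie.add ((im.const_mul 2).add (iρ.const_mul 2))).add ((i1.const_mul 2).add (i2.const_mul 2))
  have h6 := integral_mono_of_nonneg (Filter.Eventually.of_forall fun ω =>
    (by positivity : (0 : ℝ) ≤ ‖e ω + m ω + ρ ω‖ ^ 2)) i3 (Filter.Eventually.of_forall hp)
  refine h6.trans (le_of_eq ?_)
  have j1 : Integrable (fun ω => 2 * ‖m ω‖ ^ 2 + 2 * ‖ρ ω‖ ^ 2) P :=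
    (im.const_mul 2).add (iρ.const_mul 2)
  have j2 : Integrable (fun ω => ‖e ω‖ ^ 2 + (2 * ‖m ω‖ ^ 2 + 2 * ‖ρ ω‖ ^ 2)) P := ie.add j1
  have j3 : Integrable (fun ω => 2 * inner ℝ (e ω) (m ω) + 2 * inner ℝ (e ω) (ρ ω)) P :=
    (i1.const_mul 2).add (i2.const_mul 2)
  rw [integral_add j2 j3, integral_add ie j1, integral_add (im.const_mul 2) (iρ.const_mul 2),
    integral_add (i1.const_mul 2) (i2.const_mul 2), integral_const_mul, integral_const_mul,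
    integral_const_mul, integral_const_mul, h1, h2, h3]
  ring

theorem SdeSt_sum3 {Ω : Type} [MeasurableSpace Ω] {P : Measure Ω} {N : ℕ} {e' A D Λ : Ω → E N}
    {c h : ℝ} (hh : 0 < h) (hc : 0 ≤ c)
    (hA : MemLp A 2 P) (hD : MemLp D 2 P) (hΛ : MemLp Λ 2 P)
    (hle : ∀ᵐ ω ∂P, ‖e' ω‖ ≤ ‖A ω‖ + ‖D ω‖ + c * ‖Λ ω‖) :
    ∫ ω, ‖e' ω‖ ^ 2 ∂P ≤ (1 + h) ^ 2 * ∫ ω, ‖A ω‖ ^ 2 ∂P +
      (1 + h) * (1 + h⁻¹) * ∫ ω, ‖D ω‖ ^ 2 ∂P + (1 + h⁻¹) * c ^ 2 * ∫ ω, ‖Λ ω‖ ^ 2 ∂P := by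
  have iA := (hA.integrable_norm_pow (p := 2) (by norm_num)).const_mul ((1 + h) ^ 2)
  have iD := (hD.integrable_norm_pow (p := 2) (by norm_num)).const_mul ((1 + h) * (1 + h⁻¹))
  have iΛ := (hΛ.integrable_norm_pow (p := 2) (by norm_num)).const_mul ((1 + h⁻¹) * c ^ 2)
  have iAD : Integrable (fun ω => (1 + h) ^ 2 * ‖A ω‖ ^ 2 +
    (1 + h) * (1 + h⁻¹) * ‖D ω‖ ^ 2) P := iA.add iD
  rw [← integral_const_mul, ← integral_const_mul, ← integral_const_mul, ← integral_add iA iD,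
    ← integral_add iAD iΛ]
  refine integral_mono_of_nonneg (Filter.Eventually.of_forall fun ω => by positivity)
    (iAD.add iΛ) ?_
  filter_upwards [hle] with ω hω
  have h1 := SdeSt_young hh (‖A ω‖ + ‖D ω‖) (c * ‖Λ ω‖)
  have h2 := SdeSt_young hh ‖A ω‖ ‖D ω‖
  have h3 : ‖e' ω‖ ^ 2 ≤ (‖A ω‖ + ‖D ω‖ + c * ‖Λ ω‖) ^ 2 :=
    pow_le_pow_left₀ (norm_nonneg _) hω 2
  have h4 := mul_le_mul_of_nonneg_left h2 (show (0 : ℝ) ≤ 1 + h by linarith)
  calc ‖e' ω‖ ^ 2 ≤ (1 + h) * (‖A ω‖ + ‖D ω‖) ^ 2 + (1 + h⁻¹) * (c * ‖Λ ω‖) ^ 2 := h3.trans h1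
    _ ≤ (1 + h) * ((1 + h) * ‖A ω‖ ^ 2 + (1 + h⁻¹) * ‖D ω‖ ^ 2) +
        (1 + h⁻¹) * (c * ‖Λ ω‖) ^ 2 := by linarith
    _ = _ := by ring

theorem SdeSt_lap {Ω : Type} [MeasurableSpace Ω] {P : Measure Ω} {N d : ℕ}
    {f : Site d → Ω → E N} (hf : ∀ y, MemLp (f y) 2 P) (x : Site d) :
    MemLp (fun ω => lap (fun y => f y ω) x) 2 P ∧
    ∫ ω, ‖lap (fun y => f y ω) x‖ ^ 2 ∂P ≤ 4 * d * ∑ i : Fin d,
      (∫ ω, ‖f (x + Pi.single i 1) ω‖ ^ 2 ∂P + ∫ ω, ‖f (x - Pi.single i 1) ω‖ ^ 2 ∂P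
        + 2 * ∫ ω, ‖f x ω‖ ^ 2 ∂P) := by
  constructor
  · unfold lap
    refine memLp_finsetSum _ fun i _ => ?_
    exact ((hf _).sub (hf _)).add ((hf _).sub (hf _))
  · have i0 : ∀ y, Integrable (fun ω => ‖f y ω‖ ^ 2) P := fun y =>
      (hf y).integrable_norm_pow (by norm_num)
    have i1 : ∀ i : Fin d, Integrable (fun ω => ‖f (x + Pi.single i 1) ω‖ ^ 2 +
        ‖f (x - Pi.single i 1) ω‖ ^ 2 + 2 * ‖f x ω‖ ^ 2) P := fun i =>
      ((i0 _).add (i0 _)).add ((i0 _).const_mul 2)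
    have h1 : ∑ i : Fin d, (∫ ω, ‖f (x + Pi.single i 1) ω‖ ^ 2 ∂P +
        ∫ ω, ‖f (x - Pi.single i 1) ω‖ ^ 2 ∂P + 2 * ∫ ω, ‖f x ω‖ ^ 2 ∂P) =
        ∫ ω, ∑ i : Fin d, (‖f (x + Pi.single i 1) ω‖ ^ 2 +
        ‖f (x - Pi.single i 1) ω‖ ^ 2 + 2 * ‖f x ω‖ ^ 2) ∂P := by
      rw [integral_finsetSum _ fun i _ => i1 i]
      refine Finset.sum_congr rfl fun i _ => ?_
      have i2 : Integrable (fun ω => ‖f (x + Pi.single i 1) ω‖ ^ 2 +
        ‖f (x - Pi.single i 1) ω‖ ^ 2) P := (i0 _).add (i0 _)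
      rw [integral_add i2 ((i0 _).const_mul 2), integral_add (i0 _) (i0 _),
        integral_const_mul]
    rw [h1, ← integral_const_mul]
    refine integral_mono_of_nonneg (Filter.Eventually.of_forall fun ω => by positivity)
      ((integrable_finsetSum _ fun i _ => i1 i).const_mul _)
      (Filter.Eventually.of_forall fun ω => ?_)
    show ‖lap (fun y => f y ω) x‖ ^ 2 ≤ _
    unfold lap
    set a : Fin d → ℝ := fun i => ‖f (x + Pi.single i 1) ω - f x ω +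
      (f (x - Pi.single i 1) ω - f x ω)‖ with ha
    have h2 : ‖∑ i : Fin d, (f (x + Pi.single i 1) ω - f x ω +
      (f (x - Pi.single i 1) ω - f x ω))‖ ≤ ∑ i, a i := norm_sum_le _ _
    have h3 : (∑ i, a i) ^ 2 ≤ d * ∑ i, a i ^ 2 := by
      have := sq_sum_le_card_mul_sum_sq (s := (Finset.univ : Finset (Fin d))) (f := a)
      rwa [Finset.card_univ, Fintype.card_fin] at this
    have h4 : ∀ i, a i ^ 2 ≤ 4 * (‖f (x + Pi.single i 1) ω‖ ^ 2 +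
        ‖f (x - Pi.single i 1) ω‖ ^ 2 + 2 * ‖f x ω‖ ^ 2) := by
      intro i
      have h5 : a i ≤ ‖f (x + Pi.single i 1) ω‖ + ‖f (x - Pi.single i 1) ω‖ + 2 * ‖f x ω‖ := by
        have e1 := norm_add_le (f (x + Pi.single i 1) ω - f x ω) (f (x - Pi.single i 1) ω - f x ω)
        have e2 := norm_sub_le (f (x + Pi.single i 1) ω) (f x ω)
        have e3 := norm_sub_le (f (x - Pi.single i 1) ω) (f x ω)
        show ‖_‖ ≤ _
        linarith
      have h6 := pow_le_pow_left₀ (norm_nonneg _ : 0 ≤ a i) h5 2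
      refine h6.trans ?_
      nlinarith [sq_nonneg (‖f (x + Pi.single i 1) ω‖ - ‖f (x - Pi.single i 1) ω‖),
        sq_nonneg (‖f (x + Pi.single i 1) ω‖ - ‖f x ω‖),
        sq_nonneg (‖f (x - Pi.single i 1) ω‖ - ‖f x ω‖)]
    calc ‖∑ i : Fin d, (f (x + Pi.single i 1) ω - f x ω +
      (f (x - Pi.single i 1) ω - f x ω))‖ ^ 2 ≤ (∑ i, a i) ^ 2 :=
        pow_le_pow_left₀ (norm_nonneg _) h2 2
      _ ≤ d * ∑ i, a i ^ 2 := h3
      _ ≤ d * ∑ i, 4 * (‖f (x + Pi.single i 1) ω‖ ^ 2 +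
        ‖f (x - Pi.single i 1) ω‖ ^ 2 + 2 * ‖f x ω‖ ^ 2) :=
        mul_le_mul_of_nonneg_left (Finset.sum_le_sum fun i _ => h4 i) (Nat.cast_nonneg _)
      _ = 4 * d * ∑ i, (‖f (x + Pi.single i 1) ω‖ ^ 2 +
        ‖f (x - Pi.single i 1) ω‖ ^ 2 + 2 * ‖f x ω‖ ^ 2) := by
        rw [← Finset.mul_sum]
        ring


/-! ### the chain -/

section

variable {Ω : Type} [mΩ : MeasurableSpace Ω] {P : Measure Ω} {N d : ℕ} {k β : ℝ}
    {ℱ : Filtration ℝ≥0 mΩ} {B : Site d → Fin N → Fin N → ℝ≥0 → Ω → ℝ}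
    {H : ℝ≥0 → Site d → Ω → E N}

theorem SdeSt_succ (n : ℕ) (h : ℝ≥0) : ((n + 1 : ℕ) : ℝ≥0) * h = n * h + h := by
  push_cast
  ring

theorem SdeSt_Jle (hβ : 0 < β) {h : ℝ} (hh : 0 ≤ h) (v : E N) : ‖J β h v‖ ≤ ‖v‖ := by
  have h1 := J_nonexp (N := N) hβ hh v 0
  rwa [J_zero, sub_zero, sub_zero] at h1

theorem SdeSt_rc (hβ : 1 < β) (hH : IsDynamo P k 1 β ℱ B H) (h : ℝ≥0) (L : ℕ) (n : ℕ) :
    ∀ x : boxS d L, Measurable[ℱ (n * h)] (fun ω => rc β k h L B (H 0) n ω x) ∧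
      MemLp (fun ω => rc β k h L B (H 0) n ω x) 2 P := by
  have hβ0 : 0 < β := by linarith
  have hh : (0 : ℝ) ≤ h := h.2
  induction n with
  | zero =>
    intro x
    constructor
    · rw [Nat.cast_zero, zero_mul]
      exact hH.adapted 0 x
    · obtain ⟨C, _, hC⟩ := H_L2 hH 0
      exact (hC 0 le_rfl x).1
  | succ n ih =>
    intro x
    have hle : (n : ℝ≥0) * h ≤ ((n + 1 : ℕ) : ℝ≥0) * h := by
      rw [SdeSt_succ]
      exact le_self_add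
    have m1 : ∀ y : boxS d L,
        Measurable[ℱ (((n + 1 : ℕ) : ℝ≥0) * h)] (fun ω => rc β k h L B (H 0) n ω y) := fun y =>
      (ih y).1.mono (ℱ.mono hle) le_rfl
    have m2 : Measurable[ℱ (((n + 1 : ℕ) : ℝ≥0) * h)] (fun ω => (fun a b =>
        B x a b ((n + 1 : ℝ≥0) * h) ω - B x a b (n * h) ω : Fin N → Fin N → ℝ)) := by
      refine @measurable_pi_lambda _ _ _ (ℱ (((n + 1 : ℕ) : ℝ≥0) * h)) _ _ fun a => ?_
      refine @measurable_pi_lambda _ _ _ (ℱ (((n + 1 : ℕ) : ℝ≥0) * h)) _ _ fun b => ?_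
      have := (inc_meas hH _ _ hle x a b).1
      rw [Nat.cast_add, Nat.cast_one] at this ⊢
      exact this
    have m3 : Measurable[ℱ (((n + 1 : ℕ) : ℝ≥0) * h)] (fun ω => mulv (fun a b =>
        B x a b ((n + 1 : ℝ≥0) * h) ω - B x a b (n * h) ω) (rc β k h L B (H 0) n ω x)) :=
      (mulv_continuous N).measurable.comp (m2.prodMk (m1 x))
    have p3 : MemLp (fun ω => mulv (fun a b =>
        B x a b ((n + 1 : ℝ≥0) * h) ω - B x a b (n * h) ω) (rc β k h L B (H 0) n ω x)) 2 P := by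
      have := (mulv_sq hH _ _ hle x _ (ih x).1 (ih x).2).1
      rw [Nat.cast_add, Nat.cast_one] at this
      exact this
    have mc : Measurable[ℱ (((n + 1 : ℕ) : ℝ≥0) * h)]
        (fun ω => coup (boxNet d L) (rc β k h L B (H 0) n ω) x) := by
      unfold coup
      exact (Finset.measurable_fun_sum _ fun y _ => m1 y).sub
        ((m1 x).const_smul ((2 * d : ℕ) : ℝ))
    have pc : MemLp (fun ω => coup (boxNet d L) (rc β k h L B (H 0) n ω) x) 2 P := by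
      unfold coup
      exact (memLp_finsetSum _ fun y _ => (ih y).2).sub
        ((ih x).2.const_smul ((2 * d : ℕ) : ℝ))
    have mJ : Measurable[ℱ (((n + 1 : ℕ) : ℝ≥0) * h)] (fun ω => J β h (rc β k h L B (H 0) n ω x +
        mulv (fun a b => B x a b ((n + 1 : ℝ≥0) * h) ω - B x a b (n * h) ω)
          (rc β k h L B (H 0) n ω x))) :=
      (J_continuous hβ0 hh).measurable.comp ((m1 x).add m3)
    constructor
    · exact mJ.add (mc.const_smul (k * (h : ℝ)))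
    · have p4 := (ih x).2.add p3
      have pJ : MemLp (fun ω => J β h (rc β k h L B (H 0) n ω x +
        mulv (fun a b => B x a b ((n + 1 : ℝ≥0) * h) ω - B x a b (n * h) ω)
          (rc β k h L B (H 0) n ω x))) 2 P :=
        p4.mono (mJ.mono (ℱ.le _) le_rfl).aestronglyMeasurable
          (Filter.Eventually.of_forall fun ω => SdeSt_Jle hβ0 hh _)
      exact pJ.add (pc.const_smul (k * (h : ℝ)))


/-- the error -/
noncomputable def SdeSt_f {N d : ℕ} (β k : ℝ) (h : ℝ≥0) (L : ℕ)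
    (B : Site d → Fin N → Fin N → ℝ≥0 → Ω → ℝ) (H : ℝ≥0 → Site d → Ω → E N) (n : ℕ) (y : Site d)
    (ω : Ω) : E N :=
  H (n * h) y ω - SdeSt_ext (rc β k h L B (H 0) n ω) y

theorem SdeSt_f_in {β k : ℝ} {h : ℝ≥0} {L n : ℕ} {y : Site d} (hy : y ∈ boxS d L) (ω : Ω) :
    SdeSt_f β k h L B H n y ω = H (n * h) y ω - rc β k h L B (H 0) n ω ⟨y, hy⟩ := by
  unfold SdeSt_f SdeSt_ext
  rw [dif_pos hy]

theorem SdeSt_f_out {β k : ℝ} {h : ℝ≥0} {L n : ℕ} {y : Site d} (hy : y ∉ boxS d L) (ω : Ω) :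
    SdeSt_f β k h L B H n y ω = H (n * h) y ω := by
  unfold SdeSt_f SdeSt_ext
  rw [dif_neg hy, sub_zero]

theorem SdeSt_fm (hβ : 1 < β) (hH : IsDynamo P k 1 β ℱ B H) (h : ℝ≥0) (L n : ℕ) (y : Site d) :
    Measurable[ℱ (n * h)] (SdeSt_f β k h L B H n y) ∧ MemLp (SdeSt_f β k h L B H n y) 2 P := by
  obtain ⟨C, _, hC⟩ := H_L2 hH (n * h)
  have p1 := (hC (n * h) le_rfl y).1
  have m1 := hH.adapted (n * h) y
  by_cases hy : y ∈ boxS d L
  · have h1 : SdeSt_f β k h L B H n y = fun ω => H (n * h) y ω -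
        rc β k h L B (H 0) n ω ⟨y, hy⟩ := funext fun ω => SdeSt_f_in hy ω
    rw [h1]
    have h2 := SdeSt_rc hβ hH h L n ⟨y, hy⟩
    exact ⟨m1.sub h2.1, p1.sub h2.2⟩
  · have h1 : SdeSt_f β k h L B H n y = H (n * h) y := funext fun ω => SdeSt_f_out hy ω
    rw [h1]
    exact ⟨m1, p1⟩

theorem SdeSt_ab {V : Type*} [AddCommGroup V] (a b c a' b' c' : V) :
    (a - a') - (c - c') + ((b - b') - (c - c')) = (a - c + (b - c)) - (a' - c' + (b' - c')) := by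
  abel

theorem SdeSt_step (hβ : 1 < β) (hH : IsDynamo P k 1 β ℱ B H) (hk : 0 ≤ k) {h : ℝ≥0}
    (h0 : 0 < h) (h1 : h ≤ 1) (L n : ℕ) {C δ : ℝ} (hC : 0 ≤ C) (hδ : 0 ≤ δ) (x : Site d)
    (hx : x ∈ boxS d L)
    (hloc : ∃ ρM ρD : Ω → E N, MemLp ρM 2 P ∧ MemLp ρD 2 P ∧
        (∀ᵐ ω ∂P, J β h (H (n * h) x ω + mulv (fun a b => B x a b (n * h + h) ω -
            B x a b (n * h) ω) (H (n * h) x ω)
            + ρM ω + ρD ω) = H (n * h + h) x ω - (k * h) • lap (fun y => H (n * h) y ω) x) ∧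
        (∀ Z : Ω → E N, Measurable[ℱ (n * h)] Z → MemLp Z 2 P →
          ∫ ω, inner ℝ (Z ω) (ρM ω) ∂P = 0) ∧
        ∫ ω, ‖ρM ω‖ ^ 2 ∂P ≤ C * h ^ 2 ∧ ∫ ω, ‖ρD ω‖ ^ 2 ∂P ≤ δ * h ^ 2) :
    ∫ ω, ‖SdeSt_f β k h L B H (n + 1) x ω‖ ^ 2 ∂P ≤
      (1 + (3 + 8 * N) * h) * ∫ ω, ‖SdeSt_f β k h L B H n x ω‖ ^ 2 ∂P + h * (8 * C * h + 4 * δ) +
      h * (8 * d * k ^ 2) * ∑ i : Fin d,
        (∫ ω, ‖SdeSt_f β k h L B H n (x + Pi.single i 1) ω‖ ^ 2 ∂P +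
          ∫ ω, ‖SdeSt_f β k h L B H n (x - Pi.single i 1) ω‖ ^ 2 ∂P +
          2 * ∫ ω, ‖SdeSt_f β k h L B H n x ω‖ ^ 2 ∂P) := by
  obtain ⟨ρM, ρD, pM, pD, hJ, hZ, hM, hD⟩ := hloc
  have hβ0 : 0 < β := by linarith
  have hh : (0 : ℝ) < h := by exact_mod_cast h0
  have hh1 : (h : ℝ) ≤ 1 := by exact_mod_cast h1
  set e : Ω → E N := SdeSt_f β k h L B H n x with he
  have hem := SdeSt_fm hβ hH h L n x
  rw [← he] at hem
  have hmul := mulv_sq hH (n * h) (n * h + h) le_self_add x e hem.1 hem.2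
  have hts : (((n * h + h : ℝ≥0) : ℝ) - ((n * h : ℝ≥0) : ℝ)) = h := by
    push_cast
    ring
  set m : Ω → E N := fun ω => mulv (fun a b => B x a b (n * h + h) ω - B x a b (n * h) ω) (e ω)
    with hm
  have hlap := SdeSt_lap (fun y => (SdeSt_fm hβ hH h L n y).2) x
  set Λ : Ω → E N := fun ω => lap (fun y => SdeSt_f β k h L B H n y ω) x with hΛ
  have hA := SdeSt_A (c := N * h) hem.2 hmul.1 pM (hmul.2.2 e hem.1 hem.2) (hZ e hem.1 hem.2)
    (by rw [hmul.2.1, hts])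
  have pA : MemLp (fun ω => e ω + m ω + ρM ω) 2 P := (hem.2.add hmul.1).add pM
  have hle : ∀ᵐ ω ∂P, ‖SdeSt_f β k h L B H (n + 1) x ω‖ ≤ ‖e ω + m ω + ρM ω‖ + ‖ρD ω‖ +
      (k * h) * ‖Λ ω‖ := by
    filter_upwards [hJ] with ω hω
    have e1 : SdeSt_f β k h L B H (n + 1) x ω = (J β h (H (n * h) x ω +
        mulv (fun a b => B x a b (n * h + h) ω - B x a b (n * h) ω) (H (n * h) x ω)
            + ρM ω + ρD ω) - J β h (rc β k h L B (H 0) n ω ⟨x, hx⟩ +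
        mulv (fun a b => B x a b (n * h + h) ω - B x a b (n * h) ω)
          (rc β k h L B (H 0) n ω ⟨x, hx⟩))) + (k * h) • Λ ω := by
      rw [SdeSt_f_in hx, SdeSt_succ, hω]
      have e2 : rc β k h L B (H 0) (n + 1) ω ⟨x, hx⟩ = J β h (rc β k h L B (H 0) n ω ⟨x, hx⟩ +
        mulv (fun a b => B x a b (n * h + h) ω - B x a b (n * h) ω)
          (rc β k h L B (H 0) n ω ⟨x, hx⟩)) +
          (k * h) • coup (boxNet d L) (rc β k h L B (H 0) n ω) ⟨x, hx⟩ := by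
        have e3 : (n : ℝ≥0) * h + h = (n + 1) * h := by ring
        rw [e3]
        rfl
      rw [e2, SdeSt_coup]
      have e4 : Λ ω = lap (fun y => H (n * h) y ω) x - lap (SdeSt_ext (rc β k h L B (H 0) n ω)) x := by
        rw [hΛ]
        unfold lap SdeSt_f
        rw [← Finset.sum_sub_distrib]
        refine Finset.sum_congr rfl fun i _ => ?_
        exact SdeSt_ab _ _ _ _ _ _
      rw [e4, smul_sub]
      abel
    rw [e1]
    have e5 := J_nonexp (N := N) hβ0 hh.le (H (n * h) x ω +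
        mulv (fun a b => B x a b (n * h + h) ω - B x a b (n * h) ω) (H (n * h) x ω)
            + ρM ω + ρD ω) (rc β k h L B (H 0) n ω ⟨x, hx⟩ +
        mulv (fun a b => B x a b (n * h + h) ω - B x a b (n * h) ω)
          (rc β k h L B (H 0) n ω ⟨x, hx⟩))
    have e6 : H (n * h) x ω = e ω + rc β k h L B (H 0) n ω ⟨x, hx⟩ := by
      rw [he, SdeSt_f_in hx]
      abel
    have e7 : H (n * h) x ω +
        mulv (fun a b => B x a b (n * h + h) ω - B x a b (n * h) ω) (H (n * h) x ω)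
            + ρM ω + ρD ω - (rc β k h L B (H 0) n ω ⟨x, hx⟩ +
        mulv (fun a b => B x a b (n * h + h) ω - B x a b (n * h) ω)
          (rc β k h L B (H 0) n ω ⟨x, hx⟩)) = (e ω + m ω + ρM ω) + ρD ω := by
      rw [hm, e6, mulv_add]
      abel
    rw [e7] at e5
    refine (norm_add_le _ _).trans (add_le_add (e5.trans (norm_add_le _ _)) (le_of_eq ?_))
    rw [norm_smul, Real.norm_eq_abs, abs_of_nonneg (mul_nonneg hk hh.le)]
  have h3 := SdeSt_sum3 (e' := SdeSt_f β k h L B H (n + 1) x) hh (mul_nonneg hk hh.le) pA pD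
    hlap.1 hle
  refine h3.trans ?_
  set q : ℝ := ∫ ω, ‖e ω‖ ^ 2 ∂P with hq
  have hq0 : 0 ≤ q := integral_nonneg fun ω => by positivity
  set S : ℝ := ∑ i : Fin d,
        (∫ ω, ‖SdeSt_f β k h L B H n (x + Pi.single i 1) ω‖ ^ 2 ∂P +
          ∫ ω, ‖SdeSt_f β k h L B H n (x - Pi.single i 1) ω‖ ^ 2 ∂P +
          2 * q) with hS
  have hN : (0 : ℝ) ≤ N := Nat.cast_nonneg N
  have t1 : (1 + (h : ℝ)) ^ 2 * ∫ ω, ‖e ω + m ω + ρM ω‖ ^ 2 ∂P ≤
      (1 + (3 + 8 * N) * h) * q + 8 * C * h ^ 2 := by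
    have s1 : ∫ ω, ‖e ω + m ω + ρM ω‖ ^ 2 ∂P ≤ (1 + 2 * (N * h)) * q + 2 * (C * h ^ 2) := by
      linarith [hA, hM]
    have s2 : (1 + (h : ℝ)) ^ 2 ≤ 1 + 3 * h := by nlinarith
    have s3 : (1 + (h : ℝ)) ^ 2 ≤ 4 := by nlinarith
    have s4 : (1 + (h : ℝ)) ^ 2 * (1 + 2 * (N * h)) ≤ 1 + (3 + 8 * N) * h := by
      have s5 : (1 + (h : ℝ)) ^ 2 * (1 + 2 * (N * h)) ≤ (1 + 3 * h) * (1 + 2 * (N * h)) :=
        mul_le_mul_of_nonneg_right s2 (by positivity)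
      have s6 : (N : ℝ) * h * h ≤ N * h := mul_le_of_le_one_right (by positivity) hh1
      nlinarith
    have s7 : (1 + (h : ℝ)) ^ 2 * ∫ ω, ‖e ω + m ω + ρM ω‖ ^ 2 ∂P ≤
        (1 + (h : ℝ)) ^ 2 * ((1 + 2 * (N * h)) * q + 2 * (C * h ^ 2)) :=
      mul_le_mul_of_nonneg_left s1 (by positivity)
    have s8 := mul_le_mul_of_nonneg_right s4 hq0
    have s9 : (1 + (h : ℝ)) ^ 2 * (2 * (C * h ^ 2)) ≤ 4 * (2 * (C * h ^ 2)) :=
      mul_le_mul_of_nonneg_right s3 (by positivity)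
    nlinarith
  have hinv : (1 + (h : ℝ)⁻¹) * (h : ℝ) ^ 2 = h ^ 2 + h := by
    field_simp
  have t2 : (1 + (h : ℝ)) * (1 + (h : ℝ)⁻¹) * ∫ ω, ‖ρD ω‖ ^ 2 ∂P ≤ 4 * δ * h := by
    have s1 : (1 + (h : ℝ)) * (1 + (h : ℝ)⁻¹) * ∫ ω, ‖ρD ω‖ ^ 2 ∂P ≤
        (1 + (h : ℝ)) * (1 + (h : ℝ)⁻¹) * (δ * h ^ 2) := mul_le_mul_of_nonneg_left hD (by positivity)
    refine s1.trans ?_
    have s2 : (1 + (h : ℝ)) * (1 + (h : ℝ)⁻¹) * (δ * h ^ 2) = (1 + h) * δ * (h ^ 2 + h) := by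
      rw [← hinv]
      ring
    rw [s2]
    have s3 : (1 + (h : ℝ)) * (h ^ 2 + h) ≤ 4 * h := by nlinarith [sq_nonneg (h : ℝ)]
    have s4 := mul_le_mul_of_nonneg_left s3 hδ
    nlinarith
  have t3 : (1 + (h : ℝ)⁻¹) * (k * h) ^ 2 * ∫ ω, ‖Λ ω‖ ^ 2 ∂P ≤ h * (8 * d * k ^ 2) * S := by
    have s1 : (1 + (h : ℝ)⁻¹) * (k * h) ^ 2 = k ^ 2 * (h ^ 2 + h) := by
      rw [← hinv]
      ring
    rw [s1]
    have s2 : 0 ≤ ∫ ω, ‖Λ ω‖ ^ 2 ∂P := integral_nonneg fun ω => by positivity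
    have s3 : k ^ 2 * ((h : ℝ) ^ 2 + h) ≤ k ^ 2 * (2 * h) :=
      mul_le_mul_of_nonneg_left (by nlinarith) (by positivity)
    calc k ^ 2 * ((h : ℝ) ^ 2 + h) * ∫ ω, ‖Λ ω‖ ^ 2 ∂P ≤ k ^ 2 * (2 * h) * ∫ ω, ‖Λ ω‖ ^ 2 ∂P :=
          mul_le_mul_of_nonneg_right s3 s2
      _ ≤ k ^ 2 * (2 * h) * (4 * d * S) := mul_le_mul_of_nonneg_left hlap.2 (by positivity)
      _ = h * (8 * d * k ^ 2) * S := by ring
  calc _ ≤ ((1 + (3 + 8 * N) * h) * q + 8 * C * h ^ 2) + 4 * δ * h + h * (8 * d * k ^ 2) * S :=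
        add_le_add (add_le_add t1 t2) t3
    _ = _ := by ring

end

theorem strong_conv {Ω : Type} [mΩ : MeasurableSpace Ω] {P : Measure Ω} {N d : ℕ} {k β : ℝ}
    {ℱ : Filtration ℝ≥0 mΩ} {B : Site d → Fin N → Fin N → ℝ≥0 → Ω → ℝ}
    {H : ℝ≥0 → Site d → Ω → E N} (hβ : 1 < β) (hk : 0 ≤ k) (hH : IsDynamo P k 1 β ℱ B H)
    (T : ℝ≥0) :
    ∃ C : ℝ, 0 < C ∧ ∀ δ : ℝ, 0 < δ → ∃ h0 : ℝ≥0, 0 < h0 ∧ ∀ h : ℝ≥0, 0 < h → h ≤ h0 →
      ∀ (L n : ℕ), n * h ≤ T → ∀ x : boxS d L,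
        MemLp (fun ω => rc β k h L B (H 0) n ω x) 2 P ∧
        (1 / 2 : ℝ) ^ l1 (x : Site d) 0 *
          ∫ ω, ‖H (n * h) x ω - rc β k h L B (H 0) n ω x‖ ^ 2 ∂P ≤
            C * (δ + k ^ 2 * (1 / 2) ^ L) := by
  obtain ⟨C, hC, hloc⟩ := local_error hβ hk hH T
  obtain ⟨CH, hCH, hHL⟩ := H_L2 hH T
  obtain ⟨Cb, hCb, hbd⟩ := box_boundary d
  set a : ℝ := 3 + 8 * N with ha
  set b : ℝ := 8 * d * k ^ 2 with hb
  have ha0 : 0 ≤ a := by positivity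
  have hb0 : 0 ≤ b := by positivity
  set K : ℝ := Real.exp ((a + 6 * d * b) * T) with hK
  have hK0 : 0 < K := Real.exp_pos _
  refine ⟨T * (5 * 3 ^ d + 16 * d ^ 2 * CH * Cb) * K + 1, by positivity, fun δ hδ => ?_⟩
  obtain ⟨h1, h1p, hl⟩ := hloc δ hδ
  refine ⟨min h1 (min 1 (Real.toNNReal (δ / (8 * C)))), ?_, fun h hh hle L n hn x => ?_⟩
  · refine lt_min h1p (lt_min one_pos ?_)
    rw [Real.toNNReal_pos]
    positivity
  have hle1 : h ≤ h1 := hle.trans (min_le_left _ _)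
  have hle2 : h ≤ 1 := hle.trans ((min_le_right _ _).trans (min_le_left _ _))
  have hle3 : (h : ℝ) ≤ δ / (8 * C) := by
    have h3 : h ≤ Real.toNNReal (δ / (8 * C)) := hle.trans ((min_le_right _ _).trans (min_le_right _ _))
    have h4 : (h : ℝ) ≤ (Real.toNNReal (δ / (8 * C)) : ℝ) := by exact_mod_cast h3
    rwa [Real.coe_toNNReal _ (by positivity)] at h4
  have hle4 : 8 * C * h ≤ δ := by
    rw [le_div_iff₀ (by positivity)] at hle3
    linarith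
  refine ⟨(SdeSt_rc hβ hH h L n x).2, ?_⟩
  have hhr : (0 : ℝ) < h := by exact_mod_cast hh
  have hnT : ∀ j ≤ n, (j : ℝ≥0) * h ≤ T := fun j hj =>
    le_trans (mul_le_mul_of_nonneg_right (by exact_mod_cast hj) h.2) hn
  have hg := SdeSt_gron (L := L) ha0 hb0 hCH.le (show 0 ≤ 8 * C * (h : ℝ) + 4 * δ by positivity)
    hhr.le (hbd L) (fun j y => ∫ ω, ‖SdeSt_f β k h L B H j y ω‖ ^ 2 ∂P)
    (fun j y => integral_nonneg fun ω => by positivity)
    (fun y hy => by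
      have h5 : ∀ ω, SdeSt_f β k h L B H 0 y ω = 0 := by
        intro ω
        rw [SdeSt_f_in hy, Nat.cast_zero, zero_mul]
        exact sub_self _
      simp only [h5]
      simp)
    n
    (fun j hj y hy => by
      have h6 : ∀ ω, SdeSt_f β k h L B H j y ω = H (j * h) y ω := fun ω => SdeSt_f_out hy ω
      simp only [h6]
      exact (hHL _ (hnT j hj) y).2)
    (fun j hj y hy => by
      refine SdeSt_step hβ hH hk hh hle2 L j hC.le hδ.le y hy (hl h hh hle1 _ ?_ y)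
      rw [← SdeSt_succ]
      exact hnT (j + 1) hj)
    n le_rfl
  have h7 : (1 / 2 : ℝ) ^ l1 (x : Site d) 0 *
          ∫ ω, ‖H (n * h) x ω - rc β k h L B (H 0) n ω x‖ ^ 2 ∂P ≤
      ∑ y ∈ boxS d L, (1 / 2 : ℝ) ^ l1 y 0 * ∫ ω, ‖SdeSt_f β k h L B H n y ω‖ ^ 2 ∂P := by
    have h8 := Finset.single_le_sum (f := fun y => (1 / 2 : ℝ) ^ l1 y 0 *
      ∫ ω, ‖SdeSt_f β k h L B H n y ω‖ ^ 2 ∂P)
      (fun y _ => mul_nonneg (by positivity) (integral_nonneg fun ω => by positivity)) x.2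
    refine le_trans (le_of_eq ?_) h8
    simp only [SdeSt_f_in x.2]
  refine h7.trans (hg.trans ?_)
  have hnr : (n : ℝ) * h ≤ T := by exact_mod_cast hn
  have h9 : (1 + (a + 6 * d * b) * h) ^ n ≤ K := by
    have h10 : 1 + (a + 6 * d * b) * h ≤ Real.exp ((a + 6 * d * b) * h) := by
      have := Real.add_one_le_exp ((a + 6 * d * b) * (h : ℝ))
      linarith
    have h11 : (1 + (a + 6 * d * b) * h) ^ n ≤ Real.exp ((a + 6 * d * b) * h) ^ n :=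
      pow_le_pow_left₀ (by positivity) h10 n
    refine h11.trans ?_
    rw [← Real.exp_nat_mul, hK]
    refine Real.exp_le_exp.2 ?_
    have h12 := mul_le_mul_of_nonneg_left hnr (show 0 ≤ a + 6 * d * b by positivity)
    nlinarith
  set S : ℝ := (8 * C * h + 4 * δ) * 3 ^ d + 2 * d * b * CH * (Cb * (1 / 2) ^ L) with hS
  have hS0 : 0 ≤ S := by positivity
  have hS1 : S ≤ (5 * 3 ^ d + 16 * d ^ 2 * CH * Cb) * (δ + k ^ 2 * (1 / 2) ^ L) := by
    have u1 : (8 * C * h + 4 * δ) * 3 ^ d ≤ 5 * 3 ^ d * δ := by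
      have := mul_le_mul_of_nonneg_right (show 8 * C * (h : ℝ) + 4 * δ ≤ 5 * δ by linarith)
        (show (0 : ℝ) ≤ 3 ^ d by positivity)
      linarith
    have u2 : 2 * d * b * CH * (Cb * (1 / 2) ^ L) = 16 * d ^ 2 * CH * Cb * (k ^ 2 * (1 / 2) ^ L) := by
      rw [hb]
      ring
    have u3 : (0 : ℝ) ≤ 5 * 3 ^ d * (k ^ 2 * (1 / 2) ^ L) := by positivity
    have u4 : (0 : ℝ) ≤ 16 * d ^ 2 * CH * Cb * δ := by positivity
    rw [hS, u2]
    linarith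
  have h13 : (n : ℝ) * h * S * (1 + (a + 6 * d * b) * h) ^ n ≤ T * S * K := by
    have v1 : (n : ℝ) * h * S ≤ T * S := mul_le_mul_of_nonneg_right hnr hS0
    exact mul_le_mul v1 h9 (by positivity) (by positivity)
  refine h13.trans ?_
  have h14 : T * S * K ≤ T * ((5 * 3 ^ d + 16 * d ^ 2 * CH * Cb) * (δ + k ^ 2 * (1 / 2) ^ L)) * K :=
    mul_le_mul_of_nonneg_right (mul_le_mul_of_nonneg_left hS1 T.2) hK0.le
  refine h14.trans ?_
  have h15 : (0 : ℝ) ≤ δ + k ^ 2 * (1 / 2) ^ L := by positivity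
  nlinarith

end Dyn
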