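import Mathlib

/-!
# KEXT: Kolmogorov's extension theorem

PROOF. Content: `projectiveFamilyContent hP` on `measurableCylinders α` (a set ring). σ-additivity: `addContent_iUnion_eq_sum_of_tendsto_zero`
and `isSigmaSubadditive_of_addContent_iUnion_eq_tsum` reduce it to: `s n` measurable cylinders, antitone, `⋂ s n = ∅` imply
`content (s n) → 0`. Suppose `content (s n) ≥ ε > 0` for all `n`. `s n = cylinder (J n) (S n)`, by inner regularity of the finite Borel
measure `P (J n)` on the Polish space `Π_{j ∈ J n} α j` (`MeasurableSet.exists_isCompact_…`, `Measure.InnerRegular`/`isTight…`) choose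
compact `K n ⊆ S n` with `P (J n)(S n \ K n) ≤ ε 2^{-n-2}`. The sets `t n = cylinder (J n) (K n) ⊆ s n` are closed compact cylinders,
`content(s n \ ⋂_{i≤n} t i) ≤ Σ ε2^{-i-2} ≤ ε/2` so `⋂_{i≤n} t i ≠ ∅` for all `n`; closed compact cylinders form a compact system
(`Topology/Compactness/CompactSystem.lean`, `ClosedCompactCylinders.lean`: if it is not there, prove: choose `x_n ∈ ⋂_{i≤n} t i`; the
coordinates in `⋃J i` (countable) of a suitable diagonal subsequence/ultrafilter limit converge; or use Tychonoff for the compact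
projections `K'_j ⊆ α j`, `j ∈ ⋃ J i`, and a constant outside), so `⋂ t n ≠ ∅`, contradicting `⋂ s n = ∅`.
Extension: `AddContent.measure` (`OfAddContent.lean`) with `generateFrom_measurableCylinders`; the value on cylinders gives
`IsProjectiveLimit`. The model is the proof for product measures in `Mathlib/Probability/ProductMeasure.lean`
(`isSigmaSubadditive_piContent` and the definition of the measure after it).
-/

open MeasureTheory ProbabilityTheory Filter
open scoped NNReal ENNReal Topology

namespace Dyn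

private theorem KExt_tendsto_zero {ι : Type} {α : ι → Type} [∀ i, MeasurableSpace (α i)]
    [∀ i, TopologicalSpace (α i)] [∀ i, PolishSpace (α i)] [∀ i, BorelSpace (α i)]
    (P : ∀ J : Finset ι, Measure (∀ j : J, α j)) [∀ J, IsProbabilityMeasure (P J)]
    (hP : IsProjectiveMeasureFamily P) {A : ℕ → Set (∀ i, α i)}
    (A_mem : ∀ n, A n ∈ measurableCylinders α)
    (A_anti : Antitone A) (A_inter : ⋂ n, A n = ∅) :
    Tendsto (fun n => projectiveFamilyContent hP (A n)) atTop (𝓝 0) := by
  classical
  have hanti : Antitone (fun n => projectiveFamilyContent hP (A n)) := fun m n hmn =>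
    projectiveFamilyContent_mono hP (A_mem n) (A_mem m) (A_anti hmn)
  by_contra hcon
  have hε : ∃ ε : ℝ≥0∞, 0 < ε ∧ ∀ n, ε ≤ projectiveFamilyContent hP (A n) := by
    by_contra hno
    push Not at hno
    apply hcon
    rw [ENNReal.tendsto_nhds_zero]
    intro ε hε
    obtain ⟨n, hn⟩ := hno ε hε
    exact eventually_atTop.2 ⟨n, fun m hm => (hanti hm).trans hn.le⟩
  obtain ⟨ε, hε0, hεA⟩ := hε
  have hεtop : ε ≠ ∞ := fun h => by
    have h1 := hεA 0
    rw [h, top_le_iff] at h1
    exact projectiveFamilyContent_ne_top hP h1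
  have A_cyl : ∀ n, ∃ s S, MeasurableSet S ∧ A n = cylinder s S :=
    fun n => (mem_measurableCylinders _).1 (A_mem n)
  choose J S mS A_eq using A_cyl
  have hδ : ∀ n : ℕ, ε / 2 / 2 ^ (n + 1) ≠ 0 := by
    intro n
    simp only [ne_eq, ENNReal.div_eq_zero_iff, not_or]
    exact ⟨⟨hε0.ne', by norm_num⟩, by simp⟩
  have hK : ∀ n, ∃ K, K ⊆ S n ∧ IsCompact K ∧ IsClosed K ∧
      P (J n) (S n \ K) < ε / 2 / 2 ^ (n + 1) := fun n =>
    (mS n).exists_isCompact_isClosed_sdiff_lt (measure_ne_top _ _) (hδ n)
  choose K hKS hKc hKcl hKlt using hK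
  -- finite intersections are nonempty
  have hne : ∀ n : ℕ, ∃ x : ∀ i, α i, ∀ i ≤ n, (J i).restrict x ∈ K i := by
    intro n
    by_contra hno
    push Not at hno
    have hcyl : ∀ i, cylinder (J i) (S i \ K i) ∈ measurableCylinders α := fun i =>
      cylinder_mem_measurableCylinders _ _ ((mS i).diff (hKcl i).measurableSet)
    have hsub : A n ⊆ ⋃ i ≤ n, cylinder (J i) (S i \ K i) := by
      intro x hx
      obtain ⟨i, hi, hxi⟩ := hno x
      have hxA : x ∈ A i := A_anti hi hx
      rw [A_eq i, mem_cylinder] at hxA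
      exact Set.mem_biUnion (show i ∈ {j | j ≤ n} from hi) ((mem_cylinder _ _ _).2 ⟨hxA, hxi⟩)
    have hU : (⋃ i ≤ n, cylinder (J i) (S i \ K i)) ∈ measurableCylinders α := by
      have h1 : (⋃ i ≤ n, cylinder (J i) (S i \ K i)) =
          ⋃ i ∈ Finset.range (n + 1), cylinder (J i) (S i \ K i) := by
        simp only [Finset.mem_range_succ_iff]
      rw [h1]
      exact isSetRing_measurableCylinders.biUnion_mem _ (fun i _ => hcyl i)
    have h1 : ε ≤ ∑ i ∈ Finset.range (n + 1), P (J i) (S i \ K i) := by
      calc ε ≤ projectiveFamilyContent hP (A n) := hεA n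
        _ ≤ projectiveFamilyContent hP (⋃ i ≤ n, cylinder (J i) (S i \ K i)) :=
            projectiveFamilyContent_mono hP (A_mem n) hU hsub
        _ ≤ ∑ i ∈ Finset.range (n + 1), projectiveFamilyContent hP (cylinder (J i) (S i \ K i)) :=
            projectiveFamilyContent_iUnion_le hP hcyl n
        _ = ∑ i ∈ Finset.range (n + 1), P (J i) (S i \ K i) :=
            Finset.sum_congr rfl (fun i _ => projectiveFamilyContent_cylinder hP
              ((mS i).diff (hKcl i).measurableSet))
    have h2 : ∑ i ∈ Finset.range (n + 1), P (J i) (S i \ K i) ≤ ε / 2 := by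
      calc ∑ i ∈ Finset.range (n + 1), P (J i) (S i \ K i)
          ≤ ∑ i ∈ Finset.range (n + 1), ε / 2 / 2 ^ (i + 1) :=
            Finset.sum_le_sum (fun i _ => (hKlt i).le)
        _ ≤ ∑' i : ℕ, ε / 2 / 2 ^ (i + 1) := ENNReal.sum_le_tsum _
        _ = ε / 2 * ∑' i : ℕ, (2 ^ (i + 1))⁻¹ := by
            simp only [ENNReal.div_eq_inv_mul (b := (2 : ℝ≥0∞) ^ _)]
            rw [ENNReal.tsum_mul_right, mul_comm]
        _ = ε / 2 := by
            have h5 : ∑' i : ℕ, ((2 : ℝ≥0∞) ^ (i + 1))⁻¹ = 1 := by
              simp only [ENNReal.inv_pow]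
              rw [ENNReal.tsum_geometric_add_one, ENNReal.one_sub_inv_two, inv_inv]
              exact ENNReal.inv_mul_cancel (by norm_num) (by norm_num)
            rw [h5, mul_one]
    have h3 : ε / 2 < ε := ENNReal.half_lt_self hε0.ne' hεtop
    exact absurd (h1.trans h2) (not_le.2 h3)
  choose x hx using hne
  have hyi : ∀ i, ∃ y ∈ K i, Tendsto (fun n => (J i).restrict (x n))
      (hyperfilter ℕ : Filter ℕ) (𝓝 y) := by
    intro i
    have h1 := isCompact_iff_ultrafilter_le_nhds.1 (hKc i)
      ((hyperfilter ℕ).map (fun n => (J i).restrict (x n))) (by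
        rw [Filter.le_principal_iff, Ultrafilter.mem_coe, Ultrafilter.mem_map, ← Ultrafilter.mem_coe]
        exact Nat.hyperfilter_le_atTop (Filter.mem_atTop_sets.2 ⟨i, fun n hn => hx n i hn⟩))
    obtain ⟨y, hy1, hy2⟩ := h1
    exact ⟨y, hy1, hy2⟩
  choose y hyK hyt using hyi
  have hnon : ∀ i, Nonempty (α i) := fun i => ⟨x 0 i⟩
  let z : ∀ i, α i := fun j => @limUnder _ _ _ (hnon j) (hyperfilter ℕ : Filter ℕ) (fun n => x n j)
  have hz : ∀ i, (J i).restrict z = y i := by
    intro i
    funext j
    have h1 : Tendsto (fun n => x n j) (hyperfilter ℕ : Filter ℕ) (𝓝 (y i j)) :=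
      ((continuous_apply j).tendsto (y i)).comp (hyt i)
    exact h1.limUnder_eq
  have hzA : z ∈ ⋂ n, A n := by
    rw [Set.mem_iInter]
    intro n
    rw [A_eq n, mem_cylinder, hz n]
    exact hKS n (hyK n)
  rw [A_inter] at hzA
  exact hzA

theorem kolm_ext {ι : Type} {α : ι → Type} [∀ i, MeasurableSpace (α i)]
    [∀ i, TopologicalSpace (α i)] [∀ i, PolishSpace (α i)] [∀ i, BorelSpace (α i)]
    (P : ∀ J : Finset ι, Measure (∀ j : J, α j)) [∀ J, IsProbabilityMeasure (P J)]
    (hP : IsProjectiveMeasureFamily P) :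
    ∃ μ : Measure (∀ i, α i), IsProbabilityMeasure μ ∧ IsProjectiveLimit μ P := by
  have hσ : (projectiveFamilyContent hP).IsSigmaSubadditive := by
    refine isSigmaSubadditive_of_addContent_iUnion_eq_tsum
      isSetRing_measurableCylinders (fun f hf hf_Union hf' => ?_)
    exact addContent_iUnion_eq_sum_of_tendsto_zero isSetRing_measurableCylinders
      (projectiveFamilyContent hP) (fun s hs => projectiveFamilyContent_ne_top hP)
      (fun _ => KExt_tendsto_zero P hP) hf hf_Union hf'
  have hlim : IsProjectiveLimit ((projectiveFamilyContent hP).measure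
      isSetSemiring_measurableCylinders generateFrom_measurableCylinders.ge hσ) P := by
    intro I
    ext s hs
    rw [Measure.map_apply (Finset.measurable_restrict I) hs, AddContent.measure_eq,
      ← cylinder, projectiveFamilyContent_cylinder hP hs]
    · exact generateFrom_measurableCylinders.symm
    · exact cylinder_mem_measurableCylinders _ _ hs
  exact ⟨_, hlim.isProbabilityMeasure, hlim⟩

end Dyn
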