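import Pool.Agent.Lib_MP_36b788.SDefs

/-!
# Definitions for the drift of `log S`
`A` large, `r1 = 1/A`, `Cu` the constant `C0 (1+log A)` of CTIL.
Zones of a site of size `r`: low `r < 1/(2A)`, weak `r ≤ 6/A`, strong `6/A < r`.
-/

open MeasureTheory

namespace Dyn

noncomputable section

variable {N d : ℕ} {ι : Type} [Fintype ι]

/-- lower bound of the radial noise of the corrector -/
def bbf (β δ r : ℝ) : ℝ := δ * (β - 1) * r * (1 + r) ^ (-β)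

/-- lower bound for the contribution of the neighbour `w` to the noise of `Y_z` -/
def nz (net : Net ι d) (β δ Cu k A : ℝ) (y : ℝ → ℝ) (G : ι → E N) (z w : ι) : ℝ :=
  if 6 / A < ‖G w‖ then
    1 / 2 * (bbf β δ ‖G w‖ ^ 2 +
      (inner ℝ (uni (Yv net k (1 / A) y G z)) (ctil (1 / A) y (G w))) ^ 2)
  else - (Cu ^ 2 * ‖G w‖ ^ 2)

/-- size of the noise at `z` -/
def sig (net : Net ι d) (k : ℝ) (G : ι → E N) (z : ι) : ℝ :=
  ‖G z‖ + k * ∑ w ∈ net.nb z, min ‖G w‖ 1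

/-- `1` if some neighbour of `z` is not low -/
def act (net : Net ι d) (A : ℝ) (G : ι → E N) (z : ι) : ℝ :=
  open Classical in if ∃ w ∈ net.nb z, 1 / (2 * A) ≤ ‖G w‖ then 1 else 0

/-- the drift part of `2⟪Y,ΔY⟫ + q(ΔY)` at `z` -/
def GG1 (net : Net ι d) (β δ Cu CL k A : ℝ) (y : ℝ → ℝ) (G U : ι → E N) (z : ι) : ℝ :=
  (N - 2) * ‖G z‖ ^ 2 - 2 * ‖G z‖ ^ β * inner ℝ (Yv net k (1 / A) y G z) (G z)
    - 4 * d * k * inner ℝ (Yv net k (1 / A) y G z) (G z)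
    + 2 * k * ∑ w ∈ net.nb z, inner ℝ (Yv net k (1 / A) y G z) (U w)
    - CL * k ^ 2 * ‖Yv net k (1 / A) y G z‖ *
        ∑ w ∈ net.nb z, (if 1 / (2 * A) ≤ ‖G w‖ then ‖coup net G w‖ else 0)
    + k ^ 2 * ∑ w ∈ net.nb z, nz net β δ Cu k A y G z w

end

end Dyn
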