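import Pool.Agent.Lib_MP_36b788.LSHyp

/-! # full drift term at a site -/

open MeasureTheory

namespace Dyn

noncomputable section

/-- full drift term at `z` -/
def GGt {N d : ℕ} {ι : Type} [Fintype ι] (net : Net ι d) (β δ Cu k A θ : ℝ) (y : ℝ → ℝ)
    (G U : ι → E N) (lam eta : ι → ℝ) (z : ι) : ℝ :=
  GG1 net β δ Cu (2 * Cu) k A y G U z + ‖Yv net k (1 / A) y G z‖ ^ 2 * (lam z - θ * eta z)

end

end Dyn
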