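import Pool.Agent.Lib_MP_36b788.LSC
import Pool.Agent.Lib_MP_36b788.LSGt

/-!
# LSLO: pointwise lower bound for the drift term at a low site
-/

open MeasureTheory

namespace Dyn

theorem LSLo_cauchy {r t n S : ℝ} (hn : 0 ≤ n) (hS : 0 ≤ S) (h : t ^ 2 ≤ n * S) :
    (r + t) ^ 2 ≤ (1 + n) * (r ^ 2 + S) := by
  have h1 : (2 * (r * t)) ^ 2 ≤ (n * r ^ 2 + S) ^ 2 := by
    have h2 : r ^ 2 * t ^ 2 ≤ r ^ 2 * (n * S) := mul_le_mul_of_nonneg_left h (sq_nonneg r)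
    nlinarith [sq_nonneg (n * r ^ 2 - S)]
  have h3 : 2 * (r * t) ≤ n * r ^ 2 + S := (abs_le_of_sq_le_sq' h1 (by positivity)).2
  nlinarith

theorem LSLo_a {n2 r q s k D e p rb lam CM cp R dd : ℝ} (hn2 : 0 ≤ n2) (hr : 0 ≤ r)
    (hq : 0 ≤ q) (hs : 0 ≤ s) (hs1 : s ≤ 1) (hsr : s ≤ r) (hk : k = s * s) (hD : 0 ≤ D)
    (hDs : D * s ≤ 1 / 8) (he0 : 0 ≤ e) (he : e ≤ D * k) (h1 : r ≤ q + e) (h2 : q ≤ r + e)
    (hp : p ≤ q ^ 2 + q * e) (hrb0 : 0 ≤ rb) (hrb1 : rb ≤ 1) (hR : 1 ≤ R) (hCM : 0 ≤ CM)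
    (hdd : 0 ≤ dd) (hcp : cp ≤ 6 * dd * R)
    (hlam : 1 / 24 - n2 + 2 * rb - CM * k * cp ≤ lam) :
    1 / 72 * (r ^ 2 + q ^ 2) - (3 * n2 * D + 4 * D + 6 * dd * CM) * s * R * q ^ 2 ≤
      n2 * r ^ 2 - 2 * rb * p + q ^ 2 * lam := by
  have hk0 : 0 ≤ k := by rw [hk]; positivity
  have hks : k ≤ s := by rw [hk]; exact mul_le_of_le_one_right hs hs1
  have he1 : e ≤ D * s * r := by
    refine he.trans ?_
    rw [hk, ← mul_assoc]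
    exact mul_le_mul_of_nonneg_left hsr (by positivity)
  have he2 : e ≤ r / 8 := he1.trans (by have := mul_le_mul_of_nonneg_right hDs hr; linarith)
  have hrq : r ≤ 8 / 7 * q := by linarith
  have he3 : e ≤ 8 / 7 * (D * s) * q := by
    refine he1.trans ?_
    have := mul_le_mul_of_nonneg_left hrq (show 0 ≤ D * s by positivity)
    linarith
  have hDs0 : 0 ≤ D * s := by positivity
  have hq2 : 0 ≤ q ^ 2 := sq_nonneg q
  have B0 : 0 ≤ D * s * q ^ 2 := by positivity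
  have A1 : -(3 * (D * s) * q ^ 2) ≤ r ^ 2 - q ^ 2 := by
    have h3 : e * (r + q) ≤ (8 / 7 * (D * s) * q) * (15 / 7 * q) :=
      mul_le_mul he3 (by linarith) (by linarith) (by positivity)
    have h4 : -(e * (r + q)) ≤ (r - q) * (r + q) := by
      have : -e ≤ r - q := by linarith
      have h5 := mul_le_mul_of_nonneg_right this (show 0 ≤ r + q by linarith)
      linarith
    linarith
  have A2 : -(4 * (D * s) * q ^ 2) ≤ 2 * rb * (q ^ 2 - p) := by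
    have h3 : q * e ≤ q * (8 / 7 * (D * s) * q) := mul_le_mul_of_nonneg_left he3 hq
    have h4 : -(8 / 7 * (D * s) * q ^ 2) ≤ q ^ 2 - p := by linarith
    have h5 : 2 * rb * (8 / 7 * (D * s) * q ^ 2) ≤ 2 * 1 * (8 / 7 * (D * s) * q ^ 2) := by
      refine mul_le_mul_of_nonneg_right (by linarith) (by positivity)
    have h6 : 2 * rb * (-(8 / 7 * (D * s) * q ^ 2)) ≤ 2 * rb * (q ^ 2 - p) :=
      mul_le_mul_of_nonneg_left h4 (by positivity)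
    linarith
  have A3 : q ^ 2 * (1 / 24 - n2 + 2 * rb) - 6 * dd * CM * s * R * q ^ 2 ≤ q ^ 2 * lam := by
    have h3 : CM * k * cp ≤ CM * s * (6 * dd * R) := by
      calc CM * k * cp ≤ CM * k * (6 * dd * R) := mul_le_mul_of_nonneg_left hcp (by positivity)
        _ ≤ CM * s * (6 * dd * R) := by
          refine mul_le_mul_of_nonneg_right ?_ (by positivity)
          exact mul_le_mul_of_nonneg_left hks hCM
    have h4 : q ^ 2 * (1 / 24 - n2 + 2 * rb - CM * s * (6 * dd * R)) ≤ q ^ 2 * lam :=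
      mul_le_mul_of_nonneg_left (by linarith) hq2
    linarith
  have A4 : 1 / 72 * (r ^ 2 + q ^ 2) ≤ 1 / 24 * q ^ 2 := by
    have h3 : r ^ 2 ≤ (8 / 7 * q) ^ 2 := pow_le_pow_left₀ hr hrq 2
    linarith
  have A5 : n2 * (-(3 * (D * s) * q ^ 2)) ≤ n2 * (r ^ 2 - q ^ 2) :=
    mul_le_mul_of_nonneg_left A1 hn2
  have A6 : (3 * n2 * D + 4 * D) * s * q ^ 2 ≤ (3 * n2 * D + 4 * D) * s * R * q ^ 2 := by
    have h3 : 0 ≤ (3 * n2 * D + 4 * D) * s * q ^ 2 := by positivity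
    have h4 := mul_le_mul_of_nonneg_left hR h3
    linarith
  linarith

theorem LSLo_b {n2 r q s k D p rb lam CM cp R dd a SI SW Cu2 : ℝ} (hn2 : 1 ≤ n2) (hr : 0 ≤ r)
    (hq : 0 ≤ q) (hs : 0 ≤ s) (hs1 : s ≤ 1) (hrs : r ≤ s) (hk : k = s * s) (ha : 0 ≤ a)
    (hr2 : r ^ 2 ≤ 2 * q ^ 2 + 2 * D ^ 2 * (k ^ 2 * a)) (hp : p ≤ q * r) (hrb0 : 0 ≤ rb)
    (hrbs : rb ≤ s) (hR : 1 ≤ R) (hCM : 0 ≤ CM) (hdd : 0 ≤ dd) (hcp : cp ≤ 6 * dd * R)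
    (hlam : -(CM * r) - CM * k * cp ≤ lam) (hSI : 0 ≤ SI) (hSW : 0 ≤ Cu2 * SW)
    (hcs : q ^ 2 ≤ (1 + 2 * dd) * (r ^ 2 + k ^ 2 * SI + k ^ 2 * (Cu2 * SW))) :
    1 / (72 * (1 + 2 * dd)) * (r ^ 2 + q ^ 2) - k ^ 2 * (Cu2 * SW) -
      ((3 + 2 * D ^ 2) + (6 * dd + 1) * CM) * s * R * (q ^ 2 + k ^ 2 * a) ≤
      n2 * r ^ 2 - 2 * rb * p + q ^ 2 * lam + 1 / 2 * k ^ 2 * SI := by
  have hk0 : 0 ≤ k := by rw [hk]; positivity
  have hks : k ≤ s := by rw [hk]; exact mul_le_of_le_one_right hs hs1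
  have hq2 : 0 ≤ q ^ 2 := sq_nonneg q
  have hka : 0 ≤ k ^ 2 * a := by positivity
  have hX : 0 ≤ q ^ 2 + k ^ 2 * a := by positivity
  have A1 : 2 * rb * p ≤ (3 + 2 * D ^ 2) * s * (q ^ 2 + k ^ 2 * a) := by
    have h1 : 2 * rb * p ≤ 2 * rb * (q * r) := mul_le_mul_of_nonneg_left hp (by positivity)
    have h2 : 2 * rb * (q * r) ≤ rb * (q ^ 2 + r ^ 2) := by
      have := mul_le_mul_of_nonneg_left (show 2 * (q * r) ≤ q ^ 2 + r ^ 2 by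
        have h9 := sq_nonneg (q - r)
        linarith) hrb0
      linarith
    have h3 : rb * (q ^ 2 + r ^ 2) ≤ s * (q ^ 2 + r ^ 2) :=
      mul_le_mul_of_nonneg_right hrbs (by positivity)
    have h4 : s * (q ^ 2 + r ^ 2) ≤ s * ((3 + 2 * D ^ 2) * (q ^ 2 + k ^ 2 * a)) := by
      refine mul_le_mul_of_nonneg_left ?_ hs
      have h9 := mul_nonneg (sq_nonneg D) hq2
      linarith
    linarith
  have A2 : -((6 * dd + 1) * CM * s * R * q ^ 2) ≤ q ^ 2 * lam := by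
    have h1 : CM * r ≤ CM * s * R := by
      calc CM * r ≤ CM * s := mul_le_mul_of_nonneg_left hrs hCM
        _ ≤ CM * s * R := le_mul_of_one_le_right (by positivity) hR
    have h2 : CM * k * cp ≤ CM * s * (6 * dd * R) := by
      calc CM * k * cp ≤ CM * k * (6 * dd * R) := mul_le_mul_of_nonneg_left hcp (by positivity)
        _ ≤ CM * s * (6 * dd * R) := by
          refine mul_le_mul_of_nonneg_right ?_ (by positivity)
          exact mul_le_mul_of_nonneg_left hks hCM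
    have h3 : q ^ 2 * (-(CM * s * R) - CM * s * (6 * dd * R)) ≤ q ^ 2 * lam :=
      mul_le_mul_of_nonneg_left (by linarith) hq2
    linarith
  have A3 : (6 * dd + 1) * CM * s * R * q ^ 2 ≤
      (6 * dd + 1) * CM * s * R * (q ^ 2 + k ^ 2 * a) :=
    mul_le_mul_of_nonneg_left (by linarith) (by positivity)
  have A4 : (3 + 2 * D ^ 2) * s * (q ^ 2 + k ^ 2 * a) ≤
      (3 + 2 * D ^ 2) * s * R * (q ^ 2 + k ^ 2 * a) := by
    refine mul_le_mul_of_nonneg_right ?_ hX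
    exact le_mul_of_one_le_right (by positivity) hR
  have hd : 0 < 1 + 2 * dd := by linarith
  have A5 : q ^ 2 / (1 + 2 * dd) ≤ r ^ 2 + k ^ 2 * SI + k ^ 2 * (Cu2 * SW) := by
    rw [div_le_iff₀ hd]
    linarith
  have A6 : 1 / (72 * (1 + 2 * dd)) * (r ^ 2 + q ^ 2) ≤
      1 / 2 * r ^ 2 + 1 / 2 * (q ^ 2 / (1 + 2 * dd)) := by
    have h1 : 1 / (72 * (1 + 2 * dd)) ≤ 1 / 72 := by
      apply one_div_le_one_div_of_le (by norm_num)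
      linarith
    have h2 : 1 / (72 * (1 + 2 * dd)) * r ^ 2 ≤ 1 / 72 * r ^ 2 :=
      mul_le_mul_of_nonneg_right h1 (sq_nonneg r)
    have h3 : 1 / (72 * (1 + 2 * dd)) * q ^ 2 = 1 / 72 * (q ^ 2 / (1 + 2 * dd)) := by
      field_simp
    have h4 : 0 ≤ q ^ 2 / (1 + 2 * dd) := by positivity
    have h5 : 0 ≤ r ^ 2 := sq_nonneg r
    rw [mul_add, h3]
    linarith
  have A7 : r ^ 2 ≤ n2 * r ^ 2 := le_mul_of_one_le_left (sq_nonneg r) hn2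
  have A8 : 0 ≤ k ^ 2 * (Cu2 * SW) := by positivity
  have e1 : ((3 + 2 * D ^ 2) + (6 * dd + 1) * CM) * s * R * (q ^ 2 + k ^ 2 * a) =
      (3 + 2 * D ^ 2) * s * R * (q ^ 2 + k ^ 2 * a) +
        (6 * dd + 1) * CM * s * R * (q ^ 2 + k ^ 2 * a) := by ring
  rw [e1]
  linarith

theorem LSLo_uni {N : ℕ} (v : E N) : ‖uni v‖ ≤ 1 ∧ inner ℝ (uni v) v = ‖v‖ := by
  unfold uni
  rcases eq_or_ne v 0 with rfl | hv
  · simp
  · have h0 : 0 < ‖v‖ := norm_pos_iff.2 hv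
    constructor
    · rw [norm_smul, Real.norm_eq_abs, abs_of_pos (by positivity), one_div,
        inv_mul_cancel₀ h0.ne']
    · rw [real_inner_smul_left, real_inner_self_eq_norm_sq]
      field_simp

section
variable {N d : ℕ} {ι : Type} [Fintype ι] {net : Net ι d}
  {β Cy Cu k A Rc θ : ℝ} {y : ℝ → ℝ} {G : ι → E N}

theorem LSLo_U (hA : 0 < A) (hk : 0 ≤ k) (hCu : 0 ≤ Cu) (Y : E N) (U : ι → E N)
    (hU : ∀ w, ‖U w‖ ≤ if ‖G w‖ ≤ 6 / A then Cu * ‖G w‖ else 0) (z : ι) :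
    -(2 * d * Cu / A * ‖Y‖ ^ 2) - Cu / A * ((A * k) ^ 2 *
      ∑ w ∈ net.nb z, (if ‖G w‖ ≤ 6 / A then ‖G w‖ ^ 2 else 0)) ≤
      2 * k * ∑ w ∈ net.nb z, inner ℝ Y (U w) := by
  obtain ⟨c, hc⟩ : ∃ c, c = Cu / A := ⟨_, rfl⟩
  have hcA : c * A = Cu := by rw [hc]; field_simp
  have hc0 : 0 ≤ c := by rw [hc]; positivity
  have h1 : ∀ w ∈ net.nb z, -(c * ‖Y‖ ^ 2) - c * ((A * k) ^ 2 *
      (if ‖G w‖ ≤ 6 / A then ‖G w‖ ^ 2 else 0)) ≤ 2 * k * inner ℝ Y (U w) := by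
    intro w _
    have h2 := hU w
    have h3 : -(‖Y‖ * ‖U w‖) ≤ inner ℝ Y (U w) := neg_le_of_abs_le (abs_real_inner_le_norm Y (U w))
    by_cases hw : ‖G w‖ ≤ 6 / A
    · rw [if_pos hw] at h2 ⊢
      have h4 : ‖Y‖ * ‖U w‖ ≤ ‖Y‖ * (Cu * ‖G w‖) := mul_le_mul_of_nonneg_left h2 (norm_nonneg _)
      have h5 : 2 * k * (-(‖Y‖ * (Cu * ‖G w‖))) ≤ 2 * k * inner ℝ Y (U w) :=
        mul_le_mul_of_nonneg_left (by linarith) (by positivity)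
      have h6 : 0 ≤ c * (‖Y‖ - A * k * ‖G w‖) ^ 2 := by positivity
      rw [← hcA] at h5
      linarith
    · rw [if_neg hw] at h2 ⊢
      have h4 : ‖U w‖ = 0 := le_antisymm h2 (norm_nonneg _)
      rw [norm_eq_zero.1 h4, inner_zero_right]
      simp only [mul_zero, sub_zero]
      have : 0 ≤ c * ‖Y‖ ^ 2 := by positivity
      linarith
  have h2 := Finset.sum_le_sum h1
  rw [← Finset.mul_sum, Finset.sum_sub_distrib, Finset.sum_const, ← Finset.mul_sum,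
    ← Finset.mul_sum, nsmul_eq_mul] at h2
  have h3 : ((net.nb z).card : ℝ) ≤ 2 * d := by exact_mod_cast net.nb_card z
  have h4 : ((net.nb z).card : ℝ) * (c * ‖Y‖ ^ 2) ≤ 2 * d * (c * ‖Y‖ ^ 2) :=
    mul_le_mul_of_nonneg_right h3 (by positivity)
  have h5 : 2 * (d : ℝ) * Cu / A = 2 * d * c := by rw [hc]; ring
  rw [h5, ← hc]
  linarith

theorem LSLo_C (hβ : 1 < β) (hk : 0 ≤ k) (hCu : 0 ≤ Cu) {s : ℝ} (hks : k ≤ s) (Y : E N) (z : ι) :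
    2 * Cu * k ^ 2 * ‖Y‖ *
      (∑ w ∈ net.nb z, (if 1 / (2 * A) ≤ ‖G w‖ then ‖coup net G w‖ else 0)) ≤
      24 * Cu * d ^ 2 * s * Rb net β G z * (‖Y‖ ^ 2 + k ^ 2 * act net A G z) := by
  have hR := Rb_facts net β hβ G z
  have hR1 : 1 ≤ Rb net β G z := hR.1
  have hs : 0 ≤ s := hk.trans hks
  by_cases h : ∃ w ∈ net.nb z, 1 / (2 * A) ≤ ‖G w‖
  · have ha : act net A G z = 1 := by
      unfold act
      rw [if_pos h]
    rw [ha, mul_one]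
    have h1 : (∑ w ∈ net.nb z, (if 1 / (2 * A) ≤ ‖G w‖ then ‖coup net G w‖ else 0)) ≤
        24 * (d : ℝ) ^ 2 * Rb net β G z := by
      have h2 : ∀ w ∈ net.nb z, (if 1 / (2 * A) ≤ ‖G w‖ then ‖coup net G w‖ else 0) ≤
          12 * (d : ℝ) * Rb net β G z := by
        intro w hw
        split_ifs with h3
        · exact (hR.2.2.2.2.2 w hw).2
        · positivity
      have h3 := Finset.sum_le_sum h2
      rw [Finset.sum_const, nsmul_eq_mul] at h3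
      have h4 : ((net.nb z).card : ℝ) ≤ 2 * d := by exact_mod_cast net.nb_card z
      have h5 : ((net.nb z).card : ℝ) * (12 * (d : ℝ) * Rb net β G z) ≤
          2 * d * (12 * (d : ℝ) * Rb net β G z) :=
        mul_le_mul_of_nonneg_right h4 (by positivity)
      linarith
    have h2 : 2 * Cu * k ^ 2 * ‖Y‖ *
        (∑ w ∈ net.nb z, (if 1 / (2 * A) ≤ ‖G w‖ then ‖coup net G w‖ else 0)) ≤
        2 * Cu * k ^ 2 * ‖Y‖ * (24 * (d : ℝ) ^ 2 * Rb net β G z) :=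
      mul_le_mul_of_nonneg_left h1 (by positivity)
    refine h2.trans ?_
    have h3 : 2 * (k * ‖Y‖) ≤ ‖Y‖ ^ 2 + k ^ 2 := by nlinarith [sq_nonneg (‖Y‖ - k)]
    have h4 : k * (2 * (k * ‖Y‖)) ≤ s * (‖Y‖ ^ 2 + k ^ 2) :=
      mul_le_mul hks h3 (by positivity) hs
    have h5 : (24 * Cu * (d : ℝ) ^ 2 * Rb net β G z) * (k * (2 * (k * ‖Y‖))) ≤
        (24 * Cu * (d : ℝ) ^ 2 * Rb net β G z) * (s * (‖Y‖ ^ 2 + k ^ 2)) :=
      mul_le_mul_of_nonneg_left h4 (by positivity)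
    linarith
  · have h1 : (∑ w ∈ net.nb z, (if 1 / (2 * A) ≤ ‖G w‖ then ‖coup net G w‖ else 0)) = 0 := by
      refine Finset.sum_eq_zero fun w hw => ?_
      rw [if_neg (fun h2 => h ⟨w, hw, h2⟩)]
    have ha : act net A G z = 0 := by
      unfold act
      rw [if_neg h]
    rw [h1, ha, mul_zero, mul_zero, add_zero]
    positivity

theorem LSLo_N (δ : ℝ) (z : ι) :
    (∑ w ∈ net.nb z, nz net β δ Cu k A y G z w) =
      1 / 2 * (∑ w ∈ net.nb z, (if 6 / A < ‖G w‖ then bbf β δ ‖G w‖ ^ 2 else 0)) +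
      1 / 2 * (∑ w ∈ net.nb z, (if 6 / A < ‖G w‖ then
        (inner ℝ (uni (Yv net k (1 / A) y G z)) (ctil (1 / A) y (G w))) ^ 2 else 0)) -
      Cu ^ 2 * (∑ w ∈ net.nb z, (if ‖G w‖ ≤ 6 / A then ‖G w‖ ^ 2 else 0)) := by
  rw [Finset.mul_sum, Finset.mul_sum, Finset.mul_sum, ← Finset.sum_add_distrib,
    ← Finset.sum_sub_distrib]
  refine Finset.sum_congr rfl fun w _ => ?_
  unfold nz
  by_cases h : 6 / A < ‖G w‖
  · rw [if_pos h, if_pos h, if_pos h, if_neg (not_le.2 h)]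
    ring
  · rw [if_neg h, if_neg h, if_neg h, if_pos (not_lt.1 h)]
    ring

theorem LSLo_cs (hk : 0 ≤ k) (hCu : 0 ≤ Cu) (ct : ∀ w, ‖ctil (1 / A) y (G w)‖ ≤ Cu * ‖G w‖)
    (z : ι) :
    ‖Yv net k (1 / A) y G z‖ ^ 2 ≤ (1 + 2 * d) * (‖G z‖ ^ 2 +
      k ^ 2 * (∑ w ∈ net.nb z, (if 6 / A < ‖G w‖ then
        (inner ℝ (uni (Yv net k (1 / A) y G z)) (ctil (1 / A) y (G w))) ^ 2 else 0)) +
      k ^ 2 * (Cu ^ 2 * ∑ w ∈ net.nb z, (if ‖G w‖ ≤ 6 / A then ‖G w‖ ^ 2 else 0))) := by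
  obtain ⟨e, he⟩ : ∃ e, e = uni (Yv net k (1 / A) y G z) := ⟨_, rfl⟩
  obtain ⟨hu1, hu2⟩ := LSLo_uni (Yv net k (1 / A) y G z)
  rw [← he] at hu1 hu2 ⊢
  have h1 : ‖Yv net k (1 / A) y G z‖ ≤
      ‖G z‖ + k * ∑ w ∈ net.nb z, |inner ℝ e (ctil (1 / A) y (G w))| := by
    have h2 : inner ℝ e (Yv net k (1 / A) y G z) =
        inner ℝ e (G z) + k * ∑ w ∈ net.nb z, inner ℝ e (ctil (1 / A) y (G w)) := by
      unfold Yv
      rw [inner_add_right, real_inner_smul_right, inner_sum]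
    rw [← hu2, h2]
    have h3 : inner ℝ e (G z) ≤ ‖G z‖ := by
      refine (real_inner_le_norm _ _).trans ?_
      exact mul_le_of_le_one_left (norm_nonneg _) hu1
    have h4 : (∑ w ∈ net.nb z, inner ℝ e (ctil (1 / A) y (G w))) ≤
        ∑ w ∈ net.nb z, |inner ℝ e (ctil (1 / A) y (G w))| :=
      Finset.sum_le_sum fun w _ => le_abs_self _
    have h5 := mul_le_mul_of_nonneg_left h4 hk
    linarith
  have h2 : (∑ w ∈ net.nb z, |inner ℝ e (ctil (1 / A) y (G w))|) ^ 2 ≤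
      2 * d * ∑ w ∈ net.nb z, |inner ℝ e (ctil (1 / A) y (G w))| ^ 2 := by
    refine (sq_sum_le_card_mul_sum_sq).trans ?_
    have h3 : ((net.nb z).card : ℝ) ≤ 2 * d := by exact_mod_cast net.nb_card z
    exact mul_le_mul_of_nonneg_right h3 (Finset.sum_nonneg fun w _ => sq_nonneg _)
  have h3 : (∑ w ∈ net.nb z, |inner ℝ e (ctil (1 / A) y (G w))| ^ 2) ≤
      (∑ w ∈ net.nb z, (if 6 / A < ‖G w‖ then (inner ℝ e (ctil (1 / A) y (G w))) ^ 2 else 0)) +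
      Cu ^ 2 * ∑ w ∈ net.nb z, (if ‖G w‖ ≤ 6 / A then ‖G w‖ ^ 2 else 0) := by
    rw [Finset.mul_sum, ← Finset.sum_add_distrib]
    refine Finset.sum_le_sum fun w _ => ?_
    rw [sq_abs]
    by_cases h : 6 / A < ‖G w‖
    · rw [if_pos h, if_neg (not_le.2 h), mul_zero, add_zero]
    · rw [if_neg h, if_pos (not_lt.1 h), zero_add]
      have h4 : |inner ℝ e (ctil (1 / A) y (G w))| ≤ Cu * ‖G w‖ := by
        refine (abs_real_inner_le_norm _ _).trans ?_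
        refine le_trans ?_ (ct w)
        exact mul_le_of_le_one_left (norm_nonneg _) hu1
      rw [← sq_abs, ← mul_pow]
      exact pow_le_pow_left₀ (abs_nonneg _) h4 2
  obtain ⟨S, hS⟩ : ∃ S, S = (∑ w ∈ net.nb z, (if 6 / A < ‖G w‖ then
    (inner ℝ e (ctil (1 / A) y (G w))) ^ 2 else 0)) := ⟨_, rfl⟩
  obtain ⟨W, hW⟩ : ∃ W, W = Cu ^ 2 * ∑ w ∈ net.nb z, (if ‖G w‖ ≤ 6 / A then ‖G w‖ ^ 2 else 0) :=
    ⟨_, rfl⟩
  obtain ⟨T, hT⟩ : ∃ T, T = ∑ w ∈ net.nb z, |inner ℝ e (ctil (1 / A) y (G w))| := ⟨_, rfl⟩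
  rw [← hS, ← hW] at h3 ⊢
  rw [← hT] at h1 h2
  have hS0 : 0 ≤ S := by
    rw [hS]
    exact Finset.sum_nonneg fun w _ => by split_ifs <;> positivity
  have hW0 : 0 ≤ W := by
    rw [hW]
    exact mul_nonneg (sq_nonneg _) (Finset.sum_nonneg fun w _ => by split_ifs <;> positivity)
  have hT0 : 0 ≤ T := by
    rw [hT]
    exact Finset.sum_nonneg fun w _ => abs_nonneg _
  have h4 : (k * T) ^ 2 ≤ 2 * d * (k ^ 2 * S + k ^ 2 * W) := by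
    have h5 : T ^ 2 ≤ 2 * d * (S + W) :=
      h2.trans (mul_le_mul_of_nonneg_left h3 (by positivity))
    have h6 := mul_le_mul_of_nonneg_left h5 (sq_nonneg k)
    rw [mul_pow]
    linarith
  have h5 := LSLo_cauchy (r := ‖G z‖) (show (0 : ℝ) ≤ 2 * d by positivity)
    (show 0 ≤ k ^ 2 * S + k ^ 2 * W by positivity) h4
  have h6 : ‖Yv net k (1 / A) y G z‖ ^ 2 ≤ (‖G z‖ + k * T) ^ 2 :=
    pow_le_pow_left₀ (norm_nonneg _) h1 2
  rw [add_assoc]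
  exact h6.trans h5

end

/-- LOW sites. PROOF. `c1 = 1/(72(1+2d))`. `Low = 1/24` here. `n = card nb ≤ 2d`, `c_w = ctil(G_w)`.
Case (a) `√k ≤ r`: `‖Y-G‖ ≤ 4dCyk ≤ 4dCy√k r ≤ r/8`, so `f ≥ (49/64) r²` and `k ≤ √k r`; then
`(N-2)(r²-f) ≥ -C√k f`, `2r^β⟪Y,Y-G⟫ ≥ -2‖Y‖4dCyk ≥ -C√k f` (`r ≤ 1`), so with `lam1` the main part is
`≥ f/24 - C√k R̄ f ≥ (1/72)(f+r²)·… - C√kR̄ f` (`f + r² ≤ 3 f`). `k²Σnz ≥ ½k²Σ_{strong}b² - k²Cu²Σ_{weak}r_w²`.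
Case (b) `r < √k`: `lam2`: `f lam ≥ -CM√k f - CM k‖coup‖ f`; `-2r^β⟪Y,G⟫ ≥ -r^β(f+r²) ≥ -√k (f+r²)` (`β ≥ 1`,
`r ≤ √k ≤ 1`). `‖Y‖ = ⟪Ŷ,Y⟫ ≤ r + kΣ_w|⟪Ŷ,c_w⟫|`, so `f ≤ (1+n)(r² + k²Σ_w⟪Ŷ,c_w⟫²)`, weak `w`:
`⟪Ŷ,c_w⟫² ≤ Cu²r_w²`. Hence `(N-2)r² + k²Σnz ≥ r² + ½k²Σ_{strong}(b²+⟪⟫²) - k²Cu²Σ_{weak}r_w²
≥ ½r² + f/(2(1+2d)) + ½k²Σ_{strong}b² - (3/2)k²Cu²Σ_{weak}r_w²`.
Both: `-4dk⟪Y,G⟫ ≥ -2dk(f+r²)`; `2k⟪Y,U_w⟫ ≥ -2k‖Y‖Cu r_w ≥ -(Cu/A)(f + (Ak)²r_w²)` for weak `w`;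
`CL`-term: zero unless `act = 1`, and `k²‖Y‖ ≤ ½k(k²act+f)`, `‖coup_w‖ ≤ 12dR̄`;
`r² ≤ 2f + 2(4dCyk)²act` (ls_near); `k ≤ √k`, `R̄ ≥ 1`. -/
theorem ls_low (N d : ℕ) (β δ Cy Cu A CM : ℝ) (hδ : 0 < δ) (hCM : 0 ≤ CM) :
    ∃ K2 : ℝ, 0 ≤ K2 ∧
    ∀ {ι : Type} [Fintype ι] {net : Net ι d} {k Rc θ r2 cv Cv ch CH : ℝ} {y : ℝ → ℝ}
      {G U : ι → E N} {lam eta : ι → ℝ},
      LSB net β Cy Cu k A Rc θ y G → LSU net β Cu k A r2 Rc cv Cv CM ch CH G U lam eta →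
      ∀ z, ‖G z‖ < 1 / (2 * A) →
      1 / (72 * (1 + 2 * d)) * (‖G z‖ ^ 2 + ‖Yv net k (1 / A) y G z‖ ^ 2)
        + 1 / 2 * k ^ 2 * ∑ w ∈ net.nb z, (if 6 / A < ‖G w‖ then bbf β δ ‖G w‖ ^ 2 else 0)
        - 2 * d * Cu / A * ‖Yv net k (1 / A) y G z‖ ^ 2
        - (Cu / A + 2 * Cu ^ 2 / A ^ 2) * (A * k) ^ 2 *
            ∑ w ∈ net.nb z, (if ‖G w‖ ≤ 6 / A then ‖G w‖ ^ 2 else 0)
        - K2 * Real.sqrt k * Rb net β G z *
            (‖Yv net k (1 / A) y G z‖ ^ 2 + k ^ 2 * act net A G z)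
        + θ * ‖Yv net k (1 / A) y G z‖ ^ 2 * (ch * Rb net β G z - CH) ≤
      GGt net β δ Cu k A θ y G U lam eta z := by
  refine ⟨(2 * d + 1) * (3 + 2 * (4 * d * |Cy|) ^ 2) + 24 * |Cu| * d ^ 2 + (6 * d + 1) * CM +
    (3 * N + 4) * (4 * d * |Cy|), by positivity, ?_⟩
  intro ι _ net k Rc θ r2 cv Cv ch CH y G U lam eta H HU z hz
  have hCy1 := H.hCy
  have hCu1 := H.hCu
  rw [abs_of_pos (show 0 < Cy by linarith), abs_of_pos (show 0 < Cu by linarith)]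
  have hk := H.hk
  have hA := H.hA
  have hAk := H.hAk
  have hA0 : 0 < A := by linarith
  have hk1 : k ≤ 1 := by
    have h9 := mul_le_mul_of_nonneg_right hA hk
    linarith
  have hs0 : 0 ≤ Real.sqrt k := Real.sqrt_nonneg k
  have hss : k = Real.sqrt k * Real.sqrt k := (Real.mul_self_sqrt hk).symm
  have hs1 : Real.sqrt k ≤ 1 := Real.sqrt_le_iff.2 ⟨by norm_num, by linarith⟩
  have hDs : 4 * d * Cy * Real.sqrt k ≤ 1 / 8 := H.hks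
  obtain ⟨s, hs⟩ : ∃ s, s = Real.sqrt k := ⟨_, rfl⟩
  rw [← hs] at hs0 hss hs1 hDs ⊢
  have hks : k ≤ s := by rw [hss]; exact mul_le_of_le_one_right hs0 hs1
  obtain ⟨n1, _, na0, na1⟩ := ls_near H z
  obtain ⟨R1, _, _, _, Rc6, _⟩ := Rb_facts net β H.hβ G z
  have hU := LSLo_U (net := net) (G := G) hA0 hk (show 0 ≤ Cu by linarith)
    (Yv net k (1 / A) y G z) U HU.U_bd z
  have hC := LSLo_C (net := net) (G := G) (A := A) (Cu := Cu) H.hβ hk (by linarith) hks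
    (Yv net k (1 / A) y G z) z
  have hNn := LSLo_N (net := net) (β := β) (Cu := Cu) (k := k) (A := A) (y := y) (G := G) δ z
  have hcs := LSLo_cs (net := net) (A := A) (y := y) (G := G) hk (show 0 ≤ Cu by linarith)
    H.ct_lin z
  have heta := HU.eta1 z
  have hl1 := HU.lam1 z
  have hr1' : 1 / (2 * A) ≤ 1 / 12 := by
    apply one_div_le_one_div_of_le (by norm_num)
    linarith
  have hr1 : ‖G z‖ ≤ 1 := by linarith
  have hl2 := HU.lam2 z hr1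
  have hLow : Low A r2 Rc cv Cv ‖G z‖ = 1 / 24 := by
    unfold Low
    rw [if_pos]
    refine hz.le.trans ?_
    rw [div_le_div_iff₀ (by positivity) hA0]
    linarith
  rw [hLow] at hl1
  have hpl : inner ℝ (Yv net k (1 / A) y G z) (G z) ≤ ‖Yv net k (1 / A) y G z‖ * ‖G z‖ :=
    real_inner_le_norm _ _
  have hpe : inner ℝ (Yv net k (1 / A) y G z) (G z) ≤ ‖Yv net k (1 / A) y G z‖ ^ 2 +
      ‖Yv net k (1 / A) y G z‖ * ‖Yv net k (1 / A) y G z - G z‖ := by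
    have h1 : inner ℝ (Yv net k (1 / A) y G z) (Yv net k (1 / A) y G z - G z) =
        ‖Yv net k (1 / A) y G z‖ ^ 2 - inner ℝ (Yv net k (1 / A) y G z) (G z) := by
      rw [inner_sub_right, real_inner_self_eq_norm_sq]
    have h2 : -(‖Yv net k (1 / A) y G z‖ * ‖Yv net k (1 / A) y G z - G z‖) ≤
        inner ℝ (Yv net k (1 / A) y G z) (Yv net k (1 / A) y G z - G z) :=
      neg_le_of_abs_le (abs_real_inner_le_norm _ _)
    linarith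
  have ht1 : ‖G z‖ ≤ ‖Yv net k (1 / A) y G z‖ + ‖Yv net k (1 / A) y G z - G z‖ := by
    have h1 := norm_sub_le (Yv net k (1 / A) y G z) (Yv net k (1 / A) y G z - G z)
    rwa [sub_sub_cancel] at h1
  have ht2 : ‖Yv net k (1 / A) y G z‖ ≤ ‖G z‖ + ‖Yv net k (1 / A) y G z - G z‖ := by
    have h1 := norm_add_le (G z) (Yv net k (1 / A) y G z - G z)
    rwa [add_sub_cancel] at h1
  have hrb0 : 0 ≤ ‖G z‖ ^ β := Real.rpow_nonneg (norm_nonneg _) _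
  have hrb1 : ‖G z‖ ^ β ≤ 1 := Real.rpow_le_one (norm_nonneg _) hr1 (by linarith [H.hβ])
  have hrbr : ‖G z‖ ^ β ≤ ‖G z‖ := Real.rpow_le_self_of_le_one (norm_nonneg _) hr1 H.hβ.le
  have hN : (1 : ℝ) ≤ N - 2 := by
    have : (3 : ℝ) ≤ N := by exact_mod_cast H.hN
    linarith
  obtain ⟨SI, hSI⟩ : ∃ S, S = (∑ w ∈ net.nb z, (if 6 / A < ‖G w‖ then
    (inner ℝ (uni (Yv net k (1 / A) y G z)) (ctil (1 / A) y (G w))) ^ 2 else 0)) := ⟨_, rfl⟩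
  obtain ⟨SW, hSW⟩ : ∃ W, W = ∑ w ∈ net.nb z, (if ‖G w‖ ≤ 6 / A then ‖G w‖ ^ 2 else 0) :=
    ⟨_, rfl⟩
  obtain ⟨SB, hSB⟩ : ∃ W, W = ∑ w ∈ net.nb z, (if 6 / A < ‖G w‖ then bbf β δ ‖G w‖ ^ 2 else 0) :=
    ⟨_, rfl⟩
  have hSI0 : 0 ≤ SI := by
    rw [hSI]
    exact Finset.sum_nonneg fun w _ => by split_ifs <;> positivity
  have hSW0 : 0 ≤ SW := by
    rw [hSW]
    exact Finset.sum_nonneg fun w _ => by split_ifs <;> positivity
  unfold GGt GG1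
  rw [hNn]
  rw [← hSI, ← hSW] at hcs
  rw [← hSW] at hU
  rw [← hSI, ← hSW, ← hSB]
  clear hNn hLow hSI hSW hSB
  obtain ⟨SU, hSU⟩ : ∃ S, S = ∑ w ∈ net.nb z, inner ℝ (Yv net k (1 / A) y G z) (U w) := ⟨_, rfl⟩
  obtain ⟨SC, hSC⟩ : ∃ S, S = ∑ w ∈ net.nb z,
    (if 1 / (2 * A) ≤ ‖G w‖ then ‖coup net G w‖ else 0) := ⟨_, rfl⟩
  rw [← hSU] at hU ⊢
  rw [← hSC] at hC ⊢
  clear hSU hSC
  obtain ⟨q, hq⟩ : ∃ q, q = ‖Yv net k (1 / A) y G z‖ := ⟨_, rfl⟩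
  obtain ⟨e, he⟩ : ∃ e, e = ‖Yv net k (1 / A) y G z - G z‖ := ⟨_, rfl⟩
  obtain ⟨p, hp⟩ : ∃ p, p = inner ℝ (Yv net k (1 / A) y G z) (G z) := ⟨_, rfl⟩
  obtain ⟨r, hr⟩ : ∃ r, r = ‖G z‖ := ⟨_, rfl⟩
  obtain ⟨a, ha⟩ : ∃ a, a = act net A G z := ⟨_, rfl⟩
  obtain ⟨R, hR⟩ : ∃ R, R = Rb net β G z := ⟨_, rfl⟩
  obtain ⟨cp, hcp⟩ : ∃ c, c = ‖coup net G z‖ := ⟨_, rfl⟩
  have hq0 : 0 ≤ q := by rw [hq]; exact norm_nonneg _
  have he0 : 0 ≤ e := by rw [he]; exact norm_nonneg _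
  have hr0 : 0 ≤ r := by rw [hr]; exact norm_nonneg _
  rw [← he, ← ha] at n1
  rw [← ha] at na0 na1
  rw [← hR] at R1
  rw [← hcp, ← hR] at Rc6
  rw [← hq] at hU
  rw [← hq, ← hR, ← ha] at hC
  rw [← hq, ← hr] at hcs
  rw [← hR] at heta
  rw [← hr, ← hcp] at hl1 hl2
  rw [← hp, ← hq, ← hr] at hpl
  rw [← hp, ← hq, ← he] at hpe
  rw [← hr, ← hq, ← he] at ht1 ht2
  rw [← hr] at hrb0 hrb1 hrbr
  rw [← hq, ← hp, ← hr, ← ha, ← hR]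
  obtain ⟨rb, hrb⟩ : ∃ x, x = r ^ β := ⟨_, rfl⟩
  rw [← hrb] at hl1 hrb0 hrb1 hrbr ⊢
  obtain ⟨D, hD⟩ : ∃ D, D = 4 * d * Cy := ⟨_, rfl⟩
  have hD0 : 0 ≤ D := by rw [hD]; positivity
  rw [← hD] at n1 hDs ⊢
  clear hrb hD hcp hR ha hr hp he hq hs
  have hd0 : (0 : ℝ) ≤ d := Nat.cast_nonneg d
  obtain ⟨dd, hdd⟩ : ∃ x : ℝ, x = d := ⟨_, rfl⟩
  rw [← hdd] at Rc6 hU hC hcs hd0 ⊢
  obtain ⟨NN, hNN⟩ : ∃ x : ℝ, x = N := ⟨_, rfl⟩
  rw [← hNN] at hl1 hN ⊢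
  clear hdd hNN
  have he1 : e ≤ D * k := by
    have : D * k * a ≤ D * k := mul_le_of_le_one_right (by positivity) na1
    linarith
  have hka : 0 ≤ k ^ 2 * a := by positivity
  have hr2 : r ^ 2 ≤ 2 * q ^ 2 + 2 * D ^ 2 * (k ^ 2 * a) := by
    have h1 : r ^ 2 ≤ (q + e) ^ 2 := pow_le_pow_left₀ hr0 ht1 2
    have h2 : (q + e) ^ 2 ≤ 2 * q ^ 2 + 2 * e ^ 2 := by
      have h9 := sq_nonneg (q - e)
      linarith only [h9]
    have h3 : e ^ 2 ≤ (D * k * a) ^ 2 := pow_le_pow_left₀ he0 n1 2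
    have h4 : (D * k * a) ^ 2 ≤ D ^ 2 * (k ^ 2 * a) := by
      have h5 : a ^ 2 ≤ a := by rw [sq]; exact mul_le_of_le_one_right na0 na1
      have h6 := mul_le_mul_of_nonneg_left h5 (show 0 ≤ D ^ 2 * k ^ 2 by positivity)
      calc (D * k * a) ^ 2 = D ^ 2 * k ^ 2 * a ^ 2 := by ring
        _ ≤ D ^ 2 * k ^ 2 * a := h6
        _ = D ^ 2 * (k ^ 2 * a) := by ring
    linarith
  have hX : 0 ≤ q ^ 2 + k ^ 2 * a := by positivity
  -- the interaction term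
  have F1 : 4 * dd * k * p ≤ 2 * dd * (3 + 2 * D ^ 2) * s * R * (q ^ 2 + k ^ 2 * a) := by
    have h1 : 4 * dd * k * p ≤ 4 * dd * k * (q * r) :=
      mul_le_mul_of_nonneg_left hpl (by positivity)
    have h2 : 2 * (q * r) ≤ q ^ 2 + r ^ 2 := by
      have h9 := sq_nonneg (q - r)
      linarith only [h9]
    have h3 : q ^ 2 + r ^ 2 ≤ (3 + 2 * D ^ 2) * (q ^ 2 + k ^ 2 * a) := by
      have h4 : 0 ≤ D ^ 2 * q ^ 2 := by positivity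
      linarith
    have h4 : 2 * dd * k * (2 * (q * r)) ≤
        2 * dd * k * ((3 + 2 * D ^ 2) * (q ^ 2 + k ^ 2 * a)) :=
      mul_le_mul_of_nonneg_left (h2.trans h3) (by positivity)
    have h5 : 2 * dd * k * ((3 + 2 * D ^ 2) * (q ^ 2 + k ^ 2 * a)) ≤
        2 * dd * s * ((3 + 2 * D ^ 2) * (q ^ 2 + k ^ 2 * a)) := by
      refine mul_le_mul_of_nonneg_right ?_ (by positivity)
      exact mul_le_mul_of_nonneg_left hks (by positivity)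
    have h6 : 2 * dd * s * ((3 + 2 * D ^ 2) * (q ^ 2 + k ^ 2 * a)) ≤
        2 * dd * s * ((3 + 2 * D ^ 2) * (q ^ 2 + k ^ 2 * a)) * R :=
      le_mul_of_one_le_right (by positivity) R1
    linarith
  -- the damping of the potential
  have F0 : θ * q ^ 2 * (ch * R - CH) ≤ q ^ 2 * (-(θ * eta z)) := by
    have h1 := mul_le_mul_of_nonneg_left heta (show 0 ≤ θ * q ^ 2 from
      mul_nonneg H.hθ (sq_nonneg q))
    linarith
  have hWk : k ^ 2 * (Cu ^ 2 * SW) = Cu ^ 2 / A ^ 2 * ((A * k) ^ 2 * SW) := by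
    field_simp
  have hWk0 : 0 ≤ k ^ 2 * (Cu ^ 2 * SW) := by positivity
  -- the main term
  have F5 : 1 / (72 * (1 + 2 * dd)) * (r ^ 2 + q ^ 2) - k ^ 2 * (Cu ^ 2 * SW) -
      ((3 + 2 * D ^ 2) + (6 * dd + 1) * CM + (3 * NN + 4) * D) * s * R * (q ^ 2 + k ^ 2 * a) ≤
      (NN - 2) * r ^ 2 - 2 * rb * p + q ^ 2 * lam z + 1 / 2 * k ^ 2 * SI := by
    rcases le_or_gt s r with hsr | hsr
    · have h1 := LSLo_a (n2 := NN - 2) (by linarith) hr0 hq0 hs0 hs1 hsr hss hD0 hDs he0 he1 ht1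
        ht2 hpe hrb0 hrb1 R1 hCM hd0 Rc6 hl1
      have h2 : 1 / (72 * (1 + 2 * dd)) * (r ^ 2 + q ^ 2) ≤ 1 / 72 * (r ^ 2 + q ^ 2) := by
        refine mul_le_mul_of_nonneg_right ?_ (by positivity)
        apply one_div_le_one_div_of_le (by norm_num)
        linarith
      have h3 : (3 * (NN - 2) * D + 4 * D + 6 * dd * CM) * s * R * q ^ 2 ≤
          ((3 + 2 * D ^ 2) + (6 * dd + 1) * CM + (3 * NN + 4) * D) * s * R *
            (q ^ 2 + k ^ 2 * a) := by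
        have h4 : 3 * (NN - 2) * D + 4 * D + 6 * dd * CM ≤
            (3 + 2 * D ^ 2) + (6 * dd + 1) * CM + (3 * NN + 4) * D := by
          have := sq_nonneg D
          linarith
        have h5 : 0 ≤ 3 * (NN - 2) * D + 4 * D + 6 * dd * CM := by
          have : 0 ≤ NN - 2 := by linarith
          positivity
        have h6 : (3 * (NN - 2) * D + 4 * D + 6 * dd * CM) * s * R ≤
            ((3 + 2 * D ^ 2) + (6 * dd + 1) * CM + (3 * NN + 4) * D) * s * R := by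
          refine mul_le_mul_of_nonneg_right ?_ (by linarith)
          exact mul_le_mul_of_nonneg_right h4 hs0
        exact mul_le_mul h6 (by linarith) (sq_nonneg q) (le_trans (by positivity) h6)
      have h4 : 0 ≤ 1 / 2 * k ^ 2 * SI := by positivity
      linarith
    · have h1 := LSLo_b (n2 := NN - 2) hN hr0 hq0 hs0 hs1 hsr.le hss na0 hr2 hpl hrb0
        (hrbr.trans hsr.le) R1 hCM hd0 Rc6 hl2 hSI0 (show 0 ≤ Cu ^ 2 * SW by positivity) hcs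
      have h2 : 0 ≤ (3 * NN + 4) * D * s * R * (q ^ 2 + k ^ 2 * a) := by
        have h3 : 0 ≤ 3 * NN + 4 := by linarith
        have h4 : 0 ≤ R := by linarith
        positivity
      have h3 : ((3 + 2 * D ^ 2) + (6 * dd + 1) * CM + (3 * NN + 4) * D) * s * R *
          (q ^ 2 + k ^ 2 * a) = ((3 + 2 * D ^ 2) + (6 * dd + 1) * CM) * s * R *
            (q ^ 2 + k ^ 2 * a) + (3 * NN + 4) * D * s * R * (q ^ 2 + k ^ 2 * a) := by ring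
      linarith
  have e1 : (Cu / A + 2 * Cu ^ 2 / A ^ 2) * (A * k) ^ 2 * SW =
      Cu / A * ((A * k) ^ 2 * SW) + 2 * (k ^ 2 * (Cu ^ 2 * SW)) := by
    rw [hWk]
    ring
  have e2 : ((2 * dd + 1) * (3 + 2 * D ^ 2) + 24 * Cu * dd ^ 2 + (6 * dd + 1) * CM +
      (3 * NN + 4) * D) * s * R * (q ^ 2 + k ^ 2 * a) =
      2 * dd * (3 + 2 * D ^ 2) * s * R * (q ^ 2 + k ^ 2 * a) +
      24 * Cu * dd ^ 2 * s * R * (q ^ 2 + k ^ 2 * a) +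
      ((3 + 2 * D ^ 2) + (6 * dd + 1) * CM + (3 * NN + 4) * D) * s * R *
        (q ^ 2 + k ^ 2 * a) := by ring
  rw [e1, e2]
  linarith

end Dyn
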