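import Pool.Agent.Lib_MP_36b788.LSHi
import Pool.Agent.Lib_MP_36b788.LSLo

/-!
# LSFIN: the weighted sum of the drift terms

PROOF. `κ = Ak`, `W_z = W_{xz}`, `f_z = ‖Y_z‖²`, `c1 = 1/(72(1+2d))`, `CF = 64(32N)^4`, `cV = cv/√A`, `CV = Cv/√A`,
`Cu = C0(1+log A)`, `bF = δ(β-1) r2 (1+Rc)^{-β}` (so `bbf(r) ≥ bF` for `r2 ≤ r ≤ Rc`).
Conditions on `A` (all true for large `A`):
 (1) `2d Cu/A ≤ c1/4`; (2) `(Cu/A + 2Cu²/A²)·40·2d ≤ c1/2`; (3) `40·2·CF(Cv+cv)/√A ≤ bF²`; (4) `cV ≤ c1/8`; `6/A ≤ r2`.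
Sum ls_low over low `z` and ls_hi over high `z`, multiplied by `W_z`.
Step 1. weak errors: for `w ∈ nb z` weak `κ²W_z ≤ 40 W_w` (ls_W), each `w` is a neighbour of at most `2d`
 sites: total `≤ (Cu/A+2Cu²/A²)40·2d Σ_{w weak} W_w r_w² ≤ ½c1Σ_{w weak}W_wr_w²`. For low `w` this is absorbed by
 `c1 W_w r_w²`; for `1/(2A) ≤ r_w ≤ 6/A`: `½c1 r_w² ≤ c1 f_w ≤ f_w/48`, absorbed by half of `Low f_w = f_w/24`.
 What is left: low: `(c1/2) W_z f_z + ½k²W_zΣ_{strong}b²`, weak high: `W_zf_z/48`, others `Low·W_zf_z`.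
Step 2. crude: ls_act: `Σ_z W_z K2√k R̄_z k²act_z ≤ 256·2d K2√k Σ_w R̄_w W_wf_w`. So all crude errors are
 `≤ K3√k Σ_z R̄_z W_zf_z`, `K3 = K1+K2+512dK2` (`k ≤ √k`). Take `θ = Cθ√k`, `Cθ = (K3+1)/ch`: they are cancelled by
 `θ ch Σ R̄ W f`; the remaining `-θ CH S ≥ -(cmin/16) S` for `k` small, where `cmin = min(cV,CV)`.
Step 3. frontier: `z ≠ x` with `r2 < r_z < Rc` (`Low = -CV`). If `k = 0` then `W_z = 0`. Otherwise let `z' ∈ nb z`,
 `|x-z'|+1 = |x-z|`. (i) `z'` low: the noise term of `z'` contains (with `w = z`; `z ∈ nb z'`)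
 `½k²W_{z'}bbf(r_z)² ≥ ½k²κ^{2|x-z|-2}bF²/20 = κ^{2|x-z|} bF²/(40A²)`, while
 `(CV+cV)W_zf_z ≤ (Cv+cv)A^{-1/2}κ^{2|x-z|}CF/A²`; condition (3). Different `z` use different terms of the double
 sum. (ii) `z'` high: `W_zf_z ≤ κ^{2|x-z|}CF/A² ≤ 50CFκ² W_{z'}f_{z'}`; sum over `z`: `≤ 100dCFκ² S`, and
 `(CV+cV)100dCF A²k² ≤ cmin/16` for small `k`.
Step 4. Every `z ≠ x` contributes (after the frontier compensation) at least `cV W_zf_z` minus crude;
 `z = x`: at least `cV W_xf_x` if `r_x ≤ r2`, at least `-CV W_xf_x` otherwise (when `r_x ≥ Rc` it is `≥ cV`).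
 Total `≥ cV S - (cmin/8) S ≥ ¾cV S`, resp. `≥ -CV S - cmin/8 S ≥ -(3/2)CV S`.
-/

open MeasureTheory

namespace Dyn

theorem LSFin_A (d N : ℕ) (C0 cv Cv bF : ℝ) (hbF : 0 < bF) :
    ∃ A1 : ℝ, 6 ≤ A1 ∧ ∀ A, A1 ≤ A →
      2 * d * (C0 * (1 + Real.log A)) / A ≤ 1 / (72 * (1 + 2 * (d : ℝ))) / 4 ∧
      ((C0 * (1 + Real.log A)) / A + 2 * (C0 * (1 + Real.log A)) ^ 2 / A ^ 2) * (80 * d) ≤
        1 / (72 * (1 + 2 * (d : ℝ))) / 2 ∧
      40 * (64 * (32 * (N : ℝ)) ^ 4) * ((Cv + cv) / Real.sqrt A) ≤ bF ^ 2 ∧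
      cv / Real.sqrt A ≤ 1 / (72 * (1 + 2 * (d : ℝ))) / 8 := by
  have h1 : Filter.Tendsto (fun A : ℝ => C0 * (1 + Real.log A) / A) Filter.atTop (nhds 0) := by
    have h2 : Filter.Tendsto (fun A : ℝ => Real.log A / A) Filter.atTop (nhds 0) :=
      Real.isLittleO_log_id_atTop.tendsto_div_nhds_zero
    have h3 : Filter.Tendsto (fun A : ℝ => A⁻¹) Filter.atTop (nhds 0) := tendsto_inv_atTop_zero
    have h4 := (h3.add h2).const_mul C0
    rw [add_zero, mul_zero] at h4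
    refine h4.congr (fun A => ?_)
    ring
  have hsq : Filter.Tendsto Real.sqrt Filter.atTop Filter.atTop := Real.tendsto_sqrt_atTop
  have hc : 0 < 1 / (72 * (1 + 2 * (d : ℝ))) := by positivity
  have e1 : Filter.Tendsto (fun A : ℝ => 2 * d * (C0 * (1 + Real.log A)) / A) Filter.atTop
      (nhds 0) := by
    have h4 := h1.const_mul (2 * (d : ℝ))
    rw [mul_zero] at h4
    refine h4.congr (fun A => ?_)
    ring
  have e2 : Filter.Tendsto (fun A : ℝ => ((C0 * (1 + Real.log A)) / A +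
      2 * (C0 * (1 + Real.log A)) ^ 2 / A ^ 2) * (80 * d)) Filter.atTop (nhds 0) := by
    have h4 := (h1.add ((h1.pow 2).const_mul 2)).mul_const (80 * (d : ℝ))
    have h5 : ((0 : ℝ) + 2 * 0 ^ 2) * (80 * (d : ℝ)) = 0 := by ring
    rw [h5] at h4
    refine h4.congr (fun A => ?_)
    rw [div_pow]
    ring
  have e3 : Filter.Tendsto (fun A : ℝ => 40 * (64 * (32 * (N : ℝ)) ^ 4) *
      ((Cv + cv) / Real.sqrt A)) Filter.atTop (nhds 0) := by
    have h4 := (hsq.const_div_atTop (Cv + cv)).const_mul (40 * (64 * (32 * (N : ℝ)) ^ 4))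
    rwa [mul_zero] at h4
  have e4 : Filter.Tendsto (fun A : ℝ => cv / Real.sqrt A) Filter.atTop (nhds 0) :=
    hsq.const_div_atTop cv
  have f1 := e1.eventually_le_const (by positivity : 0 < 1 / (72 * (1 + 2 * (d : ℝ))) / 4)
  have f2 := e2.eventually_le_const (by positivity : 0 < 1 / (72 * (1 + 2 * (d : ℝ))) / 2)
  have f3 := e3.eventually_le_const (by positivity : 0 < bF ^ 2)
  have f4 := e4.eventually_le_const (by positivity : 0 < 1 / (72 * (1 + 2 * (d : ℝ))) / 8)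
  obtain ⟨A', hA'⟩ := Filter.eventually_atTop.1 (f1.and (f2.and (f3.and f4)))
  exact ⟨max 6 A', le_max_left _ _, fun A hA => hA' A ((le_max_right _ _).trans hA)⟩

theorem LSFin_core {ι : Type} [Fintype ι] (dd : ℝ) (v X Y Z a F R Mz Nz Az : ι → ℝ)
    (E K1 K2 sk θ ch CH ε c1 : ℝ)
    (h1 : ∀ z, X z + Nz z - E * Mz z - (K1 + K2) * sk * (R z * F z) - K2 * sk * Az z +
      θ * (ch * (R z * F z) - CH * F z) ≤ a z)
    (h2 : E * ∑ z, Mz z ≤ c1 / 2 * ∑ z, Y z)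
    (h3 : ∑ z, Az z ≤ 512 * dd * ∑ z, R z * F z)
    (h4 : ∑ z, Z z ≤ ∑ z, Nz z + ε * ∑ z, F z)
    (h5 : ∀ z, v z * F z ≤ X z - c1 / 2 * Y z + Z z)
    (hRF : 0 ≤ ∑ z, R z * F z) (hF : 0 ≤ ∑ z, F z) (hK2 : 0 ≤ K2) (hsk : 0 ≤ sk)
    (hθ : (K1 + K2 + 512 * dd * K2) * sk ≤ θ * ch) (hθ2 : θ * CH ≤ ε) :
    ∑ z, v z * F z - 2 * ε * ∑ z, F z ≤ ∑ z, a z := by
  have e1 := Finset.sum_le_sum (fun z (_ : z ∈ Finset.univ) => h1 z)
  simp only [Finset.sum_add_distrib, Finset.sum_sub_distrib, ← Finset.mul_sum] at e1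
  have e5 := Finset.sum_le_sum (fun z (_ : z ∈ Finset.univ) => h5 z)
  simp only [Finset.sum_add_distrib, Finset.sum_sub_distrib, ← Finset.mul_sum] at e5
  have e3 := mul_le_mul_of_nonneg_left h3 (mul_nonneg hK2 hsk)
  have e6 := mul_le_mul_of_nonneg_right hθ hRF
  have e7 := mul_le_mul_of_nonneg_right hθ2 hF
  linarith

theorem ls_fin (N d : ℕ) (β δ Cy C0 r2 Rc cv Cv ch CH : ℝ) (hN : 3 ≤ N) (hβ : 1 < β) (hδ : 0 < δ)
    (hCy : 1 ≤ Cy) (hC0 : 1 ≤ C0) (hr2 : 0 < r2) (hr21 : r2 < 1) (hRc : 1 ≤ Rc) (hcv : 0 < cv)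
    (hCv : 0 < Cv) (hch : 0 < ch) (hCH : 0 < CH) :
    ∃ A1 : ℝ, 6 ≤ A1 ∧ ∀ A, A1 ≤ A → 6 / A ≤ r2 → ∀ CM : ℝ, 0 ≤ CM →
    ∃ Ct k0 : ℝ, 0 < Ct ∧ 0 < k0 ∧
    ∀ {ι : Type} [Fintype ι] {net : Net ι d} {k : ℝ} {y : ℝ → ℝ}
      {G U : ι → E N} {lam eta : ι → ℝ}, 0 ≤ k → k ≤ k0 →
      LSB net β Cy (C0 * (1 + Real.log A)) k A Rc (Ct * Real.sqrt k) y G →
      LSU net β (C0 * (1 + Real.log A)) k A r2 Rc cv Cv CM ch CH G U lam eta →
      ∀ x, SS net β k A Rc (Ct * Real.sqrt k) y G x *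
          (if ‖G x‖ ≤ r2 then 3 / 4 * (cv / Real.sqrt A) else -(3 / 2 * (Cv / Real.sqrt A))) ≤
        ∑ z, WW net β (A * k) A Rc (Ct * Real.sqrt k) G x z *
          GGt net β δ (C0 * (1 + Real.log A)) k A (Ct * Real.sqrt k) y G U lam eta z := by
  obtain ⟨bF, hbF⟩ : ∃ bF : ℝ, bF = δ * (β - 1) * r2 * (1 + Rc) ^ (-β) := ⟨_, rfl⟩
  have hβ1 : 0 < β - 1 := by linarith
  have hRc1 : 0 < 1 + Rc := by linarith
  have hbF0 : 0 < bF := by
    rw [hbF]
    exact mul_pos (mul_pos (mul_pos hδ hβ1) hr2) (Real.rpow_pos_of_pos hRc1 _)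
  obtain ⟨A1, hA16, hA1⟩ := LSFin_A d N C0 cv Cv bF hbF0
  refine ⟨A1, hA16, fun A hA hAr CM hCM => ?_⟩
  obtain ⟨hc1, hc2, hc3, hc4⟩ := hA1 A hA
  obtain ⟨K1, hK1, hhi⟩ := ls_hi N d β δ Cy (C0 * (1 + Real.log A)) A CM hδ hCM
  obtain ⟨K2, hK2, hlo⟩ := ls_low N d β δ Cy (C0 * (1 + Real.log A)) A CM hδ hCM
  have hA6 : 6 ≤ A := hA16.trans hA
  have hA0 : 0 < A := by linarith
  have hsA : 0 < Real.sqrt A := Real.sqrt_pos.2 hA0
  have hlogA : 0 ≤ Real.log A := Real.log_nonneg (by linarith)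
  have hCu0 : 0 ≤ C0 * (1 + Real.log A) := by positivity
  generalize C0 * (1 + Real.log A) = Cu at *
  obtain ⟨cV, hcV⟩ : ∃ cV : ℝ, cV = cv / Real.sqrt A := ⟨_, rfl⟩
  obtain ⟨CV, hCV⟩ : ∃ CV : ℝ, CV = Cv / Real.sqrt A := ⟨_, rfl⟩
  obtain ⟨CF, hCF⟩ : ∃ CF : ℝ, CF = 64 * (32 * (N : ℝ)) ^ 4 := ⟨_, rfl⟩
  obtain ⟨c1, hc1d⟩ : ∃ c1 : ℝ, c1 = 1 / (72 * (1 + 2 * (d : ℝ))) := ⟨_, rfl⟩
  have hcV0 : 0 < cV := by rw [hcV]; positivity
  have hCV0 : 0 < CV := by rw [hCV]; positivity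
  have hCF0 : 0 ≤ CF := by rw [hCF]; positivity
  have hc10 : 0 < c1 := by rw [hc1d]; positivity
  have hc172 : c1 ≤ 1 / 72 := by
    rw [hc1d]
    apply one_div_le_one_div_of_le (by norm_num)
    have : (0 : ℝ) ≤ d := Nat.cast_nonneg d
    linarith
  rw [← hc1d] at hc1 hc2 hc4
  rw [← hcV] at hc4
  have hc3' : 40 * CF * (CV + cV) ≤ bF ^ 2 := by
    rw [hCF, hCV, hcV, ← add_div]
    exact hc3
  obtain ⟨Ct, hCt⟩ : ∃ Ct : ℝ, Ct = (K1 + K2 + 512 * d * K2 + 1) / ch := ⟨_, rfl⟩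
  have hCt0 : 0 < Ct := by rw [hCt]; positivity
  obtain ⟨ε, hε⟩ : ∃ ε : ℝ, ε = min cV CV / 16 := ⟨_, rfl⟩
  have hε0 : 0 < ε := by
    rw [hε]
    have := lt_min hcV0 hCV0
    positivity
  have hε1 : 16 * ε ≤ cV := by
    rw [hε]
    have := min_le_left cV CV
    linarith
  have hε2 : 16 * ε ≤ CV := by
    rw [hε]
    have := min_le_right cV CV
    linarith
  obtain ⟨T, hT⟩ : ∃ T : ℝ, T = 2 * d * ((CV + cV) * 50 * CF * A ^ 2) := ⟨_, rfl⟩
  have hT0 : 0 ≤ T := by rw [hT]; positivity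
  obtain ⟨k0, hk0⟩ : ∃ k0 : ℝ, k0 = min 1 (min ((ε / (Ct * CH)) ^ 2) (ε / (T + 1))) := ⟨_, rfl⟩
  have hk00 : 0 < k0 := by
    rw [hk0]
    refine lt_min one_pos (lt_min (by positivity) (by positivity))
  refine ⟨Ct, k0, hCt0, hk00, ?_⟩
  intro ι _ net k y G U lam eta hk hkk H HU x
  classical
  have hk1 : k ≤ 1 := hkk.trans (hk0 ▸ min_le_left _ _)
  have hk2 : k ≤ (ε / (Ct * CH)) ^ 2 :=
    hkk.trans (hk0 ▸ (min_le_right _ _).trans (min_le_left _ _))
  have hk3 : k ≤ ε / (T + 1) :=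
    hkk.trans (hk0 ▸ (min_le_right _ _).trans (min_le_right _ _))
  obtain ⟨sk, hsk⟩ : ∃ sk : ℝ, sk = Real.sqrt k := ⟨_, rfl⟩
  have hsk0 : 0 ≤ sk := by rw [hsk]; exact Real.sqrt_nonneg _
  have hksk : k ≤ sk := by
    rw [hsk]
    exact Real.le_sqrt_of_sq_le (by rw [sq]; exact mul_le_of_le_one_left hk hk1)
  have hske : sk ≤ ε / (Ct * CH) := by
    rw [hsk]
    exact (Real.sqrt_le_left (by positivity)).2 hk2
  have hTk : T * k ^ 2 ≤ ε := by
    have h1 : k ^ 2 ≤ k := by rw [sq]; exact mul_le_of_le_one_left hk hk1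
    have h2 : T * k ^ 2 ≤ T * (ε / (T + 1)) := mul_le_mul_of_nonneg_left (h1.trans hk3) hT0
    have h3 : T * (ε / (T + 1)) ≤ ε := by
      rw [mul_div_assoc', div_le_iff₀ (by positivity)]
      linarith
    exact h2.trans h3
  rw [← hsk] at H ⊢
  obtain ⟨θ, hθ⟩ : ∃ θ : ℝ, θ = Ct * sk := ⟨_, rfl⟩
  rw [← hθ] at H ⊢
  have hθch : (K1 + K2 + 512 * d * K2) * sk ≤ θ * ch := by
    have h1 : θ * ch = (K1 + K2 + 512 * d * K2 + 1) * sk := by
      rw [hθ, hCt]
      field_simp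
    rw [h1]
    exact mul_le_mul_of_nonneg_right (by linarith) hsk0
  have hθCH : θ * CH ≤ ε := by
    have h1 := mul_le_mul_of_nonneg_right hske (by positivity : 0 ≤ Ct * CH)
    rw [div_mul_cancel₀ _ (by positivity)] at h1
    rw [hθ]
    linarith
  have hW := ls_W H x
  have hκ0 : 0 ≤ A * k := mul_nonneg hA0.le hk
  have h6A : 1 / (2 * A) ≤ 6 / A := by
    rw [div_le_div_iff₀ (by positivity) hA0]
    linarith
  have hact := ls_act H x
  obtain ⟨R, hR⟩ : ∃ R : ι → ℝ, ∀ z, Rb net β G z = R z := ⟨_, fun _ => rfl⟩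
  have hR1 : ∀ z, 1 ≤ R z := fun z => by
    rw [← hR]
    exact (Rb_facts net β H.hβ G z).1
  have hhiz := fun z => hhi H HU z
  have hloz := fun z => hlo H HU z
  have hhigh := fun z => ls_high H z
  obtain ⟨ac, hac⟩ : ∃ ac : ι → ℝ, ∀ z, act net A G z = ac z := ⟨_, fun _ => rfl⟩
  have hac0 : ∀ z, 0 ≤ ac z := fun z => by
    rw [← hac]
    exact (LSC_act01 net A G z).1
  obtain ⟨gg, hgg⟩ : ∃ gg : ι → ℝ, ∀ z, GGt net β δ Cu k A θ y G U lam eta z = gg z :=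
    ⟨_, fun _ => rfl⟩
  have hSS : SS net β k A Rc θ y G x = ∑ z, WW net β (A * k) A Rc θ G x z *
    ‖Yv net k (1 / A) y G z‖ ^ 2 := rfl
  rw [hSS]
  obtain ⟨W, hWd⟩ : ∃ W : ι → ℝ, ∀ z, WW net β (A * k) A Rc θ G x z = W z := ⟨_, fun _ => rfl⟩
  obtain ⟨f, hf⟩ : ∃ f : ι → ℝ, ∀ z, ‖Yv net k (1 / A) y G z‖ ^ 2 = f z := ⟨_, fun _ => rfl⟩
  obtain ⟨r, hr⟩ : ∃ r : ι → ℝ, ∀ z, ‖G z‖ = r z := ⟨_, fun _ => rfl⟩
  have hr0 : ∀ z, 0 ≤ r z := fun z => by
    rw [← hr]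
    exact norm_nonneg _
  have hf0 : ∀ z, 0 ≤ f z := fun z => by
    rw [← hf]
    exact sq_nonneg _
  simp only [hWd, hf, hr, hR, hac, hgg] at hW hact hhiz hloz hhigh ⊢
  clear hhi hlo H HU hSS hWd hf hr hR hac hgg
  have hW0 : ∀ z, 0 ≤ W z := fun z => (hW z).1
  obtain ⟨F, hF⟩ : ∃ F : ι → ℝ, ∀ z, F z = W z * f z := ⟨_, fun _ => rfl⟩
  obtain ⟨P, hP⟩ : ∃ P : ι → ℝ, ∀ z, P z = W z * r z ^ 2 := ⟨_, fun _ => rfl⟩
  have hF0 : ∀ z, 0 ≤ F z := fun z => by rw [hF]; exact mul_nonneg (hW0 z) (hf0 z)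
  have hP0 : ∀ z, 0 ≤ P z := fun z => by rw [hP]; exact mul_nonneg (hW0 z) (sq_nonneg _)
  have hRF0 : ∀ z, 0 ≤ R z * F z := fun z => mul_nonneg (by linarith [hR1 z]) (hF0 z)
  obtain ⟨Az, hAz⟩ : ∃ Az : ι → ℝ, ∀ z, Az z = k ^ 2 * ac z * R z * W z := ⟨_, fun _ => rfl⟩
  have hAz0 : ∀ z, 0 ≤ Az z := fun z => by
    rw [hAz]
    exact mul_nonneg (mul_nonneg (mul_nonneg (sq_nonneg _) (hac0 z)) (by linarith [hR1 z])) (hW0 z)
  obtain ⟨Mz, hMz⟩ : ∃ Mz : ι → ℝ, ∀ z, Mz z = (A * k) ^ 2 * W z *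
      ∑ w ∈ net.nb z, (if r w ≤ 6 / A then r w ^ 2 else 0) := ⟨_, fun _ => rfl⟩
  have hMz0 : ∀ z, 0 ≤ Mz z := fun z => by
    rw [hMz]
    refine mul_nonneg (mul_nonneg (sq_nonneg _) (hW0 z)) (Finset.sum_nonneg fun w _ => ?_)
    split_ifs
    · exact sq_nonneg _
    · exact le_rfl
  obtain ⟨Nz, hNz⟩ : ∃ Nz : ι → ℝ, ∀ z, Nz z = ∑ w ∈ net.nb z, (if r z < 1 / (2 * A) then
      1 / 2 * k ^ 2 * W z * (if 6 / A < r w then bbf β δ (r w) ^ 2 else 0) else 0) :=
    ⟨_, fun _ => rfl⟩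
  obtain ⟨X, hX⟩ : ∃ X : ι → ℝ, ∀ z, X z = if r z < 1 / (2 * A) then
      c1 * (P z + F z) - 2 * d * Cu / A * F z else Low A r2 Rc cv Cv (r z) * F z :=
    ⟨_, fun _ => rfl⟩
  obtain ⟨Y, hY⟩ : ∃ Y : ι → ℝ, ∀ z, Y z = if r z ≤ 6 / A then P z else 0 := ⟨_, fun _ => rfl⟩
  have hY0 : ∀ z, 0 ≤ Y z := fun z => by
    rw [hY]
    split_ifs
    · exact hP0 z
    · exact le_rfl
  obtain ⟨Z, hZ⟩ : ∃ Z : ι → ℝ, ∀ z, Z z = if z ≠ x ∧ r2 < r z ∧ r z < Rc then
      (CV + cV) * F z else 0 := ⟨_, fun _ => rfl⟩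
  obtain ⟨v, hv⟩ : ∃ v : ι → ℝ, ∀ z, v z = if z = x ∧ r2 < r x then -CV else cV :=
    ⟨_, fun _ => rfl⟩
  have hE0 : 0 ≤ Cu / A + 2 * Cu ^ 2 / A ^ 2 := by positivity
  -- the pointwise bounds
  have h1 : ∀ z, X z + Nz z - (Cu / A + 2 * Cu ^ 2 / A ^ 2) * Mz z - (K1 + K2) * sk * (R z * F z)
      - K2 * sk * Az z + θ * (ch * (R z * F z) - CH * F z) ≤ W z * gg z := by
    intro z
    by_cases hz : r z < 1 / (2 * A)
    · have e := mul_le_mul_of_nonneg_left (hloz z hz) (hW0 z)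
      have e' : 0 ≤ K1 * sk * (R z * F z) := mul_nonneg (mul_nonneg hK1 hsk0) (hRF0 z)
      have hN1 : Nz z = 1 / 2 * k ^ 2 * W z *
          ∑ w ∈ net.nb z, (if 6 / A < r w then bbf β δ (r w) ^ 2 else 0) := by
        rw [hNz, Finset.mul_sum]
        exact Finset.sum_congr rfl fun w _ => if_pos hz
      refine le_trans (le_trans (le_of_eq ?_) (sub_le_self _ e')) e
      rw [hX, if_pos hz, hN1, hMz, hAz, hP, hF, ← hsk, hc1d]
      ring
    · have e := mul_le_mul_of_nonneg_left (hhiz z (not_lt.1 hz)) (hW0 z)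
      refine le_trans ?_ e
      have hN1 : Nz z = 0 := by
        rw [hNz]
        exact Finset.sum_eq_zero fun w _ => if_neg hz
      rw [hX, if_neg hz, hN1]
      have e1 : 0 ≤ (Cu / A + 2 * Cu ^ 2 / A ^ 2) * Mz z := mul_nonneg hE0 (hMz0 z)
      have e2 : 0 ≤ K2 * sk * Az z := mul_nonneg (mul_nonneg hK2 hsk0) (hAz0 z)
      have e3 : 0 ≤ K2 * sk * (R z * F z) := mul_nonneg (mul_nonneg hK2 hsk0) (hRF0 z)
      have e4 : K1 * k * (R z * F z) ≤ K1 * sk * (R z * F z) :=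
        mul_le_mul_of_nonneg_right (mul_le_mul_of_nonneg_left hksk hK1) (hRF0 z)
      have e5 : W z * (f z * (Low A r2 Rc cv Cv (r z) - K1 * k * R z + θ * (ch * R z - CH))) =
          Low A r2 Rc cv Cv (r z) * F z - K1 * k * (R z * F z) +
          θ * (ch * (R z * F z) - CH * F z) := by
        rw [hF]
        ring
      rw [e5]
      linarith
  -- weak errors
  have h2 : (Cu / A + 2 * Cu ^ 2 / A ^ 2) * ∑ z, Mz z ≤ c1 / 2 * ∑ z, Y z := by
    have e1 : ∀ z, Mz z ≤ ∑ w ∈ net.nb z, 40 * Y w := by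
      intro z
      rw [hMz, Finset.mul_sum]
      refine Finset.sum_le_sum fun w hw => ?_
      rw [hY]
      split_ifs with h
      · have e2 := mul_le_mul_of_nonneg_right ((hW z).2.2.2.1 w hw h) (sq_nonneg (r w))
        rw [hP]
        linarith
      · simp
    have e2 : ∑ z, Mz z ≤ 2 * d * ∑ w, 40 * Y w :=
      (Finset.sum_le_sum fun z _ => e1 z).trans
        (LSC_dc net (fun w => 40 * Y w) (fun w => by linarith [hY0 w]))
    rw [← Finset.mul_sum] at e2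
    have e3 := mul_le_mul_of_nonneg_left e2 hE0
    have e4 : 0 ≤ ∑ z, Y z := Finset.sum_nonneg fun z _ => hY0 z
    have e5 := mul_le_mul_of_nonneg_right hc2 e4
    refine e3.trans (le_trans (le_of_eq ?_) e5)
    ring
  -- crude errors
  have h3 : ∑ z, Az z ≤ 512 * d * ∑ z, R z * F z := by
    have e1 : ∀ z, Az z ≤ ∑ w ∈ net.nb z, 256 * (R w * F w) := by
      intro z
      rw [hAz, ← Finset.mul_sum]
      simp only [hF]
      exact hact z
    have e2 := (Finset.sum_le_sum fun z _ => e1 z).trans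
        (LSC_dc net (fun w => 256 * (R w * F w)) (fun w => by linarith [hRF0 w]))
    rw [← Finset.mul_sum] at e2
    refine e2.trans (le_of_eq ?_)
    ring
  -- the frontier
  have h4 : ∑ z, Z z ≤ ∑ z, Nz z + ε * ∑ z, F z := by
    have hterm : ∀ z w, 0 ≤ (if r w < 1 / (2 * A) then
        1 / 2 * k ^ 2 * W w * (if 6 / A < r z then bbf β δ (r z) ^ 2 else 0) else 0) := by
      intro z w
      split_ifs
      · exact mul_nonneg (mul_nonneg (by positivity) (hW0 w)) (sq_nonneg _)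
      · simp
      · exact le_rfl
    have hc : 0 ≤ (CV + cV) * 50 * CF * (A * k) ^ 2 := by positivity
    have e1 : ∀ z, Z z ≤ ∑ w ∈ net.nb z, ((if r w < 1 / (2 * A) then
        1 / 2 * k ^ 2 * W w * (if 6 / A < r z then bbf β δ (r z) ^ 2 else 0) else 0) +
        (CV + cV) * 50 * CF * (A * k) ^ 2 * F w) := by
      intro z
      have hnn : ∀ w ∈ net.nb z, 0 ≤ (if r w < 1 / (2 * A) then
        1 / 2 * k ^ 2 * W w * (if 6 / A < r z then bbf β δ (r z) ^ 2 else 0) else 0) +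
        (CV + cV) * 50 * CF * (A * k) ^ 2 * F w := fun w _ =>
        add_nonneg (hterm z w) (mul_nonneg hc (hF0 w))
      rw [hZ]
      by_cases h : z ≠ x ∧ r2 < r z ∧ r z < Rc
      swap
      · rw [if_neg h]
        exact Finset.sum_nonneg hnn
      rw [if_pos h]
      obtain ⟨hzx, hz1, hz2⟩ := h
      obtain ⟨w, hw, hdist⟩ := net.toward x z hzx
      refine le_trans ?_ (Finset.single_le_sum hnn hw)
      have e2 := (hW z).2.2.2.2.2.1
      rw [← hF, ← hCF] at e2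
      have hpow : (A * k) ^ (2 * net.dist x z) = (A * k) ^ 2 * (A * k) ^ (2 * net.dist x w) := by
        rw [← hdist]
        ring
      have hq0 : 0 ≤ (A * k) ^ (2 * net.dist x w) := pow_nonneg hκ0 _
      by_cases hlw : r w < 1 / (2 * A)
      · rw [if_pos hlw, if_pos (lt_of_le_of_lt hAr hz1)]
        have e3 := (hW w).2.2.1 (hlw.le.trans h6A)
        have e4 : bF ≤ bbf β δ (r z) := by
          rw [hbF]
          unfold bbf
          refine mul_le_mul (mul_le_mul_of_nonneg_left hz1.le (by positivity)) ?_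
            (Real.rpow_nonneg hRc1.le _)
            (mul_nonneg (mul_nonneg hδ.le hβ1.le) (hr0 z))
          exact Real.rpow_le_rpow_of_nonpos (by linarith [hr0 z]) (by linarith) (by linarith)
        have e5 : bF ^ 2 ≤ bbf β δ (r z) ^ 2 := pow_le_pow_left₀ hbF0.le e4 2
        have e6 : (CV + cV) * F z ≤ (CV + cV) * ((A * k) ^ (2 * net.dist x z) * (CF / A ^ 2)) :=
          mul_le_mul_of_nonneg_left e2 (by positivity)
        have e7 : (CV + cV) * ((A * k) ^ (2 * net.dist x z) * (CF / A ^ 2)) =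
            k ^ 2 * (A * k) ^ (2 * net.dist x w) * (40 * CF * (CV + cV)) / 40 := by
          rw [hpow]
          field_simp
        have e8 : k ^ 2 * (A * k) ^ (2 * net.dist x w) * (40 * CF * (CV + cV)) ≤
            k ^ 2 * (20 * W w) * bbf β δ (r z) ^ 2 := by
          refine mul_le_mul (mul_le_mul_of_nonneg_left e3 (sq_nonneg _)) (hc3'.trans e5)
            (by positivity) ?_
          exact mul_nonneg (sq_nonneg _) (by linarith [hW0 w])
        have e9 : 0 ≤ (CV + cV) * 50 * CF * (A * k) ^ 2 * F w := mul_nonneg hc (hF0 w)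
        rw [e7] at e6
        linarith
      · rw [if_neg hlw, zero_add]
        have e3 := (hW w).2.2.2.2.2.2 (not_lt.1 hlw)
        rw [← hF] at e3
        have e6 : (CV + cV) * F z ≤ (CV + cV) * ((A * k) ^ (2 * net.dist x z) * (CF / A ^ 2)) :=
          mul_le_mul_of_nonneg_left e2 (by positivity)
        have e7 : (CV + cV) * ((A * k) ^ (2 * net.dist x z) * (CF / A ^ 2)) =
            (CV + cV) * CF * (A * k) ^ 2 / A ^ 2 * (A * k) ^ (2 * net.dist x w) := by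
          rw [hpow]
          ring
        have e8 : (CV + cV) * CF * (A * k) ^ 2 / A ^ 2 * (A * k) ^ (2 * net.dist x w) ≤
            (CV + cV) * CF * (A * k) ^ 2 / A ^ 2 * (50 * A ^ 2 * F w) :=
          mul_le_mul_of_nonneg_left e3 (by positivity)
        have e9 : (CV + cV) * CF * (A * k) ^ 2 / A ^ 2 * (50 * A ^ 2 * F w) =
            (CV + cV) * 50 * CF * (A * k) ^ 2 * F w := by
          field_simp
        rw [e7] at e6
        rw [e9] at e8
        exact e6.trans e8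
    have e2 : ∑ z, ∑ w ∈ net.nb z, (if r w < 1 / (2 * A) then
        1 / 2 * k ^ 2 * W w * (if 6 / A < r z then bbf β δ (r z) ^ 2 else 0) else 0) =
        ∑ w, Nz w := by
      rw [Finset.sum_comm' (t' := Finset.univ) (s' := fun w => net.nb w) (fun z w => by
        constructor
        · rintro ⟨_, h⟩
          exact ⟨net.nb_symm _ _ h, Finset.mem_univ _⟩
        · rintro ⟨h, _⟩
          exact ⟨Finset.mem_univ _, net.nb_symm _ _ h⟩)]
      exact Finset.sum_congr rfl fun w _ => (hNz w).symm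
    have e3 := LSC_dc net (fun w => (CV + cV) * 50 * CF * (A * k) ^ 2 * F w)
      (fun w => mul_nonneg hc (hF0 w))
    have e4 : ∑ z, Z z ≤ ∑ z, ∑ w ∈ net.nb z, ((if r w < 1 / (2 * A) then
        1 / 2 * k ^ 2 * W w * (if 6 / A < r z then bbf β δ (r z) ^ 2 else 0) else 0) +
        (CV + cV) * 50 * CF * (A * k) ^ 2 * F w) := Finset.sum_le_sum fun z _ => e1 z
    simp only [Finset.sum_add_distrib] at e4
    rw [e2] at e4
    have e5 : 0 ≤ ∑ z, F z := Finset.sum_nonneg fun z _ => hF0 z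
    have e6 : 2 * d * ∑ w, (CV + cV) * 50 * CF * (A * k) ^ 2 * F w = T * k ^ 2 * ∑ w, F w := by
      rw [← Finset.mul_sum, hT]
      ring
    have e7 := mul_le_mul_of_nonneg_right hTk e5
    linarith
  have hRcr : r2 < Rc := by linarith
  have h5 : ∀ z, v z * F z ≤ X z - c1 / 2 * Y z + Z z := by
    intro z
    have hFz := hF0 z
    have hPz := hP0 z
    by_cases hz1 : r z < 1 / (2 * A)
    · have hz6 : r z ≤ 6 / A := hz1.le.trans h6A
      have hzr : ¬ r2 < r z := not_lt.2 (hz6.trans hAr)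
      have hv1 : v z = cV := by
        rw [hv]
        exact if_neg fun h : z = x ∧ r2 < r x => hzr (by rw [h.1]; exact h.2)
      have hZ1 : Z z = 0 := by
        rw [hZ]
        exact if_neg fun h => hzr h.2.1
      rw [hv1, hZ1, hX, if_pos hz1, hY, if_pos hz6]
      have e1 := mul_le_mul_of_nonneg_right hc1 hFz
      have e2 := mul_le_mul_of_nonneg_right hc4 hFz
      have e3 : 0 ≤ c1 * P z := mul_nonneg hc10.le hPz
      have e4 : 0 ≤ c1 * F z := mul_nonneg hc10.le hFz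
      linarith
    · have hz1' := not_lt.1 hz1
      rw [hX, if_neg hz1]
      by_cases hz6 : r z ≤ 6 / A
      · have hzr : ¬ r2 < r z := not_lt.2 (hz6.trans hAr)
        have hv1 : v z = cV := by
          rw [hv]
          exact if_neg fun h : z = x ∧ r2 < r x => hzr (by rw [h.1]; exact h.2)
        have hZ1 : Z z = 0 := by
          rw [hZ]
          exact if_neg fun h => hzr h.2.1
        have hL : Low A r2 Rc cv Cv (r z) = 1 / 24 := if_pos hz6
        rw [hv1, hZ1, hY, if_pos hz6, hL]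
        have e1 := (hhigh z hz1').1
        have e2 : 49 / 64 * P z ≤ F z := by
          rw [hP, hF]
          have := mul_le_mul_of_nonneg_left e1 (hW0 z)
          linarith
        have e3 := mul_le_mul_of_nonneg_left e2 hc10.le
        have e4 := mul_le_mul_of_nonneg_right hc172 hFz
        have e5 := mul_le_mul_of_nonneg_right hc4 hFz
        have e6 : 0 ≤ c1 * P z := mul_nonneg hc10.le hPz
        have e7 : 0 ≤ c1 * F z := mul_nonneg hc10.le hFz
        linarith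
      · have hY1 : Y z = 0 := by
          rw [hY]
          exact if_neg hz6
        rw [hY1]
        by_cases hzr : r z ≤ r2
        · have hv1 : v z = cV := by
            rw [hv]
            exact if_neg fun h : z = x ∧ r2 < r x => not_lt.2 hzr (by rw [h.1]; exact h.2)
          have hZ1 : Z z = 0 := by
            rw [hZ]
            exact if_neg fun h => not_lt.2 hzr h.2.1
          have hL : Low A r2 Rc cv Cv (r z) = cV := by
            unfold Low
            rw [if_neg hz6, if_pos hzr, hcV]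
          rw [hv1, hZ1, hL]
          linarith
        · have hzr' := not_le.1 hzr
          by_cases hzc : r z < Rc
          · have hL : Low A r2 Rc cv Cv (r z) = -CV := by
              unfold Low
              rw [if_neg hz6, if_neg hzr, if_pos hzc, hCV]
            rw [hL]
            by_cases hzx : z = x
            · have hv1 : v z = -CV := by
                rw [hv]
                exact if_pos ⟨hzx, hzx ▸ hzr'⟩
              have hZ1 : Z z = 0 := by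
                rw [hZ]
                exact if_neg fun h => h.1 hzx
              rw [hv1, hZ1]
              linarith
            · have hv1 : v z = cV := by
                rw [hv]
                exact if_neg fun h => hzx h.1
              have hZ1 : Z z = (CV + cV) * F z := by
                rw [hZ]
                exact if_pos ⟨hzx, hzr', hzc⟩
              rw [hv1, hZ1]
              linarith
          · have hL : Low A r2 Rc cv Cv (r z) = cV := by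
              unfold Low
              rw [if_neg hz6, if_neg hzr, if_neg hzc, hcV]
            have hZ1 : Z z = 0 := by
              rw [hZ]
              exact if_neg fun h => hzc h.2.2
            rw [hL, hZ1]
            have hv1 : v z ≤ cV := by
              rw [hv]
              split_ifs
              · linarith
              · exact le_rfl
            have := mul_le_mul_of_nonneg_right hv1 hFz
            linarith
  have hS0 : 0 ≤ ∑ z, F z := Finset.sum_nonneg fun z _ => hF0 z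
  have hmain := LSFin_core (d : ℝ) v X Y Z (fun z => W z * gg z) F R Mz Nz Az
    (Cu / A + 2 * Cu ^ 2 / A ^ 2) K1 K2 sk θ ch CH ε c1 h1 h2 h3 h4 h5
    (Finset.sum_nonneg fun z _ => hRF0 z) hS0 hK2 hsk0 hθch hθCH
  have hSF : ∑ z, W z * f z = ∑ z, F z := Finset.sum_congr rfl fun z _ => (hF z).symm
  rw [hSF, ← hcV, ← hCV]
  refine le_trans ?_ hmain
  by_cases hx : r x ≤ r2
  · rw [if_pos hx]
    have e1 : ∑ z, v z * F z = cV * ∑ z, F z := by
      rw [Finset.mul_sum]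
      refine Finset.sum_congr rfl fun z _ => ?_
      rw [hv, if_neg fun h => not_lt.2 hx h.2]
    rw [e1]
    have e2 := mul_le_mul_of_nonneg_right hε1 hS0
    have e3 : 0 ≤ cV * ∑ z, F z := mul_nonneg hcV0.le hS0
    linarith
  · rw [if_neg hx]
    have e1 : -CV * ∑ z, F z ≤ ∑ z, v z * F z := by
      rw [Finset.mul_sum]
      refine Finset.sum_le_sum fun z _ => mul_le_mul_of_nonneg_right ?_ (hF0 z)
      rw [hv]
      split_ifs
      · exact le_rfl
      · linarith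
    have e2 := mul_le_mul_of_nonneg_right hε2 hS0
    have e3 : 0 ≤ CV * ∑ z, F z := mul_nonneg hCV0.le hS0
    linarith

end Dyn
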