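import Pool.Agent.Lib_MP_36b788.LSC
import Pool.Agent.Lib_MP_36b788.LSGt

/-!
# LSHI: pointwise lower bound for the drift term at a high site

`f = ‖Y_z‖²`, `r = ‖G_z‖`, `GGt z = GG1 z + f (lam z - θ eta z)`.

HIGH (`r ≥ 1/(2A)`), all errors are `≤ K1 k R̄_z f`:
* `(N-2)(r²-f) ≥ -(N-2)‖Y-G‖(‖Y‖+r) ≥ -C k f` (`‖Y-G‖ ≤ 4dCyk`, `r ≤ 2A r²`, `f ≥ r²/2`).
* `-2r^β⟪Y,G⟫ + 2r^βf = 2r^β⟪Y,Y-G⟫ ≥ -2r^β‖Y‖·4dCyk`, `‖Y‖ ≤ 2f/r`, `r^{β-1} ≤ R̄_z`.
* `-4dk⟪Y,G⟫ ≥ -C k f`; `2kΣ⟪Y,U_w⟫ ≥ -2k‖Y‖·2d·6Cu/A ≥ -CkA f`... (`‖Y‖ ≤ 2f/r ≤ 4A f`).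
* `CL`-term: `‖coup_w‖ ≤ 12d R̄_z`; `k²Σ nz ≥ -k²·2d·36Cu²/A²`, `1 ≤ 8A² f`.
* `lam1`, `eta1`, `‖coup_z‖ ≤ 6d R̄_z`.
-/

open MeasureTheory

namespace Dyn

private theorem LSHi_gam {β : ℝ} : 1 ≤ gam β ∧ β - 1 ≤ gam β := by
  unfold gam epsE
  have h1 := min_le_left (β - 1) 1
  have h2 := min_le_right (β - 1) 1
  constructor <;> linarith

private theorem LSHi_pow {β x : ℝ} (hx : 0 ≤ x) : x ≤ (1 + x) ^ gam β ∧ 1 ≤ (1 + x) ^ gam β := by
  have h1 : (1 : ℝ) ≤ 1 + x := by linarith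
  have h2 : (1 + x) ^ (1 : ℝ) ≤ (1 + x) ^ gam β :=
    Real.rpow_le_rpow_of_exponent_le h1 LSHi_gam.1
  rw [Real.rpow_one] at h2
  constructor <;> linarith

private theorem LSHi_Rb_sum {N d : ℕ} {ι : Type} [Fintype ι] (net : Net ι d) (β : ℝ)
    (G : ι → E N) (z : ι) (s : Finset ι) (c : ℝ)
    (h : ∀ w ∈ s, c ≤ (1 / 2 : ℝ) ^ net.dist z w) :
    c * ∑ w ∈ s, ‖G w‖ ≤ Rb net β G z := by
  unfold Rb
  rw [Finset.mul_sum]
  calc ∑ w ∈ s, c * ‖G w‖ ≤ ∑ w ∈ s, (1 / 2 : ℝ) ^ net.dist z w * (1 + ‖G w‖) ^ gam β := by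
        refine Finset.sum_le_sum fun w hw => ?_
        have h0 := norm_nonneg (G w)
        exact mul_le_mul (h w hw) (LSHi_pow h0).1 h0 (by positivity)
    _ ≤ ∑ w, (1 / 2 : ℝ) ^ net.dist z w * (1 + ‖G w‖) ^ gam β := by
        refine Finset.sum_le_sum_of_subset_of_nonneg (Finset.subset_univ _) fun w _ _ => ?_
        have h0 := norm_nonneg (G w)
        positivity

private theorem LSHi_Rb_self {N d : ℕ} {ι : Type} [Fintype ι] (net : Net ι d) (β : ℝ)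
    (G : ι → E N) (z : ι) : (1 + ‖G z‖) ^ gam β ≤ Rb net β G z := by
  have h := Finset.single_le_sum (f := fun w => (1 / 2 : ℝ) ^ net.dist z w *
    (1 + ‖G w‖) ^ gam β) (s := Finset.univ) (fun w _ => by
      have h0 := norm_nonneg (G w)
      positivity) (Finset.mem_univ z)
  simpa [net.dist_self, Rb] using h

private theorem LSHi_coup {N d : ℕ} {ι : Type} [Fintype ι] (net : Net ι d)
    (G : ι → E N) (x : ι) :
    ‖coup net G x‖ ≤ ∑ y ∈ net.nb x, ‖G y‖ + 2 * d * ‖G x‖ := by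
  unfold coup
  refine (norm_sub_le _ _).trans (add_le_add (norm_sum_le _ _) ?_)
  rw [norm_smul, Real.norm_eq_abs, abs_of_nonneg (by positivity)]
  push_cast
  exact le_rfl

theorem ls_hi (N d : ℕ) (β δ Cy Cu A CM : ℝ) (hδ : 0 < δ) (hCM : 0 ≤ CM) :
    ∃ K1 : ℝ, 0 ≤ K1 ∧
    ∀ {ι : Type} [Fintype ι] {net : Net ι d} {k Rc θ r2 cv Cv ch CH : ℝ} {y : ℝ → ℝ}
      {G U : ι → E N} {lam eta : ι → ℝ},
      LSB net β Cy Cu k A Rc θ y G → LSU net β Cu k A r2 Rc cv Cv CM ch CH G U lam eta →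
      ∀ z, 1 / (2 * A) ≤ ‖G z‖ →
      ‖Yv net k (1 / A) y G z‖ ^ 2 * (Low A r2 Rc cv Cv ‖G z‖ - K1 * k * Rb net β G z
        + θ * (ch * Rb net β G z - CH)) ≤ GGt net β δ Cu k A θ y G U lam eta z := by
  refine ⟨max 0 ((N - 2) * (9 * A * (4 * d * Cy)) + 5 * (4 * d * Cy) + 9 * d + 108 * d * Cu
    + 9 * Cu * d * (4 + 4 * d) + 576 * d * Cu ^ 2 + CM * (2 + 2 * d)), le_max_left _ _, ?_⟩
  intro ι _ net k Rc θ r2 cv Cv ch CH y G U lam eta H HU z hz
  set K0 : ℝ := (N - 2) * (9 * A * (4 * d * Cy)) + 5 * (4 * d * Cy) + 9 * d + 108 * d * Cu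
    + 9 * Cu * d * (4 + 4 * d) + 576 * d * Cu ^ 2 + CM * (2 + 2 * d) with hK0
  set K1 : ℝ := max 0 K0 with hK1
  have hKle : K0 ≤ K1 := le_max_right _ _
  have hN : (3 : ℝ) ≤ N := by exact_mod_cast H.hN
  have hd0 : (0 : ℝ) ≤ d := Nat.cast_nonneg d
  have hCy := H.hCy
  have hCu := H.hCu
  have hA := H.hA
  have hA0 : 0 < A := by linarith
  have hk := H.hk
  have hAk := H.hAk
  have hk1 : k ≤ 1 := by
    have := mul_le_mul_of_nonneg_right hA hk
    linarith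
  set Y := Yv net k (1 / A) y G z with hY
  set r := ‖G z‖ with hr
  set ρ := Rb net β G z with hρ
  have hr0 : 0 < r := lt_of_lt_of_le (by positivity) hz
  have hAr : 1 ≤ 2 * A * r := by
    have := mul_le_mul_of_nonneg_left hz (by positivity : (0 : ℝ) ≤ 2 * A)
    rwa [mul_one_div_cancel (by positivity)] at this
  obtain ⟨hlo, hhi⟩ := ls_high H z hz
  rw [← hY, ← hr] at hlo hhi
  set f := ‖Y‖ ^ 2 with hf
  have hf0 : 0 ≤ f := by positivity
  have hr2f : r ^ 2 ≤ 2 * f := by linarith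
  have hYn : ‖Y‖ ≤ 9 / 8 * r := by
    have : ‖Y‖ ^ 2 ≤ (9 / 8 * r) ^ 2 := by
      have h1 : (9 / 8 * r) ^ 2 = 81 / 64 * r ^ 2 := by ring
      rw [h1]
      exact hhi
    exact le_of_sq_le_sq this (by positivity)
  have hY0 := norm_nonneg Y
  obtain ⟨hnear, -, hact0, hact1⟩ := ls_near H z
  rw [← hY] at hnear
  set D : ℝ := 4 * d * Cy with hD
  have hD0 : 0 ≤ D := by positivity
  have hDk : ‖Y - G z‖ ≤ D * k := by
    refine hnear.trans ?_
    have : D * k * act net A G z ≤ D * k * 1 := mul_le_mul_of_nonneg_left hact1 (by positivity)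
    linarith
  have hρr := LSHi_Rb_self net β G z
  rw [← hr, ← hρ] at hρr
  have hρ1 : 1 ≤ ρ := (LSHi_pow hr0.le).2.trans hρr
  have hρ2 : r ≤ ρ := (LSHi_pow hr0.le).1.trans hρr
  -- bound for ‖Y‖ by f
  have hrf : r ≤ 4 * A * f := by
    have h1 : r * 1 ≤ r * (2 * A * r) := mul_le_mul_of_nonneg_left hAr hr0.le
    have h2 : 2 * A * r ^ 2 ≤ 2 * A * (2 * f) :=
      mul_le_mul_of_nonneg_left hr2f (by positivity)
    linarith
  have hYf : ‖Y‖ ≤ 9 / 2 * A * f := by linarith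
  -- (a)
  have ha : -((N - 2) * (9 * A * D) * (k * ρ * f)) ≤ (N - 2) * (r ^ 2 - f) := by
    have h1 : |r - ‖Y‖| ≤ D * k := by
      rw [hr, abs_sub_comm]
      exact (abs_norm_sub_norm_le Y (G z)).trans hDk
    have h2 : f - r ^ 2 ≤ D * k * (17 / 8 * r) := by
      have h3 : f - r ^ 2 = (‖Y‖ - r) * (‖Y‖ + r) := by rw [hf]; ring
      rw [h3]
      have h4 : ‖Y‖ - r ≤ D * k := by
        have := neg_abs_le (r - ‖Y‖)
        linarith
      calc (‖Y‖ - r) * (‖Y‖ + r) ≤ D * k * (‖Y‖ + r) :=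
            mul_le_mul_of_nonneg_right h4 (by positivity)
        _ ≤ D * k * (17 / 8 * r) := mul_le_mul_of_nonneg_left (by linarith) (by positivity)
    have h5 : D * k * (17 / 8 * r) ≤ D * k * (9 * A * f) :=
      mul_le_mul_of_nonneg_left (by
        have : 0 ≤ A * f := by positivity
        linarith) (by positivity)
    have h6 : D * k * (9 * A * f) ≤ 9 * A * D * (k * ρ * f) := by
      have h7 : 0 ≤ D * k * (9 * A * f) := by positivity
      have h8 : D * k * (9 * A * f) * 1 ≤ D * k * (9 * A * f) * ρ :=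
        mul_le_mul_of_nonneg_left hρ1 h7
      linarith
    have h9 : 0 ≤ (N : ℝ) - 2 := by linarith
    have h10 : (N - 2) * (f - r ^ 2) ≤ (N - 2) * (9 * A * D * (k * ρ * f)) :=
      mul_le_mul_of_nonneg_left (by linarith) h9
    linarith
  -- (b)
  have hb : -(5 * D * (k * ρ * f)) ≤ 2 * r ^ β * (f - inner ℝ Y (G z)) := by
    have h1 : f - inner ℝ Y (G z) = inner ℝ Y (Y - G z) := by
      rw [inner_sub_right, real_inner_self_eq_norm_sq]
    have h2 : -(‖Y‖ * (D * k)) ≤ inner ℝ Y (Y - G z) := by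
      have h3 := abs_real_inner_le_norm Y (Y - G z)
      have h4 := neg_abs_le (inner ℝ Y (Y - G z))
      have h5 : ‖Y‖ * ‖Y - G z‖ ≤ ‖Y‖ * (D * k) := mul_le_mul_of_nonneg_left hDk hY0
      linarith
    rw [h1]
    have hrβ : 0 ≤ r ^ β := by positivity
    have h6 : r ^ β = r ^ (β - 1) * r := by
      rw [← Real.rpow_add_one hr0.ne']; congr 1; ring
    have h7 : r ^ (β - 1) ≤ ρ := by
      have hβ := H.hβ
      calc r ^ (β - 1) ≤ (1 + r) ^ (β - 1) :=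
            Real.rpow_le_rpow hr0.le (by linarith) (by linarith)
        _ ≤ (1 + r) ^ gam β := Real.rpow_le_rpow_of_exponent_le (by linarith) LSHi_gam.2
        _ ≤ ρ := hρr
    have h8 : r ^ β * ‖Y‖ ≤ 9 / 4 * (ρ * f) := by
      calc r ^ β * ‖Y‖ ≤ r ^ β * (9 / 8 * r) := mul_le_mul_of_nonneg_left hYn hrβ
        _ = r ^ (β - 1) * (9 / 8 * r ^ 2) := by rw [h6]; ring
        _ ≤ ρ * (9 / 8 * r ^ 2) := mul_le_mul_of_nonneg_right h7 (by positivity)
        _ ≤ ρ * (9 / 8 * (2 * f)) := mul_le_mul_of_nonneg_left (by linarith) (by linarith)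
        _ = 9 / 4 * (ρ * f) := by ring
    have h9 : 2 * r ^ β * -(‖Y‖ * (D * k)) ≤ 2 * r ^ β * inner ℝ Y (Y - G z) :=
      mul_le_mul_of_nonneg_left h2 (by positivity)
    have h10 : r ^ β * ‖Y‖ * (2 * D * k) ≤ 9 / 4 * (ρ * f) * (2 * D * k) :=
      mul_le_mul_of_nonneg_right h8 (by positivity)
    have h11 : 0 ≤ D * (k * ρ * f) := by positivity
    linarith
  -- (c)
  have hc : -(9 * d * (k * ρ * f)) ≤ -(4 * d * k * inner ℝ Y (G z)) := by
    have h3 := abs_real_inner_le_norm Y (G z)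
    have h4 := le_abs_self (inner ℝ Y (G z))
    have h5 : inner ℝ Y (G z) ≤ 9 / 4 * f := by
      have : ‖Y‖ * r ≤ 9 / 8 * r * r := mul_le_mul_of_nonneg_right hYn hr0.le
      rw [← hr] at h3
      linarith
    have h6 : 4 * d * k * inner ℝ Y (G z) ≤ 4 * d * k * (9 / 4 * f) :=
      mul_le_mul_of_nonneg_left h5 (by positivity)
    have h7 : 0 ≤ 9 * d * k * f := by positivity
    have h8 : 9 * d * k * f * 1 ≤ 9 * d * k * f * ρ := mul_le_mul_of_nonneg_left hρ1 h7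
    linarith
  have hcard : ((net.nb z).card : ℝ) ≤ 2 * d := by exact_mod_cast net.nb_card z
  have hkf0 : 0 ≤ k * f := by positivity
  have hkf : k * f ≤ k * ρ * f := by
    have : k * f * 1 ≤ k * f * ρ := mul_le_mul_of_nonneg_left hρ1 hkf0
    linarith
  -- (d)
  have hdd : -(108 * d * Cu * (k * ρ * f)) ≤ 2 * k * ∑ w ∈ net.nb z, inner ℝ Y (U w) := by
    have h1 : ∀ w ∈ net.nb z, -(‖Y‖ * (6 * Cu / A)) ≤ inner ℝ Y (U w) := by
      intro w _
      have h3 := abs_real_inner_le_norm Y (U w)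
      have h4 := neg_abs_le (inner ℝ Y (U w))
      have h5 : ‖U w‖ ≤ 6 * Cu / A := by
        refine (HU.U_bd w).trans ?_
        split_ifs with h
        · have := mul_le_mul_of_nonneg_left h (by linarith : (0 : ℝ) ≤ Cu)
          calc Cu * ‖G w‖ ≤ Cu * (6 / A) := this
            _ = 6 * Cu / A := by ring
        · positivity
      have h6 : ‖Y‖ * ‖U w‖ ≤ ‖Y‖ * (6 * Cu / A) := mul_le_mul_of_nonneg_left h5 hY0
      linarith
    have h2 : -(2 * d * (‖Y‖ * (6 * Cu / A))) ≤ ∑ w ∈ net.nb z, inner ℝ Y (U w) := by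
      have h3 := Finset.card_nsmul_le_sum (net.nb z) (fun w => inner ℝ Y (U w))
        (-(‖Y‖ * (6 * Cu / A))) h1
      rw [nsmul_eq_mul] at h3
      have h4 : 0 ≤ ‖Y‖ * (6 * Cu / A) := by positivity
      have h5 : ((net.nb z).card : ℝ) * (‖Y‖ * (6 * Cu / A)) ≤ 2 * d * (‖Y‖ * (6 * Cu / A)) :=
        mul_le_mul_of_nonneg_right hcard h4
      linarith
    have h3 : 2 * d * (‖Y‖ * (6 * Cu / A)) ≤ 54 * d * Cu * f := by
      have h4 : ‖Y‖ * (6 * Cu / A) ≤ 9 / 2 * A * f * (6 * Cu / A) :=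
        mul_le_mul_of_nonneg_right hYf (by positivity)
      have h5 : 9 / 2 * A * f * (6 * Cu / A) = 27 * Cu * f := by
        field_simp
        ring
      rw [h5] at h4
      have := mul_le_mul_of_nonneg_left h4 (by positivity : (0 : ℝ) ≤ 2 * d)
      linarith
    have h4 : 2 * k * -(54 * d * Cu * f) ≤ 2 * k * ∑ w ∈ net.nb z, inner ℝ Y (U w) :=
      mul_le_mul_of_nonneg_left (by linarith) (by positivity)
    have h5 : 108 * d * Cu * (k * f) ≤ 108 * d * Cu * (k * ρ * f) :=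
      mul_le_mul_of_nonneg_left hkf (by positivity)
    linarith
  -- (e)
  have hcw : ∀ w ∈ net.nb z, ‖coup net G w‖ ≤ (4 + 4 * d) * ρ := by
    intro w hw
    have h1 := LSHi_coup net G w
    have hzw : net.dist z w = 1 := net.dist_nb z w hw
    have h2 : 1 / 4 * ∑ v ∈ net.nb w, ‖G v‖ ≤ ρ := by
      refine LSHi_Rb_sum net β G z (net.nb w) (1 / 4) fun v hv => ?_
      have hwv : net.dist w v = 1 := net.dist_nb w v hv
      have h3 := net.dist_tri z w v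
      have h4 : net.dist z v ≤ 2 := by omega
      calc (1 / 4 : ℝ) = (1 / 2) ^ 2 := by norm_num
        _ ≤ (1 / 2) ^ net.dist z v :=
            pow_le_pow_of_le_one (by norm_num) (by norm_num) h4
    have h3 : 1 / 2 * ∑ v ∈ ({w} : Finset ι), ‖G v‖ ≤ ρ := by
      refine LSHi_Rb_sum net β G z {w} (1 / 2) fun v hv => ?_
      rw [Finset.mem_singleton] at hv
      rw [hv, hzw, pow_one]
    rw [Finset.sum_singleton] at h3
    have h4 : 2 * d * ‖G w‖ ≤ 2 * d * (2 * ρ) :=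
      mul_le_mul_of_nonneg_left (by linarith) (by positivity)
    linarith
  have he : -(9 * Cu * d * (4 + 4 * d) * (k * ρ * f)) ≤
      -(2 * Cu * k ^ 2 * ‖Y‖ *
        ∑ w ∈ net.nb z, (if 1 / (2 * A) ≤ ‖G w‖ then ‖coup net G w‖ else 0)) := by
    have h1 : ∑ w ∈ net.nb z, (if 1 / (2 * A) ≤ ‖G w‖ then ‖coup net G w‖ else 0) ≤
        2 * d * ((4 + 4 * d) * ρ) := by
      have h2 := Finset.sum_le_card_nsmul (net.nb z)
        (fun w => if 1 / (2 * A) ≤ ‖G w‖ then ‖coup net G w‖ else 0) ((4 + 4 * d) * ρ)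
        (fun w hw => by
          split_ifs
          · exact hcw w hw
          · positivity)
      rw [nsmul_eq_mul] at h2
      have h3 : ((net.nb z).card : ℝ) * ((4 + 4 * d) * ρ) ≤ 2 * d * ((4 + 4 * d) * ρ) :=
        mul_le_mul_of_nonneg_right hcard (by positivity)
      linarith
    have h2 : 2 * Cu * k ^ 2 * ‖Y‖ ≤ 2 * Cu * k ^ 2 * (9 / 2 * A * f) :=
      mul_le_mul_of_nonneg_left hYf (by positivity)
    have h3 : 2 * Cu * k ^ 2 * (9 / 2 * A * f) ≤ 9 / 2 * Cu * (k * f) := by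
      have h4 : 9 * Cu * (k * f) * (A * k) ≤ 9 * Cu * (k * f) * (1 / 2) :=
        mul_le_mul_of_nonneg_left hAk (by positivity)
      linarith
    have h4 : 2 * Cu * k ^ 2 * ‖Y‖ *
        ∑ w ∈ net.nb z, (if 1 / (2 * A) ≤ ‖G w‖ then ‖coup net G w‖ else 0) ≤
        9 / 2 * Cu * (k * f) * (2 * d * ((4 + 4 * d) * ρ)) := by
      refine mul_le_mul (h2.trans h3) h1 (Finset.sum_nonneg fun w _ => ?_) (by positivity)
      split_ifs
      · exact norm_nonneg _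
      · exact le_rfl
    linarith
  -- (f)
  have hff : -(576 * d * Cu ^ 2 * (k * ρ * f)) ≤
      k ^ 2 * ∑ w ∈ net.nb z, nz net β δ Cu k A y G z w := by
    have h1 : ∀ w ∈ net.nb z, -(36 * Cu ^ 2 / A ^ 2) ≤ nz net β δ Cu k A y G z w := by
      intro w _
      unfold nz
      split_ifs with h
      · have : 0 ≤ 36 * Cu ^ 2 / A ^ 2 := by positivity
        have h2 : 0 ≤ 1 / 2 * (bbf β δ ‖G w‖ ^ 2 +
          (inner ℝ (uni (Yv net k (1 / A) y G z)) (ctil (1 / A) y (G w))) ^ 2) := by positivity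
        linarith
      · rw [not_lt] at h
        have h2 : ‖G w‖ ^ 2 ≤ (6 / A) ^ 2 := pow_le_pow_left₀ (norm_nonneg _) h 2
        have h3 : Cu ^ 2 * ‖G w‖ ^ 2 ≤ Cu ^ 2 * (6 / A) ^ 2 :=
          mul_le_mul_of_nonneg_left h2 (by positivity)
        have h4 : Cu ^ 2 * (6 / A) ^ 2 = 36 * Cu ^ 2 / A ^ 2 := by
          field_simp
          ring
        linarith
    have h2 : -(2 * d * (36 * Cu ^ 2 / A ^ 2)) ≤ ∑ w ∈ net.nb z, nz net β δ Cu k A y G z w := by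
      have h3 := Finset.card_nsmul_le_sum (net.nb z) (fun w => nz net β δ Cu k A y G z w)
        (-(36 * Cu ^ 2 / A ^ 2)) h1
      rw [nsmul_eq_mul] at h3
      have h5 : ((net.nb z).card : ℝ) * (36 * Cu ^ 2 / A ^ 2) ≤ 2 * d * (36 * Cu ^ 2 / A ^ 2) :=
        mul_le_mul_of_nonneg_right hcard (by positivity)
      linarith
    have h3 : 1 ≤ 8 * A ^ 2 * f := by
      have h4 : 1 ≤ (2 * A * r) ^ 2 := one_le_pow₀ hAr
      have h5 : 4 * A ^ 2 * r ^ 2 ≤ 4 * A ^ 2 * (2 * f) :=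
        mul_le_mul_of_nonneg_left hr2f (by positivity)
      linarith
    have h4 : 2 * d * (36 * Cu ^ 2 / A ^ 2) ≤ 576 * d * Cu ^ 2 * f := by
      have h5 : 2 * d * (36 * Cu ^ 2 / A ^ 2) * 1 ≤
          2 * d * (36 * Cu ^ 2 / A ^ 2) * (8 * A ^ 2 * f) :=
        mul_le_mul_of_nonneg_left h3 (by positivity)
      have h6 : 2 * d * (36 * Cu ^ 2 / A ^ 2) * (8 * A ^ 2 * f) = 576 * d * Cu ^ 2 * f := by
        field_simp
        ring
      linarith
    have h5 : k ^ 2 * -(576 * d * Cu ^ 2 * f) ≤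
        k ^ 2 * ∑ w ∈ net.nb z, nz net β δ Cu k A y G z w :=
      mul_le_mul_of_nonneg_left (by linarith) (by positivity)
    have h6 : k ^ 2 * (576 * d * Cu ^ 2 * f) ≤ k * (576 * d * Cu ^ 2 * f) := by
      have : k ^ 2 ≤ k := by
        have := mul_le_mul_of_nonneg_left hk1 hk
        rw [pow_two]
        linarith
      exact mul_le_mul_of_nonneg_right this (by positivity)
    have h7 : 576 * d * Cu ^ 2 * (k * f) ≤ 576 * d * Cu ^ 2 * (k * ρ * f) :=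
      mul_le_mul_of_nonneg_left hkf (by positivity)
    linarith
  -- (g)
  have hcz : ‖coup net G z‖ ≤ (2 + 2 * d) * ρ := by
    have h1 := LSHi_coup net G z
    have h2 : 1 / 2 * ∑ v ∈ net.nb z, ‖G v‖ ≤ ρ := by
      refine LSHi_Rb_sum net β G z (net.nb z) (1 / 2) fun v hv => ?_
      rw [net.dist_nb z v hv, pow_one]
    have h4 : 2 * d * ‖G z‖ ≤ 2 * d * ρ :=
      mul_le_mul_of_nonneg_left hρ2 (by positivity)
    linarith
  have hg : CM * k * ‖coup net G z‖ * f ≤ CM * (2 + 2 * d) * (k * ρ * f) := by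
    have h1 : CM * k * f * ‖coup net G z‖ ≤ CM * k * f * ((2 + 2 * d) * ρ) :=
      mul_le_mul_of_nonneg_left hcz (by positivity)
    linarith
  have hlam := mul_le_mul_of_nonneg_left (HU.lam1 z) hf0
  have heta := mul_le_mul_of_nonneg_left (mul_le_mul_of_nonneg_left (HU.eta1 z) H.hθ) hf0
  rw [← hr] at hlam
  rw [← hρ] at heta
  have hKK : K0 * (k * ρ * f) ≤ K1 * (k * ρ * f) :=
    mul_le_mul_of_nonneg_right hKle (by positivity)
  unfold GGt GG1
  rw [← hY, ← hr, ← hf]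
  have hK0e : K0 * (k * ρ * f) = (N - 2) * (9 * A * D) * (k * ρ * f) + 5 * D * (k * ρ * f)
      + 9 * d * (k * ρ * f) + 108 * d * Cu * (k * ρ * f)
      + 9 * Cu * d * (4 + 4 * d) * (k * ρ * f) + 576 * d * Cu ^ 2 * (k * ρ * f)
      + CM * (2 + 2 * d) * (k * ρ * f) := by
    rw [hK0]; ring
  linarith [ha, hb, hc, hdd, he, hff, hg, hlam, heta, hKK, hK0e]

end Dyn
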