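import Pool.Agent.Lib_MP_36b788.LSDefs

/-!
# Hypothesis packages for the deterministic part of the drift of `log S`
-/

open MeasureTheory

namespace Dyn

/-- facts on one configuration `G` (from MMB, CTIL and smallness of `k`) -/
structure LSB {N d : ℕ} {ι : Type} [Fintype ι] (net : Net ι d)
    (β Cy Cu k A Rc θ : ℝ) (y : ℝ → ℝ) (G : ι → E N) : Prop where
  hN : 3 ≤ N
  hβ : 1 < β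
  hCy : 1 ≤ Cy
  hCu : 1 ≤ Cu
  hA : 6 ≤ A
  hRc : 1 ≤ Rc
  hk : 0 ≤ k
  hk1 : k * (4 * d * Cy) ≤ 1 / (16 * A)
  hks : 4 * d * Cy * Real.sqrt k ≤ 1 / 8
  hAk : A * k ≤ 1 / 2
  hθ : 0 ≤ θ
  hθ3 : θ * 3 ^ d ≤ Real.log 2
  mm_pos : ∀ z, 0 < mm N β (1 / A) Rc ‖G z‖
  mm_le : ∀ z, mm N β (1 / A) Rc ‖G z‖ ≤ 2
  mm_weak : ∀ z, ‖G z‖ ≤ 6 / A → 1 / 10 ≤ mm N β (1 / A) Rc ‖G z‖
  mm_high : ∀ z, 1 / (2 * A) ≤ ‖G z‖ → 1 / (16 * A ^ 2) ≤ mm N β (1 / A) Rc ‖G z‖ * ‖G z‖ ^ 2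
  mm_up : ∀ z, mm N β (1 / A) Rc ‖G z‖ * ‖G z‖ ^ 2 ≤ 16 * (32 * N) ^ 4 / A ^ 2
  ct_bdd : ∀ w, ‖ctil (1 / A) y (G w)‖ ≤ 2 * Cy
  ct_lin : ∀ w, ‖ctil (1 / A) y (G w)‖ ≤ Cu * ‖G w‖
  ct_low : ∀ w, ‖G w‖ ≤ 1 / A → ctil (1 / A) y (G w) = 0

/-- drift data at each site -/
structure LSU {N d : ℕ} {ι : Type} [Fintype ι] (net : Net ι d)
    (β Cu k A r2 Rc cv Cv CM ch CH : ℝ) (G U : ι → E N) (lam eta : ι → ℝ) : Prop where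
  U_bd : ∀ w, ‖U w‖ ≤ if ‖G w‖ ≤ 6 / A then Cu * ‖G w‖ else 0
  lam1 : ∀ z, Low A r2 Rc cv Cv ‖G z‖ - (N - 2) + 2 * ‖G z‖ ^ β - CM * k * ‖coup net G z‖ ≤ lam z
  lam2 : ∀ z, ‖G z‖ ≤ 1 → -(CM * ‖G z‖) - CM * k * ‖coup net G z‖ ≤ lam z
  eta1 : ∀ z, eta z ≤ -(ch * Rb net β G z) + CH

end Dyn
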