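import Pool.Agent.Lib_MP_36b788.LSDefs
import Pool.Agent.Lib_MP_36b788.CTil
import Pool.Agent.Lib_MP_36b788.VGen

/-!
# LSY: one-step expectation of the quadratic expression at a site

`T = Y_z(G⁺) - Y_z(G) = A₀ + k Σ_{w~z} D_w + Rm`, where `A₀ = hat(G_z) - G_z`,
`D_w = ctil(hat(G_w)) - ctil(G_w)`, `Rm = kh coup_z + k Σ_w (ctil(hat(G_w)+kh coup_w) - ctil(hat(G_w)))`.

PROOF. `Cu = C0(1+log A)` (CTIL with `r1 = 1/A`, `log(1/r1) = log A`). Put
`U_w = G_w + h⁻¹∫D_w dν`. By CTIL: low: `D_w = 0`, `U_w = G_w`; transitional: `‖U_w‖ ≤ Cu‖G_w‖`;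
strong: `U_w = 0`. (`Cu ≥ 1`.)
* `∫2⟪Y,T⟫ = 2⟪Y,∫A₀⟫ + 2kh⟪Y,coup_z⟫ + 2k Σ⟪Y,∫D_w⟫ + 2⟪Y,kΣ B_w⟫`,
  `coup_z = ΣG_w - 2dG_z`, so `kh coup_z + kΣ∫D_w = kh(ΣU_w - 2dG_z)`; `∫A₀ = -h r^βG_z + O(h^{9/8} r)` (VGEN);
  `‖B_w‖ ≤ Cu kh‖coup_w‖`, and `B_w = 0` a.e. if `w` is low (`hat(G_w)+kh coup_w` has norm `≤ 1/A`
  for small `h`: `kh‖coup_w‖ ≤ h·4d·h^{-1/8}`).
* `q(T) = ‖T‖² - 2⟪Ŷ,T⟫²`, bilinear form `B(s,t) = ⟪s,t⟫-2⟪Ŷ,s⟫⟪Ŷ,t⟫`, `|B(s,t)| ≤ 3‖s‖‖t‖` (`‖Ŷ‖ ≤ 1`).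
  `∫q(A₀) ≥ h(N-2)r² - C h^{9/8}r²` (VGEN with `a = Ŷ`; if `Ŷ = 0` even `N`). `∫q(D_w)`: strong: CTIL;
  transitional: `≥ -∫‖D_w‖² ≥ -Cu²h r²`; low: `0`. Cross terms between different sites: independence
  under the product measure gives `B(∫s,∫t)`, and the means are `O(h)·(size)`:
  `‖∫A₀‖ ≤ C h^{3/4} r`, `k‖∫D_w‖ ≤ C k h min(..)`... all `≤ C h^{9/8}σ_z²` because
  `h^{3/4}·h ≤ h^{9/8}`, `h² ≤ h^{9/8}`; `Rm`: `‖Rm‖ ≤ C h^{7/8} σ_z`
  (`kh‖coup_z‖ ≤ kh(Σ‖G_w‖+2d r_z)`, `‖G_w‖ ≤ h^{-1/8} min(‖G_w‖,1)` for alive states),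
  cross with `‖A₀+kΣD_w‖ ≤ C h^{3/8} σ_z`: `h^{7/8+3/8} = h^{5/4} ≤ h^{9/8}`.
  `‖Y_z‖ ≤ C σ_z`, `k‖B_w‖`-terms with `2⟪Y,·⟫` are kept in `GG1` (constant `CL = 2Cu`).
`C2` may depend on everything except `h, ν, y, G` (also on the net).
-/

open MeasureTheory

namespace Dyn

section aux

variable {N : ℕ} {ι : Type} [Fintype ι] {ν : Measure (E N)}

private theorem LSY_mp [IsProbabilityMeasure ν] (s : ι) :
    MeasurePreserving (fun ξ : ι → E N => ξ s) (pim ι ν) ν :=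
  measurePreserving_eval (fun _ => ν) s

private theorem LSY_prob [IsProbabilityMeasure ν] : IsProbabilityMeasure (pim ι ν) := by
  unfold pim
  infer_instance

private theorem LSY_ae [IsProbabilityMeasure ν] (s : ι) {p : E N → Prop} (h : ∀ᵐ ζ ∂ν, p ζ) :
    ∀ᵐ ξ ∂(pim ι ν), p (ξ s) :=
  (LSY_mp (ν := ν) s).quasiMeasurePreserving.ae h

private theorem LSY_int [IsProbabilityMeasure ν] (s : ι) {F : Type} [NormedAddCommGroup F]
    [NormedSpace ℝ F] {f : E N → F} (hf : AEStronglyMeasurable f ν) :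
    ∫ ξ, f (ξ s) ∂(pim ι ν) = ∫ ζ, f ζ ∂ν := by
  have h := LSY_mp (ν := ν) s
  have h1 := integral_map (μ := pim ι ν) (φ := fun ξ : ι → E N => ξ s) h.measurable.aemeasurable
    (f := f) (by rw [h.map_eq]; exact hf)
  rw [h.map_eq] at h1
  exact h1.symm

private theorem LSY_indep [IsProbabilityMeasure ν] {s t : ι} (hst : s ≠ t) {u v : E N → ℝ}
    (hu : Continuous u) (hv : Continuous v) :
    ∫ ξ, u (ξ s) * v (ξ t) ∂(pim ι ν) = (∫ ζ, u ζ ∂ν) * ∫ ζ, v ζ ∂ν := by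
  have h1 : ProbabilityTheory.iIndepFun (fun i (ω : ι → E N) => ω i) (pim ι ν) :=
    ProbabilityTheory.iIndepFun_pi (μ := fun _ : ι => ν) (X := fun _ x => x)
      (fun _ => aemeasurable_id)
  have h2 := (h1.indepFun hst).comp hu.measurable hv.measurable
  have h3 := h2.integral_fun_mul_eq_mul_integral
    (hu.measurable.comp (measurable_pi_apply s)).aestronglyMeasurable
    (hv.measurable.comp (measurable_pi_apply t)).aestronglyMeasurable
  refine h3.trans ?_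
  have h4 := LSY_int (ν := ν) s hu.aestronglyMeasurable
  have h5 := LSY_int (ν := ν) t hv.aestronglyMeasurable
  show (∫ ξ, u (ξ s) ∂(pim ι ν)) * (∫ ξ, v (ξ t) ∂(pim ι ν)) = _
  rw [h4, h5]

private theorem LSY_inner [IsProbabilityMeasure ν] {s t : ι} (hst : s ≠ t) {f g : E N → E N}
    (hf : Continuous f) (hg : Continuous g) {C D : ℝ} (hC : ∀ᵐ ζ ∂ν, ‖f ζ‖ ≤ C)
    (hD : ∀ᵐ ζ ∂ν, ‖g ζ‖ ≤ D) :
    ∫ ξ, inner ℝ (f (ξ s)) (g (ξ t)) ∂(pim ι ν) = inner ℝ (∫ ζ, f ζ ∂ν) (∫ ζ, g ζ ∂ν) := by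
  have := LSY_prob (ι := ι) (ν := ν)
  set b := EuclideanSpace.basisFun (Fin N) ℝ with hb
  have hfi : Integrable f ν := Integrable.of_bound hf.aestronglyMeasurable C hC
  have hgi : Integrable g ν := Integrable.of_bound hg.aestronglyMeasurable D hD
  have hb1 : ∀ i, ‖b i‖ = 1 := fun i => b.orthonormal.1 i
  calc ∫ ξ, inner ℝ (f (ξ s)) (g (ξ t)) ∂(pim ι ν)
      = ∫ ξ, ∑ i, inner ℝ (f (ξ s)) (b i) * inner ℝ (b i) (g (ξ t)) ∂(pim ι ν) := by
        congr 1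
        funext ξ
        exact (b.sum_inner_mul_inner _ _).symm
    _ = ∑ i, ∫ ξ, inner ℝ (f (ξ s)) (b i) * inner ℝ (b i) (g (ξ t)) ∂(pim ι ν) := by
        refine integral_finsetSum _ fun i _ => ?_
        refine Integrable.of_bound (Continuous.aestronglyMeasurable ?_) (C * D) ?_
        · exact ((hf.comp (continuous_apply s)).inner continuous_const).mul
            (continuous_const.inner (hg.comp (continuous_apply t)))
        · filter_upwards [LSY_ae s hC, LSY_ae t hD] with ξ h1 h2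
          have h3 : ‖inner ℝ (f (ξ s)) (b i)‖ ≤ C := by
            refine (norm_inner_le_norm _ _).trans ?_
            rw [hb1, mul_one]
            exact h1
          have h4 : ‖inner ℝ (b i) (g (ξ t))‖ ≤ D := by
            refine (norm_inner_le_norm _ _).trans ?_
            rw [hb1, one_mul]
            exact h2
          rw [norm_mul]
          exact mul_le_mul h3 h4 (norm_nonneg _) ((norm_nonneg _).trans h3)
    _ = ∑ i, inner ℝ (∫ ζ, f ζ ∂ν) (b i) * inner ℝ (b i) (∫ ζ, g ζ ∂ν) := by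
        refine Finset.sum_congr rfl fun i _ => ?_
        rw [LSY_indep hst (u := fun ζ => inner ℝ (f ζ) (b i)) (v := fun ζ => inner ℝ (b i) (g ζ))
          (hf.inner continuous_const) (continuous_const.inner hg), integral_inner hgi]
        congr 1
        rw [real_inner_comm, ← integral_inner hfi]
        congr 1
        funext ζ
        exact real_inner_comm _ _
    _ = _ := b.sum_inner_mul_inner _ _

private theorem LSY_quad [DecidableEq ι] [IsProbabilityMeasure ν] (S : Finset ι)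
    (V : ι → E N → E N) (hV : ∀ s, Continuous (V s)) (C : ι → ℝ)
    (hC : ∀ s, ∀ᵐ ζ ∂ν, ‖V s ζ‖ ≤ C s) (a : E N) (ha : ‖a‖ ≤ 1) :
    ∑ s ∈ S, ∫ ζ, (‖V s ζ‖ ^ 2 - 2 * (inner ℝ a (V s ζ)) ^ 2) ∂ν
        - 3 * (∑ s ∈ S, ‖∫ ζ, V s ζ ∂ν‖) ^ 2 ≤
      ∫ ξ, (‖∑ s ∈ S, V s (ξ s)‖ ^ 2 - 2 * (inner ℝ a (∑ s ∈ S, V s (ξ s))) ^ 2) ∂(pim ι ν) := by
  have := LSY_prob (ι := ι) (ν := ν)
  set Q : ι → ι → ℝ := fun s t => ∫ ξ, (inner ℝ (V s (ξ s)) (V t (ξ t))
    - 2 * (inner ℝ a (V s (ξ s)) * inner ℝ a (V t (ξ t)))) ∂(pim ι ν) with hQ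
  set m : ι → E N := fun s => ∫ ζ, V s ζ ∂ν with hm
  set q : ι → ℝ := fun s => ∫ ζ, (‖V s ζ‖ ^ 2 - 2 * (inner ℝ a (V s ζ)) ^ 2) ∂ν with hq
  have hVi : ∀ s, Integrable (V s) ν := fun s =>
    Integrable.of_bound (hV s).aestronglyMeasurable (C s) (hC s)
  have ha1 : ∀ v : E N, ‖inner ℝ a v‖ ≤ ‖v‖ := fun v =>
    (norm_inner_le_norm _ _).trans (mul_le_of_le_one_left (norm_nonneg _) ha)
  have hint1 : ∀ s t, Integrable (fun ξ : ι → E N => inner ℝ (V s (ξ s)) (V t (ξ t)))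
      (pim ι ν) := fun s t => by
    refine Integrable.of_bound (Continuous.aestronglyMeasurable ?_) (C s * C t) ?_
    · exact ((hV s).comp (continuous_apply s)).inner ((hV t).comp (continuous_apply t))
    · filter_upwards [LSY_ae s (hC s), LSY_ae t (hC t)] with ξ h1 h2
      exact (norm_inner_le_norm _ _).trans
        (mul_le_mul h1 h2 (norm_nonneg _) ((norm_nonneg _).trans h1))
  have hint2 : ∀ s t, Integrable (fun ξ : ι → E N =>
      inner ℝ a (V s (ξ s)) * inner ℝ a (V t (ξ t))) (pim ι ν) := fun s t => by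
    refine Integrable.of_bound (Continuous.aestronglyMeasurable ?_) (C s * C t) ?_
    · exact (continuous_const.inner ((hV s).comp (continuous_apply s))).mul
        (continuous_const.inner ((hV t).comp (continuous_apply t)))
    · filter_upwards [LSY_ae s (hC s), LSY_ae t (hC t)] with ξ h1 h2
      rw [norm_mul]
      exact mul_le_mul ((ha1 _).trans h1) ((ha1 _).trans h2) (norm_nonneg _)
        ((norm_nonneg _).trans h1)
  have hint : ∀ s t, Integrable (fun ξ : ι → E N => inner ℝ (V s (ξ s)) (V t (ξ t))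
      - 2 * (inner ℝ a (V s (ξ s)) * inner ℝ a (V t (ξ t)))) (pim ι ν) := fun s t =>
    (hint1 s t).sub ((hint2 s t).const_mul 2)
  have hexp : ∫ ξ, (‖∑ s ∈ S, V s (ξ s)‖ ^ 2 - 2 * (inner ℝ a (∑ s ∈ S, V s (ξ s))) ^ 2)
      ∂(pim ι ν) = ∑ s ∈ S, ∑ t ∈ S, Q s t := by
    have h1 : ∀ ξ : ι → E N,
        ‖∑ s ∈ S, V s (ξ s)‖ ^ 2 - 2 * (inner ℝ a (∑ s ∈ S, V s (ξ s))) ^ 2 =
        ∑ s ∈ S, ∑ t ∈ S, (inner ℝ (V s (ξ s)) (V t (ξ t))
          - 2 * (inner ℝ a (V s (ξ s)) * inner ℝ a (V t (ξ t)))) := by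
      intro ξ
      rw [← real_inner_self_eq_norm_sq, sum_inner, inner_sum, pow_two, Finset.sum_mul_sum,
        Finset.mul_sum, ← Finset.sum_sub_distrib]
      refine Finset.sum_congr rfl fun s _ => ?_
      rw [inner_sum, Finset.mul_sum, ← Finset.sum_sub_distrib]
    rw [integral_congr_ae (Filter.Eventually.of_forall h1), integral_finsetSum]
    · refine Finset.sum_congr rfl fun s _ => ?_
      rw [integral_finsetSum]
      intro t _
      exact hint s t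
    · intro s _
      exact integrable_finsetSum _ fun t _ => hint s t
  have hQle : ∀ s t, (if s = t then q s else 0) - 3 * (‖m s‖ * ‖m t‖) ≤ Q s t := by
    intro s t
    by_cases hst : s = t
    · subst hst
      rw [if_pos rfl]
      have h1 : Q s s = q s := by
        have h2 := LSY_int (ν := ν) (ι := ι) s
          (f := fun ζ => ‖V s ζ‖ ^ 2 - 2 * (inner ℝ a (V s ζ)) ^ 2)
          (Continuous.aestronglyMeasurable
            ((((hV s).norm.pow 2)).sub (continuous_const.mul ((continuous_const.inner (hV s)).pow 2))))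
        rw [hQ, hq]
        simp only
        rw [← h2]
        congr 1
        funext ξ
        rw [real_inner_self_eq_norm_sq, ← pow_two]
      rw [h1]
      have h3 : 0 ≤ ‖m s‖ * ‖m s‖ := mul_nonneg (norm_nonneg _) (norm_nonneg _)
      linarith
    · rw [if_neg hst, zero_sub]
      have h1 : Q s t = inner ℝ (m s) (m t) - 2 * (inner ℝ a (m s) * inner ℝ a (m t)) := by
        rw [hQ]
        simp only
        rw [integral_sub (hint1 s t) ((hint2 s t).const_mul 2), integral_const_mul,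
          LSY_inner hst (hV s) (hV t) (hC s) (hC t),
          LSY_indep hst (u := fun ζ => inner ℝ a (V s ζ)) (v := fun ζ => inner ℝ a (V t ζ))
            (continuous_const.inner (hV s)) (continuous_const.inner (hV t)),
          integral_inner (hVi s), integral_inner (hVi t)]
      rw [h1]
      have h2 := abs_le.1 ((abs_real_inner_le_norm (m s) (m t)))
      have h3 : |inner ℝ a (m s) * inner ℝ a (m t)| ≤ ‖m s‖ * ‖m t‖ := by
        rw [abs_mul]
        exact mul_le_mul (ha1 _) (ha1 _) (abs_nonneg _) (norm_nonneg _)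
      have h4 := abs_le.1 h3
      linarith [h2.1, h4.2]
  rw [hexp]
  calc ∑ s ∈ S, q s - 3 * (∑ s ∈ S, ‖m s‖) ^ 2
      = ∑ s ∈ S, ∑ t ∈ S, ((if s = t then q s else 0) - 3 * (‖m s‖ * ‖m t‖)) := by
        rw [pow_two, Finset.sum_mul_sum, Finset.mul_sum, ← Finset.sum_sub_distrib]
        refine Finset.sum_congr rfl fun s hs => ?_
        rw [Finset.sum_sub_distrib, Finset.sum_ite_eq, if_pos hs, Finset.mul_sum]
    _ ≤ _ := Finset.sum_le_sum fun s _ => Finset.sum_le_sum fun t _ => hQle s t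

/-- the quadratic form of a sum -/
private theorem LSY_qadd (a M R : E N) (ha : ‖a‖ ≤ 1) :
    ‖M‖ ^ 2 - 2 * (inner ℝ a M) ^ 2 - 6 * (‖M‖ * ‖R‖) - ‖R‖ ^ 2 ≤
      ‖M + R‖ ^ 2 - 2 * (inner ℝ a (M + R)) ^ 2 := by
  have ha1 : ∀ v : E N, |inner ℝ a v| ≤ ‖v‖ := fun v =>
    (abs_real_inner_le_norm _ _).trans (mul_le_of_le_one_left (norm_nonneg _) ha)
  have h1 := abs_le.1 (abs_real_inner_le_norm M R)
  have h2 : |inner ℝ a M * inner ℝ a R| ≤ ‖M‖ * ‖R‖ := by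
    rw [abs_mul]
    exact mul_le_mul (ha1 _) (ha1 _) (abs_nonneg _) (norm_nonneg _)
  have h3 := abs_le.1 h2
  have h4 : (inner ℝ a R) ^ 2 ≤ ‖R‖ ^ 2 := by
    rw [← sq_abs]
    exact pow_le_pow_left₀ (abs_nonneg _) (ha1 _) 2
  rw [norm_add_sq_real, inner_add_right]
  nlinarith [h1.1, h3.2]

/-- integrability of the quadratic expression -/
private theorem LSY_intq {μ : Measure (ι → E N)} [IsFiniteMeasure μ] {F : (ι → E N) → E N}
    (hF : Continuous F) {C : ℝ} (hC : ∀ᵐ ξ ∂μ, ‖F ξ‖ ≤ C) (Y a : E N) (ha : ‖a‖ ≤ 1) :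
    Integrable (fun ξ => inner ℝ Y (F ξ)) μ ∧
      Integrable (fun ξ => ‖F ξ‖ ^ 2 - 2 * (inner ℝ a (F ξ)) ^ 2) μ := by
  constructor
  · refine Integrable.of_bound (continuous_const.inner hF).aestronglyMeasurable (‖Y‖ * C) ?_
    filter_upwards [hC] with ξ h
    exact (norm_inner_le_norm _ _).trans (mul_le_mul_of_nonneg_left h (norm_nonneg _))
  · refine Integrable.of_bound (Continuous.aestronglyMeasurable
      ((hF.norm.pow 2).sub (continuous_const.mul ((continuous_const.inner hF).pow 2)))) (3 * C ^ 2) ?_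
    filter_upwards [hC] with ξ h
    have h1 : |inner ℝ a (F ξ)| ≤ ‖F ξ‖ :=
      (abs_real_inner_le_norm _ _).trans (mul_le_of_le_one_left (norm_nonneg _) ha)
    have h2 : (inner ℝ a (F ξ)) ^ 2 ≤ ‖F ξ‖ ^ 2 := by
      rw [← sq_abs]
      exact pow_le_pow_left₀ (abs_nonneg _) h1 2
    have h3 : ‖F ξ‖ ^ 2 ≤ C ^ 2 := pow_le_pow_left₀ (norm_nonneg _) h 2
    have h4 : 0 ≤ (inner ℝ a (F ξ)) ^ 2 := sq_nonneg _
    have h5 : 0 ≤ ‖F ξ‖ ^ 2 := sq_nonneg _
    rw [Real.norm_eq_abs, abs_le]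
    constructor <;> linarith

/-- the step is continuous in the noise -/
private theorem LSY_hat {N : ℕ} {β h : ℝ} (hβ : 0 < β) (hh : 0 ≤ h) (g : E N) :
    Continuous (fun ζ : E N => hat β h g ζ) := by
  have h1 : Continuous (fun p : E N × E N => hat β h p.1 p.2) := hat_continuous hβ hh
  have h2 : Continuous (fun ζ : E N => ((g, ζ) : E N × E N)) := by fun_prop
  have h3 := Continuous.comp h1 h2
  rw [Function.comp_def] at h3
  dsimp only at h3
  exact h3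

end aux

theorem lsy (N d : ℕ) (β δ Cy : ℝ) (hN : 3 ≤ N) (hβ : 1 < β) (hδ : 0 < δ) (hCy : 1 ≤ Cy) :
    ∃ C0 : ℝ, 1 ≤ C0 ∧ ∀ A : ℝ, 6 ≤ A → ∀ k : ℝ, 0 ≤ k → k ≤ 1 →
    ∀ (ι : Type) [Fintype ι] (net : Net ι d),
    ∃ C2 h0 : ℝ, 0 < C2 ∧ 0 < h0 ∧ ∀ (h : ℝ) (ν : Measure (E N)), 0 < h → h < h0 → IsNoise h ν →
      ∀ y : ℝ → ℝ, IsCorr N β h ν δ Cy y → ∀ G : ι → E N, (∀ x, ‖G x‖ ≤ rad β h) →
      ∃ U : ι → E N,
        (∀ w, ‖U w‖ ≤ if ‖G w‖ ≤ 6 / A then C0 * (1 + Real.log A) * ‖G w‖ else 0) ∧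
        ∀ z, h * GG1 net β δ (C0 * (1 + Real.log A)) (2 * (C0 * (1 + Real.log A))) k A y G U z
            - C2 * h ^ (9 / 8 : ℝ) * sig net k G z ^ 2 ≤
          ∫ ξ, (2 * inner ℝ (Yv net k (1 / A) y G z)
              (Yv net k (1 / A) y (stp net β h k G ξ) z - Yv net k (1 / A) y G z)
            + ‖Yv net k (1 / A) y (stp net β h k G ξ) z - Yv net k (1 / A) y G z‖ ^ 2
            - 2 * (inner ℝ (uni (Yv net k (1 / A) y G z))
              (Yv net k (1 / A) y (stp net β h k G ξ) z - Yv net k (1 / A) y G z)) ^ 2)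
            ∂(pim ι ν) := by
  obtain ⟨C0, hC01, HC⟩ := ctil_facts N β δ Cy hN hβ hδ hCy
  refine ⟨C0, hC01, fun A hA k hk0 hk1 ι _ net => ?_⟩
  classical
  have hA0 : 0 < A := by linarith
  have hr1 : 0 < 1 / A := by positivity
  have hr16 : 1 / A ≤ 1 / 6 := one_div_le_one_div_of_le (by norm_num) hA
  obtain ⟨C2c, h0c, hC2c, hh0c, HC⟩ := HC (1 / A) hr1 hr16
  have h6A : 6 * (1 / A) = 6 / A := by ring
  have h2A : 1 / A / 2 = 1 / (2 * A) := by
    field_simp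
  rw [one_div_one_div, h6A, h2A] at HC
  set Cu : ℝ := C0 * (1 + Real.log A) with hCu
  have hlogA : 0 ≤ Real.log A := Real.log_nonneg (by linarith)
  have hCu1 : 1 ≤ Cu := by
    rw [hCu]
    nlinarith
  obtain ⟨Cv, h0v, hCv, hh0v, HV⟩ := vgen N β (by omega) hβ.le
  have hβ0 : 0 < β := by linarith
  obtain ⟨h0b, hh0b, hh0b1, HB⟩ := hat_bounds N β hβ0
  obtain ⟨CM, hCM⟩ : ∃ CM : ℝ, CM = 2 + C2c := ⟨_, rfl⟩
  obtain ⟨CR, hCR⟩ : ∃ CR : ℝ, CR = (1 + 2 * d) + 8 * d * A * Cu := ⟨_, rfl⟩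
  obtain ⟨Cm, hCm⟩ : ∃ Cm : ℝ, Cm = (1 + Cv) + (1 + Cu) := ⟨_, rfl⟩
  obtain ⟨KY, hKY⟩ : ∃ KY : ℝ, KY = Cu + 2 * Cy + 1 := ⟨_, rfl⟩
  have hd0 : (0 : ℝ) ≤ d := Nat.cast_nonneg d
  have hCM0 : 0 ≤ CM := by rw [hCM]; linarith
  have hCR0 : 0 ≤ CR := by rw [hCR]; positivity
  have hCm0 : 0 ≤ Cm := by rw [hCm]; linarith
  have hKY0 : 0 ≤ KY := by rw [hKY]; linarith
  refine ⟨6 * CM * CR + CR ^ 2 + 3 * Cm ^ 2 + 3 * Cv + 2 * d * (C2c * (A / 6) ^ 2)
      + 2 * KY * Cv + 1,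
    min (min h0c h0v) (min h0b ((1 / (10 * A * (d + 1))) ^ 2)), by positivity, by positivity, ?_⟩
  intro h ν hh hlt hν y hy G hG
  have hlt1 : h < h0c := hlt.trans_le ((min_le_left _ _).trans (min_le_left _ _))
  have hlt2 : h < h0v := hlt.trans_le ((min_le_left _ _).trans (min_le_right _ _))
  have hlt3 : h < h0b := hlt.trans_le ((min_le_right _ _).trans (min_le_left _ _))
  have hlt4 : h < (1 / (10 * A * (d + 1))) ^ 2 :=
    hlt.trans_le ((min_le_right _ _).trans (min_le_right _ _))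
  have hh1 : h < 1 := by linarith
  have := hν.prob
  have := LSY_prob (ι := ι) (ν := ν)
  obtain ⟨hlip, hlin, hbd, hzero, hlow, htrans, hstrong, hsq, hD⟩ := HC h ν hh hlt1 hν y hy
  have HV := HV h ν hh hlt2 hν
  have HB := HB h ν hh hlt3 hν
  -- powers of `h`
  obtain ⟨t, ht⟩ : ∃ t : ℝ, t = h ^ (1 / 8 : ℝ) := ⟨_, rfl⟩
  have ht0 : 0 < t := by rw [ht]; exact Real.rpow_pos_of_pos hh _
  have ht1 : t ≤ 1 := by rw [ht]; exact Real.rpow_le_one hh.le hh1.le (by norm_num)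
  have hpow : ∀ n : ℕ, t ^ n = h ^ ((n : ℝ) / 8) := by
    intro n
    rw [ht, ← Real.rpow_natCast, ← Real.rpow_mul hh.le]
    congr 1
    ring
  have ht8 : h = t ^ 8 := by
    rw [hpow]
    norm_num
  have ht3 : h ^ (3 / 8 : ℝ) = t ^ 3 := by
    rw [hpow]
    norm_num
  have ht9 : h ^ (9 / 8 : ℝ) = t ^ 9 := by
    rw [hpow]
    norm_num
  have ht6 : h ^ (3 / 4 : ℝ) = t ^ 6 := by
    rw [hpow]
    norm_num
  have htm : h ^ (-(1 / 8) : ℝ) = t⁻¹ := by
    rw [ht, Real.rpow_neg hh.le]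
  have ht4 : t ^ 4 < 1 / (10 * A * (d + 1)) := by
    have h1 : (t ^ 4) ^ 2 < (1 / (10 * A * (d + 1))) ^ 2 := by
      rw [← pow_mul, ← ht8]
      exact hlt4
    exact lt_of_pow_lt_pow_left₀ 2 (by positivity) h1
  have htp : ∀ {m n : ℕ}, n ≤ m → t ^ m ≤ t ^ n := fun hmn =>
    pow_le_pow_of_le_one ht0.le ht1 hmn
  have hgapt : 4 * (d : ℝ) * t ^ 7 ≤ 2 / 5 * (1 / A) := by
    have h1 : t ^ 7 ≤ 1 / (10 * A * (d + 1)) := (htp (by norm_num)).trans ht4.le
    calc 4 * (d : ℝ) * t ^ 7 ≤ 4 * (d : ℝ) * (1 / (10 * A * (d + 1))) :=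
          mul_le_mul_of_nonneg_left h1 (by positivity)
      _ = (2 / 5 * (1 / A)) * (d / (d + 1)) := by
          field_simp
          ring
      _ ≤ (2 / 5 * (1 / A)) * 1 := by
          refine mul_le_mul_of_nonneg_left ?_ (by positivity)
          rw [div_le_one (by positivity)]
          linarith
      _ = _ := mul_one _
  rw [ht9]
  simp only [ht3, ht9] at HB HV hsq hD
  clear hpow
  -- sizes
  have hGt : ∀ w, ‖G w‖ * t ≤ 1 := by
    intro w
    have h1 := (rad_facts hβ0 hh hh1 (norm_nonneg (G w)) (hG w)).1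
    rw [htm] at h1
    have h2 := mul_le_mul_of_nonneg_right h1 ht0.le
    rwa [inv_mul_cancel₀ ht0.ne'] at h2
  have hrad0 : 0 ≤ rad β h := by
    unfold rad
    exact le_min (Real.rpow_nonneg hh.le _) (Real.rpow_nonneg hh.le _)
  set mn : ι → ℝ := fun w => min ‖G w‖ 1 with hmn
  have hmn0 : ∀ w, 0 ≤ mn w := fun w => le_min (norm_nonneg _) zero_le_one
  have hmnG : ∀ w, mn w ≤ ‖G w‖ := fun w => min_le_left _ _
  have hGm : ∀ w, ‖G w‖ * t ≤ mn w := fun w =>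
    le_min (mul_le_of_le_one_right (norm_nonneg _) ht1) (hGt w)
  have hnbc : ∀ w, ((net.nb w).card : ℝ) ≤ 2 * d := fun w => by
    have h1 := net.nb_card w
    have h2 : ((net.nb w).card : ℝ) ≤ ((2 * d : ℕ) : ℝ) := by exact_mod_cast h1
    rw [Nat.cast_mul] at h2
    exact h2
  have hcoupn : ∀ w, ‖coup net G w‖ ≤ ∑ v ∈ net.nb w, ‖G v‖ + 2 * d * ‖G w‖ := by
    intro w
    unfold coup
    refine (norm_sub_le _ _).trans (add_le_add (norm_sum_le _ _) ?_)
    rw [norm_smul, Nat.cast_mul, Real.norm_eq_abs, abs_of_nonneg (by positivity)]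
    norm_num
  have hcoup : ∀ w, ‖coup net G w‖ * t ≤ 4 * d := by
    intro w
    have h1 := mul_le_mul_of_nonneg_right (hcoupn w) ht0.le
    rw [add_mul, Finset.sum_mul] at h1
    have h2 : ∑ v ∈ net.nb w, ‖G v‖ * t ≤ 2 * d := by
      refine (Finset.sum_le_sum fun v _ => hGt v).trans ?_
      rw [Finset.sum_const, nsmul_eq_mul, mul_one]
      exact hnbc w
    have h3 : 2 * (d : ℝ) * ‖G w‖ * t ≤ 2 * d := by
      have := mul_le_mul_of_nonneg_left (hGt w) (show (0 : ℝ) ≤ 2 * d by positivity)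
      linarith
    linarith
  -- the cut off corrector
  set c : E N → E N := ctil (1 / A) y with hc
  have hcc : Continuous c := by
    have h1 : LipschitzWith ⟨Cu, by linarith⟩ c := LipschitzWith.of_dist_le_mul fun g g' => by
      rw [dist_eq_norm, dist_eq_norm]
      exact hlip g g'
    exact h1.continuous
  have hhc : ∀ g : E N, Continuous (fun ζ => hat β h g ζ) := LSY_hat hβ0 hh.le
  set D : ι → E N → E N := fun w ζ => c (hat β h (G w) ζ) - c (G w) with hDdef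
  set B : ι → E N → E N := fun w ζ =>
    c (hat β h (G w) ζ + (k * h) • coup net G w) - c (hat β h (G w) ζ) with hBdef
  have hDc : ∀ w, Continuous (D w) := fun w =>
    (hcc.comp (hhc (G w))).sub continuous_const
  have hBc : ∀ w, Continuous (B w) := fun w =>
    (hcc.comp ((hhc (G w)).add continuous_const)).sub (hcc.comp (hhc (G w)))
  have hDb : ∀ w, ∀ᵐ ζ ∂ν, ‖D w ζ‖ ≤ C2c * t ^ 3 * mn w := fun w => (hD (G w) (hG w)).1
  have hDsq : ∀ w, ∫ ζ, ‖D w ζ‖ ^ 2 ∂ν ≤ Cu ^ 2 * h * (mn w) ^ 2 := fun w => (hD (G w) (hG w)).2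
  have hDi : ∀ w, Integrable (D w) ν := fun w =>
    Integrable.of_bound (hDc w).aestronglyMeasurable _ (hDb w)
  -- low sites
  have hlowD : ∀ w, ‖G w‖ < 1 / (2 * A) → ∀ᵐ ζ ∂ν, D w ζ = 0 := by
    intro w hw
    have h1 : c (G w) = 0 := hzero _ (hw.le.trans (by
      apply one_div_le_one_div_of_le hA0
      linarith))
    filter_upwards [hlow (G w) hw] with ζ hζ
    show c (hat β h (G w) ζ) - c (G w) = 0
    rw [hζ, h1, sub_zero]
  have hlowI : ∀ w, ‖G w‖ < 1 / (2 * A) → ∫ ζ, D w ζ ∂ν = 0 := by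
    intro w hw
    rw [integral_congr_ae (hlowD w hw)]
    simp
  have hlowB : ∀ w, ‖G w‖ < 1 / (2 * A) → ∀ᵐ ζ ∂ν, B w ζ = 0 := by
    intro w hw
    filter_upwards [hlow (G w) hw, HB (G w) (hG w)] with ζ hζ hb
    obtain ⟨-, -, hb1, -, hb2⟩ := hb
    show c (hat β h (G w) ζ + (k * h) • coup net G w) - c (hat β h (G w) ζ) = 0
    rw [hζ, sub_zero]
    apply hzero
    have h1 : ‖hat β h (G w) ζ‖ ≤ 11 / 10 * (1 / (2 * A)) := by
      refine hb1.trans (mul_le_mul (by linarith) hw.le (norm_nonneg _) (by norm_num))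
    have h2 : ‖(k * h) • coup net G w‖ ≤ 2 / 5 * (1 / A) := by
      rw [norm_smul, Real.norm_eq_abs, abs_of_nonneg (by positivity)]
      have h3 : h * ‖coup net G w‖ = t ^ 7 * (‖coup net G w‖ * t) := by
        rw [ht8]
        ring
      have h4 : h * ‖coup net G w‖ ≤ 2 / 5 * (1 / A) := by
        rw [h3]
        have h5 := mul_le_mul_of_nonneg_left (hcoup w) (pow_nonneg ht0.le 7)
        linarith
      calc k * h * ‖coup net G w‖ = k * (h * ‖coup net G w‖) := by ring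
        _ ≤ 1 * (h * ‖coup net G w‖) := mul_le_mul_of_nonneg_right hk1 (by positivity)
        _ ≤ _ := by rw [one_mul]; exact h4
    have h3 : 11 / 10 * (1 / (2 * A)) = 11 / 20 * (1 / A) := by
      field_simp
      norm_num
    have h4 := norm_add_le (hat β h (G w) ζ) ((k * h) • coup net G w)
    have h5 : 11 / 20 * (1 / A) + 2 / 5 * (1 / A) ≤ 1 / A := by linarith
    linarith
  have hBb : ∀ w, ∀ᵐ ζ ∂ν, ‖B w ζ‖ ≤
      Cu * (k * h) * (if 1 / (2 * A) ≤ ‖G w‖ then ‖coup net G w‖ else 0) := by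
    intro w
    by_cases hw : 1 / (2 * A) ≤ ‖G w‖
    · rw [if_pos hw]
      refine Filter.Eventually.of_forall fun ζ => ?_
      refine (hlip _ _).trans ?_
      rw [add_sub_cancel_left, norm_smul, Real.norm_eq_abs, abs_of_nonneg (by positivity)]
      apply le_of_eq
      ring
    · rw [if_neg hw]
      filter_upwards [hlowB w (not_le.1 hw)] with ζ hζ
      rw [hζ]
      simp
  have hmeanD : ∀ w, ‖∫ ζ, D w ζ ∂ν‖ ≤ (1 + Cu) * (t ^ 7 * mn w) := by
    intro w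
    have h0 : h * ‖G w‖ ≤ t ^ 7 * mn w := by
      have h1 := mul_le_mul_of_nonneg_left (hGm w) (pow_nonneg ht0.le 7)
      rw [ht8]
      linarith
    have h00 : 0 ≤ h * ‖G w‖ := by positivity
    have hX : (1 + Cu) * (h * ‖G w‖) ≤ (1 + Cu) * (t ^ 7 * mn w) :=
      mul_le_mul_of_nonneg_left h0 (by linarith)
    refine le_trans ?_ hX
    by_cases h1 : ‖G w‖ < 1 / (2 * A)
    · rw [hlowI w h1, norm_zero]
      positivity
    · by_cases h2 : ‖G w‖ ≤ 6 / A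
      · have h3 := htrans (G w) (not_lt.1 h1) h2
        have h4 : ‖∫ ζ, D w ζ ∂ν‖ ≤ ‖∫ ζ, D w ζ ∂ν + h • G w‖ + ‖h • G w‖ := by
          have := norm_sub_le (∫ ζ, D w ζ ∂ν + h • G w) (h • G w)
          rwa [add_sub_cancel_right] at this
        rw [norm_smul, Real.norm_eq_abs, abs_of_pos hh] at h4
        have h5 : ‖∫ ζ, D w ζ ∂ν + h • G w‖ ≤ Cu * h * ‖G w‖ := h3
        linarith
      · have h3 : ∫ ζ, D w ζ ∂ν = - (h • G w) := hstrong (G w) (not_le.1 h2) (hG w)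
        rw [h3, norm_neg, norm_smul, Real.norm_eq_abs, abs_of_pos hh]
        nlinarith
  refine ⟨fun w => G w + h⁻¹ • ∫ ζ, D w ζ ∂ν, ?_, ?_⟩
  · intro w
    show ‖G w + h⁻¹ • ∫ ζ, D w ζ ∂ν‖ ≤ _
    have hfac : G w + h⁻¹ • ∫ ζ, D w ζ ∂ν = h⁻¹ • (∫ ζ, D w ζ ∂ν + h • G w) := by
      rw [smul_add, smul_smul, inv_mul_cancel₀ hh.ne', one_smul, add_comm]
    by_cases h2 : ‖G w‖ ≤ 6 / A
    · rw [if_pos h2]
      by_cases h1 : ‖G w‖ < 1 / (2 * A)
      · rw [hlowI w h1, smul_zero, add_zero]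
        exact le_mul_of_one_le_left (norm_nonneg _) hCu1
      · have h3 : ‖∫ ζ, D w ζ ∂ν + h • G w‖ ≤ Cu * h * ‖G w‖ := htrans (G w) (not_lt.1 h1) h2
        rw [hfac, norm_smul, norm_inv, Real.norm_eq_abs, abs_of_pos hh, inv_mul_le_iff₀ hh]
        linarith
    · rw [if_neg h2]
      have h3 : ∫ ζ, D w ζ ∂ν = - (h • G w) := hstrong (G w) (not_le.1 h2) (hG w)
      rw [hfac, h3, neg_add_cancel, smul_zero, norm_zero]
  · intro z
    set Y : E N := Yv net k (1 / A) y G z with hY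
    set a : E N := uni Y with ha
    have ha1 : ‖a‖ ≤ 1 := by
      rw [ha]
      unfold uni
      rw [norm_smul, norm_div, norm_one, norm_norm]
      rcases eq_or_ne ‖Y‖ 0 with h0 | h0
      · rw [h0]
        norm_num
      · rw [one_div, inv_mul_cancel₀ h0]
    obtain ⟨σ, hσ⟩ : ∃ σ : ℝ, σ = ‖G z‖ + k * ∑ w ∈ net.nb z, mn w := ⟨_, rfl⟩
    have hsig : sig net k G z = σ := hσ.symm
    have hS0 : 0 ≤ ∑ w ∈ net.nb z, mn w := Finset.sum_nonneg fun w _ => hmn0 w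
    have hrσ : ‖G z‖ ≤ σ := by
      rw [hσ]
      have := mul_nonneg hk0 hS0
      linarith
    have hkσ : k * ∑ w ∈ net.nb z, mn w ≤ σ := by
      rw [hσ]
      have := norm_nonneg (G z)
      linarith
    have hkw : ∀ w ∈ net.nb z, k * mn w ≤ σ := fun w hw =>
      (mul_le_mul_of_nonneg_left (Finset.single_le_sum (fun v _ => hmn0 v) hw) hk0).trans hkσ
    have hσ0 : 0 ≤ σ := (norm_nonneg _).trans hrσ
    have hznb : z ∉ net.nb z := fun hz => by
      have h1 := net.dist_nb z z hz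
      rw [net.dist_self] at h1
      omega
    -- the pieces
    set A0 : E N → E N := fun ζ => hat β h (G z) ζ - G z with hA0def
    have hA0c : Continuous A0 := (hhc (G z)).sub continuous_const
    have hA0b : ∀ᵐ ζ ∂ν, ‖A0 ζ‖ ≤ 2 * t ^ 3 * ‖G z‖ := by
      filter_upwards [HB (G z) (hG z)] with ζ hζ
      exact hζ.1
    have hA0i : Integrable A0 ν := Integrable.of_bound hA0c.aestronglyMeasurable _ hA0b
    obtain ⟨hV1, hV2, hV3⟩ := HV (G z) (hG z)
    set V : ι → E N → E N := fun s ζ => if s = z then A0 ζ else k • D s ζ with hVdef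
    have hVz : V z = A0 := by
      funext ζ
      simp [hVdef]
    have hVne : ∀ s, s ≠ z → V s = fun ζ => k • D s ζ := fun s hs => by
      funext ζ
      simp [hVdef, hs]
    have hVw : ∀ w ∈ net.nb z, V w = fun ζ => k • D w ζ := fun w hw =>
      hVne w fun h1 => hznb (h1 ▸ hw)
    have hVc : ∀ s, Continuous (V s) := fun s => by
      by_cases hs : s = z
      · rw [hs, hVz]
        exact hA0c
      · rw [hVne s hs]
        exact (hDc s).const_smul k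
    have hVb : ∀ s, ∀ᵐ ζ ∂ν, ‖V s ζ‖ ≤ 2 * t ^ 3 * ‖G z‖ + C2c * t ^ 3 * mn s := fun s => by
      have h0 := hmn0 s
      by_cases hs : s = z
      · filter_upwards [hA0b] with ζ hζ
        have h1 : V s ζ = A0 ζ := by rw [hs, hVz]
        rw [h1]
        have h2 : 0 ≤ C2c * t ^ 3 * mn s := by positivity
        linarith
      · filter_upwards [hDb s] with ζ hζ
        have h1 : V s ζ = k • D s ζ := by rw [hVne s hs]
        rw [h1, norm_smul, Real.norm_eq_abs, abs_of_nonneg hk0]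
        have h2 : k * ‖D s ζ‖ ≤ 1 * ‖D s ζ‖ := mul_le_mul_of_nonneg_right hk1 (norm_nonneg _)
        have h3 : 0 ≤ 2 * t ^ 3 * ‖G z‖ := by positivity
        linarith
    set M : (ι → E N) → E N := fun ξ => A0 (ξ z) + k • ∑ w ∈ net.nb z, D w (ξ w) with hM
    set R : (ι → E N) → E N := fun ξ =>
      (k * h) • coup net G z + k • ∑ w ∈ net.nb z, B w (ξ w) with hR
    have hsumV : ∀ ξ : ι → E N, ∑ s ∈ insert z (net.nb z), V s (ξ s) = M ξ := by
      intro ξ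
      rw [Finset.sum_insert hznb, hVz]
      show _ = A0 (ξ z) + k • ∑ w ∈ net.nb z, D w (ξ w)
      rw [Finset.smul_sum]
      congr 1
      exact Finset.sum_congr rfl fun w hw => by rw [hVw w hw]
    have hT : ∀ ξ : ι → E N, Yv net k (1 / A) y (stp net β h k G ξ) z - Y = M ξ + R ξ := by
      intro ξ
      show (hat β h (G z) (ξ z) + (k * h) • coup net G z)
          + k • ∑ w ∈ net.nb z, c (hat β h (G w) (ξ w) + (k * h) • coup net G w)
          - (G z + k • ∑ w ∈ net.nb z, c (G w)) =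
        ((hat β h (G z) (ξ z) - G z) + k • ∑ w ∈ net.nb z, (c (hat β h (G w) (ξ w)) - c (G w)))
          + ((k * h) • coup net G z + k • ∑ w ∈ net.nb z,
            (c (hat β h (G w) (ξ w) + (k * h) • coup net G w) - c (hat β h (G w) (ξ w))))
      rw [Finset.sum_sub_distrib, Finset.sum_sub_distrib, smul_sub, smul_sub]
      abel
    have hMb : ∀ᵐ ξ ∂(pim ι ν), ‖M ξ‖ ≤ CM * t ^ 3 * σ := by
      have h1 : ∀ᵐ ξ ∂(pim ι ν), ∀ w, ‖D w (ξ w)‖ ≤ C2c * t ^ 3 * mn w :=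
        ae_all_iff.2 fun w => LSY_ae w (hDb w)
      filter_upwards [h1, LSY_ae z hA0b] with ξ h1 h2
      calc ‖M ξ‖ ≤ ‖A0 (ξ z)‖ + ‖k • ∑ w ∈ net.nb z, D w (ξ w)‖ := norm_add_le _ _
        _ ≤ 2 * t ^ 3 * ‖G z‖ + k * ∑ w ∈ net.nb z, C2c * t ^ 3 * mn w := by
            refine add_le_add h2 ?_
            rw [norm_smul, Real.norm_eq_abs, abs_of_nonneg hk0]
            exact mul_le_mul_of_nonneg_left
              ((norm_sum_le _ _).trans (Finset.sum_le_sum fun w _ => h1 w)) hk0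
        _ = 2 * t ^ 3 * ‖G z‖ + C2c * t ^ 3 * (k * ∑ w ∈ net.nb z, mn w) := by
            rw [← Finset.mul_sum]
            ring
        _ ≤ 2 * t ^ 3 * σ + C2c * t ^ 3 * σ :=
            add_le_add (mul_le_mul_of_nonneg_left hrσ (by positivity))
              (mul_le_mul_of_nonneg_left hkσ (by positivity))
        _ = _ := by
            rw [hCM]
            ring
    have hBσ : ∀ w, ∀ᵐ ζ ∂ν, ‖B w ζ‖ ≤ 8 * d * A * Cu * t ^ 7 * mn w := by
      intro w
      have h0 := hmn0 w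
      filter_upwards [hBb w] with ζ hζ
      refine hζ.trans ?_
      by_cases hw : 1 / (2 * A) ≤ ‖G w‖
      · rw [if_pos hw]
        have h1 : 1 ≤ 2 * A * mn w := by
          have h2 : 1 / (2 * A) ≤ mn w := le_min hw (by
            rw [div_le_one (by positivity)]
            linarith)
          rw [div_le_iff₀ (by positivity)] at h2
          linarith
        have h3 : h * ‖coup net G w‖ ≤ 4 * d * t ^ 7 := by
          have h5 := mul_le_mul_of_nonneg_left (hcoup w) (pow_nonneg ht0.le 7)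
          have h6 : h * ‖coup net G w‖ = t ^ 7 * (‖coup net G w‖ * t) := by
            rw [ht8]
            ring
          rw [h6]
          linarith
        calc Cu * (k * h) * ‖coup net G w‖ = Cu * k * (h * ‖coup net G w‖) := by ring
          _ ≤ Cu * 1 * (4 * d * t ^ 7) :=
              mul_le_mul (mul_le_mul_of_nonneg_left hk1 (by linarith)) h3 (by positivity)
                (by linarith)
          _ = 4 * d * Cu * t ^ 7 * 1 := by ring
          _ ≤ 4 * d * Cu * t ^ 7 * (2 * A * mn w) :=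
              mul_le_mul_of_nonneg_left h1 (by positivity)
          _ = _ := by ring
      · rw [if_neg hw, mul_zero]
        positivity
    have hRb : ∀ᵐ ξ ∂(pim ι ν), ‖R ξ‖ ≤ CR * t ^ 7 * σ := by
      have h1 : ∀ᵐ ξ ∂(pim ι ν), ∀ w, ‖B w (ξ w)‖ ≤ 8 * d * A * Cu * t ^ 7 * mn w :=
        ae_all_iff.2 fun w => LSY_ae w (hBσ w)
      filter_upwards [h1] with ξ h1
      have h2 : ‖(k * h) • coup net G z‖ ≤ (1 + 2 * d) * t ^ 7 * σ := by
        rw [norm_smul, Real.norm_eq_abs, abs_of_nonneg (by positivity)]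
        have h3 : h * ‖coup net G z‖ ≤ t ^ 7 * (∑ w ∈ net.nb z, mn w + 2 * d * ‖G z‖) := by
          have h4 := mul_le_mul_of_nonneg_right (hcoupn z) ht0.le
          rw [add_mul, Finset.sum_mul] at h4
          have h5 : ∑ v ∈ net.nb z, ‖G v‖ * t ≤ ∑ v ∈ net.nb z, mn v :=
            Finset.sum_le_sum fun v _ => hGm v
          have h6 : 2 * (d : ℝ) * ‖G z‖ * t ≤ 2 * d * ‖G z‖ :=
            mul_le_of_le_one_right (by positivity) ht1
          have h7 : h * ‖coup net G z‖ = t ^ 7 * (‖coup net G z‖ * t) := by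
            rw [ht8]
            ring
          rw [h7]
          exact mul_le_mul_of_nonneg_left (by linarith) (by positivity)
        have h8 : k * h * ‖coup net G z‖ ≤
            k * (t ^ 7 * (∑ w ∈ net.nb z, mn w + 2 * d * ‖G z‖)) := by
          rw [mul_assoc]
          exact mul_le_mul_of_nonneg_left h3 hk0
        have h9 : k * (2 * d * ‖G z‖) ≤ 2 * d * σ := by
          calc k * (2 * d * ‖G z‖) ≤ 1 * (2 * d * ‖G z‖) :=
                mul_le_mul_of_nonneg_right hk1 (by positivity)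
            _ ≤ 2 * d * σ := by
                rw [one_mul]
                exact mul_le_mul_of_nonneg_left hrσ (by positivity)
        calc k * h * ‖coup net G z‖ ≤ _ := h8
          _ = t ^ 7 * (k * ∑ w ∈ net.nb z, mn w + k * (2 * d * ‖G z‖)) := by ring
          _ ≤ t ^ 7 * (σ + 2 * d * σ) := mul_le_mul_of_nonneg_left (by linarith) (by positivity)
          _ = _ := by ring
      have h3 : ‖k • ∑ w ∈ net.nb z, B w (ξ w)‖ ≤ 8 * d * A * Cu * t ^ 7 * σ := by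
        rw [norm_smul, Real.norm_eq_abs, abs_of_nonneg hk0]
        calc k * ‖∑ w ∈ net.nb z, B w (ξ w)‖
            ≤ k * ∑ w ∈ net.nb z, 8 * d * A * Cu * t ^ 7 * mn w :=
              mul_le_mul_of_nonneg_left
                ((norm_sum_le _ _).trans (Finset.sum_le_sum fun w _ => h1 w)) hk0
          _ = 8 * d * A * Cu * t ^ 7 * (k * ∑ w ∈ net.nb z, mn w) := by
              rw [← Finset.mul_sum]
              ring
          _ ≤ _ := mul_le_mul_of_nonneg_left hkσ (by positivity)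
      calc ‖R ξ‖ ≤ ‖(k * h) • coup net G z‖ + ‖k • ∑ w ∈ net.nb z, B w (ξ w)‖ :=
            norm_add_le _ _
        _ ≤ (1 + 2 * d) * t ^ 7 * σ + 8 * d * A * Cu * t ^ 7 * σ := add_le_add h2 h3
        _ = _ := by
            rw [hCR]
            ring
    have hYb : ‖Y‖ ≤ KY * σ := by
      have h1 : ∀ w, ‖c (G w)‖ ≤ (Cu + 2 * Cy) * mn w := by
        intro w
        rcases le_total ‖G w‖ 1 with h1 | h1
        · have h2 : mn w = ‖G w‖ := min_eq_left h1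
          rw [h2]
          have h3 := hlin (G w)
          have h4 : 0 ≤ 2 * Cy * ‖G w‖ := by positivity
          linarith
        · have h2 : mn w = 1 := min_eq_right h1
          rw [h2]
          have h3 := hbd (G w) (by
            have := hG w
            linarith)
          linarith
      calc ‖Y‖ ≤ ‖G z‖ + ‖k • ∑ w ∈ net.nb z, c (G w)‖ := norm_add_le _ _
        _ ≤ ‖G z‖ + k * ∑ w ∈ net.nb z, (Cu + 2 * Cy) * mn w := by
            refine add_le_add le_rfl ?_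
            rw [norm_smul, Real.norm_eq_abs, abs_of_nonneg hk0]
            exact mul_le_mul_of_nonneg_left
              ((norm_sum_le _ _).trans (Finset.sum_le_sum fun w _ => h1 w)) hk0
        _ = ‖G z‖ + (Cu + 2 * Cy) * (k * ∑ w ∈ net.nb z, mn w) := by
            rw [← Finset.mul_sum]
            ring
        _ ≤ σ + (Cu + 2 * Cy) * σ :=
            add_le_add hrσ (mul_le_mul_of_nonneg_left hkσ (by positivity))
        _ = KY * σ := by
            rw [hKY]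
            ring
    -- pointwise lower bound
    obtain ⟨L, hL⟩ : ∃ L : ℝ, L = ∑ w ∈ net.nb z,
      (if 1 / (2 * A) ≤ ‖G w‖ then ‖coup net G w‖ else 0) := ⟨_, rfl⟩
    obtain ⟨K, hK⟩ : ∃ K : ℝ, K = 2 * inner ℝ Y ((k * h) • coup net G z)
      - h * (2 * Cu * k ^ 2 * ‖Y‖ * L) - (6 * CM * CR + CR ^ 2) * t ^ 9 * σ ^ 2 := ⟨_, rfl⟩
    have hpt : ∀ᵐ ξ ∂(pim ι ν),
        2 * inner ℝ Y (M ξ) + (‖M ξ‖ ^ 2 - 2 * (inner ℝ a (M ξ)) ^ 2) + K ≤
          2 * inner ℝ Y (M ξ + R ξ) + ‖M ξ + R ξ‖ ^ 2 - 2 * (inner ℝ a (M ξ + R ξ)) ^ 2 := by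
      have h1 : ∀ᵐ ξ ∂(pim ι ν), ∀ w, ‖B w (ξ w)‖ ≤
          Cu * (k * h) * (if 1 / (2 * A) ≤ ‖G w‖ then ‖coup net G w‖ else 0) :=
        ae_all_iff.2 fun w => LSY_ae w (hBb w)
      filter_upwards [h1, hMb, hRb] with ξ h1 h2 h3
      have h4 := LSY_qadd a (M ξ) (R ξ) ha1
      have h5 : 6 * (‖M ξ‖ * ‖R ξ‖) ≤ 6 * CM * CR * t ^ 9 * σ ^ 2 := by
        have h6 : ‖M ξ‖ * ‖R ξ‖ ≤ (CM * t ^ 3 * σ) * (CR * t ^ 7 * σ) :=
          mul_le_mul h2 h3 (norm_nonneg _) (by positivity)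
        have h7 : (CM * t ^ 3 * σ) * (CR * t ^ 7 * σ) = CM * CR * σ ^ 2 * t ^ 10 := by ring
        have h8 : CM * CR * σ ^ 2 * t ^ 10 ≤ CM * CR * σ ^ 2 * t ^ 9 :=
          mul_le_mul_of_nonneg_left (htp (by norm_num)) (by positivity)
        linarith
      have h6 : ‖R ξ‖ ^ 2 ≤ CR ^ 2 * t ^ 9 * σ ^ 2 := by
        calc ‖R ξ‖ ^ 2 ≤ (CR * t ^ 7 * σ) ^ 2 := pow_le_pow_left₀ (norm_nonneg _) h3 2
          _ = CR ^ 2 * σ ^ 2 * t ^ 14 := by ring
          _ ≤ CR ^ 2 * σ ^ 2 * t ^ 9 :=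
              mul_le_mul_of_nonneg_left (htp (by norm_num)) (by positivity)
          _ = _ := by ring
      have h7 : -(k * h * Cu * k * ‖Y‖ * L) ≤
          inner ℝ Y (k • ∑ w ∈ net.nb z, B w (ξ w)) := by
        have h8 : ‖k • ∑ w ∈ net.nb z, B w (ξ w)‖ ≤ k * (Cu * (k * h) * L) := by
          rw [norm_smul, Real.norm_eq_abs, abs_of_nonneg hk0, hL, Finset.mul_sum]
          exact mul_le_mul_of_nonneg_left
            ((norm_sum_le _ _).trans (Finset.sum_le_sum fun w _ => h1 w)) hk0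
        have h9 := (abs_le.1 (abs_real_inner_le_norm Y
          (k • ∑ w ∈ net.nb z, B w (ξ w)))).1
        have h10 := mul_le_mul_of_nonneg_left h8 (norm_nonneg Y)
        linarith
      have h8 : inner ℝ Y (R ξ) = inner ℝ Y ((k * h) • coup net G z)
          + inner ℝ Y (k • ∑ w ∈ net.nb z, B w (ξ w)) := inner_add_right _ _ _
      have h9 : inner ℝ Y (M ξ + R ξ) = inner ℝ Y (M ξ) + inner ℝ Y (R ξ) :=
        inner_add_right _ _ _
      rw [h9, h8, hK]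
      linarith
    have hMc : Continuous M := (hA0c.comp (continuous_apply z)).add
      (Continuous.const_smul (continuous_finsetSum _ fun w _ =>
        (hDc w).comp (continuous_apply w)) k)
    have hRc : Continuous R := continuous_const.add
      (Continuous.const_smul (continuous_finsetSum _ fun w _ =>
        (hBc w).comp (continuous_apply w)) k)
    obtain ⟨hMi1, hMi2⟩ := LSY_intq hMc hMb Y a ha1
    have hMRb : ∀ᵐ ξ ∂(pim ι ν), ‖M ξ + R ξ‖ ≤ CM * t ^ 3 * σ + CR * t ^ 7 * σ := by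
      filter_upwards [hMb, hRb] with ξ h1 h2
      exact (norm_add_le _ _).trans (add_le_add h1 h2)
    obtain ⟨hTi1, hTi2⟩ := LSY_intq (F := fun ξ => M ξ + R ξ) (hMc.add hRc) hMRb Y a ha1
    have hI1 : ∫ ξ, (2 * inner ℝ Y (M ξ) + (‖M ξ‖ ^ 2 - 2 * (inner ℝ a (M ξ)) ^ 2) + K)
        ∂(pim ι ν) ≤ ∫ ξ, (2 * inner ℝ Y (M ξ + R ξ) + ‖M ξ + R ξ‖ ^ 2
          - 2 * (inner ℝ a (M ξ + R ξ)) ^ 2) ∂(pim ι ν) := by
      refine integral_mono_ae ?_ ?_ hpt
      · exact ((hMi1.const_mul 2).add hMi2).add (integrable_const K)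
      · have h1 := (hTi1.const_mul 2).add hTi2
        refine h1.congr (Filter.Eventually.of_forall fun ξ => ?_)
        show 2 * inner ℝ Y (M ξ + R ξ) + (‖M ξ + R ξ‖ ^ 2 - 2 * (inner ℝ a (M ξ + R ξ)) ^ 2) =
          2 * inner ℝ Y (M ξ + R ξ) + ‖M ξ + R ξ‖ ^ 2 - 2 * (inner ℝ a (M ξ + R ξ)) ^ 2
        ring
    have hI2 : ∫ ξ, (2 * inner ℝ Y (M ξ) + (‖M ξ‖ ^ 2 - 2 * (inner ℝ a (M ξ)) ^ 2) + K)
        ∂(pim ι ν) = 2 * ∫ ξ, inner ℝ Y (M ξ) ∂(pim ι ν)
          + ∫ ξ, (‖M ξ‖ ^ 2 - 2 * (inner ℝ a (M ξ)) ^ 2) ∂(pim ι ν) + K := by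
      rw [integral_add (f := fun ξ => 2 * inner ℝ Y (M ξ)
          + (‖M ξ‖ ^ 2 - 2 * (inner ℝ a (M ξ)) ^ 2)) (g := fun _ => K)
          ((hMi1.const_mul 2).add hMi2) (integrable_const K),
        integral_add (hMi1.const_mul 2) hMi2, integral_const_mul, integral_const]
      simp
    have hI3 : ∫ ξ, inner ℝ Y (M ξ) ∂(pim ι ν) = inner ℝ Y (∫ ζ, A0 ζ ∂ν)
        + k * ∑ w ∈ net.nb z, inner ℝ Y (∫ ζ, D w ζ ∂ν) := by
      have h1 : ∀ ξ : ι → E N, inner ℝ Y (M ξ) = inner ℝ Y (A0 (ξ z))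
          + k * ∑ w ∈ net.nb z, inner ℝ Y (D w (ξ w)) := by
        intro ξ
        show inner ℝ Y (A0 (ξ z) + k • ∑ w ∈ net.nb z, D w (ξ w)) = _
        rw [inner_add_right, inner_smul_right, inner_sum]
      rw [integral_congr_ae (Filter.Eventually.of_forall h1)]
      have i1 : Integrable (fun ξ : ι → E N => inner ℝ Y (A0 (ξ z))) (pim ι ν) :=
        (LSY_intq (F := fun ξ => A0 (ξ z)) (hA0c.comp (continuous_apply z))
          (LSY_ae z hA0b) Y a ha1).1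
      have i2 : ∀ w, Integrable (fun ξ : ι → E N => inner ℝ Y (D w (ξ w))) (pim ι ν) := fun w =>
        (LSY_intq (F := fun ξ => D w (ξ w)) ((hDc w).comp (continuous_apply w))
          (LSY_ae w (hDb w)) Y a ha1).1
      rw [integral_add i1 ((integrable_finsetSum _ fun w _ => i2 w).const_mul k),
        integral_const_mul, integral_finsetSum _ fun w _ => i2 w]
      congr 1
      · have h2 := LSY_int (ν := ν) z (f := fun ζ => inner ℝ Y (A0 ζ))
          (continuous_const.inner hA0c).aestronglyMeasurable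
        rw [h2, integral_inner hA0i]
      · congr 1
        refine Finset.sum_congr rfl fun w _ => ?_
        have h2 := LSY_int (ν := ν) w (f := fun ζ => inner ℝ Y (D w ζ))
          (continuous_const.inner (hDc w)).aestronglyMeasurable
        rw [h2, integral_inner (hDi w)]
    -- quadratic part
    have haa : ∀ v : E N, (inner ℝ a v) ^ 2 ≤ ‖v‖ ^ 2 := fun v => by
      have h1 : |inner ℝ a v| ≤ ‖v‖ :=
        (abs_real_inner_le_norm _ _).trans (mul_le_of_le_one_left (norm_nonneg _) ha1)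
      rw [← sq_abs]
      exact pow_le_pow_left₀ (abs_nonneg _) h1 2
    have hq0 : h * (N - 2) * ‖G z‖ ^ 2 - 3 * Cv * t ^ 9 * σ ^ 2 ≤
        ∫ ζ, (‖A0 ζ‖ ^ 2 - 2 * (inner ℝ a (A0 ζ)) ^ 2) ∂ν := by
      have i1 : Integrable (fun ζ => ‖A0 ζ‖ ^ 2) ν := by
        refine Integrable.of_bound (hA0c.norm.pow 2).aestronglyMeasurable
          ((2 * t ^ 3 * ‖G z‖) ^ 2) ?_
        filter_upwards [hA0b] with ζ hζ
        rw [Real.norm_eq_abs, abs_of_nonneg (sq_nonneg _)]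
        exact pow_le_pow_left₀ (norm_nonneg _) hζ 2
      have i2 : Integrable (fun ζ => (inner ℝ a (A0 ζ)) ^ 2) ν := by
        refine Integrable.of_bound ((continuous_const.inner hA0c).pow 2).aestronglyMeasurable
          ((2 * t ^ 3 * ‖G z‖) ^ 2) ?_
        filter_upwards [hA0b] with ζ hζ
        rw [Real.norm_eq_abs, abs_of_nonneg (sq_nonneg _)]
        exact (haa _).trans (pow_le_pow_left₀ (norm_nonneg _) hζ 2)
      rw [integral_sub i1 (i2.const_mul 2), integral_const_mul]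
      have h1 := (abs_le.1 (hV2 a)).2
      have h2 := (abs_le.1 hV3).1
      have h3 : ‖a‖ ^ 2 ≤ 1 := pow_le_one₀ (norm_nonneg _) ha1
      have h4 : h * ‖G z‖ ^ 2 * ‖a‖ ^ 2 ≤ h * ‖G z‖ ^ 2 :=
        mul_le_of_le_one_right (by positivity) h3
      have h5 : Cv * t ^ 9 * ‖G z‖ ^ 2 * ‖a‖ ^ 2 ≤ Cv * t ^ 9 * ‖G z‖ ^ 2 :=
        mul_le_of_le_one_right (by positivity) h3
      have h6 : Cv * t ^ 9 * ‖G z‖ ^ 2 ≤ Cv * t ^ 9 * σ ^ 2 :=
        mul_le_mul_of_nonneg_left (pow_le_pow_left₀ (norm_nonneg _) hrσ 2) (by positivity)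
      have h7 : ∫ ζ, (inner ℝ a (A0 ζ)) ^ 2 ∂ν - h * ‖G z‖ ^ 2 * ‖a‖ ^ 2 ≤
          Cv * t ^ 9 * ‖G z‖ ^ 2 * ‖a‖ ^ 2 := h1
      have h8 : -(Cv * t ^ 9 * ‖G z‖ ^ 2) ≤ ∫ ζ, ‖A0 ζ‖ ^ 2 ∂ν - h * N * ‖G z‖ ^ 2 := h2
      linarith
    have hqw : ∀ w ∈ net.nb z, h * k ^ 2 * nz net β δ Cu k A y G z w
        - C2c * (A / 6) ^ 2 * (t ^ 9 * σ ^ 2) ≤
        ∫ ζ, (‖V w ζ‖ ^ 2 - 2 * (inner ℝ a (V w ζ)) ^ 2) ∂ν := by
      intro w hw
      have h0 := hmn0 w
      have h1 : ∀ ζ, ‖V w ζ‖ ^ 2 - 2 * (inner ℝ a (V w ζ)) ^ 2 =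
          k ^ 2 * (‖D w ζ‖ ^ 2 - 2 * (inner ℝ a (D w ζ)) ^ 2) := by
        intro ζ
        rw [hVw w hw]
        show ‖k • D w ζ‖ ^ 2 - 2 * (inner ℝ a (k • D w ζ)) ^ 2 = _
        rw [norm_smul, inner_smul_right, Real.norm_eq_abs, mul_pow, sq_abs]
        ring
      rw [integral_congr_ae (Filter.Eventually.of_forall h1), integral_const_mul]
      by_cases h6 : 6 / A < ‖G w‖
      · have h2 : nz net β δ Cu k A y G z w = 1 / 2 * (bbf β δ ‖G w‖ ^ 2 +
            (inner ℝ a (c (G w))) ^ 2) := by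
          unfold nz
          rw [if_pos h6]
        have h3 : 1 / 2 * h * (bbf β δ ‖G w‖ ^ 2 + (inner ℝ a (c (G w))) ^ 2) - C2c * t ^ 9 ≤
            ∫ ζ, (‖D w ζ‖ ^ 2 - 2 * (inner ℝ a (D w ζ)) ^ 2) ∂ν := hsq (G w) h6 (hG w) a ha1
        have h4 := mul_le_mul_of_nonneg_left h3 (sq_nonneg k)
        have h5 : k ≤ A / 6 * σ := by
          have h7 : 6 / A ≤ mn w := le_min h6.le (by
            rw [div_le_one hA0]
            exact hA)
          have h8 : 1 ≤ A / 6 * mn w := by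
            rw [div_le_iff₀ hA0] at h7
            linarith
          calc k = k * 1 := (mul_one k).symm
            _ ≤ k * (A / 6 * mn w) := mul_le_mul_of_nonneg_left h8 hk0
            _ = A / 6 * (k * mn w) := by ring
            _ ≤ _ := mul_le_mul_of_nonneg_left (hkw w hw) (by positivity)
        have h7 : k ^ 2 ≤ (A / 6 * σ) ^ 2 := pow_le_pow_left₀ hk0 h5 2
        have h8 : C2c * t ^ 9 * k ^ 2 ≤ C2c * t ^ 9 * (A / 6 * σ) ^ 2 :=
          mul_le_mul_of_nonneg_left h7 (by positivity)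
        rw [h2]
        linarith
      · have h2 : nz net β δ Cu k A y G z w = - (Cu ^ 2 * ‖G w‖ ^ 2) := by
          unfold nz
          rw [if_neg h6]
        have i1 : Integrable (fun ζ => ‖D w ζ‖ ^ 2) ν := by
          refine Integrable.of_bound ((hDc w).norm.pow 2).aestronglyMeasurable
            ((C2c * t ^ 3 * mn w) ^ 2) ?_
          filter_upwards [hDb w] with ζ hζ
          rw [Real.norm_eq_abs, abs_of_nonneg (sq_nonneg _)]
          exact pow_le_pow_left₀ (norm_nonneg _) hζ 2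
        have i2 : Integrable (fun ζ => (inner ℝ a (D w ζ)) ^ 2) ν := by
          refine Integrable.of_bound
            ((continuous_const.inner (hDc w)).pow 2).aestronglyMeasurable
            ((C2c * t ^ 3 * mn w) ^ 2) ?_
          filter_upwards [hDb w] with ζ hζ
          rw [Real.norm_eq_abs, abs_of_nonneg (sq_nonneg _)]
          exact (haa _).trans (pow_le_pow_left₀ (norm_nonneg _) hζ 2)
        have h3 : - ∫ ζ, ‖D w ζ‖ ^ 2 ∂ν ≤
            ∫ ζ, (‖D w ζ‖ ^ 2 - 2 * (inner ℝ a (D w ζ)) ^ 2) ∂ν := by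
          rw [← integral_neg]
          refine integral_mono i1.neg (i1.sub (i2.const_mul 2)) fun ζ => ?_
          have h4 := haa (D w ζ)
          show -(‖D w ζ‖ ^ 2) ≤ ‖D w ζ‖ ^ 2 - 2 * (inner ℝ a (D w ζ)) ^ 2
          linarith
        have h4 : Cu ^ 2 * h * (mn w) ^ 2 ≤ Cu ^ 2 * h * ‖G w‖ ^ 2 :=
          mul_le_mul_of_nonneg_left (pow_le_pow_left₀ h0 (hmnG w) 2) (by positivity)
        have h5 : -(Cu ^ 2 * h * ‖G w‖ ^ 2) ≤
            ∫ ζ, (‖D w ζ‖ ^ 2 - 2 * (inner ℝ a (D w ζ)) ^ 2) ∂ν := by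
          have := hDsq w
          linarith
        have h7 := mul_le_mul_of_nonneg_left h5 (sq_nonneg k)
        have h8 : 0 ≤ C2c * (A / 6) ^ 2 * (t ^ 9 * σ ^ 2) := by positivity
        rw [h2]
        linarith
    have hmean0 : ‖∫ ζ, A0 ζ ∂ν‖ ≤ (1 + Cv) * t ^ 6 * ‖G z‖ := by
      have h1 : ‖∫ ζ, A0 ζ ∂ν + (h * ‖G z‖ ^ β) • G z‖ ≤ Cv * t ^ 9 * ‖G z‖ := hV1
      have h2 : ‖(h * ‖G z‖ ^ β) • G z‖ ≤ t ^ 6 * ‖G z‖ := by
        have h3 := (rad_facts hβ0 hh hh1 (norm_nonneg (G z)) (hG z)).2.2.1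
        rw [ht6] at h3
        rw [norm_smul, Real.norm_eq_abs, abs_of_nonneg (by positivity)]
        exact mul_le_mul_of_nonneg_right h3 (norm_nonneg _)
      have h4 : ‖∫ ζ, A0 ζ ∂ν‖ ≤ ‖∫ ζ, A0 ζ ∂ν + (h * ‖G z‖ ^ β) • G z‖
          + ‖(h * ‖G z‖ ^ β) • G z‖ := by
        have := norm_sub_le (∫ ζ, A0 ζ ∂ν + (h * ‖G z‖ ^ β) • G z) ((h * ‖G z‖ ^ β) • G z)
        rwa [add_sub_cancel_right] at this
      have h5 : Cv * t ^ 9 * ‖G z‖ ≤ Cv * t ^ 6 * ‖G z‖ :=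
        mul_le_mul_of_nonneg_right (mul_le_mul_of_nonneg_left (htp (by norm_num)) hCv.le)
          (norm_nonneg _)
      linarith
    have hmeanw : ∀ w ∈ net.nb z, ‖∫ ζ, V w ζ ∂ν‖ ≤ k * ((1 + Cu) * (t ^ 7 * mn w)) := by
      intro w hw
      have h1 : ∫ ζ, V w ζ ∂ν = k • ∫ ζ, D w ζ ∂ν := by
        rw [hVw w hw]
        exact integral_smul k _
      rw [h1, norm_smul, Real.norm_eq_abs, abs_of_nonneg hk0]
      exact mul_le_mul_of_nonneg_left (hmeanD w) hk0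
    have hquad := LSY_quad (ν := ν) (insert z (net.nb z)) V hVc
      (fun s => 2 * t ^ 3 * ‖G z‖ + C2c * t ^ 3 * mn s) hVb a ha1
    simp only [hsumV] at hquad
    rw [Finset.sum_insert hznb, Finset.sum_insert hznb, hVz] at hquad
    have hms : ‖∫ ζ, A0 ζ ∂ν‖ + ∑ w ∈ net.nb z, ‖∫ ζ, V w ζ ∂ν‖ ≤ Cm * t ^ 6 * σ := by
      have h1 : ∑ w ∈ net.nb z, ‖∫ ζ, V w ζ ∂ν‖ ≤ (1 + Cu) * t ^ 6 * σ := by
        calc ∑ w ∈ net.nb z, ‖∫ ζ, V w ζ ∂ν‖
            ≤ ∑ w ∈ net.nb z, k * ((1 + Cu) * (t ^ 7 * mn w)) :=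
              Finset.sum_le_sum hmeanw
          _ = (1 + Cu) * t ^ 7 * (k * ∑ w ∈ net.nb z, mn w) := by
              rw [Finset.mul_sum, Finset.mul_sum]
              exact Finset.sum_congr rfl fun w _ => by ring
          _ ≤ (1 + Cu) * t ^ 7 * σ := mul_le_mul_of_nonneg_left hkσ (by positivity)
          _ ≤ (1 + Cu) * t ^ 6 * σ := mul_le_mul_of_nonneg_right
              (mul_le_mul_of_nonneg_left (htp (by norm_num)) (by linarith)) hσ0
      have h2 : (1 + Cv) * t ^ 6 * ‖G z‖ ≤ (1 + Cv) * t ^ 6 * σ :=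
        mul_le_mul_of_nonneg_left hrσ (by positivity)
      rw [hCm]
      linarith
    have hms2 : (‖∫ ζ, A0 ζ ∂ν‖ + ∑ w ∈ net.nb z, ‖∫ ζ, V w ζ ∂ν‖) ^ 2 ≤
        Cm ^ 2 * t ^ 9 * σ ^ 2 := by
      calc (‖∫ ζ, A0 ζ ∂ν‖ + ∑ w ∈ net.nb z, ‖∫ ζ, V w ζ ∂ν‖) ^ 2 ≤ (Cm * t ^ 6 * σ) ^ 2 :=
            pow_le_pow_left₀ (by positivity) hms 2
        _ = Cm ^ 2 * σ ^ 2 * t ^ 12 := by ring
        _ ≤ Cm ^ 2 * σ ^ 2 * t ^ 9 :=
            mul_le_mul_of_nonneg_left (htp (by norm_num)) (by positivity)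
        _ = _ := by ring
    have hqs : h * k ^ 2 * ∑ w ∈ net.nb z, nz net β δ Cu k A y G z w
        - 2 * d * (C2c * (A / 6) ^ 2) * (t ^ 9 * σ ^ 2) ≤
        ∑ w ∈ net.nb z, ∫ ζ, (‖V w ζ‖ ^ 2 - 2 * (inner ℝ a (V w ζ)) ^ 2) ∂ν := by
      refine le_trans ?_ (Finset.sum_le_sum hqw)
      rw [Finset.sum_sub_distrib, ← Finset.mul_sum, Finset.sum_const, nsmul_eq_mul]
      have h1 : ((net.nb z).card : ℝ) * (C2c * (A / 6) ^ 2 * (t ^ 9 * σ ^ 2)) ≤
          2 * d * (C2c * (A / 6) ^ 2 * (t ^ 9 * σ ^ 2)) :=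
        mul_le_mul_of_nonneg_right (hnbc z) (by positivity)
      linarith
    -- linear part
    have hlin0 : -(h * ‖G z‖ ^ β * inner ℝ Y (G z)) - KY * Cv * t ^ 9 * σ ^ 2 ≤
        inner ℝ Y (∫ ζ, A0 ζ ∂ν) := by
      have h1 : ‖∫ ζ, A0 ζ ∂ν + (h * ‖G z‖ ^ β) • G z‖ ≤ Cv * t ^ 9 * ‖G z‖ := hV1
      have h2 := (abs_le.1 (abs_real_inner_le_norm Y
        (∫ ζ, A0 ζ ∂ν + (h * ‖G z‖ ^ β) • G z))).1
      rw [inner_add_right, inner_smul_right] at h2
      have h3 : ‖Y‖ * ‖∫ ζ, A0 ζ ∂ν + (h * ‖G z‖ ^ β) • G z‖ ≤ (KY * σ) * (Cv * t ^ 9 * σ) :=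
        mul_le_mul hYb (h1.trans (mul_le_mul_of_nonneg_left hrσ (by positivity)))
          (norm_nonneg _) (by positivity)
      linarith
    have hGG : GG1 net β δ Cu (2 * Cu) k A y G (fun w => G w + h⁻¹ • ∫ ζ, D w ζ ∂ν) z =
        (N - 2) * ‖G z‖ ^ 2 - 2 * ‖G z‖ ^ β * inner ℝ Y (G z)
        - 4 * d * k * inner ℝ Y (G z)
        + 2 * k * ∑ w ∈ net.nb z, inner ℝ Y (G w + h⁻¹ • ∫ ζ, D w ζ ∂ν)
        - (2 * Cu) * k ^ 2 * ‖Y‖ * L
        + k ^ 2 * ∑ w ∈ net.nb z, nz net β δ Cu k A y G z w := by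
      rw [hL]
      rfl
    have hU : ∑ w ∈ net.nb z, inner ℝ Y (G w + h⁻¹ • ∫ ζ, D w ζ ∂ν) =
        ∑ w ∈ net.nb z, inner ℝ Y (G w) + h⁻¹ * ∑ w ∈ net.nb z, inner ℝ Y (∫ ζ, D w ζ ∂ν) := by
      rw [Finset.mul_sum, ← Finset.sum_add_distrib]
      exact Finset.sum_congr rfl fun w _ => by rw [inner_add_right, inner_smul_right]
    have hcz : inner ℝ Y ((k * h) • coup net G z) =
        k * h * (∑ w ∈ net.nb z, inner ℝ Y (G w) - 2 * d * inner ℝ Y (G z)) := by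
      unfold coup
      rw [inner_smul_right, inner_sub_right, inner_sum, inner_smul_right, Nat.cast_mul]
      norm_num
    have hh' : h * (2 * k * (∑ w ∈ net.nb z, inner ℝ Y (G w)
        + h⁻¹ * ∑ w ∈ net.nb z, inner ℝ Y (∫ ζ, D w ζ ∂ν))) =
        2 * k * h * ∑ w ∈ net.nb z, inner ℝ Y (G w)
          + 2 * (k * ∑ w ∈ net.nb z, inner ℝ Y (∫ ζ, D w ζ ∂ν)) := by
      field_simp
    rw [hsig]
    simp only [hT]
    refine le_trans ?_ hI1
    rw [hI2, hI3, hGG, hU, hK, hcz]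
    have hfin : 0 ≤ t ^ 9 * σ ^ 2 := by positivity
    linarith

end Dyn
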