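import Pool.Agent.Lib_MP_36b788.LSDefs
import Pool.Agent.Lib_MP_36b788.CTil
import Pool.Agent.Lib_MP_36b788.VGen

/-!
# LSYS: size and second moment of the increment of `Y`

PROOF. `T = A₀ + kΣ_{w~z}D_w + kh coup_z + kΣB_w` as in LSY. `‖A₀‖ ≤ 2h^{3/8}r_z`, `∫‖A₀‖² ≤ 2N h r_z²` (HATB, VGEN);
`‖D_w‖ ≤ C h^{3/8}min(r_w,1)`, `∫‖D_w‖² ≤ Cu²h min(r_w,1)²` (CTIL); `‖B_w‖ ≤ Cu kh‖coup_w‖`, `B_w = 0` a.e. for low `w`;
`kh‖coup_z‖ ≤ h^{7/8}·C σ_z` and, for `w` not low, `k·kh‖coup_w‖ ≤ k h^{7/8}C ≤ C h^{7/8}·k min(r_w,1)·2A`. So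
`‖T‖ ≤ C h^{3/8}σ_z` and `∫‖T‖² ≤ (2d+2)²(…)`; the terms with `h^{7/8}` are squared to `h^{7/4} ≤ h` for small `h`, the main
constant `CT` depends only on `N, d, Cu`.
-/

open MeasureTheory

namespace Dyn

private theorem lsys_coup_le {N d : ℕ} {ι : Type} [Fintype ι] (net : Net ι d) (G : ι → E N)
    (x : ι) : ‖coup net G x‖ ≤ ∑ y ∈ net.nb x, ‖G y‖ + 2 * d * ‖G x‖ := by
  unfold coup
  refine (norm_sub_le _ _).trans (add_le_add (norm_sum_le _ _) ?_)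
  rw [norm_smul, Real.norm_natCast]
  push_cast
  exact le_rfl

private theorem lsys_decomp {N d : ℕ} {ι : Type} [Fintype ι] (net : Net ι d) (k h β r1 : ℝ)
    (y : ℝ → ℝ) (G ξ : ι → E N) (z : ι) :
    Yv net k r1 y (stp net β h k G ξ) z - Yv net k r1 y G z
      = ((hat β h (G z) (ξ z) - G z)
        + k • ∑ w ∈ net.nb z, (ctil r1 y (hat β h (G w) (ξ w)) - ctil r1 y (G w)))
        + ((k * h) • coup net G z
        + k • ∑ w ∈ net.nb z,
          (ctil r1 y (stp net β h k G ξ w) - ctil r1 y (hat β h (G w) (ξ w)))) := by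
  have e : stp net β h k G ξ z = hat β h (G z) (ξ z) + (k * h) • coup net G z := rfl
  unfold Yv
  rw [Finset.sum_sub_distrib, Finset.sum_sub_distrib, e, smul_sub, smul_sub]
  abel

private theorem lsys_tri {N d : ℕ} {ι : Type} [Fintype ι] (net : Net ι d) {k h : ℝ} (β r1 : ℝ)
    (hk : 0 ≤ k) (hh : 0 ≤ h) (y : ℝ → ℝ) (G ξ : ι → E N) (z : ι) :
    ‖Yv net k r1 y (stp net β h k G ξ) z - Yv net k r1 y G z‖
      ≤ (‖hat β h (G z) (ξ z) - G z‖
        + k * ∑ w ∈ net.nb z, ‖ctil r1 y (hat β h (G w) (ξ w)) - ctil r1 y (G w)‖)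
        + (k * h * ‖coup net G z‖
        + k * ∑ w ∈ net.nb z,
          ‖ctil r1 y (stp net β h k G ξ w) - ctil r1 y (hat β h (G w) (ξ w))‖) := by
  rw [lsys_decomp]
  refine (norm_add_le _ _).trans (add_le_add ((norm_add_le _ _).trans (add_le_add le_rfl ?_))
    ((norm_add_le _ _).trans (add_le_add ?_ ?_)))
  · rw [norm_smul, Real.norm_of_nonneg hk]
    exact mul_le_mul_of_nonneg_left (norm_sum_le _ _) hk
  · rw [norm_smul, Real.norm_of_nonneg (mul_nonneg hk hh)]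
  · rw [norm_smul, Real.norm_of_nonneg hk]
    exact mul_le_mul_of_nonneg_left (norm_sum_le _ _) hk

/-- the change of the corrector by the interaction -/
private theorem lsys_B {N : ℕ} {A Cu ε : ℝ} (hA : 6 ≤ A) (hCu : 1 ≤ Cu) (c : E N → E N)
    (hlip : ∀ g g' : E N, ‖c g - c g'‖ ≤ Cu * ‖g - g'‖) (hz : ∀ g : E N, ‖g‖ ≤ 1 / A → c g = 0)
    {g u v : E N} {ℓ : ℝ} (hu : ‖u‖ ≤ (1 + ℓ) * ‖g‖) (hℓ : ℓ ≤ 1 / 10) (hv : ‖v‖ ≤ ε)
    (hε : ε ≤ 2 / 5 / A) :
    ‖c (u + v) - c u‖ ≤ 2 * A * Cu * ε * min ‖g‖ 1 := by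
  have hA0 : 0 < A := by linarith
  have hε0 : 0 ≤ ε := (norm_nonneg v).trans hv
  by_cases hg : ‖g‖ < 1 / (2 * A)
  · have h1 : ‖u‖ ≤ 11 / 20 / A := by
      have h2 : (1 + ℓ) * ‖g‖ ≤ 11 / 10 * (1 / (2 * A)) := by
        have h3 : (1 + ℓ) * ‖g‖ ≤ 11 / 10 * ‖g‖ :=
          mul_le_mul_of_nonneg_right (by linarith) (norm_nonneg g)
        have h4 : 11 / 10 * ‖g‖ ≤ 11 / 10 * (1 / (2 * A)) :=
          mul_le_mul_of_nonneg_left hg.le (by norm_num)
        linarith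
      have h5 : 11 / 10 * (1 / (2 * A)) = 11 / 20 / A := by
        field_simp
        norm_num
      linarith
    have h6 : (11 / 20 / A : ℝ) ≤ 1 / A := by
      rw [div_le_div_iff_of_pos_right hA0]
      norm_num
    have h7 : ‖u + v‖ ≤ 1 / A := by
      have h8 : (11 / 20 / A : ℝ) + 2 / 5 / A ≤ 1 / A := by
        rw [← add_div, div_le_div_iff_of_pos_right hA0]
        norm_num
      exact (norm_add_le _ _).trans (by linarith)
    rw [hz _ h7, hz _ (h1.trans h6), sub_zero, norm_zero]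
    have : 0 ≤ min ‖g‖ 1 := le_min (norm_nonneg _) zero_le_one
    positivity
  · have hg' : 1 / (2 * A) ≤ ‖g‖ := not_lt.1 hg
    have h1 : ‖c (u + v) - c u‖ ≤ Cu * ε := by
      refine (hlip _ _).trans ?_
      rw [add_sub_cancel_left]
      exact mul_le_mul_of_nonneg_left hv (by linarith)
    have h2 : 1 / (2 * A) ≤ min ‖g‖ 1 := by
      refine le_min hg' ?_
      rw [div_le_one (by positivity)]
      linarith
    have h3 : 1 ≤ 2 * A * min ‖g‖ 1 := by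
      have h4 : 2 * A * (1 / (2 * A)) ≤ 2 * A * min ‖g‖ 1 :=
        mul_le_mul_of_nonneg_left h2 (by linarith)
      have h5 : 2 * A * (1 / (2 * A)) = 1 := by
        field_simp
      linarith
    have h6 : Cu * ε * 1 ≤ Cu * ε * (2 * A * min ‖g‖ 1) :=
      mul_le_mul_of_nonneg_left h3 (mul_nonneg (by linarith) hε0)
    calc ‖c (u + v) - c u‖ ≤ Cu * ε * 1 := by rw [mul_one]; exact h1
      _ ≤ Cu * ε * (2 * A * min ‖g‖ 1) := h6
      _ = 2 * A * Cu * ε * min ‖g‖ 1 := by ring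

private theorem lsys_hat_cont {N : ℕ} {β h : ℝ} (hβ : 0 < β) (hh : 0 ≤ h) (g : E N) :
    Continuous (fun x : E N => hat β h g x) := by
  have h1 : Continuous (J (N := N) β h) := J_continuous hβ hh
  have h2 : Continuous (fun x : E N => g + (Real.sqrt h * ‖g‖) • x) := by fun_prop
  have h3 : (fun x : E N => hat β h g x)
      = (J (N := N) β h) ∘ (fun x : E N => g + (Real.sqrt h * ‖g‖) • x) := rfl
  rw [h3]
  exact Continuous.comp h1 h2

private theorem lsys_int {N d : ℕ} {ι : Type} [Fintype ι] (net : Net ι d) (z : ι)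
    (k C3 p σ : ℝ) (ν : Measure (E N)) [IsProbabilityMeasure ν]
    (f0 : E N → ℝ) (fw : ι → E N → ℝ) (hf0c : Continuous f0) (hfwc : ∀ w, Continuous (fw w))
    (hi0 : Integrable (fun ξ : ι → E N => f0 (ξ z)) (pim ι ν))
    (hiw : ∀ w, Integrable (fun ξ : ι → E N => fw w (ξ w)) (pim ι ν))
    (hpr : IsProbabilityMeasure (pim ι ν)) :
    ∫ ξ, 3 * ((f0 (ξ z) + (2 * d * k ^ 2) * ∑ w ∈ net.nb z, fw w (ξ w))
        + (C3 * p * σ) ^ 2) ∂(pim ι ν)
        = 3 * ((∫ x, f0 x ∂ν + (2 * d * k ^ 2) * ∑ w ∈ net.nb z, ∫ x, fw w x ∂ν)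
          + (C3 * p * σ) ^ 2) := by
  have e0 : ∫ ξ, f0 (ξ z) ∂(pim ι ν) = ∫ x, f0 x ∂ν :=
    integral_comp_eval (μ := fun _ : ι => ν) hf0c.aestronglyMeasurable
  have ew : ∀ w, ∫ ξ, fw w (ξ w) ∂(pim ι ν) = ∫ x, fw w x ∂ν := fun w =>
    integral_comp_eval (μ := fun _ : ι => ν) (hfwc w).aestronglyMeasurable
  have hi1 : Integrable (fun ξ : ι → E N => (2 * d * k ^ 2) * ∑ w ∈ net.nb z, fw w (ξ w))
      (pim ι ν) := (integrable_finsetSum _ (fun w _ => hiw w)).const_mul _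
  have hi2 : Integrable (fun ξ : ι → E N => f0 (ξ z)
      + (2 * d * k ^ 2) * ∑ w ∈ net.nb z, fw w (ξ w)) (pim ι ν) := hi0.add hi1
  have hs : ∫ ξ, ∑ w ∈ net.nb z, fw w (ξ w) ∂(pim ι ν) = ∑ w ∈ net.nb z, ∫ x, fw w x ∂ν := by
    rw [integral_finsetSum _ (fun w _ => hiw w)]
    exact Finset.sum_congr rfl (fun w _ => ew w)
  rw [integral_const_mul, integral_add hi2 (integrable_const _), integral_add hi0 hi1,
    integral_const_mul, e0, hs, integral_const]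
  simp

private theorem lsys_sq {a b c : ℝ} {x : ℝ} (hx0 : 0 ≤ x) (hx : x ≤ a + b + c) :
    x ^ 2 ≤ 3 * (a ^ 2 + b ^ 2 + c ^ 2) := by
  have h1 : x ^ 2 ≤ (a + b + c) ^ 2 := pow_le_pow_left₀ hx0 hx 2
  nlinarith [sq_nonneg (a - b), sq_nonneg (a - c), sq_nonneg (b - c)]

/-- almost sure size and second moment of the increment of `Y`; the second moment constant `CT`
depends only on `N, d, β, δ, Cy, A` -/
theorem lsy_size (N d : ℕ) (β δ Cy : ℝ) (hN : 3 ≤ N) (hβ : 1 < β) (hδ : 0 < δ) (hCy : 1 ≤ Cy) :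
    ∀ A : ℝ, 6 ≤ A → ∃ CT : ℝ, 0 < CT ∧ ∀ k : ℝ, 0 ≤ k → k ≤ 1 →
    ∀ (ι : Type) [Fintype ι] (net : Net ι d),
    ∃ C2 h0 : ℝ, 0 < C2 ∧ 0 < h0 ∧ ∀ (h : ℝ) (ν : Measure (E N)), 0 < h → h < h0 → IsNoise h ν →
      ∀ y : ℝ → ℝ, IsCorr N β h ν δ Cy y → ∀ G : ι → E N, (∀ x, ‖G x‖ ≤ rad β h) →
      ∀ z, (∀ᵐ ξ ∂(pim ι ν),
          ‖Yv net k (1 / A) y (stp net β h k G ξ) z - Yv net k (1 / A) y G z‖ ≤
            C2 * h ^ (3 / 8 : ℝ) * sig net k G z) ∧
        ∫ ξ, ‖Yv net k (1 / A) y (stp net β h k G ξ) z - Yv net k (1 / A) y G z‖ ^ 2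
            ∂(pim ι ν) ≤ CT * h * sig net k G z ^ 2 := by
  obtain ⟨C0, hC0, hct⟩ := ctil_facts N β δ Cy hN hβ hδ hCy
  obtain ⟨Cv, hv0, hCv, hv0pos, hvg⟩ := vgen N β (by omega) hβ.le
  obtain ⟨hb0, hb0pos, _, hhb⟩ := hat_bounds N β (by linarith)
  intro A hA
  have hApos : 0 < A := by linarith
  have hlogA : 0 ≤ Real.log A := Real.log_nonneg (by linarith)
  have hr1 : Real.log (1 / (1 / A)) = Real.log A := by rw [one_div_one_div]
  obtain ⟨Cu, hCu⟩ : ∃ Cu, Cu = C0 * (1 + Real.log A) := ⟨_, rfl⟩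
  have hCu1 : 1 ≤ Cu := by
    rw [hCu]
    nlinarith
  have hCu0 : 0 < Cu := by linarith
  have hd0 : (0 : ℝ) ≤ d := Nat.cast_nonneg d
  have hN0 : (0 : ℝ) ≤ N := Nat.cast_nonneg N
  obtain ⟨C3, hC3⟩ : ∃ C3 : ℝ, C3 = (2 * d + 1) + 8 * d * A * Cu := ⟨_, rfl⟩
  have hC3pos : 0 < C3 := by
    rw [hC3]
    positivity
  refine ⟨3 * ((N + Cv) + 2 * d * Cu ^ 2 + C3 ^ 2), by positivity, ?_⟩
  intro k hk0 hk1 ι _ net
  have hA6 : 1 / A ≤ 1 / 6 := one_div_le_one_div_of_le (by norm_num) hA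
  obtain ⟨C2', h0', hC2', hh0', hct'⟩ := hct (1 / A) (by positivity) hA6
  rw [hr1] at hct'
  have hep : (0 : ℝ) < 1 / (10 * A * (4 * d + 1)) := by positivity
  refine ⟨2 + C2' + C3, min h0' (min hv0 (min hb0 (min 1 ((1 / (10 * A * (4 * d + 1))) ^ 2)))),
    by positivity, ?_, ?_⟩
  · have : (0 : ℝ) < (1 / (10 * A * (4 * d + 1))) ^ 2 := by positivity
    exact lt_min hh0' (lt_min hv0pos (lt_min hb0pos (lt_min one_pos this)))
  intro h ν hh hhlt hν y hy G hG z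
  have hlt1 : h < h0' := hhlt.trans_le (min_le_left _ _)
  have hlt2 : h < hv0 := hhlt.trans_le ((min_le_right _ _).trans (min_le_left _ _))
  have hlt3 : h < hb0 :=
    hhlt.trans_le ((min_le_right _ _).trans ((min_le_right _ _).trans (min_le_left _ _)))
  have hlt4 : h < 1 := hhlt.trans_le ((min_le_right _ _).trans ((min_le_right _ _).trans
    ((min_le_right _ _).trans (min_le_left _ _))))
  have hlt5 : h < (1 / (10 * A * (4 * d + 1))) ^ 2 := hhlt.trans_le ((min_le_right _ _).trans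
    ((min_le_right _ _).trans ((min_le_right _ _).trans (min_le_right _ _))))
  have hprob : IsProbabilityMeasure ν := hν.prob
  obtain ⟨f1, f2, f3, f4, f5, f6, f7, f8, f9⟩ := hct' h ν hh hlt1 hν y hy
  rw [← hCu] at f1 f9
  -- powers of `h`
  obtain ⟨ℓ, hℓ⟩ : ∃ ℓ : ℝ, ℓ = h ^ (3 / 8 : ℝ) := ⟨_, rfl⟩
  obtain ⟨p, hp⟩ : ∃ p : ℝ, p = h ^ (7 / 8 : ℝ) := ⟨_, rfl⟩
  have hℓ0 : 0 < ℓ := by rw [hℓ]; exact Real.rpow_pos_of_pos hh _
  have hp0 : 0 < p := by rw [hp]; exact Real.rpow_pos_of_pos hh _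
  have hpl : p ≤ ℓ := by
    rw [hp, hℓ]
    exact Real.rpow_le_rpow_of_exponent_ge hh hlt4.le (by norm_num)
  have hhp : h ≤ p := by
    rw [hp]
    have := Real.rpow_le_rpow_of_exponent_ge hh hlt4.le (show (7 / 8 : ℝ) ≤ 1 by norm_num)
    rwa [Real.rpow_one] at this
  have h98 : h ^ (9 / 8 : ℝ) ≤ h := by
    have := Real.rpow_le_rpow_of_exponent_ge hh hlt4.le (show (1 : ℝ) ≤ 9 / 8 by norm_num)
    rwa [Real.rpow_one] at this
  have hpp : p ^ 2 ≤ h := by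
    have e : p ^ 2 = h ^ (7 / 4 : ℝ) := by
      rw [hp, ← Real.rpow_natCast, ← Real.rpow_mul hh.le]
      norm_num
    rw [e]
    have := Real.rpow_le_rpow_of_exponent_ge hh hlt4.le (show (1 : ℝ) ≤ 7 / 4 by norm_num)
    rwa [Real.rpow_one] at this
  obtain ⟨q, hq⟩ : ∃ q : ℝ, q = h ^ (-(1 / 8) : ℝ) := ⟨_, rfl⟩
  have hq1 : 1 ≤ q := by
    rw [hq]
    exact Real.one_le_rpow_of_pos_of_le_one_of_nonpos hh hlt4.le (by norm_num)
  have hhq : h * q = p := by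
    rw [hq, hp]
    nth_rewrite 1 [← Real.rpow_one h]
    rw [← Real.rpow_add hh]
    norm_num
  have hsm : p ≤ 1 / (10 * A * (4 * d + 1)) := by
    have h1 : p ≤ h ^ (1 / 2 : ℝ) := by
      rw [hp]
      exact Real.rpow_le_rpow_of_exponent_ge hh hlt4.le (by norm_num)
    rw [← Real.sqrt_eq_rpow] at h1
    refine h1.trans ?_
    rw [Real.sqrt_le_iff]
    exact ⟨hep.le, hlt5.le⟩
  have hsm' : 4 * d * p ≤ 2 / 5 / A := by
    have h1 : (4 * d : ℝ) * p ≤ (4 * d + 1) * (1 / (10 * A * (4 * d + 1))) := by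
      have h2 : (4 * d : ℝ) * p ≤ (4 * d + 1) * p :=
        mul_le_mul_of_nonneg_right (by linarith) hp0.le
      exact h2.trans (mul_le_mul_of_nonneg_left hsm (by linarith))
    have h3 : ((4 * d + 1) : ℝ) * (1 / (10 * A * (4 * d + 1))) = 1 / 10 / A := by
      field_simp
    rw [h3] at h1
    refine h1.trans ?_
    rw [div_le_div_iff_of_pos_right hApos]
    norm_num
  -- sizes of the sites
  have hrad : ∀ w, ‖G w‖ ≤ q := fun w => by
    rw [hq]
    exact (rad_facts (β := β) (by linarith) hh hlt4 (norm_nonneg _) (hG w)).1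
  have hmin0 : ∀ w, 0 ≤ min ‖G w‖ 1 := fun w => le_min (norm_nonneg _) zero_le_one
  have hrad' : ∀ w, ‖G w‖ ≤ q * min ‖G w‖ 1 := by
    intro w
    rcases le_total ‖G w‖ 1 with h1 | h1
    · rw [min_eq_left h1]
      nlinarith [norm_nonneg (G w)]
    · rw [min_eq_right h1, mul_one]
      exact hrad w
  obtain ⟨s, hs⟩ : ∃ s : ℝ, s = ∑ w ∈ net.nb z, min ‖G w‖ 1 := ⟨_, rfl⟩
  have hs0 : 0 ≤ s := by
    rw [hs]
    exact Finset.sum_nonneg (fun w _ => hmin0 w)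
  obtain ⟨σ, hσd⟩ : ∃ σ : ℝ, σ = sig net k G z := ⟨_, rfl⟩
  have hσ : σ = ‖G z‖ + k * s := by
    rw [hσd, hs]
    rfl
  rw [← hσd, ← hℓ]
  have hks : 0 ≤ k * s := mul_nonneg hk0 hs0
  have hr0 : 0 ≤ ‖G z‖ := norm_nonneg _
  have hσ0 : 0 ≤ σ := by rw [hσ]; exact add_nonneg hr0 hks
  have hrσ : ‖G z‖ ≤ σ := by rw [hσ]; linarith
  have hksσ : k * s ≤ σ := by rw [hσ]; linarith
  have hcz : k * h * ‖coup net G z‖ ≤ p * ((2 * d + 1) * σ) := by
    have h1 : ‖coup net G z‖ ≤ q * s + 2 * d * ‖G z‖ := by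
      refine (lsys_coup_le net G z).trans (add_le_add ?_ le_rfl)
      rw [hs, Finset.mul_sum]
      exact Finset.sum_le_sum (fun w _ => hrad' w)
    have h2 : k * h * ‖coup net G z‖ ≤ k * h * (q * s + 2 * d * ‖G z‖) :=
      mul_le_mul_of_nonneg_left h1 (mul_nonneg hk0 hh.le)
    have h3 : k * h * (q * s + 2 * d * ‖G z‖) = p * (k * s) + (2 * d * ‖G z‖) * (k * h) := by
      rw [← hhq]
      ring
    have h4 : k * h ≤ p := by
      have : k * h ≤ 1 * h := mul_le_mul_of_nonneg_right hk1 hh.le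
      linarith
    have h5 : (2 * d * ‖G z‖) * (k * h) ≤ (2 * d * ‖G z‖) * p :=
      mul_le_mul_of_nonneg_left h4 (by positivity)
    have h6 : p * (k * s) + (2 * d * ‖G z‖) * p ≤ p * ((2 * d + 1) * σ) := by
      have h7 : k * s + 2 * d * ‖G z‖ ≤ (2 * d + 1) * σ := by
        have h8 : 2 * d * ‖G z‖ ≤ 2 * d * σ := mul_le_mul_of_nonneg_left hrσ (by positivity)
        linarith
      have h9 := mul_le_mul_of_nonneg_left h7 hp0.le
      linarith
    linarith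
  have hcx : ∀ x, ‖(k * h) • coup net G x‖ ≤ 4 * d * p := by
    intro x
    rw [norm_smul, Real.norm_of_nonneg (mul_nonneg hk0 hh.le)]
    have h1 : ‖coup net G x‖ ≤ 4 * d * q := by
      refine (lsys_coup_le net G x).trans ?_
      have h2 : ∑ y ∈ net.nb x, ‖G y‖ ≤ (net.nb x).card • q :=
        Finset.sum_le_card_nsmul _ _ _ (fun w _ => hrad w)
      have h3 : ((net.nb x).card : ℝ) ≤ 2 * d := by
        have := net.nb_card x
        exact_mod_cast this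
      rw [nsmul_eq_mul] at h2
      have h4 : ((net.nb x).card : ℝ) * q ≤ 2 * d * q :=
        mul_le_mul_of_nonneg_right h3 (by linarith)
      have h5 : 2 * d * ‖G x‖ ≤ 2 * d * q := mul_le_mul_of_nonneg_left (hrad x) (by positivity)
      linarith
    have h6 : k * h * ‖coup net G x‖ ≤ 1 * h * (4 * d * q) := by
      have h7 : k * h ≤ 1 * h := mul_le_mul_of_nonneg_right hk1 hh.le
      exact mul_le_mul h7 h1 (norm_nonneg _) (by linarith)
    have h8 : 1 * h * (4 * d * q) = 4 * d * p := by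
      rw [← hhq]
      ring
    linarith
  -- the almost sure event
  have hev : ∀ᵐ ξ ∂(pim ι ν), ∀ w, ‖hat β h (G w) (ξ w) - G w‖ ≤ 2 * ℓ * ‖G w‖ ∧
      ‖hat β h (G w) (ξ w)‖ ≤ (1 + ℓ) * ‖G w‖ ∧ ℓ ≤ 1 / 10 ∧
      ‖ctil (1 / A) y (hat β h (G w) (ξ w)) - ctil (1 / A) y (G w)‖ ≤
        C2' * ℓ * min ‖G w‖ 1 := by
    refine Filter.eventually_all.2 fun w => ?_
    have h1 : ∀ᵐ x ∂ν, ‖hat β h (G w) x - G w‖ ≤ 2 * ℓ * ‖G w‖ ∧
        ‖hat β h (G w) x‖ ≤ (1 + ℓ) * ‖G w‖ ∧ ℓ ≤ 1 / 10 ∧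
        ‖ctil (1 / A) y (hat β h (G w) x) - ctil (1 / A) y (G w)‖ ≤
          C2' * ℓ * min ‖G w‖ 1 := by
      filter_upwards [hhb h ν hh hlt3 hν (G w) (hG w), (f9 (G w) (hG w)).1] with x hx hx'
      rw [hℓ]
      exact ⟨hx.1, hx.2.2.1, hx.2.2.2.2, hx'⟩
    exact (Measure.tendsto_eval_ae_ae (μ := fun _ : ι => ν) (i := w)).eventually h1
  have hrem : ∀ᵐ ξ ∂(pim ι ν), k * h * ‖coup net G z‖ + k * ∑ w ∈ net.nb z,
      ‖ctil (1 / A) y (stp net β h k G ξ w) - ctil (1 / A) y (hat β h (G w) (ξ w))‖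
      ≤ C3 * p * σ := by
    filter_upwards [hev] with ξ hξ
    have h1 : ∑ w ∈ net.nb z,
        ‖ctil (1 / A) y (stp net β h k G ξ w) - ctil (1 / A) y (hat β h (G w) (ξ w))‖
        ≤ 2 * A * Cu * (4 * d * p) * s := by
      rw [hs, Finset.mul_sum]
      refine Finset.sum_le_sum (fun w _ => ?_)
      exact lsys_B hA hCu1 (ctil (1 / A) y) f1 f4 (hξ w).2.1 (hξ w).2.2.1 (hcx w) hsm'
    have h2 := mul_le_mul_of_nonneg_left h1 hk0
    have h3 : k * (2 * A * Cu * (4 * d * p) * s) = (8 * d * A * Cu) * p * (k * s) := by ring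
    have h4 : (8 * d * A * Cu) * p * (k * s) ≤ (8 * d * A * Cu) * p * σ :=
      mul_le_mul_of_nonneg_left hksσ (by positivity)
    rw [hC3]
    linarith
  constructor
  · filter_upwards [hev, hrem] with ξ hξ hξ'
    refine (lsys_tri net β (1 / A) hk0 hh.le y G ξ z).trans ?_
    have h1 : ‖hat β h (G z) (ξ z) - G z‖ ≤ 2 * ℓ * σ :=
      (hξ z).1.trans (mul_le_mul_of_nonneg_left hrσ (by positivity))
    have h2 : ∑ w ∈ net.nb z, ‖ctil (1 / A) y (hat β h (G w) (ξ w)) - ctil (1 / A) y (G w)‖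
        ≤ C2' * ℓ * s := by
      rw [hs, Finset.mul_sum]
      exact Finset.sum_le_sum (fun w _ => (hξ w).2.2.2)
    have h3 := mul_le_mul_of_nonneg_left h2 hk0
    have h4 : k * (C2' * ℓ * s) ≤ C2' * ℓ * σ := by
      have := mul_le_mul_of_nonneg_left hksσ (show 0 ≤ C2' * ℓ by positivity)
      linarith
    have h5 : C3 * p * σ ≤ C3 * ℓ * σ :=
      mul_le_mul_of_nonneg_right (mul_le_mul_of_nonneg_left hpl hC3pos.le) hσ0
    linarith
  · obtain ⟨f0, hf0⟩ : ∃ f0 : E N → ℝ, f0 = fun x => ‖hat β h (G z) x - G z‖ ^ 2 := ⟨_, rfl⟩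
    obtain ⟨fw, hfw⟩ : ∃ fw : ι → E N → ℝ,
      fw = fun w x => ‖ctil (1 / A) y (hat β h (G w) x) - ctil (1 / A) y (G w)‖ ^ 2 := ⟨_, rfl⟩
    have hβ0 : 0 < β := by linarith
    have hcont : ∀ g : E N, Continuous (fun x : E N => hat β h g x) := fun g =>
      lsys_hat_cont hβ0 hh.le g
    have hctc : Continuous (ctil (N := N) (1 / A) y) := by
      have : LipschitzWith ⟨Cu, hCu0.le⟩ (ctil (N := N) (1 / A) y) :=
        LipschitzWith.of_dist_le_mul (fun g g' => by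
          rw [dist_eq_norm, dist_eq_norm]
          exact f1 g g')
      exact this.continuous
    have hf0c : Continuous f0 := by
      rw [hf0]
      exact (((hcont (G z)).sub continuous_const).norm).pow 2
    have hfwc : ∀ w, Continuous (fw w) := by
      intro w
      rw [hfw]
      exact (((hctc.comp (hcont (G w))).sub continuous_const).norm).pow 2
    have hf0i : Integrable f0 ν := by
      refine Integrable.of_bound hf0c.aestronglyMeasurable ((2 * h ^ (3 / 8 : ℝ) * ‖G z‖) ^ 2) ?_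
      filter_upwards [hhb h ν hh hlt3 hν (G z) (hG z)] with x hx
      rw [hf0, Real.norm_of_nonneg (by positivity)]
      exact pow_le_pow_left₀ (norm_nonneg _) hx.1 2
    have hfwi : ∀ w, Integrable (fw w) ν := by
      intro w
      refine Integrable.of_bound (hfwc w).aestronglyMeasurable
        ((C2' * h ^ (3 / 8 : ℝ) * min ‖G w‖ 1) ^ 2) ?_
      filter_upwards [(f9 (G w) (hG w)).1] with x hx
      rw [hfw, Real.norm_of_nonneg (by positivity)]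
      exact pow_le_pow_left₀ (norm_nonneg _) hx 2
    have hb0' : ∫ x, f0 x ∂ν ≤ (N + Cv) * h * ‖G z‖ ^ 2 := by
      have h1 := (abs_le.1 (hvg h ν hh hlt2 hν (G z) (hG z)).2.2).2
      have h2 : Cv * h ^ (9 / 8 : ℝ) * ‖G z‖ ^ 2 ≤ Cv * h * ‖G z‖ ^ 2 :=
        mul_le_mul_of_nonneg_right (mul_le_mul_of_nonneg_left h98 hCv.le) (by positivity)
      rw [hf0]
      linarith
    have hbw : ∀ w, ∫ x, fw w x ∂ν ≤ Cu ^ 2 * h * (min ‖G w‖ 1) ^ 2 := by
      intro w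
      rw [hfw]
      exact (f9 (G w) (hG w)).2
    have hi0 : Integrable (fun ξ : ι → E N => f0 (ξ z)) (pim ι ν) :=
      integrable_comp_eval (μ := fun _ : ι => ν) hf0i
    have hiw : ∀ w, Integrable (fun ξ : ι → E N => fw w (ξ w)) (pim ι ν) := fun w =>
      integrable_comp_eval (μ := fun _ : ι => ν) (hfwi w)
    have hpr : IsProbabilityMeasure (pim ι ν) := by
      unfold pim
      infer_instance
    have hgi : Integrable (fun ξ : ι → E N => 3 * ((f0 (ξ z)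
        + (2 * d * k ^ 2) * ∑ w ∈ net.nb z, fw w (ξ w)) + (C3 * p * σ) ^ 2)) (pim ι ν) :=
      ((hi0.add ((integrable_finsetSum _ (fun w _ => hiw w)).const_mul _)).add
        (integrable_const _)).const_mul 3
    have hle : ∀ᵐ ξ ∂(pim ι ν),
        ‖Yv net k (1 / A) y (stp net β h k G ξ) z - Yv net k (1 / A) y G z‖ ^ 2 ≤
        3 * ((f0 (ξ z) + (2 * d * k ^ 2) * ∑ w ∈ net.nb z, fw w (ξ w)) + (C3 * p * σ) ^ 2) := by
      filter_upwards [hrem] with ξ hξ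
      have h1 := lsys_tri net β (1 / A) hk0 hh.le y G ξ z
      have h2 := lsys_sq (norm_nonneg _) (h1.trans (add_le_add le_rfl hξ))
      refine h2.trans ?_
      have h3 : (k * ∑ w ∈ net.nb z,
          ‖ctil (1 / A) y (hat β h (G w) (ξ w)) - ctil (1 / A) y (G w)‖) ^ 2
          ≤ (2 * d * k ^ 2) * ∑ w ∈ net.nb z, fw w (ξ w) := by
        have h4 := sq_sum_le_card_mul_sum_sq (s := net.nb z)
          (f := fun w => ‖ctil (1 / A) y (hat β h (G w) (ξ w)) - ctil (1 / A) y (G w)‖)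
        have h5 : ((net.nb z).card : ℝ) ≤ 2 * d := by
          have := net.nb_card z
          exact_mod_cast this
        have h6 : 0 ≤ ∑ w ∈ net.nb z, fw w (ξ w) := by
          rw [hfw]
          exact Finset.sum_nonneg (fun w _ => by positivity)
        have h7 : ∑ w ∈ net.nb z, fw w (ξ w) = ∑ w ∈ net.nb z,
            ‖ctil (1 / A) y (hat β h (G w) (ξ w)) - ctil (1 / A) y (G w)‖ ^ 2 := by
          rw [hfw]
        rw [← h7] at h4
        have h8 : ((net.nb z).card : ℝ) * ∑ w ∈ net.nb z, fw w (ξ w)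
            ≤ 2 * d * ∑ w ∈ net.nb z, fw w (ξ w) := mul_le_mul_of_nonneg_right h5 h6
        rw [mul_pow]
        have h9 := mul_le_mul_of_nonneg_left (h4.trans h8) (sq_nonneg k)
        linarith
      have h10 : f0 (ξ z) = ‖hat β h (G z) (ξ z) - G z‖ ^ 2 := by rw [hf0]
      rw [h10]
      linarith
    refine (integral_mono_of_nonneg (Filter.Eventually.of_forall fun ξ => by positivity)
      hgi hle).trans ?_
    have hI : ∫ ξ, 3 * ((f0 (ξ z) + (2 * d * k ^ 2) * ∑ w ∈ net.nb z, fw w (ξ w))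
        + (C3 * p * σ) ^ 2) ∂(pim ι ν)
        = 3 * ((∫ x, f0 x ∂ν + (2 * d * k ^ 2) * ∑ w ∈ net.nb z, ∫ x, fw w x ∂ν)
          + (C3 * p * σ) ^ 2) :=
      lsys_int net z k C3 p σ ν f0 fw hf0c hfwc hi0 hiw hpr
    rw [hI]
    have h1 : ∑ w ∈ net.nb z, ∫ x, fw w x ∂ν ≤ Cu ^ 2 * h * s ^ 2 := by
      have h2 : ∑ w ∈ net.nb z, ∫ x, fw w x ∂ν
          ≤ ∑ w ∈ net.nb z, Cu ^ 2 * h * (min ‖G w‖ 1) ^ 2 :=
        Finset.sum_le_sum (fun w _ => hbw w)
      rw [← Finset.mul_sum] at h2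
      refine h2.trans (mul_le_mul_of_nonneg_left ?_ (by positivity))
      rw [hs]
      exact Finset.sum_sq_le_sq_sum_of_nonneg (fun w _ => hmin0 w)
    have h3 : (2 * d * k ^ 2) * ∑ w ∈ net.nb z, ∫ x, fw w x ∂ν
        ≤ 2 * d * Cu ^ 2 * h * σ ^ 2 := by
      have h4 := mul_le_mul_of_nonneg_left h1 (show 0 ≤ 2 * d * k ^ 2 by positivity)
      have h5 : (k * s) ^ 2 ≤ σ ^ 2 := pow_le_pow_left₀ hks hksσ 2
      have h6 := mul_le_mul_of_nonneg_left h5 (show 0 ≤ 2 * d * Cu ^ 2 * h by positivity)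
      have h7 : 2 * d * k ^ 2 * (Cu ^ 2 * h * s ^ 2) = 2 * d * Cu ^ 2 * h * (k * s) ^ 2 := by ring
      linarith
    have h8 : (N + Cv) * h * ‖G z‖ ^ 2 ≤ (N + Cv) * h * σ ^ 2 :=
      mul_le_mul_of_nonneg_left (pow_le_pow_left₀ hr0 hrσ 2) (by positivity)
    have h9 : (C3 * p * σ) ^ 2 ≤ C3 ^ 2 * h * σ ^ 2 := by
      have h10 := mul_le_mul_of_nonneg_left hpp (show 0 ≤ C3 ^ 2 * σ ^ 2 by positivity)
      have h11 : (C3 * p * σ) ^ 2 = C3 ^ 2 * σ ^ 2 * p ^ 2 := by ring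
      linarith
    linarith

end Dyn
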