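import Pool.Agent.Lib_MP_36b788.Defs

/-!
# MMS: `log mm(e^u)` as a smooth function of `u`

PROOF. `G(u) = -4 log M(e^u)`, `M(e^u) = exp(-e^u) + b√A e^{u/2} tt(A e^u) + e^{u/2}(1-(1+e^u/Rc)^{-(β-1)})`,
`tt(A e^u) = E/(1+E)`, `E = exp((3/2)(u+log A))`; smooth and positive. For `u ≤ 0`: `M = 1 + O(e^u)` and the first three
`u`-derivatives of each of the three terms are `O(e^u)` (`exp(-e^u)-1`; `e^{u/2}·O(e^{3u/2})`; `e^{u/2}·O(e^u)`), and
`M` is bounded below, so the derivatives of `log M` are `O(e^u)`. For `u ≥ 0`: `M e^{-u/2}` is bounded above and below by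
positive constants and its derivatives are bounded (`exp(-e^u)` beats `e^{-u/2}`), so the derivatives of
`log M = u/2 + log(M e^{-u/2})` are bounded.

In the formal proof both ranges are treated at once through `M(e^u) = √(1+e^u) P(u)`, with `P` bounded below and `P'`
and its derivatives `O(s)`, `s = e^u/(1+e^u)`.
-/

open MeasureTheory

namespace Dyn

/-- continuous and `O(w)` -/
private def MMSb (w f : ℝ → ℝ) : Prop :=
  Continuous f ∧ ∃ C : ℝ, 0 ≤ C ∧ ∀ u, |f u| ≤ C * w u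

/-- `f` and its first `n` derivatives are continuous and `O(w)` -/
private def MMSK (w : ℝ → ℝ) : ℕ → (ℝ → ℝ) → Prop
  | 0, f => MMSb w f
  | n + 1, f => MMSb w f ∧ ∃ f' : ℝ → ℝ, (∀ u, HasDerivAt f (f' u) u) ∧ MMSK w n f'

private theorem MMS_base {w : ℝ → ℝ} {n : ℕ} {f : ℝ → ℝ} (h : MMSK w n f) : MMSb w f := by
  cases n with
  | zero => exact h
  | succ n => exact h.1

private theorem MMS_down {w : ℝ → ℝ} (n : ℕ) : ∀ f : ℝ → ℝ, MMSK w (n + 1) f → MMSK w n f := by
  induction n with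
  | zero => intro f h; exact h.1
  | succ n ih =>
    intro f h
    obtain ⟨hb, f', hf', hk⟩ := h
    exact ⟨hb, f', hf', ih f' hk⟩

private theorem MMS_mono {w v : ℝ → ℝ} {D : ℝ} (hD : 0 ≤ D) (hwv : ∀ u, w u ≤ D * v u) (n : ℕ) :
    ∀ f : ℝ → ℝ, MMSK w n f → MMSK v n f := by
  have hb : ∀ f : ℝ → ℝ, MMSb w f → MMSb v f := by
    rintro f ⟨hc, C, hC, h⟩
    refine ⟨hc, C * D, mul_nonneg hC hD, fun u => (h u).trans ?_⟩
    rw [mul_assoc]
    exact mul_le_mul_of_nonneg_left (hwv u) hC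
  induction n with
  | zero => intro f h; exact hb f h
  | succ n ih =>
    intro f h
    obtain ⟨h0, f', hf', hk⟩ := h
    exact ⟨hb f h0, f', hf', ih f' hk⟩

private theorem MMS_add {w : ℝ → ℝ} (n : ℕ) : ∀ f g : ℝ → ℝ, MMSK w n f → MMSK w n g →
    MMSK w n (fun u => f u + g u) := by
  have hb : ∀ f g : ℝ → ℝ, MMSb w f → MMSb w g → MMSb w (fun u => f u + g u) := by
    rintro f g ⟨hc, C, hC, h⟩ ⟨hc', C', hC', h'⟩
    refine ⟨hc.add hc', C + C', add_nonneg hC hC', fun u => (abs_add_le _ _).trans ?_⟩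
    rw [add_mul]
    exact add_le_add (h u) (h' u)
  induction n with
  | zero => intro f g h h'; exact hb f g h h'
  | succ n ih =>
    intro f g h h'
    obtain ⟨h0, f', hf', hk⟩ := h
    obtain ⟨h0', g', hg', hk'⟩ := h'
    exact ⟨hb f g h0 h0', fun u => f' u + g' u, fun u => (hf' u).add (hg' u), ih f' g' hk hk'⟩

private theorem MMS_mul {w v : ℝ → ℝ} (n : ℕ) : ∀ f g : ℝ → ℝ,
    MMSK w n f → MMSK v n g → MMSK (fun u => w u * v u) n (fun u => f u * g u) := by
  have hb : ∀ f g : ℝ → ℝ, MMSb w f → MMSb v g →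
      MMSb (fun u => w u * v u) (fun u => f u * g u) := by
    rintro f g ⟨hc, C, hC, h⟩ ⟨hc', C', hC', h'⟩
    refine ⟨hc.mul hc', C * C', mul_nonneg hC hC', fun u => ?_⟩
    rw [abs_mul]
    calc |f u| * |g u| ≤ (C * w u) * (C' * v u) :=
          mul_le_mul (h u) (h' u) (abs_nonneg _) ((abs_nonneg _).trans (h u))
      _ = C * C' * (w u * v u) := by ring
  induction n with
  | zero => intro f g h h'; exact hb f g h h'
  | succ n ih =>
    intro f g h h'
    have hd := MMS_down n f h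
    have hd' := MMS_down n g h'
    obtain ⟨h0, f', hf', hk⟩ := h
    obtain ⟨h0', g', hg', hk'⟩ := h'
    exact ⟨hb f g h0 h0', fun u => f' u * g u + f u * g' u, fun u => (hf' u).mul (hg' u),
      MMS_add n _ _ (ih f' g hk hd') (ih f g' hd hk')⟩

private theorem MMS_const {w : ℝ → ℝ} (hw : ∀ u, 1 ≤ w u) (n : ℕ) :
    ∀ c : ℝ, MMSK w n (fun _ => c) := by
  have hb : ∀ c : ℝ, MMSb w (fun _ => c) := fun c =>
    ⟨continuous_const, |c|, abs_nonneg c, fun u => by
      have := mul_le_mul_of_nonneg_left (hw u) (abs_nonneg c)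
      linarith⟩
  induction n with
  | zero => intro c; exact hb c
  | succ n ih => intro c; exact ⟨hb c, fun _ => 0, fun u => hasDerivAt_const u c, ih 0⟩

private theorem MMS_one (n : ℕ) (c : ℝ) : MMSK (fun _ => 1) n (fun _ => c) :=
  MMS_const (fun _ => le_refl _) n c

private theorem MMS_mulb {w : ℝ → ℝ} (n : ℕ) (f g : ℝ → ℝ)
    (hf : MMSK w n f) (hg : MMSK (fun _ => 1) n g) : MMSK w n (fun u => f u * g u) :=
  MMS_mono (w := fun u => w u * 1) (D := 1) zero_le_one (fun u => by simp) n _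
    (MMS_mul n f g hf hg)

private theorem MMS_smul {w : ℝ → ℝ} (n : ℕ) (c : ℝ) (f : ℝ → ℝ)
    (hf : MMSK w n f) : MMSK w n (fun u => c * f u) := by
  have h := MMS_mulb n f (fun _ => c) hf (MMS_one n c)
  have he : (fun u => c * f u) = (fun u => f u * c) := by
    funext u; ring
  rw [he]; exact h

private theorem MMS_ode {w : ℝ → ℝ} (f g : ℝ → ℝ) (hd : ∀ u, HasDerivAt f (f u * g u) u)
    (hb : MMSb w f) (n : ℕ) (hg : MMSK (fun _ => 1) n g) : MMSK w (n + 1) f := by
  induction n with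
  | zero => exact ⟨hb, _, hd, MMS_mulb 0 f g hb hg⟩
  | succ n ih => exact ⟨hb, _, hd, MMS_mulb (n + 1) f g (ih (MMS_down n g hg)) hg⟩

private theorem MMS_ode' {w : ℝ → ℝ} (f g : ℝ → ℝ) (hd : ∀ u, HasDerivAt f (f u * g u) u)
    (hb : MMSb w f) (hg : ∀ n, MMSK (fun _ => 1) n g) (n : ℕ) : MMSK w n f := by
  cases n with
  | zero => exact hb
  | succ n => exact MMS_ode f g hd hb n (hg n)

/-- self referential form of the previous lemma -/
private theorem MMS_ode2 {w : ℝ → ℝ} (f g : ℝ → ℝ) (hd : ∀ u, HasDerivAt f (f u * g u) u)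
    (hb : MMSb w f) (hg : ∀ n, MMSK w n f → MMSK (fun _ => 1) n g) (n : ℕ) : MMSK w n f := by
  induction n with
  | zero => exact hb
  | succ n ih => exact MMS_ode f g hd hb n (hg n ih)

private theorem MMS_contDiff {w : ℝ → ℝ} (n : ℕ) : ∀ f : ℝ → ℝ, MMSK w n f → ContDiff ℝ n f := by
  induction n with
  | zero => intro f h; exact contDiff_zero.mpr h.1
  | succ n ih =>
    intro f h
    obtain ⟨h0, f', hf', hk⟩ := h
    have hd : deriv f = f' := funext fun u => (hf' u).deriv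
    have : ((n + 1 : ℕ) : WithTop ℕ∞) = (n : WithTop ℕ∞) + 1 := by norm_cast
    rw [this, contDiff_succ_iff_deriv]
    refine ⟨fun u => (hf' u).differentiableAt, by simp, ?_⟩
    rw [hd]; exact ih f' hk

/-! ### the logistic function -/

/-- logistic function -/
private noncomputable def MMSl (p q u : ℝ) : ℝ := Real.exp (p * u + q) / (1 + Real.exp (p * u + q))

private theorem MMSl_pos (p q u : ℝ) : 0 < MMSl p q u := by unfold MMSl; positivity

private theorem MMSl_lt (p q u : ℝ) : MMSl p q u < 1 := by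
  unfold MMSl
  rw [div_lt_one (by positivity)]
  linarith

private theorem MMSl_abs (p q u : ℝ) : |MMSl p q u| ≤ 1 := by
  rw [abs_of_pos (MMSl_pos p q u)]; exact (MMSl_lt p q u).le

private theorem MMSl_deriv (p q u : ℝ) :
    HasDerivAt (MMSl p q) (MMSl p q u * (p * (1 + -1 * MMSl p q u))) u := by
  have h1 : HasDerivAt (fun u : ℝ => p * u + q) p u := by
    simpa using ((hasDerivAt_id u).const_mul p).add_const q
  have h2 := h1.exp
  have h3 := h2.div (h2.const_add 1) (by positivity)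
  have h4 : Real.exp (p * u + q) / (1 + Real.exp (p * u + q)) *
      (p * (1 + -1 * (Real.exp (p * u + q) / (1 + Real.exp (p * u + q))))) =
      (Real.exp (p * u + q) * p * (1 + Real.exp (p * u + q)) -
        Real.exp (p * u + q) * (Real.exp (p * u + q) * p)) / (1 + Real.exp (p * u + q)) ^ 2 := by
    have : (1 + Real.exp (p * u + q)) ≠ 0 := by positivity
    field_simp
    ring
  unfold MMSl
  rw [h4]
  exact h3

private theorem MMSl_cont (p q : ℝ) : Continuous (MMSl p q) :=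
  continuous_iff_continuousAt.mpr fun u => (MMSl_deriv p q u).continuousAt

private theorem MMSl_K1 (p q : ℝ) (n : ℕ) : MMSK (fun _ => 1) n (MMSl p q) := by
  refine MMS_ode2 _ _ (MMSl_deriv p q) ⟨MMSl_cont p q, 1, zero_le_one, fun u => ?_⟩ ?_ n
  · simpa using MMSl_abs p q u
  · intro n h
    exact MMS_smul n p _ (MMS_add n _ _ (MMS_one n 1) (MMS_smul n (-1) _ h))

private theorem MMSl_K {w : ℝ → ℝ} (p q C : ℝ) (hC : 0 ≤ C) (h : ∀ u, MMSl p q u ≤ C * w u)
    (n : ℕ) : MMSK w n (MMSl p q) := by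
  refine MMS_ode' _ _ (MMSl_deriv p q) ⟨MMSl_cont p q, C, hC, fun u => ?_⟩ ?_ n
  · rw [abs_of_pos (MMSl_pos p q u)]; exact h u
  · intro n
    exact MMS_smul n p _ (MMS_add n _ _ (MMS_one n 1) (MMS_smul n (-1) _ (MMSl_K1 p q n)))

/-- the weight `s = e^u/(1+e^u)` -/
private noncomputable def MMSs (u : ℝ) : ℝ := MMSl 1 0 u

private theorem MMSs_eq (u : ℝ) : MMSs u = Real.exp u / (1 + Real.exp u) := by
  unfold MMSs MMSl; simp

private theorem MMSs_le_exp (u : ℝ) : MMSs u ≤ Real.exp u := by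
  rw [MMSs_eq]
  have := Real.exp_pos u
  exact div_le_self this.le (by linarith)

private theorem MMSs_pos (u : ℝ) : 0 < MMSs u := MMSl_pos _ _ _

private theorem MMSs_le_one (u : ℝ) : MMSs u ≤ 1 := (MMSl_lt _ _ _).le

private theorem MMSs_ge1 (u : ℝ) (hu : 0 ≤ u) : 1 ≤ 2 * MMSs u := by
  rw [MMSs_eq, ← mul_div_assoc, le_div_iff₀ (by positivity)]
  have := Real.one_le_exp hu
  linarith

private theorem MMSs_ge2 (u : ℝ) (hu : u ≤ 0) : Real.exp u ≤ 2 * MMSs u := by
  rw [MMSs_eq, ← mul_div_assoc, le_div_iff₀ (by positivity)]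
  have := Real.exp_le_one_iff.mpr hu
  have h2 := Real.exp_pos u
  nlinarith

private theorem MMS_to1 (n : ℕ) (f : ℝ → ℝ) (h : MMSK MMSs n f) : MMSK (fun _ => 1) n f :=
  MMS_mono (D := 1) zero_le_one (fun u => by simpa using MMSs_le_one u) n f h

private theorem MMSs_K (n : ℕ) : MMSK MMSs n MMSs :=
  MMSl_K 1 0 1 zero_le_one (fun u => by simp [MMSs]) n

/-! ### `exp(n u - e^u)` -/

private noncomputable def MMSa (k : ℕ) (u : ℝ) : ℝ := Real.exp (k * u - Real.exp u)

private theorem MMSa_deriv (k : ℕ) (u : ℝ) :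
    HasDerivAt (MMSa k) (k * MMSa k u + -1 * MMSa (k + 1) u) u := by
  have h0 : HasDerivAt (fun u : ℝ => (k : ℝ) * u) k u := by
    simpa using (hasDerivAt_id u).const_mul (k : ℝ)
  have h1 : HasDerivAt (fun u : ℝ => (k : ℝ) * u - Real.exp u) (k - Real.exp u) u :=
    h0.sub (Real.hasDerivAt_exp u)
  have h2 := h1.exp
  unfold MMSa
  convert h2 using 1
  have : Real.exp (((k + 1 : ℕ) : ℝ) * u - Real.exp u) =
      Real.exp (k * u - Real.exp u) * Real.exp u := by
    rw [← Real.exp_add]; congr 1; push_cast; ring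
  rw [this]; ring

private theorem MMSa_cont (k : ℕ) : Continuous (MMSa k) :=
  continuous_iff_continuousAt.mpr fun u => (MMSa_deriv k u).continuousAt

private theorem MMSa_le (k : ℕ) (u : ℝ) : MMSa k u ≤ k.factorial := by
  unfold MMSa
  have h := Real.pow_div_factorial_le_exp (Real.exp u) (Real.exp_pos u).le k
  have hf : (0 : ℝ) < k.factorial := by exact_mod_cast Nat.factorial_pos k
  rw [div_le_iff₀ hf] at h
  rw [Real.exp_sub, div_le_iff₀ (Real.exp_pos _), Real.exp_nat_mul]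
  linarith

private theorem MMSa_les (k : ℕ) (u : ℝ) :
    MMSa (k + 1) u ≤ (k.factorial + (k + 1).factorial) * MMSs u := by
  have h1 : MMSa (k + 1) u = (MMSa k u + MMSa (k + 1) u) * MMSs u := by
    have : MMSa (k + 1) u = MMSa k u * Real.exp u := by
      unfold MMSa
      rw [← Real.exp_add]; congr 1; push_cast; ring
    rw [this, MMSs_eq]
    field_simp
  rw [h1]
  refine mul_le_mul_of_nonneg_right ?_ (MMSs_pos u).le
  exact add_le_add (MMSa_le k u) (MMSa_le (k + 1) u)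

private theorem MMSa_pos (k : ℕ) (u : ℝ) : 0 < MMSa k u := Real.exp_pos _

private theorem MMSa_K1 (n : ℕ) : ∀ k : ℕ, MMSK (fun _ => 1) n (MMSa k) := by
  have hb : ∀ k : ℕ, MMSb (fun _ => 1) (MMSa k) := fun k =>
    ⟨MMSa_cont k, k.factorial, by positivity, fun u => by
      rw [abs_of_pos (MMSa_pos k u)]; simpa using MMSa_le k u⟩
  induction n with
  | zero => intro k; exact hb k
  | succ n ih =>
    intro k
    exact ⟨hb k, _, MMSa_deriv k,
      MMS_add n _ _ (MMS_smul n _ _ (ih k)) (MMS_smul n _ _ (ih (k + 1)))⟩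

private theorem MMSa_Ks (n : ℕ) : ∀ k : ℕ, MMSK MMSs n (MMSa (k + 1)) := by
  have hb : ∀ k : ℕ, MMSb MMSs (MMSa (k + 1)) := fun k =>
    ⟨MMSa_cont _, k.factorial + (k + 1).factorial, by positivity, fun u => by
      rw [abs_of_pos (MMSa_pos _ u)]; exact MMSa_les k u⟩
  induction n with
  | zero => intro k; exact hb k
  | succ n ih =>
    intro k
    exact ⟨hb k, _, MMSa_deriv (k + 1),
      MMS_add n _ _ (MMS_smul n _ _ (ih k)) (MMS_smul n _ _ (ih (k + 1)))⟩

/-! ### `√(1+e^u)` -/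

private theorem MMS_logd (u : ℝ) :
    HasDerivAt (fun u : ℝ => Real.log (1 + Real.exp u)) (MMSs u) u := by
  have h := ((Real.hasDerivAt_exp u).const_add 1).log (by positivity)
  rw [MMSs_eq]
  exact h

/-- `(1+e^u)^{-1/2}` -/
private noncomputable def MMSr (u : ℝ) : ℝ := Real.exp (-(1 / 2) * Real.log (1 + Real.exp u))

private theorem MMSr_deriv (u : ℝ) : HasDerivAt MMSr (MMSr u * (-(1 / 2) * MMSs u)) u :=
  ((MMS_logd u).const_mul (-(1 / 2))).exp

private theorem MMSr_pos (u : ℝ) : 0 < MMSr u := Real.exp_pos _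

private theorem MMSr_le (u : ℝ) : MMSr u ≤ 1 := by
  unfold MMSr
  rw [Real.exp_le_one_iff]
  have : 0 ≤ Real.log (1 + Real.exp u) := Real.log_nonneg (by linarith [Real.exp_pos u])
  linarith

private theorem MMSr_cont : Continuous MMSr :=
  continuous_iff_continuousAt.mpr fun u => (MMSr_deriv u).continuousAt

private theorem MMSr_K (n : ℕ) : MMSK (fun _ => 1) n MMSr := by
  refine MMS_ode' _ _ MMSr_deriv ⟨MMSr_cont, 1, zero_le_one, fun u => ?_⟩ ?_ n
  · rw [abs_of_pos (MMSr_pos u)]; simpa using MMSr_le u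
  · intro n; exact MMS_smul n _ _ (MMS_to1 n _ (MMSs_K n))

/-- `e^{u/2} (1+e^u)^{-1/2}` -/
private noncomputable def MMSk (u : ℝ) : ℝ :=
  Real.exp (1 / 2 * u + -(1 / 2) * Real.log (1 + Real.exp u))

private theorem MMSk_deriv (u : ℝ) :
    HasDerivAt MMSk (MMSk u * (1 / 2 + -(1 / 2) * MMSs u)) u := by
  have h1 : HasDerivAt (fun u : ℝ => 1 / 2 * u) (1 / 2) u := by
    simpa using (hasDerivAt_id u).const_mul (1 / 2 : ℝ)
  exact (h1.add ((MMS_logd u).const_mul (-(1 / 2)))).exp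

private theorem MMSk_pos (u : ℝ) : 0 < MMSk u := Real.exp_pos _

private theorem MMSk_sq (u : ℝ) : MMSk u ^ 2 = MMSs u := by
  unfold MMSk
  rw [← Real.exp_nat_mul, MMSs_eq]
  have : ((2 : ℕ) : ℝ) * (1 / 2 * u + -(1 / 2) * Real.log (1 + Real.exp u)) =
      u - Real.log (1 + Real.exp u) := by push_cast; ring
  rw [this, Real.exp_sub, Real.exp_log (by positivity)]

private theorem MMSk_le (u : ℝ) : MMSk u ≤ 1 := by
  have h := MMSk_sq u
  have h1 := MMSs_le_one u
  have h2 := MMSk_pos u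
  nlinarith

private theorem MMSk_cont : Continuous MMSk :=
  continuous_iff_continuousAt.mpr fun u => (MMSk_deriv u).continuousAt

private theorem MMSk_K (n : ℕ) : MMSK (fun _ => 1) n MMSk := by
  refine MMS_ode' _ _ MMSk_deriv ⟨MMSk_cont, 1, zero_le_one, fun u => ?_⟩ ?_ n
  · rw [abs_of_pos (MMSk_pos u)]; simpa using MMSk_le u
  · intro n
    exact MMS_add n _ _ (MMS_one n (1 / 2)) (MMS_smul n _ _ (MMS_to1 n _ (MMSs_K n)))

/-! ### the two functions in `M` -/

/-- `(1+e^u/Rc)^{-(β-1)}` with `q = -log Rc` -/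
private noncomputable def MMSt (s q u : ℝ) : ℝ := Real.exp (-s * Real.log (1 + Real.exp (1 * u + q)))

private theorem MMSt_deriv (s q u : ℝ) :
    HasDerivAt (MMSt s q) (MMSt s q u * (-s * MMSl 1 q u)) u := by
  have h1 : HasDerivAt (fun u : ℝ => 1 * u + q) 1 u := by
    simpa using ((hasDerivAt_id u).const_mul (1 : ℝ)).add_const q
  have h2 := ((h1.exp.const_add 1).log (by positivity)).const_mul (-s)
  have h3 := h2.exp
  unfold MMSt MMSl
  convert h3 using 1
  ring

private theorem MMSt_pos (s q u : ℝ) : 0 < MMSt s q u := Real.exp_pos _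

private theorem MMSt_le (s q u : ℝ) (hs : 0 ≤ s) : MMSt s q u ≤ 1 := by
  unfold MMSt
  rw [Real.exp_le_one_iff]
  have : 0 ≤ Real.log (1 + Real.exp (1 * u + q)) :=
    Real.log_nonneg (by linarith [Real.exp_pos (1 * u + q)])
  have := mul_nonneg hs this
  linarith

private theorem MMSt_cont (s q : ℝ) : Continuous (MMSt s q) :=
  continuous_iff_continuousAt.mpr fun u => (MMSt_deriv s q u).continuousAt

private theorem MMSt_K (s q : ℝ) (hs : 0 ≤ s) (n : ℕ) : MMSK (fun _ => 1) n (MMSt s q) := by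
  refine MMS_ode' _ _ (MMSt_deriv s q) ⟨MMSt_cont s q, 1, zero_le_one, fun u => ?_⟩ ?_ n
  · rw [abs_of_pos (MMSt_pos s q u)]; simpa using MMSt_le s q u hs
  · intro n; exact MMS_smul n _ _ (MMSl_K1 1 q n)

/-- bound of the logistic function with `q ≤ 0` -/
private theorem MMSl_les (q u : ℝ) (hq : q ≤ 0) : MMSl 1 q u ≤ 1 * MMSs u := by
  rw [one_mul, MMSs_eq]
  unfold MMSl
  have h1 : Real.exp (1 * u + q) ≤ Real.exp u := Real.exp_le_exp.mpr (by linarith)
  rw [div_le_div_iff₀ (by positivity) (by positivity)]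
  nlinarith [Real.exp_pos u, Real.exp_pos (1 * u + q)]

/-- `θ = 1 - τ` -/
private noncomputable def MMSth (s q u : ℝ) : ℝ := 1 + -1 * MMSt s q u

private theorem MMSth_nonneg (s q u : ℝ) (hs : 0 ≤ s) : 0 ≤ MMSth s q u := by
  unfold MMSth; linarith [MMSt_le s q u hs]

private theorem MMSth_le (s q u : ℝ) (hs : 0 ≤ s) (hq : q ≤ 0) :
    MMSth s q u ≤ (s + 1) * MMSs u := by
  have h1 : MMSth s q u ≤ 1 := by unfold MMSth; linarith [MMSt_pos s q u]
  have h2 : MMSth s q u ≤ s * Real.exp u := by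
    unfold MMSth MMSt
    have ha := Real.add_one_le_exp (-s * Real.log (1 + Real.exp (1 * u + q)))
    have hb : Real.log (1 + Real.exp (1 * u + q)) ≤ Real.exp (1 * u + q) := by
      have := Real.log_le_sub_one_of_pos (x := 1 + Real.exp (1 * u + q)) (by positivity)
      linarith
    have hc : Real.exp (1 * u + q) ≤ Real.exp u := Real.exp_le_exp.mpr (by linarith)
    have := mul_le_mul_of_nonneg_left (hb.trans hc) hs
    linarith
  have h3 : (s + 1) * MMSs u = ((s + 1) * Real.exp u) / (1 + Real.exp u) := by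
    rw [MMSs_eq]; ring
  rw [h3, le_div_iff₀ (by positivity)]
  have h4 := Real.exp_pos u
  have h5 := mul_le_mul_of_nonneg_right h1 h4.le
  nlinarith

private theorem MMSth_K (s q : ℝ) (hs : 0 ≤ s) (hq : q ≤ 0) (n : ℕ) :
    MMSK MMSs n (MMSth s q) := by
  have hc : Continuous (MMSth s q) := by
    unfold MMSth
    exact continuous_const.add (continuous_const.mul (MMSt_cont s q))
  have hb : MMSb MMSs (MMSth s q) := ⟨hc, s + 1, by linarith, fun u => by
    rw [abs_of_nonneg (MMSth_nonneg s q u hs)]; exact MMSth_le s q u hs hq⟩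
  cases n with
  | zero => exact hb
  | succ n =>
    refine ⟨hb, fun u => -1 * (MMSt s q u * (-s * MMSl 1 q u)), fun u => ?_, ?_⟩
    · have := ((MMSt_deriv s q u).const_mul (-1)).const_add 1
      exact this
    · have h1 : MMSK MMSs n (MMSl 1 q) := MMSl_K 1 q 1 zero_le_one (fun u => MMSl_les q u hq) n
      have h2 := MMS_smul n s _ (MMS_mulb n _ _ h1 (MMSt_K s q hs n))
      have he : (fun u => -1 * (MMSt s q u * (-s * MMSl 1 q u))) =
          (fun u => s * (MMSl 1 q u * MMSt s q u)) := by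
        funext u; ring
      rw [he]; exact h2

/-- the other logistic function is `O(s)` -/
private theorem MMSsig_le (q u : ℝ) : MMSl (3 / 2) q u ≤ (2 + 2 * Real.exp q) * MMSs u := by
  have hs := MMSs_pos u
  have hq := Real.exp_pos q
  rcases le_total 0 u with hu | hu
  · have h1 := MMSs_ge1 u hu
    have h2 := (MMSl_lt (3 / 2) q u).le
    nlinarith
  · have h1 := MMSs_ge2 u hu
    have h2 : MMSl (3 / 2) q u ≤ Real.exp (3 / 2 * u + q) := by
      unfold MMSl
      exact div_le_self (Real.exp_pos _).le (by linarith [Real.exp_pos (3 / 2 * u + q)])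
    have h3 : Real.exp (3 / 2 * u + q) ≤ Real.exp q * Real.exp u := by
      rw [← Real.exp_add]
      exact Real.exp_le_exp.mpr (by linarith)
    have h4 := mul_le_mul_of_nonneg_left h1 hq.le
    nlinarith

private theorem MMSsig_K (q : ℝ) (n : ℕ) : MMSK MMSs n (MMSl (3 / 2) q) :=
  MMSl_K (3 / 2) q (2 + 2 * Real.exp q) (by positivity) (MMSsig_le q) n

/-! ### the function `P` -/

/-- `P = M/√(1+e^u)` -/
private noncomputable def MMSP (c s q q' u : ℝ) : ℝ :=
  MMSa 0 u * MMSr u + (c * MMSl (3 / 2) q' u + MMSth s q u) * MMSk u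

private theorem MMSP_deriv (c s q q' : ℝ) (hs : 0 ≤ s) (hq : q ≤ 0) :
    ∀ n, ∃ Q : ℝ → ℝ, (∀ u, HasDerivAt (MMSP c s q q') (Q u) u) ∧ MMSK MMSs n Q := by
  intro n
  have h1 : MMSK MMSs (n + 1) (fun u => (c * MMSl (3 / 2) q' u + MMSth s q u) * MMSk u) :=
    MMS_mulb (n + 1) _ _ (MMS_add (n + 1) _ _ (MMS_smul (n + 1) c _ (MMSsig_K q' (n + 1)))
      (MMSth_K s q hs hq (n + 1))) (MMSk_K (n + 1))
  obtain ⟨-, R, hR, hRk⟩ := h1
  refine ⟨fun u => ((0 : ℝ) * MMSa 1 u + -1 * MMSa 1 u) * MMSr u +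
    (MMSs u * MMSa 0 u) * ((-(1 / 2)) * MMSr u) + R u, fun u => ?_, ?_⟩
  · have h2 := ((MMSa_deriv 0 u).mul (MMSr_deriv u)).add (hR u)
    have h3 : ((0 : ℝ) * MMSa 1 u + -1 * MMSa 1 u) * MMSr u +
        (MMSs u * MMSa 0 u) * ((-(1 / 2)) * MMSr u) + R u =
        (((0 : ℕ) : ℝ) * MMSa 0 u + -1 * MMSa (0 + 1) u) * MMSr u +
          MMSa 0 u * (MMSr u * (-(1 / 2) * MMSs u)) + R u := by
      push_cast
      ring
    show HasDerivAt (fun u => MMSa 0 u * MMSr u +
      (c * MMSl (3 / 2) q' u + MMSth s q u) * MMSk u) (((0 : ℝ) * MMSa 1 u + -1 * MMSa 1 u) * MMSr u +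
        (MMSs u * MMSa 0 u) * ((-(1 / 2)) * MMSr u) + R u) u
    rw [h3]
    exact h2
  · refine MMS_add n _ _ (MMS_add n _ _ (MMS_mulb n _ _ ?_ (MMSr_K n)) (MMS_mulb n _ _ ?_ ?_)) hRk
    · exact MMS_add n _ _ (MMS_smul n _ _ (MMSa_Ks n 0)) (MMS_smul n _ _ (MMSa_Ks n 0))
    · exact MMS_mulb n _ _ (MMSs_K n) (MMSa_K1 n 0)
    · exact MMS_smul n _ _ (MMSr_K n)

private theorem MMSP_lower (c s q q' : ℝ) (hc : 0 < c) (hs : 0 ≤ s) (hq' : 0 ≤ q') :
    ∃ c0 : ℝ, 0 < c0 ∧ ∀ u, c0 ≤ MMSP c s q q' u := by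
  refine ⟨min (Real.exp (-1) * Real.exp (-(1 / 2) * Real.log 2)) (c * (1 / 2) * (1 / 2)),
    by positivity, fun u => ?_⟩
  have hth := MMSth_nonneg s q u hs
  have hk := MMSk_pos u
  have hl := MMSl_pos (3 / 2) q' u
  have hr := MMSr_pos u
  have ha := MMSa_pos 0 u
  have hcl := mul_pos hc hl
  unfold MMSP
  rcases le_total u 0 with hu | hu
  · refine (min_le_left _ _).trans ?_
    have h1 : Real.exp (-1) ≤ MMSa 0 u := by
      unfold MMSa
      refine Real.exp_le_exp.mpr ?_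
      have := Real.exp_le_one_iff.mpr hu
      push_cast
      linarith
    have h2 : Real.exp (-(1 / 2) * Real.log 2) ≤ MMSr u := by
      unfold MMSr
      refine Real.exp_le_exp.mpr ?_
      have := Real.exp_le_one_iff.mpr hu
      have : Real.log (1 + Real.exp u) ≤ Real.log 2 :=
        Real.log_le_log (by positivity) (by linarith)
      linarith
    have h3 := mul_le_mul h1 h2 (Real.exp_pos _).le ha.le
    have h4 : 0 ≤ (c * MMSl (3 / 2) q' u + MMSth s q u) * MMSk u :=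
      mul_nonneg (by linarith) hk.le
    linarith
  · refine (min_le_right _ _).trans ?_
    have h1 : 1 / 2 ≤ MMSl (3 / 2) q' u := by
      unfold MMSl
      have h0 : 1 ≤ Real.exp (3 / 2 * u + q') := Real.one_le_exp (by linarith)
      rw [div_le_div_iff₀ (by norm_num) (by positivity)]
      linarith
    have h2 : 1 / 2 ≤ MMSk u := by
      have h3 := MMSk_sq u
      have h4 := MMSs_ge1 u hu
      have h5 := MMSk_le u
      nlinarith
    have h3 : c * (1 / 2) ≤ c * MMSl (3 / 2) q' u + MMSth s q u := by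
      have := mul_le_mul_of_nonneg_left h1 hc.le
      linarith
    have h4 := mul_le_mul h3 h2 (by norm_num) (by linarith)
    have h5 := mul_pos ha hr
    linarith

/-- `log M` -/
private theorem MMS_logM (c s q q' : ℝ) (hc : 0 < c) (hs : 0 ≤ s) (hq : q ≤ 0) (hq' : 0 ≤ q') :
    ∀ n, ∃ H : ℝ → ℝ, (∀ u, HasDerivAt
      (fun u => 1 / 2 * Real.log (1 + Real.exp u) + Real.log (MMSP c s q q' u)) (H u) u) ∧
      MMSK MMSs n H := by
  intro n
  obtain ⟨c0, hc0, hP⟩ := MMSP_lower c s q q' hc hs hq'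
  have hPp : ∀ u, 0 < MMSP c s q q' u := fun u => hc0.trans_le (hP u)
  obtain ⟨Q, hQ, hQk⟩ := MMSP_deriv c s q q' hs hq n
  -- inverse
  have hinvd : ∀ u, HasDerivAt (fun u => (MMSP c s q q' u)⁻¹)
      ((MMSP c s q q' u)⁻¹ * (-1 * (Q u * (MMSP c s q q' u)⁻¹))) u := by
    intro u
    have h := (hQ u).inv (hPp u).ne'
    have h0 := (hPp u).ne'
    have h1 : (MMSP c s q q' u)⁻¹ * (-1 * (Q u * (MMSP c s q q' u)⁻¹)) =
        -Q u / MMSP c s q q' u ^ 2 := by
      field_simp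
    rw [h1]
    exact h
  have hinvc : Continuous (fun u => (MMSP c s q q' u)⁻¹) :=
    continuous_iff_continuousAt.mpr fun u => (hinvd u).continuousAt
  have hinvb : MMSb (fun _ => 1) (fun u => (MMSP c s q q' u)⁻¹) := by
    refine ⟨hinvc, c0⁻¹, by positivity, fun u => ?_⟩
    rw [abs_of_pos (inv_pos.mpr (hPp u)), mul_one]
    exact inv_anti₀ hc0 (hP u)
  have hinvK : ∀ m, m ≤ n → MMSK (fun _ => 1) m (fun u => (MMSP c s q q' u)⁻¹) := by
    intro m
    induction m with
    | zero => intro _; exact hinvb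
    | succ m ih =>
      intro hm
      have hQm : ∀ j k : ℕ, MMSK MMSs (j + k) Q → MMSK MMSs j Q := by
        intro j k
        induction k with
        | zero => intro h; exact h
        | succ k ihk => intro h; exact ihk (MMS_down (j + k) Q h)
      have hq1 : MMSK MMSs m Q := by
        obtain ⟨k, rfl⟩ := Nat.exists_eq_add_of_le (show m ≤ n by omega)
        exact hQm m k hQk
      refine MMS_ode _ _ hinvd hinvb m ?_
      exact MMS_smul m _ _ (MMS_to1 m _ (MMS_mulb m _ _ hq1 (ih (by omega))))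
  refine ⟨fun u => 1 / 2 * MMSs u + Q u * (MMSP c s q q' u)⁻¹, fun u => ?_, ?_⟩
  · have h1 := (MMS_logd u).const_mul (1 / 2)
    have h2 := (hQ u).log (hPp u).ne'
    have h3 := h1.add h2
    rw [div_eq_mul_inv] at h3
    exact h3
  · exact MMS_add n _ _ (MMS_smul n _ _ (MMSs_K n)) (MMS_mulb n _ _ hQk (hinvK n le_rfl))

/-- `M(e^u)` in terms of `P` -/
private theorem MMS_MM (N : ℕ) (β A Rc u : ℝ) (hA : 0 < A) (hRc : 0 < Rc) :
    MM N β (1 / A) Rc (Real.exp u) = Real.exp (1 / 2 * Real.log (1 + Real.exp u)) *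
      MMSP ((1 / (32 * N)) / Real.sqrt (1 / A)) (β - 1) (-Real.log Rc) (3 / 2 * Real.log A) u := by
  have hE := Real.exp_pos u
  have h1 : Real.sqrt (Real.exp u) = Real.exp (1 / 2 * u) := by
    rw [Real.sqrt_eq_rpow, ← Real.exp_mul]; congr 1; ring
  have h2 : (Real.exp u / (1 / A)) ^ (3 / 2 : ℝ) = Real.exp (3 / 2 * u + 3 / 2 * Real.log A) := by
    have : Real.exp u / (1 / A) = Real.exp (u + Real.log A) := by
      rw [Real.exp_add, Real.exp_log hA]; field_simp
    rw [this, ← Real.exp_mul]; congr 1; ring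
  have h3 : Real.exp u / Rc = Real.exp (1 * u + -Real.log Rc) := by
    rw [one_mul, Real.exp_add, Real.exp_neg, Real.exp_log hRc]; rfl
  have h4 : (1 + Real.exp u / Rc) ^ (-(β - 1)) = MMSt (β - 1) (-Real.log Rc) u := by
    unfold MMSt
    rw [h3, Real.rpow_def_of_pos (by positivity)]
    congr 1; ring
  have h5 : Real.exp (1 / 2 * Real.log (1 + Real.exp u)) * MMSr u = 1 := by
    unfold MMSr
    rw [← Real.exp_add]
    have : 1 / 2 * Real.log (1 + Real.exp u) + -(1 / 2) * Real.log (1 + Real.exp u) = 0 := by ring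
    rw [this, Real.exp_zero]
  have h6 : Real.exp (1 / 2 * Real.log (1 + Real.exp u)) * MMSk u = Real.exp (1 / 2 * u) := by
    unfold MMSk
    rw [← Real.exp_add]
    congr 1; ring
  have h7 : MMSa 0 u = Real.exp (-Real.exp u) := by
    unfold MMSa; simp
  unfold MM tt th MMSP MMSth
  rw [h1, h2, h4, ← h7]
  have h8 : MMSl (3 / 2) (3 / 2 * Real.log A) u = Real.exp (3 / 2 * u + 3 / 2 * Real.log A) /
      (1 + Real.exp (3 / 2 * u + 3 / 2 * Real.log A)) := rfl
  rw [← h8, ← h6]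
  generalize Real.exp (1 / 2 * Real.log (1 + Real.exp u)) = e at *
  calc MMSa 0 u + e * MMSk u * ((1 / (32 * N)) / Real.sqrt (1 / A) *
        MMSl (3 / 2) (3 / 2 * Real.log A) u + (1 - MMSt (β - 1) (-Real.log Rc) u))
      = MMSa 0 u * 1 + e * MMSk u * ((1 / (32 * N)) / Real.sqrt (1 / A) *
        MMSl (3 / 2) (3 / 2 * Real.log A) u + (1 - MMSt (β - 1) (-Real.log Rc) u)) := by ring
    _ = MMSa 0 u * (e * MMSr u) + e * MMSk u * ((1 / (32 * N)) / Real.sqrt (1 / A) *
        MMSl (3 / 2) (3 / 2 * Real.log A) u + (1 - MMSt (β - 1) (-Real.log Rc) u)) := by rw [h5]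
    _ = _ := by ring

/-- `G(u) = log mm(e^u)` is smooth, its derivatives are bounded, and are `O(e^u)` for `u ≤ 0` -/
theorem MM_small (N : ℕ) (β : ℝ) (hN : 3 ≤ N) (hβ : 1 < β) :
    ∃ A0 : ℝ, 6 ≤ A0 ∧ ∀ A Rc : ℝ, A0 ≤ A → 1 ≤ Rc →
      ContDiff ℝ 3 (fun u => Real.log (mm N β (1 / A) Rc (Real.exp u))) ∧
      ∃ CM : ℝ, 0 < CM ∧
        (∀ u, |deriv (fun u => Real.log (mm N β (1 / A) Rc (Real.exp u))) u| ≤ CM ∧
          |iteratedDeriv 2 (fun u => Real.log (mm N β (1 / A) Rc (Real.exp u))) u| ≤ CM ∧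
          |iteratedDeriv 3 (fun u => Real.log (mm N β (1 / A) Rc (Real.exp u))) u| ≤ CM) ∧
        (∀ u, u ≤ 0 → |deriv (fun u => Real.log (mm N β (1 / A) Rc (Real.exp u))) u| ≤
            CM * Real.exp u ∧
          |iteratedDeriv 2 (fun u => Real.log (mm N β (1 / A) Rc (Real.exp u))) u| ≤
            CM * Real.exp u) := by
  refine ⟨6, le_rfl, fun A Rc hA hRc => ?_⟩
  have hA0 : 0 < A := by linarith
  have hRc0 : 0 < Rc := by linarith
  have hN0 : (0 : ℝ) < N := by
    have : 0 < N := by omega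
    exact_mod_cast this
  have hc : 0 < (1 / (32 * (N : ℝ))) / Real.sqrt (1 / A) := by positivity
  have hs : 0 ≤ β - 1 := by linarith
  have hq : -Real.log Rc ≤ 0 := by
    have := Real.log_nonneg hRc
    linarith
  have hq' : 0 ≤ 3 / 2 * Real.log A := by
    have := Real.log_nonneg (show (1 : ℝ) ≤ A by linarith)
    linarith
  obtain ⟨c0, hc0, hP⟩ := MMSP_lower _ (β - 1) (-Real.log Rc) _ hc hs hq'
  obtain ⟨H, hH, hHk⟩ := MMS_logM _ (β - 1) _ _ hc hs hq hq' 2
  have hG : (fun u => Real.log (mm N β (1 / A) Rc (Real.exp u))) = fun u =>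
      -4 * (1 / 2 * Real.log (1 + Real.exp u) + Real.log (MMSP
        ((1 / (32 * N)) / Real.sqrt (1 / A)) (β - 1) (-Real.log Rc) (3 / 2 * Real.log A) u)) := by
    funext u
    unfold mm
    rw [Real.log_zpow, MMS_MM N β A Rc u hA0 hRc0,
      Real.log_mul (Real.exp_pos _).ne' (hc0.trans_le (hP u)).ne', Real.log_exp]
    push_cast
    ring
  rw [hG]
  set G : ℝ → ℝ := fun u =>
      -4 * (1 / 2 * Real.log (1 + Real.exp u) + Real.log (MMSP
        ((1 / (32 * N)) / Real.sqrt (1 / A)) (β - 1) (-Real.log Rc) (3 / 2 * Real.log A) u)) with hGd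
  have hGder : ∀ u, HasDerivAt G (-4 * H u) u := fun u => (hH u).const_mul (-4)
  have hK := MMS_smul 2 (-4) H hHk
  have hd1 : deriv G = fun u => -4 * H u := funext fun u => (hGder u).deriv
  have hCD : ContDiff ℝ 3 G := by
    have h3 : (3 : WithTop ℕ∞) = ((2 : ℕ) : WithTop ℕ∞) + 1 := by norm_num
    rw [h3, contDiff_succ_iff_deriv]
    refine ⟨fun u => (hGder u).differentiableAt, by simp, ?_⟩
    rw [hd1]
    exact MMS_contDiff 2 _ hK
  refine ⟨hCD, ?_⟩
  obtain ⟨⟨-, C1, hC1, hb1⟩, F2, hF2, ⟨⟨-, C2, hC2, hb2⟩, F3, hF3, ⟨-, C3, hC3, hb3⟩⟩⟩ := hK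
  have hd2 : iteratedDeriv 2 G = F2 := by
    rw [iteratedDeriv_succ, iteratedDeriv_one, hd1]
    exact funext fun u => (hF2 u).deriv
  have hd3 : iteratedDeriv 3 G = F3 := by
    rw [iteratedDeriv_succ, hd2]
    exact funext fun u => (hF3 u).deriv
  rw [hd1, hd2, hd3]
  have key : ∀ C : ℝ, 0 ≤ C → C ≤ C1 + C2 + C3 + 1 → ∀ u, C * MMSs u ≤ C1 + C2 + C3 + 1 ∧
      C * MMSs u ≤ (C1 + C2 + C3 + 1) * Real.exp u := by
    intro C hC hle u
    have h1 := MMSs_le_one u
    have h2 := MMSs_le_exp u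
    have h3 := MMSs_pos u
    constructor
    · nlinarith
    · exact mul_le_mul hle h2 h3.le (by linarith)
  refine ⟨C1 + C2 + C3 + 1, by linarith, fun u => ⟨?_, ?_, ?_⟩, fun u _ => ⟨?_, ?_⟩⟩
  · exact (hb1 u).trans (key C1 hC1 (by linarith) u).1
  · exact (hb2 u).trans (key C2 hC2 (by linarith) u).1
  · exact (hb3 u).trans (key C3 hC3 (by linarith) u).1
  · exact (hb1 u).trans (key C1 hC1 (by linarith) u).2
  · exact (hb2 u).trans (key C2 hC2 (by linarith) u).2

end Dyn
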