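import Pool.Agent.Lib_MP_36b788.Defs

/-!
# QPOT: generator inequality for `Λ = 2 log r + log mm = -4 log Q` (checked numerically)

`u = log r`, `r1 = 1/A`, `Q = P₀ + c₁ τ + θ`, `P₀ = e^{-r}/√r`, `c₁ = b√A`, `b = 1/(32N)`,
`τ = tt(r/r1)`, `θ = th s (r/Rc)`, `s = β-1`. For functions of `u`: `L f = ½f'' + (½(N-2) - r^β) f'`.

PROOF. `L Λ = -4 LQ/Q + 2 Q'²/Q² ≥ -4 LQ/Q` (primes are `u`-derivatives). So bound `-LQ` below.
* `P₀' = -(½+r)P₀`, `P₀'' = (r²+¼)P₀`:
  `L P₀ = P₀[½(r²+¼) - (½(N-2) - r^β)(½+r)] ≤ P₀[-1/8 + ½r² + r^β(½+r)]` (`N ≥ 3`).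
* `τ' = (3/2)τ(1-τ)`, `τ'' = (9/4)τ(1-τ)(1-2τ)`: `L τ ≤ N τ(1-τ) - (3/2) r^β τ(1-τ)`, and
  `τ(1-τ) = ρ^{3/2}/(1+ρ^{3/2})² ≤ ρ^{-1/2}`, `ρ = r/r1` (`ρ² ≤ (1+ρ^{3/2})²`), so `c₁ Lτ ≤ bN r^{-1/2} = r^{-1/2}/32`.
* `θ' = s(r/Rc)(1+r/Rc)^{-s-1} ≥ 0`, `θ'' ≤ θ'`: `Lθ ≤ θ'(½(N-1) - r^β)`; this is `≤ s N r/(2Rc)` if
  `r^β ≤ N`, and `≤ 0` otherwise (`r^β ≥ ½(N-1)`).
(1) `r ≤ r*` (`r*` small, depending on `N, β`; `Rc ≥ 1`): `-LQ ≥ r^{-1/2}[(15/16)(1/8 - 1/32) - 1/32 - 1/64] ≥ r^{-1/2}/32`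
   where `e^{-r} ≥ 15/16`, `½r²+r^β(½+r) ≤ 1/32`, `sN r^{3/2}/2 ≤ 1/64`.
   `r ≤ 6r1`: `Q ≤ r^{-1/2}(1+√6 b) + 1 ≤ 3 r^{-1/2}` so `LΛ ≥ 4/96 = 1/24`.
   `6r1 ≤ r ≤ r2 ≤ r*`: `Q ≤ √A(1/√6 + b) + 1 ≤ 2√A`, so `LΛ ≥ r2^{-1/2}/(16√A)`; `cv = r2^{-1/2}/16`.
(2) `r ≥ r*`: `-LQ ≥ -C_P`, `C_P` depending on `N, β` only (`P₀(½r²+r^β(½+r))` is bounded,
   `r^{-1/2}/32`, `sN^{1+1/β}/2`); `Q ≥ c₁/2 = b√A/2` (`r ≥ r1`). So `LΛ ≥ -8C_P/(b√A)`; `Cv = 8C_P/b + 1`.
   (on `r2 ≤ r ≤ r*` (1) gives `LΛ ≥ 0`). Choose `r2` so small that `cv ≥ D0 Cv`.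
(3) `r ≥ Rc`, `Rc^β ≥ N`: `-Lθ ≥ θ' r^β/2`, `θ' ≥ (s/2)(2r/Rc)^{-s}`, so
   `-Lθ ≥ (s2^{-s}/4) Rc^s r^{β-s} ≥ (s2^{-s}/4)Rc^β`. Hence `-LQ ≥ X := (s2^{-s}/4)Rc^β - C_P - 1`, choose `Rc` with
   `X ≥ cv`; `Q ≤ P₀+c₁+1 ≤ 4√A`... so `LΛ ≥ 4X/(4√A) ≥ cv/√A`.
* smoothness: `Q(e^u) = exp(-e^u-u/2) + c₁ e^{(3/2)(u-log r1)}/(1+…) + 1-(1+e^u/Rc)^{-s}` is smooth and positive;
  `Q', Q'', Q'''` are `O(Q)`: for `u ≤ 0` each term is comparable to `P₀`, for `u ≥ 0` `Q ≥ c₁/2` and all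
  derivatives are bounded (`e^{-r}` beats powers). So `Λ', Λ'', Λ'''` are bounded.
-/

open MeasureTheory

namespace Dyn

noncomputable section

/-- `Λ` as a function of `u = log r` -/
def LamU (N : ℕ) (β A Rc u : ℝ) : ℝ := 2 * u - 4 * Real.log (MM N β (1 / A) Rc (Real.exp u))

/-- the lower bound for the drift of `Λ` -/
def Low (A r2 Rc cv Cv r : ℝ) : ℝ :=
  if r ≤ 6 / A then 1 / 24 else if r ≤ r2 then cv / Real.sqrt A
  else if r < Rc then -(Cv / Real.sqrt A) else cv / Real.sqrt A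

end

/-! ### Building blocks, as functions of `u = log r` -/

namespace QPot

/-- `e^{-r}/√r` -/
noncomputable def P (u : ℝ) : ℝ := Real.exp (-Real.exp u - u / 2)

/-- `√(A r)` -/
noncomputable def K (A u : ℝ) : ℝ := Real.exp ((u + Real.log A) / 2)

/-- `tt (A r)` -/
noncomputable def T (A u : ℝ) : ℝ := K A u ^ 3 / (1 + K A u ^ 3)

/-- `y / (1 + y)`, `y = r / Rc` -/
noncomputable def W (Rc u : ℝ) : ℝ := (Real.exp u / Rc) / (1 + Real.exp u / Rc)

/-- `(1 + r / Rc)^(-s)` -/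
noncomputable def Y (s Rc u : ℝ) : ℝ := (1 + Real.exp u / Rc) ^ (-s)

theorem P_pos (u : ℝ) : 0 < P u := Real.exp_pos _

theorem K_pos (A u : ℝ) : 0 < K A u := Real.exp_pos _

theorem T_pos (A u : ℝ) : 0 < T A u := by
  have := K_pos A u
  unfold T
  positivity

theorem T_lt (A u : ℝ) : T A u < 1 := by
  have := K_pos A u
  unfold T
  rw [div_lt_one (by positivity)]
  linarith

theorem W_pos {Rc : ℝ} (hR : 0 < Rc) (u : ℝ) : 0 < W Rc u := by
  have := Real.exp_pos u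
  unfold W
  positivity

theorem W_lt {Rc : ℝ} (hR : 0 < Rc) (u : ℝ) : W Rc u < 1 := by
  have := Real.exp_pos u
  have h1 : 0 < Real.exp u / Rc := by positivity
  unfold W
  rw [div_lt_one (by positivity)]
  linarith

theorem one_lt_y {Rc : ℝ} (hR : 0 < Rc) (u : ℝ) : 1 < 1 + Real.exp u / Rc := by
  have := Real.exp_pos u
  have h1 : 0 < Real.exp u / Rc := by positivity
  linarith

theorem Y_pos {Rc : ℝ} (hR : 0 < Rc) (s u : ℝ) : 0 < Y s Rc u :=
  Real.rpow_pos_of_pos (by linarith [one_lt_y hR u]) _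

theorem Y_lt {Rc : ℝ} (hR : 0 < Rc) {s : ℝ} (hs : 0 < s) (u : ℝ) : Y s Rc u < 1 :=
  Real.rpow_lt_one_of_one_lt_of_neg (one_lt_y hR u) (by linarith)

theorem hP (u : ℝ) : HasDerivAt P (-(1 / 2 + Real.exp u) * P u) u := by
  have h1 : HasDerivAt (fun u : ℝ => -Real.exp u - u / 2) (-Real.exp u - 1 / 2) u :=
    (Real.hasDerivAt_exp u).neg.sub ((hasDerivAt_id u).div_const 2)
  refine h1.exp.congr_deriv ?_
  unfold P
  ring

theorem hK (A u : ℝ) : HasDerivAt (K A) (1 / 2 * K A u) u := by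
  have h1 : HasDerivAt (fun u : ℝ => (u + Real.log A) / 2) (1 / 2) u :=
    ((hasDerivAt_id u).add_const _).div_const 2
  refine h1.exp.congr_deriv ?_
  unfold K
  ring

theorem hT (A u : ℝ) : HasDerivAt (T A) (3 / 2 * T A u * (1 - T A u)) u := by
  have h0 := K_pos A u
  have h1 : HasDerivAt (fun u => K A u ^ 3) (3 / 2 * K A u ^ 3) u := by
    refine ((hK A u).pow 3).congr_deriv ?_
    ring
  have h2 : (1 + K A u ^ 3) ≠ 0 := by positivity
  refine (h1.div (h1.const_add 1) h2).congr_deriv ?_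
  unfold T
  field_simp

theorem hE (Rc u : ℝ) : HasDerivAt (fun u => Real.exp u / Rc) (Real.exp u / Rc) u :=
  (Real.hasDerivAt_exp u).div_const Rc

theorem hW {Rc : ℝ} (hR : 0 < Rc) (u : ℝ) : HasDerivAt (W Rc) (W Rc u * (1 - W Rc u)) u := by
  have h0 := one_lt_y hR u
  have h2 : (1 + Real.exp u / Rc) ≠ 0 := by positivity
  refine ((hE Rc u).div ((hE Rc u).const_add 1) h2).congr_deriv ?_
  unfold W
  field_simp

theorem hY {Rc : ℝ} (hR : 0 < Rc) (s u : ℝ) :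
    HasDerivAt (Y s Rc) (-(s * W Rc u * Y s Rc u)) u := by
  have h0 := one_lt_y hR u
  have h2 : (1 + Real.exp u / Rc) ≠ 0 := by positivity
  refine (((hE Rc u).const_add 1).rpow_const (p := -s) (Or.inl h2)).congr_deriv ?_
  unfold W Y
  rw [Real.rpow_sub_one h2]
  field_simp

/-- the function `Q` -/
noncomputable def Q (A s Rc c u : ℝ) : ℝ := P u + c * T A u + (1 - Y s Rc u)

noncomputable def Q1 (A s Rc c u : ℝ) : ℝ :=
  -(1 / 2 + Real.exp u) * P u + c * (3 / 2 * T A u * (1 - T A u)) + s * W Rc u * Y s Rc u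

noncomputable def Q2 (A s Rc c u : ℝ) : ℝ :=
  (Real.exp u ^ 2 + 1 / 4) * P u + c * (9 / 4 * T A u * (1 - T A u) * (1 - 2 * T A u)) +
    s * W Rc u * Y s Rc u * (1 - (s + 1) * W Rc u)

noncomputable def Q3 (A s Rc c u : ℝ) : ℝ :=
  (2 * Real.exp u ^ 2 - (Real.exp u ^ 2 + 1 / 4) * (1 / 2 + Real.exp u)) * P u +
    c * (27 / 8 * T A u * (1 - T A u) * (1 - 6 * T A u + 6 * T A u ^ 2)) +
    s * W Rc u * Y s Rc u * ((1 - (s + 1) * W Rc u) ^ 2 - (s + 1) * W Rc u * (1 - W Rc u))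

theorem hQ {Rc : ℝ} (hR : 0 < Rc) (A s c u : ℝ) :
    HasDerivAt (Q A s Rc c) (Q1 A s Rc c u) u := by
  have h := ((hP u).add ((hT A u).const_mul c)).add ((hY hR s u).const_sub 1)
  refine h.congr_deriv ?_
  unfold Q1
  ring

theorem hQ1 {Rc : ℝ} (hR : 0 < Rc) (A s c u : ℝ) :
    HasDerivAt (Q1 A s Rc c) (Q2 A s Rc c u) u := by
  have e1 : HasDerivAt (fun u => -(1 / 2 + Real.exp u)) (-Real.exp u) u :=
    ((Real.hasDerivAt_exp u).const_add (1 / 2)).neg
  have h := ((e1.mul (hP u)).add ((((hT A u).const_mul (3 / 2)).mul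
    ((hT A u).const_sub 1)).const_mul c)).add (((hW hR u).const_mul s).mul (hY hR s u))
  refine h.congr_deriv ?_
  unfold Q2
  ring

theorem hQ2 {Rc : ℝ} (hR : 0 < Rc) (A s c u : ℝ) :
    HasDerivAt (Q2 A s Rc c) (Q3 A s Rc c u) u := by
  have e1 : HasDerivAt (fun u => Real.exp u ^ 2 + 1 / 4) (2 * Real.exp u ^ 2) u := by
    refine (((Real.hasDerivAt_exp u).pow 2).add_const (1 / 4)).congr_deriv ?_
    ring
  have h := ((e1.mul (hP u)).add (((((hT A u).const_mul (9 / 4)).mul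
    ((hT A u).const_sub 1)).mul (((hT A u).const_mul 2).const_sub 1)).const_mul c)).add
    ((((hW hR u).const_mul s).mul (hY hR s u)).mul (((hW hR u).const_mul (s + 1)).const_sub 1))
  refine h.congr_deriv ?_
  simp only [Pi.mul_apply]
  unfold Q3
  ring

theorem Q_gt_P {Rc : ℝ} (hR : 0 < Rc) {s c : ℝ} (hs : 0 < s) (hc : 0 < c) (A u : ℝ) :
    P u < Q A s Rc c u := by
  have h1 := mul_pos hc (T_pos A u)
  have h2 := Y_lt hR hs u
  unfold Q
  linarith

theorem Q_pos {Rc : ℝ} (hR : 0 < Rc) {s c : ℝ} (hs : 0 < s) (hc : 0 < c) (A u : ℝ) :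
    0 < Q A s Rc c u := (P_pos u).trans (Q_gt_P hR hs hc A u)

theorem Q_le {Rc : ℝ} (hR : 0 < Rc) {s c : ℝ} (hc : 0 < c) (A u : ℝ) :
    Q A s Rc c u ≤ P u + c + 1 := by
  have h1 := mul_le_of_le_one_right hc.le (T_lt A u).le
  have h2 := Y_pos hR s u
  unfold Q
  linarith

theorem K_eq {A : ℝ} (hA : 0 < A) (u : ℝ) : K A u ^ 2 = A * Real.exp u := by
  unfold K
  rw [← Real.exp_nat_mul, show ((2 : ℕ) : ℝ) * ((u + Real.log A) / 2) = Real.log A + u by
    push_cast; ring, Real.exp_add, Real.exp_log hA]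

theorem K_eq2 {A : ℝ} (hA : 0 < A) (u : ℝ) : K A u * Real.exp (-u / 2) = Real.sqrt A := by
  unfold K
  rw [← Real.exp_add, show (u + Real.log A) / 2 + -u / 2 = Real.log A / 2 by ring,
    Real.exp_half, Real.exp_log hA]

theorem P_eq (u : ℝ) : P u = Real.exp (-Real.exp u) * Real.exp (-u / 2) := by
  unfold P
  rw [← Real.exp_add]
  congr 1
  ring

theorem sig_sq (u : ℝ) : Real.exp (-u / 2) ^ 2 * Real.exp u = 1 := by
  rw [← Real.exp_nat_mul, ← Real.exp_add, show ((2 : ℕ) : ℝ) * (-u / 2) + u = 0 by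
    push_cast; ring, Real.exp_zero]

/-- `Q ≥ c / 2` for `A r ≥ 1` -/
theorem Q_ge {Rc : ℝ} (hR : 0 < Rc) {s c : ℝ} (hs : 0 < s) (hc : 0 < c) {A : ℝ} (hA : 0 < A) {u : ℝ}
    (hu : 1 ≤ A * Real.exp u) : c / 2 ≤ Q A s Rc c u := by
  have h1 : 1 ≤ K A u := by
    have h2 := K_pos A u
    by_contra h
    push Not at h
    have h3 := K_eq hA u
    nlinarith
  have h2 : 1 / 2 ≤ T A u := by
    have h3 : 1 ≤ K A u ^ 3 := one_le_pow₀ h1
    unfold T
    rw [div_le_div_iff₀ (by norm_num) (by positivity)]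
    linarith
  have h3 := P_pos u
  have h4 := Y_lt hR hs u
  have h5 := mul_le_mul_of_nonneg_left h2 hc.le
  unfold Q
  linarith

/-! ### the identity for `LamU` -/

theorem MM_eq (N : ℕ) (β : ℝ) {A Rc : ℝ} (hA : 0 < A) (u : ℝ) :
    MM N β (1 / A) Rc (Real.exp u) =
      Real.exp (u / 2) * Q A (β - 1) Rc (1 / (32 * N) * Real.sqrt A) u := by
  have h1 : Real.sqrt (Real.exp u) = Real.exp (u / 2) := (Real.exp_half u).symm
  have h2 : (1 / (32 * (N : ℝ))) / Real.sqrt (1 / A) = 1 / (32 * N) * Real.sqrt A := by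
    rw [one_div A, Real.sqrt_inv, div_inv_eq_mul]
  have h3 : tt (Real.exp u / (1 / A)) = T A u := by
    have e1 : (Real.exp u / (1 / A)) ^ (3 / 2 : ℝ) = K A u ^ 3 := by
      rw [Real.rpow_def_of_pos (by positivity), show Real.exp u / (1 / A) = Real.exp u * A by
        field_simp, Real.log_mul (Real.exp_pos u).ne' hA.ne', Real.log_exp]
      unfold K
      rw [← Real.exp_nat_mul]
      congr 1
      push_cast
      ring
    unfold tt T
    rw [e1]
  have h4 : Real.exp (u / 2) * P u = Real.exp (-Real.exp u) := by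
    unfold P
    rw [← Real.exp_add]
    congr 1
    ring
  unfold MM th
  rw [h1, h2, h3, ← h4]
  unfold Q Y
  ring

theorem Lam_eq (N : ℕ) (hN : 1 ≤ N) {β A Rc : ℝ} (hβ : 1 < β) (hA : 0 < A) (hR : 0 < Rc) :
    LamU N β A Rc = fun u => -4 * Real.log (Q A (β - 1) Rc (1 / (32 * N) * Real.sqrt A) u) := by
  funext u
  have hN' : (0 : ℝ) < N := by exact_mod_cast hN
  have hc : 0 < 1 / (32 * (N : ℝ)) * Real.sqrt A := by
    have := Real.sqrt_pos.2 hA
    positivity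
  have hQ0 := Q_pos hR (s := β - 1) (by linarith) hc A u
  unfold LamU
  rw [MM_eq N β hA, Real.log_mul (Real.exp_pos _).ne' hQ0.ne', Real.log_exp]
  ring

/-! ### derivatives of `Λ` -/

noncomputable def L1 (A s Rc c u : ℝ) : ℝ := -4 * (Q1 A s Rc c u / Q A s Rc c u)

noncomputable def L2 (A s Rc c u : ℝ) : ℝ :=
  -4 * (Q2 A s Rc c u / Q A s Rc c u - (Q1 A s Rc c u / Q A s Rc c u) ^ 2)

noncomputable def L3 (A s Rc c u : ℝ) : ℝ :=
  -4 * (Q3 A s Rc c u / Q A s Rc c u -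
    3 * (Q1 A s Rc c u / Q A s Rc c u) * (Q2 A s Rc c u / Q A s Rc c u) +
    2 * (Q1 A s Rc c u / Q A s Rc c u) ^ 3)

theorem hL {Rc : ℝ} (hR : 0 < Rc) {s c : ℝ} (hs : 0 < s) (hc : 0 < c) (A u : ℝ) :
    HasDerivAt (fun u => -4 * Real.log (Q A s Rc c u)) (L1 A s Rc c u) u := by
  have h0 := Q_pos hR hs hc A u
  exact ((hQ hR A s c u).log h0.ne').const_mul (-4)

theorem hq1 {Rc : ℝ} (hR : 0 < Rc) {s c : ℝ} (hs : 0 < s) (hc : 0 < c) (A u : ℝ) :
    HasDerivAt (fun u => Q1 A s Rc c u / Q A s Rc c u)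
      (Q2 A s Rc c u / Q A s Rc c u - (Q1 A s Rc c u / Q A s Rc c u) ^ 2) u := by
  have h0 := Q_pos hR hs hc A u
  refine ((hQ1 hR A s c u).div (hQ hR A s c u) h0.ne').congr_deriv ?_
  field_simp

theorem hq2 {Rc : ℝ} (hR : 0 < Rc) {s c : ℝ} (hs : 0 < s) (hc : 0 < c) (A u : ℝ) :
    HasDerivAt (fun u => Q2 A s Rc c u / Q A s Rc c u)
      (Q3 A s Rc c u / Q A s Rc c u -
        (Q1 A s Rc c u / Q A s Rc c u) * (Q2 A s Rc c u / Q A s Rc c u)) u := by
  have h0 := Q_pos hR hs hc A u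
  refine ((hQ2 hR A s c u).div (hQ hR A s c u) h0.ne').congr_deriv ?_
  field_simp

theorem hL1 {Rc : ℝ} (hR : 0 < Rc) {s c : ℝ} (hs : 0 < s) (hc : 0 < c) (A u : ℝ) :
    HasDerivAt (L1 A s Rc c) (L2 A s Rc c u) u :=
  (hq1 hR hs hc A u).const_mul (-4)

theorem hL2 {Rc : ℝ} (hR : 0 < Rc) {s c : ℝ} (hs : 0 < s) (hc : 0 < c) (A u : ℝ) :
    HasDerivAt (L2 A s Rc c) (L3 A s Rc c u) u := by
  refine (((hq2 hR hs hc A u).sub ((hq1 hR hs hc A u).pow 2)).const_mul (-4)).congr_deriv ?_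
  unfold L3
  ring

theorem Q_contDiff {Rc : ℝ} (hR : 0 < Rc) (A s c : ℝ) : ContDiff ℝ 3 (Q A s Rc c) := by
  have h1 : ContDiff ℝ 3 P := by
    unfold P
    fun_prop
  have h2 : ContDiff ℝ 3 (fun u => K A u ^ 3) := by
    unfold K
    fun_prop
  have h3 : ContDiff ℝ 3 (T A) := by
    refine h2.div (contDiff_const.add h2) fun u => ?_
    have := K_pos A u
    positivity
  have h4 : ContDiff ℝ 3 (fun u : ℝ => 1 + Real.exp u / Rc) := by fun_prop
  have h5 : ContDiff ℝ 3 (Y s Rc) := by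
    refine h4.rpow_const_of_ne fun u => ?_
    have := one_lt_y hR u
    positivity
  exact (h1.add (contDiff_const.mul h3)).add (contDiff_const.sub h5)

theorem L_contDiff {Rc : ℝ} (hR : 0 < Rc) {s c : ℝ} (hs : 0 < s) (hc : 0 < c) (A : ℝ) :
    ContDiff ℝ 3 (fun u => -4 * Real.log (Q A s Rc c u)) :=
  contDiff_const.mul ((Q_contDiff hR A s c).log fun u => (Q_pos hR hs hc A u).ne')

theorem derivs {Rc : ℝ} (hR : 0 < Rc) {s c : ℝ} (hs : 0 < s) (hc : 0 < c) (A : ℝ) :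
    deriv (fun u => -4 * Real.log (Q A s Rc c u)) = L1 A s Rc c ∧
    iteratedDeriv 2 (fun u => -4 * Real.log (Q A s Rc c u)) = L2 A s Rc c ∧
    iteratedDeriv 3 (fun u => -4 * Real.log (Q A s Rc c u)) = L3 A s Rc c := by
  have h1 : deriv (fun u => -4 * Real.log (Q A s Rc c u)) = L1 A s Rc c := by
    funext u
    exact (hL hR hs hc A u).deriv
  have h2 : deriv (L1 A s Rc c) = L2 A s Rc c := by
    funext u
    exact (hL1 hR hs hc A u).deriv
  have h3 : deriv (L2 A s Rc c) = L3 A s Rc c := by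
    funext u
    exact (hL2 hR hs hc A u).deriv
  have h4 : iteratedDeriv 2 (fun u => -4 * Real.log (Q A s Rc c u)) = L2 A s Rc c := by
    rw [iteratedDeriv_succ, iteratedDeriv_one, h1, h2]
  refine ⟨h1, h4, ?_⟩
  rw [iteratedDeriv_succ, h4, h3]

/-! ### boundedness -/

theorem exp_cube {r : ℝ} (hr : 0 ≤ r) : (1 + r) ^ 3 * Real.exp (-r) ≤ 18 := by
  have h1 := Real.pow_div_factorial_le_exp (1 + r) (by linarith) 3
  have h2 : ((Nat.factorial 3 : ℕ) : ℝ) = 6 := by norm_num [Nat.factorial]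
  rw [h2, Real.exp_add, div_le_iff₀ (by norm_num)] at h1
  have h3 := Real.exp_one_lt_d9
  have h4 := Real.exp_pos r
  rw [Real.exp_neg, ← div_eq_mul_inv, div_le_iff₀ h4]
  nlinarith

theorem bounded {Rc : ℝ} (hR : 0 < Rc) {s c : ℝ} (hs : 0 < s) (hc : 0 < c) {A : ℝ} (hA : 1 ≤ A) :
    ∃ C : ℝ, ∀ u, |Q1 A s Rc c u / Q A s Rc c u| ≤ C ∧ |Q2 A s Rc c u / Q A s Rc c u| ≤ C ∧
      |Q3 A s Rc c u / Q A s Rc c u| ≤ C := by
  set q0 : ℝ := min (1 / 3) (c / 2) with hq0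
  have hq0p : 0 < q0 := lt_min (by norm_num) (by positivity)
  have hlow : ∀ u, q0 ≤ Q A s Rc c u := by
    intro u
    by_cases hu : Real.exp u ≤ 1
    · refine (min_le_left _ _).trans (le_trans ?_ (Q_gt_P hR hs hc A u).le)
      have h1 : u ≤ 0 := by
        rwa [← Real.exp_le_one_iff]
      have h2 : Real.exp (-1) ≤ P u := by
        unfold P
        apply Real.exp_le_exp.2
        linarith
      refine le_trans ?_ h2
      rw [Real.exp_neg, one_div]
      exact inv_anti₀ (Real.exp_pos 1) (by linarith [Real.exp_one_lt_d9])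
    · push Not at hu
      refine (min_le_right _ _).trans (Q_ge hR hs hc (by linarith) ?_)
      nlinarith
  have hP3 : ∀ u, (1 + Real.exp u) ^ 3 * P u ≤ (8 + 18 / q0) * Q A s Rc c u := by
    intro u
    have hr := Real.exp_pos u
    have hPQ := Q_gt_P hR hs hc A u
    have hPp := P_pos u
    have hlu := hlow u
    have hQp := Q_pos hR hs hc A u
    have h18 : 18 ≤ 18 / q0 * Q A s Rc c u := by
      rw [div_mul_eq_mul_div, le_div_iff₀ hq0p]
      nlinarith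
    have h180 : 0 ≤ 18 / q0 * Q A s Rc c u := by linarith
    by_cases hu : Real.exp u ≤ 1
    · have h1 : (1 + Real.exp u) ^ 3 ≤ 2 ^ 3 := pow_le_pow_left₀ (by linarith) (by linarith) 3
      have h2 := mul_le_mul h1 hPQ.le hPp.le (by norm_num)
      rw [add_mul]
      linarith
    · push Not at hu
      have h1 : P u ≤ Real.exp (-Real.exp u) := by
        unfold P
        apply Real.exp_le_exp.2
        have : 0 < u := by rwa [← Real.one_lt_exp_iff]
        linarith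
      have h2 := mul_le_mul_of_nonneg_left h1 (by positivity : 0 ≤ (1 + Real.exp u) ^ 3)
      have h3 := exp_cube hr.le
      rw [add_mul]
      linarith
  have hcon : ∀ x, 0 ≤ x → ∀ u, x ≤ x / q0 * Q A s Rc c u := by
    intro x hx u
    rw [div_mul_eq_mul_div, le_div_iff₀ hq0p]
    exact mul_le_mul_of_nonneg_left (hlow u) hx
  -- a common bound
  set D : ℝ := 8 + 18 / q0 + (c * 50 + s * ((s + 2) ^ 2 + (s + 1))) / q0 with hD
  have hgen : ∀ u x y z : ℝ, |x| ≤ (1 + Real.exp u) ^ 3 * P u → |y| ≤ c * 50 →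
      |z| ≤ s * ((s + 2) ^ 2 + (s + 1)) → |(x + y + z) / Q A s Rc c u| ≤ D := by
    intro u x y z hx hy hz
    have hQp := Q_pos hR hs hc A u
    rw [abs_div, abs_of_pos hQp, div_le_iff₀ hQp]
    have h1 := abs_add_three x y z
    have h2 := hcon (c * 50 + s * ((s + 2) ^ 2 + (s + 1))) (by positivity) u
    have h3 := hP3 u
    rw [hD, add_mul]
    linarith
  refine ⟨D, fun u => ?_⟩
  have hr := Real.exp_pos u
  have hPp := P_pos u
  have t0 := T_pos A u
  have t1 := T_lt A u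
  have w0 := W_pos hR u
  have w1 := W_lt hR u
  have y0 := Y_pos hR s u
  have y1 := Y_lt hR hs u
  have hTT : 0 ≤ T A u * (1 - T A u) := mul_nonneg t0.le (by linarith)
  have hTT1 : T A u * (1 - T A u) ≤ 1 := by nlinarith
  have hWY : 0 ≤ W Rc u * Y s Rc u := by positivity
  have hWY1 : W Rc u * Y s Rc u ≤ 1 := by nlinarith
  refine ⟨?_, ?_, ?_⟩
  · unfold Q1
    apply hgen
    · rw [abs_mul, abs_of_pos hPp]
      apply mul_le_mul_of_nonneg_right _ hPp.le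
      rw [abs_neg, abs_of_pos (by positivity)]
      nlinarith [pow_pos hr 2, pow_pos hr 3]
    · rw [abs_mul, abs_of_pos hc]
      apply mul_le_mul_of_nonneg_left _ hc.le
      rw [mul_assoc, abs_of_nonneg (by positivity)]
      linarith
    · rw [mul_assoc, abs_mul, abs_of_pos hs, abs_of_nonneg hWY]
      apply mul_le_mul_of_nonneg_left _ hs.le
      nlinarith
  · unfold Q2
    apply hgen
    · rw [abs_mul, abs_of_pos hPp]
      apply mul_le_mul_of_nonneg_right _ hPp.le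
      rw [abs_of_pos (by positivity)]
      nlinarith [pow_pos hr 2, pow_pos hr 3]
    · rw [abs_mul, abs_of_pos hc]
      apply mul_le_mul_of_nonneg_left _ hc.le
      rw [abs_mul, mul_assoc, abs_of_nonneg (by positivity)]
      have h1 : |1 - 2 * T A u| ≤ 1 := by
        rw [abs_le]
        constructor <;> linarith
      have h2 := abs_nonneg (1 - 2 * T A u)
      nlinarith
    · rw [mul_assoc s, mul_assoc s, abs_mul, abs_of_pos hs]
      apply mul_le_mul_of_nonneg_left _ hs.le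
      rw [abs_mul, abs_of_nonneg hWY]
      have h1 : |1 - (s + 1) * W Rc u| ≤ s + 2 := by
        rw [abs_le]
        constructor <;> nlinarith
      have h2 := abs_nonneg (1 - (s + 1) * W Rc u)
      nlinarith
  · unfold Q3
    apply hgen
    · rw [abs_mul, abs_of_pos hPp]
      apply mul_le_mul_of_nonneg_right _ hPp.le
      rw [abs_le]
      constructor <;> nlinarith [pow_pos hr 2, pow_pos hr 3]
    · rw [abs_mul, abs_of_pos hc]
      apply mul_le_mul_of_nonneg_left _ hc.le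
      rw [abs_mul, mul_assoc, abs_of_nonneg (by positivity)]
      have h1 : |1 - 6 * T A u + 6 * T A u ^ 2| ≤ 7 := by
        rw [abs_le]
        constructor <;> nlinarith
      have h2 := abs_nonneg (1 - 6 * T A u + 6 * T A u ^ 2)
      nlinarith
    · rw [mul_assoc s, mul_assoc s, abs_mul, abs_of_pos hs]
      apply mul_le_mul_of_nonneg_left _ hs.le
      rw [abs_mul, abs_of_nonneg hWY]
      have h1 : |1 - (s + 1) * W Rc u| ≤ s + 2 := by
        rw [abs_le]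
        constructor <;> nlinarith
      have h3 : (1 - (s + 1) * W Rc u) ^ 2 ≤ (s + 2) ^ 2 := by
        rw [← sq_abs]
        exact pow_le_pow_left₀ (abs_nonneg _) h1 2
      have h4 : W Rc u * (1 - W Rc u) ≤ 1 := by nlinarith
      have h5 : 0 ≤ W Rc u * (1 - W Rc u) := mul_nonneg w0.le (by linarith)
      have h6 : |(1 - (s + 1) * W Rc u) ^ 2 - (s + 1) * W Rc u * (1 - W Rc u)| ≤
          (s + 2) ^ 2 + (s + 1) := by
        rw [abs_le]
        constructor <;> nlinarith [sq_nonneg (1 - (s + 1) * W Rc u)]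
      have h2 := abs_nonneg ((1 - (s + 1) * W Rc u) ^ 2 - (s + 1) * W Rc u * (1 - W Rc u))
      nlinarith

/-! ### the generator -/

theorem gen_ge {Rc : ℝ} (hR : 0 < Rc) {s c : ℝ} (hs : 0 < s) (hc : 0 < c) (A a u : ℝ) :
    4 * (-(1 / 2 * Q2 A s Rc c u + a * Q1 A s Rc c u)) / Q A s Rc c u ≤
      1 / 2 * L2 A s Rc c u + a * L1 A s Rc c u := by
  have h0 := Q_pos hR hs hc A u
  have h1 : 1 / 2 * L2 A s Rc c u + a * L1 A s Rc c u =
      4 * (-(1 / 2 * Q2 A s Rc c u + a * Q1 A s Rc c u)) / Q A s Rc c u +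
        2 * (Q1 A s Rc c u / Q A s Rc c u) ^ 2 := by
    unfold L1 L2
    ring
  rw [h1]
  have h2 := sq_nonneg (Q1 A s Rc c u / Q A s Rc c u)
  linarith

theorem T_bound {A : ℝ} (hA : 0 < A) (u : ℝ) :
    Real.sqrt A * (T A u * (1 - T A u)) ≤ Real.exp (-u / 2) := by
  have h0 := K_pos A u
  have h1 : T A u * (1 - T A u) = K A u ^ 3 / (1 + K A u ^ 3) ^ 2 := by
    unfold T
    field_simp
    ring
  have h2 := Real.exp_pos (-u / 2)
  rw [← K_eq2 hA u, h1]
  have h3 : K A u ^ 2 ≤ 1 + K A u ^ 3 := by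
    nlinarith [mul_nonneg (sq_nonneg (K A u - 1)) (by linarith : 0 ≤ K A u + 1)]
  have h4 : K A u * K A u ^ 3 ≤ (1 + K A u ^ 3) ^ 2 := by
    have h5 := pow_le_pow_left₀ (by positivity) h3 2
    nlinarith
  have h5 : K A u * (K A u ^ 3 / (1 + K A u ^ 3) ^ 2) ≤ 1 := by
    rw [← mul_div_assoc, div_le_one (by positivity)]
    exact h4
  calc K A u * Real.exp (-u / 2) * (K A u ^ 3 / (1 + K A u ^ 3) ^ 2)
      = K A u * (K A u ^ 3 / (1 + K A u ^ 3) ^ 2) * Real.exp (-u / 2) := by ring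
    _ ≤ 1 * Real.exp (-u / 2) := mul_le_mul_of_nonneg_right h5 h2.le
    _ = Real.exp (-u / 2) := one_mul _

/-- upper bound of `L Q` -/
theorem LQ_le {N : ℕ} (hN : 3 ≤ N) {A Rc s x : ℝ} (hA : 0 < A) (hR : 0 < Rc) (hs : 0 < s)
    (hx : 0 ≤ x) (u : ℝ) :
    1 / 2 * Q2 A s Rc (1 / (32 * N) * Real.sqrt A) u +
        (1 / 2 * (N - 2) - x) * Q1 A s Rc (1 / (32 * N) * Real.sqrt A) u ≤
      P u * (-1 / 8 + 1 / 2 * Real.exp u ^ 2 + x * (1 / 2 + Real.exp u)) +
        Real.exp (-u / 2) / 32 + s * W Rc u * Y s Rc u * (1 / 2 * (N - 1) - x) := by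
  have hN' : (3 : ℝ) ≤ N := by exact_mod_cast hN
  have hr := Real.exp_pos u
  have hPp := P_pos u
  have t0 := T_pos A u
  have t1 := T_lt A u
  have w0 := W_pos hR u
  have w1 := W_lt hR u
  have y0 := Y_pos hR s u
  have hTT : 0 ≤ T A u * (1 - T A u) := mul_nonneg t0.le (by linarith)
  have hA0 := Real.sqrt_pos.2 hA
  have hc : 0 < 1 / (32 * (N : ℝ)) * Real.sqrt A := by positivity
  have a1 : 1 / 2 * ((Real.exp u ^ 2 + 1 / 4) * P u) +
      (1 / 2 * (N - 2) - x) * (-(1 / 2 + Real.exp u) * P u) ≤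
      P u * (-1 / 8 + 1 / 2 * Real.exp u ^ 2 + x * (1 / 2 + Real.exp u)) := by
    have h1 : 0 ≤ P u * ((1 / 2 * ((N : ℝ) - 2) - 1 / 2) * (1 / 2 + Real.exp u)) := by
      apply mul_nonneg hPp.le
      apply mul_nonneg <;> linarith
    have h2 := mul_pos hPp hr
    nlinarith
  have a2 : 1 / 2 * (1 / (32 * (N : ℝ)) * Real.sqrt A *
        (9 / 4 * T A u * (1 - T A u) * (1 - 2 * T A u))) +
      (1 / 2 * (N - 2) - x) * (1 / (32 * (N : ℝ)) * Real.sqrt A *
        (3 / 2 * T A u * (1 - T A u))) ≤ Real.exp (-u / 2) / 32 := by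
    have h1 := T_bound hA u
    have h2 : 1 / 2 * (1 / (32 * (N : ℝ)) * Real.sqrt A *
        (9 / 4 * T A u * (1 - T A u) * (1 - 2 * T A u))) +
      (1 / 2 * (N - 2) - x) * (1 / (32 * (N : ℝ)) * Real.sqrt A *
        (3 / 2 * T A u * (1 - T A u))) =
        1 / (32 * (N : ℝ)) * Real.sqrt A * (T A u * (1 - T A u)) *
          (9 / 8 * (1 - 2 * T A u) + 3 / 4 * (N - 2) - 3 / 2 * x) := by ring
    have h3 : 0 ≤ 1 / (32 * (N : ℝ)) * Real.sqrt A * (T A u * (1 - T A u)) := by positivity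
    have h4 : 9 / 8 * (1 - 2 * T A u) + 3 / 4 * ((N : ℝ) - 2) - 3 / 2 * x ≤ N := by linarith
    have h5 := mul_le_mul_of_nonneg_left h4 h3
    rw [h2]
    refine h5.trans ?_
    have h6 : 1 / (32 * (N : ℝ)) * Real.sqrt A * (T A u * (1 - T A u)) * N =
        1 / 32 * (Real.sqrt A * (T A u * (1 - T A u))) := by
      field_simp
    rw [h6]
    linarith
  have a3 : 1 / 2 * (s * W Rc u * Y s Rc u * (1 - (s + 1) * W Rc u)) +
      (1 / 2 * (N - 2) - x) * (s * W Rc u * Y s Rc u) ≤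
      s * W Rc u * Y s Rc u * (1 / 2 * (N - 1) - x) := by
    have h1 : 0 ≤ s * W Rc u * Y s Rc u * ((s + 1) * W Rc u) := by positivity
    nlinarith
  unfold Q1 Q2
  nlinarith

/-- small `r` -/
theorem LQ_small {N : ℕ} (hN : 3 ≤ N) {A Rc s : ℝ} (hA : 0 < A) (hR : 1 ≤ Rc) (hs : 0 < s)
    {u : ℝ} (hu : Real.exp u ≤ 1 / 64) (hu2 : s * N * Real.exp u ≤ 1 / 64) :
    Real.exp (-u / 2) / 32 ≤ -(1 / 2 * Q2 A s Rc (1 / (32 * N) * Real.sqrt A) u +
        (1 / 2 * (N - 2) - Real.exp u ^ (s + 1)) * Q1 A s Rc (1 / (32 * N) * Real.sqrt A) u) := by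
  have hR0 : 0 < Rc := by linarith
  have hN' : (3 : ℝ) ≤ N := by exact_mod_cast hN
  have hr := Real.exp_pos u
  have hx : 0 ≤ Real.exp u ^ (s + 1) := Real.rpow_nonneg hr.le _
  have hx2 : Real.exp u ^ (s + 1) ≤ Real.exp u := by
    have h1 := Real.rpow_le_rpow_of_exponent_ge hr (by linarith) (by linarith : 1 ≤ s + 1)
    rwa [Real.rpow_one] at h1
  have h0 := LQ_le hN hA hR0 hs hx u
  set x := Real.exp u ^ (s + 1)
  set r := Real.exp u with hrd
  have hσ := Real.exp_pos (-u / 2)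
  have hσ2 := sig_sq u
  rw [← hrd] at hσ2
  set σ := Real.exp (-u / 2)
  have hσ1 : 1 ≤ σ := by
    by_contra h
    push Not at h
    nlinarith
  have hP := P_eq u
  rw [← hrd] at hP
  have hexp : 1 - r ≤ Real.exp (-r) := by
    have := Real.add_one_le_exp (-r)
    linarith
  have hPl : 63 / 64 * σ ≤ P u := by
    rw [hP]
    apply mul_le_mul_of_nonneg_right _ hσ.le
    linarith
  have b1 : P u * (-1 / 8 + 1 / 2 * r ^ 2 + x * (1 / 2 + r)) ≤ P u * (-3 / 32) := by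
    apply mul_le_mul_of_nonneg_left _ (P_pos u).le
    nlinarith
  have w0 := W_pos hR0 u
  have w1 : W Rc u ≤ r := by
    have h1 := one_lt_y hR0 u
    rw [← hrd] at h1
    unfold W
    rw [← hrd]
    have h2 : r / Rc ≤ r := div_le_self hr.le hR
    refine le_trans ?_ h2
    exact div_le_self (by positivity) h1.le
  have y0 := Y_pos hR0 s u
  have y1 := Y_lt hR0 hs u
  have b2 : s * W Rc u * Y s Rc u * (1 / 2 * (N - 1) - x) ≤ 1 / 128 := by
    have h1 : s * W Rc u * Y s Rc u ≤ s * r := by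
      have h2 : s * W Rc u ≤ s * r := mul_le_mul_of_nonneg_left w1 hs.le
      have h3 : s * W Rc u * Y s Rc u ≤ s * W Rc u :=
        mul_le_of_le_one_right (by positivity) y1.le
      linarith
    have h4 : 0 ≤ s * W Rc u * Y s Rc u := by positivity
    have h5 : s * W Rc u * Y s Rc u * (1 / 2 * (N - 1) - x) ≤
        s * W Rc u * Y s Rc u * (1 / 2 * N) := by
      apply mul_le_mul_of_nonneg_left _ h4
      linarith
    have h6 : s * W Rc u * Y s Rc u * (1 / 2 * N) ≤ s * r * (1 / 2 * N) :=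
      mul_le_mul_of_nonneg_right h1 (by positivity)
    nlinarith
  linarith

/-- all `r` -/
theorem exp_bound (β : ℝ) (hβ : 1 < β) : ∃ B : ℝ, 0 ≤ B ∧ ∀ r : ℝ, 0 < r →
    Real.exp (-r) * (1 / 2 * r ^ 2 + r ^ β * (1 / 2 + r)) ≤ B := by
  set m : ℕ := ⌈β⌉₊ with hm
  have hmβ : β ≤ m := Nat.le_ceil β
  refine ⟨1 + 1 + 1 + m.factorial + (m + 1).factorial, by positivity, fun r hr => ?_⟩
  have hk : ∀ k : ℕ, Real.exp (-r) * r ^ k ≤ k.factorial := by
    intro k
    have h1 := Real.pow_div_factorial_le_exp r hr.le k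
    have hf : (0 : ℝ) < k.factorial := by exact_mod_cast k.factorial_pos
    rw [div_le_iff₀ hf] at h1
    rw [Real.exp_neg, mul_comm, ← div_eq_mul_inv, div_le_iff₀ (Real.exp_pos r)]
    linarith
  have hb : r ^ β ≤ 1 + r ^ m := by
    by_cases h : r ≤ 1
    · have h1 := Real.rpow_le_one hr.le h (by linarith : 0 ≤ β)
      have h2 : 0 ≤ r ^ m := by positivity
      linarith
    · push Not at h
      have h1 := Real.rpow_le_rpow_of_exponent_le h.le hmβ
      rw [Real.rpow_natCast] at h1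
      linarith
  have he := Real.exp_pos (-r)
  have h0 := hk 0
  have h1 := hk 1
  have h2 := hk 2
  have h3 := hk m
  have h4 := hk (m + 1)
  have h5 : 1 / 2 * r ^ 2 + r ^ β * (1 / 2 + r) ≤
      1 / 2 * r ^ 2 + (1 + r ^ m) * (1 / 2 + r) := by
    have := mul_le_mul_of_nonneg_right hb (by linarith : 0 ≤ 1 / 2 + r)
    linarith
  have h6 := mul_le_mul_of_nonneg_left h5 he.le
  refine h6.trans ?_
  have h7 : Real.exp (-r) * (1 / 2 * r ^ 2 + (1 + r ^ m) * (1 / 2 + r)) =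
      1 / 2 * (Real.exp (-r) * r ^ 2) + 1 / 2 * (Real.exp (-r) * r ^ 0) + Real.exp (-r) * r ^ 1 +
        1 / 2 * (Real.exp (-r) * r ^ m) + Real.exp (-r) * r ^ (m + 1) := by ring
  rw [h7]
  have f0 : ((Nat.factorial 0 : ℕ) : ℝ) = 1 := by norm_num [Nat.factorial]
  have f1 : ((Nat.factorial 1 : ℕ) : ℝ) = 1 := by norm_num [Nat.factorial]
  have f2 : ((Nat.factorial 2 : ℕ) : ℝ) = 2 := by norm_num [Nat.factorial]
  have f3 : (0 : ℝ) ≤ m.factorial := by positivity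
  rw [f0] at h0
  rw [f1] at h1
  rw [f2] at h2
  linarith

/-- upper bound of `L Q` for `r ≥ ρ` -/
theorem LQ_all {N : ℕ} (hN : 3 ≤ N) {A Rc s B ρ : ℝ} (hA : 0 < A) (hR : 0 < Rc) (hs : 0 < s)
    (hB : 0 ≤ B) (hB2 : ∀ r : ℝ, 0 < r →
      Real.exp (-r) * (1 / 2 * r ^ 2 + r ^ (s + 1) * (1 / 2 + r)) ≤ B)
    (hρ : 0 < ρ) (hρ1 : ρ ≤ 1) {u : ℝ} (hu : ρ ≤ Real.exp u) :
    1 / 2 * Q2 A s Rc (1 / (32 * N) * Real.sqrt A) u +
        (1 / 2 * (N - 2) - Real.exp u ^ (s + 1)) * Q1 A s Rc (1 / (32 * N) * Real.sqrt A) u ≤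
      (B + 1) / ρ + s * W Rc u * Y s Rc u * (1 / 2 * (N - 1) - Real.exp u ^ (s + 1)) := by
  have hr := Real.exp_pos u
  have hx : 0 ≤ Real.exp u ^ (s + 1) := Real.rpow_nonneg hr.le _
  have h0 := LQ_le hN hA hR hs hx u
  have hb := hB2 _ hr
  set x := Real.exp u ^ (s + 1)
  set r := Real.exp u with hrd
  have hσ := Real.exp_pos (-u / 2)
  have hσ2 := sig_sq u
  rw [← hrd] at hσ2
  set σ := Real.exp (-u / 2)
  have hσ1 : σ ≤ 1 / ρ := by
    rw [le_div_iff₀ hρ]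
    by_contra h
    push Not at h
    have h1 : 1 < (σ * ρ) ^ 2 := one_lt_pow₀ h (by norm_num)
    have h2 : (σ * ρ) ^ 2 ≤ σ ^ 2 * r := by
      have h3 : ρ ^ 2 ≤ r := by nlinarith
      have h4 : 0 ≤ σ ^ 2 := by positivity
      nlinarith
    linarith
  have hP := P_eq u
  rw [← hrd] at hP
  have c1 : P u * (-1 / 8 + 1 / 2 * r ^ 2 + x * (1 / 2 + r)) ≤ σ * B := by
    have h1 : P u * (-1 / 8 + 1 / 2 * r ^ 2 + x * (1 / 2 + r)) ≤
        P u * (1 / 2 * r ^ 2 + x * (1 / 2 + r)) := by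
      apply mul_le_mul_of_nonneg_left _ (P_pos u).le
      linarith
    refine h1.trans ?_
    rw [hP]
    have h2 := mul_le_mul_of_nonneg_left hb hσ.le
    calc Real.exp (-r) * σ * (1 / 2 * r ^ 2 + x * (1 / 2 + r))
        = σ * (Real.exp (-r) * (1 / 2 * r ^ 2 + x * (1 / 2 + r))) := by ring
      _ ≤ σ * B := h2
  have c2 : σ * B + σ / 32 ≤ (B + 1) / ρ := by
    have h1 : σ * (B + 1) ≤ 1 / ρ * (B + 1) := mul_le_mul_of_nonneg_right hσ1 (by linarith)
    have h2 : 1 / ρ * (B + 1) = (B + 1) / ρ := by ring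
    nlinarith
  linarith

theorem W_Y_large {Rc s : ℝ} (hR : 1 ≤ Rc) (hs : 0 < s) {N : ℝ} {u : ℝ}
    (hu : Rc ≤ Real.exp u) (hRN : N ≤ Rc) :
    s * W Rc u * Y s Rc u * (1 / 2 * (N - 1) - Real.exp u ^ (s + 1)) ≤
      -(s / 4 * 2 ^ (-s) * Rc) := by
  have hR0 : 0 < Rc := by linarith
  set r := Real.exp u with hrd
  have hr : 0 < r := by linarith
  have hr1 : 1 ≤ r := by linarith
  have hx : r ≤ r ^ (s + 1) := by
    have h1 := Real.rpow_le_rpow_of_exponent_le hr1 (by linarith : 1 ≤ s + 1)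
    rwa [Real.rpow_one] at h1
  have h1 : 1 / 2 * (N - 1) - r ^ (s + 1) ≤ -(r ^ (s + 1) / 2) := by linarith
  have hW : 1 / 2 ≤ W Rc u := by
    unfold W
    rw [← hrd]
    have h2 : 1 ≤ r / Rc := by rwa [one_le_div hR0]
    rw [div_le_div_iff₀ (by norm_num) (by linarith)]
    linarith
  have hY : 2 ^ (-s) * Rc ≤ Y s Rc u * r ^ (s + 1) := by
    unfold Y
    rw [← hrd]
    have h2 : 1 ≤ r / Rc := by rwa [one_le_div hR0]
    have h3 : (2 * (r / Rc)) ^ (-s) ≤ (1 + r / Rc) ^ (-s) :=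
      Real.rpow_le_rpow_of_nonpos (by linarith) (by linarith) (by linarith)
    have h4 : (2 * (r / Rc)) ^ (-s) = 2 ^ (-s) * (r / Rc) ^ (-s) :=
      Real.mul_rpow (by norm_num) (by positivity)
    have h5 : (r / Rc) ^ (-s) * r ^ (s + 1) = Rc ^ s * r := by
      rw [Real.div_rpow hr.le hR0.le, Real.rpow_neg hR0.le, Real.rpow_neg hr.le,
        Real.rpow_add_one hr.ne']
      have h6 := Real.rpow_pos_of_pos hr s
      have h7 := Real.rpow_pos_of_pos hR0 s
      field_simp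
    have h6 : Rc ≤ Rc ^ s * r := by
      have h7 : 1 ≤ Rc ^ s := Real.one_le_rpow hR hs.le
      nlinarith
    have h8 : 0 < (2 : ℝ) ^ (-s) := Real.rpow_pos_of_pos (by norm_num) _
    have h9 : 0 < r ^ (s + 1) := Real.rpow_pos_of_pos hr _
    calc 2 ^ (-s) * Rc ≤ 2 ^ (-s) * (Rc ^ s * r) := mul_le_mul_of_nonneg_left h6 h8.le
      _ = 2 ^ (-s) * (r / Rc) ^ (-s) * r ^ (s + 1) := by rw [← h5]; ring
      _ = (2 * (r / Rc)) ^ (-s) * r ^ (s + 1) := by rw [h4]
      _ ≤ (1 + r / Rc) ^ (-s) * r ^ (s + 1) := mul_le_mul_of_nonneg_right h3 h9.le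
  have y0 := Y_pos hR0 s u
  have w0 := W_pos hR0 u
  have h9 : 0 < r ^ (s + 1) := Real.rpow_pos_of_pos hr _
  have k1 := mul_le_mul_of_nonneg_left h1 (by positivity : 0 ≤ s * W Rc u * Y s Rc u)
  refine k1.trans ?_
  have k2 : s * (1 / 2) * (2 ^ (-s) * Rc) ≤ s * W Rc u * (Y s Rc u * r ^ (s + 1)) := by
    have h8 : 0 < (2 : ℝ) ^ (-s) := Real.rpow_pos_of_pos (by norm_num) _
    apply mul_le_mul _ hY (by positivity) (by positivity)
    exact mul_le_mul_of_nonneg_left hW hs.le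
  nlinarith

end QPot

theorem qpot (N : ℕ) (β D0 : ℝ) (hN : 3 ≤ N) (hβ : 1 < β) (hD : 1 ≤ D0) :
    ∃ r2 Rc cv Cv A0 : ℝ, 0 < r2 ∧ r2 < 1 ∧ 1 ≤ Rc ∧ 0 < cv ∧ 0 < Cv ∧ D0 * Cv ≤ cv ∧ 6 ≤ A0 ∧
      6 / A0 ≤ r2 ∧
      ∀ A, A0 ≤ A → ∃ B : ℝ, ContDiff ℝ 3 (LamU N β A Rc) ∧
        (∀ u, |deriv (LamU N β A Rc) u| ≤ B ∧ |iteratedDeriv 2 (LamU N β A Rc) u| ≤ B ∧
          |iteratedDeriv 3 (LamU N β A Rc) u| ≤ B) ∧
        ∀ u, Low A r2 Rc cv Cv (Real.exp u) ≤ 1 / 2 * iteratedDeriv 2 (LamU N β A Rc) u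
          + (1 / 2 * (N - 2) - Real.exp u ^ β) * deriv (LamU N β A Rc) u := by
  obtain ⟨s, hsd⟩ : ∃ s : ℝ, s = β - 1 := ⟨_, rfl⟩
  have hs : 0 < s := by linarith
  have hβs : β = s + 1 := by linarith
  subst hβs
  have hN' : (3 : ℝ) ≤ N := by exact_mod_cast hN
  obtain ⟨B, hB, hB2⟩ := QPot.exp_bound (s + 1) hβ
  set ρ : ℝ := 1 / (64 * (1 + s * N)) with hρd
  have hsN : 0 < s * N := by positivity
  have hρ : 0 < ρ := by positivity
  have hρ64 : ρ ≤ 1 / 64 := by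
    rw [hρd]
    apply one_div_le_one_div_of_le (by norm_num)
    linarith
  have hρs : s * N * ρ ≤ 1 / 64 := by
    rw [hρd, mul_one_div, div_le_div_iff₀ (by positivity) (by norm_num)]
    linarith
  set CP : ℝ := (B + 1) / ρ + s * N with hCPd
  have hCP : 0 < CP := by positivity
  set Cv : ℝ := 256 * N * CP with hCvd
  have hCv : 0 < Cv := by positivity
  set t2 : ℝ := min ρ (1 / (16 * D0 * Cv)) with ht2d
  have hD' : 0 < D0 := by linarith
  have ht2 : 0 < t2 := lt_min hρ (by positivity)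
  have ht2ρ : t2 ≤ ρ := min_le_left _ _
  set cv : ℝ := 1 / (16 * t2) with hcvd
  have hcv : 0 < cv := by positivity
  have hDcv : D0 * Cv ≤ cv := by
    have h1 : t2 ≤ 1 / (16 * D0 * Cv) := min_le_right _ _
    rw [hcvd, le_div_iff₀ (by positivity)]
    rw [le_div_iff₀ (by positivity)] at h1
    linarith
  set Rc : ℝ := max (N : ℝ) ((CP + cv) * 4 * 2 ^ s / s) with hRcd
  have hRN : (N : ℝ) ≤ Rc := le_max_left _ _
  have hR1 : 1 ≤ Rc := by linarith
  have hR0 : 0 < Rc := by linarith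
  have h2s : 0 < (2 : ℝ) ^ s := Real.rpow_pos_of_pos (by norm_num) _
  have hRcv : CP + cv ≤ s / 4 * 2 ^ (-s) * Rc := by
    have h1 : (CP + cv) * 4 * 2 ^ s / s ≤ Rc := le_max_right _ _
    have h2 : s / 4 * 2 ^ (-s) * ((CP + cv) * 4 * 2 ^ s / s) = CP + cv := by
      rw [Real.rpow_neg (by norm_num)]
      field_simp
    rw [← h2]
    apply mul_le_mul_of_nonneg_left h1
    have : 0 < (2 : ℝ) ^ (-s) := Real.rpow_pos_of_pos (by norm_num) _
    positivity
  have hr2t : t2 ^ 2 ≤ t2 := by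
    have h1 := mul_le_mul_of_nonneg_left (by linarith : t2 ≤ 1) ht2.le
    rw [mul_one] at h1
    rwa [sq]
  have hr2ρ : t2 ^ 2 ≤ ρ := hr2t.trans ht2ρ
  have hr21 : t2 ^ 2 < 1 := by linarith
  refine ⟨t2 ^ 2, Rc, cv, Cv, 6 / t2 ^ 2, by positivity, hr21, hR1, hcv, hCv, hDcv, ?_, ?_, ?_⟩
  · rw [le_div_iff₀ (by positivity)]
    linarith
  · rw [div_div_cancel₀ (by norm_num)]
  intro A hA
  have hA6 : 6 ≤ A := by
    refine le_trans ?_ hA
    rw [le_div_iff₀ (by positivity)]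
    linarith
  have hA0 : 0 < A := by linarith
  have hAr : 6 / A ≤ t2 ^ 2 := by
    rw [div_le_iff₀ hA0]
    rw [div_le_iff₀ (by positivity)] at hA
    linarith
  have hsA := Real.sqrt_pos.2 hA0
  have hsA2 : 2 ≤ Real.sqrt A := by
    apply Real.le_sqrt_of_sq_le
    linarith
  have hsq := Real.sq_sqrt hA0.le
  set c : ℝ := 1 / (32 * (N : ℝ)) * Real.sqrt A with hcd
  have hc : 0 < c := by positivity
  have hc96 : c ≤ Real.sqrt A / 96 := by
    have h1 : 1 / (32 * (N : ℝ)) ≤ 1 / 96 := by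
      apply one_div_le_one_div_of_le (by norm_num)
      linarith
    have h2 := mul_le_mul_of_nonneg_right h1 hsA.le
    rw [hcd]
    linarith
  have hLam := QPot.Lam_eq N (by omega) hβ hA0 hR0
  rw [show s + 1 - 1 = s by ring, ← hcd] at hLam
  obtain ⟨hd1, hd2, hd3⟩ := QPot.derivs hR0 hs hc A
  obtain ⟨C, hC⟩ := QPot.bounded hR0 hs hc (by linarith : 1 ≤ A)
  have hC0 : 0 ≤ C := (abs_nonneg _).trans (hC 0).1
  rw [hLam, hd1, hd2, hd3]
  refine ⟨4 * (C + 3 * C ^ 2 + 2 * C ^ 3), QPot.L_contDiff hR0 hs hc A, fun u => ?_, fun u => ?_⟩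
  · obtain ⟨c1, c2, c3⟩ := hC u
    unfold QPot.L1 QPot.L2 QPot.L3
    set q1 := QPot.Q1 A s Rc c u / QPot.Q A s Rc c u
    set q2 := QPot.Q2 A s Rc c u / QPot.Q A s Rc c u
    set q3 := QPot.Q3 A s Rc c u / QPot.Q A s Rc c u
    have e1 : |q1| ^ 2 ≤ C ^ 2 := pow_le_pow_left₀ (abs_nonneg _) c1 2
    have e2 : |q1| ^ 3 ≤ C ^ 3 := pow_le_pow_left₀ (abs_nonneg _) c1 3
    have e3 : |q1| * |q2| ≤ C * C := mul_le_mul c1 c2 (abs_nonneg _) hC0
    have hC2 : 0 ≤ C ^ 2 := by positivity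
    have hC3 : 0 ≤ C ^ 3 := by positivity
    refine ⟨?_, ?_, ?_⟩
    · rw [abs_mul, show |(-4 : ℝ)| = 4 by norm_num]
      linarith
    · rw [abs_mul, show |(-4 : ℝ)| = 4 by norm_num]
      have h1 := abs_sub q2 (q1 ^ 2)
      rw [abs_pow] at h1
      linarith
    · rw [abs_mul, show |(-4 : ℝ)| = 4 by norm_num]
      have h1 := abs_add_le (q3 - 3 * q1 * q2) (2 * q1 ^ 3)
      have h2 := abs_sub q3 (3 * q1 * q2)
      have h3 : |3 * q1 * q2| = 3 * (|q1| * |q2|) := by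
        rw [abs_mul, abs_mul, show |(3 : ℝ)| = 3 by norm_num]
        ring
      have h4 : |2 * q1 ^ 3| = 2 * |q1| ^ 3 := by
        rw [abs_mul, abs_pow, show |(2 : ℝ)| = 2 by norm_num]
      rw [h3] at h2
      rw [h4] at h1
      have h5 : C * C = C ^ 2 := by ring
      rw [h5] at e3
      linarith
  · have hr := Real.exp_pos u
    refine le_trans ?_ (QPot.gen_ge hR0 hs hc A (1 / 2 * (N - 2) - Real.exp u ^ (s + 1)) u)
    have hQ0 := QPot.Q_pos hR0 hs hc A u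
    have hQle := QPot.Q_le hR0 (s := s) hc A u
    have hPσ : QPot.P u ≤ Real.exp (-u / 2) := by
      rw [QPot.P_eq]
      apply mul_le_of_le_one_left (Real.exp_pos _).le
      rw [Real.exp_le_one_iff]
      linarith
    have hσ := Real.exp_pos (-u / 2)
    have hσ2 := QPot.sig_sq u
    have hsmall : Real.exp u ≤ ρ → Real.exp (-u / 2) / 32 ≤
        -(1 / 2 * QPot.Q2 A s Rc c u +
          (1 / 2 * (N - 2) - Real.exp u ^ (s + 1)) * QPot.Q1 A s Rc c u) := by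
      intro h
      apply QPot.LQ_small hN hA0 hR1 hs (h.trans hρ64)
      refine le_trans ?_ hρs
      exact mul_le_mul_of_nonneg_left h hsN.le
    have hall : ρ ≤ Real.exp u → 1 / 2 * QPot.Q2 A s Rc c u +
        (1 / 2 * (N - 2) - Real.exp u ^ (s + 1)) * QPot.Q1 A s Rc c u ≤
        (B + 1) / ρ + s * QPot.W Rc u * QPot.Y s Rc u *
          (1 / 2 * (N - 1) - Real.exp u ^ (s + 1)) := by
      intro h
      exact QPot.LQ_all hN hA0 hR0 hs hB hB2 hρ (by linarith) h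
    set LQ : ℝ := 1 / 2 * QPot.Q2 A s Rc c u +
        (1 / 2 * (N - 2) - Real.exp u ^ (s + 1)) * QPot.Q1 A s Rc c u with hLQ
    set QQ : ℝ := QPot.Q A s Rc c u with hQQ
    set σ : ℝ := Real.exp (-u / 2) with hσd
    unfold Low
    split_ifs with h1 h2 h3
    · -- `r ≤ 6/A`
      have h4 := hsmall (h1.trans (hAr.trans hr2ρ))
      have h5 : 1 ≤ σ := by
        have h6 : Real.exp u ≤ 1 := by linarith [h1.trans (hAr.trans hr2ρ)]
        rw [Real.exp_le_one_iff] at h6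
        exact Real.one_le_exp (by linarith)
      have h6 : Real.sqrt A ≤ 3 * σ := by
        rw [le_div_iff₀ hA0] at h1
        apply Real.sqrt_le_iff.2 ⟨by positivity, ?_⟩
        have h7 : A = A * Real.exp u * σ ^ 2 := by
          rw [mul_assoc, mul_comm (Real.exp u), hσ2, mul_one]
        have h8 : A * Real.exp u * σ ^ 2 ≤ 6 * σ ^ 2 := by
          apply mul_le_mul_of_nonneg_right _ (by positivity)
          linarith
        have h9 : (3 * σ) ^ 2 = 9 * σ ^ 2 := by ring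
        have h10 := sq_nonneg σ
        rw [h9]
        linarith
      rw [div_le_div_iff₀ (by norm_num) hQ0]
      linarith
    · -- `6/A < r ≤ r2`
      push Not at h1
      have h4 := hsmall (h2.trans hr2ρ)
      have h5 : σ ≤ Real.sqrt A / 2 := by
        rw [div_lt_iff₀ hA0] at h1
        have h6 : σ ^ 2 * 6 ≤ A := by
          have h7 : A = A * (σ ^ 2 * Real.exp u) := by rw [hσ2, mul_one]
          have h8 := mul_le_mul_of_nonneg_left h1.le (sq_nonneg σ)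
          have h9 : σ ^ 2 * (Real.exp u * A) = A * (σ ^ 2 * Real.exp u) := by ring
          rw [h9, ← h7] at h8
          exact h8
        have h9 : (2 * σ) ^ 2 ≤ Real.sqrt A ^ 2 := by
          rw [hsq]
          have h10 : (2 * σ) ^ 2 = 4 * σ ^ 2 := by ring
          have h11 := sq_nonneg σ
          rw [h10]
          linarith
        have h10 := (sq_le_sq₀ (by positivity) hsA.le).1 h9
        linarith
      have h6 : 1 ≤ σ * t2 := by
        by_contra h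
        push Not at h
        have h7 : 0 < σ * t2 := by positivity
        have h8 : σ ^ 2 * Real.exp u ≤ (σ * t2) ^ 2 := by
          rw [mul_pow]
          exact mul_le_mul_of_nonneg_left h2 (by positivity)
        have h9 : (σ * t2) ^ 2 < 1 := pow_lt_one₀ h7.le h (by norm_num)
        linarith
      have h7 : cv ≤ σ / 16 := by
        rw [hcvd, div_le_div_iff₀ (by positivity) (by norm_num)]
        linarith
      have h8 : QQ ≤ 2 * Real.sqrt A := by linarith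
      rw [div_le_div_iff₀ hsA hQ0]
      have h9 : cv * QQ ≤ σ / 16 * (2 * Real.sqrt A) :=
        mul_le_mul h7 h8 hQ0.le (by positivity)
      have h10 : 4 * (σ / 32) * Real.sqrt A ≤ 4 * -LQ * Real.sqrt A := by
        apply mul_le_mul_of_nonneg_right _ hsA.le
        linarith
      linarith
    · -- `r2 < r < Rc`
      push Not at h1 h2
      by_cases hru : Real.exp u ≤ ρ
      · have h4 := hsmall hru
        have h5 : 0 ≤ 4 * -LQ / QQ := by
          apply div_nonneg _ hQ0.le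
          linarith
        have h6 : 0 ≤ Cv / Real.sqrt A := by positivity
        linarith
      · push Not at hru
        have h4 := hall hru.le
        have w0 := QPot.W_pos hR0 u
        have w1 := QPot.W_lt hR0 u
        have y0 := QPot.Y_pos hR0 s u
        have y1 := QPot.Y_lt hR0 hs u
        have h5 : s * QPot.W Rc u * QPot.Y s Rc u *
            (1 / 2 * (N - 1) - Real.exp u ^ (s + 1)) ≤ s * N := by
          have hx : 0 ≤ Real.exp u ^ (s + 1) := Real.rpow_nonneg hr.le _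
          have k1 : s * QPot.W Rc u * QPot.Y s Rc u ≤ s := by
            have k2 : QPot.W Rc u * QPot.Y s Rc u ≤ 1 := mul_le_one₀ w1.le y0.le y1.le
            rw [mul_assoc]
            exact mul_le_of_le_one_right hs.le k2
          have k3 : 0 ≤ s * QPot.W Rc u * QPot.Y s Rc u := by positivity
          calc s * QPot.W Rc u * QPot.Y s Rc u * (1 / 2 * (N - 1) - Real.exp u ^ (s + 1))
              ≤ s * QPot.W Rc u * QPot.Y s Rc u * N := by
                apply mul_le_mul_of_nonneg_left _ k3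
                linarith
            _ ≤ s * N := mul_le_mul_of_nonneg_right k1 (by linarith)
        have h6 : LQ ≤ CP := by linarith
        have h7 : 1 ≤ A * Real.exp u := by
          rw [div_lt_iff₀ hA0] at h1
          linarith
        have h8 := QPot.Q_ge hR0 hs hc hA0 h7
        rw [← hQQ] at h8
        rw [← neg_div, div_le_div_iff₀ hsA hQ0]
        have h9 : LQ * Real.sqrt A ≤ CP * Real.sqrt A := mul_le_mul_of_nonneg_right h6 hsA.le
        have h10 : Cv * (c / 2) ≤ Cv * QQ := mul_le_mul_of_nonneg_left h8 hCv.le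
        have h11 : Cv * (c / 2) = 4 * CP * Real.sqrt A := by
          rw [hCvd, hcd]
          field_simp
          ring
        linarith
    · -- `Rc ≤ r`
      push Not at h1 h2 h3
      have hr1 : 1 ≤ Real.exp u := hR1.trans h3
      have h4 := hall (by linarith)
      have h5 := QPot.W_Y_large hR1 hs (N := (N : ℝ)) h3 hRN
      have h6 : LQ ≤ -cv := by
        have : (B + 1) / ρ ≤ CP := by
          rw [hCPd]
          linarith
        linarith
      have h7 : σ ≤ 1 := by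
        rw [Real.one_le_exp_iff] at hr1
        rw [hσd, Real.exp_le_one_iff]
        linarith
      have h8 : QQ ≤ 4 * Real.sqrt A := by linarith
      rw [div_le_div_iff₀ hsA hQ0]
      have h9 : cv * QQ ≤ cv * (4 * Real.sqrt A) := mul_le_mul_of_nonneg_left h8 hcv.le
      have h10 : cv * Real.sqrt A ≤ -LQ * Real.sqrt A := by
        apply mul_le_mul_of_nonneg_right _ hsA.le
        linarith
      linarith

end Dyn
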