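import Pool.Agent.Lib_MP_36b788.MMB
import Pool.Agent.Lib_MP_36b788.MMS
import Pool.Agent.Lib_MP_36b788.QPot
import Pool.Agent.Lib_MP_36b788.UGen

/-!
# QSITE: one step of `log mm(‖g‖)`, with a small deterministic shift `w`

PROOF. `|log mm‖ĝ+w‖ - log mm‖ĝ‖| ≤ CM‖w‖` (MMB, Lipschitz in `r`), so let `w = 0`.
`g ≠ 0`: `log mm(r) = Λ - 2 log r`, `Λ = LamU(log r)`. UGEN for `LamU` and QPOT:
`∫ΔΛ ≥ h Low(r) - C h^(9/8)`; UGEN_log: `∫Δlog r ≤ h(½(N-2) - r^β) + C h^(9/8)`.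
Second statement (`‖g‖ ≤ 1`): UGEN for `G(u) = log mm(e^u)` with MM_small:
`|½G''+(½(N-2)-r^β)G'| ≤ N CM r`. Moments: `|ΔG| ≤ CM|δ|`, `∫δ² ≤ 2h`, `(a+b)² ≤ 2a²+2b²`.
`g = 0`: `hat = 0`, everything is `≤ CM‖w‖` (and `Low 0 - (N-2) ≤ 0`, `0^β = 0`).
-/

open MeasureTheory

namespace Dyn

private theorem QSite_hatm {N : ℕ} {β h : ℝ} (hβ : 0 < β) (hh : 0 ≤ h) (g : E N) :
    Continuous (fun ξ : E N => hat β h g ξ) := by
  have h1 : Continuous (fun ξ : E N => (g, ξ)) := by fun_prop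
  have h2 := (hat_continuous (N := N) hβ hh).comp h1
  exact h2

private theorem QSite_lip {f : ℝ → ℝ} {B : ℝ} (hf : ContDiff ℝ 3 f) (hB : ∀ u, |deriv f u| ≤ B)
    (x y : ℝ) : |f y - f x| ≤ B * |y - x| := by
  have := Convex.norm_image_sub_le_of_norm_deriv_le (f := f) (C := B) (s := Set.univ)
    (fun u _ => (hf.differentiable (by norm_num)).differentiableAt) (fun u _ => hB u) convex_univ
    (Set.mem_univ x) (Set.mem_univ y)
  simpa [Real.norm_eq_abs] using this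

/-- a smooth function of `log ‖hat‖` with bounded derivative is integrable -/
private theorem QSite_int {N : ℕ} {β h : ℝ} {ν : Measure (E N)} (hp : IsProbabilityMeasure ν)
    (hβ : 0 < β) (hh : 0 ≤ h) (g : E N) {K : ℝ}
    (hb : ∀ᵐ ξ ∂ν, |Real.log ‖hat β h g ξ‖ - Real.log ‖g‖| ≤ K)
    {f : ℝ → ℝ} {B : ℝ} (hf : ContDiff ℝ 3 f) (hB : ∀ u, |deriv f u| ≤ B) :
    Integrable (fun ξ => f (Real.log ‖hat β h g ξ‖)) ν := by
  have hm : Measurable (fun ξ : E N => f (Real.log ‖hat β h g ξ‖)) :=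
    hf.continuous.measurable.comp
      (Real.measurable_log.comp (QSite_hatm hβ hh g).norm.measurable)
  have hB0 : 0 ≤ B := (abs_nonneg _).trans (hB 0)
  refine Integrable.of_bound hm.aestronglyMeasurable (|f (Real.log ‖g‖)| + B * K) ?_
  filter_upwards [hb] with ξ hξ
  have h1 := QSite_lip hf hB (Real.log ‖g‖) (Real.log ‖hat β h g ξ‖)
  have h2 : B * |Real.log ‖hat β h g ξ‖ - Real.log ‖g‖| ≤ B * K :=
    mul_le_mul_of_nonneg_left hξ hB0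
  rw [Real.norm_eq_abs]
  have h3 := abs_add_le (f (Real.log ‖hat β h g ξ‖) - f (Real.log ‖g‖)) (f (Real.log ‖g‖))
  rw [sub_add_cancel] at h3
  linarith

/-- `log ‖hat‖ - log ‖g‖` and its square are integrable -/
private theorem QSite_intlog {N : ℕ} {β h : ℝ} {ν : Measure (E N)} (hp : IsProbabilityMeasure ν)
    (hβ : 0 < β) (hh : 0 ≤ h) (g : E N) {K : ℝ}
    (hb : ∀ᵐ ξ ∂ν, |Real.log ‖hat β h g ξ‖ - Real.log ‖g‖| ≤ K) :
    Integrable (fun ξ => Real.log ‖hat β h g ξ‖ - Real.log ‖g‖) ν ∧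
      Integrable (fun ξ => (Real.log ‖hat β h g ξ‖ - Real.log ‖g‖) ^ 2) ν := by
  have hm : Measurable (fun ξ : E N => Real.log ‖hat β h g ξ‖ - Real.log ‖g‖) :=
    (Real.measurable_log.comp (QSite_hatm hβ hh g).norm.measurable).sub_const _
  refine ⟨Integrable.of_bound hm.aestronglyMeasurable K hb,
    Integrable.of_bound (hm.pow_const 2).aestronglyMeasurable (K ^ 2) ?_⟩
  filter_upwards [hb] with ξ hξ
  rw [Real.norm_eq_abs, abs_pow]
  exact pow_le_pow_left₀ (abs_nonneg _) hξ 2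

theorem qsite (N : ℕ) (β D0 : ℝ) (hN : 3 ≤ N) (hβ : 1 < β) (hD : 1 ≤ D0) :
    ∃ r2 Rc cv Cv A0 : ℝ, 0 < r2 ∧ r2 < 1 ∧ 1 ≤ Rc ∧ 0 < cv ∧ 0 < Cv ∧ D0 * Cv ≤ cv ∧ 6 ≤ A0 ∧
      6 / A0 ≤ r2 ∧
      ∀ A, A0 ≤ A → ∃ CM : ℝ, 1 ≤ CM ∧ ∃ C2 h0 : ℝ, 0 < C2 ∧ 0 < h0 ∧
        ∀ (h : ℝ) (ν : Measure (E N)), 0 < h → h < h0 → IsNoise h ν →
        ∀ g w : E N, ‖g‖ ≤ rad β h →
        (h * (Low A r2 Rc cv Cv ‖g‖ - (N - 2) + 2 * ‖g‖ ^ β) - CM * ‖w‖ - C2 * h ^ (9 / 8 : ℝ) ≤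
          ∫ ξ, (Real.log (mm N β (1 / A) Rc ‖hat β h g ξ + w‖)
            - Real.log (mm N β (1 / A) Rc ‖g‖)) ∂ν) ∧
        (‖g‖ ≤ 1 → -(CM * h * ‖g‖) - CM * ‖w‖ - C2 * h ^ (9 / 8 : ℝ) ≤
          ∫ ξ, (Real.log (mm N β (1 / A) Rc ‖hat β h g ξ + w‖)
            - Real.log (mm N β (1 / A) Rc ‖g‖)) ∂ν) ∧
        (∀ᵐ ξ ∂ν, |Real.log (mm N β (1 / A) Rc ‖hat β h g ξ + w‖)
            - Real.log (mm N β (1 / A) Rc ‖g‖)| ≤ CM * (h ^ (3 / 8 : ℝ) + ‖w‖)) ∧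
        ∫ ξ, (Real.log (mm N β (1 / A) Rc ‖hat β h g ξ + w‖)
            - Real.log (mm N β (1 / A) Rc ‖g‖)) ^ 2 ∂ν ≤ CM * (h + ‖w‖ ^ 2) := by
  have hβ0 : 0 < β := by linarith
  obtain ⟨A1, hA1, H1⟩ := MM_bounds N β hN hβ
  obtain ⟨A2, hA2, H2⟩ := MM_small N β hN hβ
  obtain ⟨r2, Rc, cv, Cv, A3, hr2, hr21, hRc, hcv, hCv, hDC, hA3, hAr, H3⟩ := qpot N β D0 hN hβ hD
  obtain ⟨C1, h1, hC1, hh1, U1⟩ := ugen N β (by omega) hβ0
  obtain ⟨C3, h3, hC3, hh3, U3⟩ := ugen_log N β (by omega) hβ0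
  obtain ⟨h4, hh4, hh41, U4⟩ := hat_bounds N β hβ0
  refine ⟨r2, Rc, cv, Cv, max (max A1 A2) A3, hr2, hr21, hRc, hcv, hCv, hDC,
    le_trans hA3 (le_max_right _ _), ?_, ?_⟩
  · refine le_trans ?_ hAr
    exact div_le_div_of_nonneg_left (by norm_num) (by linarith) (le_max_right _ _)
  intro A hA
  have hAA1 : A1 ≤ A := le_trans (le_trans (le_max_left _ _) (le_max_left _ _)) hA
  have hAA2 : A2 ≤ A := le_trans (le_trans (le_max_right _ _) (le_max_left _ _)) hA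
  have hAA3 : A3 ≤ A := le_trans (le_max_right _ _) hA
  obtain ⟨hMp, hmm, -, -, -, L, hL, HL⟩ := H1 A Rc hAA1 hRc
  obtain ⟨hGd, M2, hM2, HM, HM0⟩ := H2 A Rc hAA2 hRc
  obtain ⟨B, hLd, HB, HLow⟩ := H3 A hAA3
  have hB0 : 0 ≤ B := (abs_nonneg _).trans (HB 0).1
  have hN3 : (3 : ℝ) ≤ N := by exact_mod_cast hN
  have hNM : 0 ≤ (N : ℝ) * M2 := by positivity
  have hL2 : 0 ≤ L ^ 2 := sq_nonneg L
  have hM22 : 0 ≤ M2 ^ 2 := sq_nonneg M2
  have hCB : 0 ≤ C1 * B := by positivity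
  have hCM2 : 0 ≤ C1 * M2 := by positivity
  set CM : ℝ := 1 + L + 3 * M2 + 2 * L ^ 2 + 4 * M2 ^ 2 + N * M2 with hCM
  set C2 : ℝ := 1 + C1 * M2 + C1 * B + 2 * C3 with hC2
  have hCMp : 0 ≤ CM := by rw [hCM]; linarith
  refine ⟨CM, by rw [hCM]; linarith, C2, min (min (min h1 h3) h4) ((1 / C3) ^ 8),
    by rw [hC2]; linarith, by positivity, ?_⟩
  intro h ν hh hlt hν g w hg
  have hp : IsProbabilityMeasure ν := hν.prob
  have hlt1 : h < h1 := lt_of_lt_of_le hlt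
    ((min_le_left _ _).trans ((min_le_left _ _).trans (min_le_left _ _)))
  have hlt3 : h < h3 := lt_of_lt_of_le hlt
    ((min_le_left _ _).trans ((min_le_left _ _).trans (min_le_right _ _)))
  have hlt4 : h < h4 := lt_of_lt_of_le hlt ((min_le_left _ _).trans (min_le_right _ _))
  have hlt5 : h < (1 / C3) ^ 8 := lt_of_lt_of_le hlt (min_le_right _ _)
  have hw0 : 0 ≤ ‖w‖ := norm_nonneg w
  have hg0 : 0 ≤ ‖g‖ := norm_nonneg g
  have h98 : 0 ≤ h ^ (9 / 8 : ℝ) := by positivity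
  have h38 : 0 ≤ h ^ (3 / 8 : ℝ) := by positivity
  have hC2h : 0 ≤ C2 * h ^ (9 / 8 : ℝ) := by
    apply mul_nonneg _ h98
    rw [hC2]; linarith
  have h98' : C3 * h ^ (9 / 8 : ℝ) ≤ h := by
    have e1 : h ^ (9 / 8 : ℝ) = h * h ^ (1 / 8 : ℝ) := by
      rw [show (9 / 8 : ℝ) = 1 + 1 / 8 by norm_num, Real.rpow_add hh, Real.rpow_one]
    have e2 : h ^ (1 / 8 : ℝ) ≤ 1 / C3 := by
      have e3 : h ^ (1 / 8 : ℝ) ≤ ((1 / C3) ^ 8) ^ (1 / 8 : ℝ) :=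
        Real.rpow_le_rpow hh.le hlt5.le (by norm_num)
      rw [← Real.rpow_natCast, ← Real.rpow_mul (by positivity)] at e3
      norm_num at e3 ⊢
      exact e3
    rw [e1]
    calc C3 * (h * h ^ (1 / 8 : ℝ)) ≤ C3 * (h * (1 / C3)) := by gcongr
      _ = h := by field_simp
  -- the function of the norm
  set F : ℝ → ℝ := fun r => Real.log (mm N β (1 / A) Rc r) with hF
  have hFc : Continuous (fun v : E N => F ‖v‖) := by
    have : LipschitzWith (Real.toNNReal L) (fun v : E N => F ‖v‖) := by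
      refine LipschitzWith.of_dist_le_mul fun v v' => ?_
      rw [Real.dist_eq, Real.coe_toNNReal L hL.le]
      refine (HL _ _ (norm_nonneg v) (norm_nonneg v')).trans ?_
      gcongr
      rw [dist_eq_norm]
      exact abs_norm_sub_norm_le v v'
    exact this.continuous
  have hsh : ∀ v : E N, |F ‖v + w‖ - F ‖v‖| ≤ L * ‖w‖ := by
    intro v
    refine (HL _ _ (norm_nonneg _) (norm_nonneg _)).trans ?_
    gcongr
    have := abs_norm_sub_norm_le (v + w) v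
    simpa using this
  have hCML : L ≤ CM := by rw [hCM]; linarith
  have hCMLw : L * ‖w‖ ≤ CM * ‖w‖ := by gcongr
  by_cases hg00 : g = 0
  · -- `g = 0`
    subst hg00
    have hX : ∀ ξ : E N, hat β h (0 : E N) ξ = 0 := fun ξ => hat_zero β h ξ
    have hI : |F ‖w‖ - F ‖(0 : E N)‖| ≤ L * ‖w‖ := by
      have := hsh 0
      simpa using this
    have hI1 := (abs_le.1 hI).1
    have hint : ∫ ξ, (F ‖hat β h (0 : E N) ξ + w‖ - F ‖(0 : E N)‖) ∂ν = F ‖w‖ - F ‖(0 : E N)‖ := by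
      simp only [hX, zero_add]
      simp
    refine ⟨?_, ?_, ?_, ?_⟩
    · rw [hint]
      have hlow : Low A r2 Rc cv Cv ‖(0 : E N)‖ = 1 / 24 := by
        unfold Low
        rw [if_pos]
        rw [norm_zero]
        have : 0 < A := by linarith
        positivity
      rw [hlow, norm_zero, Real.zero_rpow hβ0.ne']
      have : h * (1 / 24 - ((N : ℝ) - 2) + 2 * 0) ≤ 0 := by
        apply mul_nonpos_of_nonneg_of_nonpos hh.le
        linarith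
      rw [norm_zero] at hI1
      linarith
    · intro _
      rw [hint, norm_zero, mul_zero]
      rw [norm_zero] at hI1
      linarith
    · refine Filter.Eventually.of_forall fun ξ => ?_
      rw [hX ξ, zero_add]
      refine hI.trans ?_
      have : 0 ≤ CM * h ^ (3 / 8 : ℝ) := by positivity
      linarith
    · have hint2 : ∫ ξ, (F ‖hat β h (0 : E N) ξ + w‖ - F ‖(0 : E N)‖) ^ 2 ∂ν
          = (F ‖w‖ - F ‖(0 : E N)‖) ^ 2 := by
        simp only [hX, zero_add]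
        simp
      rw [hint2, ← sq_abs]
      have e1 : |F ‖w‖ - F ‖(0 : E N)‖| ^ 2 ≤ (L * ‖w‖) ^ 2 :=
        pow_le_pow_left₀ (abs_nonneg _) hI 2
      have e2 : L ^ 2 * ‖w‖ ^ 2 ≤ CM * ‖w‖ ^ 2 := by
        gcongr
        rw [hCM]; linarith
      have e3 : 0 ≤ CM * h := by positivity
      calc _ ≤ (L * ‖w‖) ^ 2 := e1
        _ = L ^ 2 * ‖w‖ ^ 2 := by ring
        _ ≤ CM * (h + ‖w‖ ^ 2) := by linarith
  · -- `g ≠ 0`
    have hgp : 0 < ‖g‖ := norm_pos_iff.2 hg00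
    have hat := U4 h ν hh hlt4 hν g hg
    set X : E N → E N := fun ξ => Dyn.hat β h g ξ with hXd
    have hXc : Continuous X := QSite_hatm hβ0 hh.le g
    have hb : ∀ᵐ ξ ∂ν, |Real.log ‖X ξ‖ - Real.log ‖g‖| ≤ 3 * h ^ (3 / 8 : ℝ) := by
      filter_upwards [hat] with ξ hξ
      exact hξ.2.2.2.1 hg00
    have hXp : ∀ᵐ ξ ∂ν, 0 < ‖X ξ‖ := by
      filter_upwards [hat] with ξ hξ
      have e1 := hξ.2.1
      have e2 := hξ.2.2.2.2
      have : 0 < (1 - 2 * h ^ (3 / 8 : ℝ)) * ‖g‖ := by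
        apply mul_pos _ hgp
        linarith
      exact lt_of_lt_of_le this e1
    obtain ⟨hi1, hi2⟩ := QSite_intlog hp hβ0 hh.le g hb
    -- `G(u) = F(e^u)`
    set G : ℝ → ℝ := fun u => Real.log (mm N β (1 / A) Rc (Real.exp u)) with hG
    have hGF : ∀ r, 0 < r → G (Real.log r) = F r := by
      intro r hr
      simp only [hG, hF, Real.exp_log hr]
    have hGL : ∀ u, G u = LamU N β A Rc u - 2 * u := by
      intro u
      simp only [hG, LamU, mm]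
      rw [Real.log_zpow]
      push_cast
      ring
    have hGlip := QSite_lip hGd (fun u => (HM u).1)
    have hGi : Integrable (fun ξ => G (Real.log ‖X ξ‖)) ν :=
      QSite_int hp hβ0 hh.le g hb hGd (fun u => (HM u).1)
    have hLi : Integrable (fun ξ => LamU N β A Rc (Real.log ‖X ξ‖)) ν :=
      QSite_int hp hβ0 hh.le g hb hLd (fun u => (HB u).1)
    have hsecond : ∀ᵐ ξ ∂ν, |F ‖X ξ‖ - F ‖g‖| ≤ M2 * |Real.log ‖X ξ‖ - Real.log ‖g‖| := by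
      filter_upwards [hXp] with ξ hξ
      rw [← hGF _ hξ, ← hGF _ hgp]
      exact hGlip _ _
    have hIb : ∀ᵐ ξ ∂ν, |F ‖X ξ + w‖ - F ‖g‖| ≤ CM * (h ^ (3 / 8 : ℝ) + ‖w‖) := by
      filter_upwards [hsecond, hb] with ξ h5 h6
      have h7 := hsh (X ξ)
      have h8 : M2 * |Real.log ‖X ξ‖ - Real.log ‖g‖| ≤ M2 * (3 * h ^ (3 / 8 : ℝ)) := by gcongr
      have h9 : 3 * M2 * h ^ (3 / 8 : ℝ) ≤ CM * h ^ (3 / 8 : ℝ) := by
        gcongr
        rw [hCM]; linarith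
      calc |F ‖X ξ + w‖ - F ‖g‖| = |(F ‖X ξ + w‖ - F ‖X ξ‖) + (F ‖X ξ‖ - F ‖g‖)| := by
            congr 1; ring
        _ ≤ |F ‖X ξ + w‖ - F ‖X ξ‖| + |F ‖X ξ‖ - F ‖g‖| := abs_add_le _ _
        _ ≤ CM * (h ^ (3 / 8 : ℝ) + ‖w‖) := by linarith
    have hmI : Measurable (fun ξ => F ‖X ξ + w‖ - F ‖g‖) :=
      ((hFc.comp (hXc.add continuous_const)).measurable).sub_const _
    have hII : Integrable (fun ξ => F ‖X ξ + w‖ - F ‖g‖) ν :=
      Integrable.of_bound hmI.aestronglyMeasurable _ hIb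
    have hFi : Integrable (fun ξ => F ‖X ξ‖ - F ‖g‖) ν := by
      refine (hGi.sub (integrable_const (F ‖g‖))).congr ?_
      filter_upwards [hXp] with ξ hξ
      simp only [Pi.sub_apply]
      rw [hGF _ hξ]
    -- lower bound by the case `w = 0`
    have hlow : ∫ ξ, (F ‖X ξ‖ - F ‖g‖) ∂ν - L * ‖w‖ ≤ ∫ ξ, (F ‖X ξ + w‖ - F ‖g‖) ∂ν := by
      have e1 : ∫ ξ, ((F ‖X ξ‖ - F ‖g‖) - L * ‖w‖) ∂ν
          = ∫ ξ, (F ‖X ξ‖ - F ‖g‖) ∂ν - L * ‖w‖ := by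
        rw [integral_sub hFi (integrable_const _)]
        simp
      rw [← e1]
      refine integral_mono (hFi.sub (integrable_const _)) hII fun ξ => ?_
      have := (abs_le.1 (hsh (X ξ))).1
      simp only
      linarith
    have hFG : ∫ ξ, (F ‖X ξ‖ - F ‖g‖) ∂ν = ∫ ξ, G (Real.log ‖X ξ‖) ∂ν - G (Real.log ‖g‖) := by
      have e1 : ∫ ξ, (F ‖X ξ‖ - F ‖g‖) ∂ν = ∫ ξ, (G (Real.log ‖X ξ‖) - G (Real.log ‖g‖)) ∂ν := by
        refine integral_congr_ae ?_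
        filter_upwards [hXp] with ξ hξ
        rw [hGF _ hξ, hGF _ hgp]
      rw [e1, integral_sub hGi (integrable_const _)]
      simp
    refine ⟨?_, ?_, hIb, ?_⟩
    · -- first statement
      have u1 := U1 h ν hh hlt1 hν g hg00 hg (LamU N β A Rc) B hLd (fun u => (HB u).1)
        (fun u => (HB u).2.1) (fun u => (HB u).2.2)
      have u2 := HLow (Real.log ‖g‖)
      rw [Real.exp_log hgp] at u2
      have u3 := (U3 h ν hh hlt3 hν g hg00 hg).1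
      have e1 : ∫ ξ, G (Real.log ‖X ξ‖) ∂ν - G (Real.log ‖g‖)
          = (∫ ξ, LamU N β A Rc (Real.log ‖X ξ‖) ∂ν - LamU N β A Rc (Real.log ‖g‖))
            - 2 * ∫ ξ, (Real.log ‖X ξ‖ - Real.log ‖g‖) ∂ν := by
        have e2 : ∫ ξ, G (Real.log ‖X ξ‖) ∂ν
            = ∫ ξ, (LamU N β A Rc (Real.log ‖X ξ‖)
              - (2 * (Real.log ‖X ξ‖ - Real.log ‖g‖) + 2 * Real.log ‖g‖)) ∂ν := by
          refine integral_congr_ae (Filter.Eventually.of_forall fun ξ => ?_)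
          simp only [hGL]
          ring
        have hi1' : Integrable (fun ξ => 2 * (Real.log ‖X ξ‖ - Real.log ‖g‖)) ν :=
          hi1.const_mul 2
        have hi1'' : Integrable (fun ξ => 2 * (Real.log ‖X ξ‖ - Real.log ‖g‖)
            + 2 * Real.log ‖g‖) ν := hi1'.add (integrable_const _)
        have e3 : ∫ ξ, (2 * (Real.log ‖X ξ‖ - Real.log ‖g‖)) ∂ν
            = 2 * ∫ ξ, (Real.log ‖X ξ‖ - Real.log ‖g‖) ∂ν := integral_const_mul _ _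
        have e4 : ∫ _ξ : E N, (2 * Real.log ‖g‖) ∂ν = 2 * Real.log ‖g‖ := by simp
        rw [e2, integral_sub hLi hi1'', integral_add hi1' (integrable_const _), e3, e4, hGL]
        ring
      rw [hFG, e1] at hlow
      have u1' := (abs_le.1 u1).1
      have u3' := (abs_le.1 u3).2
      have u4 : h * Low A r2 Rc cv Cv ‖g‖ ≤ h * (1 / 2 * iteratedDeriv 2 (LamU N β A Rc)
          (Real.log ‖g‖) + (1 / 2 * (N - 2) - ‖g‖ ^ β) * deriv (LamU N β A Rc)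
          (Real.log ‖g‖)) := by gcongr
      have e3 : C2 * h ^ (9 / 8 : ℝ) = h ^ (9 / 8 : ℝ) + C1 * M2 * h ^ (9 / 8 : ℝ)
          + C1 * B * h ^ (9 / 8 : ℝ) + 2 * (C3 * h ^ (9 / 8 : ℝ)) := by
        rw [hC2]; ring
      have e4 : 0 ≤ C1 * M2 * h ^ (9 / 8 : ℝ) := by positivity
      linarith [u1', u3', u4, e3, e4, hlow, hCMLw, h98]
    · intro hg1
      have u1 := U1 h ν hh hlt1 hν g hg00 hg G M2 hGd (fun u => (HM u).1)
        (fun u => (HM u).2.1) (fun u => (HM u).2.2)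
      have hlog : Real.log ‖g‖ ≤ 0 := Real.log_nonpos hgp.le hg1
      obtain ⟨m1, m2⟩ := HM0 (Real.log ‖g‖) hlog
      rw [Real.exp_log hgp] at m1 m2
      rw [hFG] at hlow
      have u1' := (abs_le.1 u1).1
      have hgβ : ‖g‖ ^ β ≤ 1 := Real.rpow_le_one hgp.le hg1 hβ0.le
      have hgβ0 : 0 ≤ ‖g‖ ^ β := Real.rpow_nonneg hgp.le _
      have e1 : |(1 / 2 * ((N : ℝ) - 2) - ‖g‖ ^ β) * deriv G (Real.log ‖g‖)|
          ≤ (1 / 2 * ((N : ℝ) - 2) + 1) * (M2 * ‖g‖) := by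
        rw [abs_mul]
        apply mul_le_mul _ m1 (abs_nonneg _) (by linarith)
        rw [abs_le]
        constructor <;> linarith
      have e2 := (abs_le.1 e1).1
      have e3 := (abs_le.1 m2).1
      have hMg : 0 ≤ M2 * ‖g‖ := by positivity
      have e4 : -(N * (M2 * ‖g‖)) ≤ 1 / 2 * iteratedDeriv 2 G (Real.log ‖g‖)
          + (1 / 2 * ((N : ℝ) - 2) - ‖g‖ ^ β) * deriv G (Real.log ‖g‖) := by
        nlinarith [e2, e3, hMg, hN3]
      have e5 : h * -(N * (M2 * ‖g‖)) ≤ h * (1 / 2 * iteratedDeriv 2 G (Real.log ‖g‖)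
          + (1 / 2 * ((N : ℝ) - 2) - ‖g‖ ^ β) * deriv G (Real.log ‖g‖)) := by gcongr
      have e6 : (N : ℝ) * M2 * (h * ‖g‖) ≤ CM * (h * ‖g‖) := by
        gcongr
        rw [hCM]; linarith
      have e7 : C2 * h ^ (9 / 8 : ℝ) = h ^ (9 / 8 : ℝ) + C1 * M2 * h ^ (9 / 8 : ℝ)
          + C1 * B * h ^ (9 / 8 : ℝ) + 2 * (C3 * h ^ (9 / 8 : ℝ)) := by
        rw [hC2]; ring
      have e8 : 0 ≤ C1 * B * h ^ (9 / 8 : ℝ) := by positivity
      have e9 : 0 ≤ C3 * h ^ (9 / 8 : ℝ) := by positivity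
      linarith [u1', e5, e6, e7, e8, e9, hlow, hCMLw, h98]
    · -- second moment
      have hδ2 : ∫ ξ, (Real.log ‖X ξ‖ - Real.log ‖g‖) ^ 2 ∂ν ≤ 2 * h := by
        have u3 := (abs_le.1 (U3 h ν hh hlt3 hν g hg00 hg).2).2
        have : ∫ ξ, (Real.log ‖X ξ‖ - Real.log ‖g‖) ^ 2 ∂ν ≤ h + C3 * h ^ (9 / 8 : ℝ) := by
          linarith
        linarith
      have hbd : ∀ᵐ ξ ∂ν, (F ‖X ξ + w‖ - F ‖g‖) ^ 2 ≤
          2 * L ^ 2 * ‖w‖ ^ 2 + 2 * M2 ^ 2 * (Real.log ‖X ξ‖ - Real.log ‖g‖) ^ 2 := by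
        filter_upwards [hsecond] with ξ h5
        have h7 := hsh (X ξ)
        have h8 : (F ‖X ξ + w‖ - F ‖X ξ‖) ^ 2 ≤ (L * ‖w‖) ^ 2 := by
          rw [← sq_abs]
          exact pow_le_pow_left₀ (abs_nonneg _) h7 2
        have h9 : (F ‖X ξ‖ - F ‖g‖) ^ 2 ≤ (M2 * |Real.log ‖X ξ‖ - Real.log ‖g‖|) ^ 2 := by
          rw [← sq_abs]
          exact pow_le_pow_left₀ (abs_nonneg _) h5 2
        rw [mul_pow, sq_abs] at h9
        nlinarith [sq_nonneg ((F ‖X ξ + w‖ - F ‖X ξ‖) - (F ‖X ξ‖ - F ‖g‖)), h8, h9]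
      have hi3 : Integrable (fun ξ => 2 * L ^ 2 * ‖w‖ ^ 2
          + 2 * M2 ^ 2 * (Real.log ‖X ξ‖ - Real.log ‖g‖) ^ 2) ν :=
        (integrable_const _).add (hi2.const_mul _)
      have e1 := integral_mono_of_nonneg
        (Filter.Eventually.of_forall fun ξ => sq_nonneg (F ‖X ξ + w‖ - F ‖g‖)) hi3 hbd
      refine e1.trans ?_
      have hi2' : Integrable (fun ξ => 2 * M2 ^ 2 * (Real.log ‖X ξ‖ - Real.log ‖g‖) ^ 2) ν :=
        hi2.const_mul _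
      have e5 : ∫ ξ, (2 * M2 ^ 2 * (Real.log ‖X ξ‖ - Real.log ‖g‖) ^ 2) ∂ν
          = 2 * M2 ^ 2 * ∫ ξ, (Real.log ‖X ξ‖ - Real.log ‖g‖) ^ 2 ∂ν := integral_const_mul _ _
      have e6 : ∫ _ξ : E N, (2 * L ^ 2 * ‖w‖ ^ 2) ∂ν = 2 * L ^ 2 * ‖w‖ ^ 2 := by simp
      rw [integral_add (integrable_const _) hi2', e5, e6]
      have e2 : 2 * L ^ 2 * ‖w‖ ^ 2 ≤ CM * ‖w‖ ^ 2 := by
        gcongr
        rw [hCM]; linarith
      have e3 : 2 * M2 ^ 2 * ∫ ξ, (Real.log ‖X ξ‖ - Real.log ‖g‖) ^ 2 ∂ν ≤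
          2 * M2 ^ 2 * (2 * h) := by gcongr
      have e4 : 4 * M2 ^ 2 * h ≤ CM * h := by
        gcongr
        rw [hCM]; linarith
      linarith

end Dyn
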