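import Pool.Agent.Lib_MP_36b788.Base
import Pool.Agent.Lib_MP_36b788.LSFin
import Pool.Agent.Lib_MP_36b788.LSY
import Pool.Agent.Lib_MP_36b788.LSYs
import Pool.Agent.Lib_MP_36b788.QSite
import Pool.Agent.Lib_MP_36b788.CorrEx
import Pool.Agent.Lib_MP_36b788.Absl

/-!
# LSMAIN, part A: the drift inequality of `log S` for fixed data
-/

open MeasureTheory

namespace Dyn

theorem LSMain_small (K t a : ℝ) (ht : 0 < t) (ha : 0 < a) :
    ∃ h0 : ℝ, 0 < h0 ∧ ∀ h, 0 < h → h < h0 → K * h ^ a ≤ t := by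
  have hK := abs_nonneg K
  refine ⟨(t / (|K| + 1)) ^ (1 / a), Real.rpow_pos_of_pos (by positivity) _, fun h hh hlt => ?_⟩
  have h1 : h ^ a ≤ t / (|K| + 1) := by
    have := Real.rpow_le_rpow hh.le hlt.le ha.le
    rwa [← Real.rpow_mul (by positivity), one_div_mul_cancel ha.ne', Real.rpow_one] at this
  calc K * h ^ a ≤ |K| * h ^ a :=
        mul_le_mul_of_nonneg_right (le_abs_self K) (Real.rpow_nonneg hh.le _)
    _ ≤ (|K| + 1) * (t / (|K| + 1)) :=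
        mul_le_mul (by linarith) h1 (Real.rpow_nonneg hh.le _) (by linarith)
    _ = t := by field_simp

theorem LSMain_int {ι : Type} [Fintype ι] {Ω : Type} [MeasurableSpace Ω] (μ : Measure Ω)
    (W b : ι → ℝ) (f g : Ω → ι → ℝ) (hf : ∀ z, Integrable (fun ξ => f ξ z) μ)
    (hg : ∀ z, Integrable (fun ξ => g ξ z) μ) :
    Integrable (fun ξ => ∑ z, W z * (f ξ z + b z * g ξ z)) μ ∧
      ∫ ξ, ∑ z, W z * (f ξ z + b z * g ξ z) ∂μ =
        ∑ z, W z * (∫ ξ, f ξ z ∂μ + b z * ∫ ξ, g ξ z ∂μ) := by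
  have h1 : ∀ z, Integrable (fun ξ => f ξ z + b z * g ξ z) μ := fun z =>
    (hf z).add ((hg z).const_mul _)
  have h2 : ∀ z, Integrable (fun ξ => W z * (f ξ z + b z * g ξ z)) μ := fun z =>
    (h1 z).const_mul _
  refine ⟨integrable_finsetSum _ fun z _ => h2 z, ?_⟩
  rw [integral_finsetSum _ fun z _ => h2 z]
  refine Finset.sum_congr rfl fun z _ => ?_
  rw [integral_const_mul, integral_add (hf z) ((hg z).const_mul _), integral_const_mul]

theorem LSMain_core {N : ℕ} {ι : Type} [Fintype ι] {Ω : Type} [MeasurableSpace Ω] (μ : Measure Ω)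
    [IsProbabilityMeasure μ] (W : ι → ℝ) (Y : ι → E N) (T : Ω → ι → E N) (lam : Ω → ι → ℝ)
    (S ε BT : ℝ) (hW : ∀ z, 0 ≤ W z) (hS : S = ∑ z, W z * ‖Y z‖ ^ 2) (hSpos : 0 < S)
    (hε0 : 0 ≤ ε) (hε : ε * (100 * Fintype.card ι) ≤ 1)
    (hTm : ∀ z, Measurable fun ξ => T ξ z) (hlm : ∀ z, Measurable fun ξ => lam ξ z)
    (hTb : ∀ᵐ ξ ∂μ, ∀ z, ‖T ξ z‖ ≤ BT)
    (hT : ∀ᵐ ξ ∂μ, ∀ z, W z * ‖T ξ z‖ ^ 2 ≤ ε ^ 2 * S) (hl : ∀ᵐ ξ ∂μ, ∀ z, |lam ξ z| ≤ ε) :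
    ∃ L : Ω → ℝ, Measurable L ∧
      (∀ᵐ ξ ∂μ, |L ξ| ≤ 1 ∧ 0 < ∑ z, W z * Real.exp (lam ξ z) * ‖Y z + T ξ z‖ ^ 2 ∧
        L ξ ≤ Real.log (∑ z, W z * Real.exp (lam ξ z) * ‖Y z + T ξ z‖ ^ 2) - Real.log S) ∧
      (∫ ξ, L ξ ∂μ = 1 / S * ∑ z, W z * (∫ ξ, (2 * inner ℝ (Y z) (T ξ z) + ‖T ξ z‖ ^ 2
          - 2 * (inner ℝ (uni (Y z)) (T ξ z)) ^ 2) ∂μ + ‖Y z‖ ^ 2 * ∫ ξ, lam ξ z ∂μ)
          - 1000 * (Fintype.card ι : ℝ) ^ 3 * ε ^ 3) ∧
      ∫ ξ, L ξ ^ 2 ∂μ ≤ 60 * (1 / S) * ∑ z, W z * (∫ ξ, ‖T ξ z‖ ^ 2 ∂μ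
          + ‖Y z‖ ^ 2 * ∫ ξ, lam ξ z ^ 2 ∂μ)
          + 2 * (1000 * (Fintype.card ι : ℝ) ^ 3 * ε ^ 3) ^ 2 := by
  obtain ⟨c, hc⟩ : ∃ c : ℝ, c = 1000 * (Fintype.card ι : ℝ) ^ 3 * ε ^ 3 := ⟨_, rfl⟩
  obtain ⟨q, hq⟩ : ∃ q : Ω → ι → ℝ, q = fun ξ z => 2 * inner ℝ (Y z) (T ξ z) + ‖T ξ z‖ ^ 2
          - 2 * (inner ℝ (uni (Y z)) (T ξ z)) ^ 2 := ⟨_, rfl⟩
  obtain ⟨a, ha⟩ : ∃ a : Ω → ℝ, a = fun ξ => 1 / S * ∑ z, W z * (q ξ z + ‖Y z‖ ^ 2 * lam ξ z) :=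
    ⟨_, rfl⟩
  have hinm : ∀ (v : E N) (z : ι), Measurable fun ξ => inner ℝ v (T ξ z) := fun v z =>
    measurable_const.inner (hTm z)
  have hnm : ∀ z : ι, Measurable fun ξ => ‖T ξ z‖ ^ 2 := fun z => (hTm z).norm.pow_const 2
  have hqm : ∀ z, Measurable fun ξ => q ξ z := by
    intro z
    rw [hq]
    exact (((hinm _ z).const_mul 2).add (hnm z)).sub (((hinm _ z).pow_const 2).const_mul 2)
  have ham : Measurable a := by
    rw [ha]
    exact (Finset.measurable_sum _ fun z _ => ((hqm z).add ((hlm z).const_mul _)).const_mul _).const_mul _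
  have hn : (0 : ℝ) ≤ (Fintype.card ι : ℝ) := Nat.cast_nonneg _
  have hnε : (Fintype.card ι : ℝ) * ε ≤ 1 / 100 := by nlinarith
  have hnε0 : 0 ≤ (Fintype.card ι : ℝ) * ε := mul_nonneg hn hε0
  have hc0 : 0 ≤ c := by rw [hc]; positivity
  have hc1 : c ≤ 1 / 1000 := by
    have h1 : c = 1000 * ((Fintype.card ι : ℝ) * ε) ^ 3 := by rw [hc]; ring
    rw [h1]
    have h2 : ((Fintype.card ι : ℝ) * ε) ^ 3 ≤ (1 / 100) ^ 3 := by gcongr
    nlinarith
  have hsq : ∀ᵐ ξ ∂μ, |a ξ| ≤ 6 * (Fintype.card ι : ℝ) * ε ∧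
      a ξ ^ 2 ≤ 30 * (1 / S) * ∑ z, W z * (‖T ξ z‖ ^ 2 + ‖Y z‖ ^ 2 * lam ξ z ^ 2) := by
    filter_upwards [hT, hl] with ξ h1 h2
    have h3 := abs_sq W (lam ξ) Y (T ξ) S ε hW hS hSpos hε0 hε h1 h2
    rw [ha, hq]
    exact h3
  have hlog : ∀ᵐ ξ ∂μ, 0 < ∑ z, W z * Real.exp (lam ξ z) * ‖Y z + T ξ z‖ ^ 2 ∧
      a ξ - c ≤ Real.log (∑ z, W z * Real.exp (lam ξ z) * ‖Y z + T ξ z‖ ^ 2) - Real.log S := by
    filter_upwards [hT, hl] with ξ h1 h2
    have h3 := abs_log W (lam ξ) Y (T ξ) S ε hW hS hSpos hε0 hε h1 h2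
    rw [ha, hq, hc]
    exact h3
  have hTi : ∀ z, Integrable (fun ξ => ‖T ξ z‖ ^ 2) μ := by
    intro z
    refine Integrable.of_bound (hnm z).aestronglyMeasurable (BT ^ 2) ?_
    filter_upwards [hTb] with ξ h1
    rw [Real.norm_of_nonneg (by positivity)]
    exact pow_le_pow_left₀ (norm_nonneg _) (h1 z) 2
  have hli : ∀ z, Integrable (fun ξ => lam ξ z) μ := by
    intro z
    refine Integrable.of_bound (hlm z).aestronglyMeasurable ε ?_
    filter_upwards [hl] with ξ h1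
    rw [Real.norm_eq_abs]
    exact h1 z
  have hl2i : ∀ z, Integrable (fun ξ => lam ξ z ^ 2) μ := by
    intro z
    refine Integrable.of_bound ((hlm z).pow_const 2).aestronglyMeasurable (ε ^ 2) ?_
    filter_upwards [hl] with ξ h1
    rw [Real.norm_of_nonneg (by positivity), ← sq_abs]
    exact pow_le_pow_left₀ (abs_nonneg _) (h1 z) 2
  have hqi : ∀ z, Integrable (fun ξ => q ξ z) μ := by
    intro z
    refine Integrable.of_bound (hqm z).aestronglyMeasurable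
      (2 * (‖Y z‖ * BT) + BT ^ 2 + 2 * (‖uni (Y z)‖ * BT) ^ 2) ?_
    filter_upwards [hTb] with ξ h1
    have h2 : ∀ v : E N, |inner ℝ v (T ξ z)| ≤ ‖v‖ * BT := fun v =>
      (abs_real_inner_le_norm v (T ξ z)).trans (mul_le_mul_of_nonneg_left (h1 z) (norm_nonneg _))
    have h3 : ‖T ξ z‖ ^ 2 ≤ BT ^ 2 := pow_le_pow_left₀ (norm_nonneg _) (h1 z) 2
    have h4 : (inner ℝ (uni (Y z)) (T ξ z)) ^ 2 ≤ (‖uni (Y z)‖ * BT) ^ 2 := by
      rw [← sq_abs (inner ℝ (uni (Y z)) (T ξ z))]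
      exact pow_le_pow_left₀ (abs_nonneg _) (h2 _) 2
    have h5 := h2 (Y z)
    rw [abs_le] at h5
    rw [hq, Real.norm_eq_abs, abs_le]
    simp only
    have h6 : 0 ≤ ‖T ξ z‖ ^ 2 := by positivity
    have h7 : 0 ≤ (inner ℝ (uni (Y z)) (T ξ z)) ^ 2 := by positivity
    constructor <;> linarith
  have hai : Integrable a μ := by
    rw [ha]
    exact (integrable_finsetSum _ fun z _ => ((hqi z).add ((hli z).const_mul _)).const_mul _).const_mul _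
  have hLi : Integrable (fun ξ => a ξ - c) μ := hai.sub (integrable_const c)
  have hL2i : Integrable (fun ξ => (a ξ - c) ^ 2) μ := by
    refine Integrable.of_bound ((ham.sub_const c).pow_const 2).aestronglyMeasurable 1 ?_
    filter_upwards [hsq] with ξ h1
    rw [Real.norm_of_nonneg (by positivity)]
    have h2 : |a ξ - c| ≤ 1 := by
      have := h1.1
      rw [abs_le] at this ⊢
      constructor <;> nlinarith
    rw [← sq_abs]
    exact pow_le_one₀ (abs_nonneg _) h2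
  refine ⟨fun ξ => a ξ - c, ham.sub_const c, ?_, ?_, ?_⟩
  · filter_upwards [hsq, hlog] with ξ h1 h2
    refine ⟨?_, h2.1, h2.2⟩
    have := h1.1
    rw [abs_le] at this ⊢
    constructor <;> nlinarith
  · rw [integral_sub hai (integrable_const c), integral_const, probReal_univ, one_smul, ← hc]
    congr 1
    rw [ha, integral_const_mul, (LSMain_int μ W (fun z => ‖Y z‖ ^ 2) q lam hqi hli).2, hq]
  · have hri : Integrable (fun ξ => 60 * (1 / S) * (∑ z, W z * (‖T ξ z‖ ^ 2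
        + ‖Y z‖ ^ 2 * lam ξ z ^ 2)) + 2 * c ^ 2) μ :=
      ((integrable_finsetSum _ fun z _ =>
        ((hTi z).add ((hl2i z).const_mul _)).const_mul _).const_mul _).add (integrable_const _)
    have hmono : ∫ ξ, (a ξ - c) ^ 2 ∂μ ≤ ∫ ξ, (60 * (1 / S) * (∑ z, W z * (‖T ξ z‖ ^ 2
        + ‖Y z‖ ^ 2 * lam ξ z ^ 2)) + 2 * c ^ 2) ∂μ := by
      refine integral_mono_ae hL2i hri ?_
      filter_upwards [hsq] with ξ h1
      have h2 := h1.2
      nlinarith [sq_nonneg (a ξ + c)]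
    refine hmono.trans (le_of_eq ?_)
    obtain ⟨h3, h4⟩ := LSMain_int μ W (fun z => ‖Y z‖ ^ 2) (fun ξ z => ‖T ξ z‖ ^ 2)
      (fun ξ z => lam ξ z ^ 2) hTi hl2i
    rw [integral_add (h3.const_mul _) (integrable_const _), integral_const, probReal_univ,
      one_smul, integral_const_mul, h4, ← hc]

/-! measurability -/

theorem LSMain_meas_mm (N : ℕ) (β r1 Rc : ℝ) : Measurable (mm N β r1 Rc) := by
  have h1 : mm N β r1 Rc = fun r => ((MM N β r1 Rc r) ^ 4)⁻¹ := by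
    funext r
    unfold mm
    rw [zpow_neg]
    rfl
  have htt : Measurable tt := by
    unfold tt
    exact (measurable_id.pow_const _).div ((measurable_id.pow_const _).const_add 1)
  have hth : ∀ s, Measurable (th s) := by
    intro s
    unfold th
    exact ((measurable_id.const_add 1).pow_const _).const_sub 1
  have hMM : Measurable (MM N β r1 Rc) := by
    unfold MM
    exact (Real.measurable_exp.comp measurable_neg).add (Real.continuous_sqrt.measurable.mul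
      ((((htt.comp (measurable_id.div_const _)).const_mul _)).add
        ((hth _).comp (measurable_id.div_const _))))
  rw [h1]
  exact (hMM.pow_const 4).inv

theorem LSMain_meas_ctil {N : ℕ} (r1 : ℝ) {y : ℝ → ℝ} (hy : Monotone y) :
    Measurable (ctil (N := N) r1 y) := by
  have hom : Measurable (om r1) := by
    unfold om
    exact Real.smoothTransition.continuous.measurable.comp
      (Real.measurable_log.comp (measurable_id.div_const _))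
  unfold ctil
  exact (((hom.comp measurable_norm).mul (hy.measurable.comp measurable_norm)).div
    measurable_norm).smul measurable_id

theorem LSMain_meas_Yv {N d : ℕ} {ι : Type} [Fintype ι] (net : Net ι d) (k r1 : ℝ) {y : ℝ → ℝ}
    (hy : Monotone y) (z : ι) : Measurable (fun G : ι → E N => Yv net k r1 y G z) := by
  unfold Yv
  exact (measurable_pi_apply z).add ((Finset.measurable_sum _ fun w _ =>
    (LSMain_meas_ctil r1 hy).comp (measurable_pi_apply w)).const_smul k)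

theorem LSMain_meas_Hh {N d : ℕ} {ι : Type} [Fintype ι] (net : Net ι d) (β : ℝ) (z : ι) :
    Measurable (fun G : ι → E N => Hh net β G z) := by
  have hth : ∀ s, Measurable (th s) := by
    intro s
    unfold th
    exact ((measurable_id.const_add 1).pow_const _).const_sub 1
  unfold Hh
  exact Finset.measurable_sum _ fun w _ =>
    ((hth _).comp (measurable_norm.comp (measurable_pi_apply w))).const_mul _

theorem LSMain_meas_hat {N : ℕ} {β h : ℝ} (hβ : 0 < β) (hh : 0 ≤ h) (g : E N) :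
    Measurable (fun ξ : E N => hat β h g ξ) :=
  ((hat_continuous hβ hh).comp (continuous_const.prodMk continuous_id)).measurable

theorem LSMain_meas_stp {N d : ℕ} {ι : Type} [Fintype ι] (net : Net ι d) {β h : ℝ} (hβ : 0 < β)
    (hh : 0 ≤ h) (k : ℝ) (G : ι → E N) :
    Measurable (fun ξ : ι → E N => stp net β h k G ξ) := by
  rw [measurable_pi_iff]
  intro z
  unfold stp
  exact ((LSMain_meas_hat hβ hh (G z)).comp (measurable_pi_apply z)).add_const _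

/-- monotonicity of the drift term in the constant -/
theorem LSMain_GG1_mono {N d : ℕ} {ι : Type} [Fintype ι] (net : Net ι d) (β δ k A : ℝ)
    {Ca Cb : ℝ} (h0 : 0 ≤ Ca) (hab : Ca ≤ Cb) (y : ℝ → ℝ) (G U : ι → E N) (z : ι) :
    GG1 net β δ Cb (2 * Cb) k A y G U z ≤ GG1 net β δ Ca (2 * Ca) k A y G U z := by
  have h1 : 0 ≤ ∑ w ∈ net.nb z, (if 1 / (2 * A) ≤ ‖G w‖ then ‖coup net G w‖ else 0) := by
    refine Finset.sum_nonneg fun w _ => ?_
    split_ifs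
    · exact norm_nonneg _
    · exact le_rfl
  have h2 : ∀ w, nz net β δ Cb k A y G z w ≤ nz net β δ Ca k A y G z w := by
    intro w
    unfold nz
    split_ifs
    · exact le_rfl
    · have : Ca ^ 2 ≤ Cb ^ 2 := pow_le_pow_left₀ h0 hab 2
      have h4 := mul_le_mul_of_nonneg_right this (sq_nonneg ‖G w‖)
      linarith
  have h3 : ∑ w ∈ net.nb z, nz net β δ Cb k A y G z w ≤ ∑ w ∈ net.nb z, nz net β δ Ca k A y G z w :=
    Finset.sum_le_sum fun w _ => h2 w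
  have h4 := mul_le_mul_of_nonneg_left h3 (sq_nonneg k)
  have h5 : 0 ≤ k ^ 2 * ‖Yv net k (1 / A) y G z‖ *
      ∑ w ∈ net.nb z, (if 1 / (2 * A) ≤ ‖G w‖ then ‖coup net G w‖ else 0) :=
    mul_nonneg (mul_nonneg (sq_nonneg k) (norm_nonneg _)) h1
  unfold GG1
  nlinarith [mul_le_mul_of_nonneg_right hab h5]

theorem LSMain_coup {N d : ℕ} {ι : Type} [Fintype ι] (net : Net ι d) (G : ι → E N) {R : ℝ}
    (hR : 0 ≤ R) (hG : ∀ x, ‖G x‖ ≤ R) (z : ι) : ‖coup net G z‖ ≤ 4 * d * R := by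
  unfold coup
  refine (norm_sub_le _ _).trans ?_
  have h1 : ‖∑ y ∈ net.nb z, G y‖ ≤ 2 * d * R := by
    refine (norm_sum_le _ _).trans ?_
    refine (Finset.sum_le_sum fun y _ => hG y).trans ?_
    rw [Finset.sum_const, nsmul_eq_mul]
    have h2 : ((net.nb z).card : ℝ) ≤ 2 * d := by exact_mod_cast net.nb_card z
    exact mul_le_mul_of_nonneg_right h2 hR
  have h3 : ‖((2 * d : ℕ) : ℝ) • G z‖ ≤ 2 * d * R := by
    rw [norm_smul, Real.norm_of_nonneg (Nat.cast_nonneg _)]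
    push_cast
    exact mul_le_mul_of_nonneg_left (hG z) (by positivity)
  linarith

theorem LSMain_rad {β h : ℝ} (hh : 0 < h) : 0 ≤ rad β h ∧ h * rad β h ≤ h ^ (7 / 8 : ℝ) := by
  constructor
  · unfold rad
    exact le_min (Real.rpow_nonneg hh.le _) (Real.rpow_nonneg hh.le _)
  · have h1 : rad β h ≤ h ^ (-(1 / 8) : ℝ) := min_le_left _ _
    have h2 : h ^ (7 / 8 : ℝ) = h * h ^ (-(1 / 8) : ℝ) := by
      conv_rhs => rw [← Real.rpow_one h, ← Real.rpow_mul hh.le, one_mul, ← Real.rpow_add hh]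
      norm_num
    rw [h2]
    exact mul_le_mul_of_nonneg_left h1 hh.le

theorem LSMain_pow {h : ℝ} (hh : 0 < h) (hh1 : h ≤ 1) :
    h ^ (7 / 8 : ℝ) ≤ h ^ (3 / 8 : ℝ) ∧ (h ^ (7 / 8 : ℝ)) ^ 2 ≤ h ∧
      (h ^ (3 / 8 : ℝ)) ^ 3 = h ^ (9 / 8 : ℝ) ∧ h ^ (9 / 8 : ℝ) = h * h ^ (1 / 8 : ℝ) ∧
      h ^ (1 / 8 : ℝ) ≤ 1 := by
  refine ⟨Real.rpow_le_rpow_of_exponent_ge hh hh1 (by norm_num), ?_, ?_, ?_, ?_⟩
  · rw [← Real.rpow_natCast, ← Real.rpow_mul hh.le]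
    have := Real.rpow_le_rpow_of_exponent_ge hh hh1
      (show (1 : ℝ) ≤ 7 / 8 * ((2 : ℕ) : ℝ) by norm_num)
    rwa [Real.rpow_one] at this
  · rw [← Real.rpow_natCast, ← Real.rpow_mul hh.le]
    norm_num
  · conv_rhs => rw [← Real.rpow_one h, ← Real.rpow_mul hh.le, one_mul, ← Real.rpow_add hh]
    norm_num
  · exact Real.rpow_le_one hh.le hh1 (by norm_num)

/-- the drift inequality for fixed data -/
theorem LSMain_drift {N d : ℕ}
    {β δ Ca Cb A r2 Rc cv Cv CM C2q C2y CT C2s ch CH C2h Cs θ k h Ce : ℝ}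
    {ι : Type} [Fintype ι] (net : Net ι d) {ν : Measure (E N)} {y : ℝ → ℝ} {G : ι → E N} (x : ι)
    (hβ : 1 < β) (hk : 0 ≤ k) (hk1 : k ≤ 1) (hh : 0 < h) (hh1 : h ≤ 1)
    (hν : IsNoise h ν) (hy : Monotone y) (hG : ∀ x, ‖G x‖ ≤ rad β h)
    (hA : 0 < A) (hCT : 0 < CT) (hCs : 0 < Cs) (hC2s : 0 < C2s) (hCM : 1 ≤ CM) (hθ : 0 ≤ θ) (hC2h : 0 < C2h)
    (hC2y : 0 < C2y) (hC2q : 0 < C2q) (hcV : 0 < cv / Real.sqrt A) (hCV : 0 < Cv / Real.sqrt A)
    (hcV1 : cv / Real.sqrt A ≤ 1) (hCa : 0 ≤ Ca) (hab : Ca ≤ Cb)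
    (hmm : ∀ r, 0 ≤ r → 0 < mm N β (1 / A) Rc r)
    (hq : ∀ g w : E N, ‖g‖ ≤ rad β h →
        (h * (Low A r2 Rc cv Cv ‖g‖ - (N - 2) + 2 * ‖g‖ ^ β) - CM * ‖w‖ - C2q * h ^ (9 / 8 : ℝ) ≤
          ∫ ξ, (Real.log (mm N β (1 / A) Rc ‖hat β h g ξ + w‖)
            - Real.log (mm N β (1 / A) Rc ‖g‖)) ∂ν) ∧
        (‖g‖ ≤ 1 → -(CM * h * ‖g‖) - CM * ‖w‖ - C2q * h ^ (9 / 8 : ℝ) ≤
          ∫ ξ, (Real.log (mm N β (1 / A) Rc ‖hat β h g ξ + w‖)
            - Real.log (mm N β (1 / A) Rc ‖g‖)) ∂ν) ∧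
        (∀ᵐ ξ ∂ν, |Real.log (mm N β (1 / A) Rc ‖hat β h g ξ + w‖)
            - Real.log (mm N β (1 / A) Rc ‖g‖)| ≤ CM * (h ^ (3 / 8 : ℝ) + ‖w‖)) ∧
        ∫ ξ, (Real.log (mm N β (1 / A) Rc ‖hat β h g ξ + w‖)
            - Real.log (mm N β (1 / A) Rc ‖g‖)) ^ 2 ∂ν ≤ CM * (h + ‖w‖ ^ 2))
    {U : ι → E N} (hU1 : ∀ w, ‖U w‖ ≤ if ‖G w‖ ≤ 6 / A then Ca * ‖G w‖ else 0)
    (hU2 : ∀ z, h * GG1 net β δ Ca (2 * Ca) k A y G U z
            - C2y * h ^ (9 / 8 : ℝ) * sig net k G z ^ 2 ≤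
          ∫ ξ, (2 * inner ℝ (Yv net k (1 / A) y G z)
              (Yv net k (1 / A) y (stp net β h k G ξ) z - Yv net k (1 / A) y G z)
            + ‖Yv net k (1 / A) y (stp net β h k G ξ) z - Yv net k (1 / A) y G z‖ ^ 2
            - 2 * (inner ℝ (uni (Yv net k (1 / A) y G z))
              (Yv net k (1 / A) y (stp net β h k G ξ) z - Yv net k (1 / A) y G z)) ^ 2)
            ∂(pim ι ν))
    (hys : ∀ z, (∀ᵐ ξ ∂(pim ι ν),
          ‖Yv net k (1 / A) y (stp net β h k G ξ) z - Yv net k (1 / A) y G z‖ ≤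
            C2s * h ^ (3 / 8 : ℝ) * sig net k G z) ∧
        ∫ ξ, ‖Yv net k (1 / A) y (stp net β h k G ξ) z - Yv net k (1 / A) y G z‖ ^ 2
            ∂(pim ι ν) ≤ CT * h * sig net k G z ^ 2)
    (hhz : ∀ z, (∫ ξ, (Hh net β (stp net β h k G ξ) z - Hh net β G z) ∂(pim ι ν) ≤
          h * (-(ch * Rb net β G z) + CH) + C2h * h ^ (9 / 8 : ℝ)) ∧
        (∀ᵐ ξ ∂(pim ι ν), |Hh net β (stp net β h k G ξ) z - Hh net β G z| ≤
          C2h * h ^ (3 / 8 : ℝ)) ∧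
        ∫ ξ, (Hh net β (stp net β h k G ξ) z - Hh net β G z) ^ 2 ∂(pim ι ν) ≤ CH * h)
    (hsig : ∑ z, WW net β (A * k) A Rc θ G x z * sig net k G z ^ 2 ≤
        Cs * SS net β k A Rc θ y G x ∧
      ∀ z, WW net β (A * k) A Rc θ G x z * sig net k G z ^ 2 ≤ Cs * SS net β k A Rc θ y G x)
    (hfin : ∀ lam eta : ι → ℝ, LSU net β Cb k A r2 Rc cv Cv CM ch CH G U lam eta →
      SS net β k A Rc θ y G x *
          (if ‖G x‖ ≤ r2 then 3 / 4 * (cv / Real.sqrt A) else -(3 / 2 * (Cv / Real.sqrt A))) ≤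
        ∑ z, WW net β (A * k) A Rc θ G x z * GGt net β δ Cb k A θ y G U lam eta z)
    (hpos : 0 < SS net β k A Rc θ y G x)
    (hCe : Ce = C2s * Real.sqrt Cs + CM * (1 + 4 * d) + θ * C2h)
    (hsm1 : Ce * h ^ (3 / 8 : ℝ) * (100 * Fintype.card ι) ≤ 1)
    (hsm2 : (C2y * Cs + C2q + θ * C2h + 1000 * (Fintype.card ι : ℝ) ^ 3 * Ce ^ 3) *
      h ^ (1 / 8 : ℝ) ≤ cv / Real.sqrt A / 4)
    (hsm3 : (C2y * Cs + C2q + θ * C2h + 1000 * (Fintype.card ι : ℝ) ^ 3 * Ce ^ 3) *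
      h ^ (1 / 8 : ℝ) ≤ Cv / Real.sqrt A / 2) :
    ∃ L : (ι → E N) → ℝ, Measurable L ∧
        (∀ᵐ ξ ∂(pim ι ν), |L ξ| ≤ 1 ∧
          0 < SS net β k A Rc θ y (stp net β h k G ξ) x ∧
          L ξ ≤ Real.log (SS net β k A Rc θ y (stp net β h k G ξ) x)
            - Real.log (SS net β k A Rc θ y G x)) ∧
        (h * (if ‖G x‖ ≤ r2 then cv / Real.sqrt A / 2 else -(2 * (Cv / Real.sqrt A))) ≤
          ∫ ξ, L ξ ∂(pim ι ν)) ∧
        ∫ ξ, L ξ ^ 2 ∂(pim ι ν) ≤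
          (60 * (CT * Cs + (2 * CM * (1 + 16 * d ^ 2) + 2 * θ ^ 2 * CH)) + 1) * h := by
  have := hν.prob
  have hβ0 : 0 < β := by linarith
  obtain ⟨μ, hμ⟩ : ∃ μ, μ = pim ι ν := ⟨_, rfl⟩
  have : IsProbabilityMeasure μ := by
    rw [hμ]
    unfold pim
    infer_instance
  obtain ⟨hrad, hrad2⟩ := LSMain_rad (β := β) hh
  obtain ⟨hp1, hp2, hp3, hp4, hp5⟩ := LSMain_pow hh hh1
  have hh38 : 0 < h ^ (3 / 8 : ℝ) := Real.rpow_pos_of_pos hh _
  have hh18 : 0 < h ^ (1 / 8 : ℝ) := Real.rpow_pos_of_pos hh _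
  have hh98 : 0 < h ^ (9 / 8 : ℝ) := Real.rpow_pos_of_pos hh _
  have hsCs := Real.sqrt_nonneg Cs
  have hd0 : (0 : ℝ) ≤ (d : ℝ) := Nat.cast_nonneg _
  have hCe0 : 0 ≤ Ce := by
    rw [hCe]
    have h1 : 0 ≤ CM * (1 + 4 * d) := mul_nonneg (zero_le_one.trans hCM) (by positivity)
    have h2 : 0 ≤ θ * C2h := mul_nonneg hθ hC2h.le
    have h3 : 0 ≤ C2s * Real.sqrt Cs := mul_nonneg hC2s.le hsCs
    linarith
  -- shift
  obtain ⟨w, hw⟩ : ∃ w : ι → E N, w = fun z => (k * h) • coup net G z := ⟨_, rfl⟩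
  have hwn : ∀ z, ‖w z‖ = h * (k * ‖coup net G z‖) := by
    intro z
    rw [hw]
    simp only
    rw [norm_smul, Real.norm_of_nonneg (mul_nonneg hk hh.le)]
    ring
  have hwb : ∀ z, ‖w z‖ ≤ 4 * d * h ^ (7 / 8 : ℝ) := by
    intro z
    rw [hwn]
    have h1 := LSMain_coup net G hrad hG z
    have h2 : k * ‖coup net G z‖ ≤ 1 * (4 * d * rad β h) :=
      mul_le_mul hk1 h1 (norm_nonneg _) zero_le_one
    calc h * (k * ‖coup net G z‖) ≤ h * (1 * (4 * d * rad β h)) :=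
          mul_le_mul_of_nonneg_left h2 hh.le
      _ = 4 * d * (h * rad β h) := by ring
      _ ≤ _ := mul_le_mul_of_nonneg_left hrad2 (by positivity)
  have hwb1 : ∀ z, ‖w z‖ ≤ 4 * d * h ^ (3 / 8 : ℝ) := fun z =>
    (hwb z).trans (mul_le_mul_of_nonneg_left hp1 (by positivity))
  have hwb2 : ∀ z, ‖w z‖ ^ 2 ≤ 16 * d ^ 2 * h := by
    intro z
    calc ‖w z‖ ^ 2 ≤ (4 * d * h ^ (7 / 8 : ℝ)) ^ 2 := pow_le_pow_left₀ (norm_nonneg _) (hwb z) 2
      _ = 16 * d ^ 2 * (h ^ (7 / 8 : ℝ)) ^ 2 := by ring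
      _ ≤ _ := mul_le_mul_of_nonneg_left hp2 (by positivity)
  -- transfer
  have mp : ∀ z : ι, MeasurePreserving (Function.eval z) (pim ι ν) ν := fun z =>
    measurePreserving_eval (fun _ : ι => ν) z
  have hae : ∀ (z : ι) (p : E N → Prop), (∀ᵐ ξ ∂ν, p ξ) → ∀ᵐ ξ ∂μ, p (ξ z) := by
    intro z p hp
    rw [hμ]
    exact (mp z).quasiMeasurePreserving.ae hp
  have hint : ∀ (z : ι) (f : E N → ℝ), Measurable f → ∫ ξ, f (ξ z) ∂μ = ∫ ξ, f ξ ∂ν := by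
    intro z f hf
    rw [hμ]
    have h1 := integral_map (μ := pim ι ν) (φ := Function.eval z) (mp z).measurable.aemeasurable
      (f := f) hf.aestronglyMeasurable
    rw [(mp z).map_eq] at h1
    exact h1.symm
  -- the functions
  obtain ⟨F, hF⟩ : ∃ F : ι → E N → ℝ, F = fun z ξ =>
    Real.log (mm N β (1 / A) Rc ‖hat β h (G z) ξ + w z‖) - Real.log (mm N β (1 / A) Rc ‖G z‖) :=
    ⟨_, rfl⟩
  have hFm : ∀ z, Measurable (F z) := by
    intro z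
    rw [hF]
    exact (Real.measurable_log.comp ((LSMain_meas_mm N β (1 / A) Rc).comp
      (measurable_norm.comp ((LSMain_meas_hat hβ0 hh.le (G z)).add_const _)))).sub_const _
  obtain ⟨D, hD⟩ : ∃ D : (ι → E N) → ι → ℝ, D = fun ξ z =>
    Hh net β (stp net β h k G ξ) z - Hh net β G z := ⟨_, rfl⟩
  have hstpm := LSMain_meas_stp net hβ0 hh.le k G (N := N)
  have hDm : ∀ z, Measurable fun ξ => D ξ z := by
    intro z
    rw [hD]
    exact ((LSMain_meas_Hh net β z).comp hstpm).sub_const _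
  obtain ⟨T, hT⟩ : ∃ T : (ι → E N) → ι → E N, T = fun ξ z =>
    Yv net k (1 / A) y (stp net β h k G ξ) z - Yv net k (1 / A) y G z := ⟨_, rfl⟩
  have hTm : ∀ z, Measurable fun ξ => T ξ z := by
    intro z
    rw [hT]
    exact ((LSMain_meas_Yv net k (1 / A) hy z).comp hstpm).sub_const _
  obtain ⟨lam, hlam⟩ : ∃ lam : (ι → E N) → ι → ℝ, lam = fun ξ z => F z (ξ z) - θ * D ξ z :=
    ⟨_, rfl⟩
  have hlm : ∀ z, Measurable fun ξ => lam ξ z := by
    intro z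
    rw [hlam]
    exact ((hFm z).comp (measurable_pi_apply z)).sub ((hDm z).const_mul θ)
  obtain ⟨W, hWdef⟩ : ∃ W : ι → ℝ, W = fun z => WW net β (A * k) A Rc θ G x z := ⟨_, rfl⟩
  obtain ⟨Y, hYdef⟩ : ∃ Y : ι → E N, Y = fun z => Yv net k (1 / A) y G z := ⟨_, rfl⟩
  obtain ⟨S, hSdef⟩ : ∃ S, S = SS net β k A Rc θ y G x := ⟨_, rfl⟩
  have hS : S = ∑ z, W z * ‖Y z‖ ^ 2 := by
    rw [hSdef, hWdef, hYdef]
    rfl
  have hW : ∀ z, 0 ≤ W z := by
    intro z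
    rw [hWdef]
    simp only
    unfold WW
    have h1 := (hmm ‖G z‖ (norm_nonneg _)).le
    have h2 : 0 ≤ A * k := mul_nonneg hA.le hk
    positivity
  have hSpos : 0 < S := by rw [hSdef]; exact hpos
  obtain ⟨ε, hεdef⟩ : ∃ ε, ε = Ce * h ^ (3 / 8 : ℝ) := ⟨_, rfl⟩
  have hε0 : 0 ≤ ε := by rw [hεdef]; exact mul_nonneg hCe0 hh38.le
  have hε : ε * (100 * Fintype.card ι) ≤ 1 := by rw [hεdef]; exact hsm1
  have hsig0 : ∀ z, 0 ≤ sig net k G z := by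
    intro z
    unfold sig
    have h1 : 0 ≤ ∑ w ∈ net.nb z, min ‖G w‖ 1 :=
      Finset.sum_nonneg fun w _ => le_min (norm_nonneg _) zero_le_one
    have h2 := norm_nonneg (G z)
    have h3 := mul_nonneg hk h1
    linarith
  have hTa : ∀ᵐ ξ ∂μ, ∀ z, ‖T ξ z‖ ≤ C2s * h ^ (3 / 8 : ℝ) * sig net k G z := by
    rw [Filter.eventually_all]
    intro z
    rw [hμ, hT]
    exact (hys z).1
  have hTb : ∀ᵐ ξ ∂μ, ∀ z, ‖T ξ z‖ ≤ ∑ z, C2s * h ^ (3 / 8 : ℝ) * sig net k G z := by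
    filter_upwards [hTa] with ξ h1 z
    exact (h1 z).trans (Finset.single_le_sum
      (f := fun z => C2s * h ^ (3 / 8 : ℝ) * sig net k G z)
      (fun z _ => mul_nonneg (mul_nonneg hC2s.le hh38.le) (hsig0 z)) (Finset.mem_univ z))
  have hTS : ∀ᵐ ξ ∂μ, ∀ z, W z * ‖T ξ z‖ ^ 2 ≤ ε ^ 2 * S := by
    filter_upwards [hTa] with ξ h1 z
    have h2 : ‖T ξ z‖ ^ 2 ≤ (C2s * h ^ (3 / 8 : ℝ) * sig net k G z) ^ 2 :=
      pow_le_pow_left₀ (norm_nonneg _) (h1 z) 2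
    have h3 : W z * sig net k G z ^ 2 ≤ Cs * S := by
      rw [hWdef, hSdef]
      exact hsig.2 z
    have h4 : (C2s * Real.sqrt Cs * h ^ (3 / 8 : ℝ)) ^ 2 ≤ ε ^ 2 := by
      refine pow_le_pow_left₀ (by positivity) ?_ 2
      rw [hεdef]
      refine mul_le_mul_of_nonneg_right ?_ hh38.le
      rw [hCe]
      have h5 : 0 ≤ CM * (1 + 4 * d) := mul_nonneg (zero_le_one.trans hCM) (by positivity)
      have h6 : 0 ≤ θ * C2h := mul_nonneg hθ hC2h.le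
      linarith
    calc W z * ‖T ξ z‖ ^ 2 ≤ W z * (C2s * h ^ (3 / 8 : ℝ) * sig net k G z) ^ 2 :=
          mul_le_mul_of_nonneg_left h2 (hW z)
      _ = (C2s * h ^ (3 / 8 : ℝ)) ^ 2 * (W z * sig net k G z ^ 2) := by ring
      _ ≤ (C2s * h ^ (3 / 8 : ℝ)) ^ 2 * (Cs * S) := mul_le_mul_of_nonneg_left h3 (sq_nonneg _)
      _ = (C2s * h ^ (3 / 8 : ℝ)) ^ 2 * (Real.sqrt Cs ^ 2 * S) := by
          rw [Real.sq_sqrt hCs.le]
      _ = (C2s * Real.sqrt Cs * h ^ (3 / 8 : ℝ)) ^ 2 * S := by ring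
      _ ≤ ε ^ 2 * S := mul_le_mul_of_nonneg_right h4 hSpos.le
  have hFa : ∀ z, ∀ᵐ ξ ∂μ, |F z (ξ z)| ≤ CM * (1 + 4 * d) * h ^ (3 / 8 : ℝ) := by
    intro z
    have h1 := hae z _ (hq (G z) (w z) (hG z)).2.2.1
    filter_upwards [h1] with ξ h2
    rw [hF]
    refine h2.trans ?_
    have h3 := hwb1 z
    calc CM * (h ^ (3 / 8 : ℝ) + ‖w z‖) ≤ CM * (h ^ (3 / 8 : ℝ) + 4 * d * h ^ (3 / 8 : ℝ)) :=
          mul_le_mul_of_nonneg_left (add_le_add le_rfl h3) (zero_le_one.trans hCM)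
      _ = CM * (1 + 4 * d) * h ^ (3 / 8 : ℝ) := by ring
  have hDa : ∀ z, ∀ᵐ ξ ∂μ, |D ξ z| ≤ C2h * h ^ (3 / 8 : ℝ) := by
    intro z
    rw [hμ, hD]
    exact (hhz z).2.1
  have hla : ∀ᵐ ξ ∂μ, ∀ z, |lam ξ z| ≤ ε := by
    rw [Filter.eventually_all]
    intro z
    filter_upwards [hFa z, hDa z] with ξ h1 h2
    rw [hlam, hεdef, hCe]
    simp only
    have h3 : |F z (ξ z) - θ * D ξ z| ≤ |F z (ξ z)| + θ * |D ξ z| := by
      refine (abs_sub _ _).trans ?_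
      rw [abs_mul, abs_of_nonneg hθ]
    have h4 := mul_le_mul_of_nonneg_left h2 hθ
    have h5 : 0 ≤ C2s * Real.sqrt Cs * h ^ (3 / 8 : ℝ) := by positivity
    refine h3.trans ((add_le_add h1 h4).trans ?_)
    have h6 : (C2s * Real.sqrt Cs + CM * (1 + 4 * d) + θ * C2h) * h ^ (3 / 8 : ℝ) =
        C2s * Real.sqrt Cs * h ^ (3 / 8 : ℝ) +
          (CM * (1 + 4 * d) * h ^ (3 / 8 : ℝ) + θ * (C2h * h ^ (3 / 8 : ℝ))) := by ring
    rw [h6]
    exact le_add_of_nonneg_left h5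
  obtain ⟨L, hLm, hL1, hL2, hL3⟩ := LSMain_core μ W Y T lam S ε
    (∑ z, C2s * h ^ (3 / 8 : ℝ) * sig net k G z) hW hS hSpos hε0 hε hTm hlm hTb hTS hla
  -- identification of the new value of `S`
  have hSS : ∀ ξ, SS net β k A Rc θ y (stp net β h k G ξ) x =
      ∑ z, W z * Real.exp (lam ξ z) * ‖Y z + T ξ z‖ ^ 2 := by
    intro ξ
    unfold SS
    refine Finset.sum_congr rfl fun z _ => ?_
    have h1 : Y z + T ξ z = Yv net k (1 / A) y (stp net β h k G ξ) z := by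
      rw [hYdef, hT]
      simp only
      abel
    rw [h1]
    congr 1
    rw [hWdef, hlam, hF, hD]
    simp only
    unfold WW
    have h2 := hmm ‖G z‖ (norm_nonneg _)
    have h3 := hmm ‖stp net β h k G ξ z‖ (norm_nonneg _)
    have h4 : hat β h (G z) (ξ z) + w z = stp net β h k G ξ z := by
      rw [hw]
      rfl
    rw [h4, mul_assoc ((A * k) ^ (2 * net.dist x z)), mul_assoc ((A * k) ^ (2 * net.dist x z)),
      mul_assoc ((A * k) ^ (2 * net.dist x z))]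
    congr 1
    have h5 : Real.exp (Real.log (mm N β (1 / A) Rc ‖stp net β h k G ξ z‖)
        - Real.log (mm N β (1 / A) Rc ‖G z‖)
        - θ * (Hh net β (stp net β h k G ξ) z - Hh net β G z)) =
        mm N β (1 / A) Rc ‖stp net β h k G ξ z‖ / mm N β (1 / A) Rc ‖G z‖ *
          (Real.exp (-(θ * Hh net β (stp net β h k G ξ) z)) /
            Real.exp (-(θ * Hh net β G z))) := by
      rw [← Real.exp_sub, Real.exp_sub, Real.exp_sub, Real.exp_log h3, Real.exp_log h2,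
        div_eq_mul_inv (_ / _), ← Real.exp_neg]
      congr 2
      ring
    rw [h5]
    have h6 := Real.exp_pos (-(θ * Hh net β G z))
    field_simp
  refine ⟨L, hLm, ?_, ?_, ?_⟩
  · rw [← hμ, ← hSdef]
    filter_upwards [hL1] with ξ h1
    rw [hSS]
    exact h1
  · -- mean
    rw [← hμ, hL2]
    have hFi : ∀ z, Integrable (fun ξ => F z (ξ z)) μ := by
      intro z
      refine Integrable.of_bound ((hFm z).comp (measurable_pi_apply z)).aestronglyMeasurable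
        (CM * (1 + 4 * d) * h ^ (3 / 8 : ℝ)) ?_
      filter_upwards [hFa z] with ξ h1
      rw [Real.norm_eq_abs]
      exact h1
    have hDi : ∀ z, Integrable (fun ξ => D ξ z) μ := by
      intro z
      refine Integrable.of_bound (hDm z).aestronglyMeasurable (C2h * h ^ (3 / 8 : ℝ)) ?_
      filter_upwards [hDa z] with ξ h1
      rw [Real.norm_eq_abs]
      exact h1
    obtain ⟨IF, hIF⟩ : ∃ IF : ι → ℝ, IF = fun z => ∫ ξ, F z ξ ∂ν := ⟨_, rfl⟩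
    obtain ⟨ID, hID⟩ : ∃ ID : ι → ℝ, ID = fun z => ∫ ξ, D ξ z ∂μ := ⟨_, rfl⟩
    have hIl : ∀ z, ∫ ξ, lam ξ z ∂μ = IF z - θ * ID z := by
      intro z
      rw [hlam, integral_sub (hFi z) ((hDi z).const_mul θ), integral_const_mul,
        hint z (F z) (hFm z), hIF, hID]
    obtain ⟨lz, hlz⟩ : ∃ lz : ι → ℝ, lz = fun z => h⁻¹ * IF z + C2q * h ^ (1 / 8 : ℝ) := ⟨_, rfl⟩
    obtain ⟨ez, hez⟩ : ∃ ez : ι → ℝ, ez = fun z => h⁻¹ * ID z - C2h * h ^ (1 / 8 : ℝ) := ⟨_, rfl⟩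
    have hhi : h⁻¹ * h = 1 := inv_mul_cancel₀ hh.ne'
    have hIF' : ∀ z, IF z = h * lz z - C2q * h ^ (9 / 8 : ℝ) := by
      intro z
      rw [hlz, hp4]
      simp only
      linear_combination (-(IF z)) * hhi
    have hID' : ∀ z, ID z = h * ez z + C2h * h ^ (9 / 8 : ℝ) := by
      intro z
      rw [hez, hp4]
      simp only
      linear_combination (-(ID z)) * hhi
    have hLSU : LSU net β Cb k A r2 Rc cv Cv CM ch CH G U lz ez := by
      refine ⟨?_, ?_, ?_, ?_⟩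
      · intro v
        refine (hU1 v).trans ?_
        split_ifs
        · exact mul_le_mul_of_nonneg_right hab (norm_nonneg _)
        · exact le_rfl
      · intro z
        have h1 := (hq (G z) (w z) (hG z)).1
        have h2 : ∫ ξ, (Real.log (mm N β (1 / A) Rc ‖hat β h (G z) ξ + w z‖)
            - Real.log (mm N β (1 / A) Rc ‖G z‖)) ∂ν = IF z := by rw [hIF, hF]
        rw [h2, hIF' z, hwn z] at h1
        refine le_of_mul_le_mul_left ?_ hh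
        linarith
      · intro z hz
        have h1 := (hq (G z) (w z) (hG z)).2.1 hz
        have h2 : ∫ ξ, (Real.log (mm N β (1 / A) Rc ‖hat β h (G z) ξ + w z‖)
            - Real.log (mm N β (1 / A) Rc ‖G z‖)) ∂ν = IF z := by rw [hIF, hF]
        rw [h2, hIF' z, hwn z] at h1
        refine le_of_mul_le_mul_left ?_ hh
        linarith
      · intro z
        have h1 := (hhz z).1
        have h2 : ∫ ξ, (Hh net β (stp net β h k G ξ) z - Hh net β G z) ∂(pim ι ν) = ID z := by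
          rw [hID, hD, hμ]
        rw [h2, hID' z] at h1
        refine le_of_mul_le_mul_left ?_ hh
        linarith
    have hf := hfin lz ez hLSU
    have hterm : ∀ z, h * (W z * GGt net β δ Cb k A θ y G U lz ez z)
        - C2y * h ^ (9 / 8 : ℝ) * (W z * sig net k G z ^ 2)
        - (C2q + θ * C2h) * h ^ (9 / 8 : ℝ) * (W z * ‖Y z‖ ^ 2) ≤
        W z * (∫ ξ, (2 * inner ℝ (Y z) (T ξ z) + ‖T ξ z‖ ^ 2
          - 2 * (inner ℝ (uni (Y z)) (T ξ z)) ^ 2) ∂μ + ‖Y z‖ ^ 2 * ∫ ξ, lam ξ z ∂μ) := by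
      intro z
      have h1 := hU2 z
      have h2 := LSMain_GG1_mono net β δ k A hCa hab y G U z
      have h3 : ∫ ξ, (2 * inner ℝ (Y z) (T ξ z) + ‖T ξ z‖ ^ 2
          - 2 * (inner ℝ (uni (Y z)) (T ξ z)) ^ 2) ∂μ = ∫ ξ, (2 * inner ℝ (Yv net k (1 / A) y G z)
              (Yv net k (1 / A) y (stp net β h k G ξ) z - Yv net k (1 / A) y G z)
            + ‖Yv net k (1 / A) y (stp net β h k G ξ) z - Yv net k (1 / A) y G z‖ ^ 2
            - 2 * (inner ℝ (uni (Yv net k (1 / A) y G z))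
              (Yv net k (1 / A) y (stp net β h k G ξ) z - Yv net k (1 / A) y G z)) ^ 2)
            ∂(pim ι ν) := by rw [hμ, hYdef, hT]
      rw [← h3] at h1
      have h4 : GGt net β δ Cb k A θ y G U lz ez z =
          GG1 net β δ Cb (2 * Cb) k A y G U z + ‖Y z‖ ^ 2 * (lz z - θ * ez z) := by
        rw [hYdef]
        rfl
      rw [hIl z, hIF' z, hID' z, h4]
      have h5 : h * GG1 net β δ Cb (2 * Cb) k A y G U z
          - C2y * h ^ (9 / 8 : ℝ) * sig net k G z ^ 2 ≤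
          ∫ ξ, (2 * inner ℝ (Y z) (T ξ z) + ‖T ξ z‖ ^ 2
          - 2 * (inner ℝ (uni (Y z)) (T ξ z)) ^ 2) ∂μ := by
        have := mul_le_mul_of_nonneg_left h2 hh.le
        linarith
      have h6 := mul_le_mul_of_nonneg_left h5 (hW z)
      linarith
    have hsum := Finset.sum_le_sum fun z (_ : z ∈ Finset.univ) => hterm z
    rw [Finset.sum_sub_distrib, Finset.sum_sub_distrib, ← Finset.mul_sum, ← Finset.mul_sum,
      ← Finset.mul_sum, ← hS] at hsum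
    have hsg : ∑ z, W z * sig net k G z ^ 2 ≤ Cs * S := by
      rw [hWdef, hSdef]
      exact hsig.1
    obtain ⟨v, hv⟩ : ∃ v : ℝ, v = if ‖G x‖ ≤ r2 then 3 / 4 * (cv / Real.sqrt A)
      else -(3 / 2 * (Cv / Real.sqrt A)) := ⟨_, rfl⟩
    have hf' : S * v ≤ ∑ z, W z * GGt net β δ Cb k A θ y G U lz ez z := by
      rw [hv, hSdef, hWdef]
      exact hf
    have h1 := mul_le_mul_of_nonneg_left hf' hh.le
    have h2 : C2y * h ^ (9 / 8 : ℝ) * ∑ z, W z * sig net k G z ^ 2 ≤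
        C2y * h ^ (9 / 8 : ℝ) * (Cs * S) :=
      mul_le_mul_of_nonneg_left hsg (by positivity)
    have h3 : S * (h * v - (C2y * Cs + C2q + θ * C2h) * h ^ (9 / 8 : ℝ)) ≤
        ∑ z, W z * (∫ ξ, (2 * inner ℝ (Y z) (T ξ z) + ‖T ξ z‖ ^ 2
          - 2 * (inner ℝ (uni (Y z)) (T ξ z)) ^ 2) ∂μ + ‖Y z‖ ^ 2 * ∫ ξ, lam ξ z ∂μ) := by
      refine le_trans ?_ hsum
      have h7 : S * (h * v - (C2y * Cs + C2q + θ * C2h) * h ^ (9 / 8 : ℝ)) = h * (S * v)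
          - C2y * h ^ (9 / 8 : ℝ) * (Cs * S) - (C2q + θ * C2h) * h ^ (9 / 8 : ℝ) * S := by ring
      rw [h7]
      exact sub_le_sub_right (sub_le_sub h1 h2) _
    have h4 : h * v - (C2y * Cs + C2q + θ * C2h) * h ^ (9 / 8 : ℝ) ≤ 1 / S *
        ∑ z, W z * (∫ ξ, (2 * inner ℝ (Y z) (T ξ z) + ‖T ξ z‖ ^ 2
          - 2 * (inner ℝ (uni (Y z)) (T ξ z)) ^ 2) ∂μ + ‖Y z‖ ^ 2 * ∫ ξ, lam ξ z ∂μ) := by
      rw [one_div, inv_mul_eq_div, le_div_iff₀ hSpos]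
      linarith
    have h5 : 1000 * (Fintype.card ι : ℝ) ^ 3 * ε ^ 3 =
        1000 * (Fintype.card ι : ℝ) ^ 3 * Ce ^ 3 * h ^ (9 / 8 : ℝ) := by
      rw [hεdef, mul_pow, hp3]
      ring
    rw [h5]
    refine le_trans ?_ (sub_le_sub_right h4 _)
    have h6 : h * v - (C2y * Cs + C2q + θ * C2h) * h ^ (9 / 8 : ℝ)
        - 1000 * (Fintype.card ι : ℝ) ^ 3 * Ce ^ 3 * h ^ (9 / 8 : ℝ) =
        h * (v - (C2y * Cs + C2q + θ * C2h + 1000 * (Fintype.card ι : ℝ) ^ 3 * Ce ^ 3) *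
          h ^ (1 / 8 : ℝ)) := by
      rw [hp4]
      ring
    rw [h6]
    refine mul_le_mul_of_nonneg_left ?_ hh.le
    rw [hv]
    split_ifs
    · linarith
    · linarith
  · -- second moment
    rw [← hμ]
    refine hL3.trans ?_
    have hc : 1000 * (Fintype.card ι : ℝ) ^ 3 * ε ^ 3 ≤ h / 4 := by
      have h5 : 1000 * (Fintype.card ι : ℝ) ^ 3 * ε ^ 3 =
          h * (1000 * (Fintype.card ι : ℝ) ^ 3 * Ce ^ 3 * h ^ (1 / 8 : ℝ)) := by
        rw [hεdef, mul_pow, hp3, hp4]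
        ring
      rw [h5]
      have h6 : 0 ≤ (C2y * Cs + C2q + θ * C2h) * h ^ (1 / 8 : ℝ) := by positivity
      have h7 : 1000 * (Fintype.card ι : ℝ) ^ 3 * Ce ^ 3 * h ^ (1 / 8 : ℝ) ≤ 1 / 4 := by
        have h8 : (C2y * Cs + C2q + θ * C2h + 1000 * (Fintype.card ι : ℝ) ^ 3 * Ce ^ 3) *
            h ^ (1 / 8 : ℝ) = (C2y * Cs + C2q + θ * C2h) * h ^ (1 / 8 : ℝ) +
              1000 * (Fintype.card ι : ℝ) ^ 3 * Ce ^ 3 * h ^ (1 / 8 : ℝ) := by ring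
        rw [h8] at hsm2
        linarith only [hsm2, h6, hcV1]
      calc h * (1000 * (Fintype.card ι : ℝ) ^ 3 * Ce ^ 3 * h ^ (1 / 8 : ℝ)) ≤ h * (1 / 4) :=
            mul_le_mul_of_nonneg_left h7 hh.le
        _ = h / 4 := by ring
    have hc0 : 0 ≤ 1000 * (Fintype.card ι : ℝ) ^ 3 * ε ^ 3 := by positivity
    have hc2 : 2 * (1000 * (Fintype.card ι : ℝ) ^ 3 * ε ^ 3) ^ 2 ≤ h := by
      have e1 := pow_le_pow_left₀ hc0 hc 2
      have e2 : h * h ≤ h := mul_le_of_le_one_right hh.le hh1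
      have e3 : (h / 4) ^ 2 = h * h / 16 := by ring
      rw [e3] at e1
      linarith only [e1, e2, hh]
    have hl2 : ∀ z, ∫ ξ, lam ξ z ^ 2 ∂μ ≤ (2 * CM * (1 + 16 * d ^ 2) + 2 * θ ^ 2 * CH) * h := by
      intro z
      have hF2i : Integrable (fun ξ => F z (ξ z) ^ 2) μ := by
        refine Integrable.of_bound
          (((hFm z).comp (measurable_pi_apply z)).pow_const 2).aestronglyMeasurable
          ((CM * (1 + 4 * d) * h ^ (3 / 8 : ℝ)) ^ 2) ?_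
        filter_upwards [hFa z] with ξ h1
        rw [Real.norm_of_nonneg (by positivity), ← sq_abs (F z (ξ z))]
        exact pow_le_pow_left₀ (abs_nonneg _) h1 2
      have hD2i : Integrable (fun ξ => D ξ z ^ 2) μ := by
        refine Integrable.of_bound ((hDm z).pow_const 2).aestronglyMeasurable
          ((C2h * h ^ (3 / 8 : ℝ)) ^ 2) ?_
        filter_upwards [hDa z] with ξ h1
        rw [Real.norm_of_nonneg (by positivity), ← sq_abs (D ξ z)]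
        exact pow_le_pow_left₀ (abs_nonneg _) h1 2
      have hl2i : Integrable (fun ξ => lam ξ z ^ 2) μ := by
        refine Integrable.of_bound ((hlm z).pow_const 2).aestronglyMeasurable (ε ^ 2) ?_
        filter_upwards [hla] with ξ h1
        rw [Real.norm_of_nonneg (by positivity), ← sq_abs]
        exact pow_le_pow_left₀ (abs_nonneg _) (h1 z) 2
      have h1 : ∫ ξ, lam ξ z ^ 2 ∂μ ≤ ∫ ξ, (2 * F z (ξ z) ^ 2 + 2 * θ ^ 2 * D ξ z ^ 2) ∂μ := by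
        refine integral_mono hl2i ((hF2i.const_mul 2).add (hD2i.const_mul _)) fun ξ => ?_
        rw [hlam]
        simp only
        have e1 := sq_nonneg (F z (ξ z) + θ * D ξ z)
        have e2 : (F z (ξ z) - θ * D ξ z) ^ 2 = 2 * F z (ξ z) ^ 2 + 2 * θ ^ 2 * D ξ z ^ 2
            - (F z (ξ z) + θ * D ξ z) ^ 2 := by ring
        rw [e2]
        linarith only [e1]
      rw [integral_add (hF2i.const_mul 2) (hD2i.const_mul _), integral_const_mul,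
        integral_const_mul, hint z (fun ξ => F z ξ ^ 2) ((hFm z).pow_const 2)] at h1
      have h2 : ∫ ξ, F z ξ ^ 2 ∂ν ≤ CM * (h + ‖w z‖ ^ 2) := by
        rw [hF]
        exact (hq (G z) (w z) (hG z)).2.2.2
      have h3 : ∫ ξ, D ξ z ^ 2 ∂μ ≤ CH * h := by
        rw [hD, hμ]
        exact (hhz z).2.2
      have h4 := mul_le_mul_of_nonneg_left h3 (sq_nonneg θ)
      have h5 : CM * (h + ‖w z‖ ^ 2) ≤ CM * (h + 16 * d ^ 2 * h) :=
        mul_le_mul_of_nonneg_left (by linarith [hwb2 z]) (by linarith)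
      have h6 : (2 * CM * (1 + 16 * d ^ 2) + 2 * θ ^ 2 * CH) * h =
          2 * (CM * (h + 16 * d ^ 2 * h)) + 2 * (θ ^ 2 * (CH * h)) := by ring
      rw [h6]
      have h7 : 2 * θ ^ 2 * ∫ ξ, D ξ z ^ 2 ∂μ = 2 * (θ ^ 2 * ∫ ξ, D ξ z ^ 2 ∂μ) := by ring
      rw [h7] at h1
      linarith only [h1, h2, h4, h5]
    have hterm : ∀ z, W z * (∫ ξ, ‖T ξ z‖ ^ 2 ∂μ + ‖Y z‖ ^ 2 * ∫ ξ, lam ξ z ^ 2 ∂μ) ≤
        CT * h * (W z * sig net k G z ^ 2) +
          (2 * CM * (1 + 16 * d ^ 2) + 2 * θ ^ 2 * CH) * h * (W z * ‖Y z‖ ^ 2) := by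
      intro z
      have h1 : ∫ ξ, ‖T ξ z‖ ^ 2 ∂μ ≤ CT * h * sig net k G z ^ 2 := by
        rw [hT, hμ]
        exact (hys z).2
      have h2 := mul_le_mul_of_nonneg_left (hl2 z) (sq_nonneg ‖Y z‖)
      have h3 := mul_le_mul_of_nonneg_left (add_le_add h1 h2) (hW z)
      linarith
    have hsum := Finset.sum_le_sum fun z (_ : z ∈ Finset.univ) => hterm z
    rw [Finset.sum_add_distrib, ← Finset.mul_sum, ← Finset.mul_sum, ← hS] at hsum
    have hsg : ∑ z, W z * sig net k G z ^ 2 ≤ Cs * S := by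
      rw [hWdef, hSdef]
      exact hsig.1
    have h1 : CT * h * ∑ z, W z * sig net k G z ^ 2 ≤ CT * h * (Cs * S) :=
      mul_le_mul_of_nonneg_left hsg (mul_nonneg hCT.le hh.le)
    have h2 : 60 * (1 / S) * ∑ z, W z * (∫ ξ, ‖T ξ z‖ ^ 2 ∂μ
        + ‖Y z‖ ^ 2 * ∫ ξ, lam ξ z ^ 2 ∂μ) ≤
        60 * (1 / S) * (CT * h * (Cs * S) +
          (2 * CM * (1 + 16 * d ^ 2) + 2 * θ ^ 2 * CH) * h * S) :=
      mul_le_mul_of_nonneg_left (hsum.trans (by linarith)) (by positivity)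
    have h3 : 60 * (1 / S) * (CT * h * (Cs * S) +
          (2 * CM * (1 + 16 * d ^ 2) + 2 * θ ^ 2 * CH) * h * S) =
        60 * (CT * Cs + (2 * CM * (1 + 16 * d ^ 2) + 2 * θ ^ 2 * CH)) * h := by
      field_simp
    rw [h3] at h2
    linarith

end Dyn
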