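import Pool.Agent.Lib_MP_36b788.ShDefs

/-!
# LEVYEX: tightness and convergence of characteristic functions give a limit law

PROOF. Markov: `μ_n{‖v‖ > r} ≤ C/r`, closed balls are compact, so the set of measures is tight (`isTightMeasureSet_iff…`,
TightNormed.lean). `isCompact_closure_of_isTightMeasureSet`: the closure of the range is compact, hence there is a cluster point
`μ0` of the sequence; along an ultrafilter (or subsequence) finer than `atTop`, `μ_n → μ0`, so `charFun μ_n u → charFun μ0 u`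
(`ProbabilityMeasure.tendsto_iff_forall_integral_rclike_tendsto`, `charFun_eq_integral_innerProbChar`), and `charFun μ0 = φ`. Then
`ProbabilityMeasure.tendsto_of_tendsto_charFun`.
-/

open MeasureTheory ProbabilityTheory Filter
open scoped NNReal ENNReal Topology

namespace Dyn

private theorem LevyEx_tight {V : Type} [NormedAddCommGroup V] [InnerProductSpace ℝ V]
    [FiniteDimensional ℝ V] [MeasurableSpace V] [BorelSpace V] (μ : ℕ → ProbabilityMeasure V)
    (C : ℝ) (hC : ∀ n, Integrable (fun v => ‖v‖) (μ n : Measure V) ∧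
      ∫ v, ‖v‖ ∂(μ n : Measure V) ≤ C) :
    IsTightMeasureSet {((m : ProbabilityMeasure V) : Measure V) | m ∈ Set.range μ} := by
  have : ProperSpace V := FiniteDimensional.proper ℝ V
  have hC0 : 0 ≤ C := le_trans (integral_nonneg fun v => norm_nonneg v) (hC 0).2
  refine isTightMeasureSet_iff_exists_isCompact_measure_compl_le.mpr fun ε hε => ?_
  obtain ⟨δ, hδ0, hδ⟩ : ∃ δ : ℝ, 0 < δ ∧ ENNReal.ofReal δ ≤ ε := by
    rcases eq_or_ne ε ⊤ with h | h
    · exact ⟨1, one_pos, by simp [h]⟩
    · refine ⟨ε.toReal, ENNReal.toReal_pos hε.ne' h, ?_⟩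
      rw [ENNReal.ofReal_toReal h]
  refine ⟨Metric.closedBall 0 ((C + 1) / δ), isCompact_closedBall _ _, ?_⟩
  rintro m ⟨m', ⟨n, rfl⟩, rfl⟩
  have hr : 0 < (C + 1) / δ := by positivity
  have h1 := mul_meas_ge_le_integral_of_nonneg (μ := (μ n : Measure V))
    (f := fun v => ‖v‖) (ae_of_all _ fun v => norm_nonneg v) (hC n).1 ((C + 1) / δ)
  have h2 : (μ n : Measure V).real {v | (C + 1) / δ ≤ ‖v‖} ≤ δ := by
    have h3 : (C + 1) / δ * (μ n : Measure V).real {v | (C + 1) / δ ≤ ‖v‖} ≤ C :=
      h1.trans (hC n).2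
    have h4 : (C + 1) / δ * (μ n : Measure V).real {v | (C + 1) / δ ≤ ‖v‖} ≤
        (C + 1) / δ * δ := by
      refine h3.trans ?_
      rw [div_mul_cancel₀ _ hδ0.ne']
      linarith
    exact le_of_mul_le_mul_left h4 hr
  have h5 : (Metric.closedBall (0 : V) ((C + 1) / δ))ᶜ ⊆ {v | (C + 1) / δ ≤ ‖v‖} := by
    intro v hv
    simp only [Set.mem_compl_iff, mem_closedBall_zero_iff, not_le] at hv
    exact hv.le
  calc (μ n : Measure V) (Metric.closedBall (0 : V) ((C + 1) / δ))ᶜ
      ≤ (μ n : Measure V) {v | (C + 1) / δ ≤ ‖v‖} := measure_mono h5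
    _ = ENNReal.ofReal ((μ n : Measure V).real {v | (C + 1) / δ ≤ ‖v‖}) := by
        rw [ofReal_measureReal]
    _ ≤ ENNReal.ofReal δ := ENNReal.ofReal_le_ofReal h2
    _ ≤ ε := hδ

theorem levy_exists {V : Type} [NormedAddCommGroup V] [InnerProductSpace ℝ V]
    [FiniteDimensional ℝ V] [MeasurableSpace V] [BorelSpace V] (μ : ℕ → ProbabilityMeasure V)
    (C : ℝ) (hC : ∀ n, Integrable (fun v => ‖v‖) (μ n : Measure V) ∧
      ∫ v, ‖v‖ ∂(μ n : Measure V) ≤ C)
    (φ : V → ℂ) (h : ∀ u, Tendsto (fun n => charFun (μ n : Measure V) u) atTop (𝓝 (φ u))) :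
    ∃ μ0 : ProbabilityMeasure V, Tendsto μ atTop (𝓝 μ0) ∧ ∀ u, charFun (μ0 : Measure V) u = φ u := by
  have h_compact : IsCompact (closure (Set.range μ)) :=
    isCompact_closure_of_isTightMeasureSet (LevyEx_tight μ C hC)
  let U : Ultrafilter ℕ := Ultrafilter.of atTop
  have hU : (U : Filter ℕ) ≤ atTop := Ultrafilter.of_le _
  obtain ⟨μ0, -, hμ0⟩ := h_compact.ultrafilter_le_nhds (U.map μ)
    (by
      refine le_trans ?_ (monotone_principal subset_closure)
      rw [le_principal_iff]
      have h0 : μ ⁻¹' Set.range μ = Set.univ := by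
        ext n; simp
      change μ ⁻¹' Set.range μ ∈ U
      rw [h0]
      exact Filter.univ_mem)
  have hμ0' : Tendsto μ U (𝓝 μ0) := hμ0
  have hφ : ∀ u, charFun (μ0 : Measure V) u = φ u := by
    intro u
    have h1 := (ProbabilityMeasure.tendsto_iff_forall_integral_rclike_tendsto ℂ).1 hμ0'
      (BoundedContinuousFunction.innerProbChar u)
    have h2 : Tendsto (fun n => charFun (μ n : Measure V) u) U
        (𝓝 (charFun (μ0 : Measure V) u)) := by
      simp_rw [charFun_eq_integral_innerProbChar]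
      exact h1
    exact tendsto_nhds_unique h2 ((h u).mono_left hU)
  refine ⟨μ0, ProbabilityMeasure.tendsto_of_tendsto_charFun fun t => ?_, hφ⟩
  rw [hφ t]
  exact h t

end Dyn
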