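import Pool.Agent.Lib_MP_36b788.LevyEx
import Pool.Agent.Lib_MP_36b788.KExt
import Pool.Agent.Lib_MP_36b788.CharExt

/-!
# LIMEX: existence of the limit field

PROOF. For a finite set `I` let `V_I = PiLp 2 (fun _ : I => E N)` (or `EuclideanSpace ℝ (I × Fin N)`). The laws of `(K n q)_{q∈I}`, `n ∈ ℕ` (times
`t = n`), have uniformly bounded first moments (`‖(v_q)‖ ≤ Σ‖v_q‖`) and characteristic functions converging to `φ I`, so levy_exists
gives a probability measure `m_I` on `I → E N` with `∫exp(iΣ_{q∈I}⟪u_q,v_q⟫)dm_I = φ I u`. Projective family: for `J ⊆ I` the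
marginal of `m_I` on `J` has the exponentials `φ I (u 1_J) = φ J u` (limits of the same integrals: `ech I (u 1_J) = ech J u`), so it
is `m_J` (`Measure.ext_of_charFun`). kolm_ext. Finally `∫ ech I u dμ = ∫exp(…)dm_I = φ I u`.
-/

open MeasureTheory ProbabilityTheory Filter
open scoped NNReal ENNReal Topology

namespace Dyn

private theorem LimEx_meas {A : Type} {N : ℕ} (I : Finset A) (w : A → E N) :
    Measurable (fun v : (∀ _ : I, E N) =>
      Complex.exp (Complex.I * ((∑ q : I, (inner ℝ (w q) (v q) : ℝ) : ℝ) : ℂ))) := by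
  have h1 : Continuous (fun v : (∀ _ : I, E N) =>
      Complex.exp (Complex.I * ((∑ q : I, (inner ℝ (w q) (v q) : ℝ) : ℝ) : ℂ))) := by
    fun_prop
  exact h1.measurable

private theorem LimEx_ech {A : Type} {N : ℕ} (I : Finset A) (w f : A → E N) :
    ech I w f =
      Complex.exp (Complex.I * ((∑ q : I, (inner ℝ (w q) (f q) : ℝ) : ℝ) : ℂ)) := by
  unfold ech
  rw [← Finset.sum_coe_sort I (fun q => (inner ℝ (w q) (f q) : ℝ))]

private theorem LimEx_inner {A : Type} {N : ℕ} (I : Finset A) (v : ∀ _ : I, E N)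
    (t : PiLp 2 (fun _ : I => E N)) (w : A → E N) (hw : ∀ q : I, w q = t q) :
    Complex.exp (((inner ℝ (WithLp.toLp 2 v : PiLp 2 (fun _ : I => E N)) t : ℝ) : ℂ)
      * Complex.I) =
    Complex.exp (Complex.I * ((∑ q : I, (inner ℝ (w q) (v q) : ℝ) : ℝ) : ℂ)) := by
  have h1 : (inner ℝ (WithLp.toLp 2 v : PiLp 2 (fun _ : I => E N)) t : ℝ) =
      ∑ q : I, (inner ℝ (w q) (v q) : ℝ) := by
    rw [PiLp.inner_apply]
    refine Finset.sum_congr rfl fun q _ => ?_
    rw [hw q]
    exact real_inner_comm _ _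
  rw [h1, mul_comm]

/-- exponentials determine the law on `I → E N` -/
private theorem LimEx_uniq {A : Type} {N : ℕ} (I : Finset A) (m m' : Measure (∀ _ : I, E N))
    [IsProbabilityMeasure m] [IsProbabilityMeasure m']
    (h : ∀ w : A → E N,
      ∫ v, Complex.exp (Complex.I * ((∑ q : I, (inner ℝ (w q) (v q) : ℝ) : ℝ) : ℂ)) ∂m =
      ∫ v, Complex.exp (Complex.I * ((∑ q : I, (inner ℝ (w q) (v q) : ℝ) : ℝ) : ℂ)) ∂m') :
    m = m' := by
  classical
  let e := MeasurableEquiv.toLp 2 (∀ _ : I, E N)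
  apply e.map_measurableEquiv_injective
  have : IsProbabilityMeasure (m.map e) :=
    Measure.isProbabilityMeasure_map e.measurable.aemeasurable
  have : IsProbabilityMeasure (m'.map e) :=
    Measure.isProbabilityMeasure_map e.measurable.aemeasurable
  show m.map e = m'.map e
  refine Measure.ext_of_charFun (E := PiLp 2 (fun _ : I => E N)) ?_
  funext t
  obtain ⟨w, hw⟩ : ∃ w : A → E N, ∀ q : I, w q = t q :=
    ⟨fun a => if ha : a ∈ I then t ⟨a, ha⟩ else 0, fun q => by simp⟩
  have key : ∀ m0 : Measure (∀ _ : I, E N),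
      charFun (E := PiLp 2 (fun _ : I => E N)) (m0.map e) t =
      ∫ v, Complex.exp (Complex.I * ((∑ q : I, (inner ℝ (w q) (v q) : ℝ) : ℝ) : ℂ)) ∂m0 := by
    intro m0
    rw [charFun_apply, MeasureTheory.integral_map_equiv e]
    exact integral_congr_ae (Filter.Eventually.of_forall fun v => LimEx_inner I v t w hw)
  rw [key, key]
  exact h w

private theorem LimEx_fin {A : Type} {N : ℕ} {Ω : Type} [MeasurableSpace Ω] {P : Measure Ω}
    [IsProbabilityMeasure P] (K : ℝ≥0 → A → Ω → E N) (hK : ∀ t q, Measurable (K t q))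
    (hC : ∀ q, ∃ C : ℝ, ∀ t, Integrable (fun ω => ‖K t q ω‖) P ∧ ∫ ω, ‖K t q ω‖ ∂P ≤ C)
    (φ : Finset A → (A → E N) → ℂ)
    (h : ∀ I u, Tendsto (fun t => ∫ ω, ech I u (fun q => K t q ω) ∂P) atTop (𝓝 (φ I u)))
    (I : Finset A) :
    ∃ m : Measure (∀ _ : I, E N), IsProbabilityMeasure m ∧ ∀ w : A → E N,
      ∫ v, Complex.exp (Complex.I * ((∑ q : I, (inner ℝ (w q) (v q) : ℝ) : ℝ) : ℂ)) ∂m =
        φ I w := by
  classical
  choose C hC1 using hC
  have hT : ∀ t, Measurable (fun ω => (WithLp.toLp 2 (fun q : I => K t q ω) :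
      PiLp 2 (fun _ : I => E N))) := fun t =>
    (WithLp.measurable_toLp 2 (∀ _ : I, E N)).comp (measurable_pi_lambda _ fun q => hK t q)
  have hnorm : ∀ t ω, ‖(WithLp.toLp 2 (fun q : I => K t q ω) : PiLp 2 (fun _ : I => E N))‖ ≤
      ∑ q : I, ‖K t q ω‖ := by
    intro t ω
    rw [PiLp.norm_eq_of_L2]
    refine Real.sqrt_le_iff.2 ⟨Finset.sum_nonneg fun _ _ => norm_nonneg _, ?_⟩
    exact Finset.sum_sq_le_sq_sum_of_nonneg (fun q _ => norm_nonneg _)
  have hint : ∀ t, Integrable (fun ω => ∑ q : I, ‖K t q ω‖) P := fun t =>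
    integrable_finsetSum _ fun q _ => (hC1 q t).1
  let μ : ℕ → ProbabilityMeasure (PiLp 2 (fun _ : I => E N)) := fun n =>
    ⟨P.map (fun ω => (WithLp.toLp 2 (fun q : I => K n q ω) : PiLp 2 (fun _ : I => E N))),
      Measure.isProbabilityMeasure_map (hT n).aemeasurable⟩
  have hμ : ∀ n, (μ n : Measure (PiLp 2 (fun _ : I => E N))) =
    P.map (fun ω => (WithLp.toLp 2 (fun q : I => K n q ω) : PiLp 2 (fun _ : I => E N))) :=
    fun n => rfl
  have hCC : ∀ n, Integrable (fun v => ‖v‖) (μ n : Measure (PiLp 2 (fun _ : I => E N))) ∧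
      ∫ v, ‖v‖ ∂(μ n : Measure (PiLp 2 (fun _ : I => E N))) ≤ ∑ q : I, C q := by
    intro n
    have i1 : Integrable (fun ω => ‖(WithLp.toLp 2 (fun q : I => K n q ω) :
        PiLp 2 (fun _ : I => E N))‖) P := by
      refine (hint n).mono' (hT n).norm.aestronglyMeasurable
        (Filter.Eventually.of_forall fun ω => ?_)
      rw [norm_norm]
      exact hnorm n ω
    rw [hμ]
    constructor
    · rw [integrable_map_measure continuous_norm.aestronglyMeasurable (hT n).aemeasurable]
      exact i1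
    · rw [integral_map (hT n).aemeasurable continuous_norm.aestronglyMeasurable]
      refine (integral_mono i1 (hint n) fun ω => hnorm n ω).trans ?_
      rw [integral_finsetSum _ fun (q : I) _ => (hC1 q n).1]
      exact Finset.sum_le_sum fun q _ => (hC1 q n).2
  have hch : ∀ n (t : PiLp 2 (fun _ : I => E N)) (w : A → E N), (∀ q : I, w q = t q) →
      charFun (μ n : Measure (PiLp 2 (fun _ : I => E N))) t =
      ∫ ω, ech I w (fun q => K n q ω) ∂P := by
    intro n t w hw
    rw [hμ, charFun_apply, integral_map (hT n).aemeasurable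
      (by exact (Continuous.aestronglyMeasurable (by fun_prop)))]
    refine integral_congr_ae (Filter.Eventually.of_forall fun ω => ?_)
    show _ = ech I w (fun q => K n q ω)
    rw [LimEx_ech]
    exact LimEx_inner I (fun q : I => K n q ω) t w hw
  have hlim : ∀ (t : PiLp 2 (fun _ : I => E N)) (w : A → E N), (∀ q : I, w q = t q) →
      Tendsto (fun n => charFun (μ n : Measure (PiLp 2 (fun _ : I => E N))) t) atTop
        (𝓝 (φ I w)) := by
    intro t w hw
    have h1 := (h I w).comp (tendsto_natCast_atTop_atTop (R := ℝ≥0))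
    refine h1.congr fun n => ?_
    exact (hch n t w hw).symm
  obtain ⟨μ0, -, hμ0⟩ := levy_exists μ (∑ q : I, C q) hCC
    (fun t => φ I (fun a : A => if ha : a ∈ I then t ⟨a, ha⟩ else 0))
    (fun t => hlim t _ fun q => by simp)
  let e := MeasurableEquiv.toLp 2 (∀ _ : I, E N)
  refine ⟨(μ0 : Measure (PiLp 2 (fun _ : I => E N))).map e.symm,
    Measure.isProbabilityMeasure_map e.symm.measurable.aemeasurable, fun w => ?_⟩
  have h2 := hμ0 (WithLp.toLp 2 (fun q : I => w q))
  have h3 : φ I (fun a : A => if ha : a ∈ I then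
      (WithLp.toLp 2 (fun q : I => w q) : PiLp 2 (fun _ : I => E N)) ⟨a, ha⟩ else 0) = φ I w :=
    tendsto_nhds_unique (hlim (WithLp.toLp 2 (fun q : I => w q)) _ fun q => by simp)
      (hlim (WithLp.toLp 2 (fun q : I => w q)) w fun q => rfl)
  rw [← h3, ← h2, MeasureTheory.integral_map_equiv e.symm, charFun_apply]
  refine integral_congr_ae (Filter.Eventually.of_forall fun v => ?_)
  exact (LimEx_inner I (WithLp.ofLp v) (WithLp.toLp 2 (fun q : I => w q)) w fun q => rfl).symm

theorem limit_exists {A : Type} {N : ℕ} {Ω : Type} [MeasurableSpace Ω] {P : Measure Ω}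
    [IsProbabilityMeasure P] (K : ℝ≥0 → A → Ω → E N) (hK : ∀ t q, Measurable (K t q))
    (hC : ∀ q, ∃ C : ℝ, ∀ t, Integrable (fun ω => ‖K t q ω‖) P ∧ ∫ ω, ‖K t q ω‖ ∂P ≤ C)
    (φ : Finset A → (A → E N) → ℂ)
    (h : ∀ I u, Tendsto (fun t => ∫ ω, ech I u (fun q => K t q ω) ∂P) atTop (𝓝 (φ I u))) :
    ∃ μ : Measure (A → E N), IsProbabilityMeasure μ ∧ ∀ I u, ∫ f, ech I u f ∂μ = φ I u := by
  classical
  choose m hm1 hm2 using fun I => LimEx_fin K hK hC φ h I
  have hproj : IsProjectiveMeasureFamily (α := fun _ : A => E N) m := by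
    intro I J hJI
    have hres : Measurable (Finset.restrict₂ (π := fun _ : A => E N) hJI) :=
      Finset.measurable_restrict₂ hJI
    have : IsProbabilityMeasure ((m I).map (Finset.restrict₂ (π := fun _ : A => E N) hJI)) :=
      Measure.isProbabilityMeasure_map hres.aemeasurable
    refine LimEx_uniq J _ _ fun w => ?_
    rw [integral_map hres.aemeasurable (LimEx_meas J w).aestronglyMeasurable]
    -- the extension of `w|_J` by zero
    obtain ⟨W, hW⟩ : ∃ W : A → E N, W = fun a => if a ∈ J then w a else 0 := ⟨_, rfl⟩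
    have hWJ : ∀ q ∈ J, W q = w q := fun q hq => by rw [hW]; simp [hq]
    have hW0 : ∀ q, q ∉ J → W q = 0 := fun q hq => by rw [hW]; simp [hq]
    have e1 : ∀ v : (∀ _ : I, E N),
        (∑ q : J, (inner ℝ (w q) (Finset.restrict₂ (π := fun _ : A => E N) hJI v q) : ℝ)) =
        ∑ q : I, (inner ℝ (W q) (v q) : ℝ) := by
      intro v
      have a1 : ∑ q : J, (inner ℝ (w q) (Finset.restrict₂ (π := fun _ : A => E N) hJI v q) : ℝ) =
          ∑ q ∈ J, (inner ℝ (W q)
            ((fun a : A => if ha : a ∈ I then v ⟨a, ha⟩ else 0) q) : ℝ) := by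
        rw [← Finset.sum_coe_sort J]
        refine Finset.sum_congr rfl fun q _ => ?_
        have hq : (q : A) ∈ J := q.2
        rw [hWJ q hq]
        simp only [hJI hq, dif_pos]
        rfl
      have a2 : ∑ q : I, (inner ℝ (W q) (v q) : ℝ) =
          ∑ q ∈ I, (inner ℝ (W q)
            ((fun a : A => if ha : a ∈ I then v ⟨a, ha⟩ else 0) q) : ℝ) := by
        rw [← Finset.sum_coe_sort I]
        refine Finset.sum_congr rfl fun q _ => ?_
        have hq : (q : A) ∈ I := q.2
        simp only [hq, dif_pos]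
      rw [a1, a2]
      refine Finset.sum_subset hJI fun q _ hq => ?_
      rw [hW0 q hq, inner_zero_left]
    have e2 : ∀ v : (∀ _ : J, E N), (∑ q : J, (inner ℝ (w q) (v q) : ℝ)) =
        ∑ q : J, (inner ℝ (W q) (v q) : ℝ) := by
      intro v
      refine Finset.sum_congr rfl fun q _ => ?_
      rw [hWJ q q.2]
    simp only [e1, e2]
    rw [hm2, hm2]
    refine tendsto_nhds_unique (h J _) ((h I _).congr fun t => ?_)
    refine integral_congr_ae (Filter.Eventually.of_forall fun ω => ?_)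
    show ech I _ _ = ech J _ _
    unfold ech
    congr 3
    refine (Finset.sum_subset hJI fun q _ hq => ?_).symm
    rw [hW0 q hq, inner_zero_left]
  have : ∀ I, IsProbabilityMeasure (m I) := hm1
  obtain ⟨μ, hμ1, hμ2⟩ := kolm_ext (α := fun _ : A => E N) m hproj
  refine ⟨μ, hμ1, fun I u => ?_⟩
  rw [← hm2 I u, ← hμ2 I, integral_map (Finset.measurable_restrict I).aemeasurable
    (LimEx_meas I u).aestronglyMeasurable]
  refine integral_congr_ae (Filter.Eventually.of_forall fun f => ?_)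
  show ech I u f = _
  rw [LimEx_ech]
  rfl

end Dyn
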