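import Pool.Agent.Lib_MP_36b788.MSF
import Pool.Agent.Lib_MP_36b788.CharExt
import Pool.Agent.Lib_MP_36b788.SdeA

/-!
# LIMINV: the limit law is invariant under space-time shifts

PROOF. `shift_meas`: measurability of the shift (coordinates). `char_inv`: char_ext. `∫ech I u d(μ.map shift) = ∫ech I u (shiftST s c f)dμ =
∫ech I' u' f dμ` with `I' = I.image (fun q => (q.1+s, q.2+c))`, `u' q = u (q.1-s, q.2-c)` (injective reindexing). By `h` for `S` it is the
limit of `∫Xf' S.H I' u' t dP = ∫Xf' (fun t x => S.H t (x+c)) I u (t+s) dP` (`t+(q.1+s) = (t+s)+q.1`), and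
`H^c = fun t x => S.H t (x + c)` is again a solution (dynamo_shift, init_shift) so by `h` for that solution and `t+s → ∞` the limit
is `∫ech I u dμ`. Uniqueness of limits.
-/

open MeasureTheory ProbabilityTheory Filter
open scoped NNReal ENNReal Topology

namespace Dyn

theorem shift_meas {N d : ℕ} (s : ℝ≥0) (c : Site d) : Measurable (shiftST (N := N) s c) := by
  unfold shiftST
  exact measurable_pi_lambda _ fun q => measurable_pi_apply _

private theorem LimInv_ech {N d : ℕ} (I : Finset (ℝ≥0 × Site d)) (u : ℝ≥0 × Site d → E N)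
    (s : ℝ≥0) (c : Site d) :
    ∃ (K : Finset (ℝ≥0 × Site d)) (w : ℝ≥0 × Site d → E N), ∀ f,
      ech I u (shiftST s c f) = ech K w f := by
  classical
  obtain ⟨φ, hφd⟩ : ∃ φ : ℝ≥0 × Site d → ℝ≥0 × Site d, φ = fun q => (q.1 + s, q.2 + c) := ⟨_, rfl⟩
  have hφ : Function.Injective φ := by
    rintro ⟨a, x⟩ ⟨b, y⟩ h
    rw [hφd] at h
    simp only [Prod.mk.injEq, add_left_inj] at h
    obtain ⟨rfl, rfl⟩ := h
    rfl
  refine ⟨I.image φ, fun q => u (q.1 - s, q.2 - c), fun f => ?_⟩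
  unfold ech
  congr 3
  rw [Finset.sum_image hφ.injOn]
  refine Finset.sum_congr rfl fun q _ => ?_
  rw [hφd]
  simp only [shiftST, add_tsub_cancel_right]

theorem char_inv {N d : ℕ} {k β : ℝ} (μ : Measure (ℝ≥0 × Site d → E N))
    [IsProbabilityMeasure μ] (S : Sol N d k 1 β)
    (h : ∀ (S : Sol N d k 1 β) I u, Tendsto (fun t : ℝ≥0 => ∫ ω, Xf' S.H I u t ω ∂S.P) atTop
      (𝓝 (∫ f, ech I u f ∂μ))) (s : ℝ≥0) (c : Site d) :
    μ.map (shiftST s c) = μ := by
  have : IsProbabilityMeasure (μ.map (shiftST s c)) :=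
    Measure.isProbabilityMeasure_map (shift_meas s c).aemeasurable
  refine char_ext _ _ fun I u => ?_
  rw [integral_map (shift_meas s c).aemeasurable (ech_meas I u).aestronglyMeasurable]
  obtain ⟨K, w, hw⟩ := LimInv_ech I u s c
  have h1 := h S K w
  have h2 := h ⟨S.Ω, S.mΩ, S.P, S.ℱ, fun x => S.B (x + c), fun t x => S.H t (x + c),
    dynamo_shift S.dyn c, init_shift S.init c⟩ I u
  have h3 : Tendsto (fun t : ℝ≥0 => ∫ ω, Xf' (fun t x => S.H t (x + c)) I u (t + s) ω ∂S.P)
      atTop (𝓝 (∫ f, ech I u f ∂μ)) :=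
    h2.comp (tendsto_atTop_mono (fun _ => le_self_add) tendsto_id)
  have h4 : ∀ (t : ℝ≥0) (ω : S.Ω), Xf' (fun t x => S.H t (x + c)) I u (t + s) ω =
      Xf' S.H K w t ω := by
    intro t ω
    rw [Xf'_eq, Xf'_eq, ← hw]
    congr 1
    funext q
    simp only [shiftST]
    rw [add_comm q.1 s, ← add_assoc]
  simp only [h4] at h3
  have h5 := tendsto_nhds_unique h1 h3
  simp only [hw]
  exact h5

end Dyn
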