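import Pool.Agent.Lib_MP_36b788.Defs

/-!
# MMB: bounds for the weight `mm = M^{-4}`

`M(r) = e^{-r} + √r (c₁ t(r/r1) + ϑ(r/Rc))`, `c₁ = b/√r1`, `b = 1/(32N)`, `t = tt`, `ϑ = th (β-1)`,
`Q = M/√r`, `mm(r) r² = Q^{-4}`.

PROOF. `0 ≤ tt < 1`, `tt(ρ) ≥ 1/2` for `ρ ≥ 1`, `0 ≤ ϑ < 1`. Choose `A0` large, `r1 = 1/A ≤ 1/A0`.
* `M > 0` clear. `mm ≤ 2`: for `r ≤ 1/10`, `M ≥ e^{-1/10} ≥ 0.9`; for `r ≥ 1/10 ≥ r1`,
  `M ≥ √r c₁/2 ≥ 0.15 b √A ≥ 1` for large `A`.
* `r ≤ 6 r1`: `M ≤ 1 + √(6 r1)(b/√r1 + 1) ≤ 1 + √6 b + √(6 r1) ≤ 3/2`, so `mm ≥ (2/3)^4 ≥ 1/10`.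
* `r ≥ r1/2`: `Q ≤ 1/√r + b/√r1 + 1 ≤ (√2+b)/√r1 + 1 ≤ 2/√r1`, `Q^{-4} ≥ r1²/16`.
* all `r`: `mm r² ≤ CF r1²`, `CF = 16 (32N)^4`: for `r ≥ r1` `Q ≥ b/(2√r1)`; for `r ≤ r1` `mm r² ≤ 2 r1²`.
* `log mm` is Lipschitz in `r ≥ 0`, constant `CM` (depending on `A`): `M` is Lipschitz
  (`√r tt(r/r1)` behaves like `r²` at `0` and its derivative is bounded; `√r ϑ(r/Rc)` like `r^{3/2}`:
  derivative of `√r·f` is `f/(2√r) + √r f'`, with `f ≤ C min(r,1)`, `f' ≤ C/(1+r)`) and bounded below by a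
  positive constant (`≥ 9/10` near `0`, `≥ c√r` later).
-/

open MeasureTheory

namespace Dyn

private lemma MMB_tt_eq (ρ : ℝ) (hρ : 0 ≤ ρ) : tt ρ = Real.sqrt ρ ^ 3 / (1 + Real.sqrt ρ ^ 3) := by
  have h : ρ ^ (3 / 2 : ℝ) = Real.sqrt ρ ^ 3 := by
    rw [Real.sqrt_eq_rpow, ← Real.rpow_natCast, ← Real.rpow_mul hρ]
    norm_num
  unfold tt
  rw [h]

private lemma MMB_tt_nn (ρ : ℝ) (hρ : 0 ≤ ρ) : 0 ≤ tt ρ := by
  rw [MMB_tt_eq ρ hρ]
  positivity

private lemma MMB_tt_le (ρ : ℝ) (hρ : 0 ≤ ρ) : tt ρ ≤ 1 := by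
  rw [MMB_tt_eq ρ hρ]
  have h : 0 ≤ Real.sqrt ρ ^ 3 := by positivity
  rw [div_le_one (by linarith)]
  linarith

private lemma MMB_tt_half (ρ : ℝ) (hρ : 1 ≤ ρ) : 1 / 2 ≤ tt ρ := by
  rw [MMB_tt_eq ρ (by linarith)]
  have h : 1 ≤ Real.sqrt ρ := Real.one_le_sqrt.2 hρ
  have h3 : 1 ≤ Real.sqrt ρ ^ 3 := one_le_pow₀ h
  rw [div_le_div_iff₀ (by norm_num) (by linarith)]
  linarith

private lemma MMB_th_nn (s ρ : ℝ) (hs : 0 < s) (hρ : 0 ≤ ρ) : 0 ≤ th s ρ := by
  unfold th
  have h : (1 + ρ) ^ (-s) ≤ 1 := Real.rpow_le_one_of_one_le_of_nonpos (by linarith) (by linarith)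
  linarith

private lemma MMB_th_le (s ρ : ℝ) (hρ : 0 ≤ ρ) : th s ρ ≤ 1 := by
  unfold th
  have h : 0 ≤ (1 + ρ) ^ (-s) := Real.rpow_nonneg (by linarith) _
  linarith

/-- differences of `th` -/
private lemma MMB_th_diff (s x y : ℝ) (hs : 0 < s) (hx : 0 ≤ x) (hxy : x ≤ y) :
    0 ≤ th s y - th s x ∧ th s y - th s x ≤ 2 * s * (y - x) / Real.sqrt (1 + y) := by
  have hx1 : 0 < 1 + x := by linarith
  have hy1 : 0 < 1 + y := by linarith
  have e1 : th s y - th s x = (1 + x) ^ (-s) - (1 + y) ^ (-s) := by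
    unfold th
    ring
  have h0 : (1 + y) ^ (-s) ≤ (1 + x) ^ (-s) :=
    Real.rpow_le_rpow_of_nonpos hx1 (by linarith) (by linarith)
  refine ⟨by rw [e1]; linarith, ?_⟩
  rw [e1]
  set a := Real.sqrt (1 + x) with ha
  set c := Real.sqrt (1 + y) with hc
  have ha0 : 1 ≤ a := Real.one_le_sqrt.2 (by linarith)
  have hac : a ≤ c := Real.sqrt_le_sqrt (by linarith)
  have ha2 : a ^ 2 = 1 + x := Real.sq_sqrt hx1.le
  have hc2 : c ^ 2 = 1 + y := Real.sq_sqrt hy1.le
  have hc0 : 0 < c := by linarith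
  have ha0' : 0 < a := by linarith
  -- logarithms
  have hL : Real.log (1 + y) - Real.log (1 + x) ≤ 2 * (y - x) / c := by
    rw [← ha2, ← hc2, Real.log_pow, Real.log_pow]
    have h1 : Real.log c - Real.log a ≤ c / a - 1 := by
      rw [← Real.log_div hc0.ne' ha0'.ne']
      exact Real.log_le_sub_one_of_pos (div_pos hc0 ha0')
    have h2 : c / a - 1 ≤ (y - x) / c := by
      have h3 : y - x = c ^ 2 - a ^ 2 := by rw [ha2, hc2]; ring
      rw [h3, div_sub_one ha0'.ne', div_le_div_iff₀ ha0' hc0]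
      nlinarith [mul_nonneg (sub_nonneg.2 hac) (sub_nonneg.2 ha0), mul_nonneg (sub_nonneg.2 hac) ha0'.le,
        mul_nonneg (mul_nonneg (sub_nonneg.2 hac) (sub_nonneg.2 ha0)) hc0.le]
    push_cast
    have h4 : 2 * (y - x) / c = 2 * ((y - x) / c) := by ring
    rw [h4]
    linarith
  have hexp : (1 + x) ^ (-s) - (1 + y) ^ (-s) ≤ s * (Real.log (1 + y) - Real.log (1 + x)) := by
    rw [Real.rpow_def_of_pos hx1, Real.rpow_def_of_pos hy1]
    set L := Real.log (1 + x)
    set L' := Real.log (1 + y)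
    have hLL : L ≤ L' := Real.log_le_log hx1 (by linarith)
    have hL0 : 0 ≤ L := Real.log_nonneg (by linarith)
    have h5 : Real.exp (L' * -s) = Real.exp (L * -s) * Real.exp (-(s * (L' - L))) := by
      rw [← Real.exp_add]
      congr 1
      ring
    have h6 : 1 - s * (L' - L) ≤ Real.exp (-(s * (L' - L))) := by
      have := Real.add_one_le_exp (-(s * (L' - L)))
      linarith
    have h7 : Real.exp (L * -s) ≤ 1 := Real.exp_le_one_iff.2 (by nlinarith)
    have h8 : 0 < Real.exp (L * -s) := Real.exp_pos _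
    rw [h5]
    have h9 : 0 ≤ s * (L' - L) := mul_nonneg hs.le (by linarith)
    calc Real.exp (L * -s) - Real.exp (L * -s) * Real.exp (-(s * (L' - L)))
        = Real.exp (L * -s) * (1 - Real.exp (-(s * (L' - L)))) := by ring
      _ ≤ Real.exp (L * -s) * (s * (L' - L)) := mul_le_mul_of_nonneg_left (by linarith) h8.le
      _ ≤ 1 * (s * (L' - L)) := mul_le_mul_of_nonneg_right h7 h9
      _ = s * (L' - L) := one_mul _
  calc (1 + x) ^ (-s) - (1 + y) ^ (-s) ≤ s * (Real.log (1 + y) - Real.log (1 + x)) := hexp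
    _ ≤ s * (2 * (y - x) / c) := mul_le_mul_of_nonneg_left hL hs.le
    _ = 2 * s * (y - x) / c := by ring

private lemma MMB_th_sqrt (s x : ℝ) (hs : 0 < s) (hx : 0 ≤ x) : th s x ≤ 2 * s * Real.sqrt x := by
  have h := (MMB_th_diff s 0 x hs le_rfl hx).2
  have h0 : th s 0 = 0 := by
    unfold th
    simp
  rw [h0, sub_zero, sub_zero] at h
  refine h.trans ?_
  have h1 : 0 < Real.sqrt (1 + x) := Real.sqrt_pos.2 (by linarith)
  rw [div_le_iff₀ h1]
  have h2 : Real.sqrt x ≤ Real.sqrt (1 + x) := Real.sqrt_le_sqrt (by linarith)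
  have h3 : x = Real.sqrt x * Real.sqrt x := (Real.mul_self_sqrt hx).symm
  have h4 : Real.sqrt x * Real.sqrt x ≤ Real.sqrt x * Real.sqrt (1 + x) :=
    mul_le_mul_of_nonneg_left h2 (Real.sqrt_nonneg x)
  have h5 : x ≤ Real.sqrt x * Real.sqrt (1 + x) := by linarith
  calc 2 * s * x ≤ 2 * s * (Real.sqrt x * Real.sqrt (1 + x)) :=
        mul_le_mul_of_nonneg_left h5 (by linarith)
    _ = _ := by ring

/-- `√ρ th s ρ` is Lipschitz -/
private lemma MMB_G2 (s x y : ℝ) (hs : 0 < s) (hx : 0 ≤ x) (hxy : x ≤ y) :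
    0 ≤ Real.sqrt y * th s y - Real.sqrt x * th s x ∧
    Real.sqrt y * th s y - Real.sqrt x * th s x ≤ 4 * s * (y - x) := by
  have hy : 0 ≤ y := hx.trans hxy
  obtain ⟨h1, h2⟩ := MMB_th_diff s x y hs hx hxy
  have h3 : Real.sqrt x ≤ Real.sqrt y := Real.sqrt_le_sqrt hxy
  have h4 := MMB_th_nn s x hs hx
  have h5 := MMB_th_sqrt s x hs hx
  have e : Real.sqrt y * th s y - Real.sqrt x * th s x =
      (Real.sqrt y - Real.sqrt x) * th s x + Real.sqrt y * (th s y - th s x) := by ring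
  have hsx := Real.sqrt_nonneg x
  have hsy := Real.sqrt_nonneg y
  have hx2 : Real.sqrt x * Real.sqrt x = x := Real.mul_self_sqrt hx
  have hy2 : Real.sqrt y * Real.sqrt y = y := Real.mul_self_sqrt hy
  constructor
  · rw [e]
    have := mul_nonneg (sub_nonneg.2 h3) h4
    have := mul_nonneg hsy h1
    linarith
  · rw [e]
    have a1 : (Real.sqrt y - Real.sqrt x) * th s x ≤ 2 * s * (y - x) := by
      calc (Real.sqrt y - Real.sqrt x) * th s x ≤ (Real.sqrt y - Real.sqrt x) * (2 * s * Real.sqrt x) :=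
            mul_le_mul_of_nonneg_left h5 (sub_nonneg.2 h3)
        _ ≤ (Real.sqrt y - Real.sqrt x) * (2 * s * (Real.sqrt x + Real.sqrt y)) := by
            apply mul_le_mul_of_nonneg_left _ (sub_nonneg.2 h3)
            apply mul_le_mul_of_nonneg_left _ (by linarith)
            linarith
        _ = 2 * s * (Real.sqrt y * Real.sqrt y - Real.sqrt x * Real.sqrt x) := by ring
        _ = 2 * s * (y - x) := by rw [hx2, hy2]
    have a2 : Real.sqrt y * (th s y - th s x) ≤ 2 * s * (y - x) := by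
      have h6 : 0 < Real.sqrt (1 + y) := Real.sqrt_pos.2 (by linarith)
      have h7 : Real.sqrt y ≤ Real.sqrt (1 + y) := Real.sqrt_le_sqrt (by linarith)
      calc Real.sqrt y * (th s y - th s x) ≤ Real.sqrt (1 + y) * (th s y - th s x) :=
            mul_le_mul_of_nonneg_right h7 h1
        _ ≤ Real.sqrt (1 + y) * (2 * s * (y - x) / Real.sqrt (1 + y)) :=
            mul_le_mul_of_nonneg_left h2 h6.le
        _ = 2 * s * (y - x) := by field_simp
    linarith

/-- `√ρ tt ρ` is Lipschitz -/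
private lemma MMB_G1 (x y : ℝ) (hx : 0 ≤ x) (hxy : x ≤ y) :
    0 ≤ Real.sqrt y * tt y - Real.sqrt x * tt x ∧
    Real.sqrt y * tt y - Real.sqrt x * tt x ≤ 3 * (y - x) := by
  have hy : 0 ≤ y := hx.trans hxy
  rw [MMB_tt_eq x hx, MMB_tt_eq y hy]
  have h3 : Real.sqrt x ≤ Real.sqrt y := Real.sqrt_le_sqrt hxy
  have hx2 : Real.sqrt x ^ 2 = x := Real.sq_sqrt hx
  have hy2 : Real.sqrt y ^ 2 = y := Real.sq_sqrt hy
  have hsx := Real.sqrt_nonneg x
  rw [show y - x = Real.sqrt y ^ 2 - Real.sqrt x ^ 2 by rw [hx2, hy2]]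
  generalize Real.sqrt x = a at *
  generalize Real.sqrt y = c at *
  have hc : 0 ≤ c := hsx.trans h3
  have ha3 : 0 ≤ a ^ 3 := by positivity
  have hc3 : 0 ≤ c ^ 3 := by positivity
  have e : c * (c ^ 3 / (1 + c ^ 3)) - a * (a ^ 3 / (1 + a ^ 3)) =
      ((c - a) * ((a + c) * (a ^ 2 + c ^ 2) + a ^ 3 * c ^ 3)) / ((1 + c ^ 3) * (1 + a ^ 3)) := by
    field_simp
    ring
  rw [e]
  have hD : 0 < (1 + c ^ 3) * (1 + a ^ 3) := by positivity
  have hca : 0 ≤ c - a := by linarith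
  constructor
  · apply div_nonneg _ hD.le
    apply mul_nonneg hca
    positivity
  · rw [div_le_iff₀ hD]
    have h6 : (a + c) * (a ^ 2 + c ^ 2) + a ^ 3 * c ^ 3 ≤ 3 * (c + a) * ((1 + c ^ 3) * (1 + a ^ 3)) := by
      have k1 : a ^ 2 ≤ 1 + a ^ 3 := by nlinarith [sq_nonneg (a - 1), mul_nonneg hsx (sq_nonneg (a - 1)), mul_nonneg hsx hsx]
      have k2 : c ^ 2 ≤ 1 + c ^ 3 := by nlinarith [sq_nonneg (c - 1), mul_nonneg hc (sq_nonneg (c - 1)), mul_nonneg hc hc]
      have k3 : a ^ 2 + c ^ 2 ≤ 2 * ((1 + c ^ 3) * (1 + a ^ 3)) := by nlinarith [mul_nonneg ha3 hc3]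
      have k4 : (a + c) * (a ^ 2 + c ^ 2) ≤ (a + c) * (2 * ((1 + c ^ 3) * (1 + a ^ 3))) :=
        mul_le_mul_of_nonneg_left k3 (by linarith)
      have k5 : a ^ 3 * c ^ 3 ≤ (a + c) * ((1 + c ^ 3) * (1 + a ^ 3)) := by
        calc a ^ 3 * c ^ 3 = a * (a ^ 2 * c ^ 3) := by ring
          _ ≤ a * ((1 + a ^ 3) * (1 + c ^ 3)) := by
              apply mul_le_mul_of_nonneg_left _ hsx
              exact mul_le_mul k1 (by linarith) hc3 (by linarith)
          _ ≤ (a + c) * ((1 + c ^ 3) * (1 + a ^ 3)) := by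
              rw [mul_comm (1 + a ^ 3) (1 + c ^ 3)]
              exact mul_le_mul_of_nonneg_right (by linarith) hD.le
      linarith
    calc (c - a) * ((a + c) * (a ^ 2 + c ^ 2) + a ^ 3 * c ^ 3)
        ≤ (c - a) * (3 * (c + a) * ((1 + c ^ 3) * (1 + a ^ 3))) := mul_le_mul_of_nonneg_left h6 hca
      _ = 3 * (c ^ 2 - a ^ 2) * ((1 + c ^ 3) * (1 + a ^ 3)) := by ring

/-- absolute values and scaling -/
private lemma MMB_scale (f : ℝ → ℝ) (K : ℝ) (hf : ∀ x y, 0 ≤ x → x ≤ y →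
    0 ≤ Real.sqrt y * f y - Real.sqrt x * f x ∧ Real.sqrt y * f y - Real.sqrt x * f x ≤ K * (y - x))
    (q : ℝ) (hq : 0 < q) (r r' : ℝ) (hr : 0 ≤ r) (hr' : 0 ≤ r') :
    |Real.sqrt r * f (r / q) - Real.sqrt r' * f (r' / q)| ≤ K / Real.sqrt q * |r - r'| := by
  have hsq : 0 < Real.sqrt q := Real.sqrt_pos.2 hq
  have key : ∀ x y : ℝ, 0 ≤ x → x ≤ y →
      |Real.sqrt x * f (x / q) - Real.sqrt y * f (y / q)| ≤ K / Real.sqrt q * |x - y| := by
    intro x y hx hxy
    have hy : 0 ≤ y := hx.trans hxy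
    have e1 : ∀ z : ℝ, 0 ≤ z → Real.sqrt z = Real.sqrt q * Real.sqrt (z / q) := by
      intro z _
      rw [← Real.sqrt_mul hq.le]
      congr 1
      field_simp
    obtain ⟨h1, h2⟩ := hf (x / q) (y / q) (div_nonneg hx hq.le) (div_le_div_of_nonneg_right hxy hq.le)
    rw [e1 x hx, e1 y hy]
    have e2 : Real.sqrt q * Real.sqrt (x / q) * f (x / q) - Real.sqrt q * Real.sqrt (y / q) * f (y / q) =
        -(Real.sqrt q * (Real.sqrt (y / q) * f (y / q) - Real.sqrt (x / q) * f (x / q))) := by ring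
    rw [e2, abs_neg, abs_of_nonneg (mul_nonneg hsq.le h1), abs_of_nonpos (by linarith : x - y ≤ 0)]
    have e3 : Real.sqrt q * (Real.sqrt (y / q) * f (y / q) - Real.sqrt (x / q) * f (x / q)) ≤
        Real.sqrt q * (K * (y / q - x / q)) := mul_le_mul_of_nonneg_left h2 hsq.le
    refine e3.trans (le_of_eq ?_)
    have e4 : q = Real.sqrt q * Real.sqrt q := (Real.mul_self_sqrt hq.le).symm
    have e5 : Real.sqrt q / q = 1 / Real.sqrt q := by
      rw [div_eq_div_iff hq.ne' hsq.ne', one_mul]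
      exact e4.symm
    calc Real.sqrt q * (K * (y / q - x / q)) = K * (y - x) * (Real.sqrt q / q) := by ring
      _ = K / Real.sqrt q * -(x - y) := by
          rw [e5]
          ring
  rcases le_total r r' with h | h
  · exact key r r' hr h
  · have := key r' r hr' h
    rwa [abs_sub_comm, abs_sub_comm r' r] at this

theorem MM_bounds (N : ℕ) (β : ℝ) (hN : 3 ≤ N) (hβ : 1 < β) :
    ∃ A0 : ℝ, 6 ≤ A0 ∧ ∀ A Rc : ℝ, A0 ≤ A → 1 ≤ Rc →
      (∀ r, 0 ≤ r → 0 < MM N β (1 / A) Rc r) ∧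
      (∀ r, 0 ≤ r → 0 < mm N β (1 / A) Rc r ∧ mm N β (1 / A) Rc r ≤ 2) ∧
      (∀ r, 0 ≤ r → r ≤ 6 / A → 1 / 10 ≤ mm N β (1 / A) Rc r) ∧
      (∀ r, 1 / (2 * A) ≤ r → 1 / (16 * A ^ 2) ≤ mm N β (1 / A) Rc r * r ^ 2) ∧
      (∀ r, 0 ≤ r → mm N β (1 / A) Rc r * r ^ 2 ≤ 16 * (32 * N) ^ 4 / A ^ 2) ∧
      ∃ CM : ℝ, 0 < CM ∧
        (∀ r r', 0 ≤ r → 0 ≤ r' →
          |Real.log (mm N β (1 / A) Rc r) - Real.log (mm N β (1 / A) Rc r')| ≤ CM * |r - r'|) := by
  have hN' : (3 : ℝ) ≤ N := by exact_mod_cast hN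
  refine ⟨(320 * N) ^ 2, by nlinarith, ?_⟩
  intro A Rc hA hRc
  have hA0 : 0 < A := lt_of_lt_of_le (by positivity) hA
  have hβ' : 0 < β - 1 := by linarith
  have hR0 : 0 < Rc := by linarith
  set a := Real.sqrt A with ha
  have ha2 : a ^ 2 = A := Real.sq_sqrt hA0.le
  have haN : 320 * (N : ℝ) ≤ a := Real.le_sqrt_of_sq_le hA
  have ha0 : 0 < a := by linarith
  have ha960 : 960 ≤ a := by linarith
  have hs1 : Real.sqrt (1 / A) = 1 / a := by rw [Real.sqrt_div zero_le_one, Real.sqrt_one]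
  set b : ℝ := 1 / (32 * N) with hb
  have hb0 : 0 < b := by positivity
  have hb1 : b ≤ 1 / 96 := by
    rw [hb]
    apply one_div_le_one_div_of_le (by norm_num)
    linarith
  have hba : 10 ≤ b * a := by
    rw [hb, one_div_mul_eq_div, le_div_iff₀ (by positivity)]
    linarith
  have hM : ∀ r, MM N β (1 / A) Rc r =
      Real.exp (-r) + Real.sqrt r * (b * a * tt (r / (1 / A)) + th (β - 1) (r / Rc)) := by
    intro r
    unfold MM
    rw [hs1, div_div_eq_mul_div, div_one]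
  have hdiv : ∀ r, r / (1 / A) = r * A := by
    intro r
    rw [div_div_eq_mul_div, div_one]
  have htt0 : ∀ r, 0 ≤ r → 0 ≤ tt (r / (1 / A)) := by
    intro r hr
    apply MMB_tt_nn
    positivity
  have htt1 : ∀ r, 0 ≤ r → tt (r / (1 / A)) ≤ 1 := by
    intro r hr
    apply MMB_tt_le
    positivity
  have hth0 : ∀ r, 0 ≤ r → 0 ≤ th (β - 1) (r / Rc) := by
    intro r hr
    apply MMB_th_nn _ _ hβ'
    positivity
  have hth1 : ∀ r, 0 ≤ r → th (β - 1) (r / Rc) ≤ 1 := by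
    intro r hr
    apply MMB_th_le
    positivity
  have hinner : ∀ r, 0 ≤ r → 0 ≤ b * a * tt (r / (1 / A)) + th (β - 1) (r / Rc) := by
    intro r hr
    have := htt0 r hr
    have := hth0 r hr
    positivity
  have hMpos : ∀ r, 0 ≤ r → 0 < MM N β (1 / A) Rc r := by
    intro r hr
    rw [hM]
    have h1 := Real.exp_pos (-r)
    have h2 := mul_nonneg (Real.sqrt_nonneg r) (hinner r hr)
    linarith
  -- lower bound for `M`
  have hMlow : ∀ r, 0 ≤ r → 9 / 10 ≤ MM N β (1 / A) Rc r := by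
    intro r hr
    rw [hM]
    rcases le_total r (1 / 10) with h | h
    · have h1 := Real.add_one_le_exp (-r)
      have h2 := mul_nonneg (Real.sqrt_nonneg r) (hinner r hr)
      linarith
    · have h1 := Real.exp_pos (-r)
      have h2 : 1 / 2 ≤ tt (r / (1 / A)) := by
        apply MMB_tt_half
        rw [hdiv]
        nlinarith
      have h3 : 3 / 10 ≤ Real.sqrt r := by
        apply Real.le_sqrt_of_sq_le
        norm_num
        linarith
      have h4 : 5 ≤ b * a * tt (r / (1 / A)) := by nlinarith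
      have h5 := hth0 r hr
      have h6 : 3 / 10 * 5 ≤ Real.sqrt r * (b * a * tt (r / (1 / A)) + th (β - 1) (r / Rc)) :=
        mul_le_mul h3 (by linarith) (by norm_num) (Real.sqrt_nonneg r)
      linarith
  have hmm : ∀ r, mm N β (1 / A) Rc r = (MM N β (1 / A) Rc r ^ 4)⁻¹ := by
    intro r
    unfold mm
    rw [zpow_neg]
    norm_cast
  have hmm2 : ∀ r, 0 ≤ r → mm N β (1 / A) Rc r ≤ 2 := by
    intro r hr
    rw [hmm]
    have h1 : (9 / 10 : ℝ) ^ 4 ≤ MM N β (1 / A) Rc r ^ 4 := pow_le_pow_left₀ (by norm_num) (hMlow r hr) 4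
    rw [inv_le_comm₀ (by have := hMpos r hr; positivity) (by norm_num)]
    norm_num at h1 ⊢
    linarith
  refine ⟨hMpos, fun r hr => ⟨?_, hmm2 r hr⟩, ?_, ?_, ?_, ?_⟩
  · rw [hmm]
    have := hMpos r hr
    positivity
  · -- near zero
    intro r hr hr6
    rw [hmm]
    have h1 : Real.exp (-r) ≤ 1 := Real.exp_le_one_iff.2 (by linarith)
    have h2 : Real.sqrt r ≤ 3 / a := by
      apply Real.sqrt_le_iff.2
      refine ⟨by positivity, ?_⟩
      rw [div_pow, ha2]
      refine hr6.trans ?_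
      rw [div_le_div_iff_of_pos_right hA0]
      norm_num
    have h3 : b * a * tt (r / (1 / A)) + th (β - 1) (r / Rc) ≤ b * a + 1 := by
      have k1 := htt1 r hr
      have k2 := hth1 r hr
      have k3 : 0 < b * a := by positivity
      nlinarith
    have h4 : Real.sqrt r * (b * a * tt (r / (1 / A)) + th (β - 1) (r / Rc)) ≤ 3 / a * (b * a + 1) :=
      mul_le_mul h2 h3 (hinner r hr) (by positivity)
    have h5 : 3 / a * (b * a + 1) = 3 * b + 3 / a := by field_simp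
    have h6 : 3 / a ≤ 1 / 320 := by
      rw [div_le_div_iff₀ ha0 (by norm_num)]
      linarith
    have h7 : MM N β (1 / A) Rc r ≤ 3 / 2 := by
      rw [hM]
      linarith
    have h8 : MM N β (1 / A) Rc r ^ 4 ≤ (3 / 2) ^ 4 := pow_le_pow_left₀ (hMpos r hr).le h7 4
    rw [one_div, inv_le_inv₀ (by norm_num) (by have := hMpos r hr; positivity)]
    norm_num at h8 ⊢
    linarith
  · -- lower bound of `mm r²`
    intro r hr
    have hr0 : 0 < r := lt_of_lt_of_le (by positivity) hr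
    have hsr : 0 < Real.sqrt r := Real.sqrt_pos.2 hr0
    have hsr2 : Real.sqrt r ^ 2 = r := Real.sq_sqrt hr0.le
    have h1 : Real.exp (-r) ≤ 1 := Real.exp_le_one_iff.2 (by linarith)
    have h3 : b * a * tt (r / (1 / A)) + th (β - 1) (r / Rc) ≤ b * a + 1 := by
      have k1 := htt1 r hr0.le
      have k2 := hth1 r hr0.le
      have k3 : 0 < b * a := by positivity
      nlinarith
    -- `1 ≤ (3/2) a √r`
    have h2 : 1 ≤ 3 / 2 * (a * Real.sqrt r) := by
      have k1 : 1 / 2 ≤ (a * Real.sqrt r) ^ 2 := by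
        rw [mul_pow, ha2, hsr2]
        rw [div_le_iff₀ (by positivity)] at hr
        linarith
      have k2 : 0 < a * Real.sqrt r := by positivity
      nlinarith
    have h4 : MM N β (1 / A) Rc r ≤ 2 * (a * Real.sqrt r) := by
      rw [hM]
      have k1 : Real.sqrt r * (b * a * tt (r / (1 / A)) + th (β - 1) (r / Rc)) ≤ Real.sqrt r * (b * a + 1) :=
        mul_le_mul_of_nonneg_left h3 hsr.le
      have k2 : b * (a * Real.sqrt r) ≤ 1 / 96 * (a * Real.sqrt r) :=
        mul_le_mul_of_nonneg_right hb1 (by positivity)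
      have k3 : 960 * Real.sqrt r ≤ a * Real.sqrt r := mul_le_mul_of_nonneg_right ha960 hsr.le
      nlinarith
    rw [hmm]
    have h5 : MM N β (1 / A) Rc r ^ 4 ≤ (2 * (a * Real.sqrt r)) ^ 4 :=
      pow_le_pow_left₀ (hMpos r hr0.le).le h4 4
    have h6 : (2 * (a * Real.sqrt r)) ^ 4 = 16 * A ^ 2 * r ^ 2 := by
      have k1 : (2 * (a * Real.sqrt r)) ^ 4 = 16 * (a ^ 2) ^ 2 * (Real.sqrt r ^ 2) ^ 2 := by ring
      rw [k1, ha2, hsr2]
    rw [h6] at h5
    have hMp : 0 < MM N β (1 / A) Rc r ^ 4 := by have := hMpos r hr0.le; positivity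
    rw [inv_mul_eq_div, div_le_div_iff₀ (by positivity) hMp]
    linarith
  · -- upper bound of `mm r²`
    intro r hr
    rcases le_total r (1 / A) with h | h
    · have h1 := hmm2 r hr
      have h2 : r ^ 2 ≤ (1 / A) ^ 2 := pow_le_pow_left₀ hr h 2
      have h3 : mm N β (1 / A) Rc r * r ^ 2 ≤ 2 * (1 / A) ^ 2 :=
        mul_le_mul h1 h2 (sq_nonneg r) (by norm_num)
      refine h3.trans ?_
      rw [one_div, inv_pow, ← div_eq_mul_inv]
      apply div_le_div_of_nonneg_right _ (by positivity)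
      have h4 : (1 : ℝ) ≤ (32 * N) ^ 4 := one_le_pow₀ (by linarith)
      linarith
    · have hr0 : 0 < r := lt_of_lt_of_le (by positivity) h
      have hsr : 0 < Real.sqrt r := Real.sqrt_pos.2 hr0
      have hsr2 : Real.sqrt r ^ 2 = r := Real.sq_sqrt hr0.le
      have h2 : 1 / 2 ≤ tt (r / (1 / A)) := by
        apply MMB_tt_half
        rw [hdiv]
        rw [div_le_iff₀ hA0] at h
        linarith
      have h1 := Real.exp_pos (-r)
      have h5 := hth0 r hr
      have h6 : b * a * (1 / 2) ≤ b * a * tt (r / (1 / A)) :=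
        mul_le_mul_of_nonneg_left h2 (by positivity)
      have h7 : Real.sqrt r * (b * a * (1 / 2)) ≤
          Real.sqrt r * (b * a * tt (r / (1 / A)) + th (β - 1) (r / Rc)) :=
        mul_le_mul_of_nonneg_left (by linarith) hsr.le
      have h8 : b * a / 2 * Real.sqrt r ≤ MM N β (1 / A) Rc r := by
        rw [hM]
        linarith
      have h9 : (b * a / 2 * Real.sqrt r) ^ 4 ≤ MM N β (1 / A) Rc r ^ 4 :=
        pow_le_pow_left₀ (by positivity) h8 4
      have h10 : (b * a / 2 * Real.sqrt r) ^ 4 = A ^ 2 * r ^ 2 / (16 * (32 * N) ^ 4) := by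
        have k1 : (b * a / 2 * Real.sqrt r) ^ 4 = b ^ 4 * (a ^ 2) ^ 2 * (Real.sqrt r ^ 2) ^ 2 / 16 := by ring
        rw [k1, ha2, hsr2, hb]
        field_simp
      rw [h10] at h9
      rw [hmm]
      have hMp : 0 < MM N β (1 / A) Rc r ^ 4 := by have := hMpos r hr; positivity
      rw [inv_mul_eq_div, div_le_div_iff₀ hMp (by positivity)]
      rw [div_le_iff₀ (by positivity)] at h9
      linarith
  · -- Lipschitz
    refine ⟨8 * (1 + b * a * (3 / Real.sqrt (1 / A)) + 4 * (β - 1) / Real.sqrt Rc), by positivity, ?_⟩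
    intro r r' hr hr'
    have hL1 : |Real.exp (-r) - Real.exp (-r')| ≤ |r - r'| := by
      have key : ∀ x y : ℝ, 0 ≤ x → x ≤ y → |Real.exp (-x) - Real.exp (-y)| ≤ |x - y| := by
        intro x y hx hxy
        have k1 : Real.exp (-y) ≤ Real.exp (-x) := Real.exp_le_exp.2 (by linarith)
        rw [abs_of_nonneg (by linarith), abs_of_nonpos (by linarith)]
        have k2 : Real.exp (-y) = Real.exp (-x) * Real.exp (-(y - x)) := by
          rw [← Real.exp_add]
          congr 1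
          ring
        have k3 := Real.add_one_le_exp (-(y - x))
        have k4 : Real.exp (-x) ≤ 1 := Real.exp_le_one_iff.2 (by linarith)
        have k5 := Real.exp_pos (-x)
        rw [k2]
        nlinarith
      rcases le_total r r' with h | h
      · exact key r r' hr h
      · have := key r' r hr' h
        rwa [abs_sub_comm, abs_sub_comm r' r] at this
    have hL2 := MMB_scale tt 3 (fun x y hx hxy => MMB_G1 x y hx hxy) (1 / A) (by positivity) r r' hr hr'
    have hL3 := MMB_scale (th (β - 1)) (4 * (β - 1)) (fun x y hx hxy => MMB_G2 (β - 1) x y hβ' hx hxy)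
      Rc hR0 r r' hr hr'
    have hLM : |MM N β (1 / A) Rc r - MM N β (1 / A) Rc r'| ≤
        (1 + b * a * (3 / Real.sqrt (1 / A)) + 4 * (β - 1) / Real.sqrt Rc) * |r - r'| := by
      have e : MM N β (1 / A) Rc r - MM N β (1 / A) Rc r' =
          (Real.exp (-r) - Real.exp (-r')) +
          (b * a * (Real.sqrt r * tt (r / (1 / A)) - Real.sqrt r' * tt (r' / (1 / A))) +
          (Real.sqrt r * th (β - 1) (r / Rc) - Real.sqrt r' * th (β - 1) (r' / Rc))) := by
        rw [hM, hM]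
        ring
      rw [e]
      refine (abs_add_le _ _).trans ?_
      have e2 := abs_add_le (b * a * (Real.sqrt r * tt (r / (1 / A)) - Real.sqrt r' * tt (r' / (1 / A))))
        (Real.sqrt r * th (β - 1) (r / Rc) - Real.sqrt r' * th (β - 1) (r' / Rc))
      have e3 : |b * a * (Real.sqrt r * tt (r / (1 / A)) - Real.sqrt r' * tt (r' / (1 / A)))| ≤
          b * a * (3 / Real.sqrt (1 / A) * |r - r'|) := by
        rw [abs_mul, abs_of_pos (by positivity : 0 < b * a)]
        exact mul_le_mul_of_nonneg_left hL2 (by positivity)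
      have e4 : (1 + b * a * (3 / Real.sqrt (1 / A)) + 4 * (β - 1) / Real.sqrt Rc) * |r - r'| =
          |r - r'| + (b * a * (3 / Real.sqrt (1 / A) * |r - r'|) +
            4 * (β - 1) / Real.sqrt Rc * |r - r'|) := by ring
      rw [e4]
      linarith
    have hlog : ∀ x y : ℝ, 9 / 10 ≤ x → 9 / 10 ≤ y → |Real.log x - Real.log y| ≤ 2 * |x - y| := by
      have key : ∀ x y : ℝ, 9 / 10 ≤ x → x ≤ y → |Real.log x - Real.log y| ≤ 2 * |x - y| := by
        intro x y hx hxy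
        have hx0 : 0 < x := by linarith
        have hy0 : 0 < y := by linarith
        have k1 : Real.log x ≤ Real.log y := Real.log_le_log hx0 hxy
        rw [abs_of_nonpos (by linarith), abs_of_nonpos (by linarith : x - y ≤ 0)]
        have k2 : Real.log y - Real.log x ≤ y / x - 1 := by
          rw [← Real.log_div hy0.ne' hx0.ne']
          exact Real.log_le_sub_one_of_pos (div_pos hy0 hx0)
        have k3 : y / x - 1 ≤ 2 * (y - x) := by
          rw [div_sub_one hx0.ne', div_le_iff₀ hx0]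
          nlinarith
        linarith
      intro x y hx hy
      rcases le_total x y with h | h
      · exact key x y hx h
      · have := key y x hy h
        rwa [abs_sub_comm, abs_sub_comm y x] at this
    have e5 : ∀ r, Real.log (mm N β (1 / A) Rc r) = -4 * Real.log (MM N β (1 / A) Rc r) := by
      intro r
      unfold mm
      rw [Real.log_zpow]
      push_cast
      ring
    rw [e5, e5]
    have e6 : -4 * Real.log (MM N β (1 / A) Rc r) - -4 * Real.log (MM N β (1 / A) Rc r') =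
        (-4) * (Real.log (MM N β (1 / A) Rc r) - Real.log (MM N β (1 / A) Rc r')) := by ring
    rw [e6, abs_mul]
    have e7 := hlog _ _ (hMlow r hr) (hMlow r' hr')
    have e8 : |(-4 : ℝ)| = 4 := by norm_num
    rw [e8]
    calc 4 * |Real.log (MM N β (1 / A) Rc r) - Real.log (MM N β (1 / A) Rc r')|
        ≤ 4 * (2 * |MM N β (1 / A) Rc r - MM N β (1 / A) Rc r'|) := by linarith
      _ ≤ 4 * (2 * ((1 + b * a * (3 / Real.sqrt (1 / A)) + 4 * (β - 1) / Real.sqrt Rc) * |r - r'|)) := by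
          linarith
      _ = _ := by ring

end Dyn
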