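import Pool.Agent.Lib_MP_36b788.ShDefs

/-!
# MSF: facts about the discrete test functions

PROOF. `|exp(i a)| = 1`, `|exp(i a) - exp(i b)| ≤ min 2 |a-b|`. `lip`: `|a-b| ≤ Σ_{q∈I, idx q = i}‖u q‖‖G x_q-G' x_q‖` and
`min(2, Σ) ≤ Σ_q min(2,‖u q‖‖D_q‖) ≤ Σ_q(2+‖u q‖)min(1,‖D_q‖)`, every `min(1,‖D_q‖)` is at most the sum over `|x|₁ ≤ R`
(`q.2` lies in the box because `|q.2|₁ ≤ R ≤ L`). `one`: empty sum. `prod`: exponential of a sum, every `q ∈ I` is counted once.
`meas`: `ext0` is measurable in `G`. `diff`: `|Πe^{ia_q} - Πe^{ib_q}| ≤ Σ‖u q‖‖·‖`.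
-/

open MeasureTheory ProbabilityTheory Filter
open scoped NNReal ENNReal Topology

namespace Dyn

private theorem MSF_norm (a : ℝ) : ‖Complex.exp (Complex.I * (a : ℂ))‖ = 1 := by
  rw [mul_comm, Complex.norm_exp_ofReal_mul_I]

private theorem MSF_diff (a b : ℝ) :
    ‖Complex.exp (Complex.I * (a : ℂ)) - Complex.exp (Complex.I * (b : ℂ))‖ ≤ |a - b| := by
  have h1 : Complex.exp (Complex.I * (a : ℂ)) - Complex.exp (Complex.I * (b : ℂ)) =
      Complex.exp (Complex.I * (b : ℂ)) * (Complex.exp (Complex.I * ((a - b : ℝ) : ℂ)) - 1) := by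
    rw [mul_sub, ← Complex.exp_add, mul_one]
    congr 2
    push_cast
    ring
  rw [h1, norm_mul, MSF_norm, one_mul]
  have h2 := Real.norm_exp_I_mul_ofReal_sub_one_le (x := a - b)
  simpa [Real.norm_eq_abs] using h2

private theorem MSF_ext0_meas {N d L : ℕ} (x : Site d) :
    Measurable (fun G : boxS d L → E N => ext0 G x) := by
  by_cases hx : x ∈ boxS d L
  · have h1 : (fun G : boxS d L → E N => ext0 G x) = fun G => G ⟨x, hx⟩ := by
      funext G
      unfold ext0
      rw [dif_pos hx]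
    rw [h1]
    exact measurable_pi_apply _
  · have h1 : (fun G : boxS d L → E N => ext0 G x) = fun _ => 0 := by
      funext G
      unfold ext0
      rw [dif_neg hx]
    rw [h1]
    exact measurable_const

private theorem MSF_box {d L R : ℕ} (x : Site d) (hx : l1 x 0 ≤ R) (hL : R ≤ L) : x ∈ boxS d L := by
  unfold boxS
  rw [Finset.mem_Icc, Pi.le_def, Pi.le_def]
  have h1 : ∀ i, (x i).natAbs ≤ L := by
    intro i
    have h2 : (x i - (0 : Site d) i).natAbs ≤ l1 x 0 := by
      unfold l1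
      exact Finset.single_le_sum (f := fun i => (x i - (0 : Site d) i).natAbs)
        (fun j _ => Nat.zero_le _) (Finset.mem_univ i)
    have h3 : (x i - (0 : Site d) i).natAbs = (x i).natAbs := by simp
    omega
  constructor
  · intro i
    have := h1 i
    omega
  · intro i
    have := h1 i
    omega

section
variable {N d L : ℕ} (I : Finset (ℝ≥0 × Site d)) (u : ℝ≥0 × Site d → E N)
  (idx : ℝ≥0 × Site d → ℕ)

theorem Fdisc_meas (i : ℕ) : Measurable (Fdisc (L := L) I u idx i) := by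
  unfold Fdisc
  refine Complex.measurable_exp.comp (measurable_const.mul (Complex.measurable_ofReal.comp ?_))
  refine Finset.measurable_sum _ fun q _ => ?_
  exact Measurable.inner measurable_const (MSF_ext0_meas q.2)

theorem Fdisc_norm (i : ℕ) (G : boxS d L → E N) : ‖Fdisc I u idx i G‖ = 1 := by
  unfold Fdisc
  exact MSF_norm _

theorem Fdisc_one (i : ℕ) (hi : i ∉ I.image idx) :
    Fdisc (L := L) I u idx i = fun _ => 1 := by
  funext G
  unfold Fdisc
  have h1 : I.filter (fun q => idx q = i) = ∅ := by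
    rw [Finset.filter_eq_empty_iff]
    intro q hq he
    exact hi (Finset.mem_image.2 ⟨q, hq, he⟩)
  rw [h1]
  simp

theorem Fdisc_lip (R : ℕ) (hR : ∀ q ∈ I, l1 q.2 0 ≤ R) (hL : R ≤ L) (i : ℕ)
    (G G' : boxS d L → E N) :
    ‖Fdisc I u idx i G - Fdisc I u idx i G'‖ ≤ (∑ q ∈ I, (2 + ‖u q‖)) *
      ∑ x : boxS d L, (if l1 (x : Fin d → ℤ) 0 ≤ R then min 1 ‖G x - G' x‖ else 0) := by
  set m : ℝ := ∑ x : boxS d L, (if l1 (x : Fin d → ℤ) 0 ≤ R then min 1 ‖G x - G' x‖ else 0) with hm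
  have hterm : ∀ x : boxS d L,
      0 ≤ (if l1 (x : Fin d → ℤ) 0 ≤ R then min 1 ‖G x - G' x‖ else 0) := by
    intro x
    split_ifs
    · exact le_min zero_le_one (norm_nonneg _)
    · exact le_rfl
  have hD : ∀ q ∈ I, min 1 ‖ext0 G q.2 - ext0 G' q.2‖ ≤ m := by
    intro q hq
    have hb := MSF_box q.2 (hR q hq) hL
    have h1 : ext0 G q.2 - ext0 G' q.2 = G ⟨q.2, hb⟩ - G' ⟨q.2, hb⟩ := by
      unfold ext0
      rw [dif_pos hb, dif_pos hb]
    rw [h1, hm]
    have h2 := Finset.single_le_sum (f := fun x : boxS d L =>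
      (if l1 (x : Fin d → ℤ) 0 ≤ R then min 1 ‖G x - G' x‖ else 0)) (fun x _ => hterm x)
      (Finset.mem_univ (⟨q.2, hb⟩ : boxS d L))
    simp only [if_pos (hR q hq)] at h2
    exact h2
  have h1 : ‖Fdisc I u idx i G - Fdisc I u idx i G'‖ ≤
      ∑ q ∈ I, (2 + ‖u q‖) * min 1 ‖ext0 G q.2 - ext0 G' q.2‖ := by
    have hnn : ∀ q ∈ I, 0 ≤ (2 + ‖u q‖) * min 1 ‖ext0 G q.2 - ext0 G' q.2‖ := fun q _ =>
      mul_nonneg (by positivity) (le_min zero_le_one (norm_nonneg _))
    by_cases hc : ∃ q ∈ I, 1 ≤ ‖ext0 G q.2 - ext0 G' q.2‖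
    · obtain ⟨q, hq, h1⟩ := hc
      have h2 : ‖Fdisc I u idx i G - Fdisc I u idx i G'‖ ≤ 2 := by
        refine (norm_sub_le _ _).trans ?_
        rw [Fdisc_norm, Fdisc_norm]
        norm_num
      refine h2.trans (le_trans ?_ (Finset.single_le_sum hnn hq))
      rw [min_eq_left h1, mul_one]
      linarith [norm_nonneg (u q)]
    · push Not at hc
      have h2 : ‖Fdisc I u idx i G - Fdisc I u idx i G'‖ ≤
          ∑ q ∈ I.filter (fun q => idx q = i), ‖u q‖ * ‖ext0 G q.2 - ext0 G' q.2‖ := by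
        unfold Fdisc
        refine (MSF_diff _ _).trans ?_
        rw [← Finset.sum_sub_distrib]
        refine (Finset.abs_sum_le_sum_abs _ _).trans (Finset.sum_le_sum fun q _ => ?_)
        rw [← inner_sub_right]
        exact abs_real_inner_le_norm _ _
      refine h2.trans (le_trans (Finset.sum_le_sum_of_subset_of_nonneg (Finset.filter_subset _ I)
        fun q _ _ => by positivity) (Finset.sum_le_sum fun q hq => ?_))
      rw [min_eq_right (hc q hq).le]
      nlinarith [norm_nonneg (ext0 G q.2 - ext0 G' q.2)]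
  refine h1.trans ?_
  rw [Finset.sum_mul]
  exact Finset.sum_le_sum fun q hq => mul_le_mul_of_nonneg_left (hD q hq) (by positivity)

theorem Fdisc_prod (M : ℕ) (hM : ∀ q ∈ I, idx q < M) (X : ℕ → boxS d L → E N) :
    ∏ i ∈ Finset.range M, Fdisc I u idx i (X i) =
      Complex.exp (Complex.I * (∑ q ∈ I, (inner ℝ (u q) (ext0 (X (idx q)) q.2) : ℝ) : ℝ)) := by
  unfold Fdisc
  rw [← Complex.exp_sum]
  congr 1
  rw [← Finset.mul_sum]
  congr 1
  rw [← Complex.ofReal_sum]
  congr 1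
  rw [← Finset.sum_fiberwise_of_maps_to (s := I) (t := Finset.range M) (g := idx)
    (fun q hq => Finset.mem_range.2 (hM q hq))]
  refine Finset.sum_congr rfl fun i _ => Finset.sum_congr rfl fun q hq => ?_
  rw [(Finset.mem_filter.1 hq).2]

end

theorem ech_norm {A : Type} {N : ℕ} (I : Finset A) (u : A → E N) (f : A → E N) :
    ‖ech I u f‖ = 1 := by
  unfold ech
  exact MSF_norm _

theorem ech_meas {A : Type} {N : ℕ} (I : Finset A) (u : A → E N) : Measurable (ech (N := N) I u) := by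
  unfold ech
  refine Complex.measurable_exp.comp (measurable_const.mul (Complex.measurable_ofReal.comp ?_))
  refine Finset.measurable_sum _ fun q _ => ?_
  exact Measurable.inner measurable_const (measurable_pi_apply q)

theorem ech_diff {A : Type} {N : ℕ} (I : Finset A) (u : A → E N) (f g : A → E N) :
    ‖ech I u f - ech I u g‖ ≤ ∑ q ∈ I, ‖u q‖ * ‖f q - g q‖ := by
  unfold ech
  refine (MSF_diff _ _).trans ?_
  rw [← Finset.sum_sub_distrib]
  refine (Finset.abs_sum_le_sum_abs _ _).trans (Finset.sum_le_sum fun q _ => ?_)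
  rw [← inner_sub_right]
  exact abs_real_inner_le_norm _ _

theorem Xf'_eq {Ω : Type} {N d : ℕ} (H : ℝ≥0 → Site d → Ω → E N) (I : Finset (ℝ≥0 × Site d))
    (u : ℝ≥0 × Site d → E N) (t : ℝ≥0) (ω : Ω) :
    Xf' H I u t ω = ech I u (fun q => H (t + q.1) q.2 ω) := rfl

end Dyn
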