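import Pool.Agent.Lib_MP_36b788.ShDefs

/-!
# MIXALL: from cylinder sets to all measurable sets; ergodicity

PROOF. The measurable cylinders form an algebra generating the σ-algebra, so for measurable `A, B` and `η > 0` there are cylinders
`A', B'` with `μ(A ∆ A') ≤ η`, `μ(B ∆ B') ≤ η` (Mathlib: `Measure.MeasureDense`, `measureDense…generateFrom…isSetAlgebra` in
`SeparableMeasure.lean`; `isSetAlgebra_measurableCylinders`, `generateFrom_measurableCylinders`). `μ(θ_T⁻¹B ∆ θ_T⁻¹B') = μ(B ∆ B')`. So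
`|μ(A∩θ_T⁻¹B) - μ(A'∩θ_T⁻¹B')| ≤ 2η`, `|μ(A)μ(B)-μ(A')μ(B')| ≤ 2η`. Work with `.real` or `toReal` (finite measure) and go back with
`ENNReal.tendsto_toReal_iff`.
`erg_of_mix`: `μ(A ∩ θ_T⁻¹A) = μ(A)` for all `T`, so `μ(A) = μ(A)²`.
-/

open MeasureTheory ProbabilityTheory Filter
open scoped NNReal ENNReal Topology symmDiff

namespace Dyn

private theorem MixAll_dist {Ω : Type} [MeasurableSpace Ω] (μ : Measure Ω) [IsProbabilityMeasure μ]
    {X X' P P' : Set Ω} (hX : MeasurableSet X) (hX' : MeasurableSet X') (hP : MeasurableSet P)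
    (hP' : MeasurableSet P') :
    |μ.real (X ∩ P) - μ.real (X' ∩ P')| ≤ μ.real (X ∆ X') + μ.real (P ∆ P') := by
  refine (abs_measureReal_sub_le_measureReal_symmDiff (hX.inter hP).nullMeasurableSet
    (hX'.inter hP').nullMeasurableSet).trans ?_
  refine (measureReal_mono ?_ (measure_ne_top _ _)).trans (measureReal_union_le _ _)
  intro z hz
  simp only [Set.mem_symmDiff, Set.mem_inter_iff, Set.mem_union] at hz ⊢
  tauto

private theorem MixAll_one {Ω : Type} [MeasurableSpace Ω] (μ : Measure Ω) [IsProbabilityMeasure μ]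
    {X X' : Set Ω} (hX : MeasurableSet X) (hX' : MeasurableSet X') :
    |μ.real X - μ.real X'| ≤ μ.real (X ∆ X') :=
  abs_measureReal_sub_le_measureReal_symmDiff hX.nullMeasurableSet hX'.nullMeasurableSet

theorem mix_all {A : Type} {N : ℕ} (μ : Measure (A → E N)) [IsProbabilityMeasure μ]
    (θ : ℝ≥0 → (A → E N) → (A → E N)) (hθm : ∀ T, Measurable (θ T)) (hθ : ∀ T, μ.map (θ T) = μ)
    (h : ∀ (I J : Finset A) (S : Set (I → E N)) (S' : Set (J → E N)), MeasurableSet S →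
      MeasurableSet S' →
      Tendsto (fun T => μ ({f | (fun q : I => f q) ∈ S} ∩
        θ T ⁻¹' {f | (fun q : J => f q) ∈ S'})) atTop
        (𝓝 (μ {f | (fun q : I => f q) ∈ S} * μ {f | (fun q : J => f q) ∈ S'})))
    (X Y : Set (A → E N)) (hX : MeasurableSet X) (hY : MeasurableSet Y) :
    Tendsto (fun T => μ (X ∩ θ T ⁻¹' Y)) atTop (𝓝 (μ X * μ Y)) := by
  classical
  have hdense : μ.MeasureDense (measurableCylinders fun _ : A => E N) :=
    Measure.MeasureDense.of_generateFrom_isSetAlgebra_finite _ isSetAlgebra_measurableCylinders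
      generateFrom_measurableCylinders.symm
  rw [← ENNReal.tendsto_toReal_iff (fun _ => measure_ne_top _ _)
    (ENNReal.mul_ne_top (measure_ne_top _ _) (measure_ne_top _ _)), ENNReal.toReal_mul]
  change Tendsto (fun T => μ.real (X ∩ θ T ⁻¹' Y)) atTop (𝓝 (μ.real X * μ.real Y))
  rw [Metric.tendsto_nhds]
  intro ε hε
  set η : ℝ := ε / 6 with hη
  have hη0 : 0 < η := by positivity
  obtain ⟨X', hX'm, hX'd⟩ := hdense.approx X hX (measure_ne_top _ _) η hη0
  obtain ⟨Y', hY'm, hY'd⟩ := hdense.approx Y hY (measure_ne_top _ _) η hη0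
  have hX' := MeasurableSet.of_mem_measurableCylinders hX'm
  have hY' := MeasurableSet.of_mem_measurableCylinders hY'm
  have hXr : μ.real (X ∆ X') ≤ η := by
    rw [measureReal_def]
    exact ENNReal.toReal_le_of_le_ofReal hη0.le hX'd.le
  have hYr : μ.real (Y ∆ Y') ≤ η := by
    rw [measureReal_def]
    exact ENNReal.toReal_le_of_le_ofReal hη0.le hY'd.le
  obtain ⟨I, S, hS, hXS⟩ := (mem_measurableCylinders _).1 hX'm
  obtain ⟨J, S', hS', hYS⟩ := (mem_measurableCylinders _).1 hY'm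
  have hlim := h I J S S' hS hS'
  have e1 : {f : A → E N | (fun q : I => f q) ∈ S} = X' := by
    rw [hXS]; rfl
  have e2 : {f : A → E N | (fun q : J => f q) ∈ S'} = Y' := by
    rw [hYS]; rfl
  rw [e1, e2] at hlim
  rw [← ENNReal.tendsto_toReal_iff (fun _ => measure_ne_top _ _)
    (ENNReal.mul_ne_top (measure_ne_top _ _) (measure_ne_top _ _)), ENNReal.toReal_mul] at hlim
  change Tendsto (fun T => μ.real (X' ∩ θ T ⁻¹' Y')) atTop (𝓝 (μ.real X' * μ.real Y')) at hlim
  rw [Metric.tendsto_nhds] at hlim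
  filter_upwards [hlim η hη0] with T hT
  rw [Real.dist_eq] at hT ⊢
  have h1 := MixAll_dist μ hX hX' (hθm T hY) (hθm T hY')
  have h2 : μ.real ((θ T ⁻¹' Y) ∆ (θ T ⁻¹' Y')) = μ.real (Y ∆ Y') := by
    have e3 : (θ T ⁻¹' Y) ∆ (θ T ⁻¹' Y') = θ T ⁻¹' (Y ∆ Y') := by
      ext z
      simp only [Set.mem_symmDiff, Set.mem_preimage]
    rw [e3, measureReal_def, measureReal_def, ← Measure.map_apply (hθm T) (hY.symmDiff hY'), hθ T]
  rw [h2] at h1
  have h3 := MixAll_one μ hX hX'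
  have h4 := MixAll_one μ hY hY'
  have h5 : |μ.real X * μ.real Y - μ.real X' * μ.real Y'| ≤ 2 * η := by
    have e4 : μ.real X * μ.real Y - μ.real X' * μ.real Y' =
        (μ.real X - μ.real X') * μ.real Y + μ.real X' * (μ.real Y - μ.real Y') := by ring
    rw [e4]
    refine (abs_add_le _ _).trans ?_
    rw [abs_mul, abs_mul, abs_of_nonneg (measureReal_nonneg : 0 ≤ μ.real Y),
      abs_of_nonneg (measureReal_nonneg : 0 ≤ μ.real X')]
    have l1 : μ.real Y ≤ 1 := measureReal_le_one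
    have l2 : μ.real X' ≤ 1 := measureReal_le_one
    have p1 := abs_nonneg (μ.real X - μ.real X')
    have p2 := abs_nonneg (μ.real Y - μ.real Y')
    have p3 : 0 ≤ μ.real Y := measureReal_nonneg
    have p4 : 0 ≤ μ.real X' := measureReal_nonneg
    nlinarith
  have h6 : μ.real (X ∩ θ T ⁻¹' Y) - μ.real X * μ.real Y =
      (μ.real (X ∩ θ T ⁻¹' Y) - μ.real (X' ∩ θ T ⁻¹' Y')) +
      (μ.real (X' ∩ θ T ⁻¹' Y') - μ.real X' * μ.real Y') -
      (μ.real X * μ.real Y - μ.real X' * μ.real Y') := by ring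
  rw [h6]
  refine (abs_sub _ _).trans_lt ?_
  have h7 := abs_add_le (μ.real (X ∩ θ T ⁻¹' Y) - μ.real (X' ∩ θ T ⁻¹' Y'))
    (μ.real (X' ∩ θ T ⁻¹' Y') - μ.real X' * μ.real Y')
  have h8 : ε = 6 * η := by rw [hη]; ring
  linarith

theorem erg_of_mix {A : Type} {N : ℕ} (μ : Measure (A → E N)) [IsProbabilityMeasure μ]
    (θ : ℝ≥0 → (A → E N) → (A → E N))
    (h : ∀ X Y : Set (A → E N), MeasurableSet X → MeasurableSet Y →
      Tendsto (fun T => μ (X ∩ θ T ⁻¹' Y)) atTop (𝓝 (μ X * μ Y)))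
    (X : Set (A → E N)) (hX : MeasurableSet X) (hi : ∀ T, θ T ⁻¹' X =ᵐ[μ] X) :
    μ X = 0 ∨ μ X = 1 := by
  have h1 := h X X hX hX
  have h2 : (fun T => μ (X ∩ θ T ⁻¹' X)) = fun _ : ℝ≥0 => μ X := by
    funext T
    have h3 : (X ∩ θ T ⁻¹' X : Set (A → E N)) =ᵐ[μ] (X ∩ X : Set (A → E N)) :=
      (ae_eq_refl X).inter (hi T)
    rw [measure_congr h3, Set.inter_self]
  rw [h2] at h1
  have h4 : μ X = μ X * μ X := tendsto_nhds_unique tendsto_const_nhds h1
  by_cases h0 : μ X = 0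
  · exact Or.inl h0
  · right
    have h5 : μ X * 1 = μ X * μ X := by rw [mul_one]; exact h4
    exact ((ENNReal.mul_right_inj h0 (measure_ne_top _ _)).1 h5).symm

end Dyn
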