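import Pool.Agent.Lib_MP_36b788.FddC

/-!
# MIXCYL: mixing of exponentials implies mixing of cylinder sets

PROOF. Let `X = f|_I`, `Y_T = (θ_T f)|_J`, `μ_I, μ_J` their laws (`Y_T` has law `μ_J` by invariance). Step 1: for bounded continuous
`g1 : (I → E N) → ℝ`, `g2 : (J → E N) → ℝ`: `∫g1(X)g2(Y_T)dμ → ∫g1(X)dμ∫g2(f|_J)dμ`. Proof: apply fdd_of_char with `Ω = A → E N`, index type
`A ⊕ A`, `K T (inl q) f = f q`, `K T (inr q) f = (θ_T f) q` and the product measure `M` on `(A ⊕ A) → E N` (the image of `μ.prod μ` under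
`(f,f') ↦ Sum.elim f f'`): for a finite `I' ⊆ A ⊕ A` with parts `I1, J1`, `ech I' u (K T · f) = ech I1 u1 f · ech J1 u2 (θ_T f)`, so the hypothesis
is the limit required. Step 2: indicator functions: for `η > 0` there are bounded continuous `g1, g2` with values in `[0,1]`
and `∫|1_S - g1|dμ_I ≤ η`, `∫|1_{S'} - g2|dμ_J ≤ η` (finite Borel measures on a metric space, e.g.
`MemLp.exists_boundedContinuous_eLpNorm_sub_le` or closed/open approximations), and
`|μ(X∈S, Y_T∈S') - ∫g1(X)g2(Y_T)| ≤ 2η`, `|μ(X∈S)μ(Y∈S') - ∫g1∫g2| ≤ 2η` (clamp `g_i` to `[0,1]` or use their sup norm).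
-/

open MeasureTheory ProbabilityTheory Filter
open scoped NNReal ENNReal Topology

namespace Dyn

/-- approximation of a Borel set by continuous functions -/
private theorem MixCyl_approx {X : Type} [TopologicalSpace X] [NormalSpace X] [MeasurableSpace X]
    [BorelSpace X] (ν : Measure X) [IsFiniteMeasure ν] [ν.WeaklyRegular] {S : Set X}
    (hS : MeasurableSet S) {η : ℝ} (hη : 0 < η) :
    ∃ (g : X → ℝ) (W : Set X), Continuous g ∧ (∀ x, 0 ≤ g x ∧ g x ≤ 1) ∧ MeasurableSet W ∧
      ν.real W ≤ η ∧ ∀ x, |S.indicator 1 x - g x| ≤ W.indicator 1 x := by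
  have hη2 : ENNReal.ofReal (η / 2) ≠ 0 := by
    rw [ne_eq, ENNReal.ofReal_eq_zero, not_le]
    linarith
  obtain ⟨K, hKS, hK, hKm⟩ := hS.exists_isClosed_sdiff_lt (measure_ne_top ν S) hη2
  obtain ⟨U, hSU, hU, _, hUm⟩ := hS.exists_isOpen_sdiff_lt (measure_ne_top ν S) hη2
  have hd : Disjoint Uᶜ K := by
    rw [Set.disjoint_left]
    intro x hx hxK
    exact hx (hSU (hKS hxK))
  obtain ⟨g, hg0, hg1, hg⟩ := exists_continuous_zero_one_of_isClosed hU.isClosed_compl hK hd
  refine ⟨g, U \ K, g.continuous, fun x => ⟨(hg x).1, (hg x).2⟩,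
    hU.measurableSet.diff hK.measurableSet, ?_, ?_⟩
  · have h1 : U \ K ⊆ (U \ S) ∪ (S \ K) := by
      intro x hx
      by_cases h : x ∈ S
      · exact Or.inr ⟨h, hx.2⟩
      · exact Or.inl ⟨hx.1, h⟩
    have h2 : ν (U \ K) ≤ ENNReal.ofReal η := by
      calc ν (U \ K) ≤ ν ((U \ S) ∪ (S \ K)) := measure_mono h1
        _ ≤ ν (U \ S) + ν (S \ K) := measure_union_le _ _
        _ ≤ ENNReal.ofReal (η / 2) + ENNReal.ofReal (η / 2) := add_le_add hUm.le hKm.le
        _ = ENNReal.ofReal η := by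
            rw [← ENNReal.ofReal_add (by linarith) (by linarith), add_halves]
    exact ENNReal.toReal_le_of_le_ofReal hη.le h2
  · intro x
    by_cases hxU : x ∈ U
    · by_cases hxK : x ∈ K
      · have h1 : g x = 1 := hg1 hxK
        rw [h1, Set.indicator_of_mem (hKS hxK), Pi.one_apply, sub_self, abs_zero]
        exact Set.indicator_nonneg (fun _ _ => zero_le_one) _
      · rw [Set.indicator_of_mem (show x ∈ U \ K from ⟨hxU, hxK⟩), Pi.one_apply]
        have h2 := hg x
        by_cases hxS : x ∈ S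
        · rw [Set.indicator_of_mem hxS, Pi.one_apply, abs_le]
          constructor <;> linarith [h2.1, h2.2]
        · rw [Set.indicator_of_notMem hxS, abs_le]
          constructor <;> linarith [h2.1, h2.2]
    · have h1 : g x = 0 := hg0 hxU
      rw [h1, Set.indicator_of_notMem (fun h => hxU (hSU h)), sub_zero, abs_zero]
      exact Set.indicator_nonneg (fun _ _ => zero_le_one) _

private theorem MixCyl_ech {A : Type} {N : ℕ} (I' : Finset (A ⊕ A)) (u : A ⊕ A → E N)
    (f f' : A → E N) : ech I' u (Sum.elim f f') =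
      ech I'.toLeft (fun a => u (Sum.inl a)) f * ech I'.toRight (fun a => u (Sum.inr a)) f' := by
  unfold ech
  rw [← Complex.exp_add, ← mul_add, ← Complex.ofReal_add]
  congr 3
  conv_lhs => rw [← Finset.toLeft_disjSum_toRight (u := I')]
  rw [Finset.sum_disjSum]
  rfl

private theorem MixCyl_ech_meas {A : Type} {N : ℕ} (I : Finset A) (u : A → E N) :
    Measurable (ech I u) := by
  unfold ech
  refine Complex.measurable_exp.comp (measurable_const.mul (Complex.measurable_ofReal.comp ?_))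
  refine Finset.measurable_sum I fun q _ => ?_
  exact (measurable_const : Measurable fun _ : A → E N => u q).inner (measurable_pi_apply q)

/-- Step 1: convergence for products of bounded continuous functions -/
private theorem MixCyl_step {A : Type} {N : ℕ} (μ : Measure (A → E N)) [IsProbabilityMeasure μ]
    (θ : ℝ≥0 → (A → E N) → (A → E N)) (hθm : ∀ T, Measurable (θ T))
    (h : ∀ I u J v, Tendsto (fun T => ∫ f, ech I u f * ech J v (θ T f) ∂μ) atTop
      (𝓝 ((∫ f, ech I u f ∂μ) * ∫ f, ech J v f ∂μ)))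
    (I J : Finset A) (g1 : (I → E N) → ℝ) (g2 : (J → E N) → ℝ) (hg1 : Continuous g1)
    (hg2 : Continuous g2) (hb1 : ∀ x, 0 ≤ g1 x ∧ g1 x ≤ 1) (hb2 : ∀ x, 0 ≤ g2 x ∧ g2 x ≤ 1) :
    Tendsto (fun T => ∫ f, g1 (fun q : I => f q) * g2 (fun q : J => θ T f q) ∂μ) atTop
      (𝓝 ((∫ f, g1 (fun q : I => f q) ∂μ) * ∫ f, g2 (fun q : J => f q) ∂μ)) := by
  classical
  set K : ℝ≥0 → A ⊕ A → (A → E N) → E N := fun T q f => Sum.elim f (θ T f) q with hKdef
  have hK : ∀ t q, Measurable (K t q) := by
    intro t q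
    rcases q with q | q
    · exact measurable_pi_apply q
    · exact (measurable_pi_apply q).comp (hθm t)
  set e : (A → E N) × (A → E N) → (A ⊕ A → E N) := fun p => Sum.elim p.1 p.2 with he
  have hem : Measurable e := by
    refine measurable_pi_iff.2 fun q => ?_
    rcases q with q | q
    · exact (measurable_pi_apply q).comp measurable_fst
    · exact (measurable_pi_apply q).comp measurable_snd
  set M : Measure (A ⊕ A → E N) := (μ.prod μ).map e with hM
  haveI : IsProbabilityMeasure M := Measure.isProbabilityMeasure_map hem.aemeasurable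
  have hch : ∀ (I' : Finset (A ⊕ A)) (u : A ⊕ A → E N),
      Tendsto (fun t => ∫ ω, ech I' u (fun q => K t q ω) ∂μ) atTop (𝓝 (∫ f, ech I' u f ∂M)) := by
    intro I' u
    have h1 : ∀ t, ∫ ω, ech I' u (fun q => K t q ω) ∂μ =
        ∫ f, ech I'.toLeft (fun a => u (Sum.inl a)) f *
          ech I'.toRight (fun a => u (Sum.inr a)) (θ t f) ∂μ := by
      intro t
      refine integral_congr_ae (Eventually.of_forall fun f => ?_)
      exact MixCyl_ech I' u f (θ t f)
    have h2 : ∫ f, ech I' u f ∂M = (∫ f, ech I'.toLeft (fun a => u (Sum.inl a)) f ∂μ) *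
        ∫ f, ech I'.toRight (fun a => u (Sum.inr a)) f ∂μ := by
      rw [hM, integral_map hem.aemeasurable (MixCyl_ech_meas I' u).aestronglyMeasurable,
        ← integral_prod_mul]
      refine integral_congr_ae (Eventually.of_forall fun p => ?_)
      exact MixCyl_ech I' u p.1 p.2
    rw [h2]
    simp only [h1]
    exact h _ _ _ _
  set I' : Finset (A ⊕ A) := I.disjSum J with hI'
  have hl : ∀ q : I, Sum.inl (q : A) ∈ I' := fun q => Finset.inl_mem_disjSum.2 q.2
  have hr : ∀ q : J, Sum.inr (q : A) ∈ I' := fun q => Finset.inr_mem_disjSum.2 q.2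
  set g : (I' → E N) → ℂ := fun F =>
    ((g1 (fun q : I => F ⟨Sum.inl (q : A), hl q⟩) * g2 (fun q : J => F ⟨Sum.inr (q : A), hr q⟩) :
      ℝ) : ℂ) with hg
  have hgc : Continuous g := by
    refine Complex.continuous_ofReal.comp ?_
    exact (hg1.comp (continuous_pi fun q : I =>
      continuous_apply (⟨Sum.inl (q : A), hl q⟩ : I'))).mul
      (hg2.comp (continuous_pi fun q : J => continuous_apply (⟨Sum.inr (q : A), hr q⟩ : I')))
  have hgb : ∃ C, ∀ x, ‖g x‖ ≤ C := by
    refine ⟨1, fun x => ?_⟩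
    rw [hg]
    show ‖((_ : ℝ) : ℂ)‖ ≤ 1
    rw [Complex.norm_real, Real.norm_eq_abs, abs_of_nonneg
      (mul_nonneg (hb1 _).1 (hb2 _).1)]
    exact mul_le_one₀ (hb1 _).2 (hb2 _).1 (hb2 _).2
  have hlim := fdd_of_char K hK M hch I' g hgc hgb
  have h3 : ∀ t, ∫ ω, g (fun q => K t q ω) ∂μ =
      ((∫ f, g1 (fun q : I => f q) * g2 (fun q : J => θ t f q) ∂μ : ℝ) : ℂ) := by
    intro t
    have h3' : ∫ f, ((g1 (fun q : I => f q) * g2 (fun q : J => θ t f q) : ℝ) : ℂ) ∂μ =
        ((∫ f, g1 (fun q : I => f q) * g2 (fun q : J => θ t f q) ∂μ : ℝ) : ℂ) := integral_ofReal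
    rw [← h3']
    rfl
  have hm1 : Measurable (fun f : A → E N => g1 (fun q : I => f q)) :=
    hg1.measurable.comp (measurable_pi_iff.2 fun q => measurable_pi_apply _)
  have hm2 : Measurable (fun f : A → E N => g2 (fun q : J => f q)) :=
    hg2.measurable.comp (measurable_pi_iff.2 fun q => measurable_pi_apply _)
  have h4 : ∫ f, g (fun q => f q) ∂M =
      (((∫ f, g1 (fun q : I => f q) ∂μ) * ∫ f, g2 (fun q : J => f q) ∂μ : ℝ) : ℂ) := by
    have hgr : Measurable fun f : A ⊕ A → E N => (fun q : I' => f q) :=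
      measurable_pi_iff.2 fun q => measurable_pi_apply _
    have hgm : Measurable fun f : A ⊕ A → E N => g (fun q : I' => f q) :=
      hgc.measurable.comp hgr
    rw [hM, integral_map hem.aemeasurable hgm.aestronglyMeasurable]
    show ∫ p : (A → E N) × (A → E N),
      ((g1 (fun q : I => p.1 q) * g2 (fun q : J => p.2 q) : ℝ) : ℂ) ∂(μ.prod μ) = _
    have h4' : ∫ p : (A → E N) × (A → E N),
      ((g1 (fun q : I => p.1 q) * g2 (fun q : J => p.2 q) : ℝ) : ℂ) ∂(μ.prod μ) =
      ((∫ p : (A → E N) × (A → E N), g1 (fun q : I => p.1 q) * g2 (fun q : J => p.2 q)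
        ∂(μ.prod μ) : ℝ) : ℂ) := integral_ofReal
    rw [h4', integral_prod_mul (fun f : A → E N => g1 (fun q : I => f q))
      (fun f : A → E N => g2 (fun q : J => f q))]
  rw [h4] at hlim
  simp only [h3] at hlim
  have h5 := (Complex.continuous_re.tendsto _).comp hlim
  exact h5

theorem mix_cyl {A : Type} {N : ℕ} (μ : Measure (A → E N)) [IsProbabilityMeasure μ]
    (θ : ℝ≥0 → (A → E N) → (A → E N)) (hθm : ∀ T, Measurable (θ T)) (hθ : ∀ T, μ.map (θ T) = μ)
    (h : ∀ I u J v, Tendsto (fun T => ∫ f, ech I u f * ech J v (θ T f) ∂μ) atTop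
      (𝓝 ((∫ f, ech I u f ∂μ) * ∫ f, ech J v f ∂μ)))
    (I J : Finset A) (S : Set (I → E N)) (S' : Set (J → E N)) (hS : MeasurableSet S)
    (hS' : MeasurableSet S') :
    Tendsto (fun T => μ ({f | (fun q : I => f q) ∈ S} ∩ θ T ⁻¹' {f | (fun q : J => f q) ∈ S'}))
      atTop (𝓝 (μ {f | (fun q : I => f q) ∈ S} * μ {f | (fun q : J => f q) ∈ S'})) := by
  classical
  have hXm : Measurable (fun f : A → E N => (fun q : I => f q)) :=
    measurable_pi_iff.2 fun q => measurable_pi_apply _
  have hYm : Measurable (fun f : A → E N => (fun q : J => f q)) :=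
    measurable_pi_iff.2 fun q => measurable_pi_apply _
  have hfin1 : μ {f | (fun q : I => f q) ∈ S} * μ {f | (fun q : J => f q) ∈ S'} ≠ ∞ :=
    ENNReal.mul_ne_top (measure_ne_top _ _) (measure_ne_top _ _)
  rw [← ENNReal.tendsto_toReal_iff (fun T => measure_ne_top _ _) hfin1, ENNReal.toReal_mul,
    Metric.tendsto_nhds]
  intro ε hε
  set η : ℝ := ε / 8 with hη
  have hη0 : 0 < η := by rw [hη]; linarith
  obtain ⟨g1, W1, hg1, hb1, hW1, hmW1, ha1⟩ := MixCyl_approx (μ.map (fun f : A → E N =>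
    (fun q : I => f q))) hS hη0
  obtain ⟨g2, W2, hg2, hb2, hW2, hmW2, ha2⟩ := MixCyl_approx (μ.map (fun f : A → E N =>
    (fun q : J => f q))) hS' hη0
  have hlim := MixCyl_step μ θ hθm h I J g1 g2 hg1 hg2 hb1 hb2
  -- measurability
  have hYTm : ∀ T, Measurable (fun f : A → E N => (fun q : J => θ T f q)) := fun T =>
    hYm.comp (hθm T)
  have hi1 : Measurable (S.indicator (1 : (I → E N) → ℝ)) := measurable_one.indicator hS
  have hi2 : Measurable (S'.indicator (1 : (J → E N) → ℝ)) := measurable_one.indicator hS'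
  have hw1 : Measurable (W1.indicator (1 : (I → E N) → ℝ)) := measurable_one.indicator hW1
  have hw2 : Measurable (W2.indicator (1 : (J → E N) → ℝ)) := measurable_one.indicator hW2
  have hind : ∀ {Z : Type} (V : Set Z) (z : Z), 0 ≤ V.indicator (1 : Z → ℝ) z ∧
      V.indicator (1 : Z → ℝ) z ≤ 1 := by
    intro Z V z
    refine ⟨Set.indicator_nonneg (fun _ _ => zero_le_one) _, ?_⟩
    exact Set.indicator_le_self' (fun _ _ => zero_le_one) z
  have hint : ∀ (F : (A → E N) → ℝ), Measurable F → (∀ f, 0 ≤ F f ∧ F f ≤ 1) →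
      Integrable F μ := by
    intro F hF hF1
    refine Integrable.of_bound hF.aestronglyMeasurable 1 (Eventually.of_forall fun f => ?_)
    rw [Real.norm_eq_abs, abs_of_nonneg (hF1 f).1]
    exact (hF1 f).2
  -- values as integrals
  have hreal : ∀ V : Set (A → E N), MeasurableSet V → (μ V).toReal = ∫ f, V.indicator 1 f ∂μ := by
    intro V hV
    rw [integral_indicator_one hV]
    rfl
  have hXW : ∫ f, W1.indicator (1 : (I → E N) → ℝ) (fun q : I => f q) ∂μ ≤ η := by
    have h1 : ∫ f, W1.indicator (1 : (I → E N) → ℝ) (fun q : I => f q) ∂μ =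
        ∫ x, W1.indicator 1 x ∂(μ.map (fun f : A → E N => (fun q : I => f q))) :=
      (integral_map hXm.aemeasurable hw1.aestronglyMeasurable).symm
    rw [h1, integral_indicator_one hW1]
    exact hmW1
  have hYW : ∫ f, W2.indicator (1 : (J → E N) → ℝ) (fun q : J => f q) ∂μ ≤ η := by
    have h1 : ∫ f, W2.indicator (1 : (J → E N) → ℝ) (fun q : J => f q) ∂μ =
        ∫ x, W2.indicator 1 x ∂(μ.map (fun f : A → E N => (fun q : J => f q))) :=
      (integral_map hYm.aemeasurable hw2.aestronglyMeasurable).symm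
    rw [h1, integral_indicator_one hW2]
    exact hmW2
  have hYTW : ∀ T, ∫ f, W2.indicator (1 : (J → E N) → ℝ) (fun q : J => θ T f q) ∂μ ≤ η := by
    intro T
    have h1 : ∫ f, W2.indicator (1 : (J → E N) → ℝ) (fun q : J => f q) ∂(μ.map (θ T)) =
        ∫ f, W2.indicator (1 : (J → E N) → ℝ) (fun q : J => θ T f q) ∂μ :=
      integral_map (hθm T).aemeasurable (hw2.comp hYm).aestronglyMeasurable
    rw [← h1, hθ T]
    exact hYW
  -- the two estimates
  have hpt : ∀ a b c d w w' : ℝ, |a - c| ≤ w → |b - d| ≤ w' → 0 ≤ b → b ≤ 1 → 0 ≤ c → c ≤ 1 →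
      |a * b - c * d| ≤ w + w' := by
    intro a b c d w w' h1 h2 hb0 hb1 hc0 hc1
    have h3 : a * b - c * d = (a - c) * b + c * (b - d) := by ring
    rw [h3]
    refine (abs_add_le _ _).trans (add_le_add ?_ ?_)
    · rw [abs_mul, abs_of_nonneg hb0]
      exact (mul_le_of_le_one_right (abs_nonneg _) hb1).trans h1
    · rw [abs_mul, abs_of_nonneg hc0]
      exact (mul_le_of_le_one_left (abs_nonneg _) hc1).trans h2
  have hest1 : ∀ T, |(μ ({f | (fun q : I => f q) ∈ S} ∩
      θ T ⁻¹' {f | (fun q : J => f q) ∈ S'})).toReal -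
      ∫ f, g1 (fun q : I => f q) * g2 (fun q : J => θ T f q) ∂μ| ≤ 2 * η := by
    intro T
    have hA : MeasurableSet ({f : A → E N | (fun q : I => f q) ∈ S} ∩
        θ T ⁻¹' {f | (fun q : J => f q) ∈ S'}) :=
      (hXm hS).inter ((hθm T) (hYm hS'))
    have h1 : ∀ f : A → E N, ({f : A → E N | (fun q : I => f q) ∈ S} ∩
        θ T ⁻¹' {f | (fun q : J => f q) ∈ S'}).indicator (1 : (A → E N) → ℝ) f =
        S.indicator 1 (fun q : I => f q) * S'.indicator 1 (fun q : J => θ T f q) := by
      intro f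
      by_cases hf1 : (fun q : I => f q) ∈ S
      · by_cases hf2 : (fun q : J => θ T f q) ∈ S'
        · rw [Set.indicator_of_mem (show f ∈ {f : A → E N | (fun q : I => f q) ∈ S} ∩
            θ T ⁻¹' {f | (fun q : J => f q) ∈ S'} from ⟨hf1, hf2⟩), Set.indicator_of_mem hf1,
            Set.indicator_of_mem hf2, Pi.one_apply, Pi.one_apply, Pi.one_apply, mul_one]
        · rw [Set.indicator_of_notMem (fun h => hf2 h.2), Set.indicator_of_notMem hf2, mul_zero]
      · rw [Set.indicator_of_notMem (fun h => hf1 h.1), Set.indicator_of_notMem hf1, zero_mul]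
    rw [hreal _ hA, integral_congr_ae (Eventually.of_forall h1)]
    have i1 : Integrable (fun f : A → E N => S.indicator (1 : (I → E N) → ℝ)
        (fun q : I => f q) * S'.indicator (1 : (J → E N) → ℝ) (fun q : J => θ T f q)) μ :=
      hint _ ((hi1.comp hXm).mul (hi2.comp (hYTm T))) (fun f =>
        ⟨mul_nonneg (hind _ _).1 (hind _ _).1, mul_le_one₀ (hind _ _).2 (hind _ _).1 (hind _ _).2⟩)
    have i2 : Integrable (fun f : A → E N => g1 (fun q : I => f q) *
        g2 (fun q : J => θ T f q)) μ :=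
      hint _ ((hg1.measurable.comp hXm).mul (hg2.measurable.comp (hYTm T))) (fun f =>
        ⟨mul_nonneg (hb1 _).1 (hb2 _).1, mul_le_one₀ (hb1 _).2 (hb2 _).1 (hb2 _).2⟩)
    have i3 : Integrable (fun f : A → E N => W1.indicator (1 : (I → E N) → ℝ)
        (fun q : I => f q)) μ := hint _ (hw1.comp hXm) (fun f => hind _ _)
    have i4 : Integrable (fun f : A → E N => W2.indicator (1 : (J → E N) → ℝ)
        (fun q : J => θ T f q)) μ := hint _ (hw2.comp (hYTm T)) (fun f => hind _ _)
    rw [← integral_sub i1 i2]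
    refine abs_integral_le_integral_abs.trans ?_
    have h2 : ∫ f, |S.indicator (1 : (I → E N) → ℝ) (fun q : I => f q) *
        S'.indicator (1 : (J → E N) → ℝ) (fun q : J => θ T f q) -
        g1 (fun q : I => f q) * g2 (fun q : J => θ T f q)| ∂μ ≤
        ∫ f, (W1.indicator (1 : (I → E N) → ℝ) (fun q : I => f q) +
          W2.indicator (1 : (J → E N) → ℝ) (fun q : J => θ T f q)) ∂μ := by
      refine integral_mono (i1.sub i2).abs (i3.add i4) (fun f => ?_)
      exact hpt _ _ _ _ _ _ (ha1 _) (ha2 _) (hind _ _).1 (hind _ _).2 (hb1 _).1 (hb1 _).2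
    refine h2.trans ?_
    rw [integral_add i3 i4]
    linarith [hYTW T]
  have hest2 : |(μ {f | (fun q : I => f q) ∈ S}).toReal * (μ {f | (fun q : J => f q) ∈ S'}).toReal -
      (∫ f, g1 (fun q : I => f q) ∂μ) * ∫ f, g2 (fun q : J => f q) ∂μ| ≤ 2 * η := by
    have e1 : (μ {f | (fun q : I => f q) ∈ S}).toReal =
        ∫ f, S.indicator (1 : (I → E N) → ℝ) (fun q : I => f q) ∂μ := by
      exact hreal _ (hXm hS)
    have e2 : (μ {f | (fun q : J => f q) ∈ S'}).toReal =
        ∫ f, S'.indicator (1 : (J → E N) → ℝ) (fun q : J => f q) ∂μ := by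
      exact hreal _ (hYm hS')
    have i1 : Integrable (fun f : A → E N => S.indicator (1 : (I → E N) → ℝ)
        (fun q : I => f q)) μ := hint _ (hi1.comp hXm) (fun f => hind _ _)
    have i2 : Integrable (fun f : A → E N => S'.indicator (1 : (J → E N) → ℝ)
        (fun q : J => f q)) μ := hint _ (hi2.comp hYm) (fun f => hind _ _)
    have i3 : Integrable (fun f : A → E N => g1 (fun q : I => f q)) μ :=
      hint _ (hg1.measurable.comp hXm) (fun f => hb1 _)
    have i4 : Integrable (fun f : A → E N => g2 (fun q : J => f q)) μ :=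
      hint _ (hg2.measurable.comp hYm) (fun f => hb2 _)
    have i5 : Integrable (fun f : A → E N => W1.indicator (1 : (I → E N) → ℝ)
        (fun q : I => f q)) μ := hint _ (hw1.comp hXm) (fun f => hind _ _)
    have i6 : Integrable (fun f : A → E N => W2.indicator (1 : (J → E N) → ℝ)
        (fun q : J => f q)) μ := hint _ (hw2.comp hYm) (fun f => hind _ _)
    have d1 : |(∫ f, S.indicator (1 : (I → E N) → ℝ) (fun q : I => f q) ∂μ) -
        ∫ f, g1 (fun q : I => f q) ∂μ| ≤ η := by
      rw [← integral_sub i1 i3]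
      exact (abs_integral_le_integral_abs.trans
        (integral_mono (i1.sub i3).abs i5 (fun f => ha1 _))).trans hXW
    have d2 : |(∫ f, S'.indicator (1 : (J → E N) → ℝ) (fun q : J => f q) ∂μ) -
        ∫ f, g2 (fun q : J => f q) ∂μ| ≤ η := by
      rw [← integral_sub i2 i4]
      exact (abs_integral_le_integral_abs.trans
        (integral_mono (i2.sub i4).abs i6 (fun f => ha2 _))).trans hYW
    rw [e1, e2, two_mul]
    refine hpt _ _ _ _ _ _ d1 d2 ?_ ?_ ?_ ?_
    · rw [← e2]; exact ENNReal.toReal_nonneg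
    · rw [← e2]
      have h1 := ENNReal.toReal_mono ENNReal.one_ne_top
        (prob_le_one (μ := μ) (s := {f | (fun q : J => f q) ∈ S'}))
      rwa [ENNReal.toReal_one] at h1
    · exact integral_nonneg fun f => (hb1 _).1
    · have h1 := integral_mono i3 (integrable_const (1 : ℝ)) (fun f => (hb1 (fun q : I => f q)).2)
      refine h1.trans ?_
      rw [integral_const]
      simp
  have hev := (Metric.tendsto_nhds.1 hlim) η hη0
  filter_upwards [hev] with T hT
  rw [Real.dist_eq] at hT ⊢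
  have h1 := hest1 T
  rw [abs_le] at h1 hest2
  rw [abs_lt] at hT ⊢
  constructor <;> linarith [h1.1, h1.2, hest2.1, hest2.2, hT.1, hT.2]

end Dyn
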