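import Pool.Agent.Lib_MP_36b788.MSF

/-!
# PHILIM: convergence of the exponentials along every solution, to the same limit

PROOF. If there is no solution, take `φ = 0`. Otherwise fix a solution `S0`. `MixProp` with `Z = 1`, `S1 = S2 = S0`: for `δ > 0` there is `T0` with
`‖E X_{s1+T} - E X_{s2+T}‖ ≤ δ` for all `T ≥ T0`, `s1, s2`; so `t ↦ E X_t` is Cauchy at infinity (`s = t - T0`, `T = T0`): limit `φ I u`. For
another solution `S` use `MixProp` with `S1 = S`, `S2 = S0`, `Z = 1`, `s1 = s2 = s`, `T = T0`: `‖E_S X_{s+T0} - E_{S0} X_{s+T0}‖ ≤ δ`.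
-/

open MeasureTheory ProbabilityTheory Filter
open scoped NNReal ENNReal Topology

namespace Dyn

theorem PhiLim_diff {N d : ℕ} {k β : ℝ} (hM : MixProp N d k β) (S1 S2 : Sol N d k 1 β)
    (I : Finset (ℝ≥0 × Site d)) (u : ℝ≥0 × Site d → E N) (δ : ℝ) (hδ : 0 < δ) :
    ∃ T0 : ℝ≥0, ∀ s1 s2 : ℝ≥0, ‖∫ ω, Xf' S1.H I u (s1 + T0) ω ∂S1.P
        - ∫ ω, Xf' S2.H I u (s2 + T0) ω ∂S2.P‖ ≤ δ := by
  obtain ⟨T0, hT0⟩ := hM S1 S2 I u δ hδ
  refine ⟨T0, fun s1 s2 => ?_⟩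
  have hp : IsProbabilityMeasure S1.P := S1.dyn.prob
  have h := hT0 T0 le_rfl s1 s2 (fun _ => 1) measurable_const (fun _ => by simp)
  simpa using h

theorem phi_lim {N d : ℕ} {k β : ℝ} (hM : MixProp N d k β) :
    ∃ φ : Finset (ℝ≥0 × Site d) → (ℝ≥0 × Site d → E N) → ℂ, ∀ (S : Sol N d k 1 β) I u,
      Tendsto (fun t : ℝ≥0 => ∫ ω, Xf' S.H I u t ω ∂S.P) atTop (𝓝 (φ I u)) := by
  classical
  by_cases hne : Nonempty (Sol N d k 1 β)
  · obtain ⟨S0⟩ := hne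
    have hex : ∀ (I : Finset (ℝ≥0 × Site d)) (u : ℝ≥0 × Site d → E N), ∃ z : ℂ,
        Tendsto (fun t : ℝ≥0 => ∫ ω, Xf' S0.H I u t ω ∂S0.P) atTop (𝓝 z) := by
      intro I u
      apply cauchySeq_tendsto_of_complete
      rw [Metric.cauchySeq_iff']
      intro ε hε
      obtain ⟨T0, hT0⟩ := PhiLim_diff hM S0 S0 I u (ε / 2) (by linarith)
      refine ⟨T0, fun n hn => ?_⟩
      have h := hT0 (n - T0) 0
      rw [tsub_add_cancel_of_le hn, zero_add] at h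
      rw [dist_eq_norm]
      linarith
    choose φ hφ using hex
    refine ⟨φ, fun S I u => ?_⟩
    have h0 : Tendsto (fun t : ℝ≥0 => ∫ ω, Xf' S.H I u t ω ∂S.P - ∫ ω, Xf' S0.H I u t ω ∂S0.P)
        atTop (𝓝 0) := by
      rw [Metric.tendsto_atTop]
      intro ε hε
      obtain ⟨T0, hT0⟩ := PhiLim_diff hM S S0 I u (ε / 2) (by linarith)
      refine ⟨T0, fun n hn => ?_⟩
      have h := hT0 (n - T0) (n - T0)
      rw [tsub_add_cancel_of_le hn] at h
      rw [dist_zero_right]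
      linarith
    have h1 := h0.add (hφ I u)
    rw [zero_add] at h1
    refine h1.congr fun t => ?_
    ring
  · exact ⟨fun _ _ => 0, fun S => absurd ⟨S⟩ hne⟩

end Dyn
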