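import Pool.Agent.Lib_MP_36b788.PathDefs
import Pool.Agent.Lib_MP_36b788.PhMeas

/-!
# PATHM: measurability and bounds of path functionals, connection with `chainLaw`

PROOF. Induction on the list / on `n`. `stp` is continuous in `(G,ξ)` (`stp_continuous`), so for measurable bounded `F`,
`G ↦ ∫ F (stp G ξ)` is measurable (`StronglyMeasurable.integral_prod_right'`). `chainLaw`: `integral_map`,
`integral_prod`; induction on `n` for all initial laws, or by the identity
`∫ F d chainLaw (n+1) = ∫ (∫ F(stp G ξ)) d chainLaw n`.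
-/

open MeasureTheory ProbabilityTheory

namespace Dyn

variable {N d : ℕ} {ι : Type} [Fintype ι] {net : Net ι d} {β h k : ℝ} {ν : Measure (E N)}

private theorem PathM_prob [IsProbabilityMeasure ν] : IsProbabilityMeasure (pim ι ν) := by
  unfold pim
  infer_instance

private theorem PathM_norm_le [IsProbabilityMeasure ν] {F : (ι → E N) → ℂ}
    (hF : ∀ ξ, ‖F ξ‖ ≤ 1) : ‖∫ ξ, F ξ ∂(pim ι ν)‖ ≤ 1 := by
  have := PathM_prob (ι := ι) (ν := ν)
  have h1 := norm_integral_le_of_norm_le_const (μ := pim ι ν) (f := F) (C := 1)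
    (Filter.Eventually.of_forall hF)
  simpa using h1

private theorem PathM_meas_C (hβ : 0 < β) (hh : 0 ≤ h) [IsProbabilityMeasure ν]
    {F : (ι → E N) → ℂ} (hF : Measurable F) :
    Measurable (fun G => ∫ ξ, F (stp net β h k G ξ) ∂(pim ι ν)) := by
  have := PathM_prob (ι := ι) (ν := ν)
  have h1 : Measurable (fun q : (ι → E N) × (ι → E N) => F (stp net β h k q.1 q.2)) :=
    hF.comp (stp_continuous hβ hh k net).measurable
  exact (StronglyMeasurable.integral_prod_right' (ν := pim ι ν) h1.stronglyMeasurable).measurable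

private theorem PathM_meas_R (hβ : 0 < β) (hh : 0 ≤ h) [IsProbabilityMeasure ν]
    {F : (ι → E N) → ℝ} (hF : Measurable F) :
    Measurable (fun G => ∫ ξ, F (stp net β h k G ξ) ∂(pim ι ν)) := by
  have := PathM_prob (ι := ι) (ν := ν)
  have h1 : Measurable (fun q : (ι → E N) × (ι → E N) => F (stp net β h k q.1 q.2)) :=
    hF.comp (stp_continuous hβ hh k net).measurable
  exact (StronglyMeasurable.integral_prod_right' (ν := pim ι ν) h1.stronglyMeasurable).measurable

theorem pathE_facts (hβ : 0 < β) (hh : 0 ≤ h) [IsProbabilityMeasure ν]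
    (fs : List ((ι → E N) → ℂ)) (hm : ∀ f ∈ fs, Measurable f) (hb : ∀ f ∈ fs, ∀ G, ‖f G‖ ≤ 1) :
    Measurable (pathE net β h k ν fs) ∧ ∀ G, ‖pathE net β h k ν fs G‖ ≤ 1 := by
  induction fs with
  | nil =>
    refine ⟨?_, fun G => ?_⟩
    · show Measurable (fun _ : ι → E N => (1 : ℂ))
      exact measurable_const
    · show ‖(1 : ℂ)‖ ≤ 1
      simp
  | cons f fs ih =>
    obtain ⟨h1, h2⟩ := ih (fun g hg => hm g (List.mem_cons_of_mem _ hg))
      (fun g hg => hb g (List.mem_cons_of_mem _ hg))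
    refine ⟨?_, fun G => ?_⟩
    · show Measurable (fun G => f G * ∫ ξ, pathE net β h k ν fs (stp net β h k G ξ) ∂(pim ι ν))
      exact (hm f (by simp)).mul (PathM_meas_C hβ hh h1)
    · show ‖f G * ∫ ξ, pathE net β h k ν fs (stp net β h k G ξ) ∂(pim ι ν)‖ ≤ 1
      rw [norm_mul]
      exact mul_le_one₀ (hb f (by simp) G) (norm_nonneg _) (PathM_norm_le fun ξ => h2 _)

theorem exitE_facts (hβ : 0 < β) (hh : 0 ≤ h) [IsProbabilityMeasure ν] (n : ℕ) :
    Measurable (exitE net β h k ν n) ∧ ∀ G, 0 ≤ exitE net β h k ν n G ∧ exitE net β h k ν n G ≤ 1 := by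
  classical
  have := PathM_prob (ι := ι) (ν := ν)
  induction n with
  | zero =>
    refine ⟨?_, fun G => ?_⟩
    · show Measurable (fun _ : ι → E N => (0 : ℝ))
      exact measurable_const
    · show (0 : ℝ) ≤ 0 ∧ (0 : ℝ) ≤ 1
      exact ⟨le_rfl, zero_le_one⟩
  | succ n ih =>
    obtain ⟨h1, h2⟩ := ih
    have hi : ∀ G, Integrable (fun ξ => exitE net β h k ν n (stp net β h k G ξ)) (pim ι ν) := by
      intro G
      refine Integrable.of_bound (C := 1) ?_ (Filter.Eventually.of_forall fun ξ => ?_)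
      · exact (h1.comp ((stp_continuous hβ hh k net).measurable.comp
          (measurable_const.prodMk measurable_id))).aestronglyMeasurable
      · rw [Real.norm_of_nonneg (h2 _).1]
        exact (h2 _).2
    refine ⟨?_, fun G => ?_⟩
    · show Measurable (fun G : ι → E N => if ∀ x, ‖G x‖ ≤ rad β h then
        ∫ ξ, exitE net β h k ν n (stp net β h k G ξ) ∂(pim ι ν) else 1)
      refine Measurable.ite ?_ (PathM_meas_R hβ hh h1) measurable_const
      have : {G : ι → E N | ∀ x, ‖G x‖ ≤ rad β h} = ⋂ x, {G | ‖G x‖ ≤ rad β h} := by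
        ext G; simp
      rw [this]
      exact MeasurableSet.iInter fun x =>
        measurableSet_le (measurable_pi_apply x).norm measurable_const
    · show 0 ≤ (if ∀ x, ‖G x‖ ≤ rad β h then
        ∫ ξ, exitE net β h k ν n (stp net β h k G ξ) ∂(pim ι ν) else 1) ∧
        (if ∀ x, ‖G x‖ ≤ rad β h then
        ∫ ξ, exitE net β h k ν n (stp net β h k G ξ) ∂(pim ι ν) else 1) ≤ 1
      split_ifs with hG
      · refine ⟨integral_nonneg fun ξ => (h2 _).1, ?_⟩
        have h3 := integral_mono (hi G) (integrable_const (1 : ℝ)) fun ξ => (h2 _).2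
        simpa using h3
      · exact ⟨zero_le_one, le_rfl⟩

theorem chainLaw_prob (hβ : 0 < β) (hh : 0 ≤ h) [IsProbabilityMeasure ν]
    (m0 : Measure (ι → E N)) [IsProbabilityMeasure m0] (n : ℕ) :
    IsProbabilityMeasure (chainLaw net β h k ν m0 n) := by
  have := PathM_prob (ι := ι) (ν := ν)
  induction n with
  | zero => show IsProbabilityMeasure m0; infer_instance
  | succ n ih =>
    have := ih
    have hst := (stp_continuous (N := N) hβ hh k net).measurable
    rw [chainLaw]
    exact Measure.isProbabilityMeasure_map hst.aemeasurable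

private theorem PathM_append [IsProbabilityMeasure ν] (f : (ι → E N) → ℂ)
    (l : List ((ι → E N) → ℂ)) (G : ι → E N) :
    pathE net β h k ν (l ++ [fun G => ∫ ξ, f (stp net β h k G ξ) ∂(pim ι ν)]) G =
      pathE net β h k ν (l ++ [fun _ => 1, f]) G := by
  have := PathM_prob (ι := ι) (ν := ν)
  induction l generalizing G with
  | nil =>
    show (∫ ξ, f (stp net β h k G ξ) ∂(pim ι ν)) * ∫ _ξ, (1 : ℂ) ∂(pim ι ν) =
      1 * ∫ ξ, (f (stp net β h k G ξ) * ∫ _ξ', (1 : ℂ) ∂(pim ι ν)) ∂(pim ι ν)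
    simp
  | cons g l ih =>
    show g G * ∫ ξ, pathE net β h k ν (l ++ [fun G => ∫ ξ, f (stp net β h k G ξ) ∂(pim ι ν)])
        (stp net β h k G ξ) ∂(pim ι ν) =
      g G * ∫ ξ, pathE net β h k ν (l ++ [fun _ => 1, f]) (stp net β h k G ξ) ∂(pim ι ν)
    simp only [ih]

theorem chainLaw_integral (hβ : 0 < β) (hh : 0 ≤ h) [IsProbabilityMeasure ν]
    (m0 : Measure (ι → E N)) [IsProbabilityMeasure m0] (n : ℕ) (f : (ι → E N) → ℂ)
    (hm : Measurable f) (hb : ∀ G, ‖f G‖ ≤ 1) :
    ∫ G, f G ∂(chainLaw net β h k ν m0 n) =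
      ∫ G, pathE net β h k ν (List.replicate n (fun _ => 1) ++ [f]) G ∂m0 := by
  have := PathM_prob (ι := ι) (ν := ν)
  induction n generalizing f with
  | zero =>
    show ∫ G, f G ∂m0 = ∫ G, f G * ∫ _ξ, (1 : ℂ) ∂(pim ι ν) ∂m0
    simp
  | succ n ih =>
    have := chainLaw_prob (net := net) (k := k) (ν := ν) hβ hh m0 n
    have hst := (stp_continuous (N := N) hβ hh k net).measurable
    have e1 : ∫ G, f G ∂(chainLaw net β h k ν m0 (n + 1)) =
        ∫ q, f (stp net β h k q.1 q.2) ∂((chainLaw net β h k ν m0 n).prod (pim ι ν)) := by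
      show ∫ G, f G ∂(((chainLaw net β h k ν m0 n).prod (pim ι ν)).map
        (fun q => stp net β h k q.1 q.2)) = _
      rw [integral_map hst.aemeasurable hm.aestronglyMeasurable]
    have hi : Integrable (fun q : (ι → E N) × (ι → E N) => f (stp net β h k q.1 q.2))
        ((chainLaw net β h k ν m0 n).prod (pim ι ν)) := by
      refine Integrable.of_bound (C := 1) ?_ (Filter.Eventually.of_forall fun q => hb _)
      exact (hm.comp hst).aestronglyMeasurable
    rw [e1, integral_prod _ hi]
    have e2 := ih (fun G => ∫ ξ, f (stp net β h k G ξ) ∂(pim ι ν)) (PathM_meas_C hβ hh hm)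
      (fun G => PathM_norm_le fun ξ => hb _)
    refine e2.trans ?_
    have e3 : (List.replicate (n + 1) (fun _ : ι → E N => (1 : ℂ)) ++ [f]) =
        List.replicate n (fun _ => 1) ++ [fun _ => 1, f] := by
      rw [List.replicate_succ', List.append_assoc]
      rfl
    rw [e3]
    refine integral_congr_ae (Filter.Eventually.of_forall fun G => ?_)
    exact PathM_append f _ G

end Dyn
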