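import Pool.Agent.Lib_MP_36b788.Base
import Pool.Agent.Lib_MP_36b788.DtDef

/-!
# The contraction functional `Φ`
-/

open MeasureTheory

namespace Dyn

noncomputable section

/-- parameters of `Φ` -/
structure PP where
  B : ℝ
  R6 : ℝ
  r5 : ℝ
  p : ℝ
  eta : ℝ
  Cg : ℝ
  m : ℝ
  n : ℕ

variable {N d : ℕ} {β D0 : ℝ} {ι : Type} [Fintype ι]

/-- `φ_x = D̃_x^p exp(p (g(r_x)+g(r'_x)+Cg k (H_x+H'_x)))` -/
def phi (P : PP) (net : Net ι d) (β k : ℝ) (G G' : ι → E N) (x : ι) : ℝ :=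
  Dt net (P.B * k) G G' x ^ P.p *
    Real.exp (P.p * (gf P.n P.R6 P.r5 ‖G x‖ + gf P.n P.R6 P.r5 ‖G' x‖
      + P.Cg * k * (Hh net β G x + Hh net β G' x)))

/-- `V_z` with the constants of a base -/
def Vs (Bs : Base N d β D0) (m : ℝ) (net : Net ι d) (k : ℝ) (y : ℝ → ℝ) (G : ι → E N) (z : ι) : ℝ :=
  VV net β k Bs.A Bs.Rc (Bs.Ct * Real.sqrt k) m y G z

/-- `T_x = φ_x (1 + η Σ_z 2^{-|x-z|}(V_z+V'_z))` -/
def TT (Bs : Base N d β D0) (P : PP) (net : Net ι d) (k : ℝ) (y : ℝ → ℝ) (G G' : ι → E N)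
    (x : ι) : ℝ :=
  phi P net β k G G' x *
    (1 + P.eta * ∑ z, (1 / 2 : ℝ) ^ net.dist x z *
      (Vs Bs P.m net k y G z + Vs Bs P.m net k y G' z))

/-- `Φ_o = Σ_x 2^{-|o-x|} T_x` -/
def PHI (Bs : Base N d β D0) (P : PP) (net : Net ι d) (k : ℝ) (y : ℝ → ℝ) (G G' : ι → E N)
    (o : ι) : ℝ :=
  ∑ x, (1 / 2 : ℝ) ^ net.dist o x * TT Bs P net k y G G' x

/-- admissible configurations: for `k = 0` every site is nonzero, for `k > 0` some site is nonzero -/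
def Nz (k : ℝ) (G : ι → E N) : Prop := (∀ z, G z ≠ 0) ∨ (0 < k ∧ G ≠ 0)

/-- dominated sites -/
def Dom (δ1 b : ℝ) (net : Net ι d) (G G' : ι → E N) (x : ι) : Prop :=
  (1 - δ1) * Dt net b G G' x ≤ ‖G x - G' x‖ ∧ 0 < Dt net b G G' x

end

end Dyn
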