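import Pool.Agent.Lib_MP_36b788.PathDefs
import Pool.Agent.Lib_MP_36b788.PhiDefs
import Pool.Agent.Lib_MP_36b788.GSite
import Pool.Agent.Lib_MP_36b788.LSH
import Pool.Agent.Lib_MP_36b788.BoxNet

/-!
# PHIBD: lower and upper bounds of `Φ`

PROOF. `low`: `-1 ≤ gf` (gf_bounds), `H ≥ 0` (Hh_bounds), so `φ_x ≥ D̃_x^p e^{-2p} ≥ ‖D_x‖^p e^{-2p} ≥ e^{-2}min(1,‖D_x‖)` (`p ≤ 1`:
`min(1,a) ≤ a^p`), `T_x ≥ φ_x`, `Φ_o ≥ 2^{-|o-x|}T_x`.
`up` on a box with centre `o = 0`: `b = Bk ≤ 1/4`; `D̃_x ≤ Σ_z b^{|x-z|}(‖G z‖+‖G' z‖)`, so by Cauchy-Schwarz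
`D̃_x² ≤ 2·3^d (R2_x+R2'_x)` (`b^{n} ≤ 2^{-n}`), `D̃^p ≤ 1 + D̃²`, `gf ≤ ½log(1+R6/r5)`, `H ≤ 3^d`. With
`R2_x, R2'_x ≤ a(1+|x|)^{q}` and `V_z, V'_z ≤ a(1+|z|)^{q}`: `T_x ≤ C(1+|x|)^q(1+Σ_z2^{-|x-z|}(1+|z|)^q)`, and
`(1+|x|)^q ≤ (1+|z|)^q(1+|x-z|)^q`, `(1+n)^q 2^{-n}` summable… it is enough to bound
`Σ_x 2^{-|x|}(1+|x|)^q·Σ_z2^{-|x-z|}(1+|z|)^q` uniformly in `L`: `(1+|z|)^q ≤ (1+|x|)^q(1+|x-z|)^q`,
`Σ_{w∈ℤ^d}2^{-|w|}(1+|w|)^{2q} < ∞`.
-/

open MeasureTheory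

namespace Dyn

private theorem PhiBd_min {a p : ℝ} (ha : 0 ≤ a) (hp : 0 < p) (hp1 : p ≤ 1) : min 1 a ≤ a ^ p := by
  rcases le_total a 1 with h | h
  · rw [min_eq_right h]
    rcases ha.eq_or_lt with h0 | h0
    · rw [← h0, Real.zero_rpow hp.ne']
    · calc a = a ^ (1 : ℝ) := (Real.rpow_one a).symm
        _ ≤ a ^ p := Real.rpow_le_rpow_of_exponent_ge h0 h hp1
  · rw [min_eq_left h]
    exact Real.one_le_rpow h hp.le

private theorem PhiBd_rpow {a p : ℝ} (ha : 0 ≤ a) (hp : 0 < p) (hp1 : p ≤ 1) :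
    a ^ p ≤ 1 + a ^ 2 := by
  rcases le_total a 1 with h | h
  · have : a ^ p ≤ 1 := Real.rpow_le_one ha h hp.le
    nlinarith [sq_nonneg a]
  · have h1 : a ^ p ≤ a ^ (1 : ℝ) := Real.rpow_le_rpow_of_exponent_le h hp1
    rw [Real.rpow_one] at h1
    nlinarith

private theorem PhiBd_V {N d : ℕ} {β D0 : ℝ} (Bs : Base N d β D0) (m : ℝ) {ι : Type} [Fintype ι]
    (net : Net ι d) (k : ℝ) (y : ℝ → ℝ) (G : ι → E N) (z : ι) : 0 ≤ Vs Bs m net k y G z :=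
  (Real.exp_pos _).le

private theorem PhiBd_D0 {N d : ℕ} {ι : Type} [Fintype ι] (net : Net ι d) {b : ℝ} (hb : 0 ≤ b)
    (G G' : ι → E N) (x : ι) : 0 ≤ Dt net b G G' x :=
  Finset.sum_nonneg fun _ _ => mul_nonneg (pow_nonneg hb _) (norm_nonneg _)

private theorem PhiBd_Dself {N d : ℕ} {ι : Type} [Fintype ι] (net : Net ι d) {b : ℝ} (hb : 0 ≤ b)
    (G G' : ι → E N) (x : ι) : ‖G x - G' x‖ ≤ Dt net b G G' x := by
  have := Finset.single_le_sum (f := fun z => b ^ net.dist x z * ‖G z - G' z‖)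
    (fun z _ => mul_nonneg (pow_nonneg hb _) (norm_nonneg _)) (Finset.mem_univ x)
  simp only [net.dist_self, pow_zero, one_mul] at this
  exact this

private theorem PhiBd_phi0 {N d : ℕ} (P : PP) {β k : ℝ} {ι : Type} [Fintype ι] (net : Net ι d)
    (hb : 0 ≤ P.B * k) (G G' : ι → E N) (x : ι) : 0 ≤ phi P net β k G G' x :=
  mul_nonneg (Real.rpow_nonneg (PhiBd_D0 net hb G G' x) _) (Real.exp_pos _).le

private theorem PhiBd_phiLow {N d : ℕ} {β : ℝ} (P : PP) (hβ : 1 < β) (hp : 0 < P.p)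
    (hp1 : P.p ≤ 1) (hn : 1 ≤ P.n) (h5 : 0 < P.r5) (h51 : P.r5 ≤ 1) (h6 : 1 ≤ P.R6)
    (hCg : 0 ≤ P.Cg) (hB : 1 ≤ P.B) (k : ℝ) (hk : 0 ≤ k)
    {ι : Type} [Fintype ι] (net : Net ι d) (G G' : ι → E N) (x : ι) :
    min 1 ‖G x - G' x‖ ≤ Real.exp 2 * phi P net β k G G' x := by
  have hgf := gf_bounds P.n hn P.R6 P.r5 h5 h51 h6
  have hb : 0 ≤ P.B * k := by positivity
  have hH := (Hh_bounds net β hβ G x).1
  have hH' := (Hh_bounds net β hβ G' x).1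
  have g1 := (hgf ‖G x‖ (norm_nonneg _)).1
  have g2 := (hgf ‖G' x‖ (norm_nonneg _)).1
  have h1 : ‖G x - G' x‖ ^ P.p ≤ Dt net (P.B * k) G G' x ^ P.p :=
    Real.rpow_le_rpow (norm_nonneg _) (PhiBd_Dself net hb G G' x) hp.le
  have h2 : -2 ≤ P.p * (gf P.n P.R6 P.r5 ‖G x‖ + gf P.n P.R6 P.r5 ‖G' x‖
      + P.Cg * k * (Hh net β G x + Hh net β G' x)) := by
    have h3 : 0 ≤ P.Cg * k * (Hh net β G x + Hh net β G' x) :=
      mul_nonneg (mul_nonneg hCg hk) (by linarith)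
    have h4 : -2 ≤ gf P.n P.R6 P.r5 ‖G x‖ + gf P.n P.R6 P.r5 ‖G' x‖
      + P.Cg * k * (Hh net β G x + Hh net β G' x) := by linarith
    nlinarith
  unfold phi
  have h7 : 1 ≤ Real.exp 2 * Real.exp (P.p * (gf P.n P.R6 P.r5 ‖G x‖ + gf P.n P.R6 P.r5 ‖G' x‖
      + P.Cg * k * (Hh net β G x + Hh net β G' x))) := by
    rw [← Real.exp_add]
    exact Real.one_le_exp (by linarith)
  calc min 1 ‖G x - G' x‖ ≤ ‖G x - G' x‖ ^ P.p := PhiBd_min (norm_nonneg _) hp hp1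
    _ ≤ Dt net (P.B * k) G G' x ^ P.p * 1 := by rw [mul_one]; exact h1
    _ ≤ Dt net (P.B * k) G G' x ^ P.p * (Real.exp 2 * Real.exp (P.p *
        (gf P.n P.R6 P.r5 ‖G x‖ + gf P.n P.R6 P.r5 ‖G' x‖
      + P.Cg * k * (Hh net β G x + Hh net β G' x)))) :=
        mul_le_mul_of_nonneg_left h7 (Real.rpow_nonneg (PhiBd_D0 net hb G G' x) _)
    _ = _ := by ring

private theorem PhiBd_W {N d : ℕ} {β D0 : ℝ} (Bs : Base N d β D0) (P : PP)
    (heta : 0 ≤ P.eta) (k : ℝ) {ι : Type} [Fintype ι] (net : Net ι d) (y : ℝ → ℝ)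
    (G G' : ι → E N) (x : ι) : 0 ≤ P.eta * ∑ z, (1 / 2 : ℝ) ^ net.dist x z *
      (Vs Bs P.m net k y G z + Vs Bs P.m net k y G' z) :=
  mul_nonneg heta (Finset.sum_nonneg fun z _ => mul_nonneg (by positivity)
    (add_nonneg (PhiBd_V Bs P.m net k y G z) (PhiBd_V Bs P.m net k y G' z)))

private theorem PhiBd_TT {N d : ℕ} {β D0 : ℝ} (Bs : Base N d β D0) (P : PP)
    (heta : 0 ≤ P.eta) (hB : 1 ≤ P.B) (k : ℝ) (hk : 0 ≤ k) {ι : Type} [Fintype ι]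
    (net : Net ι d) (y : ℝ → ℝ) (G G' : ι → E N) (x : ι) :
    phi P net β k G G' x ≤ TT Bs P net k y G G' x := by
  have h0 := PhiBd_phi0 P (β := β) net (by positivity : 0 ≤ P.B * k) G G' x
  have h1 := PhiBd_W Bs P heta k net y G G' x
  unfold TT
  exact le_mul_of_one_le_right h0 (by linarith)

private theorem PhiBd_D2 {N d : ℕ} {ι : Type} [Fintype ι] (net : Net ι d) {b : ℝ} (hb : 0 ≤ b)
    (hb2 : b ≤ 1 / 2) (G G' : ι → E N) (x : ι) :
    Dt net b G G' x ^ 2 ≤ 2 * 3 ^ d * (R2f net G x + R2f net G' x) := by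
  have h1 : Dt net b G G' x ≤ ∑ z, (1 / 2 : ℝ) ^ net.dist x z * ‖G z - G' z‖ :=
    Finset.sum_le_sum fun z _ => mul_le_mul_of_nonneg_right (pow_le_pow_left₀ hb hb2 _)
      (norm_nonneg _)
  have h2 : (∑ z, (1 / 2 : ℝ) ^ net.dist x z * ‖G z - G' z‖) ^ 2 ≤
      (∑ z, (1 / 2 : ℝ) ^ net.dist x z) *
        ∑ z, (1 / 2 : ℝ) ^ net.dist x z * ‖G z - G' z‖ ^ 2 := by
    apply Finset.sum_sq_le_sum_mul_sum_of_sq_eq_mul
    · intro z _; positivity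
    · intro z _; positivity
    · intro z _; ring
  have h3 : ∑ z, (1 / 2 : ℝ) ^ net.dist x z * ‖G z - G' z‖ ^ 2 ≤
      2 * (R2f net G x + R2f net G' x) := by
    unfold R2f
    rw [← Finset.sum_add_distrib, Finset.mul_sum]
    apply Finset.sum_le_sum
    intro z _
    have h4 : ‖G z - G' z‖ ^ 2 ≤ 2 * (‖G z‖ ^ 2 + ‖G' z‖ ^ 2) := by
      have h5 : ‖G z - G' z‖ ≤ ‖G z‖ + ‖G' z‖ := norm_sub_le _ _
      have h6 := norm_nonneg (G z - G' z)
      nlinarith [sq_nonneg (‖G z‖ - ‖G' z‖), norm_nonneg (G z), norm_nonneg (G' z)]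
    calc (1 / 2 : ℝ) ^ net.dist x z * ‖G z - G' z‖ ^ 2
        ≤ (1 / 2 : ℝ) ^ net.dist x z * (2 * (‖G z‖ ^ 2 + ‖G' z‖ ^ 2)) :=
          mul_le_mul_of_nonneg_left h4 (by positivity)
      _ = _ := by ring
  have h7 : 0 ≤ 2 * (R2f net G x + R2f net G' x) :=
    le_trans (Finset.sum_nonneg fun z _ => by positivity) h3
  calc Dt net b G G' x ^ 2 ≤ (∑ z, (1 / 2 : ℝ) ^ net.dist x z * ‖G z - G' z‖) ^ 2 :=
        pow_le_pow_left₀ (PhiBd_D0 net hb G G' x) h1 2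
    _ ≤ _ := h2
    _ ≤ 3 ^ d * (2 * (R2f net G x + R2f net G' x)) := by
        apply mul_le_mul (net.sum_half x) h3 (Finset.sum_nonneg fun z _ => by positivity)
          (by positivity)
    _ = _ := by ring

private theorem PhiBd_phiUp {N d : ℕ} {β : ℝ} (P : PP) (hβ : 1 < β) (hp : 0 < P.p)
    (hp1 : P.p ≤ 1) (hn : 1 ≤ P.n) (h5 : 0 < P.r5) (h51 : P.r5 ≤ 1) (h6 : 1 ≤ P.R6)
    (hCg : 0 ≤ P.Cg) (hB : 1 ≤ P.B) (k : ℝ) (hk : 0 ≤ k) (hk1 : k ≤ 1) (hBk : P.B * k ≤ 1 / 4)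
    {ι : Type} [Fintype ι] (net : Net ι d) (G G' : ι → E N) (x : ι) :
    phi P net β k G G' x ≤ (1 + 2 * 3 ^ d * (R2f net G x + R2f net G' x)) *
      Real.exp (Real.log (1 + P.R6 / P.r5) + 2 * 3 ^ d * P.Cg) := by
  have hgf := gf_bounds P.n hn P.R6 P.r5 h5 h51 h6
  have hb : 0 ≤ P.B * k := by positivity
  have hH := (Hh_bounds net β hβ G x).2
  have hH' := (Hh_bounds net β hβ G' x).2
  have hHl := (Hh_bounds net β hβ G x).1
  have hHl' := (Hh_bounds net β hβ G' x).1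
  have g1 := (hgf ‖G x‖ (norm_nonneg _)).2
  have g2 := (hgf ‖G' x‖ (norm_nonneg _)).2
  have hlog : 0 ≤ Real.log (1 + P.R6 / P.r5) :=
    Real.log_nonneg (by have : 0 ≤ P.R6 / P.r5 := by positivity
                        linarith)
  have hpos : 0 ≤ Real.log (1 + P.R6 / P.r5) + 2 * 3 ^ d * P.Cg := by positivity
  have h3 : P.Cg * k * (Hh net β G x + Hh net β G' x) ≤ 2 * 3 ^ d * P.Cg := by
    have h4 : P.Cg * k ≤ P.Cg := mul_le_of_le_one_right hCg hk1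
    calc P.Cg * k * (Hh net β G x + Hh net β G' x) ≤ P.Cg * (3 ^ d + 3 ^ d) :=
          mul_le_mul h4 (by linarith) (by linarith) hCg
      _ = _ := by ring
  have h8 : P.p * (gf P.n P.R6 P.r5 ‖G x‖ + gf P.n P.R6 P.r5 ‖G' x‖
      + P.Cg * k * (Hh net β G x + Hh net β G' x)) ≤
      Real.log (1 + P.R6 / P.r5) + 2 * 3 ^ d * P.Cg := by
    calc P.p * (gf P.n P.R6 P.r5 ‖G x‖ + gf P.n P.R6 P.r5 ‖G' x‖
          + P.Cg * k * (Hh net β G x + Hh net β G' x)) ≤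
          P.p * (Real.log (1 + P.R6 / P.r5) + 2 * 3 ^ d * P.Cg) :=
          mul_le_mul_of_nonneg_left (by linarith) hp.le
      _ ≤ _ := mul_le_of_le_one_left hpos hp1
  have h9 : Dt net (P.B * k) G G' x ^ P.p ≤ 1 + 2 * 3 ^ d * (R2f net G x + R2f net G' x) := by
    have h10 := PhiBd_rpow (PhiBd_D0 net hb G G' x) hp hp1
    have h11 := PhiBd_D2 net hb (by linarith) G G' x
    linarith
  unfold phi
  have hD := Real.rpow_nonneg (PhiBd_D0 net hb G G' x) P.p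
  exact mul_le_mul h9 (Real.exp_le_exp.mpr h8) (Real.exp_pos _).le (hD.trans h9)

/-- abstract summation -/
private theorem PhiBd_sum {d : ℕ} {ι : Type} [Fintype ι] (net : Net ι d) (o : ι) (X : ι → ℝ)
    (hX : ∀ x, 1 ≤ X x) (C c : ℝ) (hc : 0 ≤ c)
    (hC : ∑ x, ∑ z, (1 / 2 : ℝ) ^ net.dist o x * (1 / 2) ^ net.dist x z * X z ^ 2 ≤ C) :
    ∑ x, (1 / 2 : ℝ) ^ net.dist o x *
      (X x * (1 + c * ∑ z, (1 / 2 : ℝ) ^ net.dist x z * X z)) ≤ C + c * (3 ^ d * C + C) := by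
  have h1 : ∑ x, (1 / 2 : ℝ) ^ net.dist o x * X x ^ 2 ≤ C := by
    refine le_trans (Finset.sum_le_sum fun x _ => ?_) hC
    have := Finset.single_le_sum
      (f := fun z => (1 / 2 : ℝ) ^ net.dist o x * (1 / 2) ^ net.dist x z * X z ^ 2)
      (fun z _ => by positivity) (Finset.mem_univ x)
    simp only [net.dist_self, pow_zero, mul_one] at this
    exact this
  have h2 : ∑ x, (1 / 2 : ℝ) ^ net.dist o x * X x ≤ C := by
    refine le_trans (Finset.sum_le_sum fun x _ => ?_) h1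
    apply mul_le_mul_of_nonneg_left _ (by positivity)
    nlinarith [hX x]
  have h3 : ∑ x, (1 / 2 : ℝ) ^ net.dist o x * (X x * ∑ z, (1 / 2 : ℝ) ^ net.dist x z * X z) ≤
      3 ^ d * C + C := by
    have h4 : ∀ x, (1 / 2 : ℝ) ^ net.dist o x * (X x * ∑ z, (1 / 2 : ℝ) ^ net.dist x z * X z) ≤
        3 ^ d * ((1 / 2 : ℝ) ^ net.dist o x * X x ^ 2) +
          ∑ z, (1 / 2 : ℝ) ^ net.dist o x * (1 / 2) ^ net.dist x z * X z ^ 2 := by
      intro x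
      have h5 : ∑ z, (1 / 2 : ℝ) ^ net.dist o x * ((1 / 2 : ℝ) ^ net.dist x z * (X x * X z)) ≤
          ∑ z, ((1 / 2 : ℝ) ^ net.dist o x * ((1 / 2 : ℝ) ^ net.dist x z * X x ^ 2) +
            (1 / 2 : ℝ) ^ net.dist o x * (1 / 2) ^ net.dist x z * X z ^ 2) := by
        apply Finset.sum_le_sum
        intro z _
        have h6 : X x * X z ≤ X x ^ 2 + X z ^ 2 := by
          nlinarith [sq_nonneg (X x - X z), sq_nonneg (X x), sq_nonneg (X z)]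
        have h7 : 0 ≤ (1 / 2 : ℝ) ^ net.dist o x * (1 / 2 : ℝ) ^ net.dist x z := by positivity
        have h8 := mul_le_mul_of_nonneg_left h6 h7
        calc _ = (1 / 2 : ℝ) ^ net.dist o x * (1 / 2 : ℝ) ^ net.dist x z * (X x * X z) := by ring
          _ ≤ _ := h8
          _ = _ := by ring
      rw [Finset.sum_add_distrib] at h5
      have h9 : ∑ z, (1 / 2 : ℝ) ^ net.dist o x * ((1 / 2 : ℝ) ^ net.dist x z * X x ^ 2) ≤
          3 ^ d * ((1 / 2 : ℝ) ^ net.dist o x * X x ^ 2) := by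
        have h10 : ∑ z, (1 / 2 : ℝ) ^ net.dist o x * ((1 / 2 : ℝ) ^ net.dist x z * X x ^ 2) =
            (∑ z, (1 / 2 : ℝ) ^ net.dist x z) * ((1 / 2 : ℝ) ^ net.dist o x * X x ^ 2) := by
          rw [Finset.sum_mul]
          exact Finset.sum_congr rfl fun z _ => by ring
        rw [h10]
        exact mul_le_mul_of_nonneg_right (net.sum_half x) (by positivity)
      have h11 : (1 / 2 : ℝ) ^ net.dist o x * (X x * ∑ z, (1 / 2 : ℝ) ^ net.dist x z * X z) =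
          ∑ z, (1 / 2 : ℝ) ^ net.dist o x * ((1 / 2 : ℝ) ^ net.dist x z * (X x * X z)) := by
        rw [Finset.mul_sum, Finset.mul_sum]
        exact Finset.sum_congr rfl fun z _ => by ring
      rw [h11]
      linarith
    refine le_trans (Finset.sum_le_sum fun x _ => h4 x) ?_
    rw [Finset.sum_add_distrib, ← Finset.mul_sum]
    have h12 : (3 : ℝ) ^ d * ∑ x, (1 / 2 : ℝ) ^ net.dist o x * X x ^ 2 ≤ 3 ^ d * C :=
      mul_le_mul_of_nonneg_left h1 (by positivity)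
    linarith
  have h13 : ∑ x, (1 / 2 : ℝ) ^ net.dist o x *
      (X x * (1 + c * ∑ z, (1 / 2 : ℝ) ^ net.dist x z * X z)) =
      ∑ x, (1 / 2 : ℝ) ^ net.dist o x * X x +
        c * ∑ x, (1 / 2 : ℝ) ^ net.dist o x * (X x * ∑ z, (1 / 2 : ℝ) ^ net.dist x z * X z) := by
    rw [Finset.mul_sum, ← Finset.sum_add_distrib]
    exact Finset.sum_congr rfl fun x _ => by ring
  rw [h13]
  have := mul_le_mul_of_nonneg_left h3 hc
  linarith

theorem phi_low {N d : ℕ} {β D0 : ℝ} (Bs : Base N d β D0) (P : PP) (hβ : 1 < β) (hp : 0 < P.p)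
    (hp1 : P.p ≤ 1) (hn : 1 ≤ P.n) (h5 : 0 < P.r5) (h51 : P.r5 ≤ 1) (h6 : 1 ≤ P.R6)
    (heta : 0 ≤ P.eta) (hCg : 0 ≤ P.Cg) (hB : 1 ≤ P.B) (k : ℝ) (hk : 0 ≤ k)
    {ι : Type} [Fintype ι] (net : Net ι d) (y : ℝ → ℝ) (G G' : ι → E N) (o x : ι) :
    0 ≤ PHI Bs P net k y G G' o ∧
    min 1 ‖G x - G' x‖ ≤ Real.exp 2 * 2 ^ net.dist o x * PHI Bs P net k y G G' o := by
  have hT : ∀ x, 0 ≤ TT Bs P net k y G G' x := fun x =>
    (PhiBd_phi0 P net (by positivity : 0 ≤ P.B * k) G G' x).trans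
      (PhiBd_TT Bs P heta hB k hk net y G G' x)
  refine ⟨Finset.sum_nonneg fun x _ => mul_nonneg (by positivity) (hT x), ?_⟩
  have h1 := PhiBd_phiLow P hβ hp hp1 hn h5 h51 h6 hCg hB k hk net G G' x
  have h2 := PhiBd_TT Bs P heta hB k hk net y G G' x
  have h3 : (1 / 2 : ℝ) ^ net.dist o x * TT Bs P net k y G G' x ≤ PHI Bs P net k y G G' o :=
    Finset.single_le_sum (f := fun x => (1 / 2 : ℝ) ^ net.dist o x * TT Bs P net k y G G' x)
      (fun z _ => mul_nonneg (by positivity) (hT z)) (Finset.mem_univ x)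
  have h4 : (2 : ℝ) ^ net.dist o x * (1 / 2 : ℝ) ^ net.dist o x = 1 := by
    rw [← mul_pow]; norm_num
  calc min 1 ‖G x - G' x‖ ≤ Real.exp 2 * phi P net β k G G' x := h1
    _ ≤ Real.exp 2 * TT Bs P net k y G G' x := mul_le_mul_of_nonneg_left h2 (Real.exp_pos _).le
    _ = Real.exp 2 * 2 ^ net.dist o x * ((1 / 2 : ℝ) ^ net.dist o x * TT Bs P net k y G G' x) := by
        calc Real.exp 2 * TT Bs P net k y G G' x =
            ((2 : ℝ) ^ net.dist o x * (1 / 2 : ℝ) ^ net.dist o x) *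
              (Real.exp 2 * TT Bs P net k y G G' x) := by rw [h4, one_mul]
          _ = _ := by ring
    _ ≤ _ := mul_le_mul_of_nonneg_left h3 (by positivity)

theorem phi_up {N d : ℕ} {β D0 : ℝ} (Bs : Base N d β D0) (P : PP) (hβ : 1 < β) (hp : 0 < P.p)
    (hp1 : P.p ≤ 1) (hn : 1 ≤ P.n) (h5 : 0 < P.r5) (h51 : P.r5 ≤ 1) (h6 : 1 ≤ P.R6)
    (heta : 0 ≤ P.eta) (hCg : 0 ≤ P.Cg) (hB : 1 ≤ P.B) (a q : ℝ) (ha : 0 ≤ a) (hq : 0 ≤ q) :
    ∃ C : ℝ, 0 < C ∧ ∀ (k : ℝ), 0 ≤ k → k ≤ 1 → P.B * k ≤ 1 / 4 → ∀ (L : ℕ) (y : ℝ → ℝ)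
      (G G' : boxS d L → E N),
      (∀ x : boxS d L, R2f (boxNet d L) G x ≤ a * (1 + (l1 (x : Fin d → ℤ) 0 : ℝ)) ^ q) →
      (∀ x : boxS d L, R2f (boxNet d L) G' x ≤ a * (1 + (l1 (x : Fin d → ℤ) 0 : ℝ)) ^ q) →
      (∀ x : boxS d L, Vs Bs P.m (boxNet d L) k y G x ≤ a * (1 + (l1 (x : Fin d → ℤ) 0 : ℝ)) ^ q) →
      (∀ x : boxS d L, Vs Bs P.m (boxNet d L) k y G' x ≤ a * (1 + (l1 (x : Fin d → ℤ) 0 : ℝ)) ^ q) →
      ∀ o : boxS d L, (o : Fin d → ℤ) = 0 → PHI Bs P (boxNet d L) k y G G' o ≤ C := by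
  obtain ⟨C, hC0, hC⟩ := box_poly d (2 * q) (by positivity)
  set K1 : ℝ := Real.exp (Real.log (1 + P.R6 / P.r5) + 2 * 3 ^ d * P.Cg) with hK1
  have hK10 : 0 < K1 := Real.exp_pos _
  refine ⟨(1 + 4 * 3 ^ d * a) * K1 * (C + 2 * P.eta * a * (3 ^ d * C + C)), by positivity, ?_⟩
  intro k hk hk1 hBk L y G G' hR hR' hV hV' o ho
  set X : boxS d L → ℝ := fun x => (1 + (l1 (x : Fin d → ℤ) 0 : ℝ)) ^ q with hX
  have hX1 : ∀ x, 1 ≤ X x := fun x => by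
    rw [hX]
    exact Real.one_le_rpow (by have : (0 : ℝ) ≤ (l1 (x : Fin d → ℤ) 0 : ℝ) := Nat.cast_nonneg _
                               linarith) hq
  have hX0 : ∀ x, 0 ≤ X x := fun x => zero_le_one.trans (hX1 x)
  have hX2 : ∀ x : boxS d L, (1 + (l1 (x : Fin d → ℤ) 0 : ℝ)) ^ (2 * q) = X x ^ 2 := fun x => by
    have h0 : (0 : ℝ) ≤ 1 + (l1 (x : Fin d → ℤ) 0 : ℝ) := by positivity
    rw [hX, mul_comm, Real.rpow_mul h0]
    exact Real.rpow_natCast _ 2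
  have hsum : ∑ x, ∑ z, (1 / 2 : ℝ) ^ (boxNet d L).dist o x * (1 / 2) ^ (boxNet d L).dist x z *
      X z ^ 2 ≤ C := by
    have h1 := (hC L o o.2).1
    have h2 : (1 + (l1 (o : Fin d → ℤ) 0 : ℝ)) ^ (2 * q) = 1 := by
      rw [ho]
      have : l1 (0 : Fin d → ℤ) 0 = 0 := by simp [l1]
      rw [this]
      simp
    rw [h2, mul_one, ← Finset.sum_coe_sort (boxS d L)] at h1
    refine le_trans (le_of_eq ?_) h1
    refine Finset.sum_congr rfl fun x _ => ?_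
    rw [← Finset.sum_coe_sort (boxS d L)]
    refine Finset.sum_congr rfl fun z _ => ?_
    rw [boxNet_dist, boxNet_dist, hX2]
  have hTT : ∀ x, TT Bs P (boxNet d L) k y G G' x ≤ (1 + 4 * 3 ^ d * a) * K1 *
      (X x * (1 + 2 * P.eta * a * ∑ z, (1 / 2 : ℝ) ^ (boxNet d L).dist x z * X z)) := by
    intro x
    have h1 := PhiBd_phiUp P hβ hp hp1 hn h5 h51 h6 hCg hB k hk hk1 hBk (boxNet d L) G G' x
    rw [← hK1] at h1
    have h2 : 1 + 2 * 3 ^ d * (R2f (boxNet d L) G x + R2f (boxNet d L) G' x) ≤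
        (1 + 4 * 3 ^ d * a) * X x := by
      have h3 : R2f (boxNet d L) G x + R2f (boxNet d L) G' x ≤ 2 * (a * X x) := by
        have := hR x
        have := hR' x
        simp only [hX]
        linarith
      have h4 := mul_le_mul_of_nonneg_left h3 (by positivity : (0 : ℝ) ≤ 2 * 3 ^ d)
      have h5 := hX1 x
      linarith
    have h3 : phi P (boxNet d L) β k G G' x ≤ (1 + 4 * 3 ^ d * a) * X x * K1 :=
      h1.trans (mul_le_mul_of_nonneg_right h2 hK10.le)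
    have h4 : P.eta * ∑ z, (1 / 2 : ℝ) ^ (boxNet d L).dist x z *
        (Vs Bs P.m (boxNet d L) k y G z + Vs Bs P.m (boxNet d L) k y G' z) ≤
        2 * P.eta * a * ∑ z, (1 / 2 : ℝ) ^ (boxNet d L).dist x z * X z := by
      have h6 : ∑ z, (1 / 2 : ℝ) ^ (boxNet d L).dist x z *
          (Vs Bs P.m (boxNet d L) k y G z + Vs Bs P.m (boxNet d L) k y G' z) ≤
          2 * a * ∑ z, (1 / 2 : ℝ) ^ (boxNet d L).dist x z * X z := by
        rw [Finset.mul_sum]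
        apply Finset.sum_le_sum
        intro z _
        have h7 : Vs Bs P.m (boxNet d L) k y G z + Vs Bs P.m (boxNet d L) k y G' z ≤
            2 * a * X z := by
          have := hV z
          have := hV' z
          simp only [hX]
          linarith
        calc _ ≤ (1 / 2 : ℝ) ^ (boxNet d L).dist x z * (2 * a * X z) :=
              mul_le_mul_of_nonneg_left h7 (by positivity)
          _ = _ := by ring
      calc _ ≤ P.eta * (2 * a * ∑ z, (1 / 2 : ℝ) ^ (boxNet d L).dist x z * X z) :=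
            mul_le_mul_of_nonneg_left h6 heta
        _ = _ := by ring
    have h8 := PhiBd_W Bs P heta k (boxNet d L) y G G' x
    unfold TT
    calc _ ≤ ((1 + 4 * 3 ^ d * a) * X x * K1) *
        (1 + 2 * P.eta * a * ∑ z, (1 / 2 : ℝ) ^ (boxNet d L).dist x z * X z) := by
          apply mul_le_mul h3 (by linarith) (by linarith)
          have := hX0 x
          positivity
      _ = _ := by ring
  unfold PHI
  have hfin := PhiBd_sum (boxNet d L) o X hX1 C (2 * P.eta * a) (by positivity) hsum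
  calc ∑ x, (1 / 2 : ℝ) ^ (boxNet d L).dist o x * TT Bs P (boxNet d L) k y G G' x
      ≤ ∑ x, (1 + 4 * 3 ^ d * a) * K1 * ((1 / 2 : ℝ) ^ (boxNet d L).dist o x *
          (X x * (1 + 2 * P.eta * a * ∑ z, (1 / 2 : ℝ) ^ (boxNet d L).dist x z * X z))) := by
        apply Finset.sum_le_sum
        intro x _
        calc _ ≤ (1 / 2 : ℝ) ^ (boxNet d L).dist o x * ((1 + 4 * 3 ^ d * a) * K1 *
            (X x * (1 + 2 * P.eta * a * ∑ z, (1 / 2 : ℝ) ^ (boxNet d L).dist x z * X z))) :=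
              mul_le_mul_of_nonneg_left (hTT x) (by positivity)
          _ = _ := by ring
    _ = (1 + 4 * 3 ^ d * a) * K1 * ∑ x, (1 / 2 : ℝ) ^ (boxNet d L).dist o x *
          (X x * (1 + 2 * P.eta * a * ∑ z, (1 / 2 : ℝ) ^ (boxNet d L).dist x z * X z)) := by
        rw [Finset.mul_sum]
    _ ≤ _ := mul_le_mul_of_nonneg_left hfin (by positivity)

end Dyn
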