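import Pool.Agent.Lib_MP_36b788.PhiDefs
import Pool.Agent.Lib_MP_36b788.DLog
import Pool.Agent.Lib_MP_36b788.DZone

/-!
# PHIX: one step of `φ_x`

PROOF. `U = u + Δg(r_x) + Δg(r'_x) + Cg k (ΔH_x + ΔH'_x)`, `u` from DLOG with `CD`; `Q` from DLOG. Copy 2 is driven by
`(Q_zξ_z)`, whose law is again `pim ν` (`noise_int_comp` on each factor), so GSITE and LSH apply to copy 2.
`φ⁺ ≤ φ e^{pU}` because `D̃⁺ ≤ D̃e^u` and `t ↦ t^p` is monotone (`φ⁺ ≤ 0` if `D̃ = 0`; `p > 0`).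
Means: GSITE with shift `w = kh coup_x`: `∫Δg ≤ h kapG + kh‖coup_x‖/r5 + C h^{9/8}`, `‖coup_x‖ ≤ 6dR̄_x` (Rb_facts);
LSH: `Cg k∫ΔH ≤ Cg k h(-ch R̄ + CH) + …`. `Cg := 6d/(r5 ch) + 1` cancels the `R̄` terms of each copy. So
`∫U ≤ ∫u + h(kapG+kapG' + 2Cg k CH) + C h^{9/8}`. Use DZONE (with the `CD` of DLOG), `2Cg k CH ≤ e1/2` for `k ≤ kd`, and
`C h^{9/8} ≤ h e1/2` for `h < h0`.
Second moments: `(a+b+c+d+e)² ≤ 5(…)`, each is `≤ C h` (DLOG, GSITE with `‖w‖² ≤ h·small`, LSH).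
`|U| ≤ C h^{3/8} ≤ 1`.
-/

open MeasureTheory

namespace Dyn

private theorem PhiX_gf_meas (n : ℕ) (R6 r5 : ℝ) : Measurable (gf n R6 r5) := by
  unfold gf
  fun_prop

private theorem PhiX_th_meas (s : ℝ) : Measurable (th s) := by
  unfold th
  fun_prop

private theorem PhiX_hat_cont {N : ℕ} {β h : ℝ} (hβ : 0 < β) (hh : 0 ≤ h) (g : E N) :
    Continuous (fun ξ : E N => hat β h g ξ) := by
  have h1 := hat_continuous (N := N) hβ hh
  have h2 : Continuous (fun ξ : E N => (g, ξ)) := by fun_prop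
  have h3 := h1.comp h2
  exact h3

private theorem PhiX_stp_meas {N d : ℕ} {β h : ℝ} (hβ : 0 < β) (hh : 0 ≤ h) (k : ℝ) {ι : Type}
    [Fintype ι] (net : Net ι d) (G : ι → E N) (z : ι) :
    Measurable (fun ξ : ι → E N => stp net β h k G ξ z) := by
  unfold stp
  exact ((PhiX_hat_cont hβ hh (G z)).measurable.comp (measurable_pi_apply z)).add_const _

private theorem PhiX_Hh_meas {N d : ℕ} {β h : ℝ} (hβ : 0 < β) (hh : 0 ≤ h) (k : ℝ) {ι : Type}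
    [Fintype ι] (net : Net ι d) (G : ι → E N) (z : ι) :
    Measurable (fun ξ : ι → E N => Hh net β (stp net β h k G ξ) z) := by
  unfold Hh
  refine Finset.measurable_sum _ fun w _ => Measurable.const_mul ?_ _
  exact (PhiX_th_meas _).comp (PhiX_stp_meas hβ hh k net G w).norm

private theorem PhiX_int_eval {N : ℕ} {ι : Type} [Fintype ι] {ν : Measure (E N)}
    [IsProbabilityMeasure ν] (x : ι) (f : E N → ℝ) (hf : Measurable f) :
    ∫ ξ, f (ξ x) ∂(pim ι ν) = ∫ ξ, f ξ ∂ν := by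
  have h1 : MeasurePreserving (Function.eval x) (Measure.pi fun _ : ι => ν) ν :=
    measurePreserving_eval (fun _ => ν) x
  have h2 := integral_map (μ := Measure.pi fun _ : ι => ν) (φ := Function.eval x)
    h1.measurable.aemeasurable (f := f) (by rw [h1.map_eq]; exact hf.aestronglyMeasurable)
  rw [h1.map_eq] at h2
  exact h2.symm

private theorem PhiX_ae_eval {N : ℕ} {ι : Type} [Fintype ι] {ν : Measure (E N)}
    [IsProbabilityMeasure ν] (x : ι) {p : E N → Prop} (hp : ∀ᵐ ξ ∂ν, p ξ) :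
    ∀ᵐ ξ ∂(pim ι ν), p (ξ x) := by
  have h1 : MeasurePreserving (Function.eval x) (Measure.pi fun _ : ι => ν) ν :=
    measurePreserving_eval (fun _ => ν) x
  exact h1.quasiMeasurePreserving.ae hp

private theorem PhiX_rot {N : ℕ} {h : ℝ} {ι : Type} [Fintype ι] {ν : Measure (E N)}
    (hν : IsNoise h ν) (Q : ι → (E N ≃ₗᵢ[ℝ] E N)) :
    MeasurePreserving (fun (ξ : ι → E N) z => Q z (ξ z)) (pim ι ν) (pim ι ν) := by
  haveI := hν.prob
  unfold pim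
  exact measurePreserving_pi (fun _ => ν) (fun _ => ν) (f := fun z => (Q z : E N → E N))
    fun z => ⟨(Q z).continuous.measurable, hν.iso (Q z)⟩

private theorem PhiX_int_rot {N : ℕ} {h : ℝ} {ι : Type} [Fintype ι] {ν : Measure (E N)}
    (hν : IsNoise h ν) (Q : ι → (E N ≃ₗᵢ[ℝ] E N)) (f : (ι → E N) → ℝ) (hf : Measurable f) :
    ∫ ξ, f (fun z => Q z (ξ z)) ∂(pim ι ν) = ∫ ξ, f ξ ∂(pim ι ν) := by
  have h1 := PhiX_rot hν Q
  have h2 := integral_map (μ := pim ι ν) (φ := fun (ξ : ι → E N) z => Q z (ξ z))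
    h1.measurable.aemeasurable (f := f) (by rw [h1.map_eq]; exact hf.aestronglyMeasurable)
  rw [h1.map_eq] at h2
  exact h2.symm

/-- one copy: change of `g(r_x) + Cg k H_x` -/
private noncomputable def PhiXV (n : ℕ) (R6 r5 Cg : ℝ) {N d : ℕ} {ι : Type} [Fintype ι]
    (net : Net ι d) (β h k : ℝ) (G : ι → E N) (x : ι) (ξ : ι → E N) : ℝ :=
  (gf n R6 r5 ‖stp net β h k G ξ x‖ - gf n R6 r5 ‖G x‖)
    + Cg * k * (Hh net β (stp net β h k G ξ) x - Hh net β G x)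

private theorem PhiX_coup {N d : ℕ} {ι : Type} [Fintype ι] (net : Net ι d) (G : ι → E N) (R : ℝ)
    (hR : 0 ≤ R) (hG : ∀ x, ‖G x‖ ≤ R) (x : ι) : ‖coup net G x‖ ≤ 4 * d * R := by
  unfold coup
  have h1 : ‖∑ y ∈ net.nb x, G y‖ ≤ 2 * d * R := by
    refine (norm_sum_le _ _).trans ?_
    refine (Finset.sum_le_sum fun y _ => hG y).trans ?_
    rw [Finset.sum_const, nsmul_eq_mul]
    refine mul_le_mul_of_nonneg_right ?_ hR
    have := net.nb_card x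
    exact_mod_cast this
  have h2 : ‖((2 * d : ℕ) : ℝ) • G x‖ ≤ 2 * d * R := by
    rw [norm_smul, Real.norm_of_nonneg (Nat.cast_nonneg _)]
    push_cast
    exact mul_le_mul_of_nonneg_left (hG x) (by positivity)
  calc ‖∑ y ∈ net.nb x, G y - ((2 * d : ℕ) : ℝ) • G x‖
      ≤ ‖∑ y ∈ net.nb x, G y‖ + ‖((2 * d : ℕ) : ℝ) • G x‖ := norm_sub_le _ _
    _ ≤ 4 * d * R := by linarith

private theorem PhiX_integrable {Ω : Type} [MeasurableSpace Ω] {μ : Measure Ω}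
    [IsProbabilityMeasure μ] {f : Ω → ℝ} (hf : Measurable f) {C : ℝ} (h : ∀ᵐ ω ∂μ, |f ω| ≤ C) :
    Integrable f μ :=
  Integrable.of_bound hf.aestronglyMeasurable C (h.mono fun _ h => by
    rw [Real.norm_eq_abs]
    exact h)

private theorem PhiX_integrable_sq {Ω : Type} [MeasurableSpace Ω] {μ : Measure Ω}
    [IsProbabilityMeasure μ] {f : Ω → ℝ} (hf : Measurable f) {C : ℝ} (h : ∀ᵐ ω ∂μ, |f ω| ≤ C) :
    Integrable (fun ω => f ω ^ 2) μ := by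
  refine PhiX_integrable (hf.pow_const 2) (C := C ^ 2) (h.mono fun ω h => ?_)
  rw [abs_pow]
  exact pow_le_pow_left₀ (abs_nonneg _) h 2

private theorem PhiX_shift (N d : ℕ) (β : ℝ) (hβ : 1 < β) {r5 h k a ch Cg : ℝ} (h5 : 0 < r5)
    (hh : 0 < h) (hlt1 : h < 1) (hk : 0 ≤ k) (hch : 0 < ch)
    (ha : a = 4 * d * k / r5) (hCg : Cg = 6 * d / (r5 * ch) + 1) (haℓ : a * h ^ (3 / 8 : ℝ) ≤ 1)
    {ι : Type} [Fintype ι] (net : Net ι d) (G : ι → E N) (hG : ∀ x, ‖G x‖ ≤ rad β h) (x : ι)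
    {w : E N} (hw : w = (k * h) • coup net G x) :
    ‖w‖ / r5 ≤ a * h ^ (3 / 8 : ℝ) ∧ ‖w‖ ^ 2 / r5 ^ 2 ≤ h ∧
      ‖w‖ / r5 ≤ Cg * k * (h * (ch * Rb net β G x)) := by
  have hd0 : (0 : ℝ) ≤ d := Nat.cast_nonneg d
  have ha0 : 0 ≤ a := by
    rw [ha]
    positivity
  have hℓ0 : 0 < h ^ (3 / 8 : ℝ) := Real.rpow_pos_of_pos hh _
  have hrad0 : 0 ≤ rad β h := by
    unfold rad
    exact le_min (Real.rpow_nonneg hh.le _) (Real.rpow_nonneg hh.le _)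
  have hrad : rad β h ≤ h ^ (-(1 / 8) : ℝ) := min_le_left _ _
  have hwn : ‖w‖ = k * h * ‖coup net G x‖ := by
    rw [hw, norm_smul, Real.norm_of_nonneg (by positivity)]
  have hw1 : ‖w‖ / r5 ≤ a * h ^ (7 / 8 : ℝ) := by
    have e1 := PhiX_coup net G (rad β h) hrad0 hG x
    have e2 : ‖coup net G x‖ ≤ 4 * d * h ^ (-(1 / 8) : ℝ) :=
      e1.trans (mul_le_mul_of_nonneg_left hrad (by positivity))
    have e3 : h * h ^ (-(1 / 8) : ℝ) = h ^ (7 / 8 : ℝ) := by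
      conv_lhs => rw [← Real.rpow_one h]
      rw [← Real.rpow_mul hh.le, ← Real.rpow_add hh]
      norm_num
    rw [hwn, div_le_iff₀ h5]
    calc k * h * ‖coup net G x‖ ≤ k * h * (4 * d * h ^ (-(1 / 8) : ℝ)) :=
          mul_le_mul_of_nonneg_left e2 (by positivity)
      _ = 4 * d * k * (h * h ^ (-(1 / 8) : ℝ)) := by ring
      _ = 4 * d * k * h ^ (7 / 8 : ℝ) := by rw [e3]
      _ = a * h ^ (7 / 8 : ℝ) * r5 := by
          rw [ha]
          field_simp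
  have hwℓ : ‖w‖ / r5 ≤ a * h ^ (3 / 8 : ℝ) := by
    refine hw1.trans (mul_le_mul_of_nonneg_left ?_ ha0)
    exact Real.rpow_le_rpow_of_exponent_ge hh hlt1.le (by norm_num)
  have hw0 : 0 ≤ ‖w‖ / r5 := by positivity
  have hwsq : ‖w‖ ^ 2 / r5 ^ 2 ≤ h := by
    rw [← div_pow]
    have e1 : (‖w‖ / r5) ^ 2 ≤ (a * h ^ (7 / 8 : ℝ)) ^ 2 := pow_le_pow_left₀ hw0 hw1 2
    have e2 : (a * h ^ (7 / 8 : ℝ)) ^ 2 = (a * h ^ (3 / 8 : ℝ)) ^ 2 * h := by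
      have e3 : (h ^ (7 / 8 : ℝ)) ^ 2 = (h ^ (3 / 8 : ℝ)) ^ 2 * h := by
        rw [← Real.rpow_natCast, ← Real.rpow_natCast, ← Real.rpow_mul hh.le,
          ← Real.rpow_mul hh.le]
        nth_rewrite 3 [← Real.rpow_one h]
        rw [← Real.rpow_add hh]
        norm_num
      rw [mul_pow, mul_pow, e3]
      ring
    have e4 : (a * h ^ (3 / 8 : ℝ)) ^ 2 ≤ 1 := pow_le_one₀ (by positivity) haℓ
    rw [e2] at e1
    have e5 := mul_le_mul_of_nonneg_right e4 hh.le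
    linarith
  have hwR : ‖w‖ / r5 ≤ Cg * k * (h * (ch * Rb net β G x)) := by
    obtain ⟨r1, _, _, _, r4, _⟩ := Rb_facts net β hβ G x
    rw [hwn, div_le_iff₀ h5]
    have e1 : k * h * ‖coup net G x‖ ≤ k * h * (6 * d * Rb net β G x) :=
      mul_le_mul_of_nonneg_left r4 (by positivity)
    have e2 : Cg * ch * r5 = 6 * d + ch * r5 := by
      rw [hCg]
      field_simp
    have e3 : Cg * k * (h * (ch * Rb net β G x)) * r5 =
        k * h * Rb net β G x * (Cg * ch * r5) := by ring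
    rw [e3, e2]
    have e4 : 0 ≤ k * h * Rb net β G x * (ch * r5) := by
      have : 0 ≤ Rb net β G x := by linarith
      positivity
    linarith
  exact ⟨hwℓ, hwsq, hwR⟩

private theorem PhiX_copy (N d : ℕ) (β : ℝ) (hN : 2 ≤ N) (hβ : 1 < β) (n : ℕ) (hn : β ≤ n)
    (R6 r5 : ℝ) (h5 : 0 < r5) (h51 : r5 ≤ 1) (h6 : 1 ≤ R6) :
    ∃ Cg CH k0 : ℝ, 0 < Cg ∧ 0 < CH ∧ 0 < k0 ∧ k0 ≤ 1 ∧ ∀ k : ℝ, 0 ≤ k → k ≤ k0 →
    ∀ (ι : Type) [Fintype ι] (net : Net ι d),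
    ∃ M h0 : ℝ, 0 < M ∧ 0 < h0 ∧ h0 ≤ 1 ∧
      ∀ (h : ℝ) (ν : Measure (E N)), 0 < h → h < h0 → IsNoise h ν →
      ∀ G : ι → E N, (∀ x, ‖G x‖ ≤ rad β h) → ∀ x,
        Measurable (PhiXV n R6 r5 Cg net β h k G x) ∧
        (∫ ξ, PhiXV n R6 r5 Cg net β h k G x ξ ∂(pim ι ν) ≤
          h * (kapG N β n R6 r5 ‖G x‖ + Cg * k * CH) + M * h ^ (9 / 8 : ℝ)) ∧
        (∀ᵐ ξ ∂(pim ι ν), |PhiXV n R6 r5 Cg net β h k G x ξ| ≤ M * h ^ (3 / 8 : ℝ)) ∧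
        ∫ ξ, PhiXV n R6 r5 Cg net β h k G x ξ ^ 2 ∂(pim ι ν) ≤ (8 + 2 * Cg ^ 2 * CH) * h := by
  obtain ⟨C2g, h0g, hC2g, hh0g, hgs⟩ := gsite N β hN hβ n hn R6 r5 h5 h51 h6
  obtain ⟨ch, CH, k0, hch, hCH, hk0, hk01, hl⟩ := lsh N d β hN hβ
  have hβ0 : 0 < β := by linarith
  have hd0 : (0 : ℝ) ≤ d := Nat.cast_nonneg d
  set Cg : ℝ := 6 * d / (r5 * ch) + 1 with hCg
  have hCg0 : 0 < Cg := by positivity
  refine ⟨Cg, CH, k0, hCg0, hCH, hk0, hk01, ?_⟩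
  intro k hk hkk ι _ net
  obtain ⟨C2l, h0l, hC2l, hh0l, hls⟩ := hl k hk hkk ι net
  have hk1 : k ≤ 1 := hkk.trans hk01
  set a : ℝ := 4 * d * k / r5 with ha
  have ha0 : 0 ≤ a := by positivity
  -- bound of the step so that `a h^{3/8} ≤ 1`
  set h1 : ℝ := (1 / (a + 1)) ^ (8 / 3 : ℝ) with hh1
  have hh1p : 0 < h1 := by positivity
  refine ⟨C2g + Cg * C2l + 4 + a, min (min h0g h0l) (min h1 1), by positivity,
    lt_min (lt_min hh0g hh0l) (lt_min hh1p one_pos),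
    (min_le_right _ _).trans (min_le_right _ _), ?_⟩
  intro h ν hh hhh hν G hG x
  have hg0 : h < h0g := lt_of_lt_of_le hhh ((min_le_left _ _).trans (min_le_left _ _))
  have hl0 : h < h0l := lt_of_lt_of_le hhh ((min_le_left _ _).trans (min_le_right _ _))
  have hh10 : h < h1 := lt_of_lt_of_le hhh ((min_le_right _ _).trans (min_le_left _ _))
  have hlt1 : h < 1 := lt_of_lt_of_le hhh ((min_le_right _ _).trans (min_le_right _ _))
  haveI := hν.prob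
  haveI : IsProbabilityMeasure (pim ι ν) := by
    unfold pim
    infer_instance
  set ℓ : ℝ := h ^ (3 / 8 : ℝ) with hℓ
  have hℓ0 : 0 < ℓ := Real.rpow_pos_of_pos hh _
  have hℓ1 : ℓ ≤ 1 := Real.rpow_le_one hh.le hlt1.le (by norm_num)
  have hℓ2 : ℓ ^ 2 ≤ 1 := pow_le_one₀ hℓ0.le hℓ1
  have haℓ : a * ℓ ≤ 1 := by
    have e1 : ℓ ≤ 1 / (a + 1) := by
      have e2 : ℓ ≤ h1 ^ (3 / 8 : ℝ) := Real.rpow_le_rpow hh.le hh10.le (by norm_num)
      rw [hh1, ← Real.rpow_mul (by positivity)] at e2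
      norm_num at e2
      rw [one_div]
      exact e2
    have e3 : a * ℓ ≤ a * (1 / (a + 1)) := mul_le_mul_of_nonneg_left e1 ha0
    have e4 : a * (1 / (a + 1)) ≤ 1 := by
      rw [mul_one_div, div_le_one (by positivity)]
      linarith
    linarith
  -- the shift
  set w : E N := (k * h) • coup net G x with hw
  obtain ⟨hwℓ, hwsq, hwR⟩ := PhiX_shift N d β hβ h5 hh hlt1 hk hch ha hCg haℓ net G hG x hw
  -- facts from GSITE and LSH
  obtain ⟨g1, g2, g3⟩ := hgs h ν hh hg0 hν (G x) w (hG x)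
  obtain ⟨l1, l2, l3⟩ := hls h ν hh hl0 hν G hG x
  have hmg : Measurable (fun ξ : E N => gf n R6 r5 ‖hat β h (G x) ξ + w‖ - gf n R6 r5 ‖G x‖) := by
    have e1 := (PhiX_hat_cont hβ0 hh.le (G x)).measurable
    exact ((PhiX_gf_meas n R6 r5).comp (e1.add_const w).norm).sub_const _
  have hFm : Measurable (fun ξ : ι → E N => gf n R6 r5 ‖stp net β h k G ξ x‖
      - gf n R6 r5 ‖G x‖) := hmg.comp (measurable_pi_apply x)
  have hHm : Measurable (fun ξ : ι → E N => Hh net β (stp net β h k G ξ) x - Hh net β G x) :=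
    (PhiX_Hh_meas hβ0 hh.le k net G x).sub_const _
  have f1 : ∫ ξ, (gf n R6 r5 ‖stp net β h k G ξ x‖ - gf n R6 r5 ‖G x‖) ∂(pim ι ν) ≤
      h * kapG N β n R6 r5 ‖G x‖ + ‖w‖ / r5 + C2g * h ^ (9 / 8 : ℝ) :=
    (PhiX_int_eval x _ hmg).trans_le g1
  have f2 : ∀ᵐ ξ ∂(pim ι ν), |gf n R6 r5 ‖stp net β h k G ξ x‖ - gf n R6 r5 ‖G x‖| ≤
      4 * ℓ + ‖w‖ / r5 := PhiX_ae_eval x g2
  have f3 : ∫ ξ, (gf n R6 r5 ‖stp net β h k G ξ x‖ - gf n R6 r5 ‖G x‖) ^ 2 ∂(pim ι ν) ≤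
      2 * (h + ‖w‖ ^ 2 / r5 ^ 2) := (PhiX_int_eval x _ (hmg.pow_const 2)).trans_le g3
  have iF := PhiX_integrable hFm f2
  have iH := PhiX_integrable hHm l2
  have iF2 := PhiX_integrable_sq hFm f2
  have iH2 := PhiX_integrable_sq hHm l2
  have hVm : Measurable (PhiXV n R6 r5 Cg net β h k G x) := by
    unfold PhiXV
    exact hFm.add (hHm.const_mul _)
  have hVb : ∀ᵐ ξ ∂(pim ι ν), |PhiXV n R6 r5 Cg net β h k G x ξ| ≤
      (C2g + Cg * C2l + 4 + a) * ℓ := by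
    filter_upwards [f2, l2] with ξ e1 e2
    unfold PhiXV
    refine (abs_add_le _ _).trans ?_
    have e3 : |Cg * k * (Hh net β (stp net β h k G ξ) x - Hh net β G x)| ≤ Cg * (C2l * ℓ) := by
      rw [abs_mul, abs_of_nonneg (by positivity : 0 ≤ Cg * k)]
      calc Cg * k * |Hh net β (stp net β h k G ξ) x - Hh net β G x| ≤ Cg * k * (C2l * ℓ) :=
            mul_le_mul_of_nonneg_left e2 (by positivity)
        _ ≤ Cg * 1 * (C2l * ℓ) := by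
            refine mul_le_mul_of_nonneg_right ?_ (by positivity)
            exact mul_le_mul_of_nonneg_left hk1 hCg0.le
        _ = Cg * (C2l * ℓ) := by ring
    have e4 : 0 ≤ C2g * ℓ := by positivity
    linarith
  refine ⟨hVm, ?_, hVb, ?_⟩
  · have e1 : ∫ ξ, PhiXV n R6 r5 Cg net β h k G x ξ ∂(pim ι ν) =
        ∫ ξ, (gf n R6 r5 ‖stp net β h k G ξ x‖ - gf n R6 r5 ‖G x‖) ∂(pim ι ν) +
        Cg * k * ∫ ξ, (Hh net β (stp net β h k G ξ) x - Hh net β G x) ∂(pim ι ν) := by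
      unfold PhiXV
      rw [integral_add iF (iH.const_mul _), integral_const_mul]
    rw [e1]
    have e2 : Cg * k * ∫ ξ, (Hh net β (stp net β h k G ξ) x - Hh net β G x) ∂(pim ι ν) ≤
        Cg * k * (h * (-(ch * Rb net β G x) + CH) + C2l * h ^ (9 / 8 : ℝ)) :=
      mul_le_mul_of_nonneg_left l1 (by positivity)
    have e3 : 0 < h ^ (9 / 8 : ℝ) := Real.rpow_pos_of_pos hh _
    have e4 : Cg * k * (C2l * h ^ (9 / 8 : ℝ)) ≤ Cg * C2l * h ^ (9 / 8 : ℝ) := by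
      have e4' : 0 ≤ Cg * (C2l * h ^ (9 / 8 : ℝ)) := by positivity
      have e4'' := mul_le_mul_of_nonneg_right hk1 e4'
      linarith
    have e5 : 0 ≤ (4 + a) * h ^ (9 / 8 : ℝ) := by positivity
    linarith
  · have e1 : ∫ ξ, PhiXV n R6 r5 Cg net β h k G x ξ ^ 2 ∂(pim ι ν) ≤
        ∫ ξ, (2 * (gf n R6 r5 ‖stp net β h k G ξ x‖ - gf n R6 r5 ‖G x‖) ^ 2 +
          2 * (Cg * k) ^ 2 * (Hh net β (stp net β h k G ξ) x - Hh net β G x) ^ 2) ∂(pim ι ν) := by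
      refine integral_mono (PhiX_integrable_sq hVm hVb)
        ((iF2.const_mul 2).add (iH2.const_mul (2 * (Cg * k) ^ 2))) fun ξ => ?_
      unfold PhiXV
      have e9 := sq_nonneg ((gf n R6 r5 ‖stp net β h k G ξ x‖ - gf n R6 r5 ‖G x‖) -
        Cg * k * (Hh net β (stp net β h k G ξ) x - Hh net β G x))
      linarith only [e9]
    rw [integral_add (iF2.const_mul 2) (iH2.const_mul (2 * (Cg * k) ^ 2)), integral_const_mul,
      integral_const_mul] at e1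
    have e2 : 2 * (Cg * k) ^ 2 * ∫ ξ, (Hh net β (stp net β h k G ξ) x - Hh net β G x) ^ 2
        ∂(pim ι ν) ≤ 2 * (Cg * k) ^ 2 * (CH * h) :=
      mul_le_mul_of_nonneg_left l3 (by positivity)
    have e3 : (Cg * k) ^ 2 ≤ Cg ^ 2 := by
      rw [mul_pow]
      have e3' : k ^ 2 ≤ 1 := pow_le_one₀ hk hk1
      have e3'' := mul_le_mul_of_nonneg_left e3' (sq_nonneg Cg)
      linarith
    have e4 : 2 * (Cg * k) ^ 2 * (CH * h) ≤ 2 * Cg ^ 2 * (CH * h) :=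
      mul_le_mul_of_nonneg_right (by linarith) (by positivity)
    linarith

private theorem PhiX_Dt_nonneg {N d : ℕ} {ι : Type} [Fintype ι] (net : Net ι d) {b : ℝ}
    (hb : 0 ≤ b) (G G' : ι → E N) (x : ι) : 0 ≤ Dt net b G G' x := by
  unfold Dt
  exact Finset.sum_nonneg fun z _ => mul_nonneg (pow_nonneg hb _) (norm_nonneg _)

theorem phix (N d : ℕ) (β r2 : ℝ) (hN : 3 ≤ N) (hβ : 1 < β) (hr2 : 0 < r2) (hr21 : r2 < 1)
    (e1 : ℝ) (he1 : 0 < e1) (he12 : e1 ≤ c2f β r2 / 4) :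
    ∃ (n : ℕ) (R6 δ1 B K C8 : ℝ), β ≤ n ∧ 1 ≤ R6 ∧ 0 < δ1 ∧ δ1 ≤ 1 / 2 ∧ 1 ≤ B ∧ 1 ≤ K ∧ 0 < C8 ∧
      ∀ r5 : ℝ, 0 < r5 → r5 ≤ 1 → K * r5 ≤ r2 →
      ∃ Cg Cp kd : ℝ, 0 < Cg ∧ 0 < Cp ∧ 0 < kd ∧ B * kd ≤ 1 / 4 ∧
      ∀ k, 0 ≤ k → k ≤ kd → ∀ (ι : Type) [Fintype ι] (net : Net ι d),
      ∃ h0 : ℝ, 0 < h0 ∧ ∀ (h : ℝ) (ν : Measure (E N)), 0 < h → h < h0 → IsNoise h ν →
      ∀ G G' : ι → E N, (∀ x, ‖G x‖ ≤ rad β h) → (∀ x, ‖G' x‖ ≤ rad β h) →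
      ∃ Q : ι → (E N ≃ₗᵢ[ℝ] E N), ∀ x, ∃ U : (ι → E N) → ℝ, Measurable U ∧
        (∀ᵐ ξ ∂(pim ι ν), |U ξ| ≤ 1 ∧ ∀ (p eta m : ℝ), 0 < p →
          phi ⟨B, R6, r5, p, eta, Cg, m, n⟩ net β k (stp net β h k G ξ)
            (stp net β h k G' (fun z => Q z (ξ z))) x ≤
          phi ⟨B, R6, r5, p, eta, Cg, m, n⟩ net β k G G' x * Real.exp (p * U ξ)) ∧
        (∫ ξ, U ξ ∂(pim ι ν) ≤ C8 * h) ∧
        (Dom δ1 (B * k) net G G' x → ∫ ξ, U ξ ∂(pim ι ν) ≤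
          h * (if K * r5 ≤ min ‖G x‖ ‖G' x‖ then
            (if r2 ≤ min ‖G x‖ ‖G' x‖ then -(c2f β r2 / 2) else 2 * e1) else N + 1)) ∧
        ∫ ξ, U ξ ^ 2 ∂(pim ι ν) ≤ Cp * h := by
  have hN2 : 2 ≤ N := by omega
  have hβ0 : 0 < β := by linarith
  have hc2 : 0 < c2f β r2 := by
    unfold c2f
    have : 0 < r2 ^ β := Real.rpow_pos_of_pos hr2 _
    have : 0 < min 1 (β * r2 ^ β) := lt_min one_pos (by positivity)
    positivity
  have hc24 : c2f β r2 ≤ 1 / 4 := by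
    unfold c2f
    have : min 1 (β * r2 ^ β) ≤ 1 := min_le_left _ _
    linarith
  obtain ⟨CD, hCD, hdl⟩ := dlog N d β hN2 hβ
  obtain ⟨n, hn⟩ : ∃ n : ℕ, β ≤ n := exists_nat_ge β
  obtain ⟨R6, δ1, B, K, hR6, hδ, hδ2, hB, hK, hz⟩ := dzone N β r2 CD hN hβ hr2 hr21 hCD n hn e1 he1
    (by linarith)
  obtain ⟨C8k, hC8k, hkap⟩ := kapG_bdd N β hN2 hβ n hn R6 hR6
  have hB0 : 0 < B := by linarith
  refine ⟨n, R6, δ1, B, K, CD + 2 * C8k + e1, hn, hR6, hδ, hδ2, hB, hK, by positivity, ?_⟩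
  intro r5 h5 h51 hKr
  obtain ⟨Cg, CH, k0, hCg, hCH, hk0, hk01, hcp⟩ := PhiX_copy N d β hN2 hβ n hn R6 r5 h5 h51 hR6
  have hkd : 0 < min (1 / (4 * B)) (min k0 (e1 / (4 * Cg * CH))) :=
    lt_min (by positivity) (lt_min hk0 (by positivity))
  refine ⟨Cg, 3 * (CD + 2 * (8 + 2 * Cg ^ 2 * CH)), min (1 / (4 * B)) (min k0 (e1 / (4 * Cg * CH))),
    hCg, by positivity, hkd, ?_, ?_⟩
  · calc B * min (1 / (4 * B)) (min k0 (e1 / (4 * Cg * CH))) ≤ B * (1 / (4 * B)) :=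
        mul_le_mul_of_nonneg_left (min_le_left _ _) hB0.le
      _ = 1 / 4 := by field_simp
  intro k hk hkk ι _ net
  have hkB : k ≤ 1 / (4 * B) := hkk.trans (min_le_left _ _)
  have hkk0 : k ≤ k0 := hkk.trans ((min_le_right _ _).trans (min_le_left _ _))
  have hkC : k ≤ e1 / (4 * Cg * CH) := hkk.trans ((min_le_right _ _).trans (min_le_right _ _))
  have hBk : B * k ≤ 1 / 4 := by
    calc B * k ≤ B * (1 / (4 * B)) := mul_le_mul_of_nonneg_left hkB hB0.le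
      _ = 1 / 4 := by field_simp
  have hkB1 : k ≤ 1 / B := by
    rw [le_div_iff₀ hB0]
    linarith
  have hCk : 2 * (Cg * k * CH) ≤ e1 / 2 := by
    have e2 : k * (4 * Cg * CH) ≤ e1 := by
      rwa [le_div_iff₀ (by positivity)] at hkC
    linarith
  have hBk0 : 0 ≤ B * k := by positivity
  obtain ⟨C2, h0d, hC2, hh0d, hdl2⟩ := hdl B δ1 k hB hδ hδ2 hk hBk hkB1 ι net
  obtain ⟨M, h0c, hM, hh0c, hh0c1, hcp2⟩ := hcp k hk hkk0 ι net
  set M2 : ℝ := C2 + 2 * M with hM2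
  have hM20 : 0 < M2 := by positivity
  set c : ℝ := min 1 (e1 / 2) / M2 with hc
  have hc0 : 0 < c := div_pos (lt_min one_pos (by positivity)) hM20
  refine ⟨min (min h0d h0c) (c ^ (8 : ℝ)), lt_min (lt_min hh0d hh0c) (by positivity), ?_⟩
  intro h ν hh hhh hν G G' hG hG'
  have hhd : h < h0d := lt_of_lt_of_le hhh ((min_le_left _ _).trans (min_le_left _ _))
  have hhc : h < h0c := lt_of_lt_of_le hhh ((min_le_left _ _).trans (min_le_right _ _))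
  have hhm : h < c ^ (8 : ℝ) := lt_of_lt_of_le hhh (min_le_right _ _)
  have hlt1 : h < 1 := lt_of_lt_of_le hhc hh0c1
  haveI := hν.prob
  haveI : IsProbabilityMeasure (pim ι ν) := by
    unfold pim
    infer_instance
  have hs : h ^ (1 / 8 : ℝ) ≤ c := by
    have e2 : h ^ (1 / 8 : ℝ) ≤ (c ^ (8 : ℝ)) ^ (1 / 8 : ℝ) :=
      Real.rpow_le_rpow hh.le hhm.le (by norm_num)
    rw [← Real.rpow_mul hc0.le] at e2
    norm_num at e2
    exact e2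
  have hMs : M2 * h ^ (1 / 8 : ℝ) ≤ min 1 (e1 / 2) := by
    calc M2 * h ^ (1 / 8 : ℝ) ≤ M2 * c := mul_le_mul_of_nonneg_left hs hM20.le
      _ = min 1 (e1 / 2) := by
        rw [hc]
        field_simp
  have hM38 : M2 * h ^ (3 / 8 : ℝ) ≤ 1 := by
    have e2 : h ^ (3 / 8 : ℝ) ≤ h ^ (1 / 8 : ℝ) :=
      Real.rpow_le_rpow_of_exponent_ge hh hlt1.le (by norm_num)
    calc M2 * h ^ (3 / 8 : ℝ) ≤ M2 * h ^ (1 / 8 : ℝ) := mul_le_mul_of_nonneg_left e2 hM20.le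
      _ ≤ 1 := hMs.trans (min_le_left _ _)
  have hM98 : M2 * h ^ (9 / 8 : ℝ) ≤ h * (e1 / 2) := by
    have e2 : h ^ (9 / 8 : ℝ) = h * h ^ (1 / 8 : ℝ) := by
      nth_rewrite 2 [← Real.rpow_one h]
      rw [← Real.rpow_add hh]
      norm_num
    rw [e2]
    calc M2 * (h * h ^ (1 / 8 : ℝ)) = h * (M2 * h ^ (1 / 8 : ℝ)) := by ring
      _ ≤ h * (e1 / 2) := mul_le_mul_of_nonneg_left (hMs.trans (min_le_right _ _)) hh.le
  obtain ⟨Q, hQ⟩ := hdl2 h ν hh hhd hν G G' hG hG'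
  refine ⟨Q, fun x => ?_⟩
  obtain ⟨u, hum, huae, hu1, hu2, hu3⟩ := hQ x
  obtain ⟨v1, v2, v3, v4⟩ := hcp2 h ν hh hhc hν G hG x
  obtain ⟨w1, w2, w3, w4⟩ := hcp2 h ν hh hhc hν G' hG' x
  have hT := PhiX_rot hν Q
  set V : (ι → E N) → ℝ := PhiXV n R6 r5 Cg net β h k G x with hV
  set V' : (ι → E N) → ℝ := PhiXV n R6 r5 Cg net β h k G' x with hV'
  have hWm : Measurable (fun ξ : ι → E N => V' (fun z => Q z (ξ z))) := w1.comp hT.measurable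
  have hWb : ∀ᵐ ξ ∂(pim ι ν), |V' (fun z => Q z (ξ z))| ≤ M * h ^ (3 / 8 : ℝ) :=
    hT.quasiMeasurePreserving.ae w3
  have hWi : ∫ ξ, V' (fun z => Q z (ξ z)) ∂(pim ι ν) = ∫ ξ, V' ξ ∂(pim ι ν) :=
    PhiX_int_rot hν Q V' w1
  have hWi2 : ∫ ξ, V' (fun z => Q z (ξ z)) ^ 2 ∂(pim ι ν) = ∫ ξ, V' ξ ^ 2 ∂(pim ι ν) :=
    PhiX_int_rot hν Q (fun ξ => V' ξ ^ 2) (w1.pow_const 2)
  have hub : ∀ᵐ ξ ∂(pim ι ν), |u ξ| ≤ C2 * h ^ (3 / 8 : ℝ) := huae.mono fun ξ h => h.1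
  have iu := PhiX_integrable hum hub
  have iV := PhiX_integrable v1 v3
  have iW := PhiX_integrable hWm hWb
  have iu2 := PhiX_integrable_sq hum hub
  have iV2 := PhiX_integrable_sq v1 v3
  have iW2 := PhiX_integrable_sq hWm hWb
  have hUm : Measurable (fun ξ : ι → E N => u ξ + V ξ + V' (fun z => Q z (ξ z))) :=
    (hum.add v1).add hWm
  have hUb : ∀ᵐ ξ ∂(pim ι ν), |u ξ + V ξ + V' (fun z => Q z (ξ z))| ≤ 1 := by
    filter_upwards [hub, v3, hWb] with ξ a1 a2 a3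
    have a4 := abs_add_le (u ξ + V ξ) (V' (fun z => Q z (ξ z)))
    have a5 := abs_add_le (u ξ) (V ξ)
    rw [hM2] at hM38
    linarith
  have hUi : ∫ ξ, (u ξ + V ξ + V' (fun z => Q z (ξ z))) ∂(pim ι ν) =
      ∫ ξ, u ξ ∂(pim ι ν) + ∫ ξ, V ξ ∂(pim ι ν) + ∫ ξ, V' ξ ∂(pim ι ν) := by
    have g1 := integral_add (iu.add iV) iW
    have g2 := integral_add iu iV
    have g3 : ∫ ξ, (u ξ + V ξ + V' (fun z => Q z (ξ z))) ∂(pim ι ν) =
      ∫ ξ, (u ξ + V ξ) ∂(pim ι ν) + ∫ ξ, V' (fun z => Q z (ξ z)) ∂(pim ι ν) := g1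
    rw [g3, g2, hWi]
  refine ⟨fun ξ => u ξ + V ξ + V' (fun z => Q z (ξ z)), hUm, ?_, ?_, ?_, ?_⟩
  · filter_upwards [hUb, huae] with ξ a1 a2
    refine ⟨a1, fun p eta m hp => ?_⟩
    unfold phi
    have b1 := PhiX_Dt_nonneg net hBk0 (stp net β h k G ξ)
      (stp net β h k G' (fun z => Q z (ξ z))) x
    have b2 := PhiX_Dt_nonneg net hBk0 G G' x
    have b3 : Dt net (B * k) (stp net β h k G ξ) (stp net β h k G' (fun z => Q z (ξ z))) x ^ p ≤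
        Dt net (B * k) G G' x ^ p * Real.exp (p * u ξ) := by
      refine (Real.rpow_le_rpow b1 a2.2 hp.le).trans ?_
      rw [Real.mul_rpow b2 (Real.exp_pos _).le, ← Real.exp_mul, mul_comm (u ξ) p]
    have b4 : V ξ + V' (fun z => Q z (ξ z)) =
        (gf n R6 r5 ‖stp net β h k G ξ x‖ + gf n R6 r5 ‖stp net β h k G' (fun z => Q z (ξ z)) x‖
          + Cg * k * (Hh net β (stp net β h k G ξ) x +
            Hh net β (stp net β h k G' (fun z => Q z (ξ z))) x)) -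
        (gf n R6 r5 ‖G x‖ + gf n R6 r5 ‖G' x‖ + Cg * k * (Hh net β G x + Hh net β G' x)) := by
      rw [hV, hV']
      unfold PhiXV
      ring
    refine (mul_le_mul_of_nonneg_right b3 (Real.exp_pos _).le).trans (le_of_eq ?_)
    show Dt net (B * k) G G' x ^ p * Real.exp (p * u ξ) *
      Real.exp (p * (gf n R6 r5 ‖stp net β h k G ξ x‖ +
        gf n R6 r5 ‖stp net β h k G' (fun z => Q z (ξ z)) x‖
          + Cg * k * (Hh net β (stp net β h k G ξ) x +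
            Hh net β (stp net β h k G' (fun z => Q z (ξ z))) x))) =
      Dt net (B * k) G G' x ^ p * Real.exp (p * (gf n R6 r5 ‖G x‖ + gf n R6 r5 ‖G' x‖ +
        Cg * k * (Hh net β G x + Hh net β G' x))) *
        Real.exp (p * (u ξ + V ξ + V' (fun z => Q z (ξ z))))
    rw [mul_assoc (Dt net (B * k) G G' x ^ p), ← Real.exp_add,
      mul_assoc (Dt net (B * k) G G' x ^ p), ← Real.exp_add]
    have b5 : u ξ + V ξ + V' (fun z => Q z (ξ z)) = u ξ + (V ξ + V' (fun z => Q z (ξ z))) := by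
      ring
    rw [b5, b4]
    congr 2
    ring
  · show ∫ ξ, (u ξ + V ξ + V' (fun z => Q z (ξ z))) ∂(pim ι ν) ≤ _
    rw [hUi]
    have c1 := hkap r5 ‖G x‖ h5 (norm_nonneg _)
    have c2 := hkap r5 ‖G' x‖ h5 (norm_nonneg _)
    rw [hM2] at hM98
    have c3 := mul_le_mul_of_nonneg_left c1 hh.le
    have c4 := mul_le_mul_of_nonneg_left c2 hh.le
    have c5 := mul_le_mul_of_nonneg_left hCk hh.le
    have c6 : 0 ≤ C2 * h ^ (9 / 8 : ℝ) := by positivity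
    linarith
  · intro hdom
    show ∫ ξ, (u ξ + V ξ + V' (fun z => Q z (ξ z))) ∂(pim ι ν) ≤ _
    rw [hUi]
    obtain ⟨d1, d2⟩ := hdom
    have hne : G x ≠ G' x := by
      intro hEq
      rw [hEq, sub_self, norm_zero] at d1
      have : 0 < (1 - δ1) * Dt net (B * k) G G' x := mul_pos (by linarith) d2
      linarith
    have d3 := hu2 d1 d2
    obtain ⟨z1, z2, z3⟩ := hz B le_rfl r5 h5 h51 (G x) (G' x) hne
    have d4 : ∫ ξ, u ξ ∂(pim ι ν) + ∫ ξ, V ξ ∂(pim ι ν) + ∫ ξ, V' ξ ∂(pim ι ν) ≤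
        h * (Xf N β CD δ1 B n R6 r5 (G x) (G' x) + e1) := by
      unfold Xf
      rw [hM2] at hM98
      have c5 := mul_le_mul_of_nonneg_left hCk hh.le
      linarith
    refine d4.trans (mul_le_mul_of_nonneg_left ?_ hh.le)
    split_ifs with s1 s2
    · have := z3 s2 hKr
      linarith
    · have := z2 s1
      linarith
    · linarith
  · show ∫ ξ, (u ξ + V ξ + V' (fun z => Q z (ξ z))) ^ 2 ∂(pim ι ν) ≤ _
    have e2 : ∫ ξ, (u ξ + V ξ + V' (fun z => Q z (ξ z))) ^ 2 ∂(pim ι ν) ≤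
        ∫ ξ, (3 * u ξ ^ 2 + 3 * V ξ ^ 2 + 3 * V' (fun z => Q z (ξ z)) ^ 2) ∂(pim ι ν) := by
      refine integral_mono (PhiX_integrable_sq hUm hUb)
        (((iu2.const_mul 3).add (iV2.const_mul 3)).add (iW2.const_mul 3)) fun ξ => ?_
      show (u ξ + V ξ + V' (fun z => Q z (ξ z))) ^ 2 ≤
        3 * u ξ ^ 2 + 3 * V ξ ^ 2 + 3 * V' (fun z => Q z (ξ z)) ^ 2
      have e7 := sq_nonneg (u ξ - V ξ)
      have e8 := sq_nonneg (u ξ - V' (fun z => Q z (ξ z)))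
      have e9 := sq_nonneg (V ξ - V' (fun z => Q z (ξ z)))
      linarith only [e7, e8, e9]
    have g1 := integral_add ((iu2.const_mul 3).add (iV2.const_mul 3)) (iW2.const_mul 3)
    have g2 := integral_add (iu2.const_mul 3) (iV2.const_mul 3)
    have g3 : ∫ ξ, (3 * u ξ ^ 2 + 3 * V ξ ^ 2 + 3 * V' (fun z => Q z (ξ z)) ^ 2) ∂(pim ι ν) =
      ∫ ξ, (3 * u ξ ^ 2 + 3 * V ξ ^ 2) ∂(pim ι ν) +
        ∫ ξ, 3 * V' (fun z => Q z (ξ z)) ^ 2 ∂(pim ι ν) := g1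
    rw [g3, g2, integral_const_mul, integral_const_mul, integral_const_mul, hWi2] at e2
    linarith

end Dyn
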