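import Pool.Agent.Lib_MP_36b788.Defs

/-!
# PSI: elementary facts about `psi β h v`, the nonnegative root of `t + h t^(1+β) = v`

PROOF. `F t = t + h * t^(1+β)` (`Real.rpow`) is continuous and strictly increasing on `[0,∞)`,
`F 0 = 0` (as `1+β > 0`), `F t ≥ t`. For `v ≥ 0` the intermediate value theorem on `[0,v]` gives a
root `t0`, and `{t | 0 ≤ t ∧ F t ≤ v} = [0,t0]`, whose `sSup` is `t0`.
For `v < 0` the set is empty and `sSup ∅ = 0`.
* `psi_lip`: `F t' - F t ≥ t' - t` for `t ≤ t'`.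
* `psi_ratio`: `psi v / v = 1/(1 + h psi^β)` and `psi` is increasing.
* `psi_lower`: `psi = v - h psi^(1+β) ≥ v - h v^(1+β) = v (1 - h v^β)`.
* `psi_hasDerivAt`: inverse function (`HasDerivAt.of_local_left_inverse`), `F' = 1 + h(1+β) t^β`.
* `psi_half`: if `h v^β ≤ 1` then `psi v ≥ v/2`: with `t = psi v = ρ v`, `ρ ≤ 1`:
   `1 = ρ + h ρ^(1+β) v^β ≤ ρ + ρ`.
-/

open MeasureTheory

namespace Dyn

variable {β h : ℝ}

private theorem Psi_strict (hβ : 0 < β) (hh : 0 ≤ h) {s t : ℝ} (hs : 0 ≤ s) (hst : s < t) :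
    s + h * s ^ (1 + β) < t + h * t ^ (1 + β) := by
  have h1 : s ^ (1 + β) ≤ t ^ (1 + β) := Real.rpow_le_rpow hs hst.le (by linarith)
  have h2 := mul_le_mul_of_nonneg_left h1 hh
  linarith

private theorem Psi_root (hβ : 0 < β) (hh : 0 ≤ h) {v : ℝ} (hv : 0 ≤ v) :
    ∃ t : ℝ, 0 ≤ t ∧ t + h * t ^ (1 + β) = v := by
  have hc : Continuous (fun t : ℝ => t + h * t ^ (1 + β)) :=
    continuous_id.add (continuous_const.mul (Real.continuous_rpow_const (by linarith)))
  have h1 := intermediate_value_Icc hv hc.continuousOn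
  have h2 : v ∈ Set.Icc ((0 : ℝ) + h * (0 : ℝ) ^ (1 + β)) (v + h * v ^ (1 + β)) := by
    constructor
    · rw [Real.zero_rpow (by linarith)]
      linarith
    · have := mul_nonneg hh (Real.rpow_nonneg hv (1 + β))
      linarith
  obtain ⟨t, ht, he⟩ := h1 h2
  exact ⟨t, ht.1, he⟩

private theorem Psi_set (hβ : 0 < β) (hh : 0 ≤ h) {v t : ℝ} (ht : 0 ≤ t)
    (he : t + h * t ^ (1 + β) = v) : {s : ℝ | 0 ≤ s ∧ s + h * s ^ (1 + β) ≤ v} = Set.Icc 0 t := by
  ext s
  simp only [Set.mem_ofPred_eq, Set.mem_Icc]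
  constructor
  · rintro ⟨h1, h2⟩
    refine ⟨h1, ?_⟩
    by_contra h3
    have := Psi_strict hβ hh ht (not_le.1 h3)
    linarith
  · rintro ⟨h1, h2⟩
    refine ⟨h1, ?_⟩
    rcases h2.lt_or_eq with h3 | h3
    · have := Psi_strict hβ hh h1 h3
      linarith
    · rw [h3, he]

private theorem Psi_neg (hh : 0 ≤ h) {v : ℝ} (hv : v < 0) : psi β h v = 0 := by
  unfold psi
  have h1 : {s : ℝ | 0 ≤ s ∧ s + h * s ^ (1 + β) ≤ v} = ∅ := by
    ext s
    simp only [Set.mem_ofPred_eq, Set.mem_empty_iff_false, iff_false]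
    rintro ⟨h1, h2⟩
    have := mul_nonneg hh (Real.rpow_nonneg h1 (1 + β))
    linarith
  rw [h1, Real.sSup_empty]

private theorem Psi_mul {x : ℝ} (hx : 0 < x) (β : ℝ) : x ^ (1 + β) = x * x ^ β := by
  rw [Real.rpow_add hx, Real.rpow_one]

theorem psi_nonneg (β h v : ℝ) : 0 ≤ psi β h v := by
  unfold psi
  exact Real.sSup_nonneg (fun x hx => hx.1)

theorem psi_eq (hβ : 0 < β) (hh : 0 ≤ h) {v : ℝ} (hv : 0 ≤ v) :
    psi β h v + h * psi β h v ^ (1 + β) = v := by
  obtain ⟨t, ht, he⟩ := Psi_root hβ hh hv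
  have h1 : psi β h v = t := by
    unfold psi
    rw [Psi_set hβ hh ht he, csSup_Icc ht]
  rw [h1, he]

theorem psi_unique (hβ : 0 < β) (hh : 0 ≤ h) {v t : ℝ} (ht : 0 ≤ t)
    (he : t + h * t ^ (1 + β) = v) : psi β h v = t := by
  unfold psi
  rw [Psi_set hβ hh ht he, csSup_Icc ht]

theorem psi_le (hβ : 0 < β) (hh : 0 ≤ h) {v : ℝ} (hv : 0 ≤ v) : psi β h v ≤ v := by
  have h1 := psi_eq hβ hh hv
  have h2 := mul_nonneg hh (Real.rpow_nonneg (psi_nonneg β h v) (1 + β))
  linarith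

theorem psi_zero (hβ : 0 < β) (hh : 0 ≤ h) : psi β h 0 = 0 := by
  refine psi_unique hβ hh le_rfl ?_
  rw [Real.zero_rpow (by linarith)]
  ring

theorem psi_pos (hβ : 0 < β) (hh : 0 ≤ h) {v : ℝ} (hv : 0 < v) : 0 < psi β h v := by
  rcases (psi_nonneg β h v).lt_or_eq with h1 | h1
  · exact h1
  · exfalso
    have h2 := psi_eq hβ hh hv.le
    rw [← h1, Real.zero_rpow (by linarith)] at h2
    linarith

theorem psi_mono (hβ : 0 < β) (hh : 0 ≤ h) : Monotone (psi β h) := by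
  intro v w hvw
  rcases lt_or_ge v 0 with hv | hv
  · rw [Psi_neg hh hv]
    exact psi_nonneg β h w
  · by_contra h1
    have h2 := Psi_strict hβ hh (psi_nonneg β h w) (not_le.1 h1)
    rw [psi_eq hβ hh hv, psi_eq hβ hh (hv.trans hvw)] at h2
    linarith

theorem psi_lip (hβ : 0 < β) (hh : 0 ≤ h) {v w : ℝ} (hv : 0 ≤ v) (hvw : v ≤ w) :
    psi β h w - psi β h v ≤ w - v := by
  have h1 := psi_eq hβ hh hv
  have h2 := psi_eq hβ hh (hv.trans hvw)
  have h3 := psi_mono hβ hh hvw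
  have h4 := mul_le_mul_of_nonneg_left
    (Real.rpow_le_rpow (psi_nonneg β h v) h3 (by linarith : 0 ≤ 1 + β)) hh
  linarith

theorem psi_ratio (hβ : 0 < β) (hh : 0 ≤ h) {v w : ℝ} (hv : 0 < v) (hvw : v ≤ w) :
    psi β h w / w ≤ psi β h v / v := by
  have hw : 0 < w := hv.trans_le hvw
  have h1 := psi_eq hβ hh hv.le
  have h2 := psi_eq hβ hh hw.le
  have h3 := psi_mono hβ hh hvw
  have h5 := psi_pos hβ hh hv
  have h6 := psi_pos hβ hh hw
  rw [Psi_mul h5] at h1
  rw [Psi_mul h6] at h2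
  have h7 : psi β h v ^ β ≤ psi β h w ^ β := Real.rpow_le_rpow h5.le h3 hβ.le
  have h8 := mul_le_mul_of_nonneg_left h7 hh
  rw [div_le_div_iff₀ hw hv]
  have h9 := mul_le_mul_of_nonneg_left h8 (mul_nonneg h5.le h6.le)
  calc psi β h w * v = psi β h w * (psi β h v + h * (psi β h v * psi β h v ^ β)) := by rw [h1]
    _ = psi β h v * psi β h w + psi β h v * psi β h w * (h * psi β h v ^ β) := by ring
    _ ≤ psi β h v * psi β h w + psi β h v * psi β h w * (h * psi β h w ^ β) := by linarith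
    _ = psi β h v * (psi β h w + h * (psi β h w * psi β h w ^ β)) := by ring
    _ = psi β h v * w := by rw [h2]

theorem psi_lower (hβ : 0 < β) (hh : 0 ≤ h) {v : ℝ} (hv : 0 ≤ v) :
    v * (1 - h * v ^ β) ≤ psi β h v := by
  rcases hv.lt_or_eq with h0 | h0
  · have h1 := psi_eq hβ hh hv
    have h2 := mul_le_mul_of_nonneg_left
      (Real.rpow_le_rpow (psi_nonneg β h v) (psi_le hβ hh hv) (by linarith : 0 ≤ 1 + β)) hh
    rw [Psi_mul h0] at h2
    have h3 : v * (1 - h * v ^ β) = v - h * (v * v ^ β) := by ring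
    rw [h3]
    linarith
  · rw [← h0, zero_mul]
    exact psi_nonneg β h 0

theorem psi_half (hβ : 0 < β) (hh : 0 ≤ h) {v : ℝ} (hv : 0 ≤ v) (hs : h * v ^ β ≤ 1) :
    v / 2 ≤ psi β h v := by
  rcases hv.lt_or_eq with h0 | h0
  · have h1 := psi_eq hβ hh hv
    have h5 := psi_pos hβ hh h0
    rw [Psi_mul h5] at h1
    have h2 := mul_le_mul_of_nonneg_left
      (Real.rpow_le_rpow h5.le (psi_le hβ hh hv) hβ.le) hh
    have h3 : h * psi β h v ^ β ≤ 1 := h2.trans hs
    have h4 := mul_le_mul_of_nonneg_left h3 h5.le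
    have h6 : h * (psi β h v * psi β h v ^ β) = psi β h v * (h * psi β h v ^ β) := by ring
    rw [h6] at h1
    linarith
  · rw [← h0, zero_div]
    exact psi_nonneg β h 0

theorem psi_continuous (hβ : 0 < β) (hh : 0 ≤ h) : Continuous (psi β h) := by
  have key : ∀ x y : ℝ, x ≤ y → |psi β h x - psi β h y| ≤ |x - y| := by
    intro x y hxy
    have h1 := psi_mono hβ hh hxy
    rw [abs_of_nonpos (by linarith), abs_of_nonpos (by linarith)]
    rcases lt_or_ge x 0 with hx | hx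
    · rw [Psi_neg hh hx]
      rcases lt_or_ge y 0 with hy | hy
      · rw [Psi_neg hh hy]
        linarith
      · have := psi_le hβ hh hy
        linarith
    · have := psi_lip hβ hh hx hxy
      linarith
  refine (LipschitzWith.mk_one (fun x y => ?_) : LipschitzWith 1 (psi β h)).continuous
  rw [Real.dist_eq, Real.dist_eq]
  rcases le_total x y with h1 | h1
  · exact key x y h1
  · rw [abs_sub_comm, abs_sub_comm x y]
    exact key y x h1

theorem psi_hasDerivAt (hβ : 0 < β) (hh : 0 ≤ h) {v : ℝ} (hv : 0 < v) :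
    HasDerivAt (psi β h) (1 / (1 + h * (1 + β) * psi β h v ^ β)) v := by
  have h5 := psi_pos hβ hh hv
  have h1 : HasDerivAt (fun t : ℝ => t + h * t ^ (1 + β)) (1 + h * (1 + β) * psi β h v ^ β)
      (psi β h v) := by
    have h2 := (hasDerivAt_id (psi β h v)).add
      ((Real.hasDerivAt_rpow_const (p := 1 + β) (Or.inl h5.ne')).const_mul h)
    have h3 : 1 + β - 1 = β := by ring
    rw [h3] at h2
    exact (h2.congr_deriv (by ring)).congr_of_eventuallyEq (Filter.Eventually.of_forall fun t => rfl)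
  have h4 : (0 : ℝ) < 1 + h * (1 + β) * psi β h v ^ β := by
    have := mul_nonneg (mul_nonneg hh (by linarith : 0 ≤ 1 + β)) (Real.rpow_nonneg h5.le β)
    linarith
  rw [one_div]
  refine HasDerivAt.of_local_left_inverse (psi_continuous hβ hh).continuousAt h1 h4.ne' ?_
  filter_upwards [lt_mem_nhds hv] with y hy
  exact psi_eq hβ hh (le_of_lt hy)

end Dyn
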