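import Pool.Agent.Lib_MP_36b788.CorrDefs
import Pool.Agent.Lib_MP_36b788.QPot

/-!
# Definitions on a net: chain step, corrected field `Y`, potentials `H`, `S`, `V`
-/

open MeasureTheory

namespace Dyn

noncomputable section

variable {N d : ℕ} {ι : Type} [Fintype ι]

/-- lattice interaction `Σ_{y ~ x} G y - 2d G x` -/
def coup (net : Net ι d) (G : ι → E N) (x : ι) : E N :=
  ∑ y ∈ net.nb x, G y - ((2 * d : ℕ) : ℝ) • G x

/-- one step of the chain -/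
def stp (net : Net ι d) (β h k : ℝ) (G ξ : ι → E N) : ι → E N :=
  fun x => hat β h (G x) (ξ x) + (k * h) • coup net G x

/-- corrected field -/
def Yv (net : Net ι d) (k r1 : ℝ) (y : ℝ → ℝ) (G : ι → E N) (z : ι) : E N :=
  G z + k • ∑ w ∈ net.nb z, ctil r1 y (G w)

/-- bounded potential controlling large values near `z` -/
def Hh (net : Net ι d) (β : ℝ) (G : ι → E N) (z : ι) : ℝ :=
  ∑ w, (1 / 2 : ℝ) ^ net.dist z w * th (epsE β) ‖G w‖

/-- `R̄_z = Σ_w 2^{-|z-w|} (1+r_w)^γ` -/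
def Rb (net : Net ι d) (β : ℝ) (G : ι → E N) (z : ι) : ℝ :=
  ∑ w, (1 / 2 : ℝ) ^ net.dist z w * (1 + ‖G w‖) ^ gam β

/-- weights of the sum `S_x` -/
def WW (net : Net ι d) (β κ A Rc θ : ℝ) (G : ι → E N) (x z : ι) : ℝ :=
  κ ^ (2 * net.dist x z) * mm N β (1 / A) Rc ‖G z‖ * Real.exp (-(θ * Hh net β G z))

/-- `S_x = Σ_z W_{xz} ‖Y_z‖²` -/
def SS (net : Net ι d) (β k A Rc θ : ℝ) (y : ℝ → ℝ) (G : ι → E N) (x : ι) : ℝ :=
  ∑ z, WW net β (A * k) A Rc θ G x z * ‖Yv net k (1 / A) y G z‖ ^ 2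

/-- `V_x = (S_x / r1²)^{-m/2}` -/
def VV (net : Net ι d) (β k A Rc θ m : ℝ) (y : ℝ → ℝ) (G : ι → E N) (x : ι) : ℝ :=
  Real.exp (-(m / 2) * (Real.log (SS net β k A Rc θ y G x) + 2 * Real.log A))

/-- product noise on the net -/
def pim (ι : Type) [Fintype ι] {N : ℕ} (ν : Measure (E N)) : Measure (ι → E N) :=
  Measure.pi (fun _ => ν)

/-- unit vector of `Y`, zero if `Y = 0` -/
def uni {N : ℕ} (v : E N) : E N := (1 / ‖v‖) • v

end

end Dyn
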