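import Pool.Agent.Lib_MP_36b788.BoxNet
import Pool.Agent.Lib_MP_36b788.PathDefs

/-!
# The Ito system, definitions
-/

open MeasureTheory ProbabilityTheory
open scoped NNReal ENNReal Topology

namespace Dyn

noncomputable section

/-- sites of the lattice -/
abbrev Site (d : ℕ) := Fin d → ℤ

/-- lattice Laplacian `Σ_{|y-x|=1} (f(y)-f(x))` -/
def lap {N d : ℕ} (f : Site d → E N) (x : Site d) : E N :=
  ∑ i : Fin d, ((f (x + Pi.single i 1) - f x) + (f (x - Pi.single i 1) - f x))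

/-- matrix vector product -/
def mulv {N : ℕ} (b : Fin N → Fin N → ℝ) (v : E N) : E N :=
  WithLp.toLp 2 (fun i => ∑ j, b i j * v j)

/-- drift of the system -/
def drf {N d : ℕ} (k ε β : ℝ) (f : Site d → E N) (x : Site d) : E N :=
  k • lap f x - (ε * ‖f x‖ ^ β) • f x

/-- Riemann sum of the stochastic integral `∫_s^t dB(x) H(x)` with `n` equal intervals -/
def rsum {Ω : Type} {N d : ℕ} (B : Site d → Fin N → Fin N → ℝ≥0 → Ω → ℝ)
    (H : ℝ≥0 → Site d → Ω → E N) (x : Site d) (s t : ℝ≥0) (n : ℕ) (ω : Ω) : E N :=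
  ∑ i ∈ Finset.range n,
    mulv (fun a b => B x a b (s + (i + 1) * ((t - s) / n)) ω - B x a b (s + i * ((t - s) / n)) ω)
      (H (s + i * ((t - s) / n)) x ω)

/-- `H` solves the lattice cell-dynamo system driven by the independent Wiener matrices `B(x)` -/
structure IsDynamo {Ω : Type} [mΩ : MeasurableSpace Ω] (P : Measure Ω) {N d : ℕ} (k ε β : ℝ)
    (ℱ : Filtration ℝ≥0 mΩ) (B : Site d → Fin N → Fin N → ℝ≥0 → Ω → ℝ)
    (H : ℝ≥0 → Site d → Ω → E N) : Prop where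
  prob : IsProbabilityMeasure P
  brownian : ∀ x i j, IsBrownianReal (B x i j) P
  indep : iIndepFun (fun (q : Site d × Fin N × Fin N) (ω : Ω) (t : ℝ≥0) => B q.1 q.2.1 q.2.2 t ω) P
  adaptB : ∀ x i j t, Measurable[ℱ t] (B x i j t)
  indepInc : ∀ s t : ℝ≥0, s ≤ t → Indep (ℱ s)
    (MeasurableSpace.comap (fun (ω : Ω) (q : Site d × Fin N × Fin N) =>
      B q.1 q.2.1 q.2.2 t ω - B q.1 q.2.1 q.2.2 s ω) inferInstance) P
  adapted : ∀ t x, Measurable[ℱ t] (H t x)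
  cont : ∀ x, ∀ᵐ ω ∂P, Continuous (fun t => H t x ω)
  moments : ∀ (p : ℕ) (T : ℝ≥0), ∃ C : ℝ, ∀ t ≤ T, ∀ x,
    Integrable (fun ω => ‖H t x ω‖ ^ p) P ∧ ∫ ω, ‖H t x ω‖ ^ p ∂P ≤ C
  ito : ∀ (x : Site d) (s t : ℝ≥0), s ≤ t → Filter.Tendsto (fun n : ℕ =>
      eLpNorm (fun ω => H t x ω - H s x ω
        - (∫ r in (s : ℝ)..t, drf k ε β (fun y => H r.toNNReal y ω) x)
        - rsum B H x s t n ω) 2 P) Filter.atTop (𝓝 0)

/-- the initial field: i.i.d., no atom at zero -/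
structure IsInit {Ω : Type} [MeasurableSpace Ω] (P : Measure Ω) {N d : ℕ}
    (H0 : Site d → Ω → E N) : Prop where
  iid : iIndepFun H0 P
  ident : ∀ x, IdentDistrib (H0 x) (H0 0) P P
  ne : P {ω | H0 0 ω = 0} = 0

/-- Euler chain on a box driven by the Brownian increments, time step `h`, started at time `0` -/
def rc {Ω : Type} {N d : ℕ} (β k : ℝ) (h : ℝ≥0) (L : ℕ)
    (B : Site d → Fin N → Fin N → ℝ≥0 → Ω → ℝ) (H0 : Site d → Ω → E N) :
    ℕ → Ω → (boxS d L → E N)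
  | 0, ω => fun x => H0 x ω
  | n + 1, ω => fun x =>
      J β h (rc β k h L B H0 n ω x +
        mulv (fun a b => B x a b ((n + 1) * h) ω - B x a b (n * h) ω) (rc β k h L B H0 n ω x))
      + (k * h) • coup (boxNet d L) (rc β k h L B H0 n ω) x

/-- product test functional `exp(i Σ_q ⟪u_q, H_{t+τ_q}(x_q)⟫)` -/
def Xf' {Ω : Type} {N d : ℕ} (H : ℝ≥0 → Site d → Ω → E N) (I : Finset (ℝ≥0 × Site d))
    (u : ℝ≥0 × Site d → E N) (t : ℝ≥0) (ω : Ω) : ℂ :=
  Complex.exp (Complex.I * (∑ q ∈ I, (inner ℝ (u q) (H (t + q.1) q.2 ω) : ℝ) : ℝ))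

end

end Dyn
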