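import Pool.Agent.Lib_MP_36b788.Sde

/-!
# SDEG: Gaussian matrices times a vector

PROOF. Both sides are laws on `ι → E N` with independent coordinates, the coordinate `x` having law
`N(0, h‖G_x‖² I)`. Left: `(mulv (b_x) G_x)_x`, independent over `x` because `b_x` are (`iIndepFun` grouped by the first index:
`iIndepFun.finsets_comp` or `iIndepFun.pi`/`indepFun_finset`…). Simplest way: compare characteristic functions of
the laws on `ι → E N` (finite dimensional; `Measure.ext_of_charFun` in `EuclideanSpace`/`PiLp`, or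
`Measure.ext_of_charFunDual`): for `u : ι → E N`
`E exp(i Σ_x⟪u_x, mulv b_x G_x⟫) = Π_{x,i,j} E exp(i u_{x,i}G_{x,j} b_{x,i,j}) = Π exp(-½h u_{x,i}²G_{x,j}²)
= exp(-½hΣ_x‖u_x‖²‖G_x‖²)` (`iIndepFun.integral_fun_prod…`, `charFun_gaussianReal`), and
`E exp(iΣ_x⟪u_x, √h‖G_x‖ξ_x⟫) = Π_x charFun(stdGaussian)(√h‖G_x‖u_x)` = the same (`charFun_stdGaussian`,
`integral_fintype_prod_eq_prod`).
-/

open MeasureTheory ProbabilityTheory
open scoped NNReal ENNReal Topology

namespace Dyn

private theorem SdeG_meas {Ω : Type} [MeasurableSpace Ω] {ι : Type} [Fintype ι] {N : ℕ}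
    (b : ι → Fin N → Fin N → Ω → ℝ) (hm : ∀ x i j, Measurable (b x i j)) (G : ι → E N) :
    Measurable (fun ω (x : ι) => mulv (fun i j => b x i j ω) (G x)) := by
  refine measurable_pi_lambda _ fun x => ?_
  unfold mulv
  have h1 : Measurable (fun ω (i : Fin N) => ∑ j, b x i j ω * G x j) := by
    refine measurable_pi_lambda _ fun i => ?_
    exact Finset.measurable_fun_sum _ fun j _ => (hm x i j).mul_const _
  exact (WithLp.measurable_toLp 2 (Fin N → ℝ)).comp h1

theorem gauss_step {Ω : Type} [MeasurableSpace Ω] {P : Measure Ω} [IsProbabilityMeasure P]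
    {ι : Type} [Fintype ι] {N : ℕ} (b : ι → Fin N → Fin N → Ω → ℝ) (h : ℝ≥0)
    (hm : ∀ x i j, Measurable (b x i j)) (hl : ∀ x i j, P.map (b x i j) = gaussianReal 0 h)
    (hi : iIndepFun (fun (q : ι × Fin N × Fin N) ω => b q.1 q.2.1 q.2.2 ω) P) (G : ι → E N) :
    P.map (fun ω (x : ι) => mulv (fun i j => b x i j ω) (G x)) =
      (Measure.pi (fun _ : ι => stdGaussian (E N))).map
        (fun ξ (x : ι) => (Real.sqrt h * ‖G x‖) • ξ x) := by
  classical
  have hmeas := SdeG_meas b hm G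
  have hp1 : (Measure.pi (fun _ : ι => stdGaussian (E N))).map
        (fun ξ (x : ι) => (Real.sqrt h * ‖G x‖) • ξ x)
      = Measure.pi (fun x => (stdGaussian (E N)).map (fun v => (Real.sqrt h * ‖G x‖) • v)) := by
    refine Measure.pi_map_pi (f := fun x (v : E N) => (Real.sqrt h * ‖G x‖) • v) fun x => ?_
    fun_prop
  rw [hp1]
  have : IsProbabilityMeasure (P.map (fun ω (x : ι) => mulv (fun i j => b x i j ω) (G x))) :=
    Measure.isProbabilityMeasure_map hmeas.aemeasurable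
  have : ∀ x, IsProbabilityMeasure ((stdGaussian (E N)).map
      (fun v => (Real.sqrt h * ‖G x‖) • v)) := fun x =>
    Measure.isProbabilityMeasure_map (by fun_prop)
  refine charFun_eq_pi_iff.1 fun t => ?_
  rw [charFun_apply, integral_map (by fun_prop) (by fun_prop), integral_map hmeas.aemeasurable
    (by fun_prop)]
  have e1 : ∀ ω, Complex.exp (((inner ℝ (WithLp.toLp 2 (fun (x : ι) =>
        mulv (fun i j => b x i j ω) (G x))) t : ℝ) : ℂ) * Complex.I)
      = ∏ q : ι × Fin N × Fin N, Complex.exp (((b q.1 q.2.1 q.2.2 ω *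
        (G q.1 q.2.2 * t q.1 q.2.1) : ℝ) : ℂ) * Complex.I) := by
    intro ω
    rw [← Complex.exp_sum]
    congr 1
    rw [← Finset.sum_mul]
    congr 1
    rw [← Complex.ofReal_sum]
    congr 1
    rw [PiLp.inner_apply, Fintype.sum_prod_type]
    refine Finset.sum_congr rfl fun x _ => ?_
    rw [PiLp.inner_apply, Fintype.sum_prod_type]
    refine Finset.sum_congr rfl fun i _ => ?_
    simp only [mulv, RCLike.inner_apply, conj_trivial]
    rw [Finset.mul_sum]
    exact Finset.sum_congr rfl fun j _ => by ring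
  simp_rw [e1]
  have e2 := hi.integral_fun_prod_comp (f := fun q (y : ℝ) => Complex.exp (((y *
        (G q.1 q.2.2 * t q.1 q.2.1) : ℝ) : ℂ) * Complex.I))
        (fun q => (hm q.1 q.2.1 q.2.2).aemeasurable) (fun q => by fun_prop)
  rw [e2]
  have e3 : ∀ q : ι × Fin N × Fin N, ∫ ω, Complex.exp (((b q.1 q.2.1 q.2.2 ω *
        (G q.1 q.2.2 * t q.1 q.2.1) : ℝ) : ℂ) * Complex.I) ∂P
      = Complex.exp ((-(h * (G q.1 q.2.2 ^ 2 * t q.1 q.2.1 ^ 2) / 2) : ℝ) : ℂ) := by
    intro q
    have e4 := charFun_gaussianReal (μ := 0) (v := h) (G q.1 q.2.2 * t q.1 q.2.1)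
    rw [← hl q.1 q.2.1 q.2.2, charFun_apply, integral_map (hm q.1 q.2.1 q.2.2).aemeasurable
      (by fun_prop)] at e4
    simp only [RCLike.inner_apply, conj_trivial] at e4
    rw [show (fun ω => Complex.exp (((b q.1 q.2.1 q.2.2 ω *
        (G q.1 q.2.2 * t q.1 q.2.1) : ℝ) : ℂ) * Complex.I)) = fun ω => Complex.exp
        (((G q.1 q.2.2 * t q.1 q.2.1 * b q.1 q.2.1 q.2.2 ω : ℝ) : ℂ) * Complex.I) from
      funext fun ω => by rw [mul_comm (b q.1 q.2.1 q.2.2 ω)], e4]
    congr 1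
    push_cast
    ring
  rw [Finset.prod_congr rfl fun q _ => e3 q]
  have e5 : ∀ x, charFun ((stdGaussian (E N)).map (fun v => (Real.sqrt h * ‖G x‖) • v)) (t x)
      = Complex.exp ((-(h * (‖G x‖ ^ 2 * ‖t x‖ ^ 2) / 2) : ℝ) : ℂ) := by
    intro x
    rw [charFun_map_smul, charFun_stdGaussian]
    congr 1
    rw [norm_smul, Real.norm_eq_abs, abs_of_nonneg (by positivity)]
    have e6 : (Real.sqrt h * ‖G x‖ * ‖t x‖) ^ 2 = h * (‖G x‖ ^ 2 * ‖t x‖ ^ 2) := by
      have e7 : Real.sqrt (h : ℝ) ^ 2 = h := Real.sq_sqrt (NNReal.coe_nonneg h)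
      rw [mul_pow, mul_pow, e7]
      ring
    rw [← e6]
    push_cast
    ring
  rw [Finset.prod_congr rfl fun x _ => e5 x, ← Complex.exp_sum, ← Complex.exp_sum,
    ← Complex.ofReal_sum, ← Complex.ofReal_sum]
  congr 2
  rw [Fintype.sum_prod_type]
  refine Finset.sum_congr rfl fun x _ => ?_
  rw [Fintype.sum_prod_type, EuclideanSpace.real_norm_sq_eq, EuclideanSpace.real_norm_sq_eq,
    Finset.sum_mul_sum, Finset.sum_comm]
  simp only [Finset.mul_sum, Finset.sum_div, ← Finset.sum_neg_distrib]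

end Dyn
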