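import Pool.Agent.Lib_MP_36b788.SdeInc

/-!
# SDEI: isometry for the stochastic Riemann sums

PROOF. `mulv_sq`: `‖mulv b v‖² = Σ_i (Σ_j b_ij v_j)²`; `V` (an `ℱ s`-measurable vector) is independent of the increments
`b_ij = ΔB x i j` (inc_past), which are independent, centred, with variance `t - s` (inc_law, inc_indep); so
`∫(Σ_j b_ij V_j)² = Σ_{j,l}∫b_ij b_il·∫V_jV_l = (t-s)∫‖V‖²`, and the sum over `i` gives `N(t-s)∫‖V‖²`. Integrability of the
products: `b` and `V` are in `L²` and independent (`IndepFun.integrable_mul`). `∫⟪Z, mulv b V⟫ = Σ_{ij}∫b_ij·∫Z_iV_j = 0`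
(`Z_iV_j` is `ℱ s`-measurable and integrable).
`rsum_sq`: the summands `m_i = mulv (B(t_{i+1})-B(t_i)) V_{t_i}` satisfy `∫⟪m_i,m_j⟫ = 0` for `i < j` (third part of mulv_sq with
`Z = m_i`, which is `ℱ t_{i+1}`-measurable and `t_{i+1} ≤ t_j`), so `∫‖Σm_i‖² = Σ∫‖m_i‖² = Σ N(t_{i+1}-t_i)∫‖V_{t_i}‖² ≤ N(t-s)C`.
`Z` is `ℱ s`-measurable hence `ℱ t_i`-measurable: each `∫⟪Z,m_i⟫ = 0`.
-/

open MeasureTheory ProbabilityTheory
open scoped NNReal ENNReal Topology

namespace Dyn

private theorem SdeI_meas0 {Ω : Type} (m0 : MeasurableSpace Ω) {N : ℕ}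
    (b : Fin N → Fin N → Ω → ℝ) (hb : ∀ i j, Measurable (b i j)) (V : Ω → E N)
    (hV : Measurable V) : Measurable (fun ω => mulv (fun i j => b i j ω) (V ω)) := by
  have h1 : Measurable (fun ω => (fun (i j : Fin N) => b i j ω)) :=
    measurable_pi_iff.2 fun i => measurable_pi_iff.2 fun j => hb i j
  exact (mulv_continuous N).measurable.comp (h1.prodMk hV)

section aux

variable {Ω : Type} [mΩ : MeasurableSpace Ω] {P : Measure Ω} {N d : ℕ} {k ε β : ℝ}
    {ℱ : Filtration ℝ≥0 mΩ} {B : Site d → Fin N → Fin N → ℝ≥0 → Ω → ℝ}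
    {H : ℝ≥0 → Site d → Ω → E N}

private theorem SdeI_mom (hH : IsDynamo P k ε β ℱ B H) (s t : ℝ≥0) (hst : s ≤ t) (x : Site d)
    (i j : Fin N) :
    MemLp (fun ω => B x i j t ω - B x i j s ω) 2 P ∧
    ∫ ω, (B x i j t ω - B x i j s ω) ∂P = 0 ∧
    ∫ ω, (B x i j t ω - B x i j s ω) * (B x i j t ω - B x i j s ω) ∂P = (t : ℝ) - s := by
  have hm := (inc_meas hH s t hst x i j).2
  have hl := inc_law hH s t hst x i j
  have h1 : MemLp (id ∘ fun ω => B x i j t ω - B x i j s ω) 2 P := by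
    refine MemLp.comp_of_map ?_ hm.aemeasurable
    rw [hl]
    exact memLp_id_gaussianReal 2
  have h2 : ∫ ω, (B x i j t ω - B x i j s ω) ∂P = 0 := by
    have e := integral_map (μ := P) hm.aemeasurable (f := fun y : ℝ => y) (by fun_prop)
    rw [hl] at e
    rw [← e]
    exact integral_id_gaussianReal
  refine ⟨h1, h2, ?_⟩
  have e := integral_map (μ := P) hm.aemeasurable (f := fun y : ℝ => y * y) (by fun_prop)
  rw [hl] at e
  rw [← e]
  have h3 := variance_of_integral_eq_zero (X := fun y : ℝ => y) (μ := gaussianReal 0 (t - s))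
    (by fun_prop) integral_id_gaussianReal
  have h4 : variance (fun y : ℝ => y) (gaussianReal 0 (t - s)) = ((t - s : ℝ≥0) : ℝ) :=
    variance_fun_id_gaussianReal
  rw [h4] at h3
  have h5 : ∀ y : ℝ, y * y = y ^ 2 := fun y => by ring
  simp only [h5]
  rw [← h3, NNReal.coe_sub hst]

private theorem SdeI_cov (hH : IsDynamo P k ε β ℱ B H) (s t : ℝ≥0) (hst : s ≤ t) (x : Site d)
    (i j l : Fin N) :
    Integrable (fun ω => (B x i j t ω - B x i j s ω) * (B x i l t ω - B x i l s ω)) P ∧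
    ∫ ω, (B x i j t ω - B x i j s ω) * (B x i l t ω - B x i l s ω) ∂P
      = if j = l then (t : ℝ) - s else 0 := by
  have hj := SdeI_mom hH s t hst x i j
  have hl := SdeI_mom hH s t hst x i l
  refine ⟨hj.1.integrable_mul hl.1, ?_⟩
  split_ifs with hjl
  · subst hjl
    exact hj.2.2
  · have hi := inc_indep hH s t (κ := Unit) (fun _ => x) (fun _ _ _ => rfl)
    have hne : (((), i, j) : Unit × Fin N × Fin N) ≠ ((), i, l) := by
      intro h
      exact hjl (by simpa using h)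
    have hij := hi.indepFun hne
    have e := hij.integral_fun_mul_eq_mul_integral hj.1.1 hl.1.1
    refine e.trans ?_
    change (∫ ω, (B x i j t ω - B x i j s ω) ∂P) * _ = 0
    rw [hj.2.1, zero_mul]

private theorem SdeI_mul (hH : IsDynamo P k ε β ℱ B H) (s t : ℝ≥0) (hst : s ≤ t) (x : Site d)
    (W : Ω → ℝ) (hW : Measurable[ℱ s] W) (hWi : Integrable W P)
    (F : (Unit × Fin N × Fin N → ℝ) → ℝ) (hF : Measurable F)
    (hFi : Integrable (fun ω => F (fun q : Unit × Fin N × Fin N =>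
      B x q.2.1 q.2.2 t ω - B x q.2.1 q.2.2 s ω)) P) :
    Integrable (fun ω => F (fun q : Unit × Fin N × Fin N =>
      B x q.2.1 q.2.2 t ω - B x q.2.1 q.2.2 s ω) * W ω) P ∧
    ∫ ω, F (fun q : Unit × Fin N × Fin N => B x q.2.1 q.2.2 t ω - B x q.2.1 q.2.2 s ω) * W ω ∂P
      = (∫ ω, F (fun q : Unit × Fin N × Fin N => B x q.2.1 q.2.2 t ω - B x q.2.1 q.2.2 s ω) ∂P)
        * ∫ ω, W ω ∂P := by
  have hi := inc_past hH s t hst (κ := Unit) (fun _ => x) W hW
  have hi2 := (hi.comp measurable_id hF).symm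
  exact ⟨hi2.integrable_mul hFi hWi,
    hi2.integral_fun_mul_eq_mul_integral hFi.aestronglyMeasurable hWi.aestronglyMeasurable⟩

private theorem SdeI_mul1 (hH : IsDynamo P k ε β ℱ B H) (s t : ℝ≥0) (hst : s ≤ t) (x : Site d)
    (W : Ω → ℝ) (hW : Measurable[ℱ s] W) (hWi : Integrable W P) (i j : Fin N) :
    Integrable (fun ω => (B x i j t ω - B x i j s ω) * W ω) P ∧
    ∫ ω, (B x i j t ω - B x i j s ω) * W ω ∂P = 0 := by
  haveI := hH.prob
  have hj := SdeI_mom hH s t hst x i j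
  have h := SdeI_mul hH s t hst x W hW hWi (fun f => f ((), i, j)) (measurable_pi_apply _)
    (hj.1.integrable (by norm_num))
  refine ⟨h.1, h.2.trans ?_⟩
  change (∫ ω, (B x i j t ω - B x i j s ω) ∂P) * _ = 0
  rw [hj.2.1, zero_mul]

private theorem SdeI_mul2 (hH : IsDynamo P k ε β ℱ B H) (s t : ℝ≥0) (hst : s ≤ t) (x : Site d)
    (W : Ω → ℝ) (hW : Measurable[ℱ s] W) (hWi : Integrable W P) (i j l : Fin N) :
    Integrable (fun ω => (B x i j t ω - B x i j s ω) * (B x i l t ω - B x i l s ω) * W ω) P ∧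
    ∫ ω, (B x i j t ω - B x i j s ω) * (B x i l t ω - B x i l s ω) * W ω ∂P
      = (if j = l then (t : ℝ) - s else 0) * ∫ ω, W ω ∂P := by
  have hj := SdeI_cov hH s t hst x i j l
  have h := SdeI_mul hH s t hst x W hW hWi (fun f => f ((), i, j) * f ((), i, l))
    ((measurable_pi_apply _).mul (measurable_pi_apply _)) hj.1
  refine ⟨h.1, h.2.trans ?_⟩
  change (∫ ω, (B x i j t ω - B x i j s ω) * (B x i l t ω - B x i l s ω) ∂P) * _ = _
  rw [hj.2]

private theorem SdeI_nsq (b : Fin N → Fin N → ℝ) (v : E N) :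
    ‖mulv b v‖ ^ 2 = ∑ i, ∑ j, ∑ l, b i j * b i l * (v j * v l) := by
  rw [EuclideanSpace.real_norm_sq_eq]
  refine Finset.sum_congr rfl fun i _ => ?_
  change (∑ j, b i j * v j) ^ 2 = _
  rw [sq, Finset.sum_mul_sum]
  refine Finset.sum_congr rfl fun j _ => Finset.sum_congr rfl fun l _ => ?_
  ring

private theorem SdeI_inner (b : Fin N → Fin N → ℝ) (v z : E N) :
    inner ℝ z (mulv b v) = ∑ i, ∑ j, b i j * (z i * v j) := by
  rw [PiLp.inner_apply]
  refine Finset.sum_congr rfl fun i _ => ?_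
  have h : inner ℝ (z.ofLp i) ((mulv b v).ofLp i) = (∑ j, b i j * v j) * z i := by
    simp [mulv]
  rw [h, Finset.sum_mul]
  refine Finset.sum_congr rfl fun j _ => ?_
  ring

private theorem SdeI_comp (V : Ω → E N) (hV2 : MemLp V 2 P) (j : Fin N) :
    MemLp (fun ω => V ω j) 2 P := by
  have hc : Continuous (fun v : E N => v j) := by fun_prop
  refine hV2.of_le (hc.comp_aestronglyMeasurable hV2.1) (Filter.Eventually.of_forall fun ω => ?_)
  exact PiLp.norm_apply_le (V ω) j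

private theorem SdeI_meas (hH : IsDynamo P k ε β ℱ B H) (s t : ℝ≥0) (hst : s ≤ t) (x : Site d)
    (V : Ω → E N) (hV : Measurable[ℱ s] V) :
    Measurable[ℱ t] (fun ω => mulv (fun a b => B x a b t ω - B x a b s ω) (V ω)) := by
  exact SdeI_meas0 (ℱ t) (fun a b ω => B x a b t ω - B x a b s ω)
    (fun a b => (inc_meas hH s t hst x a b).1) V (hV.mono (ℱ.mono hst) le_rfl)

private theorem SdeI_iinner (V Z : Ω → E N) (hV : MemLp V 2 P) (hZ : MemLp Z 2 P) :
    Integrable (fun ω => inner ℝ (V ω) (Z ω)) P := by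
  have h1 : Integrable (fun ω => ‖V ω‖ * ‖Z ω‖) P := hV.norm.integrable_mul hZ.norm
  refine h1.mono' (hV.1.inner hZ.1) (Filter.Eventually.of_forall fun ω => ?_)
  exact norm_inner_le_norm _ _

end aux

/-- second moment of `mulv ΔB v` -/
theorem mulv_sq {Ω : Type} [mΩ : MeasurableSpace Ω] {P : Measure Ω} {N d : ℕ} {k ε β : ℝ}
    {ℱ : Filtration ℝ≥0 mΩ} {B : Site d → Fin N → Fin N → ℝ≥0 → Ω → ℝ}
    {H : ℝ≥0 → Site d → Ω → E N} (hH : IsDynamo P k ε β ℱ B H) (s t : ℝ≥0) (hst : s ≤ t)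
    (x : Site d) (V : Ω → E N) (hV : Measurable[ℱ s] V) (hV2 : MemLp V 2 P) :
    MemLp (fun ω => mulv (fun a b => B x a b t ω - B x a b s ω) (V ω)) 2 P ∧
    ∫ ω, ‖mulv (fun a b => B x a b t ω - B x a b s ω) (V ω)‖ ^ 2 ∂P
      = N * (t - s) * ∫ ω, ‖V ω‖ ^ 2 ∂P ∧
    (∀ Z : Ω → E N, Measurable[ℱ s] Z → MemLp Z 2 P →
      ∫ ω, inner ℝ (Z ω) (mulv (fun a b => B x a b t ω - B x a b s ω) (V ω)) ∂P = 0) := by
  haveI := hH.prob
  have hVj := fun j => SdeI_comp V hV2 j
  have hcj : ∀ j : Fin N, Measurable[ℱ s] (fun ω => V ω j) := fun j =>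
    (show Continuous (fun v : E N => v j) by fun_prop).measurable.comp hV
  have hm := (SdeI_meas hH s t hst x V hV).mono (ℱ.le t) le_rfl
  have hW : ∀ j l : Fin N, Measurable[ℱ s] (fun ω => V ω j * V ω l) :=
    fun j l => (hcj j).mul (hcj l)
  have hWi : ∀ j l : Fin N, Integrable (fun ω => V ω j * V ω l) P :=
    fun j l => (hVj j).integrable_mul (hVj l)
  have key := fun i j l => SdeI_mul2 hH s t hst x _ (hW j l) (hWi j l) i j l
  refine ⟨?_, ?_, ?_⟩
  · rw [memLp_two_iff_integrable_sq_norm hm.aestronglyMeasurable]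
    simp only [SdeI_nsq]
    exact integrable_finsetSum _ fun i _ => integrable_finsetSum _ fun j _ =>
      integrable_finsetSum _ fun l _ => (key i j l).1
  · simp only [SdeI_nsq]
    rw [integral_finsetSum _ fun i _ => integrable_finsetSum _ fun j _ =>
      integrable_finsetSum _ fun l _ => (key i j l).1]
    have e1 : ∀ i : Fin N, ∫ ω, ∑ j, ∑ l, (B x i j t ω - B x i j s ω) *
        (B x i l t ω - B x i l s ω) * (V ω j * V ω l) ∂P
        = ((t : ℝ) - s) * ∑ j, ∫ ω, V ω j * V ω j ∂P := by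
      intro i
      rw [integral_finsetSum _ fun j _ => integrable_finsetSum _ fun l _ => (key i j l).1,
        Finset.mul_sum]
      refine Finset.sum_congr rfl fun j _ => ?_
      rw [integral_finsetSum _ fun l _ => (key i j l).1]
      simp only [(key i j _).2]
      rw [Finset.sum_eq_single j]
      · simp
      · intro l _ hl
        rw [if_neg (Ne.symm hl), zero_mul]
      · intro h
        exact absurd (Finset.mem_univ j) h
    rw [Finset.sum_congr rfl fun i _ => e1 i]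
    have e2 : ∫ ω, ‖V ω‖ ^ 2 ∂P = ∑ j, ∫ ω, V ω j * V ω j ∂P := by
      rw [← integral_finsetSum _ fun j _ => hWi j j]
      refine integral_congr_ae (Filter.Eventually.of_forall fun ω => ?_)
      change ‖V ω‖ ^ 2 = _
      rw [EuclideanSpace.real_norm_sq_eq]
      exact Finset.sum_congr rfl fun j _ => by ring
    rw [e2, Finset.sum_const, Finset.card_univ, Fintype.card_fin, nsmul_eq_mul]
    ring
  · intro Z hZ hZ2
    have hZi := fun j => SdeI_comp Z hZ2 j
    have hzj : ∀ j : Fin N, Measurable[ℱ s] (fun ω => Z ω j) := fun j =>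
      (show Continuous (fun v : E N => v j) by fun_prop).measurable.comp hZ
    have key1 := fun i j => SdeI_mul1 hH s t hst x (fun ω => Z ω i * V ω j)
      ((hzj i).mul (hcj j)) ((hZi i).integrable_mul (hVj j)) i j
    simp only [SdeI_inner]
    rw [integral_finsetSum _ fun i _ => integrable_finsetSum _ fun j _ => (key1 i j).1]
    refine Finset.sum_eq_zero fun i _ => ?_
    rw [integral_finsetSum _ fun j _ => (key1 i j).1]
    exact Finset.sum_eq_zero fun j _ => (key1 i j).2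

private theorem SdeI_partial {Ω : Type} [mΩ : MeasurableSpace Ω] {P : Measure Ω} {N d : ℕ}
    {k ε β : ℝ} {ℱ : Filtration ℝ≥0 mΩ} {B : Site d → Fin N → Fin N → ℝ≥0 → Ω → ℝ}
    {H : ℝ≥0 → Site d → Ω → E N} (hH : IsDynamo P k ε β ℱ B H) (x : Site d) (τ : ℕ → ℝ≥0)
    (hτ : Monotone τ) (U : ℕ → Ω → E N) (C : ℝ) (n : ℕ)
    (hU : ∀ i < n, Measurable[ℱ (τ i)] (U i) ∧ MemLp (U i) 2 P ∧ ∫ ω, ‖U i ω‖ ^ 2 ∂P ≤ C) :
    ∀ m ≤ n, Measurable[ℱ (τ m)] (fun ω => ∑ i ∈ Finset.range m,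
        mulv (fun a b => B x a b (τ (i + 1)) ω - B x a b (τ i) ω) (U i ω)) ∧
      MemLp (fun ω => ∑ i ∈ Finset.range m,
        mulv (fun a b => B x a b (τ (i + 1)) ω - B x a b (τ i) ω) (U i ω)) 2 P ∧
      ∫ ω, ‖∑ i ∈ Finset.range m,
        mulv (fun a b => B x a b (τ (i + 1)) ω - B x a b (τ i) ω) (U i ω)‖ ^ 2 ∂P
        ≤ N * ((τ m : ℝ) - τ 0) * C ∧
      ∀ Z : Ω → E N, Measurable[ℱ (τ 0)] Z → MemLp Z 2 P →
        ∫ ω, inner ℝ (Z ω) (∑ i ∈ Finset.range m,
          mulv (fun a b => B x a b (τ (i + 1)) ω - B x a b (τ i) ω) (U i ω)) ∂P = 0 := by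
  intro m
  induction m with
  | zero =>
    intro _
    refine ⟨?_, ?_, ?_, ?_⟩
    · simp only [Finset.range_zero, Finset.sum_empty]
      exact measurable_const
    · simp only [Finset.range_zero, Finset.sum_empty]
      exact MemLp.zero'
    · simp
    · intro Z _ _
      simp
  | succ m ih =>
    intro hm
    obtain ⟨h1, h2, h3, h4⟩ := ih (by omega)
    obtain ⟨u1, u2, u3⟩ := hU m (by omega)
    have hst : τ m ≤ τ (m + 1) := hτ (Nat.le_succ m)
    obtain ⟨q1, q2, q3⟩ := mulv_sq hH (τ m) (τ (m + 1)) hst x (U m) u1 u2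
    have qm := SdeI_meas hH (τ m) (τ (m + 1)) hst x (U m) u1
    set S : Ω → E N := fun ω => ∑ i ∈ Finset.range m,
        mulv (fun a b => B x a b (τ (i + 1)) ω - B x a b (τ i) ω) (U i ω) with hS
    set M : Ω → E N := fun ω =>
        mulv (fun a b => B x a b (τ (m + 1)) ω - B x a b (τ m) ω) (U m ω) with hM
    have hSM : ∀ ω, ∑ i ∈ Finset.range (m + 1),
        mulv (fun a b => B x a b (τ (i + 1)) ω - B x a b (τ i) ω) (U i ω) = S ω + M ω := by
      intro ω
      rw [Finset.sum_range_succ]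
    simp only [hSM]
    refine ⟨?_, ?_, ?_, ?_⟩
    · exact (h1.mono (ℱ.mono hst) le_rfl).add qm
    · exact h2.add q1
    · have i1 : Integrable (fun ω => ‖S ω‖ ^ 2) P :=
        (memLp_two_iff_integrable_sq_norm h2.1).1 h2
      have i2 : Integrable (fun ω => ‖M ω‖ ^ 2) P :=
        (memLp_two_iff_integrable_sq_norm q1.1).1 q1
      have i3 : Integrable (fun ω => 2 * inner ℝ (S ω) (M ω)) P :=
        (SdeI_iinner S M h2 q1).const_mul 2
      have e1 : ∫ ω, ‖S ω + M ω‖ ^ 2 ∂P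
          = ∫ ω, ‖S ω‖ ^ 2 ∂P + 2 * ∫ ω, inner ℝ (S ω) (M ω) ∂P + ∫ ω, ‖M ω‖ ^ 2 ∂P := by
        simp only [norm_add_sq_real]
        have i12 : Integrable (fun ω => ‖S ω‖ ^ 2 + 2 * inner ℝ (S ω) (M ω)) P := i1.add i3
        rw [integral_add i12 i2, integral_add i1 i3, integral_const_mul]
      have e2 : ∫ ω, inner ℝ (S ω) (M ω) ∂P = 0 := q3 S h1 h2
      rw [e1, e2]
      have e3 : ∫ ω, ‖M ω‖ ^ 2 ∂P ≤ N * ((τ (m + 1) : ℝ) - τ m) * C := by
        rw [hM, q2]
        have h5 : (0 : ℝ) ≤ (τ (m + 1) : ℝ) - τ m := sub_nonneg.2 (by exact_mod_cast hst)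
        exact mul_le_mul_of_nonneg_left u3 (by positivity)
      have e4 : (N : ℝ) * ((τ (m + 1) : ℝ) - τ 0) * C
          = N * ((τ m : ℝ) - τ 0) * C + N * ((τ (m + 1) : ℝ) - τ m) * C := by ring
      rw [e4]
      linarith
    · intro Z hZ hZ2
      have e1 : ∫ ω, inner ℝ (Z ω) (M ω) ∂P = 0 :=
        q3 Z (hZ.mono (ℱ.mono (hτ (Nat.zero_le m))) le_rfl) hZ2
      simp only [inner_add_right]
      rw [integral_add (SdeI_iinner Z S hZ2 h2) (SdeI_iinner Z M hZ2 q1), e1, h4 Z hZ hZ2,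
        add_zero]

theorem rsum_sq {Ω : Type} [mΩ : MeasurableSpace Ω] {P : Measure Ω} {N d : ℕ} {k ε β : ℝ}
    {ℱ : Filtration ℝ≥0 mΩ} {B : Site d → Fin N → Fin N → ℝ≥0 → Ω → ℝ}
    {H : ℝ≥0 → Site d → Ω → E N} (hH : IsDynamo P k ε β ℱ B H)
    (V : ℝ≥0 → Site d → Ω → E N) (x : Site d) (s t : ℝ≥0) (hst : s ≤ t) (C : ℝ)
    (hV : ∀ r, s ≤ r → r ≤ t → Measurable[ℱ r] (V r x) ∧ MemLp (V r x) 2 P ∧
      ∫ ω, ‖V r x ω‖ ^ 2 ∂P ≤ C) (n : ℕ) :
    MemLp (rsum B V x s t n) 2 P ∧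
    ∫ ω, ‖rsum B V x s t n ω‖ ^ 2 ∂P ≤ N * (t - s) * C ∧
    (∀ Z : Ω → E N, Measurable[ℱ s] Z → MemLp Z 2 P →
      ∫ ω, inner ℝ (Z ω) (rsum B V x s t n ω) ∂P = 0) := by
  have hC : 0 ≤ C := (integral_nonneg fun ω => by positivity).trans (hV s le_rfl hst).2.2
  have hts : (0 : ℝ) ≤ (t : ℝ) - s := sub_nonneg.2 (by exact_mod_cast hst)
  rcases Nat.eq_zero_or_pos n with hn | hn
  · subst hn
    simp only [rsum, Finset.range_zero, Finset.sum_empty, inner_zero_right, integral_zero,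
      norm_zero]
    refine ⟨MemLp.zero', ?_, fun _ _ _ => trivial⟩
    have : (0 : ℝ) ≤ N * (t - s) * C := by positivity
    simpa using this
  · have hn0 : (n : ℝ≥0) ≠ 0 := by exact_mod_cast hn.ne'
    have hτm : Monotone (fun i : ℕ => s + (i : ℝ≥0) * ((t - s) / n)) := by
      intro i j hij
      have h1 : (i : ℝ≥0) ≤ j := by exact_mod_cast hij
      exact add_le_add_right (mul_le_mul_left h1 _) s
    have hτn : s + (n : ℝ≥0) * ((t - s) / n) = t := by
      rw [mul_div_cancel₀ _ hn0, add_tsub_cancel_of_le hst]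
    have hτle : ∀ i : ℕ, i ≤ n → s + (i : ℝ≥0) * ((t - s) / n) ≤ t := by
      intro i hi
      have h1 := hτm hi
      simp only [hτn] at h1
      exact h1
    have h := SdeI_partial hH x (fun i : ℕ => s + (i : ℝ≥0) * ((t - s) / n)) hτm
      (fun i => V (s + (i : ℝ≥0) * ((t - s) / n)) x) C n
      (fun i hi => hV _ le_self_add (hτle i hi.le)) n le_rfl
    have e : ∀ ω, rsum B V x s t n ω = ∑ i ∈ Finset.range n,
        mulv (fun a b => B x a b (s + ((i + 1 : ℕ) : ℝ≥0) * ((t - s) / n)) ω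
          - B x a b (s + (i : ℝ≥0) * ((t - s) / n)) ω)
          (V (s + (i : ℝ≥0) * ((t - s) / n)) x ω) := by
      intro ω
      simp only [rsum, Nat.cast_add, Nat.cast_one]
    have e' : rsum B V x s t n = fun ω => ∑ i ∈ Finset.range n,
        mulv (fun a b => B x a b (s + ((i + 1 : ℕ) : ℝ≥0) * ((t - s) / n)) ω
          - B x a b (s + (i : ℝ≥0) * ((t - s) / n)) ω)
          (V (s + (i : ℝ≥0) * ((t - s) / n)) x ω) := funext e
    rw [e']
    obtain ⟨_, h2, h3, h4⟩ := h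
    refine ⟨h2, ?_, ?_⟩
    · simp only [hτn, Nat.cast_zero, zero_mul, add_zero] at h3
      exact h3
    · intro Z hZ hZ2
      have h0 : s + ((0 : ℕ) : ℝ≥0) * ((t - s) / n) = s := by simp
      refine h4 Z ?_ hZ2
      refine hZ.mono (ℱ.mono ?_) le_rfl
      exact h0.ge

/-- subtracting the value at the left end -/
theorem rsum_sub {Ω : Type} {N d : ℕ} (B : Site d → Fin N → Fin N → ℝ≥0 → Ω → ℝ)
    (H : ℝ≥0 → Site d → Ω → E N) (x : Site d) (s t : ℝ≥0) (hst : s ≤ t) (n : ℕ) (hn : 1 ≤ n) (ω : Ω) :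
    rsum B (fun r y ω => H r y ω - H s y ω) x s t n ω = rsum B H x s t n ω
      - mulv (fun a b => B x a b t ω - B x a b s ω) (H s x ω) := by
  have hn0 : (n : ℝ≥0) ≠ 0 := by
    have : n ≠ 0 := by omega
    exact_mod_cast this
  have hτn : s + (n : ℝ≥0) * ((t - s) / n) = t := by
    rw [mul_div_cancel₀ _ hn0, add_tsub_cancel_of_le hst]
  have key : ∀ m : ℕ, ∑ i ∈ Finset.range m,
      mulv (fun a b => B x a b (s + ((i : ℝ≥0) + 1) * ((t - s) / n)) ω
        - B x a b (s + (i : ℝ≥0) * ((t - s) / n)) ω)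
        (H (s + (i : ℝ≥0) * ((t - s) / n)) x ω - H s x ω)
      = ∑ i ∈ Finset.range m,
      mulv (fun a b => B x a b (s + ((i : ℝ≥0) + 1) * ((t - s) / n)) ω
        - B x a b (s + (i : ℝ≥0) * ((t - s) / n)) ω)
        (H (s + (i : ℝ≥0) * ((t - s) / n)) x ω)
        - mulv (fun a b => B x a b (s + (m : ℝ≥0) * ((t - s) / n)) ω - B x a b s ω)
          (H s x ω) := by
    intro m
    induction m with
    | zero =>
      simp only [Finset.range_zero, Finset.sum_empty, Nat.cast_zero, zero_mul, add_zero, sub_self]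
      have h0 := mulv_sub_left (N := N) (fun _ _ => 0) (fun _ _ => 0) (H s x ω)
      simp only [sub_self] at h0
      rw [h0, sub_zero]
    | succ m ih =>
      rw [Finset.sum_range_succ, Finset.sum_range_succ, ih, Nat.cast_add, Nat.cast_one]
      have h1 : ∀ (b : Fin N → Fin N → ℝ) (v w : E N),
          mulv b (v - w) = mulv b v - mulv b w := by
        intro b v w
        have h2 := mulv_add b (v - w) w
        rw [sub_add_cancel] at h2
        rw [h2, add_sub_cancel_right]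
      rw [h1]
      have h3 : mulv (fun a b => B x a b (s + ((m : ℝ≥0) + 1) * ((t - s) / n)) ω
          - B x a b s ω) (H s x ω)
          = mulv (fun a b => B x a b (s + ((m : ℝ≥0) + 1) * ((t - s) / n)) ω
            - B x a b (s + (m : ℝ≥0) * ((t - s) / n)) ω) (H s x ω)
          + mulv (fun a b => B x a b (s + (m : ℝ≥0) * ((t - s) / n)) ω
            - B x a b s ω) (H s x ω) := by
        rw [← mulv_add_left]
        congr 1
        funext a b
        ring
      rw [h3]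
      abel
  have h := key n
  rw [hτn] at h
  exact h

end Dyn
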