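import Pool.Agent.Lib_MP_36b788.Sde

/-!
# SDEINC: increments of the Wiener matrices; cutting of measurability facts

PROOF. `meas`: adaptB and `ℱ.le`. `law`: `IsPreBrownianReal.hasLaw_sub` (`nndist t s = t - s`). `indep`: `iIndepFun.comp` of `indep`
with the measurable map `f ↦ f t - f s` on paths (`ℝ≥0 → ℝ` with the product σ-algebra, evaluations are measurable).
`past`: `indepInc`, the σ-algebra generated by the single increment (or by a finite family of increments, i.e. by
`ω ↦ (x, i, j) ↦ B x i j t ω - B x i j s ω`, `x` in a finite set) is coarser than the one of the whole family.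
-/

open MeasureTheory ProbabilityTheory
open scoped NNReal ENNReal Topology

namespace Dyn

section
variable {Ω : Type} [mΩ : MeasurableSpace Ω] {P : Measure Ω} {N d : ℕ} {k ε β : ℝ}
    {ℱ : Filtration ℝ≥0 mΩ} {B : Site d → Fin N → Fin N → ℝ≥0 → Ω → ℝ}
    {H : ℝ≥0 → Site d → Ω → E N}

theorem inc_meas (hH : IsDynamo P k ε β ℱ B H) (s t : ℝ≥0) (hst : s ≤ t) (x : Site d)
    (i j : Fin N) :
    Measurable[ℱ t] (fun ω => B x i j t ω - B x i j s ω) ∧
    Measurable (fun ω => B x i j t ω - B x i j s ω) := by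
  have h1 : Measurable[ℱ t] (fun ω => B x i j t ω - B x i j s ω) :=
    (hH.adaptB x i j t).sub ((hH.adaptB x i j s).mono (ℱ.mono hst) le_rfl)
  exact ⟨h1, h1.mono (ℱ.le t) le_rfl⟩

theorem inc_law (hH : IsDynamo P k ε β ℱ B H) (s t : ℝ≥0) (hst : s ≤ t) (x : Site d)
    (i j : Fin N) :
    P.map (fun ω => B x i j t ω - B x i j s ω) = gaussianReal 0 (t - s) := by
  have h1 := (hH.brownian x i j).toIsPreBrownianReal.hasLaw_sub t s
  have h2 : nndist t s = t - s := by
    rw [nndist_comm]
    ext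
    rw [coe_nndist, NNReal.dist_eq, NNReal.coe_sub hst, abs_sub_comm, abs_of_nonneg]
    exact sub_nonneg.2 (by exact_mod_cast hst)
  rw [← h2]
  exact h1.map_eq

theorem inc_indep (hH : IsDynamo P k ε β ℱ B H) (s t : ℝ≥0) {κ : Type} (g : κ → Site d)
    (hg : Function.Injective g) :
    iIndepFun (fun (q : κ × Fin N × Fin N) ω =>
      B (g q.1) q.2.1 q.2.2 t ω - B (g q.1) q.2.1 q.2.2 s ω) P := by
  have hg' : Function.Injective (fun q : κ × Fin N × Fin N =>
      ((g q.1, q.2.1, q.2.2) : Site d × Fin N × Fin N)) := by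
    rintro ⟨x, i, j⟩ ⟨x', i', j'⟩ h
    simp only [Prod.mk.injEq] at h
    obtain ⟨h1, rfl, rfl⟩ := h
    rw [hg h1]
  have h1 := hH.indep.precomp hg'
  exact h1.comp (fun _ (f : ℝ≥0 → ℝ) => f t - f s)
    (fun _ => (measurable_pi_apply t).sub (measurable_pi_apply s))

/-- every `ℱ s`-measurable function is independent of the increments after `s` -/
theorem inc_past (hH : IsDynamo P k ε β ℱ B H) (s t : ℝ≥0) (hst : s ≤ t) {κ : Type}
    (g : κ → Site d) {α : Type} [MeasurableSpace α] (V : Ω → α) (hV : Measurable[ℱ s] V) :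
    IndepFun V (fun ω (q : κ × Fin N × Fin N) =>
      B (g q.1) q.2.1 q.2.2 t ω - B (g q.1) q.2.1 q.2.2 s ω) P := by
  rw [IndepFun_iff_Indep]
  refine indep_of_indep_of_le_left (indep_of_indep_of_le_right (hH.indepInc s t hst) ?_)
    hV.comap_le
  obtain ⟨F, hF⟩ : ∃ F : Ω → (Site d × Fin N × Fin N → ℝ), F = fun ω q =>
    B q.1 q.2.1 q.2.2 t ω - B q.1 q.2.1 q.2.2 s ω := ⟨_, rfl⟩
  obtain ⟨r, hr⟩ : ∃ r : (Site d × Fin N × Fin N → ℝ) → (κ × Fin N × Fin N → ℝ),
    r = fun f q => f (g q.1, q.2.1, q.2.2) := ⟨_, rfl⟩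
  have hrm : Measurable r := by
    rw [hr]
    exact measurable_pi_lambda _ fun q => measurable_pi_apply _
  have h1 : (fun (ω : Ω) (q : κ × Fin N × Fin N) =>
      B (g q.1) q.2.1 q.2.2 t ω - B (g q.1) q.2.1 q.2.2 s ω) = r ∘ F := by
    rw [hr, hF]
    rfl
  rw [h1, ← hF, ← MeasurableSpace.comap_comp]
  exact MeasurableSpace.comap_mono hrm.comap_le

/-- `mulv` is continuous in both arguments together -/
theorem mulv_continuous (N : ℕ) :
    Continuous (fun q : (Fin N → Fin N → ℝ) × E N => mulv q.1 q.2) := by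
  unfold mulv
  refine (PiLp.continuous_toLp 2 _).comp (continuous_pi fun i => ?_)
  refine continuous_finsetSum _ fun j _ => ?_
  refine Continuous.mul ?_ ?_
  · exact (continuous_apply j).comp ((continuous_apply i).comp continuous_fst)
  · exact (EuclideanSpace.proj (𝕜 := ℝ) j).continuous.comp continuous_snd

theorem mulv_add (b : Fin N → Fin N → ℝ) (v w : E N) : mulv b (v + w) = mulv b v + mulv b w := by
  unfold mulv
  ext i
  simp only [PiLp.add_apply, mul_add, Finset.sum_add_distrib]

theorem mulv_smul (b : Fin N → Fin N → ℝ) (a : ℝ) (v : E N) : mulv b (a • v) = a • mulv b v := by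
  unfold mulv
  ext i
  simp only [PiLp.smul_apply, smul_eq_mul, Finset.mul_sum]
  exact Finset.sum_congr rfl fun j _ => by ring

theorem mulv_add_left (b c : Fin N → Fin N → ℝ) (v : E N) :
    mulv (fun i j => b i j + c i j) v = mulv b v + mulv c v := by
  unfold mulv
  ext i
  simp only [PiLp.add_apply, add_mul, Finset.sum_add_distrib]

theorem mulv_sub_left (b c : Fin N → Fin N → ℝ) (v : E N) :
    mulv (fun i j => b i j - c i j) v = mulv b v - mulv c v := by
  unfold mulv
  ext i
  simp only [PiLp.sub_apply, sub_mul, Finset.sum_sub_distrib]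

end

end Dyn
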