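import Pool.Agent.Lib_MP_36b788.SdeR
import Pool.Agent.Lib_MP_36b788.SdeI
import Pool.Agent.Lib_MP_36b788.SdeB

/-!
# SDEL2: L² continuity

PROOF. `drf_facts`: `drf` is a finite sum of `H` at neighbours and `b(H)`; moments (`moments` with `p = 2` and
`p = ⌈4β+2⌉₊`, b_L2 with `V = U`), continuity of `(u,…) ↦ drf` (`‖u‖^β` is continuous for `β > 0`), a.s. continuity for the
`2d+1` sites involved. `l2cont`: let `D = ∫_s^t drf` (tint_facts: `∫‖D‖² ≤ C(t-s)²`), `R_n = rsum … n` (rsum_sq: `∫‖R_n‖² ≤ N(t-s)C`).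
`ito`: `‖H_t-H_s-D-R_n‖_2 → 0`, so `‖H_t-H_s‖_2 ≤ ‖D‖_2 + √(N(t-s)C)`; `∫‖H_t-H_s‖² ≤ 2C(t-s)²+2NC(t-s) ≤ C'(t-s)` on `[0,T]`.
(`eLpNorm … 2 P` of an a.e. strongly measurable function is `(∫‖·‖²)^{1/2}`; all functions here are in L²: `memLp` lemmas.)
-/

open MeasureTheory ProbabilityTheory
open scoped NNReal ENNReal Topology

namespace Dyn

section
variable {Ω : Type} [mΩ : MeasurableSpace Ω] {P : Measure Ω} {N d : ℕ} {k β : ℝ}
    {ℱ : Filtration ℝ≥0 mΩ} {B : Site d → Fin N → Fin N → ℝ≥0 → Ω → ℝ}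
    {H : ℝ≥0 → Site d → Ω → E N}

private lemma SdeL2_int_eq {f : Ω → E N} (hf : MemLp f 2 P) :
    ∫ ω, ‖f ω‖ ^ 2 ∂P = ((eLpNorm f 2 P).toReal) ^ 2 := by
  have h0 : 0 ≤ ∫ ω, ‖f ω‖ ^ 2 ∂P := integral_nonneg (fun ω => by positivity)
  have h1 := hf.eLpNorm_eq_integral_rpow_norm (by norm_num) (by norm_num)
  have h2 : (2 : ℝ≥0∞).toReal = 2 := by norm_num
  rw [h2] at h1
  have h3 : ∫ ω, ‖f ω‖ ^ (2 : ℝ) ∂P = ∫ ω, ‖f ω‖ ^ 2 ∂P := by
    congr 1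
    funext ω
    exact Real.rpow_two _
  rw [h3] at h1
  rw [h1, ENNReal.toReal_ofReal (Real.rpow_nonneg h0 _), ← Real.rpow_natCast, ← Real.rpow_mul h0]
  norm_num

private lemma SdeL2_meas (hH : IsDynamo P k 1 β ℱ B H) (t : ℝ≥0) (x : Site d) :
    Measurable (H t x) := (hH.adapted t x).mono (ℱ.le t) le_rfl

theorem H_L2 (hH : IsDynamo P k 1 β ℱ B H) (T : ℝ≥0) :
    ∃ C : ℝ, 0 < C ∧ ∀ t ≤ T, ∀ x, MemLp (H t x) 2 P ∧ ∫ ω, ‖H t x ω‖ ^ 2 ∂P ≤ C := by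
  have := hH.prob
  obtain ⟨C, hC⟩ := hH.moments 2 T
  refine ⟨max C 1, lt_of_lt_of_le one_pos (le_max_right _ _), ?_⟩
  intro t ht x
  obtain ⟨h1, h2⟩ := hC t ht x
  refine ⟨?_, h2.trans (le_max_left _ _)⟩
  exact (memLp_two_iff_integrable_sq_norm (SdeL2_meas hH t x).aestronglyMeasurable).2 h1

private lemma SdeL2_lap_sq (f : Site d → E N) (x : Site d) :
    ‖lap f x‖ ^ 2 ≤ 12 * d * ∑ i : Fin d, (‖f (x + Pi.single i 1)‖ ^ 2 +
      ‖f (x - Pi.single i 1)‖ ^ 2 + ‖f x‖ ^ 2) := by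
  have h1 : ‖lap f x‖ ≤ ∑ i : Fin d, (‖f (x + Pi.single i 1)‖ +
      ‖f (x - Pi.single i 1)‖ + 2 * ‖f x‖) := by
    unfold lap
    refine (norm_sum_le _ _).trans (Finset.sum_le_sum (fun i _ => ?_))
    have h2 := norm_add_le (f (x + Pi.single i 1) - f x) (f (x - Pi.single i 1) - f x)
    have h3 := norm_sub_le (f (x + Pi.single i 1)) (f x)
    have h4 := norm_sub_le (f (x - Pi.single i 1)) (f x)
    linarith
  have h2 : ‖lap f x‖ ^ 2 ≤ (∑ i : Fin d, (‖f (x + Pi.single i 1)‖ +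
      ‖f (x - Pi.single i 1)‖ + 2 * ‖f x‖)) ^ 2 := by
    gcongr
  have h3 := sq_sum_le_card_mul_sum_sq (s := (Finset.univ : Finset (Fin d)))
    (f := fun i => ‖f (x + Pi.single i 1)‖ + ‖f (x - Pi.single i 1)‖ + 2 * ‖f x‖)
  rw [Finset.card_univ, Fintype.card_fin] at h3
  refine (h2.trans h3).trans ?_
  have h4 : ∑ i : Fin d, (‖f (x + Pi.single i 1)‖ + ‖f (x - Pi.single i 1)‖ + 2 * ‖f x‖) ^ 2 ≤
      ∑ i : Fin d, 12 * (‖f (x + Pi.single i 1)‖ ^ 2 + ‖f (x - Pi.single i 1)‖ ^ 2 + ‖f x‖ ^ 2) := by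
    refine Finset.sum_le_sum (fun i _ => ?_)
    nlinarith [sq_nonneg (‖f (x + Pi.single i 1)‖ - ‖f (x - Pi.single i 1)‖),
      sq_nonneg (‖f (x + Pi.single i 1)‖ - 2 * ‖f x‖),
      sq_nonneg (‖f (x - Pi.single i 1)‖ - 2 * ‖f x‖), sq_nonneg ‖f (x + Pi.single i 1)‖,
      sq_nonneg ‖f (x - Pi.single i 1)‖]
  rw [← Finset.mul_sum] at h4
  calc (d : ℝ) * ∑ i : Fin d, (‖f (x + Pi.single i 1)‖ + ‖f (x - Pi.single i 1)‖ + 2 * ‖f x‖) ^ 2
      ≤ (d : ℝ) * (12 * ∑ i : Fin d, (‖f (x + Pi.single i 1)‖ ^ 2 +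
        ‖f (x - Pi.single i 1)‖ ^ 2 + ‖f x‖ ^ 2)) := by gcongr
    _ = _ := by ring

private lemma SdeL2_drf_sq (f : Site d → E N) (x : Site d) :
    ‖drf k 1 β f x‖ ^ 2 ≤ 24 * k ^ 2 * d * (∑ i : Fin d, (‖f (x + Pi.single i 1)‖ ^ 2 +
      ‖f (x - Pi.single i 1)‖ ^ 2 + ‖f x‖ ^ 2)) + 2 * ‖(‖f x‖ ^ β) • f x‖ ^ 2 := by
  have h1 : ‖drf k 1 β f x‖ ≤ |k| * ‖lap f x‖ + ‖(‖f x‖ ^ β) • f x‖ := by
    unfold drf
    rw [one_mul]
    refine (norm_sub_le _ _).trans ?_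
    rw [norm_smul k, Real.norm_eq_abs]
  have h2 : ‖drf k 1 β f x‖ ^ 2 ≤ (|k| * ‖lap f x‖ + ‖(‖f x‖ ^ β) • f x‖) ^ 2 := by gcongr
  have h3 : (|k| * ‖lap f x‖ + ‖(‖f x‖ ^ β) • f x‖) ^ 2 ≤
      2 * (k ^ 2 * ‖lap f x‖ ^ 2) + 2 * ‖(‖f x‖ ^ β) • f x‖ ^ 2 := by
    have : (|k| * ‖lap f x‖) ^ 2 = k ^ 2 * ‖lap f x‖ ^ 2 := by rw [mul_pow, sq_abs]
    rw [← this]
    nlinarith [sq_nonneg (|k| * ‖lap f x‖ - ‖(‖f x‖ ^ β) • f x‖)]
  have h4 := mul_le_mul_of_nonneg_left (SdeL2_lap_sq f x) (sq_nonneg k)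
  linarith

theorem drf_facts (hβ : 1 < β) (hH : IsDynamo P k 1 β ℱ B H) (T : ℝ≥0) :
    ∃ C : ℝ, 0 < C ∧ ∀ x,
      (∀ t, AEStronglyMeasurable (fun ω => drf k 1 β (fun y => H t y ω) x) P) ∧
      (∀ᵐ ω ∂P, Continuous (fun t => drf k 1 β (fun y => H t y ω) x)) ∧
      ∀ t ≤ T, MemLp (fun ω => drf k 1 β (fun y => H t y ω) x) 2 P ∧
        ∫ ω, ‖drf k 1 β (fun y => H t y ω) x‖ ^ 2 ∂P ≤ C := by
  have := hH.prob
  obtain ⟨C1, hC1, hL⟩ := H_L2 hH T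
  obtain ⟨M, hM⟩ := hH.moments ⌈4 * β + 2⌉₊ T
  obtain ⟨C2, hC2, hb⟩ := b_L2 N β hβ.le (max M 0) (le_max_right _ _)
  refine ⟨24 * k ^ 2 * d * (d * (C1 + C1 + C1)) + 2 * C2, by positivity, ?_⟩
  intro x
  refine ⟨?_, ?_, ?_⟩
  · intro t
    apply Measurable.aestronglyMeasurable
    unfold drf lap
    have hm : ∀ y, Measurable (H t y) := fun y => SdeL2_meas hH t y
    fun_prop
  · have hall : ∀ᵐ ω ∂P, ∀ y, Continuous (fun t => H t y ω) := ae_all_iff.2 hH.cont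
    filter_upwards [hall] with ω hω
    have hr : Continuous (fun t => ‖H t x ω‖ ^ β) :=
      (hω x).norm.rpow_const (fun _ => Or.inr (by linarith))
    unfold drf lap
    refine Continuous.sub (Continuous.const_smul (continuous_finsetSum _ (fun i _ => ?_)) k)
      ((continuous_const.mul hr).smul (hω x))
    exact ((hω _).sub (hω x)).add ((hω _).sub (hω x))
  · intro t ht
    have hU := hM t ht x
    have hMU := hU.2.trans (le_max_left M 0)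
    obtain ⟨hb1, hb2, -⟩ := hb P (H t x) (H t x) (SdeL2_meas hH t x).aestronglyMeasurable
      (SdeL2_meas hH t x).aestronglyMeasurable hU.1 hU.1 hMU hMU
    have hmem : MemLp (fun ω => drf k 1 β (fun y => H t y ω) x) 2 P := by
      have hl : MemLp (fun ω => lap (fun y => H t y ω) x) 2 P := by
        have hg : ∀ i ∈ (Finset.univ : Finset (Fin d)), MemLp (fun ω =>
            (H t (x + Pi.single i 1) ω - H t x ω) + (H t (x - Pi.single i 1) ω - H t x ω)) 2 P :=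
          fun i _ => ((hL t ht _).1.sub (hL t ht x).1).add ((hL t ht _).1.sub (hL t ht x).1)
        exact memLp_finsetSum Finset.univ hg
      have hk : MemLp (fun ω => k • lap (fun y => H t y ω) x) 2 P := hl.const_smul k
      have hs : MemLp (fun ω => k • lap (fun y => H t y ω) x - (‖H t x ω‖ ^ β) • H t x ω) 2 P :=
        hk.sub hb1
      have he : (fun ω => drf k 1 β (fun y => H t y ω) x) =
          fun ω => k • lap (fun y => H t y ω) x - (‖H t x ω‖ ^ β) • H t x ω := by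
        funext ω
        unfold drf
        rw [one_mul]
      rw [he]
      exact hs
    refine ⟨hmem, ?_⟩
    have hi : ∀ y, Integrable (fun ω => ‖H t y ω‖ ^ 2) P := fun y =>
      (hL t ht y).1.integrable_norm_pow (by norm_num)
    have hi3 : ∀ i : Fin d, Integrable (fun ω => ‖H t (x + Pi.single i 1) ω‖ ^ 2 +
        ‖H t (x - Pi.single i 1) ω‖ ^ 2 + ‖H t x ω‖ ^ 2) P := fun i => ((hi _).add (hi _)).add (hi x)
    have hbi : Integrable (fun ω => ‖(‖H t x ω‖ ^ β) • H t x ω‖ ^ 2) P :=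
      hb1.integrable_norm_pow (by norm_num)
    have hdi : Integrable (fun ω => ‖drf k 1 β (fun y => H t y ω) x‖ ^ 2) P :=
      hmem.integrable_norm_pow (by norm_num)
    have he3 : ∀ i : Fin d, ∫ ω, (‖H t (x + Pi.single i 1) ω‖ ^ 2 +
        ‖H t (x - Pi.single i 1) ω‖ ^ 2 + ‖H t x ω‖ ^ 2) ∂P =
        ∫ ω, ‖H t (x + Pi.single i 1) ω‖ ^ 2 ∂P + ∫ ω, ‖H t (x - Pi.single i 1) ω‖ ^ 2 ∂P +
          ∫ ω, ‖H t x ω‖ ^ 2 ∂P := by
      intro i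
      have a1 := integral_add ((hi (x + Pi.single i 1)).add (hi (x - Pi.single i 1))) (hi x)
      have a2 := integral_add (hi (x + Pi.single i 1)) (hi (x - Pi.single i 1))
      simp only [Pi.add_apply] at a1 a2
      rw [a1, a2]
    calc ∫ ω, ‖drf k 1 β (fun y => H t y ω) x‖ ^ 2 ∂P
        ≤ ∫ ω, (24 * k ^ 2 * d * (∑ i : Fin d, (‖H t (x + Pi.single i 1) ω‖ ^ 2 +
          ‖H t (x - Pi.single i 1) ω‖ ^ 2 + ‖H t x ω‖ ^ 2)) +
          2 * ‖(‖H t x ω‖ ^ β) • H t x ω‖ ^ 2) ∂P := by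
          refine integral_mono hdi ?_ (fun ω => SdeL2_drf_sq (fun y => H t y ω) x)
          exact ((integrable_finsetSum _ (fun i _ => hi3 i)).const_mul _).add (hbi.const_mul _)
      _ = 24 * k ^ 2 * d * (∑ i : Fin d, (∫ ω, ‖H t (x + Pi.single i 1) ω‖ ^ 2 ∂P +
          ∫ ω, ‖H t (x - Pi.single i 1) ω‖ ^ 2 ∂P + ∫ ω, ‖H t x ω‖ ^ 2 ∂P)) +
          2 * ∫ ω, ‖(‖H t x ω‖ ^ β) • H t x ω‖ ^ 2 ∂P := by
          rw [integral_add ((integrable_finsetSum _ (fun i _ => hi3 i)).const_mul _)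
            (hbi.const_mul _), integral_const_mul, integral_const_mul,
            integral_finsetSum _ (fun i _ => hi3 i), Finset.sum_congr rfl (fun i _ => he3 i)]
      _ ≤ 24 * k ^ 2 * d * (∑ _i : Fin d, (C1 + C1 + C1)) + 2 * C2 := by
          gcongr
          · exact (hL t ht _).2
          · exact (hL t ht _).2
          · exact (hL t ht _).2
      _ = 24 * k ^ 2 * d * (d * (C1 + C1 + C1)) + 2 * C2 := by
          rw [Finset.sum_const, Finset.card_univ, Fintype.card_fin, nsmul_eq_mul]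

theorem l2cont (hβ : 1 < β) (hH : IsDynamo P k 1 β ℱ B H) (T : ℝ≥0) :
    ∃ C : ℝ, 0 < C ∧ ∀ s t : ℝ≥0, s ≤ t → t ≤ T → ∀ x,
      ∫ ω, ‖H t x ω - H s x ω‖ ^ 2 ∂P ≤ C * (t - s) := by
  have := hH.prob
  obtain ⟨C1, hC1, hL⟩ := H_L2 hH T
  obtain ⟨C2, hC2, hD⟩ := drf_facts hβ hH T
  refine ⟨3 * C2 * T + 3 * (N * C1) + 1, by positivity, ?_⟩
  intro s t hst htT x
  have hsT : s ≤ T := hst.trans htT
  have hstR : (0 : ℝ) ≤ (t : ℝ) - s := sub_nonneg.2 (NNReal.coe_le_coe.2 hst)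
  obtain ⟨hD1, hD2, hD3⟩ := hD x
  obtain ⟨hDm, hDb⟩ := tint_facts (P := P) (fun r ω => drf k 1 β (fun y => H r y ω) x) s t hst hD1
    hD2 C2 hC2.le (fun r _ hr => hD3 r (hr.trans htT))
  have hR := fun n => rsum_sq hH H x s t hst C1
    (fun r _ hr => ⟨hH.adapted r x, hL r (hr.trans htT) x⟩) n
  have hA : MemLp (fun ω => H t x ω - H s x ω) 2 P := (hL t htT x).1.sub (hL s hsT x).1
  set D : Ω → E N := fun ω => ∫ r in (s : ℝ)..t, drf k 1 β (fun y => H r.toNNReal y ω) x with hDdef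
  have hF : ∀ n, MemLp (fun ω => H t x ω - H s x ω - D ω - rsum B H x s t n ω) 2 P :=
    fun n => (hA.sub hDm).sub (hR n).1
  have hlim : Filter.Tendsto (fun n : ℕ =>
      3 * ∫ ω, ‖H t x ω - H s x ω - D ω - rsum B H x s t n ω‖ ^ 2 ∂P) Filter.atTop (𝓝 (3 * 0 ^ 2)) := by
    refine Filter.Tendsto.const_mul 3 ?_
    have h1 : ∀ n, ∫ ω, ‖H t x ω - H s x ω - D ω - rsum B H x s t n ω‖ ^ 2 ∂P =
        ((eLpNorm (fun ω => H t x ω - H s x ω - D ω - rsum B H x s t n ω) 2 P).toReal) ^ 2 :=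
      fun n => SdeL2_int_eq (hF n)
    simp only [h1]
    refine Filter.Tendsto.pow ?_ 2
    have h2 := hH.ito x s t hst
    have h3 := (ENNReal.tendsto_toReal (ENNReal.zero_ne_top)).comp h2
    rw [ENNReal.toReal_zero] at h3
    exact h3
  have hAi : Integrable (fun ω => ‖H t x ω - H s x ω‖ ^ 2) P := hA.integrable_norm_pow (by norm_num)
  have hDi : Integrable (fun ω => ‖D ω‖ ^ 2) P := hDm.integrable_norm_pow (by norm_num)
  have key : ∀ n, ∫ ω, ‖H t x ω - H s x ω‖ ^ 2 ∂P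
      - (3 * (C2 * (t - s) ^ 2) + 3 * (N * (t - s) * C1)) ≤
      3 * ∫ ω, ‖H t x ω - H s x ω - D ω - rsum B H x s t n ω‖ ^ 2 ∂P := by
    intro n
    have hFi : Integrable (fun ω => ‖H t x ω - H s x ω - D ω - rsum B H x s t n ω‖ ^ 2) P :=
      (hF n).integrable_norm_pow (by norm_num)
    have hRi : Integrable (fun ω => ‖rsum B H x s t n ω‖ ^ 2) P :=
      (hR n).1.integrable_norm_pow (by norm_num)
    have h1 : ∫ ω, ‖H t x ω - H s x ω‖ ^ 2 ∂P ≤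
        ∫ ω, (3 * ‖H t x ω - H s x ω - D ω - rsum B H x s t n ω‖ ^ 2 + 3 * ‖D ω‖ ^ 2 +
          3 * ‖rsum B H x s t n ω‖ ^ 2) ∂P := by
      refine integral_mono hAi (((hFi.const_mul 3).add (hDi.const_mul 3)).add (hRi.const_mul 3))
        (fun ω => ?_)
      have h2 : ‖H t x ω - H s x ω‖ ≤ ‖H t x ω - H s x ω - D ω - rsum B H x s t n ω‖ + ‖D ω‖ +
          ‖rsum B H x s t n ω‖ := by
        have e : H t x ω - H s x ω = (H t x ω - H s x ω - D ω - rsum B H x s t n ω) + D ω +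
          rsum B H x s t n ω := by abel
        calc ‖H t x ω - H s x ω‖ = ‖(H t x ω - H s x ω - D ω - rsum B H x s t n ω) + D ω +
            rsum B H x s t n ω‖ := by rw [← e]
          _ ≤ _ := norm_add₃_le
      have h3 : ‖H t x ω - H s x ω‖ ^ 2 ≤ (‖H t x ω - H s x ω - D ω - rsum B H x s t n ω‖ + ‖D ω‖ +
          ‖rsum B H x s t n ω‖) ^ 2 := by gcongr
      refine h3.trans ?_
      nlinarith [sq_nonneg (‖H t x ω - H s x ω - D ω - rsum B H x s t n ω‖ - ‖D ω‖),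
        sq_nonneg (‖H t x ω - H s x ω - D ω - rsum B H x s t n ω‖ - ‖rsum B H x s t n ω‖),
        sq_nonneg (‖D ω‖ - ‖rsum B H x s t n ω‖)]
    have e1 : ∫ ω, (3 * ‖H t x ω - H s x ω - D ω - rsum B H x s t n ω‖ ^ 2 + 3 * ‖D ω‖ ^ 2 +
          3 * ‖rsum B H x s t n ω‖ ^ 2) ∂P =
        3 * ∫ ω, ‖H t x ω - H s x ω - D ω - rsum B H x s t n ω‖ ^ 2 ∂P + 3 * ∫ ω, ‖D ω‖ ^ 2 ∂P +
          3 * ∫ ω, ‖rsum B H x s t n ω‖ ^ 2 ∂P := by
      have a1 := integral_add ((hFi.const_mul 3).add (hDi.const_mul 3)) (hRi.const_mul 3)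
      have a2 := integral_add (hFi.const_mul 3) (hDi.const_mul 3)
      simp only [Pi.add_apply, integral_const_mul] at a1 a2
      rw [a1, a2]
    rw [e1] at h1
    have h4 := (hR n).2.1
    linarith
  have hfin := ge_of_tendsto' hlim key
  have hT : (t : ℝ) - s ≤ T := by
    have h1 : (t : ℝ) ≤ T := NNReal.coe_le_coe.2 htT
    have h2 : (0 : ℝ) ≤ s := s.2
    linarith
  have h5 : C2 * ((t : ℝ) - s) ^ 2 ≤ C2 * T * ((t : ℝ) - s) := by
    calc C2 * ((t : ℝ) - s) ^ 2 = C2 * (((t : ℝ) - s) * ((t : ℝ) - s)) := by ring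
      _ ≤ C2 * (T * ((t : ℝ) - s)) := by gcongr
      _ = _ := by ring
  nlinarith

end

end Dyn
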