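import Pool.Agent.Lib_MP_36b788.SdeL2
import Pool.Agent.Lib_MP_36b788.JMap

/-!
# SDELE: local error of the implicit step

PROOF. `0 ≤ s`, `t = s+h ≤ T`, `b(u) = ‖u‖^βu`, `U = H_t - kh lap H_s`. Put `D = ∫_s^t drf`,
`ρM := H_t - H_s - D - mulv(B_t-B_s)H_s`. By `ito` and rsum_sub, `ρM` is the L²-limit of `rsum B V x s t n` with
`V_r = H_r - H_s`; rsum_sq (`C := C_1 h` from l2cont): `∫‖ρM‖² ≤ N h·C_1h`, and `∫⟪Z,ρM⟫ = 0`.
`H_t = H_s + mulv(ΔB)H_s + ρM + kh lap H_s - h b(H_t) + ρ₁`, `ρ₁ = ∫_s^t(drf(H_r) - [k lap H_s - b(H_t)])dr`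
`= ∫_s^t (k(lap H_r - lap H_s) - (b(H_r)-b(H_t)))dr`. tint_facts with the integrand (continuous paths) and
`∫‖lap H_r - lap H_s‖² ≤ C h`, `∫‖b(H_r)-b(H_t)‖² ≤ C√(C_1h)` (b_L2, l2cont): `∫‖ρ₁‖² ≤ C h²·√h`.
So `U + h b(U) = H_s + mulv(ΔB)H_s + ρM + ρD`, `ρD = ρ₁ + h(b(U)-b(H_t))`, and `∫‖b(U)-b(H_t)‖² ≤ C√(∫‖kh lap H_s‖²) ≤ C h`
(b_L2 with the moments of `U`: `‖U‖^p ≤ 2^p(‖H_t‖^p+‖kh lap H_s‖^p)`, `h ≤ 1`). Total `∫‖ρD‖² ≤ C h²√h ≤ δh²` for `h ≤ h0`.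
Finally `J_unique`: `J β h (U + (h‖U‖^β)•U) = U`.
-/

open MeasureTheory ProbabilityTheory
open scoped NNReal ENNReal Topology

namespace Dyn

private lemma SdeLE_le_root {S a : ℝ} {p : ℕ} (hp : 1 ≤ p) (ha : 0 ≤ a) (h : a ^ p ≤ S) :
    a ≤ S ^ ((p : ℝ)⁻¹) := by
  have h1 : (a ^ p) ^ ((p : ℝ)⁻¹) = a := Real.pow_rpow_inv_natCast ha (by omega)
  rw [← h1]
  exact Real.rpow_le_rpow (by positivity) h (by positivity)

private lemma SdeLE_abs_pow {d p : ℕ} (hp : 1 ≤ p) (c : ℝ) (a b : Fin d → ℝ) (hc : 0 ≤ c)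
    (ha : ∀ i, 0 ≤ a i) (hb : ∀ i, 0 ≤ b i) (L : ℝ) (hL0 : 0 ≤ L)
    (hL : L ≤ ∑ i : Fin d, (a i + c + (b i + c))) :
    L ^ p ≤ (4 * d : ℝ) ^ p * (c ^ p + ∑ i : Fin d, (a i ^ p + b i ^ p)) := by
  have hsum0 : 0 ≤ ∑ i : Fin d, (a i ^ p + b i ^ p) :=
    Finset.sum_nonneg fun i _ => add_nonneg (pow_nonneg (ha i) p) (pow_nonneg (hb i) p)
  have hcp : 0 ≤ c ^ p := pow_nonneg hc p
  obtain ⟨S, hS⟩ : ∃ S, S = c ^ p + ∑ i : Fin d, (a i ^ p + b i ^ p) := ⟨_, rfl⟩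
  have hS0 : 0 ≤ S := by rw [hS]; exact add_nonneg hcp hsum0
  obtain ⟨M, hM⟩ : ∃ M, M = S ^ ((p : ℝ)⁻¹) := ⟨_, rfl⟩
  have hM0 : 0 ≤ M := by rw [hM]; exact Real.rpow_nonneg hS0 _
  have hMp : M ^ p = S := by rw [hM]; exact Real.rpow_inv_natCast_pow hS0 (by omega)
  have hx : c ≤ M := by
    rw [hM]; exact SdeLE_le_root hp hc (by rw [hS]; linarith)
  have hterm : ∀ i : Fin d, a i ^ p + b i ^ p ≤ S := by
    intro i
    have h1 : a i ^ p + b i ^ p ≤ ∑ i : Fin d, (a i ^ p + b i ^ p) :=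
      Finset.single_le_sum (f := fun i : Fin d => a i ^ p + b i ^ p)
      (fun j _ => add_nonneg (pow_nonneg (ha j) p) (pow_nonneg (hb j) p)) (Finset.mem_univ i)
    rw [hS]
    linarith
  have hp1 : ∀ i : Fin d, a i ≤ M := by
    intro i
    rw [hM]
    refine SdeLE_le_root hp (ha i) ?_
    have h1 := hterm i
    have h0 : 0 ≤ b i ^ p := pow_nonneg (hb i) p
    linarith
  have hm1 : ∀ i : Fin d, b i ≤ M := by
    intro i
    rw [hM]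
    refine SdeLE_le_root hp (hb i) ?_
    have h1 := hterm i
    have h0 : 0 ≤ a i ^ p := pow_nonneg (ha i) p
    linarith
  have hlap : L ≤ 4 * d * M := by
    refine hL.trans ?_
    have h1 : ∀ i ∈ (Finset.univ : Finset (Fin d)), a i + c + (b i + c) ≤ 4 * M := by
      intro i _
      have h3 := hp1 i
      have h4 := hm1 i
      linarith
    refine (Finset.sum_le_sum h1).trans ?_
    rw [Finset.sum_const, Finset.card_univ, Fintype.card_fin, nsmul_eq_mul]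
    linarith
  calc L ^ p ≤ (4 * d * M) ^ p := pow_le_pow_left₀ hL0 hlap p
    _ = (4 * d : ℝ) ^ p * S := by rw [mul_pow, hMp]
    _ = _ := by rw [hS]

private lemma SdeLE_lap_pow {N d : ℕ} (f : Site d → E N) (x : Site d) {p : ℕ} (hp : 1 ≤ p) :
    ‖lap f x‖ ^ p ≤ (4 * d : ℝ) ^ p * (‖f x‖ ^ p + ∑ i : Fin d,
      (‖f (x + Pi.single i 1)‖ ^ p + ‖f (x - Pi.single i 1)‖ ^ p)) := by
  refine SdeLE_abs_pow hp ‖f x‖ (fun i => ‖f (x + Pi.single i 1)‖)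
    (fun i => ‖f (x - Pi.single i 1)‖) (norm_nonneg _) (fun i => norm_nonneg _)
    (fun i => norm_nonneg _) _ (norm_nonneg _) ?_
  unfold lap
  refine (norm_sum_le _ _).trans ?_
  refine Finset.sum_le_sum fun i _ => ?_
  refine (norm_add_le _ _).trans ?_
  exact add_le_add (norm_sub_le _ _) (norm_sub_le _ _)

private lemma SdeLE_lap_sub {N d : ℕ} (f g : Site d → E N) (x : Site d) :
    lap (fun y => f y - g y) x = lap f x - lap g x := by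
  unfold lap
  rw [← Finset.sum_sub_distrib]
  refine Finset.sum_congr rfl fun i _ => ?_
  beta_reduce
  generalize f (x + Pi.single i 1) = a1
  generalize g (x + Pi.single i 1) = a2
  generalize f (x - Pi.single i 1) = a3
  generalize g (x - Pi.single i 1) = a4
  abel

private lemma SdeLE_lap_meas {Ω : Type} [MeasurableSpace Ω] {P : Measure Ω} {N d : ℕ}
    (F : Site d → Ω → E N) (x : Site d) (hm : ∀ y, AEStronglyMeasurable (F y) P) :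
    AEStronglyMeasurable (fun ω => lap (fun y => F y ω) x) P := by
  unfold lap
  refine Finset.aestronglyMeasurable_fun_sum _ fun i _ => ?_
  exact ((hm _).sub (hm _)).add ((hm _).sub (hm _))

private lemma SdeLE_lap_int {Ω : Type} [MeasurableSpace Ω] {P : Measure Ω} {N d : ℕ}
    (F : Site d → Ω → E N) (x : Site d) {p : ℕ} (hp : 1 ≤ p) (C : ℝ)
    (hm : ∀ y, AEStronglyMeasurable (F y) P) (hi : ∀ y, Integrable (fun ω => ‖F y ω‖ ^ p) P)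
    (hC : ∀ y, ∫ ω, ‖F y ω‖ ^ p ∂P ≤ C) :
    Integrable (fun ω => ‖lap (fun y => F y ω) x‖ ^ p) P ∧
    ∫ ω, ‖lap (fun y => F y ω) x‖ ^ p ∂P ≤ (4 * d : ℝ) ^ p * ((1 + 2 * d) * C) := by
  have hdom : Integrable (fun ω => (4 * d : ℝ) ^ p * (‖F x ω‖ ^ p + ∑ i : Fin d,
      (‖F (x + Pi.single i 1) ω‖ ^ p + ‖F (x - Pi.single i 1) ω‖ ^ p))) P := by
    refine Integrable.const_mul ?_ _
    refine (hi x).add ?_
    refine integrable_finsetSum _ fun i _ => ?_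
    exact (hi _).add (hi _)
  have hb : ∀ ω, ‖lap (fun y => F y ω) x‖ ^ p ≤ (4 * d : ℝ) ^ p * (‖F x ω‖ ^ p + ∑ i : Fin d,
      (‖F (x + Pi.single i 1) ω‖ ^ p + ‖F (x - Pi.single i 1) ω‖ ^ p)) := fun ω =>
    SdeLE_lap_pow (fun y => F y ω) x hp
  have hint : Integrable (fun ω => ‖lap (fun y => F y ω) x‖ ^ p) P := by
    refine hdom.mono' ((SdeLE_lap_meas F x hm).norm.pow p) (Filter.Eventually.of_forall fun ω => ?_)
    rw [Real.norm_eq_abs, abs_of_nonneg (by positivity)]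
    exact hb ω
  refine ⟨hint, ?_⟩
  refine (integral_mono hint hdom hb).trans ?_
  rw [integral_const_mul]
  refine mul_le_mul_of_nonneg_left ?_ (by positivity)
  have hi2 : ∀ i ∈ (Finset.univ : Finset (Fin d)), Integrable (fun ω =>
      (‖F (x + Pi.single i 1) ω‖ ^ p + ‖F (x - Pi.single i 1) ω‖ ^ p)) P :=
    fun i _ => (hi _).add (hi _)
  rw [integral_add (hi x) (integrable_finsetSum _ hi2), integral_finsetSum _ hi2]
  have h1 : ∑ i : Fin d, ∫ ω, (‖F (x + Pi.single i 1) ω‖ ^ p + ‖F (x - Pi.single i 1) ω‖ ^ p) ∂P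
      ≤ ∑ _i : Fin d, (2 * C) := by
    refine Finset.sum_le_sum fun i _ => ?_
    rw [integral_add (hi _) (hi _)]
    have := hC (x + Pi.single i 1)
    have := hC (x - Pi.single i 1)
    linarith
  rw [Finset.sum_const, Finset.card_univ, Fintype.card_fin, nsmul_eq_mul] at h1
  have := hC x
  nlinarith [h1]

private lemma SdeLE_sq {Ω : Type} [MeasurableSpace Ω] {P : Measure Ω} {N : ℕ} {f : Ω → E N}
    (hf : MemLp f 2 P) : ∫ ω, ‖f ω‖ ^ 2 ∂P = (eLpNorm f 2 P).toReal ^ 2 := by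
  have h0 : 0 ≤ ∫ ω, ‖f ω‖ ^ 2 ∂P := integral_nonneg fun ω => by positivity
  rw [hf.eLpNorm_eq_integral_rpow_norm two_ne_zero ENNReal.ofNat_ne_top]
  have e : ∀ ω, ‖f ω‖ ^ (2 : ℝ≥0∞).toReal = ‖f ω‖ ^ 2 := by
    intro ω
    rw [ENNReal.toReal_ofNat]
    exact Real.rpow_two _
  simp only [e]
  rw [ENNReal.toReal_ofReal (by positivity), ENNReal.toReal_ofNat]
  rw [← Real.rpow_natCast, ← Real.rpow_mul h0]
  norm_num

private lemma SdeLE_int_sq {Ω : Type} [MeasurableSpace Ω] {P : Measure Ω} {N : ℕ} {f : Ω → E N}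
    (hf : MemLp f 2 P) : Integrable (fun ω => ‖f ω‖ ^ 2) P := hf.integrable_norm_pow (by norm_num)

private lemma SdeLE_add_sq {Ω : Type} [MeasurableSpace Ω] {P : Measure Ω} {N : ℕ} {f g : Ω → E N}
    (hf : MemLp f 2 P) (hg : MemLp g 2 P) :
    ∫ ω, ‖f ω + g ω‖ ^ 2 ∂P ≤ 2 * ∫ ω, ‖f ω‖ ^ 2 ∂P + 2 * ∫ ω, ‖g ω‖ ^ 2 ∂P := by
  rw [← integral_const_mul, ← integral_const_mul, ← integral_add
    ((SdeLE_int_sq hf).const_mul 2) ((SdeLE_int_sq hg).const_mul 2)]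
  refine integral_mono (SdeLE_int_sq (hf.add hg)) (((SdeLE_int_sq hf).const_mul 2).add
    ((SdeLE_int_sq hg).const_mul 2)) fun ω => ?_
  have h := norm_add_le (f ω) (g ω)
  have h0 := norm_nonneg (f ω + g ω)
  nlinarith [sq_nonneg (‖f ω‖ - ‖g ω‖), norm_nonneg (f ω), norm_nonneg (g ω)]

private lemma SdeLE_sub_sq {Ω : Type} [MeasurableSpace Ω] {P : Measure Ω} {N : ℕ} {f g : Ω → E N}
    (hf : MemLp f 2 P) (hg : MemLp g 2 P) :
    ∫ ω, ‖f ω - g ω‖ ^ 2 ∂P ≤ 2 * ∫ ω, ‖f ω‖ ^ 2 ∂P + 2 * ∫ ω, ‖g ω‖ ^ 2 ∂P := by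
  have := SdeLE_add_sq hf hg.neg
  simp only [Pi.neg_apply, norm_neg] at this
  simpa only [sub_eq_add_neg] using this

private lemma SdeLE_inner {Ω : Type} [MeasurableSpace Ω] {P : Measure Ω} {N : ℕ} {f g : Ω → E N}
    (hf : MemLp f 2 P) (hg : MemLp g 2 P) :
    Integrable (fun ω => (inner ℝ (f ω) (g ω) : ℝ)) P ∧ ∀ a : ℝ, 0 < a →
    |∫ ω, (inner ℝ (f ω) (g ω) : ℝ) ∂P| ≤ a * ∫ ω, ‖f ω‖ ^ 2 ∂P + a⁻¹ * ∫ ω, ‖g ω‖ ^ 2 ∂P := by
  have hb : ∀ a : ℝ, 0 < a → ∀ ω, |(inner ℝ (f ω) (g ω) : ℝ)| ≤ a * ‖f ω‖ ^ 2 + a⁻¹ * ‖g ω‖ ^ 2 := by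
    intro a ha ω
    have h := abs_real_inner_le_norm (f ω) (g ω)
    refine h.trans ?_
    have h1 : 0 ≤ a * (‖f ω‖ - a⁻¹ * ‖g ω‖) ^ 2 := by positivity
    have h2 : a * (‖f ω‖ - a⁻¹ * ‖g ω‖) ^ 2
        = a * ‖f ω‖ ^ 2 - 2 * (‖f ω‖ * ‖g ω‖) + a⁻¹ * ‖g ω‖ ^ 2 := by
      field_simp
      ring
    have h3 : 0 ≤ ‖f ω‖ * ‖g ω‖ := by positivity
    linarith
  have hdi : ∀ a : ℝ, Integrable (fun ω => a * ‖f ω‖ ^ 2 + a⁻¹ * ‖g ω‖ ^ 2) P := fun a =>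
    ((SdeLE_int_sq hf).const_mul a).add ((SdeLE_int_sq hg).const_mul a⁻¹)
  have hi : Integrable (fun ω => (inner ℝ (f ω) (g ω) : ℝ)) P := by
    refine (hdi 1).mono' (hf.1.inner hg.1) (Filter.Eventually.of_forall fun ω => ?_)
    exact hb 1 one_pos ω
  refine ⟨hi, fun a ha => ?_⟩
  rw [← integral_const_mul, ← integral_const_mul, ← integral_add
    ((SdeLE_int_sq hf).const_mul a) ((SdeLE_int_sq hg).const_mul a⁻¹)]
  refine abs_integral_le_integral_abs.trans ?_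
  exact integral_mono hi.abs (hdi a) (hb a ha)

/-- passage to the limit in `L²` -/
private lemma SdeLE_limit {Ω : Type} [MeasurableSpace Ω] {P : Measure Ω} {N : ℕ} {f : Ω → E N}
    (R : ℕ → Ω → E N) (hf : MemLp f 2 P) (hR : ∀ n, MemLp (R n) 2 P) {K : ℝ}
    (hK : ∀ n, ∫ ω, ‖R n ω‖ ^ 2 ∂P ≤ K)
    (hlim : Filter.Tendsto (fun n => eLpNorm (fun ω => f ω - R n ω) 2 P) Filter.atTop (𝓝 0)) :
    ∫ ω, ‖f ω‖ ^ 2 ∂P ≤ 2 * K ∧ ∀ Z : Ω → E N, MemLp Z 2 P →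
      (∀ n, ∫ ω, (inner ℝ (Z ω) (R n ω) : ℝ) ∂P = 0) → ∫ ω, (inner ℝ (Z ω) (f ω) : ℝ) ∂P = 0 := by
  have hlim2 : Filter.Tendsto (fun n => ∫ ω, ‖f ω - R n ω‖ ^ 2 ∂P) Filter.atTop (𝓝 0) := by
    have h1 : ∀ n, ∫ ω, ‖f ω - R n ω‖ ^ 2 ∂P
        = (eLpNorm (fun ω => f ω - R n ω) 2 P).toReal ^ 2 := fun n =>
      SdeLE_sq (hf.sub (hR n))
    simp only [h1]
    have h2 := (ENNReal.tendsto_toReal ENNReal.zero_ne_top).comp hlim
    have h3 := h2.pow 2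
    simpa using h3
  constructor
  · have hle : ∀ n, ∫ ω, ‖f ω‖ ^ 2 ∂P ≤ 2 * ∫ ω, ‖f ω - R n ω‖ ^ 2 ∂P + 2 * K := by
      intro n
      have h := SdeLE_add_sq (hf.sub (hR n)) (hR n)
      simp only [Pi.sub_apply, sub_add_cancel] at h
      have := hK n
      linarith
    have hl : Filter.Tendsto (fun n => 2 * ∫ ω, ‖f ω - R n ω‖ ^ 2 ∂P + 2 * K) Filter.atTop
        (𝓝 (2 * 0 + 2 * K)) := (hlim2.const_mul 2).add_const _
    have := ge_of_tendsto' hl hle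
    linarith
  · intro Z hZ h0
    have heq : ∀ n, ∫ ω, (inner ℝ (Z ω) (f ω) : ℝ) ∂P
        = ∫ ω, (inner ℝ (Z ω) (f ω - R n ω) : ℝ) ∂P := by
      intro n
      have h1 : ∀ ω, (inner ℝ (Z ω) (f ω - R n ω) : ℝ)
          = (inner ℝ (Z ω) (f ω) : ℝ) - (inner ℝ (Z ω) (R n ω) : ℝ) := fun ω => inner_sub_right _ _ _
      simp only [h1]
      rw [integral_sub (SdeLE_inner hZ hf).1 (SdeLE_inner hZ (hR n)).1, h0 n, sub_zero]
    have hz0 : 0 ≤ ∫ ω, ‖Z ω‖ ^ 2 ∂P := integral_nonneg fun ω => by positivity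
    have hb : ∀ a : ℝ, 0 < a → |∫ ω, (inner ℝ (Z ω) (f ω) : ℝ) ∂P| ≤ a * ∫ ω, ‖Z ω‖ ^ 2 ∂P := by
      intro a ha
      have hl : Filter.Tendsto (fun n => a * ∫ ω, ‖Z ω‖ ^ 2 ∂P
          + a⁻¹ * ∫ ω, ‖f ω - R n ω‖ ^ 2 ∂P) Filter.atTop
          (𝓝 (a * ∫ ω, ‖Z ω‖ ^ 2 ∂P + a⁻¹ * 0)) := (hlim2.const_mul a⁻¹).const_add _
      have hle : ∀ n, |∫ ω, (inner ℝ (Z ω) (f ω) : ℝ) ∂P|
          ≤ a * ∫ ω, ‖Z ω‖ ^ 2 ∂P + a⁻¹ * ∫ ω, ‖f ω - R n ω‖ ^ 2 ∂P := by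
        intro n
        rw [heq n]
        exact (SdeLE_inner hZ (hf.sub (hR n))).2 a ha
      have := ge_of_tendsto' hl hle
      linarith
    by_contra hne
    have hpos : 0 < |∫ ω, (inner ℝ (Z ω) (f ω) : ℝ) ∂P| := abs_pos.2 hne
    have hd : 0 < 2 * (1 + ∫ ω, ‖Z ω‖ ^ 2 ∂P) := by positivity
    have h1 := hb (|∫ ω, (inner ℝ (Z ω) (f ω) : ℝ) ∂P| / (2 * (1 + ∫ ω, ‖Z ω‖ ^ 2 ∂P)))
      (by positivity)
    have h2 : |∫ ω, (inner ℝ (Z ω) (f ω) : ℝ) ∂P| / (2 * (1 + ∫ ω, ‖Z ω‖ ^ 2 ∂P))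
        * ∫ ω, ‖Z ω‖ ^ 2 ∂P ≤ |∫ ω, (inner ℝ (Z ω) (f ω) : ℝ) ∂P| / 2 := by
      rw [div_mul_eq_mul_div, div_le_div_iff₀ hd two_pos]
      nlinarith
    linarith

private lemma SdeLE_mart {Ω : Type} [mΩ : MeasurableSpace Ω] {P : Measure Ω} {N d : ℕ} {k β : ℝ}
    {ℱ : Filtration ℝ≥0 mΩ} {B : Site d → Fin N → Fin N → ℝ≥0 → Ω → ℝ}
    {H : ℝ≥0 → Site d → Ω → E N} (hβ : 1 < β) (hH : IsDynamo P k 1 β ℱ B H)
    (T : ℝ≥0) :
    ∃ C : ℝ, 0 < C ∧ ∀ s t : ℝ≥0, s ≤ t → t ≤ T → ∀ x,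
      MemLp (fun ω => ∫ r in (s : ℝ)..t, drf k 1 β (fun y => H r.toNNReal y ω) x) 2 P ∧
      MemLp (fun ω => H t x ω - H s x ω
        - (∫ r in (s : ℝ)..t, drf k 1 β (fun y => H r.toNNReal y ω) x)
        - mulv (fun a b => B x a b t ω - B x a b s ω) (H s x ω)) 2 P ∧
      ∫ ω, ‖H t x ω - H s x ω
        - (∫ r in (s : ℝ)..t, drf k 1 β (fun y => H r.toNNReal y ω) x)
        - mulv (fun a b => B x a b t ω - B x a b s ω) (H s x ω)‖ ^ 2 ∂P ≤ C * (t - s) ^ 2 ∧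
      (∀ Z : Ω → E N, Measurable[ℱ s] Z → MemLp Z 2 P → ∫ ω, inner ℝ (Z ω) (H t x ω - H s x ω
        - (∫ r in (s : ℝ)..t, drf k 1 β (fun y => H r.toNNReal y ω) x)
        - mulv (fun a b => B x a b t ω - B x a b s ω) (H s x ω)) ∂P = 0) := by
  have hP : IsProbabilityMeasure P := hH.prob
  obtain ⟨CH, hCH0, hCH⟩ := H_L2 hH T
  obtain ⟨CD, hCD0, hCD⟩ := drf_facts hβ hH T
  obtain ⟨C1, hC10, hC1⟩ := l2cont hβ hH T
  refine ⟨2 * (N * C1) + 1, by positivity, fun s t hst htT x => ?_⟩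
  have hD : MemLp (fun ω => ∫ r in (s : ℝ)..t, drf k 1 β (fun y => H r.toNNReal y ω) x) 2 P :=
    (tint_facts (fun r ω => drf k 1 β (fun y => H r y ω) x) s t hst (hCD x).1 (hCD x).2.1 CD
      hCD0.le (fun r _ hrt => (hCD x).2.2 r (hrt.trans htT))).1
  have hmv := mulv_sq hH s t hst x (H s x) (hH.adapted s x) (hCH s (hst.trans htT) x).1
  have hρ : MemLp (fun ω => H t x ω - H s x ω
        - (∫ r in (s : ℝ)..t, drf k 1 β (fun y => H r.toNNReal y ω) x)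
        - mulv (fun a b => B x a b t ω - B x a b s ω) (H s x ω)) 2 P :=
    (((hCH t htT x).1.sub (hCH s (hst.trans htT) x).1).sub hD).sub hmv.1
  have hts : (0 : ℝ) ≤ (t : ℝ) - s := sub_nonneg.2 (by exact_mod_cast hst)
  have hR := fun n : ℕ => rsum_sq hH (fun r y ω => H r y ω - H s y ω) x s t hst (C1 * (t - s))
    (fun r hsr hrt => ⟨(hH.adapted r x).sub ((hH.adapted s x).mono (ℱ.mono hsr) le_rfl),
      (hCH r (hrt.trans htT) x).1.sub (hCH s (hst.trans htT) x).1, by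
        refine (hC1 s r hsr (hrt.trans htT) x).trans ?_
        have : (r : ℝ) ≤ t := by exact_mod_cast hrt
        exact mul_le_mul_of_nonneg_left (by linarith) hC10.le⟩) (n + 1)
  have hlim : Filter.Tendsto (fun n : ℕ => eLpNorm (fun ω => (H t x ω - H s x ω
        - (∫ r in (s : ℝ)..t, drf k 1 β (fun y => H r.toNNReal y ω) x)
        - mulv (fun a b => B x a b t ω - B x a b s ω) (H s x ω))
        - rsum B (fun r y ω => H r y ω - H s y ω) x s t (n + 1) ω) 2 P) Filter.atTop (𝓝 0) := by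
    have h1 := (Filter.tendsto_add_atTop_iff_nat 1).2 (hH.ito x s t hst)
    refine h1.congr fun n => ?_
    congr 1
    funext ω
    rw [rsum_sub B H x s t hst (n + 1) (by omega) ω]
    abel
  have hmain := SdeLE_limit (fun n => rsum B (fun r y ω => H r y ω - H s y ω) x s t (n + 1)) hρ
    (fun n => (hR n).1) (K := N * (t - s) * (C1 * (t - s))) (fun n => (hR n).2.1) hlim
  refine ⟨hD, hρ, ?_, ?_⟩
  · refine hmain.1.trans ?_
    nlinarith [sq_nonneg ((t : ℝ) - s)]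
  · intro Z hZ hZ2
    exact hmain.2 Z hZ2 (fun n => (hR n).2.2 Z hZ hZ2)

theorem local_error {Ω : Type} [mΩ : MeasurableSpace Ω] {P : Measure Ω} {N d : ℕ} {k β : ℝ}
    {ℱ : Filtration ℝ≥0 mΩ} {B : Site d → Fin N → Fin N → ℝ≥0 → Ω → ℝ}
    {H : ℝ≥0 → Site d → Ω → E N} (hβ : 1 < β) (hk : 0 ≤ k) (hH : IsDynamo P k 1 β ℱ B H)
    (T : ℝ≥0) :
    ∃ C : ℝ, 0 < C ∧ ∀ δ : ℝ, 0 < δ → ∃ h0 : ℝ≥0, 0 < h0 ∧ ∀ h : ℝ≥0, 0 < h → h ≤ h0 →
      ∀ s : ℝ≥0, s + h ≤ T → ∀ x, ∃ ρM ρD : Ω → E N, MemLp ρM 2 P ∧ MemLp ρD 2 P ∧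
        (∀ᵐ ω ∂P, J β h (H s x ω + mulv (fun a b => B x a b (s + h) ω - B x a b s ω) (H s x ω)
            + ρM ω + ρD ω) = H (s + h) x ω - (k * h) • lap (fun y => H s y ω) x) ∧
        (∀ Z : Ω → E N, Measurable[ℱ s] Z → MemLp Z 2 P → ∫ ω, inner ℝ (Z ω) (ρM ω) ∂P = 0) ∧
        ∫ ω, ‖ρM ω‖ ^ 2 ∂P ≤ C * h ^ 2 ∧ ∫ ω, ‖ρD ω‖ ^ 2 ∂P ≤ δ * h ^ 2 := by
  have hP : IsProbabilityMeasure P := hH.prob
  obtain ⟨CM, hCM0, hCM⟩ := SdeLE_mart hβ hH T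
  obtain ⟨CH, hCH0, hCH⟩ := H_L2 hH T
  obtain ⟨CD, hCD0, hCD⟩ := drf_facts hβ hH T
  obtain ⟨C1, hC10, hC1⟩ := l2cont hβ hH T
  have hβ0 : 0 < β := by linarith
  obtain ⟨p, hp⟩ : ∃ p, p = ⌈4 * β + 2⌉₊ := ⟨_, rfl⟩
  have hp1 : 1 ≤ p := by
    rw [hp]
    exact Nat.one_le_ceil_iff.2 (by positivity)
  obtain ⟨Cp, hCp⟩ := hH.moments p T
  have hCp0 : 0 ≤ Cp := by
    refine le_trans ?_ (hCp 0 (zero_le) 0).2
    exact integral_nonneg fun ω => by positivity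
  have hHm : ∀ t y, AEStronglyMeasurable (H t y) P := fun t y =>
    ((hH.adapted t y).mono (ℱ.le t) le_rfl).aestronglyMeasurable
  -- constants
  obtain ⟨K2, hK2⟩ : ∃ K, K = (4 * d : ℝ) ^ 2 * ((1 + 2 * d) * CH) := ⟨_, rfl⟩
  obtain ⟨Kp, hKp⟩ : ∃ K, K = (4 * d : ℝ) ^ p * ((1 + 2 * d) * Cp) := ⟨_, rfl⟩
  have hK20 : 0 ≤ K2 := by rw [hK2]; positivity
  have hKp0 : 0 ≤ Kp := by rw [hKp]; positivity
  obtain ⟨M, hM⟩ : ∃ M, M = 2 ^ p * (Cp + k ^ p * Kp) + Cp := ⟨_, rfl⟩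
  have hM0 : 0 ≤ M := by rw [hM]; positivity
  have hCpM : Cp ≤ M := by
    rw [hM]
    have : 0 ≤ 2 ^ p * (Cp + k ^ p * Kp) := by positivity
    linarith
  obtain ⟨C2, hC20, hC2⟩ := b_L2 N β hβ.le M hM0
  rw [← hp] at hC2
  obtain ⟨K1, hK1⟩ : ∃ K, K = (4 * d : ℝ) ^ 2 * ((1 + 2 * d) * C1) := ⟨_, rfl⟩
  have hK10 : 0 ≤ K1 := by rw [hK1]; positivity
  obtain ⟨A, hA⟩ : ∃ A, A = 2 * (k ^ 2 * K1) + 2 * (C2 * √C1) := ⟨_, rfl⟩
  have hA0 : 0 ≤ A := by rw [hA]; positivity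
  obtain ⟨G, hG⟩ : ∃ G, G = 2 * A + 2 * (C2 * (k * √K2)) := ⟨_, rfl⟩
  have hG0 : 0 ≤ G := by rw [hG]; positivity
  refine ⟨CM, hCM0, fun δ hδ => ?_⟩
  have hq : 0 < min 1 ((δ / (G + 1)) ^ 2) := by
    have : 0 < δ / (G + 1) := by positivity
    exact lt_min one_pos (by positivity)
  refine ⟨⟨min 1 ((δ / (G + 1)) ^ 2), hq.le⟩, hq, fun h hh hh0 s hsT x => ?_⟩
  have hh0' : (h : ℝ) ≤ min 1 ((δ / (G + 1)) ^ 2) := hh0
  have hhp : (0 : ℝ) < h := hh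
  have hh1 : (h : ℝ) ≤ 1 := hh0'.trans (min_le_left _ _)
  have hsq : √(h : ℝ) ≤ δ / (G + 1) := by
    rw [Real.sqrt_le_left (by positivity)]
    exact hh0'.trans (min_le_right _ _)
  have hsq0 : 0 ≤ √(h : ℝ) := Real.sqrt_nonneg _
  have hhs : (h : ℝ) ≤ √(h : ℝ) := by
    rw [Real.le_sqrt' hhp]
    nlinarith
  have hGδ : √(h : ℝ) * G ≤ δ := by
    have h1 : √(h : ℝ) * (G + 1) ≤ δ := by
      rwa [le_div_iff₀ (by positivity)] at hsq
    nlinarith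
  obtain ⟨t, ht⟩ : ∃ t, t = s + h := ⟨_, rfl⟩
  rw [← ht] at hsT ⊢
  have hst : s ≤ t := by rw [ht]; exact le_self_add
  have hsT' : s ≤ T := hst.trans hsT
  have hts : (t : ℝ) - s = h := by rw [ht]; push_cast; ring
  obtain ⟨hD, hρM, hρM2, hρMZ⟩ := hCM s t hst hsT x
  rw [hts] at hρM2
  -- the laplacian at time `s`
  have hlm : AEStronglyMeasurable (fun ω => lap (fun y => H s y ω) x) P :=
    SdeLE_lap_meas (fun y => H s y) x (hHm s)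
  have hl2 := SdeLE_lap_int (P := P) (fun y => H s y) x (p := 2) (by norm_num) CH (hHm s)
    (fun y => SdeLE_int_sq (hCH s hsT' y).1) (fun y => (hCH s hsT' y).2)
  have hlp := SdeLE_lap_int (P := P) (fun y => H s y) x (p := p) hp1 Cp (hHm s)
    (fun y => (hCp s hsT' y).1) (fun y => (hCp s hsT' y).2)
  rw [← hK2] at hl2
  rw [← hKp] at hlp
  have hlL2 : MemLp (fun ω => lap (fun y => H s y ω) x) 2 P := by
    rw [memLp_two_iff_integrable_sq_norm hlm]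
    exact hl2.1
  -- the field `U`
  obtain ⟨U, hU⟩ : ∃ U : Ω → E N, U = fun ω => H t x ω - (k * h) • lap (fun y => H s y ω) x :=
    ⟨_, rfl⟩
  have hUm : AEStronglyMeasurable U P := by
    rw [hU]; exact (hHm t x).sub (hlm.const_smul (k * (h : ℝ)))
  have hUdom : ∀ ω, ‖U ω‖ ^ p ≤ 2 ^ p * (‖H t x ω‖ ^ p + k ^ p * ‖lap (fun y => H s y ω) x‖ ^ p) := by
    intro ω
    have h1 : ‖U ω‖ ≤ ‖H t x ω‖ + k * ‖lap (fun y => H s y ω) x‖ := by
      rw [hU]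
      refine (norm_sub_le _ _).trans ?_
      rw [norm_smul, Real.norm_eq_abs, abs_of_nonneg (by positivity)]
      have : k * h * ‖lap (fun y => H s y ω) x‖ ≤ k * ‖lap (fun y => H s y ω) x‖ := by
        refine mul_le_mul_of_nonneg_right ?_ (norm_nonneg _)
        nlinarith
      linarith
    refine (pow_le_pow_left₀ (norm_nonneg _) h1 p).trans ?_
    refine (add_pow_le (norm_nonneg _) (by positivity) p).trans ?_
    rw [mul_pow]
    refine mul_le_mul_of_nonneg_right ?_ (by positivity)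
    exact pow_le_pow_right₀ (by norm_num) (by omega)
  have hdomi : Integrable (fun ω => 2 ^ p * (‖H t x ω‖ ^ p
      + k ^ p * ‖lap (fun y => H s y ω) x‖ ^ p)) P :=
    ((hCp t hsT x).1.add (hlp.1.const_mul _)).const_mul _
  have hUi : Integrable (fun ω => ‖U ω‖ ^ p) P := by
    refine hdomi.mono' (hUm.norm.pow p) (Filter.Eventually.of_forall fun ω => ?_)
    rw [Real.norm_eq_abs, abs_of_nonneg (by positivity)]
    exact hUdom ω
  have hUM : ∫ ω, ‖U ω‖ ^ p ∂P ≤ M := by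
    refine (integral_mono hUi hdomi hUdom).trans ?_
    rw [integral_const_mul, integral_add (hCp t hsT x).1 (hlp.1.const_mul _), integral_const_mul]
    have h1 := (hCp t hsT x).2
    have h2 : k ^ p * ∫ ω, ‖lap (fun y => H s y ω) x‖ ^ p ∂P ≤ k ^ p * Kp :=
      mul_le_mul_of_nonneg_left hlp.2 (by positivity)
    have h3 : 2 ^ p * ((∫ ω, ‖H t x ω‖ ^ p ∂P) + k ^ p * ∫ ω, ‖lap (fun y => H s y ω) x‖ ^ p ∂P)
        ≤ 2 ^ p * (Cp + k ^ p * Kp) :=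
      mul_le_mul_of_nonneg_left (add_le_add h1 h2) (by positivity)
    rw [hM]
    linarith
  have hbU := hC2 P U (H t x) hUm (hHm t x) hUi (hCp t hsT x).1 hUM ((hCp t hsT x).2.trans hCpM)
  have hbT := hC2 P (H t x) (H t x) (hHm t x) (hHm t x) (hCp t hsT x).1 (hCp t hsT x).1
    ((hCp t hsT x).2.trans hCpM) ((hCp t hsT x).2.trans hCpM)
  -- `∫‖b(U)-b(H_t)‖²`
  have hb2 : ∫ ω, ‖(‖U ω‖ ^ β) • U ω - (‖H t x ω‖ ^ β) • H t x ω‖ ^ 2 ∂P
      ≤ C2 * (k * √K2) * √(h : ℝ) := by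
    refine hbU.2.2.trans ?_
    have h1 : ∫ ω, ‖U ω - H t x ω‖ ^ 2 ∂P ≤ (k * h) ^ 2 * K2 := by
      have e : ∀ ω, ‖U ω - H t x ω‖ ^ 2 = (k * h) ^ 2 * ‖lap (fun y => H s y ω) x‖ ^ 2 := by
        intro ω
        rw [hU]
        beta_reduce
        rw [sub_sub_cancel_left, norm_neg, norm_smul, mul_pow, Real.norm_eq_abs, sq_abs]
      simp only [e]
      rw [integral_const_mul]
      exact mul_le_mul_of_nonneg_left hl2.2 (by positivity)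
    have h2 : √(∫ ω, ‖U ω - H t x ω‖ ^ 2 ∂P) ≤ k * h * √K2 := by
      refine (Real.sqrt_le_sqrt h1).trans ?_
      rw [Real.sqrt_mul (by positivity), Real.sqrt_sq (by positivity)]
    have h3 : k * h * √K2 ≤ k * √K2 * √(h : ℝ) := by
      have : 0 ≤ k * √K2 := by positivity
      nlinarith
    have h4 := mul_le_mul_of_nonneg_left (h2.trans h3) hC20.le
    linarith
  -- the drift integrand
  obtain ⟨Φ, hΦ⟩ : ∃ Φ : ℝ≥0 → Ω → E N, Φ = fun r ω => drf k 1 β (fun y => H r y ω) x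
      - (k • lap (fun y => H s y ω) x - (‖H t x ω‖ ^ β) • H t x ω) := ⟨_, rfl⟩
  have hΦr : ∀ r, s ≤ r → r ≤ t → MemLp (Φ r) 2 P ∧ ∫ ω, ‖Φ r ω‖ ^ 2 ∂P ≤ A * √(h : ℝ) := by
    intro r hsr hrt
    have hrT := hrt.trans hsT
    have hrs : (r : ℝ) - s ≤ h := by
      have : (r : ℝ) ≤ t := by exact_mod_cast hrt
      linarith
    have htr : (t : ℝ) - r ≤ h := by
      have : (s : ℝ) ≤ r := by exact_mod_cast hsr
      linarith
    have hVm : ∀ y, AEStronglyMeasurable (fun ω => H r y ω - H s y ω) P := fun y =>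
      (hHm r y).sub (hHm s y)
    have hV2 : ∀ y, MemLp (fun ω => H r y ω - H s y ω) 2 P := fun y =>
      (hCH r hrT y).1.sub (hCH s hsT' y).1
    have hlV := SdeLE_lap_int (P := P) (fun y ω => H r y ω - H s y ω) x (p := 2) (by norm_num)
      (C1 * h) hVm (fun y => SdeLE_int_sq (hV2 y)) (fun y => (hC1 s r hsr hrT y).trans
        (mul_le_mul_of_nonneg_left hrs hC10.le))
    have hlVm : AEStronglyMeasurable (fun ω => lap (fun y => H r y ω - H s y ω) x) P :=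
      SdeLE_lap_meas (fun y ω => H r y ω - H s y ω) x hVm
    have hlV2 : MemLp (fun ω => lap (fun y => H r y ω - H s y ω) x) 2 P := by
      rw [memLp_two_iff_integrable_sq_norm hlVm]
      exact hlV.1
    have hbR := hC2 P (H r x) (H t x) (hHm r x) (hHm t x) (hCp r hrT x).1 (hCp t hsT x).1
      ((hCp r hrT x).2.trans hCpM) ((hCp t hsT x).2.trans hCpM)
    have hb3 : ∫ ω, ‖(‖H r x ω‖ ^ β) • H r x ω - (‖H t x ω‖ ^ β) • H t x ω‖ ^ 2 ∂P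
        ≤ C2 * √C1 * √(h : ℝ) := by
      refine hbR.2.2.trans ?_
      have h1 : ∫ ω, ‖H r x ω - H t x ω‖ ^ 2 ∂P ≤ C1 * h := by
        have h2 := hC1 r t hrt hsT x
        simp only [norm_sub_rev (H t x _) (H r x _)] at h2
        exact h2.trans (mul_le_mul_of_nonneg_left htr hC10.le)
      have h2 : √(∫ ω, ‖H r x ω - H t x ω‖ ^ 2 ∂P) ≤ √C1 * √(h : ℝ) := by
        refine (Real.sqrt_le_sqrt h1).trans ?_
        rw [Real.sqrt_mul hC10.le]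
      have h3 := mul_le_mul_of_nonneg_left h2 hC20.le
      linarith
    have e : Φ r = fun ω => k • lap (fun y => H r y ω - H s y ω) x
        - ((‖H r x ω‖ ^ β) • H r x ω - (‖H t x ω‖ ^ β) • H t x ω) := by
      rw [hΦ]
      funext ω
      rw [SdeLE_lap_sub (fun y => H r y ω) (fun y => H s y ω) x]
      unfold drf
      beta_reduce
      rw [one_mul, smul_sub]
      abel
    have hm1 : MemLp (fun ω => k • lap (fun y => H r y ω - H s y ω) x) 2 P := hlV2.const_smul k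
    have hm2 : MemLp (fun ω => (‖H r x ω‖ ^ β) • H r x ω - (‖H t x ω‖ ^ β) • H t x ω) 2 P :=
      hbR.1.sub hbT.1
    rw [e]
    refine ⟨hm1.sub hm2, ?_⟩
    refine (SdeLE_sub_sq hm1 hm2).trans ?_
    have h1 : ∫ ω, ‖k • lap (fun y => H r y ω - H s y ω) x‖ ^ 2 ∂P ≤ k ^ 2 * (K1 * √(h : ℝ)) := by
      have e2 : ∀ ω, ‖k • lap (fun y => H r y ω - H s y ω) x‖ ^ 2
          = k ^ 2 * ‖lap (fun y => H r y ω - H s y ω) x‖ ^ 2 := by
        intro ω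
        rw [norm_smul, mul_pow, Real.norm_eq_abs, sq_abs]
      simp only [e2]
      rw [integral_const_mul]
      refine mul_le_mul_of_nonneg_left ?_ (by positivity)
      refine hlV.2.trans ?_
      have h5 : (4 * d : ℝ) ^ 2 * ((1 + 2 * d) * (C1 * h)) = K1 * h := by rw [hK1]; ring
      rw [h5]
      exact mul_le_mul_of_nonneg_left hhs hK10
    rw [hA]
    linarith
  have hc : ∀ᵐ ω ∂P, Continuous (fun r => Φ r ω) := by
    filter_upwards [(hCD x).2.1] with ω hω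
    rw [hΦ]
    exact hω.sub continuous_const
  have hΦm : ∀ r, AEStronglyMeasurable (Φ r) P := by
    intro r
    rw [hΦ]
    exact ((hCD x).1 r).sub ((hlm.const_smul k).sub hbT.1.1)
  have htf := tint_facts Φ s t hst hΦm hc (A * √(h : ℝ)) (by positivity) hΦr
  rw [hts] at htf
  -- the pathwise identity
  have hid : ∀ᵐ ω ∂P, (∫ r in (s : ℝ)..t, drf k 1 β (fun y => H r.toNNReal y ω) x)
      - (k * h) • lap (fun y => H s y ω) x + (h : ℝ) • ((‖U ω‖ ^ β) • U ω)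
      = (∫ r in (s : ℝ)..t, Φ r.toNNReal ω)
        + (h : ℝ) • ((‖U ω‖ ^ β) • U ω - (‖H t x ω‖ ^ β) • H t x ω) := by
    filter_upwards [(hCD x).2.1] with ω hω
    have hint : IntervalIntegrable (fun r : ℝ => drf k 1 β (fun y => H r.toNNReal y ω) x)
        volume s t :=
      (hω.comp continuous_real_toNNReal).intervalIntegrable _ _
    have h1 : (∫ r in (s : ℝ)..t, Φ r.toNNReal ω)
        = (∫ r in (s : ℝ)..t, drf k 1 β (fun y => H r.toNNReal y ω) x)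
          - (h : ℝ) • (k • lap (fun y => H s y ω) x - (‖H t x ω‖ ^ β) • H t x ω) := by
      rw [hΦ]
      beta_reduce
      rw [intervalIntegral.integral_sub hint intervalIntegrable_const,
        intervalIntegral.integral_const, hts]
    rw [h1, smul_sub, smul_sub, smul_smul (h : ℝ) k, mul_comm k (h : ℝ)]
    abel
  have hLm : MemLp (fun ω => (k * h) • lap (fun y => H s y ω) x) 2 P := hlL2.const_smul (k * (h : ℝ))
  have hbUm : MemLp (fun ω => (h : ℝ) • ((‖U ω‖ ^ β) • U ω)) 2 P := hbU.1.const_smul (h : ℝ)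
  have hρD : MemLp (fun ω => (∫ r in (s : ℝ)..t, drf k 1 β (fun y => H r.toNNReal y ω) x)
      - (k * h) • lap (fun y => H s y ω) x + (h : ℝ) • ((‖U ω‖ ^ β) • U ω)) 2 P :=
    (hD.sub hLm).add hbUm
  refine ⟨_, _, hρM, hρD, ?_, hρMZ, hρM2, ?_⟩
  · refine Filter.Eventually.of_forall fun ω => ?_
    have hJ : J β h (U ω + ((h : ℝ) * ‖U ω‖ ^ β) • U ω) = U ω := J_unique hβ0 hhp.le rfl
    have e1 : H s x ω + mulv (fun a b => B x a b t ω - B x a b s ω) (H s x ω)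
        + (H t x ω - H s x ω
          - (∫ r in (s : ℝ)..t, drf k 1 β (fun y => H r.toNNReal y ω) x)
          - mulv (fun a b => B x a b t ω - B x a b s ω) (H s x ω))
        + ((∫ r in (s : ℝ)..t, drf k 1 β (fun y => H r.toNNReal y ω) x)
          - (k * h) • lap (fun y => H s y ω) x + (h : ℝ) • ((‖U ω‖ ^ β) • U ω))
        = U ω + ((h : ℝ) * ‖U ω‖ ^ β) • U ω := by
      have e2 : U ω = H t x ω - (k * h) • lap (fun y => H s y ω) x := by rw [hU]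
      have e3 : (h : ℝ) • ((‖U ω‖ ^ β) • U ω) = ((h : ℝ) * ‖U ω‖ ^ β) • U ω := smul_smul _ _ _
      rw [e3]
      nth_rewrite 3 [e2]
      abel
    beta_reduce
    rw [e1, hJ, hU]
  · have h1 : ∫ ω, ‖(∫ r in (s : ℝ)..t, drf k 1 β (fun y => H r.toNNReal y ω) x)
        - (k * h) • lap (fun y => H s y ω) x + (h : ℝ) • ((‖U ω‖ ^ β) • U ω)‖ ^ 2 ∂P
        = ∫ ω, ‖(∫ r in (s : ℝ)..t, Φ r.toNNReal ω)
          + (h : ℝ) • ((‖U ω‖ ^ β) • U ω - (‖H t x ω‖ ^ β) • H t x ω)‖ ^ 2 ∂P := by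
      refine integral_congr_ae ?_
      filter_upwards [hid] with ω hω
      rw [hω]
    have hm3 : MemLp (fun ω => (h : ℝ) • ((‖U ω‖ ^ β) • U ω - (‖H t x ω‖ ^ β) • H t x ω)) 2 P :=
      (hbU.1.sub hbT.1).const_smul (h : ℝ)
    have h2 := SdeLE_add_sq htf.1 hm3
    have h3 : ∫ ω, ‖(h : ℝ) • ((‖U ω‖ ^ β) • U ω - (‖H t x ω‖ ^ β) • H t x ω)‖ ^ 2 ∂P
        ≤ (h : ℝ) ^ 2 * (C2 * (k * √K2) * √(h : ℝ)) := by
      have e2 : ∀ ω, ‖(h : ℝ) • ((‖U ω‖ ^ β) • U ω - (‖H t x ω‖ ^ β) • H t x ω)‖ ^ 2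
          = (h : ℝ) ^ 2 * ‖(‖U ω‖ ^ β) • U ω - (‖H t x ω‖ ^ β) • H t x ω‖ ^ 2 := by
        intro ω
        rw [norm_smul, mul_pow, Real.norm_eq_abs, sq_abs]
      simp only [e2]
      rw [integral_const_mul]
      exact mul_le_mul_of_nonneg_left hb2 (by positivity)
    have h4 := htf.2
    have h5 : (h : ℝ) ^ 2 * (√(h : ℝ) * G) ≤ (h : ℝ) ^ 2 * δ :=
      mul_le_mul_of_nonneg_left hGδ (by positivity)
    refine h1.le.trans (h2.trans ?_)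
    rw [hG] at h5
    nlinarith

end Dyn
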