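import Pool.Agent.Lib_MP_36b788.Sde

/-!
# SDER: time integrals of processes with continuous paths (no joint measurability needed)

PROOF. `ω` fixed with a continuous path `f(r) = Φ_r(ω)`: the left Riemann sums
`S_n = Σ_{i<n} ((t-s)/n) f(s+i(t-s)/n)` converge to `∫_s^t f` (uniform continuity on `[s,t]`: split the integral at the points
`s+i(t-s)/n`, `intervalIntegral.sum_integral_adjacent_intervals`, each piece differs by at most `((t-s)/n)·ω_f(1/n)`).
`S_n(ω)` is a.e. strongly measurable, so the limit is. Minkowski: `‖S_n‖_2 ≤ (t-s)√C` (or Jensen: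
`‖S_n‖² ≤ (t-s) Σ((t-s)/n)‖Φ_{t_i}‖²`), Fatou gives the bound for the limit. `MemLp` follows.
-/

open MeasureTheory ProbabilityTheory
open scoped NNReal ENNReal Topology

namespace Dyn

theorem SdeR_piece {N : ℕ} (g : ℝ → E N) (hg : Continuous g) (a b : ℝ) (hab : a ≤ b)
    {ε δ0 : ℝ} (hd : ∀ x ∈ Set.Icc a b, ∀ y ∈ Set.Icc a b, dist x y < δ0 → dist (g x) (g y) < ε)
    (n : ℕ) (hn : 0 < n) (hδ : (b - a) / n < δ0) :
    ‖(∑ i ∈ Finset.range n, ((b - a) / n) • g (a + i * ((b - a) / n))) - ∫ r in a..b, g r‖ ≤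
      ε * (b - a) := by
  have hn0 : (0 : ℝ) < n := by exact_mod_cast hn
  obtain ⟨δ, hδd⟩ : ∃ δ, δ = (b - a) / n := ⟨_, rfl⟩
  have hδ0 : 0 ≤ δ := by rw [hδd]; exact div_nonneg (by linarith) hn0.le
  have hnδ : n * δ = b - a := by rw [hδd]; field_simp
  rw [← hδd] at hδ ⊢
  have h1 := intervalIntegral.sum_integral_adjacent_intervals (μ := volume) (f := g)
    (a := fun i : ℕ => a + i * δ) (n := n) (fun k _ => hg.intervalIntegrable _ _)
  have h2 : a + ((0 : ℕ) : ℝ) * δ = a := by push_cast; ring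
  have h3 : a + (n : ℝ) * δ = b := by rw [hnδ]; ring
  simp only [h2, h3] at h1
  rw [← h1, ← Finset.sum_sub_distrib]
  refine (norm_sum_le _ _).trans ?_
  have h4 : ∀ i ∈ Finset.range n, ‖δ • g (a + i * δ) -
      ∫ r in (a + i * δ)..(a + ((i + 1 : ℕ) : ℝ) * δ), g r‖ ≤ ε * δ := by
    intro i hi
    have hi' : (i : ℝ) + 1 ≤ n := by
      have := Finset.mem_range.1 hi
      exact_mod_cast this
    have hi0 : (0 : ℝ) ≤ i := Nat.cast_nonneg i
    have e1 : a + ((i + 1 : ℕ) : ℝ) * δ - (a + i * δ) = δ := by push_cast; ring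
    have hle : a + i * δ ≤ a + ((i + 1 : ℕ) : ℝ) * δ := by linarith
    have hiδ : 0 ≤ (i : ℝ) * δ := by positivity
    have htop : a + ((i + 1 : ℕ) : ℝ) * δ ≤ b := by
      have := mul_le_mul_of_nonneg_right hi' hδ0
      push_cast
      linarith
    have h5 : δ • g (a + i * δ) =
        ∫ _ in (a + i * δ)..(a + ((i + 1 : ℕ) : ℝ) * δ), g (a + i * δ) := by
      rw [intervalIntegral.integral_const, e1]
    rw [h5, ← intervalIntegral.integral_sub (intervalIntegrable_const) (hg.intervalIntegrable _ _)]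
    have h6 := intervalIntegral.norm_integral_le_of_norm_le_const (a := a + i * δ)
      (b := a + ((i + 1 : ℕ) : ℝ) * δ) (f := fun r => g (a + i * δ) - g r) (C := ε) (by
        intro r hr
        rw [Set.uIoc_of_le hle] at hr
        rw [← dist_eq_norm]
        refine (hd _ ⟨by linarith, by linarith⟩ _ ⟨by linarith [hr.1], by linarith [hr.2]⟩ ?_).le
        rw [Real.dist_eq, abs_sub_comm, abs_of_nonneg (by linarith [hr.1])]
        have := hr.2
        linarith)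
    rw [e1, abs_of_nonneg hδ0] at h6
    exact h6
  refine (Finset.sum_le_sum h4).trans ?_
  rw [Finset.sum_const, Finset.card_range, nsmul_eq_mul, ← hnδ]
  exact le_of_eq (by ring)

theorem SdeR_real {N : ℕ} (g : ℝ → E N) (hg : Continuous g) (a b : ℝ) (hab : a ≤ b) :
    Filter.Tendsto (fun n : ℕ => ∑ i ∈ Finset.range n,
      ((b - a) / n) • g (a + i * ((b - a) / n))) Filter.atTop (𝓝 (∫ r in a..b, g r)) := by
  rw [Metric.tendsto_atTop]
  intro ε hε
  have hU := (isCompact_Icc (a := a) (b := b)).uniformContinuousOn_of_continuous hg.continuousOn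
  rw [Metric.uniformContinuousOn_iff] at hU
  have hba : 0 ≤ b - a := by linarith
  obtain ⟨δ0, hδ0, hd⟩ := hU (ε / (b - a + 1)) (by positivity)
  obtain ⟨n0, hn0⟩ := exists_nat_gt ((b - a) / δ0)
  refine ⟨n0 + 1, fun n hn => ?_⟩
  have hnpos : 0 < n := by omega
  have hn1 : (0 : ℝ) < n := by exact_mod_cast hnpos
  have hn2 : (n0 : ℝ) ≤ n := by exact_mod_cast (by omega : n0 ≤ n)
  have h1 : (b - a) / n < δ0 := by
    rw [div_lt_iff₀ hn1]
    rw [div_lt_iff₀ hδ0] at hn0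
    nlinarith
  have h2 := SdeR_piece g hg a b hab hd n hnpos h1
  rw [dist_eq_norm]
  refine lt_of_le_of_lt h2 ?_
  rw [div_mul_eq_mul_div, div_lt_iff₀ (by linarith)]
  nlinarith

theorem SdeR_l2 {Ω : Type} [MeasurableSpace Ω] {P : Measure Ω} {N : ℕ} {f : Ω → E N}
    (hf : MemLp f 2 P) : eLpNorm f 2 P = ENNReal.ofReal (Real.sqrt (∫ ω, ‖f ω‖ ^ 2 ∂P)) := by
  rw [hf.eLpNorm_eq_integral_rpow_norm (by norm_num) (by norm_num)]
  congr 1
  have h2 : ((2 : ℝ≥0∞).toReal) = 2 := by norm_num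
  rw [h2, Real.sqrt_eq_rpow]
  congr 1
  · refine integral_congr_ae (Filter.Eventually.of_forall fun ω => ?_)
    show ‖f ω‖ ^ (2 : ℝ) = ‖f ω‖ ^ (2 : ℕ)
    rw [← Real.rpow_natCast]
    norm_num
  · norm_num

/-- left Riemann sums of a continuous function -/
theorem riemann_tendsto {N : ℕ} (f : ℝ≥0 → E N) (hf : Continuous f) (s t : ℝ≥0) (hst : s ≤ t) :
    Filter.Tendsto (fun n : ℕ => ∑ i ∈ Finset.range n,
      (((t - s) / n : ℝ≥0) : ℝ) • f (s + i * ((t - s) / n))) Filter.atTop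
      (𝓝 (∫ r in (s : ℝ)..t, f r.toNNReal)) := by
  have h1 := SdeR_real (fun r : ℝ => f r.toNNReal) (hf.comp continuous_real_toNNReal) s t
    (by exact_mod_cast hst)
  refine h1.congr fun n => ?_
  refine Finset.sum_congr rfl fun i _ => ?_
  have e1 : (((t - s) / n : ℝ≥0) : ℝ) = ((t : ℝ) - s) / n := by
    rw [NNReal.coe_div, NNReal.coe_sub hst, NNReal.coe_natCast]
  have e2 : ((s : ℝ) + i * (((t : ℝ) - s) / n)).toNNReal = s + i * ((t - s) / n) := by
    have e3 : (s : ℝ) + i * (((t : ℝ) - s) / n) = ((s + i * ((t - s) / n) : ℝ≥0) : ℝ) := by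
      rw [NNReal.coe_add, NNReal.coe_mul, e1, NNReal.coe_natCast]
    rw [e3, Real.toNNReal_coe]
  rw [e1, e2]

theorem tint_facts {Ω : Type} [MeasurableSpace Ω] {P : Measure Ω} [IsProbabilityMeasure P] {N : ℕ}
    (Φ : ℝ≥0 → Ω → E N) (s t : ℝ≥0) (hst : s ≤ t) (hm : ∀ r, AEStronglyMeasurable (Φ r) P)
    (hc : ∀ᵐ ω ∂P, Continuous (fun r => Φ r ω)) (C : ℝ) (hC0 : 0 ≤ C)
    (hC : ∀ r, s ≤ r → r ≤ t → MemLp (Φ r) 2 P ∧ ∫ ω, ‖Φ r ω‖ ^ 2 ∂P ≤ C) :
    MemLp (fun ω => ∫ r in (s : ℝ)..t, Φ r.toNNReal ω) 2 P ∧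
    ∫ ω, ‖∫ r in (s : ℝ)..t, Φ r.toNNReal ω‖ ^ 2 ∂P ≤ C * (t - s) ^ 2 := by
  obtain ⟨S, hS⟩ : ∃ S : ℕ → Ω → E N, S = fun n ω => ∑ i ∈ Finset.range n,
    (((t - s) / n : ℝ≥0) : ℝ) • Φ (s + i * ((t - s) / n)) ω := ⟨_, rfl⟩
  have hlim : ∀ᵐ ω ∂P, Filter.Tendsto (fun n => S n ω) Filter.atTop
      (𝓝 (∫ r in (s : ℝ)..t, Φ r.toNNReal ω)) := by
    filter_upwards [hc] with ω hω
    rw [hS]
    exact riemann_tendsto (fun r => Φ r ω) hω s t hst
  have hSm : ∀ n, AEStronglyMeasurable (S n) P := by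
    intro n
    rw [hS]
    refine Finset.aestronglyMeasurable_fun_sum _ fun i _ => ?_
    have h := (hm (s + i * ((t - s) / n))).const_smul (((t - s) / n : ℝ≥0) : ℝ)
    exact h
  have hIm : AEStronglyMeasurable (fun ω => ∫ r in (s : ℝ)..t, Φ r.toNNReal ω) P :=
    aestronglyMeasurable_of_tendsto_ae _ hSm hlim
  have hst' : (s : ℝ) ≤ t := by exact_mod_cast hst
  have hbd : ∀ n, eLpNorm (S n) 2 P ≤ ENNReal.ofReal (((t : ℝ) - s) * Real.sqrt C) := by
    intro n
    rcases Nat.eq_zero_or_pos n with rfl | hn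
    · have h0 : S 0 = 0 := by
        rw [hS]
        funext ω
        simp
      rw [h0, eLpNorm_zero]
      exact zero_le
    · have hn0 : (0 : ℝ≥0) < n := by exact_mod_cast hn
      have hSn : S n = ∑ i ∈ Finset.range n,
          (((t - s) / n : ℝ≥0) : ℝ) • Φ (s + i * ((t - s) / n)) := by
        rw [hS]
        funext ω
        simp
      rw [hSn]
      refine (eLpNorm_sum_le (fun i _ => (hm _).const_smul _) (by norm_num)).trans ?_
      have h1 : ∀ i ∈ Finset.range n,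
          eLpNorm ((((t - s) / n : ℝ≥0) : ℝ) • Φ (s + i * ((t - s) / n))) 2 P ≤
            ENNReal.ofReal ((((t : ℝ) - s) / n) * Real.sqrt C) := by
        intro i hi
        have hi' : (i : ℝ≥0) ≤ n := by
          have := (Finset.mem_range.1 hi).le
          exact_mod_cast this
        have h2 : i * ((t - s) / n) ≤ t - s := by
          calc (i : ℝ≥0) * ((t - s) / n) ≤ n * ((t - s) / n) := by gcongr
            _ = t - s := mul_div_cancel₀ _ hn0.ne'
        have h3 : s + i * ((t - s) / n) ≤ t := by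
          calc s + i * ((t - s) / n) ≤ s + (t - s) := by gcongr
            _ = t := add_tsub_cancel_of_le hst
        obtain ⟨h4, h5⟩ := hC (s + i * ((t - s) / n)) le_self_add h3
        rw [eLpNorm_const_smul, SdeR_l2 h4]
        have e1 : (((t - s) / n : ℝ≥0) : ℝ) = ((t : ℝ) - s) / n := by
          rw [NNReal.coe_div, NNReal.coe_sub hst, NNReal.coe_natCast]
        have h6 : 0 ≤ ((t : ℝ) - s) / n := by
          rw [← e1]
          exact NNReal.coe_nonneg _
        rw [e1, Real.enorm_eq_ofReal h6, ← ENNReal.ofReal_mul h6]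
        exact ENNReal.ofReal_le_ofReal (mul_le_mul_of_nonneg_left (Real.sqrt_le_sqrt h5) h6)
      refine (Finset.sum_le_sum h1).trans (le_of_eq ?_)
      rw [Finset.sum_const, Finset.card_range, nsmul_eq_mul]
      have h7 : (n : ℝ≥0∞) = ENNReal.ofReal n := (ENNReal.ofReal_natCast n).symm
      rw [h7, ← ENNReal.ofReal_mul (Nat.cast_nonneg n)]
      congr 1
      have : (n : ℝ) ≠ 0 := by exact_mod_cast hn.ne'
      field_simp
  have hle : eLpNorm (fun ω => ∫ r in (s : ℝ)..t, Φ r.toNNReal ω) 2 P ≤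
      ENNReal.ofReal (((t : ℝ) - s) * Real.sqrt C) := by
    refine (Lp.eLpNorm_lim_le_liminf_eLpNorm hSm _ hlim).trans ?_
    exact Filter.liminf_le_of_le (by isBoundedDefault) (fun b hb => by
      obtain ⟨n, hn⟩ := hb.exists
      exact hn.trans (hbd n))
  have hmem : MemLp (fun ω => ∫ r in (s : ℝ)..t, Φ r.toNNReal ω) 2 P :=
    ⟨hIm, lt_of_le_of_lt hle ENNReal.ofReal_lt_top⟩
  refine ⟨hmem, ?_⟩
  rw [SdeR_l2 hmem] at hle
  have h0 : 0 ≤ ((t : ℝ) - s) * Real.sqrt C := mul_nonneg (by linarith) (Real.sqrt_nonneg C)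
  have h1 := (ENNReal.ofReal_le_ofReal_iff h0).1 hle
  have h2 : 0 ≤ ∫ ω, ‖∫ r in (s : ℝ)..t, Φ r.toNNReal ω‖ ^ 2 ∂P :=
    integral_nonneg fun ω => sq_nonneg _
  rw [← Real.sq_sqrt h2]
  calc Real.sqrt (∫ ω, ‖∫ r in (s : ℝ)..t, Φ r.toNNReal ω‖ ^ 2 ∂P) ^ 2
      ≤ (((t : ℝ) - s) * Real.sqrt C) ^ 2 := pow_le_pow_left₀ (Real.sqrt_nonneg _) h1 2
    _ = C * (t - s) ^ 2 := by rw [mul_pow, Real.sq_sqrt hC0]; ring

end Dyn
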