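import Pool.Agent.Lib_MP_36b788.SdeInc
import Pool.Agent.Lib_MP_36b788.SdeG
import Pool.Agent.Lib_MP_36b788.PathM
import Pool.Agent.Lib_MP_36b788.JMap

/-!
# SDESTEP: one step of the Euler chain, adaptedness and conditional law

PROOF. `rc_adapted`: induction on `n`; `rc 0 = (H 0 x)_{x ∈ box}` is `ℱ 0`-measurable (`adapted`); `ℱ` is monotone, increments are
`ℱ((n+1)h)`-measurable (inc_meas), `J` continuous (J_continuous), `mulv` continuous, `coup` a finite sum.
`step_law`: `V = (Z, rc n)` is `ℱ(nh)`-measurable, independent of `ΔB = (B((n+1)h)-B(nh))` on the box (inc_past with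
`g = Subtype.val`). The law of `(V, ΔB)` is the product of the laws (`IndepFun` ↔ `indepFun_iff_map_prod_eq_prod_map_map`), so
`∫Z Ψ(rc (n+1)) = ∫∫ z Ψ(J(G_x + mulv(b_x)G_x) + kh coup G)dLaw(ΔB)(b) dLaw(V)(z,G)` (`integral_map`, `integral_prod`), and for
fixed `G` the inner integral is `∫Ψ(stp G ξ) d pim` by gauss_step (`hat β h g ξ = J(g + √h‖g‖ξ)`).
-/

open MeasureTheory ProbabilityTheory
open scoped NNReal ENNReal Topology

namespace Dyn

section
variable {Ω : Type} [mΩ : MeasurableSpace Ω] {P : Measure Ω} {N d : ℕ} {k ε β : ℝ}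
    {ℱ : Filtration ℝ≥0 mΩ} {B : Site d → Fin N → Fin N → ℝ≥0 → Ω → ℝ}
    {H : ℝ≥0 → Site d → Ω → E N}

private theorem SdeStep_meas {Ω' : Type} {m : MeasurableSpace Ω'} {ι : Type} [Fintype ι]
    (hβ : 0 < β) (h : ℝ≥0) (net : Net ι d) (R : Ω' → ι → E N) (hR : Measurable R)
    (b : ι → Fin N → Fin N → Ω' → ℝ) (hb : ∀ x i j, Measurable (b x i j)) :
    Measurable (fun ω x => J β h (R ω x + mulv (fun i j => b x i j ω) (R ω x))
      + (k * h) • coup net (R ω) x) := by
  have hRx : ∀ x, Measurable (fun ω => R ω x) := fun x => (measurable_pi_apply x).comp hR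
  refine measurable_pi_lambda _ fun x => ?_
  have h1 : Measurable (fun ω => mulv (fun i j => b x i j ω) (R ω x)) :=
    (mulv_continuous N).measurable.comp
      ((measurable_pi_lambda _ fun i => measurable_pi_lambda _ fun j => hb x i j).prodMk (hRx x))
  have h2 : Measurable (fun ω => coup net (R ω) x) := by
    unfold coup
    have h3 : Measurable (fun ω => ((2 * d : ℕ) : ℝ) • R ω x) :=
      (hRx x).const_smul ((2 * d : ℕ) : ℝ)
    exact (Finset.measurable_sum _ fun y _ => hRx y).sub h3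
  have h4 : Measurable (fun ω => (k * (h : ℝ)) • coup net (R ω) x) := h2.const_smul (k * (h : ℝ))
  exact ((J_continuous hβ h.2).measurable.comp ((hRx x).add h1)).add h4

private theorem SdeStep_le (h : ℝ≥0) (n : ℕ) : (n : ℝ≥0) * h ≤ ((n : ℝ≥0) + 1) * h := by
  rw [add_mul]
  exact le_self_add

omit mΩ in
private theorem SdeStep_rc (β k : ℝ) (h : ℝ≥0) (L : ℕ)
    (B : Site d → Fin N → Fin N → ℝ≥0 → Ω → ℝ) (H0 : Site d → Ω → E N) (n : ℕ) :
    rc β k h L B H0 (n + 1) = fun ω x =>
      J β h (rc β k h L B H0 n ω x +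
        mulv (fun a b => B x a b ((n + 1) * h) ω - B x a b (n * h) ω) (rc β k h L B H0 n ω x))
      + (k * h) • coup (boxNet d L) (rc β k h L B H0 n ω) x := by
  funext ω
  rw [rc]

theorem rc_adapted (hβ : 0 < β) (hH : IsDynamo P k ε β ℱ B H)
    (h : ℝ≥0) (L n : ℕ) : Measurable[ℱ (n * h)] (rc β k h L B (H 0) n) := by
  induction n with
  | zero =>
    have h0 : ((0 : ℕ) : ℝ≥0) * h = 0 := by simp
    rw [h0]
    have e : rc β k h L B (H 0) 0 = fun ω (x : boxS d L) => H 0 x ω := by funext ω; rw [rc]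
    rw [e]
    exact @measurable_pi_lambda Ω (boxS d L) (fun _ => E N) (ℱ 0) _ _
      (fun x => hH.adapted 0 x)
  | succ n ih =>
    have hle := SdeStep_le h n
    have e : ((n + 1 : ℕ) : ℝ≥0) = (n : ℝ≥0) + 1 := by push_cast; rfl
    rw [e, SdeStep_rc]
    have hR : Measurable[ℱ (((n : ℝ≥0) + 1) * h)] (rc β k h L B (H 0) n) :=
      ih.mono (ℱ.mono hle) le_rfl
    exact SdeStep_meas (m := ℱ (((n : ℝ≥0) + 1) * h)) (k := k) hβ h (boxNet d L) _ hR
      (fun x i j ω => B x i j ((n + 1) * h) ω - B x i j (n * h) ω)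
      (fun x i j => (inc_meas hH _ _ hle x i j).1)

private theorem SdeStep_indep [IsProbabilityMeasure P] {α γ : Type} [MeasurableSpace α]
    [MeasurableSpace γ] (V : Ω → α) (D : Ω → γ) (hV : Measurable V) (hD : Measurable D)
    (hI : IndepFun V D P) (F : α × γ → ℂ) (hF : Measurable F)
    (hF1 : ∀ ω ω', ‖F (V ω, D ω')‖ ≤ 1) :
    ∫ ω, F (V ω, D ω) ∂P = ∫ ω, ∫ ω', F (V ω, D ω') ∂P ∂P := by
  have hprod := (indepFun_iff_map_prod_eq_prod_map_map hV.aemeasurable hD.aemeasurable).1 hI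
  have hPV := Measure.isProbabilityMeasure_map (μ := P) hV.aemeasurable
  have hPD := Measure.isProbabilityMeasure_map (μ := P) hD.aemeasurable
  have hPP := Measure.isProbabilityMeasure_map (μ := P) (hV.prodMk hD).aemeasurable
  have hint : Integrable F (P.map (fun ω => (V ω, D ω))) := by
    refine Integrable.of_bound (C := 1) hF.aestronglyMeasurable ?_
    rw [ae_map_iff (hV.prodMk hD).aemeasurable (measurableSet_le hF.norm measurable_const)]
    exact Filter.Eventually.of_forall fun ω => hF1 ω ω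
  have e1 : ∫ ω, F (V ω, D ω) ∂P = ∫ q, F q ∂(P.map (fun ω => (V ω, D ω))) := by
    rw [integral_map (hV.prodMk hD).aemeasurable hF.aestronglyMeasurable]
  rw [e1]
  rw [hprod] at hint ⊢
  rw [integral_prod _ hint, integral_map hV.aemeasurable
    (hF.stronglyMeasurable.integral_prod_right').aestronglyMeasurable]
  refine integral_congr_ae (Filter.Eventually.of_forall fun ω => ?_)
  show ∫ b, F (V ω, b) ∂(P.map D) = ∫ ω', F (V ω, D ω') ∂P
  have h6 : Measurable (fun b => F (V ω, b)) := hF.comp (measurable_const.prodMk measurable_id)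
  rw [integral_map hD.aemeasurable h6.aestronglyMeasurable]

private theorem SdeStep_inner (hβ : 0 < β) (hH : IsDynamo P k ε β ℱ B H) (h : ℝ≥0) (L n : ℕ)
    (Ψ : (boxS d L → E N) → ℂ) (hΨ : Measurable Ψ) (G : boxS d L → E N) :
    ∫ ω', Ψ (fun x => J β h (G x + mulv (fun i j => B x i j ((n + 1) * h) ω'
      - B x i j (n * h) ω') (G x)) + (k * h) • coup (boxNet d L) G x) ∂P =
      ∫ ξ, Ψ (stp (boxNet d L) β h k G ξ) ∂(pim (boxS d L) (stdGaussian (E N))) := by
  have hP := hH.prob
  have hle := SdeStep_le h n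
  have hDm : ∀ x : boxS d L, ∀ i j : Fin N, Measurable
      (fun ω => B x i j ((n + 1) * h) ω - B x i j (n * h) ω) :=
    fun x i j => (inc_meas hH _ _ hle x i j).2
  have hA : Measurable (fun w : boxS d L → E N => Ψ (fun x => J β h (G x + w x)
      + (k * h) • coup (boxNet d L) G x)) := by
    refine hΨ.comp (measurable_pi_lambda _ fun x => Measurable.add ?_ measurable_const)
    exact (J_continuous hβ h.2).measurable.comp
      (measurable_const.add (measurable_pi_apply x))
  have hG : Measurable (fun ω' (x : boxS d L) =>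
      mulv (fun i j => B x i j ((n + 1) * h) ω' - B x i j (n * h) ω') (G x)) :=
    measurable_pi_lambda _ fun x => (mulv_continuous N).measurable.comp
      ((measurable_pi_lambda _ fun i => measurable_pi_lambda _ fun j =>
        hDm x i j).prodMk measurable_const)
  have hgs := gauss_step (P := P) (fun (x : boxS d L) i j ω =>
      B x i j ((n + 1) * h) ω - B x i j (n * h) ω) h hDm (fun x i j => by
        rw [inc_law hH _ _ hle x i j]
        congr 1
        rw [add_mul, one_mul, add_tsub_cancel_left])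
      (inc_indep hH (n * h) ((n + 1) * h) (κ := boxS d L) Subtype.val Subtype.val_injective) G
  have e2 : ∫ ω', Ψ (fun x => J β h (G x + mulv (fun i j => B x i j ((n + 1) * h) ω'
      - B x i j (n * h) ω') (G x)) + (k * h) • coup (boxNet d L) G x) ∂P =
      ∫ w, Ψ (fun x => J β h (G x + w x) + (k * h) • coup (boxNet d L) G x)
        ∂(P.map (fun ω' (x : boxS d L) => mulv (fun i j => B x i j ((n + 1) * h) ω'
      - B x i j (n * h) ω') (G x))) := by
    rw [integral_map hG.aemeasurable hA.aestronglyMeasurable]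
  have h5 : Measurable (fun (ξ : boxS d L → E N) (x : boxS d L) =>
      (Real.sqrt h * ‖G x‖) • ξ x) :=
    measurable_pi_lambda _ fun x => (measurable_pi_apply x).const_smul (Real.sqrt h * ‖G x‖)
  rw [e2, hgs, integral_map h5.aemeasurable hA.aestronglyMeasurable]
  rfl

theorem step_law (hβ : 0 < β) (hH : IsDynamo P k ε β ℱ B H) (h : ℝ≥0) (L n : ℕ)
    (Ψ : (boxS d L → E N) → ℂ) (hΨ : Measurable Ψ) (hb : ∀ G, ‖Ψ G‖ ≤ 1) (Z : Ω → ℂ)
    (hZ : Measurable[ℱ (n * h)] Z) (hZ1 : ∀ ω, ‖Z ω‖ ≤ 1) :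
    ∫ ω, Z ω * Ψ (rc β k h L B (H 0) (n + 1) ω) ∂P =
      ∫ ω, Z ω * (∫ ξ, Ψ (stp (boxNet d L) β h k (rc β k h L B (H 0) n ω) ξ)
        ∂(pim (boxS d L) (stdGaussian (E N)))) ∂P := by
  have hP := hH.prob
  have hle := SdeStep_le h n
  have hV' : Measurable[ℱ (n * h)] (fun ω => (Z ω, rc β k h L B (H 0) n ω)) :=
    Measurable.prodMk hZ (rc_adapted hβ hH h L n)
  have hV : Measurable (fun ω => (Z ω, rc β k h L B (H 0) n ω)) := hV'.mono (ℱ.le _) le_rfl
  have hD : Measurable (fun ω (q : boxS d L × Fin N × Fin N) =>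
      B q.1 q.2.1 q.2.2 ((n + 1) * h) ω - B q.1 q.2.1 q.2.2 (n * h) ω) :=
    measurable_pi_lambda _ fun q => (inc_meas hH _ _ hle q.1 q.2.1 q.2.2).2
  have hI := inc_past hH (n * h) ((n + 1) * h) hle (κ := boxS d L) Subtype.val _ hV'
  have hstep : Measurable (fun q : (ℂ × (boxS d L → E N)) × (boxS d L × Fin N × Fin N → ℝ) =>
      fun x => J β h (q.1.2 x + mulv (fun i j => q.2 (x, i, j)) (q.1.2 x))
        + (k * h) • coup (boxNet d L) q.1.2 x) :=
    SdeStep_meas (k := k) hβ h (boxNet d L)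
      (fun q : (ℂ × (boxS d L → E N)) × (boxS d L × Fin N × Fin N → ℝ) => q.1.2)
      (measurable_snd.comp measurable_fst) (fun x i j q => q.2 (x, i, j))
      (fun x i j => (measurable_pi_apply _).comp measurable_snd)
  have hF : Measurable (fun q : (ℂ × (boxS d L → E N)) × (boxS d L × Fin N × Fin N → ℝ) =>
      q.1.1 * Ψ (fun x => J β h (q.1.2 x + mulv (fun i j => q.2 (x, i, j)) (q.1.2 x))
        + (k * h) • coup (boxNet d L) q.1.2 x)) :=
    (measurable_fst.comp measurable_fst).mul (hΨ.comp hstep)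
  have key := SdeStep_indep (P := P) _ _ hV hD hI _ hF (fun ω ω' => by
    rw [norm_mul]
    exact mul_le_one₀ (hZ1 ω) (norm_nonneg _) (hb _))
  rw [SdeStep_rc]
  refine Eq.trans key (integral_congr_ae (Filter.Eventually.of_forall fun ω => ?_))
  show ∫ ω', Z ω * Ψ (fun x => J β h (rc β k h L B (H 0) n ω x
      + mulv (fun i j => B x i j ((n + 1) * h) ω' - B x i j (n * h) ω')
        (rc β k h L B (H 0) n ω x))
        + (k * h) • coup (boxNet d L) (rc β k h L B (H 0) n ω) x) ∂P = Z ω * _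
  rw [integral_const_mul, SdeStep_inner hβ hH h L n Ψ hΨ]

end

end Dyn
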