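import Pool.Agent.Lib_MP_36b788.Sde

/-!
# Space-time fields: exponentials, shifts, ergodic laws, solutions as bundles
-/

open MeasureTheory ProbabilityTheory Filter
open scoped NNReal ENNReal Topology

namespace Dyn

noncomputable section

/-- exponential test function `exp(i Σ_{q ∈ I} ⟪u_q, f q⟫)` on fields -/
def ech {A : Type} {N : ℕ} (I : Finset A) (u : A → E N) (f : A → E N) : ℂ :=
  Complex.exp (Complex.I * (∑ q ∈ I, (inner ℝ (u q) (f q) : ℝ) : ℝ))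

/-- space-time shift of a field on `[0,∞) × ℤ^d` -/
def shiftST {N d : ℕ} (s : ℝ≥0) (c : Site d) (f : ℝ≥0 × Site d → E N) : ℝ≥0 × Site d → E N :=
  fun q => f (q.1 + s, q.2 + c)

/-- a law of space-time fields that is invariant, mixing in time and ergodic -/
structure IsErg {N d : ℕ} (μ : Measure (ℝ≥0 × Site d → E N)) : Prop where
  prob : IsProbabilityMeasure μ
  inv : ∀ s c, μ.map (shiftST s c) = μ
  mix : ∀ A B : Set (ℝ≥0 × Site d → E N), MeasurableSet A → MeasurableSet B →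
    Tendsto (fun T : ℝ≥0 => μ (A ∩ shiftST T 0 ⁻¹' B)) atTop (𝓝 (μ A * μ B))
  erg : ∀ A : Set (ℝ≥0 × Site d → E N), MeasurableSet A →
    (∀ s c, shiftST s c ⁻¹' A =ᵐ[μ] A) → μ A = 0 ∨ μ A = 1

/-- a solution of the system with all its data -/
structure Sol (N d : ℕ) (k ε β : ℝ) where
  Ω : Type
  mΩ : MeasurableSpace Ω
  P : @Measure Ω mΩ
  ℱ : @Filtration Ω ℝ≥0 _ mΩ
  B : Site d → Fin N → Fin N → ℝ≥0 → Ω → ℝ
  H : ℝ≥0 → Site d → Ω → E N
  dyn : @IsDynamo Ω mΩ P N d k ε β ℱ B H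
  init : @IsInit Ω mΩ P N d (H 0)

attribute [instance] Sol.mΩ

/-- the solutions with diffusivity `k` forget their past and their initial law -/
def MixProp (N d : ℕ) (k β : ℝ) : Prop :=
  ∀ (S1 S2 : Sol N d k 1 β) (I : Finset (ℝ≥0 × Site d)) (u : ℝ≥0 × Site d → E N) (δ : ℝ), 0 < δ →
    ∃ T0 : ℝ≥0, ∀ T, T0 ≤ T → ∀ s1 s2 : ℝ≥0, ∀ Z : S1.Ω → ℂ, Measurable[S1.ℱ s1] Z →
      (∀ ω, ‖Z ω‖ ≤ 1) →
      ‖∫ ω, Z ω * Xf' S1.H I u (s1 + T) ω ∂S1.P
        - (∫ ω, Z ω ∂S1.P) * ∫ ω, Xf' S2.H I u (s2 + T) ω ∂S2.P‖ ≤ δ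

/-- extension of a box configuration by zero -/
def ext0 {N d L : ℕ} (G : boxS d L → E N) (x : Site d) : E N :=
  if hx : x ∈ boxS d L then G ⟨x, hx⟩ else 0

/-- discrete test function at time index `i` -/
def Fdisc {N d L : ℕ} (I : Finset (ℝ≥0 × Site d)) (u : ℝ≥0 × Site d → E N)
    (idx : ℝ≥0 × Site d → ℕ) (i : ℕ) (G : boxS d L → E N) : ℂ :=
  Complex.exp (Complex.I *
    (∑ q ∈ I.filter (fun q => idx q = i), (inner ℝ (u q) (ext0 G q.2) : ℝ) : ℝ))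

end

end Dyn
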